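import Pool.Agent.Work.MP_6bf1e5_an.Hyp.GapB

-- merged part: Pool.Agent.Work.MP_6bf1e5_an.Hyp.Defs
section
/-!
The parameters of the cascade and the envelope system.
-/

open Set Complex
open scoped InnerProductSpace ComplexConjugate
open Pool.Agent.Work.MP_6bf1e5_an.B (Z3 R3)
open Pool.Agent.Work.MP_6bf1e5_an.Hyp.Dec

namespace Pool.Agent.Work.MP_6bf1e5_an.Hyp

noncomputable section

/-- The relations between the large parameter `T`, the ratio `L` of consecutive frequencies and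
the ratio `Γ` of consecutive damping rates. -/
structure Par (T L Γ : ℝ) : Prop where
  hT : (10 : ℝ) ^ 100 ≤ T
  hL : T ^ 21 ≤ L
  lo : L ^ 2 ≤ Γ
  hi : Γ ^ 2 * T ^ 21 ≤ L ^ 5
  sm : L ^ 1000 ≤ Real.exp (T / 10 ^ 50)

/-- The parameters. -/
structure Geo where
  /-- The large parameter. -/
  T : ℕ
  /-- The ratio of consecutive frequencies. -/
  La : ℕ
  /-- The delay of the seed. -/
  kk : ℕ
  /-- Half the order of the dissipation. -/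
  α : ℝ
  four : 4 ∣ T
  α_lo : 1 ≤ α
  α_hi : α ≤ 5 / 4
  par : Par T La ((La : ℝ) ^ (2 * α))
  kk_lo : (La : ℝ) ^ (2 * α) ≤ La * (T : ℝ) ^ 2 * kk
  kk_hi : La * (T : ℝ) ^ 2 * kk ≤ 2 * (La : ℝ) ^ (2 * α)

namespace Geo

variable (G : Geo)

/-- The large parameter as a real number. -/
def t : ℝ := G.T

/-- The ratio of consecutive frequencies as a real number. -/
def L : ℝ := G.La

/-- The ratio of consecutive damping rates. -/
def Ga : ℝ := G.L ^ (2 * G.α)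

/-- The ratio of consecutive critical amplitudes. -/
def Q : ℝ := G.Ga / G.L

/-- The ratio of the size of a tooth to the scale of its driver. -/
def ρ : ℝ := G.L / G.t ^ 4

/-- The exponent of the relative errors. -/
def E : ℝ := G.Q / G.t ^ 2

/-- The exponent of the weight of the rungs. -/
def W : ℝ := G.Q / G.t

/-- The ratio of a carrier frequency to the comb spacing. -/
def m0 : ℝ := G.L ^ G.kk

/-- The ratio of the critical amplitudes over the delay. -/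
def mQ : ℝ := G.Q ^ G.kk

/-- A lower bound of the decay of the energy over the delay. -/
def m1 : ℝ := (G.t ^ 21) ^ G.kk

/-- The comb spacing. -/
def n (j : ℕ) : ℕ := G.T ^ 9 * G.La ^ j

/-- The carrier frequency. -/
def P (j : ℕ) : ℕ := G.n j * G.La ^ G.kk

/-- The wave number of level `j`. -/
def lam (j : ℕ) : ℝ := 2 * Real.pi * G.P j

/-- The unit of the rates at level `j`. -/
def lm (j : ℕ) : ℝ := G.lam j ^ (2 * G.α)

/-- The unit of the velocities at level `j`. -/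
def am (j : ℕ) : ℝ := G.lm j / G.lam j

/-- The half widths of the teeth. -/
def w (j : ℕ) : N3 := ![G.T ^ 5 * G.La ^ j, G.T * G.La ^ j, G.T ^ 5 * G.La ^ j]

/-- The radii of the teeth `b`. -/
def rb (j : ℕ) : N3 := fun i => G.w j i - 1

/-- The scale of the comb. -/
def rB (j : ℕ) : N3 := ![G.T ^ 5 * G.La ^ j, G.n j, G.n j]

/-- The scale of the rotated comb. -/
def rd (j : ℕ) : N3 := rot3 (G.rB j)

/-- The radii of the teeth `c`. -/
def rc : ℕ → N3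
  | 0 => G.rb 0
  | j + 1 => fun i => G.rb (j + 1) i + 2 * G.rd j i

/-- The radii of the rungs. -/
def ry (j : ℕ) : N3 := fun _ => G.n (j + 1) / 4 - 1

/-- The positions of the teeth. -/
def off (j : ℕ) : Fin 4 → Z3 :=
  ![![0, G.n j, 0], ![0, -(G.n j : ℤ), 0], ![0, 0, G.n j], ![0, 0, -(G.n j : ℤ)]]

/-- The square root of the volume of a tooth. -/
def N (j : ℕ) : ℝ := Nn (G.rb j)

/-- The ground state of a tooth. -/
def φ (j : ℕ) : V := ph (G.rb j)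

/-- The damping of the teeth. -/
def d (j : ℕ) : ℝ := 2 * G.lm j

/-- The damping of the rungs. -/
def D (j : ℕ) : ℝ := Real.exp (G.Q / 2) * G.lm j

/-- The ellipticity constant. -/
def C : ℝ := Real.exp (4 * (G.t ^ 3 * G.Ga ^ 2))

/-- The gain of the junk from the strong damping. -/
def ε0 : ℝ := Real.exp (-(G.t ^ 3 * G.Ga ^ 2))

/-- The size of the layers. -/
def ell (j : ℕ) : ℝ := Real.exp (-G.Ga ^ 2) * G.lm j

/-- The relative variation of the coefficients. -/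
def tau0 : ℝ := G.L ^ 3 / G.m0

/-- The weight of the rungs. -/
def Wc : ℝ := Real.exp G.W

/-- The ratio of consecutive upper levels. -/
def θ : ℝ := (G.t ^ 10)⁻¹

/-- The relative size of a level when its stage begins. -/
def xs : ℝ := (G.t ^ 9 * G.Q)⁻¹

/-- The relative difference of two teeth. -/
def ι : ℝ := 10 * (G.t ^ 10)⁻¹

/-- The relative size of the junk. -/
def δ0 : ℝ := Real.exp (-(G.t ^ 2 * G.Ga ^ 2))

/-- The maximal duration of stage `j`. -/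
def Δ (j : ℕ) : ℝ := G.t / G.lm j

end Geo

/-- The four rotations carrying the comb of a low level to the positions of the teeth. -/
def rot (o : Fin 4) (f : V) : V := ![tau f, dag (tau f), tau (tau f), dag (tau (tau f))] o

/-- The unknowns of the envelope system. -/
structure Raw where
  /-- The strain coefficient. -/
  kp : ℝ
  /-- The weight of the vertical teeth. -/
  om0 : ℝ
  /-- The coefficients of the ladder. -/
  cy : ℕ → ℝ
  /-- The coefficient of the seed. -/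
  cf : ℝ
  /-- The relative coefficients of the second comb in the seed. -/
  cq : Fin 4 → ℝ
  /-- The teeth of the first comb. -/
  b : ℕ → Fin 4 → ℝ → V
  /-- The teeth of the second comb. -/
  c : ℕ → Fin 4 → ℝ → V
  /-- The rungs. -/
  y : ℕ → ℕ → ℝ → V
  /-- Layers. -/
  vb : ℕ → Z3 → ℝ
  /-- Layers. -/
  vc : ℕ → Z3 → ℝ
  /-- Layers. -/
  vy : ℕ → ℕ → Z3 → ℝ
  /-- The sum norm of the solution. -/
  U : ℝ → ℝ
  /-- The square root of the enstrophy of the solution. -/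
  H : ℝ → ℝ
  /-- The sum norm of the junk. -/
  Fj : ℝ → ℝ
  /-- The square root of the enstrophy of the junk. -/
  Hj : ℝ → ℝ
  /-- The energy of the levels and ladders of index at least `i`. -/
  ET : ℕ → ℝ → ℝ
  /-- The size of the force. -/
  X : ℝ → ℝ

namespace Raw

variable (R : Raw) (G : Geo)

/-- The weights of the teeth. -/
def om : Fin 4 → ℝ := ![1, 1, R.om0, R.om0]

/-- The total weight. -/
def Om : ℝ := 2 + 2 * R.om0

/-- The comb with teeth `g`. -/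
def comb (j : ℕ) (g : Fin 4 → V) : V := ∑ o, (R.om o : ℂ) • (sh (G.off j o) * g o)

/-- The first comb. -/
def B (j : ℕ) (t : ℝ) : V := R.comb G j fun o => R.b j o t

/-- The second comb. -/
def Cc (j : ℕ) (t : ℝ) : V := R.comb G j fun o => R.c j o t

/-- The driver of level `j + 1`. -/
def A (j : ℕ) (t : ℝ) : V := tau (R.B G j t)

/-- The strain coefficient of level `j`. -/
def kap (j : ℕ) : ℝ := R.kp * G.lam j

/-- The critical amplitude of level `j`. -/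
def bh (j : ℕ) : ℝ := G.d (j + 1) / R.kap G j

/-- The critical amplitude of a tooth of level `j`. -/
def un (j : ℕ) : ℝ := R.bh G j / (R.Om * l1 (G.φ j))

/-- The low modes sitting at the position of the tooth `o` of level `j`. -/
def Z (j : ℕ) (o : Fin 4) (t : ℝ) : V :=
  if G.kk ≤ j then rot o (R.B G (j - G.kk) t +
    (R.cq o : ℂ) • (sh ![0, G.P (j - G.kk - 1), 0] * R.Cc G (j - G.kk) t)) else 0

/-- The seed of level `j + 1`. -/
def f (j : ℕ) (o : Fin 4) (t : ℝ) : V :=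
  ((R.cf * (2 * Real.pi * G.n (j + 1)) : ℝ) : ℂ) •
    pj (G.rc (j + 1)) (R.y j G.La t * R.Z G (j + 1) o t)

/-- The norm of level `j`. -/
def lev (j : ℕ) (t : ℝ) : ℝ := √(∑ o, (‖R.b j o t‖ ^ 2 + ‖R.c j o t‖ ^ 2))

/-- The norm of ladder `j`. -/
def ch (j : ℕ) (t : ℝ) : ℝ := √(∑ i ∈ Finset.Icc 1 G.La, ‖R.y j i t‖ ^ 2)

/-- The scaled norm of level `j`. -/
def nl (j : ℕ) (t : ℝ) : ℝ := G.N j * R.lev j t

/-- The scaled norm of ladder `j`. -/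
def ny (j : ℕ) (t : ℝ) : ℝ := G.N j * (G.L ^ 3 * R.ch G j t)

/-- The weighted norm of ladder `j`. -/
def nc (j : ℕ) (t : ℝ) : ℝ := G.N j * (G.Wc * R.ch G j t)

/-- The scaled norm of level and ladder `j`. -/
def nu (j : ℕ) (t : ℝ) : ℝ := R.nl G j t + R.ny G j t

/-- The scaled norm of the previous level. -/
def pv : ℕ → ℝ → ℝ
  | 0, _ => 0
  | j + 1, t => R.nu G j t

/-- The low levels. -/
def LowL (j : ℕ) (t : ℝ) : ℝ := ∑ i ∈ Finset.range (j + 1 - G.kk), R.nl G i t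

/-- The low ladders. -/
def LowY (j : ℕ) (t : ℝ) : ℝ := ∑ i ∈ Finset.range (j + 1 - G.kk), R.ny G i t

/-- The low modes. -/
def Low (j : ℕ) (t : ℝ) : ℝ := R.LowL G j t + R.LowY G j t

/-- The interaction with the junk. -/
def Jk (t : ℝ) : ℝ := R.U t * R.Hj t + R.Fj t * R.H t + R.X t

/-- The error in the equation of `b j`. -/
def eb (j : ℕ) (t : ℝ) : ℝ := 10 ^ 6 * G.lam j *
  (G.tau0 * R.pv G j t * R.lev j t +
    G.L ^ 3 * G.N j * R.ch G j t * (R.ch G j t + R.lev j t + R.lev (j + 1) t) +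
    G.N j * R.lev (j + 1) t * (R.lev (j + 1) t + R.ch G j t) +
    R.Low G j t * R.lev j t + G.N j * R.ET (j + G.kk - 1) t) + 10 * R.Jk t

/-- The error in the equation of `c (j + 1)`. -/
def ec (j : ℕ) (t : ℝ) : ℝ := G.t ^ 12 * (G.lam (j + 1) *
  (G.tau0 * R.nu G j t * R.lev (j + 1) t + R.Low G (j + 1) t * R.lev (j + 1) t +
    (R.LowY G (j + 1) t + G.tau0 / G.m0 * R.LowL G (j + 1) t) * ‖R.y j G.La t‖ +
    G.N (j + 1) * R.ET (j + G.kk) t) + R.Jk t)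

/-- The error in the equation of `y j (i + 1)`. -/
def ey (j i : ℕ) (t : ℝ) : ℝ := 10 ^ 6 * G.lam (j + 1) *
  (G.tau0 * R.nl G j t * ‖R.y j i t‖ +
    (R.nl G j t + R.Low G (j + 1) t) * (‖R.y j (i + 2) t‖ + R.lev (j + 1) t) +
    R.Low G j t * ‖R.y j (i + 1) t‖ + G.L ^ 2 * G.N j * R.ET (j + G.kk - 1) t) + 10 * R.Jk t

/-- The initial amplitudes in units of the critical amplitude. -/
def AA0 (G : Geo) (j : ℕ) : ℝ := if j < G.kk then 5 else if j = G.kk then 10 * G.xs else 0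

end Raw

/-- The envelope system. -/
structure IsNet (G : Geo) (R : Raw) : Prop where
  kp_pos : 0 < R.kp
  kp_lo : 1 / 200 ≤ R.kp ^ 2 * G.t ^ 21
  kp_hi : R.kp ^ 2 * G.t ^ 21 ≤ 1 / 100
  om_lo : 7 ≤ R.om0
  om_hi : R.om0 ≤ 9
  cy_lo : ∀ i, 1 / 3 ≤ R.cy i
  cy_hi : ∀ i, R.cy i ≤ 1
  cf_lo : 1 ≤ R.cf
  cf_hi : R.cf ≤ G.t ^ 11
  cq_le : ∀ o, R.cq o ^ 2 * G.t ^ 21 ≤ 1
  spb : ∀ j o t, Sp (G.rb j) (R.b j o t)
  spc : ∀ j o t, Sp (G.rc j) (R.c j o t)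
  spy : ∀ j i t, Sp (G.ry j) (R.y j (i + 1) t)
  rlb : ∀ j o t, Rl (R.b j o t)
  rlc : ∀ j o t, Rl (R.c j o t)
  rly : ∀ j i t, Rl (R.y j i t)
  c0 : ∀ o t, R.c 0 o t = 0
  y0 : ∀ j t, R.y j 0 t = R.A G j t
  yend : ∀ j t, R.y j (G.La + 1) t = 0
  layb : ∀ j, Lay (G.rb j) (G.ell j) (R.vb j)
  layc : ∀ j, Lay (G.rc j) (G.ell j) (R.vc j)
  layy : ∀ j i, Lay (G.ry j) (G.ell j) (R.vy j i)
  eqB0 : ∀ o t, 0 ≤ t → ∃ r, ‖r‖ ≤ R.eb G 0 t ∧ HD (R.b 0 o)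
    (-((G.d 0 : ℂ) • R.b 0 o t) - mulr (R.vb 0) (R.b 0 o t) + r) t
  eqB : ∀ j o t, 0 ≤ t → ∃ r, ‖r‖ ≤ R.eb G (j + 1) t ∧ HD (R.b (j + 1) o)
    ((R.kap G j : ℂ) • pj (G.rb (j + 1)) (dag (R.A G j t) * R.c (j + 1) o t)
      - (G.d (j + 1) : ℂ) • R.b (j + 1) o t - mulr (R.vb (j + 1)) (R.b (j + 1) o t) + r) t
  eqC : ∀ j o t, 0 ≤ t → ∃ r, ‖r‖ ≤ R.ec G j t ∧ HD (R.c (j + 1) o)
    ((R.kap G j : ℂ) • (R.A G j t * R.b (j + 1) o t)
      - (G.d (j + 1) : ℂ) • R.c (j + 1) o t - mulr (R.vc (j + 1)) (R.c (j + 1) o t)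
      + R.f G j o t + r) t
  eqY : ∀ j i t, i < G.La → 0 ≤ t → ∃ r, ‖r‖ ≤ R.ey G j i t ∧ HD (R.y j (i + 1))
    (((R.cy (i + 1) * G.lam j : ℝ) : ℂ) • pj (G.ry j) (R.B G j t * R.y j i t)
      - (G.D j : ℂ) • R.y j (i + 1) t - mulr (R.vy j (i + 1)) (R.y j (i + 1) t) + r) t
  U_nonneg : ∀ t, 0 ≤ R.U t
  H_nonneg : ∀ t, 0 ≤ R.H t
  Fj_nonneg : ∀ t, 0 ≤ R.Fj t
  Hj_nonneg : ∀ t, 0 ≤ R.Hj t
  ET_nonneg : ∀ i t, 0 ≤ R.ET i t
  X_nonneg : ∀ t, 0 ≤ R.X t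
  U_le : ∀ t K, 0 ≤ t → (∀ M, ∑ j ∈ Finset.range M, R.nu G j t ≤ K) →
    R.U t ≤ 10 ^ 4 * K + R.Fj t
  H_le : ∀ t K, 0 ≤ t →
    (∀ M, ∑ j ∈ Finset.range M, G.lam (j + 1) * (R.lev j t + R.ch G j t) ≤ K) →
    R.H t ≤ 10 ^ 4 * K + R.Hj t
  ET_le : ∀ i t K, 0 ≤ t → (∀ M, ∑ j ∈ Finset.Ico i M, (R.lev j t ^ 2 + R.ch G j t ^ 2) ≤ K) →
    R.ET i t ≤ 10 ^ 4 * K
  contU : ContinuousOn R.U (Ici 0)
  contH : ContinuousOn R.H (Ici 0)
  duh : ∀ J t0 t1 U0 H0, 0 ≤ t0 → t0 ≤ t1 → t1 ≤ t0 + G.Δ J → (∀ s ∈ Icc t0 t1, R.X s = 0) →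
    (∀ s ∈ Icc t0 t1, R.U s ≤ U0) → (∀ s ∈ Icc t0 t1, R.H s ≤ H0) →
    R.Fj t1 ≤ R.Fj t0 + G.ε0 * (U0 ^ 2 / G.am J) ∧
      R.Hj t1 ≤ R.Hj t0 + G.ε0 * (U0 * H0 / G.am J)
  decay : ∀ (s : ℕ) (tb : ℝ), ∃ K, ∀ j, ∀ t ∈ Icc 0 tb, G.lam j ^ s * (R.lev j t + R.ch G j t) ≤ K
  initb : ∀ j o, R.b j o 0 = ((Raw.AA0 G j * R.un G j : ℝ) : ℂ) • G.φ j
  initc : ∀ j o, R.c j o 0 = (((if j = G.kk then Raw.AA0 G j else 0) * R.un G j : ℝ) : ℂ) • G.φ j
  inity : ∀ j i, R.y j (i + 1) 0 = 0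
  initF : R.Fj 0 = 0
  initH : R.Hj 0 = 0

end

end Pool.Agent.Work.MP_6bf1e5_an.Hyp
end

-- merged part: Pool.Agent.Work.MP_6bf1e5_an.Hyp.StDef
section
/-!
The stages of the cascade.
-/

open Set Complex Filter Topology
open scoped InnerProductSpace ComplexConjugate
open Pool.Agent.Work.MP_6bf1e5_an.B (Z3 R3)
open Pool.Agent.Work.MP_6bf1e5_an.Hyp.Dec

namespace Pool.Agent.Work.MP_6bf1e5_an.Hyp

noncomputable section

namespace Raw

variable (R : Raw) (G : Geo)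

/-- The amplitude of level `j` in units of the critical amplitude. -/
def aa (j : ℕ) (t : ℝ) : ℝ := (ev 0 (R.B G j t)).re / R.bh G j

/-- The normalised comb of level `j`. -/
def pB (j : ℕ) (t : ℝ) : V := (ev 0 (R.B G j t))⁻¹ • R.B G j t

/-- The normalised driver of level `j + 1`. -/
def pp (j : ℕ) (t : ℝ) : V := tau (R.pB G j t)

/-- The slaved amplitudes of the rungs of ladder `j` at amplitude `a`. -/
def Yq (j : ℕ) (a : ℝ) (i : ℕ) : ℝ :=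
  R.bh G j * a * ∏ m ∈ Finset.range i, R.cy (m + 1) * G.lam j * (R.bh G j * a) / G.D j

/-- The slaved seed of level `j + 1`. -/
def Fs (j : ℕ) (z a : ℝ) : ℝ := R.cf * (2 * Real.pi * G.n (j + 1)) * z * R.Yq G j a G.La

end Raw

/-- A linear combination of teeth. -/
def cmb (m : Fin 4 → ℝ) (g : Fin 4 → V) : V := ∑ o, (m o : ℂ) • g o

/-- The exponential comparison function of a stage. -/
def Ex (t0 E0 g0 t : ℝ) : ℝ := E0 * Real.exp (g0 * (t - t0))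

/-- The first moments of the current comb. -/
def Geo.mv (G : Geo) (j : ℕ) (i : Fin 3) : ℝ :=
  10 ^ 3 * (1 / 10 ^ 29 * G.w j i + 2 * G.ι * G.rB j i)

/-- The state at the beginning `t` of stage `J`. -/
structure St (G : Geo) (R : Raw) (J : ℕ) (t : ℝ) (AA : ℕ → ℝ) : Prop where
  kJ : G.kk ≤ J
  t0 : 0 ≤ t
  oldA : ∀ i < J, 2 ≤ AA i ∧ AA i ≤ 10
  oldb : ∀ i < J, ∀ o, ‖R.b i o t - ((AA i * R.un G i : ℝ) : ℂ) • G.φ i‖ ≤
    1 / 10 ^ 20 * (1 - (1 / 2) ^ (J - i)) * R.un G i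
  oldc : ∀ i < J, ∀ o, ‖R.c i o t‖ ≤ 30 * (1 - (1 / 2) ^ (J - i)) * R.un G i
  oldy : ∀ i < J, R.nc G i t ≤ 30 * (1 - (1 / 2) ^ (J - i)) * R.bh G i
  curA : G.xs ≤ AA J ∧ AA J ≤ 10 ^ 3 * G.xs
  curb : ∀ o, ‖R.b J o t - ((AA J * R.un G J : ℝ) : ℂ) • G.φ J‖ ≤ 1 / 10 ^ 30 * (AA J * R.un G J)
  curc : ∀ o, ‖R.c J o t - ((AA J * R.un G J : ℝ) : ℂ) • G.φ J‖ ≤ 1 / 10 ^ 30 * (AA J * R.un G J)
  difb : ∀ o o', ‖R.b J o t - R.b J o' t‖ ≤ G.ι * (AA J * R.un G J)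
  difc : ∀ o o', ‖R.c J o t - R.c J o' t‖ ≤ G.ι * (AA J * R.un G J)
  upy : ∀ i, J ≤ i → R.nc G i t ≤ 20 * G.θ ^ (i - J + 1) * G.xs * R.bh G J
  upl : ∀ i, J + 1 ≤ i → G.Wc * R.nl G i t ≤ 20 * G.θ ^ (i - J) * G.xs * R.bh G J
  Fj : R.Fj t ≤ G.δ0 * G.am J
  Hj : R.Hj t ≤ G.δ0 * (G.lm J / G.N J)

/-- The levels above `J` have size `u`. -/
structure Up (G : Geo) (R : Raw) (J : ℕ) (t u : ℝ) : Prop where
  nw : R.nl G (J + 1) t ≤ u
  y : ∀ i, J + 1 ≤ i → R.nc G i t ≤ G.θ ^ (i - J) * u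
  l : ∀ i, J + 2 ≤ i → G.Wc * R.nl G i t ≤ G.θ ^ (i - J - 1) * u

/-- The crude bounds. -/
structure Cr0 (G : Geo) (R : Raw) (J : ℕ) (t : ℝ) : Prop where
  t0 : 0 ≤ t
  nl : ∀ i, R.nl G i t ≤ 10 * R.bh G i
  nc : ∀ i, R.nc G i t ≤ 30 * R.bh G i
  up : Up G R J t (11 * G.xs * R.bh G (J + 1))

/-- The bound of the interaction with the junk. -/
def Jb (G : Geo) (R : Raw) (J : ℕ) (t : ℝ) : Prop :=
  R.Jk t ≤ Real.exp (-(G.t * G.Ga ^ 2)) * (G.lm J * G.am J / G.N J)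

/-- The bounds at time `t` of stage `J`, the current level having size `E`. -/
structure Bnd (G : Geo) (R : Raw) (J : ℕ) (AA : ℕ → ℝ) (t E : ℝ) : Prop where
  kJ : G.kk ≤ J
  t0 : 0 ≤ t
  oldA : ∀ i < J, 2 ≤ AA i ∧ AA i ≤ 10
  oldb : ∀ i < J, ∀ o, ‖R.b i o t - ((AA i * R.un G i : ℝ) : ℂ) • G.φ i‖ ≤
    1 / 10 ^ 20 * (1 - (1 / 2) ^ (J + 1 - i)) * R.un G i
  oldc : ∀ i < J, ∀ o, ‖R.c i o t‖ ≤ 30 * (1 - (1 / 2) ^ (J + 1 - i)) * R.un G i
  oldy : ∀ i < J, R.nc G i t ≤ 30 * (1 - (1 / 2) ^ (J + 1 - i)) * R.bh G i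
  Elo : G.xs ≤ E
  Ehi : E ≤ 21 / 2
  curl : R.lev J t ≤ 4 * (E * R.un G J)
  cury : R.nc G J t ≤ E * R.bh G J
  up : Up G R J t (G.xs * E * R.bh G (J + 1))

/-- The crude description of stage `j + 1` on the stopped interval `[t0, c]`. -/
structure Run (G : Geo) (R : Raw) (j : ℕ) (AA : ℕ → ℝ) (t0 c g0 : ℝ) : Prop where
  st : St G R (j + 1) t0 AA
  le : t0 ≤ c
  le' : c ≤ t0 + G.Δ (j + 1)
  g0_eq : g0 = G.d (j + 1) * (R.aa G j t0 - 1)
  g0_lo : 99 / 100 * G.d (j + 1) ≤ g0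
  g0_hi : g0 ≤ 901 / 100 * G.d (j + 1)
  bnd : ∀ t ∈ Icc t0 c, Bnd G R (j + 1) AA t (Ex t0 (AA (j + 1)) g0 t)
  jb : ∀ t ∈ Icc t0 c, Jb G R (j + 1) t
  drift : ∀ t ∈ Icc t0 c, |R.aa G j t - R.aa G j t0| ≤ (G.t ^ 9)⁻¹
  Fj : R.Fj c ≤ G.δ0 * G.am (j + 2)
  Hj : R.Hj c ≤ G.δ0 * (G.lm (j + 2) / G.N (j + 2))
  stop : Ex t0 (AA (j + 1)) g0 c = 21 / 2 ∨
    (R.nl G (j + 2) c = G.xs * Ex t0 (AA (j + 1)) g0 c * R.bh G (j + 2) ∧
      ∃ᶠ t in 𝓝[>] c, G.xs * Ex t0 (AA (j + 1)) g0 t * R.bh G (j + 2) < R.nl G (j + 2) t)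

/-- The current level `J` at time `t`. -/
structure Cur (G : Geo) (R : Raw) (J : ℕ) (g0 t E : ℝ) : Prop where
  near : |R.aa G J t - E| ≤ 1 / 10 ^ 9 * E
  grow : ∃ D, HD (R.aa G J) D t ∧ 999 / 1000 * g0 * R.aa G J t ≤ D ∧
    D ≤ 1001 / 1000 * g0 * R.aa G J t
  clb : ∀ o, ‖R.b J o t - ((R.aa G J t * R.un G J : ℝ) : ℂ) • G.φ J‖ ≤
    1 / 10 ^ 29 * (R.aa G J t * R.un G J)
  clc : ∀ o, ‖R.c J o t - ((R.aa G J t * R.un G J : ℝ) : ℂ) • G.φ J‖ ≤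
    1 / 10 ^ 29 * (R.aa G J t * R.un G J)
  drv : Drv G.t (G.rB J) (G.mv J) (10 ^ 5 / G.t ^ 4) (R.pB G J t)
  dp : ∃ p', HD (R.pB G J) p' t ∧ Sp (fun i => 2 * G.rB J i) p' ∧ ev 0 p' = 0 ∧
    l1 p' ≤ 10 ^ 3 * G.d J

/-- The upper bounds of the new level `J + 1` and of ladder `J` at time `t`; `z` is the amplitude
of the low comb, `g` the value of the comparison function. -/
structure Upp (G : Geo) (R : Raw) (J : ℕ) (z t g : ℝ) : Prop where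
  lev : R.lev (J + 1) t ≤ 20 * g / G.N J
  y : ∀ i ≤ G.La, ‖R.y J i t‖ ≤
    3 * R.Yq G J (R.aa G J t) i / G.N J + Real.exp (-(G.Q / 3)) * (20 * g / G.N J)
  ey : ∀ i < G.La, R.ey G J i t ≤
    Real.exp (-G.t ^ 19) * (G.D J * R.Yq G J (R.aa G J t) (i + 1) / G.N J) +
      G.L ^ 10 * G.lm J * (g / G.N J)
  ebc : R.eb G (J + 1) t + R.ec G J t ≤
    Real.exp (-(2 * G.E)) * ((R.Fs G J z (R.aa G J t) + G.d (J + 1) * g) / G.N J)

/-- The comparison function of the new level `J + 1`. -/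
structure Cmp (G : Geo) (R : Raw) (J : ℕ) (z t0 c : ℝ) (g : ℝ → ℝ) : Prop where
  init : g t0 = Real.exp (G.t * G.Q) * R.bh G (J + 1)
  ode : ∀ t ∈ Icc t0 c, HD g (G.d (J + 1) * (R.aa G J t - 1) * g t + R.Fs G J z (R.aa G J t)) t

/-- The three properties of a seed `f` of size `F` with slack `X`. -/
structure Seed (T ρ : ℝ) (n r : N3) (N1 : ℝ) (p f : V) (F X : ℝ) : Prop where
  wt : ∀ (i : Fin 3) (u : ℝ), |u| * r i ≤ T / (3000 * ρ) →
    ‖wt (Pi.single i u) f‖ ≤ (Real.exp (T / 10 ^ 19) * F + X) / N1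
  sup : ∀ x ∈ cube, ‖ev x f‖ ≤ 11 / 10 * F + X
  low : 4 / 5 * F - X ≤ Nn n * (⟪p * ph n, f⟫_ℂ).re

end

end Pool.Agent.Work.MP_6bf1e5_an.Hyp
end

-- merged part: Pool.Agent.Work.MP_6bf1e5_an.Hyp.Num
section
/-!
Numerical facts about the parameters.
-/

open Set Complex Filter Topology
open scoped InnerProductSpace ComplexConjugate
open Pool.Agent.Work.MP_6bf1e5_an.B (Z3 R3)
open Pool.Agent.Work.MP_6bf1e5_an.Hyp.Dec

namespace Pool.Agent.Work.MP_6bf1e5_an.Hyp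

noncomputable section

namespace Geo

variable (G : Geo)

lemma par' : Par G.t G.L G.Ga := G.par

lemma t_big : (10 : ℝ) ^ 100 ≤ G.t := G.par.hT

lemma big : 10 ^ 100 ≤ G.T := by
  have h : (10 : ℝ) ^ 100 ≤ (G.T : ℝ) := G.par.hT
  exact_mod_cast h

lemma t_pos : 0 < G.t := lt_of_lt_of_le (by positivity) G.t_big

lemma one_le_t : 1 ≤ G.t := le_trans (by norm_num) G.t_big

/-- One more power of `t` beats any reasonable constant. -/
lemma pow_lt {a b : ℕ} (h : a < b) : 10 ^ 100 * G.t ^ a ≤ G.t ^ b := by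
  have h1 := G.one_le_t
  calc 10 ^ 100 * G.t ^ a ≤ G.t * G.t ^ a := mul_le_mul_of_nonneg_right G.t_big (by positivity)
    _ = G.t ^ (a + 1) := (pow_succ' _ _).symm
    _ ≤ _ := pow_le_pow_right₀ h1 h

lemma pow_le {a b : ℕ} (h : a ≤ b) : G.t ^ a ≤ G.t ^ b := pow_le_pow_right₀ G.one_le_t h

lemma pow_le_exp {k : ℕ} (hk : k ≤ 1000) : G.t ^ k ≤ Real.exp (G.t / 10 ^ 50) := by
  have t0 := G.t_pos
  obtain ⟨s, s0, hs⟩ : ∃ s : ℝ, 0 < s ∧ s ^ 4 = G.t := ⟨√(√G.t), by positivity, by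
    rw [show 4 = 2 * 2 by norm_num, pow_mul, Real.sq_sqrt (by positivity), Real.sq_sqrt t0.le]⟩
  have s1 : (10 : ℝ) ^ 25 ≤ s := by
    refine le_of_pow_le_pow_left₀ (n := 4) (by norm_num) s0.le ?_
    rw [hs, ← pow_mul]
    exact G.t_big
  have s2 : (10 : ℝ) ^ 75 * s ≤ G.t := by
    rw [← hs, pow_succ s 3, show 75 = 25 * 3 by norm_num, pow_mul]
    gcongr
  have s3 := Real.add_one_le_exp s
  calc G.t ^ k ≤ G.t ^ 1000 := G.pow_le hk
    _ = s ^ 4000 := by rw [← hs, ← pow_mul]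
    _ ≤ Real.exp s ^ 4000 := pow_le_pow_left₀ s0.le (by linarith only [s3]) _
    _ ≤ _ := by
      rw [← Real.exp_nat_mul, Real.exp_le_exp, le_div_iff₀ (by positivity)]
      push_cast
      linarith only [s1, s2]

lemma La_eq : (G.La : ℝ) = G.L := rfl

lemma L_lo : G.t ^ 21 ≤ G.L := G.par.hL

lemma L_pos : 0 < G.L := lt_of_lt_of_le (pow_pos G.t_pos _) G.L_lo

lemma one_le_L : 1 ≤ G.L := le_trans (one_le_pow₀ G.one_le_t) G.L_lo

lemma L_pow_le {a b : ℕ} (h : a ≤ b) : G.L ^ a ≤ G.L ^ b := pow_le_pow_right₀ G.one_le_L h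

/-- One more power of `L` beats twenty powers of `t` and a constant. -/
lemma L_pow_lt {a b : ℕ} (h : a < b) : 10 ^ 100 * G.t ^ 20 * G.L ^ a ≤ G.L ^ b := by
  have t0 := G.t_pos
  have h1 : 10 ^ 100 * G.t ^ 20 ≤ G.L := (G.pow_lt (a := 20) (b := 21) (by norm_num)).trans G.L_lo
  calc 10 ^ 100 * G.t ^ 20 * G.L ^ a ≤ G.L * G.L ^ a :=
        mul_le_mul_of_nonneg_right h1 (pow_pos G.L_pos _).le
    _ = G.L ^ (a + 1) := (pow_succ' _ _).symm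
    _ ≤ _ := G.L_pow_le h

/-- Powers of `L` are negligible against exponentials. -/
lemma L_pow_le_exp {k : ℕ} (hk : k ≤ 1000) : G.L ^ k ≤ Real.exp (G.t / 10 ^ 50) :=
  (G.L_pow_le hk).trans G.par.sm

lemma Ga_lo : G.L ^ 2 ≤ G.Ga := G.par.lo

lemma Ga_pos : 0 < G.Ga := lt_of_lt_of_le (pow_pos G.L_pos _) G.Ga_lo

lemma lions : G.Ga ^ 2 * G.t ^ 21 ≤ G.L ^ 5 := G.par.hi

lemma Ga_hi : G.t ^ 20 * G.Ga ≤ G.L ^ 3 := by
  have t0 := G.t_pos
  have l0 := G.L_pos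
  refine le_of_pow_le_pow_left₀ (n := 2) (by norm_num) (by positivity) ?_
  have h1 : G.t ^ 19 ≤ G.L := (G.pow_le (by norm_num)).trans G.L_lo
  calc (G.t ^ 20 * G.Ga) ^ 2 = G.t ^ 19 * (G.Ga ^ 2 * G.t ^ 21) := by ring
    _ ≤ G.L * G.L ^ 5 := mul_le_mul h1 G.lions (by positivity) l0.le
    _ = _ := by ring

lemma t_le_Ga : G.t ^ 42 ≤ G.Ga := by
  have t0 := G.t_pos
  calc G.t ^ 42 = (G.t ^ 21) ^ 2 := by ring
    _ ≤ G.L ^ 2 := pow_le_pow_left₀ (by positivity) G.L_lo 2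
    _ ≤ _ := G.Ga_lo

lemma Q_mul_L : G.Q * G.L = G.Ga := div_mul_cancel₀ _ G.L_pos.ne'

lemma L_le_Q : G.L ≤ G.Q := by
  rw [Q, le_div_iff₀ G.L_pos, ← sq]
  exact G.Ga_lo

lemma Q_lo : G.t ^ 21 ≤ G.Q := G.L_lo.trans G.L_le_Q

lemma Q_pos : 0 < G.Q := G.L_pos.trans_le G.L_le_Q

lemma Q_sq : G.Q ^ 2 * G.t ^ 21 ≤ G.L ^ 3 := by
  have l0 := G.L_pos
  refine le_of_mul_le_mul_right ?_ (pow_pos l0 2)
  calc G.Q ^ 2 * G.t ^ 21 * G.L ^ 2 = (G.Q * G.L) ^ 2 * G.t ^ 21 := by ring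
    _ ≤ G.L ^ 5 := by rw [Q_mul_L]; exact G.lions
    _ = _ := by ring

lemma Q_hi : G.t ^ 20 * G.Q ≤ G.L ^ 2 := by
  refine le_of_mul_le_mul_right ?_ G.L_pos
  calc G.t ^ 20 * G.Q * G.L = G.t ^ 20 * G.Ga := by rw [mul_assoc, Q_mul_L]
    _ ≤ G.L ^ 3 := G.Ga_hi
    _ = _ := by ring

lemma Ga_le_Q_sq : G.Ga ≤ G.Q ^ 2 := by
  rw [← G.Q_mul_L, sq]
  exact mul_le_mul_of_nonneg_left G.L_le_Q G.Q_pos.le

lemma ρ_mul : G.t ^ 4 * G.ρ = G.L := mul_div_cancel₀ _ (pow_pos G.t_pos _).ne'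

lemma ρ_lo : G.t ^ 17 ≤ G.ρ := by
  rw [ρ, le_div_iff₀ (pow_pos G.t_pos _), ← pow_add]
  exact G.L_lo

lemma ρ_pos : 0 < G.ρ := lt_of_lt_of_le (pow_pos G.t_pos _) G.ρ_lo

lemma ρ_big : (10 : ℝ) ^ 100 ≤ G.ρ := by
  exact G.t_big.trans ((le_self_pow₀ G.one_le_t (by norm_num)).trans G.ρ_lo)

lemma ρ_le_L : G.ρ ≤ G.L := by
  exact div_le_self G.L_pos.le (one_le_pow₀ G.one_le_t)

lemma ρ_small : G.ρ ^ 1000 ≤ Real.exp (G.t / 10 ^ 50) := by
  exact (pow_le_pow_left₀ G.ρ_pos.le G.ρ_le_L _).trans G.par.sm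

lemma ρ_sq_le : G.t ^ 8 * G.ρ ^ 2 ≤ G.Ga := by
  calc G.t ^ 8 * G.ρ ^ 2 = (G.t ^ 4 * G.ρ) ^ 2 := by ring
    _ ≤ _ := by rw [ρ_mul]; exact G.Ga_lo

lemma E_mul : G.t ^ 2 * G.E = G.Q := mul_div_cancel₀ _ (pow_pos G.t_pos _).ne'

lemma W_mul : G.t * G.W = G.Q := mul_div_cancel₀ _ G.t_pos.ne'

lemma W_eq : G.W = G.t * G.E := by
  have := G.t_pos
  unfold W E
  field_simp

lemma Ga_eq_E : G.Ga = G.t ^ 6 * G.ρ * G.E := by
  calc G.Ga = (G.t ^ 2 * G.E) * (G.t ^ 4 * G.ρ) := by rw [E_mul, ρ_mul, Q_mul_L]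
    _ = _ := by ring

lemma E_lo : G.t ^ 19 ≤ G.E := by
  rw [E, le_div_iff₀ (pow_pos G.t_pos _), ← pow_add]
  exact G.Q_lo

lemma E_pos : 0 < G.E := lt_of_lt_of_le (pow_pos G.t_pos _) G.E_lo

lemma W_lo : G.t ^ 20 ≤ G.W := by
  rw [W, le_div_iff₀ G.t_pos, ← pow_succ]
  exact G.Q_lo

lemma E_le_kk : G.E ≤ G.kk := by
  have h : G.Ga ≤ G.L * G.t ^ 2 * G.kk := G.kk_lo
  rw [E, Q, div_div, div_le_iff₀ (mul_pos G.L_pos (pow_pos G.t_pos _))]
  linarith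

lemma kk_le_E : (G.kk : ℝ) ≤ 2 * G.E := by
  have h : G.L * G.t ^ 2 * G.kk ≤ 2 * G.Ga := G.kk_hi
  rw [E, Q, div_div, ← mul_div_assoc, le_div_iff₀ (mul_pos G.L_pos (pow_pos G.t_pos _))]
  linarith

lemma ten_le_kk : 10 ≤ G.kk := by
  have h : (10 : ℝ) ≤ G.kk := by
    refine le_trans ?_ (G.E_lo.trans G.E_le_kk)
    exact le_trans (le_trans (by norm_num) G.t_big) (le_self_pow₀ G.one_le_t (by norm_num))
  exact_mod_cast h

lemma ten_le_La : 10 ≤ G.La := by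
  have h : (10 : ℝ) ≤ (G.La : ℝ) := by
    refine le_trans ?_ G.L_lo
    exact le_trans (le_trans (by norm_num) G.t_big) (le_self_pow₀ G.one_le_t (by norm_num))
  exact_mod_cast h

lemma m1_lo : Real.exp (100 * G.E) ≤ G.m1 := by
  have h1 : Real.exp 100 ≤ G.t ^ 21 := by
    have h2 : Real.exp 100 = Real.exp 1 ^ 100 := by
      rw [← Real.exp_nat_mul]
      norm_num
    rw [h2]
    refine le_trans (pow_le_pow_left₀ (Real.exp_pos _).le ?_ _)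
      (G.t_big.trans (le_self_pow₀ G.one_le_t (by norm_num)))
    linarith [Real.exp_one_lt_d9]
  calc Real.exp (100 * G.E) ≤ Real.exp (G.kk * 100) :=
        Real.exp_le_exp.2 (by linarith [G.E_le_kk])
    _ = Real.exp 100 ^ G.kk := Real.exp_nat_mul _ _
    _ ≤ _ := pow_le_pow_left₀ (Real.exp_pos _).le h1 _

lemma m1_le_m0 : G.m1 ≤ G.m0 := by
  exact pow_le_pow_left₀ (pow_pos G.t_pos _).le G.L_lo _

lemma m0_le_mQ : G.m0 ≤ G.mQ := by
  exact pow_le_pow_left₀ G.L_pos.le G.L_le_Q _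

lemma mQ_hi : G.mQ ≤ Real.exp (G.W / 10 ^ 40) := by
  have t0 := G.t_pos
  have e0 := G.E_pos
  have h1 : G.Q ≤ Real.exp (G.t / 10 ^ 50) := by
    refine le_trans ?_ (G.Q_hi.trans (G.L_pow_le_exp (by norm_num)))
    exact le_mul_of_one_le_left G.Q_pos.le (one_le_pow₀ G.one_le_t)
  refine (pow_le_pow_left₀ G.Q_pos.le h1 _).trans ?_
  rw [← Real.exp_nat_mul, Real.exp_le_exp, W_eq]
  have h2 := mul_le_mul_of_nonneg_right G.kk_le_E t0.le
  have h3 : 0 ≤ G.t * G.E := by positivity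
  linarith only [h2, h3]

lemma m0_lo : Real.exp (100 * G.E) ≤ G.m0 := G.m1_lo.trans G.m1_le_m0

lemma mQ_lo : Real.exp (100 * G.E) ≤ G.mQ := G.m0_lo.trans G.m0_le_mQ

lemma m0_hi : G.m0 ≤ Real.exp (G.W / 10 ^ 40) := G.m0_le_mQ.trans G.mQ_hi

lemma m1_pos : 0 < G.m1 := (Real.exp_pos _).trans_le G.m1_lo

lemma mQ_pos : 0 < G.mQ := (Real.exp_pos _).trans_le G.mQ_lo

lemma m0_pos : 0 < G.m0 := (Real.exp_pos _).trans_le G.m0_lo

lemma n_eq (j : ℕ) : (G.n j : ℝ) = G.t ^ 9 * G.L ^ j := by simp [n, L, t]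

lemma n_succ (j : ℕ) : G.n (j + 1) = G.La * G.n j := by simp only [n]; ring

lemma P_eq_n (j : ℕ) : G.P j = G.n (j + G.kk) := by simp only [P, n]; ring

lemma lam_eq (j : ℕ) : G.lam j = 2 * Real.pi * G.n j * G.m0 := by simp [lam, P, m0, L, mul_assoc]

lemma lam_pos (j : ℕ) : 0 < G.lam j := by
  have := G.t_pos
  have := G.L_pos
  have := G.m0_pos
  have := Real.pi_pos
  rw [lam_eq, n_eq]
  positivity

lemma one_le_lam (j : ℕ) : 1 ≤ G.lam j := by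
  have h1 := G.one_le_t
  have h2 : 1 ≤ G.m0 := one_le_pow₀ G.one_le_L
  rw [lam_eq, n_eq]
  exact one_le_mul_of_one_le_of_one_le (one_le_mul_of_one_le_of_one_le
    (by linarith [Real.pi_gt_three]) (one_le_mul_of_one_le_of_one_le (one_le_pow₀ h1)
      (one_le_pow₀ G.one_le_L))) h2

lemma lam_succ (j : ℕ) : G.lam (j + 1) = G.L * G.lam j := by
  rw [lam_eq, lam_eq, n_eq, n_eq]
  ring

lemma lam_add (j m : ℕ) : G.lam (j + m) = G.L ^ m * G.lam j := by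
  rw [lam_eq, lam_eq, n_eq, n_eq, pow_add]
  ring

lemma lam_add_kk (j : ℕ) : G.lam (j + G.kk) = G.m0 * G.lam j := by
  rw [lam_add, m0]

lemma lam_mono {i j : ℕ} (h : i ≤ j) : G.lam i ≤ G.lam j := by
  obtain ⟨m, rfl⟩ := Nat.exists_eq_add_of_le h
  rw [lam_add]
  exact le_mul_of_one_le_left (G.lam_pos i).le (one_le_pow₀ G.one_le_L)

lemma lm_pos (j : ℕ) : 0 < G.lm j := Real.rpow_pos_of_pos (G.lam_pos j) _

lemma lm_succ (j : ℕ) : G.lm (j + 1) = G.Ga * G.lm j := by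
  rw [lm, lm, lam_succ, Ga, Real.mul_rpow G.L_pos.le (G.lam_pos j).le]

lemma lm_add (j m : ℕ) : G.lm (j + m) = G.Ga ^ m * G.lm j := by
  induction m with
  | zero => simp
  | succ m ih =>
    rw [← add_assoc, lm_succ, ih]
    ring

lemma lm_mono {i j : ℕ} (h : i ≤ j) : G.lm i ≤ G.lm j := by
  obtain ⟨m, rfl⟩ := Nat.exists_eq_add_of_le h
  rw [lm_add]
  exact le_mul_of_one_le_left (G.lm_pos i).le
    (one_le_pow₀ ((one_le_pow₀ G.one_le_L).trans G.Ga_lo))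

lemma am_pos (j : ℕ) : 0 < G.am j := div_pos (G.lm_pos j) (G.lam_pos j)

lemma lam_mul_am (j : ℕ) : G.lam j * G.am j = G.lm j := mul_div_cancel₀ _ (G.lam_pos j).ne'

lemma am_succ (j : ℕ) : G.am (j + 1) = G.Q * G.am j := by
  have := G.L_pos
  have := G.lam_pos j
  rw [am, am, lm_succ, lam_succ, Q]
  field_simp

lemma am_add (j m : ℕ) : G.am (j + m) = G.Q ^ m * G.am j := by
  induction m with
  | zero => simp
  | succ m ih =>
    rw [← add_assoc, am_succ, ih]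
    ring

lemma d_pos (j : ℕ) : 0 < G.d j := by have := G.lm_pos j; unfold d; positivity

lemma d_succ (j : ℕ) : G.d (j + 1) = G.Ga * G.d j := by
  rw [d, d, lm_succ]
  ring

lemma D_pos (j : ℕ) : 0 < G.D j := by have := G.lm_pos j; unfold D; positivity

lemma d_mul_Δ (j : ℕ) : G.d j * G.Δ j = 2 * G.t := by
  have := G.lm_pos j
  unfold d Δ
  field_simp

lemma Δ_pos (j : ℕ) : 0 < G.Δ j := by have := G.lm_pos j; have := G.t_pos; unfold Δ; positivity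

lemma Δ_succ (j : ℕ) : G.Δ (j + 1) ≤ G.Δ j / 2 := by
  have h1 := G.lm_pos j
  have h2 := G.t_pos
  have h3 : (2 : ℝ) ≤ G.Ga :=
    (le_trans (by norm_num) (G.pow_lt (a := 0) (b := 42) (by norm_num))).trans G.t_le_Ga
  rw [Δ, Δ, lm_succ, div_div, mul_comm (G.lm j) 2]
  gcongr

lemma rb_add_one (j : ℕ) (i : Fin 3) : G.rb j i + 1 = G.w j i := by
  have h1 : 0 < G.T := lt_of_lt_of_le (by norm_num) G.big
  have h2 : 0 < G.La := lt_of_lt_of_le (by norm_num) G.ten_le_La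
  have : 0 < G.w j i := by fin_cases i <;> simp [w, h1, h2]
  unfold rb
  omega

lemma hundred_le_rb (j : ℕ) (i : Fin 3) : 100 ≤ G.rb j i := by
  have h1 : 101 ≤ G.T := le_trans (by norm_num) G.big
  have h2 : 1 ≤ G.La ^ j := Nat.one_le_pow _ _ (lt_of_lt_of_le (by norm_num) G.ten_le_La)
  have h3 : G.T ≤ G.T ^ 5 := Nat.le_self_pow (by norm_num) _
  have h4 := Nat.mul_le_mul h1 h2
  have h5 := Nat.mul_le_mul (h1.trans h3) h2
  have : 101 ≤ G.w j i := by fin_cases i <;> simpa [w]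
  unfold rb
  omega

lemma w_le_rB (j : ℕ) (i : Fin 3) : G.w j i ≤ G.rB j i := by
  have h1 : 0 < G.T := lt_of_lt_of_le (by norm_num) G.big
  have h2 : G.T * G.La ^ j ≤ G.T ^ 9 * G.La ^ j :=
    Nat.mul_le_mul_right _ (Nat.le_self_pow (by norm_num) _)
  have h3 : G.T ^ 5 * G.La ^ j ≤ G.T ^ 9 * G.La ^ j :=
    Nat.mul_le_mul_right _ (Nat.pow_le_pow_right h1 (by norm_num))
  fin_cases i
  · exact le_rfl
  · exact h2
  · exact h3

lemma one_le_rB (j : ℕ) (i : Fin 3) : 1 ≤ G.rB j i := by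
  have := G.w_le_rB j i
  have := G.rb_add_one j i
  omega

lemma one_le_rd (j : ℕ) (i : Fin 3) : 1 ≤ G.rd j i := by
  fin_cases i
  · exact G.one_le_rB j 2
  · exact G.one_le_rB j 0
  · exact G.one_le_rB j 1

lemma rB_le_n (j : ℕ) (i : Fin 3) : G.rB j i ≤ G.n j := by
  fin_cases i
  · exact G.w_le_rB j 2
  · exact le_rfl
  · exact le_rfl

lemma rd_le_n (j : ℕ) (i : Fin 3) : G.rd j i ≤ G.n j := by
  fin_cases i
  · exact G.rB_le_n j 2
  · exact G.rB_le_n j 0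
  · exact G.rB_le_n j 1

lemma rb_succ (j : ℕ) (i : Fin 3) : (G.rb (j + 1) i : ℝ) + 1 = G.ρ * G.rd j i := by
  have t0 := G.t_pos
  have h : (G.rb (j + 1) i : ℝ) + 1 = G.w (j + 1) i := by exact_mod_cast G.rb_add_one (j + 1) i
  have h2 : G.T ^ 4 * G.w (j + 1) i = G.La * G.rd j i := by
    fin_cases i <;> simp [w, rd, rB, rot3, n] <;> ring
  have h3 : G.t ^ 4 * (G.w (j + 1) i : ℝ) = G.L * G.rd j i := by
    unfold t L
    exact_mod_cast h2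
  rw [h, ρ, div_mul_eq_mul_div, eq_div_iff (pow_pos t0 4).ne', ← h3, mul_comm]

lemma rb_le_rc (j : ℕ) (i : Fin 3) : G.rb j i ≤ G.rc j i := by
  cases j with
  | zero => exact le_rfl
  | succ j => exact Nat.le_add_right _ _

lemma ry_add_one (j : ℕ) (i : Fin 3) : (G.ry j i : ℝ) + 1 = G.L * G.n j / 4 := by
  have h1 : 4 ∣ G.n (j + 1) := (G.four.trans (dvd_pow_self _ (by norm_num))).mul_right _
  have h2 : 0 < G.n (j + 1) := (G.one_le_rd (j + 1) 0).trans (G.rd_le_n (j + 1) 0)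
  have h3 : 4 * (G.ry j i + 1) = G.La * G.n j := by
    rw [← n_succ]
    unfold ry
    omega
  have h4 := congrArg (Nat.cast : ℕ → ℝ) h3
  push_cast at h4
  rw [La_eq] at h4
  linarith only [h4]

lemma N_pos (j : ℕ) : 0 < G.N j := Nn_pos _

lemma N_sq (j : ℕ) : G.N j ^ 2 = G.t ^ 11 * (G.L ^ 3) ^ j := by
  have h : ∀ i, (G.rb j i : ℝ) + 1 = G.w j i := fun i => by exact_mod_cast G.rb_add_one j i
  rw [N, Nn_sq]
  simp only [h, Fin.prod_univ_three]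
  simp [w, L, t]
  ring

lemma one_le_N (j : ℕ) : 1 ≤ G.N j := by
  have h1 := G.one_le_t
  refine le_of_pow_le_pow_left₀ (n := 2) (by norm_num) (G.N_pos j).le ?_
  rw [N_sq, one_pow]
  exact one_le_mul_of_one_le_of_one_le (one_le_pow₀ h1) (one_le_pow₀ (one_le_pow₀ G.one_le_L))

lemma N_succ_sq (j : ℕ) : G.N (j + 1) ^ 2 = G.L ^ 3 * G.N j ^ 2 := by
  rw [N_sq, N_sq]
  ring

lemma N_succ_lo (j : ℕ) : G.t ^ 10 * G.Q * G.N j ≤ G.N (j + 1) := by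
  refine le_of_pow_le_pow_left₀ (n := 2) (by norm_num) (G.N_pos _).le ?_
  rw [N_succ_sq, mul_pow]
  refine mul_le_mul_of_nonneg_right (le_trans ?_ G.Q_sq) (by positivity)
  have := mul_le_mul_of_nonneg_left (G.pow_le (a := 20) (b := 21) (by norm_num)) (sq_nonneg G.Q)
  linarith

lemma N_succ_hi (j : ℕ) : G.t ^ 10 * G.N (j + 1) ≤ G.L ^ 2 * G.N j := by
  have := G.L_pos
  have := G.N_pos j
  refine le_of_pow_le_pow_left₀ (n := 2) (by norm_num) (by positivity) ?_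
  have h1 : G.t ^ 20 ≤ G.L := (G.pow_le (by norm_num)).trans G.L_lo
  calc (G.t ^ 10 * G.N (j + 1)) ^ 2 = G.t ^ 20 * (G.L ^ 3 * G.N j ^ 2) := by
        rw [mul_pow, N_succ_sq]; ring
    _ ≤ G.L * (G.L ^ 3 * G.N j ^ 2) := mul_le_mul_of_nonneg_right h1 (by positivity)
    _ = _ := by ring

lemma N_succ_ρ (j : ℕ) : G.N (j + 1) ≤ G.ρ ^ 2 * G.N j := by
  have t0 := G.t_pos
  have r0 := G.ρ_pos
  have := G.N_pos j
  refine le_of_pow_le_pow_left₀ (n := 2) (by norm_num) (by positivity) ?_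
  have h1 : G.t ^ 12 ≤ G.ρ := (G.pow_le (by norm_num)).trans G.ρ_lo
  calc G.N (j + 1) ^ 2 = G.t ^ 12 * (G.ρ ^ 3 * G.N j ^ 2) := by
        rw [N_succ_sq, ← ρ_mul]; ring
    _ ≤ G.ρ * (G.ρ ^ 3 * G.N j ^ 2) := mul_le_mul_of_nonneg_right h1 (by positivity)
    _ = _ := by ring

lemma N_mono {i j : ℕ} (h : i ≤ j) : G.N i ≤ G.N j := by
  refine monotone_nat_of_le_succ (fun m => le_trans ?_ (G.N_succ_lo m)) h
  exact le_mul_of_one_le_left (G.N_pos m).le (one_le_mul_of_one_le_of_one_le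
    (one_le_pow₀ G.one_le_t) (G.one_le_L.trans G.L_le_Q))

lemma N_add_lo (j m : ℕ) : (G.t ^ 10 * G.Q) ^ m * G.N j ≤ G.N (j + m) := by
  induction m with
  | zero => simp
  | succ m ih =>
    refine le_trans ?_ (G.N_succ_lo (j + m))
    rw [pow_succ', mul_assoc]
    exact mul_le_mul_of_nonneg_left ih (mul_pos (pow_pos G.t_pos _) G.Q_pos).le

lemma N_succ_θ (j : ℕ) : G.N (j + 1) ≤ G.θ * G.Ga * G.N j := by
  have t0 := G.t_pos
  rw [θ, mul_assoc, le_inv_mul_iff₀ (pow_pos t0 _)]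
  exact (G.N_succ_hi j).trans (mul_le_mul_of_nonneg_right G.Ga_lo (G.N_pos j).le)

lemma N_add_hi (j m : ℕ) : G.N (j + m) ≤ (G.θ * G.Ga) ^ m * G.N j := by
  have t0 := G.t_pos
  have g0 := G.Ga_pos
  induction m with
  | zero => simp
  | succ m ih =>
    refine (G.N_succ_θ (j + m)).trans ?_
    rw [pow_succ' (G.θ * G.Ga), mul_assoc (G.θ * G.Ga)]
    exact mul_le_mul_of_nonneg_left ih (by unfold θ; positivity)

lemma Nn_rc (j : ℕ) : Nn (G.rc j) ≤ 101 / 100 * G.N j := by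
  have h0 := G.N_pos j
  refine (Nn_le (n := G.rb j) (c := 1001 / 1000) (by norm_num) fun i => ?_).trans
    (mul_le_mul_of_nonneg_right (by norm_num) h0.le)
  cases j with
  | zero =>
    have : (0 : ℝ) ≤ G.rb 0 i := Nat.cast_nonneg _
    change (G.rb 0 i : ℝ) + 1 ≤ _
    linarith
  | succ j =>
    have h1 := G.rb_succ j i
    have h2 := mul_le_mul_of_nonneg_right G.ρ_big (Nat.cast_nonneg (α := ℝ) (G.rd j i))
    have h3 : (0 : ℝ) ≤ G.rd j i := Nat.cast_nonneg _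
    simp only [rc]
    push_cast
    linarith only [h1, h2]

/-- The cube of radius `n (j + 1)` is not much larger than a tooth of level `j`. -/
lemma Nn_le_of_le_n {j : ℕ} {m : N3} (h : ∀ i, m i ≤ G.n (j + 1)) : Nn m ≤ G.L ^ 2 * G.N j := by
  have t0 := G.t_pos
  have l0 := G.L_pos
  have h0 := G.N_pos j
  have h1 : (1 : ℝ) ≤ G.n (j + 1) := by
    exact_mod_cast (G.one_le_rd (j + 1) 0).trans (G.rd_le_n (j + 1) 0)
  have h2 : ∀ i, (m i : ℝ) + 1 ≤ 2 * G.n (j + 1) := fun i => by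
    have : (m i : ℝ) ≤ G.n (j + 1) := Nat.cast_le.2 (h i)
    linarith
  have h3 : 8 * G.t ^ 16 ≤ G.L := by
    linarith [G.pow_lt (a := 16) (b := 21) (by norm_num), pow_pos t0 16, G.L_lo]
  refine le_of_pow_le_pow_left₀ (n := 2) (by norm_num) (by positivity) ?_
  rw [Nn_sq, mul_pow, N_sq]
  calc _ ≤ ∏ _i : Fin 3, 2 * (G.n (j + 1) : ℝ) :=
        Finset.prod_le_prod (fun _ _ => by positivity) fun i _ => h2 i
    _ = 8 * G.t ^ 16 * (G.L ^ 3 * G.t ^ 11 * (G.L ^ 3) ^ j) := by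
        rw [Fin.prod_const, n_eq]
        ring
    _ ≤ G.L * (G.L ^ 3 * G.t ^ 11 * (G.L ^ 3) ^ j) :=
        mul_le_mul_of_nonneg_right h3 (by positivity)
    _ = _ := by ring

lemma θ_pos : 0 < G.θ := by have := G.t_pos; unfold θ; positivity

lemma xs_pos : 0 < G.xs := by have := G.t_pos; have := G.Q_pos; unfold xs; positivity

lemma xs_le : G.xs ≤ (G.t ^ 30)⁻¹ := by
  have t0 := G.t_pos
  refine inv_anti₀ (by positivity) ?_
  calc G.t ^ 30 = G.t ^ 9 * G.t ^ 21 := by ring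
    _ ≤ _ := mul_le_mul_of_nonneg_left G.Q_lo (by positivity)

lemma xs_mul_Q : G.xs * G.Q = (G.t ^ 9)⁻¹ := by
  have := G.t_pos
  have := G.Q_pos
  unfold xs
  field_simp

lemma Wc_pos : 0 < G.Wc := Real.exp_pos _

lemma tau0_pos : 0 < G.tau0 := by have := G.L_pos; have := G.m0_pos; unfold tau0; positivity

lemma tau0_le : G.tau0 ≤ Real.exp (-(99 * G.E)) := by
  have t0 := G.t_pos
  rw [tau0, div_le_iff₀ G.m0_pos]
  refine (G.L_pow_le_exp (by norm_num)).trans (le_trans ?_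
    (mul_le_mul_of_nonneg_left G.m0_lo (Real.exp_pos _).le))
  rw [← Real.exp_add, Real.exp_le_exp]
  linarith [G.pow_le (a := 1) (b := 19) (by norm_num), G.E_lo]

lemma exp_jk {R : Raw} {J : ℕ} {t x : ℝ} (hx : x ≤ G.Ga ^ 2) (hJ : Jb G R J t) :
    Real.exp x * R.Jk t ≤ G.lm J * G.am J / G.N J := by
  have l0 := G.lm_pos J
  have l1 := G.am_pos J
  have n0 := G.N_pos J
  have h1 := le_mul_of_one_le_left (sq_nonneg G.Ga) G.one_le_t
  refine (mul_le_mul_of_nonneg_left hJ (Real.exp_pos _).le).trans ?_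
  rw [← mul_assoc, ← Real.exp_add]
  exact mul_le_of_le_one_left (by positivity) (Real.exp_le_one_iff.2 (by linarith))

lemma sp_φ (j : ℕ) : Sp (G.rb j) (G.φ j) := sp_ph _

lemma norm_φ (j : ℕ) : ‖G.φ j‖ = 1 := norm_ph _

end Geo

namespace IsNet

variable {G : Geo} {R : Raw} (H : IsNet G R)

include H

lemma kap_pos (j : ℕ) : 0 < R.kap G j := mul_pos H.kp_pos (G.lam_pos j)

lemma bh_pos (j : ℕ) : 0 < R.bh G j := div_pos (G.d_pos _) (H.kap_pos j)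

lemma kap_mul_bh (j : ℕ) : R.kap G j * R.bh G j = G.d (j + 1) :=
  mul_div_cancel₀ _ (H.kap_pos j).ne'

lemma bh_eq (j : ℕ) : R.bh G j = 2 * G.Ga * G.am j / R.kp := by
  have := H.kp_pos
  have := G.lam_pos j
  rw [Raw.bh, Raw.kap, G.d_succ, Geo.d, Geo.am]
  field_simp

lemma bh_succ (j : ℕ) : R.bh G (j + 1) = G.Q * R.bh G j := by
  rw [H.bh_eq, H.bh_eq, Geo.am_succ]
  ring

lemma bh_add (j m : ℕ) : R.bh G (j + m) = G.Q ^ m * R.bh G j := by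
  rw [H.bh_eq, H.bh_eq, Geo.am_add]
  ring

lemma bh_add_kk (j : ℕ) : R.bh G (j + G.kk) = G.mQ * R.bh G j := by
  rw [H.bh_add, Geo.mQ]

lemma bh_mono {i j : ℕ} (h : i ≤ j) : R.bh G i ≤ R.bh G j := by
  obtain ⟨m, rfl⟩ := Nat.exists_eq_add_of_le h
  rw [H.bh_add]
  exact le_mul_of_one_le_left (H.bh_pos i).le (one_le_pow₀ (G.one_le_L.trans G.L_le_Q))

lemma bh_sq_le (j : ℕ) : R.bh G j ^ 2 ≤ 800 * G.t ^ 21 * G.Ga ^ 2 * G.am j ^ 2 := by
  have h1 := H.kp_pos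
  have t0 := G.t_pos
  rw [H.bh_eq, div_pow, div_le_iff₀ (by positivity)]
  linarith [mul_le_mul_of_nonneg_left H.kp_lo
    (show 0 ≤ 800 * G.Ga ^ 2 * G.am j ^ 2 by positivity)]

lemma bh_lo (j : ℕ) : 10 ^ 50 * (G.t ^ 10 * G.Ga) * G.am j ≤ R.bh G j := by
  have h1 := H.kp_pos
  have l0 := G.am_pos j
  have t0 := G.t_pos
  refine le_of_pow_le_pow_left₀ (n := 2) (by norm_num) (H.bh_pos j).le ?_
  rw [H.bh_eq, div_pow, le_div_iff₀ (by positivity)]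
  have h2 := mul_le_mul_of_nonneg_left H.kp_hi (show 0 ≤ G.Ga ^ 2 * G.am j ^ 2 by positivity)
  have h3 := mul_le_mul_of_nonneg_right (G.pow_lt (a := 20) (b := 21) (by norm_num))
    (show 0 ≤ G.Ga ^ 2 * G.am j ^ 2 * R.kp ^ 2 by positivity)
  have h4 : 0 ≤ G.Ga ^ 2 * G.am j ^ 2 := by positivity
  linarith

lemma bh_hi (j : ℕ) : 10 ^ 48 * R.bh G j ≤ G.t ^ 11 * G.Ga * G.am j := by
  have t0 := G.t_pos
  have l0 := G.am_pos j
  have g0 := G.Ga_pos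
  refine le_of_pow_le_pow_left₀ (n := 2) (by norm_num) (by positivity) ?_
  have h3 := mul_le_mul_of_nonneg_right (G.pow_lt (a := 21) (b := 22) (by norm_num))
    (show 0 ≤ G.Ga ^ 2 * G.am j ^ 2 by positivity)
  have h4 : 0 ≤ G.t ^ 21 * G.Ga ^ 2 * G.am j ^ 2 := by positivity
  linarith [H.bh_sq_le j]

lemma lam_bh_hi (j : ℕ) : 10 ^ 48 * (G.lam j * R.bh G j) ≤ G.t ^ 11 * G.Ga * G.lm j := by
  have h := mul_le_mul_of_nonneg_left (H.bh_hi j) (G.lam_pos j).le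
  rw [← G.lam_mul_am j]
  linarith

lemma am_le_bh (j : ℕ) : 10 ^ 50 * G.am j ≤ R.bh G j := by
  have g1 : 1 ≤ G.t ^ 10 * G.Ga := one_le_mul_of_one_le_of_one_le (one_le_pow₀ G.one_le_t)
    ((one_le_pow₀ G.one_le_L).trans G.Ga_lo)
  have := mul_le_mul_of_nonneg_right g1 (G.am_pos j).le
  linarith [H.bh_lo j]

lemma om_pos (o : Fin 4) : 1 ≤ R.om o ∧ R.om o ≤ 9 := by
  have h1 := H.om_lo
  have h2 := H.om_hi
  fin_cases o <;> simp [Raw.om] <;> constructor <;> linarith only [h1, h2]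

omit H in
lemma sum_om : ∑ o, R.om o = R.Om := by
  simp [Raw.om, Raw.Om, Fin.sum_univ_four]; ring

lemma Om_lo : 16 ≤ R.Om := by have := H.om_lo; unfold Raw.Om; linarith

lemma Om_hi : R.Om ≤ 20 := by have := H.om_hi; unfold Raw.Om; linarith

lemma un_pos (j : ℕ) : 0 < R.un G j := by
  exact div_pos (H.bh_pos j) (mul_pos (by linarith [H.Om_lo])
    ((G.N_pos j).trans_le (le_l1_ph _)))

lemma un_mul (j : ℕ) : R.un G j * (R.Om * l1 (G.φ j)) = R.bh G j := by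
  exact div_mul_cancel₀ _ (mul_pos (by linarith [H.Om_lo])
    ((G.N_pos j).trans_le (le_l1_ph _))).ne'

lemma un_hi (j : ℕ) : 16 * (G.N j * R.un G j) ≤ R.bh G j := by
  rw [← H.un_mul j, ← mul_assoc, mul_comm]
  exact mul_le_mul_of_nonneg_left (mul_le_mul H.Om_lo (le_l1_ph _) (G.N_pos j).le
    (by linarith [H.Om_lo])) (H.un_pos j).le

lemma un_lo (j : ℕ) : R.bh G j ≤ 60 * (G.N j * R.un G j) := by
  have h1 : R.Om * l1 (G.φ j) ≤ 20 * (3 * G.N j) :=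
    mul_le_mul H.Om_hi (l1_ph_le _) ((G.N_pos j).le.trans (le_l1_ph _)) (by norm_num)
  linarith [H.un_mul j, mul_le_mul_of_nonneg_left h1 (H.un_pos j).le]

lemma cq_le' (o : Fin 4) : 10 ^ 50 * G.t ^ 10 * |R.cq o| ≤ 1 := by
  refine le_of_pow_le_pow_left₀ (n := 2) (by norm_num) zero_le_one ?_
  rw [mul_pow, sq_abs]
  linarith [H.cq_le o, mul_le_mul_of_nonneg_right (G.pow_lt (a := 20) (b := 21) (by norm_num))
    (sq_nonneg (R.cq o))]

end IsNet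

namespace Raw

variable (R : Raw) (G : Geo)

lemma lev_nonneg (j : ℕ) (t : ℝ) : 0 ≤ R.lev j t := Real.sqrt_nonneg _

lemma lev_sq (j : ℕ) (t : ℝ) : R.lev j t ^ 2 = ∑ o, (‖R.b j o t‖ ^ 2 + ‖R.c j o t‖ ^ 2) :=
  Real.sq_sqrt (by positivity)

lemma ch_nonneg (j : ℕ) (t : ℝ) : 0 ≤ R.ch G j t := Real.sqrt_nonneg _

lemma ch_sq (j : ℕ) (t : ℝ) : R.ch G j t ^ 2 = ∑ i ∈ Finset.Icc 1 G.La, ‖R.y j i t‖ ^ 2 :=
  Real.sq_sqrt (by positivity)

lemma nr_le_lev (j : ℕ) (o : Fin 4) (t : ℝ) : nr (R.b j o t) (R.c j o t) ≤ R.lev j t := by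
  exact Real.sqrt_le_sqrt (Finset.single_le_sum (f := fun o => ‖R.b j o t‖ ^ 2 + ‖R.c j o t‖ ^ 2)
    (fun _ _ => by positivity) (Finset.mem_univ o))

lemma b_le_lev (j : ℕ) (o : Fin 4) (t : ℝ) : ‖R.b j o t‖ ≤ R.lev j t :=
  (le_nr_1 _ _).trans (R.nr_le_lev j o t)

lemma c_le_lev (j : ℕ) (o : Fin 4) (t : ℝ) : ‖R.c j o t‖ ≤ R.lev j t :=
  (le_nr_2 _ _).trans (R.nr_le_lev j o t)

lemma y_le_ch (j : ℕ) {i : ℕ} (h1 : 1 ≤ i) (h2 : i ≤ G.La) (t : ℝ) : ‖R.y j i t‖ ≤ R.ch G j t := by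
  exact Real.le_sqrt_of_sq_le (Finset.single_le_sum (f := fun i => ‖R.y j i t‖ ^ 2)
    (fun _ _ => by positivity) (Finset.mem_Icc.2 ⟨h1, h2⟩))

lemma nl_nonneg (j : ℕ) (t : ℝ) : 0 ≤ R.nl G j t := mul_nonneg (G.N_pos j).le (R.lev_nonneg j t)

lemma nc_nonneg (j : ℕ) (t : ℝ) : 0 ≤ R.nc G j t :=
  mul_nonneg (G.N_pos j).le (mul_nonneg G.Wc_pos.le (R.ch_nonneg G j t))

lemma ny_eq (j : ℕ) (t : ℝ) : R.ny G j t = G.L ^ 3 / G.Wc * R.nc G j t := by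
  have := G.Wc_pos
  unfold ny nc; field_simp

lemma ny_nonneg (j : ℕ) (t : ℝ) : 0 ≤ R.ny G j t :=
  mul_nonneg (G.N_pos j).le (mul_nonneg (pow_pos G.L_pos _).le (R.ch_nonneg G j t))

lemma nu_nonneg (j : ℕ) (t : ℝ) : 0 ≤ R.nu G j t := add_nonneg (R.nl_nonneg G j t) (R.ny_nonneg G j t)

lemma LowL_nonneg (j : ℕ) (t : ℝ) : 0 ≤ R.LowL G j t :=
  Finset.sum_nonneg fun i _ => R.nl_nonneg G i t

lemma LowY_nonneg (j : ℕ) (t : ℝ) : 0 ≤ R.LowY G j t :=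
  Finset.sum_nonneg fun i _ => R.ny_nonneg G i t

lemma Low_nonneg (j : ℕ) (t : ℝ) : 0 ≤ R.Low G j t :=
  add_nonneg (R.LowL_nonneg G j t) (R.LowY_nonneg G j t)

lemma Low_succ (j : ℕ) (t : ℝ) : R.Low G j t ≤ R.Low G (j + 1) t := by
  have h : Finset.range (j + 1 - G.kk) ⊆ Finset.range (j + 1 + 1 - G.kk) :=
    Finset.range_subset_range.2 (by omega)
  exact add_le_add (Finset.sum_le_sum_of_subset_of_nonneg h fun i _ _ => R.nl_nonneg G i t)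
    (Finset.sum_le_sum_of_subset_of_nonneg h fun i _ _ => R.ny_nonneg G i t)

lemma Yq_zero (j : ℕ) (a : ℝ) : R.Yq G j a 0 = R.bh G j * a := by simp [Yq]

lemma Yq_succ (j : ℕ) (a : ℝ) (i : ℕ) : G.D j * R.Yq G j a (i + 1) =
    R.cy (i + 1) * G.lam j * (R.bh G j * a) * R.Yq G j a i := by
  have := G.D_pos j
  simp only [Yq, Finset.prod_range_succ]
  generalize ∏ m ∈ Finset.range i, R.cy (m + 1) * G.lam j * (R.bh G j * a) / G.D j = X
  field_simp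

lemma Yq_succ' (j : ℕ) (a : ℝ) (i : ℕ) : R.Yq G j a (i + 1) =
    R.cy (i + 1) * G.lam j * R.bh G j / G.D j * a * R.Yq G j a i := by
  simp only [Yq, Finset.prod_range_succ]
  ring

lemma Yq_eq (j : ℕ) (a : ℝ) (i : ℕ) : R.Yq G j a i = R.Yq G j 1 i * a ^ (i + 1) := by
  induction i with
  | zero => simp [Yq]
  | succ i ih =>
    rw [R.Yq_succ' G j a, R.Yq_succ' G j 1, ih]
    ring

lemma Fs_eq (j : ℕ) (z a : ℝ) : R.Fs G j z a = R.Fs G j z 1 * a ^ (G.La + 1) := by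
  simp only [Fs]; rw [R.Yq_eq G j a]; ring

end Raw

namespace IsNet

variable {G : Geo} {R : Raw} (H : IsNet G R)

include H

lemma Jk_nonneg (t : ℝ) : 0 ≤ R.Jk t :=
  add_nonneg (add_nonneg (mul_nonneg (H.U_nonneg t) (H.Hj_nonneg t))
    (mul_nonneg (H.Fj_nonneg t) (H.H_nonneg t))) (H.X_nonneg t)

lemma eb_nonneg (j : ℕ) (t : ℝ) : 0 ≤ R.eb G j t := by
  have h1 := R.lev_nonneg j t
  have h2 := R.lev_nonneg (j + 1) t
  have h3 := R.ch_nonneg G j t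
  have h4 := (G.N_pos j).le
  have h5 : 0 ≤ R.pv G j t := by
    cases j with
    | zero => exact le_rfl
    | succ j => exact R.nu_nonneg G j t
  exact add_nonneg (mul_nonneg (mul_nonneg (by norm_num) (G.lam_pos j).le) (add_nonneg (add_nonneg
    (add_nonneg (add_nonneg (mul_nonneg (mul_nonneg G.tau0_pos.le h5) h1)
      (mul_nonneg (mul_nonneg (mul_nonneg (pow_pos G.L_pos _).le h4) h3)
        (add_nonneg (add_nonneg h3 h1) h2))) (mul_nonneg (mul_nonneg h4 h2) (add_nonneg h2 h3)))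
    (mul_nonneg (R.Low_nonneg G j t) h1)) (mul_nonneg h4 (H.ET_nonneg _ t))))
    (mul_nonneg (by norm_num) (H.Jk_nonneg t))

lemma ec_nonneg (j : ℕ) (t : ℝ) : 0 ≤ R.ec G j t := by
  have h2 := R.lev_nonneg (j + 1) t
  exact mul_nonneg (pow_pos G.t_pos _).le (add_nonneg (mul_nonneg (G.lam_pos _).le (add_nonneg
    (add_nonneg (add_nonneg (mul_nonneg (mul_nonneg G.tau0_pos.le (R.nu_nonneg G j t)) h2)
      (mul_nonneg (R.Low_nonneg G _ t) h2)) (mul_nonneg (add_nonneg (R.LowY_nonneg G _ t)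
        (mul_nonneg (div_pos G.tau0_pos G.m0_pos).le (R.LowL_nonneg G _ t))) (norm_nonneg _)))
    (mul_nonneg (G.N_pos _).le (H.ET_nonneg _ t)))) (H.Jk_nonneg t))

lemma ey_nonneg (j i : ℕ) (t : ℝ) : 0 ≤ R.ey G j i t := by
  have h1 := R.nl_nonneg G j t
  exact add_nonneg (mul_nonneg (mul_nonneg (by norm_num) (G.lam_pos _).le) (add_nonneg (add_nonneg
    (add_nonneg (mul_nonneg (mul_nonneg G.tau0_pos.le h1) (norm_nonneg _))
      (mul_nonneg (add_nonneg h1 (R.Low_nonneg G _ t))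
        (add_nonneg (norm_nonneg _) (R.lev_nonneg _ t))))
      (mul_nonneg (R.Low_nonneg G j t) (norm_nonneg _)))
    (mul_nonneg (mul_nonneg (pow_pos G.L_pos _).le (G.N_pos j).le) (H.ET_nonneg _ t))))
    (mul_nonneg (by norm_num) (H.Jk_nonneg t))

lemma Yq_pos (j : ℕ) {a : ℝ} (ha : 0 < a) (i : ℕ) : 0 < R.Yq G j a i := by
  have h1 := H.bh_pos j
  have h2 := G.lam_pos j
  have h3 := G.D_pos j
  refine mul_pos (mul_pos h1 ha) (Finset.prod_pos fun m _ => ?_)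
  have : 0 < R.cy (m + 1) := lt_of_lt_of_le (by norm_num) (H.cy_lo _)
  positivity

lemma fac_lo (j i : ℕ) :
    Real.exp (-(G.Q / 2)) ≤ R.cy (i + 1) * G.lam j * R.bh G j / G.D j := by
  have l0 := G.lam_pos j
  have l1 := G.am_pos j
  have a1 : 3 * G.am j ≤ R.bh G j := by linarith [H.am_le_bh j]
  have a2 := H.cy_lo (i + 1)
  rw [le_div_iff₀ (G.D_pos j), Geo.D, ← mul_assoc, ← Real.exp_add, neg_add_cancel, Real.exp_zero,
    ← G.lam_mul_am j]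
  calc _ = 1 / 3 * G.lam j * (3 * G.am j) := by ring
    _ ≤ _ := by gcongr

lemma fac_hi (j i : ℕ) : R.cy (i + 1) * G.lam j * R.bh G j / G.D j ≤
    G.L ^ 3 / 10 ^ 48 * Real.exp (-(G.Q / 2)) := by
  have l0 := G.lam_pos j
  have l1 := G.lm_pos j
  have b0 := H.bh_pos j
  have a0 : G.t ^ 11 * G.Ga ≤ G.L ^ 3 :=
    (mul_le_mul_of_nonneg_right (G.pow_le (by norm_num)) G.Ga_pos.le).trans G.Ga_hi
  have a1 : G.lam j * R.bh G j ≤ G.L ^ 3 / 10 ^ 48 * G.lm j := by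
    linarith [H.lam_bh_hi j, mul_le_mul_of_nonneg_right a0 l1.le]
  have a2 := mul_le_mul_of_nonneg_right (H.cy_hi (i + 1)) (mul_pos l0 b0).le
  rw [div_le_iff₀ (G.D_pos j), Geo.D, mul_assoc _ (Real.exp _), ← mul_assoc (Real.exp _),
    ← Real.exp_add, neg_add_cancel, Real.exp_zero]
  linarith

/-- The slaved amplitudes decrease very fast along the ladder. -/
lemma Yq_succ_le (j : ℕ) {a : ℝ} (h0 : 0 < a) (h1 : a ≤ 11) (i : ℕ) :
    R.Yq G j a (i + 1) ≤ Real.exp (-(G.Q / 3)) * R.Yq G j a i := by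
  have t0 := G.t_pos
  have l0 := G.L_pos
  rw [R.Yq_succ']
  refine mul_le_mul_of_nonneg_right ((mul_le_mul (H.fac_hi j i) h1 h0.le
    (by positivity)).trans ?_) (H.Yq_pos j h0 i).le
  have h2 : G.L ^ 3 ≤ Real.exp (G.Q / 6) := (G.L_pow_le_exp (by norm_num)).trans
    (Real.exp_le_exp.2 (by linarith [G.pow_le (a := 1) (b := 21) (by norm_num), G.Q_lo]))
  have h3 := mul_le_mul_of_nonneg_right h2 (Real.exp_pos (-(G.Q / 2))).le
  rw [← Real.exp_add, show G.Q / 6 + -(G.Q / 2) = -(G.Q / 3) by ring] at h3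
  have h4 : 0 ≤ G.L ^ 3 * Real.exp (-(G.Q / 2)) := by positivity
  linarith only [h3, h4]

/-- The size of the seed. -/
lemma Fs_bounds (j : ℕ) {z : ℝ} (h0 : 2 * R.bh G (j + 1) ≤ z * G.mQ)
    (h1 : z * G.mQ ≤ 10 * R.bh G (j + 1)) :
    Real.exp (-(G.Ga / 2) - G.Ga / G.t) * (G.d (j + 1) * R.bh G (j + 1)) ≤ R.Fs G j z 1 ∧
      R.Fs G j z 1 ≤ Real.exp (-(G.Ga / 2) + G.Ga / G.t) * (G.d (j + 1) * R.bh G (j + 1)) := by
  have t0 := G.t_pos
  have t1 := G.one_le_t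
  have L0 := G.L_pos
  have L1 := G.one_le_L
  have g0 := G.Ga_pos
  have m0 := G.m0_pos
  have mq := G.mQ_pos
  have m1 : 1 ≤ G.m0 * G.mQ := one_le_mul_of_one_le_of_one_le (one_le_pow₀ L1)
    (one_le_pow₀ (L1.trans G.L_le_Q))
  have b0 := H.bh_pos j
  have b1 := H.bh_pos (j + 1)
  have l0 := G.lam_pos j
  have l1 := G.lam_pos (j + 1)
  have r0 := G.lm_pos j
  have r1 := G.lm_pos (j + 1)
  have c0 := H.cf_lo
  obtain ⟨X, hX, q1, q2⟩ : ∃ X : ℝ, R.Yq G j 1 G.La = R.bh G j * X ∧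
      Real.exp (-(G.Ga / 2)) ≤ X ∧ X ≤ Real.exp (G.t * G.L - G.Ga / 2) := by
    refine ⟨∏ m ∈ Finset.range G.La, R.cy (m + 1) * G.lam j * R.bh G j / G.D j,
      by simp [Raw.Yq], ?_, ?_⟩
    · refine le_trans (le_of_eq ?_) (Finset.prod_le_prod
        (fun _ _ => (Real.exp_pos (-(G.Q / 2))).le) fun m _ => H.fac_lo j m)
      rw [Finset.prod_const, Finset.card_range, ← Real.exp_nat_mul, G.La_eq, ← G.Q_mul_L]
      congr 1
      ring
    · refine (Finset.prod_le_prod (g := fun _ => Real.exp (G.t - G.Q / 2))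
        (fun m _ => (Real.exp_pos _).le.trans (H.fac_lo j m)) fun m _ =>
          (H.fac_hi j m).trans ?_).trans (le_of_eq ?_)
      · rw [sub_eq_add_neg, Real.exp_add]
        refine mul_le_mul_of_nonneg_right ((div_le_self (by positivity) (by norm_num)).trans
          ((G.L_pow_le_exp (by norm_num)).trans (Real.exp_le_exp.2 ?_))) (Real.exp_pos _).le
        linarith only [t0]
      · rw [Finset.prod_const, Finset.card_range, ← Real.exp_nat_mul, G.La_eq, ← G.Q_mul_L]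
        congr 1
        ring
  have q0 : 0 < X := (Real.exp_pos _).trans_le q1
  have e : R.Fs G j z 1 =
      R.cf * (z * G.mQ) * (G.lam (j + 1) * R.bh G j) * X / (G.m0 * G.mQ) := by
    rw [Raw.Fs, hX, G.lam_eq (j + 1)]
    field_simp
  have a1 : G.lm (j + 1) ≤ G.lam (j + 1) * R.bh G j := by
    have h2 : G.Ga * G.am j ≤ R.bh G j := by
      have h3 := mul_le_mul_of_nonneg_right (one_le_pow₀ (n := 10) t1)
        (mul_pos g0 (G.am_pos j)).le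
      have h4 := mul_pos g0 (G.am_pos j)
      linarith only [b0, h3, H.bh_lo j]
    calc G.lm (j + 1) = 1 * G.lam j * (G.Ga * G.am j) := by
          rw [G.lm_succ, ← G.lam_mul_am j]; ring
      _ ≤ G.L * G.lam j * R.bh G j := by have := G.am_pos j; gcongr
      _ = _ := by rw [G.lam_succ]
  have a2 : G.lam (j + 1) * R.bh G j ≤ G.t ^ 11 * G.L / 10 ^ 48 * G.lm (j + 1) := by
    have h2 := mul_le_mul_of_nonneg_left (H.lam_bh_hi j) L0.le
    rw [G.lam_succ, G.lm_succ]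
    linarith only [h2]
  have aW : G.W ≤ G.Ga / G.t := by
    rw [Geo.W, ← G.Q_mul_L]
    exact div_le_div_of_nonneg_right (le_mul_of_one_le_right G.Q_pos.le L1) t0.le
  have a3 : G.m0 * G.mQ ≤ Real.exp (G.Ga / G.t) := by
    refine (mul_le_mul G.m0_hi G.mQ_hi mq.le (Real.exp_pos _).le).trans ?_
    rw [← Real.exp_add, Real.exp_le_exp]
    linarith only [aW, G.W_lo, pow_pos t0 20]
  rw [e, Geo.d]
  constructor
  · calc _ = 1 * (2 * R.bh G (j + 1)) * G.lm (j + 1) *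
          Real.exp (-(G.Ga / 2)) / Real.exp (G.Ga / G.t) := by
          rw [Real.exp_sub]
          ring
      _ ≤ _ := by
          have : 0 ≤ z * G.mQ := by linarith only [h0, b1]
          (clear * - h0 m0 mq b0 b1 l1 r1 c0 q1 q0 a1 a3 this; gcongr)
  · have a5 : 2 * (G.t * G.L) ≤ G.Ga / G.t := by
      rw [le_div_iff₀ t0]
      have h2 := G.L_pow_lt (a := 1) (b := 2) (by norm_num)
      have h3 := mul_le_mul_of_nonneg_right (G.pow_le (a := 2) (b := 20) (by norm_num)) L0.le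
      have h4 : 0 ≤ G.t ^ 20 * G.L := by positivity
      linarith only [g0, h2, h3, G.Ga_lo]
    have a6 : G.t ^ 22 * G.L ≤ G.L ^ 3 := by
      calc G.t ^ 22 * G.L ≤ G.t ^ 42 * G.L :=
            mul_le_mul_of_nonneg_right (G.pow_le (by norm_num)) L0.le
        _ = (G.t ^ 21) ^ 2 * G.L := by ring
        _ ≤ G.L ^ 2 * G.L := by have := G.L_lo; gcongr
        _ = _ := by ring
    have a4 : G.t ^ 22 * G.L ≤ Real.exp (G.Ga / G.t - G.t * G.L) :=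
      a6.trans ((G.L_pow_le_exp (by norm_num)).trans (Real.exp_le_exp.2 (by
        have := le_mul_of_one_le_right t0.le L1
        linarith only [t0, a5, this])))
    calc _ ≤ G.t ^ 11 * (10 * R.bh G (j + 1)) * (G.t ^ 11 * G.L / 10 ^ 48 * G.lm (j + 1)) *
          Real.exp (G.t * G.L - G.Ga / 2) / 1 := by
          have : 0 ≤ z * G.mQ := by linarith only [h0, b1]
          have := H.cf_hi
          gcongr
      _ = 5 / 10 ^ 48 * (G.t ^ 22 * G.L) * Real.exp (G.t * G.L - G.Ga / 2) *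
          (2 * G.lm (j + 1) * R.bh G (j + 1)) := by ring
      _ ≤ 1 * Real.exp (G.Ga / G.t - G.t * G.L) * Real.exp (G.t * G.L - G.Ga / 2) *
          (2 * G.lm (j + 1) * R.bh G (j + 1)) := by
          gcongr
          norm_num
      _ = _ := by
          rw [one_mul, ← Real.exp_add]
          congr 2
          ring

/-- The junk is negligible for the old levels. -/
lemma jk_old {J i : ℕ} {t : ℝ} (hJ : Jb G R J t) (hi : i ≤ J) :
    Real.exp G.Ga * R.Jk t ≤ (1 / 2) ^ (J - i) * (R.un G i * G.lm J) := by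
  obtain ⟨m, rfl⟩ := Nat.exists_eq_add_of_le hi
  have t0 := G.t_pos
  have q0 := G.Q_pos
  have l0 := G.am_pos i
  have l1 := G.lm_pos (i + m)
  have n0 := G.N_pos i
  have u0 := H.un_pos i
  have g1 : 1 ≤ G.Ga := (one_le_pow₀ G.one_le_L).trans G.Ga_lo
  have a1 : G.am i ≤ G.N i * R.un G i := by linarith only [l0, H.am_le_bh i, H.un_lo i]
  have a2 : G.Q ≤ 1 / 2 * (G.t ^ 10 * G.Q) := by
    have := mul_le_mul_of_nonneg_right (G.pow_lt (a := 0) (b := 10) (by norm_num)) q0.le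
    linarith only [q0, this]
  rw [Nat.add_sub_cancel_left]
  refine (G.exp_jk (le_self_pow₀ g1 (by norm_num)) hJ).trans ?_
  rw [div_le_iff₀ (G.N_pos _)]
  calc G.lm (i + m) * G.am (i + m) = G.Q ^ m * G.am i * G.lm (i + m) := by
        rw [← G.am_add]
        ring
    _ ≤ (1 / 2 * (G.t ^ 10 * G.Q)) ^ m * (G.N i * R.un G i) * G.lm (i + m) := by gcongr
    _ = (1 / 2) ^ m * (R.un G i * G.lm (i + m)) * ((G.t ^ 10 * G.Q) ^ m * G.N i) := by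
        rw [mul_pow]
        ring
    _ ≤ _ := mul_le_mul_of_nonneg_left (G.N_add_lo i m) (by positivity)

/-- The junk is negligible for the upper levels. -/
lemma jk_up {J i : ℕ} {t : ℝ} (hJ : Jb G R J t) (hi : J ≤ i) :
    Real.exp (G.Ga ^ 2) * (G.N i * R.Jk t) ≤ G.θ ^ (i - J) * (G.lm i * R.bh G J) := by
  obtain ⟨m, rfl⟩ := Nat.exists_eq_add_of_le hi
  have t0 := G.t_pos
  have l0 := G.lm_pos J
  have l1 := G.am_pos J
  have n0 := G.N_pos J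
  have n1 := G.N_pos (J + m)
  have g0 := G.Ga_pos
  have th := G.θ_pos
  have a1 : G.am J ≤ R.bh G J := by linarith only [l1, H.am_le_bh J]
  rw [Nat.add_sub_cancel_left, mul_left_comm]
  calc _ ≤ G.N (J + m) * (G.lm J * G.am J / G.N J) :=
        mul_le_mul_of_nonneg_left (G.exp_jk le_rfl hJ) n1.le
    _ ≤ (G.θ * G.Ga) ^ m * G.N J * (G.lm J * G.am J / G.N J) :=
        mul_le_mul_of_nonneg_right (G.N_add_hi J m) (by positivity)
    _ = (G.θ * G.Ga) ^ m * (G.lm J * G.am J) := by field_simp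
    _ ≤ (G.θ * G.Ga) ^ m * (G.lm J * R.bh G J) := by gcongr
    _ = _ := by
        rw [G.lm_add, mul_pow]
        ring

end IsNet

end

end Pool.Agent.Work.MP_6bf1e5_an.Hyp
end

-- merged part: Pool.Agent.Work.MP_6bf1e5_an.Hyp.CombA
section
/-!
Elementary properties of combs.
-/

open Set Complex Filter Topology
open scoped InnerProductSpace ComplexConjugate
open Pool.Agent.Work.MP_6bf1e5_an.B (Z3 R3)
open Pool.Agent.Work.MP_6bf1e5_an.Hyp.Dec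

namespace Pool.Agent.Work.MP_6bf1e5_an.Hyp

noncomputable section

variable {G : Geo} {R : Raw}

lemma off_mem_bx (j : ℕ) (o : Fin 4) : G.off j o ∈ bx ![0, G.n j, G.n j] := by
  rw [mem_bx]
  intro i
  fin_cases o <;> fin_cases i <;> simp [Geo.off]

lemma two_le_T : 2 ≤ G.T := le_trans (by norm_num) G.big

lemma two_w_le_n (j : ℕ) (i : Fin 3) : 2 * G.w j i ≤ G.n j := by
  have hT : 2 ≤ G.T := two_le_T
  have h1 : 2 * G.T ^ 5 ≤ G.T ^ 9 := by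
    calc 2 * G.T ^ 5 ≤ G.T * G.T ^ 5 := Nat.mul_le_mul_right _ hT
      _ = G.T ^ 6 := by ring
      _ ≤ G.T ^ 9 := Nat.pow_le_pow_right (by omega) (by norm_num)
  have h2 : G.T ≤ G.T ^ 5 := by
    calc G.T = G.T ^ 1 := (pow_one _).symm
      _ ≤ G.T ^ 5 := Nat.pow_le_pow_right (by omega) (by norm_num)
  have h3 : 2 * (G.T ^ 5 * G.La ^ j) ≤ G.n j := by
    rw [← mul_assoc]; exact Nat.mul_le_mul_right _ h1
  have h4 : 2 * (G.T * G.La ^ j) ≤ G.n j :=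
    le_trans (Nat.mul_le_mul_left _ (Nat.mul_le_mul_right _ h2)) h3
  fin_cases i
  · exact h3
  · exact h4
  · exact h3

lemma rc_le_two_w (j : ℕ) (i : Fin 3) : G.rc j i ≤ 2 * G.w j i := by
  cases j with
  | zero =>
    have := G.rb_add_one 0 i
    show G.rb 0 i ≤ _
    omega
  | succ j =>
    have h1 := G.rb_add_one (j + 1) i
    have h2 := G.rb_succ j i
    have h3 : (2 : ℝ) ≤ G.ρ := le_trans (by norm_num) G.ρ_big
    have h4 : (2 : ℝ) * G.rd j i ≤ (G.rb (j + 1) i : ℝ) + 1 := by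
      rw [h2]; gcongr
    have h5 : 2 * G.rd j i ≤ G.rb (j + 1) i + 1 := by exact_mod_cast h4
    show G.rb (j + 1) i + 2 * G.rd j i ≤ _
    omega

lemma sp_comb_of_le (j : ℕ) {m : N3} (hm : ∀ i, m i ≤ 2 * G.w j i) {g : Fin 4 → V}
    (hg : ∀ o, Sp m (g o)) : Sp (fun i => 2 * G.rB j i) (R.comb G j g) := by
  refine Sp.sum _ fun o _ => Sp.smul (((sp_sh (off_mem_bx j o)).mul (hg o)).mono fun i => ?_) _
  have h1 := hm i
  have h2 := two_w_le_n (G := G) j i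
  have h3 := G.w_le_rB j i
  fin_cases i <;> simp [Geo.rB] at h1 h2 h3 ⊢ <;> omega

lemma sp_comb (j : ℕ) {g : Fin 4 → V} (hg : ∀ o, Sp (G.rb j) (g o)) :
    Sp (fun i => 2 * G.rB j i) (R.comb G j g) :=
  sp_comb_of_le j (fun i => (G.rb_le_rc j i).trans (rc_le_two_w j i)) hg

lemma sp_comb' (j : ℕ) {g : Fin 4 → V} (hg : ∀ o, Sp (G.rc j) (g o)) :
    Sp (fun i => 2 * G.rB j i) (R.comb G j g) :=
  sp_comb_of_le j (rc_le_two_w j) hg

lemma rl_comb (j : ℕ) {g : Fin 4 → V} (hg : ∀ o, Rl (g o)) : Rl (R.comb G j g) :=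
  Rl.sum _ fun o _ => ((rl_sh _).mul (hg o)).smul _

lemma ev_zero_comb (j : ℕ) (g : Fin 4 → V) :
    ev 0 (R.comb G j g) = ∑ o, (R.om o : ℂ) * ev 0 (g o) := by
  rw [Raw.comb, map_sum]
  exact Finset.sum_congr rfl fun o _ => by
    rw [map_smul, map_mul, ev_zero_sh, one_mul, smul_eq_mul]

lemma comb_sub (j : ℕ) (g g' : Fin 4 → V) :
    R.comb G j g - R.comb G j g' = R.comb G j fun o => g o - g' o := by
  simp only [Raw.comb, ← Finset.sum_sub_distrib, mul_sub, smul_sub]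

lemma hd_comb (j : ℕ) {g : Fin 4 → ℝ → V} {g' : Fin 4 → V} {t : ℝ} (h : ∀ o, HD (g o) (g' o) t) :
    HD (fun t => R.comb G j fun o => g o t) (R.comb G j g') t := by
  simp only [Raw.comb]
  exact HasDerivWithinAt.fun_sum fun o _ =>
    (HD.const_mul' (h o) (sh (G.off j o))).const_smul (R.om o : ℂ)

namespace IsNet

variable (H : IsNet G R)

include H

lemma norm_om (o : Fin 4) : ‖(R.om o : ℂ)‖ = R.om o := by
  rw [Complex.norm_real, Real.norm_of_nonneg (by linarith [(H.om_pos o).1])]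

lemma l1_comb_le' (j : ℕ) (g : Fin 4 → V) : l1 (R.comb G j g) ≤ ∑ o, R.om o * l1 (g o) :=
  (l1_sum_le _ _).trans (le_of_eq (Finset.sum_congr rfl fun o _ => by
    rw [l1_smul, l1_sh_mul, H.norm_om]))

lemma norm_comb_le' (j : ℕ) (g : Fin 4 → V) : ‖R.comb G j g‖ ≤ ∑ o, R.om o * ‖g o‖ :=
  (norm_sum_le _ _).trans (le_of_eq (Finset.sum_congr rfl fun o _ => by
    rw [norm_smul, norm_sh_mul, H.norm_om]))

lemma sum_om_mul_le {x : Fin 4 → ℝ} {c : ℝ} (hx : ∀ o, x o ≤ c) :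
    ∑ o, R.om o * x o ≤ R.Om * c := by
  rw [← sum_om, Finset.sum_mul]
  exact Finset.sum_le_sum fun o _ =>
    mul_le_mul_of_nonneg_left (hx o) (by linarith [(H.om_pos o).1])

/-- The weighted sum of four numbers is controlled by their Euclidean norm. -/
lemma sum_om_mul_le_sqrt {x : Fin 4 → ℝ} {L : ℝ} (hL : 0 ≤ L) (hx : ∑ o, x o ^ 2 ≤ L ^ 2) :
    ∑ o, R.om o * x o ≤ 13 * L := by
  have h1 := Finset.sum_mul_sq_le_sq_mul_sq Finset.univ R.om x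
  have h2 : ∑ o, R.om o ^ 2 ≤ 169 := by
    have := H.om_lo
    have := H.om_hi
    simp [Raw.om, Fin.sum_univ_four]
    nlinarith
  refine le_trans (le_abs_self _) (abs_le_of_sq_le_sq' ?_ (by positivity)).2 |>.trans le_rfl
  rw [sq_abs]
  calc _ ≤ (∑ o, R.om o ^ 2) * ∑ o, x o ^ 2 := h1
    _ ≤ 169 * L ^ 2 := by gcongr
    _ = (13 * L) ^ 2 := by ring

omit H in
lemma sum_b_sq_le (j : ℕ) (t : ℝ) : ∑ o, ‖R.b j o t‖ ^ 2 ≤ R.lev j t ^ 2 := by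
  rw [R.lev_sq]
  exact Finset.sum_le_sum fun o _ => le_add_of_nonneg_right (by positivity)

omit H in
lemma sum_c_sq_le (j : ℕ) (t : ℝ) : ∑ o, ‖R.c j o t‖ ^ 2 ≤ R.lev j t ^ 2 := by
  rw [R.lev_sq]
  exact Finset.sum_le_sum fun o _ => le_add_of_nonneg_left (by positivity)

lemma l1_comb_le (j : ℕ) {g : Fin 4 → V} {c : ℝ} (hg : ∀ o, l1 (g o) ≤ c) :
    l1 (R.comb G j g) ≤ R.Om * c :=
  (H.l1_comb_le' j g).trans (H.sum_om_mul_le hg)

lemma norm_comb_le (j : ℕ) {g : Fin 4 → V} {c : ℝ} (hg : ∀ o, ‖g o‖ ≤ c) :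
    ‖R.comb G j g‖ ≤ R.Om * c :=
  (H.norm_comb_le' j g).trans (H.sum_om_mul_le hg)

lemma spB (j : ℕ) (t : ℝ) : Sp (fun i => 2 * G.rB j i) (R.B G j t) := sp_comb j (H.spb j · t)

lemma spC (j : ℕ) (t : ℝ) : Sp (fun i => 2 * G.rB j i) (R.Cc G j t) := sp_comb' j (H.spc j · t)

lemma spA (j : ℕ) (t : ℝ) : Sp (fun i => 2 * G.rd j i) (R.A G j t) :=
  (H.spB j t).tau.mono fun i => by fin_cases i <;> simp [rot3, Geo.rd]

lemma rlB (j : ℕ) (t : ℝ) : Rl (R.B G j t) := rl_comb j (H.rlb j · t)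

lemma ev_zero_B (j : ℕ) (t : ℝ) : ev 0 (R.B G j t) = ((R.bh G j * R.aa G j t : ℝ) : ℂ) := by
  rw [(H.rlB j t).ev_zero, Raw.aa, mul_div_cancel₀ _ (H.bh_pos j).ne']

lemma B_eq {j : ℕ} {t : ℝ} (h : 0 < R.aa G j t) :
    R.B G j t = ((R.bh G j * R.aa G j t : ℝ) : ℂ) • R.pB G j t := by
  have h0 : ((R.bh G j * R.aa G j t : ℝ) : ℂ) ≠ 0 :=
    Complex.ofReal_ne_zero.mpr (mul_pos (H.bh_pos j) h).ne'
  rw [Raw.pB, H.ev_zero_B, smul_smul, mul_inv_cancel₀ h0, one_smul]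

lemma kap_A {j : ℕ} {t : ℝ} (h : 0 < R.aa G j t) :
    (R.kap G j : ℂ) • R.A G j t = ((G.d (j + 1) * R.aa G j t : ℝ) : ℂ) • R.pp G j t := by
  rw [Raw.A, Raw.pp, ← H.kap_mul_bh]
  conv_lhs => rw [H.B_eq h]
  rw [tau_smul, smul_smul, ← Complex.ofReal_mul, mul_assoc]

lemma l1_comb_le_sqrt (j : ℕ) {m : N3} {g : Fin 4 → V} (hg : ∀ o, Sp m (g o)) {L : ℝ}
    (hL : 0 ≤ L) (hx : ∑ o, ‖g o‖ ^ 2 ≤ L ^ 2) : l1 (R.comb G j g) ≤ 39 * Nn m * L := by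
  have hN := Nn_pos m
  calc l1 (R.comb G j g) ≤ ∑ o, R.om o * l1 (g o) := H.l1_comb_le' j g
    _ ≤ ∑ o, R.om o * (3 * Nn m * ‖g o‖) := Finset.sum_le_sum fun o _ =>
        mul_le_mul_of_nonneg_left (hg o).l1_le (by linarith [(H.om_pos o).1])
    _ = 3 * Nn m * ∑ o, R.om o * ‖g o‖ := by
        rw [Finset.mul_sum]; exact Finset.sum_congr rfl fun o _ => by ring
    _ ≤ 3 * Nn m * (13 * L) := by
        gcongr; exact H.sum_om_mul_le_sqrt hL hx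
    _ = 39 * Nn m * L := by ring

lemma l1_B_le (j : ℕ) (t : ℝ) : l1 (R.B G j t) ≤ 40 * R.nl G j t := by
  have h := H.l1_comb_le_sqrt j (H.spb j · t) (R.lev_nonneg j t) (sum_b_sq_le j t)
  have h1 := R.nl_nonneg G j t
  have h2 : 39 * Nn (G.rb j) * R.lev j t = 39 * R.nl G j t := by
    simp only [Raw.nl, Geo.N]; ring
  exact h.trans (by linarith)

lemma l1_C_le (j : ℕ) (t : ℝ) : l1 (R.Cc G j t) ≤ 40 * R.nl G j t := by
  have h := H.l1_comb_le_sqrt j (H.spc j · t) (R.lev_nonneg j t) (sum_c_sq_le j t)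
  have h1 := R.nl_nonneg G j t
  have h2 : Nn (G.rc j) * R.lev j t ≤ 101 / 100 * G.N j * R.lev j t :=
    mul_le_mul_of_nonneg_right (G.Nn_rc j) (R.lev_nonneg j t)
  refine h.trans ?_
  simp only [Raw.nl] at h1 ⊢
  linarith

lemma norm_B_le (j : ℕ) (t : ℝ) : ‖R.B G j t‖ ≤ 13 * R.lev j t :=
  (H.norm_comb_le' j _).trans (H.sum_om_mul_le_sqrt (R.lev_nonneg j t) (sum_b_sq_le j t))

/-- The amplitude of a comb close to the ground state. -/
lemma aa_close {j : ℕ} {t a a1 : ℝ} (h1 : 0 ≤ a1)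
    (hc : ∀ o, ‖R.b j o t - ((a * R.un G j : ℝ) : ℂ) • G.φ j‖ ≤ a1 * R.un G j) :
    |R.aa G j t - a| ≤ 3 * a1 ∧ l1 (R.B G j t) ≤ (|a| + 3 * a1) * R.bh G j := by
  have hun := H.un_pos j
  have hbh := H.bh_pos j
  have hmul := H.un_mul j
  have hOm : 0 < R.Om := by linarith [H.Om_lo]
  -- the sum norm of the errors
  have he : ∀ o, l1 (R.b j o t - ((a * R.un G j : ℝ) : ℂ) • G.φ j) ≤
      3 * a1 * (R.un G j * l1 (G.φ j)) := fun o => by
    have h2 := ((H.spb j o t).sub ((G.sp_φ j).smul ((a * R.un G j : ℝ) : ℂ))).l1_le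
    have h3 : Nn (G.rb j) ≤ l1 (G.φ j) := le_l1_ph _
    have h4 := Nn_pos (G.rb j)
    have h5 := l1_nonneg (G.φ j)
    calc _ ≤ _ := h2
      _ ≤ 3 * l1 (G.φ j) * (a1 * R.un G j) := by gcongr; exact hc o
      _ = _ := by ring
  have hE : l1 (R.comb G j fun o => R.b j o t - ((a * R.un G j : ℝ) : ℂ) • G.φ j) ≤
      3 * a1 * R.bh G j := by
    refine (H.l1_comb_le j he).trans (le_of_eq ?_)
    rw [← hmul]; ring
  rw [← comb_sub] at hE
  have hM : ev 0 (R.comb G j fun _ => ((a * R.un G j : ℝ) : ℂ) • G.φ j) =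
      ((R.bh G j * a : ℝ) : ℂ) := by
    rw [ev_zero_comb, ← Finset.sum_mul, map_smul, Geo.φ, ev_zero_ph, ← Complex.ofReal_sum, sum_om,
      smul_eq_mul, ← Complex.ofReal_mul, ← Complex.ofReal_mul, ← hmul, Geo.φ]
    congr 1; ring
  have hL : l1 (R.comb G j fun _ => ((a * R.un G j : ℝ) : ℂ) • G.φ j) ≤ |a| * R.bh G j := by
    refine (H.l1_comb_le j (c := |a| * R.un G j * l1 (G.φ j)) fun _ => ?_).trans (le_of_eq ?_)
    · rw [l1_smul, Complex.norm_real, Real.norm_eq_abs, abs_mul, abs_of_pos hun]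
    · rw [← hmul]; ring
  constructor
  · have h5 := (norm_ev_le 0 _).trans hE
    rw [map_sub, hM] at h5
    have h6 : ev 0 (R.comb G j fun o => R.b j o t) = ((R.bh G j * R.aa G j t : ℝ) : ℂ) :=
      H.ev_zero_B j t
    rw [h6, ← Complex.ofReal_sub, Complex.norm_real, Real.norm_eq_abs, ← mul_sub, abs_mul,
      abs_of_pos hbh, mul_comm] at h5
    exact le_of_mul_le_mul_right h5 hbh
  · have h7 := l1_add_le (R.comb G j fun _ => ((a * R.un G j : ℝ) : ℂ) • G.φ j)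
      ((R.comb G j fun o => R.b j o t) - R.comb G j fun _ => ((a * R.un G j : ℝ) : ℂ) • G.φ j)
    rw [add_sub_cancel] at h7
    show l1 (R.comb G j fun o => R.b j o t) ≤ _
    linarith

end IsNet

end

end Pool.Agent.Work.MP_6bf1e5_an.Hyp
end

-- merged part: Pool.Agent.Work.MP_6bf1e5_an.Hyp.GapC
section
/-!
Comparison of the ground states of two boxes and the lower bound of the comparison form.
-/

open Set Complex
open scoped InnerProductSpace ComplexConjugate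
open Pool.Agent.Work.MP_6bf1e5_an.B (Z3 R3)
open Pool.Agent.Work.MP_6bf1e5_an.Hyp.Dec

namespace Pool.Agent.Work.MP_6bf1e5_an.Hyp.Gp

noncomputable section

attribute [local irreducible] Hm

lemma norm_pj_ph_sub {n K : N3} {δ : ℝ} (h0 : 0 < δ) (h1 : δ ≤ 1 / 4)
    (hK : ∀ i, (K i : ℝ) ≤ 2 * δ * (n i + 1)) : ‖pj n (ph (n + K)) - ph n‖ ≤ 48 * δ := by
  have hN := Nn_pos n
  have hN' := Nn_pos (n + K)
  have a1 : Nn n ≤ Nn (n + K) := by
    rw [Nn, Nn]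
    gcongr with i
    exact le_add_n n K i
  have a2 : Nn (n + K) ≤ Nn n * (1 + 4 * δ) := by
    refine (pow_le_pow_iff_left₀ hN'.le (by positivity) two_ne_zero).mp ?_
    rw [mul_pow, Nn_sq, Nn_sq]
    calc ∏ i, ((((n + K) i : ℕ) : ℝ) + 1) ≤ ∏ i, (((n i : ℝ) + 1) * (1 + 2 * δ)) := by
          gcongr with i
          simp only [Pi.add_apply]
          push_cast
          linarith only [hK i]
      _ = (∏ i, ((n i : ℝ) + 1)) * (1 + 2 * δ) ^ 3 := by rw [Finset.prod_mul_distrib]; simp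
      _ ≤ _ := by gcongr ?_ * ?_; nlinarith only [h0, h1, sq_nonneg δ]
  have a3 : |(Nn (n + K))⁻¹ - (Nn n)⁻¹| ≤ (Nn n)⁻¹ * (4 * δ) := by
    have b1 : (Nn (n + K))⁻¹ ≤ (Nn n)⁻¹ := inv_anti₀ hN a1
    have b2 : (Nn n)⁻¹ ≤ (Nn (n + K))⁻¹ * (1 + 4 * δ) := by
      rw [← div_eq_inv_mul, inv_eq_one_div, div_le_div_iff₀ hN hN']
      linarith only [a2]
    rw [abs_sub_comm, abs_of_nonneg (by linarith only [b1])]
    nlinarith only [h0, b1, b2]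
  have := ((sp_pj n (ph (n + K))).sub (sp_ph n)).norm_le (c := (Nn n)⁻¹ * (16 * δ))
    (by positivity) fun h => by
      by_cases hh : h ∈ bx n
      · have e : (pj n (ph (n + K)) - ph n).coeff h =
            (((Nn (n + K))⁻¹ * ∏ i, Real.cos (th ((n + K) i) * h i) -
              (Nn n)⁻¹ * ∏ i, Real.cos (th (n i) * h i) : ℝ) : ℂ) := by
          simp only [AddMonoidAlgebra.coeff_sub, Finsupp.coe_sub, Pi.sub_apply, coeff_pj,
            coeff_ph, if_pos hh, if_pos (bx_mono (le_add_n n K) hh), Complex.ofReal_sub]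
        have c1 := abs_prod_sub_le (a := fun i => Real.cos (th ((n + K) i) * h i))
          (b := fun i => Real.cos (th (n i) * h i)) (c := 4 * δ) (fun _ => Real.abs_cos_le_one _)
          (fun _ => Real.abs_cos_le_one _) fun i => by
            refine (Real.abs_cos_sub_cos_le _ _).trans ?_
            have d1 : |(h i : ℝ)| ≤ n i := by exact_mod_cast mem_bx.mp hh i
            rw [← sub_mul, abs_mul, abs_sub_comm, Pi.add_apply,
              abs_of_nonneg (sub_nonneg.mpr (th_add_le (n i) (K i)))]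
            calc (th (n i) - th (n i + K i)) * |(h i : ℝ)| ≤ 2 * δ * th (n i) * (n i + 1) := by
                  have := th_pos (n i)
                  gcongr
                  · exact th_sub_le (hK i)
                  · linarith only [d1]
              _ = δ * Real.pi := by rw [mul_assoc, th_mul]; ring
              _ ≤ _ := by nlinarith only [h0, Real.pi_le_four]
        have c2 : |∏ i, Real.cos (th ((n + K) i) * h i)| ≤ 1 := by
          rw [Finset.abs_prod]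
          exact Finset.prod_le_one (fun _ _ => abs_nonneg _) fun _ _ => Real.abs_cos_le_one _
        rw [e, Complex.norm_real, Real.norm_eq_abs, show
          (Nn (n + K))⁻¹ * ∏ i, Real.cos (th ((n + K) i) * h i) -
            (Nn n)⁻¹ * ∏ i, Real.cos (th (n i) * h i) =
          ((Nn (n + K))⁻¹ - (Nn n)⁻¹) * ∏ i, Real.cos (th ((n + K) i) * h i) + (Nn n)⁻¹ *
            (∏ i, Real.cos (th ((n + K) i) * h i) - ∏ i, Real.cos (th (n i) * h i)) by ring]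
        refine (abs_add_le _ _).trans ?_
        rw [abs_mul, abs_mul, abs_of_pos (inv_pos.mpr hN)]
        calc _ ≤ (Nn n)⁻¹ * (4 * δ) * 1 + (Nn n)⁻¹ * (3 * (4 * δ)) := by (clear * - h0 hN a3 c1 c2; gcongr)
          _ = _ := by ring
      · rw [(sp_pj n (ph (n + K))).sub (sp_ph n) h hh, norm_zero]
        positivity
  refine this.trans (le_of_eq ?_)
  field_simp
  ring

lemma inner_ph_sq_le {n m : N3} {y : V} (hy : Sp n y) {ε : ℝ} (hε : ‖pj n (ph m) - ph n‖ ≤ ε) :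
    ‖⟪ph m, y⟫_ℂ‖ ^ 2 ≤ ‖⟪ph n, y⟫_ℂ‖ ^ 2 + 2 * ε * ‖y‖ ^ 2 := by
  have h1 : ⟪ph m, y⟫_ℂ = ⟪ph n, y⟫_ℂ + ⟪pj n (ph m) - ph n, y⟫_ℂ := by
    rw [inner_sub_left, inner_pj_left, hy.pj_eq]; ring
  have h2 : ‖⟪ph m, y⟫_ℂ‖ ≤ ‖⟪ph n, y⟫_ℂ‖ + ε * ‖y‖ := by
    rw [h1]
    refine (norm_add_le _ _).trans ?_
    gcongr
    exact (norm_inner_le_norm _ _).trans (by gcongr)
  have h3 : ∀ k, ‖⟪ph k, y⟫_ℂ‖ ≤ ‖y‖ := fun k => by
    simpa [norm_ph] using norm_inner_le_norm (𝕜 := ℂ) (ph k) y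
  have h4 : 0 ≤ ε * ‖y‖ := mul_nonneg ((norm_nonneg _).trans hε) (norm_nonneg _)
  nlinarith only [h2, h4, h3 n, h3 m, norm_nonneg ⟪ph n, y⟫_ℂ, norm_nonneg ⟪ph m, y⟫_ℂ]

lemma lower_form {m K : N3} {y : V} (hy : Sp m y) {c lam : Fin 3 → ℝ} {g : ℝ} (hK : ∀ i, 2 ≤ K i)
    (h1 : ∀ i, K i * th (m i) ≤ 1 / 100) (hl : ∀ i, lam i ≤ psi (K i) (th (m i)))
    (hl' : ∀ i, lam i ≤ th (m i) ^ 2) (hc : ∀ i, 0 ≤ c i)
    (hg : ∀ i, g ≤ 5 / 2 * th (m i) ^ 2 * c i) :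
    (∑ i, lam i * c i) * ‖y‖ ^ 2 + g * (‖y‖ ^ 2 - ‖⟪ph m, y⟫_ℂ‖ ^ 2) ≤
      ∑ l ∈ idx m, (∑ i, c i * psi (K i) (th (m i) * (l i + 1))) * ‖⟪sv m l, y⟫_ℂ‖ ^ 2 := by
  have h0 : (0 : Fin 3 → ℕ) ∈ idx m := by simp [idx]
  have hlo : ∀ i (l : ℕ), l < 2 * m i + 1 → lam i ≤ psi (K i) (th (m i) * (l + 1)) :=
    fun i l hl2 => by
      rcases Nat.eq_zero_or_pos l with rfl | h
      · simpa using hl i
      · linarith only [le_psi_high (hK i) (h1 i) h hl2, sq_nonneg (th (m i)), hl' i]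
  have e : ‖⟪ph m, y⟫_ℂ‖ ^ 2 = ∑ l ∈ idx m, if l = 0 then ‖⟪sv m l, y⟫_ℂ‖ ^ 2 else 0 := by
    rw [Finset.sum_ite_eq', if_pos h0, sv_zero]
  rw [e, normsq_eq_sum_sv hy, ← Finset.sum_sub_distrib, Finset.mul_sum, Finset.mul_sum,
    ← Finset.sum_add_distrib]
  refine Finset.sum_le_sum fun l hl2 => ?_
  have hli : ∀ i, l i < 2 * m i + 1 := fun i =>
    Finset.mem_range.mp (Fintype.mem_piFinset.mp hl2 i)
  have hb : ∀ i, lam i * c i ≤ c i * psi (K i) (th (m i) * (l i + 1)) := fun i => by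
    rw [mul_comm]; exact mul_le_mul_of_nonneg_left (hlo i _ (hli i)) (hc i)
  split_ifs with h
  · rw [sub_self, mul_zero, add_zero]
    exact mul_le_mul_of_nonneg_right (Finset.sum_le_sum fun i _ => hb i) (sq_nonneg _)
  · rw [sub_zero, ← add_mul]
    refine mul_le_mul_of_nonneg_right ?_ (sq_nonneg _)
    obtain ⟨i, hi⟩ := Function.ne_iff.mp h
    have b1 := le_psi_high (hK i) (h1 i) (Nat.pos_of_ne_zero hi) (hli i)
    have b2 : lam i * c i + g ≤ c i * psi (K i) (th (m i) * (l i + 1)) := by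
      linarith only [hg i, mul_le_mul_of_nonneg_left b1 (hc i),
        mul_le_mul_of_nonneg_left (hl' i) (hc i)]
    rw [← Finset.add_sum_erase _ _ (Finset.mem_univ i),
      ← Finset.add_sum_erase _ _ (Finset.mem_univ i)]
    linarith only [b2, Finset.sum_le_sum fun j (_ : j ∈ Finset.univ.erase i) => hb j]

/-- The spectral gap, with the small parameters isolated. -/
theorem gap_aux {T κ : ℝ} {r n K : N3} {mv : Fin 3 → ℝ} {p : V} (hp : Drv T r mv κ p)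
    (hr : ∀ i, 1 ≤ r i) (hT : (10 : ℝ) ^ 100 ≤ T) {e δ ρ : ℝ} (he : e ≤ 1 / 10 ^ 30)
    (hκ : κ ≤ 10 ^ 5 * e) (hTe : (T ^ 8)⁻¹ ≤ e) (d0 : 0 < δ) (d1 : δ ≤ e) (r0 : 0 < ρ)
    (r1 : ρ ≤ e) (hρ : ∀ i, r i * th (n i) = ρ) (k1 : ∀ i, 10 ^ 7 * T ^ 8 * r i ≤ K i)
    (k2 : ∀ i, (K i : ℝ) ≤ 2 * δ * (n i + 1)) : Gap n (ρ ^ 2) (10 ^ 25 * e) p := by
  have T1 : (1 : ℝ) ≤ T := le_trans (by norm_num) hT
  have T8 : (1 : ℝ) ≤ T ^ 8 := one_le_pow₀ T1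
  have ha : ∀ i, (1 : ℝ) ≤ r i := fun i => by exact_mod_cast hr i
  have hK2 : ∀ i, 2 ≤ K i := fun i => by
    have : (2 : ℝ) ≤ K i := le_trans (by linarith only [one_le_mul_of_one_le_of_one_le T8 (ha i)]) (k1 i)
    exact_mod_cast this
  have e0 : 0 < e := d0.trans_le d1
  have ht := fun i => th_pos (n i)
  have ht' := fun i => th_pos ((n + K) i)
  have t1 : ∀ i, th ((n + K) i) ≤ th (n i) := fun i => th_add_le _ _
  have t2 : ∀ i, th (n i) - th ((n + K) i) ≤ 2 * δ * th (n i) := fun i => th_sub_le (k2 i)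
  have t3 : ∀ i, K i * th ((n + K) i) ≤ 4 * δ := fun i =>
    calc K i * th ((n + K) i) ≤ 2 * δ * (n i + 1) * th (n i) := by
          gcongr
          exacts [(ht' i).le, k2 i, t1 i]
      _ = δ * Real.pi := by linear_combination 2 * δ * th_mul (n i)
      _ ≤ _ := by linarith only [mul_le_mul_of_nonneg_left Real.pi_le_four d0.le]
  have t5 : ∀ i, th ((n + K) i) ^ 2 ≤ th (n i) ^ 2 := fun i =>
    pow_le_pow_left₀ (ht' i).le (t1 i) 2
  have t6 : ∀ i, th (n i) ^ 2 * (1 - 4 * δ) ≤ th ((n + K) i) ^ 2 := fun i =>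
    calc th (n i) ^ 2 * (1 - 4 * δ) ≤ (th (n i) * (1 - 2 * δ)) ^ 2 := by
          linarith only [sq_nonneg (th (n i) * δ)]
      _ ≤ _ := pow_le_pow_left₀ (mul_nonneg (ht i).le (by linarith)) (by linarith only [t2 i]) 2
  have dd : δ ^ 2 ≤ δ / 10 := by
    linarith [mul_le_mul_of_nonneg_left (show δ ≤ 1 / 10 by linarith) d0.le]
  have m0 : 0 < ρ ^ 2 := by positivity
  have hlo := le_Hm hp hr hT (by linarith only [he, hκ])
  have hH : ∀ i, 0 ≤ Hm r p i := fun i => le_trans (by positivity) (hlo i)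
  have u1 : ∀ i, 9 / 10 ^ 11 * ρ ^ 2 ≤ Hm r p i * th (n i) ^ 2 := fun i => by
    rw [← hρ i, mul_pow, ← mul_assoc]; gcongr; exact hlo i
  have u2 : ∀ i, Hm r p i * th (n i) ^ 2 ≤ 32 * ρ ^ 2 := fun i => by
    rw [← hρ i, mul_pow, ← mul_assoc]; gcongr; exact Hm_le hp i
  obtain ⟨S, hS⟩ : ∃ S, S = ∑ i, Hm r p i * th (n i) ^ 2 := ⟨_, rfl⟩
  have s1 : 27 / 10 ^ 11 * ρ ^ 2 ≤ S := by
    rw [hS, Fin.sum_univ_three]; linarith only [u1 0, u1 1, u1 2]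
  have s2 : S ≤ 96 * ρ ^ 2 := by rw [hS, Fin.sum_univ_three]; linarith only [u2 0, u2 1, u2 2]
  have e1 : 99 / 100 ≤ 1 - 2 * 10 ^ 15 * e := by linarith only [he]
  obtain ⟨Λ, hΛ⟩ : ∃ Λ : ℝ, Λ = ∑ i, th ((n + K) i) ^ 2 * (1 - 2 * δ ^ 2) *
    ((1 - 2 * 10 ^ 15 * e) * Hm r p i) := ⟨_, rfl⟩
  have l1 : Λ ≤ S := by
    rw [hΛ, hS]
    refine Finset.sum_le_sum fun i _ => ?_
    have := hH i
    calc _ ≤ th (n i) ^ 2 * 1 * (1 * Hm r p i) :=
          mul_le_mul (mul_le_mul (t5 i) (by linarith only [sq_nonneg δ]) (by linarith only [he, d1, dd]) (sq_nonneg _))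
            (mul_le_mul_of_nonneg_right (by linarith only [d0, d1]) this) (mul_nonneg (by linarith only [he]) this)
            (by positivity)
      _ = _ := by ring
  have l2 : (1 - 3 * 10 ^ 15 * e) * S ≤ Λ := by
    rw [hΛ, hS, Finset.mul_sum]
    refine Finset.sum_le_sum fun i _ => ?_
    have := hH i
    have b1 : 1 - 3 * 10 ^ 15 * e ≤ (1 - 4 * δ) * (1 - δ) * (1 - 2 * 10 ^ 15 * e) := by
      have b2 : 1 - 5 * e ≤ (1 - 4 * δ) * (1 - δ) := by linarith only [d1, sq_nonneg δ]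
      linarith only [e0, mul_le_mul_of_nonneg_right b2 (by linarith only [he] : 0 ≤ 1 - 2 * 10 ^ 15 * e),
        mul_pos e0 e0]
    calc _ ≤ (1 - 4 * δ) * (1 - δ) * (1 - 2 * 10 ^ 15 * e) * (Hm r p i * th (n i) ^ 2) := by
          (clear * - this b1; gcongr)
      _ = th (n i) ^ 2 * (1 - 4 * δ) * (1 - δ) * ((1 - 2 * 10 ^ 15 * e) * Hm r p i) := by ring
      _ ≤ _ := by
          gcongr
          exacts [by linarith only [he, d1], t6 i, by linarith only [d0, dd]]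
  have dm : δ * ρ ^ 2 ≤ e * ρ ^ 2 := by gcongr
  have em : e * ρ ^ 2 ≤ 1 / 10 ^ 30 * ρ ^ 2 := by gcongr
  have dm0 : 0 < δ * ρ ^ 2 := by positivity
  have ds : e * S ≤ e * (96 * ρ ^ 2) := by gcongr
  refine ⟨Λ - 96 * δ * (1 / 10 ^ 10 * ρ ^ 2), by linarith only [s1, l2, dm, em, dm0, ds], by linarith only [s2, l1, dm, em, dm0], ?_, fun y hy => ?_⟩
  · have q1 := Qf_ph_le hp (n := n) r0.le (by linarith only [he, r1]) fun i => (hρ i).le
    have q2 : ρ ^ 3 ≤ e * ρ ^ 2 := by rw [pow_succ']; gcongr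
    rw [← hS] at q1
    linarith only [l2, dm, dm0, ds, q1, q2]
  · have q1 := le_Qf hp hr hT he hκ hTe k1 y
    rw [sum_sh_eq hy] at q1
    have q2 := lower_form (hy.mono (le_add_n n K))
      (c := fun i => (1 - 2 * 10 ^ 15 * e) * Hm r p i)
      (lam := fun i => th ((n + K) i) ^ 2 * (1 - 2 * δ ^ 2)) (g := 1 / 10 ^ 10 * ρ ^ 2) hK2
      (fun i => by linarith only [he, d1, t3 i])
      (fun i => by
        refine le_trans ?_ (le_psi_small (by linarith only [hK2 i]) (ht' i).le (by linarith only [he, d1, t3 i]))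
        have : (K i * th ((n + K) i)) ^ 2 ≤ (4 * δ) ^ 2 :=
          pow_le_pow_left₀ (by have := ht' i; (clear * - this; positivity)) (t3 i) 2
        gcongr ?_ * ?_
        linarith only [this, sq_nonneg δ])
      (fun i => by linarith only [sq_nonneg (th ((n + K) i) * δ)])
      (fun i => mul_nonneg (by linarith only [he]) (hH i))
      fun i => by
        have := hH i
        calc 1 / 10 ^ 10 * ρ ^ 2
            ≤ 5 / 2 * (th (n i) ^ 2 * (99 / 100)) * (99 / 100 * Hm r p i) := by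
              linarith only [dm, em, dm0, u1 i]
          _ ≤ _ := by
              gcongr
              linarith only [t6 i, mul_le_mul_of_nonneg_left (show 99 / 100 ≤ 1 - 4 * δ by linarith only [he, d1])
                (sq_nonneg (th (n i)))]
    rw [← hΛ] at q2
    have q3 := inner_ph_sq_le hy (norm_pj_ph_sub d0 (by linarith only [he, d1]) k2)
    have q4 := mul_le_mul_of_nonneg_left q3 m0.le
    refine le_trans ?_ (q2.trans q1)
    linarith only [q4]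

end

end Pool.Agent.Work.MP_6bf1e5_an.Hyp.Gp
end

-- merged part: Pool.Agent.Work.MP_6bf1e5_an.Hyp.Gap
section
/-!
The spectral gap.
-/

open Set Complex Filter Topology
open scoped InnerProductSpace ComplexConjugate
open Pool.Agent.Work.MP_6bf1e5_an.B (Z3 R3)
open Pool.Agent.Work.MP_6bf1e5_an.Hyp.Dec

namespace Pool.Agent.Work.MP_6bf1e5_an.Hyp

noncomputable section

theorem gap_of_drv {T ρ κ : ℝ} {r n : N3} {mv : Fin 3 → ℝ} {p : V} (hp : Drv T r mv κ p)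
    (hT : (10 : ℝ) ^ 100 ≤ T) (hρ : T ^ 17 ≤ ρ) (hκ : κ ≤ 10 ^ 5 / T ^ 4)
    (hn : ∀ i, (n i : ℝ) + 1 = ρ * r i) : Gap n (mu ρ) (10 ^ 25 / T ^ 4) p := by
  have T1 : (1 : ℝ) ≤ T := le_trans (by norm_num) hT
  have T0 : (0 : ℝ) < T := by linarith
  have ρ0 : (0 : ℝ) < ρ := lt_of_lt_of_le (by positivity) hρ
  have hr : ∀ i, 1 ≤ r i := fun i => by
    refine Nat.pos_of_ne_zero fun h => ?_
    have := hn i
    rw [h, Nat.cast_zero, mul_zero] at this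
    exact absurd this (by positivity)
  have ha : ∀ i, (1 : ℝ) ≤ r i := fun i => by exact_mod_cast hr i
  have T8 : (1 : ℝ) ≤ T ^ 8 := one_le_pow₀ T1
  have b1 : ∀ (c : ℝ) (k : ℕ), c ≤ 10 ^ 100 → c / T ^ (4 + (k + 1)) ≤ (T ^ 4)⁻¹ := fun c k hc => by
    rw [pow_add, div_le_iff₀ (by positivity), ← mul_assoc, inv_mul_cancel₀ (by positivity), one_mul]
    exact hc.trans (hT.trans (le_self_pow₀ T1 (by omega)))
  rw [div_eq_mul_inv] at hκ ⊢
  refine Gp.gap_aux hp hr hT (δ := 10 ^ 7 * T ^ 8 / ρ) (ρ := Real.pi / (2 * ρ)) (K := fun i => ⌈10 ^ 7 * T ^ 8 * r i⌉₊) ?_ hκ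
    (inv_anti₀ (by positivity) (pow_le_pow_right₀ T1 (by norm_num))) (by positivity)
    ?_ (by have := Real.pi_pos; positivity) ?_ (fun i => ?_)
    (fun i => Nat.le_ceil _) fun i => ?_
  · rw [inv_eq_one_div]
    gcongr
    exact le_trans (by norm_num) (hT.trans (le_self_pow₀ T1 (by norm_num)))
  · refine le_trans ?_ (b1 (10 ^ 7) 4 (by norm_num))
    calc 10 ^ 7 * T ^ 8 / ρ ≤ 10 ^ 7 * T ^ 8 / T ^ 17 := by gcongr
      _ = _ := by field_simp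
  · refine le_trans ?_ (b1 (Real.pi / 2) 12 (by linarith only [Real.pi_le_four]))
    have := Real.pi_pos
    rw [← div_div]
    gcongr
  · have := ha i
    rw [th, hn i]
    field_simp
  · have h1 : (1 : ℝ) ≤ 10 ^ 7 * T ^ 8 * r i := by nlinarith only [T8, ha i]
    have h2 := Nat.ceil_lt_add_one (by linarith : (0 : ℝ) ≤ 10 ^ 7 * T ^ 8 * r i)
    have h3 : 2 * (10 ^ 7 * T ^ 8 / ρ) * (ρ * r i) = 2 * (10 ^ 7 * T ^ 8 * r i) := by field_simp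
    rw [hn i, h3]
    linarith only [h1, h2]

end

end Pool.Agent.Work.MP_6bf1e5_an.Hyp
end

-- merged part: Pool.Agent.Work.MP_6bf1e5_an.Hyp.Cone
section
/-!
The cone estimate and the second phase.
-/

open Set Complex Filter Topology
open scoped InnerProductSpace ComplexConjugate
open Pool.Agent.Work.MP_6bf1e5_an.B (Z3 R3)
open Pool.Agent.Work.MP_6bf1e5_an.Hyp.Dec

namespace Pool.Agent.Work.MP_6bf1e5_an.Hyp

noncomputable section

namespace Cn2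

open Cn

lemma pph_le {T κ : ℝ} {r : N3} {mv : Fin 3 → ℝ} {p : V} (hp : Drv T r mv κ p) (n : N3) :
    ‖p * ph n‖ ≤ 1 := (hp.norm_mul_le _).trans (norm_ph n).le

lemma dist_eq (n : N3) (p B C : V) (c : ℝ) :
    ‖B - (c : ℂ) • ph n‖ ^ 2 + ‖C - (c : ℂ) • (p * ph n)‖ ^ 2 =
      nr B C ^ 2 - 2 * c * al n p B C + c ^ 2 * (1 + ‖p * ph n‖ ^ 2) := by
  rw [normsq_sub, normsq_sub, nr_sq, al, norm_ph]
  ring

lemma real_g {α g s d X q x z y μ η G ε ω l : ℝ} (hα : 0 < α) (hs : 0 < s) (g0 : 0 ≤ g)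
    (gG : g ≤ G) (hG : 1 ≤ G) (ε0 : 0 ≤ ε) (ω0 : 0 ≤ ω) (l0 : 0 ≤ l) (y0 : 0 ≤ y)
    (k2 : 2 * ((2 * X - g * α ^ 2) * α + g * α ^ 2 * q) ≤
      α * (-(1 / 10 ^ 11 * μ) * (g * α ^ 2 - α ^ 2 / 2) + 10 ^ 13 * μ * (η + μ) * (G * α) ^ 2))
    (zle : z ≤ 2 * (G * α) * (ε * α)) (xle : |x| ≤ (2 * ε + G * (ω + 5 * l)) * α) :
    (2 * (2 * s * X - d * (g * α ^ 2) - y + z) * α ^ 2 -
      g * α ^ 2 * (2 * α * ((s - d) * α - s * q + x))) / (α ^ 2) ^ 2 ≤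
      -(1 / 10 ^ 11 * s * μ) * (g - 1 / 2) + 10 ^ 13 * s * μ * (η + μ) * G ^ 2 +
        10 * G ^ 2 * (ε + ω + l) := by
  rw [div_le_iff₀ (by positivity)]
  have a1 := mul_le_mul_of_nonneg_left k2 (mul_pos hs hα).le
  have a2 := mul_le_mul_of_nonneg_left zle (sq_nonneg α)
  have a3 : -(g * x) ≤ G * ((2 * ε + G * (ω + 5 * l)) * α) := by
    have := mul_le_mul gG xle (abs_nonneg _) (g0.trans gG)
    linarith only [this, mul_le_mul_of_nonneg_left (neg_abs_le x) g0]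
  have a4 := mul_le_mul_of_nonneg_left a3 (pow_pos hα 3).le
  have G0 : 0 ≤ G := g0.trans gG
  have a5 : 0 ≤ G * (G - 1) * (ε * α ^ 4) := by have := sub_nonneg.2 hG; positivity
  have a6 : 0 ≤ G ^ 2 * (ε * α ^ 4) := by positivity
  have a7 : 0 ≤ G ^ 2 * (ω * α ^ 4) := by positivity
  have a8 : 0 ≤ y * α ^ 2 := by positivity
  linear_combination a1 + 2 * a2 + 2 * a4 + 8 * a5 + 2 * a6 + 8 * a7 + 2 * a8

lemma real_main {α E nb β Qt μ' μ η G R b ρ : ℝ} (hα : 0 < α) (hG : 1 ≤ G) (μ0 : 0 ≤ μ)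
    (η0 : 0 ≤ η) (μs : μ ≤ 1 / 10 ^ 6) (μ'0 : 0 ≤ μ') (μ'1 : μ' ≤ 200 * μ) (R0 : 0 ≤ R)
    (nb0 : 0 ≤ nb) (h1 : E ≤ G * α ^ 2) (h2 : nb ^ 2 ≤ E) (h3 : E ≤ 2 * nb ^ 2 + 2 * nb * R + R ^ 2)
    (h4 : 2 * β - α = μ' * β + b - ρ) (h5 : |ρ| ≤ R) (h6 : b ^ 2 ≤ η * μ * Qt)
    (h7 : 1 / 10 ^ 10 * μ * (nb ^ 2 - β ^ 2) ≤ Qt) (h8 : |β| ≤ nb)
    (h9 : E - α ^ 2 / 2 ≤ 3 * (nb ^ 2 - β ^ 2) + 2 * R ^ 2 + (100 + η / 2) * μ * α ^ 2) :
    2 * (-(μ' * nb ^ 2 + Qt + R ^ 2) * α + E * (μ' * β + b)) ≤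
      α * (-(1 / 10 ^ 11 * μ) * (E - α ^ 2 / 2) + 10 ^ 13 * μ * (η + μ) * (G * α) ^ 2) := by
  obtain ⟨A, hA⟩ : ∃ A, A = G * α := ⟨_, rfl⟩
  rw [← hA]
  have αA : α ≤ A := hA ▸ le_mul_of_one_le_left hα.le hG
  have A0 : 0 ≤ A := by linarith only [hα, αA]
  have EA : E ≤ α * A := by rw [hA]; linarith only [h1]
  have E0 : 0 ≤ E := (sq_nonneg _).trans h2
  have nA : nb ≤ A :=
    (pow_le_pow_iff_left₀ nb0 A0 two_ne_zero).mp (by linarith only [h2, EA, mul_le_mul_of_nonneg_right αA A0])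
  have w0 : 0 ≤ nb ^ 2 - β ^ 2 := by
    linarith only [sq_abs β, pow_le_pow_left₀ (abs_nonneg β) h8 2]
  have Q0 : 0 ≤ Qt := le_trans (by positivity) h7
  have b0 := abs_nonneg b
  have q1 : μ' * β + b ≤ 200 * μ * A + |b| := by
    have : μ' * β ≤ 200 * μ * A := (mul_le_mul_of_nonneg_left ((le_abs_self β).trans (h8.trans nA))
      μ'0).trans (mul_le_mul_of_nonneg_right μ'1 A0)
    linarith only [this, le_abs_self b]
  have t1 : E * β - nb ^ 2 * α ≤ α * (3 / 2 * A * R + R ^ 2 / 2 + A * (200 * μ * A + |b|) / 2) := by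
    have e1 : E * (μ' * β + b - ρ) ≤ α * A * (200 * μ * A + |b| + R) :=
      (mul_le_mul_of_nonneg_left (by linarith only [h5, q1, neg_abs_le ρ]) E0).trans
        (mul_le_mul_of_nonneg_right EA (by positivity))
    have e2 : α * (E / 2 - nb ^ 2) ≤ α * (A * R + R ^ 2 / 2) :=
      mul_le_mul_of_nonneg_left (by linarith only [h3, mul_le_mul_of_nonneg_right nA R0]) hα.le
    rw [← h4] at e1
    linarith only [e1, e2]
  have t2 : μ' * (E * β - nb ^ 2 * α) ≤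
      200 * μ * (α * (3 / 2 * A * R + R ^ 2 / 2 + A * (200 * μ * A + |b|) / 2)) :=
    (mul_le_mul_of_nonneg_left t1 μ'0).trans (mul_le_mul_of_nonneg_right μ'1 (by (clear * - hα μ0 R0 A0; positivity)))
  have t3 : E * b ≤ α * (A * |b|) := by
    rw [← mul_assoc]
    exact (mul_le_mul_of_nonneg_left (le_abs_self b) E0).trans (mul_le_mul_of_nonneg_right EA b0)
  have t4 : 101 / 100 * (A * |b|) ≤ Qt / 2 + 52 / 100 * (η * μ * A ^ 2) := by
    refine sqle ?_ (by (clear * - μ0 η0 Q0; positivity))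
    have e1 : A ^ 2 * b ^ 2 ≤ A ^ 2 * (η * μ * Qt) := mul_le_mul_of_nonneg_left h6 (sq_nonneg _)
    have e2 : 0 ≤ A ^ 2 * (η * μ * Qt) := by positivity
    rw [mul_pow, mul_pow, sq_abs]
    linarith only [e1, e2, sq_nonneg (Qt / 2 - 52 / 100 * (η * μ * A ^ 2))]
  have t5 : 200 * μ * (3 / 2 * A * R + R ^ 2 / 2 + A * (200 * μ * A + |b|) / 2) + A * |b| ≤
      Qt / 2 + 26 / 100 * R ^ 2 + 110000 * (μ * A) ^ 2 + 52 / 100 * (η * μ * A ^ 2) := by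
    have e1 : μ * R ^ 2 ≤ 1 / 10 ^ 6 * R ^ 2 := mul_le_mul_of_nonneg_right μs (sq_nonneg _)
    have e2 : μ * (A * |b|) ≤ 1 / 10 ^ 6 * (A * |b|) :=
      mul_le_mul_of_nonneg_right μs (by positivity)
    have e3 : 0 ≤ A * |b| := by positivity
    linarith only [t4, e1, e2, e3, sq_nonneg (R / 2 - 300 * (μ * A)), sq_nonneg R]
  have t6 : -(μ' * nb ^ 2 + Qt + R ^ 2) * α + E * (μ' * β + b) ≤
      α * (-(Qt / 2 + 74 / 100 * R ^ 2) + (110000 * (μ * A) ^ 2 + 52 / 100 * (η * μ * A ^ 2))) := by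
    have := mul_le_mul_of_nonneg_left t5 hα.le
    linarith only [t2, t3, this]
  have t7 : 2 * (-(Qt / 2 + 74 / 100 * R ^ 2) +
      (110000 * (μ * A) ^ 2 + 52 / 100 * (η * μ * A ^ 2))) ≤
      -(1 / 10 ^ 11 * μ) * (E - α ^ 2 / 2) + 10 ^ 13 * μ * (η + μ) * A ^ 2 := by
    have e3 := mul_le_mul_of_nonneg_left h9 μ0
    have e4 : μ * R ^ 2 ≤ 1 / 10 ^ 6 * R ^ 2 := mul_le_mul_of_nonneg_right μs (sq_nonneg _)
    have e5 : α ^ 2 ≤ A ^ 2 := pow_le_pow_left₀ hα.le αA 2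
    have e6 : μ ^ 2 * α ^ 2 ≤ μ ^ 2 * A ^ 2 := mul_le_mul_of_nonneg_left e5 (sq_nonneg _)
    have e7 : μ * (η * μ * α ^ 2) ≤ 1 / 10 ^ 6 * (η * μ * A ^ 2) :=
      mul_le_mul μs (mul_le_mul_of_nonneg_left e5 (by positivity)) (by positivity) (by positivity)
    have e8 : 0 ≤ η * μ * A ^ 2 := by positivity
    have e9 : 0 ≤ μ ^ 2 * A ^ 2 := by positivity
    linarith only [h7, Q0, e3, e4, e6, e7, e8, e9, sq_nonneg R]
  have := mul_le_mul_of_nonneg_left t7 hα.le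
  linarith only [t6, this]

/-- The static part of the cone estimate. -/
lemma static {T κ μ η G : ℝ} {r n : N3} {mv : Fin 3 → ℝ} {p B C : V} (hp : Drv T r mv κ p)
    (hg : Gap n μ η p) (μ0 : 0 ≤ μ) (η0 : 0 ≤ η) (sB : Sp n B) (sy : Rl B) (hG : 1 ≤ G)
    (μs : μ ≤ 1 / 10 ^ 6) {α E q : ℝ} (hα : α = al n p B C)
    (hE : E = nr B C ^ 2) (hq : q = (⟪ph n, B⟫_ℂ).re - (⟪p * ph n, p * B⟫_ℂ).re)
    (pos : 0 < α) (le : E ≤ G * α ^ 2) :
      2 * ((2 * (⟪p * B, C⟫_ℂ).re - E) * α + E * q) ≤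
        α * (-(1 / 10 ^ 11 * μ) * (E - α ^ 2 / 2) + 10 ^ 13 * μ * (η + μ) * (G * α) ^ 2) := by
  obtain ⟨μ', μ'0, μ'1, gφ, gap⟩ := hg
  obtain ⟨β, hβ⟩ : ∃ β, β = (⟪ph n, B⟫_ℂ).re := ⟨_, rfl⟩
  have β2 : ‖⟪ph n, B⟫_ℂ‖ ^ 2 = β ^ 2 := by
    rw [Complex.sq_norm, normSq_apply, (rl_ph n).inner_im sy, hβ]; ring
  have βle : |β| ≤ ‖B‖ := by simpa [norm_ph, hβ] using abs_re_le (ph n) B
  have expand : ∀ c : ℝ, Qf p (B - (c : ℂ) • ph n) = Qf p B - 2 * c * q + c ^ 2 * Qf p (ph n) := by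
    intro c
    simp only [Qf]
    rw [mul_sub, mul_smul_comm, normsq_sub, normsq_sub, hq]
    ring
  have Qn : ∀ y, 0 ≤ Qf p y := fun y =>
    sub_nonneg.mpr (pow_le_pow_left₀ (norm_nonneg _) (hp.norm_mul_le y) 2)
  have Qφ : Qf p (ph n) = 1 - ‖p * ph n‖ ^ 2 := by rw [Qf, norm_ph, one_pow]
  have BE : ‖B‖ ^ 2 ≤ E := by rw [hE, nr_sq]; linarith only [sq_nonneg ‖C‖]
  have b2 : (q - μ' * β) ^ 2 ≤ η * μ * (Qf p B - μ' * ‖B‖ ^ 2) := by
    have := discrim_le_zero (a := η * μ) (b := -(2 * (q - μ' * β)))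
      (c := Qf p B - μ' * ‖B‖ ^ 2) fun c => by
      have h1 := gap _ (sB.sub ((sp_ph n).smul (c : ℂ)))
      have h2 : ‖⟪ph n, B - (c : ℂ) • ph n⟫_ℂ‖ ≤ ‖B - (c : ℂ) • ph n‖ := by
        simpa only [norm_ph, one_mul] using
          norm_inner_le_norm (𝕜 := ℂ) (ph n) (B - (c : ℂ) • ph n)
      have h3 := mul_nonneg μ0 (sub_nonneg.mpr (pow_le_pow_left₀ (norm_nonneg _) h2 2))
      have h4 := mul_le_mul_of_nonneg_left gφ (sq_nonneg c)
      have h5 : μ' * ‖B - (c : ℂ) • ph n‖ ^ 2 ≤ Qf p (B - (c : ℂ) • ph n) := by linarith only [h1, h3]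
      rw [expand, normsq_sub, norm_ph, ← hβ] at h5
      linarith only [h4, h5]
    rw [discrim] at this
    linarith only [this]
  obtain ⟨Rv, hRv⟩ : ∃ Rv, Rv = C - p * B := ⟨_, rfl⟩
  have eP : C = p * B + Rv := by rw [hRv]; abel
  have pB := hp.norm_mul_le B
  have pφ : ‖p * ph n‖ ≤ 1 := pph_le hp n
  have en : 2 * (⟪p * B, C⟫_ℂ).re - E = -(Qf p B + ‖Rv‖ ^ 2) := by
    have := normsq_sub (p * B) C 1
    rw [ofReal_one, one_smul] at this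
    rw [hRv, this, hE, nr_sq, Qf]
    ring
  have h3 : E ≤ 2 * ‖B‖ ^ 2 + 2 * ‖B‖ * ‖Rv‖ + ‖Rv‖ ^ 2 := by
    have a1 : ‖C‖ ≤ ‖B‖ + ‖Rv‖ := by
      rw [eP]
      exact (norm_add_le _ _).trans (by rw [← eP] at *; linarith only [pB])
    have a3 := pow_le_pow_left₀ (norm_nonneg _) a1 2
    rw [hE, nr_sq]
    linarith only [a3]
  have h4 : 2 * β - α = μ' * β + (q - μ' * β) - (⟪p * ph n, Rv⟫_ℂ).re := by
    rw [hα, al, hq, ← hβ]
    conv_lhs => rw [eP]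
    simp only [inner_add_right, add_re]
    ring
  have h5 : |(⟪p * ph n, Rv⟫_ℂ).re| ≤ ‖Rv‖ :=
    (abs_re_le _ _).trans (mul_le_of_le_one_left (norm_nonneg _) pφ)
  have h7 := gap B sB
  rw [β2] at h7
  have h9 : E - α ^ 2 / 2 ≤ 3 * (‖B‖ ^ 2 - β ^ 2) + 2 * ‖Rv‖ ^ 2 + (100 + η / 2) * μ * α ^ 2 := by
    have a0 := dist_eq n p B C β
    obtain ⟨w, hw⟩ : ∃ w, w = B - (β : ℂ) • ph n := ⟨_, rfl⟩
    have w2 : ‖w‖ ^ 2 = ‖B‖ ^ 2 - β ^ 2 := by rw [hw, normsq_sub, norm_ph, ← hβ]; ring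
    have a1 : ‖C - (β : ℂ) • (p * ph n)‖ ^ 2 ≤ 2 * ‖w‖ ^ 2 + 2 * ‖Rv‖ ^ 2 := by
      have : C - (β : ℂ) • (p * ph n) = p * w + Rv := by
        rw [hRv, hw, mul_sub, mul_smul_comm]
        abel
      rw [this]
      have b1 : ‖p * w + Rv‖ ≤ ‖w‖ + ‖Rv‖ :=
        (norm_add_le _ _).trans (by linarith only [hp.norm_mul_le w])
      have b2 := pow_le_pow_left₀ (norm_nonneg _) b1 2
      linarith only [b2, add_sq_le' ‖w‖ ‖Rv‖]
    rw [← hw, ← hα, ← hE] at a0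
    have a4 : 0 ≤ ‖p * ph n‖ ^ 2 * (β - α / 2) ^ 2 := by (clear * -; positivity)
    have a5 := mul_nonneg (Qn (ph n)) (sq_nonneg (α - β))
    have a6 := mul_le_mul_of_nonneg_right (gφ.trans (add_le_add_left μ'1 _)) (sq_nonneg α)
    rw [Qφ] at a5 a6
    linarith only [a0, w2, a1, a4, a5, a6]
  have := real_main pos hG μ0 η0 μs μ'0 μ'1 (norm_nonneg Rv) (norm_nonneg B) le BE h3 h4 h5 b2
    (by linarith only [h7]) βle h9
  rw [en]
  convert this using 3 <;> ring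

lemma re_inner_mulr (v : Z3 → ℝ) (f g : V) :
    (⟪f, mulr v g⟫_ℂ).re = (⟪mulr v f, g⟫_ℂ).re := by
  rw [mulr, inner_mulc_left]
  simp only [conj_ofReal]

lemma mu_le {ρ : ℝ} (ρ0 : 0 < ρ) : mu ρ ≤ 4 / ρ ^ 2 := by
  rw [mu, div_pow, div_le_div_iff₀ (by positivity) (by positivity)]
  have h1 : Real.pi ^ 2 ≤ 16 := by nlinarith [Real.pi_le_four, Real.pi_pos]
  have h2 := mul_le_mul_of_nonneg_right h1 (by positivity : 0 ≤ ρ ^ 2)
  linarith

lemma le_mu {ρ : ℝ} (ρ0 : 0 < ρ) : 2 / ρ ^ 2 ≤ mu ρ := by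
  rw [mu, div_pow, div_le_div_iff₀ (by positivity) (by positivity)]
  have h1 : 9 ≤ Real.pi ^ 2 := by nlinarith [Real.pi_gt_three]
  have h2 := mul_le_mul_of_nonneg_right h1 (by positivity : 0 ≤ ρ ^ 2)
  have h3 : 0 ≤ ρ ^ 2 := by positivity
  linarith

lemma rho_big {T ρ : ℝ} (hT : (10 : ℝ) ^ 100 ≤ T) (hρ : T ^ 17 ≤ ρ) : (10 : ℝ) ^ 100 ≤ ρ :=
  (hT.trans (le_self_pow₀ (le_trans (by norm_num) hT) (by norm_num))).trans hρ

lemma layer_le {T ρ κ l : ℝ} {r n : N3} {mv : Fin 3 → ℝ} {vc : Z3 → ℝ} {p : V}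
    (hρ : (10 : ℝ) ^ 100 ≤ ρ) (hp : Drv T r mv κ p) (hn : ∀ i, (n i : ℝ) + 1 = ρ * r i)
    (lc : Lay (fun i => n i + 2 * r i) l vc) : ‖mulr vc (p * ph n)‖ ≤ 4 * l := by
  have sp : Sp (fun i => n i + 2 * r i) (p * ph n) :=
    (hp.supp.mul (sp_ph n)).mono fun i => by simp [add_comm]
  have h1 := lc.norm_le sp (norm_coeff_mul_le_l1 p (norm_coeff_ph_le n))
  have T1 : (10 : ℝ) ≤ ρ := le_trans (by norm_num) hρ
  have h2 : Nn (fun i => n i + 2 * r i) ≤ (11 / 10) ^ 3 * Nn n := Nn_le (by norm_num) fun i => by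
    have a1 := hn i
    have a2 : (10 : ℝ) * r i ≤ ρ * r i := mul_le_mul_of_nonneg_right T1 (Nat.cast_nonneg _)
    have a3 : (0 : ℝ) ≤ n i := Nat.cast_nonneg _
    push_cast
    linarith only [a1, a2]
  have N0 := Nn_pos n
  have l0 := lc.l0
  refine h1.trans ?_
  calc _ ≤ l * ((11 / 10) ^ 3 * Nn n) * (2 * (Nn n)⁻¹) := by
        have := hp.l1_le
        have := l1_nonneg p
        gcongr
    _ = l * (2 * (11 / 10) ^ 3) := by field_simp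
    _ ≤ 4 * l := by linarith only [l0]

end Cn2

open Cn Cn2

lemma abs_al_le {T κ : ℝ} {r : N3} {mv : Fin 3 → ℝ} {p : V} (hp : Drv T r mv κ p) (n : N3)
    (b c : V) : al n p b c ^ 2 ≤ 2 * nr b c ^ 2 := by
  have h := Cn2.dist_eq n p b c (al n p b c / 2)
  have h1 : ‖p * ph n‖ ^ 2 ≤ 1 := pow_le_one₀ (norm_nonneg _) (pph_le hp n)
  have h2 := mul_le_mul_of_nonneg_left h1 (sq_nonneg (al n p b c / 2))
  have h3 : 0 ≤ nr b c ^ 2 - 2 * (al n p b c / 2) * al n p b c +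
      (al n p b c / 2) ^ 2 * (1 + ‖p * ph n‖ ^ 2) := by rw [← h]; positivity
  linarith only [h2, h3]

lemma cone_close {T κ : ℝ} {r n : N3} {mv : Fin 3 → ℝ} {p b c : V} (hp : Drv T r mv κ p) {γ : ℝ}
    (h : nr b c ^ 2 ≤ (1 / 2 + γ) * al n p b c ^ 2) :
    ‖b - ((al n p b c / 2 : ℝ) : ℂ) • ph n‖ ^ 2 ≤ γ * al n p b c ^ 2 ∧
      ‖c - ((al n p b c / 2 : ℝ) : ℂ) • (p * ph n)‖ ^ 2 ≤ γ * al n p b c ^ 2 := by
  have h0 := Cn2.dist_eq n p b c (al n p b c / 2)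
  have h1 : ‖p * ph n‖ ^ 2 ≤ 1 := pow_le_one₀ (norm_nonneg _) (pph_le hp n)
  have h2 := mul_le_mul_of_nonneg_left h1 (sq_nonneg (al n p b c / 2))
  have a1 := sq_nonneg ‖b - ((al n p b c / 2 : ℝ) : ℂ) • ph n‖
  have a2 := sq_nonneg ‖c - ((al n p b c / 2 : ℝ) : ℂ) • (p * ph n)‖
  constructor <;> linarith only [h, h0, h2, a2, a1]

/-- A pair driven by `s • p`, damped by `d` and by layers of size `l`, with errors `e0`, `e1`. -/
structure Pair (r n : N3) (l d s t : ℝ) (vb vc : Z3 → ℝ) (p : V) (b c : ℝ → V) (e0 e1 : V) :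
    Prop where
  eb : HD b ((s : ℂ) • pj n (dag p * c t) - (d : ℂ) • b t - mulr vb (b t) + e0) t
  ec : HD c ((s : ℂ) • (p * b t) - (d : ℂ) • c t - mulr vc (c t) + e1) t
  lb : Lay n l vb
  lc : Lay (fun i => n i + 2 * r i) l vc
  sb : ∀ t, Sp n (b t)
  sc : ∀ t, Sp (fun i => n i + 2 * r i) (c t)

lemma hd_nr_sq {B C : ℝ → V} {B' C' : V} {t : ℝ} (dB : HD B B' t) (dC : HD C C' t) :
    HD (fun t => nr (B t) (C t) ^ 2) (2 * ((⟪B t, B'⟫_ℂ).re + (⟪C t, C'⟫_ℂ).re)) t := by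
  simp only [nr_sq]
  convert dB.normsq.fun_add dC.normsq using 1
  ring

lemma hd_al (n : N3) {p B C : ℝ → V} {p' B' C' : V} {t : ℝ} (dp : HD p p' t) (dB : HD B B' t)
    (dC : HD C C' t) : ∃ D, HD (fun t => al n (p t) (B t) (C t)) D t :=
  ⟨_, (HD.re_inner (hasDerivWithinAt_const t _ (ph n)) dB).fun_add
    ((dp.mul_const' _).re_inner dC)⟩

theorem cone_step {T ρ κ s d l g ε ω t : ℝ} {r n : N3} {mv : Fin 3 → ℝ} {vb vc : Z3 → ℝ}
    {p b c : ℝ → V} {p' e0 e1 : V} (hT : (10 : ℝ) ^ 100 ≤ T) (hρ : T ^ 17 ≤ ρ)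
    (hp : Drv T r mv κ (p t))
    (hκ : κ ≤ 10 ^ 5 / T ^ 4) (hn : ∀ i, (n i : ℝ) + 1 = ρ * r i) (dp : HD p p' t)
    (hω : ‖p' * ph n‖ ≤ ω) (P : Pair r n l d s t vb vc (p t) b c e0 e1) (rb : Rl (b t))
    (hs : 0 < s) (pos : 0 < al n (p t) (b t) (c t)) (h0 : ‖e0‖ ≤ ε * al n (p t) (b t) (c t))
    (h1 : ‖e1‖ ≤ ε * al n (p t) (b t) (c t)) (g1 : 1 ≤ g) (g2 : g ≤ T ^ 4)
    (le : nr (b t) (c t) ^ 2 ≤ g * al n (p t) (b t) (c t) ^ 2) :
    (∃ D, HD (fun t => al n (p t) (b t) (c t)) D t ∧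
      (s - d - (√g * (s / (T ^ 8 * ρ) + ω + 5 * l) + 2 * ε)) * al n (p t) (b t) (c t) ≤ D) ∧
    ∃ D, HD (fun t => nr (b t) (c t) ^ 2 / al n (p t) (b t) (c t) ^ 2) D t ∧
      D ≤ -(1 / 10 ^ 11 * s * mu ρ) *
          (nr (b t) (c t) ^ 2 / al n (p t) (b t) (c t) ^ 2 - 1 / 2) +
        10 ^ 13 * s * mu ρ * (10 ^ 25 / T ^ 4 + mu ρ) * g ^ 2 + 10 * g ^ 2 * (ε + ω + l) := by
  have T0 : 0 < T := lt_of_lt_of_le (by positivity) hT
  have ρb := rho_big hT hρ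
  have ρ0 : 0 < ρ := lt_of_lt_of_le (by positivity) ρb
  have dα : HD (fun t => al n (p t) (b t) (c t)) _ t :=
    (HD.re_inner (hasDerivWithinAt_const t _ (ph n)) P.eb).fun_add
      ((dp.mul_const' _).re_inner P.ec)
  have dE := hd_nr_sq P.eb P.ec
  obtain ⟨α, hα⟩ : ∃ α, α = al n (p t) (b t) (c t) := ⟨_, rfl⟩
  obtain ⟨E, hE'⟩ : ∃ E, E = nr (b t) (c t) ^ 2 := ⟨_, rfl⟩
  obtain ⟨q, hq⟩ : ∃ q, q = (⟪ph n, b t⟫_ℂ).re - (⟪p t * ph n, p t * b t⟫_ℂ).re := ⟨_, rfl⟩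
  rw [← hα] at pos h0 h1 le
  rw [← hE'] at le
  have μs : mu ρ ≤ 1 / 10 ^ 6 := by
    refine (mu_le ρ0).trans ?_
    rw [div_le_div_iff₀ (by positivity) (by positivity)]
    have : ρ ≤ ρ ^ 2 := le_self_pow₀ (le_trans (by norm_num) ρb) (by norm_num)
    have : (10 : ℝ) ^ 7 ≤ 10 ^ 100 := by norm_num
    linarith
  have k2 := static hp (gap_of_drv hp hT hρ hκ hn) (sq_nonneg _) (by positivity) (P.sb t) rb g1 μs
    hα hE' hq pos le
  have ε0 : 0 ≤ ε := nonneg_of_mul_nonneg_left ((norm_nonneg _).trans h1) pos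
  have ω0 : 0 ≤ ω := (norm_nonneg _).trans hω
  have l0 : 0 ≤ l := P.lb.l0
  have G0 : 0 ≤ g := by linarith only [g1]
  have sG : √g ≤ g := Real.sqrt_le_self_iff.mpr (Or.inr g1)
  have pφ : ‖p t * ph n‖ ≤ 1 := pph_le hp n
  have nE : nr (b t) (c t) ≤ √g * α := by
    refine sqle ?_ (by positivity)
    rw [mul_pow, Real.sq_sqrt G0, ← hE']; exact le
  have nb : ‖b t‖ ≤ √g * α := (le_nr_1 _ _).trans nE
  have nc : ‖c t‖ ≤ √g * α := (le_nr_2 _ _).trans nE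
  have k1 : |q| ≤ (T ^ 8 * ρ)⁻¹ * (√g * α) := by
    have e : q = (⟪ph n - dag (p t) * (p t * ph n), b t⟫_ℂ).re := by
      rw [hq, inner_sub_left, sub_re, inner_mul_right]
    rw [e]
    exact (abs_re_le _ _).trans (mul_le_mul (hp.kink hT hρ hn) nb (norm_nonneg _) (by positivity))
  obtain ⟨x, hx⟩ : ∃ x, x = (⟪ph n, e0⟫_ℂ).re + (⟪p t * ph n, e1⟫_ℂ).re +
    ((⟪p' * ph n, c t⟫_ℂ).re - ((⟪mulr vb (ph n), b t⟫_ℂ).re +
      (⟪mulr vc (p t * ph n), c t⟫_ℂ).re)) := ⟨_, rfl⟩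
  obtain ⟨z, hz⟩ : ∃ z, z = (⟪b t, e0⟫_ℂ).re + (⟪c t, e1⟫_ℂ).re := ⟨_, rfl⟩
  obtain ⟨y, hy⟩ : ∃ y, y = (⟪b t, mulr vb (b t)⟫_ℂ).re + (⟪c t, mulr vc (c t)⟫_ℂ).re := ⟨_, rfl⟩
  have y0 : 0 ≤ y := by rw [hy]; exact add_nonneg (P.lb.re_inner _) (P.lc.re_inner _)
  have xle : |x| ≤ (2 * ε + √g * (ω + 5 * l)) * α := by
    have a1 : |(⟪ph n, e0⟫_ℂ).re| ≤ ε * α :=
      (abs_re_le _ _).trans (by rw [norm_ph, one_mul]; exact h0)
    have a2 : |(⟪p t * ph n, e1⟫_ℂ).re| ≤ ε * α :=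
      (abs_re_le _ _).trans ((mul_le_of_le_one_left (norm_nonneg _) pφ).trans h1)
    have a3 : |(⟪p' * ph n, c t⟫_ℂ).re| ≤ ω * (√g * α) :=
      (abs_re_le _ _).trans (mul_le_mul hω nc (norm_nonneg _) ω0)
    have a4 : ‖mulr vb (ph n)‖ ≤ l := by
      have := P.lb.norm_le (sp_ph n) (norm_coeff_ph_le n)
      rwa [mul_assoc, mul_inv_cancel₀ (Nn_pos n).ne', mul_one] at this
    have a5 : |(⟪mulr vb (ph n), b t⟫_ℂ).re| ≤ l * (√g * α) :=
      (abs_re_le _ _).trans (mul_le_mul a4 nb (norm_nonneg _) l0)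
    have a6 : |(⟪mulr vc (p t * ph n), c t⟫_ℂ).re| ≤ 4 * l * (√g * α) :=
      (abs_re_le _ _).trans (mul_le_mul (layer_le ρb hp hn P.lc) nc (norm_nonneg _) (by positivity))
    rw [hx]
    rw [abs_le] at a1 a2 a3 a5 a6 ⊢
    constructor <;> linarith only [a1.1, a1.2, a2.1, a2.2, a3.1, a3.2, a5.1, a5.2, a6.1, a6.2]
  have zle : z ≤ 2 * (g * α) * (ε * α) := by
    have a0 : √g * α ≤ g * α := mul_le_mul_of_nonneg_right sG pos.le
    have a1 := (le_abs_self _).trans ((abs_re_le (b t) e0).trans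
      (mul_le_mul (nb.trans a0) h0 (norm_nonneg _) (by positivity)))
    have a2 := (le_abs_self _).trans ((abs_re_le (c t) e1).trans
      (mul_le_mul (nc.trans a0) h1 (norm_nonneg _) (by positivity)))
    rw [hz]
    linarith only [a1, a2]
  obtain ⟨X, hX⟩ : ∃ X, X = (⟪p t * b t, c t⟫_ℂ).re := ⟨_, rfl⟩
  rw [← hX] at k2
  replace dα : HD (fun t => al n (p t) (b t) (c t)) ((s - d) * α - s * q + x) t := by
    convert dα using 1
    rw [hα, hq, hx, al]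
    simp only [inner_add_right, inner_sub_right, add_re, sub_re, re_smul_right, (sp_ph n).inner_pj,
      inner_zero_left, zero_re, inner_mul_right (dag (p t)) (ph n), dag_dag, re_inner_mulr]
    ring
  replace dE : HD (fun t => nr (b t) (c t) ^ 2) (2 * (2 * s * X - d * E - y + z)) t := by
    convert dE using 2
    have e1 : ∀ u : V, (⟪u, u⟫_ℂ).re = ‖u‖ ^ 2 := fun u => by
      simpa using inner_self_eq_norm_sq (𝕜 := ℂ) u
    rw [hX, hz, hy, hE', nr_sq]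
    simp only [inner_add_right, inner_sub_right, add_re, sub_re, re_smul_right, (P.sb t).inner_pj,
      inner_mul_right (dag (p t)) (b t), dag_dag, re_comm (c t) (p t * b t), e1]
    ring
  refine ⟨⟨_, dα, ?_⟩, (2 * (2 * s * X - d * E - y + z) * α ^ 2 -
    E * (2 * α * ((s - d) * α - s * q + x))) / (α ^ 2) ^ 2, ?_, ?_⟩
  · rw [← hα]
    have a1 := mul_le_mul_of_nonneg_left ((le_abs_self q).trans k1) hs.le
    have a2 := (abs_le.1 xle).1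
    rw [div_eq_mul_inv s]
    linarith only [a1, a2]
  · convert dE.fun_div (dα.fun_pow 2) (by rw [← hα]; exact (pow_pos pos 2).ne') using 1
    rw [← hα, ← hE']
    norm_num
  · rw [← hα, ← hE']
    have a6 : E / α ^ 2 * α ^ 2 = E := div_mul_cancel₀ _ (pow_pos pos 2).ne'
    have E0 : 0 ≤ E := by rw [hE']; positivity
    have g0 : 0 ≤ E / α ^ 2 := by positivity
    have gG : E / α ^ 2 ≤ g := by rwa [div_le_iff₀ (pow_pos pos 2)]
    obtain ⟨u, hu⟩ : ∃ u, u = E / α ^ 2 := ⟨_, rfl⟩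
    rw [← hu] at a6 g0 gG ⊢
    rw [← a6] at k2 ⊢
    refine Cn2.real_g pos hs g0 gG g1 ε0 ω0 l0 y0 k2 zle (xle.trans ?_)
    (clear * - pos ω0 l0 sG; gcongr)

end

end Pool.Agent.Work.MP_6bf1e5_an.Hyp
end

-- merged part: Pool.Agent.Work.MP_6bf1e5_an.Hyp.Phase1A
section
/-!
Pointwise estimates for the first phase.
-/

open Set Complex Filter Topology
open scoped InnerProductSpace ComplexConjugate
open Pool.Agent.Work.MP_6bf1e5_an.B (Z3 R3)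
open Pool.Agent.Work.MP_6bf1e5_an.Hyp.Dec

namespace Pool.Agent.Work.MP_6bf1e5_an.Hyp

noncomputable section

namespace Q1

open Ph1

lemma pow_le_exp19 {T : ℝ} (hT : (10 : ℝ) ^ 100 ≤ T) {k : ℕ} (hk : k ≤ 1000) :
    T ^ k ≤ Real.exp (T / 10 ^ 19) := by
  have T0 : 0 < T := lt_of_lt_of_le (by positivity) hT
  have h1 : Real.log T ≤ 2 * √T := by
    have := Real.log_le_sub_one_of_pos (Real.sqrt_pos.mpr T0)
    rw [Real.log_sqrt T0.le] at this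
    linarith only [this]
  have h2 : (10 : ℝ) ^ 50 ≤ √T := Real.le_sqrt_of_sq_le (by norm_num at hT ⊢; exact hT)
  have h3 : (k : ℝ) ≤ 1000 := by exact_mod_cast hk
  rw [← Real.exp_log (pow_pos T0 k), Real.log_pow]
  refine Real.exp_le_exp.mpr ?_
  have h4 := Real.mul_self_sqrt T0.le
  have h5 : (0 : ℝ) ≤ k := Nat.cast_nonneg k
  have h6 : (k : ℝ) * Real.log T ≤ 1000 * (2 * √T) :=
    (mul_le_mul_of_nonneg_left h1 h5).trans (by gcongr)
  rw [le_div_iff₀ (by positivity)]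
  nlinarith only [h2, h4, h6, Real.sqrt_nonneg T]

lemma le1 {a b U : ℝ} (hU : 0 ≤ U) (h : a ^ 2 + b ^ 2 ≤ U ^ 2) : a ≤ U :=
  (le_abs_self a).trans (abs_le_of_sq_le_sq (by linarith [sq_nonneg b]) hU)

lemma le2 {a b U : ℝ} (hU : 0 ≤ U) (h : a ^ 2 + b ^ 2 ≤ U ^ 2) : b ≤ U :=
  le1 (b := a) hU (by linarith)

lemma wt_zero (f : V) : wt 0 f = f := by ext h; simp [coeff_wt]

lemma exp_half_le : Real.exp (1 / 2) ≤ 2 := by
  have := Real.exp_bound_div_one_sub_of_interval (x := 1 / 2) (by norm_num) (by norm_num)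
  linarith [show (1 : ℝ) / (1 - 1 / 2) = 2 by norm_num]

lemma sum_single (m : N3) (i : Fin 3) (u : ℝ) :
    ∑ j, (m j : ℝ) * |(Pi.single i u : R3) j| = m i * |u| := by
  rw [Finset.sum_eq_single i] <;> simp +contextual

lemma re_self (y : V) : (⟪y, y⟫_ℂ).re = ‖y‖ ^ 2 := by
  rw [← RCLike.re_to_complex, inner_self_eq_norm_sq]

/-- The energy inequality. -/
lemma energy2 {n : N3} {b : V} (hb : Sp n b) (c k1 k2 g0 g1 : V) {s : ℝ} (d : ℝ) (hs : 0 ≤ s)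
    {v0 v1 : Z3 → ℝ} (h0 : ∀ h, 0 ≤ v0 h) (h1 : ∀ h, 0 ≤ v1 h) :
    (⟪b, (s : ℂ) • pj n (dag k1 * c) - (d : ℂ) • b - mulr v0 b + g0⟫_ℂ).re +
      (⟪c, (s : ℂ) • (k2 * b) - (d : ℂ) • c - mulr v1 c + g1⟫_ℂ).re ≤
      s * (‖(k1 + k2) * b‖ * ‖c‖) - d * (‖b‖ ^ 2 + ‖c‖ ^ 2) + (‖b‖ * ‖g0‖ + ‖c‖ * ‖g1‖) := by
  simp only [inner_add_right, inner_sub_right, Complex.add_re, Complex.sub_re, re_inner_smul,
    re_self]
  rw [hb.inner_pj, inner_mul_right (dag k1), dag_dag, re_inner_comm c (k2 * b)]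
  have e1 : (⟪k1 * b, c⟫_ℂ).re + (⟪k2 * b, c⟫_ℂ).re ≤ ‖(k1 + k2) * b‖ * ‖c‖ := by
    rw [← Complex.add_re, ← inner_add_left, ← add_mul]; exact re_inner_le _ _
  have a0 := re_inner_mulr_ge h0 b
  have a1 := re_inner_mulr_ge h1 c
  have b0 := re_inner_le b g0
  have b1 := re_inner_le c g1
  have := mul_le_mul_of_nonneg_left e1 hs
  linarith

/-- The weighted energy inequality at one time. -/
lemma stepA {T κ : ℝ} {r n : N3} {mv : Fin 3 → ℝ} {p b c g0 g1 : V} {s d U x R : ℝ} {ξ : R3}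
    {v0 v1 : Z3 → ℝ} (hp : Drv T r mv κ p) (hb : Sp n b) (hx : ∑ i, r i * |ξ i| ≤ x)
    (hx1 : x ≤ 1 / 4) (hs : 0 ≤ s) (h0 : ∀ h, 0 ≤ v0 h) (h1 : ∀ h, 0 ≤ v1 h) (hU : 0 ≤ U)
    (hY : ‖wt ξ b‖ ^ 2 + ‖wt ξ c‖ ^ 2 = U ^ 2) (hR : ‖wt ξ g0‖ + ‖wt ξ g1‖ ≤ R) :
    (⟪wt ξ b, wt ξ ((s : ℂ) • pj n (dag p * c) - (d : ℂ) • b - mulr v0 b + g0)⟫_ℂ).re +
      (⟪wt ξ c, wt ξ ((s : ℂ) • (p * b) - (d : ℂ) • c - mulr v1 c + g1)⟫_ℂ).re ≤
      U * (((1 + 8 * x ^ 2) * s - d) * U + R) := by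
  simp only [map_add, map_sub, map_smul, wt_pj, wt_mul, wt_dag, wt_mulr]
  refine (energy2 (hb.wt ξ) _ _ _ _ _ d hs h0 h1).trans ?_
  have b0 := le1 hU hY.le
  have b1 := le2 hU hY.le
  have a1 := hp.norm_sym_mul_le hx hx1 (wt ξ b)
  have st : ‖(wt (-ξ) p + wt ξ p) * wt ξ b‖ * ‖wt ξ c‖ ≤ (1 + 8 * x ^ 2) * U ^ 2 := by
    calc _ ≤ 2 * (1 + 8 * x ^ 2) * ‖wt ξ b‖ * ‖wt ξ c‖ := by gcongr
      _ = (1 + 8 * x ^ 2) * (2 * ‖wt ξ b‖ * ‖wt ξ c‖) := by ring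
      _ ≤ _ := by
        gcongr
        rw [← hY]; exact two_mul_le_add_sq _ _
  have st' := mul_le_mul_of_nonneg_left st hs
  have g0' : ‖wt ξ b‖ * ‖wt ξ g0‖ ≤ U * ‖wt ξ g0‖ := by gcongr
  have g1' : ‖wt ξ c‖ * ‖wt ξ g1‖ ≤ U * ‖wt ξ g1‖ := by gcongr
  have g2 := mul_le_mul_of_nonneg_left hR hU
  rw [hY]
  linarith only [st', g0', g1', g2]

lemma stepC {a b P g0 g1 : ℂ} {s d U η : ℝ} (hP : ‖P‖ ≤ 1) (hs : 0 ≤ s)
    (hU : 0 ≤ U) (hY : ‖a‖ ^ 2 + ‖b‖ ^ 2 = U ^ 2) (h0 : ‖g0‖ + ‖g1‖ ≤ η) :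
    (⟪a, s * (conj P * b) - d * a + g0⟫_ℂ).re + (⟪b, s * (P * a) - d * b + g1⟫_ℂ).re ≤
      U * ((s - d) * U + η) := by
  have ri : ∀ u v : ℂ, (⟪u, v⟫_ℂ).re ≤ ‖u‖ * ‖v‖ := fun u v =>
    (Complex.re_le_norm _).trans (norm_inner_le_norm _ _)
  have rs : ∀ (c : ℝ) (u v : ℂ), (⟪u, c * v⟫_ℂ).re = c * (⟪u, v⟫_ℂ).re := fun c u v => by
    rw [← smul_eq_mul, inner_smul_right, Complex.re_ofReal_mul]
  have rr : ∀ u : ℂ, (⟪u, u⟫_ℂ).re = ‖u‖ ^ 2 := fun u => by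
    rw [← RCLike.re_to_complex, inner_self_eq_norm_sq]
  have m1 : ‖P * a‖ ≤ ‖a‖ := by
    rw [norm_mul]; exact mul_le_of_le_one_left (norm_nonneg _) hP
  have m2 : ‖conj P * b‖ ≤ ‖b‖ := by
    rw [norm_mul, Complex.norm_conj]; exact mul_le_of_le_one_left (norm_nonneg _) hP
  simp only [inner_add_right, inner_sub_right, Complex.add_re, Complex.sub_re, rs, rr]
  have b0 := (ri a _).trans (mul_le_mul_of_nonneg_left m2 (norm_nonneg _))
  have b1 := (ri b _).trans (mul_le_mul_of_nonneg_left m1 (norm_nonneg _))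
  have c0 : (⟪a, conj P * b⟫_ℂ).re + (⟪b, P * a⟫_ℂ).re ≤ U ^ 2 := by
    linarith [two_mul_le_add_sq ‖a‖ ‖b‖]
  have c1 := mul_le_mul_of_nonneg_left c0 hs
  have d0 := (ri a g0).trans (mul_le_mul_of_nonneg_right (le1 hU hY.le) (norm_nonneg g0))
  have d1 := (ri b g1).trans (mul_le_mul_of_nonneg_right (le2 hU hY.le) (norm_nonneg g1))
  have d2 := mul_le_mul_of_nonneg_left h0 hU
  have e : d * ‖a‖ ^ 2 + d * ‖b‖ ^ 2 = d * U ^ 2 := by rw [← hY]; ring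
  linarith

/-- The energy inequality with the gain from the Nash type inequality. -/
lemma stepE {T κ : ℝ} {r n : N3} {mv : Fin 3 → ℝ} {p b c g0 g1 : V} {s d U R ω S : ℝ}
    {v0 v1 : Z3 → ℝ} (hp : Drv T r mv κ p) (hr : ∀ i, 1 ≤ r i) (hb : Sp n b) (hs : 0 ≤ s)
    (h0 : ∀ h, 0 ≤ v0 h) (h1 : ∀ h, 0 ≤ v1 h) (hU : 0 ≤ U)
    (hY : ‖b‖ ^ 2 + ‖c‖ ^ 2 = U ^ 2) (hR : ‖g0‖ + ‖g1‖ ≤ R) (ω0 : 0 < ω) (ω1 : ω ≤ (T ^ 16)⁻¹)
    (ω2 : ω ≤ 1) (hS : ∀ x ∈ cube, ‖ev x b‖ ≤ S) :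
    (⟪b, (s : ℂ) • pj n (dag p * c) - (d : ℂ) • b - mulr v0 b + g0⟫_ℂ).re +
      (⟪c, (s : ℂ) • (p * b) - (d : ℂ) • c - mulr v1 c + g1⟫_ℂ).re ≤
      (s - d) * U ^ 2 - s * (1 / 10 ^ 10 * ω *
        (U ^ 2 / 3 - √ω ^ 3 / (∏ i, (r i : ℝ)) * S ^ 2 / 30)) + U * R := by
  refine (energy2 hb c p p g0 g1 d hs h0 h1).trans ?_
  have b0 := le1 hU hY.le
  have b1 := le2 hU hY.le
  have g0' : ‖b‖ * ‖g0‖ ≤ U * ‖g0‖ := by gcongr
  have g1' : ‖c‖ * ‖g1‖ ≤ U * ‖g1‖ := by gcongr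
  have g2 := mul_le_mul_of_nonneg_left hR hU
  have st : ‖(p + p) * b‖ * ‖c‖ ≤
      U ^ 2 - 1 / 10 ^ 10 * ω * (U ^ 2 / 3 - √ω ^ 3 / (∏ i, (r i : ℝ)) * S ^ 2 / 30) := by
    have e : ‖(p + p) * b‖ = 2 * ‖p * b‖ := by
      rw [add_mul, ← two_smul ℂ, norm_smul]; simp
    have na := hp.nash hr ω0 ω1 b hS
    rw [Qf] at na
    have pb := hp.norm_mul_le b
    have pb2 : ‖p * b‖ ^ 2 ≤ ‖b‖ ^ 2 := by (clear * - pb; gcongr)
    set a := ‖p * b‖ with ha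
    set X := (a - ‖c‖) ^ 2 with hX
    have X0 : 0 ≤ X := by positivity
    have e2 : 2 * a * ‖c‖ = U ^ 2 - (‖b‖ ^ 2 - a ^ 2) - X := by
      rw [← hY, hX]; ring
    have e3 : ‖c‖ ^ 2 ≤ 2 * X + 2 * a ^ 2 := by
      rw [hX]; linarith only [sq_nonneg (2 * a - ‖c‖)]
    have e4 : 1 / 10 ^ 10 * ω * (U ^ 2 / 3) ≤ 1 / 10 ^ 10 * ω * (‖b‖ ^ 2 + X) := by
      gcongr; linarith only [hY, pb2, X0, e3, sq_nonneg ‖b‖]
    have e5 : 1 / 10 ^ 10 * ω * X ≤ X := mul_le_of_le_one_left X0 (by linarith only [ω2])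
    rw [e, e2]
    linarith only [na, e4, e5]
  have st' := mul_le_mul_of_nonneg_left st hs
  rw [hY]
  linarith only [g0', g1', g2, st']

/-- The rescaled product with the ground state. -/
def Ip (n : N3) (y : V) : ℝ := Nn n * (⟪ph n, y⟫_ℂ).re

lemma Ip_add (n : N3) (y w : V) : Ip n (y + w) = Ip n y + Ip n w := by
  simp only [Ip, inner_add_right, Complex.add_re, mul_add]

lemma Ip_sub (n : N3) (y w : V) : Ip n (y - w) = Ip n y - Ip n w := by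
  simp only [Ip, inner_sub_right, Complex.sub_re, mul_sub]

lemma Ip_smul (n : N3) (c : ℝ) (y : V) : Ip n ((c : ℂ) • y) = c * Ip n y := by
  rw [Ip, Ip, re_inner_smul]; ring

lemma Ip_pj (n : N3) (y : V) : Ip n (pj n y) = Ip n y := by
  rw [Ip, Ip, (sp_ph n).inner_pj]

lemma abs_Ip_le {n : N3} {y : V} {c : ℝ} (h : ‖⟪ph n, y⟫_ℂ‖ ≤ (Nn n)⁻¹ * c) : |Ip n y| ≤ c := by
  have := Nn_pos n
  rw [Ip, abs_mul, abs_of_pos this]
  calc _ ≤ Nn n * ((Nn n)⁻¹ * c) := by gcongr; exact (Complex.abs_re_le_norm _).trans h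
    _ = c := by field_simp

lemma abs_Ip_le_l1 (n : N3) (y : V) : |Ip n y| ≤ l1 y :=
  abs_Ip_le (norm_inner_le_l1 (norm_coeff_ph_le n))

lemma al_eq (n : N3) (p b c : V) : Nn n * al n p b c = Ip n b + Ip n (dag p * c) := by
  rw [al, inner_mul_left, Ip, Ip]; ring

lemma hd_al {n : N3} {p b c : ℝ → V} {p' b' c' : V} {t : ℝ} (hp : HD p p' t)
    (hb : HD b b' t) (hc : HD c c' t) :
    HD (fun t => Nn n * al n (p t) (b t) (c t))
      (Ip n b' + (Ip n (dag (p t) * c') + Ip n (dag p' * c t))) t := by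
  have h0 := HD.re_inner (f := fun _ => ph n) (hasDerivWithinAt_const t _ _) hb
  have h1 := HD.re_inner (hp.mul_const' (ph n)) hc
  refine ((h0.fun_add h1).const_mul (Nn n)).congr_deriv ?_
  simp only [inner_mul_left, Ip, inner_zero_left, Complex.zero_re]
  ring

lemma abs_al_le2 {T κ : ℝ} {r : N3} {mv : Fin 3 → ℝ} {p : V} (hp : Drv T r mv κ p) (n : N3)
    (b c : V) : |al n p b c| ≤ 2 * nr b c := by
  have ri : ∀ u v : V, ‖u‖ ≤ 1 → |(⟪u, v⟫_ℂ).re| ≤ ‖v‖ := fun u v hu =>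
    (Complex.abs_re_le_norm _).trans ((norm_inner_le_norm _ _).trans
      (mul_le_of_le_one_left (norm_nonneg _) hu))
  have h1 : ‖p * ph n‖ ≤ 1 := (hp.norm_mul_le _).trans (norm_ph n).le
  have a0 := (ri _ b (norm_ph n).le).trans (le_nr_1 b c)
  have a1 := (ri _ c h1).trans (le_nr_2 b c)
  refine (abs_add_le _ _).trans ?_
  linarith

end Q1

end

end Pool.Agent.Work.MP_6bf1e5_an.Hyp
end

-- merged part: Pool.Agent.Work.MP_6bf1e5_an.Hyp.Phase1B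
section
/-!
The setting of the first phase and the weighted estimate.
-/

open Set Complex Filter Topology
open scoped InnerProductSpace ComplexConjugate
open Pool.Agent.Work.MP_6bf1e5_an.B (Z3 R3)
open Pool.Agent.Work.MP_6bf1e5_an.Hyp.Dec

namespace Pool.Agent.Work.MP_6bf1e5_an.Hyp

noncomputable section

/-- The hypotheses of the first phase. -/
structure F1 (T ρ κ d l N1 t1 t2 : ℝ) (r n : N3) (mv : Fin 3 → ℝ) (vb vc : Z3 → ℝ)
    (p b c f : ℝ → V) (s F g τ : ℝ → ℝ) : Prop where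
  hT : (10 : ℝ) ^ 100 ≤ T
  hρ : T ^ 17 ≤ ρ
  hρ' : ρ ^ 1000 ≤ Real.exp (T / 10 ^ 50)
  hn : ∀ i, (n i : ℝ) + 1 = ρ * r i
  N0 : 0 < N1
  nN1 : Nn n ≤ ρ ^ 2 * N1
  h0 : 0 ≤ t1
  h12 : t1 ≤ t2
  hp : ∀ t ∈ Icc t1 t2, Drv T r mv κ (p t) ∧ ∃ p', HD p p' t ∧ Sp (fun i => 2 * r i) p' ∧
    ev 0 p' = 0 ∧ l1 p' ≤ s t / (T ^ 4 * ρ ^ 2)
  hs : ∀ t ∈ Icc t1 t2, 0 < s t ∧ HD τ (s t) t ∧ l ≤ Real.exp (-T ^ 2) * s t
  τ1 : τ t2 - τ t1 ≤ 100 * (ρ ^ 2 / T)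
  hg : ∀ t ∈ Icc t1 t2, 0 < g t ∧ 0 ≤ F t ∧ HD g ((s t - d) * g t + F t) t
  hf : ∀ t ∈ Icc t1 t2, Sp (fun i => n i + 2 * r i) (f t) ∧
    Seed T ρ n r N1 (p t) (f t) (F t) (Real.exp (-T ^ 2) * (s t * g t))
  he : ∀ t ∈ Icc t1 t2, ∃ e0 e1, ‖e0‖ ≤ Real.exp (-T ^ 2) * ((F t + s t * g t) / N1) ∧
    ‖e1‖ ≤ Real.exp (-T ^ 2) * ((F t + s t * g t) / N1) ∧
    Pair r n l d (s t) t vb vc (p t) b c e0 (f t + e1)
  init : nr (b t1) (c t1) ≤ Real.exp (-T ^ 2) * (g t1 / N1)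

namespace F1

open Ph1 Q1

variable {T ρ κ d l N1 t1 t2 : ℝ} {r n : N3} {mv : Fin 3 → ℝ} {vb vc : Z3 → ℝ}
  {p b c f : ℝ → V} {s F g τ : ℝ → ℝ}
  (H : F1 T ρ κ d l N1 t1 t2 r n mv vb vc p b c f s F g τ) {t : ℝ}

include H

lemma Tbig : (10 : ℝ) ^ 20 ≤ T := le_trans (by norm_num) H.hT

lemma T0 : 0 < T := lt_of_lt_of_le (by norm_num) H.Tbig

lemma T1 : 1 ≤ T := le_trans (by norm_num) H.Tbig

lemma Tpow (i j : ℕ) (h : i < j) : 10 ^ 20 * T ^ i ≤ T ^ j := by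
  have := H.T0
  calc 10 ^ 20 * T ^ i ≤ T * T ^ i := by gcongr; exact H.Tbig
    _ = T ^ (i + 1) := by ring
    _ ≤ T ^ j := pow_le_pow_right₀ H.T1 h

lemma Tρ : T ≤ ρ := le_trans (by simpa using pow_le_pow_right₀ H.T1 (show 1 ≤ 17 by norm_num)) H.hρ

lemma Rbig : (10 : ℝ) ^ 20 ≤ ρ := H.Tbig.trans H.Tρ

lemma R0 : 0 < ρ := lt_of_lt_of_le (by norm_num) H.Rbig

lemma R1 : 1 ≤ ρ := le_trans (by norm_num) H.Rbig

lemma Rpow (i j : ℕ) (h : i < j) : 10 ^ 20 * ρ ^ i ≤ ρ ^ j := by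
  have := H.R0
  calc 10 ^ 20 * ρ ^ i ≤ ρ * ρ ^ i := by gcongr; exact H.Rbig
    _ = ρ ^ (i + 1) := by ring
    _ ≤ ρ ^ j := pow_le_pow_right₀ H.R1 h

lemma Rinv (i j : ℕ) (h : i < j) : 10 ^ 20 * (ρ ^ j)⁻¹ ≤ (ρ ^ i)⁻¹ := by
  have := H.R0
  rw [← div_eq_mul_inv, ← one_div, div_le_div_iff₀ (by positivity) (by positivity), one_mul]
  exact H.Rpow i j h

lemma Rexp {k : ℕ} (hk : k ≤ 1000) : ρ ^ k ≤ Real.exp (T / 10 ^ 19) := by
  have T0 := H.T0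
  refine ((pow_le_pow_right₀ H.R1 hk).trans H.hρ').trans (Real.exp_le_exp.mpr ?_)
  linarith only [T0]

lemma x0_le : T / (3000 * ρ) ≤ 1 / 8 := by
  have R0 := H.R0
  rw [div_le_iff₀ (by positivity)]
  linarith [H.Tρ]

lemma eta : Real.exp (-T ^ 2) * Real.exp T ≤ (ρ ^ 200)⁻¹ := by
  have T0 := H.T0
  have R0 := H.R0
  have h1 := H.Rexp (k := 200) (by norm_num)
  have h2 := H.Tpow 1 2 (by norm_num)
  rw [← Real.exp_add]
  calc _ ≤ Real.exp (-(T / 10 ^ 19)) := by gcongr; linarith only [T0, h2]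
    _ = (Real.exp (T / 10 ^ 19))⁻¹ := Real.exp_neg _
    _ ≤ _ := by gcongr

lemma eta' {a : ℝ} (ha : a ≤ T) : Real.exp a * Real.exp (-T ^ 2) ≤ (ρ ^ 200)⁻¹ := by
  refine le_trans ?_ H.eta
  rw [mul_comm]; gcongr

lemma eps : Real.exp (-T ^ 2) ≤ (ρ ^ 200)⁻¹ := by simpa using H.eta' H.T0.le

lemma m1 : t1 ∈ Icc t1 t2 := ⟨le_rfl, H.h12⟩

lemma m2 : t2 ∈ Icc t1 t2 := ⟨H.h12, le_rfl⟩

lemma τmono {x y : ℝ} (ha : t1 ≤ x) (hab : x ≤ y) (hb : y ≤ t2) : τ x ≤ τ y :=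
  mono_of_deriv H.h0 (fun t ht => ⟨_, (H.hs t ht).2.1, (H.hs t ht).1.le⟩) ha hab hb

lemma τ0 (ht : t ∈ Icc t1 t2) : 0 ≤ τ t - τ t1 := sub_nonneg.mpr (H.τmono le_rfl ht.1 ht.2)

lemma τle (ht : t ∈ Icc t1 t2) : τ t - τ t1 ≤ 100 * (ρ ^ 2 / T) := by
  linarith [H.τmono ht.1 ht.2 le_rfl, H.τ1]

lemma r1 (i : Fin 3) : 1 ≤ r i := by
  rcases Nat.eq_zero_or_pos (r i) with h | h
  · have := H.hn i
    rw [h, Nat.cast_zero, mul_zero] at this
    linarith [(Nat.cast_nonneg (n i) : (0 : ℝ) ≤ n i)]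
  · exact h

lemma r0 (i : Fin 3) : (0 : ℝ) < r i := by exact_mod_cast H.r1 i

lemma sb (t : ℝ) : Sp n (b t) := by
  obtain ⟨_, _, _, _, P⟩ := H.he t1 H.m1
  exact P.sb t

lemma sc (t : ℝ) : Sp (fun i => n i + 2 * r i) (c t) := by
  obtain ⟨_, _, _, _, P⟩ := H.he t1 H.m1
  exact P.sc t

lemma lb : Lay n l vb := by
  obtain ⟨_, _, _, _, P⟩ := H.he t1 H.m1
  exact P.lb

lemma lc : Lay (fun i => n i + 2 * r i) l vc := by
  obtain ⟨_, _, _, _, P⟩ := H.he t1 H.m1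
  exact P.lc

lemma NN {m : N3} (hm : ∀ i, m i ≤ n i + 6 * r i) : Nn m ≤ 4 * (ρ ^ 2 * N1) := by
  have h := Nn_le (m := m) (n := n) (c := 3 / 2) (by norm_num) fun i => by
    have h1 : (m i : ℝ) ≤ n i + 6 * r i := by exact_mod_cast hm i
    have h2 := H.hn i
    have h3 := mul_le_mul_of_nonneg_right H.Rbig (H.r0 i).le
    have h4 := H.r0 i
    linarith
  have := Nn_pos n
  linarith [H.nN1]

/-- The equations with supported errors. -/
lemma eq0 (ht : t ∈ Icc t1 t2) : ∃ e0 e1, Sp n e0 ∧ Sp (fun i => n i + 2 * r i) e1 ∧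
    ‖e0‖ ≤ Real.exp (-T ^ 2) * ((F t + s t * g t) / N1) ∧
    ‖e1‖ ≤ Real.exp (-T ^ 2) * ((F t + s t * g t) / N1) ∧
    HD b ((s t : ℂ) • pj n (dag (p t) * c t) - (d : ℂ) • b t - mulr vb (b t) + e0) t ∧
    HD c ((s t : ℂ) • (p t * b t) - (d : ℂ) • c t - mulr vc (c t) + (f t + e1)) t := by
  obtain ⟨e0, e1, a0, a1, P⟩ := H.he t ht
  have t0 := H.h0.trans ht.1
  refine ⟨e0, e1, ?_, ?_, a0, a1, P.eb, P.ec⟩
  · have h1 := HD.sp P.eb t0 P.sb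
    have h2 : Sp n ((s t : ℂ) • pj n (dag (p t) * c t) - (d : ℂ) • b t - mulr vb (b t)) :=
      (((sp_pj n _).smul _).sub ((P.sb t).smul _)).sub ((P.sb t).mulr _)
    simpa using h1.sub h2
  · have h1 := HD.sp P.ec t0 P.sc
    have h3 : Sp (fun i => n i + 2 * r i) (p t * b t) :=
      ((H.hp t ht).1.supp.mul (P.sb t)).mono fun i => by simp [add_comm]
    have h2 : Sp (fun i => n i + 2 * r i)
        ((s t : ℂ) • (p t * b t) - (d : ℂ) • c t - mulr vc (c t)) :=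
      ((h3.smul _).sub ((P.sc t).smul _)).sub ((P.sc t).mulr _)
    simpa using (h1.sub h2).sub (H.hf t ht).1

lemma wt_sp {i : Fin 3} {u : ℝ} (hu : |u| * r i ≤ T / (3000 * ρ)) {y : V}
    (hy : Sp (fun i => n i + 2 * r i) y) : ‖wt (Pi.single i u) y‖ ≤ Real.exp T * ‖y‖ := by
  have T0 := H.T0
  have R0 := H.R0
  refine (hy.norm_wt_le _).trans ?_
  rw [sum_single]
  gcongr
  have h1 := H.hn i
  have h2 := H.r0 i
  have h3 := abs_nonneg u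
  have h4 : ((n i + 2 * r i : ℕ) : ℝ) ≤ 3 * ρ * r i := by
    push_cast
    nlinarith only [h1, H.R1]
  calc _ ≤ 3 * ρ * r i * |u| := by gcongr
    _ = 3 * ρ * (|u| * r i) := by ring
    _ ≤ 3 * ρ * (T / (3000 * ρ)) := by gcongr
    _ = T / 1000 := by field_simp; ring
    _ ≤ T := by linarith only [T0]

/-- The weighted estimate. -/
theorem wt_le {i : Fin 3} {u x : ℝ} (hx : |u| * r i ≤ x) (hx1 : x ≤ T / (3000 * ρ)) :
    ∀ t ∈ Icc t1 t2, ‖wt (Pi.single i u) (b t)‖ ^ 2 + ‖wt (Pi.single i u) (c t)‖ ^ 2 ≤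
      (2 * Real.exp (T / 10 ^ 19) / N1 * g t *
        Real.exp ((8 * x ^ 2 + (ρ ^ 3)⁻¹) * (τ t - τ t1))) ^ 2 := by
  have T0 := H.T0
  have R0 := H.R0
  have N0 := H.N0
  have hx2 : x ≤ 1 / 4 := hx1.trans (H.x0_le.trans (by norm_num))
  have hu := hx.trans hx1
  have nsub : ∀ i, n i ≤ n i + 2 * r i := fun i => Nat.le_add_right _ _
  set K := Real.exp (T / 10 ^ 19) with hK
  have K1 : 1 ≤ K := Real.one_le_exp (by positivity)
  set k := 8 * x ^ 2 + (ρ ^ 3)⁻¹ with hk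
  have k0 : 0 ≤ k := by positivity
  have eta := H.eta' le_rfl
  have eps := H.eps
  have i1 := H.Rinv 3 200 (by norm_num)
  have i2 := H.Rinv 0 200 (by norm_num)
  have i3 : 0 < (ρ ^ 200)⁻¹ := by positivity
  refine bar2 (a := fun t => wt (Pi.single i u) (b t)) (b := fun t => wt (Pi.single i u) (c t))
    (U := fun t => 2 * K / N1 * g t * Real.exp (k * (τ t - τ t1))) H.h0 ?_ fun t ht => ?_
  · simp only [sub_self, mul_zero, Real.exp_zero, mul_one]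
    have G0 := (H.hg t1 H.m1).1
    have w : ∀ {y : V}, Sp (fun i => n i + 2 * r i) y → ‖y‖ ≤ nr (b t1) (c t1) →
        ‖wt (Pi.single i u) y‖ ^ 2 ≤ (K / N1 * g t1) ^ 2 := fun {y} hy hy' => by
      gcongr
      calc _ ≤ Real.exp T * (Real.exp (-T ^ 2) * (g t1 / N1)) :=
            (H.wt_sp hu hy).trans (by gcongr; exact hy'.trans H.init)
        _ = Real.exp T * Real.exp (-T ^ 2) * (g t1 / N1) := by ring
        _ ≤ K * (g t1 / N1) := by gcongr; simp at i2; linarith only [K1, eta, i2]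
        _ = _ := by ring
    have w0 := w ((H.sb t1).mono nsub) (le_nr_1 _ _)
    have w1 := w (H.sc t1) (le_nr_2 _ _)
    have : (2 * K / N1 * g t1) ^ 2 = 4 * (K / N1 * g t1) ^ 2 := by ring
    linarith only [w0, w1, this, sq_nonneg (K / N1 * g t1)]
  obtain ⟨e0, e1, s0', s1', a0, a1, D0, D1⟩ := H.eq0 ht
  have t0 := H.h0.trans ht.1
  obtain ⟨G0, F0, Dg⟩ := H.hg t ht
  obtain ⟨s0, Dτ, -⟩ := H.hs t ht
  have DU := (Dg.const_mul (2 * K / N1)).fun_mul ((Dτ.sub_const (τ t1)).const_mul k).exp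
  refine ⟨_, _, _, HD.wt3 D0 t0 H.sb _, HD.wt3 D1 t0 H.sc _, DU, fun hY => ?_⟩
  have ex : 1 ≤ Real.exp (k * (τ t - τ t1)) := Real.one_le_exp (mul_nonneg k0 (H.τ0 ht))
  have U0 : 0 < 2 * K / N1 * g t * Real.exp (k * (τ t - τ t1)) := by positivity
  set w := s t * g t / N1 with hw
  set j := F t / N1 with hj
  have w0 : 0 < w := by positivity
  have j0 : 0 ≤ j := by positivity
  have e : (F t + s t * g t) / N1 = j + w := by rw [hw, hj]; ring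
  rw [e] at a0 a1
  have er : ∀ {y : V}, Sp (fun i => n i + 2 * r i) y → ‖y‖ ≤ Real.exp (-T ^ 2) * (j + w) →
      ‖wt (Pi.single i u) y‖ ≤ (ρ ^ 200)⁻¹ * (j + w) := fun {y} hy hy' => by
    calc _ ≤ Real.exp T * (Real.exp (-T ^ 2) * (j + w)) := (H.wt_sp hu hy).trans (by gcongr)
      _ = Real.exp T * Real.exp (-T ^ 2) * (j + w) := by ring
      _ ≤ _ := by (clear * - N0 eta G0 F0 s0; gcongr)
  have ef : ‖wt (Pi.single i u) (f t)‖ ≤ K * j + (ρ ^ 200)⁻¹ * w := by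
    calc _ ≤ _ := (H.hf t ht).2.wt i u hu
      _ = K * j + Real.exp (-T ^ 2) * w := by rw [hw, hj]; ring
      _ ≤ _ := by (clear * - N0 eps G0 s0; gcongr)
  have hst := stepA (d := d) (g0 := e0) (g1 := f t + e1) (v0 := vb) (v1 := vc)
    (R := K * j + (ρ ^ 200)⁻¹ * w + 2 * ((ρ ^ 200)⁻¹ * (j + w)))
    (H.hp t ht).1 (H.sb t) (x := x) (by rw [sum_single, mul_comm]; exact hx) hx2 s0.le
    H.lb.nonneg H.lc.nonneg U0.le hY (by
      have b0 := er (s0'.mono nsub) a0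
      have b1 := er s1' a1
      rw [map_add]
      linarith only [ef, b0, b1, norm_add_le (wt (Pi.single i u) (f t)) (wt (Pi.single i u) e1)])
  refine hst.trans_lt (mul_lt_mul_of_pos_left ?_ U0)
  set X := Real.exp (k * (τ t - τ t1)) with hX
  have e2 : 2 * K / N1 * ((s t - d) * g t + F t) * X + 2 * K / N1 * g t * (X * (k * s t)) =
      ((1 + 8 * x ^ 2) * s t - d) * (2 * K / N1 * g t * X) +
        (2 * (K * j) + 2 * ((ρ ^ 3)⁻¹ * (K * w))) * X := by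
    rw [hj, hw, hk]; ring
  rw [e2]
  have a2 : 2 * (K * j) + 2 * ((ρ ^ 3)⁻¹ * (K * w)) ≤
      (2 * (K * j) + 2 * ((ρ ^ 3)⁻¹ * (K * w))) * X := le_mul_of_one_le_right (by (clear * - R0 N0 G0 F0 s0; positivity)) ex
  have a3 : (ρ ^ 3)⁻¹ * w ≤ (ρ ^ 3)⁻¹ * (K * w) := by
    gcongr; exact le_mul_of_one_le_left w0.le K1
  have a4 : 10 ^ 20 * (ρ ^ 200)⁻¹ * w ≤ (ρ ^ 3)⁻¹ * w := by gcongr
  have a5 : 2 * (ρ ^ 200)⁻¹ * j ≤ K * j := by gcongr; simp at i2; linarith only [K1, i2]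
  have a6 : 0 < (ρ ^ 200)⁻¹ * w := by positivity
  linarith only [a2, a3, a4, a5, a6]

end F1

end

end Pool.Agent.Work.MP_6bf1e5_an.Hyp
end

-- merged part: Pool.Agent.Work.MP_6bf1e5_an.Hyp.ExGeo
section
/-!
Existence of admissible parameters.
-/

open Set Complex Filter Topology
open scoped InnerProductSpace ComplexConjugate
open Pool.Agent.Work.MP_6bf1e5_an.B (Z3 R3)
open Pool.Agent.Work.MP_6bf1e5_an.Hyp.Dec

namespace Pool.Agent.Work.MP_6bf1e5_an.Hyp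

noncomputable section

lemma ev_pow_le_exp (n : ℕ) : ∀ᶠ x : ℝ in atTop, x ^ n ≤ Real.exp (x / 10 ^ 50) := by
  have h1 : Tendsto (fun x : ℝ => x / 10 ^ 50) atTop atTop :=
    tendsto_id.atTop_div_const (by positivity)
  have h2 := ((Real.tendsto_exp_div_pow_atTop n).comp h1).eventually_ge_atTop ((10 ^ 50) ^ n)
  filter_upwards [h2, eventually_gt_atTop 0] with x hx h0
  rw [Function.comp, le_div_iff₀ (by positivity), ← mul_pow,
    mul_div_cancel₀ _ (by positivity)] at hx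
  exact hx

theorem exists_geo {α : ℝ} (h1 : 1 ≤ α) (h2 : α < 5 / 4) (K : ℕ) :
    ∃ G : Geo, G.α = α ∧ K ≤ G.T := by
  have a0 : 0 < 5 - 4 * α := by linarith
  obtain ⟨M, hM⟩ := exists_nat_ge (21 / (5 - 4 * α))
  have hM1 : (21 : ℝ) ≤ M * (5 - 4 * α) := by rwa [div_le_iff₀ a0] at hM
  have hM2 : 21 ≤ M := by
    have h : (21 : ℝ) ≤ M := by
      have : (0 : ℝ) ≤ M := Nat.cast_nonneg _
      nlinarith only [h1, hM1]
    exact_mod_cast h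
  have h4 : Tendsto (fun N : ℕ => ((4 * N : ℕ) : ℝ)) atTop atTop :=
    tendsto_natCast_atTop_atTop.comp (tendsto_id.const_mul_atTop' (by norm_num))
  obtain ⟨N, hN1, hN2, hN3⟩ := ((h4.eventually (ev_pow_le_exp (M * 1000))).and
    ((h4.eventually_ge_atTop (10 ^ 100)).and (eventually_ge_atTop K))).exists
  obtain ⟨T, hT⟩ : ∃ T : ℕ, T = 4 * N := ⟨_, rfl⟩
  rw [← hT] at hN1 hN2
  have t1 : (1 : ℝ) ≤ T := le_trans (by norm_num) hN2
  have t0 : (0 : ℝ) < T := by linarith only [hN2]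
  obtain ⟨L, hL⟩ : ∃ L : ℕ, L = T ^ M := ⟨_, rfl⟩
  have hL' : (L : ℝ) = (T : ℝ) ^ M := by rw [hL]; push_cast; rfl
  have l21 : (T : ℝ) ^ 21 ≤ L := by rw [hL']; exact pow_le_pow_right₀ t1 hM2
  have l1 : (1 : ℝ) ≤ L := (one_le_pow₀ t1).trans l21
  have l0 : (0 : ℝ) < L := by linarith only [l1]
  have lo : (L : ℝ) ^ 2 ≤ (L : ℝ) ^ (2 * α) := by
    rw [← Real.rpow_natCast]
    exact Real.rpow_le_rpow_of_exponent_le l1 (by push_cast; linarith only [h1])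
  have hi : ((L : ℝ) ^ (2 * α)) ^ 2 * (T : ℝ) ^ 21 ≤ (L : ℝ) ^ 5 := by
    have e1 : (T : ℝ) ^ 21 ≤ (L : ℝ) ^ (5 - 4 * α) := by
      rw [hL', ← Real.rpow_natCast, ← Real.rpow_natCast, ← Real.rpow_mul t0.le]
      exact Real.rpow_le_rpow_of_exponent_le t1 (by push_cast; linarith only [hM1])
    have e2 : ((L : ℝ) ^ (2 * α)) ^ 2 * (L : ℝ) ^ (5 - 4 * α) = (L : ℝ) ^ 5 := by
      rw [sq, ← Real.rpow_add l0, ← Real.rpow_add l0, ← Real.rpow_natCast]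
      congr 1
      push_cast
      ring
    rw [← e2]
    exact mul_le_mul_of_nonneg_left e1 (sq_nonneg _)
  have p0 : (0 : ℝ) < L * (T : ℝ) ^ 2 := by positivity
  have e1 : 1 ≤ (L : ℝ) ^ (2 * α) / (L * (T : ℝ) ^ 2) := by
    rw [le_div_iff₀ p0, one_mul]
    refine le_trans ?_ lo
    rw [sq (L : ℝ)]
    exact mul_le_mul_of_nonneg_left ((pow_le_pow_right₀ t1 (by norm_num)).trans l21) l0.le
  refine ⟨⟨T, L, ⌈(L : ℝ) ^ (2 * α) / (L * (T : ℝ) ^ 2)⌉₊, α, ⟨N, hT⟩, h1, h2.le,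
    ⟨hN2, l21, lo, hi, ?_⟩, ?_, ?_⟩, rfl, ?_⟩
  · rw [hL', ← pow_mul]
    exact hN1
  · rw [← div_le_iff₀' p0]
    exact Nat.le_ceil _
  · rw [← le_div_iff₀' p0, mul_div_assoc]
    linarith only [e1, Nat.ceil_lt_add_one (le_trans zero_le_one e1)]
  · change K ≤ T
    omega

end

end Pool.Agent.Work.MP_6bf1e5_an.Hyp
end
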