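import Pool.Agent.Work.MP_6bf1e5_an.Hyp.GapB
import Pool.Agent.Work.MP_6bf1e5_an.Hyp.ExGeo

-- merged part: Pool.Agent.Work.MP_6bf1e5_an.Hyp.CurA
section
-- merged part: Pool.Agent.Work.MP_6bf1e5_an.Hyp.CombB1
section
/-!
Moments and symbols of real families.
-/

open Set Complex Filter Topology
open scoped InnerProductSpace ComplexConjugate
open Pool.Agent.Work.MP_6bf1e5_an.B (Z3 R3)
open Pool.Agent.Work.MP_6bf1e5_an.Hyp.Dec
open Pool.Agent.Work.MP_6bf1e5_an.Hyp.Dec.Gap1Aux (DD sum_exp_eq DD_bound)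

namespace Pool.Agent.Work.MP_6bf1e5_an.Hyp.CombB

noncomputable section

/-- Multiplication by a coordinate. -/
def Dk (i : Fin 3) : V →ₗ[ℂ] V := mulr fun k => (k i : ℝ)

lemma coeff_Dk (i : Fin 3) (f : V) (h : Z3) : (Dk i f).coeff h = (h i : ℂ) * f.coeff h := by
  simp [Dk]

lemma Dk_mul (i : Fin 3) (f g : V) : Dk i (f * g) = Dk i f * g + f * Dk i g := by
  ext h
  rw [AddMonoidAlgebra.coeff_add, Finsupp.add_apply, coeff_Dk, coeff_mul_eq g (subset_refl _),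
    coeff_mul_eq (f := Dk i f) g (s := f.coeff.support) (fun k hk => by
      rw [Finsupp.mem_support_iff, coeff_Dk] at hk
      exact Finsupp.mem_support_iff.mpr (right_ne_zero_of_mul hk)),
    coeff_mul_eq (Dk i g) (subset_refl _), Finset.mul_sum, ← Finset.sum_add_distrib]
  refine Finset.sum_congr rfl fun k _ => ?_
  rw [coeff_Dk, coeff_Dk]
  simp only [Pi.sub_apply, Int.cast_sub]
  ring

lemma Dk_dag (i : Fin 3) (f : V) : Dk i (dag f) = -dag (Dk i f) := by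
  ext h
  simp [coeff_Dk]

lemma Dk_sh (i : Fin 3) (k : Z3) : Dk i (sh k) = (k i : ℂ) • sh k := by
  ext h
  rw [coeff_Dk]
  by_cases hh : k = h
  · simp [hh]
  · simp [sh, hh]

lemma mulr_two (i j : Fin 3) (f : V) :
    mulr (fun k => (k i : ℝ) * k j) f = Dk i (Dk j f) := by
  ext h
  simp [coeff_Dk, mul_assoc]

lemma sp_Dk {m : N3} {f : V} (hf : Sp m f) (i : Fin 3) : Sp m (Dk i f) := hf.mulr _

lemma l1_Dk_le {m : N3} {f : V} (hf : Sp m f) (i : Fin 3) : l1 (Dk i f) ≤ m i * l1 f :=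
  l1_le_of_coeff (Nat.cast_nonneg _) fun h => by
    by_cases hh : h ∈ bx m
    · rw [coeff_Dk, norm_mul]
      gcongr
      rw [Complex.norm_intCast]
      exact_mod_cast mem_bx.mp hh i
    · simp [coeff_Dk, hf h hh]

lemma ev_sh (x : R3) (k : Z3) : ev x (sh k) = Complex.exp (I * (pr k x : ℝ)) := by
  rw [sh, ev_single, one_mul]

lemma dag_sh (k : Z3) : dag (sh k) = sh (-k) := by
  rw [sh, dag_single, map_one, sh]

/-- The first moment form. -/
def Mo (i : Fin 3) (x : R3) (f : V) : ℝ := (conj (ev x f) * ev x (Dk i f)).re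

lemma Mo_of_dag {f : V} (h : dag f = f) (i : Fin 3) (x : R3) : Mo i x f = 0 := by
  have h1 : conj (ev x f) = ev x f := by rw [← ev_dag, h]
  have h2 : conj (ev x (Dk i f)) = -ev x (Dk i f) := by
    rw [← ev_dag, ← map_neg, ← neg_eq_iff_eq_neg.mpr (Dk_dag i f), h]
  have h3 : (ev x f).im = 0 := Complex.conj_eq_iff_im.mp h1
  have h4 : (ev x (Dk i f)).re = 0 := by
    have := congrArg Complex.re h2
    simp only [Complex.conj_re, Complex.neg_re] at this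
    linarith
  simp [Mo, Complex.mul_re, h3, h4]

lemma Mo_mul (i : Fin 3) (x : R3) (c g : V) :
    Mo i x (c * g) = Mo i x c * ‖ev x g‖ ^ 2 + ‖ev x c‖ ^ 2 * Mo i x g := by
  simp only [Mo, Dk_mul, map_add, map_mul, Complex.sq_norm, Complex.normSq_apply, Complex.mul_re,
    Complex.mul_im, Complex.add_re, Complex.add_im, Complex.conj_re, Complex.conj_im]
  ring

lemma Mo_smul (i : Fin 3) (x : R3) (c : ℝ) (f : V) :
    Mo i x ((c : ℂ) • f) = c ^ 2 * Mo i x f := by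
  simp only [Mo, map_smul, smul_eq_mul, map_mul, Complex.conj_ofReal, Complex.mul_re,
    Complex.mul_im, Complex.ofReal_re, Complex.ofReal_im, Complex.conj_re, Complex.conj_im]
  ring

lemma Mo_add {m : N3} {f e : V} (hf : Sp m f) (he : Sp m e) (i : Fin 3) (x : R3) :
    |Mo i x (f + e) - Mo i x f| ≤ m i * l1 e * (l1 (f + e) + l1 f) := by
  have e1 : Mo i x (f + e) - Mo i x f =
      (conj (ev x (f + e)) * ev x (Dk i e) + conj (ev x e) * ev x (Dk i f)).re := by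
    simp only [Mo, map_add, Complex.mul_re, Complex.add_re, Complex.add_im, Complex.conj_re,
      Complex.conj_im]
    ring
  rw [e1]
  refine (Complex.abs_re_le_norm _).trans ((norm_add_le _ _).trans ?_)
  rw [norm_mul, norm_mul, Complex.norm_conj, Complex.norm_conj]
  have a1 := norm_ev_le x (f + e)
  have a2 := norm_ev_le x e
  have a3 := (norm_ev_le x _).trans (l1_Dk_le he i)
  have a4 := (norm_ev_le x _).trans (l1_Dk_le hf i)
  have b1 := l1_nonneg (f + e)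
  have b2 := l1_nonneg e
  calc _ ≤ l1 (f + e) * (m i * l1 e) + l1 e * (m i * l1 f) := by gcongr
    _ = _ := by ring

/-- The mixed moment of `dag p * p`. -/
lemma mix_le {p : V} (h1 : ev 0 p = 1) (i j : Fin 3) :
    ‖ev 0 (mulr (fun k => (k i : ℝ) * k j) (dag p * p))‖ ≤
      2 * ‖ev 0 (Dk i (Dk j p))‖ + 2 * (‖ev 0 (Dk i p)‖ * ‖ev 0 (Dk j p)‖) := by
  have e : ev 0 (mulr (fun k => (k i : ℝ) * k j) (dag p * p)) =
      (conj (ev 0 (Dk i (Dk j p))) + ev 0 (Dk i (Dk j p))) +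
        (-(conj (ev 0 (Dk j p)) * ev 0 (Dk i p)) + -(conj (ev 0 (Dk i p)) * ev 0 (Dk j p))) := by
    simp only [mulr_two, Dk_mul, map_add, Dk_dag, map_neg, neg_neg, map_mul, ev_dag, h1, map_one]
    ring
  rw [e]
  refine (norm_add_le _ _).trans (add_le_add ((norm_add_le _ _).trans ?_)
    ((norm_add_le _ _).trans ?_))
  · rw [Complex.norm_conj]; linarith
  · simp only [norm_neg, norm_mul, Complex.norm_conj]; linarith

/-! The symbol of the ground state -/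

lemma ev_ph (n : N3) (x : R3) :
    ev x (ph n) = (((Nn n)⁻¹ * ∏ i, DD (th (n i)) (n i) (x i) : ℝ) : ℂ) := by
  rw [ev_eq x (sp_ph n).subset]
  push_cast
  simp only [← sum_exp_eq]
  rw [Finset.prod_univ_sum, Finset.mul_sum]
  refine Finset.sum_congr rfl fun h hh => ?_
  have hh' : h ∈ bx n := hh
  rw [coeff_ph, if_pos hh', Finset.prod_mul_distrib, ← Complex.exp_sum, pr]
  push_cast
  rw [Finset.mul_sum, mul_assoc]

lemma min_add3 {a b c : ℝ} (ha : 0 ≤ a) (hb : 0 ≤ b) (hc : 0 ≤ c) :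
    min 1 (a + b + c) ≤ min 1 a + min 1 b + min 1 c := by
  have h0 : 0 ≤ min 1 a := le_min zero_le_one ha
  have h1 : 0 ≤ min 1 b := le_min zero_le_one hb
  have h2 : 0 ≤ min 1 c := le_min zero_le_one hc
  rcases min_cases 1 a with k0 | k0
  · exact (min_le_left _ _).trans (by linarith [k0.1])
  rcases min_cases 1 b with k1 | k1
  · exact (min_le_left _ _).trans (by linarith [k1.1])
  rcases min_cases 1 c with k2 | k2
  · exact (min_le_left _ _).trans (by linarith [k2.1])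
  exact (min_le_right _ _).trans (by linarith [k0.1, k1.1, k2.1])

lemma ph_far {n w : N3} (hn : ∀ i, 100 ≤ n i) (hw : ∀ i, n i + 1 = w i) {x : R3} (hx : x ∈ cube) :
    ‖ev x (ph n)‖ ^ 2 ≤ (1 - 1 / (3 * 10 ^ 5) * min 1 (sqr w x)) * l1 (ph n) ^ 2 := by
  have h0 : l1 (ph n) = (Nn n)⁻¹ * ∏ i, DD (th (n i)) (n i) 0 := by
    have := ev_zero_ph n
    rw [ev_ph] at this
    have := Complex.ofReal_injective this
    rw [← this]
    simp
  have hi : ∀ i, |x i| ≤ Real.pi := fun i => abs_le.mpr ⟨hx.1 i, hx.2 i⟩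
  have hw' : ∀ i, ((w i : ℝ) * x i) ^ 2 = (n i + 1) ^ 2 * x i ^ 2 := fun i => by
    rw [← hw i]; push_cast; ring
  rw [ev_ph, Complex.norm_real, Real.norm_eq_abs, sq_abs, h0, Fin.prod_univ_three,
    Fin.prod_univ_three, sqr, Fin.sum_univ_three, hw', hw', hw']
  have b0 := DD_bound (hn 0) (hi 0)
  have b1 := DD_bound (hn 1) (hi 1)
  have b2 := DD_bound (hn 2) (hi 2)
  have hs := min_add3 (a := ((n 0 : ℝ) + 1) ^ 2 * x 0 ^ 2) (b := ((n 1 : ℝ) + 1) ^ 2 * x 1 ^ 2)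
    (c := ((n 2 : ℝ) + 1) ^ 2 * x 2 ^ 2) (by (clear * -; positivity)) (by (clear * -; positivity)) (by (clear * -; positivity))
  set t0 := min 1 ((n 0 + 1 : ℝ) ^ 2 * x 0 ^ 2)
  set t1 := min 1 ((n 1 + 1 : ℝ) ^ 2 * x 1 ^ 2)
  set t2 := min 1 ((n 2 + 1 : ℝ) ^ 2 * x 2 ^ 2)
  have ht0 : 0 ≤ t0 := le_min zero_le_one (by (clear * -; positivity))
  have ht1 : 0 ≤ t1 := le_min zero_le_one (by (clear * -; positivity))
  have ht2 : 0 ≤ t2 := le_min zero_le_one (by (clear * -; positivity))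
  have ht0' : t0 ≤ 1 := min_le_left _ _
  have ht1' : t1 ≤ 1 := min_le_left _ _
  have ht2' : t2 ≤ 1 := min_le_left _ _
  set s0 := 1 - 1 / 10 ^ 5 * t0
  set s1 := 1 - 1 / 10 ^ 5 * t1
  set s2 := 1 - 1 / 10 ^ 5 * t2
  have hs0 : 0 ≤ s0 ∧ s0 ≤ 1 := ⟨by simp only [s0]; linarith only [ht0'], by simp only [s0]; linarith only [ht0]⟩
  have hs1 : 0 ≤ s1 ∧ s1 ≤ 1 := ⟨by simp only [s1]; linarith only [ht1'], by simp only [s1]; linarith only [ht1]⟩
  have hs2 : 0 ≤ s2 ∧ s2 ≤ 1 := ⟨by simp only [s2]; linarith only [ht2'], by simp only [s2]; linarith only [ht2]⟩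
  have p0 : s0 * s1 * s2 ≤ s0 := by
    rw [mul_assoc]; exact mul_le_of_le_one_right hs0.1 (mul_le_one₀ hs1.2 hs2.1 hs2.2)
  have p1 : s0 * s1 * s2 ≤ s1 := by
    rw [mul_comm s0, mul_assoc]; exact mul_le_of_le_one_right hs1.1 (mul_le_one₀ hs0.2 hs2.1 hs2.2)
  have p2 : s0 * s1 * s2 ≤ s2 := mul_le_of_le_one_left hs2.1 (mul_le_one₀ hs0.2 hs1.1 hs1.2)
  set u := min 1 ((n 0 + 1 : ℝ) ^ 2 * x 0 ^ 2 + (n 1 + 1 : ℝ) ^ 2 * x 1 ^ 2 +
    (n 2 + 1 : ℝ) ^ 2 * x 2 ^ 2)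
  have p3 : s0 * s1 * s2 ≤ 1 - 1 / (3 * 10 ^ 5) * u := by
    simp only [s0, s1, s2] at p0 p1 p2 ⊢
    linarith only [p0, p1, p2, hs]
  set D0 := DD (th (n 0)) (n 0) 0
  set D1 := DD (th (n 1)) (n 1) 0
  set D2 := DD (th (n 2)) (n 2) 0
  set E0 := DD (th (n 0)) (n 0) (x 0)
  set E1 := DD (th (n 1)) (n 1) (x 1)
  set E2 := DD (th (n 2)) (n 2) (x 2)
  have hp : E0 ^ 2 * E1 ^ 2 * E2 ^ 2 ≤ (s0 * D0 ^ 2) * (s1 * D1 ^ 2) * (s2 * D2 ^ 2) := by
    have := hs0.1; have := hs1.1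
    gcongr
  calc _ = (Nn n)⁻¹ ^ 2 * (E0 ^ 2 * E1 ^ 2 * E2 ^ 2) := by ring
    _ ≤ (Nn n)⁻¹ ^ 2 * ((s0 * D0 ^ 2) * (s1 * D1 ^ 2) * (s2 * D2 ^ 2)) := by (clear * - hp; gcongr)
    _ = (s0 * s1 * s2) * ((Nn n)⁻¹ * (D0 * D1 * D2)) ^ 2 := by ring
    _ ≤ _ := by (clear * - p3; gcongr)

/-! The defect of a phase shifted symbol -/

lemma one_sub_cos_add (a b : ℝ) :
    1 - Real.cos (a + b) ≤ 2 * (1 - Real.cos a) + 2 * (1 - Real.cos b) := by
  have h1 := Real.sin_sq_add_cos_sq a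
  have h2 := Real.sin_sq_add_cos_sq b
  rw [Real.cos_add]
  linarith [sq_nonneg (Real.cos a + Real.cos b - 2), sq_nonneg (Real.sin a - Real.sin b),
    Real.cos_le_one a, Real.cos_le_one b]

/-- The defect. -/
def Df (ψ : ℝ) (x : R3) (q : V) : ℝ := (ev 0 q).re - (Complex.exp (I * ψ) * ev x q).re

lemma Df_add (ψ : ℝ) (x : R3) (q q' : V) : Df ψ x (q + q') = Df ψ x q + Df ψ x q' := by
  simp only [Df, map_add, mul_add, Complex.add_re]; ring

lemma abs_Df_le {n w : N3} (hw : ∀ i, n i + 1 = w i) {q : V} (hq : Sp (n + n) q) (hr : Rl q)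
    (ψ : ℝ) (x : R3) :
    |Df ψ x q| ≤ l1 q * (2 * (1 - Real.cos ψ) + 12 * min 1 (sqr w x)) := by
  have e : Df ψ x q = ∑ h ∈ bx (n + n), (q.coeff h).re * (1 - Real.cos (ψ + pr h x)) := by
    rw [Df, ev_zero_eq hq.subset, ev_eq x hq.subset, Finset.mul_sum, Complex.re_sum,
      Complex.re_sum, ← Finset.sum_sub_distrib]
    refine Finset.sum_congr rfl fun h _ => ?_
    rw [mul_left_comm, ← Complex.exp_add, ← mul_add, ← Complex.ofReal_add, Complex.mul_re, hr h,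
      mul_comm I, Complex.exp_ofReal_mul_I_re]
    ring
  rw [e, l1_eq hq.subset, Finset.sum_mul]
  refine (Finset.abs_sum_le_sum_abs _ _).trans (Finset.sum_le_sum fun h hh => ?_)
  rw [abs_mul, abs_of_nonneg (sub_nonneg.mpr (Real.cos_le_one _))]
  refine mul_le_mul (Complex.abs_re_le_norm _) ?_ (sub_nonneg.mpr (Real.cos_le_one _))
    (norm_nonneg _)
  have a1 := one_sub_cos_add ψ (pr h x)
  have a2 : 1 - Real.cos (pr h x) ≤ 6 * min 1 (sqr w x) := by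
    rcases min_cases 1 (sqr w x) with k | k <;> rw [k.1]
    · linarith [Real.neg_one_le_cos (pr h x)]
    · have b1 := abs_pr_le3 hh x
      have b2 : ∑ i, (((n + n) i : ℕ) : ℝ) * |x i| ≤ 2 * ∑ i, (w i : ℝ) * |x i| := by
        rw [Finset.mul_sum]
        refine Finset.sum_le_sum fun i _ => ?_
        rw [← hw i, Pi.add_apply]
        push_cast
        linarith [abs_nonneg (x i)]
      have b3 := sq_sum_le_sqr w x
      have b4 : pr h x ^ 2 ≤ (2 * ∑ i, (w i : ℝ) * |x i|) ^ 2 := by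
        rw [← sq_abs]
        exact pow_le_pow_left₀ (abs_nonneg _) (b1.trans b2) 2
      have b5 := Real.one_sub_sq_div_two_le_cos (x := pr h x)
      linarith only [b3, b4, b5]
  linarith

lemma main_Df {n w : N3} (hn : ∀ i, 100 ≤ n i) (hw : ∀ i, n i + 1 = w i) {x : R3} (hx : x ∈ cube)
    (ψ a : ℝ) :
    (a * l1 (ph n)) ^ 2 * (1 / (6 * 10 ^ 5) * min 1 (sqr w x) + (1 - Real.cos ψ) / 4) ≤
      Df ψ x ((a : ℂ) • ph n * dag ((a : ℂ) • ph n)) := by
  have e : Df ψ x ((a : ℂ) • ph n * dag ((a : ℂ) • ph n)) =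
      a ^ 2 * (l1 (ph n) ^ 2 - Real.cos ψ * ‖ev x (ph n)‖ ^ 2) := by
    have k : ∀ y : R3, ev y ((a : ℂ) • ph n * dag ((a : ℂ) • ph n)) =
        ((a ^ 2 * ‖ev y (ph n)‖ ^ 2 : ℝ) : ℂ) := fun y => by
      rw [map_mul, ev_dag, Complex.mul_conj', map_smul, smul_eq_mul, norm_mul, Complex.norm_real,
        ← Complex.ofReal_pow, mul_pow, Real.norm_eq_abs, sq_abs]
    rw [Df, k, k, ev_zero_ph, Complex.norm_real, Real.norm_eq_abs, sq_abs, Complex.ofReal_re,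
      Complex.re_mul_ofReal, mul_comm I, Complex.exp_ofReal_mul_I_re]
    ring
  rw [e, mul_pow, mul_assoc]
  refine mul_le_mul_of_nonneg_left ?_ (sq_nonneg a)
  have h1 := ph_far hn hw hx
  have h2 : min 1 (sqr w x) ≤ 1 := min_le_left _ _
  have h3 : 0 ≤ min 1 (sqr w x) := le_min zero_le_one (sqr_nonneg _ _)
  have h4 := Real.cos_le_one ψ
  have h5 := Real.neg_one_le_cos ψ
  have h6 := sq_nonneg ‖ev x (ph n)‖
  have h7 := sq_nonneg (l1 (ph n))
  generalize ‖ev x (ph n)‖ ^ 2 = P at *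
  generalize l1 (ph n) ^ 2 = Q at *
  generalize min 1 (sqr w x) = s at *
  generalize Real.cos ψ = c at *
  have h8 : 0 ≤ s * Q := mul_nonneg h3 h7
  rcases le_total 0 c with k | k
  · have k1 : c * P ≤ P := mul_le_of_le_one_left h6 h4
    have k2 : c * P ≤ c * Q := mul_le_mul_of_nonneg_left (by linarith) k
    have k3 : 0 ≤ (1 - c) * Q := mul_nonneg (by linarith only [h4]) h7
    linarith
  · have k1 : c * P ≤ 0 := mul_nonpos_of_nonpos_of_nonneg k h6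
    have k2 : s * Q ≤ Q := mul_le_of_le_one_left h7 h2
    have k3 : 0 ≤ (1 + c) * Q := mul_nonneg (by linarith only [h5]) h7
    linarith

/-- The defect of the product of two teeth. -/
lemma tooth_Df {n w : N3} (hn : ∀ i, 100 ≤ n i) (hw : ∀ i, n i + 1 = w i) {x : R3} (hx : x ∈ cube)
    (ψ : ℝ) {a : ℝ} (ha : 0 < a) {g g' : V} (sg : Sp n g) (sg' : Sp n g') (rg : Rl g)
    (rg' : Rl g') (hg : l1 (g - (a : ℂ) • ph n) ≤ 1 / 10 ^ 14 * (a * l1 (ph n)))
    (hg' : l1 (g' - (a : ℂ) • ph n) ≤ 1 / 10 ^ 14 * (a * l1 (ph n))) :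
    (a * l1 (ph n)) ^ 2 * (1 / 10 ^ 6 * min 1 (sqr w x) + (1 - Real.cos ψ) / 5) ≤
      Df ψ x (g * dag g') := by
  set f : V := (a : ℂ) • ph n with hf
  have sf : Sp n f := (sp_ph n).smul _
  have rf : Rl f := (rl_ph n).smul a
  have lf : l1 f = a * l1 (ph n) := by
    rw [hf, l1_smul, Complex.norm_real, Real.norm_of_nonneg ha.le]
  have e : g * dag g' = f * dag f + ((g - f) * dag g' + f * dag (g' - f)) := by
    rw [map_sub]; ring
  have sq : Sp (n + n) ((g - f) * dag g' + f * dag (g' - f)) :=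
    ((sg.sub sf).mul sg'.dag).add (sf.mul (sg'.sub sf).dag)
  have rq : Rl ((g - f) * dag g' + f * dag (g' - f)) :=
    ((rg.sub rf).mul rg'.dag).add (rf.mul (rg'.sub rf).dag)
  have h1 := main_Df hn hw hx ψ a
  have h2 := abs_Df_le hw sq rq ψ x
  have u0 : 0 ≤ a * l1 (ph n) := mul_nonneg ha.le (l1_nonneg _)
  have lg' : l1 g' ≤ 2 * (a * l1 (ph n)) := by
    have := l1_add_le f (g' - f)
    rw [add_sub_cancel] at this
    linarith only [hg', lf, u0, this]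
  have h3 : l1 ((g - f) * dag g' + f * dag (g' - f)) ≤ 3 / 10 ^ 14 * (a * l1 (ph n)) ^ 2 := by
    refine (l1_add_le _ _).trans ((add_le_add (l1_mul_le _ _) (l1_mul_le _ _)).trans ?_)
    rw [l1_dag, l1_dag, lf]
    have k1 : l1 (g - f) * l1 g' ≤ 1 / 10 ^ 14 * (a * l1 (ph n)) * (2 * (a * l1 (ph n))) :=
      mul_le_mul hg lg' (l1_nonneg _) (by (clear * - u0; positivity))
    have k2 : a * l1 (ph n) * l1 (g' - f) ≤ a * l1 (ph n) * (1 / 10 ^ 14 * (a * l1 (ph n))) :=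
      mul_le_mul_of_nonneg_left hg' u0
    linarith only [k1, k2]
  have s0 : 0 ≤ min 1 (sqr w x) := le_min zero_le_one (sqr_nonneg _ _)
  have c0 : 0 ≤ 1 - Real.cos ψ := sub_nonneg.mpr (Real.cos_le_one _)
  have h4 := h2.trans (mul_le_mul_of_nonneg_right h3 (by (clear * - s0 c0; positivity)))
  rw [e, Df_add]
  rw [← hf] at h1
  have h5 := (abs_le.mp h4).1
  have h6 := mul_nonneg (sq_nonneg (a * l1 (ph n))) s0
  have h7 := mul_nonneg (sq_nonneg (a * l1 (ph n))) c0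
  generalize (a * l1 (ph n)) ^ 2 = U at *
  linarith only [h1, h5, h6, h7]

end

end Pool.Agent.Work.MP_6bf1e5_an.Hyp.CombB
end

-- merged part: Pool.Agent.Work.MP_6bf1e5_an.Hyp.CombB
section
/-!
A comb whose teeth are close to the ground state is a driver.
-/

open Set Complex Filter Topology
open scoped InnerProductSpace ComplexConjugate
open Pool.Agent.Work.MP_6bf1e5_an.B (Z3 R3)
open Pool.Agent.Work.MP_6bf1e5_an.Hyp.Dec

namespace Pool.Agent.Work.MP_6bf1e5_an.Hyp.CombB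

noncomputable section

attribute [local irreducible] l1

variable {G : Geo} {R : Raw}

/-! Geometry of the comb -/

lemma rB_0 (j : ℕ) : G.rB j 0 = G.w j 0 := rfl

lemma rB_1 (j : ℕ) : G.rB j 1 = G.n j := rfl

lemma rB_2 (j : ℕ) : G.rB j 2 = G.n j := rfl

lemma n_w1 (j : ℕ) : (G.n j : ℝ) = G.t ^ 8 * G.w j 1 := by
  simp [Geo.n, Geo.w, Geo.t]; ring

lemma n_w2 (j : ℕ) : (G.n j : ℝ) = G.t ^ 4 * G.w j 2 := by
  simp [Geo.n, Geo.w, Geo.t]; ring

lemma ww_le (j : ℕ) {i k : Fin 3} (h : i ≠ k) :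
    (G.w j i : ℝ) * G.w j k ≤ (G.t ^ 4)⁻¹ * (G.rB j i * G.rB j k) := by
  have t4 : 0 < G.t ^ 4 := pow_pos G.t_pos 4
  rw [le_inv_mul_iff₀ t4]
  have a1 : G.t ^ 4 * G.w j 1 ≤ G.rB j 1 := by
    rw [rB_1, n_w1]
    exact mul_le_mul_of_nonneg_right (G.pow_le (by norm_num)) (Nat.cast_nonneg _)
  have a2 : G.t ^ 4 * G.w j 2 ≤ G.rB j 2 := by rw [rB_2, n_w2]
  have b : ∀ i, (G.w j i : ℝ) ≤ G.rB j i := fun i => by exact_mod_cast G.w_le_rB j i
  have c : ∀ i k, G.t ^ 4 * G.w j k ≤ G.rB j k →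
      G.t ^ 4 * ((G.w j i : ℝ) * G.w j k) ≤ G.rB j i * G.rB j k := fun i k hk => by
    rw [mul_left_comm]
    exact mul_le_mul (b i) hk (by positivity) (Nat.cast_nonneg _)
  have c' : ∀ i k, G.t ^ 4 * G.w j i ≤ G.rB j i →
      G.t ^ 4 * ((G.w j i : ℝ) * G.w j k) ≤ G.rB j i * G.rB j k := fun i k hk => by
    rw [mul_comm (G.w j i : ℝ), mul_comm (G.rB j i : ℝ)]; exact c k i hk
  fin_cases i <;> fin_cases k
  · exact absurd rfl h
  · exact c 0 1 a1
  · exact c 0 2 a2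
  · exact c' 1 0 a1
  · exact absurd rfl h
  · exact c 1 2 a2
  · exact c' 2 0 a2
  · exact c 2 1 a1
  · exact absurd rfl h

lemma off_mem (j : ℕ) (o : Fin 4) : G.off j o ∈ bx (G.rB j) := by
  rw [mem_bx]
  intro i
  fin_cases o <;> fin_cases i <;> simp [Geo.off, Geo.rB] <;> positivity

lemma off_mul (j : ℕ) (o : Fin 4) {i k : Fin 3} (h : i ≠ k) :
    (G.off j o i : ℂ) * G.off j o k = 0 := by
  fin_cases o <;> fin_cases i <;> fin_cases k <;> simp [Geo.off] at h ⊢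

lemma sp_comb (j : ℕ) {g : Fin 4 → V} (hg : ∀ o, Sp (G.rb j) (g o)) :
    Sp (fun i => 2 * G.rB j i) (R.comb G j g) :=
  Sp.sum _ fun o _ => (((sp_sh (off_mem j o)).mul (hg o)).mono fun i => by
    have h1 := G.w_le_rB j i
    have h2 := G.rb_add_one j i
    simp only [Pi.add_apply]
    omega).smul _

lemma rl_comb (j : ℕ) {g : Fin 4 → V} (hg : ∀ o, Rl (g o)) : Rl (R.comb G j g) :=
  Rl.sum _ fun o _ => ((rl_sh _).mul (hg o)).smul _

lemma ev_comb (j : ℕ) (g : Fin 4 → V) (x : R3) : ev x (R.comb G j g) =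
    ∑ o, (R.om o : ℂ) * (Complex.exp (I * (pr (G.off j o) x : ℝ)) * ev x (g o)) := by
  simp only [Raw.comb, map_sum, map_smul, map_mul, smul_eq_mul, ev_sh]

lemma normsq_comb (j : ℕ) (g : Fin 4 → V) (x : R3) : ‖ev x (R.comb G j g)‖ ^ 2 =
    ∑ o, ∑ o', R.om o * R.om o' * (Complex.exp (I * (pr (G.off j o) x - pr (G.off j o') x : ℝ)) *
      ev x (g o * dag (g o'))).re := by
  have e : ((‖ev x (R.comb G j g)‖ ^ 2 : ℝ) : ℂ) = ∑ o, ∑ o', ((R.om o * R.om o' : ℝ) : ℂ) *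
      (Complex.exp (I * (pr (G.off j o) x - pr (G.off j o') x : ℝ)) *
        ev x (g o * dag (g o'))) := by
    rw [Complex.ofReal_pow, ← Complex.mul_conj', ev_comb, map_sum, Finset.sum_mul_sum]
    refine Finset.sum_congr rfl fun o _ => Finset.sum_congr rfl fun o' _ => ?_
    rw [map_mul, map_mul, map_mul, ev_dag, Complex.conj_ofReal, ← Complex.exp_conj, map_mul,
      Complex.conj_ofReal, Complex.conj_I, Complex.ofReal_sub, mul_sub, sub_eq_add_neg,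
      Complex.exp_add, neg_mul]
    push_cast
    ring
  have := congrArg Complex.re e
  rw [Complex.ofReal_re] at this
  rw [this, Complex.re_sum]
  refine Finset.sum_congr rfl fun o _ => ?_
  rw [Complex.re_sum]
  exact Finset.sum_congr rfl fun o' _ => Complex.re_ofReal_mul _ _

lemma defect_comb (j : ℕ) (g : Fin 4 → V) (x : R3) :
    ‖ev 0 (R.comb G j g)‖ ^ 2 - ‖ev x (R.comb G j g)‖ ^ 2 = ∑ o, ∑ o', R.om o * R.om o' *
      Df (pr (G.off j o) x - pr (G.off j o') x) x (g o * dag (g o')) := by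
  rw [normsq_comb, normsq_comb, ← Finset.sum_sub_distrib]
  refine Finset.sum_congr rfl fun o _ => ?_
  rw [← Finset.sum_sub_distrib]
  refine Finset.sum_congr rfl fun o' _ => ?_
  simp only [Df, pr_zero', sub_self, Complex.ofReal_zero, mul_zero, Complex.exp_zero, one_mul]
  ring

lemma cos_sum (j : ℕ) (x : R3) (A : ℝ) :
    ∑ o, ∑ o', R.om o * R.om o' *
      (A + (1 - Real.cos (pr (G.off j o) x - pr (G.off j o') x)) / 5) =
      R.Om ^ 2 * A + (R.Om ^ 2 -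
        (2 * Real.cos (G.n j * x 1) + 2 * R.om0 * Real.cos (G.n j * x 2)) ^ 2) / 5 := by
  have e0 : pr (G.off j 0) x = G.n j * x 1 := by simp [pr, Geo.off, Fin.sum_univ_three]
  have e1 : pr (G.off j 1) x = -(G.n j * x 1) := by simp [pr, Geo.off, Fin.sum_univ_three]
  have e2 : pr (G.off j 2) x = G.n j * x 2 := by simp [pr, Geo.off, Fin.sum_univ_three]
  have e3 : pr (G.off j 3) x = -(G.n j * x 2) := by simp [pr, Geo.off, Fin.sum_univ_three]
  have o0 : R.om 0 = 1 := rfl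
  have o1 : R.om 1 = 1 := rfl
  have o2 : R.om 2 = R.om0 := rfl
  have o3 : R.om 3 = R.om0 := rfl
  simp only [Fin.sum_univ_four, e0, e1, e2, e3, o0, o1, o2, o3, Real.cos_sub, Real.cos_neg,
    Real.sin_neg, Raw.Om]
  ring

lemma cos_small {y : ℝ} (hy : y ^ 2 ≤ 1) : Real.cos y ≤ 1 - y ^ 2 / 5 ∧ 0 ≤ Real.cos y := by
  have b1 : |y| ≤ 1 := by rwa [← sq_le_one_iff_abs_le_one]
  have b2 := Real.cos_le_one_sub_mul_cos_sq (x := y) (by linarith [Real.pi_gt_three])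
  have b3 : 1 / 5 ≤ 2 / Real.pi ^ 2 := by
    rw [div_le_div_iff₀ (by norm_num) (by have := Real.pi_pos; positivity)]
    nlinarith only [Real.pi_lt_d2, Real.pi_pos]
  have b4 : 1 / 5 * y ^ 2 ≤ 2 / Real.pi ^ 2 * y ^ 2 := by gcongr
  exact ⟨by linarith only [b2, b4], by linarith only [hy, Real.one_sub_sq_div_two_le_cos (x := y)]⟩

lemma far_num {ω T w0 w1 w2 n x0 x1 x2 : ℝ} (h1 : 7 ≤ ω) (h2 : ω ≤ 9) (hT : 1 ≤ T)
    (e1 : n = T ^ 8 * w1) (e2 : n = T ^ 4 * w2) :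
    (2 + 2 * ω) ^ 2 * (1 / 10 ^ 6 *
        min (T ^ 16)⁻¹ ((w0 * x0) ^ 2 + (n * x1) ^ 2 + (n * x2) ^ 2)) ≤
      (2 + 2 * ω) ^ 2 * (1 / 10 ^ 6 * min 1 ((w0 * x0) ^ 2 + (w1 * x1) ^ 2 + (w2 * x2) ^ 2)) +
        ((2 + 2 * ω) ^ 2 - (2 * Real.cos (n * x1) + 2 * ω * Real.cos (n * x2)) ^ 2) / 5 := by
  have T0 : 0 < T := by linarith
  have T16 : 1 ≤ T ^ 16 := one_le_pow₀ hT
  have i1 : (T ^ 16)⁻¹ ≤ 1 := inv_le_one_of_one_le₀ T16
  have c1 := Real.cos_le_one (n * x1)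
  have c2 := Real.cos_le_one (n * x2)
  have c3 := Real.neg_one_le_cos (n * x1)
  have c4 := Real.neg_one_le_cos (n * x2)
  have p0 := sq_nonneg (w0 * x0)
  have p1 := sq_nonneg (w1 * x1)
  have p2 := sq_nonneg (w2 * x2)
  have d0 : (2 * Real.cos (n * x1) + 2 * ω * Real.cos (n * x2)) ^ 2 ≤ (2 + 2 * ω) ^ 2 :=
    sq_le_sq' (by linarith [mul_nonneg (by linarith only [h1] : 0 ≤ ω) (neg_le_iff_add_nonneg.mp c4)])
      (by linarith [mul_nonneg (by linarith : 0 ≤ ω) (sub_nonneg.mpr c2)])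
  have big : (T ^ 16)⁻¹ ≤ (w0 * x0) ^ 2 + (w1 * x1) ^ 2 + (w2 * x2) ^ 2 →
      (2 + 2 * ω) ^ 2 * (1 / 10 ^ 6 *
        min (T ^ 16)⁻¹ ((w0 * x0) ^ 2 + (n * x1) ^ 2 + (n * x2) ^ 2)) ≤
      (2 + 2 * ω) ^ 2 * (1 / 10 ^ 6 * min 1 ((w0 * x0) ^ 2 + (w1 * x1) ^ 2 + (w2 * x2) ^ 2)) +
        ((2 + 2 * ω) ^ 2 - (2 * Real.cos (n * x1) + 2 * ω * Real.cos (n * x2)) ^ 2) / 5 := by
    intro hb
    have k : min (T ^ 16)⁻¹ ((w0 * x0) ^ 2 + (n * x1) ^ 2 + (n * x2) ^ 2) ≤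
        min 1 ((w0 * x0) ^ 2 + (w1 * x1) ^ 2 + (w2 * x2) ^ 2) :=
      (min_le_left _ _).trans (le_min i1 hb)
    have k2 : (2 + 2 * ω) ^ 2 * (1 / 10 ^ 6 *
        min (T ^ 16)⁻¹ ((w0 * x0) ^ 2 + (n * x1) ^ 2 + (n * x2) ^ 2)) ≤ (2 + 2 * ω) ^ 2 *
        (1 / 10 ^ 6 * min 1 ((w0 * x0) ^ 2 + (w1 * x1) ^ 2 + (w2 * x2) ^ 2)) := by gcongr
    linarith only [d0, k2]
  rcases le_total 1 ((n * x1) ^ 2) with u1 | u1
  · refine big ?_
    have : (T ^ 16)⁻¹ ≤ (w1 * x1) ^ 2 := by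
      rw [inv_le_iff_one_le_mul₀ (by positivity)]
      refine u1.trans (le_of_eq ?_)
      rw [e1]; ring
    linarith
  rcases le_total 1 ((n * x2) ^ 2) with u2 | u2
  · refine big ?_
    have : (T ^ 16)⁻¹ ≤ (w2 * x2) ^ 2 := by
      rw [inv_le_iff_one_le_mul₀ (by positivity)]
      refine u2.trans ?_
      have : T ^ 8 ≤ T ^ 16 := pow_le_pow_right₀ hT (by norm_num)
      calc (n * x2) ^ 2 = (w2 * x2) ^ 2 * T ^ 8 := by rw [e2]; ring
        _ ≤ _ := by gcongr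
    linarith only [p0, p1, this]
  generalize n * x1 = u at *
  generalize n * x2 = v at *
  obtain ⟨a1, a2⟩ := cos_small u1
  obtain ⟨a3, a4⟩ := cos_small u2
  have q1 := sq_nonneg u
  have q2 := sq_nonneg v
  have k0 : min (T ^ 16)⁻¹ ((w0 * x0) ^ 2 + u ^ 2 + v ^ 2) ≤
      min 1 ((w0 * x0) ^ 2 + (w1 * x1) ^ 2 + (w2 * x2) ^ 2) + (u ^ 2 + v ^ 2) := by
    rcases min_cases 1 ((w0 * x0) ^ 2 + (w1 * x1) ^ 2 + (w2 * x2) ^ 2) with k | k <;> rw [k.1]
    · exact (min_le_left _ _).trans (by linarith only [i1, q1, q2])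
    · exact (min_le_right _ _).trans (by linarith only [p1, p2])
  have k1 : 2 / 5 * (u ^ 2 + v ^ 2) ≤ (2 + 2 * ω) - (2 * Real.cos u + 2 * ω * Real.cos v) := by
    linarith only [a1, a3, mul_nonneg (by linarith only [h1] : 0 ≤ ω - 1) (sub_nonneg.mpr c2)]
  have k2 : 16 ≤ (2 + 2 * ω) + (2 * Real.cos u + 2 * ω * Real.cos v) := by
    linarith only [h1, a2, mul_nonneg (by linarith only [h1] : 0 ≤ ω) a4]
  have k3 : 2 / 5 * (u ^ 2 + v ^ 2) * 16 ≤ ((2 + 2 * ω) - (2 * Real.cos u + 2 * ω * Real.cos v)) *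
      ((2 + 2 * ω) + (2 * Real.cos u + 2 * ω * Real.cos v)) :=
    mul_le_mul k1 k2 (by norm_num) (by linarith only [q1, q2, k1])
  have k4 : (2 + 2 * ω) ^ 2 ≤ 400 :=
    (pow_le_pow_left₀ (by linarith only [h1]) (by linarith only [h2] : 2 + 2 * ω ≤ 20) 2).trans (by norm_num)
  have k5 : (2 + 2 * ω) ^ 2 * (1 / 10 ^ 6 * min (T ^ 16)⁻¹ ((w0 * x0) ^ 2 + u ^ 2 + v ^ 2)) ≤
      (2 + 2 * ω) ^ 2 * (1 / 10 ^ 6 *
        (min 1 ((w0 * x0) ^ 2 + (w1 * x1) ^ 2 + (w2 * x2) ^ 2) + (u ^ 2 + v ^ 2))) := by gcongr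
  have k6 : (2 + 2 * ω) ^ 2 * (u ^ 2 + v ^ 2) ≤ 400 * (u ^ 2 + v ^ 2) := by (clear * - k4; gcongr)
  linarith only [d0, k3, k5, k6]

lemma ev0_Dk_sh (i : Fin 3) (k : Z3) (g : V) :
    ev 0 (Dk i (sh k * g)) = k i * ev 0 g + ev 0 (Dk i g) := by
  simp only [Dk_mul, Dk_sh, map_add, map_mul, map_smul, ev_zero_sh, smul_eq_mul]
  ring

lemma ev0_Dk2_sh (i l : Fin 3) (k : Z3) (g : V) :
    ev 0 (Dk i (Dk l (sh k * g))) = k i * k l * ev 0 g +
      (k l * ev 0 (Dk i g) + k i * ev 0 (Dk l g) + ev 0 (Dk i (Dk l g))) := by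
  simp only [Dk_mul, Dk_sh, map_add, map_mul, map_smul, ev_zero_sh, smul_eq_mul]
  ring

section

variable (H : IsNet G R)

include H

lemma norm_sum_om {F : Fin 4 → ℂ} {δ : ℝ} (hF : ∀ o, ‖F o‖ ≤ δ) :
    ‖∑ o, (R.om o : ℂ) * F o‖ ≤ R.Om * δ := by
  rw [← IsNet.sum_om, Finset.sum_mul]
  refine (norm_sum_le _ _).trans (Finset.sum_le_sum fun o _ => ?_)
  have := (H.om_pos o).1
  rw [norm_mul, Complex.norm_real, Real.norm_of_nonneg (by linarith)]
  exact mul_le_mul_of_nonneg_left (hF o) (by linarith)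

lemma norm_sum_off (j : ℕ) (i : Fin 3) {F : Fin 4 → ℂ} {δ : ℝ} (hF : ∀ o o', ‖F o - F o'‖ ≤ δ) :
    ‖∑ o, (R.om o : ℂ) * (G.off j o i * F o)‖ ≤ R.Om * (G.rB j i * δ) := by
  have δ0 : 0 ≤ δ := (norm_nonneg _).trans (hF 0 0)
  have h1 := H.om_lo
  have h2 := H.Om_lo
  have n0 : (0 : ℝ) ≤ G.n j := Nat.cast_nonneg _
  fin_cases i
  · have : ∑ o, (R.om o : ℂ) * (G.off j o 0 * F o) = 0 := by
      simp [Fin.sum_univ_four, Geo.off]
    simp only [Fin.zero_eta, this, norm_zero]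
    positivity
  · have : ∑ o, (R.om o : ℂ) * (G.off j o 1 * F o) = (G.n j : ℝ) * (F 0 - F 1) := by
      simp [Fin.sum_univ_four, Geo.off, Raw.om]; ring
    simp only [Fin.mk_one, this, rB_1]
    rw [norm_mul, Complex.norm_real, Real.norm_of_nonneg n0]
    have := mul_le_mul_of_nonneg_left (hF 0 1) n0
    nlinarith only [h2, this, mul_nonneg n0 δ0]
  · have : ∑ o, (R.om o : ℂ) * (G.off j o 2 * F o) = (R.om0 * G.n j : ℝ) * (F 2 - F 3) := by
      simp [Fin.sum_univ_four, Geo.off, Raw.om]; ring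
    simp only [Fin.reduceFinMk, this, rB_2]
    rw [norm_mul, Complex.norm_real, Real.norm_of_nonneg (by positivity)]
    have := mul_le_mul_of_nonneg_left (hF 2 3) (by positivity : 0 ≤ R.om0 * G.n j)
    unfold Raw.Om
    nlinarith only [h1, this, mul_nonneg n0 δ0]

lemma l1_comb_le (j : ℕ) {g : Fin 4 → V} {c : ℝ} (hg : ∀ o, l1 (g o) ≤ c) :
    l1 (R.comb G j g) ≤ R.Om * c := by
  rw [← IsNet.sum_om, Finset.sum_mul]
  refine (l1_sum_le _ _).trans (Finset.sum_le_sum fun o _ => ?_)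
  have := (H.om_pos o).1
  rw [l1_smul, l1_sh_mul, Complex.norm_real, Real.norm_of_nonneg (by linarith)]
  exact mul_le_mul_of_nonneg_left (hg o) (by linarith)

lemma far_comb {j : ℕ} {g : Fin 4 → V} {a : ℝ} (ha : 0 < a) (sg : ∀ o, Sp (G.rb j) (g o))
    (rg : ∀ o, Rl (g o)) (hg : ∀ o, l1 (g o - (a : ℂ) • G.φ j) ≤ 1 / 10 ^ 14 * (a * l1 (G.φ j)))
    {x : R3} (hx : x ∈ cube) :
    (R.Om * (a * l1 (G.φ j))) ^ 2 * (1 / 10 ^ 6 * min (G.t ^ 16)⁻¹ (sqr (G.rB j) x)) ≤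
      ‖ev 0 (R.comb G j g)‖ ^ 2 - ‖ev x (R.comb G j g)‖ ^ 2 := by
  rw [defect_comb]
  have h1 : ∑ o, ∑ o', R.om o * R.om o' * ((a * l1 (G.φ j)) ^ 2 *
      (1 / 10 ^ 6 * min 1 (sqr (G.w j) x) +
        (1 - Real.cos (pr (G.off j o) x - pr (G.off j o') x)) / 5)) ≤
      ∑ o, ∑ o', R.om o * R.om o' *
        Df (pr (G.off j o) x - pr (G.off j o') x) x (g o * dag (g o')) :=
    Finset.sum_le_sum fun o _ => Finset.sum_le_sum fun o' _ =>
      mul_le_mul_of_nonneg_left (tooth_Df (G.hundred_le_rb j) (G.rb_add_one j) hx _ ha (sg o)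
        (sg o') (rg o) (rg o') (hg o) (hg o'))
        (mul_nonneg (by linarith [(H.om_pos o).1]) (by linarith [(H.om_pos o').1]))
  refine le_trans ?_ h1
  simp only [mul_left_comm _ ((a * l1 (G.φ j)) ^ 2), ← Finset.mul_sum]
  rw [cos_sum, mul_pow, mul_comm (R.Om ^ 2), mul_assoc]
  refine mul_le_mul_of_nonneg_left ?_ (sq_nonneg _)
  simp only [sqr, Fin.sum_univ_three, rB_0, rB_1, rB_2, Raw.Om]
  exact far_num H.om_lo H.om_hi G.one_le_t (n_w1 j) (n_w2 j)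

lemma mom_comb {j : ℕ} {g : Fin 4 → V} {a e1 e2 : ℝ} (ha : 0 < a) (sg : ∀ o, Sp (G.rb j) (g o))
    (h0 : 0 ≤ e1) (h1 : e1 ≤ 1) (h2 : 0 ≤ e2)
    (hg : ∀ o, l1 (g o - (a : ℂ) • G.φ j) ≤ e1 * (a * l1 (G.φ j)))
    (hd : ∀ o o', l1 (g o - g o') ≤ e2 * (a * l1 (G.φ j))) (i : Fin 3) (x : R3) :
    |Mo i x (R.comb G j g)| ≤
      (R.Om * (a * l1 (G.φ j))) ^ 2 * (3 * e1 * G.w j i + 8 * e2 * G.rB j i) := by
  set U := a * l1 (G.φ j) with hU
  have U0 : 0 ≤ U := mul_nonneg ha.le (l1_nonneg _)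
  have O0 : 0 ≤ R.Om := by linarith [H.Om_lo]
  have lf : l1 ((a : ℂ) • G.φ j) = U := by
    rw [l1_smul, Complex.norm_real, Real.norm_of_nonneg ha.le]
  have lg : ∀ o, l1 (g o) ≤ 2 * U := fun o => by
    have k := l1_add_le ((a : ℂ) • G.φ j) (g o - (a : ℂ) • G.φ j)
    rw [add_sub_cancel, lf] at k
    linarith [hg o, mul_le_mul_of_nonneg_right h1 U0]
  set c : V := ∑ o, (R.om o : ℂ) • sh (G.off j o) with hc
  have ec : R.comb G j (fun _ => g 0) = c * g 0 := by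
    simp only [hc, Raw.comb, Finset.sum_mul, smul_mul_assoc]
  have eB : R.comb G j g = R.comb G j (fun _ => g 0) + R.comb G j (fun o => g o - g 0) := by
    simp only [Raw.comb, ← Finset.sum_add_distrib, ← smul_add, ← mul_add, add_sub_cancel]
  have dc : dag c = c := by
    have o1 : -G.off j 0 = G.off j 1 := by ext i; fin_cases i <;> simp [Geo.off]
    have o2 : -G.off j 1 = G.off j 0 := by rw [← o1, neg_neg]
    have o3 : -G.off j 2 = G.off j 3 := by ext i; fin_cases i <;> simp [Geo.off]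
    have o4 : -G.off j 3 = G.off j 2 := by rw [← o3, neg_neg]
    have w1 : R.om 1 = R.om 0 := rfl
    have w3 : R.om 3 = R.om 2 := rfl
    simp only [hc, Fin.sum_univ_four, map_add, dag_smul, dag_sh, Complex.conj_ofReal, o1, o2, o3,
      o4, w1, w3]
    abel
  have lc : ‖ev x c‖ ≤ R.Om := by
    simp only [hc, map_sum, map_smul, smul_eq_mul]
    simpa using norm_sum_om H (F := fun o => ev x (sh (G.off j o))) (δ := 1) fun o => by
      rw [ev_sh, Complex.norm_exp_I_mul_ofReal]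
  have m0 : |Mo i x (g 0)| ≤ G.w j i * (e1 * U) * (3 * U) := by
    have k := Mo_add ((G.sp_φ j).smul a) ((sg 0).sub ((G.sp_φ j).smul a)) i x
    rw [add_sub_cancel, Mo_smul, Mo_of_dag (f := G.φ j) (dag_ph _), mul_zero, sub_zero, lf] at k
    refine k.trans ?_
    have r1 : (G.rb j i : ℝ) ≤ G.w j i := by
      rw [← G.rb_add_one j i]; push_cast; linarith only []
    exact mul_le_mul (mul_le_mul r1 (hg 0) (l1_nonneg _) (Nat.cast_nonneg _)) (by linarith [lg 0])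
      (add_nonneg (l1_nonneg _) U0) (mul_nonneg (Nat.cast_nonneg _) (mul_nonneg h0 U0))
  have m1 : |Mo i x (R.comb G j fun _ => g 0)| ≤ R.Om ^ 2 * (G.w j i * (e1 * U) * (3 * U)) := by
    rw [ec, Mo_mul, Mo_of_dag dc, zero_mul, zero_add, abs_mul, abs_of_nonneg (sq_nonneg _)]
    exact mul_le_mul (pow_le_pow_left₀ (norm_nonneg _) lc 2) m0 (abs_nonneg _) (sq_nonneg _)
  have m2 := Mo_add (sp_comb (R := R) j fun _ => sg 0)
    (sp_comb (R := R) j fun o => (sg o).sub (sg 0)) i x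
  rw [← eB] at m2
  have l1B := l1_comb_le H j lg
  have l1C := l1_comb_le H j fun _ => lg 0
  have l1E := l1_comb_le H j fun o => hd o 0
  have m3 : ((2 * G.rB j i : ℕ) : ℝ) * l1 (R.comb G j fun o => g o - g 0) *
      (l1 (R.comb G j g) + l1 (R.comb G j fun _ => g 0)) ≤
      ((2 * G.rB j i : ℕ) : ℝ) * (R.Om * (e2 * U)) * (R.Om * (2 * U) + R.Om * (2 * U)) :=
    mul_le_mul (mul_le_mul_of_nonneg_left l1E (Nat.cast_nonneg _)) (add_le_add l1B l1C)
      (add_nonneg (l1_nonneg _) (l1_nonneg _))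
      (mul_nonneg (Nat.cast_nonneg _) (mul_nonneg O0 (mul_nonneg h2 U0)))
  have m4 := abs_add_le (Mo i x (R.comb G j g) - Mo i x (R.comb G j fun _ => g 0))
    (Mo i x (R.comb G j fun _ => g 0))
  rw [sub_add_cancel] at m4
  refine m4.trans ((add_le_add (m2.trans m3) m1).trans (le_of_eq ?_))
  push_cast
  ring

lemma first_comb {j : ℕ} {g : Fin 4 → V} {U e2 : ℝ} (sg : ∀ o, Sp (G.rb j) (g o))
    (lg : ∀ o, l1 (g o) ≤ 2 * U) (hd : ∀ o o', l1 (g o - g o') ≤ e2 * U) (i : Fin 3) :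
    ‖ev 0 (Dk i (R.comb G j g))‖ ≤ R.Om * U * (e2 * G.rB j i + 2 * G.w j i) := by
  have r1 : (G.rb j i : ℝ) ≤ G.w j i := by
    rw [← G.rb_add_one j i]; push_cast; linarith
  simp only [Raw.comb, map_sum, map_smul, smul_eq_mul, ev0_Dk_sh, mul_add, Finset.sum_add_distrib]
  have h1 := norm_sum_off H j i (F := fun o => ev 0 (g o)) (δ := e2 * U) fun o o' => by
    rw [← map_sub]; exact (norm_ev_le _ _).trans (hd o o')
  have h2 := norm_sum_om H (F := fun o => ev 0 (Dk i (g o))) (δ := G.w j i * (2 * U)) fun o =>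
    (norm_ev_le _ _).trans ((l1_Dk_le (sg o) i).trans
      (mul_le_mul r1 (lg o) (l1_nonneg _) (Nat.cast_nonneg _)))
  refine (norm_add_le _ _).trans ((add_le_add h1 h2).trans (le_of_eq ?_))
  ring

lemma second_comb {j : ℕ} {g : Fin 4 → V} {U e2 : ℝ} (sg : ∀ o, Sp (G.rb j) (g o))
    (lg : ∀ o, l1 (g o) ≤ 2 * U) (hd : ∀ o o', l1 (g o - g o') ≤ e2 * U) {i k : Fin 3}
    (hik : i ≠ k) :
    ‖ev 0 (Dk i (Dk k (R.comb G j g)))‖ ≤
      R.Om * U * (2 * e2 * (G.rB j i * G.rB j k) + 2 * (G.w j i * G.w j k)) := by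
  have r1 : ∀ i, (G.rb j i : ℝ) ≤ G.w j i := fun i => by
    rw [← G.rb_add_one j i]; push_cast; linarith
  have r2 : ∀ i, (G.rb j i : ℝ) ≤ G.rB j i := fun i =>
    (r1 i).trans (by exact_mod_cast G.w_le_rB j i)
  simp only [Raw.comb, map_sum, map_smul, smul_eq_mul, ev0_Dk2_sh, off_mul j _ hik, zero_mul,
    zero_add, mul_add, Finset.sum_add_distrib]
  have h1 : ∀ i k, ‖∑ o, (R.om o : ℂ) * (G.off j o k * ev 0 (Dk i (g o)))‖ ≤
      R.Om * (G.rB j k * (G.rB j i * (e2 * U))) := fun i k =>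
    norm_sum_off H j k (F := fun o => ev 0 (Dk i (g o))) fun o o' => by
      rw [← map_sub, ← map_sub]
      exact (norm_ev_le _ _).trans ((l1_Dk_le ((sg o).sub (sg o')) i).trans
        (mul_le_mul (r2 i) (hd o o') (l1_nonneg _) (Nat.cast_nonneg _)))
  have h2 := norm_sum_om H (F := fun o => ev 0 (Dk i (Dk k (g o))))
    (δ := G.w j i * (G.w j k * (2 * U))) fun o =>
    (norm_ev_le _ _).trans ((l1_Dk_le (sp_Dk (sg o) k) i).trans
      (mul_le_mul (r1 i) ((l1_Dk_le (sg o) k).trans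
        (mul_le_mul (r1 k) (lg o) (l1_nonneg _) (Nat.cast_nonneg _))) (l1_nonneg _)
        (Nat.cast_nonneg _)))
  refine (norm_add_le _ _).trans ((add_le_add ((norm_add_le _ _).trans
    (add_le_add (h1 i k) (h1 k i))) h2).trans (le_of_eq ?_))
  ring

omit H in
lemma mix_num {e a τ ri rk wi wk : ℝ} (he : e = 3 * a) (a0 : 0 ≤ a) (a1 : a ≤ 1 / 10 ^ 14)
    (τ0 : 0 ≤ τ) (wi0 : 0 ≤ wi) (wk0 : 0 ≤ wk) (hi : wi ≤ ri) (hk : wk ≤ rk)
    (hw : wi * wk ≤ τ * (ri * rk)) :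
    2 * (2 * (2 * e * (ri * rk) + 2 * (wi * wk))) +
      2 * (2 * (e * ri + 2 * wi) * (2 * (e * rk + 2 * wk))) ≤ 10 ^ 4 * (τ + a) * (ri * rk) := by
  have ri0 : 0 ≤ ri := wi0.trans hi
  have rk0 : 0 ≤ rk := wk0.trans hk
  have p0 : 0 ≤ ri * rk := mul_nonneg ri0 rk0
  have p1 : a * (wi * rk) ≤ a * (ri * rk) := by gcongr
  have p2 : a * (ri * wk) ≤ a * (ri * rk) := by gcongr
  have p3 : a * a * (ri * rk) ≤ a * (ri * rk) := by
    have : a * a ≤ a := mul_le_of_le_one_left a0 (by linarith)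
    gcongr
  have p4 := mul_nonneg a0 p0
  have p5 := mul_nonneg τ0 p0
  subst he
  linarith only [hw, p1, p2, p3, p4, p5]

/-- A comb whose teeth are close to the ground state is a driver. -/
theorem drv_of_close {j : ℕ} {t a a1 a2 : ℝ} (ha : 0 < a) (h1 : a1 ≤ 1 / 10 ^ 15)
    (h2 : a2 ≤ 1 / 10 ^ 14)
    (hc : ∀ o, ‖R.b j o t - (a : ℂ) • G.φ j‖ ≤ a1 * a)
    (hd : ∀ o o', ‖R.b j o t - R.b j o' t‖ ≤ a2 * a) :
    Drv G.t (G.rB j) (fun i => 10 ^ 3 * (a1 * G.w j i + a2 * G.rB j i))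
      (10 ^ 4 * ((G.t ^ 4)⁻¹ + a2)) (R.pB G j t) := by
  have a10 : 0 ≤ a1 := nonneg_of_mul_nonneg_left ((norm_nonneg _).trans (hc 0)) ha
  have a20 : 0 ≤ a2 := nonneg_of_mul_nonneg_left ((norm_nonneg _).trans (hd 0 0)) ha
  have sg : ∀ o, Sp (G.rb j) (R.b j o t) := fun o => H.spb j o t
  have rg : ∀ o, Rl (R.b j o t) := fun o => H.rlb j o t
  have hN : 0 < Nn (G.rb j) := Nn_pos _
  have hL : Nn (G.rb j) ≤ l1 (G.φ j) := le_l1_ph _
  set U := a * l1 (G.φ j) with hU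
  have U0 : 0 < U := mul_pos ha (hN.trans_le hL)
  have key : ∀ {f : V} {c : ℝ}, Sp (G.rb j) f → 0 ≤ c → ‖f‖ ≤ c * a → l1 f ≤ 3 * c * U :=
    fun {f c} hf c0 hn => by
      refine hf.l1_le.trans ?_
      calc 3 * Nn (G.rb j) * ‖f‖ ≤ 3 * l1 (G.φ j) * (c * a) :=
            mul_le_mul (by linarith only [hL]) hn (norm_nonneg _) (by linarith only [hN, hL])
        _ = _ := by rw [hU]; ring
  have hg : ∀ o, l1 (R.b j o t - (a : ℂ) • G.φ j) ≤ 3 * a1 * U := fun o =>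
    key ((sg o).sub ((G.sp_φ j).smul _)) a10 (hc o)
  have hd' : ∀ o o', l1 (R.b j o t - R.b j o' t) ≤ 3 * a2 * U := fun o o' =>
    key ((sg o).sub (sg o')) a20 (hd o o')
  have hg' : ∀ o, l1 (R.b j o t - (a : ℂ) • G.φ j) ≤ 1 / 10 ^ 14 * U := fun o =>
    (hg o).trans (mul_le_mul_of_nonneg_right (by linarith only [h1]) U0.le)
  have lf : l1 ((a : ℂ) • G.φ j) = U := by
    rw [l1_smul, Complex.norm_real, Real.norm_of_nonneg ha.le]
  have lg : ∀ o, l1 (R.b j o t) ≤ (1 + 1 / 10 ^ 14) * U := fun o => by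
    have k := l1_add_le ((a : ℂ) • G.φ j) (R.b j o t - (a : ℂ) • G.φ j)
    rw [add_sub_cancel, lf] at k
    linarith only [k, hg' o]
  have lg2 : ∀ o, l1 (R.b j o t) ≤ 2 * U := fun o => (lg o).trans (by linarith only [U0])
  have O0 : 0 < R.Om := by linarith only [H.Om_lo]
  set B : V := R.comb G j fun o => R.b j o t with hB
  have sB : Sp (fun i => 2 * G.rB j i) B := sp_comb j sg
  have rB : Rl B := rl_comb j rg
  have lB : l1 B ≤ R.Om * ((1 + 1 / 10 ^ 14) * U) := l1_comb_le H j lg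
  set W := R.Om * U with hW
  have W0 : 0 < W := mul_pos O0 U0
  set β := (ev 0 B).re with hβ
  have eβ : ev 0 B = (β : ℂ) := rB.ev_zero
  have b1 : ‖ev 0 B - (W : ℝ)‖ ≤ R.Om * (1 / 10 ^ 14 * U) := by
    have e : ev 0 B - (W : ℝ) = ∑ o, (R.om o : ℂ) * ev 0 (R.b j o t - (a : ℂ) • G.φ j) := by
      have e0 : ev 0 (G.φ j) = (l1 (G.φ j) : ℂ) := ev_zero_ph _
      simp only [hB, ev_comb, pr_zero', Complex.ofReal_zero, mul_zero, Complex.exp_zero, one_mul,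
        map_sub, map_smul, smul_eq_mul, e0, mul_sub, Finset.sum_sub_distrib, ← Finset.sum_mul,
        hW, hU, ← IsNet.sum_om]
      push_cast
      ring
    rw [e]
    exact norm_sum_om H fun o => (norm_ev_le _ _).trans (hg' o)
  rw [eβ, ← Complex.ofReal_sub, Complex.norm_real, Real.norm_eq_abs, abs_le] at b1
  have b2 : 9 / 10 * W ≤ β := by linarith only [b1, b1.1]
  have b3 : β ≤ 11 / 10 * W := by linarith only [b1, b1.2]
  have β0 : 0 < β := by linarith only [W0, b1]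
  have hp : R.pB G j t = ((β⁻¹ : ℝ) : ℂ) • B := by
    rw [Raw.pB, Complex.ofReal_inv, ← eβ]; rfl
  have hnb : ‖((β⁻¹ : ℝ) : ℂ)‖ = β⁻¹ := by
    rw [Complex.norm_real, Real.norm_of_nonneg (inv_nonneg.mpr β0.le)]
  have one : ev 0 (R.pB G j t) = 1 := by
    rw [hp, map_smul, eβ, smul_eq_mul, ← Complex.ofReal_mul, inv_mul_cancel₀ β0.ne']
    simp
  have nrm : ∀ {z : ℂ} {c : ℝ}, 0 ≤ c → ‖z‖ ≤ W * c → ‖((β⁻¹ : ℝ) : ℂ) * z‖ ≤ 2 * c :=
    fun {z c} c0 hz => by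
      rw [norm_mul, hnb, inv_mul_le_iff₀ β0]
      linarith only [hz, mul_le_mul_of_nonneg_right b2 c0, mul_nonneg W0.le c0]
  refine ⟨hp ▸ sB.smul _, hp ▸ rB.smul _, one, ?_, fun x hx => ?_, fun i k hik => ?_,
    fun i x => ?_⟩
  · rw [hp, l1_smul, hnb, inv_mul_le_iff₀ β0]
    linarith only [lB, b1]
  · have f1 := far_comb H ha sg rg hg' hx
    rw [← hB, ← hU, ← hW, eβ, Complex.norm_real, Real.norm_eq_abs, sq_abs] at f1
    rw [hp, map_smul, smul_eq_mul, norm_mul, hnb, mul_pow, inv_pow,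
      inv_mul_le_iff₀ (pow_pos β0 2)]
    have m0 : 0 ≤ min (G.t ^ 16)⁻¹ (sqr (G.rB j) x) :=
      le_min (inv_nonneg.mpr (pow_nonneg G.t_pos.le _)) (sqr_nonneg _ _)
    have f2 : β ^ 2 ≤ 2 * W ^ 2 := by linarith only [pow_le_pow_left₀ β0.le b3 2, sq_nonneg W]
    have f3 := mul_le_mul_of_nonneg_right f2 m0
    have f4 := mul_nonneg (sq_nonneg W) m0
    linarith only [f1, f3, f4]
  · refine (mix_le one i k).trans ?_
    have s1 := nrm (by (clear * - a20; positivity)) (first_comb H sg lg2 hd' i)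
    have s2 := nrm (by (clear * - a20; positivity)) (first_comb H sg lg2 hd' k)
    have s3 := nrm (by (clear * - a20; positivity)) (second_comb H sg lg2 hd' hik)
    simp only [hp, map_smul, smul_eq_mul]
    refine le_trans ?_ (mix_num rfl a20 h2 (inv_nonneg.mpr (pow_nonneg G.t_pos.le 4))
      (Nat.cast_nonneg _) (Nat.cast_nonneg _) (by exact_mod_cast G.w_le_rB j i)
      (by exact_mod_cast G.w_le_rB j k) (ww_le j hik))
    (clear * - a20 s1 s2 s3; gcongr)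
  · have s := mom_comb H ha sg (by positivity) (by linarith only [h1]) (by positivity) hg hd' i x
    rw [← hB, ← hU, ← hW] at s
    show |Mo i x (R.pB G j t)| ≤ _
    rw [hp, Mo_smul, abs_mul, abs_of_nonneg (sq_nonneg _), inv_pow,
      inv_mul_le_iff₀ (pow_pos β0 2)]
    refine s.trans ?_
    have f1 : W ^ 2 ≤ 2 * β ^ 2 := by
      linarith only [pow_le_pow_left₀ (by linarith only [W0]) b2 2, sq_nonneg W]
    have p1 : 0 ≤ a1 * G.w j i := mul_nonneg a10 (Nat.cast_nonneg _)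
    have p2 : 0 ≤ a2 * G.rB j i := mul_nonneg a20 (Nat.cast_nonneg _)
    calc W ^ 2 * (3 * (3 * a1) * G.w j i + 8 * (3 * a2) * G.rB j i)
        ≤ 2 * β ^ 2 * (3 * (3 * a1) * G.w j i + 8 * (3 * a2) * G.rB j i) :=
          mul_le_mul_of_nonneg_right f1 (by linarith only [p1, p2])
      _ = β ^ 2 * (18 * (a1 * G.w j i) + 48 * (a2 * G.rB j i)) := by ring
      _ ≤ _ := mul_le_mul_of_nonneg_left (by linarith only [p1, p2]) (sq_nonneg _)

end

end

end Pool.Agent.Work.MP_6bf1e5_an.Hyp.CombB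
end

-- merged part: Pool.Agent.Work.MP_6bf1e5_an.Hyp.Comb
section
/-!
Combs close to the ground state are drivers.
-/

open Pool.Agent.Work.MP_6bf1e5_an.Hyp.Dec

namespace Pool.Agent.Work.MP_6bf1e5_an.Hyp

/-- A comb whose teeth are close to the ground state is a driver. -/
theorem IsNet.drv_of_close {G : Geo} {R : Raw} (H : IsNet G R) {j : ℕ} {t a a1 a2 : ℝ}
    (ha : 0 < a) (h1 : a1 ≤ 1 / 10 ^ 15) (h2 : a2 ≤ 1 / 10 ^ 14)
    (hc : ∀ o, ‖R.b j o t - (a : ℂ) • G.φ j‖ ≤ a1 * a)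
    (hd : ∀ o o', ‖R.b j o t - R.b j o' t‖ ≤ a2 * a) :
    Drv G.t (G.rB j) (fun i => 10 ^ 3 * (a1 * G.w j i + a2 * G.rB j i))
      (10 ^ 4 * ((G.t ^ 4)⁻¹ + a2)) (R.pB G j t) :=
  CombB.drv_of_close H ha h1 h2 hc hd

end Pool.Agent.Work.MP_6bf1e5_an.Hyp
end

-- merged part: Pool.Agent.Work.MP_6bf1e5_an.Hyp.Deriv
section
/-!
Derivatives of the norms of levels and ladders.
-/

open Set Complex Filter Topology
open scoped InnerProductSpace ComplexConjugate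
open Pool.Agent.Work.MP_6bf1e5_an.B (Z3 R3)
open Pool.Agent.Work.MP_6bf1e5_an.Hyp.Dec

namespace Pool.Agent.Work.MP_6bf1e5_an.Hyp

noncomputable section

section aux

lemma dv_re_inner_le_mul (u v : V) : (⟪u, v⟫_ℂ).re ≤ ‖u‖ * ‖v‖ :=
  (Complex.re_le_norm _).trans (norm_inner_le_norm (𝕜 := ℂ) u v)

lemma dv_re_inner_smul_self (d : ℝ) (u : V) : (⟪u, (d : ℂ) • u⟫_ℂ).re = d * ‖u‖ ^ 2 := by
  rw [inner_smul_right, inner_self_eq_norm_sq_to_K]
  simp [← Complex.ofReal_pow, ← Complex.ofReal_mul]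

lemma dv_norm_rsmul {k : ℝ} (hk : 0 ≤ k) (v : V) : ‖(k : ℂ) • v‖ = k * ‖v‖ := by
  rw [norm_smul, Complex.norm_real, Real.norm_of_nonneg hk]

lemma dv_l1_rsmul {k : ℝ} (hk : 0 ≤ k) (v : V) : l1 ((k : ℂ) • v) = k * l1 v := by
  rw [l1_smul, Complex.norm_real, Real.norm_of_nonneg hk]

/-- The basic energy inequality. -/
lemma dv_re_inner_damp {n : N3} {l d x : ℝ} {v : Z3 → ℝ} (h : Lay n l v) (u s : V) (hs : ‖s‖ ≤ x) :
    (⟪u, s - (d : ℂ) • u - mulr v u⟫_ℂ).re ≤ ‖u‖ * x - d * ‖u‖ ^ 2 := by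
  rw [inner_sub_right, inner_sub_right, Complex.sub_re, Complex.sub_re, dv_re_inner_smul_self]
  have h1 := h.re_inner u
  have h2 := (dv_re_inner_le_mul u s).trans (mul_le_mul_of_nonneg_left hs (norm_nonneg u))
  linarith

lemma dv_hd_sqrt {S : ℝ → ℝ} {S' t X : ℝ} (h : HD S S' t) (pos : 0 < √(S t))
    (hX : S' ≤ 2 * √(S t) * X) : ∃ D, HD (fun t => √(S t)) D t ∧ D ≤ X := by
  refine ⟨_, h.sqrt (Real.sqrt_pos.mp pos).ne', ?_⟩
  rw [div_le_iff₀ (by positivity)]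
  linarith

lemma dv_sum_le_of_sq {ι : Type} (s : Finset ι) (a : ι → ℝ) {c x : ℝ} (hc : 0 ≤ c) (hx : 0 ≤ x)
    (h1 : (s.card : ℝ) ≤ c ^ 2) (h2 : ∑ i ∈ s, a i ^ 2 ≤ x ^ 2) : ∑ i ∈ s, a i ≤ c * x := by
  refine le_trans (le_abs_self _) (abs_le_of_sq_le_sq ?_ (by positivity))
  refine (sq_sum_le_card_mul_sum_sq (s := s) (f := a)).trans ?_
  rw [mul_pow]
  exact mul_le_mul h1 h2 (Finset.sum_nonneg fun _ _ => sq_nonneg _) (sq_nonneg _)

end aux

namespace IsNet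

variable {G : Geo} {R : Raw} (H : IsNet G R)

include H

lemma dv_hd_b (j : ℕ) (o : Fin 4) {t : ℝ} (ht : 0 ≤ t) : ∃ D, HD (R.b j o) D t := by
  rcases j with _ | j
  · obtain ⟨r, -, h⟩ := H.eqB0 o t ht
    exact ⟨_, h⟩
  · obtain ⟨r, -, h⟩ := H.eqB j o t ht
    exact ⟨_, h⟩

/-- The equation of a tooth in a form valid for every level. -/
lemma dv_eqB' (j : ℕ) (o : Fin 4) {t : ℝ} (ht : 0 ≤ t) : ∃ s r, ‖r‖ ≤ R.eb G j t ∧
    Sp (G.rb j) s ∧ ‖s‖ ≤ R.kap G (j - 1) * l1 (R.B G (j - 1) t) * ‖R.c j o t‖ ∧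
    l1 s ≤ R.kap G (j - 1) * l1 (R.B G (j - 1) t) * l1 (R.c j o t) ∧
    HD (R.b j o) (s - (G.d j : ℂ) • R.b j o t - mulr (R.vb j) (R.b j o t) + r) t := by
  have k0 := (H.kap_pos (j - 1)).le
  have l0 := l1_nonneg (R.B G (j - 1) t)
  rcases j with _ | j
  · obtain ⟨r, hr, h⟩ := H.eqB0 o t ht
    refine ⟨0, r, hr, sp_zero _, ?_, ?_, by simpa using h⟩
    · rw [norm_zero]; positivity
    · have := l1_nonneg (R.c 0 o t)
      have e : l1 (0 : V) = 0 := by simp [l1]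
      rw [e]; positivity
  · obtain ⟨r, hr, h⟩ := H.eqB j o t ht
    rw [Nat.add_sub_cancel] at k0 l0 ⊢
    have lA : l1 (R.A G j t) = l1 (R.B G j t) := l1_tau _
    refine ⟨_, r, hr, (sp_pj _ _).smul _, ?_, ?_, h⟩
    · rw [dv_norm_rsmul k0, mul_assoc]
      refine mul_le_mul_of_nonneg_left ((norm_pj_le _ _).trans ?_) k0
      rw [norm_dag_mul, ← lA]
      exact norm_mul_le_l1 _ _
    · rw [dv_l1_rsmul k0, mul_assoc]
      refine mul_le_mul_of_nonneg_left ((l1_pj_le _ _).trans ?_) k0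
      rw [← lA, ← l1_dag (R.A G j t)]
      exact l1_mul_le _ _

lemma cont_b (j : ℕ) (o : Fin 4) : ContinuousOn (R.b j o) (Ici 0) := by
  intro t ht
  obtain ⟨D, h⟩ := H.dv_hd_b j o ht
  exact h.continuousWithinAt

lemma cont_c (j : ℕ) (o : Fin 4) : ContinuousOn (R.c j o) (Ici 0) := by
  rcases j with _ | j
  · exact continuousOn_const.congr fun t _ => H.c0 o t
  · intro t ht
    obtain ⟨r, -, h⟩ := H.eqC j o t ht
    exact h.continuousWithinAt

lemma cont_lev (j : ℕ) : ContinuousOn (R.lev j) (Ici 0) := by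
  exact (continuousOn_finsetSum _ fun o _ =>
    ((H.cont_b j o).norm.pow 2).add ((H.cont_c j o).norm.pow 2)).sqrt

lemma cont_ch (j : ℕ) : ContinuousOn (R.ch G j) (Ici 0) := by
  refine (continuousOn_finsetSum _ fun i hi => (ContinuousOn.norm ?_).pow 2).sqrt
  obtain ⟨h1, h2⟩ := Finset.mem_Icc.mp hi
  obtain ⟨i, rfl⟩ : ∃ m, i = m + 1 := ⟨i - 1, by omega⟩
  intro t ht
  obtain ⟨r, -, h⟩ := H.eqY j i t (by omega) ht
  exact h.continuousWithinAt

lemma cont_aa (j : ℕ) : ContinuousOn (R.aa G j) (Ici 0) := by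
  intro t ht
  choose D hD using fun o => H.dv_hd_b j o ht
  have h1 : HD (R.B G j) _ t := hd_comb (G := G) (R := R) j hD
  exact ((HD.re (HD.ev3 h1 ht (H.spB j) 0)).div_const (R.bh G j)).continuousWithinAt

/-- The derivative of the norm of a level. -/
lemma lev_deriv {j : ℕ} {t σ F : ℝ} (ht : 0 ≤ t) (pos : 0 < R.lev (j + 1) t)
    (hσ : ∀ y, R.kap G j * ‖R.A G j t * y‖ ≤ σ * ‖y‖) (hF : ∀ o, ‖R.f G j o t‖ ≤ F) :
    ∃ D, HD (R.lev (j + 1)) D t ∧ D ≤ (σ - G.d (j + 1)) * R.lev (j + 1) t +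
      2 * (F + R.eb G (j + 1) t + R.ec G j t) := by
  choose rb hrb hb using fun o => H.eqB j o t ht
  choose rc hrc hc using fun o => H.eqC j o t ht
  have k0 := (H.kap_pos j).le
  have σ0 : 0 ≤ σ := by
    have := hσ dl
    rw [norm_dl, mul_one] at this
    exact le_trans (by positivity) this
  have F0 : 0 ≤ F := (norm_nonneg _).trans (hF 0)
  have e1 := H.eb_nonneg (j + 1) t
  have e2 := H.ec_nonneg j t
  have hS := HasDerivWithinAt.fun_sum (u := Finset.univ) fun o _ =>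
    (HD.normsq (hb o)).fun_add (HD.normsq (hc o))
  refine dv_hd_sqrt hS pos ?_
  change _ ≤ 2 * R.lev (j + 1) t * _
  have l0 := R.lev_nonneg (j + 1) t
  have l2 := R.lev_sq (j + 1) t
  have sb : ∑ o, ‖R.b (j + 1) o t‖ ≤ 2 * R.lev (j + 1) t :=
    dv_sum_le_of_sq _ _ (by norm_num) l0 (by norm_num) (by
      rw [l2]; exact Finset.sum_le_sum fun o _ => le_add_of_nonneg_right (sq_nonneg _))
  have sc : ∑ o, ‖R.c (j + 1) o t‖ ≤ 2 * R.lev (j + 1) t :=
    dv_sum_le_of_sq _ _ (by norm_num) l0 (by norm_num) (by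
      rw [l2]; exact Finset.sum_le_sum fun o _ => le_add_of_nonneg_left (sq_nonneg _))
  refine (Finset.sum_le_sum (g := fun o => 2 * (σ - G.d (j + 1)) *
    (‖R.b (j + 1) o t‖ ^ 2 + ‖R.c (j + 1) o t‖ ^ 2) +
      (2 * R.eb G (j + 1) t * ‖R.b (j + 1) o t‖ + 2 * (F + R.ec G j t) * ‖R.c (j + 1) o t‖))
      fun o _ => ?_).trans ?_
  · have x1 : ‖(R.kap G j : ℂ) • pj (G.rb (j + 1)) (dag (R.A G j t) * R.c (j + 1) o t) + rb o‖ ≤
        σ * ‖R.c (j + 1) o t‖ + R.eb G (j + 1) t := by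
      refine (norm_add_le _ _).trans (add_le_add ?_ (hrb o))
      rw [dv_norm_rsmul k0]
      refine le_trans (mul_le_mul_of_nonneg_left ((norm_pj_le _ _).trans ?_) k0) (hσ _)
      rw [norm_dag_mul]
    have x2 : ‖(R.kap G j : ℂ) • (R.A G j t * R.b (j + 1) o t) + R.f G j o t + rc o‖ ≤
        σ * ‖R.b (j + 1) o t‖ + F + R.ec G j t := by
      refine norm_add₃_le.trans (add_le_add (add_le_add ?_ (hF o)) (hrc o))
      rw [dv_norm_rsmul k0]
      exact hσ _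
    have y1 := dv_re_inner_damp (d := G.d (j + 1)) (H.layb (j + 1)) (R.b (j + 1) o t) _ x1
    have y2 := dv_re_inner_damp (d := G.d (j + 1)) (H.layc (j + 1)) (R.c (j + 1) o t) _ x2
    rw [show ∀ a b c e : V, a + e - b - c = a - b - c + e from fun _ _ _ _ => by abel] at y1
    rw [show ∀ a f b c e : V, a + f + e - b - c = a - b - c + f + e from
      fun _ _ _ _ _ => by abel] at y2
    linarith only [y1, y2, mul_nonneg σ0 (sq_nonneg (‖R.b (j + 1) o t‖ - ‖R.c (j + 1) o t‖))]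
  · rw [Finset.sum_add_distrib, Finset.sum_add_distrib, ← Finset.mul_sum, ← Finset.mul_sum,
      ← Finset.mul_sum, ← l2]
    have z1 := mul_le_mul_of_nonneg_left sb e1
    have z2 := mul_le_mul_of_nonneg_left sc (add_nonneg F0 e2)
    linarith only [z1, z2, mul_nonneg l0 e1, mul_nonneg l0 (add_nonneg F0 e2)]

/-- The derivative of the norm of a ladder. -/
lemma ch_deriv {j : ℕ} {t : ℝ} (ht : 0 ≤ t) (pos : 0 < R.ch G j t) :
    ∃ D, HD (R.ch G j) D t ∧ D ≤ -(G.D j * R.ch G j t) + 10 ^ 8 * G.lam (j + 1) *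
      ((R.nl G j t + R.Low G (j + 1) t) *
        (R.ch G j t + R.lev j t + G.L * R.lev (j + 1) t) +
        G.L ^ 3 * G.N j * R.ET (j + G.kk - 1) t) + G.L * R.Jk t := by
  choose r hr hy using fun i : Finset.range G.La =>
    H.eqY j i t (Finset.mem_range.mp i.2) ht
  have eS : ∀ t, ∑ i ∈ Finset.Icc 1 G.La, ‖R.y j i t‖ ^ 2 =
      ∑ i ∈ Finset.range G.La, ‖R.y j (i + 1) t‖ ^ 2 := fun t => by
    rw [Finset.range_eq_Ico, Finset.sum_Ico_add' (fun i => ‖R.y j i t‖ ^ 2), zero_add]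
    rfl
  have eF : R.ch G j = fun t => √(∑ i : Finset.range G.La, ‖R.y j (i + 1) t‖ ^ 2) := by
    funext t
    rw [Raw.ch, eS, Finset.sum_coe_sort _ fun i => ‖R.y j (i + 1) t‖ ^ 2]
  have hS := HasDerivWithinAt.fun_sum (u := Finset.univ) fun i _ => HD.normsq (hy i)
  have c2 : R.ch G j t ^ 2 = ∑ i ∈ Finset.range G.La, ‖R.y j (i + 1) t‖ ^ 2 := by
    rw [R.ch_sq, eS]
  suffices key : _ ≤ 2 * R.ch G j t * _ by
    rw [eF] at pos key ⊢
    exact dv_hd_sqrt hS pos key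
  have T1 := G.one_le_t
  have T0 := G.t_pos
  have L0 := G.L_pos
  have c0 := pos.le
  have l0 := R.lev_nonneg j t
  have l1' := R.lev_nonneg (j + 1) t
  have n0 := R.nl_nonneg G j t
  have w0 := R.Low_nonneg G j t
  have w1 := R.Low_succ G j t
  have N0 := (G.N_pos j).le
  have E0 := H.ET_nonneg (j + G.kk - 1) t
  have J0 := H.Jk_nonneg t
  have m0 := (G.lam_pos j).le
  have m1 : G.lam j ≤ G.lam (j + 1) := G.lam_mono (Nat.le_succ j)
  have τ0 := G.tau0_pos.le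
  have τ1 : G.tau0 ≤ 1 := G.tau0_le.trans
    (Real.exp_le_one_iff.mpr (neg_nonpos.mpr (mul_nonneg (by norm_num) G.E_pos.le)))
  set a : ℕ → ℝ := fun i => ‖R.y j i t‖ with ha
  have a0 : ∀ i, 0 ≤ a i := fun i => norm_nonneg _
  have s1 : ∑ i ∈ Finset.range G.La, a (i + 1) ≤ G.L / 10 * R.ch G j t := by
    refine dv_sum_le_of_sq _ _ (by positivity) c0 ?_ c2.ge
    have p1 : (100 : ℝ) ≤ G.L := by
      have p2 : G.t ≤ G.t ^ 21 := le_self_pow₀ T1 (by norm_num)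
      have p3 : (100 : ℝ) ≤ 10 ^ 100 := by norm_num
      exact p3.trans (G.t_big.trans (p2.trans G.L_lo))
    rw [Finset.card_range, G.La_eq]
    nlinarith only [p1]
  have s2 : ∑ i ∈ Finset.range G.La, a (i + 1) * a (i + 2) ≤ R.ch G j t ^ 2 := by
    have x1 : ∑ i ∈ Finset.range G.La, a (i + 2) ^ 2 ≤ R.ch G j t ^ 2 := by
      have x2 := Finset.sum_range_succ' (fun i => a (i + 1) ^ 2) G.La
      have x3 := Finset.sum_range_succ (fun i => a (i + 1) ^ 2) G.La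
      have x4 : a (G.La + 1) = 0 := by simp [ha, H.yend]
      rw [x4] at x3
      have x5 := sq_nonneg (a (0 + 1))
      rw [c2]
      change ∑ i ∈ Finset.range G.La, a (i + 1 + 1) ^ 2 ≤ ∑ i ∈ Finset.range G.La, a (i + 1) ^ 2
      linarith only [x2, x3, x5]
    refine (Finset.sum_le_sum (g := fun i => 1 / 2 * a (i + 1) ^ 2 + 1 / 2 * a (i + 2) ^ 2)
      fun i _ => by linarith only [sq_nonneg (a (i + 1) - a (i + 2))]).trans ?_
    rw [Finset.sum_add_distrib, ← Finset.mul_sum, ← Finset.mul_sum, ← c2]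
    linarith only [x1]
  have s3 : ∑ i ∈ Finset.range G.La, a (i + 1) * a i ≤
      R.ch G j t * (13 * R.lev j t) + R.ch G j t ^ 2 := by
    have x2 := Finset.sum_range_succ' (fun i => a (i + 1) * a i) G.La
    have x3 := Finset.sum_range_succ (fun i => a (i + 1) * a i) G.La
    have x4 := mul_nonneg (a0 (G.La + 1)) (a0 G.La)
    have x5 : a 0 ≤ 13 * R.lev j t := by
      simp only [ha, H.y0, Raw.A, norm_tau]
      exact H.norm_B_le j t
    have x6 : a (0 + 1) ≤ R.ch G j t := R.y_le_ch G j le_rfl (by have := G.ten_le_La; omega) t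
    have x7 := mul_le_mul x6 x5 (a0 _) c0
    have x8 : ∑ i ∈ Finset.range G.La, a (i + 1 + 1) * a (i + 1) =
        ∑ i ∈ Finset.range G.La, a (i + 1) * a (i + 2) :=
      Finset.sum_congr rfl fun i _ => mul_comm _ _
    linarith only [s2, x2, x3, x4, x7, x8]
  set K := 10 ^ 6 * G.lam (j + 1) with hK
  have K0 : 0 ≤ K := by have := G.lam_pos (j + 1); positivity
  set W := R.nl G j t + R.Low G (j + 1) t with hW
  have W0 : 0 ≤ W := by linarith only [n0, w0, w1]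
  set X := K * (W * R.lev (j + 1) t + G.L ^ 2 * G.N j * R.ET (j + G.kk - 1) t) + 10 * R.Jk t
    with hX
  have X0 : 0 ≤ X := by (clear * - L0 l1' N0 E0 J0 K0 W0; positivity)
  have kk : 40 * G.lam j * R.nl G j t + K * G.tau0 * R.nl G j t ≤ 2 * K * W := by
    have y1 : 40 * G.lam j ≤ K := by linarith only [m0, m1]
    have y2 : K * G.tau0 ≤ K := mul_le_of_le_one_right K0 τ1
    have y3 : R.nl G j t ≤ W := by linarith only [w0, w1]
    linarith only [mul_le_mul y1 y3 n0 K0, mul_le_mul y2 y3 n0 K0]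
  refine (Finset.sum_le_sum (g := fun i : Finset.range G.La =>
    2 * (2 * K * W * (a (i + 1) * a i) + K * W * (a (i + 1) * a (i + 2)) +
      (K * W - G.D j) * a (i + 1) ^ 2 + X * a (i + 1))) fun i _ => ?_).trans ?_
  · have x1 : ‖((R.cy (i + 1) * G.lam j : ℝ) : ℂ) • pj (G.ry j) (R.B G j t * R.y j i t) + r i‖ ≤
        40 * G.lam j * R.nl G j t * a i + R.ey G j i t := by
      refine (norm_add_le _ _).trans (add_le_add ?_ (hr i))
      have c1 := H.cy_lo (i + 1)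
      have c3 := H.cy_hi (i + 1)
      rw [dv_norm_rsmul (mul_nonneg (by linarith only [c1]) m0)]
      have x2 := (norm_pj_le (G.ry j) _).trans ((norm_mul_le_l1 (R.B G j t) (R.y j i t)).trans
        (mul_le_mul_of_nonneg_right (H.l1_B_le j t) (norm_nonneg _)))
      have x3 := mul_le_mul (mul_le_of_le_one_left m0 c3) x2 (norm_nonneg _) m0
      refine x3.trans (le_of_eq ?_)
      simp only [ha]; ring
    have y1 := dv_re_inner_damp (d := G.D j) (H.layy j (i + 1)) (R.y j (i + 1) t) _ x1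
    rw [show ∀ a b c e : V, a + e - b - c = a - b - c + e from fun _ _ _ _ => by abel] at y1
    have y2 : R.ey G j i t = K * G.tau0 * R.nl G j t * a i + K * W * a (i + 2) +
        K * R.Low G j t * a (i + 1) + X := by
      simp only [Raw.ey, hK, hW, hX, ha]; ring
    have y3 := mul_le_mul_of_nonneg_right kk (mul_nonneg (a0 (i + 1)) (a0 i))
    have y4 := mul_le_mul_of_nonneg_right (mul_le_mul_of_nonneg_left
      (show R.Low G j t ≤ W by linarith only [n0, w1]) K0) (sq_nonneg (a (i + 1)))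
    rw [y2] at y1
    change _ ≤ a (i + 1) * _ - _ * a (i + 1) ^ 2 at y1
    linarith only [y3, y4, y1]
  · rw [Finset.sum_coe_sort _ fun i => 2 * (2 * K * W * (a (i + 1) * a i) +
      K * W * (a (i + 1) * a (i + 2)) + (K * W - G.D j) * a (i + 1) ^ 2 + X * a (i + 1)),
      ← Finset.mul_sum, Finset.sum_add_distrib, Finset.sum_add_distrib, Finset.sum_add_distrib,
      ← Finset.mul_sum, ← Finset.mul_sum, ← Finset.mul_sum, ← Finset.mul_sum, ← c2]
    have KW : 0 ≤ K * W := mul_nonneg K0 W0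
    have z1 := mul_le_mul_of_nonneg_left s1 X0
    have z2 := mul_le_mul_of_nonneg_left s2 KW
    have z3 := mul_le_mul_of_nonneg_left s3 KW
    have z4 : X * (G.L / 10 * R.ch G j t) = R.ch G j t * (K * W * (G.L * R.lev (j + 1) t) / 10
        + K * (G.L ^ 3 * G.N j * R.ET (j + G.kk - 1) t) / 10 + G.L * R.Jk t) := by
      rw [hX]; ring
    have z5 : 10 ^ 8 * G.lam (j + 1) = 100 * K := by rw [hK]; ring
    rw [z5, ← eF]
    have p1 : 0 ≤ K * W * R.ch G j t ^ 2 := mul_nonneg KW (sq_nonneg _)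
    have p2 : 0 ≤ K * W * (R.ch G j t * R.lev j t) := mul_nonneg KW (mul_nonneg c0 l0)
    have p3 : 0 ≤ R.ch G j t * (K * W * (G.L * R.lev (j + 1) t)) :=
      mul_nonneg c0 (mul_nonneg KW (mul_nonneg L0.le l1'))
    have p4 : 0 ≤ R.ch G j t * (K * (G.L ^ 3 * G.N j * R.ET (j + G.kk - 1) t)) :=
      mul_nonneg c0 (mul_nonneg K0 (mul_nonneg (mul_nonneg (pow_nonneg L0.le _) N0) E0))
    clear_value X W K
    linarith only [z1, z2, z3, z4, p1, p2, p3, p4]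

/-- The derivative of the distance of a tooth to a multiple of the ground state. -/
lemma b_deriv (j : ℕ) (o : Fin 4) {t : ℝ} (ht : 0 ≤ t) (a : ℝ) :
    ∃ D, HD (fun t => ‖R.b j o t - (a : ℂ) • G.φ j‖ ^ 2) D t ∧
      D ≤ 2 * ‖R.b j o t - (a : ℂ) • G.φ j‖ *
        (R.kap G (j - 1) * l1 (R.B G (j - 1) t) * ‖R.c j o t‖ + G.d j * ‖R.b j o t‖ +
          G.ell j * |a| + R.eb G j t) := by
  obtain ⟨s, r, hr, -, hs, -, h⟩ := H.dv_eqB' j o ht
  refine ⟨_, HD.normsq (h.sub_const ((a : ℂ) • G.φ j)), ?_⟩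
  set u := R.b j o t - (a : ℂ) • G.φ j with hu
  have e : s - (G.d j : ℂ) • R.b j o t - mulr (R.vb j) (R.b j o t) + r =
      s - (G.d j : ℂ) • R.b j o t - (a : ℂ) • mulr (R.vb j) (G.φ j) + r - mulr (R.vb j) u := by
    rw [hu, map_sub, map_smul]; abel
  have x1 : ‖mulr (R.vb j) (G.φ j)‖ ≤ G.ell j := by
    have := (H.layb j).norm_le (G.sp_φ j) (norm_coeff_ph_le _)
    rwa [mul_assoc, mul_inv_cancel₀ (Nn_pos _).ne', mul_one] at this
  have x2 : ‖s - (G.d j : ℂ) • R.b j o t - (a : ℂ) • mulr (R.vb j) (G.φ j) + r‖ ≤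
      R.kap G (j - 1) * l1 (R.B G (j - 1) t) * ‖R.c j o t‖ + G.d j * ‖R.b j o t‖ +
        G.ell j * |a| + R.eb G j t := by
    refine (norm_add_le _ _).trans (add_le_add ((norm_sub_le _ _).trans
      (add_le_add ((norm_sub_le _ _).trans (add_le_add hs ?_)) ?_)) hr)
    · rw [dv_norm_rsmul (G.d_pos j).le]
    · rw [norm_smul, Complex.norm_real, Real.norm_eq_abs, mul_comm]
      exact mul_le_mul_of_nonneg_right x1 (abs_nonneg _)
  have x3 := (dv_re_inner_le_mul u _).trans (mul_le_mul_of_nonneg_left x2 (norm_nonneg u))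
  have x4 := (H.layb j).re_inner u
  rw [e, inner_sub_right, Complex.sub_re]
  linarith

lemma c_deriv (j : ℕ) (o : Fin 4) {t : ℝ} (ht : 0 ≤ t) :
    ∃ D, HD (fun t => ‖R.c (j + 1) o t‖ ^ 2) D t ∧ D ≤ 2 * ‖R.c (j + 1) o t‖ *
      (R.kap G j * l1 (R.B G j t) * ‖R.b (j + 1) o t‖ + ‖R.f G j o t‖ + R.ec G j t) := by
  obtain ⟨r, hr, h⟩ := H.eqC j o t ht
  refine ⟨_, HD.normsq h, ?_⟩
  have k0 := (H.kap_pos j).le
  have x2 : ‖(R.kap G j : ℂ) • (R.A G j t * R.b (j + 1) o t) + R.f G j o t + r‖ ≤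
      R.kap G j * l1 (R.B G j t) * ‖R.b (j + 1) o t‖ + ‖R.f G j o t‖ + R.ec G j t := by
    refine norm_add₃_le.trans (add_le_add (add_le_add ?_ le_rfl) hr)
    rw [dv_norm_rsmul k0, mul_assoc, ← l1_tau (R.B G j t)]
    exact mul_le_mul_of_nonneg_left (norm_mul_le_l1 _ _) k0
  have y2 := dv_re_inner_damp (d := G.d (j + 1)) (H.layc (j + 1)) (R.c (j + 1) o t) _ x2
  rw [show ∀ a f b c e : V, a + f + e - b - c = a - b - c + f + e from
    fun _ _ _ _ _ => by abel] at y2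
  have := mul_nonneg (G.d_pos (j + 1)).le (sq_nonneg ‖R.c (j + 1) o t‖)
  linarith

/-- The derivative of a tooth in the sum norm. -/
lemma b_l1_deriv (j : ℕ) (o : Fin 4) {t : ℝ} (ht : 0 ≤ t) :
    ∃ D, HD (R.b j o) D t ∧ l1 D ≤
      R.kap G (j - 1) * l1 (R.B G (j - 1) t) * l1 (R.c j o t) + G.d j * l1 (R.b j o t) +
        G.N j * (G.ell j * ‖R.b j o t‖ + 3 * R.eb G j t) := by
  obtain ⟨s, r, hr, sp, -, hs, h⟩ := H.dv_eqB' j o ht
  refine ⟨_, h, ?_⟩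
  have x1 := HD.sp h ht (H.spb j o)
  have x2 : Sp (G.rb j) r := by
    have := x1.sub ((sp.sub ((H.spb j o t).smul (G.d j : ℂ))).sub ((H.spb j o t).mulr (R.vb j)))
    rwa [add_sub_cancel_left] at this
  have x3 := x2.l1_le.trans (mul_le_mul_of_nonneg_left hr
    (mul_nonneg (by norm_num) (Nn_pos _).le))
  have x4 := (H.layb j).l1_le (H.spb j o t)
  have x5 := dv_l1_rsmul (G.d_pos j).le (R.b j o t)
  have x6 := (l1_add_le _ r).trans (add_le_add ((l1_sub_le _ (mulr (R.vb j) (R.b j o t))).trans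
    (add_le_add ((l1_sub_le s _).trans (add_le_add hs x5.le)) x4)) x3)
  refine x6.trans (le_of_eq ?_)
  simp only [Geo.N]; ring

/-- High levels are small on bounded time intervals. -/
lemma high (J : ℕ) (tb : ℝ) {u : ℝ} (hu : 0 < u) : ∃ M, ∀ i, M ≤ i → ∀ t ∈ Icc 0 tb,
    R.nc G i t ≤ G.θ ^ (i - J) * u ∧ G.Wc * R.nl G i t ≤ G.θ ^ (i - J - 1) * u := by
  obtain ⟨K, hK⟩ := H.decay 3 tb
  have T1 := G.one_le_t
  have T0 := G.t_pos
  have W0 := G.Wc_pos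
  have N0 := G.N_pos 0
  have C0 : 0 < G.Wc * G.N 0 * (|K| + 1) := by positivity
  have L0 := G.L_pos
  have q1 : G.L⁻¹ < 1 := inv_lt_one_of_one_lt₀ (lt_of_lt_of_le (one_lt_pow₀
    (lt_of_lt_of_le (by norm_num) G.t_big) (by norm_num)) G.L_lo)
  obtain ⟨M, hM⟩ := exists_pow_lt_of_lt_one (div_pos hu C0) q1
  refine ⟨M, fun i hi t ht => ?_⟩
  have θ0 := G.θ_pos.le
  have θ1 : G.θ ≤ 1 := inv_le_one_of_one_le₀ (one_le_pow₀ T1)
  have l0 := R.lev_nonneg i t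
  have c0 := R.ch_nonneg G i t
  have hS : ∀ m, G.N (m + 1) ≤ G.θ * G.L ^ 2 * G.N m := fun m => by
    have p : 0 < G.t ^ 10 := by positivity
    rw [Geo.θ, mul_assoc, ← div_eq_inv_mul, le_div_iff₀' p]
    exact G.N_succ_hi m
  have hN : ∀ m, G.N m ≤ (G.θ * G.L ^ 2) ^ m * G.N 0 := fun m => by
    induction m with
    | zero => simp
    | succ m ih =>
      refine (hS m).trans ((mul_le_mul_of_nonneg_left ih (by positivity)).trans
        (le_of_eq (by ring)))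
  have hl : G.L ^ i ≤ G.lam i := by
    have := G.lam_add 0 i
    rw [zero_add] at this
    rw [this]
    exact le_mul_of_one_le_right (by positivity) (G.one_le_lam 0)
  have x1 : (G.L ^ i) ^ 3 * (R.lev i t + R.ch G i t) ≤ |K| + 1 :=
    (mul_le_mul_of_nonneg_right (pow_le_pow_left₀ (by positivity) hl 3) (by positivity)).trans
      ((hK i t ht).trans (by linarith only [le_abs_self K]))
  have x2 : (G.L⁻¹) ^ i * (G.Wc * G.N 0 * (|K| + 1)) ≤ u :=
    ((le_div_iff₀ C0).mp ((pow_le_pow_of_le_one (by positivity) q1.le hi).trans hM.le))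
  have key : G.Wc * (G.N i * (R.lev i t + R.ch G i t)) ≤ G.θ ^ i * u := by
    refine le_trans ?_ (mul_le_mul_of_nonneg_left x2 (pow_nonneg θ0 i))
    have e : (G.θ * G.L ^ 2) ^ i = G.θ ^ i * (G.L⁻¹) ^ i * (G.L ^ i) ^ 3 := by
      rw [← pow_mul G.L, mul_comm i 3, pow_mul, ← mul_pow, ← mul_pow]
      congr 1
      field_simp
    calc G.Wc * (G.N i * (R.lev i t + R.ch G i t))
        ≤ G.Wc * ((G.θ * G.L ^ 2) ^ i * G.N 0 * (R.lev i t + R.ch G i t)) := by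
          gcongr; exact hN i
      _ = G.θ ^ i * (G.L⁻¹) ^ i * (G.Wc * G.N 0) *
          ((G.L ^ i) ^ 3 * (R.lev i t + R.ch G i t)) := by rw [e]; ring
      _ ≤ G.θ ^ i * (G.L⁻¹) ^ i * (G.Wc * G.N 0) * (|K| + 1) := by gcongr
      _ = _ := by ring
  have Ni := (G.N_pos i).le
  have p1 : 0 ≤ G.Wc * (G.N i * R.lev i t) := by positivity
  have p2 : 0 ≤ G.Wc * (G.N i * R.ch G i t) := by positivity
  have y1 := mul_le_mul_of_nonneg_right
    (pow_le_pow_of_le_one θ0 θ1 (show i - J ≤ i by omega)) hu.le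
  have y2 := mul_le_mul_of_nonneg_right
    (pow_le_pow_of_le_one θ0 θ1 (show i - J - 1 ≤ i by omega)) hu.le
  simp only [Raw.nc, Raw.nl]
  constructor <;> linarith only [key, p1, y1, p2, y2]

end IsNet

end

end Pool.Agent.Work.MP_6bf1e5_an.Hyp
end

-- merged part: Pool.Agent.Work.MP_6bf1e5_an.Hyp.SumsA
section
/-!
Consequences of the crude bounds: sums over the levels.
-/

open Set Complex Filter Topology
open scoped InnerProductSpace ComplexConjugate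
open Pool.Agent.Work.MP_6bf1e5_an.B (Z3 R3)
open Pool.Agent.Work.MP_6bf1e5_an.Hyp.Dec

namespace Pool.Agent.Work.MP_6bf1e5_an.Hyp

noncomputable section

variable {G : Geo} {R : Raw} {J : ℕ} {t : ℝ}

namespace SumsA

lemma low_sum (J M : ℕ) (h : M ≤ J) :
    ∑ j ∈ Finset.range M, (1 / 2 : ℝ) ^ (J - j) ≤ (1 / 2) ^ (J - M) := by
  induction M with
  | zero => simp
  | succ M ih =>
    rw [Finset.sum_range_succ]
    have h1 := ih (by omega)
    rw [show J - M = J - (M + 1) + 1 by omega, pow_succ] at h1 ⊢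
    linarith only [h1]

lemma high_sum (a M : ℕ) : ∑ j ∈ Finset.Ico a M, (1 / 2 : ℝ) ^ (j - a) ≤ 2 := by
  rw [Finset.sum_Ico_eq_sum_range]
  simpa using sum_geometric_two_le (M - a)

lemma high_le {f : ℕ → ℝ} {a M : ℕ} {C : ℝ} (hC : 0 ≤ C)
    (h : ∀ j, a ≤ j → f j ≤ C * (1 / 2) ^ (j - a)) : ∑ j ∈ Finset.Ico a M, f j ≤ 2 * C := by
  calc ∑ j ∈ Finset.Ico a M, f j ≤ ∑ j ∈ Finset.Ico a M, C * (1 / 2 : ℝ) ^ (j - a) :=
        Finset.sum_le_sum fun j hj => h j (Finset.mem_Ico.1 hj).1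
    _ = C * ∑ j ∈ Finset.Ico a M, (1 / 2 : ℝ) ^ (j - a) := (Finset.mul_sum _ _ _).symm
    _ ≤ C * 2 := mul_le_mul_of_nonneg_left (high_sum a M) hC
    _ = 2 * C := mul_comm _ _

lemma two_sided {f : ℕ → ℝ} {J M : ℕ} {C : ℝ} (hC : 0 ≤ C) (h0 : ∀ j, 0 ≤ f j)
    (h1 : ∀ j < J, f j ≤ C * (1 / 2) ^ (J - j)) (h2 : ∀ j, J ≤ j → f j ≤ C * (1 / 2) ^ (j - J)) :
    ∑ j ∈ Finset.range M, f j ≤ 3 * C := by
  have e1 : ∑ j ∈ Finset.range M, f j ≤ ∑ j ∈ Finset.range (max J M), f j :=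
    Finset.sum_le_sum_of_subset_of_nonneg (Finset.range_mono (le_max_right _ _))
      fun j _ _ => h0 j
  rw [← Finset.sum_range_add_sum_Ico f (le_max_left J M)] at e1
  have e2 := high_le (M := max J M) hC h2
  have e3 : ∑ j ∈ Finset.range J, f j ≤ C := by
    calc ∑ j ∈ Finset.range J, f j ≤ ∑ j ∈ Finset.range J, C * (1 / 2 : ℝ) ^ (J - j) :=
          Finset.sum_le_sum fun j hj => h1 j (Finset.mem_range.1 hj)
      _ = C * ∑ j ∈ Finset.range J, (1 / 2 : ℝ) ^ (J - j) := (Finset.mul_sum _ _ _).symm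
      _ ≤ C * 1 := mul_le_mul_of_nonneg_left (by simpa using low_sum J J le_rfl) hC
      _ = C := mul_one _
  linarith

/-- A sequence that at least doubles. -/
lemma grow {X : ℕ → ℝ} (h : ∀ j, 2 * X j ≤ X (j + 1)) {i j : ℕ} (hij : i ≤ j) :
    X i ≤ X j * (1 / 2) ^ (j - i) := by
  induction j, hij using Nat.le_induction with
  | base => simp
  | succ n hn ih =>
    rw [show n + 1 - i = n - i + 1 by omega, pow_succ]
    have h1 := h n
    have h2 : (0 : ℝ) ≤ (1 / 2) ^ (n - i) := by positivity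
    nlinarith only [ih, h1, h2]

/-- A sequence that at least halves. -/
lemma fall {X : ℕ → ℝ} (h : ∀ j, 2 * X (j + 1) ≤ X j) {i j : ℕ} (hij : i ≤ j) :
    X j ≤ X i * (1 / 2) ^ (j - i) := by
  induction j, hij using Nat.le_induction with
  | base => simp
  | succ n hn ih =>
    rw [show n + 1 - i = n - i + 1 by omega, pow_succ]
    have h1 := h n
    linarith only [ih, h1]

lemma big (G : Geo) {k : ℕ} (hk : 0 < k) : (10 : ℝ) ^ 100 ≤ G.t ^ k := by
  simpa using G.pow_lt hk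

lemma exp_le_Wc (G : Geo) : Real.exp (G.t / 10 ^ 50) ≤ G.Wc := by
  refine Real.exp_le_exp.2 ?_
  have h1 : G.t ^ 1 ≤ G.t ^ 20 := G.pow_le (by norm_num)
  have h2 := G.t_pos
  have h3 := G.W_lo
  rw [pow_one] at h1
  have : G.t / 10 ^ 50 ≤ G.t := div_le_self h2.le (by norm_num)
  linarith only [h1, h2, h3]

lemma pow_le_Wc (G : Geo) {k : ℕ} (hk : k ≤ 1000) : G.t ^ k ≤ G.Wc :=
  (G.pow_le_exp hk).trans (exp_le_Wc G)

lemma L_pow_le_Wc (G : Geo) {k : ℕ} (hk : k ≤ 1000) : G.L ^ k ≤ G.Wc :=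
  (G.L_pow_le_exp hk).trans (exp_le_Wc G)

lemma big_L (G : Geo) : (10 : ℝ) ^ 100 ≤ G.L := (big G (k := 21) (by norm_num)).trans G.L_lo

lemma big_Q (G : Geo) : (10 : ℝ) ^ 100 ≤ G.Q := (big_L G).trans G.L_le_Q

lemma big_Wc (G : Geo) : (10 : ℝ) ^ 100 ≤ G.Wc :=
  (big G one_pos).trans (pow_le_Wc G (by norm_num))

lemma θ_le (G : Geo) : G.θ ≤ 1 / 2 := by
  have := big G (k := 10) (by norm_num)
  unfold Geo.θ
  rw [one_div]
  exact inv_anti₀ (by norm_num) (by linarith)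

lemma θ_pow_le (G : Geo) (k : ℕ) : G.θ ^ k ≤ (1 / 2) ^ k :=
  pow_le_pow_left₀ G.θ_pos.le (θ_le G) k

lemma θ_pow_le_one (G : Geo) (k : ℕ) : G.θ ^ k ≤ 1 :=
  pow_le_one₀ G.θ_pos.le ((θ_le G).trans (by norm_num))

lemma θ_anti (G : Geo) {a b : ℕ} (h : a ≤ b) : G.θ ^ b ≤ G.θ ^ a :=
  pow_le_pow_of_le_one G.θ_pos.le ((θ_le G).trans (by norm_num)) h

lemma xs_le (G : Geo) : G.xs ≤ 1 / 10 ^ 100 := by
  have := big G (k := 30) (by norm_num)
  rw [one_div]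
  exact G.xs_le.trans (inv_anti₀ (by norm_num) this)

lemma xs_bh (H : IsNet G R) (J : ℕ) : 10 ^ 100 * (G.xs * R.bh G (J + 1)) ≤ R.bh G J := by
  have h1 := big G (k := 9) (by norm_num)
  have h2 := H.bh_pos J
  have h3 := G.t_pos
  rw [H.bh_succ, ← mul_assoc G.xs, G.xs_mul_Q]
  calc 10 ^ 100 * ((G.t ^ 9)⁻¹ * R.bh G J)
      = 10 ^ 100 / G.t ^ 9 * R.bh G J := by ring
    _ ≤ 1 * R.bh G J := by
        gcongr
        exact div_le_one_of_le₀ h1 (by positivity)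
    _ = R.bh G J := one_mul _

lemma ny_le_nc (i : ℕ) : 30 * R.ny G i t ≤ R.nc G i t := by
  have h1 := L_pow_le_Wc G (k := 4) (by norm_num)
  have h3 : 0 < G.L ^ 3 := pow_pos G.L_pos _
  have h2 : 30 * G.L ^ 3 ≤ G.L ^ 4 := by
    have := big_L G
    rw [pow_succ' G.L 3]
    exact mul_le_mul_of_nonneg_right (by linarith) h3.le
  have h4 := G.N_pos i
  have h5 := R.ch_nonneg G i t
  unfold Raw.ny Raw.nc
  calc 30 * (G.N i * (G.L ^ 3 * R.ch G i t)) = G.N i * ((30 * G.L ^ 3) * R.ch G i t) := by ring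
    _ ≤ G.N i * (G.Wc * R.ch G i t) := by
        gcongr
        linarith

lemma ch_le_nc (i : ℕ) : 30 * (G.N i * R.ch G i t) ≤ R.nc G i t := by
  have h1 := big_Wc G
  have h4 := G.N_pos i
  have h5 := R.ch_nonneg G i t
  unfold Raw.nc
  calc 30 * (G.N i * R.ch G i t) = G.N i * (30 * R.ch G i t) := by ring
    _ ≤ G.N i * (G.Wc * R.ch G i t) := by
        gcongr
        linarith

lemma up_nl {u : ℝ} (hu : Up G R J t u) {j : ℕ} (hj : J + 1 ≤ j) :
    R.nl G j t ≤ G.θ ^ (j - J - 1) * u := by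
  rcases hj.eq_or_lt with rfl | hj
  · simpa using hu.nw
  · have h1 := hu.l j hj
    have h2 := big_Wc G
    have h3 := R.nl_nonneg G j t
    nlinarith only [h1, h2, h3]

lemma up_nc {u : ℝ} (hu : Up G R J t u) {j : ℕ} (hj : J + 1 ≤ j) :
    R.nc G j t ≤ G.θ ^ (j - J - 1) * u :=
  (hu.y j hj).trans (mul_le_mul_of_nonneg_right (θ_anti G (by omega))
    ((R.nl_nonneg G _ t).trans hu.nw))

/-- The upper levels in terms of the current critical amplitude. -/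
lemma up_sum (H : IsNet G R) (h : Cr0 G R J t) {j : ℕ} (hj : J + 1 ≤ j) :
    R.nl G j t + R.nc G j t ≤ R.bh G J * (1 / 2) ^ (j - J) := by
  have h1 := up_nl h.up hj
  have h2 := up_nc h.up hj
  have h3 := θ_pow_le G (j - J - 1)
  have h4 := xs_bh H J
  have h5 : 0 ≤ G.xs * R.bh G (J + 1) := (mul_pos G.xs_pos (H.bh_pos _)).le
  have h6 : (0 : ℝ) ≤ (1 / 2) ^ (j - J - 1) := by positivity
  have h7 : G.θ ^ (j - J - 1) * (11 * G.xs * R.bh G (J + 1)) ≤
      (1 / 2) ^ (j - J - 1) * (R.bh G J / 4) := by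
    refine mul_le_mul h3 (by linarith only [h4, h5]) (by linarith only [h5]) h6
  rw [show j - J = j - J - 1 + 1 by omega, pow_succ]
  linarith only [h1, h2, h7]

lemma sum_bh (H : IsNet G R) (n : ℕ) :
    ∑ j ∈ Finset.range (n + 1), R.bh G j ≤ 4 / 3 * R.bh G n := by
  induction n with
  | zero =>
    have := H.bh_pos 0
    simp only [zero_add, Finset.range_one, Finset.sum_singleton]
    linarith
  | succ n ih =>
    rw [Finset.sum_range_succ]
    have h1 := H.bh_succ n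
    have h2 := big_Q G
    have h3 := H.bh_pos n
    nlinarith only [ih, h1, h2, h3]

lemma low_bh (H : IsNet G R) (i : ℕ) :
    G.mQ * ∑ j ∈ Finset.range (i + 1 - G.kk), R.bh G j ≤ 4 / 3 * R.bh G i := by
  by_cases hi : G.kk ≤ i
  · obtain ⟨i0, rfl⟩ := Nat.exists_eq_add_of_le' hi
    rw [show i0 + G.kk + 1 - G.kk = i0 + 1 by omega, H.bh_add_kk]
    have h1 := sum_bh H i0
    have h2 := G.mQ_pos
    nlinarith only [h1, h2]
  · rw [show i + 1 - G.kk = 0 by omega]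
    have := H.bh_pos i
    simp only [Finset.range_zero, Finset.sum_empty, mul_zero]
    linarith only [this]

lemma low_le (H : IsNet G R) {f : ℕ → ℝ} {c : ℝ} (hc : 0 ≤ c) (hf : ∀ j, f j ≤ c * R.bh G j)
    (i : ℕ) : G.mQ * ∑ j ∈ Finset.range (i + 1 - G.kk), f j ≤ c * (4 / 3 * R.bh G i) := by
  have h1 : ∑ j ∈ Finset.range (i + 1 - G.kk), f j ≤
      c * ∑ j ∈ Finset.range (i + 1 - G.kk), R.bh G j := by
    rw [Finset.mul_sum]
    exact Finset.sum_le_sum fun j _ => hf j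
  calc G.mQ * ∑ j ∈ Finset.range (i + 1 - G.kk), f j
      ≤ G.mQ * (c * ∑ j ∈ Finset.range (i + 1 - G.kk), R.bh G j) :=
        mul_le_mul_of_nonneg_left h1 G.mQ_pos.le
    _ = c * (G.mQ * ∑ j ∈ Finset.range (i + 1 - G.kk), R.bh G j) := by ring
    _ ≤ c * (4 / 3 * R.bh G i) := mul_le_mul_of_nonneg_left (low_bh H i) hc

lemma Y_succ (H : IsNet G R) (j : ℕ) :
    G.t ^ 21 * (R.bh G (j + 1) ^ 2 / G.N (j + 1) ^ 2) ≤ R.bh G j ^ 2 / G.N j ^ 2 := by
  have h1 := G.L_pos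
  have h2 := G.N_pos j
  rw [H.bh_succ, G.N_succ_sq]
  calc G.t ^ 21 * ((G.Q * R.bh G j) ^ 2 / (G.L ^ 3 * G.N j ^ 2))
      = G.Q ^ 2 * G.t ^ 21 / G.L ^ 3 * (R.bh G j ^ 2 / G.N j ^ 2) := by field_simp
    _ ≤ 1 * (R.bh G j ^ 2 / G.N j ^ 2) := by
        gcongr
        exact div_le_one_of_le₀ G.Q_sq (by positivity)
    _ = _ := one_mul _

lemma Y_add (H : IsNet G R) (j k : ℕ) :
    (G.t ^ 21) ^ k * (R.bh G (j + k) ^ 2 / G.N (j + k) ^ 2) ≤ R.bh G j ^ 2 / G.N j ^ 2 := by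
  induction k with
  | zero => simp
  | succ k ih =>
    rw [pow_succ, mul_assoc, ← add_assoc]
    exact (mul_le_mul_of_nonneg_left (Y_succ H _) (pow_pos (pow_pos G.t_pos _) _).le).trans ih

lemma l1_rot (o : Fin 4) (f : V) : l1 (rot o f) = l1 f := by
  fin_cases o <;> simp [rot, l1_tau, l1_dag]

end SumsA

open SumsA

lemma Up.mono {u u' : ℝ} (h : Up G R J t u) (hu : u ≤ u') : Up G R J t u' :=
  ⟨h.nw.trans hu,
    fun i hi => (h.y i hi).trans (mul_le_mul_of_nonneg_left hu (pow_pos G.θ_pos _).le),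
    fun i hi => (h.l i hi).trans (mul_le_mul_of_nonneg_left hu (pow_pos G.θ_pos _).le)⟩

lemma Bnd.cr0 (H : IsNet G R) {AA : ℕ → ℝ} {E : ℝ} (h : Bnd G R J AA t E) : Cr0 G R J t := by
  have hx := G.xs_pos
  have hx' := xs_le G
  have hb := H.bh_pos (J + 1)
  have hE := h.Ehi
  have hup : Up G R J t (11 * G.xs * R.bh G (J + 1)) := h.up.mono (by
    have : 0 < G.xs * R.bh G (J + 1) := mul_pos hx hb
    nlinarith only [hE, this])
  have hu : ∀ i, J + 1 ≤ i → G.θ ^ (i - J - 1) * (11 * G.xs * R.bh G (J + 1)) ≤ R.bh G i := by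
    intro i hi
    have h1 := θ_pow_le_one G (i - J - 1)
    have h2 := H.bh_mono hi
    have h3 : 11 * G.xs * R.bh G (J + 1) ≤ 1 * R.bh G (J + 1) := by
      gcongr
      linarith only [hx']
    have h4 : 0 ≤ 11 * G.xs * R.bh G (J + 1) := by positivity
    nlinarith only [hx', hb, h1, h2, h4]
  have hhalf : ∀ k : ℕ, (0 : ℝ) ≤ (1 / 2) ^ k := fun k => by positivity
  refine ⟨h.t0, fun i => ?_, fun i => ?_, hup⟩
  · have hbi := H.bh_pos i
    have hun := H.un_pos i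
    have hN := G.N_pos i
    have hhi := H.un_hi i
    rcases lt_trichotomy i J with hi | rfl | hi
    · have hlev : R.lev i t ≤ 64 * R.un G i := by
        refine Real.sqrt_le_iff.2 ⟨by positivity, ?_⟩
        have hb : ∀ o, ‖R.b i o t‖ ^ 2 + ‖R.c i o t‖ ^ 2 ≤ 1024 * R.un G i ^ 2 := by
          intro o
          have h1 := h.oldb i hi o
          have h2 := h.oldc i hi o
          have h3 := h.oldA i hi
          have h4 := hhalf (J + 1 - i)
          have h5 := norm_le_norm_sub_add (R.b i o t) (((AA i * R.un G i : ℝ) : ℂ) • G.φ i)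
          rw [norm_smul, G.norm_φ, Complex.norm_real, Real.norm_eq_abs,
            abs_of_nonneg (mul_nonneg (by linarith only [h3]) hun.le)] at h5
          have h6 : ‖R.b i o t‖ ≤ 11 * R.un G i := by nlinarith only [hun, h1, h3, h4, h5]
          have h7 : ‖R.c i o t‖ ≤ 30 * R.un G i := by nlinarith only [hun, h2, h4]
          have h8 := pow_le_pow_left₀ (norm_nonneg _) h6 2
          have h9 := pow_le_pow_left₀ (norm_nonneg _) h7 2
          nlinarith only [h8, h9]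
        have := Finset.sum_le_sum fun o (_ : o ∈ Finset.univ) => hb o
        simp only [Finset.sum_const, Finset.card_univ, Fintype.card_fin, nsmul_eq_mul] at this
        push_cast at this
        linarith only [this]
      have := mul_le_mul_of_nonneg_left hlev hN.le
      unfold Raw.nl
      linarith only [hbi, hhi, this]
    · have h1 : R.lev i t ≤ 42 * R.un G i := by
        have := h.curl
        nlinarith only [hE, hun, this]
      have := mul_le_mul_of_nonneg_left h1 hN.le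
      unfold Raw.nl
      linarith only [hbi, hhi, this]
    · have := (up_nl hup hi).trans (hu i hi)
      linarith only [hbi, this]
  · have hbi := H.bh_pos i
    rcases lt_trichotomy i J with hi | rfl | hi
    · have h1 := h.oldy i hi
      have h4 := hhalf (J + 1 - i)
      nlinarith only [hbi, h1, h4]
    · have := h.cury
      nlinarith only [hE, hbi, this]
    · have := (up_nc hup hi).trans (hu i hi)
      linarith only [hbi, this]

namespace Cr0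

variable (H : IsNet G R) (h : Cr0 G R J t)

include H h

lemma nu_le (i : ℕ) : R.nu G i t ≤ 11 * R.bh G i := by
  have h1 := h.nl i
  have h2 := h.nc i
  have h3 := ny_le_nc (G := G) (R := R) (t := t) i
  have := H.bh_pos i
  unfold Raw.nu
  linarith

lemma sum_nu (M : ℕ) : ∑ j ∈ Finset.range M, R.nu G j t ≤ G.t ^ 11 * G.Ga * G.am J := by
  have hb := H.bh_pos J
  have h1 := two_sided (f := fun j => R.nu G j t) (J := J) (M := M) (C := 11 * R.bh G J)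
    (by positivity) (fun j => R.nu_nonneg G j t) (fun j hj => ?_) (fun j hj => ?_)
  · have := H.bh_hi J
    linarith
  · have h2 := grow (X := R.bh G) (fun j => by
      have h1 := H.bh_succ j
      have h2 := big_Q G
      have h3 := H.bh_pos j
      nlinarith only [h1, h2, h3]) hj.le
    have h3 := nu_le H h j
    linarith only [h2, h3]
  · rcases hj.eq_or_lt with rfl | hj
    · simpa using nu_le H h J
    · have h2 := up_sum H h hj
      have h3 := ny_le_nc (G := G) (R := R) (t := t) j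
      have h4 := R.ny_nonneg G j t
      have h5 : 0 ≤ R.bh G J * (1 / 2) ^ (j - J) := by positivity
      unfold Raw.nu
      linarith only [h2, h3, h4, h5]

lemma sum_H (M : ℕ) : ∑ j ∈ Finset.range M, G.lam (j + 1) * (R.lev j t + R.ch G j t) ≤
    G.L ^ 5 * (G.lm J / G.N J) := by
  have ht := G.t_pos
  have hL := G.L_pos
  have hQ := G.L_le_Q
  have key : ∀ j, G.lam (j + 1) * (R.lev j t + R.ch G j t) ≤
      G.lam (j + 1) / G.N j * (R.nl G j t + R.nc G j t) := by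
    intro j
    have h1 := ch_le_nc (G := G) (R := R) (t := t) j
    have h2 := G.N_pos j
    have h3 := G.lam_pos (j + 1)
    have h4 := mul_nonneg h2.le (R.ch_nonneg G j t)
    calc G.lam (j + 1) * (R.lev j t + R.ch G j t)
        = G.lam (j + 1) / G.N j * (G.N j * R.lev j t + G.N j * R.ch G j t) := by field_simp
      _ ≤ G.lam (j + 1) / G.N j * (R.nl G j t + R.nc G j t) := by
          unfold Raw.nl
          gcongr
          linarith
  have hpos : ∀ j, 0 < G.lam (j + 1) / G.N j := fun j => div_pos (G.lam_pos _) (G.N_pos _)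
  have hlo : ∀ j, 2 * (G.lam (j + 1) / G.N j * R.bh G j) ≤
      G.lam (j + 1 + 1) / G.N (j + 1) * R.bh G (j + 1) := by
    intro j
    have h1 := G.N_succ_hi j
    have h2 := G.N_pos j
    have h3 := G.N_pos (j + 1)
    have h4 := G.lam_pos (j + 1)
    have h5 := H.bh_pos j
    have h6 := big G (k := 10) (by norm_num)
    rw [G.lam_succ (j + 1), H.bh_succ]
    calc 2 * (G.lam (j + 1) / G.N j * R.bh G j)
        ≤ G.t ^ 10 * (G.lam (j + 1) / G.N j * R.bh G j) := by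
          gcongr
          linarith
      _ = G.t ^ 10 * (G.L * G.lam (j + 1)) / (G.L ^ 2 * G.N j) * (G.L * R.bh G j) := by
          field_simp
      _ ≤ G.t ^ 10 * (G.L * G.lam (j + 1)) / (G.t ^ 10 * G.N (j + 1)) * (G.Q * R.bh G j) := by
          (clear * - ht hL hQ h1 h3 h4 h5; gcongr)
      _ = G.L * G.lam (j + 1) / G.N (j + 1) * (G.Q * R.bh G j) := by field_simp
  have hhi : ∀ j, 2 * (G.lam (j + 1 + 1) / G.N (j + 1)) ≤ G.lam (j + 1) / G.N j := by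
    intro j
    have h1 := G.N_succ_lo j
    have h2 := G.N_pos j
    have h3 := G.N_pos (j + 1)
    have h4 := G.lam_pos (j + 1)
    have h6 := big G (k := 10) (by norm_num)
    rw [G.lam_succ (j + 1)]
    have h7 : G.t ^ 10 * G.L * G.N j ≤ G.N (j + 1) := le_trans (by gcongr) h1
    calc 2 * (G.L * G.lam (j + 1) / G.N (j + 1))
        ≤ G.t ^ 10 * (G.L * G.lam (j + 1) / (G.t ^ 10 * G.L * G.N j)) := by
          gcongr
          linarith
      _ = G.lam (j + 1) / G.N j := by field_simp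
  have hb := H.bh_pos J
  have hJ := hpos J
  have crude : ∀ j, G.lam (j + 1) * (R.lev j t + R.ch G j t) ≤
      40 * (G.lam (j + 1) / G.N j * R.bh G j) := by
    intro j
    have h1 := key j
    have h2 := h.nl j
    have h3 := h.nc j
    have h4 := hpos j
    nlinarith only [h1, h2, h3, h4]
  have h1 := two_sided (f := fun j => G.lam (j + 1) * (R.lev j t + R.ch G j t)) (J := J) (M := M)
    (C := 40 * (G.lam (J + 1) / G.N J * R.bh G J)) (by positivity)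
    (fun j => mul_nonneg (G.lam_pos _).le (add_nonneg (R.lev_nonneg j t) (R.ch_nonneg G j t)))
    (fun j hj => ?_) (fun j hj => ?_)
  · refine h1.trans ?_
    have h2 := H.lam_bh_hi J
    have h3 := G.lam_pos J
    have h4 := G.N_pos J
    have h5 := G.lm_pos J
    have h6 := mul_pos h3 hb
    have h7 : G.t ^ 11 * G.Ga ≤ G.L ^ 4 :=
      ((mul_le_mul_of_nonneg_right (G.pow_le (by norm_num)) G.Ga_pos.le).trans G.Ga_hi).trans
        (G.L_pow_le (by norm_num))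
    rw [G.lam_succ]
    calc 3 * (40 * (G.L * G.lam J / G.N J * R.bh G J))
        = G.L / G.N J * (120 * (G.lam J * R.bh G J)) := by ring
      _ ≤ G.L / G.N J * (G.t ^ 11 * G.Ga * G.lm J) :=
          mul_le_mul_of_nonneg_left (by linarith only [h2, h6]) (by positivity)
      _ ≤ G.L / G.N J * (G.L ^ 4 * G.lm J) := by gcongr
      _ = G.L ^ 5 * (G.lm J / G.N J) := by ring
  · have h2 := grow (X := fun j => G.lam (j + 1) / G.N j * R.bh G j) hlo hj.le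
    have h3 := crude j
    linarith only [h2, h3]
  · rcases hj.eq_or_lt with rfl | hj'
    · simpa using crude J
    · have h2 := up_sum H h hj'
      have h3 := fall (X := fun j => G.lam (j + 1) / G.N j) hhi hj
      have h4 : (1 / 2 : ℝ) ^ (j - J) ≤ 1 := pow_le_one₀ (by norm_num) (by norm_num)
      have h5 : G.lam (j + 1) / G.N j ≤ G.lam (J + 1) / G.N J := by nlinarith only [hJ, h3, h4]
      have h6 : G.lam (j + 1) / G.N j * (R.nl G j t + R.nc G j t) ≤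
          G.lam (J + 1) / G.N J * (R.bh G J * (1 / 2) ^ (j - J)) :=
        mul_le_mul h5 h2 (add_nonneg (R.nl_nonneg G j t) (R.nc_nonneg G j t)) hJ.le
      have h7 : 0 ≤ G.lam (J + 1) / G.N J * (R.bh G J * (1 / 2) ^ (j - J)) := by positivity
      have h8 := key j
      linarith only [h6, h7, h8]

lemma Low_le (i : ℕ) : G.mQ * R.Low G i t ≤ 20 * R.bh G i := by
  have h1 := low_le H (f := fun j => R.nu G j t) (c := 11) (by norm_num) (nu_le H h) i
  have h2 := H.bh_pos i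
  simp only [Raw.nu, Finset.sum_add_distrib] at h1
  unfold Raw.Low Raw.LowL Raw.LowY
  linarith

lemma LowL_le (i : ℕ) : G.mQ * R.LowL G i t ≤ 20 * R.bh G i := by
  have h1 := low_le H (f := fun j => R.nl G j t) (c := 10) (by norm_num) h.nl i
  have h2 := H.bh_pos i
  unfold Raw.LowL
  linarith

lemma LowY_le (i : ℕ) : G.Wc * G.mQ * R.LowY G i t ≤ 40 * G.L ^ 3 * R.bh G i := by
  have hW := G.Wc_pos
  have ht := G.L_pos
  have h1 := low_le H (f := fun j => R.ny G j t) (c := G.L ^ 3 / G.Wc * 30) (by positivity)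
    (fun j => by
      rw [R.ny_eq, mul_assoc]
      exact mul_le_mul_of_nonneg_left (h.nc j) (by positivity)) i
  unfold Raw.LowY
  rw [mul_assoc]
  refine (mul_le_mul_of_nonneg_left h1 hW.le).trans (le_of_eq ?_)
  field_simp
  ring

lemma ET_le (m : ℕ) : G.N m ^ 2 * R.ET m t ≤ 10 ^ 7 * R.bh G m ^ 2 := by
  have hN := G.N_pos m
  have h1 := H.ET_le m t (2 * (101 * (R.bh G m ^ 2 / G.N m ^ 2))) h.t0 fun M =>
    high_le (by positivity) fun j hj => by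
      have h2 := fall (X := fun j => R.bh G j ^ 2 / G.N j ^ 2) (fun j => by
        have h1 := Y_succ H j
        have h2 := big G (k := 21) (by norm_num)
        have h3 : 0 ≤ R.bh G (j + 1) ^ 2 / G.N (j + 1) ^ 2 := by positivity
        nlinarith only [h1, h2, h3]) hj
      have hNj := G.N_pos j
      have h3 : R.lev j t ≤ 10 * (R.bh G j / G.N j) := by
        rw [← mul_div_assoc, le_div_iff₀' hNj]
        exact h.nl j
      have h4 : R.ch G j t ≤ R.bh G j / G.N j := by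
        rw [le_div_iff₀' hNj]
        have := ch_le_nc (G := G) (R := R) (t := t) j
        have := h.nc j
        linarith
      have h5 := pow_le_pow_left₀ (R.lev_nonneg j t) h3 2
      have h6 := pow_le_pow_left₀ (R.ch_nonneg G j t) h4 2
      rw [mul_pow, div_pow] at h5
      rw [div_pow] at h6
      linarith only [h2, h5, h6]
  calc G.N m ^ 2 * R.ET m t ≤ G.N m ^ 2 * (10 ^ 4 * (2 * (101 * (R.bh G m ^ 2 / G.N m ^ 2)))) := by
        gcongr
    _ = 2020000 * R.bh G m ^ 2 := by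
        field_simp
        ring
    _ ≤ 10 ^ 7 * R.bh G m ^ 2 := by
        gcongr
        norm_num

/-- The backscatter from much higher levels. -/
lemma ET_far (i : ℕ) : G.m1 * (G.N i ^ 2 * R.ET (i + G.kk - 1) t) ≤
    10 ^ 7 * G.t ^ 21 * R.bh G i ^ 2 := by
  obtain ⟨k, hk⟩ : ∃ k, G.kk = k + 1 := ⟨G.kk - 1, by have := G.ten_le_kk; omega⟩
  have hm : G.m1 = G.t ^ 21 * (G.t ^ 21) ^ k := by
    unfold Geo.m1
    rw [hk, pow_succ' (G.t ^ 21)]
  rw [show i + G.kk - 1 = i + k by omega, hm]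
  have h1 := ET_le H h (i + k)
  have h2 := Y_add H i k
  have h3 := G.N_pos i
  have h4 := G.N_pos (i + k)
  have ht := G.t_pos
  have h5 : R.ET (i + k) t ≤ 10 ^ 7 * (R.bh G (i + k) ^ 2 / G.N (i + k) ^ 2) := by
    rw [← mul_div_assoc, le_div_iff₀' (by positivity)]
    exact h1
  calc G.t ^ 21 * (G.t ^ 21) ^ k * (G.N i ^ 2 * R.ET (i + k) t)
      ≤ G.t ^ 21 * (G.t ^ 21) ^ k *
          (G.N i ^ 2 * (10 ^ 7 * (R.bh G (i + k) ^ 2 / G.N (i + k) ^ 2))) := by gcongr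
    _ = 10 ^ 7 * G.t ^ 21 * (G.N i ^ 2 *
          ((G.t ^ 21) ^ k * (R.bh G (i + k) ^ 2 / G.N (i + k) ^ 2))) := by ring
    _ ≤ 10 ^ 7 * G.t ^ 21 * (G.N i ^ 2 * (R.bh G i ^ 2 / G.N i ^ 2)) := by gcongr
    _ = 10 ^ 7 * G.t ^ 21 * R.bh G i ^ 2 := by field_simp

lemma ET_up {u : ℝ} (hu : Up G R J t u) {m : ℕ} (hm : J + 2 ≤ m) :
    G.Wc ^ 2 * (G.N m ^ 2 * R.ET m t) ≤ G.θ ^ (2 * (m - J - 1)) * (R.bh G (J + 1) * u) := by
  have hu0 : 0 ≤ u := (R.nl_nonneg G _ t).trans hu.nw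
  have hN := G.N_pos m
  have hW := G.Wc_pos
  have hθ := G.θ_pos
  have hb := H.bh_pos (J + 1)
  have hx := G.xs_pos
  obtain ⟨u0, hu0e⟩ : ∃ u0, u0 = 11 * G.xs * R.bh G (J + 1) := ⟨_, rfl⟩
  have hup := h.up
  rw [← hu0e] at hup
  have hu00 : 0 ≤ u0 := by rw [hu0e]; positivity
  have h1 := H.ET_le m t
    (2 * (2 * (G.θ ^ (2 * (m - J - 1)) * (u0 * u)) / (G.Wc ^ 2 * G.N m ^ 2))) h.t0 fun M =>
    high_le (by positivity) fun j hj => by
      have hNj := G.N_mono hj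
      have a1 : 0 ≤ G.Wc * R.nl G j t := mul_nonneg hW.le (R.nl_nonneg G j t)
      have a2 := mul_le_mul (hup.l j (by omega)) (hu.l j (by omega)) a1 (by positivity)
      have a3 := mul_le_mul (up_nc hup (j := j) (by omega)) (up_nc hu (j := j) (by omega))
        (R.nc_nonneg G j t) (by positivity)
      have a4 : G.θ ^ (j - J - 1) * u0 * (G.θ ^ (j - J - 1) * u) ≤
          G.θ ^ (2 * (m - J - 1)) * (u0 * u) * (1 / 2) ^ (j - m) := by
        have b1 : G.θ ^ (j - J - 1) * G.θ ^ (j - J - 1) ≤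
            G.θ ^ (2 * (m - J - 1)) * (1 / 2) ^ (j - m) := by
          rw [← pow_add]
          refine (θ_anti G (a := 2 * (m - J - 1) + (j - m)) (by omega)).trans ?_
          rw [pow_add]
          exact mul_le_mul_of_nonneg_left (θ_pow_le G _) (by positivity)
        have b2 := mul_le_mul_of_nonneg_right b1 (mul_nonneg hu00 hu0)
        linarith only [b2]
      rw [div_mul_eq_mul_div, le_div_iff₀ (by positivity)]
      have a5 : (R.lev j t ^ 2 + R.ch G j t ^ 2) * (G.Wc ^ 2 * G.N m ^ 2) ≤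
          (R.lev j t ^ 2 + R.ch G j t ^ 2) * (G.Wc ^ 2 * G.N j ^ 2) := by (clear * - hN hW hNj; gcongr)
      unfold Raw.nl at a2
      unfold Raw.nc at a3
      linarith only [a2, a3, a4, a5]
  have hx' := xs_le G
  calc G.Wc ^ 2 * (G.N m ^ 2 * R.ET m t)
      ≤ G.Wc ^ 2 * (G.N m ^ 2 * (10 ^ 4 * (2 * (2 * (G.θ ^ (2 * (m - J - 1)) * (u0 * u)) /
          (G.Wc ^ 2 * G.N m ^ 2))))) := by gcongr
    _ = (440000 * G.xs) * (G.θ ^ (2 * (m - J - 1)) * (R.bh G (J + 1) * u)) := by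
        rw [hu0e]
        field_simp
        ring
    _ ≤ 1 * (G.θ ^ (2 * (m - J - 1)) * (R.bh G (J + 1) * u)) := by
        gcongr
        linarith only [hx']
    _ = _ := one_mul _

lemma l1_Z_le (j : ℕ) (o : Fin 4) : G.mQ * l1 (R.Z G j o t) ≤ 10 ^ 3 * R.bh G j := by
  have hb := H.bh_pos j
  unfold Raw.Z
  split_ifs with hj
  · obtain ⟨i, rfl⟩ := Nat.exists_eq_add_of_le' hj
    rw [l1_rot, Nat.add_sub_cancel, H.bh_add_kk]
    have h1 := l1_add_le (R.B G i t) ((R.cq o : ℂ) • (sh ![0, G.P (i - 1), 0] * R.Cc G i t))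
    rw [l1_smul, l1_sh_mul, Complex.norm_real, Real.norm_eq_abs] at h1
    have h2 := H.l1_B_le i t
    have h3 := H.l1_C_le i t
    have h4 := h.nl i
    have h5 : |R.cq o| ≤ 1 := by
      have a1 := H.cq_le' o
      have a2 := big G (k := 10) (by norm_num)
      have a3 := abs_nonneg (R.cq o)
      nlinarith only [a1, a2]
    have h6 := mul_le_of_le_one_left (l1_nonneg (R.Cc G i t)) h5
    have h7 := H.bh_pos i
    have h8 := G.mQ_pos
    rw [mul_left_comm]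
    refine mul_le_mul_of_nonneg_left ?_ h8.le
    linarith only [h1, h2, h3, h4, h6, h7]
  · rw [l1_zero, mul_zero]
    positivity

lemma f_le (j : ℕ) (o : Fin 4) : G.m0 * G.mQ * ‖R.f G j o t‖ ≤
    10 ^ 3 * G.t ^ 11 * (G.lam (j + 1) * R.bh G (j + 1)) * ‖R.y j G.La t‖ := by
  have h1 := l1_Z_le H h (j + 1) o
  have h2 := (norm_pj_le (G.rc (j + 1)) _).trans
    (norm_mul_le_l1' (R.y j G.La t) (R.Z G (j + 1) o t))
  have h3 := H.cf_lo
  have h4 := H.cf_hi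
  have h5 := G.m0_pos
  have h5' := G.mQ_pos
  have h6 := G.lam_pos (j + 1)
  have h7 : 0 ≤ R.cf * (2 * Real.pi * G.n (j + 1)) := by positivity
  have h8 := l1_nonneg (R.Z G (j + 1) o t)
  have ht := G.t_pos
  unfold Raw.f
  rw [norm_smul, Complex.norm_real, Real.norm_eq_abs, abs_of_nonneg h7]
  calc G.m0 * G.mQ * (R.cf * (2 * Real.pi * G.n (j + 1)) *
        ‖pj (G.rc (j + 1)) (R.y j G.La t * R.Z G (j + 1) o t)‖)
      ≤ G.m0 * G.mQ * (R.cf * (2 * Real.pi * G.n (j + 1)) *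
        (‖R.y j G.La t‖ * l1 (R.Z G (j + 1) o t))) := by gcongr
    _ = R.cf * (G.lam (j + 1) * (G.mQ * l1 (R.Z G (j + 1) o t))) * ‖R.y j G.La t‖ := by
        rw [G.lam_eq]
        ring
    _ ≤ G.t ^ 11 * (G.lam (j + 1) * (10 ^ 3 * R.bh G (j + 1))) * ‖R.y j G.La t‖ := by gcongr
    _ = _ := by ring

end Cr0

/-- The old levels are drivers. -/
lemma Bnd.old (H : IsNet G R) {AA : ℕ → ℝ} {E : ℝ} (h : Bnd G R J AA t E) {i : ℕ} (hi : i < J) :
    |R.aa G i t - AA i| ≤ 1 / 10 ^ 19 ∧ l1 (R.B G i t) ≤ 11 * R.bh G i ∧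
      ∃ mv κ, Drv G.t (G.rB i) mv κ (R.pB G i t) := by
  have hun := H.un_pos i
  have hA := h.oldA i hi
  have hb := H.bh_pos i
  have hc : ∀ o, ‖R.b i o t - ((AA i * R.un G i : ℝ) : ℂ) • G.φ i‖ ≤ 1 / 10 ^ 20 * R.un G i := by
    intro o
    have h1 := h.oldb i hi o
    have h2 : (0 : ℝ) ≤ (1 / 2) ^ (J + 1 - i) := by positivity
    nlinarith only [hun, h1, h2]
  have hc' : ∀ o, ‖R.b i o t - ((AA i * R.un G i : ℝ) : ℂ) • G.φ i‖ ≤
      1 / 10 ^ 20 * (AA i * R.un G i) := fun o => (hc o).trans (by nlinarith only [hun, hA])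
  obtain ⟨h1, h2⟩ := H.aa_close (by norm_num) hc
  refine ⟨h1.trans (by norm_num), h2.trans ?_, _, _,
    H.drv_of_close (a2 := 2 / 10 ^ 20) (mul_pos (by linarith only [hA]) hun) (by norm_num) (by norm_num)
      hc' fun o o' => ?_⟩
  · rw [abs_of_nonneg (by linarith only [hA])]
    nlinarith only [hA, hb]
  · have h3 := norm_sub_le_norm_sub_add_norm_sub (R.b i o t)
      (((AA i * R.un G i : ℝ) : ℂ) • G.φ i) (R.b i o' t)
    rw [norm_sub_rev (((AA i * R.un G i : ℝ) : ℂ) • G.φ i) (R.b i o' t)] at h3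
    have h4 := hc' o
    have h5 := hc' o'
    linarith only [h3, h4, h5]

end

end Pool.Agent.Work.MP_6bf1e5_an.Hyp
end

-- merged part: Pool.Agent.Work.MP_6bf1e5_an.Hyp.Sums
section
/-!
Bounds of the errors.
-/

open Set Complex Filter Topology
open scoped InnerProductSpace ComplexConjugate
open Pool.Agent.Work.MP_6bf1e5_an.B (Z3 R3)
open Pool.Agent.Work.MP_6bf1e5_an.Hyp.Dec

namespace Pool.Agent.Work.MP_6bf1e5_an.Hyp

noncomputable section

namespace Geo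

variable (G : Geo)

/-- A very small number. -/
def ss : ℝ := Real.exp (-(3 * G.E)) / G.L ^ 300

lemma ss_pos : 0 < G.ss := by have := G.L_pos; unfold ss; positivity

lemma ss_mul : G.L ^ 300 * G.ss = Real.exp (-(3 * G.E)) := by
  have := G.L_pos; unfold ss; field_simp

lemma ss_mul_le : G.L ^ 300 * G.ss ≤ 1 := by
  rw [G.ss_mul, Real.exp_le_one_iff]
  have := G.E_pos
  linarith

lemma pow_ss_le {k : ℕ} (hk : k ≤ 300) : G.L ^ k * G.ss ≤ 1 :=
  (mul_le_mul_of_nonneg_right (G.L_pow_le hk) G.ss_pos.le).trans G.ss_mul_le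

lemma ss_le_one : G.ss ≤ 1 := by simpa using G.pow_ss_le (k := 0) (by norm_num)

lemma sb_t_le_L {k : ℕ} (hk : k ≤ 21) : G.t ^ k ≤ G.L := (G.pow_le hk).trans G.L_lo

lemma sb_t_le_L_sq {k : ℕ} (hk : k ≤ 42) : G.t ^ k ≤ G.L ^ 2 :=
  calc G.t ^ k ≤ G.t ^ 42 := G.pow_le hk
    _ = (G.t ^ 21) ^ 2 := by ring
    _ ≤ G.L ^ 2 := pow_le_pow_left₀ (pow_pos G.t_pos _).le G.L_lo 2

lemma sb_L_big : (10 : ℝ) ^ 100 ≤ G.L := by
  have h := G.sb_t_le_L (k := 1) (by norm_num)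
  rw [pow_one] at h
  exact G.t_big.trans h

lemma sb_L_pow_lt {a b : ℕ} (h : a < b) : 10 ^ 100 * G.L ^ a ≤ G.L ^ b :=
  calc 10 ^ 100 * G.L ^ a ≤ G.L * G.L ^ a :=
        mul_le_mul_of_nonneg_right G.sb_L_big (pow_pos G.L_pos _).le
    _ = G.L ^ (a + 1) := by ring
    _ ≤ G.L ^ b := G.L_pow_le h

lemma sb_Ga_hi : G.t ^ 21 * G.Ga ≤ G.L ^ 3 := by
  have h1 := G.lions
  have h2 : G.L ^ 2 * (G.t ^ 21 * G.Ga) ≤ G.Ga * (G.t ^ 21 * G.Ga) :=
    mul_le_mul_of_nonneg_right G.Ga_lo (mul_pos (pow_pos G.t_pos _) G.Ga_pos).le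
  refine le_of_mul_le_mul_left ?_ (pow_pos G.L_pos 2)
  calc G.L ^ 2 * (G.t ^ 21 * G.Ga) ≤ G.Ga * (G.t ^ 21 * G.Ga) := h2
    _ = G.Ga ^ 2 * G.t ^ 21 := by ring
    _ ≤ G.L ^ 5 := h1
    _ = _ := by ring

lemma sb_Ga_hi' : G.t ^ 11 * G.Ga ≤ G.L ^ 3 :=
  (mul_le_mul_of_nonneg_right (G.pow_le (by norm_num)) G.Ga_pos.le).trans G.sb_Ga_hi

lemma sb_E_le_Ga : 10 ^ 100 * G.E ≤ G.Ga := by
  have h1 : G.E ≤ G.Q := by
    rw [← G.E_mul]
    exact le_mul_of_one_le_left G.E_pos.le (one_le_pow₀ G.one_le_t)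
  calc 10 ^ 100 * G.E ≤ G.L * G.Q := mul_le_mul G.sb_L_big h1 G.E_pos.le G.L_pos.le
    _ = G.Ga := by rw [mul_comm, G.Q_mul_L]

lemma exp_le_ss {a b : ℝ} (hab : a + 4 * G.E ≤ b) : Real.exp a ≤ G.ss * Real.exp b := by
  have ht := G.t_pos
  have hL := G.L_pos
  have h1 : G.L ^ 300 ≤ Real.exp G.E := by
    refine (G.L_pow_le_exp (by norm_num)).trans (Real.exp_le_exp.2 ?_)
    have h2 : G.t ^ 1 ≤ G.t ^ 19 := G.pow_le (by norm_num)
    rw [pow_one] at h2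
    exact (div_le_self ht.le (by norm_num)).trans (h2.trans G.E_lo)
  unfold ss
  rw [div_mul_eq_mul_div, le_div_iff₀ (pow_pos hL _)]
  calc Real.exp a * G.L ^ 300 ≤ Real.exp a * Real.exp G.E :=
        mul_le_mul_of_nonneg_left h1 (Real.exp_pos _).le
    _ = Real.exp (a + G.E) := by rw [Real.exp_add]
    _ ≤ Real.exp (-(3 * G.E) + b) := Real.exp_le_exp.2 (by linarith)
    _ = _ := by rw [Real.exp_add]

lemma tau0_le_ss : G.tau0 ≤ G.ss := by
  have h := G.exp_le_ss (a := -(99 * G.E)) (b := 0) (by have := G.E_pos; linarith)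
  rw [Real.exp_zero, mul_one] at h
  exact G.tau0_le.trans h

lemma one_le_ss_m1 : 1 ≤ G.ss * G.m1 := by
  have h := G.exp_le_ss (a := 0) (b := 100 * G.E) (by have := G.E_pos; linarith)
  rw [Real.exp_zero] at h
  exact h.trans (mul_le_mul_of_nonneg_left G.m1_lo G.ss_pos.le)

lemma one_le_ss_m0 : 1 ≤ G.ss * G.m0 :=
  G.one_le_ss_m1.trans (mul_le_mul_of_nonneg_left G.m1_le_m0 G.ss_pos.le)

lemma one_le_ss_mQ : 1 ≤ G.ss * G.mQ :=
  G.one_le_ss_m0.trans (mul_le_mul_of_nonneg_left G.m0_le_mQ G.ss_pos.le)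

lemma sb_one_le_m0 : 1 ≤ G.m0 :=
  G.one_le_ss_m0.trans (by simpa using mul_le_mul_of_nonneg_right G.ss_le_one G.m0_pos.le)

lemma sb_one_le_mm : 1 ≤ G.m0 * G.mQ :=
  one_le_mul_of_one_le_of_one_le G.sb_one_le_m0 (G.sb_one_le_m0.trans G.m0_le_mQ)

lemma m0_le_ss_Wc : G.m0 ≤ G.ss * G.Wc := by
  refine G.m0_hi.trans (G.exp_le_ss ?_)
  have h1 : 10 ^ 100 * G.E ≤ G.W := by
    rw [G.W_eq]
    exact mul_le_mul_of_nonneg_right G.t_big G.E_pos.le
  have h2 := G.E_pos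
  linarith

lemma one_le_ss_Wc : 1 ≤ G.ss * G.Wc := G.sb_one_le_m0.trans G.m0_le_ss_Wc

lemma sb_one_le_Wc : 1 ≤ G.Wc :=
  G.one_le_ss_Wc.trans (by simpa using mul_le_mul_of_nonneg_right G.ss_le_one G.Wc_pos.le)

lemma ss_fifty : Real.exp (G.t ^ 8 * G.Ga) ≤ G.ss * Real.exp (G.Ga ^ 2) := by
  refine G.exp_le_ss ?_
  have h1 : 10 ^ 100 * G.t ^ 8 ≤ G.Ga := (G.pow_lt (by norm_num)).trans G.t_le_Ga
  have h2 : 10 ^ 100 * G.t ^ 8 * G.Ga ≤ G.Ga * G.Ga := mul_le_mul_of_nonneg_right h1 G.Ga_pos.le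
  have h3 : G.Ga ≤ G.t ^ 8 * G.Ga := le_mul_of_one_le_left G.Ga_pos.le (one_le_pow₀ G.one_le_t)
  have h4 := G.sb_E_le_Ga
  have h5 := G.E_pos
  rw [sq]
  linarith

lemma ss_thirty : 1 ≤ G.ss * Real.exp G.Ga := by
  have h1 := G.sb_E_le_Ga
  have h3 := G.E_pos
  have h := G.exp_le_ss (a := 0) (b := G.Ga) (by linarith)
  rwa [Real.exp_zero] at h

lemma sb_N_succ (j : ℕ) : G.N (j + 1) ≤ G.L ^ 2 * G.N j :=
  (le_mul_of_one_le_left (G.N_pos _).le (one_le_pow₀ G.one_le_t)).trans (G.N_succ_hi j)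

lemma sb_θ_pow (k : ℕ) : G.θ ^ k ≤ 1 :=
  pow_le_one₀ G.θ_pos.le (inv_le_one_of_one_le₀ (one_le_pow₀ G.one_le_t))

end Geo

/-- Division by a huge number. -/
lemma sb_huge {s M x c : ℝ} (hs : 0 ≤ s) (hM : 1 ≤ s * M) (hx : 0 ≤ x) (h : M * x ≤ c) :
    x ≤ s * c :=
  calc x ≤ s * M * x := le_mul_of_one_le_left hx hM
    _ = s * (M * x) := by ring
    _ ≤ s * c := mul_le_mul_of_nonneg_left h hs

lemma sb_eb_num {T s b u x y z p L E τ : ℝ} (hT : 10 ^ 100 ≤ T) (hs : 0 ≤ s) (hb : 0 ≤ b)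
    (hu : 0 ≤ u) (hx0 : 0 ≤ x) (hy0 : 0 ≤ y) (hz0 : 0 ≤ z) (hp0 : 0 ≤ p)
    (hx : x ≤ u) (hx' : x ≤ 10 * b) (hy : y ≤ s * u) (hy' : y ≤ 30 * b) (hz : z ≤ 10 * b)
    (hp : p ≤ 11 * b) (hL : L ≤ s * (20 * b)) (hE : E ≤ 10 ^ 7 * T * (s * b * u))
    (hτ : τ ≤ s) :
    τ * p * x + T ^ 3 * y * (y + x + z) + z * (z + y) + L * x + E ≤
      z ^ 2 + T ^ 4 * (s * b * u) := by
  have hT1 : 1 ≤ T := le_trans (by norm_num) hT
  have hT0 : 0 ≤ T := zero_le_one.trans hT1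
  have hX : 0 ≤ s * b * u := by positivity
  have h1 : τ * p * x ≤ 11 * (s * b * u) :=
    calc τ * p * x ≤ s * (11 * b) * u := by gcongr
      _ = _ := by ring
  have h2 : T ^ 3 * y * (y + x + z) ≤ 50 * T ^ 3 * (s * b * u) :=
    calc T ^ 3 * y * (y + x + z) ≤ T ^ 3 * (s * u) * (30 * b + 10 * b + 10 * b) := by gcongr
      _ = _ := by ring
  have h3 : z * y ≤ 10 * (s * b * u) :=
    calc z * y ≤ 10 * b * (s * u) := by gcongr
      _ = _ := by ring
  have h4 : L * x ≤ 20 * (s * b * u) :=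
    calc L * x ≤ s * (20 * b) * u := by gcongr
      _ = _ := by ring
  have h5 : T * (s * b * u) ≤ T ^ 3 * (s * b * u) :=
    mul_le_mul_of_nonneg_right (le_self_pow₀ hT1 (by norm_num)) hX
  have h6 : 1 * (s * b * u) ≤ T ^ 3 * (s * b * u) := by gcongr; exact one_le_pow₀ hT1
  have h7 : 10 ^ 100 * (T ^ 3 * (s * b * u)) ≤ T ^ 4 * (s * b * u) :=
    calc 10 ^ 100 * (T ^ 3 * (s * b * u)) ≤ T * (T ^ 3 * (s * b * u)) := by gcongr
      _ = _ := by ring
  have h8 : 0 ≤ T ^ 3 * (s * b * u) := mul_nonneg (pow_nonneg hT0 _) hX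
  have h9 : z * (z + y) = z ^ 2 + z * y := by ring
  linarith

lemma sb_ec_num {T s b u x p L E τ : ℝ} (hT : 10 ^ 100 ≤ T) (hs : 0 ≤ s) (hb : 0 ≤ b)
    (hu : 0 ≤ u) (hx0 : 0 ≤ x) (hp0 : 0 ≤ p) (hx : x ≤ u)
    (hp : p ≤ 11 * b) (hL : L ≤ s * (20 * b)) (hE : E ≤ 10 ^ 7 * T * (s * b * u))
    (hτ : τ ≤ s) : τ * p * x + L * x + E ≤ T ^ 2 * (s * b * u) := by
  have hT1 : 1 ≤ T := le_trans (by norm_num) hT
  have hT0 : 0 ≤ T := zero_le_one.trans hT1
  have hX : 0 ≤ s * b * u := by positivity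
  have h1 : τ * p * x ≤ 11 * (s * b * u) :=
    calc τ * p * x ≤ s * (11 * b) * u := by gcongr
      _ = _ := by ring
  have h4 : L * x ≤ 20 * (s * b * u) :=
    calc L * x ≤ s * (20 * b) * u := by gcongr
      _ = _ := by ring
  have h6 : 1 * (s * b * u) ≤ T * (s * b * u) := by gcongr
  have h7 : 10 ^ 100 * (T * (s * b * u)) ≤ T ^ 2 * (s * b * u) :=
    calc 10 ^ 100 * (T * (s * b * u)) ≤ T * (T * (s * b * u)) := by gcongr
      _ = _ := by ring
  linarith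

variable {G : Geo} {R : Raw} {J : ℕ} {t : ℝ}

/-- The basic comparison of the quadratic terms with the damping. -/
lemma IsNet.sb_lam_bh_sq (H : IsNet G R) (i : ℕ) :
    10 ^ 46 * (G.lam i * R.bh G i ^ 2) ≤ G.t ^ 11 * G.Ga * (G.N i * (G.d i * R.un G i)) := by
  have h1 := H.lam_bh_hi i
  have h2 := H.un_lo i
  have h3 := G.lam_pos i
  have h4 := H.bh_pos i
  have h5 := G.t_pos
  have h5' := G.Ga_pos
  have h5'' := G.lm_pos i
  have h8 : 10 ^ 48 * (G.lam i * R.bh G i) * R.bh G i ≤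
      G.t ^ 11 * G.Ga * G.lm i * (60 * (G.N i * R.un G i)) :=
    mul_le_mul h1 h2 h4.le (by positivity)
  have h9 : 0 ≤ G.lam i * R.bh G i ^ 2 := by positivity
  unfold Geo.d
  linarith

lemma IsNet.sb_lam_bh_sq' (H : IsNet G R) (i : ℕ) :
    10 ^ 46 * (G.lam i * R.bh G i ^ 2) ≤ G.L ^ 3 * (G.N i * (G.d i * R.un G i)) :=
  (H.sb_lam_bh_sq i).trans (mul_le_mul_of_nonneg_right G.sb_Ga_hi'
    (mul_pos (G.N_pos i) (mul_pos (G.d_pos i) (H.un_pos i))).le)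

lemma IsNet.sb_bh_le_lam (H : IsNet G R) (i : ℕ) : G.lam i * R.bh G i ≤ G.L ^ 3 * G.lm i := by
  have h1 := H.lam_bh_hi i
  have h4 := mul_pos (G.lam_pos i) (H.bh_pos i)
  have h2 := mul_le_mul_of_nonneg_right G.sb_Ga_hi' (G.lm_pos i).le
  linarith

namespace Cr0

variable (H : IsNet G R) (h : Cr0 G R J t)

include h in
lemma sb_Nch (i : ℕ) : G.N i * R.ch G i t ≤ G.ss * (30 * R.bh G i) := by
  refine sb_huge G.ss_pos.le G.one_le_ss_Wc (mul_nonneg (G.N_pos i).le (R.ch_nonneg G i t)) ?_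
  have := h.nc i
  unfold Raw.nc at this
  linarith

omit h in
lemma sb_Nlev_sq (i : ℕ) : G.L ^ 3 * (G.N i * R.lev (i + 1) t) ^ 2 = R.nl G (i + 1) t ^ 2 := by
  unfold Raw.nl
  rw [mul_pow, mul_pow, G.N_succ_sq]; ring

include H h

lemma sb_Nch' (i : ℕ) : G.N i * R.ch G i t ≤ 30 * R.bh G i := by
  have := h.sb_Nch i
  have h1 := G.ss_le_one
  have h2 := H.bh_pos i
  nlinarith only [this, h1, h2]

lemma sb_Nlev_sq_le (i : ℕ) : G.t ^ 21 * (G.N i * R.lev (i + 1) t) ^ 2 ≤ 100 * R.bh G i ^ 2 := by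
  have h1 := sb_Nlev_sq (G := G) (R := R) (t := t) i
  have h2 := h.nl (i + 1)
  rw [H.bh_succ] at h2
  have h3 : R.nl G (i + 1) t ^ 2 ≤ (10 * (G.Q * R.bh G i)) ^ 2 :=
    pow_le_pow_left₀ (R.nl_nonneg G _ t) h2 2
  have h4 : 0 < G.Q ^ 2 := pow_pos G.Q_pos _
  refine le_of_mul_le_mul_left ?_ h4
  calc G.Q ^ 2 * (G.t ^ 21 * (G.N i * R.lev (i + 1) t) ^ 2)
      = G.Q ^ 2 * G.t ^ 21 * (G.N i * R.lev (i + 1) t) ^ 2 := by ring
    _ ≤ G.L ^ 3 * (G.N i * R.lev (i + 1) t) ^ 2 :=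
        mul_le_mul_of_nonneg_right G.Q_sq (sq_nonneg _)
    _ ≤ (10 * (G.Q * R.bh G i)) ^ 2 := h1 ▸ h3
    _ = _ := by ring

lemma sb_Nlev_le (i : ℕ) : G.N i * R.lev (i + 1) t ≤ 10 * R.bh G i := by
  have h1 := h.sb_Nlev_sq_le H i
  have h2 : 1 ≤ G.t ^ 21 := one_le_pow₀ G.one_le_t
  have h3 := H.bh_pos i
  have h4 : (G.N i * R.lev (i + 1) t) ^ 2 ≤ (10 * R.bh G i) ^ 2 := by
    nlinarith only [h1, h2, sq_nonneg (G.N i * R.lev (i + 1) t)]
  exact le_of_pow_le_pow_left₀ two_ne_zero (by positivity) h4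

lemma sb_pv_le (i : ℕ) : 0 ≤ R.pv G i t ∧ R.pv G i t ≤ 11 * R.bh G i := by
  cases i with
  | zero => have := H.bh_pos 0; simp only [Raw.pv]; exact ⟨le_rfl, by positivity⟩
  | succ i =>
    simp only [Raw.pv]
    have h1 := h.nu_le H i
    have h2 := H.bh_mono (Nat.le_succ i)
    exact ⟨R.nu_nonneg G i t, by linarith⟩

lemma sb_Low_le (i : ℕ) : R.Low G i t ≤ G.ss * (20 * R.bh G i) :=
  sb_huge G.ss_pos.le G.one_le_ss_mQ (R.Low_nonneg G i t) (h.Low_le H i)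

lemma sb_ET_far (i : ℕ) : G.N i ^ 2 * R.ET (i + G.kk - 1) t ≤
    10 ^ 7 * G.L * (G.ss * R.bh G i * (30 * R.bh G i)) := by
  have h1 := sb_huge G.ss_pos.le G.one_le_ss_m1
    (mul_nonneg (sq_nonneg _) (H.ET_nonneg _ t)) (h.ET_far H i)
  have h0 : 0 ≤ G.ss * R.bh G i ^ 2 := mul_nonneg G.ss_pos.le (sq_nonneg _)
  have h2 : 0 ≤ G.L * (G.ss * R.bh G i ^ 2) := mul_nonneg G.L_pos.le h0
  have h3 := mul_le_mul_of_nonneg_right G.L_lo h0
  linarith

/-- The error in the equation of the first comb. -/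
lemma sb_eb_core (i : ℕ) {u : ℝ} (hu : 0 ≤ u) (hx : R.nl G i t ≤ u)
    (hy : G.N i * R.ch G i t ≤ G.ss * u)
    (hE : G.N i ^ 2 * R.ET (i + G.kk - 1) t ≤ 10 ^ 7 * G.L * (G.ss * R.bh G i * u)) :
    G.N i * R.eb G i t ≤ 10 ^ 6 * G.lam i *
      ((G.N i * R.lev (i + 1) t) ^ 2 + G.L ^ 4 * (G.ss * R.bh G i * u)) +
        10 * (G.N i * R.Jk t) := by
  have hN := G.N_pos i
  have h1 := sb_eb_num G.sb_L_big G.ss_pos.le (H.bh_pos i).le hu (R.nl_nonneg G i t)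
    (mul_nonneg hN.le (R.ch_nonneg G i t)) (mul_nonneg hN.le (R.lev_nonneg (i + 1) t))
    (h.sb_pv_le H i).1 hx (h.nl i) hy (h.sb_Nch' H i) (h.sb_Nlev_le H i) (h.sb_pv_le H i).2
    (h.sb_Low_le H i) hE G.tau0_le_ss
  have h2 := mul_le_mul_of_nonneg_left h1 (show 0 ≤ 10 ^ 6 * G.lam i by
    have := G.lam_pos i; positivity)
  refine le_trans (le_of_eq ?_) (add_le_add h2 le_rfl)
  unfold Raw.eb Raw.nl
  ring

lemma sb_Low_mix (i : ℕ) : R.LowY G i t + G.tau0 / G.m0 * R.LowL G i t ≤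
    G.L ^ 4 * (G.ss * (R.bh G i / (G.m0 * G.mQ))) := by
  have hm := G.m0_pos
  have hm' := G.mQ_pos
  have hs := G.ss_pos
  have hb := H.bh_pos i
  have hL := G.L_pos
  have h1 := h.LowY_le H i
  have h2 := h.LowL_le H i
  have h3 := R.LowY_nonneg G i t
  have h4 := R.LowL_nonneg G i t
  have h5 : G.m0 * G.mQ * R.LowY G i t ≤ G.ss * (40 * G.L ^ 3 * R.bh G i) :=
    calc G.m0 * G.mQ * R.LowY G i t = G.m0 * (G.mQ * R.LowY G i t) := by ring
      _ ≤ G.ss * G.Wc * (G.mQ * R.LowY G i t) :=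
          mul_le_mul_of_nonneg_right G.m0_le_ss_Wc (mul_nonneg hm'.le h3)
      _ = G.ss * (G.Wc * G.mQ * R.LowY G i t) := by ring
      _ ≤ _ := mul_le_mul_of_nonneg_left h1 hs.le
  have h6 : G.m0 * G.mQ * (G.tau0 / G.m0 * R.LowL G i t) ≤ G.ss * (20 * R.bh G i) :=
    calc G.m0 * G.mQ * (G.tau0 / G.m0 * R.LowL G i t) = G.tau0 * (G.mQ * R.LowL G i t) := by
          field_simp
      _ ≤ _ := mul_le_mul G.tau0_le_ss h2 (mul_nonneg hm'.le h4) hs.le
  have h9 : 0 ≤ G.ss * R.bh G i := by positivity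
  have h7 : 10 ^ 100 * G.L ^ 3 * (G.ss * R.bh G i) ≤ G.L ^ 4 * (G.ss * R.bh G i) :=
    mul_le_mul_of_nonneg_right (G.sb_L_pow_lt (by norm_num)) h9
  have h8 : 1 * (G.ss * R.bh G i) ≤ G.L ^ 3 * (G.ss * R.bh G i) :=
    mul_le_mul_of_nonneg_right (one_le_pow₀ G.one_le_L) h9
  refine le_of_mul_le_mul_left ?_ (mul_pos hm hm')
  have h10 : G.m0 * G.mQ * (G.L ^ 4 * (G.ss * (R.bh G i / (G.m0 * G.mQ)))) =
      G.L ^ 4 * (G.ss * R.bh G i) := by field_simp
  rw [h10, mul_add]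
  linarith only [h5, h6, h9, h7, h8]

/-- The error in the equation of the second comb. -/
lemma sb_ec_core (i : ℕ) {u : ℝ} (hu : 0 ≤ u) (hx : R.nl G (i + 1) t ≤ u)
    (hE : G.N (i + 1) ^ 2 * R.ET (i + G.kk) t ≤
      10 ^ 7 * G.L * (G.ss * R.bh G (i + 1) * u)) :
    G.N (i + 1) * R.ec G i t ≤ G.L * G.lam (i + 1) *
      (G.L ^ 2 * (G.ss * R.bh G (i + 1) * u) +
        G.L ^ 4 * (G.ss * (R.bh G (i + 1) / (G.m0 * G.mQ))) * (G.N (i + 1) * ‖R.y i G.La t‖)) +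
        G.t ^ 12 * (G.N (i + 1) * R.Jk t) := by
  have hN := G.N_pos (i + 1)
  have h0 : R.nu G i t ≤ 11 * R.bh G (i + 1) := by
    have h1 := h.nu_le H i
    have h2 := H.bh_mono (Nat.le_succ i)
    linarith
  have h1 := sb_ec_num G.sb_L_big G.ss_pos.le (H.bh_pos (i + 1)).le hu (R.nl_nonneg G (i + 1) t)
    (R.nu_nonneg G i t) hx h0 (h.sb_Low_le H (i + 1)) hE G.tau0_le_ss
  have h3 := mul_le_mul_of_nonneg_right (h.sb_Low_mix H (i + 1))
    (mul_nonneg hN.le (norm_nonneg (R.y i G.La t)))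
  have h2 := mul_le_mul_of_nonneg_left (add_le_add h1 h3) (show 0 ≤ G.t ^ 12 * G.lam (i + 1) by
    have := G.lam_pos (i + 1); have := G.t_pos; positivity)
  have h4 : 0 ≤ G.L ^ 2 * (G.ss * R.bh G (i + 1) * u) +
      G.L ^ 4 * (G.ss * (R.bh G (i + 1) / (G.m0 * G.mQ))) * (G.N (i + 1) * ‖R.y i G.La t‖) := by
    have := G.L_pos; have := G.ss_pos; have := H.bh_pos (i + 1); have := G.m0_pos
    have := G.mQ_pos
    positivity
  have h5 := mul_le_mul_of_nonneg_right (mul_le_mul_of_nonneg_right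
    (G.sb_t_le_L (k := 12) (by norm_num)) (G.lam_pos (i + 1)).le) h4
  refine le_trans (le_of_eq ?_) (add_le_add (h2.trans h5) le_rfl)
  unfold Raw.ec Raw.nl
  ring

lemma sb_Ny_le (i : ℕ) :
    G.N (i + 1) * ‖R.y i G.La t‖ ≤ G.L ^ 2 * (G.ss * (30 * R.bh G (i + 1))) := by
  have h1 := R.y_le_ch G i (le_trans (by norm_num) G.ten_le_La) le_rfl t
  have h2 := h.sb_Nch i
  have h3 := H.bh_mono (Nat.le_succ i)
  have h4 := G.sb_N_succ i
  have h5 := G.L_pos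
  have h6 := G.N_pos i
  have h7 := G.ss_pos
  calc G.N (i + 1) * ‖R.y i G.La t‖ ≤ G.L ^ 2 * G.N i * R.ch G i t := by gcongr
    _ = G.L ^ 2 * (G.N i * R.ch G i t) := by ring
    _ ≤ G.L ^ 2 * (G.ss * (30 * R.bh G i)) := by gcongr
    _ ≤ _ := by gcongr

/-- The crude form of `sb_eb_core`. -/
lemma sb_eb_crude (i : ℕ) : G.N i * R.eb G i t ≤ 10 ^ 6 * G.lam i * (G.N i * R.lev (i + 1) t) ^ 2 +
    G.N i * (G.L ^ 150 * G.ss * (G.d i * R.un G i) + 10 * R.Jk t) := by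
  have hb := H.bh_pos i
  have hs := G.ss_pos
  have hL := G.L_pos
  have hl := G.lam_pos i
  have hX : 0 < G.N i * (G.d i * R.un G i) :=
    mul_pos (G.N_pos i) (mul_pos (G.d_pos i) (H.un_pos i))
  have h1 := h.sb_eb_core H i (u := 30 * R.bh G i) (by positivity) (by linarith [h.nl i])
    (h.sb_Nch i) (h.sb_ET_far H i)
  have h2 := mul_le_mul_of_nonneg_left (H.sb_lam_bh_sq' i) (show 0 ≤ G.L ^ 4 * G.ss by positivity)
  have h3 : G.L ^ 7 * (G.ss * (G.N i * (G.d i * R.un G i))) ≤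
      G.L ^ 150 * (G.ss * (G.N i * (G.d i * R.un G i))) :=
    mul_le_mul_of_nonneg_right (G.L_pow_le (by norm_num)) (mul_pos hs hX).le
  have h4 : 0 ≤ G.L ^ 4 * G.ss * (G.lam i * R.bh G i ^ 2) := by positivity
  linarith

/-- The crude form of `sb_ec_core`. -/
lemma sb_ec_crude (i : ℕ) :
    R.ec G i t ≤ G.L ^ 150 * G.ss * (G.d (i + 1) * R.un G (i + 1)) + G.t ^ 12 * R.Jk t := by
  have hb := H.bh_pos (i + 1)
  have hs := G.ss_pos
  have hL := G.L_pos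
  have hl := G.lam_pos (i + 1)
  have hN := G.N_pos (i + 1)
  have hX : 0 < G.N (i + 1) * (G.d (i + 1) * R.un G (i + 1)) :=
    mul_pos hN (mul_pos (G.d_pos _) (H.un_pos _))
  have hk := G.ten_le_kk
  have hE := h.sb_ET_far H (i + 1)
  rw [show i + 1 + G.kk - 1 = i + G.kk by omega] at hE
  have h1 := h.sb_ec_core H i (u := 30 * R.bh G (i + 1)) (by positivity)
    (by linarith only [hb, h.nl (i + 1)]) hE
  have h5 : R.bh G (i + 1) / (G.m0 * G.mQ) ≤ R.bh G (i + 1) :=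
    div_le_self hb.le G.sb_one_le_mm
  have h6 : G.N (i + 1) * ‖R.y i G.La t‖ ≤ G.L ^ 2 * (1 * (30 * R.bh G (i + 1))) :=
    (h.sb_Ny_le H i).trans (by gcongr; exact G.ss_le_one)
  have h7 : G.L ^ 4 * (G.ss * (R.bh G (i + 1) / (G.m0 * G.mQ))) * (G.N (i + 1) * ‖R.y i G.La t‖) ≤
      G.L ^ 4 * (G.ss * R.bh G (i + 1)) * (G.L ^ 2 * (1 * (30 * R.bh G (i + 1)))) := by gcongr
  have h8 : G.L ^ 2 * (G.ss * R.bh G (i + 1) * (30 * R.bh G (i + 1))) ≤
      G.L ^ 6 * (G.ss * R.bh G (i + 1) * (30 * R.bh G (i + 1))) :=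
    mul_le_mul_of_nonneg_right (G.L_pow_le (by norm_num)) (by positivity)
  have h9 := mul_le_mul_of_nonneg_left (add_le_add h8 h7)
    (show 0 ≤ G.L * G.lam (i + 1) by positivity)
  have h2 := mul_le_mul_of_nonneg_left (H.sb_lam_bh_sq' (i + 1))
    (show 0 ≤ G.L ^ 7 * G.ss by positivity)
  have h3 : G.L ^ 10 * (G.ss * (G.N (i + 1) * (G.d (i + 1) * R.un G (i + 1)))) ≤
      G.L ^ 150 * (G.ss * (G.N (i + 1) * (G.d (i + 1) * R.un G (i + 1)))) :=
    mul_le_mul_of_nonneg_right (G.L_pow_le (by norm_num)) (mul_pos hs hX).le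
  have h4 : 0 ≤ G.L ^ 7 * G.ss * (G.lam (i + 1) * R.bh G (i + 1) ^ 2) := by positivity
  refine le_of_mul_le_mul_left ?_ hN
  linarith only [h1, h9, h2, h3, h4]

/-- The crude bound of the seed. -/
lemma sb_f_crude (i : ℕ) (o : Fin 4) :
    ‖R.f G i o t‖ ≤ G.L ^ 150 * G.ss * (G.d (i + 1) * R.un G (i + 1)) := by
  have hb := H.bh_pos (i + 1)
  have hs := G.ss_pos
  have ht := G.t_pos
  have hL := G.L_pos
  have hl := G.lam_pos (i + 1)
  have hN := G.N_pos (i + 1)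
  have hX : 0 < G.N (i + 1) * (G.d (i + 1) * R.un G (i + 1)) :=
    mul_pos hN (mul_pos (G.d_pos _) (H.un_pos _))
  have h0 : 10 ^ 3 * G.t ^ 11 * (G.lam (i + 1) * R.bh G (i + 1)) * ‖R.y i G.La t‖ ≤
      10 ^ 3 * G.L * (G.lam (i + 1) * R.bh G (i + 1)) * ‖R.y i G.La t‖ := by
    gcongr; exact G.sb_t_le_L (by norm_num)
  have h1 : ‖R.f G i o t‖ ≤
      10 ^ 3 * G.L * (G.lam (i + 1) * R.bh G (i + 1)) * ‖R.y i G.La t‖ :=
    ((le_mul_of_one_le_left (norm_nonneg _) G.sb_one_le_mm).trans (h.f_le H i o)).trans h0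
  have h5 := mul_le_mul_of_nonneg_left h1 hN.le
  have h6 := mul_le_mul_of_nonneg_left (h.sb_Ny_le H i)
    (show 0 ≤ 10 ^ 3 * G.L * (G.lam (i + 1) * R.bh G (i + 1)) by positivity)
  have h2 := mul_le_mul_of_nonneg_left (H.sb_lam_bh_sq' (i + 1))
    (show 0 ≤ G.L ^ 3 * G.ss by positivity)
  have h3 : G.L ^ 6 * (G.ss * (G.N (i + 1) * (G.d (i + 1) * R.un G (i + 1)))) ≤
      G.L ^ 150 * (G.ss * (G.N (i + 1) * (G.d (i + 1) * R.un G (i + 1)))) :=
    mul_le_mul_of_nonneg_right (G.L_pow_le (by norm_num)) (mul_pos hs hX).le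
  have h4 : 0 ≤ G.L ^ 3 * G.ss * (G.lam (i + 1) * R.bh G (i + 1) ^ 2) := by positivity
  refine le_of_mul_le_mul_left ?_ hN
  linarith

/-- Errors for arbitrary levels. -/
lemma eb_le (i : ℕ) : R.eb G i t ≤ G.Ga / G.t ^ 10 / 100 * (G.d i * R.un G i) + 10 * R.Jk t := by
  have ht := G.t_pos
  have hl := G.lam_pos i
  have hN := G.N_pos i
  have hX : 0 < G.N i * (G.d i * R.un G i) := mul_pos hN (mul_pos (G.d_pos i) (H.un_pos i))
  have h1 := h.sb_eb_crude H i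
  have h2 := mul_le_mul_of_nonneg_left (h.sb_Nlev_sq_le H i) hl.le
  have h3 := H.sb_lam_bh_sq i
  have e : G.t ^ 11 * G.Ga = G.t ^ 21 * (G.Ga / G.t ^ 10) := by field_simp
  have hg : 10 ^ 100 ≤ G.Ga / G.t ^ 10 := by
    rw [le_div_iff₀ (pow_pos ht _)]
    exact (G.pow_lt (by norm_num)).trans G.t_le_Ga
  rw [e] at h3
  generalize G.Ga / G.t ^ 10 = g at h3 hg ⊢
  have h4 : 10 ^ 44 * (G.lam i * (G.N i * R.lev (i + 1) t) ^ 2) ≤
      g * (G.N i * (G.d i * R.un G i)) := by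
    refine le_of_mul_le_mul_left ?_ (pow_pos ht 21)
    linarith only [h2, h3]
  have h5 : G.L ^ 150 * G.ss * (G.N i * (G.d i * R.un G i)) ≤ 1 * (G.N i * (G.d i * R.un G i)) :=
    mul_le_mul_of_nonneg_right (G.pow_ss_le (by norm_num)) hX.le
  have h6 : 10 ^ 100 * (G.N i * (G.d i * R.un G i)) ≤ g * (G.N i * (G.d i * R.un G i)) :=
    mul_le_mul_of_nonneg_right hg hX.le
  have h7 : 0 ≤ G.lam i * (G.N i * R.lev (i + 1) t) ^ 2 := by positivity
  refine le_of_mul_le_mul_left ?_ hN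
  linarith only [hX, h1, h4, h5, h6]

lemma ec_le (i : ℕ) : R.ec G i t ≤ G.d (i + 1) * R.un G (i + 1) + G.t ^ 12 * R.Jk t :=
  (h.sb_ec_crude H i).trans (add_le_add (mul_le_of_le_one_left
    (mul_pos (G.d_pos _) (H.un_pos _)).le (G.pow_ss_le (by norm_num))) le_rfl)

lemma f_le' (i : ℕ) (o : Fin 4) : ‖R.f G i o t‖ ≤ G.d (i + 1) * R.un G (i + 1) :=
  (h.sb_f_crude H i o).trans (mul_le_of_le_one_left
    (mul_pos (G.d_pos _) (H.un_pos _)).le (G.pow_ss_le (by norm_num)))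

/-- Errors for the new level. -/
lemma err_new {u : ℝ} (hu : Up G R J t u) (hj : Jb G R J t)
    (fl : Real.exp (-(G.t ^ 8 * G.Ga)) * R.bh G (J + 1) ≤ u) :
    G.N (J + 1) * (R.eb G (J + 1) t + R.ec G J t) ≤ Real.exp (-(3 * G.E)) *
      (G.d (J + 1) * u +
        G.N (J + 1) * (G.lam (J + 1) * R.bh G (J + 1) / (G.m0 * G.mQ)) * ‖R.y J G.La t‖) := by
  have hb := H.bh_pos (J + 1)
  have hs := G.ss_pos
  have ht := G.t_pos
  have hl := G.lam_pos (J + 1)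
  have hN := G.N_pos (J + 1)
  have hm := G.m0_pos
  have hm' := G.mQ_pos
  have hL := G.L_pos
  have hlm := G.lm_pos (J + 1)
  have hu0 : 0 ≤ u := (R.nl_nonneg G _ t).trans hu.nw
  have hk := G.ten_le_kk
  have hθ : ∀ k : ℕ, ∀ x : ℝ, 0 ≤ x → G.θ ^ k * x ≤ x := fun k x hx =>
    mul_le_of_le_one_left hx (G.sb_θ_pow k)
  have hy : G.N (J + 1) * R.ch G (J + 1) t ≤ G.ss * u := by
    refine sb_huge hs.le G.one_le_ss_Wc (mul_nonneg hN.le (R.ch_nonneg G _ t)) ?_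
    have h1 := (hu.y (J + 1) le_rfl).trans (hθ _ _ hu0)
    unfold Raw.nc at h1
    linarith only [h1]
  have hz : G.N (J + 1) * R.lev (J + 1 + 1) t ≤ G.ss * u := by
    have h1 := sb_huge hs.le G.one_le_ss_Wc (R.nl_nonneg G (J + 2) t)
      ((hu.l (J + 2) le_rfl).trans (hθ _ _ hu0))
    exact (mul_le_mul_of_nonneg_right (G.N_mono (by omega)) (R.lev_nonneg _ t)).trans h1
  have hE : G.N (J + 1) ^ 2 * R.ET (J + G.kk) t ≤
      10 ^ 7 * G.L * (G.ss * R.bh G (J + 1) * u) := by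
    have h0 := H.ET_nonneg (J + G.kk) t
    have h1 := (h.ET_up H hu (m := J + G.kk) (by omega)).trans (hθ _ _ (by positivity))
    have h2 : G.Wc * (G.N (J + G.kk) ^ 2 * R.ET (J + G.kk) t) ≤
        G.Wc ^ 2 * (G.N (J + G.kk) ^ 2 * R.ET (J + G.kk) t) := by
      gcongr; exact le_self_pow₀ G.sb_one_le_Wc (by norm_num)
    have h3 := sb_huge hs.le G.one_le_ss_Wc (by positivity) (h2.trans h1)
    have h4 : G.N (J + 1) ^ 2 * R.ET (J + G.kk) t ≤ G.N (J + G.kk) ^ 2 * R.ET (J + G.kk) t := by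
      gcongr; exact G.N_mono (by omega)
    have h6 : 0 ≤ G.ss * R.bh G (J + 1) * u := by positivity
    have h5 : 1 * (G.ss * R.bh G (J + 1) * u) ≤ G.L * (G.ss * R.bh G (J + 1) * u) :=
      mul_le_mul_of_nonneg_right G.one_le_L h6
    linarith only [h3, h4, h6, h5]
  have hJ : G.N (J + 1) * R.Jk t ≤ G.ss * (G.lm (J + 1) * u) := by
    have h0 : 0 ≤ G.N (J + 1) * R.Jk t := mul_nonneg hN.le (H.Jk_nonneg t)
    have hb' := H.bh_pos J
    have h1 := (H.jk_up hj (Nat.le_succ J)).trans (hθ _ _ (by positivity))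
    have h2 : R.bh G (J + 1) ≤ Real.exp (G.t ^ 8 * G.Ga) * u := by
      have h3 := mul_le_mul_of_nonneg_left fl (Real.exp_pos (G.t ^ 8 * G.Ga)).le
      rwa [← mul_assoc, ← Real.exp_add, add_neg_cancel, Real.exp_zero, one_mul] at h3
    have h3 : R.bh G J ≤ G.ss * Real.exp (G.Ga ^ 2) * u :=
      (H.bh_mono (Nat.le_succ J)).trans (h2.trans (mul_le_mul_of_nonneg_right G.ss_fifty hu0))
    have h4 : G.lm (J + 1) * R.bh G J ≤ G.lm (J + 1) * (G.ss * Real.exp (G.Ga ^ 2) * u) :=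
      mul_le_mul_of_nonneg_left h3 hlm.le
    refine le_of_mul_le_mul_left ?_ (Real.exp_pos (G.Ga ^ 2))
    calc _ ≤ _ := h1.trans h4
      _ = _ := by ring
  have hE' := hE
  rw [show J + G.kk = J + 1 + G.kk - 1 by omega] at hE'
  have h1 := h.sb_eb_core H (J + 1) hu0 hu.nw hy hE'
  have h2 := h.sb_ec_core H J hu0 hu.nw hE
  have h3 : (G.N (J + 1) * R.lev (J + 1 + 1) t) ^ 2 ≤ G.ss * u * (10 * R.bh G (J + 1)) := by
    rw [sq]
    exact mul_le_mul hz (h.sb_Nlev_le H (J + 1)) (mul_nonneg hN.le (R.lev_nonneg _ t))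
      (by positivity)
  have h4 : G.lam (J + 1) * (G.ss * R.bh G (J + 1) * u) ≤
      G.L ^ 3 * (G.ss * (G.lm (J + 1) * u)) :=
    calc G.lam (J + 1) * (G.ss * R.bh G (J + 1) * u)
        = G.lam (J + 1) * R.bh G (J + 1) * (G.ss * u) := by ring
      _ ≤ G.L ^ 3 * G.lm (J + 1) * (G.ss * u) :=
          mul_le_mul_of_nonneg_right (H.sb_bh_le_lam _) (mul_nonneg hs.le hu0)
      _ = _ := by ring
  rw [← G.ss_mul]
  unfold Geo.d
  generalize hY : G.N (J + 1) * ‖R.y J G.La t‖ = Y at h2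
  have hY0 : 0 ≤ Y := hY ▸ mul_nonneg hN.le (norm_nonneg _)
  have e1 : G.N (J + 1) * (G.lam (J + 1) * R.bh G (J + 1) / (G.m0 * G.mQ)) * ‖R.y J G.La t‖ =
      G.lam (J + 1) * (R.bh G (J + 1) / (G.m0 * G.mQ)) * Y := by rw [← hY]; ring
  rw [e1]
  have hc : 0 ≤ R.bh G (J + 1) / (G.m0 * G.mQ) := by positivity
  generalize R.bh G (J + 1) / (G.m0 * G.mQ) = c at h2 hc ⊢
  have h5 : G.L ^ 5 * (G.ss * (G.lam (J + 1) * c * Y)) ≤
      G.L ^ 300 * (G.ss * (G.lam (J + 1) * c * Y)) :=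
    mul_le_mul_of_nonneg_right (G.L_pow_le (by norm_num)) (by (clear * - hs hl hY0 hc; positivity))
  have hP : 0 ≤ G.ss * (G.lm (J + 1) * u) := by positivity
  have hQ : 0 ≤ G.lam (J + 1) * (G.ss * R.bh G (J + 1) * u) := by positivity
  have h6 := mul_le_mul_of_nonneg_left h3 hl.le
  have h7 := (mul_le_mul_of_nonneg_left hJ (pow_pos ht 12).le).trans
    (mul_le_mul_of_nonneg_right (G.sb_t_le_L (k := 12) (by norm_num)) hP)
  have h8 := mul_le_mul_of_nonneg_left h4 (pow_pos hL 4).le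
  have h9 : ∀ {k : ℕ}, k ≤ 4 → G.L ^ k * (G.lam (J + 1) * (G.ss * R.bh G (J + 1) * u)) ≤
      G.L ^ 4 * (G.lam (J + 1) * (G.ss * R.bh G (J + 1) * u)) := fun hk =>
    mul_le_mul_of_nonneg_right (G.L_pow_le hk) hQ
  have h10 : ∀ {k : ℕ}, k < 300 → 10 ^ 100 * G.L ^ k * (G.ss * (G.lm (J + 1) * u)) ≤
      G.L ^ 300 * (G.ss * (G.lm (J + 1) * u)) := fun hk =>
    mul_le_mul_of_nonneg_right (G.sb_L_pow_lt hk) hP
  have a1 := h9 (k := 0) (by norm_num)
  have a2 := h9 (k := 3) (by norm_num)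
  have a3 := h10 (k := 0) (by norm_num)
  have a4 := h10 (k := 1) (by norm_num)
  have a5 := h10 (k := 7) (by norm_num)
  rw [pow_zero] at a1 a3
  rw [pow_one] at a4
  have a6 : 0 ≤ G.L ^ 300 * (G.ss * (G.lm (J + 1) * u)) := mul_nonneg (pow_pos hL _).le hP
  linarith only [hJ, h1, h2, h5, hP, h6, h7, h8, a1, a2, a3, a4, a5]

end Cr0

/-- Errors for the current level. -/
lemma Bnd.err_cur (H : IsNet G R) {j : ℕ} {AA : ℕ → ℝ} {E : ℝ} (h : Bnd G R (j + 1) AA t E)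
    (hj : Jb G R (j + 1) t) (o : Fin 4) :
    ‖R.f G j o t‖ + R.eb G (j + 1) t + R.ec G j t ≤
      (G.t ^ 20)⁻¹ * (G.d (j + 1) * (E * R.un G (j + 1))) := by
  have hc := h.cr0 H
  have hb := H.bh_pos (j + 1)
  have hs := G.ss_pos
  have ht := G.t_pos
  have hl := G.lam_pos (j + 1)
  have hN := G.N_pos (j + 1)
  have hun := H.un_pos (j + 1)
  have hE0 : 0 < E := G.xs_pos.trans_le h.Elo
  have hX : 0 < G.d (j + 1) * R.un G (j + 1) := mul_pos (G.d_pos _) hun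
  have hL := G.L_pos
  have hlm := G.lm_pos (j + 1)
  have hE1 : 1 ≤ G.L ^ 2 * E := by
    have hq : 0 < G.t ^ 9 * G.Q := mul_pos (pow_pos ht 9) G.Q_pos
    have h1 := mul_le_mul_of_nonneg_left h.Elo hq.le
    rw [Geo.xs, mul_inv_cancel₀ hq.ne'] at h1
    refine h1.trans (mul_le_mul_of_nonneg_right ?_ hE0.le)
    exact (mul_le_mul_of_nonneg_right (G.pow_le (by norm_num)) G.Q_pos.le).trans G.Q_hi
  have hz : G.t ^ 18 * G.L ^ 3 * (G.N (j + 1) * R.lev (j + 1 + 1) t) ^ 2 ≤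
      11 * (E * R.bh G (j + 1) ^ 2) := by
    have h1 := Cr0.sb_Nlev_sq (G := G) (R := R) (t := t) (j + 1)
    have h2 : G.t ^ 9 * R.nl G (j + 1 + 1) t ≤ E * R.bh G (j + 1) := by
      have h3 := mul_le_mul_of_nonneg_left h.up.nw (pow_pos ht 9).le
      rw [H.bh_succ (j + 1)] at h3
      refine h3.trans (le_of_eq ?_)
      calc G.t ^ 9 * (G.xs * E * (G.Q * R.bh G (j + 1)))
          = G.t ^ 9 * (G.xs * G.Q) * (E * R.bh G (j + 1)) := by ring
        _ = _ := by rw [G.xs_mul_Q, mul_inv_cancel₀ (pow_pos ht 9).ne', one_mul]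
    have h3 := pow_le_pow_left₀ (mul_nonneg (pow_pos ht 9).le (R.nl_nonneg G _ t)) h2 2
    have h4 : E * (E * R.bh G (j + 1) ^ 2) ≤ 11 * (E * R.bh G (j + 1) ^ 2) := by
      gcongr; linarith only [h.Ehi]
    calc G.t ^ 18 * G.L ^ 3 * (G.N (j + 1) * R.lev (j + 1 + 1) t) ^ 2
        = G.t ^ 18 * (G.L ^ 3 * (G.N (j + 1) * R.lev (j + 1 + 1) t) ^ 2) := by ring
      _ = (G.t ^ 9 * R.nl G (j + 1 + 1) t) ^ 2 := by rw [h1]; ring
      _ ≤ (E * R.bh G (j + 1)) ^ 2 := h3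
      _ = E * (E * R.bh G (j + 1) ^ 2) := by ring
      _ ≤ _ := h4
  have hz' : G.t ^ 28 * (10 ^ 6 * G.lam (j + 1) * (G.N (j + 1) * R.lev (j + 1 + 1) t) ^ 2) ≤
      G.N (j + 1) * (E * (G.d (j + 1) * R.un G (j + 1))) := by
    have h1 := mul_le_mul_of_nonneg_left hz hl.le
    have h2 := mul_le_mul_of_nonneg_left (H.sb_lam_bh_sq (j + 1)) hE0.le
    have h3 : 0 ≤ E * (G.lam (j + 1) * R.bh G (j + 1) ^ 2) := by positivity
    have h4 := mul_le_mul_of_nonneg_right G.sb_Ga_hi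
      (show 0 ≤ G.t ^ 18 * (G.lam (j + 1) * (G.N (j + 1) * R.lev (j + 1 + 1) t) ^ 2) by (clear * - ht hl; positivity))
    refine le_of_mul_le_mul_left ?_ (mul_pos (pow_pos ht 11) G.Ga_pos)
    linarith
  have hJ : R.Jk t ≤ G.ss * (G.d (j + 1) * R.un G (j + 1)) := by
    refine sb_huge hs.le G.ss_thirty (H.Jk_nonneg t) ((H.jk_old hj le_rfl).trans ?_)
    have h1 : 0 ≤ R.un G (j + 1) * G.lm (j + 1) := by positivity
    rw [Nat.sub_self, pow_zero]
    unfold Geo.d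
    linarith only [h1]
  have hB : G.t ^ 28 * R.eb G (j + 1) t ≤ E * (G.d (j + 1) * R.un G (j + 1)) +
      G.t ^ 28 * (G.L ^ 150 * G.ss * (G.d (j + 1) * R.un G (j + 1)) + 10 * R.Jk t) := by
    have h1 := mul_le_mul_of_nonneg_left (hc.sb_eb_crude H (j + 1)) (pow_pos ht 28).le
    refine le_of_mul_le_mul_left ?_ hN
    linarith
  have hC := mul_le_mul_of_nonneg_left (hc.sb_ec_crude H j) (pow_pos ht 28).le
  have hF := mul_le_mul_of_nonneg_left (hc.sb_f_crude H j o) (pow_pos ht 28).le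
  have hsX : 0 ≤ G.ss * (G.d (j + 1) * R.un G (j + 1)) := (mul_pos hs hX).le
  have hP : ∀ {k : ℕ}, k ≤ 270 → G.L ^ k * (G.ss * (G.d (j + 1) * R.un G (j + 1))) ≤
      E * (G.d (j + 1) * R.un G (j + 1)) := fun {k} hk =>
    calc G.L ^ k * (G.ss * (G.d (j + 1) * R.un G (j + 1)))
        ≤ G.L ^ 2 * E * (G.L ^ k * (G.ss * (G.d (j + 1) * R.un G (j + 1)))) :=
          le_mul_of_one_le_left (by positivity) hE1
      _ = G.L ^ (k + 2) * G.ss * (E * (G.d (j + 1) * R.un G (j + 1))) := by ring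
      _ ≤ _ := mul_le_of_le_one_left (by positivity) (G.pow_ss_le (by omega))
  have a0 := mul_le_mul_of_nonneg_right (G.sb_t_le_L_sq (k := 28) (by norm_num))
    (mul_nonneg (pow_pos hL 150).le hsX)
  have a1 := hP (k := 152) (by norm_num)
  have a2 := ((mul_le_mul_of_nonneg_left hJ (pow_pos ht 28).le).trans
    (mul_le_mul_of_nonneg_right (G.sb_t_le_L_sq (by norm_num)) hsX)).trans (hP (by norm_num))
  have a3 := ((mul_le_mul_of_nonneg_left hJ (pow_pos ht 40).le).trans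
    (mul_le_mul_of_nonneg_right (G.sb_t_le_L_sq (by norm_num)) hsX)).trans (hP (by norm_num))
  have hS : G.t ^ 28 * (‖R.f G j o t‖ + R.eb G (j + 1) t + R.ec G j t) ≤
      15 * (E * (G.d (j + 1) * R.un G (j + 1))) := by linarith only [hB, hC, hF, a0, a1, a2, a3]
  have hS0 : 0 ≤ ‖R.f G j o t‖ + R.eb G (j + 1) t + R.ec G j t :=
    add_nonneg (add_nonneg (norm_nonneg _) (H.eb_nonneg _ t)) (H.ec_nonneg _ t)
  have a4 := mul_le_mul_of_nonneg_right (G.pow_lt (a := 20) (b := 28) (by norm_num)) hS0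
  have a5 : 0 ≤ G.t ^ 20 * (‖R.f G j o t‖ + R.eb G (j + 1) t + R.ec G j t) := by (clear * - ht hS0; positivity)
  rw [← div_eq_inv_mul, le_div_iff₀ (pow_pos ht 20)]
  linarith only [hB, hC, hF, a0, a1, a2, a3, a4, a5]

end

end Pool.Agent.Work.MP_6bf1e5_an.Hyp
end

-- merged part: Pool.Agent.Work.MP_6bf1e5_an.Hyp.CurA
section
/-!
The current level keeps its shape: barriers for pairs.
-/

open Set Complex Filter Topology
open scoped InnerProductSpace ComplexConjugate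
open Pool.Agent.Work.MP_6bf1e5_an.B (Z3 R3)
open Pool.Agent.Work.MP_6bf1e5_an.Hyp.Dec

namespace Pool.Agent.Work.MP_6bf1e5_an.Hyp

noncomputable section

lemma cur_re_inner_le (x y : V) : (⟪x, y⟫_ℂ).re ≤ ‖x‖ * ‖y‖ :=
  (Complex.re_le_norm _).trans (norm_inner_le_norm x y)

lemma cur_re_inner_self (x : V) : (⟪x, x⟫_ℂ).re = ‖x‖ ^ 2 := by
  have := @norm_sq_eq_re_inner ℂ V _ _ _ x
  rw [this]; rfl

lemma cur_pair_ineq {n : N3} {p x y e1 e2 : V} {vb vc : Z3 → ℝ} {s d : ℝ} (hs : 0 ≤ s)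
    (hp : ∀ f, ‖p * f‖ ≤ ‖f‖) (hb : 0 ≤ (⟪x, mulr vb x⟫_ℂ).re) (hc : 0 ≤ (⟪y, mulr vc y⟫_ℂ).re) :
    (⟪x, (s : ℂ) • pj n (dag p * y) - (d : ℂ) • x - mulr vb x + e1⟫_ℂ).re +
      (⟪y, (s : ℂ) • (p * x) - (d : ℂ) • y - mulr vc y + e2⟫_ℂ).re ≤
      (s - d) * (‖x‖ ^ 2 + ‖y‖ ^ 2) + ‖x‖ * ‖e1‖ + ‖y‖ * ‖e2‖ := by
  have h1 : (⟪x, pj n (dag p * y)⟫_ℂ).re ≤ ‖x‖ * ‖y‖ :=
    (cur_re_inner_le _ _).trans (mul_le_mul_of_nonneg_left
      ((norm_pj_le _ _).trans (by rw [norm_dag_mul]; exact hp y)) (norm_nonneg _))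
  have h2 : (⟪y, p * x⟫_ℂ).re ≤ ‖y‖ * ‖x‖ :=
    (cur_re_inner_le _ _).trans (mul_le_mul_of_nonneg_left (hp x) (norm_nonneg _))
  have h3 := cur_re_inner_le x e1
  have h4 := cur_re_inner_le y e2
  have h5 := cur_re_inner_self x
  have h6 := cur_re_inner_self y
  simp only [inner_add_right, inner_sub_right, inner_smul_right, Complex.add_re, Complex.sub_re,
    Complex.re_ofReal_mul, h5, h6]
  have h7 := mul_le_mul_of_nonneg_left h1 hs
  have h8 := mul_le_mul_of_nonneg_left h2 hs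
  linarith [mul_nonneg hs (sq_nonneg (‖x‖ - ‖y‖))]

/-- Barrier for a pair solving the strain system up to small errors. -/
theorem cur_pair_bar {n : N3} {x y : ℝ → V} {s a : ℝ → ℝ} {vb vc : Z3 → ℝ} {d ε c0 t1 t2 : ℝ}
    (h0 : 0 ≤ t1) (hd : 0 < d) (hε : 0 < ε) (hc0 : 0 < c0)
    (hb : ∀ x, 0 ≤ (⟪x, mulr vb x⟫_ℂ).re) (hc : ∀ y, 0 ≤ (⟪y, mulr vc y⟫_ℂ).re)
    (init : ‖x t1‖ ^ 2 + ‖y t1‖ ^ 2 ≤ (c0 * a t1) ^ 2)
    (H : ∀ t ∈ Icc t1 t2, 0 ≤ s t ∧ 0 < a t ∧ HD a ((s t - d) * a t) t ∧ ∃ p e1 e2 : V,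
      (∀ f, ‖p * f‖ ≤ ‖f‖) ∧ ‖e1‖ + ‖e2‖ ≤ ε * d * a t ∧
      HD x ((s t : ℂ) • pj n (dag p * y t) - (d : ℂ) • x t - mulr vb (x t) + e1) t ∧
      HD y ((s t : ℂ) • (p * x t) - (d : ℂ) • y t - mulr vc (y t) + e2) t) :
    ∀ t ∈ Icc t1 t2, ‖x t‖ ^ 2 + ‖y t‖ ^ 2 ≤ ((c0 + 2 * ε * d * (t - t1)) * a t) ^ 2 := by
  refine bar2 (U := fun t => (c0 + 2 * ε * d * (t - t1)) * a t) h0 (by simpa using init) ?_
  intro t ht
  obtain ⟨hs, ha, hA, p, e1, e2, hp, he, hx, hy⟩ := H t ht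
  have hl : HD (fun t => c0 + 2 * ε * d * (t - t1)) (2 * ε * d) t := by
    simpa using ((((hasDerivWithinAt_id t (Ici 0)).sub_const t1).const_mul
      (2 * ε * d)).const_add c0)
  refine ⟨_, _, _, hx, hy, hl.fun_mul hA, fun hU => ?_⟩
  refine (cur_pair_ineq hs hp (hb _) (hc _)).trans_lt ?_
  rw [hU]
  set U := (c0 + 2 * ε * d * (t - t1)) * a t with hUdef
  have ht1 : 0 ≤ t - t1 := sub_nonneg.mpr ht.1
  have hU0 : 0 < U := by positivity
  have hxU : ‖x t‖ ≤ U := by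
    refine (pow_le_pow_iff_left₀ (norm_nonneg _) hU0.le two_ne_zero).mp ?_
    linarith [sq_nonneg ‖y t‖]
  have hyU : ‖y t‖ ≤ U := by
    refine (pow_le_pow_iff_left₀ (norm_nonneg _) hU0.le two_ne_zero).mp ?_
    linarith only [hU, sq_nonneg ‖x t‖]
  have k1 : ‖x t‖ * ‖e1‖ + ‖y t‖ * ‖e2‖ ≤ U * (ε * d * a t) := by
    have := mul_le_mul_of_nonneg_right hxU (norm_nonneg e1)
    have := mul_le_mul_of_nonneg_right hyU (norm_nonneg e2)
    have := mul_le_mul_of_nonneg_left he hU0.le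
    linarith
  have k2 : 0 < U * (ε * d * a t) := by positivity
  have k3 : U * (2 * ε * d * a t + (c0 + 2 * ε * d * (t - t1)) * ((s t - d) * a t)) =
      (s t - d) * U ^ 2 + 2 * (U * (ε * d * a t)) := by rw [hUdef]; ring
  rw [k3]; linarith only [k1, k2]

variable {G : Geo} {R : Raw}

lemma cur_tinv (G : Geo) {k : ℕ} (hk : 1 ≤ k) : (G.t ^ k)⁻¹ ≤ 1 / 10 ^ 100 := by
  have h := G.pow_lt (a := 0) (b := k) hk
  rw [one_div]
  exact inv_anti₀ (by positivity) (by simpa using h)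

lemma cur_tinv_succ (G : Geo) {a b : ℕ} (h : a < b) : (G.t ^ b)⁻¹ ≤ 1 / 10 ^ 100 * (G.t ^ a)⁻¹ := by
  have h1 := G.pow_lt h
  have := G.t_pos
  rw [one_div, ← mul_inv]
  exact inv_anti₀ (by positivity) h1

lemma cur_ell_le (G : Geo) (j : ℕ) : G.ell j ≤ (G.t ^ 20)⁻¹ * G.d j := by
  have h1 : Real.exp (-G.Ga ^ 2) ≤ (G.t ^ 20)⁻¹ := by
    rw [Real.exp_neg]
    refine inv_anti₀ (pow_pos G.t_pos _) ?_
    have a1 := (G.pow_le (show 20 ≤ 42 by norm_num)).trans G.t_le_Ga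
    have a2 : G.Ga ≤ G.Ga ^ 2 :=
      le_self_pow₀ ((one_le_pow₀ G.one_le_t).trans a1) two_ne_zero
    linarith [Real.add_one_le_exp (G.Ga ^ 2)]
  have h2 : 0 < G.lm j := G.lm_pos j
  have h3 : 0 < (G.t ^ 20)⁻¹ := inv_pos.mpr (pow_pos G.t_pos _)
  unfold Geo.ell Geo.d
  nlinarith only [h2, h3, mul_le_mul_of_nonneg_right h1 h2.le]

namespace Run

variable (H : IsNet G R) {j : ℕ} {t0 c g0 : ℝ} {AA : ℕ → ℝ} (S : Run G R j AA t0 c g0)

include H S

omit H in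
lemma cur_AA_pos : 0 < AA (j + 1) := G.xs_pos.trans_le S.st.curA.1

omit H in
lemma cur_time {t : ℝ} (ht : t ∈ Icc t0 c) : G.d (j + 1) * (t - t0) ≤ 2 * G.t := by
  rw [← G.d_mul_Δ (j + 1)]
  exact mul_le_mul_of_nonneg_left (by linarith [ht.2, S.le']) (G.d_pos _).le

omit H in
lemma cur_rate {t : ℝ} (ht : t ∈ Icc t0 c) :
    |G.d (j + 1) * R.aa G j t - G.d (j + 1) - g0| ≤ (G.t ^ 9)⁻¹ * G.d (j + 1) := by
  have hd := G.d_pos (j + 1)
  have : G.d (j + 1) * R.aa G j t - G.d (j + 1) - g0 =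
      G.d (j + 1) * (R.aa G j t - R.aa G j t0) := by rw [S.g0_eq]; ring
  rw [this, abs_mul, abs_of_pos hd, mul_comm]
  exact mul_le_mul_of_nonneg_right (S.drift t ht) hd.le

omit H in
lemma cur_aa {t : ℝ} (ht : t ∈ Icc t0 c) : 1 ≤ R.aa G j t ∧ R.aa G j t ≤ 11 := by
  have hd := G.d_pos (j + 1)
  have h1 := abs_le.mp (S.cur_rate ht)
  have h2 := mul_le_mul_of_nonneg_right (cur_tinv G (k := 9) (by norm_num)) hd.le
  have := S.g0_lo
  have := S.g0_hi
  constructor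
  · refine le_of_mul_le_mul_left ?_ hd
    linarith [h1.1]
  · refine le_of_mul_le_mul_left ?_ hd
    linarith only [h1, h2, this, h1.2]

/-- The comparison amplitude. -/
lemma cur_amp : ∃ a : ℝ → ℝ, a t0 = AA (j + 1) ∧ ∀ t ∈ Icc t0 c, 0 < a t ∧
    HD a ((G.d (j + 1) * R.aa G j t - G.d (j + 1)) * a t) t ∧
    |a t - Ex t0 (AA (j + 1)) g0 t| ≤ 1 / 10 ^ 50 * Ex t0 (AA (j + 1)) g0 t := by
  have h0 := S.st.t0
  have hA := S.cur_AA_pos
  have hc : ContinuousOn (fun t => G.d (j + 1) * R.aa G j t - G.d (j + 1)) (Icc t0 c) :=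
    (continuousOn_const.fun_mul ((H.cont_aa j).mono fun t ht => h0.trans ht.1)).fun_sub
      continuousOn_const
  obtain ⟨τ, τ0, hτ⟩ := exists_prim S.le hc
  have hl : ∀ (k t : ℝ), HD (fun t => k * (t - t0)) k t := fun k t => by
    simpa using ((hasDerivWithinAt_id t (Ici 0)).sub_const t0).const_mul k
  have key := norm_sub_le_of_deriv (f := fun t => τ t - g0 * (t - t0))
    (G := fun t => (G.t ^ 9)⁻¹ * G.d (j + 1) * (t - t0)) (a := t0) (b := c) h0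
    (fun t ht => ⟨_, _, (hτ t ht).fun_sub (hl g0 t), hl _ t, S.cur_rate ht⟩)
  refine ⟨fun t => AA (j + 1) * Real.exp (τ t), by simp [τ0], fun t ht =>
    ⟨by positivity, ?_, ?_⟩⟩
  · convert (hτ t ht).exp.const_mul (AA (j + 1)) using 1
    ring
  · have k1 := key t ht
    simp only [τ0, sub_self, mul_zero, sub_zero, Real.norm_eq_abs] at k1
    have k2 : (G.t ^ 9)⁻¹ * G.d (j + 1) * (t - t0) ≤ 1 / 10 ^ 51 := by
      have := mul_le_mul_of_nonneg_left (S.cur_time ht)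
        (inv_pos.mpr (pow_pos G.t_pos 9)).le
      have e : (G.t ^ 9)⁻¹ * (2 * G.t) = 2 * (G.t ^ 8)⁻¹ := by
        have := G.t_pos
        field_simp
      have := cur_tinv G (k := 8) (by norm_num)
      linarith
    have k3 := Real.abs_exp_sub_one_le (x := τ t - g0 * (t - t0)) (k1.trans (k2.trans (by norm_num)))
    have e : AA (j + 1) * Real.exp (τ t) - Ex t0 (AA (j + 1)) g0 t =
        Ex t0 (AA (j + 1)) g0 t * (Real.exp (τ t - g0 * (t - t0)) - 1) := by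
      unfold Ex
      rw [Real.exp_sub]
      field_simp
    have hE : 0 < Ex t0 (AA (j + 1)) g0 t := by unfold Ex; positivity
    rw [e, abs_mul, abs_of_pos hE, mul_comm]
    exact mul_le_mul_of_nonneg_right (by linarith only [k1, k2, k3]) hE.le

/-- The equations of the current level in normalised form. -/
lemma cur_eqs {t : ℝ} (ht : t ∈ Icc t0 c) : ∃ p : V, (∀ f, ‖p * f‖ ≤ ‖f‖) ∧
    ‖p * G.φ (j + 1) - G.φ (j + 1)‖ ≤ 200 / G.t ^ 17 ∧
    ‖dag p * G.φ (j + 1) - G.φ (j + 1)‖ ≤ 200 / G.t ^ 17 ∧ ∀ o, ∃ r1 r2 : V,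
      ‖r1‖ + ‖r2‖ ≤ (G.t ^ 20)⁻¹ * (G.d (j + 1) * (Ex t0 (AA (j + 1)) g0 t * R.un G (j + 1))) ∧
      HD (R.b (j + 1) o) (((G.d (j + 1) * R.aa G j t : ℝ) : ℂ) •
        pj (G.rb (j + 1)) (dag p * R.c (j + 1) o t) - (G.d (j + 1) : ℂ) • R.b (j + 1) o t
        - mulr (R.vb (j + 1)) (R.b (j + 1) o t) + r1) t ∧
      HD (R.c (j + 1) o) (((G.d (j + 1) * R.aa G j t : ℝ) : ℂ) • (p * R.b (j + 1) o t)
        - (G.d (j + 1) : ℂ) • R.c (j + 1) o t - mulr (R.vc (j + 1)) (R.c (j + 1) o t) + r2) t := by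
  have h0 : 0 ≤ t := S.st.t0.trans ht.1
  obtain ⟨-, -, mv, κ, hD⟩ := (S.bnd t ht).old H (Nat.lt_succ_self j)
  have hp : Drv G.t (G.rd j) (rot3 mv) κ (R.pp G j t) := hD.tau
  have hA := H.kap_A (lt_of_lt_of_le one_pos (S.cur_aa ht).1)
  have hA' : (R.kap G j : ℂ) • dag (R.A G j t) =
      ((G.d (j + 1) * R.aa G j t : ℝ) : ℂ) • dag (R.pp G j t) := by
    have := congrArg dag hA
    rwa [dag_smul, dag_smul, conj_ofReal, conj_ofReal] at this
  have hρ : 200 / G.ρ ≤ 200 / G.t ^ 17 :=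
    div_le_div_of_nonneg_left (by norm_num) (pow_pos G.t_pos _) G.ρ_lo
  refine ⟨R.pp G j t, hp.norm_mul_le, (hp.norm_mul_ph_sub G.ρ_big (G.rb_succ j)).trans hρ,
    (hp.norm_dag_mul_ph_sub G.ρ_big (G.rb_succ j)).trans hρ, fun o => ?_⟩
  obtain ⟨r1, h1, e1⟩ := H.eqB j o t h0
  obtain ⟨r2, h2, e2⟩ := H.eqC j o t h0
  refine ⟨r1, R.f G j o t + r2, ?_, ?_, ?_⟩
  · have := (S.bnd t ht).err_cur H (S.jb t ht) o
    linarith [norm_add_le (R.f G j o t) r2]
  · rwa [← map_smul, ← smul_mul_assoc, hA', smul_mul_assoc, map_smul] at e1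
  · rwa [← smul_mul_assoc, hA, smul_mul_assoc, add_assoc] at e2

end Run

end

end Pool.Agent.Work.MP_6bf1e5_an.Hyp
end

-- merged part: Pool.Agent.Work.MP_6bf1e5_an.Hyp.ComboA
section
/-!
Linear combinations of teeth.
-/

open Set Complex Filter Topology
open scoped InnerProductSpace ComplexConjugate
open Pool.Agent.Work.MP_6bf1e5_an.B (Z3 R3)
open Pool.Agent.Work.MP_6bf1e5_an.Hyp.Dec

namespace Pool.Agent.Work.MP_6bf1e5_an.Hyp

noncomputable section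

variable {G : Geo} {R : Raw}

lemma norm_cmb_le (m : Fin 4 → ℝ) {g : Fin 4 → V} {c : ℝ} (hg : ∀ o, ‖g o‖ ≤ c) :
    ‖cmb m g‖ ≤ (∑ o, |m o|) * c := by
  rw [Finset.sum_mul]
  refine (norm_sum_le _ _).trans (Finset.sum_le_sum fun o _ => ?_)
  rw [norm_smul, Complex.norm_real, Real.norm_eq_abs]
  exact mul_le_mul_of_nonneg_left (hg o) (abs_nonneg _)

lemma sp_cmb (m : Fin 4 → ℝ) {n : N3} {g : Fin 4 → V} (hg : ∀ o, Sp n (g o)) : Sp n (cmb m g) :=
  Sp.sum _ fun o _ => (hg o).smul _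

lemma rl_cmb (m : Fin 4 → ℝ) {g : Fin 4 → V} (hg : ∀ o, Rl (g o)) : Rl (cmb m g) :=
  Rl.sum _ fun o _ => (hg o).smul _

lemma hd_smul {f : ℝ → V} {f' : V} {t : ℝ} (h : HD f f' t) (c : ℂ) :
    HD (fun t => c • f t) (c • f') t :=
  HD.linc (c • LinearMap.id (R := ℂ) (M := V)) (C := ‖c‖) (fun v => by simp [norm_smul]) h

lemma hd_cmb (m : Fin 4 → ℝ) {g : Fin 4 → ℝ → V} {g' : Fin 4 → V} {t : ℝ}
    (h : ∀ o, HD (g o) (g' o) t) : HD (fun t => cmb m fun o => g o t) (cmb m g') t :=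
  HasDerivWithinAt.fun_sum fun o _ => hd_smul (h o) _

lemma map_cmb (L : V →ₗ[ℂ] V) (m : Fin 4 → ℝ) (g : Fin 4 → V) :
    L (cmb m g) = cmb m fun o => L (g o) := by
  simp only [cmb, map_sum, map_smul]

lemma mul_cmb (q : V) (m : Fin 4 → ℝ) (g : Fin 4 → V) :
    q * cmb m g = cmb m fun o => q * g o := map_cmb (LinearMap.mulLeft ℂ q) m g

lemma cmb_add (m : Fin 4 → ℝ) (f g : Fin 4 → V) :
    (cmb m fun o => f o + g o) = cmb m f + cmb m g := by
  simp only [cmb, smul_add, Finset.sum_add_distrib]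

lemma cmb_sub (m : Fin 4 → ℝ) (f g : Fin 4 → V) :
    (cmb m fun o => f o - g o) = cmb m f - cmb m g := by
  simp only [cmb, smul_sub, Finset.sum_sub_distrib]

lemma cmb_smul (m : Fin 4 → ℝ) (c : ℂ) (f : Fin 4 → V) :
    (cmb m fun o => c • f o) = c • cmb m f := by
  simp only [cmb, Finset.smul_sum, smul_comm c]

/-- Combinations of the teeth solve the equations of a pair. -/
lemma IsNet.pair (H : IsNet G R) (j : ℕ) (m : Fin 4 → ℝ) {t : ℝ} (ht : 0 ≤ t)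
    (ha : 0 < R.aa G j t) : ∃ e0 e1, ‖e0‖ ≤ (∑ o, |m o|) * R.eb G (j + 1) t ∧
      ‖e1‖ ≤ (∑ o, |m o|) * R.ec G j t ∧
      Pair (G.rd j) (G.rb (j + 1)) (G.ell (j + 1)) (G.d (j + 1)) (G.d (j + 1) * R.aa G j t) t
        (R.vb (j + 1)) (R.vc (j + 1)) (R.pp G j t) (fun t => cmb m fun o => R.b (j + 1) o t)
        (fun t => cmb m fun o => R.c (j + 1) o t) e0 ((cmb m fun o => R.f G j o t) + e1) := by
  choose r0 h0 d0 using fun o => H.eqB j o t ht
  choose r1 h1 d1 using fun o => H.eqC j o t ht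
  have k := H.kap_A ha
  have k0 : ∀ y, (R.kap G j : ℂ) • pj (G.rb (j + 1)) (dag (R.A G j t) * y) =
      ((G.d (j + 1) * R.aa G j t : ℝ) : ℂ) • pj (G.rb (j + 1)) (dag (R.pp G j t) * y) := by
    intro y
    have := congrArg dag k
    rw [dag_smul, dag_smul, Complex.conj_ofReal, Complex.conj_ofReal] at this
    rw [← map_smul, ← map_smul, ← smul_mul_assoc, ← smul_mul_assoc, this]
  have k1 : ∀ y, (R.kap G j : ℂ) • (R.A G j t * y) =
      ((G.d (j + 1) * R.aa G j t : ℝ) : ℂ) • (R.pp G j t * y) := by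
    intro y
    rw [← smul_mul_assoc, ← smul_mul_assoc, k]
  refine ⟨cmb m r0, cmb m r1, norm_cmb_le m h0, norm_cmb_le m h1, ?_, ?_, H.layb _,
    H.layc (j + 1), fun t => sp_cmb m fun o => H.spb _ o t,
    fun t => sp_cmb m fun o => H.spc (j + 1) o t⟩
  · have := hd_cmb m d0
    simp only [k0] at this
    rw [cmb_add, cmb_sub, cmb_sub, cmb_smul, cmb_smul, ← map_cmb, ← map_cmb, ← mul_cmb] at this
    exact this
  · have := hd_cmb m d1
    simp only [k1] at this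
    rw [cmb_add, cmb_add, cmb_sub, cmb_sub, cmb_smul, cmb_smul, ← map_cmb, ← mul_cmb,
      add_assoc] at this
    exact this

lemma sp_f (j : ℕ) (m : Fin 4 → ℝ) (t : ℝ) :
    Sp (fun i => G.rb (j + 1) i + 2 * G.rd j i) (cmb m fun o => R.f G j o t) :=
  sp_cmb m fun _ => (sp_pj (G.rc (j + 1)) _).smul _

lemma Seed.mono {T ρ N1 F X X' : ℝ} {n r : N3} {p f : V} (h : Seed T ρ n r N1 p f F X)
    (h0 : 0 < N1) (hX : X ≤ X') : Seed T ρ n r N1 p f F X' where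
  wt i u hu := (h.wt i u hu).trans (by gcongr)
  sup x hx := (h.sup x hx).trans (by gcongr)
  low := le_trans (by linarith) h.low

lemma Seed.norm_le {T ρ N1 F X : ℝ} {n r : N3} {p f : V} (h : Seed T ρ n r N1 p f F X)
    (hT : 0 ≤ T) (hρ : 0 ≤ ρ) : ‖f‖ ≤ (Real.exp (T / 10 ^ 19) * F + X) / N1 := by
  have := h.wt 0 0 (by simp; positivity)
  have e : Dec.wt (Pi.single (0 : Fin 3) (0 : ℝ)) f = f := by
    ext k; simp [coeff_wt]
  rwa [e] at this

/-- The rotated comb is a slowly varying driver. -/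
lemma Cur.pp {J : ℕ} {g0 t E : ℝ} (h : Cur G R J g0 t E) :
    Drv G.t (G.rd J) (rot3 (G.mv J)) (10 ^ 5 / G.t ^ 4) (R.pp G J t) ∧
      ∃ p', HD (R.pp G J) p' t ∧ Sp (fun i => 2 * G.rd J i) p' ∧ ev 0 p' = 0 ∧
        l1 p' ≤ 10 ^ 3 * G.d J := by
  obtain ⟨p', h1, h2, h3, h4⟩ := h.dp
  refine ⟨h.drv.tau, tau p', HD.tau h1, ?_, by rw [ev_zero_tau, h3], by rwa [l1_tau]⟩
  refine h2.tau.mono fun i => ?_
  fin_cases i <;> exact le_rfl

lemma Geo.poly_exp (G : Geo) {k : ℕ} (hk : k ≤ 1000) {x y : ℝ} (h : x + G.t ≤ y) :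
    G.t ^ k * Real.exp x ≤ Real.exp y := by
  have h1 := G.pow_le_exp hk
  have h2 : G.t / 10 ^ 50 ≤ G.t := div_le_self G.t_pos.le (by norm_num)
  calc G.t ^ k * Real.exp x ≤ Real.exp (G.t / 10 ^ 50) * Real.exp x := by gcongr
    _ = Real.exp (G.t / 10 ^ 50 + x) := (Real.exp_add _ _).symm
    _ ≤ Real.exp y := Real.exp_le_exp.mpr (by linarith only [h, h2])

lemma Geo.cpoly_exp (G : Geo) {k : ℕ} (hk : k < 1000) {x y : ℝ} (h : x + G.t ≤ y) :
    1000 * G.t ^ k * Real.exp x ≤ Real.exp y := by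
  have h1 := G.poly_exp (k := k + 1) hk h
  have h2 := G.pow_lt (a := k) (b := k + 1) (Nat.lt_succ_self k)
  have h3 : 0 < G.t ^ k := pow_pos G.t_pos k
  refine le_trans ?_ h1
  gcongr
  linarith only [h2, h3]

lemma Geo.cL_exp (G : Geo) {k : ℕ} (hk : k < 1000) {x y : ℝ} (h : x + G.t ≤ y) :
    1000 * (G.t ^ 20 * G.L ^ k) * Real.exp x ≤ Real.exp y := by
  have h1 := G.L_pow_le_exp (k := k + 1) hk
  have h2 := G.L_pow_lt (a := k) (b := k + 1) (Nat.lt_succ_self k)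
  have h3 : 0 < G.t ^ 20 * G.L ^ k := mul_pos (pow_pos G.t_pos _) (pow_pos G.L_pos k)
  have h4 : G.t / 10 ^ 50 ≤ G.t := div_le_self G.t_pos.le (by norm_num)
  calc _ ≤ Real.exp (G.t / 10 ^ 50) * Real.exp x :=
        mul_le_mul_of_nonneg_right (by linarith only [h1, h2, h3]) (Real.exp_pos x).le
    _ = Real.exp (G.t / 10 ^ 50 + x) := (Real.exp_add _ _).symm
    _ ≤ Real.exp y := Real.exp_le_exp.mpr (by linarith only [h, h4])

lemma Geo.cρ_exp (G : Geo) {a k : ℕ} (ha : a ≤ 20) (hk : k < 1000) {x y : ℝ} (h : x + G.t ≤ y) :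
    1000 * (G.t ^ a * G.ρ ^ k) * Real.exp x ≤ Real.exp y := by
  refine le_trans ?_ (G.cL_exp hk h)
  have h1 := G.pow_le ha
  have h2 := G.ρ_le_L
  have h3 := G.ρ_pos
  have h4 := G.t_pos
  gcongr

end

end Pool.Agent.Work.MP_6bf1e5_an.Hyp
end
end

-- merged part: Pool.Agent.Work.MP_6bf1e5_an.Hyp.CurB
section
/-!
The current level keeps its shape: distance to the ground state.
-/

open Set Complex Filter Topology
open scoped InnerProductSpace ComplexConjugate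
open Pool.Agent.Work.MP_6bf1e5_an.B (Z3 R3)
open Pool.Agent.Work.MP_6bf1e5_an.Hyp.Dec

namespace Pool.Agent.Work.MP_6bf1e5_an.Hyp

noncomputable section

variable {G : Geo} {R : Raw}

lemma cur_layb (H : IsNet G R) (j : ℕ) : ‖mulr (R.vb j) (G.φ j)‖ ≤ (G.t ^ 20)⁻¹ * G.d j := by
  have h := (H.layb j).norm_le (G.sp_φ j) (norm_coeff_ph_le (G.rb j))
  rw [mul_assoc, mul_inv_cancel₀ (Nn_pos _).ne', mul_one] at h
  exact h.trans (cur_ell_le G j)

lemma cur_layc (H : IsNet G R) (j : ℕ) : ‖mulr (R.vc j) (G.φ j)‖ ≤ 2 * ((G.t ^ 20)⁻¹ * G.d j) := by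
  have h := (H.layc j).norm_le ((G.sp_φ j).mono (G.rb_le_rc j)) (norm_coeff_ph_le (G.rb j))
  have h1 : Nn (G.rc j) * (Nn (G.rb j))⁻¹ ≤ 2 := by
    rw [← div_eq_mul_inv, div_le_iff₀ (Nn_pos _)]
    have := G.Nn_rc j
    have := G.N_pos j
    unfold Geo.N at *
    linarith
  have h2 := cur_ell_le G j
  have h3 := (H.layc j).l0
  rw [mul_assoc] at h
  linarith [mul_le_mul_of_nonneg_left h1 h3]

lemma cur_le_of_sq {x y U : ℝ} (hx : 0 ≤ x) (hU : 0 ≤ U) (h : x ^ 2 + y ^ 2 ≤ U ^ 2) : x ≤ U :=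
  (pow_le_pow_iff_left₀ hx hU two_ne_zero).mp (by linarith [sq_nonneg y])

namespace Run

variable (H : IsNet G R) {j : ℕ} {t0 c g0 : ℝ} {AA : ℕ → ℝ} (S : Run G R j AA t0 c g0)
  {a : ℝ → ℝ} (ha : ∀ t ∈ Icc t0 c, 0 < a t ∧
    HD a ((G.d (j + 1) * R.aa G j t - G.d (j + 1)) * a t) t ∧
    |a t - Ex t0 (AA (j + 1)) g0 t| ≤ 1 / 10 ^ 50 * Ex t0 (AA (j + 1)) g0 t)

include H S ha

omit H S in
lemma cur_E_le {t : ℝ} (ht : t ∈ Icc t0 c) : Ex t0 (AA (j + 1)) g0 t ≤ 2 * a t := by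
  obtain ⟨h1, -, h3⟩ := ha t ht
  linarith only [h1, (abs_le.mp h3).1]

omit H ha in
lemma cur_slack {t : ℝ} (ht : t ∈ Icc t0 c) :
    2 * (G.t ^ 16)⁻¹ * G.d (j + 1) * (t - t0) ≤ 4 * (G.t ^ 15)⁻¹ := by
  have := mul_le_mul_of_nonneg_left (S.cur_time ht) (inv_pos.mpr (pow_pos G.t_pos 16)).le
  have e : (G.t ^ 16)⁻¹ * (2 * G.t) = 2 * (G.t ^ 15)⁻¹ := by
    have := G.t_pos
    field_simp
  linarith

/-- The equations of the distance to the ground state. -/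
lemma cur_eqs2 {t : ℝ} (ht : t ∈ Icc t0 c) (o : Fin 4) : ∃ p e1 e2 : V,
    (∀ f, ‖p * f‖ ≤ ‖f‖) ∧
    ‖e1‖ + ‖e2‖ ≤ (G.t ^ 16)⁻¹ * G.d (j + 1) * (a t * R.un G (j + 1)) ∧
    HD (fun t => R.b (j + 1) o t - ((a t * R.un G (j + 1) : ℝ) : ℂ) • G.φ (j + 1))
      (((G.d (j + 1) * R.aa G j t : ℝ) : ℂ) • pj (G.rb (j + 1))
        (dag p * (R.c (j + 1) o t - ((a t * R.un G (j + 1) : ℝ) : ℂ) • G.φ (j + 1)))
        - (G.d (j + 1) : ℂ) • (R.b (j + 1) o t - ((a t * R.un G (j + 1) : ℝ) : ℂ) • G.φ (j + 1))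
        - mulr (R.vb (j + 1)) (R.b (j + 1) o t - ((a t * R.un G (j + 1) : ℝ) : ℂ) • G.φ (j + 1))
        + e1) t ∧
    HD (fun t => R.c (j + 1) o t - ((a t * R.un G (j + 1) : ℝ) : ℂ) • G.φ (j + 1))
      (((G.d (j + 1) * R.aa G j t : ℝ) : ℂ) •
        (p * (R.b (j + 1) o t - ((a t * R.un G (j + 1) : ℝ) : ℂ) • G.φ (j + 1)))
        - (G.d (j + 1) : ℂ) • (R.c (j + 1) o t - ((a t * R.un G (j + 1) : ℝ) : ℂ) • G.φ (j + 1))
        - mulr (R.vc (j + 1)) (R.c (j + 1) o t - ((a t * R.un G (j + 1) : ℝ) : ℂ) • G.φ (j + 1))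
        + e2) t := by
  obtain ⟨p, hp, q1, q2, hq⟩ := S.cur_eqs H ht
  obtain ⟨r1, r2, hr, e1, e2⟩ := hq o
  obtain ⟨a0, hA, -⟩ := ha t ht
  have hE := cur_E_le ha ht
  obtain ⟨s1, s2⟩ := S.cur_aa ht
  have hu := H.un_pos (j + 1)
  have hd := G.d_pos (j + 1)
  have lb := cur_layb H (j + 1)
  have lc := cur_layc H (j + 1)
  have hφ : pj (G.rb (j + 1)) (G.φ (j + 1)) = G.φ (j + 1) := (G.sp_φ _).pj_eq
  have hAφ := (HD.ofReal (hA.mul_const (R.un G (j + 1)))).smul_const (G.φ (j + 1))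
  set φ := G.φ (j + 1)
  set d := G.d (j + 1)
  set u := R.un G (j + 1)
  set s := R.aa G j t
  refine ⟨p, ((d * s * (a t * u) : ℝ) : ℂ) • pj (G.rb (j + 1)) (dag p * φ - φ) -
      ((a t * u : ℝ) : ℂ) • mulr (R.vb (j + 1)) φ + r1,
    ((d * s * (a t * u) : ℝ) : ℂ) • (p * φ - φ) - ((a t * u : ℝ) : ℂ) • mulr (R.vc (j + 1)) φ + r2,
    hp, ?_, ?_, ?_⟩
  · have hA0 : 0 < a t * u := by positivity
    have hs0 : 0 < d * s * (a t * u) := by (clear * - a0 hd hu s1; positivity)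
    have n1 : ∀ (X Y Z : V), ‖((d * s * (a t * u) : ℝ) : ℂ) • X - ((a t * u : ℝ) : ℂ) • Y + Z‖ ≤
        d * s * (a t * u) * ‖X‖ + a t * u * ‖Y‖ + ‖Z‖ := fun X Y Z => by
      refine (norm_add_le _ _).trans (add_le_add ((norm_sub_le _ _).trans (le_of_eq ?_)) le_rfl)
      rw [norm_smul, norm_smul, Complex.norm_real, Complex.norm_real, Real.norm_of_nonneg hs0.le,
        Real.norm_of_nonneg hA0.le]
    have m1 := n1 (pj (G.rb (j + 1)) (dag p * φ - φ)) (mulr (R.vb (j + 1)) φ) r1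
    have m2 := n1 (p * φ - φ) (mulr (R.vc (j + 1)) φ) r2
    have m3 := mul_le_mul_of_nonneg_left ((norm_pj_le (G.rb (j + 1)) _).trans q2) hs0.le
    have m4 := mul_le_mul_of_nonneg_left q1 hs0.le
    have m5 := mul_le_mul_of_nonneg_left lb hA0.le
    have m6 := mul_le_mul_of_nonneg_left lc hA0.le
    have t1 := cur_tinv_succ G (show 16 < 17 by norm_num)
    have t2 := cur_tinv_succ G (show 16 < 20 by norm_num)
    have t3 : 0 < (G.t ^ 20)⁻¹ := inv_pos.mpr (pow_pos G.t_pos _)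
    have t4 : 0 < (G.t ^ 17)⁻¹ := inv_pos.mpr (pow_pos G.t_pos _)
    have t5 : 0 < (G.t ^ 16)⁻¹ := inv_pos.mpr (pow_pos G.t_pos _)
    have hdA : 0 < d * (a t * u) := by positivity
    have m7 : (G.t ^ 20)⁻¹ * (d * (Ex t0 (AA (j + 1)) g0 t * u)) ≤
        (G.t ^ 20)⁻¹ * (2 * (d * (a t * u))) := by
      refine mul_le_mul_of_nonneg_left ?_ t3.le
      linarith only [mul_le_mul_of_nonneg_right hE (mul_pos hd hu).le]
    have m8 : d * s * (a t * u) * (200 / G.t ^ 17) ≤ 2200 * ((G.t ^ 17)⁻¹ * (d * (a t * u))) := by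
      rw [div_eq_mul_inv]
      linarith only [mul_le_mul_of_nonneg_right s2 (mul_pos t4 hdA).le]
    have m9 := mul_le_mul_of_nonneg_right t1 hdA.le
    have m10 := mul_le_mul_of_nonneg_right t2 hdA.le
    have m11 := mul_pos t5 hdA
    linarith only [hr, m1, m2, m3, m4, m5, m6, m7, m8, m9, m10, m11]
  · convert e1.fun_sub hAφ using 1
    simp only [mul_sub, map_sub, map_smul, mul_smul_comm, hφ, smul_sub, smul_smul]
    push_cast
    module
  · convert e2.fun_sub hAφ using 1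
    simp only [mul_sub, map_sub, map_smul, mul_smul_comm, smul_sub, smul_smul]
    push_cast
    module

lemma cur_close (a0 : a t0 = AA (j + 1)) {t : ℝ} (ht : t ∈ Icc t0 c) (o : Fin 4) :
    ‖R.b (j + 1) o t - ((a t * R.un G (j + 1) : ℝ) : ℂ) • G.φ (j + 1)‖ ≤
      2 / 10 ^ 30 * (a t * R.un G (j + 1)) ∧
    ‖R.c (j + 1) o t - ((a t * R.un G (j + 1) : ℝ) : ℂ) • G.φ (j + 1)‖ ≤
      2 / 10 ^ 30 * (a t * R.un G (j + 1)) := by
  have hu := H.un_pos (j + 1)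
  have hd := G.d_pos (j + 1)
  have key := cur_pair_bar (n := G.rb (j + 1)) (t2 := c) (c0 := 3 / 2 / 10 ^ 30)
    (x := fun t => R.b (j + 1) o t - ((a t * R.un G (j + 1) : ℝ) : ℂ) • G.φ (j + 1))
    (y := fun t => R.c (j + 1) o t - ((a t * R.un G (j + 1) : ℝ) : ℂ) • G.φ (j + 1))
    (s := fun t => G.d (j + 1) * R.aa G j t) (a := fun t => a t * R.un G (j + 1))
    S.st.t0 hd (inv_pos.mpr (pow_pos G.t_pos 16)) (by positivity)
    (H.layb (j + 1)).re_inner (H.layc (j + 1)).re_inner (by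
      have h1 := S.st.curb o
      have h2 := S.st.curc o
      simp only [a0]
      have h3 := pow_le_pow_left₀ (norm_nonneg _) h1 2
      have h4 := pow_le_pow_left₀ (norm_nonneg _) h2 2
      linarith only [h3, h4, sq_nonneg (AA (j + 1) * R.un G (j + 1))])
    (fun t ht => by
      obtain ⟨h1, h2, -⟩ := ha t ht
      refine ⟨mul_nonneg hd.le (by linarith [(S.cur_aa ht).1]), by positivity, ?_,
        S.cur_eqs2 H ha ht o⟩
      convert h2.mul_const (R.un G (j + 1)) using 1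
      ring) t ht
  have hA : 0 < a t * R.un G (j + 1) := mul_pos (ha t ht).1 hu
  have h1 := S.cur_slack ht
  have h2 := cur_tinv G (k := 15) (by norm_num)
  have h3 : 0 ≤ 2 * (G.t ^ 16)⁻¹ * G.d (j + 1) * (t - t0) :=
    mul_nonneg (by have := G.t_pos; positivity) (sub_nonneg.mpr ht.1)
  have h4 : (3 / 2 / 10 ^ 30 + 2 * (G.t ^ 16)⁻¹ * G.d (j + 1) * (t - t0)) *
      (a t * R.un G (j + 1)) ≤ 2 / 10 ^ 30 * (a t * R.un G (j + 1)) :=
    mul_le_mul_of_nonneg_right (by linarith only [h1, h2]) hA.le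
  exact ⟨(cur_le_of_sq (norm_nonneg _) (by (clear * - hA h3; positivity)) key).trans h4,
    (cur_le_of_sq (norm_nonneg _) (by (clear * - hA h3; positivity)) ((add_comm _ _).le.trans key)).trans h4⟩

lemma cur_diff (a0 : a t0 = AA (j + 1)) {t : ℝ} (ht : t ∈ Icc t0 c) (o o' : Fin 4) :
    ‖R.b (j + 1) o t - R.b (j + 1) o' t‖ ≤ 8 / 5 * G.ι * (a t * R.un G (j + 1)) := by
  have hu := H.un_pos (j + 1)
  have hd := G.d_pos (j + 1)
  have hι : 0 < G.ι := by have := G.t_pos; unfold Geo.ι; positivity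
  have key := cur_pair_bar (n := G.rb (j + 1)) (t2 := c) (c0 := 3 / 2 * G.ι)
    (x := fun t => R.b (j + 1) o t - R.b (j + 1) o' t)
    (y := fun t => R.c (j + 1) o t - R.c (j + 1) o' t)
    (s := fun t => G.d (j + 1) * R.aa G j t) (a := fun t => a t * R.un G (j + 1))
    S.st.t0 hd (inv_pos.mpr (pow_pos G.t_pos 16)) (by positivity)
    (H.layb (j + 1)).re_inner (H.layc (j + 1)).re_inner (by
      have h1 := S.st.difb o o'
      have h2 := S.st.difc o o'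
      simp only [a0]
      have h3 := pow_le_pow_left₀ (norm_nonneg _) h1 2
      have h4 := pow_le_pow_left₀ (norm_nonneg _) h2 2
      linarith [sq_nonneg (G.ι * (AA (j + 1) * R.un G (j + 1)))])
    (fun t ht => by
      obtain ⟨h1, h2, -⟩ := ha t ht
      refine ⟨mul_nonneg hd.le (by linarith [(S.cur_aa ht).1]), by positivity, ?_, ?_⟩
      · convert h2.mul_const (R.un G (j + 1)) using 1
        ring
      obtain ⟨p, hp, -, -, hq⟩ := S.cur_eqs H ht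
      obtain ⟨r1, r2, hr, e1, e2⟩ := hq o
      obtain ⟨r1', r2', hr', e1', e2'⟩ := hq o'
      refine ⟨p, r1 - r1', r2 - r2', hp, ?_, ?_, ?_⟩
      · have hE := cur_E_le ha ht
        have t2 := cur_tinv_succ G (show 16 < 20 by norm_num)
        have t3 : 0 < (G.t ^ 20)⁻¹ := inv_pos.mpr (pow_pos G.t_pos _)
        have t5 : 0 < (G.t ^ 16)⁻¹ := inv_pos.mpr (pow_pos G.t_pos _)
        have hdA : 0 < G.d (j + 1) * (a t * R.un G (j + 1)) := by positivity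
        have m7 : (G.t ^ 20)⁻¹ * (G.d (j + 1) * (Ex t0 (AA (j + 1)) g0 t * R.un G (j + 1))) ≤
            (G.t ^ 20)⁻¹ * (2 * (G.d (j + 1) * (a t * R.un G (j + 1)))) := by
          refine mul_le_mul_of_nonneg_left ?_ t3.le
          linarith only [mul_le_mul_of_nonneg_right hE (mul_pos hd hu).le]
        have m10 := mul_le_mul_of_nonneg_right t2 hdA.le
        have m11 := mul_pos t5 hdA
        have := norm_sub_le r1 r1'
        have := norm_sub_le r2 r2'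
        linarith
      · convert e1.fun_sub e1' using 1
        simp only [mul_sub, map_sub, smul_sub]
        abel
      · convert e2.fun_sub e2' using 1
        simp only [mul_sub, map_sub, smul_sub]
        abel) t ht
  have hA : 0 < a t * R.un G (j + 1) := mul_pos (ha t ht).1 hu
  have h1 := S.cur_slack ht
  have h2 := cur_tinv_succ G (show 10 < 15 by norm_num)
  have h3 : 0 ≤ 2 * (G.t ^ 16)⁻¹ * G.d (j + 1) * (t - t0) :=
    mul_nonneg (by have := G.t_pos; positivity) (sub_nonneg.mpr ht.1)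
  have h4 : (3 / 2 * G.ι + 2 * (G.t ^ 16)⁻¹ * G.d (j + 1) * (t - t0)) *
      (a t * R.un G (j + 1)) ≤ 8 / 5 * G.ι * (a t * R.un G (j + 1)) := by
    refine mul_le_mul_of_nonneg_right ?_ hA.le
    unfold Geo.ι at hι ⊢
    linarith only [hι, h1, h2]
  exact (cur_le_of_sq (norm_nonneg _) (by (clear * - hι hA h3; positivity)) key).trans h4

/-- The derivative of a tooth in the sum norm. -/
lemma cur_der (a0 : a t0 = AA (j + 1)) {t : ℝ} (ht : t ∈ Icc t0 c) (o : Fin 4) :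
    ∃ D : V, HD (R.b (j + 1) o) (D + (((G.d (j + 1) * R.aa G j t - G.d (j + 1)) * a t *
      R.un G (j + 1) : ℝ) : ℂ) • G.φ (j + 1)) t ∧
      l1 D ≤ 1 / 10 ^ 27 * G.d (j + 1) * (a t * R.un G (j + 1)) * l1 (G.φ (j + 1)) := by
  have h0 : 0 ≤ t := S.st.t0.trans ht.1
  obtain ⟨p, e1, e2, hp, he, hx, -⟩ := S.cur_eqs2 H ha ht o
  obtain ⟨c1, c2⟩ := S.cur_close H ha a0 ht o
  obtain ⟨apos, hA, -⟩ := ha t ht
  obtain ⟨s1, s2⟩ := S.cur_aa ht
  have hu := H.un_pos (j + 1)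
  have hd := G.d_pos (j + 1)
  have hAφ := (HD.ofReal (hA.mul_const (R.un G (j + 1)))).smul_const (G.φ (j + 1))
  have spx : ∀ t, Sp (G.rb (j + 1))
      (R.b (j + 1) o t - ((a t * R.un G (j + 1) : ℝ) : ℂ) • G.φ (j + 1)) :=
    fun t => (H.spb _ _ _).sub ((G.sp_φ _).smul _)
  have spD := HD.sp hx h0 spx
  refine ⟨_, by simpa only [sub_add_cancel] using hx.fun_add hAφ, ?_⟩
  set x := R.b (j + 1) o t - ((a t * R.un G (j + 1) : ℝ) : ℂ) • G.φ (j + 1)
  set y := R.c (j + 1) o t - ((a t * R.un G (j + 1) : ℝ) : ℂ) • G.φ (j + 1)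
  set d := G.d (j + 1)
  set s := R.aa G j t
  set A := a t * R.un G (j + 1)
  have hA0 : 0 < A := by positivity
  set z := ((d * s : ℝ) : ℂ) • pj (G.rb (j + 1)) (dag p * y) - (d : ℂ) • x + e1 with hz
  have e : ((d * s : ℝ) : ℂ) • pj (G.rb (j + 1)) (dag p * y) - (d : ℂ) • x -
      mulr (R.vb (j + 1)) x + e1 = z - mulr (R.vb (j + 1)) x := by rw [hz]; abel
  rw [e] at spD ⊢
  have spz : Sp (G.rb (j + 1)) z := by
    have spv : Sp (G.rb (j + 1)) (mulr (R.vb (j + 1)) x) := (spx t).mulr (R.vb (j + 1))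
    simpa only [sub_add_cancel] using spD.add spv
  have nz : ‖z‖ ≤ d * s * ‖y‖ + d * ‖x‖ + ‖e1‖ := by
    refine (norm_add_le _ _).trans (add_le_add ((norm_sub_le _ _).trans ?_) le_rfl)
    rw [norm_smul, norm_smul, Complex.norm_real, Complex.norm_real,
      Real.norm_of_nonneg (by positivity), Real.norm_of_nonneg hd.le]
    refine add_le_add (mul_le_mul_of_nonneg_left ?_ (by positivity)) le_rfl
    exact (norm_pj_le _ _).trans (by rw [norm_dag_mul]; exact hp y)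
  have hdA : 0 < d * A := by positivity
  have t1 := cur_tinv G (k := 16) (by norm_num)
  have t2 := cur_tinv G (k := 20) (by norm_num)
  have nz2 : ‖z‖ ≤ 3 / 10 ^ 29 * (d * A) := by
    have m1 : d * s * ‖y‖ ≤ d * 11 * (2 / 10 ^ 30 * A) := by (clear * - hd s2 c2; gcongr)
    have m2 : d * ‖x‖ ≤ d * (2 / 10 ^ 30 * A) := by gcongr
    have m3 := mul_le_mul_of_nonneg_right t1 hdA.le
    linarith only [he, nz, hdA, m1, m2, m3, norm_nonneg e2]
  have hN := Nn_pos (G.rb (j + 1))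
  have l1z := spz.l1_le
  have l1v : l1 (mulr (R.vb (j + 1)) x) ≤ G.ell (j + 1) * Nn (G.rb (j + 1)) * ‖x‖ :=
    (H.layb (j + 1)).l1_le (spx t)
  have hφ : Nn (G.rb (j + 1)) ≤ l1 (G.φ (j + 1)) := le_l1_ph _
  have el : G.ell (j + 1) ≤ d := by
    have := cur_ell_le G (j + 1)
    linarith only [hd, this, mul_le_mul_of_nonneg_right t2 hd.le]
  have l0 := (H.layb (j + 1)).l0
  have m4 : G.ell (j + 1) * Nn (G.rb (j + 1)) * ‖x‖ ≤ d * Nn (G.rb (j + 1)) * (2 / 10 ^ 30 * A) := by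
    (clear * - hd c1 hN el; gcongr)
  have m5 : 3 * Nn (G.rb (j + 1)) * ‖z‖ ≤ 3 * Nn (G.rb (j + 1)) * (3 / 10 ^ 29 * (d * A)) := by
    gcongr
  have m6 := mul_le_mul_of_nonneg_left hφ hdA.le
  have m7 := mul_pos hdA hN
  refine (l1_sub_le _ _).trans ?_
  linarith only [l1z, l1v, m4, m5, m6, m7]

end Run

end

end Pool.Agent.Work.MP_6bf1e5_an.Hyp
end
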