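import Pool.Agent.Work.MP_6bf1e5_an.Hyp.ExGeo

-- merged part: Pool.Agent.Work.MP_6bf1e5_an.Hyp.Phase1C
section
/-!
Tails, errors and the pointwise bound during the first phase.
-/

open Set Complex Filter Topology
open scoped InnerProductSpace ComplexConjugate
open Pool.Agent.Work.MP_6bf1e5_an.B (Z3 R3)
open Pool.Agent.Work.MP_6bf1e5_an.Hyp.Dec

namespace Pool.Agent.Work.MP_6bf1e5_an.Hyp

noncomputable section

namespace F1

open Ph1 Q1

variable {T ρ κ d l N1 t1 t2 : ℝ} {r n : N3} {mv : Fin 3 → ℝ} {vb vc : Z3 → ℝ}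
  {p b c f : ℝ → V} {s F g τ : ℝ → ℝ}
  (H : F1 T ρ κ d l N1 t1 t2 r n mv vb vc p b c f s F g τ) {t : ℝ}

include H

lemma eps_tau (ht : t ∈ Icc t1 t2) : (ρ ^ 3)⁻¹ * (τ t - τ t1) ≤ 1 / 2 := by
  have T0 := H.T0
  have R0 := H.R0
  calc _ ≤ (ρ ^ 3)⁻¹ * (100 * (ρ ^ 2 / T)) := by gcongr; exact H.τle ht
    _ = 100 / (ρ * T) := by field_simp
    _ ≤ _ := by
        rw [div_le_iff₀ (by positivity)]
        nlinarith only [H.Rbig, H.T1]

lemma nrm (ht : t ∈ Icc t1 t2) :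
    ‖b t‖ ^ 2 + ‖c t‖ ^ 2 ≤ (4 * Real.exp (T / 10 ^ 19) * (g t / N1)) ^ 2 := by
  have T0 := H.T0
  have R0 := H.R0
  have N0 := H.N0
  have G0 := (H.hg t ht).1
  have := H.wt_le (i := 0) (u := 0) (x := 0) (by simp) (by positivity) t ht
  simp only [Pi.single_zero, wt_zero] at this
  refine this.trans ?_
  have h1 : Real.exp ((8 * 0 ^ 2 + (ρ ^ 3)⁻¹) * (τ t - τ t1)) ≤ 2 :=
    le_trans (Real.exp_le_exp.mpr (by linarith only [H.eps_tau ht])) exp_half_le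
  gcongr ?_ ^ 2
  calc _ ≤ 2 * Real.exp (T / 10 ^ 19) / N1 * g t * 2 := by gcongr
    _ = _ := by ring

lemma wt2 (ht : t ∈ Icc t1 t2) {i : Fin 3} {u : ℝ} (hu : |u| * r i ≤ T / (3000 * ρ)) :
    ‖wt (Pi.single i u) (b t)‖ ^ 2 + ‖wt (Pi.single i u) (c t)‖ ^ 2 ≤
      (g t / N1 * Real.exp (T / 10000)) ^ 2 := by
  have T0 := H.T0
  have R0 := H.R0
  have N0 := H.N0
  have G0 := (H.hg t ht).1
  refine (H.wt_le hu le_rfl t ht).trans ?_
  have h1 : (8 * (T / (3000 * ρ)) ^ 2 + (ρ ^ 3)⁻¹) * (τ t - τ t1) ≤ T / 11250 + 1 / 2 := by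
    have : 8 * (T / (3000 * ρ)) ^ 2 * (τ t - τ t1) ≤ T / 11250 := by
      calc _ ≤ 8 * (T / (3000 * ρ)) ^ 2 * (100 * (ρ ^ 2 / T)) := by gcongr; exact H.τle ht
        _ = _ := by field_simp; ring
    linarith only [this, H.eps_tau ht]
  gcongr ?_ ^ 2
  calc _ ≤ Real.exp 1 * Real.exp (T / 10 ^ 19) / N1 * g t * Real.exp (T / 11250 + 1 / 2) := by
        gcongr; linarith only [Real.add_one_le_exp 1]
    _ = g t / N1 * Real.exp (1 + T / 10 ^ 19 + (T / 11250 + 1 / 2)) := by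
        simp only [Real.exp_add]; ring
    _ ≤ _ := by gcongr; linarith only [H.Tbig]

lemma tail_le (ht : t ∈ Icc t1 t2) {q y : V} (hq : Sp (fun i => 4 * r i) q)
    (hy : Sp (fun i => n i + 2 * r i) y)
    (hw : ∀ (i : Fin 3) (u : ℝ), |u| * r i ≤ T / (3000 * ρ) →
      ‖wt (Pi.single i u) y‖ ≤ g t / N1 * Real.exp (T / 10000)) :
    l1 (q * y - pj n (q * y)) ≤ l1 q * (g t / ρ ^ 5) := by
  have T0 := H.T0
  have R0 := H.R0
  have N0 := H.N0
  have G0 := (H.hg t ht).1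
  have q0 := l1_nonneg q
  have key : ∀ (i : Fin 3) (u : ℝ), |u| * r i ≤ T / (3000 * ρ) →
      ‖wt (Pi.single i u) (q * y)‖ ≤ 2 * l1 q * (g t / N1 * Real.exp (T / 10000)) := by
    intro i u hu
    rw [wt_mul]
    refine (norm_mul_le_l1 _ _).trans (mul_le_mul ((hq.l1_wt_le _).trans ?_) (hw i u hu)
      (norm_nonneg _) (by positivity))
    gcongr
    refine le_trans (Real.exp_le_exp.mpr ?_) exp_half_le
    rw [sum_single]
    have := H.x0_le
    push_cast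
    linarith
  have h1 := norm_tail_le n (q * y) (u := fun i => T / (3000 * ρ) / r i) fun i => by
    have := H.r0 i
    positivity
  have h2 : ∀ i : Fin 3, Real.exp (-(T / (3000 * ρ) / r i * (n i + 1))) *
      (‖wt (Pi.single i (T / (3000 * ρ) / r i)) (q * y)‖ +
        ‖wt (Pi.single i (-(T / (3000 * ρ) / r i))) (q * y)‖) ≤
      Real.exp (-(T / 3000)) * (4 * l1 q * (g t / N1 * Real.exp (T / 10000))) := by
    intro i
    have r0 := H.r0 i
    have e1 : T / (3000 * ρ) / r i * (n i + 1) = T / 3000 := by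
      rw [H.hn i]; field_simp
    have e2 : |T / (3000 * ρ) / (r i : ℝ)| * r i ≤ T / (3000 * ρ) := by
      rw [abs_of_pos (by positivity), div_mul_cancel₀ _ r0.ne']
    rw [e1]
    gcongr
    linarith only [key i _ e2, key i (-(T / (3000 * ρ) / r i)) (by rwa [abs_neg])]
  have h3 : ‖q * y - pj n (q * y)‖ ≤
      3 * (Real.exp (-(T / 3000)) * (4 * l1 q * (g t / N1 * Real.exp (T / 10000)))) := by
    refine h1.trans ?_
    rw [Fin.sum_univ_three]
    linarith only [h2 0, h2 1, h2 2]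
  have h4 : ρ ^ 8 * (Real.exp (-(T / 3000)) * Real.exp (T / 10000)) ≤ 1 := by
    calc _ ≤ Real.exp (T / 10 ^ 19) * (Real.exp (-(T / 3000)) * Real.exp (T / 10000)) := by
          gcongr; exact H.Rexp (by norm_num)
      _ ≤ _ := by
          rw [← Real.exp_add, ← Real.exp_add]
          exact Real.exp_le_one_iff.mpr (by linarith only [T0])
  have hs : Sp (fun i => n i + 6 * r i) (q * y - pj n (q * y)) :=
    ((hq.mul hy).mono fun i => by simp only [Pi.add_apply]; omega).sub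
      ((sp_pj n _).mono fun i => Nat.le_add_right _ _)
  calc _ ≤ 3 * (4 * (ρ ^ 2 * N1)) * (3 * (Real.exp (-(T / 3000)) *
        (4 * l1 q * (g t / N1 * Real.exp (T / 10000))))) := by
        refine hs.l1_le.trans ?_
        gcongr
        exact H.NN fun i => le_rfl
    _ = l1 q * (g t / ρ ^ 5) * (144 / ρ *
        (ρ ^ 8 * (Real.exp (-(T / 3000)) * Real.exp (T / 10000)))) := by field_simp; ring
    _ ≤ l1 q * (g t / ρ ^ 5) * (1 * 1) := by
        gcongr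
        rw [div_le_one R0]; linarith only [H.Rbig]
    _ = _ := by ring

lemma tailB (ht : t ∈ Icc t1 t2) {q : V} (hq : Sp (fun i => 4 * r i) q) :
    l1 (q * b t - pj n (q * b t)) ≤ l1 q * (g t / ρ ^ 5) := by
  have N0 := H.N0
  have G0 := (H.hg t ht).1
  exact H.tail_le ht hq ((H.sb t).mono fun i => Nat.le_add_right _ _) fun i u hu =>
    le1 (by positivity) (H.wt2 ht hu)

lemma tailC (ht : t ∈ Icc t1 t2) {q : V} (hq : Sp (fun i => 2 * r i) q) :
    l1 (q * c t - pj n (q * c t)) ≤ l1 q * (g t / ρ ^ 5) := by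
  have N0 := H.N0
  have G0 := (H.hg t ht).1
  exact H.tail_le ht (hq.mono fun i => by omega) (H.sc t) fun i u hu =>
    le2 (by positivity) (H.wt2 ht hu)

lemma l1_small {m : N3} (hm : ∀ i, m i ≤ n i + 6 * r i) {y : V} (hy : Sp m y) {a : ℝ}
    (a0 : 0 ≤ a) (ha : ‖y‖ ≤ Real.exp (-T ^ 2) * (a / N1)) : l1 y ≤ a / ρ ^ 5 := by
  have T0 := H.T0
  have R0 := H.R0
  have N0 := H.N0
  calc _ ≤ 3 * (4 * (ρ ^ 2 * N1)) * ((ρ ^ 200)⁻¹ * (a / N1)) := by
        refine hy.l1_le.trans ?_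
        gcongr
        · exact H.NN hm
        · exact ha.trans (by gcongr; exact H.eps)
    _ = a / ρ ^ 5 * (12 / ρ ^ 193) := by field_simp; ring
    _ ≤ _ := mul_le_of_le_one_right (by positivity) (by
        rw [div_le_one (by positivity)]; linarith only [H.Rpow 0 193 (by norm_num)])

lemma err_le (ht : t ∈ Icc t1 t2) {m : N3} (hm : ∀ i, m i ≤ n i + 6 * r i) {v : Z3 → ℝ}
    (hv : Lay m l v) {y e : V} (hy : Sp m y)
    (hy' : ‖y‖ ≤ 4 * Real.exp (T / 10 ^ 19) * (g t / N1)) (se : Sp m e)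
    (he : ‖e‖ ≤ Real.exp (-T ^ 2) * ((F t + s t * g t) / N1)) :
    l1 (-mulr v y + e) ≤ (F t + s t * g t) / ρ ^ 4 := by
  have T0 := H.T0
  have R0 := H.R0
  have N0 := H.N0
  obtain ⟨G0, F0, -⟩ := H.hg t ht
  obtain ⟨s0, -, hl⟩ := H.hs t ht
  have l0 := hv.l0
  have a1 : l1 (-mulr v y) ≤ (F t + s t * g t) / ρ ^ 5 := by
    rw [l1_neg]
    calc _ ≤ Real.exp (-T ^ 2) * s t * (4 * (ρ ^ 2 * N1)) *
          (4 * Real.exp (T / 10 ^ 19) * (g t / N1)) := by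
          refine (hv.l1_le hy).trans ?_
          have := Nn_pos m
          gcongr
          exact H.NN hm
      _ = Real.exp (T / 10 ^ 19) * Real.exp (-T ^ 2) * (16 * ρ ^ 2 * (s t * g t)) := by
          field_simp; ring
      _ ≤ (ρ ^ 200)⁻¹ * (16 * ρ ^ 2 * (F t + s t * g t)) := by
          gcongr
          · exact H.eta' (by linarith only [T0])
          · linarith only [F0]
      _ = (F t + s t * g t) / ρ ^ 5 * (16 / ρ ^ 193) := by field_simp
      _ ≤ _ := mul_le_of_le_one_right (by positivity) (by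
          rw [div_le_one (by positivity)]; linarith only [H.Rpow 0 193 (by norm_num)])
  have a2 := H.l1_small hm se (by positivity) he
  have a3 : 2 * ((F t + s t * g t) / ρ ^ 5) ≤ (F t + s t * g t) / ρ ^ 4 := by
    calc _ = (F t + s t * g t) / (ρ ^ 5 / 2) := by field_simp
      _ ≤ _ := by gcongr; linarith only [H.Rpow 4 5 (by norm_num), pow_pos R0 4]
  linarith only [a1, a2, a3, l1_add_le (-mulr v y) e]

/-- The equations with all errors collected. -/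
lemma eqs (ht : t ∈ Icc t1 t2) : ∃ g0 g1 : V,
    l1 g0 ≤ (F t + s t * g t) / ρ ^ 4 ∧ l1 g1 ≤ (F t + s t * g t) / ρ ^ 4 ∧
    HD b ((s t : ℂ) • pj n (dag (p t) * c t) - (d : ℂ) • b t + g0) t ∧
    HD c ((s t : ℂ) • (p t * b t) - (d : ℂ) • c t + (f t + g1)) t := by
  obtain ⟨e0, e1, s0, s1, a0, a1, D0, D1⟩ := H.eq0 ht
  have N0 := H.N0
  have G0 := (H.hg t ht).1
  have h := H.nrm ht
  exact ⟨_, _, H.err_le ht (fun i => Nat.le_add_right _ _) H.lb (H.sb t) (le1 (by positivity) h)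
    s0 a0, H.err_le ht (fun i => by omega) H.lc (H.sc t) (le2 (by positivity) h) s1 a1,
    D0.congr_deriv (by abel), D1.congr_deriv (by abel)⟩

/-- The pointwise bound. -/
theorem sup_le {x : R3} (hx : x ∈ cube) : ∀ t ∈ Icc t1 t2,
    ‖ev x (b t)‖ ^ 2 + ‖ev x (c t)‖ ^ 2 ≤ (2 * g t) ^ 2 := by
  have T0 := H.T0
  have R0 := H.R0
  have main := bar2 (a := fun t => ev x (b t)) (b := fun t => ev x (c t)) (t2 := t2)
    (U := fun t => (6 / 5 + (ρ ^ 3)⁻¹ * (τ t - τ t1)) * g t) H.h0 ?_ fun t ht => ?_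
  · intro t ht
    refine (main t ht).trans ?_
    have := (H.hg t ht).1
    have := H.τ0 ht
    gcongr
    linarith [H.eps_tau ht]
  · simp only [sub_self, mul_zero, add_zero]
    have G0 := (H.hg t1 H.m1).1
    have w : ∀ {y : V}, Sp (fun i => n i + 2 * r i) y → ‖y‖ ≤ nr (b t1) (c t1) →
        ‖ev x y‖ ^ 2 ≤ (g t1 / 2) ^ 2 := fun {y} hy hy' => by
      gcongr
      refine (norm_ev_le _ _).trans ((H.l1_small (fun i => by omega) hy G0.le
        (hy'.trans H.init)).trans ?_)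
      gcongr
      linarith [H.Rpow 0 5 (by norm_num)]
    have w0 := w ((H.sb t1).mono fun i => Nat.le_add_right _ _) (le_nr_1 _ _)
    have w1 := w (H.sc t1) (le_nr_2 _ _)
    linarith [sq_nonneg (g t1)]
  obtain ⟨g0, g1, l0, l1', D0, D1⟩ := H.eqs ht
  have t0 := H.h0.trans ht.1
  have hp := (H.hp t ht).1
  obtain ⟨G0, F0, Dg⟩ := H.hg t ht
  obtain ⟨s0, Dτ, -⟩ := H.hs t ht
  have τ0 := H.τ0 ht
  set y := dag (p t) * c t with hy
  have tl : l1 (y - pj n y) ≤ 2 * (g t / ρ ^ 5) := by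
    have a1 := H.tailC ht hp.supp.dag
    rw [l1_dag] at a1
    exact a1.trans (by gcongr; exact hp.l1_le)
  have E0 : HD (fun t => ev x (b t)) (s t * (conj (ev x (p t)) * ev x (c t)) - d * ev x (b t) +
      ev x (g0 - (s t : ℂ) • (y - pj n y))) t :=
    (HD.ev3 D0 t0 H.sb x).congr_deriv (by
      simp only [hy, map_add, map_sub, map_smul, map_mul, ev_dag, smul_eq_mul]; ring)
  have E1 : HD (fun t => ev x (c t)) (s t * (ev x (p t) * ev x (b t)) - d * ev x (c t) +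
      (ev x (f t) + ev x g1)) t :=
    (HD.ev3 D1 t0 H.sc x).congr_deriv (by
      simp only [map_add, map_sub, map_smul, map_mul, smul_eq_mul])
  have DU := (((Dτ.sub_const (τ t1)).const_mul (ρ ^ 3)⁻¹).const_add (6 / 5)).fun_mul Dg
  refine ⟨_, _, _, E0, E1, DU, fun hY => ?_⟩
  set k := 6 / 5 + (ρ ^ 3)⁻¹ * (τ t - τ t1) with hk
  have k0 : 6 / 5 ≤ k := by rw [hk]; exact le_add_of_nonneg_right (by positivity)
  have U0 : 0 < k * g t := by positivity
  set w := s t * g t with hw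
  have w0 : 0 < w := by positivity
  have b0 : ‖ev x (g0 - (s t : ℂ) • (y - pj n y))‖ ≤ (F t + w) / ρ ^ 4 + 2 * (w / ρ ^ 5) := by
    refine (norm_ev_le _ _).trans ((l1_sub_le _ _).trans ?_)
    rw [l1_smul, Complex.norm_real, Real.norm_of_nonneg s0.le]
    have : s t * l1 (y - pj n y) ≤ 2 * (w / ρ ^ 5) := by
      calc _ ≤ s t * (2 * (g t / ρ ^ 5)) := by gcongr
        _ = _ := by rw [hw]; ring
    linarith only [l0, this]
  have b1 : ‖ev x (f t) + ev x g1‖ ≤ 11 / 10 * F t + (ρ ^ 200)⁻¹ * w + (F t + w) / ρ ^ 4 := by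
    refine (norm_add_le _ _).trans (add_le_add (((H.hf t ht).2.sup x hx).trans ?_)
      ((norm_ev_le _ _).trans l1'))
    gcongr
    exact H.eps
  have hst := stepC (d := d) (hp.ev_le hx) s0.le U0.le hY (add_le_add b0 b1)
  refine hst.trans_lt (mul_lt_mul_of_pos_left ?_ U0)
  have a2 : 6 / 5 * F t ≤ k * F t := by gcongr
  have i1 := mul_le_mul_of_nonneg_right (H.Rinv 3 4 (by norm_num)) w0.le
  have i2 := mul_le_mul_of_nonneg_right (H.Rinv 3 5 (by norm_num)) w0.le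
  have i3 := mul_le_mul_of_nonneg_right (H.Rinv 3 200 (by norm_num)) w0.le
  have i4 := mul_le_mul_of_nonneg_right (H.Rinv 0 4 (by norm_num)) F0
  have i5 : 0 < (ρ ^ 3)⁻¹ * w := by positivity
  have e : (ρ ^ 3)⁻¹ * s t * g t + k * ((s t - d) * g t + F t) =
      (s t - d) * (k * g t) + ((ρ ^ 3)⁻¹ * w + k * F t) := by rw [hw]; ring
  rw [e]
  simp only [div_eq_mul_inv, pow_zero, inv_one] at *
  linarith only [F0, i1, i2, i3, i5, a2, i4]

end F1

end

end Pool.Agent.Work.MP_6bf1e5_an.Hyp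
end

-- merged part: Pool.Agent.Work.MP_6bf1e5_an.Hyp.Phase1D
section
/-!
Growth of the component along the unstable direction during the first phase.
-/

open Set Complex Filter Topology
open scoped InnerProductSpace ComplexConjugate
open Pool.Agent.Work.MP_6bf1e5_an.B (Z3 R3)
open Pool.Agent.Work.MP_6bf1e5_an.Hyp.Dec

namespace Pool.Agent.Work.MP_6bf1e5_an.Hyp

noncomputable section

namespace F1

open Ph1 Q1

variable {T ρ κ d l N1 t1 t2 : ℝ} {r n : N3} {mv : Fin 3 → ℝ} {vb vc : Z3 → ℝ}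
  {p b c f : ℝ → V} {s F g τ : ℝ → ℝ}
  (H : F1 T ρ κ d l N1 t1 t2 r n mv vb vc p b c f s F g τ) {t : ℝ}

include H

lemma sqr_corner {x : R3} (hx : ∀ i, |x i| = th (n i)) : sqr r x ≤ 12 / ρ ^ 2 := by
  have T0 := H.T0
  have R0 := H.R0
  have key : ∀ i, ((r i : ℝ) * x i) ^ 2 ≤ 4 / ρ ^ 2 := fun i => by
    have r0 := H.r0 i
    rw [← sq_abs, abs_mul, hx, th, H.hn i, abs_of_pos r0]
    calc _ = (Real.pi / (2 * ρ)) ^ 2 := by field_simp
      _ ≤ (4 / (2 * ρ)) ^ 2 := by gcongr; exact Real.pi_le_four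
      _ = _ := by field_simp; ring
  rw [sqr, Fin.sum_univ_three]
  have : 12 / ρ ^ 2 = 4 / ρ ^ 2 + 4 / ρ ^ 2 + 4 / ρ ^ 2 := by ring
  linarith [key 0, key 1, key 2]

lemma loss_le (ht : t ∈ Icc t1 t2) :
    Ip n (b t) - Ip n (dag (p t) * (p t * b t)) ≤ 2500 * (g t / ρ ^ 2) := by
  have T0 := H.T0
  have R0 := H.R0
  have G0 := (H.hg t ht).1
  have hp := (H.hp t ht).1
  have hq : Sp (fun i => 4 * r i) (dl - dag (p t) * p t) :=
    Sp.sub (sp_sh (zero_mem_bx _)) ((hp.supp.dag.mul hp.supp).mono fun i => by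
      simp only [Pi.add_apply]; omega)
  have e : b t - dag (p t) * (p t * b t) = (dl - dag (p t) * p t) * b t := by
    rw [dl_eq_one]; ring
  rw [← Ip_sub, e]
  have lq : l1 (dl - dag (p t) * p t) ≤ 5 := by
    refine (l1_sub_le _ _).trans ?_
    have h1 := l1_mul_le (dag (p t)) (p t)
    rw [l1_dag] at h1
    have h2 : l1 (p t) * l1 (p t) ≤ 2 * 2 :=
      mul_le_mul hp.l1_le hp.l1_le (l1_nonneg _) (by norm_num)
    rw [l1_dl]; linarith
  have h := abs_Ip_le (norm_inner_ph_le (n := n) ((dl - dag (p t) * p t) * b t)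
    (S := 2400 * (g t / ρ ^ 2)) fun x hx => by
      have hc := corner_mem_cube3 hx
      have h1 : ev x (dl - dag (p t) * p t) = ((1 - ‖ev x (p t)‖ ^ 2 : ℝ) : ℂ) := by
        rw [map_sub, map_mul, ev_dl, ev_dag, Complex.conj_mul']; push_cast; ring
      have h2 : 0 ≤ 1 - ‖ev x (p t)‖ ^ 2 := by
        nlinarith only [hp.ev_le hc, norm_nonneg (ev x (p t))]
      have h4 : 1 - ‖ev x (p t)‖ ^ 2 ≤ 100 * (12 / ρ ^ 2) :=
        (hp.near x).trans (by gcongr; exact H.sqr_corner hx)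
      rw [map_mul, norm_mul, h1, Complex.norm_real, Real.norm_of_nonneg h2]
      calc _ ≤ 100 * (12 / ρ ^ 2) * (2 * g t) := by
            gcongr
            exact le1 (by positivity) (H.sup_le hc t ht)
        _ = _ := by ring)
  have h2 := H.tailB ht hq
  have h3 : l1 (dl - dag (p t) * p t) * (g t / ρ ^ 5) ≤ 5 * (g t / ρ ^ 2) := by
    gcongr
    · exact H.R1
    · norm_num
  have : 0 < g t / ρ ^ 2 := by positivity
  linarith [le_abs_self (Ip n ((dl - dag (p t) * p t) * b t))]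

lemma drift_le (ht : t ∈ Icc t1 t2) {q : V} (hq : Sp (fun i => 2 * r i) q)
    (ql : l1 q ≤ s t / (T ^ 4 * ρ ^ 2)) : |Ip n (q * c t)| ≤ 3 * (s t * g t / (T ^ 4 * ρ ^ 2)) := by
  have T0 := H.T0
  have R0 := H.R0
  have G0 := (H.hg t ht).1
  have l0 := l1_nonneg q
  have h := abs_Ip_le (norm_inner_ph_le (n := n) (q * c t) (S := l1 q * (2 * g t))
    fun x hx => by
      rw [map_mul, norm_mul]
      gcongr
      · exact norm_ev_le _ _
      · exact le2 (by positivity) (H.sup_le (corner_mem_cube3 hx) t ht))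
  have h3 : l1 q * (g t / ρ ^ 5) ≤ l1 q * g t := by
    gcongr
    exact div_le_self G0.le (one_le_pow₀ H.R1)
  have h4 : l1 q * g t ≤ s t * g t / (T ^ 4 * ρ ^ 2) := by
    calc _ ≤ s t / (T ^ 4 * ρ ^ 2) * g t := by gcongr
      _ = _ := by ring
  linarith only [h, h3, h4, H.tailC ht hq]

lemma beta_deriv (ht : t ∈ Icc t1 t2) :
    ∃ D, HD (fun t => Nn n * al n (p t) (b t) (c t)) D t ∧
      (s t - d) * (Nn n * al n (p t) (b t) (c t)) + 3 / 4 * F t -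
        3000 * (ρ ^ 2)⁻¹ * (s t * g t) ≤ D := by
  have T0 := H.T0
  have R0 := H.R0
  obtain ⟨g0, g1, l0, l1', D0, D1⟩ := H.eqs ht
  obtain ⟨hp, p', Dp, sp', p0, lp⟩ := H.hp t ht
  obtain ⟨G0, F0, -⟩ := H.hg t ht
  have s0 := (H.hs t ht).1
  refine ⟨_, Q1.hd_al Dp D0 D1, ?_⟩
  rw [al_eq]
  simp only [mul_add (dag (p t)), mul_sub (dag (p t)), mul_smul_comm, Ip_add, Ip_sub,
    Ip_smul, Ip_pj]
  have a2 := (abs_le.mp (H.drift_le ht sp'.dag (by rwa [l1_dag]))).1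
  have a4 : 4 / 5 * F t - (ρ ^ 200)⁻¹ * (s t * g t) ≤ Ip n (dag (p t) * f t) := by
    have := (H.hf t ht).2.low
    rw [inner_mul_left] at this
    refine le_trans ?_ this
    gcongr
    exact H.eps
  have a6 := (abs_le.mp ((abs_Ip_le_l1 n g0).trans l0)).1
  have a7 := (abs_le.mp ((abs_Ip_le_l1 n _).trans ((l1_mul_le _ _).trans
    (mul_le_mul ((l1_dag _).trans_le hp.l1_le) l1' (l1_nonneg _) (by norm_num))))).1
  have a8 := mul_le_mul_of_nonneg_left (H.loss_le ht) s0.le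
  have e : s t * (2500 * (g t / ρ ^ 2)) = 2500 * (ρ ^ 2)⁻¹ * (s t * g t) := by ring
  rw [e] at a8
  set w := s t * g t with hw
  have w0 : 0 < w := by positivity
  have i1 := mul_le_mul_of_nonneg_right (H.Rinv 2 4 (by norm_num)) w0.le
  have i2' : 10 ^ 20 * (T ^ 4 * ρ ^ 2)⁻¹ ≤ (ρ ^ 2)⁻¹ := by
    rw [← div_eq_mul_inv, ← one_div, div_le_div_iff₀ (by positivity) (by positivity), one_mul]
    gcongr
    simpa using H.Tpow 0 4 (by norm_num)
  have i2 := mul_le_mul_of_nonneg_right i2' w0.le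
  have i3 := mul_le_mul_of_nonneg_right (H.Rinv 2 200 (by norm_num)) w0.le
  have i4 := mul_le_mul_of_nonneg_right (H.Rinv 0 4 (by norm_num)) F0
  have i5 : 0 < (ρ ^ 2)⁻¹ * w := by positivity
  simp only [div_eq_mul_inv, pow_zero, inv_one] at *
  linarith only [F0, a8, i1, i2, i3, i5, a2, a4, a6, a7, i4]

/-- Lower bound for the unstable component. -/
theorem al_ge (hg1 : g t1 * Real.exp (τ t2 - τ t1 - d * (t2 - t1)) ≤ g t2 / 100) :
    g t2 ≤ 2 * (Nn n * al n (p t2) (b t2) (c t2)) := by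
  have T0 := H.T0
  have R0 := H.R0
  have hn := Nn_pos n
  have N0 := H.N0
  have G1 := (H.hg t1 H.m1).1
  have main := exp_le_of_deriv (τ := fun t => τ t - τ t1 - d * (t - t1)) (b := t2)
    (F := fun t => (3000 * (ρ ^ 2)⁻¹ * (τ t - τ t1) - 3 / 4) * g t +
      2 * g t1 * Real.exp (τ t - τ t1 - d * (t - t1)) +
      Nn n * al n (p t) (b t) (c t)) H.h0 fun t ht => ?_
  · have h := main t2 H.m2
    simp only [sub_self, mul_zero, Real.exp_zero, mul_one] at h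
    have i1 : Nn n * |al n (p t1) (b t1) (c t1)| ≤ g t1 := by
      calc _ ≤ ρ ^ 2 * N1 * (2 * ((ρ ^ 200)⁻¹ * (g t1 / N1))) := by
            gcongr
            · exact H.nN1
            · refine (abs_al_le2 (H.hp t1 H.m1).1 n _ _).trans ?_
              gcongr
              exact H.init.trans (by gcongr; exact H.eps)
        _ = g t1 / (ρ ^ 198 / 2) := by field_simp
        _ ≤ _ := div_le_self G1.le (by linarith only [H.Rpow 0 198 (by norm_num)])
    have i2 := mul_le_mul_of_nonneg_left (neg_abs_le (al n (p t1) (b t1) (c t1))) hn.le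
    have h' := le_trans (mul_nonneg (by linarith only [G1, i1, i2]) (Real.exp_pos _).le) h
    have G0 := (H.hg t2 H.m2).1
    have c1 : 3000 * (ρ ^ 2)⁻¹ * (τ t2 - τ t1) ≤ 1 / 8 := by
      calc _ ≤ 3000 * (ρ ^ 2)⁻¹ * (100 * (ρ ^ 2 / T)) := by gcongr; exact H.τ1
        _ = 300000 / T := by field_simp; ring
        _ ≤ _ := by rw [div_le_iff₀ T0]; linarith only [H.Tbig]
    have c3 : (3000 * (ρ ^ 2)⁻¹ * (τ t2 - τ t1) - 3 / 4) * g t2 ≤ -(5 / 8) * g t2 := by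
      gcongr; linarith only [c1]
    linarith only [hg1, h', G0, c3]
  obtain ⟨D, hD', hle⟩ := H.beta_deriv ht
  obtain ⟨G0, F0, Dg⟩ := H.hg t ht
  obtain ⟨s0, Dτ, -⟩ := H.hs t ht
  have τ0 := H.τ0 ht
  have Dl : HD (fun t => τ t - τ t1 - d * (t - t1)) (s t - d) t := by
    simpa using (Dτ.sub_const (τ t1)).fun_sub
      (((hasDerivWithinAt_id t (Ici 0)).sub_const t1).const_mul d)
  refine ⟨_, _, (((((Dτ.sub_const (τ t1)).const_mul _).sub_const (3 / 4)).fun_mul Dg).fun_add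
    (Dl.exp.const_mul _)).fun_add hD', Dl, ?_⟩
  have b7 : 0 ≤ 3000 * (ρ ^ 2)⁻¹ * (τ t - τ t1) * F t := by positivity
  linarith only [hle, b7]

end F1

end

end Pool.Agent.Work.MP_6bf1e5_an.Hyp
end

-- merged part: Pool.Agent.Work.MP_6bf1e5_an.Hyp.Phase1E
section
/-!
Concentration during the first phase.
-/

open Set Complex Filter Topology
open scoped InnerProductSpace ComplexConjugate
open Pool.Agent.Work.MP_6bf1e5_an.B (Z3 R3)
open Pool.Agent.Work.MP_6bf1e5_an.Hyp.Dec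

namespace Pool.Agent.Work.MP_6bf1e5_an.Hyp

noncomputable section

lemma Q1.algE {s d g j A X w lam a U : ℝ} (hs : 0 < s) (hg : 0 < g) (hj : 0 ≤ j) (hA : 0 < A)
    (hX : 0 < X) (hw : 1 ≤ w) (hl : 0 < lam) (hU0 : 0 ≤ U) (ha : a ≤ lam * s * g)
    (hU : U ^ 2 = g ^ 2 * (A * X + 10 * w)) :
    2 * ((s - d) * U ^ 2 - s * (10 * lam * (U ^ 2 / 3 - w * (4 * g ^ 2) / 30)) + U * a) <
      2 * g * ((s - d) * g + j) * (A * X + 10 * w) + g ^ 2 * (A * (X * (-lam * s))) := by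
  have R0 : 0 < A * X := by positivity
  have a1 : 2 * g * ((s - d) * g + j) * (A * X + 10 * w) =
      2 * ((s - d) * U ^ 2) + 2 * g * j * (A * X + 10 * w) := by rw [hU]; ring
  have a1' : 0 ≤ 2 * g * j * (A * X + 10 * w) := by positivity
  have a2 : lam * s * (g ^ 2 * (A * X)) ≤ lam * s * U ^ 2 := by
    rw [hU]; gcongr; linarith only [hw]
  have gU : g ≤ U := by
    refine (le_abs_self g).trans (abs_le_of_sq_le_sq ?_ hU0)
    rw [hU]
    exact le_mul_of_one_le_right (by positivity) (by linarith only [hw, R0])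
  have U0 : 0 < U := hg.trans_le gU
  have a3 : U * a ≤ lam * s * U ^ 2 := by
    calc _ ≤ U * (lam * s * U) := by gcongr; exact ha.trans (by gcongr)
      _ = _ := by ring
  have a4 : lam * s * (10 * (w * g ^ 2)) ≤ lam * s * U ^ 2 := by
    gcongr
    calc _ = g ^ 2 * (10 * w) := by ring
      _ ≤ _ := by rw [hU]; gcongr; linarith only [R0]
  have a8 : 0 < lam * s * U ^ 2 := by positivity
  rw [a1]
  linarith only [a1', a2, a3, a4, a8]

namespace F1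

open Ph1 Q1

variable {T ρ κ d l N1 t1 t2 : ℝ} {r n : N3} {mv : Fin 3 → ℝ} {vb vc : Z3 → ℝ}
  {p b c f : ℝ → V} {s F g τ : ℝ → ℝ}
  (H : F1 T ρ κ d l N1 t1 t2 r n mv vb vc p b c f s F g τ) {t : ℝ}

include H

/-- Concentration. -/
theorem conc {t' : ℝ} (ha : t' ∈ Icc t1 t2) (hτ : ρ ^ 2 / T / 1000 ≤ τ t2 - τ t')
    (hF : ∀ t ∈ Icc t' t2, F t ≤ Real.exp (-T ^ 2) * (s t * g t)) :
    nr (b t2) (c t2) ^ 2 ≤ 11 * T ^ 3 * (g t2 / Nn n) ^ 2 := by
  have T0 := H.T0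
  have R0 := H.R0
  have N0 := H.N0
  have hN := Nn_pos n
  have sub : ∀ {t}, t ∈ Icc t' t2 → t ∈ Icc t1 t2 := fun ht => ⟨ha.1.trans ht.1, ht.2⟩
  set K := Real.exp (T / 10 ^ 19) with hK
  have K1 : 1 ≤ K := Real.one_le_exp (by positivity)
  have T3 : 1 ≤ T ^ 3 := one_le_pow₀ H.T1
  have dv : ∀ y : ℝ, 0 ≤ y → y / N1 ≤ ρ ^ 2 * (y / Nn n) := fun y hy => by
    rw [← mul_div_assoc, div_le_div_iff₀ N0 hN]
    linarith only [mul_le_mul_of_nonneg_left H.nN1 hy]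
  have main := barrier (F := fun t => ‖b t‖ ^ 2 + ‖c t‖ ^ 2)
    (G := fun t => (g t / Nn n) ^ 2 * ((4 * K * ρ ^ 2) ^ 2 *
      Real.exp (-(1 / 10 ^ 11 * (T ^ 2 / ρ ^ 2)) * (τ t - τ t')) + 10 * T ^ 3))
    (a := t') (b := t2) (H.h0.trans ha.1) ?_ fun t ht => ?_
  · have h := main t2 ⟨ha.2, le_rfl⟩
    rw [nr_sq]
    refine h.trans ?_
    have x1 : Real.exp (-(1 / 10 ^ 11 * (T ^ 2 / ρ ^ 2)) * (τ t2 - τ t')) ≤
        Real.exp (-(T / 10 ^ 14)) := by
      rw [neg_mul]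
      gcongr
      calc _ = 1 / 10 ^ 11 * (T ^ 2 / ρ ^ 2) * (ρ ^ 2 / T / 1000) := by field_simp; ring
        _ ≤ _ := by gcongr
    have x2 : 4 * K * ρ ^ 2 ≤ K * K := by
      calc _ = K * (4 * ρ ^ 2) := by ring
        _ ≤ _ := by
          gcongr
          exact le_trans (by linarith only [H.Rpow 2 3 (by norm_num), pow_pos R0 2])
            (H.Rexp (k := 3) (by norm_num))
    have x3 : (K * K) ^ 2 * Real.exp (-(T / 10 ^ 14)) ≤ 1 := by
      rw [hK, sq]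
      simp only [← Real.exp_add]
      exact Real.exp_le_one_iff.mpr (by linarith only [T0])
    have x4 : (4 * K * ρ ^ 2) ^ 2 *
        Real.exp (-(1 / 10 ^ 11 * (T ^ 2 / ρ ^ 2)) * (τ t2 - τ t')) ≤ 1 :=
      le_trans (by gcongr) x3
    calc _ ≤ (g t2 / Nn n) ^ 2 * (11 * T ^ 3) := by gcongr; linarith only [T3, x4]
      _ = _ := by ring
  · have G0 := (H.hg t' ha).1
    simp only [sub_self, mul_zero, Real.exp_zero, mul_one]
    calc _ ≤ _ := H.nrm ha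
      _ ≤ (4 * K * (ρ ^ 2 * (g t' / Nn n))) ^ 2 := by gcongr; exact dv _ G0.le
      _ = (g t' / Nn n) ^ 2 * (4 * K * ρ ^ 2) ^ 2 := by ring
      _ ≤ _ := by gcongr; exact le_add_of_nonneg_right (by positivity)
  have ht' := sub ht
  obtain ⟨e0, e1, -, -, a0, a1, D0, D1⟩ := H.eq0 ht'
  obtain ⟨G0, F0, Dg⟩ := H.hg t ht'
  obtain ⟨s0, Dτ, -⟩ := H.hs t ht'
  refine ⟨_, _, D0.normsq.fun_add D1.normsq, ((Dg.div_const (Nn n)).fun_pow 2).fun_mul
    (((((Dτ.sub_const _).const_mul _).exp).const_mul _).add_const _), fun hY => ?_⟩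
  have ω0 : 0 < T ^ 2 / ρ ^ 2 := by positivity
  have ω1 : T ^ 2 / ρ ^ 2 ≤ (T ^ 16)⁻¹ := by
    rw [← one_div, div_le_div_iff₀ (by positivity) (by positivity), one_mul]
    calc T ^ 2 * T ^ 16 = T ^ 18 := by ring
      _ ≤ T ^ 34 := pow_le_pow_right₀ H.T1 (by norm_num)
      _ = (T ^ 17) ^ 2 := by ring
      _ ≤ _ := by gcongr; exact H.hρ
  have eps := H.eps
  have eta : K * Real.exp (-T ^ 2) ≤ (ρ ^ 200)⁻¹ := H.eta' (by linarith only [T0])
  have i0 := H.Rinv 0 200 (by norm_num)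
  rw [pow_zero, inv_one] at i0
  set w := s t * g t / N1 with hw
  have w0 : 0 < w := by positivity
  have hj : F t / N1 ≤ Real.exp (-T ^ 2) * w := by
    rw [hw, ← mul_div_assoc]; gcongr; exact hF t ht
  have hj' : (F t + s t * g t) / N1 ≤ 2 * w := by
    rw [add_div, ← hw]
    have : Real.exp (-T ^ 2) * w ≤ 1 * w := by gcongr; linarith only [eps, i0]
    linarith only [hj, this]
  have b0 : ‖e0‖ ≤ (ρ ^ 200)⁻¹ * (2 * w) := a0.trans (by (clear * - R0 N0 G0 F0 s0 eps hj'; gcongr))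
  have b1 : ‖e1‖ ≤ (ρ ^ 200)⁻¹ * (2 * w) := a1.trans (by (clear * - R0 N0 G0 F0 s0 eps hj'; gcongr))
  have b2 : ‖f t‖ ≤ (ρ ^ 200)⁻¹ * (2 * w) := by
    have := (H.hf t ht').2.wt 0 0 (by simp; positivity)
    rw [Pi.single_zero, wt_zero] at this
    calc _ ≤ _ := this
      _ = K * (F t / N1) + Real.exp (-T ^ 2) * w := by rw [hw]; ring
      _ ≤ K * (Real.exp (-T ^ 2) * w) + (ρ ^ 200)⁻¹ * w := by (clear * - N0 G0 s0 eps hj; gcongr)
      _ = K * Real.exp (-T ^ 2) * w + (ρ ^ 200)⁻¹ * w := by ring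
      _ ≤ (ρ ^ 200)⁻¹ * w + (ρ ^ 200)⁻¹ * w := by (clear * - N0 G0 s0 eta; gcongr)
      _ = _ := by ring
  have hst := stepE (d := d) (g0 := e0) (g1 := f t + e1) (U := nr (b t) (c t))
    (R := (ρ ^ 200)⁻¹ * (6 * w)) (H.hp t ht').1 H.r1 (H.sb t) s0.le H.lb.nonneg H.lc.nonneg
    (nr_nonneg _ _) (nr_sq _ _).symm (by linarith only [b0, b1, b2, norm_add_le (f t) e1]) ω0
    ω1 (ω1.trans (inv_le_one_of_one_le₀ (one_le_pow₀ H.T1)))
    (fun x hx => le1 (by positivity) (H.sup_le hx t ht'))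
  have q0 : ∏ i, (r i : ℝ) = Nn n ^ 2 / ρ ^ 3 := by
    rw [Nn_sq]
    simp only [H.hn, Fin.prod_univ_three]
    field_simp
  have q1 : √(T ^ 2 / ρ ^ 2) ^ 3 / (∏ i, (r i : ℝ)) * (2 * g t) ^ 2 =
      T ^ 3 * (4 * (g t / Nn n) ^ 2) := by
    rw [q0, ← div_pow, Real.sqrt_sq (by positivity)]
    field_simp; ring
  have q2 : 1 / 10 ^ 10 * (T ^ 2 / ρ ^ 2) = 10 * (1 / 10 ^ 11 * (T ^ 2 / ρ ^ 2)) := by ring
  rw [q1, q2] at hst
  rw [← nr_sq] at hY
  have fin := algE (d := d) (j := F t / Nn n) (a := (ρ ^ 200)⁻¹ * (6 * w))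
    (lam := 1 / 10 ^ 11 * (T ^ 2 / ρ ^ 2)) s0 (by positivity) (by positivity) (by positivity)
    (Real.exp_pos _) T3 (by positivity) (nr_nonneg _ _) (by
      calc _ ≤ (ρ ^ 200)⁻¹ * (6 * (ρ ^ 2 * (s t * g t / Nn n))) := by
            gcongr; exact dv _ (by positivity)
        _ = 6 * (ρ ^ 198)⁻¹ * s t * (g t / Nn n) := by field_simp
        _ ≤ _ := by
            have i9 : 0 < (ρ ^ 198)⁻¹ := by positivity
            have i8 : (ρ ^ 2)⁻¹ ≤ T ^ 2 / ρ ^ 2 := by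
              rw [← one_div]; gcongr; exact one_le_pow₀ H.T1
            gcongr ?_ * _ * _; linarith only [i9, i8, H.Rinv 2 198 (by norm_num)]) hY
  rw [← mul_add]
  refine lt_of_le_of_lt (mul_le_mul_of_nonneg_left hst (by norm_num)) (fin.trans_eq ?_)
  simp only [Nat.cast_ofNat, Nat.add_one_sub_one, pow_one]
  ring

end F1

end

end Pool.Agent.Work.MP_6bf1e5_an.Hyp
end

-- merged part: Pool.Agent.Work.MP_6bf1e5_an.Hyp.Phase1
section
/-!
The first phase: the seed takes over and concentrates.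
-/

open Set Complex Filter Topology
open scoped InnerProductSpace ComplexConjugate
open Pool.Agent.Work.MP_6bf1e5_an.B (Z3 R3)
open Pool.Agent.Work.MP_6bf1e5_an.Hyp.Dec

namespace Pool.Agent.Work.MP_6bf1e5_an.Hyp

noncomputable section

theorem phase1 {T ρ κ d l N1 t1 t' t2 : ℝ} {r n : N3} {mv : Fin 3 → ℝ} {vb vc : Z3 → ℝ}
    {p b c f : ℝ → V} {s F g τ : ℝ → ℝ} (hT : (10 : ℝ) ^ 100 ≤ T) (hρ : T ^ 17 ≤ ρ)
    (hρ' : ρ ^ 1000 ≤ Real.exp (T / 10 ^ 50))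
    (hn : ∀ i, (n i : ℝ) + 1 = ρ * r i) (N0 : 0 < N1) (N1n : N1 ≤ Nn n)
    (nN1 : Nn n ≤ ρ ^ 2 * N1) (h0 : 0 ≤ t1) (h1 : t1 ≤ t') (h2 : t' ≤ t2)
    (hp : ∀ t ∈ Icc t1 t2, Drv T r mv κ (p t) ∧ ∃ p', HD p p' t ∧ Sp (fun i => 2 * r i) p' ∧
      ev 0 p' = 0 ∧ l1 p' ≤ s t / (T ^ 4 * ρ ^ 2))
    (hs : ∀ t ∈ Icc t1 t2, 0 < s t ∧ HD τ (s t) t ∧ l ≤ Real.exp (-T ^ 2) * s t)
    (τ1 : τ t2 - τ t1 ≤ 100 * (ρ ^ 2 / T)) (τ2 : ρ ^ 2 / T / 1000 ≤ τ t2 - τ t')
    (hg : ∀ t ∈ Icc t1 t2, 0 < g t ∧ 0 ≤ F t ∧ HD g ((s t - d) * g t + F t) t)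
    (hf : ∀ t ∈ Icc t1 t2, Sp (fun i => n i + 2 * r i) (f t) ∧
      Seed T ρ n r N1 (p t) (f t) (F t) (Real.exp (-T ^ 2) * (s t * g t)))
    (he : ∀ t ∈ Icc t1 t2, ∃ e0 e1, ‖e0‖ ≤ Real.exp (-T ^ 2) * ((F t + s t * g t) / N1) ∧
      ‖e1‖ ≤ Real.exp (-T ^ 2) * ((F t + s t * g t) / N1) ∧
      Pair r n l d (s t) t vb vc (p t) b c e0 (f t + e1))
    (init : nr (b t1) (c t1) ≤ Real.exp (-T ^ 2) * (g t1 / N1))
    (hg1 : g t1 * Real.exp (τ t2 - τ t1 - d * (t2 - t1)) ≤ g t2 / 100)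
    (hF : ∀ t ∈ Icc t' t2, F t ≤ Real.exp (-T ^ 2) * (s t * g t)) :
    g t2 ≤ 2 * (Nn n * al n (p t2) (b t2) (c t2)) ∧
      nr (b t2) (c t2) ^ 2 ≤ 100 * T ^ 3 * al n (p t2) (b t2) (c t2) ^ 2 := by
  have H : F1 T ρ κ d l N1 t1 t2 r n mv vb vc p b c f s F g τ :=
    ⟨hT, hρ, hρ', hn, N0, nN1, h0, h1.trans h2, hp, hs, τ1, hg, hf, he, init⟩
  have T0 := H.T0
  have hN := Nn_pos n
  have G0 := (hg t2 H.m2).1
  have hal := H.al_ge hg1
  refine ⟨hal, (H.conc ⟨h1, h2⟩ τ2 hF).trans ?_⟩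
  have a1 : g t2 / Nn n ≤ 2 * al n (p t2) (b t2) (c t2) := by
    rw [div_le_iff₀ hN]
    linarith only [hal]
  calc _ ≤ 11 * T ^ 3 * (2 * al n (p t2) (b t2) (c t2)) ^ 2 := by gcongr
    _ = 44 * T ^ 3 * al n (p t2) (b t2) (c t2) ^ 2 := by ring
    _ ≤ _ := by gcongr; norm_num

end

end Pool.Agent.Work.MP_6bf1e5_an.Hyp
end
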