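import Pool.Agent.Work.MP_6bf1e5_an.Hyp.ExGeo
import Pool.Agent.Work.MP_6bf1e5_an.Hyp.CurB

-- merged part: Pool.Agent.Work.MP_6bf1e5_an.Hyp.UppA
section
-- merged part: Pool.Agent.Work.MP_6bf1e5_an.Hyp.Scal
section
/-!
The scalar comparison functions.
-/

open Set Complex Filter Topology
open scoped InnerProductSpace ComplexConjugate
open Pool.Agent.Work.MP_6bf1e5_an.B (Z3 R3)
open Pool.Agent.Work.MP_6bf1e5_an.Hyp.Dec

namespace Pool.Agent.Work.MP_6bf1e5_an.Hyp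

noncomputable section

/-- The amplitude `a` of the current level and the comparison function `g` of the new level. -/
structure Sc (T Λ Γ d g0 F0 bb t0 c : ℝ) (L : ℕ) (a g : ℝ → ℝ) : Prop where
  par : Par T Λ Γ
  hL : (L : ℝ) = Λ
  d0 : 0 < d
  bb0 : 0 < bb
  h0 : 0 ≤ t0
  le : t0 ≤ c
  dur : d * (c - t0) ≤ 2 * T
  g0_lo : 99 / 100 * d ≤ g0
  g0_hi : g0 ≤ 901 / 100 * d
  a0_lo : (T ^ 9 * (Γ / Λ))⁻¹ / 2 ≤ a t0
  a0_hi : a t0 ≤ 2000 * (T ^ 9 * (Γ / Λ))⁻¹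
  a_hi : a c ≤ 11
  da : ∀ t ∈ Icc t0 c, 0 < a t ∧ ∃ D, HD a D t ∧ 999 / 1000 * g0 * a t ≤ D ∧
    D ≤ 1001 / 1000 * g0 * a t
  F_lo : Real.exp (-(Γ / 2) - Γ / T) * (Γ * d * bb) ≤ F0
  F_hi : F0 ≤ Real.exp (-(Γ / 2) + Γ / T) * (Γ * d * bb)
  init : g t0 = Real.exp (T * (Γ / Λ)) * bb
  dg : ∀ t ∈ Icc t0 c, HD g (Γ * d * (a t - 1) * g t + F0 * a t ^ (L + 1)) t

namespace Sc

/-- The comparison function. -/
def psi (x : ℝ) : ℝ := x - 1 - Real.log x

lemma psi_one : psi 1 = 0 := by simp [psi]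

lemma psi_lo {x : ℝ} (h0 : 0 < x) (h1 : x ≤ 16) : (x - 1) ^ 2 / 25 ≤ psi x := by
  have a := Real.log_le_sub_one_of_pos (Real.sqrt_pos.mpr h0)
  rw [Real.log_sqrt h0.le] at a
  have b : √x ≤ 4 := Real.sqrt_le_iff.2 ⟨by norm_num, by linarith only [h1]⟩
  have c := Real.sqrt_nonneg x
  have e := Real.sq_sqrt h0.le
  set y := √x
  have : (x - 1) ^ 2 = (y - 1) ^ 2 * (y + 1) ^ 2 := by rw [← e]; ring
  have f : (y + 1) ^ 2 ≤ 25 := by linarith only [h1, b, e]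
  have g := mul_le_mul_of_nonneg_left f (sq_nonneg (y - 1))
  unfold psi
  linarith

lemma psi_nonneg {x : ℝ} (h0 : 0 < x) : 0 ≤ psi x := by
  have := Real.log_le_sub_one_of_pos h0
  unfold psi
  linarith

lemma psi_hi {x : ℝ} (h1 : 1 ≤ x) : psi x ≤ (x - 1) ^ 2 := by
  have a := Real.one_sub_inv_le_log_of_pos (show 0 < x by linarith)
  have b : x * x⁻¹ = 1 := mul_inv_cancel₀ (by linarith)
  have c : x⁻¹ ≤ 1 := inv_le_one_of_one_le₀ h1
  have : x - 1 - (1 - x⁻¹) = (x - 1) ^ 2 * x⁻¹ := by linear_combination (2 - x) * b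
  have := mul_le_mul_of_nonneg_left c (sq_nonneg (x - 1))
  unfold psi
  linarith

lemma psi_le {x : ℝ} (h1 : 1 ≤ x) (h2 : x ≤ 21 / 10) : psi x ≤ 2 / 5 := by
  have a := Real.le_log_one_add_of_nonneg (show 0 ≤ x - 1 by linarith only [h1])
  rw [add_sub_cancel, div_le_iff₀ (by linarith only [h1])] at a
  unfold psi
  nlinarith only [h1, h2, a]

lemma psi_ge {x : ℝ} (h1 : 99 / 10 ≤ x) (h2 : x ≤ 11) : 59 / 10 ≤ psi x := by
  have : Real.log x ≤ 3 := by
    rw [Real.log_le_iff_le_exp (by linarith), show (3 : ℝ) = (3 : ℕ) * 1 by norm_num,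
      Real.exp_nat_mul]
    have := pow_le_pow_left₀ (by norm_num) Real.exp_one_gt_d9.le 3
    linarith only [h2, this]
  unfold psi
  linarith

lemma sub_le {F G : ℝ → ℝ} {s t : ℝ} (hs : 0 ≤ s) (hst : s ≤ t)
    (h : ∀ u ∈ Icc s t, ∃ D D', HD F D u ∧ HD G D' u ∧ D ≤ D') : F t - F s ≤ G t - G s := by
  have := mono_of_deriv (F := fun u => G u - F u) (b := t) hs (fun u hu => by
    obtain ⟨D, D', h1, h2, h3⟩ := h u hu
    exact ⟨_, h2.sub h1, by linarith⟩) le_rfl hst le_rfl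
  linarith

lemma hd_mul (k t : ℝ) : HD (fun s => k * s) k t := by
  simpa using (hasDerivWithinAt_id t (Ici 0)).const_mul k

variable {T Λ Γ d g0 F0 bb t0 c : ℝ} {L : ℕ} {a g : ℝ → ℝ}
  (H : Sc T Λ Γ d g0 F0 bb t0 c L a g)

include H

lemma hT : (10 : ℝ) ^ 100 ≤ T := H.par.hT

lemma T1 : 1 ≤ T := le_trans (by norm_num) H.hT

lemma T0 (k : ℕ) : 0 < T ^ k := pow_pos (by linarith [H.T1]) k

lemma pw {m n : ℕ} (h : m < n) : 10 ^ 100 * T ^ m ≤ T ^ n :=
  calc 10 ^ 100 * T ^ m ≤ T * T ^ m := mul_le_mul_of_nonneg_right H.hT (H.T0 m).le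
    _ = T ^ (m + 1) := by ring
    _ ≤ T ^ n := pow_le_pow_right₀ H.T1 h

lemma L1 : 10 ^ 100 * T ^ 20 ≤ Λ := (H.pw (by norm_num)).trans H.par.hL

lemma L2 : 10 ^ 100 ≤ Λ := le_trans (by simpa using H.pw (show 0 < 21 by norm_num)) H.par.hL

lemma L0 : 0 < Λ := lt_of_lt_of_le (by norm_num) H.L2

lemma G0 : 0 < Γ := lt_of_lt_of_le (pow_pos H.L0 2) H.par.lo

lemma LQ : Λ ≤ Γ / Λ := by
  rw [le_div_iff₀ H.L0, ← sq]
  exact H.par.lo

lemma q41 : 10 ^ 100 * (Γ / T) ≤ Γ := by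
  have h1 : 0 < T := by linarith [H.T1]
  have h2 := mul_le_mul_of_nonneg_right H.hT (div_pos H.G0 h1).le
  rwa [mul_div_cancel₀ _ h1.ne'] at h2

lemma q22 : 10 ^ 100 * (T * (Γ / Λ)) ≤ Γ / T := by
  have h1 : 0 < T := by linarith [H.T1]
  have h0 := H.L0
  have h2 : 10 ^ 100 * T ^ 2 ≤ Λ := (H.pw (by norm_num)).trans H.par.hL
  have h3 := mul_le_mul_of_nonneg_right h2 (div_pos (div_pos H.G0 h0) h1).le
  calc _ = 10 ^ 100 * T ^ 2 * (Γ / Λ / T) := by field_simp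
    _ ≤ Λ * (Γ / Λ / T) := h3
    _ = _ := by field_simp

lemma q21 : Λ ≤ T * (Γ / Λ) :=
  H.LQ.trans (le_mul_of_one_le_left (H.L0.le.trans H.LQ) H.T1)

lemma q1 : T ≤ Λ := le_trans (by simpa using pow_le_pow_right₀ H.T1 (show 1 ≤ 21 by norm_num))
  H.par.hL

lemma qexp : 1 + Γ * (2 * T) ≤ Real.exp T := by
  have h0 := H.L0
  have h2 := H.L2
  have h1 : 1 ≤ Λ := le_trans (by norm_num) h2
  have h3 : Γ ≤ Λ ^ 3 := by
    refine le_of_sq_le_sq ?_ (by positivity) |>.trans le_rfl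
    have h4 := mul_le_mul_of_nonneg_left (one_le_pow₀ (n := 21) H.T1) (sq_nonneg Γ)
    have h5 : Λ ^ 5 ≤ Λ ^ 6 := pow_le_pow_right₀ h1 (by norm_num)
    have := H.par.hi
    calc Γ ^ 2 ≤ Λ ^ 6 := by linarith
      _ = _ := by ring
  have h4 : Γ * (2 * T) ≤ Λ ^ 3 * (2 * Λ) :=
    mul_le_mul h3 (by linarith [H.q1]) (by linarith [H.T1]) (by positivity)
  have h5 : 1 ≤ Λ ^ 4 := one_le_pow₀ h1
  have h6 := mul_le_mul_of_nonneg_left h2 (pow_pos h0 4).le
  have h7 : Λ ^ 5 ≤ Λ ^ 1000 := pow_le_pow_right₀ h1 (by norm_num)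
  have h8 : Real.exp (T / 10 ^ 50) ≤ Real.exp T :=
    Real.exp_le_exp.2 (div_le_self (by linarith [H.T1]) (by norm_num))
  have h9 := H.par.sm
  have e1 : Λ ^ 3 * (2 * Λ) = 2 * Λ ^ 4 := by ring
  have e2 : Λ ^ 4 * Λ = Λ ^ 5 := by ring
  linarith

lemma F0_pos : 0 < F0 := by
  have := H.G0
  have := H.d0
  have := H.bb0
  exact lt_of_lt_of_le (by positivity) H.F_lo

lemma rho {t : ℝ} (ht : t ∈ Icc t0 c) : 0 < a t ∧ ∃ ρ, HD a (ρ * a t) t ∧ 989 / 1000 * d ≤ ρ ∧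
    ρ ≤ 902 / 100 * d := by
  obtain ⟨h0, D, h1, h2, h3⟩ := H.da t ht
  have := H.g0_lo
  have := H.g0_hi
  have := H.d0
  refine ⟨h0, D / a t, by rwa [div_mul_cancel₀ _ h0.ne'], ?_, ?_⟩
  · rw [le_div_iff₀ h0]
    nlinarith
  · rw [div_le_iff₀ h0]
    nlinarith

lemma pos {t : ℝ} (ht : t ∈ Icc t0 c) : 0 < a t := (H.rho ht).1

lemma mono {s t : ℝ} (hs : t0 ≤ s) (hst : s ≤ t) (ht : t ≤ c) : a s ≤ a t :=
  mono_of_deriv H.h0 (fun u hu => by
    obtain ⟨h0, ρ, h1, h2, -⟩ := H.rho hu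
    have := H.d0
    exact ⟨_, h1, mul_nonneg (by linarith) h0.le⟩) hs hst ht

lemma le_of_lt' {s t : ℝ} (hs : s ∈ Icc t0 c) (ht : t ∈ Icc t0 c) (h : a s < a t) : s ≤ t :=
  le_of_not_gt fun e => absurd (H.mono ht.1 e.le hs.2) (not_le.2 h)

lemma level {s t x : ℝ} (hs : t0 ≤ s) (hst : s ≤ t) (ht : t ≤ c) (h1 : a s ≤ x) (h2 : x ≤ a t) :
    ∃ u ∈ Icc s t, a u = x :=
  exists_level hst (contOn_of_HD (H.h0.trans hs) fun u hu => by
    obtain ⟨-, ρ, h1, -⟩ := H.rho ⟨hs.trans hu.1, hu.2.trans ht⟩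
    exact ⟨_, h1⟩) h1 h2

lemma a0_le : a t0 ≤ 1 / 10 ^ 6 := by
  have h1 : 10 ^ 100 ≤ T ^ 9 * (Γ / Λ) := (H.L2.trans H.LQ).trans
    (le_mul_of_one_le_left (H.L0.le.trans H.LQ) (one_le_pow₀ H.T1))
  have h2 : (T ^ 9 * (Γ / Λ))⁻¹ ≤ (10 ^ 100)⁻¹ := inv_anti₀ (by norm_num) h1
  have := H.a0_hi
  linarith

lemma time {s t : ℝ} (hs : t0 ≤ s) (hst : s ≤ t) (ht : t ≤ c) :
    Real.log (a t) - Real.log (a s) ≤ 902 / 100 * (d * (t - s)) := by
  have := sub_le (F := fun u => Real.log (a u)) (G := fun u => 902 / 100 * d * u)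
    (H.h0.trans hs) hst fun u hu => by
      obtain ⟨h0, ρ, h1, -, h3⟩ := H.rho ⟨hs.trans hu.1, hu.2.trans ht⟩
      exact ⟨_, _, h1.log h0.ne', hd_mul _ _, by rwa [mul_div_cancel_right₀ _ h0.ne']⟩
  linarith

lemma hd_psi {u : ℝ} (hu : u ∈ Icc t0 c) : ∃ ρ, 989 / 1000 * d ≤ ρ ∧ ρ ≤ 902 / 100 * d ∧
    ∀ k, HD (fun t => k * psi (a t)) (k * ((a u - 1) * ρ)) u := by
  obtain ⟨h0, ρ, h1, h2, h3⟩ := H.rho hu
  refine ⟨ρ, h2, h3, fun k => ?_⟩
  have := ((h1.sub_const 1).sub (h1.log h0.ne')).const_mul k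
  rw [mul_div_cancel_right₀ _ h0.ne'] at this
  rw [show (a u - 1) * ρ = ρ * a u - ρ by ring]
  exact this

lemma ex_phi : ∃ φ : ℝ → ℝ, ∀ t ∈ Icc t0 c, HD φ (Γ * d * (a t - 1)) t := by
  have : ContinuousOn a (Icc t0 c) := contOn_of_HD H.h0 fun u hu => by
    obtain ⟨-, ρ, h1, -⟩ := H.rho hu
    exact ⟨_, h1⟩
  obtain ⟨φ, -, h⟩ := exists_prim (g := fun t => Γ * d * (a t - 1)) H.le (by fun_prop)
  exact ⟨φ, h⟩

lemma eta : 0 < Λ / Γ ∧ Λ / Γ ≤ 1 / 10 ^ 100 ∧ Γ * psi (1 + Λ / Γ) ≤ 1 := by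
  have e0 := div_pos H.L0 H.G0
  have h0 := H.L0
  have h1 := H.G0
  have h2 := H.par.lo
  refine ⟨e0, ?_, ?_⟩
  · rw [div_le_div_iff₀ h1 (by norm_num)]
    have := mul_le_mul_of_nonneg_left H.L2 h0.le
    linarith
  · refine (mul_le_mul_of_nonneg_left (psi_hi (by linarith)) h1.le).trans ?_
    rw [add_sub_cancel_left, show Γ * (Λ / Γ) ^ 2 = Λ ^ 2 / Γ by field_simp, div_le_one h1]
    exact h2

section phi

variable {φ : ℝ → ℝ} (hφ : ∀ t ∈ Icc t0 c, HD φ (Γ * d * (a t - 1)) t)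

include hφ

lemma phi_hi {s t : ℝ} (hs : t0 ≤ s) (hst : s ≤ t) (ht : t ≤ c) (h : 1 ≤ a s) :
    φ t - φ s ≤ 1000 / 989 * Γ * (psi (a t) - psi (a s)) := by
  have := sub_le (F := φ) (G := fun u => 1000 / 989 * Γ * psi (a u))
    (H.h0.trans hs) hst fun u hu => by
      have hu' : u ∈ Icc t0 c := ⟨hs.trans hu.1, hu.2.trans ht⟩
      obtain ⟨ρ, h2, -, h1⟩ := H.hd_psi hu'
      refine ⟨_, _, hφ u hu', h1 _, ?_⟩
      have := mul_nonneg H.G0.le (sub_nonneg.2 (h.trans (H.mono hs hu.1 hu'.2)))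
      nlinarith only [h2, this]
  linarith

lemma phi_lo {s t : ℝ} (hs : t0 ≤ s) (hst : s ≤ t) (ht : t ≤ c) (h : 1 ≤ a s) :
    100 / 902 * Γ * (psi (a t) - psi (a s)) ≤ φ t - φ s := by
  have := sub_le (G := φ) (F := fun u => 100 / 902 * Γ * psi (a u))
    (H.h0.trans hs) hst fun u hu => by
      have hu' : u ∈ Icc t0 c := ⟨hs.trans hu.1, hu.2.trans ht⟩
      obtain ⟨ρ, -, h2, h1⟩ := H.hd_psi hu'
      refine ⟨_, _, h1 _, hφ u hu', ?_⟩
      have := mul_nonneg H.G0.le (sub_nonneg.2 (h.trans (H.mono hs hu.1 hu'.2)))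
      nlinarith only [h2, this]
  linarith

lemma phi_dn {s t : ℝ} (hs : t0 ≤ s) (hst : s ≤ t) (ht : t ≤ c) (h : a t ≤ 1) :
    φ t - φ s ≤ 100 / 902 * Γ * (psi (a t) - psi (a s)) := by
  have := sub_le (F := φ) (G := fun u => 100 / 902 * Γ * psi (a u))
    (H.h0.trans hs) hst fun u hu => by
      have hu' : u ∈ Icc t0 c := ⟨hs.trans hu.1, hu.2.trans ht⟩
      obtain ⟨ρ, -, h2, h1⟩ := H.hd_psi hu'
      refine ⟨_, _, hφ u hu', h1 _, ?_⟩
      have := mul_nonneg H.G0.le (sub_nonneg.2 ((H.mono hu'.1 hu.2 ht).trans h))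
      nlinarith only [h2, this]
  linarith

lemma phi_lin {s t x : ℝ} (hs : t0 ≤ s) (hst : s ≤ t) (ht : t ≤ c) (h : a t ≤ x) :
    φ t - φ s ≤ Γ * (x - 1) * (d * (t - s)) := by
  have := sub_le (F := φ) (G := fun u => Γ * d * (x - 1) * u)
    (H.h0.trans hs) hst fun u hu => by
      have hu' : u ∈ Icc t0 c := ⟨hs.trans hu.1, hu.2.trans ht⟩
      refine ⟨_, _, hφ u hu', hd_mul _ _, ?_⟩
      exact mul_le_mul_of_nonneg_left (sub_le_sub_right ((H.mono hu'.1 hu.2 ht).trans h) _)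
        (mul_pos H.G0 H.d0).le
  linarith

lemma phi_up {s t K : ℝ} (hs : t0 ≤ s) (hst : s ≤ t) (ht : t ≤ c) (K0 : 0 ≤ K)
    (h : 1 ≤ a t → 1000 / 989 * Γ * psi (a t) ≤ K) : φ t - φ s ≤ K := by
  rcases le_total (a t) 1 with h1 | h1
  · have := H.phi_lin hφ hs hst ht h1
    linarith
  rcases le_total 1 (a s) with h2 | h2
  · have := H.phi_hi hφ hs hst ht h2
    have := mul_nonneg H.G0.le (psi_nonneg (H.pos ⟨hs, hst.trans ht⟩))
    linarith [h h1]
  · obtain ⟨r, hr, e⟩ := H.level hs hst ht h2 h1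
    have := H.phi_lin hφ hs hr.1 (hr.2.trans ht) e.le
    have := H.phi_hi hφ (hs.trans hr.1) hr.2 ht e.ge
    rw [e, psi_one] at this
    linarith [h h1]

lemma decay {t K : ℝ} (ht : t ∈ Icc t0 c) (h1 : 2 / 5 ≤ a t) (K0 : 0 ≤ K)
    (h : 1 ≤ a t → 1000 / 989 * Γ * psi (a t) ≤ K) : φ t - φ t0 ≤ K - 3 / 5 * Γ := by
  have a0 := H.a0_le
  obtain ⟨s, hs, e⟩ := H.level le_rfl ht.1 ht.2 (by linarith only [a0]) h1
  have h2 := H.time le_rfl hs.1 (hs.2.trans ht.2)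
  have h3 := H.phi_lin hφ le_rfl hs.1 (hs.2.trans ht.2) e.le
  have h4 := H.phi_up hφ hs.1 hs.2 ht.2 K0 h
  have p0 := H.pos ⟨le_rfl, H.le⟩
  have h5 : 10 ≤ Real.log (a s) - Real.log (a t0) := by
    rw [← Real.log_div (by rw [e]; norm_num) p0.ne', Real.le_log_iff_exp_le (by rw [e]; positivity),
      show (10 : ℝ) = (10 : ℕ) * 1 by norm_num, Real.exp_nat_mul, e, le_div_iff₀ p0]
    have := pow_le_pow_left₀ (Real.exp_pos 1).le
      (Real.exp_one_lt_d9.le.trans (by norm_num : (2.7182818286 : ℝ) ≤ 3)) 10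
    nlinarith only [a0, p0, this]
  have := mul_le_mul_of_nonneg_left (show 1 ≤ d * (s - t0) by linarith only [h2, h5]) H.G0.le
  linarith only [h3, h4, this]

lemma duh {t Fm K : ℝ} (ht : t ∈ Icc t0 c) (hF : ∀ u ∈ Icc t0 t, F0 * a u ^ (L + 1) ≤ Fm)
    (hK : ∀ u ∈ Icc t0 t, φ t - φ u ≤ K) :
    g t ≤ g t0 * Real.exp (φ t - φ t0) + Fm * Real.exp K * (t - t0) := by
  have := sub_le (F := fun u => g u * Real.exp (φ t - φ u)) (G := fun u => Fm * Real.exp K * u)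
    H.h0 ht.1 fun u hu => by
      have hu' : u ∈ Icc t0 c := ⟨hu.1, hu.2.trans ht.2⟩
      refine ⟨_, _, (H.dg u hu').mul ((hφ u hu').const_sub _).exp, hd_mul _ _, ?_⟩
      have S0 : 0 ≤ F0 * a u ^ (L + 1) := mul_nonneg H.F0_pos.le (pow_pos (H.pos hu') _).le
      have := mul_le_mul (hF u hu) (Real.exp_le_exp.2 (hK u hu)) (Real.exp_pos _).le
        (S0.trans (hF u hu))
      linarith
  simp only [sub_self, Real.exp_zero, mul_one] at this
  linarith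

lemma grow {h : ℝ → ℝ} {r : ℝ} (hr : t0 ≤ r)
    (dh : ∀ t ∈ Icc r c, HD h (Γ * d * (a t - 1) * h t + F0 * a t ^ (L + 1)) t) :
    ∀ t ∈ Icc r c, h r * Real.exp (φ t - φ r) ≤ h t :=
  exp_le_of_deriv (H.h0.trans hr) fun u hu => ⟨_, _, dh u hu, hφ u ⟨hr.trans hu.1, hu.2⟩,
    le_add_of_nonneg_right (mul_nonneg H.F0_pos.le (pow_pos (H.pos ⟨hr.trans hu.1, hu.2⟩) _).le)⟩

lemma low {h : ℝ → ℝ} {r p s : ℝ} (hr : t0 ≤ r) (hp : r ≤ p) (hs : p ≤ s) (hc : s ≤ c)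
    (dh : ∀ t ∈ Icc r c, HD h (Γ * d * (a t - 1) * h t + F0 * a t ^ (L + 1)) t)
    (h0 : 0 ≤ h r) (ep : a p = 1) (es : a s = 1 + Λ / Γ) :
    ∀ t ∈ Icc s c, F0 / (Γ * d) * Real.exp (φ t - φ s) ≤ h t := by
  have nn : ∀ t ∈ Icc r c, 0 ≤ h t := fun t ht =>
    (mul_nonneg h0 (Real.exp_pos _).le).trans (H.grow hφ hr dh t ht)
  have F0p := H.F0_pos
  have dp := mul_pos H.G0 H.d0
  have h1 := sub_le (F := fun u => F0 * u) (G := h) (H.h0.trans (hr.trans hp)) hs fun u hu => by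
    have hu' : u ∈ Icc r c := ⟨hp.trans hu.1, hu.2.trans hc⟩
    refine ⟨_, _, hd_mul _ _, dh u hu', ?_⟩
    have a1 : 1 ≤ a u := ep ▸ H.mono (hr.trans hp) hu.1 hu'.2
    have := mul_nonneg (mul_nonneg dp.le (sub_nonneg.2 a1)) (nn u hu')
    have := mul_le_mul_of_nonneg_left (one_le_pow₀ (n := L + 1) a1) F0p.le
    linarith
  have h2 := H.time (hr.trans hp) hs hc
  rw [ep, es, Real.log_one] at h2
  have e0 := div_pos H.L0 H.G0
  have e1 : Λ / Γ ≤ 1 := H.eta.2.1.trans (by norm_num)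
  have h3 := Real.le_log_one_add_of_nonneg e0.le
  rw [div_le_iff₀ (by linarith only [e0])] at h3
  have h4 : Λ / Γ / 20 ≤ d * (s - p) := by
    have := Real.log_nonneg (show 1 ≤ 1 + Λ / Γ by linarith only [e0])
    nlinarith only [h2, e0, e1, h3]
  have h5 : 1 ≤ Γ * d * (s - p) := by
    have e2 : Γ * (Λ / Γ) = Λ := mul_div_cancel₀ _ H.G0.ne'
    have := mul_le_mul_of_nonneg_left h4 H.G0.le
    have := H.L2
    linarith
  have h6 : F0 / (Γ * d) ≤ h s := by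
    rw [div_le_iff₀ dp]
    have := nn p ⟨hp, hs.trans hc⟩
    have k : F0 * (s - p) ≤ h s := by linarith only [h1, this]
    linarith only [mul_le_mul_of_nonneg_left k dp.le, mul_le_mul_of_nonneg_left h5 F0p.le]
  intro t ht
  exact (mul_le_mul_of_nonneg_right h6 (Real.exp_pos _).le).trans
    (H.grow hφ (hr.trans (hp.trans hs)) (fun u hu => dh u ⟨hp.trans (hs.trans hu.1), hu.2⟩) t ht)

end phi

lemma g_pos {t : ℝ} (ht : t ∈ Icc t0 c) : 0 < g t := by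
  obtain ⟨φ, hφ⟩ := H.ex_phi
  refine lt_of_lt_of_le ?_ (H.grow hφ le_rfl H.dg t ht)
  rw [H.init]
  have := H.bb0
  positivity

lemma F_lo' : Real.exp (-(Γ / 2) - Γ / T) * bb ≤ F0 / (Γ * d) := by
  rw [le_div_iff₀ (mul_pos H.G0 H.d0)]
  linarith [H.F_lo]

theorem floor : ∀ t ∈ Icc t0 c, Real.exp (-(T ^ 2 * Γ)) * bb ≤ g t := by
  intro t ht
  have dp := mul_pos H.G0 H.d0
  have h1 := exp_le_of_deriv (F := g) (τ := fun u => -(Γ * d) * u) H.h0 (fun u hu =>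
    ⟨_, _, H.dg u hu, hd_mul _ _, by
      have := mul_pos (mul_pos dp (H.pos hu)) (H.g_pos hu)
      have := mul_pos H.F0_pos (pow_pos (H.pos hu) (L + 1))
      linarith⟩) t ht
  refine le_trans ?_ h1
  rw [H.init, mul_right_comm, ← Real.exp_add]
  refine mul_le_mul_of_nonneg_right (Real.exp_le_exp.2 ?_) H.bb0.le
  have h2 : d * (t - t0) ≤ 2 * T :=
    (mul_le_mul_of_nonneg_left (sub_le_sub_right ht.2 _) H.d0.le).trans H.dur
  have h3 := mul_le_mul_of_nonneg_left h2 H.G0.le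
  have h4 : 2 * T ≤ T ^ 2 := by nlinarith only [H.hT]
  have h5 := mul_le_mul_of_nonneg_left h4 H.G0.le
  have := H.L0.le.trans H.q21
  linarith

theorem early {t : ℝ} (ht : t ∈ Icc t0 c) (h1 : 2 / 5 ≤ a t) (h2 : a t ≤ 21 / 10) :
    g t ≤ Real.exp (-(Γ / T)) * bb := by
  obtain ⟨φ, hφ⟩ := H.ex_phi
  have p42 := H.G0
  have hK : 1 ≤ a t → 1000 / 989 * Γ * psi (a t) ≤ 41 / 100 * Γ := fun h => by
    have := mul_le_mul_of_nonneg_left (psi_le h h2) p42.le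
    linarith only [p42, this]
  have k1 := H.decay hφ ht h1 (by linarith only [p42]) hK
  have k2 := H.duh hφ (Fm := F0 * Real.exp (Λ + 1)) ht (fun u hu => by
    refine mul_le_mul_of_nonneg_left ?_ H.F0_pos.le
    have : Real.exp (Λ + 1) = Real.exp 1 ^ (L + 1) := by
      rw [← Real.exp_nat_mul, ← H.hL]
      simp
    rw [this]
    refine pow_le_pow_left₀ (H.pos ⟨hu.1, hu.2.trans ht.2⟩).le ?_ _
    linarith only [h2, H.mono hu.1 hu.2 ht.2, Real.exp_one_gt_d9])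
    fun u hu => H.phi_up hφ hu.1 hu.2 ht.2 (by linarith only [p42]) hK
  have q1 := H.q41
  have q2 := H.q22
  have q3 := H.q21
  have q4 := H.q1
  have q5 := H.T1
  have e2 : 2 * Real.exp (-1) ≤ 1 := by
    rw [Real.exp_neg, ← div_eq_mul_inv, div_le_one (Real.exp_pos _)]
    linarith only [Real.exp_one_gt_d9]
  have k3 : g t0 * Real.exp (φ t - φ t0) ≤ Real.exp (-(Γ / T)) * Real.exp (-1) * bb := by
    rw [H.init, mul_right_comm, ← Real.exp_add, ← Real.exp_add]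
    exact mul_le_mul_of_nonneg_right (Real.exp_le_exp.2 (by linarith only [k1, q1, q2, q3, q4, q5])) H.bb0.le
  have k4 : F0 * Real.exp (Λ + 1) * Real.exp (41 / 100 * Γ) * (t - t0) ≤
      Real.exp (-(Γ / T)) * Real.exp (-1) * bb := by
    have h2 : d * (t - t0) ≤ 2 * T :=
      (mul_le_mul_of_nonneg_left (sub_le_sub_right ht.2 _) H.d0.le).trans H.dur
    have h3 : Γ * (d * (t - t0)) ≤ Real.exp T := by
      have := mul_le_mul_of_nonneg_left h2 p42.le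
      linarith only [this, H.qexp]
    have := H.bb0
    calc _ ≤ Real.exp (-(Γ / 2) + Γ / T) * (Γ * d * bb) * Real.exp (Λ + 1) *
          Real.exp (41 / 100 * Γ) * (t - t0) := by
          have := sub_nonneg.2 ht.1
          have := H.F_hi
          gcongr
      _ = Real.exp (-(Γ / 2) + Γ / T) * Real.exp (Λ + 1) *
          Real.exp (41 / 100 * Γ) * (Γ * (d * (t - t0))) * bb := by ring
      _ ≤ Real.exp (-(Γ / 2) + Γ / T) * Real.exp (Λ + 1) *
          Real.exp (41 / 100 * Γ) * Real.exp T * bb := by gcongr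
      _ ≤ _ := by
          simp only [← Real.exp_add]
          exact mul_le_mul_of_nonneg_right (Real.exp_le_exp.2 (by linarith only [q1, q2, q3, q4, q5])) H.bb0.le
  have := mul_le_mul_of_nonneg_left e2 (mul_pos (Real.exp_pos (-(Γ / T))) H.bb0).le
  linarith only [k2, k3, k4, this]

theorem late (h : 99 / 10 ≤ a c) : Real.exp (Γ / T) * bb ≤ g c := by
  obtain ⟨φ, hφ⟩ := H.ex_phi
  obtain ⟨e0, e1, e2⟩ := H.eta
  have a0 := H.a0_le
  obtain ⟨p, hp, ep⟩ := H.level (x := 1) le_rfl H.le le_rfl (by linarith only [a0]) (by linarith only [h])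
  obtain ⟨s, hs, es⟩ := H.level (x := 1 + Λ / Γ) hp.1 hp.2 le_rfl (by linarith only [e0, ep]) (by linarith only [h, e1])
  have k1 := H.low hφ le_rfl hp.1 hs.1 hs.2 H.dg (H.g_pos ⟨le_rfl, H.le⟩).le ep es c ⟨hs.2, le_rfl⟩
  have k2 := H.phi_lo hφ (hp.1.trans hs.1) hs.2 le_rfl (by linarith only [e0, es])
  rw [es] at k2
  have k3 := mul_le_mul_of_nonneg_left (psi_ge h H.a_hi) H.G0.le
  refine le_trans ?_ ((mul_le_mul_of_nonneg_right H.F_lo' (Real.exp_pos _).le).trans k1)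
  rw [mul_right_comm, ← Real.exp_add]
  refine mul_le_mul_of_nonneg_right (Real.exp_le_exp.2 ?_) H.bb0.le
  have q1 := H.q41
  have q2 := H.q22
  have q3 := H.q21
  have q4 := H.L2
  linarith only [e2, k2, k3, q1, q2, q3, q4]

lemma eps : ∃ ε B : ℝ, 0 < ε ∧ ε ≤ 1 / 10 ^ 100 ∧ Λ / Γ ≤ ε / 2 ∧
    Γ * ε = (Λ / T ^ 4) ^ 2 / T ∧ (Λ / T ^ 4) ^ 2 / T * ε = B ∧ 10 ^ 100 * T ^ 3 ≤ B ∧
    10 ^ 100 * (Γ / Λ / T) ≤ B ∧ 1 ≤ Γ / Λ / T ∧ 10 ^ 100 * Λ ≤ (Λ / T ^ 4) ^ 2 / T := by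
  have t0 : 0 < T := by linarith [H.T1]
  have h0 := H.L0
  have h1 := H.G0
  have h9 := H.T0 9
  have hQ := div_pos h1 h0
  have hB : T ^ 3 * (Γ / Λ) ≤ (Λ / T ^ 4) ^ 2 / T * (Λ ^ 2 / (T ^ 9 * Γ)) := by
    have e1 : T ^ 3 * (Γ / Λ) = Γ ^ 2 * T ^ 21 / (Λ * T ^ 18 * Γ) := by field_simp
    have e2 : (Λ / T ^ 4) ^ 2 / T * (Λ ^ 2 / (T ^ 9 * Γ)) = Λ ^ 5 / (Λ * T ^ 18 * Γ) := by
      field_simp
    rw [e1, e2]
    exact div_le_div_of_nonneg_right H.par.hi (by positivity)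
  refine ⟨Λ ^ 2 / (T ^ 9 * Γ), _, by positivity, ?_, ?_, by field_simp, rfl, le_trans ?_ hB,
    le_trans ?_ hB, ?_, ?_⟩
  · rw [div_le_div_iff₀ (by positivity) (by norm_num)]
    have h2 : 10 ^ 100 ≤ T ^ 9 := by simpa using H.pw (show 0 < 9 by norm_num)
    have h3 := mul_le_mul h2 H.par.lo (by positivity) h9.le
    linarith only [h3]
  · have h2 : 10 ^ 100 * T ^ 9 ≤ Λ := (H.pw (by norm_num)).trans H.par.hL
    have e1 : Λ / Γ = 2 * T ^ 9 * (Λ / (2 * T ^ 9 * Γ)) := by field_simp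
    have e2 : Λ ^ 2 / (T ^ 9 * Γ) / 2 = Λ * (Λ / (2 * T ^ 9 * Γ)) := by field_simp
    rw [e1, e2]
    exact mul_le_mul_of_nonneg_right (by linarith only [h9, h2]) (by positivity)
  · rw [mul_comm]
    exact mul_le_mul_of_nonneg_left (H.L2.trans H.LQ) (H.T0 3).le
  · have h2 : 10 ^ 100 ≤ T ^ 3 := by simpa using H.pw (show 0 < 3 by norm_num)
    exact mul_le_mul h2 (div_le_self hQ.le H.T1) (by positivity) (H.T0 3).le
  · rw [le_div_iff₀ t0, one_mul]
    exact H.q1.trans H.LQ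
  · have h2 : 10 ^ 100 * T ^ 9 ≤ Λ := (H.pw (by norm_num)).trans H.par.hL
    have e1 : 10 ^ 100 * Λ = 10 ^ 100 * T ^ 9 * (Λ / T ^ 9) := by field_simp
    have e2 : (Λ / T ^ 4) ^ 2 / T = Λ * (Λ / T ^ 9) := by field_simp
    rw [e1, e2]
    exact mul_le_mul_of_nonneg_right h2 (by positivity)

/-- The window around the time at which the new level becomes unstable. -/
theorem window (h : 21 / 10 ≤ a c) : ∃ t1 t' t2 : ℝ, ∃ g' τ : ℝ → ℝ,
    t0 ≤ t1 ∧ t1 ≤ t' ∧ t' ≤ t2 ∧ t2 ≤ c ∧ g' t1 = Real.exp (T ^ 3) * g t1 ∧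
    (∀ t ∈ Icc t1 c, 1 / 2 ≤ a t ∧ g t ≤ g' t ∧ HD τ (Γ * d * a t) t ∧
      HD g' ((Γ * d * a t - Γ * d) * g' t + F0 * a t ^ (L + 1)) t) ∧
    τ t2 - τ t1 ≤ 100 * ((Λ / T ^ 4) ^ 2 / T) ∧ (Λ / T ^ 4) ^ 2 / T / 1000 ≤ τ t2 - τ t' ∧
    τ c - τ t2 ≤ 100 * Γ ∧ Γ / 20 ≤ τ c - τ t2 ∧
    g' t1 * Real.exp (τ t2 - τ t1 - Γ * d * (t2 - t1)) ≤ g' t2 / 100 ∧
    (∀ t ∈ Icc t' c, F0 * a t ^ (L + 1) ≤ Real.exp (-(Γ / Λ / T)) * (Γ * d * g' t)) := by
  obtain ⟨φ, hφ⟩ := H.ex_phi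
  obtain ⟨e0, e1, e2⟩ := H.eta
  have a0 := H.a0_le
  have dp := mul_pos H.G0 H.d0
  have p42 := H.G0
  have nd := H.d0.ne'
  have nG := p42.ne'
  obtain ⟨ε, B, ε0, ε1, ε2, ε33, ε24, n1, n2, n3, n4⟩ := H.eps
  generalize (Λ / T ^ 4) ^ 2 / T = A at *
  generalize Γ / Λ / T = W at *
  obtain ⟨t1, h1, a1⟩ := H.level (x := 1 - ε) le_rfl H.le le_rfl (by linarith only [a0, ε1]) (by linarith only [h, e0, ε2])
  obtain ⟨p, hp, ep⟩ := H.level (x := 1) h1.1 h1.2 le_rfl (by linarith only [e0, ε2, a1]) (by linarith only [h])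
  have p0 := h1.1.trans hp.1
  obtain ⟨s, hs, es⟩ := H.level (x := 1 + Λ / Γ) p0 hp.2 le_rfl (by linarith only [e0, ep]) (by linarith only [h, ε1, ε2])
  have s0 := p0.trans hs.1
  obtain ⟨t', h', a'⟩ := H.level (x := 1 + ε / 2) s0 hs.2 le_rfl (by linarith only [ε2, es]) (by linarith only [h, ε1])
  have t'0 := s0.trans h'.1
  obtain ⟨t2, h2, a2⟩ := H.level (x := 1 + ε) t'0 h'.2 le_rfl (by linarith only [e0, ε2, a']) (by linarith only [h, ε1])
  have t20 := t'0.trans h2.1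
  have ca : ContinuousOn a (Icc t1 c) := contOn_of_HD (H.h0.trans h1.1) fun u hu => by
    obtain ⟨-, ρ, h, -⟩ := H.rho ⟨h1.1.trans hu.1, hu.2⟩
    exact ⟨_, h⟩
  obtain ⟨g', i', dg'⟩ := exists_lin (s := fun t => Γ * d * (a t - 1))
    (g := fun t => F0 * a t ^ (L + 1)) (H.h0.trans h1.1) h1.2 (by fun_prop) (by fun_prop)
    (Real.exp (T ^ 3) * g t1)
  have g1 := H.g_pos h1
  have g'1 : g t1 ≤ g' t1 := by
    rw [i']
    exact le_mul_of_one_le_left g1.le (Real.one_le_exp (H.T0 3).le)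
  have lo := H.low hφ h1.1 hp.1 hs.1 hs.2 dg' (g1.le.trans g'1) ep es
  have dτ : ∀ t ∈ Icc t0 c, HD (fun u => φ u + Γ * d * u) (Γ * d * a t) t :=
    fun t ht => by
      rw [show Γ * d * a t = Γ * d * (a t - 1) + Γ * d by ring]
      exact (hφ t ht).add (hd_mul (Γ * d) t)
  have τhi : ∀ u v, t0 ≤ u → u ≤ v → v ≤ c → φ v + Γ * d * v - (φ u + Γ * d * u) ≤
      2 * Γ * (a v - a u) := fun u v hu huv hv => by
    have := sub_le (F := fun u => φ u + Γ * d * u) (G := fun u => 2 * Γ * a u)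
      (H.h0.trans hu) huv fun w hw => by
        have hw' : w ∈ Icc t0 c := ⟨hu.trans hw.1, hw.2.trans hv⟩
        obtain ⟨h0, ρ, k1, k2, -⟩ := H.rho hw'
        refine ⟨_, _, dτ w hw', k1.const_mul _, ?_⟩
        linarith only [mul_le_mul_of_nonneg_left k2 (mul_pos p42 h0).le, mul_pos dp h0]
    linarith only [this]
  have τlo : ∀ u v, t0 ≤ u → u ≤ v → v ≤ c → 1 / 10 * Γ * (a v - a u) ≤
      φ v + Γ * d * v - (φ u + Γ * d * u) := fun u v hu huv hv => by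
    have := sub_le (G := fun u => φ u + Γ * d * u) (F := fun u => 1 / 10 * Γ * a u)
      (H.h0.trans hu) huv fun w hw => by
        have hw' : w ∈ Icc t0 c := ⟨hu.trans hw.1, hw.2.trans hv⟩
        obtain ⟨h0, ρ, k1, -, k2⟩ := H.rho hw'
        refine ⟨_, _, k1.const_mul _, dτ w hw', ?_⟩
        linarith only [mul_le_mul_of_nonneg_left k2 (mul_pos p42 h0).le, mul_pos dp h0]
    linarith only [this]
  have p33 : 0 < A := ε33 ▸ mul_pos p42 ε0
  have X0 : 0 < F0 / (Γ * d) := div_pos H.F0_pos dp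
  refine ⟨t1, t', t2, g', fun u => φ u + Γ * d * u, h1.1, hp.1.trans (hs.1.trans h'.1), h2.1,
    h2.2, i', fun t ht => ⟨?_, ?_, dτ t ⟨h1.1.trans ht.1, ht.2⟩, ?_⟩, ?_, ?_, ?_, ?_, ?_,
    fun t ht => ?_⟩
  · linarith only [ε1, a1, H.mono h1.1 ht.1 ht.2]
  · have := exp_le_of_deriv (F := fun u => g' u - g u) (τ := φ) (H.h0.trans h1.1) (fun u hu =>
      ⟨_, _, (dg' u hu).sub (H.dg u ⟨h1.1.trans hu.1, hu.2⟩), hφ u ⟨h1.1.trans hu.1, hu.2⟩,
        le_of_eq (by ring)⟩) t ht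
    have := mul_nonneg (sub_nonneg.2 g'1) (Real.exp_pos (φ t - φ t1)).le
    linarith
  · convert dg' t ht using 1
    ring
  · have := τhi t1 t2 h1.1 (hp.1.trans (hs.1.trans (h'.1.trans h2.1))) h2.2
    rw [a1, a2] at this
    linarith only [ε33, p33, this]
  · have := τlo t' t2 t'0 h2.1 h2.2
    rw [a', a2] at this
    linarith only [ε33, p33, this]
  · have := τhi t2 c t20 h2.2 le_rfl
    have := mul_le_mul_of_nonneg_left (show a c - a t2 ≤ 10 by linarith only [e0, ε2, a2, H.a_hi]) p42.le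
    linarith
  · have := τlo t2 c t20 h2.2 le_rfl
    have := mul_le_mul_of_nonneg_left (show 1 ≤ a c - a t2 by linarith only [h, ε1, a2]) p42.le
    linarith
  · have k0 : ∀ u ∈ Icc t0 t1, φ t1 - φ u ≤ 0 := fun u hu =>
      H.phi_up hφ hu.1 hu.2 h1.2 le_rfl fun h => by linarith only [e0, ε2, a1, h]
    have k1 := H.decay hφ h1 (by linarith only [ε1, a1]) le_rfl fun h => by linarith only [e0, ε2, a1, h]
    have k2 := H.duh hφ (Fm := F0) h1 (fun u hu => mul_le_of_le_one_right H.F0_pos.le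
      (pow_le_one₀ (H.pos ⟨hu.1, hu.2.trans h1.2⟩).le (by linarith only [e0, ε2, a1, H.mono hu.1 hu.2 h1.2]))) k0
    have q1 := H.q41
    have q2 := H.q22
    have := H.L0.le.trans H.q21
    have k3 : g t0 * Real.exp (φ t1 - φ t0) ≤ F0 / (Γ * d) := by
      refine le_trans ?_ H.F_lo'
      rw [H.init, mul_right_comm, ← Real.exp_add]
      exact mul_le_mul_of_nonneg_right (Real.exp_le_exp.2 (by linarith only [p42, k1, q1, q2])) H.bb0.le
    have k4 : F0 * (t1 - t0) = F0 / (Γ * d) * (Γ * (d * (t1 - t0))) := by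
      field_simp
    have k5 : 1 + Γ * (d * (t1 - t0)) ≤ Real.exp T := by
      have := mul_le_mul_of_nonneg_left ((mul_le_mul_of_nonneg_left (sub_le_sub_right h1.2 t0)
        H.d0.le).trans H.dur) p42.le
      linarith only [this, H.qexp]
    have k6 : g t1 ≤ F0 / (Γ * d) * Real.exp T := by
      have := mul_le_mul_of_nonneg_left k5 X0.le
      rw [Real.exp_zero, mul_one, k4] at k2
      linarith only [k2, k3, this]
    have k7 := H.phi_dn hφ h1.1 hp.1 hp.2 ep.le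
    have k8 := H.phi_hi hφ p0 hs.1 hs.2 ep.ge
    have k9 := mul_le_mul_of_nonneg_left (psi_lo (x := 1 - ε) (by linarith only [ε1]) (by linarith only [e0, ε2])) p42.le
    rw [ep, psi_one] at k7 k8
    rw [a1] at k7
    rw [es] at k8
    have k10 : Γ * ((1 - ε - 1) ^ 2 / 25) = B / 25 := by
      rw [← ε24, ← ε33]
      ring
    have q4 := H.pw (show 1 < 3 by norm_num)
    have q5 := H.hT
    rw [pow_one] at q4
    have e100 : 100 * Real.exp (-99) ≤ 1 := by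
      rw [Real.exp_neg, ← div_eq_mul_inv, div_le_one (Real.exp_pos _)]
      linarith only [Real.add_one_le_exp 99]
    have k11 := lo t2 ⟨h'.1.trans h2.1, h2.2⟩
    calc _ = Real.exp (T ^ 3) * g t1 * Real.exp (φ t2 - φ t1) := by
          rw [i']
          congr 2
          ring
      _ ≤ Real.exp (T ^ 3) * (F0 / (Γ * d) * Real.exp T) * Real.exp (φ t2 - φ t1) := by (clear * - k6; gcongr)
      _ = F0 / (Γ * d) * Real.exp (T ^ 3 + T + (φ t2 - φ t1)) := by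
          simp only [Real.exp_add]
          ring
      _ ≤ F0 / (Γ * d) * Real.exp (φ t2 - φ s + -99) :=
          mul_le_mul_of_nonneg_left (Real.exp_le_exp.2 (by linarith only [e2, n1, k7, k8, k9, k10, q4, q5])) X0.le
      _ ≤ _ := by
          rw [Real.exp_add, ← mul_assoc]
          have := mul_le_mul_of_nonneg_left e100 (mul_pos X0 (Real.exp_pos (φ t2 - φ s))).le
          linarith only [k11, this]
  · have ht' : t ∈ Icc t0 c := ⟨t'0.trans ht.1, ht.2⟩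
    have k1 := lo t ⟨h'.1.trans ht.1, ht.2⟩
    have k2 := H.phi_lo hφ s0 (h'.1.trans ht.1) ht.2 (by linarith only [e0, es])
    have y1 : ε / 2 ≤ a t - 1 := by linarith only [a', H.mono t'0 ht.1 ht.2]
    have y2 : a t ≤ 16 := by linarith only [H.mono ht'.1 ht.2 le_rfl, H.a_hi]
    have k3 := mul_le_mul_of_nonneg_left (psi_lo (H.pos ht') y2) p42.le
    rw [es] at k2
    have k4 : a t ^ (L + 1) ≤ Real.exp ((Λ + 1) * (a t - 1)) := by
      have : Real.exp ((Λ + 1) * (a t - 1)) = Real.exp (a t - 1) ^ (L + 1) := by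
        rw [← Real.exp_nat_mul, ← H.hL]
        simp
      rw [this]
      exact pow_le_pow_left₀ (H.pos ht').le (by linarith only [Real.add_one_le_exp (a t - 1)]) _
    set y := a t - 1
    have y0 : 0 ≤ y := by linarith only [e0, ε2, y1]
    have k5 : A / 2 * y ≤ Γ * y ^ 2 := by
      have := mul_le_mul_of_nonneg_left y1 (mul_nonneg p42.le y0)
      rw [← ε33]
      linarith only [this]
    have k6 : B / 2 ≤ A * y := by
      have := mul_le_mul_of_nonneg_left y1 p33.le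
      rw [← ε24]
      linarith only [this]
    have k7 := mul_le_mul_of_nonneg_right n4 y0
    have k8 := mul_le_mul_of_nonneg_right H.L2 y0
    calc F0 * a t ^ (L + 1) ≤ F0 * Real.exp (-W + (φ t - φ s)) :=
          mul_le_mul_of_nonneg_left (k4.trans (Real.exp_le_exp.2 (by linarith only [e2, n2, n3, k2, k3, k5, k6, k7, k8]))) H.F0_pos.le
      _ = Real.exp (-W) * (Γ * d * (F0 / (Γ * d) * Real.exp (φ t - φ s))) := by
          rw [Real.exp_add]
          field_simp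
      _ ≤ _ := by (clear * - dp k1; gcongr)

end Sc

end

end Pool.Agent.Work.MP_6bf1e5_an.Hyp
end

-- merged part: Pool.Agent.Work.MP_6bf1e5_an.Hyp.UppA
section
/-!
Static estimates for the new level and the current ladder.
-/

open Set Complex Filter Topology
open scoped InnerProductSpace ComplexConjugate
open Pool.Agent.Work.MP_6bf1e5_an.B (Z3 R3)
open Pool.Agent.Work.MP_6bf1e5_an.Hyp.Dec

namespace Pool.Agent.Work.MP_6bf1e5_an.Hyp

noncomputable section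

namespace Geo

variable (G : Geo)

lemma upp_t_le {m : ℕ} (hm : 1 ≤ m) : G.t ≤ G.t ^ m := by
  simpa using G.pow_le hm

lemma upp_exp {k : ℕ} (hk : k ≤ 1000) {x : ℝ} (hx : G.t ≤ 10 * x) : G.t ^ k ≤ Real.exp x := by
  refine (G.pow_le_exp hk).trans (Real.exp_le_exp.mpr ?_)
  have := G.t_pos
  rw [div_le_iff₀ (by positivity)]
  linarith only [hx, this]

lemma upp_Lexp {k : ℕ} (hk : k ≤ 1000) {x : ℝ} (hx : G.t ≤ 10 * x) : G.L ^ k ≤ Real.exp x := by
  refine (G.L_pow_le_exp hk).trans (Real.exp_le_exp.mpr ?_)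
  have := G.t_pos
  rw [div_le_iff₀ (by positivity)]
  linarith only [hx, this]

lemma upp_t_le_E : G.t ≤ G.E := (G.upp_t_le (m := 19) (by norm_num)).trans G.E_lo

lemma upp_m0 : G.L ^ 200 ≤ G.m0 := by
  refine (G.upp_Lexp (by norm_num) ?_).trans G.m0_lo
  have := G.upp_t_le_E
  have := G.t_pos
  linarith

lemma upp_mQ : G.L ^ 200 ≤ G.mQ := G.upp_m0.trans G.m0_le_mQ

lemma upp_mm : G.L ^ 400 ≤ G.m0 * G.mQ := by
  have h1 := G.upp_m0
  have h2 := G.upp_mQ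
  have h3 := G.L_pos
  calc G.L ^ 400 = G.L ^ 200 * G.L ^ 200 := by ring
    _ ≤ _ := mul_le_mul h1 h2 (by positivity) G.m0_pos.le

lemma upp_Wc : G.L ^ 100 ≤ G.Wc := by
  refine G.upp_Lexp (by norm_num) ?_
  have := (G.upp_t_le (m := 20) (by norm_num)).trans G.W_lo
  have := G.t_pos
  linarith

lemma upp_one_le_pow (k : ℕ) : 1 ≤ G.t ^ k := one_le_pow₀ G.one_le_t

lemma upp_one_le_Lpow (k : ℕ) : 1 ≤ G.L ^ k := one_le_pow₀ G.one_le_L

lemma upp_L_lt {a b : ℕ} (h : a < b) : 10 ^ 100 * G.L ^ a ≤ G.L ^ b := by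
  refine le_trans ?_ (G.L_pow_lt h)
  have h1 := G.upp_one_le_pow 20
  have h2 := pow_pos G.L_pos a
  nlinarith only [h1, h2]

lemma upp_Q_le : G.Q ≤ G.L ^ 2 := by
  refine le_trans ?_ G.Q_hi
  have h1 := G.upp_one_le_pow 20
  have h2 := G.Q_pos
  nlinarith only [h1, h2]

lemma upp_tGa {k : ℕ} (hk : k ≤ 20) : G.t ^ k * G.Ga ≤ G.L ^ 3 :=
  (mul_le_mul_of_nonneg_right (G.pow_le hk) G.Ga_pos.le).trans G.Ga_hi

lemma upp_Ga_le : G.Ga ≤ G.L ^ 3 := by simpa using G.upp_tGa (k := 0) (by norm_num)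

lemma upp_one_le_Q : 1 ≤ G.Q := G.one_le_L.trans G.L_le_Q

lemma upp_one_le_Ga : 1 ≤ G.Ga := (G.upp_one_le_Lpow 2).trans G.Ga_lo

lemma upp_N_succ (j : ℕ) : G.N (j + 1) ≤ G.L ^ 2 * G.N j := by
  refine le_trans ?_ (G.N_succ_hi j)
  have h1 := G.upp_one_le_pow 10
  have h2 := G.N_pos (j + 1)
  nlinarith only [h1, h2]

lemma upp_θ_le : G.θ ≤ 1 := inv_le_one_of_one_le₀ (G.upp_one_le_pow 10)

lemma upp_xs_le : 11 * G.xs ≤ 1 := by
  have h1 := G.pow_lt (a := 0) (b := 30) (by norm_num)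
  have h2 := pow_pos G.t_pos 30
  have h3 := G.xs_le
  have h4 : 11 * (G.t ^ 30)⁻¹ ≤ 1 := by
    rw [← div_eq_mul_inv, div_le_one h2]
    linarith
  linarith

lemma upp_xs_lo : (G.L ^ 2)⁻¹ ≤ G.xs := by
  have h1 := G.t_pos
  have h2 := G.Q_pos
  refine inv_anti₀ (by positivity) (le_trans ?_ G.Q_hi)
  exact mul_le_mul_of_nonneg_right (G.pow_le (by norm_num)) h2.le

lemma upp_tau0 : 9 * 10 ^ 6 * G.L * G.tau0 ≤ Real.exp (-G.t ^ 19) := by
  have h1 := G.tau0_le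
  have h2 := G.upp_L_lt (a := 1) (b := 2) (by norm_num)
  have h3 : G.L ^ 2 ≤ Real.exp (98 * G.E) := by
    refine G.upp_Lexp (by norm_num) ?_
    have := G.upp_t_le_E
    have := G.t_pos
    linarith
  have h4 : Real.exp (-G.E) = Real.exp (98 * G.E) * Real.exp (-(99 * G.E)) := by
    rw [← Real.exp_add]; ring_nf
  have h5 := G.L_pos
  have h6 : Real.exp (-G.E) ≤ Real.exp (-G.t ^ 19) :=
    Real.exp_le_exp.mpr (neg_le_neg G.E_lo)
  refine le_trans ?_ h6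
  rw [h4]
  rw [pow_one] at h2
  exact mul_le_mul (by linarith) h1 G.tau0_pos.le (Real.exp_pos _).le

lemma upp_tau0' : G.tau0 ≤ 1 := by
  refine G.tau0_le.trans (Real.exp_le_one_iff.mpr ?_)
  have := G.E_pos
  linarith

lemma upp_D (j : ℕ) : 72 * G.L ^ 4 * G.lm j ≤ Real.exp (-G.t ^ 19) * G.D j := by
  have h2 := G.upp_L_lt (a := 4) (b := 5) (by norm_num)
  have h3 : G.L ^ 5 ≤ Real.exp (-G.t ^ 19 + G.Q / 2) := by
    refine G.upp_Lexp (by norm_num) ?_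
    have := G.upp_t_le (m := 19) (by norm_num)
    have := G.pow_lt (a := 19) (b := 21) (by norm_num)
    have := G.t_pos
    have := G.Q_lo
    linarith
  have h5 := pow_pos G.L_pos 4
  unfold D
  rw [← mul_assoc, ← Real.exp_add]
  exact mul_le_mul_of_nonneg_right (by linarith) (G.lm_pos j).le

lemma upp_D' (j : ℕ) : G.L ^ 11 * G.lm j ≤ Real.exp (-(G.Q / 3)) * G.D j := by
  have h3 : G.L ^ 11 ≤ Real.exp (-(G.Q / 3) + G.Q / 2) := by
    refine G.upp_Lexp (by norm_num) ?_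
    have := G.upp_t_le (m := 21) (by norm_num)
    have := G.t_pos
    have := G.Q_lo
    linarith
  unfold D
  rw [← mul_assoc, ← Real.exp_add]
  exact mul_le_mul_of_nonneg_right h3 (G.lm_pos j).le

lemma upp_expL {x : ℝ} (hx : G.t ≤ x) : Real.exp (-x) ≤ (G.L ^ 4)⁻¹ := by
  rw [Real.exp_neg]
  refine inv_anti₀ (pow_pos G.L_pos _) (G.upp_Lexp (by norm_num) ?_)
  have := G.t_pos
  linarith

lemma upp_exp19 : Real.exp (-G.t ^ 19) ≤ (G.L ^ 4)⁻¹ :=
  G.upp_expL (G.upp_t_le (m := 19) (by norm_num))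

lemma upp_exp3E : Real.exp (-(3 * G.E)) ≤ (G.L ^ 4)⁻¹ := by
  refine G.upp_expL ?_
  have := G.upp_t_le_E
  have := G.t_pos
  linarith

lemma upp_rho {i : ℕ} (hi : i ≤ G.La) : (1 + (G.L ^ 2)⁻¹) ^ i ≤ 3 / 2 := by
  have t0 := G.L_pos
  have h0 : 0 < (G.L ^ 2)⁻¹ := by positivity
  have h1 : (1 + (G.L ^ 2)⁻¹) ^ i ≤ Real.exp ((G.L ^ 2)⁻¹) ^ i :=
    pow_le_pow_left₀ (by positivity) (by linarith only [Real.add_one_le_exp (G.L ^ 2)⁻¹]) i
  rw [← Real.exp_nat_mul] at h1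
  have h2 : (i : ℝ) ≤ G.L := by rw [← G.La_eq]; exact_mod_cast hi
  have h3 : (i : ℝ) * (G.L ^ 2)⁻¹ ≤ 1 / 4 := by
    have := G.upp_L_lt (a := 1) (b := 2) (by norm_num)
    rw [pow_one] at this
    rw [← div_eq_mul_inv, div_le_iff₀ (by positivity)]
    linarith only [h2, this]
  have h4 : Real.exp (1 / 4) ≤ 3 / 2 := by
    have := Real.exp_bound_div_one_sub_of_interval' (x := 1 / 4) (by norm_num) (by norm_num)
    linarith only [this]
  exact h1.trans ((Real.exp_le_exp.mpr h3).trans h4)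

end Geo

variable {G : Geo} {R : Raw} {J : ℕ} {t : ℝ}

lemma l1_rot (o : Fin 4) (f : V) : l1 (rot o f) = l1 f := by
  fin_cases o <;> simp [rot, l1_tau, l1_dag]

/-- The coefficient of the seed. -/
def Kf (G : Geo) (R : Raw) (J : ℕ) (z : ℝ) : ℝ := R.cf * (2 * Real.pi * G.n (J + 1)) * z

lemma Fs_eq_Kf (z a : ℝ) : R.Fs G J z a = Kf G R J z * R.Yq G J a G.La := rfl

namespace IsNet

variable (H : IsNet G R)

include H

lemma upp_bh_le (j : ℕ) : 10 ^ 6 * (G.lam j * R.bh G j) ≤ G.L ^ 3 * G.lm j := by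
  have h1 := H.lam_bh_hi j
  have h2 := mul_pos (G.lam_pos j) (H.bh_pos j)
  have h3 := mul_le_mul_of_nonneg_right (G.upp_tGa (k := 11) (by norm_num)) (G.lm_pos j).le
  linarith

lemma upp_lam_bh (j : ℕ) : 10 ^ 6 * G.lam (j + 1) * R.bh G j ≤ G.L ^ 4 * G.lm j := by
  have h1 := H.upp_bh_le j
  have h3 := G.L_pos
  rw [G.lam_succ]
  calc 10 ^ 6 * (G.L * G.lam j) * R.bh G j
      = G.L * (10 ^ 6 * (G.lam j * R.bh G j)) := by ring
    _ ≤ G.L * (G.L ^ 3 * G.lm j) := mul_le_mul_of_nonneg_left h1 h3.le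
    _ = _ := by ring

lemma Kf_bounds {z : ℝ} (h0 : 2 * R.bh G (J + 1) ≤ z * G.mQ) (h1 : z * G.mQ ≤ 10 * R.bh G (J + 1)) :
    0 < Kf G R J z ∧ G.lam (J + 1) * R.bh G (J + 1) / (G.m0 * G.mQ) ≤ Kf G R J z / 2 ∧
      Kf G R J z ≤ (G.L ^ 4)⁻¹ * G.d (J + 1) := by
  have m0 := G.m0_pos
  have mQ := G.mQ_pos
  have hl := G.lam_pos (J + 1)
  have hm := G.lm_pos (J + 1)
  have hb := H.bh_pos (J + 1)
  have t0 := G.t_pos
  have L0 := G.L_pos
  have e : Kf G R J z = R.cf * G.lam (J + 1) * (z * G.mQ) / (G.m0 * G.mQ) := by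
    rw [Kf, G.lam_eq]; field_simp
  have c1 := H.cf_lo
  have c2 := H.cf_hi
  have lo : G.lam (J + 1) * R.bh G (J + 1) / (G.m0 * G.mQ) ≤ Kf G R J z / 2 := by
    rw [e, div_div, div_le_div_iff₀ (by positivity) (by positivity)]
    have : 1 * G.lam (J + 1) * (2 * R.bh G (J + 1)) ≤ R.cf * G.lam (J + 1) * (z * G.mQ) := by
      gcongr
    nlinarith only [this, mul_pos m0 mQ]
  refine ⟨?_, lo, ?_⟩
  · have : 0 < G.lam (J + 1) * R.bh G (J + 1) / (G.m0 * G.mQ) := by positivity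
    linarith only [lo, this]
  · rw [e, div_le_iff₀ (by positivity)]
    have h2 := H.upp_bh_le (J + 1)
    have h3 : G.L ^ 8 ≤ G.m0 * G.mQ := (G.L_pow_le (by norm_num)).trans G.upp_mm
    have h4 : R.cf ≤ G.L := c2.trans ((G.pow_le (by norm_num)).trans G.L_lo)
    have h5 : 0 < G.lam (J + 1) * R.bh G (J + 1) := by positivity
    calc R.cf * G.lam (J + 1) * (z * G.mQ)
        ≤ G.L * G.lam (J + 1) * (10 * R.bh G (J + 1)) := by
          gcongr ?_ * _ * ?_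
          linarith only [h0, hb]
      _ = G.L * (10 * (G.lam (J + 1) * R.bh G (J + 1))) := by ring
      _ ≤ G.L * (G.L ^ 3 * G.lm (J + 1)) := by gcongr _ * ?_; linarith only [h2, h5]
      _ = (G.L ^ 4)⁻¹ * G.lm (J + 1) * G.L ^ 8 := by field_simp
      _ ≤ (G.L ^ 4)⁻¹ * G.d (J + 1) * (G.m0 * G.mQ) := by
        have := G.d_pos (J + 1)
        gcongr
        unfold Geo.d; linarith only [hm]

lemma upp_f_le {z : ℝ} (o : Fin 4) (hZ : l1 (R.Z G (J + 1) o t) ≤ 101 / 100 * z) :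
    ‖R.f G J o t‖ ≤ 101 / 100 * Kf G R J z * ‖R.y J G.La t‖ := by
  have c1 := H.cf_lo
  have h0 : 0 ≤ R.cf * (2 * Real.pi * G.n (J + 1)) := by positivity
  rw [Raw.f, norm_smul, Complex.norm_real, Real.norm_of_nonneg h0]
  have h1 := (norm_pj_le (G.rc (J + 1)) _).trans
    (norm_mul_le_l1' (R.y J G.La t) (R.Z G (J + 1) o t))
  calc _ ≤ R.cf * (2 * Real.pi * G.n (J + 1)) * (‖R.y J G.La t‖ * (101 / 100 * z)) := by
        gcongr
        exact h1.trans (by gcongr)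
    _ = _ := by rw [Kf]; ring

lemma upp_sigma {g0 E : ℝ} (hc : Cur G R J g0 t E) (ha : 0 < R.aa G J t) (y : V) :
    R.kap G J * ‖R.A G J t * y‖ ≤ G.d (J + 1) * R.aa G J t * ‖y‖ := by
  have h1 := H.kap_A ha
  have h2 : ‖R.pp G J t * y‖ ≤ ‖y‖ := hc.drv.tau.norm_mul_le y
  have h3 : ‖((R.kap G J : ℂ) • R.A G J t) * y‖ = R.kap G J * ‖R.A G J t * y‖ := by
    rw [smul_mul_assoc, norm_smul, Complex.norm_real, Real.norm_of_nonneg (H.kap_pos J).le]
  have h4 : 0 ≤ G.d (J + 1) * R.aa G J t := (mul_pos (G.d_pos _) ha).le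
  rw [← h3, h1, smul_mul_assoc, norm_smul, Complex.norm_real, Real.norm_of_nonneg h4]
  gcongr

lemma upp_B_mul {g0 E : ℝ} (hc : Cur G R J g0 t E) (ha : 0 < R.aa G J t) (y : V) :
    ‖R.B G J t * y‖ ≤ R.bh G J * R.aa G J t * ‖y‖ := by
  have h4 : 0 ≤ R.bh G J * R.aa G J t := (mul_pos (H.bh_pos _) ha).le
  rw [H.B_eq ha, smul_mul_assoc, norm_smul, Complex.norm_real, Real.norm_of_nonneg h4]
  gcongr
  exact hc.drv.norm_mul_le y

lemma upp_y0 {g0 E : ℝ} (hc : Cur G R J g0 t E) (ha : 0 < R.aa G J t) :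
    ‖R.y J 0 t‖ ≤ 2 * R.Yq G J (R.aa G J t) 0 / G.N J := by
  have hu := H.un_pos J
  have hN := G.N_pos J
  have hO := H.Om_lo
  have h1 : ∀ o, ‖R.b J o t‖ ≤ 2 * (R.aa G J t * R.un G J) := by
    intro o
    have h2 := hc.clb o
    have h3 := norm_add_le (R.b J o t - ((R.aa G J t * R.un G J : ℝ) : ℂ) • G.φ J)
      (((R.aa G J t * R.un G J : ℝ) : ℂ) • G.φ J)
    have h4 : 0 < R.aa G J t * R.un G J := by positivity
    rw [sub_add_cancel, norm_smul, G.norm_φ, Complex.norm_real, Real.norm_of_nonneg h4.le] at h3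
    linarith
  have h2 := H.norm_comb_le J h1
  have h3 : R.Om * R.un G J * G.N J ≤ R.bh G J := by
    rw [← H.un_mul J]
    have : G.N J ≤ l1 (G.φ J) := le_l1_ph _
    calc R.Om * R.un G J * G.N J = R.un G J * (R.Om * G.N J) := by ring
      _ ≤ _ := by gcongr
  rw [H.y0, Raw.A, norm_tau, R.Yq_zero, le_div_iff₀ hN]
  calc ‖R.B G J t‖ * G.N J ≤ R.Om * (2 * (R.aa G J t * R.un G J)) * G.N J := by gcongr; exact h2
    _ = 2 * R.aa G J t * (R.Om * R.un G J * G.N J) := by ring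
    _ ≤ 2 * R.aa G J t * R.bh G J := by gcongr
    _ = _ := by ring

omit H in
lemma upp_y_le {AA : ℕ → ℝ} {E : ℝ} (h : Bnd G R J AA t E) {i : ℕ} (h1 : 1 ≤ i) (h2 : i ≤ G.La) :
    G.N J * ‖R.y J i t‖ ≤ E * R.bh G J := by
  have h3 := R.y_le_ch G J h1 h2 t
  have h4 := h.cury
  have h5 : 1 ≤ G.Wc := (G.upp_one_le_Lpow 100).trans G.upp_Wc
  have h6 := R.ch_nonneg G J t
  have hN := G.N_pos J
  refine le_trans ?_ h4
  unfold Raw.nc
  gcongr
  nlinarith only [h3, h5, h6]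

/-- The errors of the new level. -/
lemma upp_ebc {z X : ℝ} (h : Cr0 G R J t) (hj : Jb G R J t) (hu : Up G R J t (G.N (J + 1) * X))
    (fl : Real.exp (-(G.t ^ 8 * G.Ga)) * R.bh G (J + 1) ≤ G.N (J + 1) * X)
    (h0 : 2 * R.bh G (J + 1) ≤ z * G.mQ) (h1 : z * G.mQ ≤ 10 * R.bh G (J + 1)) {F : ℝ}
    (hy : Kf G R J z * ‖R.y J G.La t‖ ≤ 3 * F + Kf G R J z * X) :
    R.eb G (J + 1) t + R.ec G J t ≤ Real.exp (-(3 * G.E)) * (2 * G.d (J + 1) * X + 3 / 2 * F) := by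
  obtain ⟨k0, k1, k2⟩ := H.Kf_bounds h0 h1
  have hN := G.N_pos (J + 1)
  have hd := G.d_pos (J + 1)
  have hX : 0 < X := by
    have := H.bh_pos (J + 1)
    have : 0 < G.N (J + 1) * X := lt_of_lt_of_le (by positivity) fl
    exact (mul_pos_iff_of_pos_left hN).1 this
  have h2 := h.err_new H hu hj fl
  have h3 : (G.L ^ 4)⁻¹ ≤ 1 := inv_le_one_of_one_le₀ (G.upp_one_le_Lpow _)
  have h4 : Kf G R J z ≤ G.d (J + 1) := k2.trans (by nlinarith only [hd, h3])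
  have h5 : G.lam (J + 1) * R.bh G (J + 1) / (G.m0 * G.mQ) * ‖R.y J G.La t‖ ≤
      3 / 2 * F + G.d (J + 1) * X := by
    have : G.lam (J + 1) * R.bh G (J + 1) / (G.m0 * G.mQ) * ‖R.y J G.La t‖ ≤
        Kf G R J z / 2 * ‖R.y J G.La t‖ := by gcongr
    have : Kf G R J z * X ≤ G.d (J + 1) * X := by gcongr
    have : 0 ≤ G.d (J + 1) * X := by positivity
    linarith
  refine le_of_mul_le_mul_left (h2.trans ?_) hN
  have he := Real.exp_pos (-(3 * G.E))
  calc _ = G.N (J + 1) * (Real.exp (-(3 * G.E)) * (G.d (J + 1) * X +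
        G.lam (J + 1) * R.bh G (J + 1) / (G.m0 * G.mQ) * ‖R.y J G.La t‖)) := by ring
    _ ≤ _ := by gcongr _ * (_ * ?_); linarith only [h5]

end IsNet

lemma upp_ey_num {T P m l l' bh N a X Yi Y1 D τ nl Lo Lo' yi y1 y2 lv et jk x : ℝ}
    (hT : 0 < T) (hl : 0 < l) (hbh : 0 < bh) (hN : 0 < N) (ha : 0 < a) (ha' : a ≤ 11) (hX : 0 < X)
    (hY1 : 0 < Y1) (hYi : 0 < Yi) (hτ : 0 < τ) (hτ1 : τ ≤ 1) (e : l' = T * l)
    (hQ : 10 ^ 6 * l' * bh ≤ P * m) (h1 : 9 * 10 ^ 6 * T * τ ≤ x)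
    (h2 : 72 * P * m ≤ x * D) (h3 : l * (bh * a) * Yi ≤ 3 * (D * Y1))
    (nl0 : 0 ≤ nl) (nl1 : nl ≤ a * bh / 2) (Lo0 : 0 ≤ Lo) (Lo1 : Lo ≤ Lo') (Lo2 : Lo' ≤ bh)
    (yi0 : 0 ≤ yi) (yi1 : yi ≤ 3 * Yi / N + X) (y10 : 0 ≤ y1) (y11 : y1 ≤ 3 * Y1 / N + X)
    (y20 : 0 ≤ y2) (y21 : y2 ≤ 3 * Y1 / N + X) (lv0 : 0 ≤ lv) (lv1 : lv ≤ X)
    (et1 : et ≤ bh * X) (jk1 : jk ≤ m * X) (hD : 0 < D) :
    10 ^ 6 * l' * (τ * nl * yi + (nl + Lo') * (y2 + lv) + Lo * y1 + et) + 10 * jk ≤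
      x * (D * Y1 / N) + (30 * P + 10) * m * X := by
  have hl' : 0 < l' := by rw [e]; positivity
  have Lo3 : 0 ≤ Lo' := Lo0.trans Lo1
  have a1 : τ * nl * yi ≤ τ * (a * bh / 2) * (3 * Yi / N + X) := by gcongr
  have a2 : (nl + Lo') * (y2 + lv) ≤ (11 * bh / 2 + bh) * (3 * Y1 / N + X + X) := by
    gcongr
    refine nl1.trans ?_
    gcongr
  have a3 : Lo * y1 ≤ bh * (3 * Y1 / N + X) := by gcongr; linarith only [Lo1, Lo2]
  have a4 : τ * (a * bh / 2) * X ≤ 1 * (11 * bh / 2) * X := by (clear * - hbh ha ha' hX hτ1; gcongr)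
  have a5 : 10 ^ 6 * l' * (τ * (a * bh / 2) * (3 * Yi / N)) ≤ x / 2 * (D * Y1 / N) := by
    calc _ = (10 ^ 6 * T * τ) * (3 / 2) * (l * (bh * a) * Yi) / N := by rw [e]; ring
      _ ≤ (10 ^ 6 * T * τ) * (3 / 2) * (3 * (D * Y1)) / N := by gcongr
      _ = (9 * 10 ^ 6 * T * τ) / 2 * (D * Y1 / N) := by ring
      _ ≤ _ := by gcongr
  have a6 : 10 ^ 6 * l' * bh * (36 * (Y1 / N)) ≤ x / 2 * (D * Y1 / N) := by
    calc _ ≤ P * m * (36 * (Y1 / N)) := by gcongr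
      _ = 72 * P * m / 2 * (Y1 / N) := by ring
      _ ≤ x * D / 2 * (Y1 / N) := by gcongr
      _ = _ := by ring
  have a7 : 10 ^ 6 * l' * bh * (30 * X) ≤ P * m * (30 * X) := by gcongr
  have a8 : τ * nl * yi + (nl + Lo') * (y2 + lv) + Lo * y1 + et ≤
      τ * (a * bh / 2) * (3 * Yi / N) + bh * (36 * (Y1 / N)) + bh * (30 * X) := by
    have b1 : 0 ≤ bh * (Y1 / N) := by positivity
    have b2 : 0 ≤ bh * X := by positivity
    have b3 : (11 * bh / 2 + bh) * (3 * Y1 / N + X + X) =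
        39 / 2 * (bh * (Y1 / N)) + 13 * (bh * X) := by ring
    have b4 : bh * (3 * Y1 / N + X) = 3 * (bh * (Y1 / N)) + bh * X := by ring
    have b5 : τ * (a * bh / 2) * (3 * Yi / N + X) =
        τ * (a * bh / 2) * (3 * Yi / N) + τ * (a * bh / 2) * X := by ring
    linarith only [et1, a1, a2, a3, a4, b1, b2, b3]
  have a9 : 10 ^ 6 * l' * (τ * nl * yi + (nl + Lo') * (y2 + lv) + Lo * y1 + et) ≤
      10 ^ 6 * l' * (τ * (a * bh / 2) * (3 * Yi / N) + bh * (36 * (Y1 / N)) + bh * (30 * X)) := by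
    gcongr
  linarith only [jk1, a5, a6, a7, a9]

/-- The errors of the rungs. -/
lemma IsNet.upp_ey (H : IsNet G R) {AA : ℕ → ℝ} {E X g0 : ℝ} (h : Bnd G R J AA t E)
    (hc : Cur G R J g0 t E) (ha : 0 < R.aa G J t) (ha' : R.aa G J t ≤ 11) (hj : Jb G R J t)
    (hu : Up G R J t (G.N (J + 1) * X))
    (fl : Real.exp (-(G.t ^ 8 * G.Ga)) * R.bh G (J + 1) ≤ G.N (J + 1) * X)
    (hy : ∀ i ≤ G.La, ‖R.y J i t‖ ≤ 3 * R.Yq G J (R.aa G J t) i / G.N J + X) {i : ℕ}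
    (hi : i < G.La) :
    R.ey G J i t ≤ Real.exp (-G.t ^ 19) * (G.D J * R.Yq G J (R.aa G J t) (i + 1) / G.N J) +
      (30 * G.L ^ 4 + 10) * G.lm J * X := by
  have h0 := h.cr0 H
  have hN := G.N_pos J
  have hN' := G.N_pos (J + 1)
  have hb := H.bh_pos J
  have hb' := H.bh_pos (J + 1)
  have hl := G.lam_pos J
  have t0 := G.t_pos
  have L0 := G.L_pos
  have Q0 := G.Q_pos
  have hm := G.lm_pos J
  have hX : 0 < X := by
    have : 0 < G.N (J + 1) * X := lt_of_lt_of_le (by positivity) fl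
    exact (mul_pos_iff_of_pos_left hN').1 this
  have hE : 0 < E := G.xs_pos.trans_le h.Elo
  have Y1 := H.Yq_pos J ha (i + 1)
  have Yi := H.Yq_pos J ha i
  have kk := G.ten_le_kk
  refine upp_ey_num (a := R.aa G J t) (Yi := R.Yq G J (R.aa G J t) i) (bh := R.bh G J) L0 hl hb hN
    ha ha' hX Y1 Yi G.tau0_pos G.upp_tau0' (G.lam_succ J) (H.upp_lam_bh J) G.upp_tau0 (G.upp_D J)
    ?_ (R.nl_nonneg G J t) ?_ (R.Low_nonneg G J t) (R.Low_succ G J t) ?_ (norm_nonneg _)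
    (hy i hi.le) (norm_nonneg _) (hy _ hi) (norm_nonneg _) ?_ (R.lev_nonneg _ _) ?_ ?_ ?_
    (G.D_pos J)
  · rw [R.Yq_succ]
    have := H.cy_lo (i + 1)
    have h2 : 0 < G.lam J * (R.bh G J * R.aa G J t) * R.Yq G J (R.aa G J t) i := by positivity
    nlinarith only [this, h2]
  · have h1 := h.curl
    have h2 := H.un_hi J
    have h3 := (abs_le.mp hc.near).1
    have h4 := H.un_pos J
    unfold Raw.nl
    calc G.N J * R.lev J t ≤ G.N J * (4 * (E * R.un G J)) := by gcongr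
      _ = E / 4 * (16 * (G.N J * R.un G J)) := by ring
      _ ≤ (R.aa G J t / 2) * R.bh G J := by gcongr ?_ * ?_; linarith only [ha, h3]
      _ = _ := by ring
  · have h1 := h0.Low_le H (J + 1)
    rw [H.bh_succ] at h1
    have h2 := G.upp_mQ
    have h3 := G.upp_L_lt (a := 2) (b := 200) (by norm_num)
    have h4 := G.upp_Q_le
    refine le_of_mul_le_mul_left (h1.trans ?_) G.mQ_pos
    rw [← mul_assoc]
    gcongr
    linarith only [Q0, h2, h3, h4]
  · rcases (show i + 2 ≤ G.La ∨ i + 2 = G.La + 1 by omega) with h1 | h1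
    · refine (hy _ h1).trans ?_
      have h2 := H.Yq_succ_le J ha ha' (i + 1)
      have h3 : Real.exp (-(G.Q / 3)) ≤ 1 := Real.exp_le_one_iff.mpr (by linarith only [Q0])
      gcongr
      exact h2.trans (by nlinarith only [Y1, h3])
    · rw [h1, H.yend, norm_zero]; positivity
  · exact le_of_mul_le_mul_left hu.nw hN'
  · have h1 := h0.ET_up H hu (m := J + G.kk - 1) (by omega)
    have h2 : G.θ ^ (2 * (J + G.kk - 1 - J - 1)) ≤ 1 := pow_le_one₀ G.θ_pos.le G.upp_θ_le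
    have h3 : G.N (J + 1) ≤ G.N (J + G.kk - 1) := G.N_mono (by omega)
    have h4 : G.N J ≤ G.N (J + 1) := G.N_mono (by omega)
    have h5 := H.ET_nonneg (J + G.kk - 1) t
    have h6 : G.Q * G.L ^ 2 ≤ G.Wc ^ 2 := by
      have := G.upp_Wc
      calc G.Q * G.L ^ 2 ≤ G.L ^ 2 * G.L ^ 2 := by gcongr; exact G.upp_Q_le
        _ = G.L ^ 4 := by ring
        _ ≤ G.L ^ 200 := G.L_pow_le (by norm_num)
        _ = (G.L ^ 100) ^ 2 := by ring
        _ ≤ _ := by gcongr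
    have h7 : G.Q * G.L ^ 2 * (G.N J * G.N (J + 1) * R.ET (J + G.kk - 1) t) ≤
        R.bh G (J + 1) * (G.N (J + 1) * X) := by
      calc _ ≤ G.Wc ^ 2 * (G.N (J + G.kk - 1) ^ 2 * R.ET (J + G.kk - 1) t) := by
            rw [sq (G.N _)]
            have := G.N_pos (J + G.kk - 1)
            gcongr
            exact h4.trans h3
        _ ≤ _ := h1
        _ ≤ 1 * (R.bh G (J + 1) * (G.N (J + 1) * X)) := by (clear * - hN' hb' hX h2; gcongr)
        _ = _ := one_mul _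
    rw [H.bh_succ] at h7
    refine le_of_mul_le_mul_left (a := G.Q * G.N (J + 1)) ?_ (by positivity)
    calc _ = G.Q * G.L ^ 2 * (G.N J * G.N (J + 1) * R.ET (J + G.kk - 1) t) := by ring
      _ ≤ _ := h7
      _ = _ := by ring
  · have h1 := H.jk_up hj (le_refl J)
    rw [Nat.sub_self, pow_zero, one_mul] at h1
    have h2 := G.upp_N_succ J
    have h3 : R.bh G J ≤ R.bh G (J + 1) := H.bh_mono (by omega)
    have h4 : G.L ^ 2 ≤ Real.exp (G.Ga ^ 2 - G.t ^ 8 * G.Ga) := by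
      refine G.upp_Lexp (by norm_num) ?_
      have a1 := G.upp_t_le (m := 8) (by norm_num)
      have a2 := G.pow_lt (a := 8) (b := 42) (by norm_num)
      have a3 := G.t_le_Ga
      have a4 := G.upp_one_le_Ga
      have a5 : G.t ≤ G.Ga - G.t ^ 8 := by linarith only [t0, a1, a2, a3]
      have a6 : G.t * 1 ≤ (G.Ga - G.t ^ 8) * G.Ga :=
        mul_le_mul a5 a4 zero_le_one (t0.le.trans a5)
      linarith only [t0, a6]
    have h5 : R.bh G J ≤ Real.exp (G.Ga ^ 2) * (G.N J * X) := by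
      have e : Real.exp (G.t ^ 8 * G.Ga) * Real.exp (-(G.t ^ 8 * G.Ga)) = 1 := by
        rw [← Real.exp_add]; simp
      have e2 : Real.exp (G.Ga ^ 2) =
          Real.exp (G.t ^ 8 * G.Ga) * Real.exp (G.Ga ^ 2 - G.t ^ 8 * G.Ga) := by
        rw [← Real.exp_add]; ring_nf
      calc R.bh G J ≤ Real.exp (G.t ^ 8 * G.Ga) * (Real.exp (-(G.t ^ 8 * G.Ga)) * R.bh G (J + 1)) := by
            rw [← mul_assoc, e, one_mul]; exact h3
        _ ≤ Real.exp (G.t ^ 8 * G.Ga) * (G.L ^ 2 * G.N J * X) := by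
            gcongr _ * ?_
            exact fl.trans (by gcongr)
        _ ≤ Real.exp (G.t ^ 8 * G.Ga) * (Real.exp (G.Ga ^ 2 - G.t ^ 8 * G.Ga) * G.N J * X) := by
            gcongr
        _ = _ := by rw [e2]; ring
    refine le_of_mul_le_mul_left (a := Real.exp (G.Ga ^ 2) * G.N J) ?_ (by positivity)
    calc _ = Real.exp (G.Ga ^ 2) * (G.N J * R.Jk t) := by ring
      _ ≤ G.lm J * R.bh G J := h1
      _ ≤ G.lm J * (Real.exp (G.Ga ^ 2) * (G.N J * X)) := by gcongr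
      _ = _ := by ring

/-- Barrier for four families. -/
theorem upp_barrier {a b : ℝ} {L M : ℕ} {A : ℝ → ℝ} {B C D : ℕ → ℝ → ℝ}
    (out : ∀ i, M ≤ i → ∀ t ∈ Icc a b, C i t ≤ 0 ∧ D i t ≤ 0)
    (cA : ContinuousOn A (Icc a b)) (cB : ∀ i < L, ContinuousOn (B i) (Icc a b))
    (cC : ∀ i, ContinuousOn (C i) (Icc a b)) (cD : ∀ i, ContinuousOn (D i) (Icc a b))
    (h0 : A a ≤ 0 ∧ (∀ i < L, B i a ≤ 0) ∧ (∀ i, C i a ≤ 0) ∧ ∀ i, D i a ≤ 0)
    (step : ∀ t ∈ Icc a b, (A t ≤ 0 ∧ (∀ i < L, B i t ≤ 0) ∧ (∀ i, C i t ≤ 0) ∧ ∀ i, D i t ≤ 0) →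
      (A t = 0 → ∃ e < 0, HasDerivWithinAt A e (Ici t) t) ∧
      (∀ i < L, B i t = 0 → ∃ e < 0, HasDerivWithinAt (B i) e (Ici t) t) ∧
      (∀ i, C i t = 0 → ∃ e < 0, HasDerivWithinAt (C i) e (Ici t) t) ∧
      (∀ i, D i t = 0 → ∃ e < 0, HasDerivWithinAt (D i) e (Ici t) t)) :
    ∀ t ∈ Icc a b, A t ≤ 0 ∧ (∀ i < L, B i t ≤ 0) ∧ (∀ i, C i t ≤ 0) ∧ ∀ i, D i t ≤ 0 := by
  let F : Unit ⊕ Fin L ⊕ ℕ ⊕ ℕ → ℝ → ℝ :=
    Sum.elim (fun _ => A) (Sum.elim (fun i => B i) (Sum.elim C D))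
  have eqv : ∀ t, (∀ i, F i t ≤ 0) ↔
      (A t ≤ 0 ∧ (∀ i < L, B i t ≤ 0) ∧ (∀ i, C i t ≤ 0) ∧ ∀ i, D i t ≤ 0) := by
    intro t
    simp only [F, Sum.forall, Sum.elim_inl, Sum.elim_inr, forall_const, Fin.forall_iff]
  let s : Set (Unit ⊕ Fin L ⊕ ℕ ⊕ ℕ) := range Sum.inl ∪ range (Sum.inr ∘ Sum.inl) ∪
    (Sum.inr ∘ Sum.inr ∘ Sum.inl) '' Iio M ∪ (Sum.inr ∘ Sum.inr ∘ Sum.inr) '' Iio M
  have fin : s.Finite := (((finite_range _).union (finite_range _)).union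
    ((finite_Iio M).image _)).union ((finite_Iio M).image _)
  have := family_barrier' (H := F) (a := a) (b := b) fin ?_ ?_ ((eqv a).2 h0) ?_
  · exact fun t ht => (eqv t).1 (this t ht)
  · rintro (i | i | i | i) hi t ht
    · exact absurd (Or.inl (Or.inl (Or.inl ⟨i, rfl⟩))) hi
    · exact absurd (Or.inl (Or.inl (Or.inr ⟨i, rfl⟩))) hi
    · exact (out i (not_lt.mp fun h => hi (Or.inl (Or.inr ⟨i, h, rfl⟩))) t ht).1
    · exact (out i (not_lt.mp fun h => hi (Or.inr ⟨i, h, rfl⟩)) t ht).2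
  · rintro (i | i | i | i)
    · exact cA
    · exact cB i i.2
    · exact cC i
    · exact cD i
  · intro t ht hp
    obtain ⟨s1, s2, s3, s4⟩ := step t (Ico_subset_Icc_self ht) ((eqv t).1 (hp t ⟨ht.1, le_rfl⟩))
    rintro (i | i | i | i)
    · exact s1
    · exact s2 i i.2
    · exact s3 i
    · exact s4 i

end

end Pool.Agent.Work.MP_6bf1e5_an.Hyp
end
end

-- merged part: Pool.Agent.Work.MP_6bf1e5_an.Hyp.Upp
section
-- merged part: Pool.Agent.Work.MP_6bf1e5_an.Hyp.Upper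
section
/-!
Ladders and upper levels are strongly damped.
-/

open Set Complex Filter Topology
open scoped InnerProductSpace ComplexConjugate
open Pool.Agent.Work.MP_6bf1e5_an.B (Z3 R3)
open Pool.Agent.Work.MP_6bf1e5_an.Hyp.Dec

namespace Pool.Agent.Work.MP_6bf1e5_an.Hyp

noncomputable section

variable {G : Geo} {R : Raw} {J : ℕ} {t : ℝ}

namespace UpperAux

lemma small {q c M ε : ℝ} (hq : 0 ≤ q) (hε : 0 ≤ ε) (hM : 1 ≤ ε * M) (h : M * q ≤ c) :
    q ≤ ε * c :=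
  calc q ≤ ε * M * q := le_mul_of_one_le_left hq hM
    _ = ε * (M * q) := by ring
    _ ≤ ε * c := by gcongr

lemma θ_le_one (G : Geo) : G.θ ≤ 1 := inv_le_one_of_one_le₀ (one_le_pow₀ G.one_le_t)

lemma θ_pow_le (G : Geo) {a b : ℕ} (h : a ≤ b) : G.θ ^ b ≤ G.θ ^ a :=
  pow_le_pow_of_le_one G.θ_pos.le (θ_le_one G) h

lemma θ_mul (G : Geo) : G.t ^ 10 * G.θ = 1 := mul_inv_cancel₀ (pow_pos G.t_pos _).ne'

lemma xs_small (G : Geo) : 10 ^ 100 * G.xs ≤ 1 := by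
  have h := G.pow_lt (show 0 < 30 by norm_num)
  have h0 : 0 < G.t ^ 30 := pow_pos G.t_pos _
  have h1 : 10 ^ 100 * (G.t ^ 30)⁻¹ ≤ 1 := by
    rw [← div_eq_mul_inv, div_le_one h0]
    simpa using h
  have := G.xs_le
  linarith

lemma L_lt (G : Geo) {a b : ℕ} (h : a < b) : 10 ^ 100 * G.L ^ a ≤ G.L ^ b := by
  have h1 : 1 ≤ G.t ^ 20 := one_le_pow₀ G.one_le_t
  have h2 := pow_pos G.L_pos a
  refine le_trans ?_ (G.L_pow_lt h)
  gcongr
  linarith only [h1]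

lemma t_pow_le_L (G : Geo) {k : ℕ} (hk : k ≤ 21) : G.t ^ k ≤ G.L := (G.pow_le hk).trans G.L_lo

lemma Q_le (G : Geo) : G.Q ≤ G.L ^ 2 :=
  (le_mul_of_one_le_left G.Q_pos.le (one_le_pow₀ G.one_le_t)).trans G.Q_hi

lemma E_le_W (G : Geo) : G.E ≤ G.W := by
  rw [G.W_eq]; exact le_mul_of_one_le_left G.E_pos.le G.one_le_t

lemma W_pos (G : Geo) : 0 < G.W := G.E_pos.trans_le (E_le_W G)

lemma W_small (G : Geo) : 10 ^ 100 * G.W ≤ G.Q := by
  rw [← G.W_mul]; exact mul_le_mul_of_nonneg_right G.t_big (W_pos G).le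

lemma pow_le_expE (G : Geo) {k : ℕ} (hk : k ≤ 1000) : G.L ^ k ≤ Real.exp G.E := by
  refine (G.L_pow_le_exp hk).trans (Real.exp_le_exp.2 ?_)
  have h := G.pow_le (show 1 ≤ 19 by norm_num)
  have := G.t_pos
  have := G.E_lo
  rw [pow_one] at h
  linarith

lemma pow_mul_eps (G : Geo) {k : ℕ} (hk : k ≤ 1000) : G.L ^ k * Real.exp (-G.E) ≤ 1 := by
  rw [Real.exp_neg, ← div_eq_mul_inv, div_le_one (Real.exp_pos _)]
  exact pow_le_expE G hk

lemma eps_exp (G : Geo) {x : ℝ} (h : G.E ≤ x) : 1 ≤ Real.exp (-G.E) * Real.exp x := by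
  rw [← Real.exp_add]
  exact Real.one_le_exp (by linarith)

lemma eps_W (G : Geo) : 1 ≤ Real.exp (-G.E) * G.Wc := eps_exp G (E_le_W G)

lemma eps_mQ (G : Geo) : 1 ≤ Real.exp (-G.E) * G.mQ := by
  have := G.E_pos
  exact (eps_exp G (x := 100 * G.E) (by linarith)).trans (by gcongr; exact G.mQ_lo)

lemma one_le_m1 (G : Geo) : 1 ≤ G.m1 :=
  (Real.one_le_exp (by have := G.E_pos; positivity)).trans G.m1_lo

lemma one_le_m0 (G : Geo) : 1 ≤ G.m0 := (one_le_m1 G).trans G.m1_le_m0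

lemma one_le_W (G : Geo) : 1 ≤ G.Wc := Real.one_le_exp (W_pos G).le

lemma tau0_eps (G : Geo) : G.tau0 ≤ Real.exp (-G.E) := by
  have := G.E_pos
  exact G.tau0_le.trans (Real.exp_le_exp.2 (by linarith))

lemma eps_le_one (G : Geo) : Real.exp (-G.E) ≤ 1 := by
  simpa using pow_mul_eps G (k := 0) (by norm_num)

lemma pow_W_le (G : Geo) {k : ℕ} (hk : k ≤ 1000) : G.L ^ k * G.Wc ≤ Real.exp (G.Q / 4) := by
  have h1 := W_small G
  have h2 := E_le_W G
  have h3 := W_pos G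
  calc _ ≤ Real.exp G.E * Real.exp G.W :=
        mul_le_mul_of_nonneg_right (pow_le_expE G hk) G.Wc_pos.le
    _ = Real.exp (G.E + G.W) := (Real.exp_add _ _).symm
    _ ≤ _ := Real.exp_le_exp.2 (by linarith only [h1, h2, h3])

lemma lb_le (H : IsNet G R) (i : ℕ) : G.lam i * R.bh G i ≤ G.L ^ 3 * G.lm i := by
  have a1 := H.lam_bh_hi i
  have a2 := mul_pos (G.lam_pos i) (H.bh_pos i)
  have a3 : G.t ^ 11 * G.Ga ≤ G.L ^ 3 :=
    (mul_le_mul_of_nonneg_right (G.pow_le (by norm_num)) G.Ga_pos.le).trans G.Ga_hi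
  have a4 := mul_le_mul_of_nonneg_right a3 (G.lm_pos i).le
  linarith

/-- The derivative of the weighted norm of a ladder. -/
lemma nc_base (H : IsNet G R) (h : Cr0 G R J t) (i : ℕ) (pos : 0 < R.nc G i t) :
    ∃ D, HD (R.nc G i) D t ∧ D ≤ -(G.D i * R.nc G i t) + G.L ^ 5 * G.lm i *
      (R.nc G i t + G.Wc * R.nl G i t + G.L * (G.Wc * R.nl G (i + 1) t)) +
      G.L ^ 5 * (G.lam i * (G.Wc * (G.N i ^ 2 * R.ET (i + G.kk - 1) t))) +
      G.L * G.Wc * (G.N i * R.Jk t) := by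
  have hN := G.N_pos i
  have hW := G.Wc_pos
  have hT := G.L_pos
  have hL := G.lam_pos i
  have hM := G.lm_pos i
  have hb := H.bh_pos i
  have hc : 0 < R.ch G i t := (mul_pos_iff_of_pos_left hW).1 ((mul_pos_iff_of_pos_left hN).1 pos)
  obtain ⟨D, hD, le⟩ := H.ch_deriv h.t0 hc
  refine ⟨G.N i * (G.Wc * D), (hD.const_mul _).const_mul _, ?_⟩
  have hE := H.ET_nonneg (i + G.kk - 1) t
  have l0 := R.lev_nonneg i t
  have l1 := R.lev_nonneg (i + 1) t
  have hlow : R.Low G (i + 1) t ≤ R.bh G i := by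
    have a1 := small (R.Low_nonneg G (i + 1) t) (Real.exp_pos _).le (eps_mQ G) (h.Low_le H (i + 1))
    rw [H.bh_succ] at a1
    have a2 := pow_mul_eps G (k := 3) (by norm_num)
    have a3 := L_lt G (show 2 < 3 by norm_num)
    have a4 := Real.exp_pos (-G.E)
    have a5 := Q_le G
    have a6 := G.Q_pos
    calc _ ≤ _ := a1
      _ = (20 * G.Q * Real.exp (-G.E)) * R.bh G i := by ring
      _ ≤ (G.L ^ 3 * Real.exp (-G.E)) * R.bh G i := by gcongr; linarith only [a3, a5, a6]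
      _ ≤ _ := mul_le_of_le_one_left hb.le a2
  have hS : 10 ^ 8 * G.lam (i + 1) * (R.nl G i t + R.Low G (i + 1) t) ≤
      G.L ^ 5 * G.lm i := by
    have a1 := h.nl i
    have a2 := lb_le H i
    have a3 := L_lt G (show 4 < 5 by norm_num)
    have a4 := pow_pos hT 4
    rw [G.lam_succ]
    calc _ ≤ 10 ^ 8 * (G.L * G.lam i) * (11 * R.bh G i) := by gcongr; linarith only [hlow, a1]
      _ = 11 * 10 ^ 8 * G.L * (G.lam i * R.bh G i) := by ring
      _ ≤ 11 * 10 ^ 8 * G.L * (G.L ^ 3 * G.lm i) := by gcongr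
      _ = (11 * 10 ^ 8 * G.L ^ 4) * G.lm i := by ring
      _ ≤ _ := by gcongr; linarith only [a3, a4]
  have hS2 : 10 ^ 8 * G.L ^ 4 ≤ G.L ^ 5 := by
    have a3 := L_lt G (show 4 < 5 by norm_num)
    have a4 := pow_pos hT 4
    linarith only [a3, a4]
  have hl : G.N i * R.lev (i + 1) t ≤ R.nl G (i + 1) t :=
    mul_le_mul_of_nonneg_right (G.N_mono (Nat.le_succ i)) l1
  calc G.N i * (G.Wc * D) ≤ _ := mul_le_mul_of_nonneg_left (mul_le_mul_of_nonneg_left le hW.le) hN.le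
    _ = -(G.D i * R.nc G i t) + (10 ^ 8 * G.lam (i + 1) * (R.nl G i t + R.Low G (i + 1) t)) *
        (R.nc G i t + G.Wc * R.nl G i t + G.L * (G.Wc * (G.N i * R.lev (i + 1) t))) +
        (10 ^ 8 * G.L ^ 4) * (G.lam i * (G.Wc * (G.N i ^ 2 * R.ET (i + G.kk - 1) t))) +
        G.L * G.Wc * (G.N i * R.Jk t) := by
      unfold Raw.nc Raw.nl; rw [G.lam_succ]; ring
    _ ≤ _ := by
      have := R.nl_nonneg G i t
      (clear * - pos hN hW hT hL hM hE l1 hS hS2 hl this; gcongr)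

/-- The backscatter onto the upper levels. -/
lemma et_up (H : IsNet G R) (h : Cr0 G R J t) {u : ℝ} (hu : Up G R J t u) (u0 : 0 ≤ u) {i : ℕ}
    (hi : J + 1 ≤ i) : G.Wc * (G.Wc * (G.N i ^ 2 * R.ET (i + G.kk - 1) t)) ≤
      R.bh G i * (G.θ ^ (i - J) * u) := by
  have hk := G.ten_le_kk
  have a1 := h.ET_up H hu (m := i + G.kk - 1) (by omega)
  have a2 : G.N i ≤ G.N (i + G.kk - 1) := G.N_mono (by omega)
  have a3 := θ_pow_le G (show i - J ≤ 2 * (i + G.kk - 1 - J - 1) by omega)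
  have a4 := H.bh_mono hi
  have hN := G.N_pos i
  have hW := G.Wc_pos
  have hE := H.ET_nonneg (i + G.kk - 1) t
  have hb := H.bh_pos (J + 1)
  have hθ := G.θ_pos
  calc _ = G.Wc ^ 2 * (G.N i ^ 2 * R.ET (i + G.kk - 1) t) := by ring
    _ ≤ G.Wc ^ 2 * (G.N (i + G.kk - 1) ^ 2 * R.ET (i + G.kk - 1) t) := by gcongr
    _ ≤ _ := a1
    _ ≤ G.θ ^ (i - J) * (R.bh G i * u) := by gcongr
    _ = _ := by ring

/-- The junk acting on the upper levels. -/
lemma jk_up' (H : IsNet G R) {u : ℝ} (hj : Jb G R J t)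
    (fl : Real.exp (-(G.t ^ 8 * G.Ga)) * R.bh G (J + 1) ≤ u) {i : ℕ} (hi : J + 1 ≤ i) :
    G.Wc * (G.N i * R.Jk t) ≤ Real.exp (-G.E) * (G.lm i * (G.θ ^ (i - J) * u)) := by
  have a1 := H.jk_up hj (show J ≤ i by omega)
  have a2 : R.bh G J ≤ Real.exp (G.t ^ 8 * G.Ga) * u := by
    refine (H.bh_mono (Nat.le_succ J)).trans ?_
    calc R.bh G (J + 1) = Real.exp (G.t ^ 8 * G.Ga) * (Real.exp (-(G.t ^ 8 * G.Ga)) * R.bh G (J + 1)) := by
          rw [← mul_assoc, ← Real.exp_add]; simp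
      _ ≤ _ := by gcongr
  have a3 : 0 ≤ G.N i * R.Jk t := mul_nonneg (G.N_pos i).le (H.Jk_nonneg t)
  have hθ := G.θ_pos
  have hM := G.lm_pos i
  have a4 : G.Wc * Real.exp (G.t ^ 8 * G.Ga) ≤ Real.exp (-G.E) * Real.exp (G.Ga ^ 2) := by
    unfold Geo.Wc
    rw [← Real.exp_add, ← Real.exp_add]
    have b0 := G.Ga_pos
    have b1 : 10 ^ 100 * G.t ^ 8 * G.Ga ≤ G.Ga * G.Ga :=
      mul_le_mul_of_nonneg_right ((G.pow_lt (by norm_num)).trans G.t_le_Ga) b0.le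
    have b2 := E_le_W G
    have b3 := W_small G
    have b4 := W_pos G
    have b5 : G.Q ≤ G.Ga := by
      rw [← G.Q_mul_L]; exact le_mul_of_one_le_right G.Q_pos.le G.one_le_L
    have b6 : G.Ga ≤ G.t ^ 8 * G.Ga := le_mul_of_one_le_left b0.le (one_le_pow₀ G.one_le_t)
    rw [sq]
    exact Real.exp_le_exp.2 (by linarith only [b1, b2, b3, b4, b5, b6])
  have e0 := Real.exp_pos (G.t ^ 8 * G.Ga)
  have e1 := Real.exp_pos (-G.E)
  have e2 : Real.exp (G.Ga ^ 2) * (G.N i * R.Jk t) ≤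
      Real.exp (G.t ^ 8 * G.Ga) * (G.lm i * (G.θ ^ (i - J) * u)) :=
    calc _ ≤ _ := a1
      _ ≤ G.θ ^ (i - J) * (G.lm i * (Real.exp (G.t ^ 8 * G.Ga) * u)) := by gcongr
      _ = _ := by ring
  have e3 : 0 ≤ G.lm i * (G.θ ^ (i - J) * u) :=
    (mul_nonneg_iff_of_pos_left e0).1 ((mul_nonneg (Real.exp_pos _).le a3).trans e2)
  refine le_of_mul_le_mul_left ?_ (Real.exp_pos (G.Ga ^ 2))
  calc _ = G.Wc * (Real.exp (G.Ga ^ 2) * (G.N i * R.Jk t)) := by ring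
    _ ≤ G.Wc * (Real.exp (G.t ^ 8 * G.Ga) * (G.lm i * (G.θ ^ (i - J) * u))) := by
        have := G.Wc_pos; gcongr
    _ = (G.Wc * Real.exp (G.t ^ 8 * G.Ga)) * (G.lm i * (G.θ ^ (i - J) * u)) := by ring
    _ ≤ (Real.exp (-G.E) * Real.exp (G.Ga ^ 2)) * (G.lm i * (G.θ ^ (i - J) * u)) := by
        gcongr
    _ = _ := by ring

lemma exp_half (G : Geo) : 2 * Real.exp (G.Q / 4) ≤ Real.exp (G.Q / 2) := by
  have h1 := G.pow_lt (show 0 < 21 by norm_num)
  have h2 := Real.add_one_le_exp (G.Q / 4)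
  have h3 := Real.exp_pos (G.Q / 4)
  have h4 := G.Q_lo
  rw [show G.Q / 2 = G.Q / 4 + G.Q / 4 by ring, Real.exp_add]
  gcongr
  rw [pow_zero] at h1
  linarith only [h1, h2, h4]

/-- The final numerical inequality for the upper levels. -/
lemma num_l {T Λ ε L M b X : ℝ} (h11 : T ^ 11 ≤ Λ) (h12 : T ^ 12 ≤ Λ)
    (hΛ : (10 : ℝ) ^ 100 ≤ Λ) (hε : 0 ≤ ε) (h1 : Λ ^ 7 * ε ≤ 1)
    (hL : 0 ≤ L) (hM : 0 ≤ M) (hb : L * b ≤ Λ ^ 3 * M) (b0 : 0 ≤ b) (hX : 0 ≤ X) :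
    ε * (10 ^ 3 * T ^ 11 * (L * b) * (Λ ^ 2 * X)) +
      (10 ^ 6 * L * (ε * (11 * b) * X + Λ ^ 3 * (ε * (30 * b)) * (X + X + X) +
        ε * b * (X + X) + ε * (20 * b) * X + ε * (b * X)) + 10 * (ε * (M * X))) +
      T ^ 12 * (L * (ε * (11 * b) * X + ε * (20 * b) * X +
        (ε * (20 * b) + ε * (20 * b)) * (Λ ^ 2 * X) + ε * (b * X)) + ε * (M * X)) ≤
      M * X / 4 := by
  have T1 : 1 ≤ Λ := le_trans (by norm_num) hΛ
  have T0 : 0 ≤ Λ := by linarith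
  have p0 : 1 ≤ Λ ^ 3 := one_le_pow₀ T1
  have p1 : T ^ 11 * Λ ^ 2 ≤ Λ ^ 3 := by
    calc _ ≤ Λ * Λ ^ 2 := by gcongr
      _ = _ := by ring
  have p2 : T ^ 12 ≤ Λ ^ 3 := h12.trans (le_self_pow₀ T1 (by norm_num))
  have p3 : T ^ 12 * Λ ^ 2 ≤ Λ ^ 3 := by
    calc _ ≤ Λ * Λ ^ 2 := by gcongr
      _ = _ := by ring
  calc _ = (10 ^ 3 * (T ^ 11 * Λ ^ 2) + 10 ^ 6 * (34 + 90 * Λ ^ 3) +
          (32 * T ^ 12 + 40 * (T ^ 12 * Λ ^ 2))) * (ε * X) * (L * b) +
        (10 + T ^ 12) * (ε * X) * M := by ring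
    _ ≤ (10 ^ 9 * Λ ^ 3) * (ε * X) * (Λ ^ 3 * M) +
        (10 ^ 9 * Λ ^ 3) * (ε * X) * (Λ ^ 3 * M) := by
      gcongr
      · linarith
      · linarith
      · exact le_mul_of_one_le_left hM p0
    _ = (2 * 10 ^ 9 * Λ ^ 6 * ε) * (M * X) := by ring
    _ ≤ (1 / 4) * (M * X) := by
      gcongr
      have : 8 * 10 ^ 9 * Λ ^ 6 ≤ Λ ^ 7 :=
        calc _ ≤ Λ * Λ ^ 6 := by gcongr; linarith only [hΛ]
          _ = _ := by ring
      nlinarith only [hΛ, h1]
    _ = _ := by ring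

end UpperAux

open UpperAux

namespace Cr0

variable (H : IsNet G R) (h : Cr0 G R J t)

include H h

/-- Arbitrary ladders. -/
theorem nc_deriv (i : ℕ) (pos : 0 < R.nc G i t) : ∃ D, HD (R.nc G i) D t ∧
    D ≤ -(G.D i / 2 * R.nc G i t) + Real.exp (-(G.Q / 4)) * (G.D i * R.bh G i) +
      G.L * G.Wc * (G.N i * R.Jk t) := by
  obtain ⟨D, hD, le⟩ := nc_base H h i pos
  refine ⟨D, hD, le.trans ?_⟩
  have hW := G.Wc_pos
  have hT := G.L_pos
  have hL := G.lam_pos i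
  have hM := G.lm_pos i
  have hb := H.bh_pos i
  have a1 : G.L ^ 5 * G.lm i ≤ G.D i / 2 := by
    have b1 := pow_W_le G (k := 5) (by norm_num)
    have b2 := exp_half G
    have b3 : G.L ^ 5 ≤ G.L ^ 5 * G.Wc := le_mul_of_one_le_right (pow_pos hT _).le (one_le_W G)
    unfold Geo.D
    rw [mul_div_right_comm]
    gcongr
    linarith only [b1, b2, b3]
  have a2 : Real.exp (-(G.Q / 4)) * (G.D i * R.bh G i) =
      Real.exp (G.Q / 4) * (G.lm i * R.bh G i) := by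
    unfold Geo.D
    rw [show G.Q / 4 = -(G.Q / 4) + G.Q / 2 by ring_nf, Real.exp_add]
    ring_nf
  have a3 := h.nl i
  have a4 : R.nl G (i + 1) t ≤ 10 * (G.L ^ 2 * R.bh G i) := by
    have b1 := h.nl (i + 1)
    have b2 := Q_le G
    rw [H.bh_succ] at b1
    exact b1.trans (by gcongr)
  have a5 : G.lam i * (G.Wc * (G.N i ^ 2 * R.ET (i + G.kk - 1) t)) ≤
      G.Wc * (10 ^ 7 * G.L * (R.bh G i * (G.L ^ 3 * G.lm i))) := by
    have b1 := h.ET_far H i
    have b2 := lb_le H i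
    have b3 : 0 ≤ G.N i ^ 2 * R.ET (i + G.kk - 1) t :=
      mul_nonneg (sq_nonneg _) (H.ET_nonneg _ _)
    have b4 := G.L_lo
    have b5 := (le_mul_of_one_le_left b3 (one_le_m1 G)).trans b1
    calc _ ≤ G.lam i * (G.Wc * (10 ^ 7 * G.t ^ 21 * R.bh G i ^ 2)) := by gcongr
      _ = G.Wc * (10 ^ 7 * G.t ^ 21 * (R.bh G i * (G.lam i * R.bh G i))) := by ring
      _ ≤ _ := by gcongr
  have a6 : G.L ^ 5 * G.lm i * (G.Wc * R.nl G i t + G.L * (G.Wc * R.nl G (i + 1) t)) +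
      G.L ^ 5 * (G.lam i * (G.Wc * (G.N i ^ 2 * R.ET (i + G.kk - 1) t))) ≤
      Real.exp (G.Q / 4) * (G.lm i * R.bh G i) := by
    have b1 := G.L_pow_le (show 5 ≤ 9 by norm_num)
    have b2 := G.L_pow_le (show 8 ≤ 9 by norm_num)
    have b3 := L_lt G (show 9 < 10 by norm_num)
    have b4 := pow_pos hT 9
    calc _ ≤ G.L ^ 5 * G.lm i * (G.Wc * (10 * R.bh G i) +
          G.L * (G.Wc * (10 * (G.L ^ 2 * R.bh G i)))) + G.L ^ 5 *
          (G.Wc * (10 ^ 7 * G.L * (R.bh G i * (G.L ^ 3 * G.lm i)))) := by (clear * - hW hT hM a3 a4 a5; gcongr)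
      _ = (10 * G.L ^ 5 + 10 * G.L ^ 8 + 10 ^ 7 * G.L ^ 9) * G.Wc *
          (G.lm i * R.bh G i) := by ring
      _ ≤ G.L ^ 10 * G.Wc * (G.lm i * R.bh G i) := by gcongr; linarith only [b1, b2, b3, b4]
      _ ≤ _ := by gcongr; exact pow_W_le G (by norm_num)
  have a7 := mul_le_mul_of_nonneg_right a1 pos.le
  rw [a2]
  linarith only [a6, a7]

/-- Upper ladders. -/
theorem up_y {u : ℝ} (hu : Up G R J t u) (hj : Jb G R J t)
    (fl : Real.exp (-(G.t ^ 8 * G.Ga)) * R.bh G (J + 1) ≤ u) {i : ℕ} (hi : J + 1 ≤ i)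
    (e : R.nc G i t = G.θ ^ (i - J) * u) :
    ∃ D, HD (R.nc G i) D t ∧ D ≤ -(10 * G.d (J + 1) * R.nc G i t) := by
  have u0 : 0 < u := (mul_pos (Real.exp_pos _) (H.bh_pos _)).trans_le fl
  have hθ := G.θ_pos
  have pos : 0 < R.nc G i t := by rw [e]; positivity
  obtain ⟨D, hD, le⟩ := nc_base H h i pos
  refine ⟨D, hD, le.trans ?_⟩
  have hW := G.Wc_pos
  have W1 := one_le_W G
  have hT := G.t_pos
  have hL := G.lam_pos i
  have hb := H.bh_pos i
  have a2 := et_up H h hu u0.le hi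
  have a3 := jk_up' H hj fl hi
  have a4 := hu.l (i + 1) (by omega)
  rw [show i + 1 - J - 1 = i - J by omega] at a4
  have a1 : G.Wc * R.nl G i t ≤ G.Wc * (G.t ^ 10 * (G.θ ^ (i - J) * u)) := by
    have b1 : G.t ^ 10 * (G.θ ^ (i - J) * u) = G.θ ^ (i - J - 1) * u := by
      rw [show i - J = i - J - 1 + 1 by omega, pow_succ, Nat.add_sub_cancel]
      linear_combination G.θ ^ (i - J - 1) * u * θ_mul G
    rw [b1]
    rcases hi.eq_or_lt with hi | hi
    · subst hi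
      have := hu.nw
      rw [show J + 1 - J - 1 = 0 by omega, pow_zero, one_mul]
      gcongr
    · exact (hu.l i hi).trans (le_mul_of_one_le_left (by positivity) W1)
  rw [← e] at a1 a2 a3 a4
  set X := R.nc G i t
  have hM := G.lm_pos i
  have hΛ := G.L_pos
  have a5 : G.lam i * (G.Wc * (G.N i ^ 2 * R.ET (i + G.kk - 1) t)) ≤ G.L ^ 3 * G.lm i * X := by
    have b1 := lb_le H i
    have b2 := (le_mul_of_one_le_left
      (mul_nonneg hW.le (mul_nonneg (sq_nonneg _) (H.ET_nonneg _ _))) W1).trans a2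
    calc _ ≤ G.lam i * (R.bh G i * X) := by gcongr
      _ = G.lam i * R.bh G i * X := by ring
      _ ≤ _ := by gcongr
  have a6 : G.Wc * (G.N i * R.Jk t) ≤ G.lm i * X :=
    a3.trans (mul_le_of_le_one_left (by positivity) (eps_le_one G))
  have a7 : 10 * G.d (J + 1) ≤ 20 * G.lm i := by
    have b1 := G.lm_mono hi
    unfold Geo.d
    linarith only [b1]
  have a1' : G.Wc * R.nl G i t ≤ G.Wc * (G.L * X) := by
    have := t_pow_le_L G (show 10 ≤ 21 by norm_num)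
    exact a1.trans (by gcongr)
  have a8 : G.L ^ 5 * G.lm i *
      (X + G.Wc * R.nl G i t + G.L * (G.Wc * R.nl G (i + 1) t)) +
      G.L ^ 5 * (G.lam i * (G.Wc * (G.N i ^ 2 * R.ET (i + G.kk - 1) t))) +
      G.L * (G.Wc * (G.N i * R.Jk t)) + 10 * G.d (J + 1) * X ≤ G.D i * X := by
    have b0 := G.L_pow_le (show 0 ≤ 8 by norm_num)
    have b1 := G.L_pow_le (show 5 ≤ 8 by norm_num)
    have b2 := G.L_pow_le (show 6 ≤ 8 by norm_num)
    have b4 := G.L_pow_le (show 1 ≤ 8 by norm_num)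
    have b5 := L_lt G (show 8 < 9 by norm_num)
    have b6 := pow_pos hΛ 8
    have b7 := pow_W_le G (k := 9) (by norm_num)
    have b8 := exp_half G
    have b9 := Real.exp_pos (G.Q / 4)
    rw [pow_zero] at b0
    rw [pow_one] at b4
    calc _ ≤ G.L ^ 5 * G.lm i * (X + G.Wc * (G.L * X) + G.L * X) +
          G.L ^ 5 * (G.L ^ 3 * G.lm i * X) + G.L * (G.lm i * X) +
          20 * G.lm i * X := by (clear * - pos a4 hM hΛ a5 a6 a7 a1'; gcongr)
      _ = ((G.L ^ 5 + G.L ^ 6 + G.L ^ 8 + G.L + 20) * 1 + G.L ^ 6 * G.Wc) *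
          (G.lm i * X) := by ring
      _ ≤ ((G.L ^ 5 + G.L ^ 6 + G.L ^ 8 + G.L + 20) * G.Wc + G.L ^ 6 * G.Wc) *
          (G.lm i * X) := by (clear * - W1 pos hM hΛ; gcongr)
      _ = (G.L ^ 5 + G.L ^ 6 + G.L ^ 8 + G.L + 20 + G.L ^ 6) * G.Wc *
          (G.lm i * X) := by ring
      _ ≤ G.L ^ 9 * G.Wc * (G.lm i * X) := by gcongr; linarith only [b0, b1, b2, b4, b5]
      _ ≤ Real.exp (G.Q / 2) * (G.lm i * X) := by gcongr; linarith only [b7, b8, b9]
      _ = _ := by unfold Geo.D; ring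
  linarith only [a8]

/-- Upper levels. -/
theorem up_l {u : ℝ} (hu : Up G R J t u) (hj : Jb G R J t)
    (fl : Real.exp (-(G.t ^ 8 * G.Ga)) * R.bh G (J + 1) ≤ u) {i : ℕ} (hi : J + 2 ≤ i)
    (e : G.Wc * R.nl G i t = G.θ ^ (i - J - 1) * u) :
    ∃ D, HD (R.nl G i) D t ∧ D ≤ -(10 * G.d (J + 1) * R.nl G i t) := by
  obtain ⟨j, rfl⟩ : ∃ j, i = j + 1 := ⟨i - 1, by omega⟩
  have hj1 : J + 1 ≤ j := by omega
  rw [show j + 1 - J - 1 = j - J by omega] at e
  have u0 : 0 < u := (mul_pos (Real.exp_pos _) (H.bh_pos _)).trans_le fl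
  have hθ := G.θ_pos
  have hW := G.Wc_pos
  have W1 := one_le_W G
  have hT := G.t_pos
  have hL := G.lam_pos (j + 1)
  have hb := H.bh_pos (j + 1)
  have hN := G.N_pos (j + 1)
  have hM := G.lm_pos (j + 1)
  have hΛ := G.L_pos
  have hε := Real.exp_pos (-G.E)
  have hxs := xs_small G
  have xs0 := G.xs_pos
  have X0 : 0 < G.θ ^ (j - J) * u := by positivity
  have pos : 0 < R.lev (j + 1) t :=
    (mul_pos_iff_of_pos_left hN).1 ((mul_pos_iff_of_pos_left hW).1 (e ▸ X0))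
  have hY : G.θ ^ (j + 1 - J) * u ≤ G.θ ^ (j - J) * u :=
    mul_le_mul_of_nonneg_right (θ_pow_le G (by omega)) u0.le
  -- crude size of the upper levels
  have up : ∀ m, J + 1 ≤ m → R.nl G m t ≤ 11 * G.xs * R.bh G m ∧
      (J + 2 ≤ m → G.Wc * R.nl G m t ≤ R.bh G (J + 1)) := fun m hm => by
    have b0 := H.bh_pos (J + 1)
    have b1 := H.bh_mono hm
    have b2 : J + 2 ≤ m → G.Wc * R.nl G m t ≤ 11 * G.xs * R.bh G (J + 1) := fun hm' =>
      (h.up.l m hm').trans (mul_le_of_le_one_left (by positivity)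
        (pow_le_one₀ hθ.le (θ_le_one G)))
    refine ⟨le_trans ?_ (mul_le_mul_of_nonneg_left b1 (by positivity)), fun hm' =>
      (b2 hm').trans (mul_le_of_le_one_left b0.le (by linarith only [hxs]))⟩
    rcases hm.eq_or_lt with hm | hm
    · exact hm ▸ h.up.nw
    · exact (le_mul_of_one_le_left (R.nl_nonneg G m t) W1).trans (b2 hm)
  have hσ : ∀ y, R.kap G j * ‖R.A G j t * y‖ ≤ G.d (j + 1) / 4 * ‖y‖ := fun y => by
    have b1 := norm_mul_le_l1 (R.A G j t) y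
    have b2 : l1 (R.A G j t) ≤ 40 * (11 * G.xs * R.bh G j) := by
      rw [Raw.A, l1_tau]
      exact (H.l1_B_le j t).trans (by have := (up j hj1).1; gcongr)
    have b3 := H.kap_pos j
    have b4 := G.d_pos (j + 1)
    calc _ ≤ R.kap G j * (40 * (11 * G.xs * R.bh G j) * ‖y‖) := by
          gcongr; exact b1.trans (by gcongr)
      _ = (R.kap G j * R.bh G j) * (440 * G.xs) * ‖y‖ := by ring
      _ ≤ G.d (j + 1) * (1 / 4) * ‖y‖ := by rw [H.kap_mul_bh]; gcongr; linarith only [hxs]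
      _ = _ := by ring
  have hF : ∀ o, ‖R.f G j o t‖ ≤ Real.exp (-G.E) *
      (10 ^ 3 * G.t ^ 11 * (G.lam (j + 1) * R.bh G (j + 1)) * ‖R.y j G.La t‖) := fun o =>
    small (norm_nonneg _) hε.le ((eps_mQ G).trans (by
      gcongr; exact le_mul_of_one_le_left G.mQ_pos.le (one_le_m0 G))) (h.f_le H j o)
  obtain ⟨D, hD, le⟩ := H.lev_deriv h.t0 pos hσ hF
  refine ⟨G.N (j + 1) * D, hD.const_mul _, ?_⟩
  -- the individual error terms
  have l2 := R.lev_nonneg (j + 2) t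
  have c0 := R.ch_nonneg G (j + 1) t
  have q1 : G.N (j + 1) * R.lev (j + 2) t ≤ R.nl G (j + 2) t :=
    mul_le_mul_of_nonneg_right (G.N_mono (Nat.le_succ _)) l2
  have r1 : G.Wc * (G.N (j + 1) * R.lev (j + 2) t) ≤ G.θ ^ (j - J) * u := by
    have := hu.l (j + 2) (by omega)
    rw [show j + 2 - J - 1 = j + 1 - J by omega] at this
    exact (mul_le_mul_of_nonneg_left q1 hW.le).trans (this.trans hY)
  have r2 : G.Wc * (G.N (j + 1) * R.ch G (j + 1) t) ≤ G.θ ^ (j - J) * u := by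
    rw [mul_left_comm]
    exact (hu.y (j + 1) (by omega)).trans hY
  have r3 : G.N (j + 1) * R.ch G (j + 1) t ≤ Real.exp (-G.E) * (30 * R.bh G (j + 1)) :=
    small (by (clear * - hN c0; positivity)) hε.le (eps_W G) (by rw [mul_left_comm]; exact h.nc (j + 1))
  have r4 : G.N (j + 1) * R.lev (j + 2) t ≤ Real.exp (-G.E) * R.bh G (j + 1) :=
    small (by (clear * - hN l2; positivity)) hε.le (eps_W G) ((mul_le_mul_of_nonneg_left q1 hW.le).trans
      (((up (j + 2) (by omega)).2 (by omega)).trans (H.bh_mono (by omega))))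
  have r5 : R.Low G (j + 1) t ≤ Real.exp (-G.E) * (20 * R.bh G (j + 1)) :=
    small (R.Low_nonneg G _ t) hε.le (eps_mQ G) (h.Low_le H (j + 1))
  have r6 : G.Wc * (G.N (j + 1) ^ 2 * R.ET (j + G.kk) t) ≤
      Real.exp (-G.E) * (R.bh G (j + 1) * (G.θ ^ (j - J) * u)) := by
    have := et_up H h hu u0.le (i := j + 1) (by omega)
    rw [show j + 1 + G.kk - 1 = j + G.kk by omega] at this
    exact small (mul_nonneg hW.le (mul_nonneg (sq_nonneg _) (H.ET_nonneg _ _))) hε.le (eps_W G)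
      (this.trans (by gcongr))
  have r7 : G.Wc * (G.N (j + 1) * R.Jk t) ≤
      Real.exp (-G.E) * (G.lm (j + 1) * (G.θ ^ (j - J) * u)) :=
    (jk_up' H hj fl (i := j + 1) (by omega)).trans (by gcongr)
  have r8 : R.nu G j t ≤ 11 * R.bh G (j + 1) :=
    (h.nu_le H j).trans (by have := H.bh_mono (Nat.le_succ j); gcongr)
  have r9 : G.Wc * (G.N (j + 1) * ‖R.y j G.La t‖) ≤ G.L ^ 2 * (G.θ ^ (j - J) * u) := by
    have b1 := R.y_le_ch G j (i := G.La) (by have := G.ten_le_La; omega) le_rfl t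
    have b2 := (le_mul_of_one_le_left hN.le (one_le_pow₀ G.one_le_t)).trans (G.N_succ_hi j)
    have b3 := G.N_pos j
    calc _ ≤ G.Wc * (G.L ^ 2 * G.N j * R.ch G j t) := by (clear * - hW hΛ b1 b2 b3; gcongr)
      _ = G.L ^ 2 * R.nc G j t := by unfold Raw.nc; ring
      _ ≤ _ := by have := hu.y j hj1; gcongr
  have LL := R.LowL_nonneg G (j + 1) t
  have LY := R.LowY_nonneg G (j + 1) t
  have s1 : R.LowY G (j + 1) t ≤ Real.exp (-G.E) * (20 * R.bh G (j + 1)) :=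
    le_trans (le_add_of_nonneg_left LL) r5
  have s2 : G.tau0 / G.m0 * R.LowL G (j + 1) t ≤ Real.exp (-G.E) * (20 * R.bh G (j + 1)) :=
    (mul_le_of_le_one_left LL ((div_le_one G.m0_pos).2 (((tau0_eps G).trans
      (eps_le_one G)).trans (one_le_m0 G)))).trans (le_trans (le_add_of_nonneg_right LY) r5)
  have τε := tau0_eps G
  have τ0 := G.tau0_pos
  have n0 := R.nu_nonneg G j t
  have e' : G.Wc * (G.N (j + 1) * R.lev (j + 1) t) = G.θ ^ (j - J) * u := e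
  set X := G.θ ^ (j - J) * u
  set ε := Real.exp (-G.E)
  have key : G.Wc * (G.N (j + 1) * (ε * (10 ^ 3 * G.t ^ 11 * (G.lam (j + 1) * R.bh G (j + 1)) *
      ‖R.y j G.La t‖) + R.eb G (j + 1) t + R.ec G j t)) ≤ G.lm (j + 1) * X / 4 := by
    refine le_trans ?_ (num_l (t_pow_le_L G (by norm_num)) (t_pow_le_L G (by norm_num))
      (by simpa using L_lt G (show 0 < 1 by norm_num)) hε.le (pow_mul_eps G (by norm_num)) hL.le
      hM.le (lb_le H (j + 1)) hb.le X0.le)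
    calc _ = ε * (10 ^ 3 * G.t ^ 11 * (G.lam (j + 1) * R.bh G (j + 1)) *
            (G.Wc * (G.N (j + 1) * ‖R.y j G.La t‖))) +
          (10 ^ 6 * G.lam (j + 1) *
            (G.tau0 * R.nu G j t * (G.Wc * (G.N (j + 1) * R.lev (j + 1) t)) +
              G.L ^ 3 * (G.N (j + 1) * R.ch G (j + 1) t) *
                (G.Wc * (G.N (j + 1) * R.ch G (j + 1) t) +
                  G.Wc * (G.N (j + 1) * R.lev (j + 1) t) +
                  G.Wc * (G.N (j + 1) * R.lev (j + 2) t)) +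
              G.N (j + 1) * R.lev (j + 2) t * (G.Wc * (G.N (j + 1) * R.lev (j + 2) t) +
                G.Wc * (G.N (j + 1) * R.ch G (j + 1) t)) +
              R.Low G (j + 1) t * (G.Wc * (G.N (j + 1) * R.lev (j + 1) t)) +
              G.Wc * (G.N (j + 1) ^ 2 * R.ET (j + G.kk) t)) +
            10 * (G.Wc * (G.N (j + 1) * R.Jk t))) +
          G.t ^ 12 * (G.lam (j + 1) *
            (G.tau0 * R.nu G j t * (G.Wc * (G.N (j + 1) * R.lev (j + 1) t)) +
              R.Low G (j + 1) t * (G.Wc * (G.N (j + 1) * R.lev (j + 1) t)) +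
              (R.LowY G (j + 1) t + G.tau0 / G.m0 * R.LowL G (j + 1) t) *
                (G.Wc * (G.N (j + 1) * ‖R.y j G.La t‖)) +
              G.Wc * (G.N (j + 1) ^ 2 * R.ET (j + G.kk) t)) +
            G.Wc * (G.N (j + 1) * R.Jk t)) := by
          unfold Raw.eb Raw.ec
          rw [show j + 1 + G.kk - 1 = j + G.kk by omega, Raw.pv]
          ring
      _ ≤ _ := by
          rw [e']
          (clear * - u0 hθ hW hT hL hb hN hΛ l2 c0 r8 n0 r1 r2 r9 r3 r4 r5 s1 s2 τε r6 r7; gcongr)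
  have dd : 20 * G.d (J + 1) ≤ G.d (j + 1) := by
    have b1 := G.d_succ (J + 1)
    have b2 : G.d (J + 2) ≤ G.d (j + 1) := by
      have := G.lm_mono hi
      unfold Geo.d
      gcongr
    have b3 := G.pow_lt (show 0 < 42 by norm_num)
    have b4 := G.d_pos (J + 1)
    rw [pow_zero] at b3
    have b5 := G.t_le_Ga
    calc _ ≤ G.Ga * G.d (J + 1) := by gcongr; linarith only [b3, b5]
      _ ≤ _ := b1 ▸ b2
  refine le_of_mul_le_mul_left ?_ hW
  have fin := mul_le_mul_of_nonneg_left (mul_le_mul_of_nonneg_left le hN.le) hW.le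
  have dd' := mul_le_mul_of_nonneg_right dd X0.le
  have hd : G.d (j + 1) = 2 * G.lm (j + 1) := rfl
  calc _ ≤ _ := fin
    _ = -(3 / 4) * G.d (j + 1) * (G.Wc * (G.N (j + 1) * R.lev (j + 1) t)) + 2 * (G.Wc *
        (G.N (j + 1) * (ε * (10 ^ 3 * G.t ^ 11 * (G.lam (j + 1) * R.bh G (j + 1)) *
          ‖R.y j G.La t‖) + R.eb G (j + 1) t + R.ec G j t))) := by ring
    _ ≤ -(3 / 4) * G.d (j + 1) * X + 2 * (G.lm (j + 1) * X / 4) := by rw [e']; (clear * - key; gcongr)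
    _ = -(1 / 2) * (G.d (j + 1) * X) := by rw [hd]; ring
    _ ≤ -(10 * G.d (J + 1) * X) := by linarith only [dd']
    _ = _ := by rw [← e]; ring

end Cr0

end

end Pool.Agent.Work.MP_6bf1e5_an.Hyp
end

-- merged part: Pool.Agent.Work.MP_6bf1e5_an.Hyp.Cur
section
/-!
The current level keeps its shape.
-/

open Set Complex Filter Topology
open scoped InnerProductSpace ComplexConjugate
open Pool.Agent.Work.MP_6bf1e5_an.B (Z3 R3)
open Pool.Agent.Work.MP_6bf1e5_an.Hyp.Dec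

namespace Pool.Agent.Work.MP_6bf1e5_an.Hyp

noncomputable section

variable {G : Geo} {R : Raw}

lemma cur_ev_comb (H : IsNet G R) (J : ℕ) (k : ℝ) :
    ev 0 (R.comb G J fun _ => ((k * R.un G J : ℝ) : ℂ) • G.φ J) = ((k * R.bh G J : ℝ) : ℂ) := by
  rw [ev_zero_comb, ← Finset.sum_mul, map_smul, Geo.φ, ev_zero_ph, ← H.un_mul J,
    ← IsNet.sum_om, Geo.φ]
  push_cast
  simp only [smul_eq_mul]
  ring

/-- The derivative of the comb. -/
lemma cur_comb (H : IsNet G R) {J : ℕ} {t k η : ℝ} (h0 : 0 ≤ t)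
    (h : ∀ o, ∃ D : V, HD (R.b J o) (D + ((k * R.un G J : ℝ) : ℂ) • G.φ J) t ∧
      l1 D ≤ η * R.un G J * l1 (G.φ J)) :
    ∃ (B' : V) (D : ℝ), HD (R.B G J) B' t ∧ HD (R.aa G J) D t ∧ Sp (fun i => 2 * G.rB J i) B' ∧
      ev 0 B' = ((R.bh G J * D : ℝ) : ℂ) ∧ |D - k| ≤ η ∧ l1 B' ≤ (|k| + η) * R.bh G J := by
  choose D hD hl using h
  have hb := H.bh_pos J
  have hu := H.un_pos J
  have hB : HD (R.B G J) (R.comb G J fun o => D o + ((k * R.un G J : ℝ) : ℂ) • G.φ J) t :=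
    hd_comb J hD
  set B' := R.comb G J fun o => D o + ((k * R.un G J : ℝ) : ℂ) • G.φ J with hB'
  have hev := HD.ev3 hB h0 (H.spB J) 0
  have haa : HD (R.aa G J) ((ev 0 B').re / R.bh G J) t := (HD.re hev).div_const _
  have e1 : ev 0 B' = ((R.bh G J * ((ev 0 B').re / R.bh G J) : ℝ) : ℂ) := by
    refine HD.uniq hev ?_ h0
    simpa only [H.ev_zero_B] using HD.ofReal (haa.const_mul (R.bh G J))
  have e2 : B' - R.comb G J (fun _ => ((k * R.un G J : ℝ) : ℂ) • G.φ J) = R.comb G J D := by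
    rw [hB', comb_sub]; simp
  have l2 : l1 (R.comb G J D) ≤ η * R.bh G J := by
    refine (H.l1_comb_le J hl).trans (le_of_eq ?_)
    rw [← H.un_mul J]; ring
  have l3 : l1 (R.comb G J fun _ => ((k * R.un G J : ℝ) : ℂ) • G.φ J) ≤ |k| * R.bh G J := by
    refine (H.l1_comb_le J (c := |k| * R.un G J * l1 (G.φ J)) fun _ => ?_).trans (le_of_eq ?_)
    · rw [l1_smul, Complex.norm_real, Real.norm_eq_abs, abs_mul, abs_of_pos hu]
    · rw [← H.un_mul J]; ring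
  refine ⟨B', _, hB, haa, HD.sp hB h0 (H.spB J), e1, ?_, ?_⟩
  · have e3 := congrArg (ev 0) e2
    rw [map_sub, cur_ev_comb H, e1, ← Complex.ofReal_sub] at e3
    have e4 := (norm_ev_le 0 (R.comb G J D)).trans l2
    rw [← e3, Complex.norm_real, Real.norm_eq_abs, mul_comm k, ← mul_sub, abs_mul, abs_of_pos hb,
      mul_comm η] at e4
    exact le_of_mul_le_mul_left e4 hb
  · rw [← sub_add_cancel B' (R.comb G J fun _ => ((k * R.un G J : ℝ) : ℂ) • G.φ J), e2]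
    refine (l1_add_le _ _).trans ?_
    linarith only [l2, l3]

/-- The derivative of the normalised comb. -/
lemma cur_dp (H : IsNet G R) {J : ℕ} {t D K : ℝ} {B' : V} (pos : 0 < R.aa G J t)
    (hB : HD (R.B G J) B' t) (hD : HD (R.aa G J) D t) (sp : Sp (fun i => 2 * G.rB J i) B')
    (e : ev 0 B' = ((R.bh G J * D : ℝ) : ℂ)) (h1 : |D| ≤ K * R.aa G J t)
    (h2 : l1 B' ≤ K * (R.aa G J t * R.bh G J)) (h3 : l1 (R.B G J t) ≤ 2 * (R.aa G J t * R.bh G J)) :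
    ∃ p', HD (R.pB G J) p' t ∧ Sp (fun i => 2 * G.rB J i) p' ∧ ev 0 p' = 0 ∧ l1 p' ≤ 3 * K := by
  have hb := H.bh_pos J
  have hab : 0 < R.bh G J * R.aa G J t := mul_pos hb pos
  have hi := HD.ofReal ((hD.const_mul (R.bh G J)).fun_inv hab.ne')
  have key := hi.fun_smul hB
  have ee : R.pB G J = fun t => (((R.bh G J * R.aa G J t)⁻¹ : ℝ) : ℂ) • R.B G J t := by
    funext s
    rw [Raw.pB, H.ev_zero_B, Complex.ofReal_inv]
  rw [ee]
  refine ⟨_, key, (sp.smul _).add ((H.spB J t).smul _), ?_, ?_⟩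
  · rw [map_add, map_smul, map_smul, e, H.ev_zero_B, smul_eq_mul, smul_eq_mul,
      ← Complex.ofReal_mul, ← Complex.ofReal_mul, ← Complex.ofReal_add, Complex.ofReal_eq_zero]
    field_simp
    ring
  · refine (l1_add_le _ _).trans ?_
    rw [l1_smul, l1_smul, Complex.norm_real, Complex.norm_real, Real.norm_eq_abs,
      Real.norm_eq_abs, abs_of_pos (inv_pos.mpr hab), abs_div, abs_neg, abs_mul, abs_of_pos hb,
      abs_of_pos (pow_pos hab 2)]
    have m1 : (R.bh G J * R.aa G J t)⁻¹ * l1 B' ≤ K := by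
      rw [inv_mul_le_iff₀ hab]; linarith
    have m2 : R.bh G J * |D| / (R.bh G J * R.aa G J t) ^ 2 * l1 (R.B G J t) ≤ 2 * K := by
      rw [div_mul_eq_mul_div, div_le_iff₀ (pow_pos hab 2)]
      have hK : 0 ≤ K * R.aa G J t := (abs_nonneg D).trans h1
      calc R.bh G J * |D| * l1 (R.B G J t)
          ≤ R.bh G J * (K * R.aa G J t) * (2 * (R.aa G J t * R.bh G J)) := by
            have := l1_nonneg (R.B G J t)
            (clear * - h1 h3 hb hK this; gcongr)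
        _ = 2 * K * (R.bh G J * R.aa G J t) ^ 2 := by ring
    linarith

theorem Run.cur {G : Geo} {R : Raw} (H : IsNet G R) {j : ℕ} {t0 c g0 : ℝ} {AA : ℕ → ℝ}
    (S : Run G R j AA t0 c g0) :
    ∀ t ∈ Icc t0 c, Cur G R (j + 1) g0 t (Ex t0 (AA (j + 1)) g0 t) := by
  obtain ⟨a, a0, ha⟩ := S.cur_amp H
  intro t ht
  have h0 : 0 ≤ t := S.st.t0.trans ht.1
  have hu := H.un_pos (j + 1)
  have hd := G.d_pos (j + 1)
  have hb := H.bh_pos (j + 1)
  have hι : 0 < G.ι := by have := G.t_pos; unfold Geo.ι; positivity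
  obtain ⟨apos, -, aE⟩ := ha t ht
  have hE := Run.cur_E_le ha ht
  have cl := fun o => S.cur_close H ha a0 ht o
  obtain ⟨k1, k2⟩ := H.aa_close (j := j + 1) (t := t) (a := a t) (a1 := 2 / 10 ^ 30 * a t)
    (by positivity) fun o => (cl o).1.trans (le_of_eq (by ring))
  rw [abs_of_pos apos] at k2
  obtain ⟨k3, k4⟩ := abs_le.mp k1
  obtain ⟨k5, k6⟩ := abs_le.mp aE
  have pos : 0 < R.aa G (j + 1) t := by linarith only [apos, k3]
  have sw : ∀ X : V, ‖X - ((a t * R.un G (j + 1) : ℝ) : ℂ) • G.φ (j + 1)‖ ≤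
      2 / 10 ^ 30 * (a t * R.un G (j + 1)) →
      ‖X - ((R.aa G (j + 1) t * R.un G (j + 1) : ℝ) : ℂ) • G.φ (j + 1)‖ ≤
      1 / 10 ^ 29 * (R.aa G (j + 1) t * R.un G (j + 1)) := fun X hX => by
    have e : X - ((R.aa G (j + 1) t * R.un G (j + 1) : ℝ) : ℂ) • G.φ (j + 1) =
        (X - ((a t * R.un G (j + 1) : ℝ) : ℂ) • G.φ (j + 1)) -
          (((R.aa G (j + 1) t - a t) * R.un G (j + 1) : ℝ) : ℂ) • G.φ (j + 1) := by
      push_cast; module
    rw [e]
    refine (norm_sub_le _ _).trans ?_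
    rw [norm_smul, G.norm_φ, mul_one, Complex.norm_real, Real.norm_eq_abs, abs_mul, abs_of_pos hu]
    have m1 := mul_le_mul_of_nonneg_right k1 hu.le
    have m2 := mul_le_mul_of_nonneg_right k3 hu.le
    have m3 := mul_pos apos hu
    linarith only [hX, m1, m2, m3]
  obtain ⟨B', D, hB, hD, sp, e, d1, d2⟩ := cur_comb H (J := j + 1) (t := t)
    (k := (G.d (j + 1) * R.aa G j t - G.d (j + 1)) * a t) (η := 1 / 10 ^ 27 * G.d (j + 1) * a t)
    h0 fun o => by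
      obtain ⟨D, h1, h2⟩ := S.cur_der H ha a0 ht o
      exact ⟨D, h1, h2.trans (le_of_eq (by ring))⟩
  obtain ⟨r1, r2⟩ := abs_le.mp ((S.cur_rate ht).trans
    (mul_le_mul_of_nonneg_right (cur_tinv G (k := 9) (by norm_num)) hd.le))
  obtain ⟨d3, d4⟩ := abs_le.mp d1
  have g1 := S.g0_lo
  have g2 := S.g0_hi
  have hda : 0 < G.d (j + 1) * a t := mul_pos hd apos
  have q1 := mul_le_mul_of_nonneg_right r1 apos.le
  have q2 := mul_le_mul_of_nonneg_right r2 apos.le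
  have q3 := mul_le_mul_of_nonneg_right g1 apos.le
  have q4 := mul_le_mul_of_nonneg_right g2 apos.le
  have g0p : 0 < g0 := by linarith only [hd, g1]
  have q5 := mul_le_mul_of_nonneg_left k3 g0p.le
  have q6 := mul_le_mul_of_nonneg_left k4 g0p.le
  have q7 := mul_le_mul_of_nonneg_left k3 hd.le
  refine ⟨?_, ⟨D, hD, by linarith only [d3, hda, q1, q3, q6], by linarith only [d4, hda, q2, q3, q5]⟩, fun o => sw _ (cl o).1, fun o => sw _ (cl o).2,
    ?_, ?_⟩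
  · rw [abs_le]; constructor <;> linarith only [k3, k5, pos, apos, k4, k6]
  · have t1 := cur_tinv G (k := 10) (by norm_num)
    have t2 := cur_tinv_succ G (show 4 < 10 by norm_num)
    have t3 : 0 < (G.t ^ 4)⁻¹ := inv_pos.mpr (pow_pos G.t_pos _)
    refine (H.drv_of_close (a := R.aa G (j + 1) t * R.un G (j + 1)) (a1 := 1 / 10 ^ 29)
      (a2 := 2 * G.ι) (by (clear * - hu pos; positivity)) (by norm_num) (by unfold Geo.ι; linarith only [t1])
      (fun o => sw _ (cl o).1) fun o o' => (S.cur_diff H ha a0 ht o o').trans ?_).mono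
      (fun i => le_rfl) ?_
    · have m2 := mul_le_mul_of_nonneg_right k3 (mul_pos hι hu).le
      have m3 := mul_pos apos (mul_pos hι hu)
      linarith only [m2, m3]
    · rw [div_eq_mul_inv]
      unfold Geo.ι
      linarith only [t2, t3]
  · have hk : |(G.d (j + 1) * R.aa G j t - G.d (j + 1)) * a t| ≤ 10 * (G.d (j + 1) * a t) := by
      rw [abs_le]; constructor <;> linarith only [hda, q1, q3, q2, q4]
    obtain ⟨p', p1, p2, p3, p4⟩ := cur_dp H (K := 20 * G.d (j + 1)) pos hB hD sp e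
      (by rw [abs_le]; constructor <;> linarith only [d3, hda, q1, q3, q7, d4, q2, q4])
      (d2.trans (by
        rw [← mul_assoc]
        exact mul_le_mul_of_nonneg_right (by linarith only [hda, q7, hk]) hb.le))
      (k2.trans (by
        rw [← mul_assoc 2]
        exact mul_le_mul_of_nonneg_right (by linarith only [k3, pos]) hb.le))
    exact ⟨p', p1, p2, p3, by linarith only [hd, p4]⟩

end

end Pool.Agent.Work.MP_6bf1e5_an.Hyp
end

-- merged part: Pool.Agent.Work.MP_6bf1e5_an.Hyp.Upp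
section
/-!
Upper bounds for the new level and the current ladder.
-/

open Set Complex Filter Topology
open scoped InnerProductSpace ComplexConjugate
open Pool.Agent.Work.MP_6bf1e5_an.B (Z3 R3)
open Pool.Agent.Work.MP_6bf1e5_an.Hyp.Dec

namespace Pool.Agent.Work.MP_6bf1e5_an.Hyp

noncomputable section

variable {G : Geo} {R : Raw} {j : ℕ} {t0 c g0 : ℝ} {AA : ℕ → ℝ}

/-- The amplitude of the low comb which seeds level `j + 2`. -/
def zz (G : Geo) (R : Raw) (j : ℕ) (AA : ℕ → ℝ) : ℝ := AA (j + 2 - G.kk) * R.bh G (j + 2 - G.kk)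

namespace Run

variable (H : IsNet G R) (S : Run G R j AA t0 c g0)

include H S

lemma zz_bounds : 2 * R.bh G (j + 2) ≤ zz G R j AA * G.mQ ∧
    zz G R j AA * G.mQ ≤ 10 * R.bh G (j + 2) := by
  have h1 := S.st.kJ
  have h2 := G.ten_le_kk
  obtain ⟨a1, a2⟩ := S.st.oldA (j + 2 - G.kk) (by omega)
  have e := H.bh_add_kk (j + 2 - G.kk)
  rw [show j + 2 - G.kk + G.kk = j + 2 by omega] at e
  have hb := H.bh_pos (j + 2)
  have e2 : zz G R j AA * G.mQ = AA (j + 2 - G.kk) * R.bh G (j + 2) := by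
    rw [e, zz]; ring
  rw [e2]
  constructor <;> nlinarith only [a1, hb, a2]

lemma aa_bounds {t : ℝ} (ht : t ∈ Icc t0 c) : 0 < R.aa G (j + 1) t ∧ R.aa G (j + 1) t ≤ 11 := by
  have h1 := abs_le.mp (S.cur H t ht).near
  have h2 := (S.bnd t ht).Elo
  have h3 := (S.bnd t ht).Ehi
  have h4 := G.xs_pos
  constructor <;> linarith only [h2, h4, h3, h1.1, h1.2]

lemma exists_cmp : ∃ g, Cmp G R (j + 1) (zz G R j AA) t0 c g := by
  have ca : ContinuousOn (R.aa G (j + 1)) (Icc t0 c) :=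
    (H.cont_aa _).mono fun s hs => S.st.t0.trans hs.1
  obtain ⟨g, h1, h2⟩ := exists_lin (s := fun t => G.d (j + 2) * (R.aa G (j + 1) t - 1))
    (g := fun t => R.Fs G (j + 1) (zz G R j AA) 1 * R.aa G (j + 1) t ^ (G.La + 1)) S.st.t0 S.le
    (continuousOn_const.fun_mul (ca.fun_sub continuousOn_const))
    (continuousOn_const.fun_mul (ca.fun_pow _))
    (Real.exp (G.t * G.Q) * R.bh G (j + 2))
  refine ⟨g, h1, fun t ht => ?_⟩
  rw [R.Fs_eq]
  exact h2 t ht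

lemma sc {g : ℝ → ℝ} (hg : Cmp G R (j + 1) (zz G R j AA) t0 c g) :
    Sc G.t G.L G.Ga (G.d (j + 1)) g0 (R.Fs G (j + 1) (zz G R j AA) 1) (R.bh G (j + 2)) t0 c G.La
      (R.aa G (j + 1)) g := by
  have m0 : t0 ∈ Icc t0 c := ⟨le_rfl, S.le⟩
  have n0 := abs_le.mp (S.cur H t0 m0).near
  have e0 : Ex t0 (AA (j + 1)) g0 t0 = AA (j + 1) := by simp [Ex]
  rw [e0] at n0
  obtain ⟨a1, a2⟩ := S.st.curA
  have x0 := G.xs_pos
  obtain ⟨z1, z2⟩ := S.zz_bounds H
  obtain ⟨f1, f2⟩ := H.Fs_bounds (j + 1) z1 z2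
  rw [G.d_succ] at f1 f2
  refine ⟨G.par', G.La_eq, G.d_pos _, H.bh_pos _, S.st.t0, S.le, ?_, S.g0_lo, S.g0_hi, ?_, ?_,
    (S.aa_bounds H ⟨S.le, le_rfl⟩).2, fun t ht => ⟨(S.aa_bounds H ht).1, (S.cur H t ht).grow⟩,
    f1, f2, hg.init, fun t ht => ?_⟩
  · rw [← G.d_mul_Δ (j + 1)]
    exact mul_le_mul_of_nonneg_left (by linarith only [S.le']) (G.d_pos _).le
  · change G.xs / 2 ≤ _
    linarith only [a1, x0, n0.1]
  · change _ ≤ 2000 * G.xs
    linarith only [a2, x0, n0.2]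
  · have := hg.ode t ht
    rwa [R.Fs_eq, G.d_succ] at this

lemma l1_Z_le {t : ℝ} (ht : t ∈ Icc t0 c) (o : Fin 4) :
    l1 (R.Z G (j + 2) o t) ≤ 101 / 100 * zz G R j AA := by
  have h1 := S.st.kJ
  have h2 := G.ten_le_kk
  have hB := S.bnd t ht
  have hi : j + 2 - G.kk < j + 1 := by omega
  obtain ⟨a1, a2⟩ := hB.oldA _ hi
  have hu := H.un_pos (j + 2 - G.kk)
  have hb := H.bh_pos (j + 2 - G.kk)
  have h3 := (H.aa_close (a1 := 1 / 10 ^ 20) (by norm_num) fun o => (hB.oldb _ hi o).trans (by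
    have : (0 : ℝ) ≤ (1 / 2) ^ (j + 1 + 1 - (j + 2 - G.kk)) := by positivity
    nlinarith only [hu, this])).2
  rw [abs_of_nonneg (by linarith only [a1])] at h3
  have h4 := (H.l1_C_le (j + 2 - G.kk) t).trans
    (mul_le_mul_of_nonneg_left ((hB.cr0 H).nl _) (by norm_num))
  have h5 : 10 ^ 50 * |R.cq o| ≤ 1 := by
    refine le_trans ?_ (H.cq_le' o)
    have := G.upp_one_le_pow 10
    have := abs_nonneg (R.cq o)
    nlinarith
  rw [Raw.Z, if_pos (by omega), l1_rot]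
  refine (l1_add_le _ _).trans ?_
  rw [l1_smul, l1_sh_mul, Complex.norm_real, Real.norm_eq_abs, zz]
  have h6 : |R.cq o| * l1 (R.Cc G (j + 2 - G.kk) t) ≤ 1 / 10 ^ 50 * (40 * (10 * R.bh G (j + 2 - G.kk))) :=
    mul_le_mul (by linarith only [h5]) h4 (l1_nonneg _) (by norm_num)
  nlinarith only [a1, hb, h3, h6]

lemma exists_X {g : ℝ → ℝ} (hg : Cmp G R (j + 1) (zz G R j AA) t0 c g) :
    ∃ X : ℝ → ℝ, G.N (j + 1) * X t0 = 10 * Real.exp (G.t * G.Q) * R.bh G (j + 2) ∧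
      ∀ t ∈ Icc t0 c, 0 < X t ∧ X t ≤ 20 * g t / G.N (j + 1) ∧
        Real.exp (-(G.t ^ 8 * G.Ga)) * R.bh G (j + 2) ≤ G.N (j + 2) * X t ∧ ∃ X', HD X X' t ∧
          (G.d (j + 2) * (R.aa G (j + 1) t - 1) + (G.t ^ 8 * G.Ga)⁻¹ * G.d (j + 2)) * X t +
            10 * (R.Fs G (j + 1) (zz G R j AA) (R.aa G (j + 1) t) / G.N (j + 1)) ≤ X' := by
  have T0 := G.t_pos
  have Ga0 := G.Ga_pos
  have hN := G.N_pos (j + 1)
  have hb' := H.bh_pos (j + 2)
  have hd := G.d_pos (j + 1)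
  have hd' := G.d_pos (j + 2)
  obtain ⟨z1, z2⟩ := S.zz_bounds H
  obtain ⟨k0, -, -⟩ := H.Kf_bounds z1 z2
  refine ⟨fun t => 10 * (g t * Real.exp ((G.t ^ 8 * G.Ga)⁻¹ * G.d (j + 2) * (t - t0))) / G.N (j + 1),
    ?_, fun t ht => ?_⟩
  · simp only [sub_self, mul_zero, Real.exp_zero, mul_one, hg.init]
    field_simp
  have g1 := (S.sc H hg).floor t ht
  have g0' : 0 < g t := lt_of_lt_of_le (by positivity) g1
  have e1 : 1 ≤ Real.exp ((G.t ^ 8 * G.Ga)⁻¹ * G.d (j + 2) * (t - t0)) :=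
    Real.one_le_exp (mul_nonneg (by positivity) (by linarith [ht.1]))
  have e2 : Real.exp ((G.t ^ 8 * G.Ga)⁻¹ * G.d (j + 2) * (t - t0)) ≤ 2 := by
    have h1 : G.d (j + 1) * (t - t0) ≤ 2 * G.t :=
      le_trans (mul_le_mul_of_nonneg_left (by linarith only [ht.2]) hd.le) (S.sc H hg).dur
    have h2 : (G.t ^ 8 * G.Ga)⁻¹ * G.d (j + 2) * (t - t0) ≤ 1 / 2 := by
      rw [G.d_succ (j + 1)]
      have h3 := G.pow_lt (a := 1) (b := 8) (by norm_num)
      rw [pow_one] at h3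
      calc _ = (G.d (j + 1) * (t - t0)) / G.t ^ 8 := by field_simp
        _ ≤ (2 * G.t) / G.t ^ 8 := by gcongr
        _ ≤ 1 / 2 := by
          rw [div_le_iff₀ (by positivity)]
          linarith only [T0, h3]
    have h5 := Real.exp_bound_div_one_sub_of_interval' (x := 1 / 2) (by norm_num) (by norm_num)
    have := Real.exp_le_exp.mpr h2
    linarith only [h5, this]
  refine ⟨by positivity, ?_, ?_, _, (((hg.ode t ht).fun_mul
    (((hasDerivWithinAt_id t _).sub_const t0).const_mul _).exp).const_mul 10).div_const _, ?_⟩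
  · refine div_le_div_of_nonneg_right ?_ hN.le
    nlinarith only [g0', e2]
  · have NN : G.N (j + 1) ≤ G.N (j + 2) := G.N_mono (by omega)
    have h1 : Real.exp (-(G.t ^ 8 * G.Ga)) ≤ Real.exp (-(G.t ^ 2 * G.Ga)) :=
      Real.exp_le_exp.mpr (neg_le_neg
        (mul_le_mul_of_nonneg_right (G.pow_le (by norm_num)) Ga0.le))
    calc Real.exp (-(G.t ^ 8 * G.Ga)) * R.bh G (j + 2) ≤ Real.exp (-(G.t ^ 2 * G.Ga)) * R.bh G (j + 2) := by gcongr
      _ ≤ 10 * (g t * Real.exp ((G.t ^ 8 * G.Ga)⁻¹ * G.d (j + 2) * (t - t0))) := by nlinarith only [g1, g0', e1]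
      _ = G.N (j + 1) * (10 * (g t * Real.exp ((G.t ^ 8 * G.Ga)⁻¹ * G.d (j + 2) * (t - t0))) /
          G.N (j + 1)) := by field_simp
      _ ≤ _ := by gcongr
  · have F0 : 0 < R.Fs G (j + 1) (zz G R j AA) (R.aa G (j + 1) t) / G.N (j + 1) := by
      have := H.Yq_pos (j + 1) (S.aa_bounds H ht).1 G.La
      rw [Fs_eq_Kf]; positivity
    have h1 := mul_le_mul_of_nonneg_left e1 F0.le
    simp only [id]
    rw [mul_one] at h1
    refine le_trans (add_le_add_right (mul_le_mul_of_nonneg_left h1 (by norm_num)) _) (le_of_eq ?_)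
    rw [show j + 1 + 1 = j + 2 from rfl]
    ring

omit H S in
lemma _root_.Pool.Agent.Work.MP_6bf1e5_an.Hyp.upp_inner {n : N3} {l : ℝ} {v : Z3 → ℝ}
    (h : Lay n l v) (D : ℝ) {y s r : V} {xs xr : ℝ} (hs : ‖s‖ ≤ xs) (hr : ‖r‖ ≤ xr) :
    (⟪y, s - (D : ℂ) • y - mulr v y + r⟫_ℂ).re ≤ ‖y‖ * (xs + xr - D * ‖y‖) := by
  have h1 := h.re_inner y
  have h2 : ‖s + r‖ ≤ xs + xr := (norm_add_le _ _).trans (by linarith)
  have h3 := (Complex.re_le_norm _).trans ((norm_inner_le_norm (𝕜 := ℂ) y (s + r)).trans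
    (mul_le_mul_of_nonneg_left h2 (norm_nonneg _)))
  have h4 : (⟪y, (D : ℂ) • y⟫_ℂ).re = D * ‖y‖ ^ 2 := by
    rw [inner_smul_right, Complex.re_ofReal_mul, ← RCLike.re_to_complex,
      ← @norm_sq_eq_re_inner ℂ]
  rw [show s - (D : ℂ) • y - mulr v y + r = s + r - (D : ℂ) • y - mulr v y by abel,
    inner_sub_right, inner_sub_right, Complex.sub_re, Complex.sub_re, h4]
  linarith

theorem upp {g : ℝ → ℝ} (hg : Cmp G R (j + 1) (zz G R j AA) t0 c g) :
    ∀ t ∈ Icc t0 c, Upp G R (j + 1) (zz G R j AA) t (g t) := by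
  obtain ⟨X, X0, hX⟩ := S.exists_X H hg
  obtain ⟨z1, z2⟩ := S.zz_bounds H
  obtain ⟨k0, k1, k2⟩ := H.Kf_bounds z1 z2
  have T0 := G.t_pos
  have L0 := G.L_pos
  have Q0 := G.Q_pos
  have Ga0 := G.Ga_pos
  have hm := G.lm_pos (j + 1)
  have hN := G.N_pos (j + 1)
  have hN' := G.N_pos (j + 2)
  have hb := H.bh_pos (j + 1)
  have hb' := H.bh_pos (j + 2)
  have hd' := G.d_pos (j + 2)
  have hl := G.lam_pos (j + 1)
  have θ0 := G.θ_pos
  have sub : Icc t0 c ⊆ Ici 0 := fun s hs => S.st.t0.trans hs.1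
  set ε := Real.exp (-(G.Q / 3)) with hε
  have ε0 : 0 < ε := Real.exp_pos _
  have ε1 : ε ≤ 1 := Real.exp_le_one_iff.mpr (by linarith only [Q0])
  set ρ := 1 + (G.L ^ 2)⁻¹ with hρ
  have ρ0 : 0 < (G.L ^ 2)⁻¹ := by positivity
  have ρ1 : ∀ i : ℕ, 1 ≤ ρ ^ i := fun i => one_le_pow₀ (by linarith only [ρ0])
  let Bf : ℕ → ℝ → ℝ := fun i t =>
    2 * ρ ^ i * R.Yq G (j + 1) (R.aa G (j + 1) t) i / G.N (j + 1) + ε * X t
  have Bf0 : ∀ i, ∀ t ∈ Icc t0 c, 0 < Bf i t := fun i t ht => by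
    have := H.Yq_pos (j + 1) (S.aa_bounds H ht).1 i
    have := (hX t ht).1
    have := ρ1 i
    positivity
  have dX : ∀ t ∈ Icc t0 c, ∃ X', HD X X' t ∧ -(G.d (j + 2) * X t) ≤ X' := fun t ht => by
    obtain ⟨x1, -, -, X', x2, x3⟩ := hX t ht
    refine ⟨X', x2, le_trans ?_ x3⟩
    have a0 := (S.aa_bounds H ht).1
    have := H.Yq_pos (j + 1) a0 G.La
    rw [Fs_eq_Kf]
    have h1 : 0 ≤ 10 * (Kf G R (j + 1) (zz G R j AA) * R.Yq G (j + 1) (R.aa G (j + 1) t) G.La /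
      G.N (j + 1)) := by positivity
    have h2 : 0 ≤ (G.d (j + 2) * R.aa G (j + 1) t + (G.t ^ 8 * G.Ga)⁻¹ * G.d (j + 2)) * X t := by
      (clear * - T0 Ga0 hd' x1 a0; positivity)
    linarith only [h1, h2]
  have dB : ∀ i, ∀ t ∈ Icc t0 c, ∃ B', HD (Bf i) B' t ∧ -(ε * (G.d (j + 2) * X t)) ≤ B' := by
    intro i t ht
    obtain ⟨X', x1, x2⟩ := dX t ht
    obtain ⟨a', h1, h2, -⟩ := (S.cur H t ht).grow
    have a0 := (S.aa_bounds H ht).1
    have g00 : 0 < g0 := by have := G.d_pos (j + 1); linarith only [this, S.g0_lo]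
    have a'0 : 0 ≤ a' := le_trans (by (clear * - a0 g00; positivity)) h2
    have e : Bf i = fun t => 2 * ρ ^ i * (R.Yq G (j + 1) 1 i * R.aa G (j + 1) t ^ (i + 1)) /
        G.N (j + 1) + ε * X t := by
      funext s; simp only [Bf]; rw [R.Yq_eq]
    rw [e]
    refine ⟨_, ((((h1.fun_pow (i + 1)).const_mul _).const_mul _).div_const _).fun_add
      (x1.const_mul ε), ?_⟩
    have := H.Yq_pos (j + 1) one_pos i
    have := ρ1 i
    have h3 : 0 ≤ 2 * ρ ^ i * (R.Yq G (j + 1) 1 i *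
      (((i + 1 : ℕ) : ℝ) * R.aa G (j + 1) t ^ (i + 1 - 1) * a')) / G.N (j + 1) := by positivity
    linarith only [h3, mul_le_mul_of_nonneg_left x2 ε0.le]
  have cX : ContinuousOn X (Icc t0 c) :=
    contOn_of_HD S.st.t0 fun t ht => (dX t ht).imp fun _ h => h.1
  have clev : ∀ i, ContinuousOn (R.lev i) (Icc t0 c) := fun i => (H.cont_lev i).mono sub
  -- consequences of the barrier inequalities at one time
  have stat : ∀ t ∈ Icc t0 c, (R.lev (j + 2) t - X t ≤ 0 ∧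
      (∀ i < G.La, ‖R.y (j + 1) (i + 1) t‖ ^ 2 - Bf (i + 1) t ^ 2 ≤ 0) ∧
      (∀ i, R.nc G (j + 2 + i) t - G.θ ^ (i + 1) * (G.N (j + 2) * X t) ≤ 0) ∧
      ∀ i, G.Wc * R.nl G (j + 3 + i) t - G.θ ^ (i + 1) * (G.N (j + 2) * X t) ≤ 0) →
      Up G R (j + 1) t (G.N (j + 2) * X t) ∧ (∀ i ≤ G.La, ‖R.y (j + 1) i t‖ ≤ Bf i t) ∧
      ∀ i ≤ G.La, ‖R.y (j + 1) i t‖ ≤
        3 * R.Yq G (j + 1) (R.aa G (j + 1) t) i / G.N (j + 1) + ε * X t := by
    rintro t ht ⟨p1, p2, p3, p4⟩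
    have a0 := (S.aa_bounds H ht).1
    have hy : ∀ i ≤ G.La, ‖R.y (j + 1) i t‖ ≤ Bf i t := by
      intro i hi
      rcases i with _ | i
      · have h1 := H.upp_y0 (S.cur H t ht) a0
        have := (hX t ht).1
        simp only [Bf, pow_zero, mul_one]
        linarith only [h1, mul_pos ε0 this]
      · exact (pow_le_pow_iff_left₀ (norm_nonneg _) (Bf0 _ t ht).le two_ne_zero).mp
          (sub_nonpos.mp (p2 i hi))
    refine ⟨⟨?_, fun i hi => ?_, fun i hi => ?_⟩, hy, fun i hi => (hy i hi).trans ?_⟩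
    · exact mul_le_mul_of_nonneg_left (by linarith only [p1]) hN'.le
    · obtain ⟨m, rfl⟩ := Nat.exists_eq_add_of_le hi
      rw [show j + 1 + 1 + m - (j + 1) = m + 1 by omega]
      linarith only [p3 m]
    · obtain ⟨m, rfl⟩ := Nat.exists_eq_add_of_le hi
      rw [show j + 1 + 2 + m - (j + 1) - 1 = m + 1 by omega]
      linarith only [p4 m]
    · have h1 := G.upp_rho hi
      have h2 := H.Yq_pos (j + 1) a0 i
      simp only [Bf]
      gcongr ?_ * _ / _ + _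
      linarith only [h1]
  have ebc : ∀ t ∈ Icc t0 c, Up G R (j + 1) t (G.N (j + 2) * X t) →
      (∀ i ≤ G.La, ‖R.y (j + 1) i t‖ ≤
        3 * R.Yq G (j + 1) (R.aa G (j + 1) t) i / G.N (j + 1) + ε * X t) →
      Kf G R (j + 1) (zz G R j AA) * ‖R.y (j + 1) G.La t‖ ≤
        3 * (R.Fs G (j + 1) (zz G R j AA) (R.aa G (j + 1) t) / G.N (j + 1)) +
          Kf G R (j + 1) (zz G R j AA) * X t ∧
      R.eb G (j + 2) t + R.ec G (j + 1) t ≤ Real.exp (-(3 * G.E)) * (2 * G.d (j + 2) * X t +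
        3 / 2 * (R.Fs G (j + 1) (zz G R j AA) (R.aa G (j + 1) t) / G.N (j + 1))) := by
    intro t ht hu hy
    have x0 := (hX t ht).1
    have h1 : Kf G R (j + 1) (zz G R j AA) * ‖R.y (j + 1) G.La t‖ ≤
        3 * (R.Fs G (j + 1) (zz G R j AA) (R.aa G (j + 1) t) / G.N (j + 1)) +
          Kf G R (j + 1) (zz G R j AA) * X t := by
      have h2 := (hy _ le_rfl).trans (add_le_add_right (mul_le_of_le_one_left x0.le ε1) _)
      refine (mul_le_mul_of_nonneg_left h2 k0.le).trans (le_of_eq ?_)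
      rw [Fs_eq_Kf]; ring
    exact ⟨h1, H.upp_ebc ((S.bnd t ht).cr0 H) (S.jb t ht) hu (hX t ht).2.2.1 z1 z2 h1⟩
  have ey : ∀ t ∈ Icc t0 c, Up G R (j + 1) t (G.N (j + 2) * X t) →
      (∀ i ≤ G.La, ‖R.y (j + 1) i t‖ ≤
        3 * R.Yq G (j + 1) (R.aa G (j + 1) t) i / G.N (j + 1) + ε * X t) → ∀ i < G.La,
      R.ey G (j + 1) i t ≤ Real.exp (-G.t ^ 19) *
        (G.D (j + 1) * R.Yq G (j + 1) (R.aa G (j + 1) t) (i + 1) / G.N (j + 1)) +
        G.L ^ 10 / 20 * G.lm (j + 1) * X t := by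
    intro t ht hu hy i hi
    have x0 := (hX t ht).1
    refine (H.upp_ey (S.bnd t ht) (S.cur H t ht) (S.aa_bounds H ht).1 (S.aa_bounds H ht).2
      (S.jb t ht) hu (hX t ht).2.2.1 (fun i hi => (hy i hi).trans
        (add_le_add_right (mul_le_of_le_one_left x0.le ε1) _)) hi).trans ?_
    gcongr
    have h1 := G.upp_L_lt (a := 4) (b := 10) (by norm_num)
    have h2 := G.upp_one_le_Lpow 4
    linarith only [h1, h2]
  obtain ⟨M, hM⟩ := H.high (j + 1) c (u := Real.exp (-(G.t ^ 8 * G.Ga)) * R.bh G (j + 2)) (by positivity)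
  have main := upp_barrier (a := t0) (b := c) (L := G.La) (M := M)
    (A := fun t => R.lev (j + 2) t - X t)
    (B := fun i t => ‖R.y (j + 1) (i + 1) t‖ ^ 2 - Bf (i + 1) t ^ 2)
    (C := fun i t => R.nc G (j + 2 + i) t - G.θ ^ (i + 1) * (G.N (j + 2) * X t))
    (D := fun i t => G.Wc * R.nl G (j + 3 + i) t - G.θ ^ (i + 1) * (G.N (j + 2) * X t))
    ?_ ((clev _).sub cX) ?_ ?_ ?_ ?_ ?_
  · intro t ht
    obtain ⟨u1, -, u2⟩ := stat t ht (main t ht)
    obtain ⟨x0, x1, -⟩ := hX t ht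
    have a0 := (S.aa_bounds H ht).1
    refine ⟨by linarith only [x1, (main t ht).1], fun i hi => (u2 i hi).trans (by gcongr),
      fun i hi => (ey t ht u1 u2 i hi).trans ?_, (ebc t ht u1 u2).2.trans ?_⟩
    · have : G.L ^ 10 / 20 * G.lm (j + 1) * X t ≤
          G.L ^ 10 / 20 * G.lm (j + 1) * (20 * g t / G.N (j + 1)) := by gcongr
      refine add_le_add_right (this.trans (le_of_eq ?_)) _
      ring
    · have F0 : 0 < R.Fs G (j + 1) (zz G R j AA) (R.aa G (j + 1) t) / G.N (j + 1) := by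
        have := H.Yq_pos (j + 1) a0 G.La
        rw [Fs_eq_Kf]; positivity
      have h1 : 40 * Real.exp (-(3 * G.E)) ≤ Real.exp (-(2 * G.E)) := by
        have e : Real.exp (-(2 * G.E)) = Real.exp G.E * Real.exp (-(3 * G.E)) := by
          rw [← Real.exp_add]; ring_nf
        rw [e]
        gcongr
        have := Real.add_one_le_exp G.E
        have := G.pow_lt (a := 0) (b := 19) (by norm_num)
        have := G.E_lo
        linarith
      have h2 : G.d (j + 2) * X t ≤ G.d (j + 2) * (20 * g t / G.N (j + 1)) := by gcongr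
      have h3 : 0 < G.d (j + 2) * X t := by positivity
      calc _ ≤ Real.exp (-(3 * G.E)) * (40 * ((R.Fs G (j + 1) (zz G R j AA) (R.aa G (j + 1) t) +
            G.d (j + 2) * g t) / G.N (j + 1))) := by
            gcongr _ * ?_
            have e : (R.Fs G (j + 1) (zz G R j AA) (R.aa G (j + 1) t) + G.d (j + 2) * g t) /
                G.N (j + 1) = R.Fs G (j + 1) (zz G R j AA) (R.aa G (j + 1) t) / G.N (j + 1) +
                G.d (j + 2) * (20 * g t / G.N (j + 1)) / 20 := by ring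
            rw [e]
            linarith only [F0, h2]
        _ = 40 * Real.exp (-(3 * G.E)) * ((R.Fs G (j + 1) (zz G R j AA) (R.aa G (j + 1) t) +
            G.d (j + 2) * g t) / G.N (j + 1)) := by ring
        _ ≤ _ := by
            refine mul_le_mul_of_nonneg_right h1 ?_
            rw [add_div, mul_div_assoc]
            have h4 : 0 ≤ g t / G.N (j + 1) := by
              have : 20 * g t / G.N (j + 1) = 20 * (g t / G.N (j + 1)) := by ring
              linarith only [x0, x1, this]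
            (clear * - hd' F0 h4; positivity)
  · intro i hi t ht
    have fl := (hX t ht).2.2.1
    have h1 := (hM (j + 2 + i) (by omega) t ⟨sub ht, ht.2⟩).1
    have h2 := (hM (j + 3 + i) (by omega) t ⟨sub ht, ht.2⟩).2
    rw [show j + 2 + i - (j + 1) = i + 1 by omega] at h1
    rw [show j + 3 + i - (j + 1) - 1 = i + 1 by omega] at h2
    have h3 := mul_le_mul_of_nonneg_left fl (pow_pos θ0 (i + 1)).le
    constructor <;> linarith only [h1, h3, h2]
  · intro i hi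
    refine contOn_of_HD S.st.t0 fun t ht => ?_
    obtain ⟨r, -, h1⟩ := H.eqY (j + 1) i t hi (sub ht)
    obtain ⟨B', h2, -⟩ := dB (i + 1) t ht
    exact ⟨_, h1.normsq.fun_sub (h2.fun_pow 2)⟩
  · intro i
    exact (continuousOn_const.fun_mul (continuousOn_const.fun_mul ((H.cont_ch _).mono sub))).fun_sub
      (continuousOn_const.fun_mul (continuousOn_const.fun_mul cX))
  · intro i
    exact (continuousOn_const.fun_mul (continuousOn_const.fun_mul (clev _))).fun_sub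
      (continuousOn_const.fun_mul (continuousOn_const.fun_mul cX))
  · have m0 : t0 ∈ Icc t0 c := ⟨le_rfl, S.le⟩
    have hB := S.bnd t0 m0
    have E1 := hB.Ehi
    have e22 : 2 ≤ ε * Real.exp (G.t * G.Q) := by
      rw [hε, ← Real.exp_add]
      have := Real.add_one_le_exp (-(G.Q / 3) + G.t * G.Q)
      have := mul_le_mul_of_nonneg_right G.t_big Q0.le
      have := G.upp_one_le_Q
      linarith
    have e23 : 1 ≤ Real.exp (G.t * G.Q) := Real.one_le_exp (by positivity)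
    have NN : G.N (j + 1) ≤ G.N (j + 2) := G.N_mono (by omega)
    have bb : R.bh G (j + 1) ≤ R.bh G (j + 2) := H.bh_mono (by omega)
    have x0 := (hX t0 m0).1
    have hu : Up G R (j + 1) t0 (G.N (j + 2) * X t0) := by
      refine hB.up.mono ?_
      have h1 := G.upp_xs_le
      have h2 := G.xs_pos
      have h3 : G.xs * Ex t0 (AA (j + 1)) g0 t0 ≤ 1 := by
        linarith only [h1, mul_le_mul_of_nonneg_left E1 h2.le]
      have h4 : G.N (j + 1) * X t0 ≤ G.N (j + 2) * X t0 := by gcongr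
      have h5 : G.xs * Ex t0 (AA (j + 1)) g0 t0 * R.bh G (j + 2) ≤ 1 * R.bh G (j + 2) := by gcongr
      have h6 : 1 * R.bh G (j + 2) ≤ Real.exp (G.t * G.Q) * R.bh G (j + 2) := by gcongr
      change _ * R.bh G (j + 2) ≤ _
      linarith only [X0, hb', h4, h5, h6]
    refine ⟨?_, fun i hi => ?_, fun i => ?_, fun i => ?_⟩
    · exact sub_nonpos.mpr (le_of_mul_le_mul_left hu.nw hN')
    · refine sub_nonpos.mpr (pow_le_pow_left₀ (norm_nonneg _) ?_ 2)
      have h1 := IsNet.upp_y_le hB (i := i + 1) (by omega) hi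
      have h2 : ‖R.y (j + 1) (i + 1) t0‖ ≤ ε * X t0 := by
        refine le_of_mul_le_mul_left (h1.trans ?_) hN
        have e : G.N (j + 1) * (ε * X t0) = 10 * (ε * Real.exp (G.t * G.Q)) * R.bh G (j + 2) := by
          rw [mul_left_comm, X0]; ring
        rw [e]
        exact mul_le_mul (by linarith only [E1, e22]) bb hb.le (by positivity)
      have := H.Yq_pos (j + 1) (S.aa_bounds H m0).1 (i + 1)
      have := ρ1 (i + 1)
      refine h2.trans (le_add_of_nonneg_left ?_)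
      positivity
    · have := hu.y (j + 2 + i) (by omega)
      rw [show j + 2 + i - (j + 1) = i + 1 by omega] at this
      exact sub_nonpos.mpr this
    · have := hu.l (j + 3 + i) (by omega)
      rw [show j + 3 + i - (j + 1) - 1 = i + 1 by omega] at this
      exact sub_nonpos.mpr this
  · intro t ht hp
    obtain ⟨u1, u3, u2⟩ := stat t ht hp
    obtain ⟨x0, -, fl, X', x2, x3⟩ := hX t ht
    obtain ⟨a0, a1⟩ := S.aa_bounds H ht
    have hB := S.bnd t ht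
    have h0 := hB.cr0 H
    have t0' : 0 ≤ t := sub ht
    refine ⟨fun e => ?_, fun i hi e => ?_, fun i e => ?_, fun i e => ?_⟩
    · have e' : R.lev (j + 2) t = X t := by linarith only [e]
      obtain ⟨D, d1, d2⟩ := H.lev_deriv (j := j + 1) t0' (e' ▸ x0)
        (H.upp_sigma (S.cur H t ht) a0) fun o => H.upp_f_le o (S.l1_Z_le H ht o)
      refine ⟨D - X', ?_, HD.right (d1.fun_sub x2) t0'⟩
      obtain ⟨b1, b2⟩ := ebc t ht u1 u2
      have F0 : 0 < R.Fs G (j + 1) (zz G R j AA) (R.aa G (j + 1) t) / G.N (j + 1) := by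
        have := H.Yq_pos (j + 1) a0 G.La
        rw [Fs_eq_Kf]; positivity
      change D ≤ _ * R.lev (j + 2) t + 2 * (_ + R.eb G (j + 2) t + _) at d2
      rw [e'] at d2
      have h1 := G.upp_exp3E
      have h2 : 100 * (G.L ^ 4)⁻¹ ≤ (G.t ^ 8 * G.Ga)⁻¹ := by
        have := G.upp_L_lt (a := 3) (b := 4) (by norm_num)
        have := G.upp_tGa (k := 8) (by norm_num)
        have := pow_pos L0 3
        rw [← div_eq_mul_inv, ← one_div, div_le_div_iff₀ (by positivity) (by positivity)]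
        linarith
      have h3 : (G.t ^ 8 * G.Ga)⁻¹ ≤ 1 := inv_le_one_of_one_le₀
        (one_le_mul_of_one_le_of_one_le (G.upp_one_le_pow _) G.upp_one_le_Ga)
      have h4 : 0 < (G.L ^ 4)⁻¹ := by positivity
      have h5 : Kf G R (j + 1) (zz G R j AA) * X t ≤ (G.L ^ 4)⁻¹ * G.d (j + 2) * X t := by gcongr
      have h6 : Real.exp (-(3 * G.E)) * (2 * G.d (j + 2) * X t +
        3 / 2 * (R.Fs G (j + 1) (zz G R j AA) (R.aa G (j + 1) t) / G.N (j + 1))) ≤
          (G.L ^ 4)⁻¹ * (2 * G.d (j + 2) * X t +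
        3 / 2 * (R.Fs G (j + 1) (zz G R j AA) (R.aa G (j + 1) t) / G.N (j + 1))) := by (clear * - hd' x0 F0 h1; gcongr)
      have h7 : 0 < G.d (j + 2) * X t := by positivity
      have h8 : 100 * (G.L ^ 4)⁻¹ * (G.d (j + 2) * X t) ≤ (G.t ^ 8 * G.Ga)⁻¹ * (G.d (j + 2) * X t) := by
        (clear * - hd' x0 h2; gcongr)
      have h9 : (G.L ^ 4)⁻¹ * (R.Fs G (j + 1) (zz G R j AA) (R.aa G (j + 1) t) / G.N (j + 1)) ≤
          1 * (R.Fs G (j + 1) (zz G R j AA) (R.aa G (j + 1) t) / G.N (j + 1)) := by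
        gcongr; linarith only [h2, h3]
      have h10 : 0 < (G.L ^ 4)⁻¹ * (G.d (j + 2) * X t) := by positivity
      linarith only [x3, b1, b2, F0, d2, h5, h6, h8, h9, h10]
    · obtain ⟨r, r1, r2⟩ := H.eqY (j + 1) i t hi t0'
      obtain ⟨B', b1, b2⟩ := dB (i + 1) t ht
      have B0 := Bf0 (i + 1) t ht
      have e' : ‖R.y (j + 1) (i + 1) t‖ = Bf (i + 1) t :=
        (pow_left_inj₀ (norm_nonneg _) B0.le two_ne_zero).mp (by linarith only [e])
      refine ⟨_, ?_, HD.right (r2.normsq.fun_sub (b1.fun_pow 2)) t0'⟩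
      have c0 : 0 ≤ R.cy (i + 1) * G.lam (j + 1) := by have := H.cy_lo (i + 1); positivity
      have h1 : ‖((R.cy (i + 1) * G.lam (j + 1) : ℝ) : ℂ) •
          pj (G.ry (j + 1)) (R.B G (j + 1) t * R.y (j + 1) i t)‖ ≤
          R.cy (i + 1) * G.lam (j + 1) * (R.bh G (j + 1) * R.aa G (j + 1) t * Bf i t) := by
        rw [norm_smul, Complex.norm_real, Real.norm_of_nonneg c0]
        refine mul_le_mul_of_nonneg_left ((norm_pj_le _ _).trans
          ((H.upp_B_mul (S.cur H t ht) a0 _).trans ?_)) c0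
        exact mul_le_mul_of_nonneg_left (u3 i hi.le) (by (clear * - hb a0; positivity))
      have h2 := upp_inner (H.layy (j + 1) (i + 1)) (G.D (j + 1)) h1 (r1.trans (ey t ht u1 u2 i hi))
        (y := R.y (j + 1) (i + 1) t)
      rw [e'] at h2
      have h3 : R.cy (i + 1) * G.lam (j + 1) * (R.bh G (j + 1) * R.aa G (j + 1) t * Bf i t) +
          (Real.exp (-G.t ^ 19) *
            (G.D (j + 1) * R.Yq G (j + 1) (R.aa G (j + 1) t) (i + 1) / G.N (j + 1)) +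
            G.L ^ 10 / 20 * G.lm (j + 1) * X t) - G.D (j + 1) * Bf (i + 1) t < B' := by
        refine lt_of_lt_of_le ?_ b2
        have Y1 := H.Yq_pos (j + 1) a0 (i + 1)
        have D0 := G.D_pos (j + 1)
        have W0 : 0 < G.D (j + 1) * R.Yq G (j + 1) (R.aa G (j + 1) t) (i + 1) / G.N (j + 1) := by
          (clear * - hN Y1 D0; positivity)
        have q1 : R.cy (i + 1) * G.lam (j + 1) * (R.bh G (j + 1) * R.aa G (j + 1) t * Bf i t) =
            2 * ρ ^ i * (G.D (j + 1) * R.Yq G (j + 1) (R.aa G (j + 1) t) (i + 1) / G.N (j + 1)) +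
            ε * (R.cy (i + 1) * G.lam (j + 1) * (R.bh G (j + 1) * R.aa G (j + 1) t)) * X t := by
          rw [R.Yq_succ]; simp only [Bf]; ring
        have q2 : G.D (j + 1) * Bf (i + 1) t = 2 * ρ ^ i *
            (G.D (j + 1) * R.Yq G (j + 1) (R.aa G (j + 1) t) (i + 1) / G.N (j + 1)) +
            2 * (ρ ^ i * (G.L ^ 2)⁻¹) *
            (G.D (j + 1) * R.Yq G (j + 1) (R.aa G (j + 1) t) (i + 1) / G.N (j + 1)) +
            ε * G.D (j + 1) * X t := by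
          simp only [Bf]; rw [pow_succ ρ, hρ]; ring
        have q3 : Real.exp (-G.t ^ 19) ≤ 2 * (ρ ^ i * (G.L ^ 2)⁻¹) := by
          have h4 : (G.L ^ 4)⁻¹ ≤ (G.L ^ 2)⁻¹ :=
            inv_anti₀ (by positivity) (G.L_pow_le (by norm_num))
          linarith only [ρ0, h4, G.upp_exp19, mul_le_mul_of_nonneg_right (ρ1 i) ρ0.le]
        have q4 := mul_le_mul_of_nonneg_right q3 W0.le
        have q5 : ε * (R.cy (i + 1) * G.lam (j + 1) * (R.bh G (j + 1) * R.aa G (j + 1) t)) ≤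
            G.L ^ 3 * G.lm (j + 1) := by
          have r1 := H.upp_bh_le (j + 1)
          have r2 : 0 < G.lam (j + 1) * R.bh G (j + 1) := by positivity
          calc _ ≤ 1 * (1 * G.lam (j + 1) * (R.bh G (j + 1) * 11)) := by
                gcongr
                exact H.cy_hi _
            _ ≤ _ := by linarith only [r1, r2]
        have q6 : ε * G.d (j + 2) ≤ 1 * (G.L ^ 3 * (2 * G.lm (j + 1))) := by
          gcongr
          exact (G.d_succ (j + 1)).le.trans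
            (mul_le_mul_of_nonneg_right G.upp_Ga_le (G.d_pos (j + 1)).le)
        have q7 := G.upp_D' (j + 1)
        have q8 : ε * (R.cy (i + 1) * G.lam (j + 1) * (R.bh G (j + 1) * R.aa G (j + 1) t)) +
            G.L ^ 10 / 20 * G.lm (j + 1) + ε * G.d (j + 2) < ε * G.D (j + 1) := by
          have p1 := G.upp_L_lt (a := 10) (b := 11) (by norm_num)
          have p2 := G.L_pow_le (a := 3) (b := 10) (by norm_num)
          have p4 := pow_pos L0 10
          have p5 : (G.L ^ 3 + G.L ^ 10 / 20 + 2 * G.L ^ 3) * G.lm (j + 1) <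
              G.L ^ 11 * G.lm (j + 1) := by
            gcongr; linarith only [p1, p2, p4]
          linarith only [q5, q6, q7, p5]
        have q9 := mul_lt_mul_of_pos_right q8 x0
        rw [q1, q2]
        linarith only [q4, q9]
      have h4 := mul_lt_mul_of_pos_left h3 B0
      simp only [Nat.cast_ofNat, Nat.add_one_sub_one, pow_one]
      linarith only [h2, h4]
    · obtain ⟨D, d1, d2⟩ := h0.up_y H u1 (S.jb t ht) fl (i := j + 2 + i) (by omega) (by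
        rw [show j + 2 + i - (j + 1) = i + 1 by omega]; linarith only [e])
      obtain ⟨X'', y1, y2⟩ := dX t ht
      refine ⟨_, ?_, HD.right (d1.fun_sub ((y1.const_mul _).const_mul _)) t0'⟩
      have e' : R.nc G (j + 2 + i) t = G.θ ^ (i + 1) * (G.N (j + 2) * X t) := by linarith only [e]
      rw [e'] at d2
      have h1 : 0 < G.θ ^ (i + 1) * G.N (j + 2) := by positivity
      have h2 := mul_le_mul_of_nonneg_left y2 h1.le
      have h3 : 0 < G.θ ^ (i + 1) * G.N (j + 2) * (G.d (j + 2) * X t) := by positivity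
      change D ≤ -(10 * G.d (j + 2) * _) at d2
      linarith only [h2, h3, d2]
    · obtain ⟨D, d1, d2⟩ := h0.up_l H u1 (S.jb t ht) fl (i := j + 3 + i) (by omega) (by
        rw [show j + 3 + i - (j + 1) - 1 = i + 1 by omega]; linarith only [e])
      obtain ⟨X'', y1, y2⟩ := dX t ht
      refine ⟨_, ?_, HD.right ((d1.const_mul _).fun_sub ((y1.const_mul _).const_mul _)) t0'⟩
      have e' : G.Wc * R.nl G (j + 3 + i) t = G.θ ^ (i + 1) * (G.N (j + 2) * X t) := by linarith only [e]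
      have d3 := mul_le_mul_of_nonneg_left d2 G.Wc_pos.le
      have h1 : 0 < G.θ ^ (i + 1) * G.N (j + 2) := by positivity
      have h2 := mul_le_mul_of_nonneg_left y2 h1.le
      have h3 : 0 < G.θ ^ (i + 1) * G.N (j + 2) * (G.d (j + 2) * X t) := by positivity
      have h4 : G.Wc * -(10 * G.d (j + 1 + 1) * R.nl G (j + 3 + i) t) =
          -(10 * (G.θ ^ (i + 1) * G.N (j + 2) * (G.d (j + 2) * X t))) := by
        calc _ = -(10 * G.d (j + 2) * (G.Wc * R.nl G (j + 3 + i) t)) := by ring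
          _ = _ := by rw [e']; ring
      linarith only [d3, h2, h3, h4]

/-- The new level does not grow while the current level is small. -/
theorem cross (e : R.nl G (j + 2) c = G.xs * Ex t0 (AA (j + 1)) g0 c * R.bh G (j + 2))
    (fr : ∃ᶠ t in 𝓝[>] c, G.xs * Ex t0 (AA (j + 1)) g0 t * R.bh G (j + 2) < R.nl G (j + 2) t) :
    2 / 5 ≤ R.aa G (j + 1) c := by
  by_contra hcon
  have hlt : R.aa G (j + 1) c < 2 / 5 := not_le.mp hcon
  have ht : c ∈ Icc t0 c := ⟨S.le, le_rfl⟩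
  have hB := S.bnd c ht
  have h0 := hB.cr0 H
  have T0 := G.t_pos
  have hN := G.N_pos (j + 1)
  have hN' := G.N_pos (j + 2)
  have hb := H.bh_pos (j + 1)
  have hb' := H.bh_pos (j + 2)
  have hd' := G.d_pos (j + 2)
  have hl' := G.lam_pos (j + 2)
  have hm' := G.lm_pos (j + 2)
  have L0 := G.L_pos
  have m0 := G.m0_pos
  have mQ := G.mQ_pos
  have x0 := G.xs_pos
  have E0 := hB.Elo
  have a0 := (S.aa_bounds H ht).1
  have hE : HD (Ex t0 (AA (j + 1)) g0) (g0 * Ex t0 (AA (j + 1)) g0 c) c := by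
    have := ((((hasDerivWithinAt_id c (Ici 0)).sub_const t0).const_mul g0).exp).const_mul
      (AA (j + 1))
    refine this.congr_deriv ?_
    simp only [Ex, id]; ring
  generalize hEE : Ex t0 (AA (j + 1)) g0 c = E at hB e E0 hE
  have Epos : 0 < E := x0.trans_le E0
  have u0 : 0 < G.xs * E * R.bh G (j + 2) := by positivity
  have fl : Real.exp (-(G.t ^ 8 * G.Ga)) * R.bh G (j + 2) ≤ G.xs * E * R.bh G (j + 2) := by
    have h1 : Real.exp (-(G.t ^ 8 * G.Ga)) ≤ (G.L ^ 4)⁻¹ :=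
      G.upp_expL ((G.upp_t_le (m := 8) (by norm_num)).trans
        (le_mul_of_one_le_right (by positivity) G.upp_one_le_Ga))
    have h2 : (G.L ^ 4)⁻¹ ≤ G.xs * G.xs := by
      have h4 := G.upp_xs_lo
      calc (G.L ^ 4)⁻¹ = (G.L ^ 2)⁻¹ * (G.L ^ 2)⁻¹ := by field_simp
        _ ≤ _ := by gcongr
    have h3 : G.xs * G.xs ≤ G.xs * E := by gcongr
    gcongr ?_ * _
    linarith only [h1, h2, h3]
  have lv : 0 < R.lev (j + 2) c := (mul_pos_iff_of_pos_left hN').1 (u0.trans_eq e.symm)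
  -- the size of the last rung
  set W := G.N (j + 2) * (G.lam (j + 2) * R.bh G (j + 2) / (G.m0 * G.mQ)) * ‖R.y (j + 1) G.La c‖ with hW
  have W0 : 0 ≤ W := by (clear * - hN' hb' hl' m0 mQ; positivity)
  have W1 : G.t ^ 20 * W ≤ G.d (j + 2) * (G.xs * E * R.bh G (j + 2)) := by
    have h1 := IsNet.upp_y_le hB (i := G.La) (by have := G.ten_le_La; omega) le_rfl
    have h2 := G.upp_N_succ (j + 1)
    have h3 := H.upp_bh_le (j + 2)
    have h4 : R.bh G (j + 1) ≤ R.bh G (j + 2) := H.bh_mono (by omega)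
    have h5 : G.L ^ 8 ≤ G.m0 * G.mQ := (G.L_pow_le (by norm_num)).trans G.upp_mm
    have h6 : G.t ^ 20 ≤ G.L := (G.pow_le (by norm_num)).trans G.L_lo
    have h7 : G.lam (j + 2) * R.bh G (j + 2) ≤ G.L ^ 3 * G.lm (j + 2) := by
      have : 0 < G.lam (j + 2) * R.bh G (j + 2) := by positivity
      linarith only [h3, this]
    have h8 := G.upp_xs_lo
    calc G.t ^ 20 * W ≤ G.L * (G.L ^ 2 * G.N (j + 1) *
          (G.L ^ 3 * G.lm (j + 2) / G.L ^ 8) * ‖R.y (j + 1) G.La c‖) := by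
          rw [hW]; (clear * - hN hN' hb' hl' hm' L0 m0 mQ h2 h5 h6 h7; gcongr)
      _ = (G.L ^ 2)⁻¹ * G.lm (j + 2) * (G.N (j + 1) * ‖R.y (j + 1) G.La c‖) := by field_simp
      _ ≤ G.xs * G.lm (j + 2) * (E * R.bh G (j + 2)) := by
          gcongr ?_ * _ * ?_
          exact h1.trans (by gcongr)
      _ = G.lm (j + 2) * (G.xs * E * R.bh G (j + 2)) := by ring
      _ ≤ _ := by
          gcongr
          unfold Geo.d; linarith only [hm']
  have hF : ∀ o, ‖R.f G (j + 1) o c‖ ≤ 10 ^ 3 * G.t ^ 11 * W / G.N (j + 2) := by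
    intro o
    have h1 := h0.f_le H (j + 1) o
    refine le_of_mul_le_mul_left (h1.trans (le_of_eq ?_)) (mul_pos m0 mQ)
    rw [hW]; field_simp
  obtain ⟨D, d1, d2⟩ := H.lev_deriv (j := j + 1) hB.t0 lv
    (H.upp_sigma (S.cur H c ht) a0) hF
  have er := h0.err_new H hB.up (S.jb c ht) fl
  have nc := not_cross (H := fun t => R.nl G (j + 2) t -
      G.xs * Ex t0 (AA (j + 1)) g0 t * R.bh G (j + 2)) (c := c) (by simp only [hEE]; linarith only [e])
    (fr.mono fun t h => by linarith only [h])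
    (HD.right ((d1.const_mul (G.N (j + 2))).fun_sub ((hE.const_mul _).mul_const _)) hB.t0)
  have g00 : 0 < g0 := by have := G.d_pos (j + 1); linarith only [this, S.g0_lo]
  have h1 : 0 ≤ G.xs * (g0 * E) * R.bh G (j + 2) := by positivity
  have d3 := mul_le_mul_of_nonneg_left d2 hN'.le
  have h2 : G.N (j + 2) * ((G.d (j + 1 + 1) * R.aa G (j + 1) c - G.d (j + 1 + 1)) *
      R.lev (j + 1 + 1) c + 2 * (10 ^ 3 * G.t ^ 11 * W / G.N (j + 2) + R.eb G (j + 1 + 1) c +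
        R.ec G (j + 1) c)) = (R.aa G (j + 1) c - 1) * (G.d (j + 2) * (G.xs * E * R.bh G (j + 2))) +
      2 * (10 ^ 3 * G.t ^ 11 * W) + 2 * (G.N (j + 2) * (R.eb G (j + 2) c + R.ec G (j + 1) c)) := by
    rw [← e, Raw.nl]; field_simp; ring
  have h3 : Real.exp (-(3 * G.E)) ≤ 1 / 100 := by
    refine G.upp_exp3E.trans ?_
    rw [one_div]
    refine inv_anti₀ (by norm_num) ?_
    linarith only [G.upp_L_lt (a := 0) (b := 4) (by norm_num)]
  have h4 : 0 < G.d (j + 2) * (G.xs * E * R.bh G (j + 2)) := by positivity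
  have h5 : 10 ^ 100 * G.t ^ 11 * W ≤ G.t ^ 20 * W :=
    mul_le_mul_of_nonneg_right (G.pow_lt (by norm_num)) W0
  have h6 : 1 * W ≤ G.t ^ 11 * W := mul_le_mul_of_nonneg_right (G.upp_one_le_pow 11) W0
  have h7 : Real.exp (-(3 * G.E)) * (G.d (j + 2) * (G.xs * E * R.bh G (j + 2)) + W) ≤
      1 / 100 * (G.d (j + 2) * (G.xs * E * R.bh G (j + 2)) + W) := by (clear * - hN' hb' hd' hl' m0 mQ x0 Epos h3; gcongr)
  have h8 := mul_lt_mul_of_pos_right hlt h4
  change G.N (j + 2) * (R.eb G (j + 2) c + R.ec G (j + 1) c) ≤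
    _ * (G.d (j + 2) * (G.xs * E * R.bh G (j + 2)) + W) at er
  linarith only [W1, nc, h1, d3, h2, h4, h5, h6, h7, h8, er]

end Run

end

end Pool.Agent.Work.MP_6bf1e5_an.Hyp
end
end
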