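import Pool.Agent.Work.MP_6bf1e5_an.Hyp.GapB
import Pool.Agent.Work.MP_6bf1e5_an.Hyp.Upp
import Pool.Agent.Work.MP_6bf1e5_an.Hyp.ExGeo
import Pool.Agent.Work.MP_6bf1e5_an.Hyp.Phase1
import Pool.Agent.Work.MP_6bf1e5_an.Hyp.CurB

-- merged part: Pool.Agent.Work.MP_6bf1e5_an.Hyp.Combo
section
-- merged part: Pool.Agent.Work.MP_6bf1e5_an.Hyp.LadderA
section
/-!
Auxiliary facts for the ladder.
-/

open Set Complex Filter Topology
open scoped InnerProductSpace ComplexConjugate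
open Pool.Agent.Work.MP_6bf1e5_an.B (Z3 R3)
open Pool.Agent.Work.MP_6bf1e5_an.Hyp.Dec

namespace Pool.Agent.Work.MP_6bf1e5_an.Hyp.LadA

noncomputable section

section gen

variable {E : Type} [NormedAddCommGroup E] [InnerProductSpace ℂ E] [NormedSpace ℝ E]

omit [NormedSpace ℝ E] in
lemma re_le (a s d : E) (D : ℝ) (hd : 0 ≤ (⟪a, d⟫_ℂ).re) :
    (⟪a, s - (D : ℂ) • a - d⟫_ℂ).re ≤ ‖a‖ * ‖s‖ - D * ‖a‖ ^ 2 := by
  have h1 : (⟪a, s⟫_ℂ).re ≤ ‖a‖ * ‖s‖ := (Complex.re_le_norm _).trans (norm_inner_le_norm _ _)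
  have h2 : (⟪a, (D : ℂ) • a⟫_ℂ).re = D * ‖a‖ ^ 2 := by
    rw [inner_smul_right, Complex.re_ofReal_mul, @norm_sq_eq_re_inner ℂ, RCLike.re_to_complex]
  rw [inner_sub_right, inner_sub_right, Complex.sub_re, Complex.sub_re, h2]
  linarith

/-- One rung of the ladder. -/
theorem step {a : ℝ → E} {Y X : ℝ → ℝ} {A B B' D t0 t1 : ℝ} (h0 : 0 ≤ t0) (hD : 0 < D)
    (hA : 0 ≤ A) (hB' : 0 < B') (hB : B < 9 / 10 * B') (init : ‖a t0‖ ≤ B' * X t0)
    (hY : ∀ t ∈ Icc t0 t1, 0 ≤ Y t ∧ ∃ Y', HD Y Y' t ∧ 0 ≤ Y')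
    (hX : ∀ t ∈ Icc t0 t1, 0 < X t ∧ ∃ X', HD X X' t ∧ -(D / 10 * X t) ≤ X')
    (ha : ∀ t ∈ Icc t0 t1, ∃ s d, HD a (s - (D : ℂ) • a t - d) t ∧ 0 ≤ (⟪a t, d⟫_ℂ).re ∧
      ‖s‖ ≤ D * (A * Y t + B * X t)) :
    ∀ t ∈ Icc t0 t1, ‖a t‖ ≤ A * Y t + B' * X t := by
  intro t ht
  have h01 : t0 ≤ t1 := ht.1.trans ht.2
  refine bar1 (U := fun t => A * Y t + B' * X t) h0 ?_ (fun t ht => ?_) t ht
  · have := mul_nonneg hA (hY t0 ⟨le_rfl, h01⟩).1
    linarith only [init, this]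
  obtain ⟨y0, Y', dY, Y0⟩ := hY t ht
  obtain ⟨x0, X', dX, X0⟩ := hX t ht
  obtain ⟨s, d, da, d0, hs⟩ := ha t ht
  have U0 : 0 < A * Y t + B' * X t := add_pos_of_nonneg_of_pos (mul_nonneg hA y0) (mul_pos hB' x0)
  refine ⟨U0, _, A * Y' + B' * X', da, (dY.const_mul A).fun_add (dX.const_mul B'), fun e => ?_⟩
  refine (re_le _ _ _ _ d0).trans_lt ?_
  rw [e]
  have h1 : D * (B * X t) < D * (9 / 10 * B' * X t) :=
    mul_lt_mul_of_pos_left (mul_lt_mul_of_pos_right hB x0) hD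
  have h2 : B' * -(D / 10 * X t) ≤ B' * X' := mul_le_mul_of_nonneg_left X0 hB'.le
  have h3 : 0 ≤ A * Y' := mul_nonneg hA Y0
  have h4 : ‖s‖ - D * (A * Y t + B' * X t) < A * Y' + B' * X' := by linarith only [hs, h1, h2, h3]
  have := mul_lt_mul_of_pos_left h4 U0
  linarith only [this]

end gen

lemma sum_single (n : N3) (a : Fin 3) (u : ℝ) :
    ∑ i, (n i : ℝ) * |(Pi.single a u : R3) i| = n a * |u| := by
  rw [Finset.sum_eq_single a] <;> simp +contextual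

lemma wt_single_zero (a : Fin 3) (f : V) : wt (Pi.single a 0) f = f := by
  ext h; simp [coeff_wt, pr]

/-! Arithmetic -/

lemma wt_arith {c D M δ E1 E2 ε Y0 Y1 X P : ℝ} (hD : 0 < D) (hM : 0 < M) (hY : D * Y1 = c * Y0)
    (hY1 : 0 ≤ Y1) (hX : 0 ≤ X) (hc : c ≤ ε * D) (hε0 : 0 ≤ ε) (hε : ε ≤ 1 / 100) (hδ0 : 0 ≤ δ)
    (hδ : δ ≤ 1) (hE1 : 0 ≤ E1) (hE : E1 ≤ E2) (hP : 1 ≤ P) :
    c * ((1 + δ) * (4 * P * M * Y0 + E2 * M * X)) +
        E1 * (ε * (D * Y1 * M) + D / 10 * (X * M)) ≤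
      D * (4 * (P * (1 + δ + E1 * ε)) * M * Y1 + 1 / 5 * (E2 * M) * X) := by
  have hE2 : 0 ≤ E2 := hE1.trans hE
  have a1 : c * (1 + δ) ≤ D / 50 := by
    have : c ≤ D / 100 := hc.trans (by nlinarith only [hD, hε])
    nlinarith only [hD, hδ0, hδ, this]
  have a2 : c * (1 + δ) * (E2 * M * X) ≤ D / 50 * (E2 * M * X) :=
    mul_le_mul_of_nonneg_right a1 (by positivity)
  have a3 : E1 * (D * (X * M)) ≤ E2 * (D * (X * M)) := by gcongr
  have a4 : 1 * (E1 * ε * (D * Y1 * M)) ≤ 4 * P * (E1 * ε * (D * Y1 * M)) :=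
    mul_le_mul_of_nonneg_right (by linarith only [hP]) (by positivity)
  have a5 : 0 ≤ E2 * (D * (X * M)) := by positivity
  have e1 : c * ((1 + δ) * (4 * P * M * Y0)) = 4 * P * (1 + δ) * M * (D * Y1) := by
    rw [hY]; ring
  linarith only [a2, a3, a4, a5, e1]

lemma g_arith {c D P a ε E E2 Y0 Y1 X : ℝ} (hD : 0 < D) (hY : D * Y1 = c * Y0) (hX : 0 ≤ X)
    (hc : c ≤ D) (hP : 0 ≤ P) (a0 : 0 ≤ a) (a1 : a ≤ 1) (hε : ε ≤ 1 / 100) (hE : 1 ≤ E2) :
    3 * P * (ε * (D * Y1) + D / 10 * X) + c * (36 * P * a * (E * Y0 + E2 * X)) +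
        ε * D * P * (E * Y1 + E2 * X) ≤
      (36 * P * a * E + ε * P * E + 3 * P * ε) * (D * Y1) + 40 * P * E2 * (D * X) := by
  have E0 : 0 ≤ E2 := by linarith only [hE]
  have b1 : 1 * (P * D * X) ≤ E2 * (P * D * X) := by gcongr
  have b2 : c * a ≤ D * 1 := mul_le_mul hc a1 a0 hD.le
  have b3 : c * a * (P * E2 * X) ≤ D * 1 * (P * E2 * X) := by gcongr
  have b4 : ε * (D * P * E2 * X) ≤ 1 / 100 * (D * P * E2 * X) := by gcongr
  have b5 : 0 ≤ D * P * E2 * X := by positivity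
  have e1 : c * (36 * P * a * (E * Y0)) = 36 * P * a * E * (D * Y1) := by rw [hY]; ring
  linarith

lemma s_arith {c D ε A B Y0 Y1 X : ℝ} (hD : 0 < D) (hY : D * Y1 = c * Y0) (hX : 0 ≤ X)
    (hc : c ≤ ε * D) (hε : ε ≤ 1 / 100) (hB : 0 ≤ B) :
    c * (A * Y0 + B * X) ≤ D * (A * Y1 + 1 / 100 * B * X) := by
  have b1 : c ≤ 1 / 100 * D := hc.trans (by gcongr)
  have b2 : c * (B * X) ≤ 1 / 100 * D * (B * X) := by gcongr
  have e1 : c * (A * Y0) = A * (D * Y1) := by rw [hY]; ring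
  linarith only [b2, e1]

/-! Numerical facts -/

section num

variable {T Λ : ℝ} (hT : (10 : ℝ) ^ 100 ≤ T)

include hT

lemma T10 : 10 ≤ T := le_trans (by norm_num) hT

lemma T1 : 1 ≤ T := le_trans (by norm_num) hT

lemma T0 : 0 < T := lt_of_lt_of_le (by norm_num) hT

lemma pw {a b : ℕ} (h : a ≤ b) : T ^ a ≤ T ^ b := pow_le_pow_right₀ (T1 hT) h

lemma pw' {a b : ℕ} (h : a < b) : 10 ^ 100 * T ^ a ≤ T ^ b :=
  calc 10 ^ 100 * T ^ a ≤ T * T ^ a := by have := T0 hT; gcongr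
    _ = T ^ (a + 1) := by ring
    _ ≤ T ^ b := pw hT h

lemma le_exp (c : ℝ) (hc : c ≤ 10 ^ 100) : c ≤ Real.exp T := by
  have := Real.add_one_le_exp T
  linarith

lemma exp19 : Real.exp (-T ^ 19) ≤ 1 / 100 := by
  rw [Real.exp_neg, one_div]
  refine inv_anti₀ (by norm_num) ((le_exp hT _ (by norm_num)).trans (Real.exp_le_exp.2 ?_))
  simpa using pw hT (a := 1) (b := 19) (by norm_num)

lemma L0 (hΛ : T ^ 21 ≤ Λ) : 0 < Λ := (pow_pos (T0 hT) 21).trans_le hΛ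

lemma Lexp (hΛ : T ^ 21 ≤ Λ) (sm : Λ ^ 1000 ≤ Real.exp (T / 10 ^ 50)) {k : ℕ} (hk : k ≤ 1000) :
    Λ ^ k ≤ Real.exp T :=
  (pow_le_pow_right₀ ((one_le_pow₀ (T1 hT)).trans hΛ) hk).trans
    (sm.trans (Real.exp_le_exp.2 (by have := T0 hT; linarith only [hT])))

lemma om_le (hΛ : Λ ≤ Real.exp T) : Λ * (Real.exp (T ^ 10) * Real.exp (-T ^ 19)) ≤ 1 := by
  refine (mul_le_mul_of_nonneg_right hΛ (by positivity)).trans ?_
  rw [← Real.exp_add, ← Real.exp_add, Real.exp_le_one_iff]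
  have h1 := pw' hT (a := 10) (b := 19) (by norm_num)
  have h2 := pw hT (a := 1) (b := 10) (by norm_num)
  have h3 := pow_pos (T0 hT) 10
  rw [pow_one] at h2
  linarith

lemma inv12 (hΛ : T ^ 21 ≤ Λ) : T ^ 9 / Λ ≤ 1 / 4 := by
  rw [div_le_iff₀ (L0 hT hΛ)]
  have := pw' hT (a := 9) (b := 21) (by norm_num)
  have := pow_pos (T0 hT) 9
  linarith

lemma del_le (hΛ : T ^ 21 ≤ Λ) {a b : ℝ} (hb0 : 0 ≤ b) (hb : b ≤ T ^ 9 / Λ)
    (ha : Λ * a ≤ T / 10 ^ 21) : Λ * (a + 50 * b ^ 2) ≤ T / 10 ^ 21 + 1 := by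
  have t0 := T0 hT
  have l0 := L0 hT hΛ
  have h1 : Λ * (50 * b ^ 2) ≤ Λ * (50 * (T ^ 9 / Λ) ^ 2) := by gcongr
  have h2 : Λ * (50 * (T ^ 9 / Λ) ^ 2) = 50 * T ^ 18 / Λ := by field_simp
  have h3 : 50 * T ^ 18 / Λ ≤ 1 := by
    rw [div_le_one l0]
    have := pw' hT (a := 18) (b := 21) (by norm_num)
    have := pow_pos t0 18
    linarith
  linarith only [ha, h1, h2, h3]

lemma del_one (hΛ : T ^ 21 ≤ Λ) {δ : ℝ} (h : Λ * δ ≤ T / 10 ^ 21 + 1) : δ ≤ 1 := by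
  have t0 := T0 hT
  refine le_of_mul_le_mul_left (h.trans ?_) (L0 hT hΛ)
  have h1 := pw' hT (a := 1) (b := 21) (by norm_num)
  have := T1 hT
  rw [pow_one] at h1
  linarith only [hT, hΛ, h1]

lemma pow_le {x : ℝ} {i : ℕ} (x0 : 0 ≤ x) (hi : (i : ℝ) ≤ Λ)
    (h : Λ * x ≤ T / 10 ^ 21 + 2) : 4 * (1 + x) ^ i ≤ Real.exp (T / 10 ^ 20) := by
  have h1 : (1 + x) ^ i ≤ Real.exp x ^ i := by
    gcongr; have := Real.add_one_le_exp x; linarith only [this]
  have h2 : (4 : ℝ) ≤ Real.exp 3 := by have := Real.add_one_le_exp 3; linarith only [this]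
  have h3 : (i : ℝ) * x ≤ Λ * x := by gcongr
  calc 4 * (1 + x) ^ i ≤ Real.exp 3 * Real.exp x ^ i := by gcongr
    _ = Real.exp (3 + i * x) := by rw [Real.exp_add, Real.exp_nat_mul]
    _ ≤ _ := Real.exp_le_exp.2 (by linarith only [hT, h, h3])

/-- The relative error of one rung. -/
lemma eps_le (h40 : Λ ^ 2 ≤ Real.exp T) :
    36 * Λ ^ 2 * Real.exp (-(T ^ 5 / 20000)) * Real.exp (T / 10 ^ 20) +
    Real.exp (-T ^ 19) * Λ ^ 2 * Real.exp (T / 10 ^ 20) + 3 * Λ ^ 2 * Real.exp (-T ^ 19) ≤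
    Real.exp (-(2 * T ^ 4)) := by
  have t0 := T0 hT
  have t1 := T1 hT
  have h19 : Real.exp (-T ^ 19) ≤ Real.exp (-(T ^ 5 / 20000)) := by
    refine Real.exp_le_exp.2 ?_
    have := pw hT (a := 5) (b := 19) (by norm_num)
    have := pow_pos t0 5
    linarith
  have he : 1 ≤ Real.exp (T / 10 ^ 20) := Real.one_le_exp (by positivity)
  have he' : Real.exp (T / 10 ^ 20) ≤ Real.exp T := Real.exp_le_exp.2 (by linarith only [hT])
  have hc : (40 : ℝ) ≤ Real.exp T := le_exp hT _ (by norm_num)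
  set a := Real.exp (-(T ^ 5 / 20000)) with ha
  have a0 : 0 < a := Real.exp_pos _
  have b1 : Real.exp (-T ^ 19) * Λ ^ 2 * Real.exp (T / 10 ^ 20) ≤
      a * Λ ^ 2 * Real.exp (T / 10 ^ 20) := by gcongr
  have b2 : 3 * Λ ^ 2 * Real.exp (-T ^ 19) * 1 ≤ 3 * Λ ^ 2 * a * Real.exp (T / 10 ^ 20) := by
    gcongr
  have b3 : 40 * Λ ^ 2 * a * Real.exp (T / 10 ^ 20) ≤
      Real.exp T * Real.exp T * a * Real.exp T := by gcongr
  have b4 : Real.exp T * Real.exp T * a * Real.exp T ≤ Real.exp (-(2 * T ^ 4)) := by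
    rw [ha, ← Real.exp_add, ← Real.exp_add, ← Real.exp_add]
    refine Real.exp_le_exp.2 ?_
    have h1 := pw' hT (a := 4) (b := 5) (by norm_num)
    have h2 := pw hT (a := 1) (b := 4) (by norm_num)
    rw [pow_one] at h2
    linarith only [hT, h1, h2]
  linarith

lemma eps_19 : Real.exp (-T ^ 19) ≤ Real.exp (-(2 * T ^ 4)) := by
  refine Real.exp_le_exp.2 ?_
  have := pw' hT (a := 4) (b := 19) (by norm_num)
  have := pow_pos (T0 hT) 4
  linarith

lemma eps_sum {i : ℕ} (hi : (i : ℝ) ≤ Real.exp T) :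
    i * (2 * Real.exp (-(2 * T ^ 4))) ≤ Real.exp (-T ^ 4) := by
  have t0 := T0 hT
  calc _ ≤ Real.exp T * (Real.exp T * Real.exp (-(2 * T ^ 4))) := by
        gcongr
        exact le_exp hT _ (by norm_num)
    _ ≤ _ := by
        rw [← Real.exp_add, ← Real.exp_add]
        refine Real.exp_le_exp.2 ?_
        have h1 := pw' hT (a := 1) (b := 4) (by norm_num)
        rw [pow_one] at h1
        linarith

lemma big_le (h40 : Λ ^ 2 ≤ Real.exp T) :
    40 * Λ ^ 2 * Real.exp (2 * T ^ 10) ≤ 1 / 2 * Real.exp (3 * T ^ 10) := by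
  have t0 := T0 hT
  have : 80 * Λ ^ 2 * Real.exp (2 * T ^ 10) ≤ Real.exp (3 * T ^ 10) :=
    calc _ ≤ Real.exp T * Real.exp T * Real.exp (2 * T ^ 10) := by
          gcongr
          exact le_exp hT _ (by norm_num)
      _ ≤ _ := by
          rw [← Real.exp_add, ← Real.exp_add]
          refine Real.exp_le_exp.2 ?_
          have h1 := pw' hT (a := 1) (b := 10) (by norm_num)
          rw [pow_one] at h1
          linarith
  linarith

end num

end

end Pool.Agent.Work.MP_6bf1e5_an.Hyp.LadA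
end

-- merged part: Pool.Agent.Work.MP_6bf1e5_an.Hyp.Ladder
section
/-!
The ladder.
-/

open Set Complex Filter Topology
open scoped InnerProductSpace ComplexConjugate
open Pool.Agent.Work.MP_6bf1e5_an.B (Z3 R3)
open Pool.Agent.Work.MP_6bf1e5_an.Hyp.Dec

namespace Pool.Agent.Work.MP_6bf1e5_an.Hyp

noncomputable section

/-- A strongly damped ladder driven by `β • p`; `Y` are the slaved amplitudes, `X` is a slack. -/
structure Lad (T Λ κ D N l t0 t1 : ℝ) (L : ℕ) (r n : N3) (mv : Fin 3 → ℝ) (p : ℝ → V)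
    (y : ℕ → ℝ → V) (β X : ℝ → ℝ) (cf : ℕ → ℝ) (Y : ℕ → ℝ → ℝ) (v : ℕ → Z3 → ℝ) : Prop where
  hT : (10 : ℝ) ^ 100 ≤ T
  hΛ : T ^ 21 ≤ Λ
  sm : Λ ^ 1000 ≤ Real.exp (T / 10 ^ 50)
  hL : (L : ℝ) ≤ Λ
  h0 : 0 ≤ t0
  D0 : 0 < D
  N0 : 0 < N
  Nn_le : Nn (fun i => n i + 2 * r i) ≤ Λ ^ 2 * N
  hl : l ≤ Real.exp (-T ^ 19) * D
  drv : ∀ t ∈ Icc t0 t1, Drv T r mv κ (p t)
  β0 : ∀ t ∈ Icc t0 t1, 0 < β t
  cf0 : ∀ i, 0 < cf i
  small : ∀ i, ∀ t ∈ Icc t0 t1, cf i * β t ≤ Real.exp (-T ^ 19) * D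
  Y0 : ∀ t, Y 0 t = β t
  Ys : ∀ i t, D * Y (i + 1) t = cf (i + 1) * β t * Y i t
  dY : ∀ i ≤ L, ∀ t ∈ Icc t0 t1, ∃ Y', HD (Y i) Y' t ∧ 0 ≤ Y' ∧
    Y' ≤ Real.exp (-T ^ 19) * D * Y i t
  dX : ∀ t ∈ Icc t0 t1, 0 < X t ∧ ∃ X', HD X X' t ∧ -(D / 10 * X t) ≤ X'
  y0 : ∀ t ∈ Icc t0 t1, y 0 t = (β t : ℂ) • tau (p t)
  ny0 : ∀ t ∈ Icc t0 t1, ‖p t‖ ≤ 2 / N
  sp : ∀ i t, Sp n (y (i + 1) t)
  lay : ∀ i, Lay n l (v i)
  init : ∀ i < L, ‖y (i + 1) t0‖ ≤ X t0 / N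
  eq : ∀ i < L, ∀ t ∈ Icc t0 t1, ∃ e,
    ‖e‖ ≤ Real.exp (-T ^ 19) * (D * Y (i + 1) t / N) + D / 10 * (X t / N) ∧
    HD (y (i + 1)) (((cf (i + 1) * β t : ℝ) : ℂ) • pj n (p t * y i t) - (D : ℂ) • y (i + 1) t
      - mulr (v (i + 1)) (y (i + 1) t) + e) t

namespace Lad

variable {T Λ κ D N l t0 t1 : ℝ} {L : ℕ} {r n : N3} {mv : Fin 3 → ℝ} {p : ℝ → V}
  {y : ℕ → ℝ → V} {β X : ℝ → ℝ} {cf : ℕ → ℝ} {Y : ℕ → ℝ → ℝ} {v : ℕ → Z3 → ℝ}
  (H : Lad T Λ κ D N l t0 t1 L r n mv p y β X cf Y v)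

include H

open LadA

lemma Ypos (i : ℕ) {t : ℝ} (ht : t ∈ Icc t0 t1) : 0 < Y i t := by
  induction i with
  | zero => rw [H.Y0]; exact H.β0 t ht
  | succ i ih =>
    have h : 0 < D * Y (i + 1) t := by
      rw [H.Ys]; exact mul_pos (mul_pos (H.cf0 _) (H.β0 t ht)) ih
    exact (mul_pos_iff_of_pos_left H.D0).1 h

lemma hY {i : ℕ} (hi : i ≤ L) : ∀ t ∈ Icc t0 t1, 0 ≤ Y i t ∧ ∃ Y', HD (Y i) Y' t ∧ 0 ≤ Y' :=
  fun t ht => ⟨(H.Ypos i ht).le, (H.dY i hi t ht).imp fun _ h => ⟨h.1, h.2.1⟩⟩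

lemma Y_le (i : ℕ) {t : ℝ} (ht : t ∈ Icc t0 t1) : Y i t ≤ β t := by
  induction i with
  | zero => rw [H.Y0]
  | succ i ih =>
    refine le_trans (le_of_mul_le_mul_left ?_ H.D0) ih
    rw [H.Ys]
    refine mul_le_mul_of_nonneg_right ((H.small _ t ht).trans ?_) (H.Ypos i ht).le
    have := mul_le_mul_of_nonneg_right (exp19 H.hT) H.D0.le
    have := H.D0
    linarith

lemma cast_le {i : ℕ} (hi : i ≤ L) : (i : ℝ) ≤ Λ := le_trans (by exact_mod_cast hi) H.hL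

lemma L1 : Λ ≤ Real.exp T := by simpa using Lexp H.hT H.hΛ H.sm (k := 1) (by norm_num)

lemma L2 : Λ ^ 2 ≤ Real.exp T := Lexp H.hT H.hΛ H.sm (by norm_num)

omit H in
lemma sp_err {f : ℝ → V} {t : ℝ} {c d : ℂ} {g e : V} {w : Z3 → ℝ} (ht : 0 ≤ t)
    (hs : ∀ t, Sp n (f t)) (h : HD f (c • pj n g - d • f t - mulr w (f t) + e) t) : Sp n e := by
  have := (HD.sp h ht hs).sub
    ((((sp_pj n g).smul c).sub ((hs t).smul d)).sub ((hs t).mulr w))
  rwa [add_sub_cancel_left] at this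

lemma wt_le' (a : Fin 3) {u : ℝ} (h1 : |u| * r a ≤ T ^ 9 / Λ)
    (h1' : |u| * rot3 r a ≤ T ^ 9 / Λ) (h3 : |u| * n a ≤ T ^ 10) {δ : ℝ} (δ0 : 0 ≤ δ)
    (δ1 : δ ≤ 1) (hδ : |u| * mv a + 50 * (u * r a) ^ 2 ≤ δ) :
    ∀ i ≤ L, ∀ t ∈ Icc t0 t1, ‖wt (Pi.single a u) (y i t)‖ ≤
      4 * (1 + δ + Real.exp (T ^ 10) * Real.exp (-T ^ 19)) ^ i * N⁻¹ * Y i t +
        Real.exp (2 * T ^ 10) * N⁻¹ * X t := by
  have hT := H.hT
  have M0 : 0 < N⁻¹ := inv_pos.2 H.N0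
  have E12 : Real.exp (T ^ 10) ≤ Real.exp (2 * T ^ 10) :=
    Real.exp_le_exp.2 (by have := pow_pos (T0 hT) 10; linarith only [this])
  have wn : ∀ f : V, Sp n f → ‖wt (Pi.single a u) f‖ ≤ Real.exp (T ^ 10) * ‖f‖ := fun f hf =>
    (hf.norm_wt_le _).trans (mul_le_mul_of_nonneg_right
      (Real.exp_le_exp.2 (by rw [sum_single, mul_comm]; exact h3)) (norm_nonneg _))
  intro i
  induction i with
  | zero =>
    intro _ t ht
    have b0 := H.β0 t ht
    have x0 := (H.dX t ht).1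
    have e1 := ((H.drv t ht).tau.supp.norm_wt_le (Pi.single a u))
    rw [sum_single, norm_tau] at e1
    have e2 : Real.exp (((2 * rot3 r a : ℕ) : ℝ) * |u|) ≤ 2 := by
      have := inv12 hT H.hΛ
      have h2 : ((2 * rot3 r a : ℕ) : ℝ) * |u| ≤ 1 / 2 := by push_cast; linarith only [h1', this]
      rw [← Real.le_log_iff_exp_le (by norm_num)]
      have := Real.log_two_gt_d9
      linarith only [h2, this]
    have e3 : ‖wt (Pi.single a u) (tau (p t))‖ ≤ 2 * (2 / N) :=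
      e1.trans (mul_le_mul e2 (H.ny0 t ht) (norm_nonneg _) (by norm_num))
    rw [H.y0 t ht, map_smul, norm_smul, Complex.norm_real, Real.norm_of_nonneg b0.le, H.Y0]
    have e4 := mul_le_mul_of_nonneg_left e3 b0.le
    have e5 : 0 ≤ Real.exp (2 * T ^ 10) * N⁻¹ * X t := by positivity
    rw [div_eq_mul_inv] at e4
    linarith only [e4, e5]
  | succ i ih =>
    intro hi
    have ih := ih (Nat.le_of_succ_le hi)
    have ω0 : 0 ≤ Real.exp (T ^ 10) * Real.exp (-T ^ 19) := by positivity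
    have P1 : 1 ≤ (1 + δ + Real.exp (T ^ 10) * Real.exp (-T ^ 19)) ^ i :=
      one_le_pow₀ (by linarith only [δ0, ω0])
    have B0 : 0 < Real.exp (2 * T ^ 10) * N⁻¹ := by positivity
    refine step (B := 1 / 5 * (Real.exp (2 * T ^ 10) * N⁻¹)) H.h0 H.D0 (by positivity) B0
      (by linarith only [B0]) ?_ (H.hY hi) H.dX fun t ht => ?_
    · refine (wn _ (H.sp i t0)).trans ?_
      have := H.init i hi
      rw [div_eq_mul_inv, mul_comm] at this
      rw [mul_assoc]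
      exact mul_le_mul E12 this (norm_nonneg _) (Real.exp_pos _).le
    obtain ⟨e, he, hd⟩ := H.eq i hi t ht
    have t0' : 0 ≤ t := H.h0.trans ht.1
    have c0 : 0 < cf (i + 1) * β t := mul_pos (H.cf0 _) (H.β0 t ht)
    refine ⟨((cf (i + 1) * β t : ℝ) : ℂ) •
        pj n (wt (Pi.single a u) (p t) * wt (Pi.single a u) (y i t)) + wt (Pi.single a u) e,
      mulr (v (i + 1)) (wt (Pi.single a u) (y (i + 1) t)), ?_, (H.lay _).re_inner _, ?_⟩
    · refine (HD.wt3 hd t0' (H.sp i) _).congr_deriv ?_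
      rw [map_add, map_sub, map_sub, map_smul, map_smul, wt_pj, wt_mul, wt_mulr]
      abel
    have f1 : ‖pj n (wt (Pi.single a u) (p t) * wt (Pi.single a u) (y i t))‖ ≤
        (1 + δ) * ‖wt (Pi.single a u) (y i t)‖ :=
      (norm_pj_le _ _).trans (((H.drv t ht).norm_wt_mul_le a (h1.trans (inv12 hT H.hΛ)) _).trans
        (mul_le_mul_of_nonneg_right (by linarith only [hδ]) (norm_nonneg _)))
    have f2 := f1.trans (mul_le_mul_of_nonneg_left (ih t ht) (by linarith only [δ0]))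
    have f3 := (wn e (sp_err t0' (H.sp i) hd)).trans
      (mul_le_mul_of_nonneg_left he (Real.exp_pos _).le)
    refine (norm_add_le _ _).trans ?_
    rw [norm_smul, Complex.norm_real, Real.norm_of_nonneg c0.le, pow_succ _ i]
    rw [div_eq_mul_inv (D * _), div_eq_mul_inv (X t)] at f3
    exact (add_le_add (mul_le_mul_of_nonneg_left f2 c0.le) f3).trans
      (wt_arith H.D0 M0 (H.Ys i t) (H.Ypos _ ht).le (H.dX t ht).1.le (H.small _ t ht)
        (Real.exp_pos _).le (exp19 hT) δ0 δ1 (Real.exp_pos _).le E12 P1)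

omit H in
lemma del_spec (hT : (10 : ℝ) ^ 100 ≤ T) (hΛ : T ^ 21 ≤ Λ) {q : V} (hq : Drv T r mv κ q) (a : Fin 3) {u : ℝ}
    (h1 : |u| * r a ≤ T ^ 9 / Λ) (h2 : Λ * (|u| * mv a) ≤ T / 10 ^ 21) :
    0 ≤ |u| * mv a + 50 * (u * r a) ^ 2 ∧
      Λ * (|u| * mv a + 50 * (u * r a) ^ 2) ≤ T / 10 ^ 21 + 1 := by
  have m0 : 0 ≤ mv a := (abs_nonneg _).trans (hq.mom a 0)
  refine ⟨by positivity, ?_⟩
  have := del_le hT hΛ (by positivity) h1 h2
  rwa [mul_pow |u|, sq_abs, ← mul_pow] at this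

/-- The weighted estimate. -/
theorem wt_le (a : Fin 3) {u : ℝ} (h1 : |u| * r a ≤ T ^ 9 / Λ) (h1' : |u| * rot3 r a ≤ T ^ 9 / Λ)
    (h2 : Λ * (|u| * mv a) ≤ T / 10 ^ 21) (h3 : |u| * n a ≤ T ^ 10) :
    ∀ i ≤ L, ∀ t ∈ Icc t0 t1, ‖wt (Pi.single a u) (y i t)‖ ≤
      (Real.exp (T / 10 ^ 20) * Y i t + Real.exp (2 * T ^ 10) * X t) / N := by
  intro i hi t ht
  have hT := H.hT
  obtain ⟨δ0, hδ⟩ := del_spec hT H.hΛ (H.drv t ht) a h1 h2
  refine (H.wt_le' a h1 h1' h3 δ0 (del_one hT H.hΛ hδ) le_rfl i hi t ht).trans ?_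
  have ω := om_le hT H.L1
  have e := pow_le hT (x := |u| * mv a + 50 * (u * r a) ^ 2 +
    Real.exp (T ^ 10) * Real.exp (-T ^ 19)) (by positivity) (H.cast_le hi) (by linarith only [hδ, ω])
  rw [← add_assoc] at e
  have := mul_le_mul_of_nonneg_right e (mul_pos (inv_pos.2 H.N0) (H.Ypos i ht)).le
  rw [div_eq_mul_inv]
  linarith only [this]

/-- Weights which see the boundary of the box. -/
def Wts (T Λ : ℝ) (r n : N3) (mv u : Fin 3 → ℝ) : Prop := ∀ a, 0 ≤ u a ∧ u a * r a ≤ T ^ 9 / Λ ∧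
  u a * rot3 r a ≤ T ^ 9 / Λ ∧ Λ * (u a * mv a) ≤ T / 10 ^ 21 ∧ u a * n a ≤ T ^ 10 ∧
  T ^ 5 / 20000 ≤ u a * (n a + 1)

lemma sp_y {u : Fin 3 → ℝ} (hu : Wts T Λ r n mv u) (i : ℕ) {t : ℝ} (ht : t ∈ Icc t0 t1) :
    Sp n (y i t) := by
  rcases i with _ | i
  · rw [H.y0 t ht]
    refine (((H.drv t ht).tau.supp).mono fun a => ?_).smul _
    obtain ⟨u0, -, u2, -, -, u5⟩ := hu a
    by_contra hc
    have h1 : (n a : ℝ) + 1 ≤ 2 * rot3 r a := by exact_mod_cast Nat.succ_le_of_lt (not_le.1 hc)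
    have h2 := mul_le_mul_of_nonneg_left h1 u0
    have h3 := inv12 H.hT H.hΛ
    have h4 := pw' H.hT (a := 0) (b := 5) (by norm_num)
    rw [pow_zero] at h4
    linarith only [u2, u5, h2, h3, h4]
  · exact H.sp i t

lemma Nn_le' : Nn n ≤ Λ ^ 2 * N := by
  refine le_trans ?_ H.Nn_le
  have := Hyp.Nn_le (m := n) (n := fun i => n i + 2 * r i) (c := 1) zero_le_one fun i => by
    push_cast
    have : (0 : ℝ) ≤ r i := Nat.cast_nonneg _
    linarith
  simpa using this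

lemma norm_le {i : ℕ} (hi : i ≤ L) {t : ℝ} (ht : t ∈ Icc t0 t1) :
    ‖y i t‖ ≤ (Real.exp (T / 10 ^ 20) * Y i t + Real.exp (2 * T ^ 10) * X t) / N := by
  have t0' := T0 H.hT
  have l0 := L0 H.hT H.hΛ
  have := H.wt_le 0 (u := 0) (by simp; positivity) (by simp; positivity)
    (by simp; positivity) (by simp; positivity) i hi t ht
  rwa [wt_single_zero] at this

lemma wt_mul_le {i : ℕ} (hi : i ≤ L) {t : ℝ} (ht : t ∈ Icc t0 t1) (a : Fin 3) {u : ℝ}
    (h1 : |u| * r a ≤ T ^ 9 / Λ) (h1' : |u| * rot3 r a ≤ T ^ 9 / Λ)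
    (h2 : Λ * (|u| * mv a) ≤ T / 10 ^ 21) (h3 : |u| * n a ≤ T ^ 10) :
    ‖wt (Pi.single a u) (p t * y i t)‖ ≤
      2 * ((Real.exp (T / 10 ^ 20) * Y i t + Real.exp (2 * T ^ 10) * X t) / N) := by
  have hT := H.hT
  obtain ⟨-, hδ⟩ := del_spec hT H.hΛ (H.drv t ht) a h1 h2
  have := del_one hT H.hΛ hδ
  rw [wt_mul]
  exact ((H.drv t ht).norm_wt_mul_le a (h1.trans (inv12 hT H.hΛ)) _).trans
    (mul_le_mul (by linarith only [this]) (H.wt_le a h1 h1' h2 h3 i hi t ht) (norm_nonneg _) (by norm_num))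

lemma tail_le {u : Fin 3 → ℝ} (hu : Wts T Λ r n mv u) {i : ℕ} (hi : i ≤ L) {t : ℝ}
    (ht : t ∈ Icc t0 t1) : l1 (p t * y i t - pj n (p t * y i t)) ≤
      36 * Λ ^ 2 * Real.exp (-(T ^ 5 / 20000)) *
        (Real.exp (T / 10 ^ 20) * Y i t + Real.exp (2 * T ^ 10) * X t) := by
  have t0' := T0 H.hT
  have N0 := H.N0
  have y0 := H.Ypos i ht
  have x0 := (H.dX t ht).1
  set W := Real.exp (T / 10 ^ 20) * Y i t + Real.exp (2 * T ^ 10) * X t with hW
  have W0 : 0 < W := by positivity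
  have s1 : Sp (fun i => n i + 2 * r i) (p t * y i t - pj n (p t * y i t)) :=
    (((H.drv t ht).supp.mul (H.sp_y hu i ht)).mono fun a => by simp [add_comm]).sub
      ((sp_pj _ _).mono fun a => Nat.le_add_right _ _)
  have s2 : ‖p t * y i t - pj n (p t * y i t)‖ ≤
      ∑ _a : Fin 3, Real.exp (-(T ^ 5 / 20000)) * (2 * (W / N) + 2 * (W / N)) := by
    refine (norm_tail_le n _ fun a => (hu a).1).trans (Finset.sum_le_sum fun a _ => ?_)
    obtain ⟨u0, u1, u2, u3, u4, u5⟩ := hu a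
    have e1 : |u a| = u a := abs_of_nonneg u0
    have e2 : |-u a| = u a := by rw [abs_neg, e1]
    refine mul_le_mul (Real.exp_le_exp.2 (by linarith only [u5])) (add_le_add ?_ ?_) (by positivity)
      (Real.exp_pos _).le
    · exact H.wt_mul_le hi ht a (by rwa [e1]) (by rwa [e1]) (by rwa [e1]) (by rwa [e1])
    · exact H.wt_mul_le hi ht a (by rwa [e2]) (by rwa [e2]) (by rwa [e2]) (by rwa [e2])
  rw [Finset.sum_const, Finset.card_univ, Fintype.card_fin, nsmul_eq_mul] at s2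
  refine s1.l1_le.trans ((mul_le_mul (mul_le_mul_of_nonneg_left H.Nn_le (by norm_num)) s2
    (norm_nonneg _) (by positivity)).trans (le_of_eq ?_))
  push_cast
  field_simp
  ring

/-- The equation of the symbols. -/
lemma sym_eq {u : Fin 3 → ℝ} (hu : Wts T Λ r n mv u) (x : R3) {i : ℕ} (hi : i < L) {t : ℝ}
    (ht : t ∈ Icc t0 t1) : ∃ g : ℂ,
      ‖g‖ ≤ D * (Real.exp (-(2 * T ^ 4)) * Y (i + 1) t + 1 / 2 * Real.exp (3 * T ^ 10) * X t) ∧
      HD (fun t => ev x (y (i + 1) t))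
        (((cf (i + 1) * β t : ℝ) : ℂ) * (ev x (p t) * ev x (y i t)) -
          (D : ℂ) * ev x (y (i + 1) t) + g) t := by
  have hT := H.hT
  have t0' := T0 hT
  have N0 := H.N0
  have D0 := H.D0
  have y1 := H.Ypos (i + 1) ht
  have x0 := (H.dX t ht).1
  obtain ⟨e, he, hd⟩ := H.eq i hi t ht
  have t0'' : 0 ≤ t := H.h0.trans ht.1
  have c0 : 0 < cf (i + 1) * β t := mul_pos (H.cf0 _) (H.β0 t ht)
  refine ⟨ev x e - ((cf (i + 1) * β t : ℝ) : ℂ) * ev x (p t * y i t - pj n (p t * y i t))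
    - ev x (mulr (v (i + 1)) (y (i + 1) t)), ?_, ?_⟩
  swap
  · refine (HD.ev3 hd t0'' (H.sp i) x).congr_deriv ?_
    simp only [map_add, map_sub, map_smul, map_mul, smul_eq_mul]
    ring
  have hc := H.small (i + 1) t ht
  have hY := H.Ys i t
  have g1 : ‖ev x e‖ ≤
      3 * Λ ^ 2 * (Real.exp (-T ^ 19) * (D * Y (i + 1) t) + D / 10 * X t) := by
    refine (norm_ev_le _ _).trans ((sp_err t0'' (H.sp i) hd).l1_le.trans
      ((mul_le_mul (mul_le_mul_of_nonneg_left H.Nn_le' (by norm_num)) he (norm_nonneg _)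
        (by positivity)).trans (le_of_eq ?_)))
    field_simp
  have g2 := mul_le_mul_of_nonneg_left ((norm_ev_le x _).trans (H.tail_le hu hi.le ht)) c0.le
  have g3 : ‖ev x (mulr (v (i + 1)) (y (i + 1) t))‖ ≤ Real.exp (-T ^ 19) * D * Λ ^ 2 *
      (Real.exp (T / 10 ^ 20) * Y (i + 1) t + Real.exp (2 * T ^ 10) * X t) := by
    refine (norm_ev_le _ _).trans (((H.lay (i + 1)).l1_le (H.sp i t)).trans
      ((mul_le_mul (mul_le_mul H.hl H.Nn_le' (Nn_pos _).le (by positivity)) (H.norm_le hi ht)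
        (norm_nonneg _) (by positivity)).trans (le_of_eq ?_)))
    field_simp
  refine (norm_sub_le _ _).trans ((add_le_add_left (norm_sub_le _ _) _).trans ?_)
  rw [norm_mul, Complex.norm_real, Real.norm_of_nonneg c0.le]
  have k1 := mul_le_mul_of_nonneg_right (eps_le hT H.L2) (mul_pos D0 y1).le
  have k2 := mul_le_mul_of_nonneg_right (big_le hT H.L2) (mul_pos D0 x0).le
  have e19 := exp19 hT
  have ea : Real.exp (-(T ^ 5 / 20000)) ≤ 1 := Real.exp_le_one_iff.2 (neg_nonpos.2 (by positivity))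
  have eb : 1 ≤ Real.exp (2 * T ^ 10) := Real.one_le_exp (by positivity)
  have cD : cf (i + 1) * β t ≤ D := by
    have := mul_le_mul_of_nonneg_right e19 D0.le
    linarith only [c0, hc, this]
  have := g_arith (E := Real.exp (T / 10 ^ 20)) D0 hY x0.le cD (sq_nonneg Λ)
    (Real.exp_pos _).le ea e19 eb
  linarith only [g1, g2, g3, k1, k2, this]

lemma init_ev {i : ℕ} (hi : i < L) (h01 : t0 ≤ t1) (x : R3) :
    ‖ev x (y (i + 1) t0)‖ ≤ 1 / 2 * Real.exp (3 * T ^ 10) * X t0 := by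
  have t0' := T0 H.hT
  have N0 := H.N0
  have x0 := (H.dX t0 ⟨le_rfl, h01⟩).1
  have e1 : ‖ev x (y (i + 1) t0)‖ ≤ 3 * Λ ^ 2 * X t0 := by
    refine (norm_ev_le _ _).trans ((H.sp i t0).l1_le.trans
      ((mul_le_mul (mul_le_mul_of_nonneg_left H.Nn_le' (by norm_num)) (H.init i hi)
        (norm_nonneg _) (by positivity)).trans (le_of_eq ?_)))
    field_simp
  refine e1.trans (mul_le_mul_of_nonneg_right (le_trans ?_ (big_le H.hT H.L2)) x0.le)
  have eb : 1 ≤ Real.exp (2 * T ^ 10) := Real.one_le_exp (by positivity)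
  have := mul_le_mul_of_nonneg_left eb (sq_nonneg Λ)
  have := sq_nonneg Λ
  linarith

lemma sup_le' {u : Fin 3 → ℝ} (hu : Wts T Λ r n mv u) {x : R3} (hx : x ∈ cube) {ϑ : ℝ}
    (h0 : 0 ≤ ϑ) (h1 : ϑ ≤ 1) (hϑ : ∀ t ∈ Icc t0 t1, ‖ev x (p t)‖ ≤ ϑ) (h01 : t0 ≤ t1) :
    ∀ i ≤ L, ∀ t ∈ Icc t0 t1, ‖ev x (y i t)‖ ≤
      (ϑ ^ i + i * Real.exp (-(2 * T ^ 4))) * Y i t + Real.exp (3 * T ^ 10) * X t := by
  have E0 := Real.exp_pos (3 * T ^ 10)
  have ε0 := Real.exp_pos (-(2 * T ^ 4))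
  intro i
  induction i with
  | zero =>
    intro _ t ht
    have b0 := H.β0 t ht
    have x0 := (H.dX t ht).1
    rw [H.y0 t ht, map_smul, norm_smul, Complex.norm_real, Real.norm_of_nonneg b0.le, H.Y0]
    have e1 := mul_le_mul_of_nonneg_left ((H.drv t ht).tau.ev_le hx) b0.le
    have e2 := mul_pos E0 x0
    simp only [pow_zero, Nat.cast_zero, zero_mul, add_zero]
    linarith only [e1, e2]
  | succ i ih =>
    intro hi
    have ih := ih (Nat.le_of_succ_le hi)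
    refine step (B := 51 / 100 * Real.exp (3 * T ^ 10)) H.h0 H.D0 (by positivity) E0
      (by linarith only [E0]) ?_ (H.hY hi) H.dX fun t ht => ?_
    · have := H.init_ev hi h01 x
      have := mul_pos E0 (H.dX t0 ⟨le_rfl, h01⟩).1
      linarith
    obtain ⟨g, hg, hd⟩ := H.sym_eq hu x hi ht
    have c0 : 0 < cf (i + 1) * β t := mul_pos (H.cf0 _) (H.β0 t ht)
    have y0 := H.Ypos i ht
    have x0 := (H.dX t ht).1
    refine ⟨((cf (i + 1) * β t : ℝ) : ℂ) * (ev x (p t) * ev x (y i t)) + g, 0,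
      hd.congr_deriv (by rw [smul_eq_mul]; ring), by simp, (norm_add_le _ _).trans ?_⟩
    rw [norm_mul, norm_mul, Complex.norm_real, Real.norm_of_nonneg c0.le]
    have f1 : ‖ev x (p t)‖ * ‖ev x (y i t)‖ ≤
        (ϑ ^ (i + 1) + i * Real.exp (-(2 * T ^ 4))) * Y i t + Real.exp (3 * T ^ 10) * X t := by
      refine (mul_le_mul (hϑ t ht) (ih t ht) (norm_nonneg _) h0).trans ?_
      have := mul_le_mul_of_nonneg_right h1 (show 0 ≤ i * Real.exp (-(2 * T ^ 4)) * Y i t +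
        Real.exp (3 * T ^ 10) * X t by positivity)
      rw [pow_succ ϑ]
      linarith only [this]
    have f2 := (mul_le_mul_of_nonneg_left f1 c0.le).trans
      (s_arith H.D0 (H.Ys i t) x0.le (H.small _ t ht) (exp19 H.hT) E0.le)
    push_cast
    linarith only [hg, f2]

/-- The upper bound of the symbols. -/
theorem sup_le {u : Fin 3 → ℝ} (hu : Wts T Λ r n mv u) {x : R3} (hx : x ∈ cube) {ϑ : ℝ}
    (h1 : ϑ ≤ 1) (hϑ : ∀ t ∈ Icc t0 t1, ‖ev x (p t)‖ ≤ ϑ) :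
    ∀ i ≤ L, ∀ t ∈ Icc t0 t1, ‖ev x (y i t)‖ ≤
      (ϑ ^ i + Real.exp (-T ^ 4)) * Y i t + Real.exp (3 * T ^ 10) * X t := by
  intro i hi t ht
  refine (H.sup_le' hu hx ((norm_nonneg _).trans (hϑ t ht)) h1 hϑ (ht.1.trans ht.2) i hi t
    ht).trans (add_le_add_left (mul_le_mul_of_nonneg_right ?_ (H.Ypos i ht).le) _)
  have := eps_sum H.hT ((H.cast_le hi).trans H.L1)
  have : 0 ≤ i * Real.exp (-(2 * T ^ 4)) := by positivity
  linarith

lemma near_aux {u : Fin 3 → ℝ} (hu : Wts T Λ r n mv u) {x : R3} (hx : x ∈ cube)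
    (hb : β t0 ≤ X t0) {η0 η : ℝ} (h0 : 0 ≤ η0) (h1 : 0 ≤ η) (h01 : t0 ≤ t1)
    (hη : ∀ t ∈ Icc t0 t1, ‖ev x (p t) - 1‖ ≤ η ∧ ‖ev x (tau (p t)) - 1‖ ≤ η0) :
    ∀ i ≤ L, ∀ t ∈ Icc t0 t1, ‖ev x (y i t) - Y i t‖ ≤
      (η0 + i * η + i * (2 * Real.exp (-(2 * T ^ 4)))) * Y i t +
        Real.exp (3 * T ^ 10) * X t := by
  have E0 := Real.exp_pos (3 * T ^ 10)
  have ε0 := Real.exp_pos (-(2 * T ^ 4))
  intro i
  induction i with
  | zero =>
    intro _ t ht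
    have b0 := H.β0 t ht
    have x0 := (H.dX t ht).1
    rw [H.y0 t ht, map_smul, H.Y0, smul_eq_mul, ← mul_sub_one, norm_mul, Complex.norm_real,
      Real.norm_of_nonneg b0.le]
    have e1 := mul_le_mul_of_nonneg_left (hη t ht).2 b0.le
    have e2 := mul_pos E0 x0
    simp only [Nat.cast_zero, zero_mul, add_zero]
    linarith only [e1, e2]
  | succ i ih =>
    intro hi
    have ih := ih (Nat.le_of_succ_le hi)
    refine step (a := fun t => ev x (y (i + 1) t) - Y (i + 1) t)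
      (B := 51 / 100 * Real.exp (3 * T ^ 10)) H.h0 H.D0 (by positivity) E0
      (by linarith only [E0]) ?_ (H.hY hi) H.dX fun t ht => ?_
    · have ht : t0 ∈ Icc t0 t1 := ⟨le_rfl, h01⟩
      refine (norm_sub_le _ _).trans ?_
      rw [Complex.norm_real, Real.norm_of_nonneg (H.Ypos _ ht).le]
      have e1 := H.init_ev hi h01 x
      have e2 := H.Y_le (i + 1) ht
      have e3 : 2 ≤ Real.exp (3 * T ^ 10) := by
        have := Real.add_one_le_exp (3 * T ^ 10)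
        have := one_le_pow₀ (n := 10) (T1 H.hT)
        linarith
      have := mul_le_mul_of_nonneg_right e3 (H.dX t0 ht).1.le
      linarith only [hb, e1, e2, this]
    obtain ⟨g, hg, hd⟩ := H.sym_eq hu x hi ht
    obtain ⟨Y', dY, Y0, Y1⟩ := H.dY (i + 1) hi t ht
    have c0 : 0 < cf (i + 1) * β t := mul_pos (H.cf0 _) (H.β0 t ht)
    have y1 := mul_pos H.D0 (H.Ypos (i + 1) ht)
    have x0 := (H.dX t ht).1
    refine ⟨((cf (i + 1) * β t : ℝ) : ℂ) * (ev x (p t) * (ev x (y i t) - Y i t)) +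
      ((D * Y (i + 1) t : ℝ) : ℂ) * (ev x (p t) - 1) + g - (Y' : ℂ), 0,
      (hd.fun_sub dY.ofReal).congr_deriv ?_, by simp, ?_⟩
    · have e : (D : ℂ) * (Y (i + 1) t : ℂ) = cf (i + 1) * β t * Y i t := by
        exact_mod_cast H.Ys i t
      rw [smul_eq_mul]
      push_cast
      linear_combination (-ev x (p t)) * e
    refine (norm_sub_le _ _).trans ((add_le_add_left norm_add₃_le _).trans ?_)
    rw [norm_mul, norm_mul, norm_mul, Complex.norm_real, Complex.norm_real, Complex.norm_real,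
      Real.norm_of_nonneg c0.le, Real.norm_of_nonneg y1.le, Real.norm_of_nonneg Y0]
    have f1 := (mul_le_of_le_one_left (norm_nonneg _) ((H.drv t ht).ev_le hx)).trans (ih t ht)
    have f2 := (mul_le_mul_of_nonneg_left f1 c0.le).trans
      (s_arith H.D0 (H.Ys i t) x0.le (H.small _ t ht) (exp19 H.hT) E0.le)
    have f3 := mul_le_mul_of_nonneg_left (hη t ht).1 y1.le
    have f4 := mul_le_mul_of_nonneg_right (eps_19 H.hT) y1.le
    push_cast
    linarith only [hg, Y1, f2, f3, f4]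

/-- The symbols at low frequencies. -/
theorem near_le' {u : Fin 3 → ℝ} (hu : Wts T Λ r n mv u) {x : R3} (hx : x ∈ cube)
    (hb : β t0 ≤ X t0) {η0 η : ℝ}
    (hη : ∀ t ∈ Icc t0 t1, ‖ev x (p t) - 1‖ ≤ η ∧ ‖ev x (tau (p t)) - 1‖ ≤ η0) :
    ∀ i ≤ L, ∀ t ∈ Icc t0 t1, ‖ev x (y i t) - Y i t‖ ≤
      (η0 + i * η + Real.exp (-T ^ 4)) * Y i t + Real.exp (3 * T ^ 10) * X t := by
  intro i hi t ht
  refine (H.near_aux hu hx hb ((norm_nonneg _).trans (hη t ht).2)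
    ((norm_nonneg _).trans (hη t ht).1) (ht.1.trans ht.2) hη i hi t
    ht).trans (add_le_add_left (mul_le_mul_of_nonneg_right ?_ (H.Ypos i ht).le) _)
  have := eps_sum H.hT ((H.cast_le hi).trans H.L1)
  linarith only [this]

end Lad

end

end Pool.Agent.Work.MP_6bf1e5_an.Hyp
end

-- merged part: Pool.Agent.Work.MP_6bf1e5_an.Hyp.SeedA
section
/-!
The current ladder satisfies the hypotheses of the ladder estimates.
-/

open Set Complex Filter Topology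
open scoped InnerProductSpace ComplexConjugate
open Pool.Agent.Work.MP_6bf1e5_an.B (Z3 R3)
open Pool.Agent.Work.MP_6bf1e5_an.Hyp.Dec

namespace Pool.Agent.Work.MP_6bf1e5_an.Hyp

noncomputable section

namespace Geo

variable (G : Geo)

lemma sd_pow_exp {k : ℕ} (hk : k ≤ 1000) {y : ℝ} (hy : G.t / 10 ^ 50 ≤ y) :
    G.t ^ k ≤ Real.exp y :=
  (G.pow_le_exp hk).trans (Real.exp_le_exp.mpr hy)

lemma sd_L_exp {k : ℕ} (hk : k ≤ 1000) {y : ℝ} (hy : G.t / 10 ^ 50 ≤ y) :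
    G.L ^ k ≤ Real.exp y :=
  (G.L_pow_le_exp hk).trans (Real.exp_le_exp.mpr hy)

lemma sd_t_le {k : ℕ} (hk : 1 ≤ k) : G.t ≤ G.t ^ k := by
  simpa using G.pow_le hk

lemma sd_gap : G.t ≤ G.Q / 2 - G.t ^ 19 := by
  have h1 := G.pow_lt (show 19 < 21 by norm_num)
  have h2 := G.sd_t_le (show 1 ≤ 19 by norm_num)
  have h3 := G.Q_lo
  have := G.t_pos
  linarith

lemma sd_expD (j : ℕ) : Real.exp (-G.t ^ 19) * G.D j =
    Real.exp (G.Q / 2 - G.t ^ 19) * G.lm j := by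
  rw [D, ← mul_assoc, ← Real.exp_add]; congr 2; ring

lemma sd_pow_D {k : ℕ} (hk : k ≤ 1000) (j : ℕ) :
    G.L ^ k * G.lm j ≤ Real.exp (-G.t ^ 19) * G.D j := by
  rw [sd_expD]
  have := G.t_pos
  have := G.lm_pos j
  gcongr
  exact G.sd_L_exp hk (le_trans (by linarith) G.sd_gap)

lemma sd_Ga_le {k : ℕ} (hk : k ≤ 19) : 10 ^ 100 * (G.t ^ k * G.Ga) ≤ G.L ^ 3 := by
  have h1 := G.pow_lt (show k < 20 by omega)
  have h2 := mul_le_mul_of_nonneg_right h1 G.Ga_pos.le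
  have h3 := G.Ga_hi
  linarith only [h2, h3]

lemma sd_L_lt {a b : ℕ} (h : a < b) : 10 ^ 100 * G.L ^ a ≤ G.L ^ b := by
  have h1 := G.L_pow_lt h
  have h2 := one_le_pow₀ (n := 20) G.one_le_t
  have h3 : 0 < G.L ^ a := pow_pos G.L_pos _
  nlinarith only [h1, h2, h3]

lemma sd_W_pos : 0 < G.W := (pow_pos G.t_pos _).trans_le G.W_lo

lemma sd_exp_Q : 1 ≤ Real.exp (-(G.Q / 3)) * Real.exp (G.t * G.Q) := by
  rw [← Real.exp_add]
  refine Real.one_le_exp ?_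
  have h1 := G.Q_pos
  have h2 := mul_le_mul_of_nonneg_right G.one_le_t h1.le
  linarith

lemma sd_ten_n (j : ℕ) : 10 * G.n j ≤ G.n (j + 1) := by
  rw [G.n_succ]; exact Nat.mul_le_mul_right _ G.ten_le_La

lemma sd_θ_le : G.θ ≤ 1 := inv_le_one_of_one_le₀ (one_le_pow₀ G.one_le_t)

lemma sd_xs_le : G.xs ≤ 1 := G.xs_le.trans (inv_le_one_of_one_le₀ (one_le_pow₀ G.one_le_t))

lemma sd_one_le_Wc : 1 ≤ G.Wc := Real.one_le_exp G.sd_W_pos.le

end Geo

variable {G : Geo} {R : Raw} {j : ℕ} {t0 c g0 : ℝ} {AA : ℕ → ℝ}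

namespace Run

variable (H : IsNet G R) (S : Run G R j AA t0 c g0)

include H S

lemma sd_zz_pos : 0 < zz G R j AA := by
  have h := (S.zz_bounds H).1
  have h1 := H.bh_pos (j + 2)
  have h2 := G.mQ_pos
  by_contra hn
  push Not at hn
  nlinarith only [h, h1, h2, hn]

lemma sd_g_pos {g : ℝ → ℝ} (hg : Cmp G R (j + 1) (zz G R j AA) t0 c g) {t : ℝ}
    (ht : t ∈ Icc t0 c) : 0 < g t :=
  lt_of_lt_of_le (mul_pos (Real.exp_pos _) (H.bh_pos _)) ((S.sc H hg).floor t ht)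

lemma sd_Fs_nonneg {t : ℝ} (ht : t ∈ Icc t0 c) :
    0 ≤ R.Fs G (j + 1) (zz G R j AA) (R.aa G (j + 1) t) := by
  have h1 := S.sd_zz_pos H
  have h2 := H.Yq_pos (j + 1) (S.aa_bounds H ht).1 G.La
  have h3 := H.cf_lo
  unfold Raw.Fs
  positivity

lemma sd_norm_pB {t : ℝ} (ht : t ∈ Icc t0 c) : ‖R.pB G (j + 1) t‖ ≤ 2 / G.N (j + 1) := by
  have ha := (S.aa_bounds H ht).1
  have hb := H.bh_pos (j + 1)
  have hu := H.un_pos (j + 1)
  have hN := G.N_pos (j + 1)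
  have hO := H.Om_lo
  have h1 : ‖R.B G (j + 1) t‖ ≤ R.Om * (2 * (R.aa G (j + 1) t * R.un G (j + 1))) := by
    refine H.norm_comb_le (j + 1) fun o => ?_
    have e := (S.cur H t ht).clb o
    have e2 := norm_le_norm_sub_add (R.b (j + 1) o t)
      (((R.aa G (j + 1) t * R.un G (j + 1) : ℝ) : ℂ) • G.φ (j + 1))
    rw [norm_smul, G.norm_φ, Complex.norm_real, Real.norm_of_nonneg (by positivity)] at e2
    have : 0 < R.aa G (j + 1) t * R.un G (j + 1) := by positivity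
    linarith
  have h2 : R.un G (j + 1) * (R.Om * G.N (j + 1)) ≤ R.bh G (j + 1) := by
    rw [← H.un_mul (j + 1)]
    gcongr
    exact le_l1_ph _
  rw [H.B_eq ha, norm_smul, Complex.norm_real, Real.norm_of_nonneg (by positivity)] at h1
  rw [le_div_iff₀ hN]
  have h3 : R.aa G (j + 1) t * (R.bh G (j + 1) * (‖R.pB G (j + 1) t‖ * G.N (j + 1))) ≤
      R.aa G (j + 1) t * (R.bh G (j + 1) * 2) := by
    have := mul_le_mul_of_nonneg_right h1 hN.le
    nlinarith only [ha, h2, this]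
  exact le_of_mul_le_mul_left (le_of_mul_le_mul_left h3 ha) hb

theorem sd_lad {g : ℝ → ℝ} (hg : Cmp G R (j + 1) (zz G R j AA) t0 c g) :
    Lad G.t G.L (10 ^ 5 / G.t ^ 4) (G.D (j + 1)) (G.N (j + 1)) (G.ell (j + 1)) t0 c G.La
      (G.rB (j + 1)) (G.ry (j + 1)) (G.mv (j + 1)) (R.pB G (j + 1)) (R.y (j + 1))
      (fun t => R.bh G (j + 1) * R.aa G (j + 1) t) (fun t => Real.exp (-(G.Q / 3)) * (20 * g t))
      (fun i => R.cy i * G.lam (j + 1)) (fun i t => R.Yq G (j + 1) (R.aa G (j + 1) t) i)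
      (R.vy (j + 1)) := by
  have hT := G.t_pos
  have hl := G.lam_pos (j + 1)
  have hm := G.lm_pos (j + 1)
  have hL := G.L_pos
  have hb := H.bh_pos (j + 1)
  have hN := G.N_pos (j + 1)
  have hcy : ∀ i, 0 < R.cy i := fun i => lt_of_lt_of_le (by norm_num) (H.cy_lo i)
  refine
    { hT := G.t_big
      hΛ := G.L_lo
      sm := G.L_pow_le_exp le_rfl
      hL := G.La_eq.le
      h0 := S.st.t0
      D0 := G.D_pos _
      N0 := hN
      Nn_le := G.Nn_le_of_le_n fun i => ?_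
      hl := ?_
      drv := fun t ht => (S.cur H t ht).drv
      β0 := fun t ht => mul_pos hb (S.aa_bounds H ht).1
      cf0 := fun i => mul_pos (hcy i) hl
      small := fun i t ht => ?_
      Y0 := fun t => R.Yq_zero G _ _
      Ys := fun i t => R.Yq_succ G _ _ i
      dY := fun i hi t ht => ?_
      dX := fun t ht => ?_
      y0 := fun t ht => ?_
      ny0 := fun t ht => S.sd_norm_pB H ht
      sp := fun i t => H.spy _ i t
      lay := fun i => H.layy _ i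
      init := fun i hi => ?_
      eq := fun i hi t ht => ?_ }
  · have h1 := G.sd_ten_n (j + 1)
    have h2 := G.rB_le_n (j + 1) i
    simp only [Geo.ry]
    omega
  · rw [G.sd_expD, Geo.ell]
    gcongr
    have := G.sd_gap
    have : 0 ≤ G.Ga ^ 2 := by positivity
    linarith
  · refine le_trans ?_ (G.sd_pow_D (k := 3) (by norm_num) (j + 1))
    obtain ⟨a0, a1⟩ := S.aa_bounds H ht
    have h1 := H.lam_bh_hi (j + 1)
    have h4 : G.t ^ 11 * G.Ga * G.lm (j + 1) ≤ G.L ^ 3 * G.lm (j + 1) := by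
      have := G.sd_Ga_le (k := 11) (by norm_num)
      have : 0 < G.t ^ 11 * G.Ga := mul_pos (by positivity) G.Ga_pos
      gcongr
      linarith
    have h2 := H.cy_hi i
    have h3 := hcy i
    calc R.cy i * G.lam (j + 1) * (R.bh G (j + 1) * R.aa G (j + 1) t)
        ≤ 1 * G.lam (j + 1) * (R.bh G (j + 1) * 10 ^ 48) := by
          gcongr; linarith only [a1]
      _ ≤ G.L ^ 3 * G.lm (j + 1) := by linarith
  · obtain ⟨a0, a1⟩ := S.aa_bounds H ht
    obtain ⟨D, hD, D1, D2⟩ := (S.cur H t ht).grow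
    have hd := G.d_pos (j + 1)
    have g1 := S.g0_lo
    have g2 := S.g0_hi
    have hY := H.Yq_pos (j + 1) one_pos i
    have hD0 : 0 ≤ D := le_trans (by have : 0 < g0 := by linarith only [hd, g1]
                                     positivity) D1
    refine ⟨R.Yq G (j + 1) 1 i * (((i + 1 : ℕ) : ℝ) * R.aa G (j + 1) t ^ i * D), ?_,
      by (clear * - a0 hY hD0; positivity), ?_⟩
    · have e : (fun t => R.Yq G (j + 1) (R.aa G (j + 1) t) i) =
          fun t => R.Yq G (j + 1) 1 i * R.aa G (j + 1) t ^ (i + 1) :=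
        funext fun t => R.Yq_eq G _ _ i
      show HD (fun t => R.Yq G (j + 1) (R.aa G (j + 1) t) i) _ t
      rw [e]
      exact (hD.pow (i + 1)).const_mul _
    · show _ ≤ _ * R.Yq G (j + 1) (R.aa G (j + 1) t) i
      rw [R.Yq_eq G (j + 1) (R.aa G (j + 1) t) i]
      have hi' : ((i + 1 : ℕ) : ℝ) ≤ 2 * G.L := by
        have : (i : ℝ) ≤ G.L := by rw [← G.La_eq]; exact_mod_cast hi
        have := G.one_le_L
        push_cast; linarith
      have h1 : D ≤ 20 * G.lm (j + 1) * R.aa G (j + 1) t := by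
        have : G.d (j + 1) = 2 * G.lm (j + 1) := rfl
        nlinarith only [hm, a0, D2, g2, this]
      have h2 := G.sd_pow_D (k := 2) (by norm_num) (j + 1)
      have h3 := G.sd_L_lt (show 1 < 2 by norm_num)
      rw [pow_one] at h3
      calc R.Yq G (j + 1) 1 i * (((i + 1 : ℕ) : ℝ) * R.aa G (j + 1) t ^ i * D)
          ≤ R.Yq G (j + 1) 1 i * ((2 * G.L) * R.aa G (j + 1) t ^ i *
            (20 * G.lm (j + 1) * R.aa G (j + 1) t)) := by (clear * - hL a0 hY hD0 hi' h1; gcongr)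
        _ = (40 * G.L * G.lm (j + 1)) *
            (R.Yq G (j + 1) 1 i * R.aa G (j + 1) t ^ (i + 1)) := by ring
        _ ≤ _ := by
          refine mul_le_mul_of_nonneg_right (le_trans ?_ h2) (by positivity)
          gcongr
          linarith only [hL, h3]
  · have g1 := S.sd_g_pos H hg ht
    refine ⟨by positivity, _, ((hg.ode t ht).const_mul 20).const_mul _, ?_⟩
    have a0 := (S.aa_bounds H ht).1
    have F0 := S.sd_Fs_nonneg H ht
    have hd := G.d_pos (j + 1 + 1)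
    have h1 : G.d (j + 1 + 1) ≤ G.D (j + 1) / 10 := by
      have h2 := G.sd_pow_D (k := 3) (by norm_num) (j + 1)
      have h3 := G.sd_Ga_le (k := 0) (by norm_num)
      rw [pow_zero, one_mul] at h3
      have h4 : Real.exp (-G.t ^ 19) ≤ 1 := Real.exp_le_one_iff.mpr (by
        have : 0 < G.t ^ 19 := by positivity
        linarith only [this])
      have h5 := G.D_pos (j + 1)
      have h6 := G.Ga_pos
      rw [G.d_succ, Geo.d]
      have h7 : 20 * G.Ga * G.lm (j + 1) ≤ G.L ^ 3 * G.lm (j + 1) := by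
        gcongr; linarith only [h3, h6]
      nlinarith only [hm, h2, h3, h4, h5]
    have h2 : -(G.D (j + 1) / 10 * g t) ≤
        G.d (j + 1 + 1) * (R.aa G (j + 1) t - 1) * g t +
          R.Fs G (j + 1) (zz G R j AA) (R.aa G (j + 1) t) := by
      have : 0 ≤ G.d (j + 1 + 1) * R.aa G (j + 1) t * g t := by positivity
      nlinarith only [g1, F0, h1, this]
    have h3 := Real.exp_pos (-(G.Q / 3))
    nlinarith only [h2, h3]
  · show R.y (j + 1) 0 t = _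
    rw [H.y0, Raw.A, H.B_eq (S.aa_bounds H ht).1, tau_smul]
  · show _ ≤ Real.exp (-(G.Q / 3)) * (20 * g t0) / G.N (j + 1)
    rw [le_div_iff₀ hN, hg.init]
    have h1 := S.st.upy (j + 1) le_rfl
    have h2 := R.y_le_ch G (j + 1) (i := i + 1) (by omega) (by omega) t0
    have h3 := R.ch_nonneg G (j + 1) t0
    have h4 : G.N (j + 1) * R.ch G (j + 1) t0 ≤ R.nc G (j + 1) t0 := by
      unfold Raw.nc
      gcongr
      exact le_mul_of_one_le_left h3 G.sd_one_le_Wc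
    have h5 : G.θ ^ (j + 1 - (j + 1) + 1) * G.xs ≤ 1 :=
      mul_le_one₀ (pow_le_one₀ G.θ_pos.le G.sd_θ_le) G.xs_pos.le G.sd_xs_le
    have h6 := H.bh_mono (show j + 1 ≤ j + 1 + 1 by omega)
    have h7 := G.sd_exp_Q
    have h8 := H.bh_pos (j + 1 + 1)
    calc ‖R.y (j + 1) (i + 1) t0‖ * G.N (j + 1) ≤ G.N (j + 1) * R.ch G (j + 1) t0 := by
          rw [mul_comm]; gcongr
      _ ≤ 20 * (G.θ ^ (j + 1 - (j + 1) + 1) * G.xs) * R.bh G (j + 1) := by linarith only [h1, h4]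
      _ ≤ 20 * 1 * R.bh G (j + 1 + 1) := by gcongr
      _ ≤ _ := by nlinarith only [hb, h6, h7]
  · have t00 : 0 ≤ t := S.st.t0.trans ht.1
    obtain ⟨r, hr, hd⟩ := H.eqY (j + 1) i t hi t00
    refine ⟨r, hr.trans (((S.upp H hg t ht).ey i hi).trans ?_), ?_⟩
    · have g1 := S.sd_g_pos H hg ht
      have h1 : G.L ^ 10 ≤ Real.exp (G.Q / 2) * Real.exp (-(G.Q / 3)) := by
        rw [← Real.exp_add]
        refine G.sd_L_exp (by norm_num) ?_
        have := G.sd_t_le (show 1 ≤ 21 by norm_num)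
        have := G.Q_lo
        linarith
      have h2 : G.L ^ 10 * G.lm (j + 1) * (g t / G.N (j + 1)) ≤
          G.D (j + 1) / 10 * (Real.exp (-(G.Q / 3)) * (20 * g t) / G.N (j + 1)) := by
        calc _ ≤ (2 * (Real.exp (G.Q / 2) * Real.exp (-(G.Q / 3)))) *
            G.lm (j + 1) * (g t / G.N (j + 1)) := by
              gcongr
              have : 0 < G.L ^ 10 := by positivity
              linarith only [h1, this]
          _ = _ := by rw [Geo.D]; ring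
      linarith only [h2]
    · have e : ((R.cy (i + 1) * G.lam (j + 1) : ℝ) : ℂ) •
          pj (G.ry (j + 1)) (R.B G (j + 1) t * R.y (j + 1) i t) =
          ((R.cy (i + 1) * G.lam (j + 1) * (R.bh G (j + 1) * R.aa G (j + 1) t) : ℝ) : ℂ) •
            pj (G.ry (j + 1)) (R.pB G (j + 1) t * R.y (j + 1) i t) := by
        rw [H.B_eq (S.aa_bounds H ht).1, smul_mul_assoc, map_smul, smul_smul, ← Complex.ofReal_mul]
      rw [e] at hd
      exact hd

end Run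

end

end Pool.Agent.Work.MP_6bf1e5_an.Hyp
end

-- merged part: Pool.Agent.Work.MP_6bf1e5_an.Hyp.SeedB
section
/-!
Weights, corner frequencies and the low modes which carry the seed.
-/

open Set Complex Filter Topology
open scoped InnerProductSpace ComplexConjugate
open Pool.Agent.Work.MP_6bf1e5_an.B (Z3 R3)
open Pool.Agent.Work.MP_6bf1e5_an.Hyp.Dec

namespace Pool.Agent.Work.MP_6bf1e5_an.Hyp

noncomputable section

namespace Geo

variable (G : Geo)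

lemma sd_n_rB (j : ℕ) (i : Fin 3) : (G.n j : ℝ) ≤ G.t ^ 4 * G.rB j i := by
  have h1 : (G.n j : ℝ) ≤ G.t ^ 4 * G.n j :=
    le_mul_of_one_le_left (Nat.cast_nonneg _) (one_le_pow₀ G.one_le_t)
  have h2 : (G.n j : ℝ) ≤ G.t ^ 4 * G.rB j 0 := by
    simp only [rB, n, t, Matrix.cons_val_zero]
    push_cast
    exact le_of_eq (by ring)
  fin_cases i
  exacts [h2, h1, h1]

lemma sd_n_rd (j : ℕ) (i : Fin 3) : (G.n j : ℝ) ≤ G.t ^ 4 * G.rd j i := by
  fin_cases i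
  exacts [G.sd_n_rB j 2, G.sd_n_rB j 0, G.sd_n_rB j 1]

lemma sd_w_rd (j : ℕ) (i : Fin 3) : G.t ^ 4 * G.w j i = G.rd j i := by
  fin_cases i <;> simp [rd, rB, rot3, n, w, t] <;> ring

lemma sd_rot_mv (j : ℕ) (i : Fin 3) : rot3 (G.mv j) i ≤ 1 / 10 ^ 25 * G.rd j i := by
  have hι : G.ι ≤ 1 / 10 ^ 30 := by
    have h1 := G.pow_lt (show 0 < 10 by norm_num)
    have h2 : 0 < G.t ^ 10 := pow_pos G.t_pos _
    rw [ι, ← div_eq_mul_inv, div_le_div_iff₀ h2 (by positivity)]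
    linarith
  have key : ∀ k, G.mv j k ≤ 1 / 10 ^ 25 * G.rB j k := fun k => by
    have h1 : (G.w j k : ℝ) ≤ G.rB j k := by exact_mod_cast G.w_le_rB j k
    have h2 : (0 : ℝ) ≤ G.rB j k := Nat.cast_nonneg _
    unfold mv
    nlinarith only [hι, h1]
  fin_cases i
  exacts [key 2, key 0, key 1]

lemma sd_rd_pos (j : ℕ) (i : Fin 3) : (0 : ℝ) < G.rd j i := by
  exact_mod_cast G.one_le_rd j i

/-- Products of a frequency of size `s / rd` with the other scales. -/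
lemma sd_scale (j : ℕ) (a : Fin 3) {v s : ℝ} (hv : 0 ≤ v) (h : v * G.rd j a ≤ s) :
    v * G.n j ≤ G.t ^ 4 * s ∧ v * G.rB j a ≤ G.t ^ 4 * s ∧
      G.t ^ 6 * (v * G.mv j a) ≤ (G.t ^ 2 / 10 ^ 26 + 10 ^ 5) * s := by
  have hT := G.t_pos
  have h1 : v * G.n j ≤ G.t ^ 4 * s := by
    have := mul_le_mul_of_nonneg_left (G.sd_n_rd j a) hv
    have := mul_le_mul_of_nonneg_left h (pow_pos hT 4).le
    linarith
  have h2 : v * G.rB j a ≤ G.t ^ 4 * s :=
    le_trans (mul_le_mul_of_nonneg_left (by exact_mod_cast G.rB_le_n j a) hv) h1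
  refine ⟨h1, h2, ?_⟩
  have s0 : 0 ≤ s := le_trans (mul_nonneg hv (Nat.cast_nonneg _)) h
  have e : G.t ^ 6 * (v * G.mv j a) = G.t ^ 2 / 10 ^ 26 * (v * (G.t ^ 4 * G.w j a)) +
      2 * 10 ^ 4 * ((G.t ^ 4)⁻¹ * (v * G.rB j a)) := by
    unfold mv ι; field_simp
  have h3 : (G.t ^ 4)⁻¹ * (v * G.rB j a) ≤ s := by
    rw [inv_mul_le_iff₀ (pow_pos hT 4)]; exact h2
  rw [e, G.sd_w_rd]
  have := mul_le_mul_of_nonneg_left h (show 0 ≤ G.t ^ 2 / 10 ^ 26 by positivity)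
  linarith only [s0, h3, this]

lemma sd_x0 : G.t / (3000 * G.ρ) = G.t ^ 5 / (3000 * G.L) := by
  have := G.t_pos
  have := G.L_pos
  unfold ρ; field_simp

/-- The admissible weights. -/
lemma sd_wt_hyp (j : ℕ) (a : Fin 3) {v : ℝ} (hv : 0 ≤ v)
    (h : v * G.rd j a ≤ G.t / (3000 * G.ρ)) :
    v * G.n j ≤ 1 / 3000 ∧ v * G.rd j a ≤ 1 / 4 ∧ v * G.rB j a ≤ G.t ^ 9 / G.L ∧
      v * rot3 (G.rB j) a ≤ G.t ^ 9 / G.L ∧ G.L * (v * G.mv j a) ≤ G.t / 10 ^ 21 ∧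
      v * G.ry j a ≤ G.t ^ 10 := by
  have hT := G.t_pos
  have hL := G.L_pos
  have h1 := G.one_le_t
  rw [sd_x0] at h
  obtain ⟨a1, a2, a3⟩ := G.sd_scale j a hv h
  have e1 : G.t ^ 4 * (G.t ^ 5 / (3000 * G.L)) = G.t ^ 9 / G.L / 3000 := by field_simp
  have i12 : G.t ^ 9 / G.L ≤ 1 := by
    rw [div_le_one hL]
    exact (G.pow_le (by norm_num)).trans G.L_lo
  have p12 : 0 < G.t ^ 9 / G.L := by positivity
  have s4 : G.t ^ 5 / (3000 * G.L) ≤ G.t ^ 4 * (G.t ^ 5 / (3000 * G.L)) :=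
    le_mul_of_one_le_left (by positivity) (one_le_pow₀ h1)
  rw [e1] at a1 a2 s4
  refine ⟨by linarith only [a1, i12], by linarith only [h, i12, s4], by linarith only [a2, p12], ?_, ?_, ?_⟩
  · show v * G.rd j a ≤ _
    linarith only [h, p12, s4]
  · have e2 : G.L * (v * G.mv j a) = G.L / G.t ^ 6 * (G.t ^ 6 * (v * G.mv j a)) := by field_simp
    have e3 : G.L / G.t ^ 6 * ((G.t ^ 2 / 10 ^ 26 + 10 ^ 5) * (G.t ^ 5 / (3000 * G.L))) =
        G.t / (3000 * 10 ^ 26) + 10 ^ 5 / 3000 * G.t⁻¹ := by field_simp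
    have h2 := mul_le_mul_of_nonneg_left a3 (show 0 ≤ G.L / G.t ^ 6 by positivity)
    have h3 : G.t⁻¹ ≤ 1 := inv_le_one_of_one_le₀ h1
    have h4 := G.t_big
    rw [e2]; rw [e3] at h2
    linarith only [h2, h3, h4]
  · have e2 := G.ry_add_one j a
    have h2 : v * G.ry j a ≤ G.L * (v * G.n j) := by
      have : (G.ry j a : ℝ) ≤ G.L * G.n j := by
        have : 0 ≤ G.L * G.n j := by positivity
        linarith only [e2]
      nlinarith only [hv, e2]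
    have h3 := mul_le_mul_of_nonneg_left a1 hL.le
    have e3 : G.L * (G.t ^ 9 / G.L / 3000) = G.t ^ 9 / 3000 := by field_simp
    have h4 := G.pow_le (show 9 ≤ 10 by norm_num)
    have h5 : 0 < G.t ^ 9 := by positivity
    linarith only [h2, h3, e3, h4, h5]

/-- The standard weights. -/
def sdu (j : ℕ) (a : Fin 3) : ℝ := G.t / (3000 * G.ρ) / G.rd j a

lemma sdu_pos (j : ℕ) (a : Fin 3) : 0 < G.sdu j a := by
  have := G.t_pos; have := G.ρ_pos; have := G.sd_rd_pos j a; unfold sdu; positivity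

lemma sdu_mul (j : ℕ) (a : Fin 3) : G.sdu j a * G.rd j a = G.t / (3000 * G.ρ) :=
  div_mul_cancel₀ _ (G.sd_rd_pos j a).ne'

lemma sdu_rb (j : ℕ) (a : Fin 3) : G.sdu j a * (G.rb (j + 1) a + 1) = G.t / 3000 := by
  have := G.ρ_pos
  rw [G.rb_succ, mul_left_comm, sdu_mul]; field_simp

lemma sd_Wts (j : ℕ) : Lad.Wts G.t G.L (G.rB j) (G.ry j) (G.mv j) (G.sdu j) := fun a => by
  have hT := G.t_pos
  have hL := G.L_pos
  obtain ⟨-, -, a3, a4, a5, a6⟩ := G.sd_wt_hyp j a (G.sdu_pos j a).le (G.sdu_mul j a).le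
  refine ⟨(G.sdu_pos j a).le, a3, a4, a5, a6, ?_⟩
  rw [G.ry_add_one]
  have h1 : (G.rd j a : ℝ) ≤ G.n j := by exact_mod_cast G.rd_le_n j a
  have h2 := mul_le_mul_of_nonneg_left h1 (G.sdu_pos j a).le
  rw [sdu_mul, sd_x0] at h2
  have h3 := mul_le_mul_of_nonneg_left h2 hL.le
  have e : G.L * (G.t ^ 5 / (3000 * G.L)) = G.t ^ 5 / 3000 := by field_simp
  have : 0 < G.t ^ 5 := by positivity
  linarith only [h3, e, this]

/-- The corner frequencies. -/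
lemma sd_corner {j : ℕ} {x : R3} (hx : ∀ i, |x i| = th (G.rb (j + 1) i)) (i : Fin 3) :
    |x i| * G.rd j i ≤ 2 / G.ρ := by
  have hT := G.ρ_pos
  have h1 := th_mul (G.rb (j + 1) i)
  rw [G.rb_succ, ← hx] at h1
  rw [le_div_iff₀ hT]
  have := Real.pi_le_four
  linarith

end Geo

/-! The rotations -/

lemma sp_rot (o : Fin 4) {k : ℕ} {f : V} (hf : Sp (fun _ => k) f) : Sp (fun _ => k) (rot o f) := by
  have ht : ∀ {g : V}, Sp (fun _ => k) g → Sp (fun _ => k) (tau g) := fun hg =>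
    hg.tau.mono fun i => by fin_cases i <;> simp [rot3]
  fin_cases o
  exacts [ht hf, (ht hf).dag, ht (ht hf), (ht (ht hf)).dag]

lemma sd_l1_rot (o : Fin 4) (f : V) : l1 (rot o f) = l1 f := by
  fin_cases o <;> simp [rot, l1_tau, l1_dag]

lemma sd_rot_add (o : Fin 4) (f g : V) : rot o (f + g) = rot o f + rot o g := by
  fin_cases o <;> simp [rot, tau_add]

lemma sd_ev_zero_rot (o : Fin 4) {f : V} (hf : Rl f) : ev 0 (rot o f) = ev 0 f := by
  have e : conj (ev 0 f) = ev 0 f := by rw [hf.ev_zero]; simp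
  fin_cases o <;> simp [rot, ev_zero_tau, ev_dag, e]

lemma sd_l1_cmb {m : Fin 4 → ℝ} {g : Fin 4 → V} {c : ℝ} (hg : ∀ o, l1 (g o) ≤ c) :
    l1 (cmb m g) ≤ (∑ o, |m o|) * c := by
  rw [cmb, Finset.sum_mul]
  refine (l1_sum_le _ _).trans (Finset.sum_le_sum fun o _ => ?_)
  rw [l1_smul, Complex.norm_real, Real.norm_eq_abs]
  exact mul_le_mul_of_nonneg_left (hg o) (abs_nonneg _)

lemma sd_ev_cmb {m : Fin 4 → ℝ} (m1 : ∑ o, m o = 1) {g : Fin 4 → V} {x : R3} {b : ℂ} {c : ℝ}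
    (hg : ∀ o, ‖ev x (g o) - b‖ ≤ c) : ‖ev x (cmb m g) - b‖ ≤ (∑ o, |m o|) * c := by
  have e : ev x (cmb m g) - b = ∑ o, (m o : ℂ) * (ev x (g o) - b) := by
    have : ∑ o, (m o : ℂ) = 1 := by exact_mod_cast m1
    simp only [cmb, map_sum, map_smul, smul_eq_mul, mul_sub, Finset.sum_sub_distrib,
      ← Finset.sum_mul, this, one_mul]
  rw [e, Finset.sum_mul]
  refine (norm_sum_le _ _).trans (Finset.sum_le_sum fun o _ => ?_)
  rw [norm_mul, Complex.norm_real, Real.norm_eq_abs]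
  exact mul_le_mul_of_nonneg_left (hg o) (abs_nonneg _)

variable {G : Geo} {R : Raw} {j : ℕ} {t0 c g0 : ℝ} {AA : ℕ → ℝ}

lemma sd_cmb_f (G : Geo) (R : Raw) (J : ℕ) (m : Fin 4 → ℝ) (t : ℝ) :
    (cmb m fun o => R.f G J o t) = ((R.cf * (2 * Real.pi * G.n (J + 1)) : ℝ) : ℂ) •
      pj (G.rc (J + 1)) (R.y J G.La t * cmb m fun o => R.Z G (J + 1) o t) := by
  simp only [cmb, Raw.f, Finset.mul_sum, map_sum, Finset.smul_sum, mul_smul_comm, map_smul]
  exact Finset.sum_congr rfl fun o _ => smul_comm _ _ _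

namespace Run

variable (H : IsNet G R) (S : Run G R j AA t0 c g0)

include H S

omit H in
lemma sd_idx : j + 2 - G.kk < j + 1 ∧ j + 2 - G.kk - 1 + G.kk = j + 1 ∧ G.kk ≤ j + 2 := by
  have h1 := S.st.kJ
  have h2 := G.ten_le_kk
  omega

omit H in
lemma sd_n_low : G.La * G.n (j + 2 - G.kk) ≤ G.n (j + 1) := by
  rw [← G.n_succ]
  have h := S.sd_idx.1
  have hL : 0 < G.La := lt_of_lt_of_le (by norm_num) G.ten_le_La
  exact Nat.mul_le_mul_left _ (Nat.pow_le_pow_right hL h)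

lemma sd_sp_Z (o : Fin 4) (t : ℝ) : Sp (fun _ => 2 * G.n (j + 1)) (R.Z G (j + 2) o t) := by
  obtain ⟨i1, i2, i3⟩ := S.sd_idx
  have h1 := S.sd_n_low
  have h2 := Nat.mul_le_mul_right (G.n (j + 2 - G.kk)) G.ten_le_La
  rw [Raw.Z, if_pos i3]
  refine sp_rot o (((H.spB _ t).mono fun i => ?_).add (Sp.smul ?_ _))
  · have := G.rB_le_n (j + 2 - G.kk) i
    omega
  · have h3 : Sp (fun _ => G.n (j + 1)) (sh ![0, G.P (j + 2 - G.kk - 1), 0]) := by
      refine sp_sh (mem_bx.mpr fun i => ?_)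
      rw [G.P_eq_n, i2]
      fin_cases i <;> simp
    refine (h3.mul (H.spC _ t)).mono fun i => ?_
    have := G.rB_le_n (j + 2 - G.kk) i
    simp only [Pi.add_apply]
    omega

lemma sd_sp_Zm (m : Fin 4 → ℝ) (t : ℝ) :
    Sp (fun _ => 2 * G.n (j + 1)) (cmb m fun o => R.Z G (j + 2) o t) :=
  Sp.sum _ fun o _ => (S.sd_sp_Z H o t).smul _

lemma sd_l1_Zm {m : Fin 4 → ℝ} (m2 : ∑ o, |m o| ≤ 3 * G.t ^ 10) {t : ℝ} (ht : t ∈ Icc t0 c) :
    l1 (cmb m fun o => R.Z G (j + 2) o t) ≤ 4 * G.t ^ 10 * zz G R j AA := by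
  have h1 := S.sd_zz_pos H
  have h2 : 0 < G.t ^ 10 := pow_pos G.t_pos _
  refine (sd_l1_cmb fun o => S.l1_Z_le H ht o).trans ?_
  have := mul_le_mul_of_nonneg_right m2 h1.le
  have : 0 < G.t ^ 10 * zz G R j AA := by positivity
  linarith

/-- At low frequencies the symbol of the low modes is almost constant. -/
lemma sd_ev_Zm {m : Fin 4 → ℝ} (m1 : ∑ o, m o = 1) (m2 : ∑ o, |m o| ≤ 3 * G.t ^ 10) {t : ℝ}
    (ht : t ∈ Icc t0 c) {x : R3} (hx : ∀ i, |x i| * G.n (j + 1) ≤ G.t) :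
    ‖ev x (cmb m fun o => R.Z G (j + 2) o t) - (zz G R j AA : ℂ)‖ ≤ zz G R j AA / 1000 := by
  obtain ⟨i1, i2, i3⟩ := S.sd_idx
  have hT := G.t_pos
  set i0 := j + 2 - G.kk with hi0
  have hb := H.bh_pos i0
  obtain ⟨o1, o2, -⟩ := (S.bnd t ht).old H i1
  have hA := (S.st.oldA i0 i1).1
  have hn : ∀ i, G.t ^ 20 * (G.n i0 * |x i|) ≤ 1 := fun i => by
    have h0 : G.L * G.n i0 ≤ G.n (j + 1) := by
      rw [← G.La_eq]; exact_mod_cast S.sd_n_low
    have h1 : G.t ^ 21 * G.n i0 ≤ G.n (j + 1) :=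
      (mul_le_mul_of_nonneg_right G.L_lo (Nat.cast_nonneg _)).trans h0
    have h2 := mul_le_mul_of_nonneg_left h1 (abs_nonneg (x i))
    have h3 : G.t * (G.t ^ 20 * (G.n i0 * |x i|)) ≤ G.t * 1 := by
      have := hx i
      linarith only [h2, this]
    exact le_of_mul_le_mul_left h3 hT
  have hC : l1 (R.Cc G i0 t) ≤ 400 * R.bh G i0 := by
    have := H.l1_C_le i0 t
    have := ((S.bnd t ht).cr0 H).nl i0
    linarith
  have key : ∀ o, ‖ev x (R.Z G (j + 2) o t) - ev 0 (R.B G i0 t)‖ ≤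
      (G.t ^ 10)⁻¹ * (R.bh G i0 / 10 ^ 4) := fun o => by
    rw [Raw.Z, if_pos i3, sd_rot_add, map_add, ← sd_ev_zero_rot o (H.rlB i0 t), add_sub_right_comm]
    have s1 : Sp (fun _ => 2 * G.n i0) (rot o (R.B G i0 t)) :=
      sp_rot o ((H.spB i0 t).mono fun i => Nat.mul_le_mul_left _ (G.rB_le_n i0 i))
    have e1 := s1.norm_ev_sub_le x
    rw [sd_l1_rot] at e1
    have e2 := norm_ev_le x (rot o ((R.cq o : ℂ) • (sh ![0, G.P (i0 - 1), 0] * R.Cc G i0 t)))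
    rw [sd_l1_rot, l1_smul, l1_sh_mul, Complex.norm_real, Real.norm_eq_abs] at e2
    have e3 : G.t ^ 20 * ∑ i, ((2 * G.n i0 : ℕ) : ℝ) * |x i| ≤ 6 := by
      have := hn 0; have := hn 1; have := hn 2
      rw [Fin.sum_univ_three]; push_cast; linarith
    have e4 := H.cq_le' o
    have e5 := G.pow_lt (show 10 < 20 by norm_num)
    have e6 : 0 ≤ ∑ i, ((2 * G.n i0 : ℕ) : ℝ) * |x i| := by (clear * -; positivity)
    have e7 : G.t ^ 10 * ∑ i, ((2 * G.n i0 : ℕ) : ℝ) * |x i| ≤ 1 / 10 ^ 10 := by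
      have := mul_le_mul_of_nonneg_right e5 e6
      linarith only [e3, this]
    refine (norm_add_le _ _).trans ?_
    rw [le_inv_mul_iff₀ (pow_pos hT 10)]
    have e8 : G.t ^ 10 * (l1 (R.B G i0 t) * ∑ i, ((2 * G.n i0 : ℕ) : ℝ) * |x i|) ≤
        11 * R.bh G i0 * (1 / 10 ^ 10) := by
      rw [mul_left_comm]
      (clear * - hT hb o2 e7; gcongr)
    have e9 : G.t ^ 10 * (|R.cq o| * l1 (R.Cc G i0 t)) ≤ 1 / 10 ^ 50 * (400 * R.bh G i0) := by
      rw [← mul_assoc]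
      have := l1_nonneg (R.Cc G i0 t)
      gcongr
      linarith only [e4]
    have e10 := mul_le_mul_of_nonneg_left (add_le_add e1 e2) (pow_pos hT 10).le
    linarith only [hb, e8, e9, e10]
  have k1 := (sd_ev_cmb m1 key).trans (mul_le_mul_of_nonneg_right m2 (by positivity))
  have k2 : 3 * G.t ^ 10 * ((G.t ^ 10)⁻¹ * (R.bh G i0 / 10 ^ 4)) = 3 * (R.bh G i0 / 10 ^ 4) := by
    field_simp
  have k3 : ‖ev 0 (R.B G i0 t) - (zz G R j AA : ℂ)‖ ≤ R.bh G i0 * (1 / 10 ^ 19) := by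
    rw [H.ev_zero_B, ← Complex.ofReal_sub, Complex.norm_real, Real.norm_eq_abs, zz, ← hi0,
      mul_comm (AA i0), ← mul_sub, abs_mul, abs_of_pos hb]
    gcongr
  have k4 := norm_sub_le_norm_sub_add_norm_sub (ev x (cmb m fun o => R.Z G (j + 2) o t))
    (ev 0 (R.B G i0 t)) (zz G R j AA : ℂ)
  have k5 : 2 * R.bh G i0 ≤ zz G R j AA := by
    rw [zz, ← hi0]; gcongr
  linarith only [hb, k1, k2, k3, k4, k5]

end Run

end

end Pool.Agent.Work.MP_6bf1e5_an.Hyp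
end

-- merged part: Pool.Agent.Work.MP_6bf1e5_an.Hyp.SeedC
section
/-!
Weighted bounds and tails of the seed.
-/

open Set Complex Filter Topology
open scoped InnerProductSpace ComplexConjugate
open Pool.Agent.Work.MP_6bf1e5_an.B (Z3 R3)
open Pool.Agent.Work.MP_6bf1e5_an.Hyp.Dec

namespace Pool.Agent.Work.MP_6bf1e5_an.Hyp

noncomputable section

namespace Geo

variable (G : Geo)

/-- Tails beyond the teeth of the next level. -/
lemma sd_tail (J : ℕ) {g : V} {s n : N3} {W : ℝ} (hW : 0 ≤ W) (hg : Sp s g)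
    (hs : ∀ i, s i ≤ G.n (J + 1)) (hn : ∀ i, G.rb (J + 1) i ≤ n i)
    (hw : ∀ (i : Fin 3) (u : ℝ), |u| * G.rd J i ≤ G.t / (3000 * G.ρ) →
      ‖wt (Pi.single i u) g‖ ≤ Real.exp (G.t / 10 ^ 19) * W / G.N J) :
    l1 (g - pj n g) ≤ W / 1000 := by
  have hT := G.t_pos
  have hN := G.N_pos J
  have h1 : Sp s (g - pj n g) := hg.sub (hg.mulc _)
  have h2 := norm_tail_le n g fun i => (G.sdu_pos J i).le
  have h3 : ∀ i, Real.exp (-(G.sdu J i * (n i + 1))) *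
      (‖wt (Pi.single i (G.sdu J i)) g‖ + ‖wt (Pi.single i (-G.sdu J i)) g‖) ≤
      Real.exp (-(G.t / 3000)) * (2 * (Real.exp (G.t / 10 ^ 19) * W / G.N J)) := fun i => by
    have a1 := hw i (G.sdu J i) (by rw [abs_of_pos (G.sdu_pos J i), sdu_mul])
    have a2 := hw i (-G.sdu J i) (by rw [abs_neg, abs_of_pos (G.sdu_pos J i), sdu_mul])
    have a3 : G.t / 3000 ≤ G.sdu J i * (n i + 1) := by
      rw [← G.sdu_rb J i]
      have := G.sdu_pos J i
      gcongr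
      exact hn i
    gcongr
    linarith only [a1, a2]
  have h4 := h2.trans (Finset.sum_le_sum fun i _ => h3 i)
  rw [Finset.sum_const, Finset.card_univ, Fintype.card_fin, nsmul_eq_mul] at h4
  have h5 : G.L ^ 3 * (Real.exp (-(G.t / 3000)) * Real.exp (G.t / 10 ^ 19)) ≤ 1 := by
    have := G.sd_L_exp (k := 3) (by norm_num) (y := G.t / 3000 - G.t / 10 ^ 19) (by linarith only [hT])
    refine (mul_le_mul_of_nonneg_right this (by positivity)).trans (le_of_eq ?_)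
    rw [← Real.exp_add, ← Real.exp_add]; simp
  have h6 := G.sd_L_lt (show 2 < 3 by norm_num)
  have hL := G.L_pos
  have h7 : 0 < Real.exp (-(G.t / 3000)) * Real.exp (G.t / 10 ^ 19) := by positivity
  calc l1 (g - pj n g) ≤ 3 * Nn s * ‖g - pj n g‖ := h1.l1_le
    _ ≤ 3 * (G.L ^ 2 * G.N J) * (((3 : ℕ) : ℝ) *
        (Real.exp (-(G.t / 3000)) * (2 * (Real.exp (G.t / 10 ^ 19) * W / G.N J)))) := by
      gcongr
      exact G.Nn_le_of_le_n hs
    _ = (18 * G.L ^ 2 * (Real.exp (-(G.t / 3000)) * Real.exp (G.t / 10 ^ 19))) * W := by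
      push_cast; field_simp; ring
    _ ≤ 1 / 1000 * W := by
      gcongr
      have : 0 < G.L ^ 2 := by positivity
      nlinarith only [h5, h6, h7]
    _ = W / 1000 := by ring

lemma sd_exp4 : 8 * G.t ^ 10 * Real.exp (-G.t ^ 4) ≤ 1 / 1000 := by
  have hT := G.t_pos
  have h1 := G.sd_pow_exp (k := 11) (by norm_num) (y := G.t ^ 4)
    (by have := G.sd_t_le (show 1 ≤ 4 by norm_num); linarith)
  have h2 := G.pow_lt (show 10 < 11 by norm_num)
  have h3 : Real.exp (G.t ^ 4) * Real.exp (-G.t ^ 4) = 1 := by rw [← Real.exp_add]; simp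
  have h4 := Real.exp_pos (-G.t ^ 4)
  have : 0 < G.t ^ 10 := by positivity
  nlinarith only [h1, h2, h3, h4]

lemma sd_exp4' : Real.exp (-G.t ^ 4) ≤ 1 / 1000 := by
  have h1 := G.sd_exp4
  have h2 := one_le_pow₀ (n := 10) G.one_le_t
  have h4 := Real.exp_pos (-G.t ^ 4)
  nlinarith

lemma sd_supp (J : ℕ) (i : Fin 3) : 2 * G.rd J i + G.rc (J + 1) i ≤ G.n (J + 1) := by
  have h1 := G.rb_succ J i
  have h2 : (G.rd J i : ℝ) ≤ G.n J := by exact_mod_cast G.rd_le_n J i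
  have h3 : 5 * G.ρ ≤ G.L := by
    have a1 := G.pow_lt (show 0 < 4 by norm_num)
    have a2 := mul_le_mul_of_nonneg_right a1 G.ρ_pos.le
    have a3 := G.ρ_mul
    have a4 := G.ρ_pos
    rw [pow_zero] at a2
    linarith
  have h4 : 1 ≤ G.ρ := (one_le_pow₀ G.one_le_t).trans G.ρ_lo
  have h5 : (0 : ℝ) ≤ G.n J := Nat.cast_nonneg _
  have h6 : ((2 * G.rd J i + G.rc (J + 1) i : ℕ) : ℝ) ≤ (G.n (J + 1) : ℕ) := by
    rw [G.n_succ]
    simp only [rc]
    push_cast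
    rw [G.La_eq]
    nlinarith only [h1, h2, h3, h4]
  exact_mod_cast h6

/-- Away from the origin the powers of the symbol of a driver are tiny. -/
lemma sd_far {κ : ℝ} {r : N3} {mv : Fin 3 → ℝ} {p : V} (h : Drv G.t r mv κ p) {x : R3}
    (hx : x ∈ cube) (hr : (G.t ^ 16)⁻¹ ≤ sqr r x) :
    ‖ev x p‖ ≤ 1 - (G.t ^ 16)⁻¹ / (2 * 10 ^ 10) := by
  have h1 := h.far x hx
  rw [min_eq_left hr] at h1
  have h2 : (G.t ^ 16)⁻¹ ≤ 1 := inv_le_one_of_one_le₀ (one_le_pow₀ G.one_le_t)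
  refine (abs_le_of_sq_le_sq' ?_ (by linarith only [h2])).2
  linarith only [h1, sq_nonneg ((G.t ^ 16)⁻¹ / (2 * 10 ^ 10))]

lemma sd_far_pow : (1 - (G.t ^ 16)⁻¹ / (2 * 10 ^ 10)) ^ G.La ≤ Real.exp (-G.t ^ 4) := by
  have hT := G.t_pos
  have h2 : (G.t ^ 16)⁻¹ ≤ 1 := inv_le_one_of_one_le₀ (one_le_pow₀ G.one_le_t)
  calc _ ≤ Real.exp (-((G.t ^ 16)⁻¹ / (2 * 10 ^ 10))) ^ G.La := by
        gcongr
        · linarith
        · exact Real.one_sub_le_exp_neg _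
    _ = Real.exp (-(G.L * (G.t ^ 16)⁻¹ / (2 * 10 ^ 10))) := by
        rw [← Real.exp_nat_mul, G.La_eq]; congr 1; ring
    _ ≤ _ := by
        have := G.pow_lt (show 4 < 5 by norm_num)
        have : 0 < G.t ^ 4 := by positivity
        have h3 : G.t ^ 5 ≤ G.L * (G.t ^ 16)⁻¹ := by
          rw [← div_eq_mul_inv, le_div_iff₀ (by positivity), ← pow_add]
          exact G.L_lo
        gcongr
        linarith

lemma sd_near_box (J : ℕ) {x : R3} (hr : sqr (G.rB J) x ≤ (G.t ^ 16)⁻¹) (i : Fin 3) :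
    |x i| * G.n J ≤ G.t := by
  have hT := G.t_pos
  have h1 : ((G.rB J i : ℝ) * x i) ^ 2 ≤ ((G.t ^ 8)⁻¹) ^ 2 := by
    refine le_trans (Finset.single_le_sum (f := fun i => ((G.rB J i : ℝ) * x i) ^ 2)
      (fun _ _ => sq_nonneg _) (Finset.mem_univ i)) (hr.trans (le_of_eq ?_))
    rw [inv_pow, ← pow_mul]
  have h2 := abs_le_of_sq_le_sq' h1 (by positivity)
  have h3 : |x i| * G.rB J i ≤ (G.t ^ 8)⁻¹ := by
    have := abs_le.mpr h2
    rwa [abs_mul, Nat.abs_cast, mul_comm] at this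
  have h4 := mul_le_mul_of_nonneg_left (G.sd_n_rB J i) (abs_nonneg (x i))
  have h5 := mul_le_mul_of_nonneg_left h3 (pow_pos hT 4).le
  have h6 : G.t ^ 4 * (G.t ^ 8)⁻¹ ≤ 1 := by
    rw [← div_eq_mul_inv, div_le_one (by positivity)]
    exact G.pow_le (by norm_num)
  have := G.one_le_t
  linarith only [h4, h5, h6, this]

/-- The symbols of the current driver at the corner frequencies. -/
lemma sd_corner_ev (J : ℕ) {κ : ℝ} {p : V} (h : Drv G.t (G.rB J) (G.mv J) κ p) {x : R3}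
    (hx : ∀ i, |x i| = th (G.rb (J + 1) i)) :
    ‖ev x p - 1‖ ≤ 1 / (1000 * G.L) ∧ ‖ev x (tau p) - 1‖ ≤ 1 / 1000 := by
  have hT := G.t_pos
  have hL := G.L_pos
  have hρ := G.ρ_pos
  have hc := G.sd_corner hx
  have i2 : (G.t ^ 2)⁻¹ ≤ 1 / 10 ^ 100 := by
    have := G.pow_lt (show 0 < 2 by norm_num)
    rw [inv_eq_one_div]
    exact one_div_le_one_div_of_le (by positivity) (by linarith)
  constructor
  · have a : ∀ i, G.L * (|x i| * G.mv J i) ≤ 1 / 10 ^ 10 ∧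
        G.L * ((G.rB J i : ℝ) * x i) ^ 2 ≤ 1 / 10 ^ 10 := fun i => by
      obtain ⟨-, a2, a3⟩ := G.sd_scale J i (abs_nonneg _) (hc i)
      constructor
      · have e : G.L / G.t ^ 6 * ((G.t ^ 2 / 10 ^ 26 + 10 ^ 5) * (2 / G.ρ)) =
            2 / 10 ^ 26 + 2 * 10 ^ 5 * (G.t ^ 2)⁻¹ := by rw [← G.ρ_mul]; field_simp
        have e' : G.L * (|x i| * G.mv J i) = G.L / G.t ^ 6 * (G.t ^ 6 * (|x i| * G.mv J i)) := by
          field_simp
        have := mul_le_mul_of_nonneg_left a3 (show 0 ≤ G.L / G.t ^ 6 by positivity)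
        rw [e] at this
        linarith only [i2, e', this]
      · have e0 : ((G.rB J i : ℝ) * x i) ^ 2 = (|x i| * G.rB J i) ^ 2 := by
          rw [mul_pow, mul_pow, sq_abs, mul_comm]
        have e : G.L * (G.t ^ 4 * (2 / G.ρ)) ^ 2 = 4 * (G.t ^ 12 / G.ρ) := by
          rw [← G.ρ_mul]; field_simp; ring
        have i5 : G.t ^ 12 / G.ρ ≤ (G.t ^ 2)⁻¹ := by
          rw [div_le_iff₀ hρ, le_inv_mul_iff₀ (by positivity), ← pow_add]
          exact (G.pow_le (by norm_num)).trans G.ρ_lo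
        rw [e0]
        calc _ ≤ G.L * (G.t ^ 4 * (2 / G.ρ)) ^ 2 := by gcongr
          _ ≤ _ := by rw [e]; linarith only [i2, i5]
    refine (h.ev_sub_one x).trans ?_
    rw [le_div_iff₀ (by positivity), sqr, Fin.sum_univ_three, Fin.sum_univ_three]
    have := a 0; have := a 1; have := a 2
    linarith
  · have s : 2 / G.ρ ≤ 1 / 10 ^ 10 := by
      have := G.ρ_big
      rw [div_le_div_iff₀ (by positivity) (by positivity)]
      linarith only [this]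
    have a : ∀ i, |x i| * rot3 (G.mv J) i ≤ 1 / 10 ^ 10 ∧
        ((rot3 (G.rB J) i : ℕ) * x i) ^ 2 ≤ (1 / 10 ^ 10 : ℝ) := fun i => by
      have b := (hc i).trans s
      have b0 : 0 ≤ |x i| * G.rd J i := by positivity
      constructor
      · have := mul_le_mul_of_nonneg_left (G.sd_rot_mv J i) (abs_nonneg (x i))
        linarith only [b, this]
      · have e0 : (((rot3 (G.rB J) i : ℕ) : ℝ) * x i) ^ 2 = (|x i| * G.rd J i) ^ 2 := by
          rw [mul_pow, mul_pow, sq_abs, mul_comm]; rfl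
        rw [e0]
        nlinarith only [b, b0]
    refine (h.tau.ev_sub_one x).trans ?_
    rw [sqr, Fin.sum_univ_three, Fin.sum_univ_three]
    have := a 0; have := a 1; have := a 2
    linarith

end Geo

variable {G : Geo} {R : Raw} {j : ℕ} {t0 c g0 : ℝ} {AA : ℕ → ℝ}

namespace Run

variable (H : IsNet G R) (S : Run G R j AA t0 c g0)

include H S

/-- The slack of the ladder is absorbed by the slack of the seed. -/
lemma sd_slack {y : ℝ} (hy : 0 ≤ y) :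
    R.cf * (2 * Real.pi * G.n (j + 2)) * zz G R j AA * (G.t ^ 20 * (Real.exp (3 * G.t ^ 10) *
      (Real.exp (-(G.Q / 3)) * (20 * y)))) ≤ Real.exp (-G.W) * (G.d (j + 2) * y) := by
  have hT := G.t_pos
  have hL := G.L_pos
  have hG := G.Ga_pos
  have hl := G.lam_pos (j + 2)
  have ha := G.am_pos (j + 2)
  have hz := S.sd_zz_pos H
  have m1 : 1 ≤ G.m0 := (Real.one_le_exp (mul_pos (by norm_num) G.E_pos).le).trans G.m0_lo
  have m2 : 1 ≤ G.mQ := m1.trans G.m0_le_mQ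
  have h1 : 2 * Real.pi * G.n (j + 2) ≤ G.lam (j + 2) := by
    rw [G.lam_eq]
    exact le_mul_of_one_le_right (by positivity) m1
  have h2 : zz G R j AA ≤ G.t ^ 11 * G.Ga * G.am (j + 2) := by
    have := (S.zz_bounds H).2
    have := H.bh_hi (j + 2)
    have := H.bh_pos (j + 2)
    have := le_mul_of_one_le_right hz.le m2
    linarith
  have h3 : G.L ^ 5 * (Real.exp (3 * G.t ^ 10) * Real.exp (-(G.Q / 3))) ≤ Real.exp (-G.W) := by
    have a0 := G.W_lo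
    have a1 := mul_le_mul_of_nonneg_right G.t_big G.sd_W_pos.le
    have a2 := G.pow_le (show 10 ≤ 20 by norm_num)
    have a3 := G.sd_t_le (show 1 ≤ 20 by norm_num)
    have a4 := G.W_mul
    have := G.sd_L_exp (k := 5) (by norm_num) (y := G.Q / 3 - 3 * G.t ^ 10 - G.W) (by linarith only [hT, a0, a1, a2, a3, a4])
    refine (mul_le_mul_of_nonneg_right this (by positivity)).trans (le_of_eq ?_)
    rw [← Real.exp_add, ← Real.exp_add]; congr 1; ring
  have h4 : 10 * (G.t ^ 42 * G.Ga) ≤ G.L ^ 5 := by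
    have a1 := G.sd_Ga_le (k := 0) (by norm_num)
    have a2 : G.t ^ 42 ≤ G.L ^ 2 := by
      rw [show G.t ^ 42 = (G.t ^ 21) ^ 2 by ring]
      exact pow_le_pow_left₀ (by positivity) G.L_lo 2
    rw [pow_zero, one_mul] at a1
    calc 10 * (G.t ^ 42 * G.Ga) = G.t ^ 42 * (10 * G.Ga) := by ring
      _ ≤ G.L ^ 2 * G.L ^ 3 := by gcongr; linarith only [hG, a1]
      _ = _ := by ring
  calc _ ≤ G.t ^ 11 * G.lam (j + 2) * (G.t ^ 11 * G.Ga * G.am (j + 2)) * (G.t ^ 20 *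
        (Real.exp (3 * G.t ^ 10) * (Real.exp (-(G.Q / 3)) * (20 * y)))) := by
        gcongr
        exact H.cf_hi
    _ = (10 * (G.t ^ 42 * G.Ga)) * (Real.exp (3 * G.t ^ 10) * Real.exp (-(G.Q / 3))) *
        (G.d (j + 2) * y) := by rw [Geo.d, ← G.lam_mul_am]; ring
    _ ≤ G.L ^ 5 * (Real.exp (3 * G.t ^ 10) * Real.exp (-(G.Q / 3))) *
        (G.d (j + 2) * y) := by
        have := G.d_pos (j + 2)
        gcongr
    _ ≤ _ := by
        have := G.d_pos (j + 2)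
        gcongr

omit S in
lemma sd_sp_y (t : ℝ) : Sp (G.ry (j + 1)) (R.y (j + 1) G.La t) := by
  have h := H.spy (j + 1) (G.La - 1) t
  have := G.ten_le_La
  rwa [show G.La - 1 + 1 = G.La by omega] at h

/-- The weighted bound of the product of the last rung and the low modes. -/
lemma sd_wt {g : ℝ → ℝ} (hg : Cmp G R (j + 1) (zz G R j AA) t0 c g) {m : Fin 4 → ℝ}
    (m2 : ∑ o, |m o| ≤ 3 * G.t ^ 10) {t : ℝ} (ht : t ∈ Icc t0 c) (i : Fin 3) {u : ℝ}
    (hu : |u| * G.rd (j + 1) i ≤ G.t / (3000 * G.ρ)) :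
    ‖wt (Pi.single i u) (R.y (j + 1) G.La t * cmb m fun o => R.Z G (j + 2) o t)‖ ≤
      Real.exp (G.t / (2 * 10 ^ 19)) * (zz G R j AA *
        (R.Yq G (j + 1) (R.aa G (j + 1) t) G.La +
          Real.exp (2 * G.t ^ 10) * (Real.exp (-(G.Q / 3)) * (20 * g t)))) / G.N (j + 1) := by
  have hT := G.t_pos
  have hN := G.N_pos (j + 1)
  have hz := S.sd_zz_pos H
  have hgt := S.sd_g_pos H hg ht
  have hY := H.Yq_pos (j + 1) (S.aa_bounds H ht).1 G.La
  obtain ⟨a1, -, a3, a4, a5, a6⟩ := G.sd_wt_hyp (j + 1) i (abs_nonneg u) hu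
  have h1 := (S.sd_lad H hg).wt_le i a3 a4 a5 a6 G.La le_rfl t ht
  have h2 := (S.sd_sp_Zm H m t).l1_wt_le (Pi.single i u)
  have h3 : ∑ k, ((2 * G.n (j + 1) : ℕ) : ℝ) * |(Pi.single i u : R3) k| ≤ 1 := by
    rw [Finset.sum_eq_single i (fun k _ hk => by simp [Pi.single_eq_of_ne hk]) (by simp)]
    simp only [Pi.single_eq_same]
    push_cast
    linarith only [a1]
  have h4 : l1 (wt (Pi.single i u) (cmb m fun o => R.Z G (j + 2) o t)) ≤
      3 * (4 * G.t ^ 10 * zz G R j AA) := by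
    refine h2.trans ?_
    have := l1_nonneg (cmb m fun o => R.Z G (j + 2) o t)
    gcongr
    · exact (Real.exp_le_exp.mpr h3).trans (Real.exp_one_lt_d9.le.trans (by norm_num))
    · exact S.sd_l1_Zm H m2 ht
  have h5 : 12 * G.t ^ 10 * Real.exp (G.t / 10 ^ 20) ≤ Real.exp (G.t / (2 * 10 ^ 19)) := by
    have b1 := G.sd_pow_exp (k := 11) (by norm_num) (y := G.t / (2 * 10 ^ 19) - G.t / 10 ^ 20)
      (by linarith only [hT])
    have b2 := G.pow_lt (show 10 < 11 by norm_num)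
    have : 0 < G.t ^ 10 := by positivity
    calc _ ≤ Real.exp (G.t / (2 * 10 ^ 19) - G.t / 10 ^ 20) * Real.exp (G.t / 10 ^ 20) := by
          gcongr; linarith only [b1, b2, this]
      _ = _ := by rw [← Real.exp_add]; simp
  have h6 : 1 ≤ Real.exp (G.t / 10 ^ 20) := Real.one_le_exp (by positivity)
  rw [wt_mul]
  calc _ ≤ _ := norm_mul_le_l1' _ _
    _ ≤ (Real.exp (G.t / 10 ^ 20) * R.Yq G (j + 1) (R.aa G (j + 1) t) G.La +
          Real.exp (G.t / 10 ^ 20) * (Real.exp (2 * G.t ^ 10) *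
            (Real.exp (-(G.Q / 3)) * (20 * g t)))) / G.N (j + 1) *
          (3 * (4 * G.t ^ 10 * zz G R j AA)) := by
        have := l1_nonneg (wt (Pi.single i u) (cmb m fun o => R.Z G (j + 2) o t))
        gcongr
        refine h1.trans ?_
        have : 0 ≤ Real.exp (2 * G.t ^ 10) * (Real.exp (-(G.Q / 3)) * (20 * g t)) := by
          positivity
        exact div_le_div_of_nonneg_right (add_le_add le_rfl (le_mul_of_one_le_left this h6)) hN.le
    _ = 12 * G.t ^ 10 * Real.exp (G.t / 10 ^ 20) * (zz G R j AA *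
        (R.Yq G (j + 1) (R.aa G (j + 1) t) G.La +
          Real.exp (2 * G.t ^ 10) * (Real.exp (-(G.Q / 3)) * (20 * g t)))) / G.N (j + 1) := by
        ring
    _ ≤ _ := by gcongr

end Run

end

end Pool.Agent.Work.MP_6bf1e5_an.Hyp
end

-- merged part: Pool.Agent.Work.MP_6bf1e5_an.Hyp.Seed
section
/-!
The seeds.
-/

open Set Complex Filter Topology
open scoped InnerProductSpace ComplexConjugate
open Pool.Agent.Work.MP_6bf1e5_an.B (Z3 R3)
open Pool.Agent.Work.MP_6bf1e5_an.Hyp.Dec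

namespace Pool.Agent.Work.MP_6bf1e5_an.Hyp

noncomputable section

/-- The three properties of a seed from the bounds of the unprojected product `q`. -/
lemma Geo.sd_core (G : Geo) (J : ℕ) {q p : V} {s : N3} {mv : Fin 3 → ℝ} {κ c0 z Y Xl X : ℝ}
    (c00 : 0 ≤ c0) (z0 : 0 ≤ z) (Y0 : 0 ≤ Y) (X0 : 0 ≤ Xl)
    (slack : c0 * z * (G.t ^ 20 * (Real.exp (3 * G.t ^ 10) * Xl)) ≤ X)
    (sq : Sp s q) (hs : ∀ i, s i ≤ G.n (J + 1))
    (hwt : ∀ (i : Fin 3) (u : ℝ), |u| * G.rd J i ≤ G.t / (3000 * G.ρ) →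
      ‖wt (Pi.single i u) q‖ ≤
        Real.exp (G.t / (2 * 10 ^ 19)) * (z * (Y + Real.exp (2 * G.t ^ 10) * Xl)) / G.N J)
    (hsup : ∀ x ∈ cube, ‖ev x q‖ ≤
      z * (101 / 100 * Y + 4 * G.t ^ 10 * (Real.exp (3 * G.t ^ 10) * Xl)))
    (hlow : ∀ x : R3, (∀ i, |x i| = th (G.rb (J + 1) i)) → ‖ev x q - ((z * Y : ℝ) : ℂ)‖ ≤
      z * (Y / 100 + 2 * (Real.exp (3 * G.t ^ 10) * Xl)))
    (hp : Drv G.t (G.rd J) mv κ p)
    (hp1 : ∀ x : R3, (∀ i, |x i| = th (G.rb (J + 1) i)) → ‖ev x p - 1‖ ≤ 1 / 1000) :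
    Seed G.t G.ρ (G.rb (J + 1)) (G.rd J) (G.N J) p ((c0 : ℂ) • pj (G.rc (J + 1)) q)
      (c0 * z * Y) X := by
  have hT := G.t_pos
  have hN := G.N_pos J
  set E := Real.exp (3 * G.t ^ 10) * Xl with hE
  have E0 : 0 ≤ E := by positivity
  have p10 := G.sd_t_le (show 1 ≤ 10 by norm_num)
  have e23 : Real.exp (G.t / (2 * 10 ^ 19)) * (Real.exp (2 * G.t ^ 10) * Xl) ≤ E := by
    rw [← mul_assoc, ← Real.exp_add]
    exact mul_le_mul_of_nonneg_right (Real.exp_le_exp.mpr (by linarith only [hT, p10])) X0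
  have x1 : 1 ≤ Real.exp (G.t / (2 * 10 ^ 19)) := Real.one_le_exp (by positivity)
  have e23' : Real.exp (2 * G.t ^ 10) * Xl ≤ E :=
    (le_mul_of_one_le_left (by positivity) x1).trans e23
  have x4 : 4 * Real.exp (G.t / (2 * 10 ^ 19)) ≤ Real.exp (G.t / 10 ^ 19) := by
    have h1 : Real.exp (G.t / 10 ^ 19) =
        Real.exp (G.t / (2 * 10 ^ 19)) * Real.exp (G.t / (2 * 10 ^ 19)) := by
      rw [← Real.exp_add]; congr 1; ring
    have h2 := Real.add_one_le_exp (G.t / (2 * 10 ^ 19))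
    have h3 := G.t_big
    rw [h1]
    gcongr
    linarith only [h2, h3]
  have cz0 : 0 ≤ c0 * z * E := by positivity
  have sl : (10 + 5 * G.t ^ 10) * (c0 * z * E) ≤ X := by
    have h1 := G.pow_lt (show 10 < 20 by norm_num)
    have h2 := one_le_pow₀ (n := 10) G.one_le_t
    refine le_trans ?_ slack
    rw [show c0 * z * (G.t ^ 20 * E) = G.t ^ 20 * (c0 * z * E) by ring]
    gcongr
    linarith only [h1, h2]
  have t10 : 0 ≤ G.t ^ 10 * (c0 * z * E) := by positivity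
  have W0 : 0 ≤ z * (Y + Real.exp (2 * G.t ^ 10) * Xl) := by positivity
  have F0 : 0 ≤ c0 * z * Y := by positivity
  -- the weighted bound of the seed
  have wf : ∀ (i : Fin 3) (u : ℝ), |u| * G.rd J i ≤ G.t / (3000 * G.ρ) →
      ‖wt (Pi.single i u) ((c0 : ℂ) • pj (G.rc (J + 1)) q)‖ ≤
        Real.exp (G.t / (2 * 10 ^ 19)) * (c0 * (z * (Y + Real.exp (2 * G.t ^ 10) * Xl))) /
          G.N J := fun i u hu => by
    rw [map_smul, norm_smul, Complex.norm_real, Real.norm_of_nonneg c00, wt_pj]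
    refine (mul_le_mul_of_nonneg_left ((norm_pj_le _ _).trans (hwt i u hu)) c00).trans
      (le_of_eq (by ring))
  -- the tail of the product
  have tl : l1 (q - pj (G.rc (J + 1)) q) ≤ z * (Y + Real.exp (2 * G.t ^ 10) * Xl) / 1000 :=
    G.sd_tail J W0 sq hs (G.rb_le_rc (J + 1)) fun i u hu => (hwt i u hu).trans (by
      gcongr; linarith only [])
  have evf : ∀ x : R3, ‖ev x ((c0 : ℂ) • pj (G.rc (J + 1)) q) - c0 * ev x q‖ ≤
      (c0 * z * Y + c0 * z * E) / 1000 := fun x => by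
    have e : ev x ((c0 : ℂ) • pj (G.rc (J + 1)) q) - c0 * ev x q =
        -(c0 * ev x (q - pj (G.rc (J + 1)) q)) := by
      rw [map_smul, map_sub, smul_eq_mul]; ring
    rw [e, norm_neg, norm_mul, Complex.norm_real, Real.norm_of_nonneg c00]
    calc _ ≤ c0 * (z * (Y + E) / 1000) := by
          gcongr
          refine (norm_ev_le _ _).trans (tl.trans ?_)
          gcongr
      _ = _ := by ring
  refine ⟨fun i u hu => (wf i u hu).trans ?_, fun x hx => ?_, ?_⟩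
  · refine div_le_div_of_nonneg_right ?_ hN.le
    have h1 := mul_le_mul_of_nonneg_left e23 (mul_nonneg c00 z0)
    have h2 : Real.exp (G.t / (2 * 10 ^ 19)) * (c0 * z * Y) ≤
        Real.exp (G.t / 10 ^ 19) * (c0 * z * Y) := by gcongr; linarith only []
    linarith only [cz0, sl, t10, h1, h2]
  · have h1 := norm_le_norm_sub_add (ev x ((c0 : ℂ) • pj (G.rc (J + 1)) q)) (c0 * ev x q)
    have h2 := evf x
    have h3 := mul_le_mul_of_nonneg_left (hsup x hx) c00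
    rw [norm_mul, Complex.norm_real, Real.norm_of_nonneg c00] at h1
    linarith only [cz0, sl, t10, F0, h1, h2, h3]
  · set f := (c0 : ℂ) • pj (G.rc (J + 1)) q with hf
    have sw : Sp (fun i => 2 * G.rd J i + G.rc (J + 1) i) (dag p * f) :=
      hp.supp.dag.mul ((sp_pj _ _).smul _)
    have tw : l1 (dag p * f - pj (G.rb (J + 1)) (dag p * f)) ≤
        c0 * (z * (Y + Real.exp (2 * G.t ^ 10) * Xl)) / 1000 := by
      refine G.sd_tail J (by (clear * - c00 z0 Y0 X0; positivity)) sw (G.sd_supp J) (fun _ => le_rfl) fun i u hu => ?_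
      have a1 := (G.sd_wt_hyp J i (abs_nonneg u) hu).2.1
      have a2 : l1 (wt (Pi.single i u) (dag p)) ≤ 4 := by
        rw [wt_dag, l1_dag, ← Pi.single_neg]
        exact hp.l1_wt_le i (by rwa [abs_neg])
      rw [wt_mul]
      calc _ ≤ _ := norm_mul_le_l1 _ _
        _ ≤ 4 * (Real.exp (G.t / (2 * 10 ^ 19)) *
            (c0 * (z * (Y + Real.exp (2 * G.t ^ 10) * Xl))) / G.N J) := by
          gcongr
          exact wf i u hu
        _ = 4 * Real.exp (G.t / (2 * 10 ^ 19)) *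
            (c0 * (z * (Y + Real.exp (2 * G.t ^ 10) * Xl))) / G.N J := by ring
        _ ≤ _ := by (clear * - c00 z0 Y0 X0 hN x4; gcongr)
    have tw' : c0 * (z * (Y + Real.exp (2 * G.t ^ 10) * Xl)) ≤ c0 * z * Y + c0 * z * E := by
      have := mul_le_mul_of_nonneg_left e23' (mul_nonneg c00 z0)
      linarith only [this]
    have hS : ∀ x : R3, (∀ i, |x i| = th (G.rb (J + 1) i)) →
        ‖ev x (dag p * f - ((c0 * z * Y : ℝ) : ℂ) • dl)‖ ≤
          c0 * z * Y / 50 + 3 * (c0 * z * E) := fun x hx => by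
      have e : ev x (dag p * f - ((c0 * z * Y : ℝ) : ℂ) • dl) =
          conj (ev x p) * ((ev x f - c0 * ev x q) + c0 * (ev x q - ((z * Y : ℝ) : ℂ))) +
            ((c0 * z * Y : ℝ) : ℂ) * conj (ev x p - 1) := by
        rw [map_sub, map_mul, map_smul (ev x) _ dl, ev_dag, ev_dl, map_sub, map_one]
        push_cast
        simp only [smul_eq_mul]
        ring
      have b1 := hp.ev_le (corner_mem_cube3 hx)
      have b2 := evf x
      have b3 := mul_le_mul_of_nonneg_left (hlow x hx) c00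
      have b4 := mul_le_mul_of_nonneg_left (hp1 x hx) F0
      have b5 := norm_add_le (ev x f - c0 * ev x q) (c0 * (ev x q - ((z * Y : ℝ) : ℂ)))
      rw [norm_mul, Complex.norm_real, Real.norm_of_nonneg c00] at b5
      rw [e]
      refine (norm_add_le _ _).trans ?_
      rw [norm_mul, norm_mul, RCLike.norm_conj, RCLike.norm_conj, Complex.norm_real,
        Real.norm_of_nonneg F0]
      have b6 := mul_le_of_le_one_left
        (norm_nonneg ((ev x f - c0 * ev x q) + c0 * (ev x q - ((z * Y : ℝ) : ℂ)))) b1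
      linarith only [cz0, F0, b2, b3, b4, b5, b6]
    have h1 := norm_inner_ph_le _ hS
    have d0 : pj (G.rb (J + 1)) dl = dl := (sp_sh (zero_mem_bx _)).pj_eq
    have e1 : dag p * f - ((c0 * z * Y : ℝ) : ℂ) • dl -
        pj (G.rb (J + 1)) (dag p * f - ((c0 * z * Y : ℝ) : ℂ) • dl) =
        dag p * f - pj (G.rb (J + 1)) (dag p * f) := by
      rw [map_sub, map_smul, d0]; abel
    rw [e1, inner_sub_right, inner_smul_right, inner_ph_dl, ← inner_mul_left,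
      ← Complex.ofReal_mul] at h1
    have n0 := Nn_pos (G.rb (J + 1))
    have h2 := (abs_le.mp ((Complex.abs_re_le_norm _).trans h1)).1
    rw [Complex.sub_re, Complex.ofReal_re] at h2
    have h3 := mul_le_mul_of_nonneg_left h2 n0.le
    rw [mul_neg, mul_inv_cancel_left₀ n0.ne', mul_sub, mul_comm (c0 * z * Y),
      mul_inv_cancel_left₀ n0.ne'] at h3
    linarith only [cz0, sl, t10, F0, tw, tw', h3]

variable {G : Geo} {R : Raw} {j : ℕ} {t0 c g0 : ℝ} {AA : ℕ → ℝ}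

namespace Run

variable (H : IsNet G R) (S : Run G R j AA t0 c g0)

include H S

theorem lad {g : ℝ → ℝ} (hg : Cmp G R (j + 1) (zz G R j AA) t0 c g) :
    Lad G.t G.L (10 ^ 5 / G.t ^ 4) (G.D (j + 1)) (G.N (j + 1)) (G.ell (j + 1)) t0 c G.La
      (G.rB (j + 1)) (G.ry (j + 1)) (G.mv (j + 1)) (R.pB G (j + 1)) (R.y (j + 1))
      (fun t => R.bh G (j + 1) * R.aa G (j + 1) t) (fun t => Real.exp (-(G.Q / 3)) * (20 * g t))
      (fun i => R.cy i * G.lam (j + 1)) (fun i t => R.Yq G (j + 1) (R.aa G (j + 1) t) i)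
      (R.vy (j + 1)) :=
  S.sd_lad H hg

theorem seed {g : ℝ → ℝ} (hg : Cmp G R (j + 1) (zz G R j AA) t0 c g) {m : Fin 4 → ℝ}
    (m1 : ∑ o, m o = 1) (m2 : ∑ o, |m o| ≤ 3 * G.t ^ 10) : ∀ t ∈ Icc t0 c,
    Seed G.t G.ρ (G.rb (j + 2)) (G.rd (j + 1)) (G.N (j + 1)) (R.pp G (j + 1) t)
      (cmb m fun o => R.f G (j + 1) o t) (R.Fs G (j + 1) (zz G R j AA) (R.aa G (j + 1) t))
      (Real.exp (-G.W) * (G.d (j + 2) * g t)) := by
  intro t ht
  have hT := G.t_pos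
  have hz := S.sd_zz_pos H
  have hgt := S.sd_g_pos H hg ht
  have hY := H.Yq_pos (j + 1) (S.aa_bounds H ht).1 G.La
  have hcf := H.cf_lo
  have L := S.lad H hg
  have e4 := G.sd_exp4
  have e4' := G.sd_exp4'
  have p10 := one_le_pow₀ (n := 10) G.one_le_t
  have hZ : ∀ x : R3, (∀ i, |x i| * G.n (j + 1) ≤ G.t) →
      ‖ev x (cmb m fun o => R.Z G (j + 2) o t)‖ ≤ 1001 / 1000 * zz G R j AA := fun x hx => by
    have h1 := norm_le_norm_sub_add (ev x (cmb m fun o => R.Z G (j + 2) o t)) (zz G R j AA : ℂ)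
    have h2 := S.sd_ev_Zm H m1 m2 ht hx
    rw [Complex.norm_real, Real.norm_of_nonneg hz.le] at h1
    linarith only [h1, h2]
  rw [sd_cmb_f]
  set Y := R.Yq G (j + 1) (R.aa G (j + 1) t) G.La with hYd
  set E := Real.exp (3 * G.t ^ 10) * (Real.exp (-(G.Q / 3)) * (20 * g t)) with hE
  have E0 : 0 < E := by positivity
  refine G.sd_core (j + 1) (Xl := Real.exp (-(G.Q / 3)) * (20 * g t)) (by positivity) hz.le
    hY.le (by positivity) (S.sd_slack H hgt.le) ((sd_sp_y H t).mul (S.sd_sp_Zm H m t))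
    (fun i => ?_) (fun i u hu => S.sd_wt H hg m2 ht i hu) (fun x hx => ?_) (fun x hx => ?_)
    (S.cur H t ht).drv.tau (fun x hx => (G.sd_corner_ev (j + 1) (S.cur H t ht).drv hx).2)
  · have := G.sd_ten_n (j + 1)
    simp only [Pi.add_apply, Geo.ry]
    omega
  · rw [map_mul, norm_mul]
    rcases le_total (sqr (G.rB (j + 1)) x) (G.t ^ 16)⁻¹ with hr | hr
    · have h1 := L.sup_le (G.sd_Wts (j + 1)) hx le_rfl
        (fun s hs => (S.cur H s hs).drv.ev_le hx) G.La le_rfl t ht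
      have h2 := hZ x (G.sd_near_box (j + 1) hr)
      rw [one_pow] at h1
      have h3 : ‖ev x (R.y (j + 1) G.La t)‖ ≤ 1001 / 1000 * Y + E := by
        refine h1.trans (add_le_add ?_ le_rfl)
        gcongr
        linarith only [e4']
      calc _ ≤ (1001 / 1000 * Y + E) * (1001 / 1000 * zz G R j AA) := by gcongr
        _ = zz G R j AA * (1001 / 1000 * (1001 / 1000) * Y + 1001 / 1000 * E) := by ring
        _ ≤ _ := by
          gcongr
          · norm_num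
          · linarith only [p10]
    · have i16 : 0 < (G.t ^ 16)⁻¹ := by positivity
      have h1 := L.sup_le (G.sd_Wts (j + 1)) hx (ϑ := 1 - (G.t ^ 16)⁻¹ / (2 * 10 ^ 10))
        (by linarith only [div_pos i16 (show (0 : ℝ) < 2 * 10 ^ 10 by positivity)])
        (fun s hs => G.sd_far (S.cur H s hs).drv hx hr) G.La le_rfl t ht
      have h2 := (norm_ev_le x _).trans (S.sd_l1_Zm H m2 ht)
      have h3 : ‖ev x (R.y (j + 1) G.La t)‖ ≤ 2 * Real.exp (-G.t ^ 4) * Y + E := by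
        refine h1.trans (add_le_add ?_ le_rfl)
        have := G.sd_far_pow
        gcongr
        linarith only [this]
      calc _ ≤ (2 * Real.exp (-G.t ^ 4) * Y + E) * (4 * G.t ^ 10 * zz G R j AA) := by gcongr
        _ = zz G R j AA * (8 * G.t ^ 10 * Real.exp (-G.t ^ 4) * Y + 4 * G.t ^ 10 * E) := by ring
        _ ≤ _ := by
          gcongr
          linarith only [e4]
  · have hn : ∀ i, |x i| * G.n (j + 1) ≤ G.t := fun i => by
      have a1 := (G.sd_scale (j + 1) i (abs_nonneg _) (G.sd_corner hx i)).1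
      have a2 : G.t ^ 4 * (2 / G.ρ) ≤ 1 := by
        have := G.pow_lt (show 4 < 17 by norm_num)
        have := G.ρ_lo
        have : 0 < G.t ^ 4 := by positivity
        rw [← mul_div_assoc, div_le_one G.ρ_pos]
        linarith
      have := G.one_le_t
      linarith only [a1, a2, this]
    have hb : R.bh G (j + 1) * R.aa G (j + 1) t0 ≤ Real.exp (-(G.Q / 3)) * (20 * g t0) := by
      have b1 := (S.aa_bounds H (left_mem_Icc.mpr S.le)).2
      have b2 := H.bh_mono (show j + 1 ≤ j + 1 + 1 by omega)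
      have b3 := H.bh_pos (j + 1)
      have b4 := G.sd_exp_Q
      rw [hg.init]
      nlinarith only [b1, b2, b3, b4]
    have h1 := L.near_le' (G.sd_Wts (j + 1)) (corner_mem_cube3 hx) hb
      (fun s hs => G.sd_corner_ev (j + 1) (S.cur H s hs).drv hx) G.La le_rfl t ht
    have e1 : (G.La : ℝ) * (1 / (1000 * G.L)) = 1 / 1000 := by
      have := G.L_pos
      rw [G.La_eq]; field_simp
    rw [e1] at h1
    have h2 := hZ x hn
    have h3 := S.sd_ev_Zm H m1 m2 ht hn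
    have h4 : ‖ev x (R.y (j + 1) G.La t) - (Y : ℂ)‖ ≤ 3 / 1000 * Y + E := by
      refine h1.trans (add_le_add ?_ le_rfl)
      gcongr
      linarith only [e4']
    have e2 : ev x (R.y (j + 1) G.La t * cmb m fun o => R.Z G (j + 1 + 1) o t) -
        ((zz G R j AA * Y : ℝ) : ℂ) =
        (ev x (R.y (j + 1) G.La t) - (Y : ℂ)) * ev x (cmb m fun o => R.Z G (j + 2) o t) +
          (Y : ℂ) * (ev x (cmb m fun o => R.Z G (j + 2) o t) - (zz G R j AA : ℂ)) := by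
      rw [map_mul]; push_cast; ring
    rw [e2]
    refine (norm_add_le _ _).trans ?_
    rw [norm_mul, norm_mul, Complex.norm_real, Real.norm_of_nonneg hY.le]
    calc _ ≤ (3 / 1000 * Y + E) * (1001 / 1000 * zz G R j AA) + Y * (zz G R j AA / 1000) := by
          (clear * - hgt hY h2 h3 h4; gcongr)
      _ = zz G R j AA * ((3 / 1000 * (1001 / 1000) + 1 / 1000) * Y + 1001 / 1000 * E) := by ring
      _ ≤ _ := by
        gcongr
        · linarith only [hY]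
        · norm_num

end Run

end

end Pool.Agent.Work.MP_6bf1e5_an.Hyp
end

-- merged part: Pool.Agent.Work.MP_6bf1e5_an.Hyp.Phase2
section
/-!
The second phase: convergence to the ground state.
-/

open Set Complex Filter Topology
open scoped InnerProductSpace ComplexConjugate
open Pool.Agent.Work.MP_6bf1e5_an.B (Z3 R3)
open Pool.Agent.Work.MP_6bf1e5_an.Hyp.Dec

namespace Pool.Agent.Work.MP_6bf1e5_an.Hyp

noncomputable section

namespace P2

lemma big {T : ℝ} (hT : (10 : ℝ) ^ 100 ≤ T) {k : ℕ} (hk : 1 ≤ k) : (10 : ℝ) ^ 100 ≤ T ^ k :=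
  hT.trans (le_self_pow₀ (le_trans (by norm_num) hT) (by omega))

lemma T_le_rho {T ρ : ℝ} (hT : (10 : ℝ) ^ 100 ≤ T) (hρ : T ^ 17 ≤ ρ) {k : ℕ} (hk : k ≤ 17) :
    T ^ k ≤ ρ := (pow_le_pow_right₀ (le_trans (by norm_num) hT) hk).trans hρ

lemma exp_neg_le {T ρ y : ℝ} (hT : (10 : ℝ) ^ 100 ≤ T) (hρ : T ^ 17 ≤ ρ)
    (hρ' : ρ ^ 1000 ≤ Real.exp (T / 10 ^ 50)) (hy : T ≤ y) :
    Real.exp (-y) ≤ 1 / (T ^ 4 * ρ ^ 3) := by
  have T0 : 0 < T := lt_of_lt_of_le (by positivity) hT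
  have ρb := Cn2.rho_big hT hρ
  have ρ0 : 0 < ρ := lt_of_lt_of_le (by positivity) ρb
  have ρ1 : 1 ≤ ρ := le_trans (by norm_num) ρb
  rw [Real.exp_neg, one_div]
  refine inv_anti₀ (by positivity) ?_
  have a1 : T ^ 4 * ρ ^ 3 ≤ ρ ^ 4 := by
    have := mul_le_mul_of_nonneg_right (T_le_rho hT hρ (k := 4) (by norm_num))
      (by positivity : 0 ≤ ρ ^ 3)
    linarith only [this, show ρ * ρ ^ 3 = ρ ^ 4 by ring]
  have a2 : ρ ^ 4 ≤ ρ ^ 1000 := pow_le_pow_right₀ ρ1 (by norm_num)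
  have a3 : T / 10 ^ 50 ≤ y := (div_le_self T0.le (by norm_num)).trans hy
  exact a1.trans (a2.trans (hρ'.trans (Real.exp_le_exp.2 a3)))

lemma le_pow' {T : ℝ} (hT : (10 : ℝ) ^ 100 ≤ T) {k : ℕ} (hk : 1 ≤ k) : 4 * T ≤ T ^ (k + 1) := by
  have h := big hT hk
  have T0 : 0 < T := lt_of_lt_of_le (by positivity) hT
  rw [pow_succ]
  have : (4 : ℝ) ≤ 10 ^ 100 := by norm_num
  nlinarith only [hT, h]

/-- the loss in the growth rate -/
lemma num1 {T ρ s G ε ω l : ℝ} (hT : (10 : ℝ) ^ 100 ≤ T) (hρ : T ^ 17 ≤ ρ) (hs : 0 < s)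
    (hG : G ≤ 101 * T ^ 3) (hε : ε ≤ s / (T ^ 4 * ρ ^ 3)) (hω : ω ≤ 100 * (s / (T ^ 4 * ρ ^ 3)))
    (hl : l ≤ s / (T ^ 4 * ρ ^ 3)) (ω0 : 0 ≤ ω) (l0 : 0 ≤ l) :
    √G * (s / (T ^ 8 * ρ) + ω + 5 * l) + 2 * ε + s / (T ^ 13 * ρ) <
      1 / (400 * (T ^ 6 * ρ)) * s := by
  have T0 : 0 < T := lt_of_lt_of_le (by positivity) hT
  have ρb := Cn2.rho_big hT hρ
  have ρ0 : 0 < ρ := lt_of_lt_of_le (by positivity) ρb
  have ρ1 : 1 ≤ ρ := le_trans (by norm_num) ρb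
  have h1 : √G ≤ T ^ 2 / 10 ^ 6 := by
    refine Real.sqrt_le_iff.2 ⟨by positivity, hG.trans ?_⟩
    have : (101 : ℝ) * 10 ^ 12 ≤ T := le_trans (by norm_num) hT
    have := mul_le_mul_of_nonneg_right this (by positivity : 0 ≤ T ^ 3)
    rw [div_pow, le_div_iff₀ (by positivity)]
    linarith only [this]
  obtain ⟨u, hu⟩ : ∃ u, u = s / (T ^ 13 * ρ) := ⟨_, rfl⟩
  have u0 : 0 < u := by rw [hu]; positivity
  have hw : s / (T ^ 4 * ρ ^ 3) ≤ u := by
    rw [hu]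
    refine div_le_div_of_nonneg_left hs.le (by positivity) ?_
    have b1 := T_le_rho hT hρ (k := 9) (by norm_num)
    have b2 : ρ ≤ ρ ^ 2 := le_self_pow₀ ρ1 (by norm_num)
    have := mul_le_mul_of_nonneg_left (b1.trans b2) (by positivity : 0 ≤ T ^ 4 * ρ)
    linarith only [this, show T ^ 4 * ρ * T ^ 9 = T ^ 13 * ρ by ring,
      show T ^ 4 * ρ * ρ ^ 2 = T ^ 4 * ρ ^ 3 by ring]
  have e1 : s / (T ^ 8 * ρ) = u * T ^ 5 := by rw [hu]; field_simp
  have e3 : 1 / (400 * (T ^ 6 * ρ)) * s = u * T ^ 7 / 400 := by rw [hu]; field_simp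
  rw [e1, e3, ← hu]
  have a1 := big hT (k := 5) (by norm_num)
  have a2 := big hT (k := 7) (by norm_num)
  have a4 : u * T ^ 5 + ω + 5 * l ≤ 2 * (u * T ^ 5) := by
    have : u * 105 ≤ u * T ^ 5 := mul_le_mul_of_nonneg_left (le_trans (by norm_num) a1) u0.le
    linarith only [hω, hl, hw, this]
  have a5 := mul_le_mul h1 a4 (by positivity) (by positivity)
  have a7 : u * 10 ^ 6 ≤ u * T ^ 7 :=
    mul_le_mul_of_nonneg_left (le_trans (by norm_num) a2) u0.le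
  have a8 : 0 < u * T ^ 7 := by positivity
  have e4 : T ^ 2 / 10 ^ 6 * (2 * (u * T ^ 5)) = u * T ^ 7 * (2 / 10 ^ 6) := by ring
  rw [e4] at a5
  linarith only [hε, u0, hw, a5, a7]

/-- the decay of the cone function -/
lemma num2 {T ρ s μ X ε ω l : ℝ} (hT : (10 : ℝ) ^ 100 ≤ T) (hρ : T ^ 17 ≤ ρ) (hs : 0 < s)
    (μ1 : 2 / ρ ^ 2 ≤ μ) (μ2 : μ ≤ 4 / ρ ^ 2) (X0 : 0 ≤ X) (X1 : X ≤ 100 * T ^ 3)
    (hε : ε ≤ s / (T ^ 4 * ρ ^ 3)) (hω : ω ≤ 100 * (s / (T ^ 4 * ρ ^ 3)))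
    (hl : l ≤ s / (T ^ 4 * ρ ^ 3)) :
    -(1 / 10 ^ 11 * s * μ) * (1 / 2 + 1 / 10 ^ 62 / 2 + X - 1 / 2) +
      10 ^ 13 * s * μ * (10 ^ 25 / T ^ 4 + μ) * (1 + X) ^ 2 + 10 * (1 + X) ^ 2 * (ε + ω + l) <
      -(1 / 10 ^ 11 / 2 * μ * s * X) := by
  have T0 : 0 < T := lt_of_lt_of_le (by positivity) hT
  have T1 : 1 ≤ T := le_trans (by norm_num) hT
  have ρb := Cn2.rho_big hT hρ
  have ρ0 : 0 < ρ := lt_of_lt_of_le (by positivity) ρb
  have μ0 : 0 < μ := lt_of_lt_of_le (by positivity) μ1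
  have a1 : μ ≤ 1 / T ^ 4 := by
    refine μ2.trans ?_
    rw [div_le_div_iff₀ (by positivity) (by positivity)]
    have := mul_le_mul ρb (T_le_rho hT hρ (k := 4) (by norm_num)) (by positivity) ρ0.le
    have e : ρ * ρ = ρ ^ 2 := by ring
    have : 0 ≤ T ^ 4 := by positivity
    linarith
  have a2 : ε + ω + l ≤ s * μ * (1 / T ^ 4) := by
    have b1 : 102 * (s / (T ^ 4 * ρ ^ 3)) ≤ s * (2 / ρ ^ 2) * (1 / T ^ 4) := by
      have e1 : s * (2 / ρ ^ 2) * (1 / T ^ 4) = 2 * ρ * (s / (T ^ 4 * ρ ^ 3)) := by field_simp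
      rw [e1]
      exact mul_le_mul_of_nonneg_right (by linarith only [ρb, show (102 : ℝ) ≤ 10 ^ 100 by norm_num])
        (by positivity)
    have b2 : s * (2 / ρ ^ 2) * (1 / T ^ 4) ≤ s * μ * (1 / T ^ 4) := by gcongr
    linarith only [hε, hω, hl, b1, b2]
  obtain ⟨v, hv⟩ : ∃ v, v = 1 / T ^ 4 := ⟨_, rfl⟩
  have v0 : 0 < v := by rw [hv]; positivity
  have e1 : (10 : ℝ) ^ 25 / T ^ 4 = 10 ^ 25 * v := by rw [hv]; ring
  rw [← hv] at a1 a2
  rw [e1]
  have v1 : v * T ^ 3 ≤ 1 / 10 ^ 100 := by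
    have : v * T ^ 3 = 1 / T := by rw [hv]; field_simp
    rw [this]
    exact one_div_le_one_div_of_le (by positivity) hT
  have v2 : v ≤ 1 / 10 ^ 200 := by
    rw [hv]
    refine one_div_le_one_div_of_le (by positivity) ?_
    have h1 := pow_le_pow_left₀ (by positivity) hT 2
    have h2 : T ^ 2 ≤ T ^ 4 := pow_le_pow_right₀ T1 (by norm_num)
    have e : ((10 : ℝ) ^ 100) ^ 2 = 10 ^ 200 := by norm_num
    linarith only [h1, h2]
  have a3 : v * (1 + X) ^ 2 ≤ 2 / 10 ^ 200 + 200 / 10 ^ 100 * X := by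
    have b1 : (1 + X) ^ 2 ≤ 2 + 2 * (X * (100 * T ^ 3)) := by
      have := mul_le_mul_of_nonneg_left X1 X0
      linarith only [this, sq_nonneg (1 - X)]
    have b2 := mul_le_mul_of_nonneg_left b1 v0.le
    have b3 := mul_le_mul_of_nonneg_left v1 X0
    linarith only [v2, b2, b3]
  obtain ⟨m, hm⟩ : ∃ m, m = s * μ := ⟨_, rfl⟩
  have m0 : 0 < m := by rw [hm]; positivity
  have a4 : 10 ^ 13 * s * μ * (10 ^ 25 * v + μ) * (1 + X) ^ 2 ≤
      2 * 10 ^ 38 * (m * (v * (1 + X) ^ 2)) := by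
    have : s * μ * (1 + X) ^ 2 * μ ≤ s * μ * (1 + X) ^ 2 * v :=
      mul_le_mul_of_nonneg_left a1 (by positivity)
    have : 0 ≤ s * μ * (1 + X) ^ 2 * v := by positivity
    rw [hm]
    linarith
  have a5 : 10 * (1 + X) ^ 2 * (ε + ω + l) ≤ 10 * (m * (v * (1 + X) ^ 2)) := by
    have := mul_le_mul_of_nonneg_left a2 (sq_nonneg (1 + X))
    rw [hm]
    linarith only [this]
  have a6 := mul_le_mul_of_nonneg_left a3 m0.le
  have a7 : 0 ≤ m * X := by positivity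
  have e2 : -(1 / 10 ^ 11 * s * μ) * (1 / 2 + 1 / 10 ^ 62 / 2 + X - 1 / 2) =
      -(1 / 10 ^ 73 / 2 * m) - 1 / 10 ^ 11 * (m * X) := by rw [hm]; ring
  have e3 : -(1 / 10 ^ 11 / 2 * μ * s * X) = -(1 / 10 ^ 11 / 2 * (m * X)) := by rw [hm]; ring
  rw [e2, e3]
  linarith only [m0, a4, a5, a6, a7]

lemma num3 {T ρ Γ μ u : ℝ} (hT : (10 : ℝ) ^ 100 ≤ T) (hρ : T ^ 17 ≤ ρ)
    (hρ' : ρ ^ 1000 ≤ Real.exp (T / 10 ^ 50)) (hΓ : T ^ 8 * ρ ^ 2 ≤ Γ) (μ1 : 2 / ρ ^ 2 ≤ μ)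
    (hu : Γ / 20 ≤ u) :
    100 * T ^ 3 * Real.exp (-(1 / 10 ^ 11 / 2 * μ * u)) ≤ 1 / 10 ^ 62 / 2 := by
  have T0 : 0 < T := lt_of_lt_of_le (by positivity) hT
  have ρb := Cn2.rho_big hT hρ
  have ρ0 : 0 < ρ := lt_of_lt_of_le (by positivity) ρb
  have ρ1 : 1 ≤ ρ := le_trans (by norm_num) ρb
  have hu' : T ^ 8 * ρ ^ 2 / 20 ≤ u := le_trans (by linarith only [hΓ]) hu
  have a1 : 2 / ρ ^ 2 * (T ^ 8 * ρ ^ 2 / 20) ≤ μ * u :=
    mul_le_mul μ1 hu' (by positivity) (le_trans (by positivity) μ1)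
  have e : 2 / ρ ^ 2 * (T ^ 8 * ρ ^ 2 / 20) = T ^ 7 * T / 10 := by field_simp; norm_num
  have a2 := mul_le_mul_of_nonneg_right (big hT (k := 7) (by norm_num)) T0.le
  have a3 := exp_neg_le hT hρ hρ' (y := 1 / 10 ^ 11 / 2 * μ * u) (by linarith only [hT, a1, e, a2])
  refine (mul_le_mul_of_nonneg_left a3 (by positivity)).trans ?_
  have e2 : 100 * T ^ 3 * (1 / (T ^ 4 * ρ ^ 3)) = 100 / (T * ρ ^ 3) := by field_simp
  rw [e2, div_le_iff₀ (by positivity)]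
  have a4 : T * 1 ≤ T * ρ ^ 3 := mul_le_mul_of_nonneg_left (one_le_pow₀ ρ1) T0.le
  linarith only [hT, a4]

lemma two_le {T E : ℝ} (hT : (10 : ℝ) ^ 100 ≤ T) (hE : T ^ 19 ≤ E) :
    2 * Real.exp (-(E / 4)) ≤ 1 := by
  have h1 := Real.add_one_le_exp (E / 4)
  have h2 := big hT (k := 19) (by norm_num)
  rw [Real.exp_neg, ← div_eq_mul_inv, div_le_one (Real.exp_pos _)]
  linarith

end P2

open P2 Cn2

theorem phase2 {T ρ Γ E κ d l t2 t3 : ℝ} {r n : N3} {mv : Fin 3 → ℝ} {vb vc : Z3 → ℝ}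
    {p b c : ℝ → V} {s g τ : ℝ → ℝ} (hT : (10 : ℝ) ^ 100 ≤ T) (hρ : T ^ 17 ≤ ρ)
    (hρ' : ρ ^ 1000 ≤ Real.exp (T / 10 ^ 50)) (hΓ : T ^ 8 * ρ ^ 2 ≤ Γ) (hΓ' : Γ ≤ T ^ 6 * ρ * E)
    (hE : T ^ 19 ≤ E) (hκ : κ ≤ 10 ^ 5 / T ^ 4)
    (hn : ∀ i, (n i : ℝ) + 1 = ρ * r i) (h0 : 0 ≤ t2) (h1 : t2 ≤ t3)
    (hp : ∀ t ∈ Icc t2 t3, Drv T r mv κ (p t) ∧ ∃ p', HD p p' t ∧ Sp (fun i => 2 * r i) p' ∧
      ev 0 p' = 0 ∧ l1 p' ≤ s t / (T ^ 4 * ρ ^ 2))
    (hs : ∀ t ∈ Icc t2 t3, 0 < s t ∧ HD τ (s t) t ∧ l ≤ Real.exp (-T ^ 2) * s t)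
    (τ1 : τ t3 - τ t2 ≤ 100 * Γ) (τ2 : Γ / 20 ≤ τ t3 - τ t2)
    (hg : ∀ t ∈ Icc t2 t3, 0 < g t ∧ ∃ D, HD g D t ∧ D ≤ (s t - d + s t / (T ^ 13 * ρ)) * g t)
    (he : ∀ t ∈ Icc t2 t3, Rl (b t) ∧ ∃ e0 e1, ‖e0‖ ≤ Real.exp (-E) * (s t * g t / Nn n) ∧
      ‖e1‖ ≤ Real.exp (-E) * (s t * g t / Nn n) ∧
      Pair r n l d (s t) t vb vc (p t) b c e0 e1)
    (i1 : g t2 ≤ 2 * (Nn n * al n (p t2) (b t2) (c t2)))
    (i2 : nr (b t2) (c t2) ^ 2 ≤ 100 * T ^ 3 * al n (p t2) (b t2) (c t2) ^ 2) :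
    Real.exp (-(E / 2)) * g t3 ≤ Nn n * al n (p t3) (b t3) (c t3) ∧
      nr (b t3) (c t3) ^ 2 ≤ (1 / 2 + 1 / 10 ^ 62) * al n (p t3) (b t3) (c t3) ^ 2 := by
  have T0 : 0 < T := lt_of_lt_of_le (by positivity) hT
  have T1 : 1 ≤ T := le_trans (by norm_num) hT
  have ρb := rho_big hT hρ
  have ρ0 : 0 < ρ := lt_of_lt_of_le (by positivity) ρb
  have N0 := Nn_pos n
  have μ0 : 0 ≤ mu ρ := sq_nonneg _
  obtain ⟨α, hα⟩ : ∃ α : ℝ → ℝ, α = fun t => al n (p t) (b t) (c t) := ⟨_, rfl⟩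
  obtain ⟨F, hF⟩ : ∃ F : ℝ → ℝ, F = fun t => nr (b t) (c t) ^ 2 := ⟨_, rfl⟩
  obtain ⟨X, hX⟩ : ∃ X : ℝ → ℝ, X = fun t =>
    100 * T ^ 3 * Real.exp (-(1 / 10 ^ 11 / 2 * mu ρ * (τ t - τ t2))) := ⟨_, rfl⟩
  obtain ⟨Y, hY⟩ : ∃ Y : ℝ → ℝ, Y = fun t =>
    Real.exp (-(1 / (400 * (T ^ 6 * ρ)) * (τ t - τ t2))) := ⟨_, rfl⟩
  have eα : ∀ t, al n (p t) (b t) (c t) = α t := fun t => by rw [hα]
  have eE : ∀ t, nr (b t) (c t) ^ 2 = F t := fun t => by rw [hF]
  have mono : ∀ t ∈ Icc t2 t3, 0 ≤ τ t - τ t2 ∧ τ t - τ t2 ≤ 100 * Γ := fun t ht => by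
    have H : ∀ t ∈ Icc t2 t3, ∃ D, HD τ D t ∧ 0 ≤ D := fun t ht =>
      ⟨_, (hs t ht).2.1, (hs t ht).1.le⟩
    have a1 := mono_of_deriv h0 H le_rfl ht.1 ht.2
    have a2 := mono_of_deriv h0 H ht.1 ht.2 le_rfl
    constructor <;> linarith only [a1, τ1, a2]
  have dX : ∀ t ∈ Icc t2 t3, HD X (-(1 / 10 ^ 11 / 2 * mu ρ * s t * X t)) t := fun t ht => by
    rw [hX]
    convert ((((hs t ht).2.1.sub_const (τ t2)).const_mul (1 / 10 ^ 11 / 2 * mu ρ)).fun_neg.exp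
      ).const_mul (100 * T ^ 3) using 1
    ring
  have dY : ∀ t ∈ Icc t2 t3, HD Y (-(1 / (400 * (T ^ 6 * ρ)) * s t * Y t)) t := fun t ht => by
    rw [hY]
    convert (((hs t ht).2.1.sub_const (τ t2)).const_mul (1 / (400 * (T ^ 6 * ρ)))).fun_neg.exp using 1
    ring
  have X0 : ∀ t, 0 ≤ X t := fun t => by rw [hX]; positivity
  have Y0 : ∀ t, 0 < Y t := fun t => by rw [hY]; positivity
  have X1 : ∀ t ∈ Icc t2 t3, X t ≤ 100 * T ^ 3 := fun t ht => by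
    rw [hX]
    refine mul_le_of_le_one_right (by positivity) (Real.exp_le_one_iff.2 ?_)
    have := (mono t ht).1
    have : 0 ≤ 1 / 10 ^ 11 / 2 * mu ρ * (τ t - τ t2) := by (clear * - μ0 this; positivity)
    linarith only [this]
  have Y1 : ∀ t ∈ Icc t2 t3, Real.exp (-(E / 4)) ≤ Y t := fun t ht => by
    rw [hY]
    refine Real.exp_le_exp.2 (neg_le_neg ?_)
    have a1 : τ t - τ t2 ≤ 100 * (T ^ 6 * ρ * E) := by linarith only [hΓ', (mono t ht).2]
    refine (mul_le_mul_of_nonneg_left a1 (by positivity)).trans (le_of_eq ?_)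
    field_simp
    ring
  have dα : ∀ t ∈ Icc t2 t3, ∃ D, HD α D t := fun t ht => by
    obtain ⟨-, p', dp, -⟩ := hp t ht
    obtain ⟨-, e0, e1, -, -, P⟩ := he t ht
    rw [hα]
    exact hd_al n dp P.eb P.ec
  have dE : ∀ t ∈ Icc t2 t3, ∃ D, HD F D t := fun t ht => by
    obtain ⟨-, e0, e1, -, -, P⟩ := he t ht
    rw [hF]
    exact ⟨_, hd_nr_sq P.eb P.ec⟩
  have key := family_barrier (ι := Bool) (a := t2) (b := t3)
    (H := fun i t => if i then F t - (1 / 2 + 1 / 10 ^ 62 / 2 + X t) * α t ^ 2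
      else g t / 2 * Y t - Nn n * α t) ?_ ?_ ?_
  · have k1 := key t3 ⟨h1, le_rfl⟩ true
    have k2 := key t3 ⟨h1, le_rfl⟩ false
    simp only [if_true, Bool.false_eq_true, if_false] at k1 k2
    rw [eα, eE]
    have g0 := (hg t3 ⟨h1, le_rfl⟩).1
    constructor
    · have a1 := Y1 t3 ⟨h1, le_rfl⟩
      have a2 : Real.exp (-(E / 2)) =
          Real.exp (-(E / 4)) * Real.exp (-(E / 4)) := by
        rw [← Real.exp_add]; congr 1; ring
      have a3 := mul_le_mul (two_le hT hE) a1 (Real.exp_pos _).le zero_le_one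
      have a4 := mul_le_mul_of_nonneg_right a3 g0.le
      rw [a2]
      linarith only [k2, a4]
    · have a1 : X t3 ≤ 1 / 10 ^ 62 / 2 := by rw [hX]; exact num3 hT hρ hρ' hΓ (le_mu ρ0) τ2
      have a2 := mul_le_mul_of_nonneg_right a1 (sq_nonneg (α t3))
      linarith only [k1, a2]
  · intro i
    refine contOn_of_HD h0 fun t ht => ?_
    obtain ⟨D1, d1⟩ := dα t ht
    obtain ⟨D2, d2⟩ := dE t ht
    obtain ⟨-, D3, d3, -⟩ := hg t ht
    cases i
    · exact ⟨_, ((d3.div_const 2).fun_mul (dY t ht)).fun_sub (d1.const_mul _)⟩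
    · exact ⟨_, d2.fun_sub (((dX t ht).const_add _).fun_mul (d1.fun_pow 2))⟩
  · intro i
    rw [eα] at i1 i2
    rw [eE] at i2
    cases i
    · simp only [Bool.false_eq_true, if_false, hY, sub_self, mul_zero, neg_zero, Real.exp_zero]
      linarith only [i1]
    · simp only [if_true, hX, sub_self, mul_zero, neg_zero, Real.exp_zero]
      linarith only [i2, sq_nonneg (α t2)]
  · intro t ht' all i hi
    have ht := Ico_subset_Icc_self ht'
    have t0 : 0 ≤ t := h0.trans ht.1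
    have k1 := all t ⟨ht.1, le_rfl⟩ true
    have k2 := all t ⟨ht.1, le_rfl⟩ false
    simp only [if_true, Bool.false_eq_true, if_false] at k1 k2
    obtain ⟨drv, p', dp, sp', ev', l1'⟩ := hp t ht
    obtain ⟨s0, -, hl⟩ := hs t ht
    obtain ⟨g0, D3, d3, hD3⟩ := hg t ht
    obtain ⟨rb, e0, e1, n0, n1, P⟩ := he t ht
    have gY : 0 < g t / 2 * Y t := by have := Y0 t; positivity
    have pos : 0 < α t := (mul_pos_iff_of_pos_left N0).1 (by linarith only [k2, gY])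
    have hε : Real.exp (-E) * (s t * g t / Nn n) ≤ s t / (T ^ 4 * ρ ^ 3) * α t := by
      have a1 : g t / Nn n * Real.exp (-(E / 4)) ≤ 2 * α t := by
        have := mul_le_mul_of_nonneg_left (Y1 t ht) g0.le
        rw [div_mul_eq_mul_div, div_le_iff₀ N0]
        linarith only [k2, this]
      have a2 : Real.exp (-E) = Real.exp (-(E / 2)) *
          (Real.exp (-(E / 4)) * Real.exp (-(E / 4))) := by
        rw [← Real.exp_add, ← Real.exp_add]; congr 1; ring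
      have a3 := exp_neg_le hT hρ hρ' (y := E / 2) (by
        have : 4 * T ≤ T ^ 19 := le_pow' hT (k := 18) (by norm_num)
        linarith only [hT, hE, this])
      have a4 := mul_le_mul_of_nonneg_left a1 (Real.exp_pos (-(E / 4))).le
      have a5 := mul_le_mul_of_nonneg_right (two_le hT hE) pos.le
      have a6 : Real.exp (-(E / 4)) * (g t / Nn n * Real.exp (-(E / 4))) ≤ α t := by
        linarith only [a4, a5]
      have a7 := mul_le_mul_of_nonneg_left (mul_le_mul a3 a6 (by positivity) (by positivity)) s0.le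
      rw [a2]
      refine le_of_eq_of_le (by ring) (a7.trans (le_of_eq (by ring)))
    have hω : ‖p' * ph n‖ ≤ 100 * (s t / (T ^ 4 * ρ ^ 3)) := by
      have a1 := norm_mul_ph_sub' ρb hn sp'
      rw [ev', zero_smul, sub_zero] at a1
      refine a1.trans ((mul_le_mul_of_nonneg_right l1' (by positivity)).trans (le_of_eq ?_))
      field_simp
    have hl' : l ≤ s t / (T ^ 4 * ρ ^ 3) := by
      have a3 := exp_neg_le hT hρ hρ' (y := T ^ 2) (by
        have : 4 * T ≤ T ^ 2 := le_pow' hT (k := 1) le_rfl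
        linarith only [hT, this])
      refine hl.trans ((mul_le_mul_of_nonneg_right a3 s0.le).trans (le_of_eq ?_))
      ring
    have T3 : 1 ≤ T ^ 3 := one_le_pow₀ T1
    have G1 : 1 + X t ≤ 101 * T ^ 3 := by linarith only [T3, X1 t ht]
    have G2 : 1 + X t ≤ T ^ 4 := by
      have : (101 : ℝ) * T ^ 3 ≤ T * T ^ 3 :=
        mul_le_mul_of_nonneg_right (le_trans (by norm_num) hT) (by positivity)
      linarith only [G1, this, show T * T ^ 3 = T ^ 4 by ring]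
    obtain ⟨⟨D1, d1, hD1⟩, D2, d2, hD2⟩ := cone_step (g := 1 + X t) (ε := s t / (T ^ 4 * ρ ^ 3)) hT hρ
      drv hκ hn
      dp hω P rb s0 (by rwa [eα]) (by rw [eα]; exact n0.trans hε) (by rw [eα]; exact n1.trans hε)
      (by linarith only [X0 t]) G2 (by rw [eα, eE]; linarith only [k1, sq_nonneg (α t)])
    simp only [eα, eE] at d1 hD1 d2 hD2
    cases i
    · simp only [Bool.false_eq_true, if_false] at hi ⊢
      refine ⟨_, ?_, HD.right (((d3.div_const 2).fun_mul (dY t ht)).fun_sub (d1.const_mul _)) t0⟩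
      have a1 := num1 hT hρ s0 G1 le_rfl le_rfl hl' (by positivity) P.lb.l0
      have a2 := mul_lt_mul_of_pos_right a1 gY
      have a3 := mul_le_mul_of_nonneg_left hD1 N0.le
      have a4 := mul_le_mul_of_nonneg_right hD3 (Y0 t).le
      have a5 : Nn n * α t = g t / 2 * Y t := by linarith only [hi]
      rw [mul_left_comm, a5] at a3
      linarith only [a2, a3, a4]
    · simp only [if_true] at hi ⊢
      have e : F t / α t ^ 2 = 1 / 2 + 1 / 10 ^ 62 / 2 + X t := by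
        rw [div_eq_iff (pow_pos pos 2).ne']; linarith only [hi]
      have d4 := (d2.fun_sub ((dX t ht).const_add (1 / 2 + 1 / 10 ^ 62 / 2))).fun_mul
        (d1.fun_pow 2)
      refine ⟨_, ?_, HD.right (d4.congr_of_eventuallyEq ?_ ?_) t0⟩
      · rw [e, sub_self, zero_mul, add_zero]
        refine mul_neg_of_neg_of_pos ?_ (pow_pos pos 2)
        rw [e] at hD2
        have := num2 hT hρ s0 (le_mu ρ0) (mu_le ρ0) (X0 t) (X1 t ht) le_rfl le_rfl hl'
        linarith only [hD2, this]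
      · filter_upwards [d1.continuousWithinAt.eventually (lt_mem_nhds pos)] with u hu
        rw [sub_mul, div_mul_cancel₀ _ (pow_pos hu 2).ne']
      · rw [sub_mul, div_mul_cancel₀ _ (pow_pos pos 2).ne']

end

end Pool.Agent.Work.MP_6bf1e5_an.Hyp
end

-- merged part: Pool.Agent.Work.MP_6bf1e5_an.Hyp.Combo
section
/-!
Linear combinations of the teeth of the new level converge to the ground state.
-/

open Set Complex Filter Topology
open scoped InnerProductSpace ComplexConjugate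
open Pool.Agent.Work.MP_6bf1e5_an.B (Z3 R3)
open Pool.Agent.Work.MP_6bf1e5_an.Hyp.Dec

namespace Pool.Agent.Work.MP_6bf1e5_an.Hyp

noncomputable section

variable {G : Geo} {R : Raw} {j : ℕ} {t0 c g0 : ℝ} {AA : ℕ → ℝ}

/-- The unstable component of a combination of the teeth of level `j + 1`. -/
def alm (G : Geo) (R : Raw) (j : ℕ) (m : Fin 4 → ℝ) (t : ℝ) : ℝ :=
  al (G.rb (j + 1)) (R.pp G j t) (cmb m fun o => R.b (j + 1) o t) (cmb m fun o => R.c (j + 1) o t)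

lemma Geo.gap_pow (G : Geo) {a b : ℕ} (h0 : 1 ≤ a) (h : a < b) : 10 * G.t ^ a + G.t ≤ G.t ^ b := by
  have h1 := G.pow_lt h
  have h2 := G.pow_le h0
  have h3 : 0 < G.t ^ a := pow_pos G.t_pos a
  rw [pow_one] at h2
  linarith only [h1, h2, h3]

lemma combo_num1 {S e M x1 x2 F u w N : ℝ} (hS : S ≤ 3 * M) (e0 : 0 ≤ e) (M0 : 0 ≤ M)
    (x0 : 0 ≤ x1) (he : e ≤ x1 * ((F + u) / N)) (hN : 0 < N) (F0 : 0 ≤ F) (u0 : 0 ≤ u)
    (hu : u ≤ 2 * w) (hx : 1000 * M * x1 ≤ x2) : S * e ≤ x2 * ((F + w) / N) := by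
  have h1 : (F + u) / N ≤ 2 * ((F + w) / N) := by
    rw [← mul_div_assoc]; gcongr; linarith
  have h2 : 0 ≤ (F + w) / N := div_nonneg (by linarith only [F0, u0, hu]) hN.le
  calc S * e ≤ (3 * M) * (x1 * (2 * ((F + w) / N))) := by
        gcongr
        exact he.trans (by gcongr)
    _ = (6 * M * x1) * ((F + w) / N) := by ring
    _ ≤ x2 * ((F + w) / N) := by
        gcongr
        linarith only [hx, mul_nonneg M0 x0]

lemma combo_num2 {S e M x1 x2 F u w N N' K : ℝ} (hS : S ≤ 3 * M) (e0 : 0 ≤ e) (M0 : 0 ≤ M)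
    (x0 : 0 ≤ x1) (he : e ≤ x1 * ((F + u) / N)) (hN : 0 < N) (hN' : 0 < N') (hK : N' ≤ K * N)
    (w0 : 0 ≤ w) (hF : F + u ≤ 4 * w) (hx : 1000 * (M * K) * x1 ≤ x2) :
    S * e ≤ x2 / 2 * (w / N') := by
  have K0 : 0 < K := by
    by_contra h
    linarith [mul_nonneg (neg_nonneg.mpr (not_lt.mp h)) hN.le]
  have h1 : (F + u) / N ≤ 4 * K * (w / N') := by
    rw [← mul_div_assoc, div_le_div_iff₀ hN hN']
    calc (F + u) * N' ≤ (4 * w) * (K * N) := by gcongr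
      _ = 4 * K * w * N := by ring
  have h2 : 0 ≤ w / N' := div_nonneg w0 hN'.le
  calc S * e ≤ (3 * M) * (x1 * (4 * K * (w / N'))) := by
        gcongr
        exact he.trans (by gcongr)
    _ = (12 * (M * K) * x1) * (w / N') := by ring
    _ ≤ x2 / 2 * (w / N') := by
        gcongr
        linarith only [hx, mul_nonneg (mul_nonneg M0 K0.le) x0]

theorem Run.combo (H : IsNet G R) (S : Run G R j AA t0 c g0) {g : ℝ → ℝ}
    (hg : Cmp G R (j + 1) (zz G R j AA) t0 c g) (ha : 21 / 10 ≤ R.aa G (j + 1) c)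
    {m : Fin 4 → ℝ} (m1 : ∑ o, m o = 1) (m2 : ∑ o, |m o| ≤ 3 * G.t ^ 10) :
    Real.exp (-(G.E / 2)) * g c ≤ G.N (j + 2) * alm G R (j + 1) m c ∧
      nr (cmb m fun o => R.b (j + 2) o c) (cmb m fun o => R.c (j + 2) o c) ^ 2 ≤
        (1 / 2 + 1 / 10 ^ 62) * alm G R (j + 1) m c ^ 2 := by
  have sc := S.sc H hg
  obtain ⟨t1, t', t2, g', τ, h01, h1, h2, h2c, ini, W, τ1, τ2, τ3, τ4, w1, w2⟩ := sc.window ha
  have ds : G.Ga * G.d (j + 1) = G.d (j + 2) := (G.d_succ (j + 1)).symm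
  simp only [← R.Fs_eq G (j + 1), ds] at W w1 w2
  change ∀ t ∈ Icc t' c, _ ≤ Real.exp (-G.W) * _ at w2
  change _ ≤ 100 * (G.ρ ^ 2 / G.t) at τ1
  change G.ρ ^ 2 / G.t / 1000 ≤ _ at τ2
  have ρ0 := G.ρ_pos
  have Γ0 := G.Ga_pos
  have E19 := G.E_lo
  have W20 := G.W_lo
  have T0 := G.t_pos
  have T1 := G.one_le_t
  have d1 := G.d_pos (j + 1)
  have d2 := G.d_pos (j + 2)
  have N1 := G.N_pos (j + 1)
  have N2 := G.N_pos (j + 2)
  have z0 : 0 ≤ t0 := S.st.t0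
  have sub : ∀ t ∈ Icc t1 c, t ∈ Icc t0 c := fun t ht => ⟨h01.trans ht.1, ht.2⟩
  have sub1 : ∀ t ∈ Icc t1 t2, t ∈ Icc t1 c := fun t ht => ⟨ht.1, ht.2.trans h2c⟩
  have sub2 : ∀ t ∈ Icc t2 c, t ∈ Icc t1 c := fun t ht => ⟨h1.trans (h2.trans ht.1), ht.2⟩
  have gpos : ∀ t ∈ Icc t1 c, 0 < g t := fun t ht =>
    lt_of_lt_of_le (mul_pos (Real.exp_pos _) (H.bh_pos _)) (sc.floor t (sub t ht))
  have gpos' : ∀ t ∈ Icc t1 c, 0 < g' t := fun t ht => (gpos t ht).trans_le (W t ht).2.1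
  have apos : ∀ t ∈ Icc t1 c, 0 < R.aa G (j + 1) t := fun t ht => by linarith only [(W t ht).1]
  have Fpos : ∀ t ∈ Icc t1 c, 0 ≤ R.Fs G (j + 1) (zz G R j AA) (R.aa G (j + 1) t) := fun t ht => by
    rw [R.Fs_eq]
    have := H.bh_pos (j + 2)
    exact mul_nonneg (le_trans (by positivity) sc.F_lo) (pow_pos (apos t ht) _).le
  have dg : ∀ t ∈ Icc t1 c, G.d (j + 2) * g' t ≤ 2 * (G.d (j + 2) * R.aa G (j + 1) t * g' t) :=
    fun t ht => by
      have := (W t ht).1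
      linarith only [mul_le_mul_of_nonneg_left this (mul_pos d2 (gpos' t ht)).le]
  have dg' : ∀ t ∈ Icc t1 c, G.d (j + 2) * g t ≤ G.d (j + 2) * g' t := fun t ht => by
    have := (W t ht).2.1
    gcongr
  have hp : ∀ t ∈ Icc t1 c, Drv G.t (G.rd (j + 1)) (rot3 (G.mv (j + 1))) (10 ^ 5 / G.t ^ 4)
      (R.pp G (j + 1) t) ∧ ∃ p', HD (R.pp G (j + 1)) p' t ∧ Sp (fun i => 2 * G.rd (j + 1) i) p' ∧
        ev 0 p' = 0 ∧ l1 p' ≤ G.d (j + 2) * R.aa G (j + 1) t / (G.t ^ 4 * G.ρ ^ 2) := fun t ht => by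
    obtain ⟨q1, p', q2, q3, q4, q5⟩ := (S.cur H t (sub t ht)).pp
    refine ⟨q1, p', q2, q3, q4, q5.trans ?_⟩
    rw [le_div_iff₀ (by positivity), ← ds]
    have := (W t ht).1
    have h3 := mul_le_mul_of_nonneg_right (G.pow_lt (a := 4) (b := 8) (by norm_num)) (sq_nonneg G.ρ)
    have h4 : 0 < G.t ^ 4 * G.ρ ^ 2 := by positivity
    have h5 := G.ρ_sq_le
    calc 10 ^ 3 * G.d (j + 1) * (G.t ^ 4 * G.ρ ^ 2)
        = (2000 * (G.t ^ 4 * G.ρ ^ 2)) * G.d (j + 1) * (1 / 2) := by ring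
      _ ≤ G.Ga * G.d (j + 1) * R.aa G (j + 1) t := by gcongr; linarith only [h3, h4, h5]
  have hs : ∀ t ∈ Icc t1 c, 0 < G.d (j + 2) * R.aa G (j + 1) t ∧
      HD τ (G.d (j + 2) * R.aa G (j + 1) t) t ∧
      G.ell (j + 2) ≤ Real.exp (-G.t ^ 2) * (G.d (j + 2) * R.aa G (j + 1) t) := fun t ht => by
    refine ⟨mul_pos d2 (apos t ht), (W t ht).2.2.1, ?_⟩
    have := (W t ht).1
    have h3 : G.t ≤ G.Ga := by
      simpa using (G.pow_le (a := 1) (b := 42) (by norm_num)).trans G.t_le_Ga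
    have h4 := G.lm_pos (j + 2)
    unfold Geo.ell Geo.d
    gcongr
    nlinarith only [this, h4]
  have e20 : 1000 * Real.exp (-G.W) ≤ Real.exp (-G.t ^ 2) := by
    have := G.cpoly_exp (k := 0) (x := -G.W) (y := -G.t ^ 2) (by norm_num)
      (by linarith only [W20, G.gap_pow (a := 2) (b := 20) (by norm_num) (by norm_num), sq_nonneg G.t])
    simpa using this
  have X1 : ∀ t ∈ Icc t1 c, Real.exp (-G.W) * (G.d (j + 2) * g' t) ≤
      Real.exp (-G.t ^ 2) * (G.d (j + 2) * R.aa G (j + 1) t * g' t) := fun t ht => by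
    have h3 := dg t ht
    have h4 := mul_pos (hs t ht).1 (gpos' t ht)
    have h5 := Real.exp_pos (-G.W)
    calc _ ≤ Real.exp (-G.W) * (2 * (G.d (j + 2) * R.aa G (j + 1) t * g' t)) := by gcongr
      _ = (2 * Real.exp (-G.W)) * (G.d (j + 2) * R.aa G (j + 1) t * g' t) := by ring
      _ ≤ _ := mul_le_mul_of_nonneg_right (by linarith only [e20, h5]) h4.le
  have P := fun t (ht : t ∈ Icc t1 c) =>
    H.pair (j + 1) m (z0.trans (sub t ht).1) (apos t ht)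
  have U := fun t (ht : t ∈ Icc t1 c) => S.upp H hg t (sub t ht)
  have Sd := fun t (ht : t ∈ Icc t1 c) => S.seed H hg m1 m2 t (sub t ht)
  have M0 : 0 ≤ G.t ^ 10 := by positivity
  obtain ⟨i1, i2⟩ := phase1 (g := g') (τ := τ) (t' := t') (t2 := t2) (d := G.d (j + 2))
    (s := fun t => G.d (j + 2) * R.aa G (j + 1) t)
    (F := fun t => R.Fs G (j + 1) (zz G R j AA) (R.aa G (j + 1) t))
    (b := fun t => cmb m fun o => R.b (j + 2) o t) (c := fun t => cmb m fun o => R.c (j + 2) o t)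
    (f := fun t => cmb m fun o => R.f G (j + 1) o t) (vb := R.vb (j + 2)) (vc := R.vc (j + 2))
    G.t_big G.ρ_lo G.ρ_small (G.rb_succ (j + 1)) N1 (G.N_mono (Nat.le_succ _)) (G.N_succ_ρ (j + 1))
    (z0.trans h01) h1 h2 (fun t ht => hp t (sub1 t ht)) (fun t ht => hs t (sub1 t ht)) τ1 τ2
    (fun t ht => ⟨gpos' t (sub1 t ht), Fpos t (sub1 t ht), (W t (sub1 t ht)).2.2.2⟩)
    (fun t ht => ⟨sp_f (j + 1) m t, (Sd t (sub1 t ht)).mono N1 (le_trans (by
      have := dg' t (sub1 t ht)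
      gcongr) (X1 t (sub1 t ht)))⟩)
    (fun t ht => by
      have ht' := sub1 t ht
      obtain ⟨e0, e1, q0, q1, q⟩ := P t ht'
      have b0 := H.eb_nonneg (j + 2) t
      have c0 := H.ec_nonneg (j + 1) t
      have u := (U t ht').ebc
      have hx := G.cpoly_exp (k := 10) (x := -(2 * G.E)) (y := -G.t ^ 2) (by norm_num)
        (by linarith only [E19, T0, G.gap_pow (a := 2) (b := 19) (by norm_num) (by norm_num), sq_nonneg G.t])
      have k := fun e (e0 : 0 ≤ e) he => combo_num1 (e := e) m2 e0 M0 (Real.exp_pos _).le he N1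
        (Fpos t ht') (mul_pos d2 (gpos t ht')).le ((dg' t ht').trans (dg t ht')) hx
      exact ⟨e0, e1, q0.trans (k _ b0 (by linarith only [c0, u])), q1.trans (k _ c0 (by linarith only [b0, u])), q⟩)
    (by
      have ht : t1 ∈ Icc t1 c := ⟨le_rfl, h1.trans (h2.trans h2c)⟩
      have u := (U t1 ht).lev
      have l0 := R.lev_nonneg (j + 2) t1
      have gp := gpos t1 ht
      have q1 := norm_cmb_le m fun o => R.b_le_lev (j + 2) o t1
      have q2 := norm_cmb_le m fun o => R.c_le_lev (j + 2) o t1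
      have q3 : (∑ o, |m o|) * R.lev (j + 2) t1 ≤ 3 * G.t ^ 10 * (20 * g t1 / G.N (j + 1)) := by
        (clear * - m2 T0 u l0; gcongr)
      have hx := G.cpoly_exp (k := 10) (x := 0) (y := -G.t ^ 2 + G.t ^ 3) (by norm_num)
        (by linarith only [G.gap_pow (a := 2) (b := 3) (by norm_num) (by norm_num), sq_nonneg G.t])
      rw [Real.exp_zero, mul_one, Real.exp_add] at hx
      have q4 : ∀ B C : V, nr B C ≤ ‖B‖ + ‖C‖ := fun B C =>
        Real.sqrt_le_iff.mpr ⟨by (clear * -; positivity), by linarith only [mul_nonneg (norm_nonneg B) (norm_nonneg C)]⟩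
      refine (q4 _ _).trans ?_
      rw [ini]
      have q5 : 0 < g t1 / G.N (j + 1) := div_pos gp N1
      calc _ ≤ 2 * (3 * G.t ^ 10 * (20 * g t1 / G.N (j + 1))) := by linarith only [q1, q2, q3]
        _ = (120 * G.t ^ 10) * (g t1 / G.N (j + 1)) := by ring
        _ ≤ (Real.exp (-G.t ^ 2) * Real.exp (G.t ^ 3)) * (g t1 / G.N (j + 1)) :=
          mul_le_mul_of_nonneg_right (by linarith only [M0, hx]) q5.le
        _ = _ := by ring)
    w1 (fun t ht => (w2 t ⟨ht.1, ht.2.trans h2c⟩).trans (X1 t ⟨h1.trans ht.1, ht.2.trans h2c⟩))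
  have sub3 : ∀ t ∈ Icc t2 c, t ∈ Icc t' c := fun t ht => ⟨h2.trans ht.1, ht.2⟩
  obtain ⟨o1, o2⟩ := phase2 (g := g') (τ := τ) (t3 := c) (d := G.d (j + 2))
    (s := fun t => G.d (j + 2) * R.aa G (j + 1) t) (vb := R.vb (j + 2)) (vc := R.vc (j + 2))
    (b := fun t => cmb m fun o => R.b (j + 2) o t) (c := fun t => cmb m fun o => R.c (j + 2) o t)
    G.t_big G.ρ_lo G.ρ_small G.ρ_sq_le G.Ga_eq_E.le G.E_lo le_rfl (G.rb_succ (j + 1))
    (z0.trans (h01.trans (h1.trans h2))) h2c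
    (fun t ht => hp t (sub2 t ht)) (fun t ht => hs t (sub2 t ht)) τ3 τ4
    (fun t ht => by
      have ht' := sub2 t ht
      refine ⟨gpos' t ht', _, (W t ht').2.2.2, ?_⟩
      have q1 := (w2 t (sub3 t ht)).trans (X1 t ht')
      have hx := G.cρ_exp (a := 13) (k := 1) (x := -G.t ^ 2) (y := 0) (by norm_num) (by norm_num)
        (by nlinarith only [T1])
      have q2 : Real.exp (-G.t ^ 2) ≤ 1 / (G.t ^ 13 * G.ρ) := by
        rw [le_div_iff₀ (by positivity), mul_comm]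
        rw [Real.exp_zero, pow_one, mul_assoc] at hx
        have : 0 < G.t ^ 13 * G.ρ * Real.exp (-G.t ^ 2) := by positivity
        linarith only [hx]
      have q3 := mul_pos (hs t ht').1 (gpos' t ht')
      have q4 : Real.exp (-G.t ^ 2) * (G.d (j + 2) * R.aa G (j + 1) t * g' t) ≤
          1 / (G.t ^ 13 * G.ρ) * (G.d (j + 2) * R.aa G (j + 1) t * g' t) :=
        mul_le_mul_of_nonneg_right q2 q3.le
      have q5 : (G.d (j + 2) * R.aa G (j + 1) t - G.d (j + 2) +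
          G.d (j + 2) * R.aa G (j + 1) t / (G.t ^ 13 * G.ρ)) * g' t =
          (G.d (j + 2) * R.aa G (j + 1) t - G.d (j + 2)) * g' t +
            1 / (G.t ^ 13 * G.ρ) * (G.d (j + 2) * R.aa G (j + 1) t * g' t) := by ring
      linarith only [q1, q4, q5])
    (fun t ht => by
      have ht' := sub2 t ht
      refine ⟨rl_cmb m fun o => H.rlb _ o t, ?_⟩
      obtain ⟨e0, e1, q0, q1, q⟩ := P t ht'
      have b0 := H.eb_nonneg (j + 2) t
      have c0 := H.ec_nonneg (j + 1) t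
      have u := (U t ht').ebc
      have f1 := w2 t (sub3 t ht)
      have f2 := (Sd t ht').norm_le T0.le ρ0.le
      have a1 := dg t ht'
      have a2 := dg' t ht'
      have a3 := mul_pos (hs t ht').1 (gpos' t ht')
      have a4 := mul_pos d2 (gpos' t ht')
      have a5 := mul_pos d2 (gpos t ht')
      have x1 : Real.exp (-G.W) ≤ 1 := Real.exp_le_one_iff.mpr (by linarith only [W20, pow_pos T0 20])
      have x2 := Real.exp_pos (-G.W)
      have tE : G.t ≤ G.E := by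
        simpa using (G.pow_le (a := 1) (b := 19) (by norm_num)).trans E19
      have hx := G.cρ_exp (a := 10) (k := 2) (x := -(2 * G.E)) (y := -G.E) (by norm_num)
        (by norm_num) (by linarith only [tE])
      have k := fun e (e0 : 0 ≤ e) he => combo_num2 (e := e)
        (F := R.Fs G (j + 1) (zz G R j AA) (R.aa G (j + 1) t)) (u := G.d (j + 2) * g t)
        m2 e0 M0 (Real.exp_pos _).le he N1 N2 (G.N_succ_ρ (j + 1)) a3.le
        (by linarith only [f1, a1, a2, mul_le_mul_of_nonneg_right x1 a4.le]) hx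
      have hy := G.cρ_exp (a := 0) (k := 2) (x := G.t - G.W) (y := -G.E) (by norm_num) (by norm_num)
        (by
          have := mul_le_mul_of_nonneg_right G.t_big G.E_pos.le
          rw [G.W_eq]
          linarith only [T0, tE, this])
      rw [pow_zero] at hy
      have x3 : Real.exp (G.t / 10 ^ 19) ≤ Real.exp G.t :=
        Real.exp_le_exp.mpr (div_le_self T0.le (by norm_num))
      have x4 : 1 ≤ Real.exp G.t := Real.one_le_exp T0.le
      have k' := combo_num2 (S := 1) (M := 1) (F := G.d (j + 2) * g' t) (u := G.d (j + 2) * g' t)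
        (by norm_num) (norm_nonneg _) zero_le_one (Real.exp_pos (G.t - G.W)).le
        (f2.trans (by
          rw [← mul_div_assoc, sub_eq_add_neg G.t, Real.exp_add]
          gcongr
          have F0 := Fpos t ht'
          have y1 : Real.exp (G.t / 10 ^ 19) * R.Fs G (j + 1) (zz G R j AA) (R.aa G (j + 1) t) ≤
              Real.exp G.t * (Real.exp (-G.W) * (G.d (j + 2) * g' t)) := by (clear * - f1 x3 F0; gcongr)
          have y2 : Real.exp (-G.W) * (G.d (j + 2) * g t) ≤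
              Real.exp G.t * (Real.exp (-G.W) * (G.d (j + 2) * g' t)) := by
            refine le_trans (by gcongr) (le_mul_of_one_le_left (by (clear * - a4; positivity)) x4)
          linarith only [y1, y2]))
        N1 N2 (G.N_succ_ρ (j + 1)) a3.le (by linarith only [a1]) hy
      have k0 := k _ b0 (by linarith only [c0, u])
      have k1 := k _ c0 (by linarith only [b0, u])
      have p0 : 0 ≤ Real.exp (-G.E) * (G.d (j + 2) * R.aa G (j + 1) t * g' t / G.N (j + 2)) :=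
        mul_nonneg (Real.exp_pos _).le (div_nonneg a3.le N2.le)
      refine ⟨e0, _, ?_, (norm_add_le _ _).trans ?_, q⟩
      · change _ ≤ Real.exp (-G.E) * (G.d (j + 2) * R.aa G (j + 1) t * g' t / G.N (j + 2))
        linarith only [q0, k0, p0]
      · change _ ≤ Real.exp (-G.E) * (G.d (j + 2) * R.aa G (j + 1) t * g' t / G.N (j + 2))
        linarith only [q1, k', k1])
    i1 i2
  refine ⟨le_trans ?_ o1, o2⟩
  have := (W c ⟨h1.trans (h2.trans h2c), le_rfl⟩).2.1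
  gcongr

end

end Pool.Agent.Work.MP_6bf1e5_an.Hyp
end
end

-- merged part: Pool.Agent.Work.MP_6bf1e5_an.Hyp.Crude
section
-- merged part: Pool.Agent.Work.MP_6bf1e5_an.Hyp.Junk
section
/-!
The junk stays small.
-/

open Set Complex Filter Topology
open scoped InnerProductSpace ComplexConjugate
open Pool.Agent.Work.MP_6bf1e5_an.B (Z3 R3)
open Pool.Agent.Work.MP_6bf1e5_an.Hyp.Dec

namespace Pool.Agent.Work.MP_6bf1e5_an.Hyp

noncomputable section

lemma Geo.junk_δ0_pos (G : Geo) : 0 < G.δ0 := Real.exp_pos _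

lemma Geo.junk_δ0_le (G : Geo) : G.δ0 ≤ 1 := by
  have := G.t_pos
  unfold Geo.δ0
  exact Real.exp_le_one_iff.mpr (neg_nonpos.mpr (by positivity))

lemma Geo.junk_one_le_Ga_sq (G : Geo) : 1 ≤ G.Ga ^ 2 :=
  one_le_pow₀ ((one_le_pow₀ G.one_le_L).trans G.Ga_lo)

lemma Geo.junk_L_lt (G : Geo) {a b : ℕ} (h : a < b) : 10 ^ 100 * G.L ^ a ≤ G.L ^ b := by
  have h1 := G.L_pow_lt h
  have h2 : 1 ≤ G.t ^ 20 := one_le_pow₀ G.one_le_t
  have h3 : 0 ≤ G.L ^ a := (pow_pos G.L_pos a).le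
  have h4 : 10 ^ 100 * 1 * G.L ^ a ≤ 10 ^ 100 * G.t ^ 20 * G.L ^ a :=
    mul_le_mul_of_nonneg_right (mul_le_mul_of_nonneg_left h2 (by positivity)) h3
  linarith only [h1, h4]

/-- The Duhamel factor is tiny. -/
lemma Geo.junk_eps (G : Geo) : G.L ^ 10 * G.ε0 ≤ G.δ0 := by
  have T0 := G.t_pos
  have g1 := G.junk_one_le_Ga_sq
  have h2 : G.L ^ 10 ≤ Real.exp (G.t / 10 ^ 50) := G.L_pow_le_exp (by norm_num)
  have h3 : 10 ^ 100 * G.t ^ 2 ≤ G.t ^ 3 := G.pow_lt (by norm_num)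
  have h4 : G.t ^ 1 ≤ G.t ^ 2 := G.pow_le (by norm_num)
  have h5 := mul_le_mul_of_nonneg_right h3 (zero_le_one.trans g1)
  have h6 : G.t ^ 2 * 1 ≤ G.t ^ 2 * G.Ga ^ 2 := mul_le_mul_of_nonneg_left g1 (by positivity)
  refine (mul_le_mul_of_nonneg_right h2 (Real.exp_pos _).le).trans ?_
  unfold Geo.δ0
  rw [← Real.exp_add]
  refine Real.exp_le_exp.mpr ?_
  rw [pow_one] at h4
  linarith only [T0, h4, h5, h6]

lemma Geo.junk_jb (G : Geo) : G.L ^ 7 * G.δ0 ≤ Real.exp (-(G.t * G.Ga ^ 2)) := by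
  have T0 := G.t_pos
  have g1 := G.junk_one_le_Ga_sq
  have h2 : G.L ^ 7 ≤ Real.exp (G.t / 10 ^ 50) := G.L_pow_le_exp (by norm_num)
  have h3 : 10 ^ 100 * G.t ^ 1 ≤ G.t ^ 2 := G.pow_lt (by norm_num)
  have h5 := mul_le_mul_of_nonneg_right h3 (zero_le_one.trans g1)
  have h6 : G.t * 1 ≤ G.t * G.Ga ^ 2 := mul_le_mul_of_nonneg_left g1 T0.le
  refine (mul_le_mul_of_nonneg_right h2 G.junk_δ0_pos.le).trans ?_
  unfold Geo.δ0
  rw [← Real.exp_add]
  refine Real.exp_le_exp.mpr ?_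
  rw [pow_one] at h5
  linarith only [T0, h5, h6]

theorem junk_closure {G : Geo} {R : Raw} (H : IsNet G R) {J : ℕ} {t0 t1 : ℝ} (h0 : 0 ≤ t0)
    (h1 : t1 ≤ t0 + G.Δ J) (hX : ∀ s ∈ Icc t0 t1, R.X s = 0) (hF : R.Fj t0 ≤ G.δ0 * G.am J)
    (hH : R.Hj t0 ≤ G.δ0 * (G.lm J / G.N J))
    (s1 : ∀ t ∈ Icc t0 t1, ∀ M, ∑ j ∈ Finset.range M, R.nu G j t ≤ G.t ^ 11 * G.Ga * G.am J)
    (s2 : ∀ t ∈ Icc t0 t1, ∀ M, ∑ j ∈ Finset.range M, G.lam (j + 1) * (R.lev j t + R.ch G j t) ≤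
      G.L ^ 5 * (G.lm J / G.N J)) :
    ∀ t ∈ Icc t0 t1, Jb G R J t ∧ R.Fj t ≤ G.δ0 * G.am (J + 1) ∧
      R.Hj t ≤ G.δ0 * (G.lm (J + 1) / G.N (J + 1)) ∧ R.U t ≤ G.t ^ 12 * G.Ga * G.am J := by
  intro t ht
  have t01 : t0 ≤ t1 := ht.1.trans ht.2
  have T0 := G.t_pos
  have T1 := G.one_le_t
  have L0 := G.am_pos J
  have M0 := G.lm_pos J
  have N0 := G.N_pos J
  have LL := G.L_pos
  have L1 := G.one_le_L
  have g0 := G.Ga_pos
  have g1 : 1 ≤ G.Ga := (one_le_pow₀ G.one_le_L).trans G.Ga_lo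
  have d0 := G.junk_δ0_pos
  have d1 := G.junk_δ0_le
  have e0 : 0 < G.ε0 := Real.exp_pos _
  have sq := G.junk_eps
  have sub : Icc t0 t1 ⊆ Ici 0 := fun u hu => h0.trans hu.1
  obtain ⟨tm, htm, hmax⟩ := isCompact_Icc.exists_isMaxOn (nonempty_Icc.mpr t01)
    (H.contH.mono sub)
  have hmax' : ∀ u ∈ Icc t0 t1, R.H u ≤ R.H tm := fun u hu => hmax hu
  have p53 : 10 ^ 100 * (G.t ^ 11 * G.Ga) ≤ G.t ^ 12 * G.Ga := by
    have := mul_le_mul_of_nonneg_right (G.pow_lt (show 11 < 12 by norm_num)) g0.le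
    linarith only [this]
  have o53 : 1 ≤ G.t ^ 11 * G.Ga := one_le_mul_of_one_le_of_one_le (one_le_pow₀ T1) g1
  have u3 : G.t ^ 12 * G.Ga ≤ G.L ^ 3 :=
    (mul_le_mul_of_nonneg_right (G.pow_le (by norm_num)) g0.le).trans G.Ga_hi
  have u0 : 0 < G.t ^ 12 * G.Ga := by positivity
  generalize G.t ^ 12 * G.Ga = u at p53 u3 u0 ⊢
  generalize G.t ^ 11 * G.Ga = v at p53 o53 s1
  -- the sum norm of the junk, as long as the solution is bounded
  have stepF : ∀ c ∈ Icc t0 t1, (∀ s ∈ Icc t0 c, R.U s ≤ u * G.am J) →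
      R.Fj c ≤ 2 * (G.δ0 * G.am J) := by
    intro c hc hU
    have a := (H.duh J t0 c _ (R.H tm) h0 hc.1 (hc.2.trans h1)
      (fun s hs => hX s ⟨hs.1, hs.2.trans hc.2⟩) hU
      fun s hs => hmax' s ⟨hs.1, hs.2.trans hc.2⟩).1
    have p : u ^ 2 ≤ G.L ^ 10 := by
      have h := pow_le_pow_left₀ u0.le u3 2
      rw [← pow_mul] at h
      exact h.trans (G.L_pow_le (by norm_num))
    have e : G.ε0 * ((u * G.am J) ^ 2 / G.am J) = (u ^ 2 * G.ε0) * G.am J := by field_simp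
    have f : u ^ 2 * G.ε0 ≤ G.δ0 := (mul_le_mul_of_nonneg_right p e0.le).trans sq
    have g := mul_le_mul_of_nonneg_right f L0.le
    linarith only [hF, a, e, g]
  have q53 : (10 ^ 4 * v + 2 * G.δ0) * G.am J < u * G.am J :=
    mul_lt_mul_of_pos_right (by linarith only [d1, p53, o53]) L0
  have dl : 0 ≤ G.δ0 * G.am J := by positivity
  have hU : ∀ s ∈ Icc t0 t1, R.U s ≤ u * G.am J := by
    obtain ⟨c, hc, h2, h3⟩ := first_hit (ι := Unit)
      (H := fun _ s => R.U s - u * G.am J) t01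
      (fun _ => (H.contU.mono sub).sub continuousOn_const)
      (fun _ => by
        have := H.U_le t0 _ h0 (s1 t0 ⟨le_rfl, t01⟩)
        show R.U t0 - u * G.am J ≤ 0
        linarith only [hF, q53, dl, this])
    have h2' : ∀ s ∈ Icc t0 c, R.U s ≤ u * G.am J := fun s hs =>
      sub_nonpos.mp (h2 s hs ())
    rcases h3 with rfl | ⟨_, h3, -⟩
    · exact h2'
    · have a := stepF c hc h2'
      have b := H.U_le c _ (sub hc) (s1 c hc)
      have h3' : R.U c - u * G.am J = 0 := h3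
      linarith only [q53, h3, a, b]
  have hFj : ∀ c ∈ Icc t0 t1, R.Fj c ≤ 2 * (G.δ0 * G.am J) := fun c hc =>
    stepF c hc fun s hs => hU s ⟨hs.1, hs.2.trans hc.2⟩
  -- the enstrophy
  set Q := G.lm J / G.N J with hQ
  have Q0 : 0 < Q := by positivity
  have stepH : ∀ c ∈ Icc t0 t1,
      G.L ^ 6 * R.Hj c ≤ G.L ^ 6 * (G.δ0 * Q) + G.δ0 * R.H tm / 2 := by
    intro c hc
    have a := (H.duh J t0 c _ (R.H tm) h0 hc.1 (hc.2.trans h1)
      (fun s hs => hX s ⟨hs.1, hs.2.trans hc.2⟩) (fun s hs => hU s ⟨hs.1, hs.2.trans hc.2⟩)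
      fun s hs => hmax' s ⟨hs.1, hs.2.trans hc.2⟩).2
    have p : 10 ^ 100 * G.L ^ 9 ≤ G.L ^ 10 := G.junk_L_lt (by norm_num)
    have p1 : G.L ^ 6 * u ≤ G.L ^ 9 := by
      have := mul_le_mul_of_nonneg_left u3 (show 0 ≤ G.L ^ 6 by positivity)
      rwa [← pow_add] at this
    have p' : 2 * (G.L ^ 6 * u) ≤ G.L ^ 10 := by
      have : 0 ≤ G.L ^ 9 := by positivity
      linarith only [p, p1, this]
    have f : 2 * (G.L ^ 6 * u) * G.ε0 ≤ G.δ0 := (mul_le_mul_of_nonneg_right p' e0.le).trans sq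
    have g := mul_le_mul_of_nonneg_right f (H.H_nonneg tm)
    have a' := mul_le_mul_of_nonneg_left (a.trans (add_le_add_left hH _))
      (show 0 ≤ G.L ^ 6 by positivity)
    have e : G.L ^ 6 * (G.δ0 * Q + G.ε0 * (u * G.am J * R.H tm / G.am J)) =
        G.L ^ 6 * (G.δ0 * Q) + 2 * (G.L ^ 6 * u) * G.ε0 * R.H tm / 2 := by field_simp
    linarith only [g, a', e]
  have o100 : 1 ≤ G.L ^ 6 := one_le_pow₀ L1
  have hm : R.H tm ≤ G.L ^ 6 * Q := by
    have a := stepH tm htm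
    have b := H.H_le tm _ (sub htm) (s2 tm htm)
    have m0 := H.H_nonneg tm
    have c1 : G.δ0 * R.H tm ≤ G.L ^ 6 * R.H tm :=
      mul_le_mul_of_nonneg_right (d1.trans o100) m0
    have c2 : R.Hj tm ≤ G.δ0 * Q + R.H tm / 2 := by
      refine le_of_mul_le_mul_left ?_ (show 0 < G.L ^ 6 by positivity)
      linarith only [a, c1]
    have p : 10 ^ 100 * G.L ^ 5 ≤ G.L ^ 6 := G.junk_L_lt (by norm_num)
    have o95 : 1 ≤ G.L ^ 5 := one_le_pow₀ L1
    have c3 : (2 * 10 ^ 4 * G.L ^ 5 + 2 * G.δ0) * Q ≤ G.L ^ 6 * Q :=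
      mul_le_mul_of_nonneg_right (by linarith only [d1, p, o95]) Q0.le
    linarith only [b, c2, c3]
  have hHj : R.Hj t ≤ 2 * (G.δ0 * Q) := by
    have a := stepH t ht
    have c1 := mul_le_mul_of_nonneg_left hm d0.le
    have c2 : 0 ≤ G.L ^ 6 * (G.δ0 * Q) := by positivity
    refine le_of_mul_le_mul_left ?_ (show 0 < G.L ^ 6 by positivity)
    linarith only [a, c1, c2]
  refine ⟨?_, ?_, ?_, hU t ht⟩
  · unfold Jb Raw.Jk
    rw [hX t ht]
    have a1 : R.U t * R.Hj t ≤ (u * G.am J) * (2 * (G.δ0 * Q)) :=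
      mul_le_mul (hU t ht) hHj (H.Hj_nonneg t) (by positivity)
    have a2 : R.Fj t * R.H t ≤ (2 * (G.δ0 * G.am J)) * (G.L ^ 6 * Q) :=
      mul_le_mul (hFj t ht) ((hmax' t ht).trans hm) (H.H_nonneg t) (by positivity)
    have e : G.lm J * G.am J / G.N J = G.am J * Q := by rw [hQ]; ring
    rw [e]
    have p : 10 ^ 100 * G.L ^ 6 ≤ G.L ^ 7 := G.junk_L_lt (by norm_num)
    have p2 : u ≤ G.L ^ 6 := u3.trans (G.L_pow_le (by norm_num))
    have a3 : (2 * u + 2 * G.L ^ 6) * (G.δ0 * (G.am J * Q)) ≤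
        G.L ^ 7 * (G.δ0 * (G.am J * Q)) :=
      mul_le_mul_of_nonneg_right (by linarith only [p53, o53, p, p2]) (by positivity)
    have a4 := mul_le_mul_of_nonneg_right G.junk_jb (show 0 ≤ G.am J * Q by positivity)
    linarith only [a1, a2, a3, a4]
  · have p : 10 ^ 100 * G.t ^ 0 ≤ G.t ^ 21 := G.pow_lt (by norm_num)
    rw [pow_zero] at p
    have p' := G.Q_lo
    have a : 2 * (G.δ0 * G.am J) ≤ G.Q * (G.δ0 * G.am J) :=
      mul_le_mul_of_nonneg_right (by linarith only [p, p']) dl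
    have := hFj t ht
    rw [G.am_succ]
    linarith only [a, this]
  · refine hHj.trans ?_
    have N1 := G.N_pos (J + 1)
    have p : 10 ^ 100 * G.t ^ 0 ≤ G.t ^ 10 := G.pow_lt (by norm_num)
    rw [pow_zero] at p
    have a : 2 * Q ≤ G.lm (J + 1) / G.N (J + 1) := by
      rw [le_div_iff₀ N1, G.lm_succ]
      have b1 : 2 * G.N (J + 1) ≤ G.t ^ 10 * G.N (J + 1) :=
        mul_le_mul_of_nonneg_right (by linarith only [p]) N1.le
      have b2 : G.L ^ 2 * G.N J ≤ G.Ga * G.N J := mul_le_mul_of_nonneg_right G.Ga_lo N0.le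
      have b := mul_le_mul_of_nonneg_left ((b1.trans (G.N_succ_hi J)).trans b2) Q0.le
      have e : Q * (G.Ga * G.N J) = G.Ga * G.lm J := by
        rw [hQ]; field_simp
      linarith only [b, e]
    have := mul_le_mul_of_nonneg_left a d0.le
    linarith only [this]

end

end Pool.Agent.Work.MP_6bf1e5_an.Hyp
end

-- merged part: Pool.Agent.Work.MP_6bf1e5_an.Hyp.CrudeA
section
/-!
Estimates for the old levels during a stage.
-/

open Set Complex Filter Topology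
open scoped InnerProductSpace ComplexConjugate
open Pool.Agent.Work.MP_6bf1e5_an.B (Z3 R3)
open Pool.Agent.Work.MP_6bf1e5_an.Hyp.Dec

namespace Pool.Agent.Work.MP_6bf1e5_an.Hyp

noncomputable section

namespace Geo

variable (G : Geo)

lemma cr_pow_le_exp_pow {k m : ℕ} (hk : k ≤ 1000) (hm : 1 ≤ m) : G.t ^ k ≤ Real.exp (G.t ^ m) := by
  refine (G.pow_le_exp hk).trans (Real.exp_le_exp.mpr ?_)
  have h1 : G.t ^ 1 ≤ G.t ^ m := G.pow_le hm
  have := G.t_pos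
  rw [pow_one] at h1
  have : G.t / 10 ^ 50 ≤ G.t := div_le_self this.le (by norm_num)
  linarith

lemma cr_L_le_exp {k : ℕ} (hk : k ≤ 1000) {x : ℝ} (hx : G.t ≤ x) : G.L ^ k ≤ Real.exp x := by
  refine (G.L_pow_le_exp hk).trans (Real.exp_le_exp.mpr ?_)
  have : G.t / 10 ^ 50 ≤ G.t := div_le_self G.t_pos.le (by norm_num)
  linarith only [hx, this]

lemma cr_tQ : 100 * (G.t ^ 10 * G.Q) ≤ G.L ^ 2 := by
  have h1 := G.Q_hi
  have h2 := G.pow_lt (a := 10) (b := 20) (by norm_num)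
  have h3 := G.Q_pos
  have h4 := pow_pos G.t_pos 10
  have h5 : 100 * G.t ^ 10 * G.Q ≤ G.t ^ 20 * G.Q := by gcongr; linarith
  linarith

lemma cr_t9Q : 100 * (G.t ^ 9 * G.Q) ≤ G.L ^ 2 := by
  have h1 : G.t ^ 9 ≤ G.t ^ 10 := G.pow_le (by norm_num)
  have h3 := G.Q_pos
  refine le_trans ?_ G.cr_tQ
  gcongr

lemma cr_t_le_Ga : 10 ^ 100 * G.t ≤ G.Ga := by
  have h1 := G.pow_lt (a := 1) (b := 42) (by norm_num)
  rw [pow_one] at h1
  exact h1.trans G.t_le_Ga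

lemma cr_Ga_div : (10 : ℝ) ^ 100 ≤ G.Ga / G.t ^ 10 := by
  have h1 := G.pow_lt (a := 10) (b := 42) (by norm_num)
  rw [le_div_iff₀ (pow_pos G.t_pos 10)]
  exact h1.trans G.t_le_Ga

lemma cr_d_old {i J : ℕ} (h : i < J) : G.Ga * G.d i ≤ 2 * (1 / 2) ^ (J - i) * G.d J := by
  induction J, h using Nat.le_induction with
  | base =>
    rw [show i + 1 - i = 1 by omega, G.d_succ]; linarith
  | succ J hJ ih =>
    rw [show J + 1 - i = (J - i) + 1 by omega, pow_succ _ (J - i), G.d_succ J]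
    have h1 : (2 : ℝ) ≤ G.Ga := by
      have := G.cr_t_le_Ga
      have := G.one_le_t
      linarith
    have h2 := G.d_pos J
    have h3 : (0 : ℝ) < (1 / 2) ^ (J - i) := by positivity
    have h4 : (1 / 2) ^ (J - i) * G.d J * 2 ≤ (1 / 2) ^ (J - i) * G.d J * G.Ga :=
      mul_le_mul_of_nonneg_left h1 (by positivity)
    linarith only [ih, h4]

lemma cr_ell_le (i : ℕ) : G.ell i ≤ G.d i := by
  unfold ell d
  have h1 : Real.exp (-G.Ga ^ 2) ≤ 1 := Real.exp_le_one_iff.mpr (by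
    have := sq_nonneg G.Ga; linarith)
  have := G.lm_pos i
  nlinarith only [h1, this]

lemma cr_ell_nonneg (i : ℕ) : 0 ≤ G.ell i := by
  have := G.lm_pos i
  unfold ell; positivity

lemma cr_lam_sq_mul_Δ (J : ℕ) : G.lm J * G.Δ J = G.t := by
  have := G.lm_pos J
  unfold Δ; field_simp

end Geo

/-- The slowly growing weight of the old levels. -/
def cr_ww (m : ℕ) (t0 Δ t : ℝ) : ℝ := 1 - (1 / 2) ^ m + (1 / 2) ^ m / 2 * ((t - t0) / Δ)

lemma cr_ww_self (m : ℕ) (t0 Δ : ℝ) : cr_ww m t0 Δ t0 = 1 - (1 / 2) ^ m := by simp [cr_ww]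

lemma cr_ww_lo {m : ℕ} (hm : 1 ≤ m) {t0 Δ t : ℝ} (hΔ : 0 < Δ) (h : t0 ≤ t) : 1 / 2 ≤ cr_ww m t0 Δ t := by
  have h1 : ((1 : ℝ) / 2) ^ m ≤ (1 / 2) ^ 1 :=
    pow_le_pow_of_le_one (by norm_num) (by norm_num) hm
  have h2 : 0 ≤ ((1 : ℝ) / 2) ^ m / 2 * ((t - t0) / Δ) :=
    mul_nonneg (by positivity) (div_nonneg (by linarith only [h]) hΔ.le)
  unfold cr_ww; linarith only [h1, h2]

lemma cr_ww_hi (m : ℕ) {t0 Δ t : ℝ} (hΔ : 0 < Δ) (h : t ≤ t0 + Δ) :
    cr_ww m t0 Δ t ≤ 1 - (1 / 2) ^ (m + 1) := by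
  have h1 : (t - t0) / Δ ≤ 1 := by rw [div_le_one hΔ]; linarith
  have h2 : ((1 : ℝ) / 2) ^ m / 2 * ((t - t0) / Δ) ≤ (1 / 2) ^ m / 2 * 1 :=
    mul_le_mul_of_nonneg_left h1 (by positivity)
  unfold cr_ww; rw [pow_succ]; linarith only [h2]

lemma cr_hd_ww (m : ℕ) (t0 Δ t : ℝ) : HD (cr_ww m t0 Δ) ((1 / 2) ^ m / 2 / Δ) t := by
  have h := ((((hasDerivWithinAt_id t (Ici (0 : ℝ))).sub_const t0).div_const Δ).const_mul
    (((1 : ℝ) / 2) ^ m / 2)).const_add (1 - (1 / 2) ^ m)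
  exact HasDerivWithinAt.congr_deriv h (by ring)

lemma cr_cont_ww (m : ℕ) (t0 Δ : ℝ) : Continuous (cr_ww m t0 Δ) := by unfold cr_ww; fun_prop

lemma cr_hd_Ex (t0 E0 g0 t : ℝ) : HD (Ex t0 E0 g0) (g0 * Ex t0 E0 g0 t) t := by
  have h := ((((hasDerivWithinAt_id t (Ici (0 : ℝ))).sub_const t0).const_mul g0).exp).const_mul E0
  exact HasDerivWithinAt.congr_deriv h (by simp only [Ex, id]; ring)

lemma cr_cont_Ex (t0 E0 g0 : ℝ) : Continuous (Ex t0 E0 g0) := by unfold Ex; fun_prop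

lemma cr_Ex_self (t0 E0 g0 : ℝ) : Ex t0 E0 g0 t0 = E0 := by simp [Ex]

lemma cr_le_Ex {t0 E0 g0 t : ℝ} (h0 : 0 ≤ E0) (hg : 0 ≤ g0) (ht : t0 ≤ t) : E0 ≤ Ex t0 E0 g0 t :=
  le_mul_of_one_le_right h0 (Real.one_le_exp (mul_nonneg hg (by linarith)))

lemma cr_Ex_mono {t0 E0 g0 s t : ℝ} (h0 : 0 ≤ E0) (hg : 0 ≤ g0) (ht : s ≤ t) :
    Ex t0 E0 g0 s ≤ Ex t0 E0 g0 t :=
  mul_le_mul_of_nonneg_left (Real.exp_le_exp.mpr (mul_le_mul_of_nonneg_left (by linarith) hg)) h0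

/-- One step of a barrier argument for a square. -/
lemma cr_sq_step {F W : ℝ → ℝ} {X K D W' t : ℝ} (hF : HD F D t) (hW : HD W W' t) (hX : F t = X ^ 2)
    (X0 : 0 ≤ X) (W0 : 0 < W t) (e : F t - W t ^ 2 = 0) (hD : D ≤ 2 * X * K) (hK : K < W') :
    ∃ D < 0, HD (fun t => F t - W t ^ 2) D t := by
  have hx : X = W t := by
    have : X ^ 2 = W t ^ 2 := by linarith
    exact (pow_left_inj₀ X0 W0.le two_ne_zero).mp this
  refine ⟨_, ?_, hF.sub (hW.pow 2)⟩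
  rw [hx] at hD
  have : W t * K < W t * W' := mul_lt_mul_of_pos_left hK W0
  simp only [Nat.cast_ofNat, Nat.add_one_sub_one, pow_one]
  linarith

variable {G : Geo} {R : Raw} {J : ℕ} {t E : ℝ} {AA : ℕ → ℝ}

/-- The bound of the errors acting on an old level. -/
def cr_Ko (G : Geo) (R : Raw) (i : ℕ) (t : ℝ) : ℝ :=
  G.Ga / G.t ^ 10 / 10 * (G.d i * R.un G i) + G.t ^ 12 * R.Jk t

lemma cr_Ko_small (H : IsNet G R) (hj : Jb G R J t) {i : ℕ} (hi : i < J) :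
    G.t ^ 9 * (cr_Ko G R i t * G.Δ J) ≤ (1 / 2) ^ (J - i) * R.un G i := by
  have h1 := G.cr_d_old hi
  have h2 := G.d_mul_Δ J
  have h3 := H.jk_old hj hi.le
  have h4 := G.cr_lam_sq_mul_Δ J
  have hΔ := G.Δ_pos J
  have hu := H.un_pos i
  have hT := G.t_pos
  have hJ := H.Jk_nonneg t
  set q : ℝ := (1 / 2) ^ (J - i)
  have hq : 0 < q := by positivity
  have a1 : G.t ^ 9 * (G.Ga / G.t ^ 10) * (G.d i * G.Δ J) ≤ 4 * q := by
    have : G.t * (G.t ^ 9 * (G.Ga / G.t ^ 10) * (G.d i * G.Δ J)) ≤ G.t * (4 * q) := by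
      calc G.t * (G.t ^ 9 * (G.Ga / G.t ^ 10) * (G.d i * G.Δ J)) = G.Ga * G.d i * G.Δ J := by
            field_simp
        _ ≤ 2 * q * G.d J * G.Δ J := by gcongr
        _ = G.t * (4 * q) := by rw [mul_assoc, h2]; ring
    exact le_of_mul_le_mul_left this hT
  have a2 : 2 * G.t ^ 22 ≤ Real.exp G.Ga := by
    have := G.pow_lt (a := 22) (b := 23) (by norm_num)
    have := G.cr_pow_le_exp_pow (k := 23) (m := 42) (by norm_num) (by norm_num)
    have := Real.exp_le_exp.mpr G.t_le_Ga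
    have := pow_pos hT 22
    linarith
  have a3 : 2 * G.t ^ 21 * (R.Jk t * G.Δ J) ≤ q * R.un G i := by
    have : G.t * (2 * G.t ^ 21 * (R.Jk t * G.Δ J)) ≤ G.t * (q * R.un G i) := by
      calc G.t * (2 * G.t ^ 21 * (R.Jk t * G.Δ J)) = 2 * G.t ^ 22 * R.Jk t * G.Δ J := by ring
        _ ≤ Real.exp G.Ga * R.Jk t * G.Δ J := by gcongr
        _ ≤ q * (R.un G i * G.lm J) * G.Δ J := by gcongr
        _ = G.t * (q * R.un G i) := by rw [← h4]; ring
    exact le_of_mul_le_mul_left this hT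
  have a4 : G.t ^ 9 * (G.Ga / G.t ^ 10) * (G.d i * G.Δ J) * R.un G i ≤ 4 * q * R.un G i := by gcongr
  have a5 : 0 < q * R.un G i := by positivity
  unfold cr_Ko
  generalize G.Ga / G.t ^ 10 = X at *
  linarith only [a3, a5, a4]

/-- The errors acting on an old level are slower than the weight. -/
lemma cr_Ko_lt (H : IsNet G R) (hj : Jb G R J t) {i : ℕ} (hi : i < J) {c : ℝ} (hc : 1 / 10 ^ 20 ≤ c) :
    cr_Ko G R i t < c * ((1 / 2) ^ (J - i) / 2 / G.Δ J) * R.un G i := by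
  have h1 := cr_Ko_small H hj hi
  have hΔ := G.Δ_pos J
  have hu := H.un_pos i
  have hT := G.pow_lt (a := 0) (b := 9) (by norm_num)
  rw [pow_zero] at hT
  set q : ℝ := (1 / 2) ^ (J - i)
  have hq : 0 < q := by positivity
  have e : c * (q / 2 / G.Δ J) * R.un G i = c / 2 * (q * R.un G i) / G.Δ J := by ring
  rw [e, lt_div_iff₀ hΔ]
  have a5 : 0 < q * R.un G i := by positivity
  by_contra hn
  push Not at hn
  have a6 : 1 / 10 ^ 20 / 2 * (q * R.un G i) ≤ cr_Ko G R i t * G.Δ J :=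
    le_trans (by gcongr) hn
  nlinarith only [hT, h1, a5, a6]

namespace Bnd

variable (H : IsNet G R) (h : Bnd G R J AA t E)

include H h

lemma cr_norm_b {i : ℕ} (hi : i < J) (o : Fin 4) : ‖R.b i o t‖ ≤ 11 * R.un G i := by
  have h1 := h.oldb i hi o
  have hu := H.un_pos i
  have hA := h.oldA i hi
  have h2 : ‖((AA i * R.un G i : ℝ) : ℂ) • G.φ i‖ = AA i * R.un G i := by
    rw [norm_smul, G.norm_φ, mul_one, Complex.norm_real, Real.norm_of_nonneg (by nlinarith only [hu, hA])]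
  have h3 := norm_le_insert' (R.b i o t) (((AA i * R.un G i : ℝ) : ℂ) • G.φ i)
  have h4 : (0 : ℝ) < (1 / 2) ^ (J + 1 - i) := by positivity
  nlinarith only [h1, hu, hA, h2, h3, h4]

lemma cr_norm_c {i : ℕ} (hi : i < J) (o : Fin 4) : ‖R.c i o t‖ ≤ 30 * R.un G i := by
  have h1 := h.oldc i hi o
  have hu := H.un_pos i
  have h4 : (0 : ℝ) < (1 / 2) ^ (J + 1 - i) := by positivity
  nlinarith only [h1, hu, h4]

lemma cr_kap_l1 {i : ℕ} (hi : i < J) : R.kap G i * l1 (R.B G i t) ≤ 11 * G.d (i + 1) := by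
  have h1 := (h.old H hi).2.1
  have h2 := H.kap_mul_bh i
  have h3 := H.kap_pos i
  nlinarith only [h1, h2, h3]

lemma cr_kap_c {i : ℕ} (hi : i < J) (o : Fin 4) :
    R.kap G (i - 1) * l1 (R.B G (i - 1) t) * ‖R.c i o t‖ ≤ 330 * (G.d i * R.un G i) := by
  have hu := H.un_pos i
  have hd := G.d_pos i
  rcases i with _ | i
  · rw [H.c0, norm_zero, mul_zero]; positivity
  · have h1 := h.cr_kap_l1 H (i := i) (by omega)
    have h2 := h.cr_norm_c H hi o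
    rw [Nat.add_sub_cancel]
    calc _ ≤ 11 * G.d (i + 1) * (30 * R.un G (i + 1)) := by gcongr
      _ = _ := by ring

lemma cr_kap_c_l1 {i : ℕ} (hi : i < J) (o : Fin 4) :
    R.kap G (i - 1) * l1 (R.B G (i - 1) t) * l1 (R.c i o t) ≤
      1000 * (G.N i * (G.d i * R.un G i)) := by
  have h1 := h.cr_kap_c H hi o
  have h2 := (H.spc i o t).l1_le
  have h3 := G.Nn_rc i
  have hN := G.N_pos i
  have hu := H.un_pos i
  have hd := G.d_pos i
  have hk := H.kap_pos (i - 1)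
  have hl := l1_nonneg (R.B G (i - 1) t)
  calc _ ≤ R.kap G (i - 1) * l1 (R.B G (i - 1) t) * (3 * (101 / 100 * G.N i) * ‖R.c i o t‖) := by
        gcongr
        exact h2.trans (by gcongr)
    _ = 303 / 100 * G.N i * (R.kap G (i - 1) * l1 (R.B G (i - 1) t) * ‖R.c i o t‖) := by ring
    _ ≤ 303 / 100 * G.N i * (330 * (G.d i * R.un G i)) := by gcongr
    _ ≤ _ := by have : 0 < G.N i * (G.d i * R.un G i) := by positivity
                linarith only [this]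

lemma cr_Kb {i : ℕ} (hi : i < J) (o : Fin 4) :
    R.kap G (i - 1) * l1 (R.B G (i - 1) t) * ‖R.c i o t‖ + G.d i * ‖R.b i o t‖ +
      G.ell i * |AA i * R.un G i| + R.eb G i t ≤ cr_Ko G R i t := by
  have h1 := h.cr_kap_c H hi o
  have h2 := h.cr_norm_b H hi o
  have h3 := (h.cr0 H).eb_le H i
  have hu := H.un_pos i
  have hd := G.d_pos i
  have hA := h.oldA i hi
  have hJ := H.Jk_nonneg t
  have h4 : G.ell i * |AA i * R.un G i| ≤ G.d i * (10 * R.un G i) := by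
    rw [abs_of_nonneg (by nlinarith only [hu, hA])]
    exact mul_le_mul (G.cr_ell_le i) (by nlinarith only [hu, hA]) (by nlinarith only [hu, hA]) hd.le
  have h5 : G.d i * ‖R.b i o t‖ ≤ G.d i * (11 * R.un G i) := by gcongr
  have h6 := G.cr_Ga_div
  have h7 := G.pow_lt (a := 0) (b := 12) (by norm_num)
  rw [pow_zero] at h7
  have h8 : 0 < G.d i * R.un G i := by positivity
  unfold cr_Ko
  generalize G.Ga / G.t ^ 10 = X at *
  nlinarith only [h1, hJ, h4, h5, h7, h8, h3, h6]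

lemma cr_Kc {i : ℕ} (hi : i + 1 < J) (o : Fin 4) :
    R.kap G i * l1 (R.B G i t) * ‖R.b (i + 1) o t‖ + ‖R.f G i o t‖ + R.ec G i t ≤
      cr_Ko G R (i + 1) t := by
  have h1 := h.cr_kap_l1 H (i := i) (by omega)
  have h2 := h.cr_norm_b H hi o
  have h3 := (h.cr0 H).ec_le H i
  have h4 := (h.cr0 H).f_le' H i o
  have hu := H.un_pos (i + 1)
  have hd := G.d_pos (i + 1)
  have h5 : R.kap G i * l1 (R.B G i t) * ‖R.b (i + 1) o t‖ ≤
      11 * G.d (i + 1) * (11 * R.un G (i + 1)) := by gcongr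
  have h6 := G.cr_Ga_div
  have h8 : 0 < G.d (i + 1) * R.un G (i + 1) := by positivity
  unfold cr_Ko
  generalize G.Ga / G.t ^ 10 = X at *
  nlinarith only [h3, h4, h5, h8, h6]

lemma cr_Kl {i : ℕ} (hi : i < J) (o : Fin 4) :
    R.kap G (i - 1) * l1 (R.B G (i - 1) t) * l1 (R.c i o t) + G.d i * l1 (R.b i o t) +
      G.N i * (G.ell i * ‖R.b i o t‖ + 3 * R.eb G i t) ≤ G.N i * cr_Ko G R i t := by
  have h1 := h.cr_kap_c_l1 H hi o
  have h2 := h.cr_norm_b H hi o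
  have h3 := (h.cr0 H).eb_le H i
  have hu := H.un_pos i
  have hd := G.d_pos i
  have hN := G.N_pos i
  have hJ := H.Jk_nonneg t
  have h4 : G.ell i * ‖R.b i o t‖ ≤ G.d i * (11 * R.un G i) :=
    mul_le_mul (G.cr_ell_le i) h2 (norm_nonneg _) hd.le
  have h5 : G.d i * l1 (R.b i o t) ≤ G.d i * (3 * G.N i * (11 * R.un G i)) := by
    gcongr
    exact (H.spb i o t).l1_le.trans (by unfold Geo.N at *; gcongr)
  have h6 := G.cr_Ga_div
  have h7 := G.pow_lt (a := 0) (b := 12) (by norm_num)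
  rw [pow_zero] at h7
  have h8 : 0 < G.d i * R.un G i := by positivity
  have h9 : 1033 * (G.d i * R.un G i) + (G.ell i * ‖R.b i o t‖ + 3 * R.eb G i t) ≤ cr_Ko G R i t := by
    unfold cr_Ko
    generalize G.Ga / G.t ^ 10 = X at *
    nlinarith only [hJ, h4, h7, h8, h3, h6]
  have h10 := mul_le_mul_of_nonneg_left h9 hN.le
  linarith only [h1, h5, h10]

end Bnd

/-- The amplitude of an old level hardly moves during a stage. -/
theorem cr_drift_le (H : IsNet G R) {t0 t1 : ℝ} {EE : ℝ → ℝ} (h0 : 0 ≤ t0) (h1 : t1 ≤ t0 + G.Δ J)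
    (hB : ∀ u ∈ Icc t0 t1, Bnd G R J AA u (EE u)) (hj : ∀ u ∈ Icc t0 t1, Jb G R J u)
    {i : ℕ} (hi : i < J) : ∀ t ∈ Icc t0 t1, |R.aa G i t - R.aa G i t0| ≤ (G.t ^ 9)⁻¹ := by
  intro t ht
  have hΔ := G.Δ_pos J
  have hu := H.un_pos i
  have hN := G.N_pos i
  have hb := H.bh_pos i
  have hT := pow_pos G.t_pos 9
  have hq : ((1 : ℝ) / 2) ^ (J - i) ≤ 1 := pow_le_one₀ (by norm_num) (by norm_num)
  have a1 : ∀ o, l1 (R.b i o t - R.b i o t0) ≤ G.N i * ((G.t ^ 9)⁻¹ * R.un G i) := fun o => by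
    have := l1_sub_le_of_deriv (K := G.N i * ((G.t ^ 9)⁻¹ * R.un G i / G.Δ J)) (b := t1) h0
      (H.spb i o) (fun u hu' => by
        obtain ⟨D, hD, hl⟩ := H.b_l1_deriv i o (h0.trans hu'.1)
        refine ⟨D, hD, hl.trans (((hB u hu').cr_Kl H hi o).trans ?_)⟩
        gcongr
        rw [le_div_iff₀ hΔ, le_inv_mul_iff₀ hT]
        have := cr_Ko_small H (hj u hu') hi
        nlinarith only [hu, hq, this]) t ht
    refine this.trans ?_
    have h2 : (t - t0) / G.Δ J ≤ 1 := by rw [div_le_one hΔ]; linarith only [h1, ht.2]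
    calc _ = G.N i * ((G.t ^ 9)⁻¹ * R.un G i) * ((t - t0) / G.Δ J) := by ring
      _ ≤ G.N i * ((G.t ^ 9)⁻¹ * R.un G i) * 1 := by gcongr
      _ = _ := mul_one _
  have a2 : l1 (R.B G i t - R.B G i t0) ≤ R.Om * (G.N i * ((G.t ^ 9)⁻¹ * R.un G i)) := by
    unfold Raw.B
    rw [comb_sub]
    exact H.l1_comb_le i a1
  have a3 : R.Om * (G.N i * R.un G i) ≤ R.bh G i := by
    rw [← H.un_mul i]
    have h2 : G.N i ≤ l1 (G.φ i) := le_l1_ph _
    have h3 := H.Om_lo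
    calc R.Om * (G.N i * R.un G i) = R.un G i * (R.Om * G.N i) := by ring
      _ ≤ _ := by gcongr
  have a4 : R.aa G i t - R.aa G i t0 = (ev 0 (R.B G i t - R.B G i t0)).re / R.bh G i := by
    simp only [Raw.aa, map_sub, Complex.sub_re]; ring
  rw [a4, abs_div, abs_of_pos hb, div_le_iff₀ hb]
  calc _ ≤ ‖ev 0 (R.B G i t - R.B G i t0)‖ := Complex.abs_re_le_norm _
    _ ≤ _ := norm_ev_le _ _
    _ ≤ _ := a2
    _ = (G.t ^ 9)⁻¹ * (R.Om * (G.N i * R.un G i)) := by ring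
    _ ≤ _ := by gcongr

end

end Pool.Agent.Work.MP_6bf1e5_an.Hyp
end

-- merged part: Pool.Agent.Work.MP_6bf1e5_an.Hyp.CrudeB
section
/-!
The single steps of the barrier argument of a stage.
-/

open Set Complex Filter Topology
open scoped InnerProductSpace ComplexConjugate
open Pool.Agent.Work.MP_6bf1e5_an.B (Z3 R3)
open Pool.Agent.Work.MP_6bf1e5_an.Hyp.Dec

namespace Pool.Agent.Work.MP_6bf1e5_an.Hyp

noncomputable section

variable {G : Geo} {R : Raw} {J : ℕ} {t t0 E : ℝ} {AA : ℕ → ℝ}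

/-- The junk acting on a ladder. -/
lemma cr_jk_nc (H : IsNet G R) (hj : Jb G R J t) {i : ℕ} (hi : i ≤ J) :
    G.t ^ 10 * G.Q * (G.L * G.Wc * (G.N i * R.Jk t)) ≤
      (1 / 2) ^ (J - i) * (R.bh G i * G.lm J) := by
  have h1 := H.jk_old hj hi
  have h2 := H.un_hi i
  have hJ := H.Jk_nonneg t
  have hN := G.N_pos i
  have hu := H.un_pos i
  have hl := G.lm_pos J
  have h3 : G.t ^ 10 * G.Q * G.L * G.Wc ≤ Real.exp G.Ga := by
    have hT := G.t_pos
    have hL := G.L_pos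
    have hQ := G.Q_pos
    have a0 : G.t ≤ G.W := by
      have := G.pow_le (a := 1) (b := 20) (by norm_num)
      rw [pow_one] at this
      exact this.trans G.W_lo
    have a1 := G.cr_L_le_exp (k := 3) (by norm_num) a0
    have a2 : G.t ^ 10 * G.Q * G.L ≤ G.L ^ 3 := by
      have b1 := G.cr_tQ
      have b2 : 0 < G.t ^ 10 * G.Q := by positivity
      calc G.t ^ 10 * G.Q * G.L ≤ G.L ^ 2 * G.L := by gcongr; linarith only [b1, b2]
        _ = G.L ^ 3 := by ring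
    have a3 : G.W + G.W ≤ G.Ga := by
      have b1 := G.W_mul
      have b2 := G.Q_mul_L
      have b3 := G.t_big
      have b4 := G.one_le_L
      have b5 : 2 * G.W ≤ G.t * G.W := by gcongr; linarith only [a0, b3]; linarith only [b3]
      have b6 : G.Q * 1 ≤ G.Q * G.L := by gcongr
      linarith only [b1, b2, b5, b6]
    calc G.t ^ 10 * G.Q * G.L * G.Wc ≤ Real.exp G.W * Real.exp G.W := by
          unfold Geo.Wc; gcongr; exact a2.trans a1
      _ = Real.exp (G.W + G.W) := (Real.exp_add _ _).symm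
      _ ≤ _ := Real.exp_le_exp.mpr a3
  have h4 : G.N i * R.un G i ≤ R.bh G i := by linarith only [h2, mul_pos hN hu]
  calc _ = G.N i * (G.t ^ 10 * G.Q * G.L * G.Wc * R.Jk t) := by ring
    _ ≤ G.N i * (Real.exp G.Ga * R.Jk t) := by gcongr
    _ ≤ G.N i * ((1 / 2) ^ (J - i) * (R.un G i * G.lm J)) := by gcongr
    _ = (1 / 2) ^ (J - i) * (G.N i * R.un G i * G.lm J) := by ring
    _ ≤ _ := by gcongr

lemma Geo.cr_exp_le_xs (G : Geo) : Real.exp (-(G.Q / 4)) ≤ G.xs / 4 := by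
  have hT := G.t_pos
  have hQ := G.Q_pos
  have a1 := G.pow_lt (a := 1) (b := 21) (by norm_num)
  have a2 := G.Q_lo
  rw [pow_one] at a1
  have a3 := G.cr_L_le_exp (k := 2) (x := G.Q / 4) (by norm_num) (by linarith)
  have a4 := G.cr_t9Q
  have a5 : 0 < G.t ^ 9 * G.Q := by positivity
  have a6 : 4 * (G.t ^ 9 * G.Q) ≤ Real.exp (G.Q / 4) := by linarith
  rw [Real.exp_neg, Geo.xs, show (G.t ^ 9 * G.Q)⁻¹ / 4 = (4 * (G.t ^ 9 * G.Q))⁻¹ by
    rw [mul_inv 4]; ring]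
  exact inv_anti₀ (by positivity) a6

lemma Geo.cr_xs_le_one (G : Geo) : G.xs ≤ 1 :=
  G.xs_le.trans (inv_le_one_of_one_le₀ (one_le_pow₀ G.one_le_t))

lemma Geo.cr_floor (G : Geo) : Real.exp (-(G.t ^ 8 * G.Ga)) ≤ G.xs * G.xs := by
  have hT := G.t_pos
  have hQ := G.Q_pos
  have a0 : G.t ≤ G.t ^ 8 * G.Ga := by
    have b1 := G.cr_t_le_Ga
    have b2 : G.Ga ≤ G.t ^ 8 * G.Ga := le_mul_of_one_le_left G.Ga_pos.le (one_le_pow₀ G.one_le_t)
    linarith
  have a1 := G.cr_L_le_exp (k := 4) (by norm_num) a0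
  have a4 := G.cr_t9Q
  have a5 : 0 < G.t ^ 9 * G.Q := by positivity
  have a6 : G.t ^ 9 * G.Q ≤ G.L ^ 2 := by linarith
  rw [Real.exp_neg, Geo.xs, ← mul_inv]
  refine inv_anti₀ (by positivity) (le_trans ?_ a1)
  calc G.t ^ 9 * G.Q * (G.t ^ 9 * G.Q) ≤ G.L ^ 2 * G.L ^ 2 := by gcongr
    _ = G.L ^ 4 := by ring

namespace Bnd

variable (H : IsNet G R) (h : Bnd G R J AA t E) (hj : Jb G R J t)

include H h hj

lemma cr_step_b (ht : t0 ≤ t) {i : ℕ} (hi : i < J) (o : Fin 4)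
    (e : ‖R.b i o t - ((AA i * R.un G i : ℝ) : ℂ) • G.φ i‖ ^ 2 -
      (1 / 10 ^ 20 * cr_ww (J - i) t0 (G.Δ J) t * R.un G i) ^ 2 = 0) :
    ∃ D < 0, HD (fun t => ‖R.b i o t - ((AA i * R.un G i : ℝ) : ℂ) • G.φ i‖ ^ 2 -
      (1 / 10 ^ 20 * cr_ww (J - i) t0 (G.Δ J) t * R.un G i) ^ 2) D t := by
  obtain ⟨D, hD, hl⟩ := H.b_deriv i o h.t0 (AA i * R.un G i)
  have hw := cr_ww_lo (m := J - i) (by omega) (G.Δ_pos J) ht
  have hu := H.un_pos i
  refine cr_sq_step (K := cr_Ko G R i t) hD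
    (((cr_hd_ww (J - i) t0 (G.Δ J) t).const_mul (1 / 10 ^ 20)).mul_const (R.un G i)) rfl
    (norm_nonneg _) (by positivity) e (hl.trans ?_) (cr_Ko_lt H hj hi le_rfl)
  gcongr
  exact h.cr_Kb H hi o

lemma cr_step_c (ht : t0 ≤ t) {i : ℕ} (hi : i < J) (o : Fin 4)
    (e : ‖R.c i o t‖ ^ 2 - (30 * cr_ww (J - i) t0 (G.Δ J) t * R.un G i) ^ 2 = 0) :
    ∃ D < 0, HD (fun t => ‖R.c i o t‖ ^ 2 - (30 * cr_ww (J - i) t0 (G.Δ J) t * R.un G i) ^ 2) D t := by
  have hw := cr_ww_lo (m := J - i) (by omega) (G.Δ_pos J) ht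
  have hu := H.un_pos i
  have W0 : 0 < 30 * cr_ww (J - i) t0 (G.Δ J) t * R.un G i := by positivity
  rcases i with _ | i
  · rw [H.c0, norm_zero] at e
    nlinarith only [e, W0]
  obtain ⟨D, hD, hl⟩ := H.c_deriv i o h.t0
  refine cr_sq_step (K := cr_Ko G R (i + 1) t) hD
    (((cr_hd_ww (J - (i + 1)) t0 (G.Δ J) t).const_mul 30).mul_const (R.un G (i + 1))) rfl
    (norm_nonneg _) W0 e (hl.trans ?_) (cr_Ko_lt H hj hi (by norm_num))
  gcongr
  exact h.cr_Kc H hi o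

lemma cr_step_y (ht : t0 ≤ t) {i : ℕ} (hi : i < J)
    (e : R.nc G i t - 30 * cr_ww (J - i) t0 (G.Δ J) t * R.bh G i = 0) :
    ∃ D < 0, HD (fun t => R.nc G i t - 30 * cr_ww (J - i) t0 (G.Δ J) t * R.bh G i) D t := by
  have hw := cr_ww_lo (m := J - i) (by omega) (G.Δ_pos J) ht
  have hb := H.bh_pos i
  have hΔ := G.Δ_pos J
  have h1 : 15 * R.bh G i ≤ R.nc G i t := by nlinarith only [e, hw, hb]
  obtain ⟨D, hD, hl⟩ := (h.cr0 H).nc_deriv H i (by linarith only [hb, h1])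
  refine ⟨_, ?_, hD.sub (((cr_hd_ww (J - i) t0 (G.Δ J) t).const_mul 30).mul_const (R.bh G i))⟩
  have h2 := cr_jk_nc H hj hi.le
  have h3 := G.cr_exp_le_xs
  have h4 := G.cr_xs_le_one
  have hDD := G.D_pos i
  have h5 : Real.exp (-(G.Q / 4)) * (G.D i * R.bh G i) ≤ 1 * (G.D i * R.bh G i) := by
    gcongr; linarith only [h3, h4]
  have h6 : G.D i / 2 * (15 * R.bh G i) ≤ G.D i / 2 * R.nc G i t := by gcongr
  have h7 : 0 < G.D i * R.bh G i := by positivity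
  set X := G.L * G.Wc * (G.N i * R.Jk t)
  set q : ℝ := (1 / 2) ^ (J - i)
  have hq : 0 < q := by positivity
  have h8 : X ≤ q * R.bh G i / G.Δ J := by
    rw [le_div_iff₀ hΔ]
    have hX : 0 ≤ X := by
      have := G.L_pos; have := G.Wc_pos; have := G.N_pos i; have := H.Jk_nonneg t
      positivity
    have a1 : G.t ^ 1 ≤ G.t ^ 10 * G.Q :=
      (G.pow_le (by norm_num)).trans (le_mul_of_one_le_right (pow_pos G.t_pos 10).le
        (G.one_le_L.trans G.L_le_Q))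
    have a2 := G.cr_lam_sq_mul_Δ J
    have : G.t * (X * G.Δ J) ≤ G.t * (q * R.bh G i) := by
      calc G.t * (X * G.Δ J) = G.t ^ 1 * X * G.Δ J := by ring
        _ ≤ G.t ^ 10 * G.Q * X * G.Δ J := by (clear * - hΔ hX a1; gcongr)
        _ ≤ q * (R.bh G i * G.lm J) * G.Δ J := by gcongr
        _ = G.t * (q * R.bh G i) := by rw [← a2]; ring
    exact le_of_mul_le_mul_left this G.t_pos
  have h9 : 30 * (q / 2 / G.Δ J) * R.bh G i = 15 * (q * R.bh G i / G.Δ J) := by ring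
  have h10 : 0 < q * R.bh G i / G.Δ J := by positivity
  linarith only [h5, h6, h7, hl, h8, h9, h10]

lemma cr_step_cury {E0 g0 : ℝ} (hg : 0 ≤ g0) (hE : E = Ex t0 E0 g0 t)
    (e : R.nc G J t - Ex t0 E0 g0 t * R.bh G J = 0) :
    ∃ D < 0, HD (fun t => R.nc G J t - Ex t0 E0 g0 t * R.bh G J) D t := by
  have hb := H.bh_pos J
  have hx := G.xs_pos
  have hE1 := h.Elo
  rw [hE] at hE1
  have h1 : G.xs * R.bh G J ≤ R.nc G J t := by nlinarith only [e, hb, hE1]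
  obtain ⟨D, hD, hl⟩ := (h.cr0 H).nc_deriv H J (lt_of_lt_of_le (by positivity) h1)
  refine ⟨_, ?_, hD.sub ((cr_hd_Ex t0 E0 g0 t).mul_const (R.bh G J))⟩
  have h2 := cr_jk_nc H hj le_rfl
  have h3 := G.cr_exp_le_xs
  have hDD := G.D_pos J
  have h5 : Real.exp (-(G.Q / 4)) * (G.D J * R.bh G J) ≤ G.xs / 4 * (G.D J * R.bh G J) := by
    gcongr
  have h6 : G.D J / 2 * (G.xs * R.bh G J) ≤ G.D J / 2 * R.nc G J t := by gcongr
  have h7 : 0 ≤ g0 * Ex t0 E0 g0 t * R.bh G J := by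
    have : 0 ≤ Ex t0 E0 g0 t := by linarith only [hx, hE1]
    positivity
  set X := G.L * G.Wc * (G.N J * R.Jk t)
  have h8 : 8 * X ≤ G.xs * (G.D J * R.bh G J) := by
    have hX : 0 ≤ X := by
      have := G.L_pos; have := G.Wc_pos; have := G.N_pos J; have := H.Jk_nonneg t
      positivity
    have a1 := G.pow_lt (a := 9) (b := 10) (by norm_num)
    have hQ := G.Q_pos
    have a2 : G.lm J ≤ G.D J :=
      le_mul_of_one_le_left (G.lm_pos J).le (Real.one_le_exp (by positivity))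
    have a3 := pow_pos G.t_pos 9
    rw [Geo.xs, le_inv_mul_iff₀ (by positivity)]
    rw [Nat.sub_self, pow_zero, one_mul] at h2
    calc G.t ^ 9 * G.Q * (8 * X) = 8 * G.t ^ 9 * G.Q * X := by ring
      _ ≤ G.t ^ 10 * G.Q * X := by gcongr; linarith only [a1, a3]
      _ ≤ R.bh G J * G.lm J := h2
      _ ≤ R.bh G J * G.D J := by gcongr
      _ = _ := mul_comm _ _
  have h9 : 0 < G.xs * (G.D J * R.bh G J) := by positivity
  linarith only [h5, h6, h7, hl, h8, h9]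

omit hj in
lemma cr_fl : Real.exp (-(G.t ^ 8 * G.Ga)) * R.bh G (J + 1) ≤ G.xs * E * R.bh G (J + 1) := by
  have hb := H.bh_pos (J + 1)
  have hx := G.xs_pos
  have := h.Elo
  gcongr
  exact G.cr_floor.trans (by gcongr)

lemma cr_step_upy {E0 g0 : ℝ} (hg : 0 ≤ g0) (hE : E = Ex t0 E0 g0 t) {i : ℕ} (hi : J + 1 ≤ i)
    (e : R.nc G i t - G.θ ^ (i - J) * (G.xs * Ex t0 E0 g0 t * R.bh G (J + 1)) = 0) :
    ∃ D < 0, HD (fun t => R.nc G i t -
      G.θ ^ (i - J) * (G.xs * Ex t0 E0 g0 t * R.bh G (J + 1))) D t := by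
  subst hE
  have hb := H.bh_pos (J + 1)
  have hx := G.xs_pos
  have hθ := G.θ_pos
  have hd := G.d_pos (J + 1)
  have hE : 0 < Ex t0 E0 g0 t := hx.trans_le h.Elo
  obtain ⟨D, hD, hl⟩ := (h.cr0 H).up_y H h.up hj (h.cr_fl H) hi (by linarith only [e])
  refine ⟨_, ?_, hD.sub
    ((((cr_hd_Ex t0 E0 g0 t).const_mul G.xs).mul_const (R.bh G (J + 1))).const_mul (G.θ ^ (i - J)))⟩
  have h1 : 0 < R.nc G i t := by
    rw [sub_eq_zero.mp e]; positivity
  have h2 : 0 < 10 * G.d (J + 1) * R.nc G i t := by positivity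
  have h3 : 0 ≤ G.θ ^ (i - J) * (G.xs * (g0 * Ex t0 E0 g0 t) * R.bh G (J + 1)) := by positivity
  linarith only [hl, h2, h3]

lemma cr_step_upl {E0 g0 : ℝ} (hg : 0 ≤ g0) (hE : E = Ex t0 E0 g0 t) {i : ℕ} (hi : J + 2 ≤ i)
    (e : G.Wc * R.nl G i t - G.θ ^ (i - J - 1) * (G.xs * Ex t0 E0 g0 t * R.bh G (J + 1)) = 0) :
    ∃ D < 0, HD (fun t => G.Wc * R.nl G i t -
      G.θ ^ (i - J - 1) * (G.xs * Ex t0 E0 g0 t * R.bh G (J + 1))) D t := by
  subst hE
  have hb := H.bh_pos (J + 1)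
  have hx := G.xs_pos
  have hθ := G.θ_pos
  have hW := G.Wc_pos
  have hd := G.d_pos (J + 1)
  have hE : 0 < Ex t0 E0 g0 t := hx.trans_le h.Elo
  obtain ⟨D, hD, hl⟩ := (h.cr0 H).up_l H h.up hj (h.cr_fl H) hi (by linarith only [e])
  refine ⟨_, ?_, (hD.const_mul G.Wc).sub ((((cr_hd_Ex t0 E0 g0 t).const_mul G.xs).mul_const
    (R.bh G (J + 1))).const_mul (G.θ ^ (i - J - 1)))⟩
  have h1 : 0 < G.Wc * R.nl G i t := by
    rw [sub_eq_zero.mp e]; positivity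
  have h2 : 0 < 10 * G.d (J + 1) * (G.Wc * R.nl G i t) := by positivity
  have h3 : 0 ≤ G.θ ^ (i - J - 1) * (G.xs * (g0 * Ex t0 E0 g0 t) * R.bh G (J + 1)) := by positivity
  have h4 := mul_le_mul_of_nonneg_left hl hW.le
  linarith only [h2, h3, h4]

end Bnd

/-- The barrier of the current level. -/
def cr_Lc (G : Geo) (R : Raw) (J : ℕ) (t0 E0 g0 t : ℝ) : ℝ :=
  3 * (Ex t0 E0 g0 t * R.un G J) * Ex t0 1 ((G.t ^ 8)⁻¹ * G.d J) t

lemma Bnd.cr_step_lev (H : IsNet G R) {j : ℕ} {E0 g0 : ℝ} (h : Bnd G R (j + 1) AA t (Ex t0 E0 g0 t))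
    (hj : Jb G R (j + 1) t) (ht : t0 ≤ t) (hg : g0 = G.d (j + 1) * (R.aa G j t0 - 1))
    (dr : |R.aa G j t - R.aa G j t0| ≤ (G.t ^ 9)⁻¹)
    (e : R.lev (j + 1) t - cr_Lc G R (j + 1) t0 E0 g0 t = 0) :
    ∃ D < 0, HD (fun t => R.lev (j + 1) t - cr_Lc G R (j + 1) t0 E0 g0 t) D t := by
  have hu := H.un_pos (j + 1)
  have hd := G.d_pos (j + 1)
  have hT := G.t_pos
  have hE : 0 < Ex t0 E0 g0 t := G.xs_pos.trans_le h.Elo
  have h1 : 1 ≤ Ex t0 1 ((G.t ^ 8)⁻¹ * G.d (j + 1)) t := cr_le_Ex zero_le_one (by positivity) ht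
  have h2 : 3 * (Ex t0 E0 g0 t * R.un G (j + 1)) ≤ R.lev (j + 1) t := by
    rw [sub_eq_zero.mp e]
    exact le_mul_of_one_le_right (by positivity) h1
  obtain ⟨ha, -, mv, κ, hp⟩ := h.old H (Nat.lt_succ_self j)
  have hA := h.oldA j (Nat.lt_succ_self j)
  have ha0 : 0 < R.aa G j t := by have := (abs_le.mp ha).1; linarith only [hA, this]
  have hσ : ∀ y, R.kap G j * ‖R.A G j t * y‖ ≤ G.d (j + 1) * R.aa G j t * ‖y‖ := fun y => by
    have e1 : R.kap G j * ‖R.A G j t * y‖ = ‖((R.kap G j : ℂ) • R.A G j t) * y‖ := by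
      rw [smul_mul_assoc, norm_smul, Complex.norm_real, Real.norm_of_nonneg (H.kap_pos j).le]
    rw [e1, H.kap_A ha0, smul_mul_assoc, norm_smul, Complex.norm_real,
      Real.norm_of_nonneg (by positivity)]
    exact mul_le_mul_of_nonneg_left (hp.tau.norm_mul_le y) (by positivity)
  set W := (G.t ^ 20)⁻¹ * (G.d (j + 1) * (Ex t0 E0 g0 t * R.un G (j + 1))) with hW
  obtain ⟨D, hD, hl⟩ := H.lev_deriv (F := W - R.eb G (j + 1) t - R.ec G j t) h.t0
    (lt_of_lt_of_le (by positivity) h2) hσ (fun o => by have := h.err_cur H hj o; linarith only [this])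
  have hL : HD (cr_Lc G R (j + 1) t0 E0 g0)
      ((g0 + (G.t ^ 8)⁻¹ * G.d (j + 1)) * cr_Lc G R (j + 1) t0 E0 g0 t) t :=
    HasDerivWithinAt.congr_deriv ((((cr_hd_Ex t0 E0 g0 t).mul_const (R.un G (j + 1))).const_mul 3).mul
      (cr_hd_Ex t0 1 ((G.t ^ 8)⁻¹ * G.d (j + 1)) t)) (by simp only [cr_Lc]; ring)
  refine ⟨_, ?_, hD.sub hL⟩
  rw [← sub_eq_zero.mp e]
  have a1 : 2 * (G.t ^ 9)⁻¹ ≤ (G.t ^ 8)⁻¹ := by
    have := G.pow_lt (a := 8) (b := 9) (by norm_num)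
    have := pow_pos hT 8
    rw [← div_eq_mul_inv, div_le_iff₀ (by positivity), le_inv_mul_iff₀ (by positivity)]
    linarith
  have a2 : (G.t ^ 20)⁻¹ ≤ (G.t ^ 9)⁻¹ := inv_anti₀ (by positivity) (G.pow_le (by norm_num))
  have a3 : G.d (j + 1) * R.aa G j t - G.d (j + 1) - (g0 + (G.t ^ 8)⁻¹ * G.d (j + 1)) ≤
      -((G.t ^ 9)⁻¹ * G.d (j + 1)) := by
    have := mul_le_mul_of_nonneg_left (show R.aa G j t - R.aa G j t0 + (G.t ^ 9)⁻¹ ≤ (G.t ^ 8)⁻¹ by
      linarith only [a1, (abs_le.mp dr).2]) hd.le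
    rw [hg]; linarith only [this]
  have a4 := mul_le_mul_of_nonneg_right a3 (R.lev_nonneg (j + 1) t)
  have a5 : (G.t ^ 9)⁻¹ * G.d (j + 1) * (3 * (Ex t0 E0 g0 t * R.un G (j + 1))) ≤
      (G.t ^ 9)⁻¹ * G.d (j + 1) * R.lev (j + 1) t := by gcongr
  have a6 : W ≤ (G.t ^ 9)⁻¹ * (G.d (j + 1) * (Ex t0 E0 g0 t * R.un G (j + 1))) := by
    rw [hW]; gcongr
  have a7 : 0 < (G.t ^ 9)⁻¹ * (G.d (j + 1) * (Ex t0 E0 g0 t * R.un G (j + 1))) := by positivity
  linarith only [hl, a4, a5, a6, a7]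

/-- Barrier for finitely many sequences of functions. -/
theorem cr_fam_nat {κ : Type} [Finite κ] {F : κ → ℕ → ℝ → ℝ} {P : κ → ℕ → Prop} {a b : ℝ} {M : ℕ}
    (out : ∀ k i, P k i → M ≤ i → ∀ t ∈ Icc a b, F k i t ≤ 0)
    (hc : ∀ k i, ContinuousOn (F k i) (Icc a b)) (h0 : ∀ k i, P k i → F k i a ≤ 0)
    (step : ∀ t ∈ Ico a b, (∀ u ∈ Icc a t, ∀ k i, P k i → F k i u ≤ 0) → ∀ k i, P k i →
      F k i t = 0 → ∃ D < 0, HasDerivWithinAt (F k i) D (Ici t) t) :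
    ∀ t ∈ Icc a b, ∀ k i, P k i → F k i t ≤ 0 := by
  have fin : Set.Finite {x : {x : κ × ℕ // P x.1 x.2} | x.1.2 < M} := by
    refine Set.Finite.subset (Set.Finite.preimage Subtype.val_injective.injOn
      ((Set.finite_univ (α := κ)).prod (Set.finite_lt_nat M))) fun x hx => ⟨trivial, hx⟩
  have := family_barrier' (H := fun x : {x : κ × ℕ // P x.1 x.2} => F x.1.1 x.1.2) fin
    (fun x hx => out _ _ x.2 (not_lt.mp hx)) (fun x => hc _ _) (fun x => h0 _ _ x.2)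
    (fun t ht hp x => step t ht (fun u hu k i hk => hp u hu ⟨(k, i), hk⟩) _ _ x.2)
  exact fun t ht k i hk => this t ht ⟨(k, i), hk⟩

end

end Pool.Agent.Work.MP_6bf1e5_an.Hyp
end

-- merged part: Pool.Agent.Work.MP_6bf1e5_an.Hyp.Crude
section
/-!
The crude description of a stage.
-/

open Set Complex Filter Topology
open scoped InnerProductSpace ComplexConjugate
open Pool.Agent.Work.MP_6bf1e5_an.B (Z3 R3)
open Pool.Agent.Work.MP_6bf1e5_an.Hyp.Dec

namespace Pool.Agent.Work.MP_6bf1e5_an.Hyp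

noncomputable section

/-- The barrier functions of stage `J`. -/
def cr_FF (G : Geo) (R : Raw) (J : ℕ) (AA : ℕ → ℝ) (t0 g0 : ℝ) (k : Fin 7 × Fin 4) (i : ℕ) : ℝ → ℝ :=
  ![fun t => ‖R.b i k.2 t - ((AA i * R.un G i : ℝ) : ℂ) • G.φ i‖ ^ 2 -
      (1 / 10 ^ 20 * cr_ww (J - i) t0 (G.Δ J) t * R.un G i) ^ 2,
    fun t => ‖R.c i k.2 t‖ ^ 2 - (30 * cr_ww (J - i) t0 (G.Δ J) t * R.un G i) ^ 2,
    fun t => R.nc G i t - 30 * cr_ww (J - i) t0 (G.Δ J) t * R.bh G i,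
    fun t => R.lev J t - cr_Lc G R J t0 (AA J) g0 t,
    fun t => R.nc G J t - Ex t0 (AA J) g0 t * R.bh G J,
    fun t => R.nc G i t - G.θ ^ (i - J) * (G.xs * Ex t0 (AA J) g0 t * R.bh G (J + 1)),
    fun t => G.Wc * R.nl G i t -
      G.θ ^ (i - J - 1) * (G.xs * Ex t0 (AA J) g0 t * R.bh G (J + 1))] k.1

/-- The range of the indices of the barrier functions. -/
def cr_PP (J : ℕ) (k : Fin 7 × Fin 4) (i : ℕ) : Prop :=
  ![i < J, i < J, i < J, i = 0, i = 0, J + 1 ≤ i, J + 2 ≤ i] k.1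

variable {G : Geo} {R : Raw} {J : ℕ} {t0 g0 : ℝ} {AA : ℕ → ℝ}

lemma cr_le_of_sq_le_sq' {a b : ℝ} (h : a ^ 2 ≤ b ^ 2) (hb : 0 ≤ b) : a ≤ b :=
  le_trans (le_abs_self a) (abs_le_of_sq_le_sq h hb)

lemma IsNet.cr_cont_nl (H : IsNet G R) (i : ℕ) : ContinuousOn (R.nl G i) (Ici 0) :=
  (H.cont_lev i).const_mul (G.N i)

lemma IsNet.cr_cont_nc (H : IsNet G R) (i : ℕ) : ContinuousOn (R.nc G i) (Ici 0) :=
  ((H.cont_ch i).const_mul G.Wc).const_mul (G.N i)

lemma cr_cont_FF (H : IsNet G R) (k : Fin 7 × Fin 4) (i : ℕ) :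
    ContinuousOn (cr_FF G R J AA t0 g0 k i) (Ici 0) := by
  obtain ⟨k, o⟩ := k
  have hw := (cr_cont_ww (J - i) t0 (G.Δ J)).continuousOn (s := Ici 0)
  have hE := (cr_cont_Ex t0 (AA J) g0).continuousOn (s := Ici 0)
  fin_cases k
  · exact (((H.cont_b i o).sub continuousOn_const).norm.pow 2).sub
      (((hw.const_mul _).mul_const _).pow 2)
  · exact ((H.cont_c i o).norm.pow 2).sub (((hw.const_mul _).mul_const _).pow 2)
  · exact (H.cr_cont_nc i).sub ((hw.const_mul _).mul_const _)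
  · exact (H.cont_lev J).sub (((hE.mul_const _).const_mul 3).mul (cr_cont_Ex _ _ _).continuousOn)
  · exact (H.cr_cont_nc J).sub (hE.mul_const _)
  · exact (H.cr_cont_nc i).sub (((hE.const_mul _).mul_const _).const_mul _)
  · exact ((H.cr_cont_nl i).const_mul _).sub (((hE.const_mul _).mul_const _).const_mul _)

lemma St.cr_lev_le (H : IsNet G R) (S : St G R J t0 AA) : R.lev J t0 ≤ 3 * (AA J * R.un G J) := by
  have hu := H.un_pos J
  have hA : 0 < AA J := G.xs_pos.trans_le S.curA.1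
  have ha : 0 < AA J * R.un G J := by positivity
  have h2 : ‖((AA J * R.un G J : ℝ) : ℂ) • G.φ J‖ = AA J * R.un G J := by
    rw [norm_smul, G.norm_φ, mul_one, Complex.norm_real, Real.norm_of_nonneg ha.le]
  have h3 : ∀ f : V, ‖f - ((AA J * R.un G J : ℝ) : ℂ) • G.φ J‖ ≤ 1 / 10 ^ 30 * (AA J * R.un G J) →
      ‖f‖ ^ 2 ≤ 9 / 8 * (AA J * R.un G J) ^ 2 := fun f hf => by
    have a1 := norm_le_insert' f (((AA J * R.un G J : ℝ) : ℂ) • G.φ J)
    have a2 : ‖f‖ ≤ 101 / 100 * (AA J * R.un G J) := by linarith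
    have a3 := pow_le_pow_left₀ (norm_nonneg _) a2 2
    nlinarith only [a3]
  refine cr_le_of_sq_le_sq' ?_ (by positivity)
  rw [R.lev_sq, Fin.sum_univ_four]
  linarith [h3 _ (S.curb 0), h3 _ (S.curb 1), h3 _ (S.curb 2), h3 _ (S.curb 3),
    h3 _ (S.curc 0), h3 _ (S.curc 1), h3 _ (S.curc 2), h3 _ (S.curc 3)]

lemma St.cr_up_init (H : IsNet G R) (S : St G R J t0 AA) :
    20 * G.θ * G.xs * R.bh G J ≤ G.xs * AA J * R.bh G (J + 1) := by
  have hb := H.bh_pos J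
  have hx := G.xs_pos
  have hT := G.t_pos
  have hQ := G.Q_pos
  have h1 : 20 * G.θ ≤ G.xs * G.Q := by
    have := G.pow_lt (a := 9) (b := 10) (by norm_num)
    have := pow_pos hT 9
    rw [G.xs_mul_Q, Geo.θ, ← div_eq_mul_inv, div_le_iff₀ (by positivity),
      le_inv_mul_iff₀ (by positivity)]
    linarith
  rw [H.bh_succ]
  calc 20 * G.θ * G.xs * R.bh G J ≤ G.xs * G.Q * G.xs * R.bh G J := by gcongr
    _ = G.xs * G.xs * (G.Q * R.bh G J) := by ring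
    _ ≤ _ := by gcongr; exact S.curA.1

lemma Geo.cr_θ_le (G : Geo) : 20 * G.θ ≤ 1 := by
  have := G.pow_lt (a := 0) (b := 10) (by norm_num)
  have hT := G.t_pos
  rw [pow_zero] at this
  rw [Geo.θ, ← div_eq_mul_inv, div_le_one (by positivity)]
  linarith

lemma St.cr_nw_init (H : IsNet G R) (S : St G R J t0 AA) :
    R.nl G (J + 1) t0 ≤ G.xs * AA J * R.bh G (J + 1) := by
  have h1 := S.upl (J + 1) le_rfl
  rw [Nat.add_sub_cancel_left, pow_one] at h1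
  have h2 : 1 ≤ G.Wc := Real.one_le_exp ((pow_pos G.t_pos 20).le.trans G.W_lo)
  exact (le_mul_of_one_le_left (R.nl_nonneg G _ _) h2).trans (h1.trans (S.cr_up_init H))

lemma cr_init_FF (H : IsNet G R) (S : St G R J t0 AA) (k : Fin 7 × Fin 4) (i : ℕ) (hk : cr_PP J k i) :
    cr_FF G R J AA t0 g0 k i t0 ≤ 0 := by
  obtain ⟨k, o⟩ := k
  have hθ := G.θ_pos
  have hx := G.xs_pos
  fin_cases k
  · refine sub_nonpos.mpr (pow_le_pow_left₀ (norm_nonneg _) ?_ 2)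
    rw [cr_ww_self]; exact S.oldb i hk o
  · refine sub_nonpos.mpr (pow_le_pow_left₀ (norm_nonneg _) ?_ 2)
    rw [cr_ww_self]; exact S.oldc i hk o
  · refine sub_nonpos.mpr ?_
    rw [cr_ww_self]; exact S.oldy i hk
  · refine sub_nonpos.mpr ?_
    rw [cr_Lc, cr_Ex_self, cr_Ex_self, mul_one]; exact S.cr_lev_le H
  · refine sub_nonpos.mpr ?_
    rw [cr_Ex_self]
    have h1 := S.upy J le_rfl
    rw [Nat.sub_self, zero_add, pow_one] at h1
    have hb := H.bh_pos J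
    have h2 := G.cr_θ_le
    have h3 := S.curA.1
    calc _ ≤ _ := h1
      _ ≤ 1 * AA J * R.bh G J := by gcongr
      _ = _ := by rw [one_mul]
  · refine sub_nonpos.mpr ?_
    have hk' : J + 1 ≤ i := hk
    rw [cr_Ex_self]
    calc _ ≤ _ := S.upy i (by omega)
      _ = G.θ ^ (i - J) * (20 * G.θ * G.xs * R.bh G J) := by ring
      _ ≤ _ := mul_le_mul_of_nonneg_left (S.cr_up_init H) (by positivity)
  · refine sub_nonpos.mpr ?_
    have hk' : J + 2 ≤ i := hk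
    rw [cr_Ex_self]
    calc _ ≤ _ := S.upl i (by omega)
      _ = G.θ ^ (i - J - 1) * (20 * G.θ * G.xs * R.bh G J) := by
          rw [show i - J = i - J - 1 + 1 by omega, Nat.add_sub_cancel]; ring
      _ ≤ _ := mul_le_mul_of_nonneg_left (S.cr_up_init H) (by positivity)

/-- The barrier inequalities give the crude bounds. -/
lemma cr_bnd_of_FF (H : IsNet G R) (S : St G R J t0 AA) {u : ℝ} (h1 : t0 ≤ u) (h2 : u ≤ t0 + G.Δ J)
    (hg : 0 ≤ g0) (hE : Ex t0 (AA J) g0 u ≤ 21 / 2)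
    (nw : R.nl G (J + 1) u ≤ G.xs * Ex t0 (AA J) g0 u * R.bh G (J + 1))
    (h : ∀ k i, cr_PP J k i → cr_FF G R J AA t0 g0 k i u ≤ 0) :
    Bnd G R J AA u (Ex t0 (AA J) g0 u) := by
  have hΔ := G.Δ_pos J
  have hA : 0 < AA J := G.xs_pos.trans_le S.curA.1
  have hlo : G.xs ≤ Ex t0 (AA J) g0 u := S.curA.1.trans (cr_le_Ex hA.le hg h1)
  have w1 : ∀ i < J, 1 / 2 ≤ cr_ww (J - i) t0 (G.Δ J) u := fun i hi => cr_ww_lo (by omega) hΔ h1
  have w2 : ∀ i < J, cr_ww (J - i) t0 (G.Δ J) u ≤ 1 - (1 / 2) ^ (J + 1 - i) := fun i hi => by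
    rw [show J + 1 - i = J - i + 1 by omega]; exact cr_ww_hi _ hΔ h2
  refine ⟨S.kJ, S.t0.trans h1, S.oldA, fun i hi o => ?_, fun i hi o => ?_, fun i hi => ?_, hlo, hE,
    ?_, sub_nonpos.mp (h (4, 0) 0 rfl), nw, fun i hi => sub_nonpos.mp (h (5, 0) i hi),
    fun i hi => sub_nonpos.mp (h (6, 0) i hi)⟩
  · have hu := H.un_pos i
    have a1 := w1 i hi
    refine (cr_le_of_sq_le_sq' (sub_nonpos.mp (h (0, o) i hi)) (by positivity)).trans ?_
    gcongr; exact w2 i hi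
  · have hu := H.un_pos i
    have a1 := w1 i hi
    refine (cr_le_of_sq_le_sq' (sub_nonpos.mp (h (1, o) i hi)) (by positivity)).trans ?_
    gcongr; exact w2 i hi
  · have hb := H.bh_pos i
    refine (sub_nonpos.mp (h (2, 0) i hi)).trans ?_
    gcongr; exact w2 i hi
  · refine (sub_nonpos.mp (h (3, 0) 0 rfl)).trans ?_
    have hu := H.un_pos J
    have hT := G.t_pos
    have hd := G.d_pos J
    have hE0 : 0 < Ex t0 (AA J) g0 u := G.xs_pos.trans_le hlo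
    have a1 : (G.t ^ 8)⁻¹ * G.d J * (u - t0) ≤ 1 / 10 := by
      have a2 := G.pow_lt (a := 1) (b := 8) (by norm_num)
      calc (G.t ^ 8)⁻¹ * G.d J * (u - t0) ≤ (G.t ^ 8)⁻¹ * G.d J * G.Δ J := by
            gcongr; linarith only [h2]
        _ = (G.t ^ 8)⁻¹ * (2 * G.t) := by rw [mul_assoc, G.d_mul_Δ]
        _ ≤ 1 / 10 := by rw [inv_mul_le_iff₀ (by positivity)]; linarith only [hT, a2]
    have a2 : Ex t0 1 ((G.t ^ 8)⁻¹ * G.d J) u ≤ 4 / 3 := by
      rw [Ex, one_mul]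
      refine (Real.exp_le_exp.mpr a1).trans ?_
      have := Real.exp_bound_div_one_sub_of_interval' (x := 1 / 10) (by norm_num) (by norm_num)
      linarith only [this]
    calc cr_Lc G R J t0 (AA J) g0 u ≤ 3 * (Ex t0 (AA J) g0 u * R.un G J) * (4 / 3) := by
          unfold cr_Lc; gcongr
      _ = _ := by ring

/-- The junk stays small as long as the crude bounds hold. -/
lemma St.cr_junk (H : IsNet G R) (S : St G R J t0 AA) {t1 : ℝ} {EE : ℝ → ℝ} (h1 : t1 ≤ t0 + G.Δ J)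
    (hX : ∀ s ∈ Icc t0 t1, R.X s = 0) (hB : ∀ u ∈ Icc t0 t1, Bnd G R J AA u (EE u)) :
    ∀ t ∈ Icc t0 t1, Jb G R J t ∧ R.Fj t ≤ G.δ0 * G.am (J + 1) ∧
      R.Hj t ≤ G.δ0 * (G.lm (J + 1) / G.N (J + 1)) ∧ R.U t ≤ G.t ^ 12 * G.Ga * G.am J :=
  junk_closure H S.t0 h1 hX S.Fj S.Hj (fun u hu => ((hB u hu).cr0 H).sum_nu H)
    (fun u hu => ((hB u hu).cr0 H).sum_H H)

/-- The crude bounds hold as long as the new level is small. -/
theorem St.cr_bnd (H : IsNet G R) {j : ℕ} (S : St G R (j + 1) t0 AA) {c : ℝ}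
    (hc : c ≤ t0 + G.Δ (j + 1)) (hX : ∀ s ∈ Icc t0 c, R.X s = 0) (hg : 0 ≤ g0)
    (hg' : g0 = G.d (j + 1) * (R.aa G j t0 - 1)) (hE : Ex t0 (AA (j + 1)) g0 c ≤ 21 / 2)
    (nw : ∀ u ∈ Icc t0 c, R.nl G (j + 2) u ≤ G.xs * Ex t0 (AA (j + 1)) g0 u * R.bh G (j + 2)) :
    ∀ u ∈ Icc t0 c, Bnd G R (j + 1) AA u (Ex t0 (AA (j + 1)) g0 u) := by
  have hx := G.xs_pos
  have hθ := G.θ_pos
  have hb := H.bh_pos (j + 1 + 1)
  have hA : 0 < AA (j + 1) := hx.trans_le S.curA.1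
  have bnd : ∀ u ∈ Icc t0 c, (∀ k i, cr_PP (j + 1) k i → cr_FF G R (j + 1) AA t0 g0 k i u ≤ 0) →
      Bnd G R (j + 1) AA u (Ex t0 (AA (j + 1)) g0 u) := fun u hu h =>
    cr_bnd_of_FF H S hu.1 (hu.2.trans hc) hg ((cr_Ex_mono hA.le hg hu.2).trans hE) (nw u hu) h
  obtain ⟨M, hM⟩ := H.high (j + 1) c (u := G.xs * AA (j + 1) * R.bh G (j + 1 + 1)) (by positivity)
  have key := cr_fam_nat (F := cr_FF G R (j + 1) AA t0 g0) (P := cr_PP (j + 1)) (a := t0) (b := c)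
    (M := M + (j + 1)) ?_ (fun k i => (cr_cont_FF H k i).mono fun u hu => S.t0.trans hu.1)
    (cr_init_FF H S) ?_
  · exact fun u hu => bnd u hu (key u hu)
  · rintro ⟨k, o⟩ i hk hi t ht
    have h1 := hM i (by omega) t ⟨S.t0.trans ht.1, ht.2⟩
    have h2 := cr_le_Ex hA.le hg ht.1
    fin_cases k
    · exact absurd (show i < j + 1 from hk) (by omega)
    · exact absurd (show i < j + 1 from hk) (by omega)
    · exact absurd (show i < j + 1 from hk) (by omega)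
    · exact absurd (show i = 0 from hk) (by omega)
    · exact absurd (show i = 0 from hk) (by omega)
    · exact sub_nonpos.mpr (h1.1.trans (by gcongr))
    · exact sub_nonpos.mpr (h1.2.trans (by gcongr))
  · rintro t ht hp ⟨k, o⟩ i hk e
    have hB : ∀ u ∈ Icc t0 t, Bnd G R (j + 1) AA u (Ex t0 (AA (j + 1)) g0 u) := fun u hu =>
      bnd u ⟨hu.1, hu.2.trans ht.2.le⟩ (hp u hu)
    have h1 : t ≤ t0 + G.Δ (j + 1) := ht.2.le.trans hc
    have hj := fun u hu =>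
      (S.cr_junk H h1 (fun s hs => hX s ⟨hs.1, hs.2.trans ht.2.le⟩) hB u hu).1
    have tt : t ∈ Icc t0 t := ⟨ht.1, le_rfl⟩
    have h := hB t tt
    suffices hD : ∃ D < 0, HD (cr_FF G R (j + 1) AA t0 g0 (k, o) i) D t by
      obtain ⟨D, D0, hD⟩ := hD
      exact ⟨D, D0, hD.right h.t0⟩
    fin_cases k
    · exact h.cr_step_b H (hj t tt) ht.1 hk o e
    · exact h.cr_step_c H (hj t tt) ht.1 hk o e
    · exact h.cr_step_y H (hj t tt) ht.1 hk e
    · exact h.cr_step_lev H (hj t tt) ht.1 hg'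
        (cr_drift_le H S.t0 h1 hB hj (Nat.lt_succ_self j) t tt) e
    · exact h.cr_step_cury H (hj t tt) hg rfl e
    · exact h.cr_step_upy H (hj t tt) hg rfl hk e
    · exact h.cr_step_upl H (hj t tt) hg rfl hk e

theorem St.run {G : Geo} {R : Raw} (H : IsNet G R) {j : ℕ} {t0 T1 : ℝ} {AA : ℕ → ℝ}
    (S : St G R (j + 1) t0 AA) (hT1 : t0 ≤ T1) (hX : ∀ s ∈ Icc t0 T1, R.X s = 0) :
    ∃ c ∈ Icc t0 T1, c ≤ t0 + G.Δ (j + 1) ∧
      (∀ t ∈ Icc t0 c, R.U t ≤ G.t ^ 12 * G.Ga * G.am (j + 1)) ∧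
      (c = T1 ∨ ∃ g0, Run G R j AA t0 c g0) := by
  have hx := G.xs_pos
  have hT := G.t_pos
  have hd := G.d_pos (j + 1)
  have hΔ := G.Δ_pos (j + 1)
  have hA : 0 < AA (j + 1) := hx.trans_le S.curA.1
  have hA' := S.oldA j (Nat.lt_succ_self j)
  have ha := (H.aa_close (j := j) (t := t0) (a := AA j) (a1 := 1 / 10 ^ 20) (by norm_num)
    (fun o => (S.oldb j (Nat.lt_succ_self j) o).trans (by
      have := H.un_pos j
      have : (0 : ℝ) < (1 / 2) ^ (j + 1 - j) := by positivity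
      nlinarith))).1
  obtain ⟨g0, hg⟩ : ∃ g0, g0 = G.d (j + 1) * (R.aa G j t0 - 1) := ⟨_, rfl⟩
  have g1 : 99 / 100 * G.d (j + 1) ≤ g0 := by
    rw [hg, mul_comm]; gcongr; linarith only [hA', (abs_le.mp ha).1]
  have g2 : g0 ≤ 901 / 100 * G.d (j + 1) := by
    rw [hg, mul_comm]; gcongr; linarith only [hA', (abs_le.mp ha).2]
  have g0p : 0 < g0 := lt_of_lt_of_le (by positivity) g1
  have hA2 : AA (j + 1) ≤ 21 / 2 := by
    have h1 := G.pow_lt (a := 0) (b := 30) (by norm_num)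
    rw [pow_zero] at h1
    refine S.curA.2.trans ((mul_le_mul_of_nonneg_left G.xs_le (by norm_num)).trans ?_)
    rw [← div_eq_mul_inv, div_le_iff₀ (by positivity)]
    linarith only [h1]
  obtain ⟨te, hte⟩ : ∃ te, te = t0 + Real.log (21 / 2 / AA (j + 1)) / g0 := ⟨_, rfl⟩
  have e1 : t0 ≤ te := by
    have := Real.log_nonneg (show 1 ≤ 21 / 2 / AA (j + 1) by rw [le_div_iff₀ hA]; linarith only [hA2])
    rw [hte]; exact le_add_of_nonneg_right (by positivity)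
  have e2 : te ≤ t0 + G.Δ (j + 1) := by
    rw [hte]
    gcongr
    rw [div_le_iff₀ g0p, Real.log_le_iff_le_exp (by positivity)]
    have h1 := G.cr_t9Q
    have h2 := G.cr_L_le_exp (k := 2) (by norm_num) le_rfl
    have h3 : 0 < G.t ^ 9 * G.Q := mul_pos (pow_pos hT 9) G.Q_pos
    have h4 := G.d_mul_Δ (j + 1)
    have h5 : 1 ≤ AA (j + 1) * (G.t ^ 9 * G.Q) := by
      have := S.curA.1
      rwa [Geo.xs, inv_le_iff_one_le_mul₀ h3] at this
    calc 21 / 2 / AA (j + 1) ≤ G.L ^ 2 := by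
          rw [div_le_iff₀ hA]
          have := mul_le_mul_of_nonneg_left h1 hA.le
          linarith only [h5, this]
      _ ≤ _ := h2
      _ ≤ _ := Real.exp_le_exp.mpr (by nlinarith only [hT, hΔ, g1, h4])
  have e3 : Ex t0 (AA (j + 1)) g0 te = 21 / 2 := by
    rw [Ex, hte, add_sub_cancel_left, mul_div_cancel₀ _ g0p.ne', Real.exp_log (by positivity),
      mul_div_cancel₀ _ hA.ne']
  obtain ⟨c, hc, all, hit⟩ := first_hit (ι := Unit) (H := fun _ t =>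
      R.nl G (j + 2) t - G.xs * Ex t0 (AA (j + 1)) g0 t * R.bh G (j + 2)) (le_min e1 hT1)
    (fun _ => ((H.cr_cont_nl (j + 2)).mono fun u hu => S.t0.trans hu.1).sub
      (((cr_cont_Ex t0 (AA (j + 1)) g0).continuousOn.const_mul _).mul_const _))
    (fun _ => sub_nonpos.mpr (by rw [cr_Ex_self]; exact S.cr_nw_init H))
  have c1 : c ≤ te := hc.2.trans (min_le_left _ _)
  have c2 : c ≤ T1 := hc.2.trans (min_le_right _ _)
  have hc' : c ≤ t0 + G.Δ (j + 1) := c1.trans e2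
  have hX' : ∀ s ∈ Icc t0 c, R.X s = 0 := fun s hs => hX s ⟨hs.1, hs.2.trans c2⟩
  have hB := S.cr_bnd H hc' hX' g0p.le hg ((cr_Ex_mono hA.le g0p.le c1).trans e3.le)
    (fun u hu => sub_nonpos.mp (all u hu ()))
  have hj := S.cr_junk H hc' hX' hB
  refine ⟨c, ⟨hc.1, c2⟩, hc', fun u hu => (hj u hu).2.2.2, or_iff_not_imp_left.2 fun ne => ?_⟩
  refine ⟨g0, S, hc.1, hc', hg, g1, g2, hB, fun u hu => (hj u hu).1,
    cr_drift_le H S.t0 hc' hB (fun u hu => (hj u hu).1) (Nat.lt_succ_self j),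
    (hj c ⟨hc.1, le_rfl⟩).2.1, (hj c ⟨hc.1, le_rfl⟩).2.2.1, ?_⟩
  rcases hit with h | ⟨_, h1, h2⟩
  · have e : c = te := h.trans ((min_choice te T1).resolve_right fun e => ne (h.trans e))
    exact Or.inl (e ▸ e3)
  · exact Or.inr ⟨sub_eq_zero.mp h1, h2.mono fun _ h => sub_pos.mp h⟩

end

end Pool.Agent.Work.MP_6bf1e5_an.Hyp
end
end
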