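import Pool.Agent.Work.MP_6bf1e5_an.Hyp.ExGeo
import Pool.Agent.Work.MP_6bf1e5_an.Sym.HDefs
import Pool.Agent.Work.MP_6bf1e5_an.Sym.HClassic

-- merged part: Pool.Agent.Work.MP_6bf1e5_an.Hyp.Modes
section
/-!
The active modes, the reference vectors, the amplitudes and the real form of the equation.
An odd flow has Fourier coefficients `a k = i α k` with real vectors `α k`.
-/

open Set Complex
open scoped InnerProductSpace ComplexConjugate Classical
open Pool.Agent.Work.MP_6bf1e5_an.B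
open Pool.Agent.Work.MP_6bf1e5_an.Hyp.Dec

namespace Pool.Agent.Work.MP_6bf1e5_an.Hyp

noncomputable section

/-- Real Euclidean vectors. -/
abbrev E3 := EuclideanSpace ℝ (Fin 3)

/-- The vector with given entries. -/
def v3 (x y z : ℝ) : E3 := WithLp.toLp 2 ![x, y, z]

/-- The symmetry group: cyclic permutations and signs. -/
abbrev Gp := Fin 3 × ℤˣ

/-- The action on frequencies; `(1, 1)` acts by `(x, y, z) ↦ (z, x, y)`. -/
def gz (g : Gp) (k : Z3) : Z3 := fun i => (g.2 : ℤ) * k (i - g.1)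

/-- The action on vectors. -/
def ge (g : Gp) (v : E3) : E3 := WithLp.toLp 2 fun i => ((g.2 : ℤ) : ℝ) * v (i - g.1)

/-- The identity. -/
def g1 : Gp := (0, 1)

/-- The product of two symmetries. -/
def gm (g g' : Gp) : Gp := (g.1 + g'.1, g.2 * g'.2)

/-- The inverse action as an additive equivalence. -/
def gzE (g : Gp) : Z3 ≃+ Z3 where
  toFun k := fun i => (g.2 : ℤ) * k (i + g.1)
  invFun := gz g
  left_inv k := by ext i; simp [gz, ← mul_assoc]
  right_inv k := by ext i; simp [gz, ← mul_assoc]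
  map_add' a b := by ext i; simp [mul_add]

/-- The transported envelope: `(tr g f).coeff (gz g h) = f.coeff h`. -/
def tr (g : Gp) (f : V) : V := prm (gzE g) f

/-- The symmetry carrying a low comb to the position of the tooth `o`. -/
def go : Fin 4 → Gp := ![(1, 1), (1, -1), (2, 1), (2, -1)]

/-- The component of `e` orthogonal to `ξ`. -/
def lp (ξ e : E3) : E3 := e - (⟪ξ, e⟫_ℝ / ‖ξ‖ ^ 2) • ξ

/-- The vector parallel to `lp ξ e` with unit amplitude. -/
def ur (ξ e : E3) : E3 := (‖lp ξ e‖ ^ 2)⁻¹ • lp ξ e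

/-- The coefficient of the interaction of `u` at `ξ` and `v` at `η`, tested against `w`. -/
def cfR (w ξ u η v : E3) : ℝ := ⟪u, η⟫_ℝ * ⟪w, v⟫_ℝ + ⟪v, ξ⟫_ℝ * ⟪w, u⟫_ℝ

/-- One term of the transport operator. -/
def tm (α β : Z3 → E3) (p q : Z3) : E3 := ⟪α p, xi q⟫_ℝ • β q

/-- The real form of the transport operator. -/
def BR (α β : Z3 → E3) (k : Z3) : E3 := ∑' p, tm α β p (k - p)

/-- Families of modes: `b j` is the first comb of level `j`, `c j` the second comb of level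
`j + 1`, and `y j i` the `i`-th rung of ladder `j`. -/
inductive Fam where
  | b (j : ℕ) : Fam
  | c (j : ℕ) : Fam
  | y (j i : ℕ) : Fam

variable (G : Geo)

namespace Geo

/-- The inverse ratio. -/
def ε : ℝ := (G.La : ℝ)⁻¹

/-- The asymmetry of the strain coefficients. -/
def η : ℝ := (G.t ^ 21)⁻¹ / 4

/-- The angle between the vectors of the two combs. -/
def yy : ℝ := G.ε * (1 + G.η + 4 * G.ε) / (4 + G.ε)

/-- A component of the vectors. -/
def z : ℝ := G.yy - 1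

/-- The normalisation of the vector of the second comb. -/
def mC : ℝ := √((3 - G.η + G.yy - 4 * G.ε) / (G.η * (4 * G.ε ^ 2 + 4 + G.z ^ 2)))

/-- The vector of the first comb. -/
def eB (_ : Geo) : E3 := (√5)⁻¹ • v3 0 1 (-2)

/-- The vector of the second comb. -/
def eC : E3 := G.mC • v3 (2 * G.ε) (-2) G.z

/-- The vector of the last rung. -/
def eU : E3 := (√5)⁻¹ • v3 (-(G.ε * G.z)) G.z (2 * (1 + G.ε ^ 2))

/-- The strain coefficient. -/
def kp : ℝ := G.mC * G.η / 5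

/-- The weight of the vertical teeth. -/
def om0 : ℝ := 4 * (1 + G.ε ^ 2) * (2 + G.ε) / (G.z * (G.z - 4 * G.ε))

/-- The weights of the teeth. -/
def om : Fin 4 → ℝ := ![1, 1, G.om0, G.om0]

/-- The coefficients of the ladder. -/
def cy (i : ℕ) : ℝ := if i ≤ 1 then 1 else if i = G.La then 2 / 5 * (1 + G.ε ^ 2) else (√5)⁻¹

/-- The coefficient of the seed. -/
def cf : ℝ := G.mC * (G.z * (G.z - 4 * G.ε)) / (5 * ‖G.eU‖ ^ 2)

/-- The relative coefficients of the second comb in the seed. -/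
def cq (o : Fin 4) : ℝ :=
  ⟪G.eU, ge (go o) (v3 1 G.ε 0)⟫_ℝ * ⟪G.eC, ge (go o) G.eC⟫_ℝ /
    (‖G.eU‖ ^ 2 * ‖G.eC‖ ^ 2 * (G.om o * G.cf))

/-- The relative thickness of the layers. -/
def δ : ℝ := (G.C ^ 4)⁻¹

/-- The constant damping near the teeth with scale index `j`. -/
def Gc (j : ℕ) : ℝ := 23 * G.C * G.lm (j + 1)

/-- The ellipticity constant away from the teeth. -/
def Cb : ℝ := 736 * G.Ga * G.C

end Geo

namespace Fam

/-- The families which are used. -/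
def ok : Fam → Prop
  | y _ i => 1 ≤ i ∧ i ≤ G.La
  | _ => True

/-- The carrier. -/
def ctr : Fam → Z3
  | b j => ![G.P j, 0, 0]
  | c j => ![G.P (j + 1), G.P j, 0]
  | y j i => ![i * G.P j, G.P j, 0]

/-- The centres of the teeth, relative to the carrier. -/
def cens : Fam → Finset Z3
  | b j => Finset.univ.image (G.off j)
  | c j => Finset.univ.image (G.off (j + 1))
  | y _ _ => {0}

/-- The radii of the teeth. -/
def rad : Fam → N3
  | b j => G.rb j
  | c j => G.rc (j + 1)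
  | y j _ => G.ry j

/-- The reference vector. -/
def e : Fam → E3
  | b _ => G.eB
  | c _ => G.eC
  | y _ i => if i = G.La then G.eU else v3 0 0 1

/-- The damping. -/
def dd : Fam → ℝ
  | b j => G.d j
  | c j => G.d (j + 1)
  | y j _ => G.D j

/-- The scale index. -/
def ix : Fam → ℕ
  | b j => j
  | c j => j
  | y j _ => j

/-- The scale of the offsets. -/
def sz : Fam → ℕ
  | b j => G.n j
  | c j => G.n (j + 1)
  | y j _ => G.n (j + 1)

/-- The offsets of the modes of a family. -/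
def S (F : Fam) : Finset Z3 := (F.cens G).biUnion fun x => (bx (F.rad G)).image (x + ·)

end Fam

/-- A smooth bump which is `1` on `[-1+δ, 1-δ]` and vanishes outside `(-1, 1)`. -/
def bmp (δ x : ℝ) : ℝ :=
  Real.smoothTransition ((1 - x) / δ) * Real.smoothTransition ((1 + x) / δ)

/-- The cutoff of one tooth. -/
def chi1 (n : N3) (x : R3) : ℝ := ∏ i, bmp G.δ (x i / (n i + 1))

/-- The cutoff of a family, as a function of the offset from the carrier. -/
def chi (F : Fam) (x : R3) : ℝ := ∑ c ∈ F.cens G, chi1 G (F.rad G) fun i => x i - c i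

/-- The wide cutoff of one tooth: `1` on the closed box, `0` outside the doubled box. -/
def wid1 (n : N3) (x : R3) : ℝ := ∏ i, bmp (1 / 2) (x i / (2 * (n i + 1)))

/-- The wide cutoff of a family. -/
def wid (F : Fam) (x : R3) : ℝ := ∑ c ∈ F.cens G, wid1 (F.rad G) fun i => x i - c i

/-- The mode of the family `F` with offset `h`, moved by `g`. -/
def pt (F : Fam) (g : Gp) (h : Z3) : Z3 := gz g (F.ctr G + h)

/-- The modes of the family `F` moved by `g`. -/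
def Pt (F : Fam) (g : Gp) : Set Z3 := {k | ∃ h ∈ F.S G, k = pt G F g h}

/-- The vector with unit amplitude at the mode `pt F g h`. -/
def uv (F : Fam) (g : Gp) (h : Z3) : E3 := ge g (ur (xi (F.ctr G + h)) (F.e G))

/-- The coefficient of the interaction of two modes tested at the mode `F.ctr + h`. -/
def CF (F : Fam) (h : Z3) (F1 : Fam) (g : Gp) (h1 : Z3) (F2 : Fam) (g' : Gp) (h2 : Z3) : ℝ :=
  cfR (lp (xi (F.ctr G + h)) (F.e G)) (xi (pt G F1 g h1)) (uv G F1 g h1)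
    (xi (pt G F2 g' h2)) (uv G F2 g' h2)

/-- The active modes. -/
def Act (k : Z3) : Prop := ∃ x : Fam × Gp × Z3, x.1.ok G ∧ x.2.2 ∈ x.1.S G ∧ k = pt G x.1 x.2.1 x.2.2

/-- The reference vector at a mode. -/
def vec (k : Z3) : E3 := if H : Act G k then ge H.choose.2.1 (H.choose.1.e G) else 0

/-- The amount of damping removed at a mode. -/
def dm (k : Z3) : ℝ := if H : Act G k then
  chi G H.choose.1 (fun i => H.choose.2.2 i) * (G.Gc H.choose.1.ix - H.choose.1.dd G) else 0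

/-- The modes near a tooth. -/
def Near (k : Z3) : Prop := ∃ x : Fam × Gp × Z3,
  x.1.ok G ∧ wid G x.1 (fun i => x.2.2 i) ≠ 0 ∧ k = pt G x.1 x.2.1 x.2.2

/-- The scalar damping. -/
def sc (k : Z3) : ℝ := G.Cb * (ax k ^ 2) ^ G.α + if H : Near G k then
  wid G H.choose.1 (fun i => H.choose.2.2 i) * (G.Gc H.choose.1.ix - G.Cb * (ax k ^ 2) ^ G.α)
  else 0

/-- The projection onto the active direction. -/
def Pj (k : Z3) (x : E3) : E3 := ⟪lp (xi k) (vec G k), x⟫_ℝ • ur (xi k) (vec G k)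

/-- The dissipation on divergence-free vectors. -/
def AR (k : Z3) (x : E3) : E3 := sc G k • x - dm G k • Pj G k x

/-- The active part. -/
def act (α : Z3 → E3) (k : Z3) : E3 := Pj G k (α k)

/-- The junk. -/
def jnk (α : Z3 → E3) (k : Z3) : E3 := α k - act G α k

/-- All the modes of a family. -/
def Orb (F : Fam) : Set Z3 := {k | ∃ g, k ∈ Pt G F g}

/-- The teeth of level `j`. -/
def Lev : ℕ → Set Z3
  | 0 => Orb G (.b 0)
  | j + 1 => Orb G (.b (j + 1)) ∪ Orb G (.c j)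

/-- The rungs of ladder `j`. -/
def LadS (j : ℕ) : Set Z3 := {k | ∃ i, 1 ≤ i ∧ i ≤ G.La ∧ k ∈ Orb G (.y j i)}

/-- The low ladders. -/
def LowYS (j : ℕ) : Set Z3 := {k | ∃ i < j + 1 - G.kk, k ∈ LadS G i}

/-- The low modes. -/
def LowS (j : ℕ) : Set Z3 := {k | ∃ i < j + 1 - G.kk, k ∈ Lev G i ∪ LadS G i}

/-- The levels and ladders of index at least `i`. -/
def Tail (i : ℕ) : Set Z3 := {k | ∃ j, i ≤ j ∧ k ∈ Lev G j ∪ LadS G j}

/-- The envelope of a family. -/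
def env (F : Fam) (α : Z3 → E3) : V :=
  mk (F.S G) fun h => ((⟪F.e G, α (F.ctr G + h)⟫_ℝ : ℝ) : ℂ)

/-- The envelope of the tooth with centre `x`, divided by the weight `ω`. -/
def tooth (F : Fam) (x : Z3) (ω : ℝ) (α : Z3 → E3) : V :=
  mk (bx (F.rad G)) fun h => ((ω⁻¹ * ⟪F.e G, α (F.ctr G + (x + h))⟫_ℝ : ℝ) : ℂ)

/-- The layer of the teeth of a family. -/
def lay (F : Fam) (h : Z3) : ℝ :=
  if h ∈ bx (F.rad G) then (1 - chi1 G (F.rad G) fun i => h i) * (G.Gc F.ix - F.dd G) else 0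

/-- The size of `β` on the set `W`. -/
def nb (β : Z3 → E3) (W : Set Z3) (k : Z3) : ℝ := W.indicator (fun k => ‖β k‖) k

/-- The right-hand side of the real system. -/
def rhs (β : Z3 → E3) (k : Z3) : E3 := lp (xi k) (BR β β k) - AR G k (β k)

/-- The force. -/
def frc (α : ℝ → Z3 → E3) (t : ℝ) (k : Z3) : E3 :=
  derivWithin (fun s => α s k) (Ici 0) t - rhs G (α t) k

/-- The transport term and the force. -/
def BF (α : ℝ → Z3 → E3) (t : ℝ) (k : Z3) : E3 := BR (α t) (α t) k + frc G α t k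

/-- The envelope system attached to a solution. -/
def rawOf (α : ℝ → Z3 → E3) : Raw where
  kp := G.kp
  om0 := G.om0
  cy := G.cy
  cf := G.cf
  cq := G.cq
  b j o t := tooth G (.b j) (G.off j o) (G.om o) (α t)
  c j o t := if j = 0 then 0 else tooth G (.c (j - 1)) (G.off j o) (G.om o) (α t)
  y j i t := if i = 0 then tau (env G (.b j) (α t)) else
    if i ≤ G.La then env G (.y j i) (α t) else 0
  vb j := lay G (.b j)
  vc j := if j = 0 then 0 else lay G (.c (j - 1))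
  vy j i := lay G (.y j i)
  U t := ∑' k, ‖α t k‖
  H t := √(∑' k, (ax k * ‖α t k‖) ^ 2)
  Fj t := ∑' k, ‖jnk G (α t) k‖
  Hj t := √(∑' k, (ax k * ‖jnk G (α t) k‖) ^ 2)
  ET i t := ∑' k, nb (act G (α t)) (Tail G i) k ^ 2
  X t := ∑' k, ‖frc G α t k‖

/-- Admissible states. -/
structure Adm (β : Z3 → E3) : Prop where
  rapid : Rapid β
  sym : ∀ g k, β (gz g k) = ge g (β k)
  div : ∀ k, ⟪xi k, β k⟫_ℝ = 0

/-- Global symmetric solutions of the real system with a force. -/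
structure RSol (α : ℝ → Z3 → E3) : Prop where
  bd : ∀ (s : ℕ) (T : ℝ), ∃ M, ∀ t ∈ Icc 0 T, Bd s (α t) M
  adm : ∀ t, 0 ≤ t → Adm (α t)
  deriv : ∀ k t, 0 ≤ t → HD (fun t => α t k) (rhs G (α t) k + frc G α t k) t
  sm : ∀ t, 0 ≤ t → Summable fun k => ‖frc G α t k‖
  fdiv : ∀ t, 0 ≤ t → ∀ k, ⟪xi k, frc G α t k⟫_ℝ = 0

/-- The part of the transport operator over the pairs which satisfy `P`. -/
def RP (β : Z3 → E3) (P : Z3 → Z3 → Prop) (r : Z3) : E3 :=
  ∑' p, if P p (r - p) then tm β β p (r - p) else 0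

/-- The symmetrised interaction of `W1` and `W2`. -/
def SB (β : Z3 → E3) (W1 W2 : Set Z3) (r : Z3) : E3 :=
  ∑' p, if p ∈ W1 ∧ r - p ∈ W2 then tm β β p (r - p) + tm β β (r - p) p else 0

/-- The pair lies in `W1 × W2` in some order. -/
def UPair (W1 W2 : Set Z3) (p q : Z3) : Prop := (p ∈ W1 ∧ q ∈ W2) ∨ (p ∈ W2 ∧ q ∈ W1)

/-- The field `X` tested against `e` on the box with centre `r0`. -/
def Tst (e : E3) (r0 : Z3) (n : N3) (X : Z3 → E3) : V :=
  mk (bx n) fun h => ((⟪lp (xi (r0 + h)) e, X (r0 + h)⟫_ℝ : ℝ) : ℂ)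

/-- The complex vector with real entries `x`. -/
def rc (x : E3) : C3 := WithLp.toLp 2 fun i => (x i : ℂ)

/-- The imaginary part. -/
def im3 (v : C3) : E3 := WithLp.toLp 2 fun i => (v i).im

/-- A smooth function which is `s ^ a` for `s ≥ 1` and `s` near the origin. -/
def psi (a s : ℝ) : ℝ :=
  Real.smoothTransition (2 * s - 1) * s ^ a + (1 - Real.smoothTransition (2 * s - 1)) * s

/-- The isotropic symbol of order `2 a`. -/
def hq (a c : ℝ) (ξ : R3) : M3 := fun i j => if i = j then c * psi a (∑ l, ξ l ^ 2) else 0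

end

end Pool.Agent.Work.MP_6bf1e5_an.Hyp
end

-- merged part: Pool.Agent.Work.MP_6bf1e5_an.Hyp.Arith
section
/-!
Sizes of the parameters; elementary facts about the symmetry group.
-/

open Set Complex
open scoped InnerProductSpace ComplexConjugate Classical
open Pool.Agent.Work.MP_6bf1e5_an.B
open Pool.Agent.Work.MP_6bf1e5_an.Hyp.Dec

namespace Pool.Agent.Work.MP_6bf1e5_an.Hyp.Pd

noncomputable section

variable (G : Geo)

lemma t_big : (10 : ℝ) ^ 100 ≤ G.t := G.t_big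

lemma t_pos : 0 < G.t := lt_of_lt_of_le (by positivity) (t_big G)

lemma one_le_t : 1 ≤ G.t := le_trans (by norm_num) (t_big G)

lemma T_one : 1 ≤ G.T := le_trans (by norm_num) G.big

lemma T_le_pow {a : ℕ} (h : a ≠ 0) : G.T ≤ G.T ^ a := Nat.le_self_pow h _

lemma La_cast : (G.La : ℝ) = G.L := rfl

lemma L_big : (10 : ℝ) ^ 100 ≤ G.L :=
  (t_big G).trans ((le_self_pow₀ (one_le_t G) (by norm_num)).trans G.L_lo)

lemma La_big : 10 ^ 100 ≤ G.La := by
  have h : (10 : ℝ) ^ 100 ≤ (G.La : ℝ) := L_big G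
  exact_mod_cast h

lemma kk_big : 10 ^ 100 ≤ G.kk := by
  have h : (10 : ℝ) ^ 100 ≤ (G.kk : ℝ) :=
    (t_big G).trans ((le_self_pow₀ (one_le_t G) (by norm_num)).trans (G.E_lo.trans G.E_le_kk))
  exact_mod_cast h

lemma La_one : 1 ≤ G.La := le_trans (by norm_num) (La_big G)

lemma La_pow_one (j : ℕ) : 1 ≤ G.La ^ j := Nat.one_le_pow _ _ (La_one G)

lemma n_pos (j : ℕ) : 10 ^ 100 ≤ G.n j := by
  exact (G.big.trans (T_le_pow G (by norm_num))).trans (Nat.le_mul_of_pos_right _ (La_pow_one G j))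

lemma n_succ (j : ℕ) : G.n (j + 1) = G.La * G.n j := by
  simp only [Geo.n]; ring

lemma n_mono {i j : ℕ} (h : i ≤ j) : G.n i ≤ G.n j := by
  exact Nat.mul_le_mul_left _ (Nat.pow_le_pow_right (La_one G) h)

/-- A gap of one level gives a large ratio. -/
lemma n_lt {i j : ℕ} (h : i < j) : 10 ^ 100 * G.n i ≤ G.n j := by
  refine le_trans ?_ (n_mono G (Nat.succ_le_of_lt h))
  rw [n_succ]
  exact Nat.mul_le_mul_right _ (La_big G)

lemma P_eq (j : ℕ) : G.P j = G.n (j + G.kk) := by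
  simp only [Geo.P, Geo.n]; ring

lemma P_succ (j : ℕ) : G.P (j + 1) = G.La * G.P j := by
  simp only [Geo.P, Geo.n]; ring

lemma P_cast (j : ℕ) : (G.P j : ℝ) = G.n j * G.m0 := by
  simp [Geo.P, Geo.m0, Geo.L]

lemma lam_pos (j : ℕ) : 1 ≤ G.lam j := by
  have h : (1 : ℝ) ≤ G.P j := by
    rw [P_eq]
    exact_mod_cast le_trans (by norm_num) (n_pos G _)
  have := Real.pi_gt_three
  unfold Geo.lam
  nlinarith only [h, this]

lemma lam_succ (j : ℕ) : G.lam (j + 1) = G.L * G.lam j := by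
  unfold Geo.lam
  rw [P_succ, Nat.cast_mul, La_cast]; ring

lemma lam_pow (j : ℕ) : G.lam j = (G.La : ℝ) ^ j * G.lam 0 := by
  induction j with
  | zero => simp
  | succ j ih => rw [lam_succ, ih, La_cast]; ring

lemma m0_pos : 0 < G.m0 := G.m0_pos

lemma lam_div (j : ℕ) : G.lam j / G.m0 = 2 * Real.pi * G.n j := by
  have := m0_pos G
  unfold Geo.lam
  rw [P_cast]; field_simp

lemma m0_bigL : G.L ^ 1000 ≤ G.m0 := by
  unfold Geo.m0
  refine pow_le_pow_right₀ G.one_le_L ?_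
  have := kk_big G
  omega

lemma t_le_L : G.t ≤ G.L := (le_self_pow₀ (one_le_t G) (by norm_num)).trans G.L_lo

lemma m0_big : G.t ^ 1000 ≤ G.m0 :=
  (pow_le_pow_left₀ (t_pos G).le (t_le_L G) _).trans (m0_bigL G)

lemma one_le_Ga : 1 ≤ G.Ga := (one_le_pow₀ G.one_le_L).trans G.Ga_lo

lemma C_big : G.L ^ 1000 * Real.exp (G.Ga ^ 2) ≤ G.C := by
  have h1 := one_le_t G
  have h2 : 1 ≤ G.Ga ^ 2 := one_le_pow₀ (one_le_Ga G)
  have h3 : G.t ≤ G.t ^ 3 := le_self_pow₀ h1 (by norm_num)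
  have h4 : G.t / 10 ^ 50 ≤ G.t := div_le_self (by linarith) (by norm_num)
  calc G.L ^ 1000 * Real.exp (G.Ga ^ 2) ≤ Real.exp (G.t / 10 ^ 50) * Real.exp (G.Ga ^ 2) :=
        mul_le_mul_of_nonneg_right (G.L_pow_le_exp le_rfl) (Real.exp_pos _).le
    _ = Real.exp (G.t / 10 ^ 50 + G.Ga ^ 2) := (Real.exp_add _ _).symm
    _ ≤ G.C := Real.exp_le_exp.mpr (by nlinarith only [h1, h2, h3])

lemma C_pos : 0 < G.C := Real.exp_pos _

lemma t_le_C : G.t ≤ G.C := by
  have a : G.L ≤ G.L ^ 1000 := le_self_pow₀ G.one_le_L (by norm_num)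
  have b : 1 ≤ Real.exp (G.Ga ^ 2) := Real.one_le_exp (by positivity)
  have c := C_big G
  have d := t_le_L G
  have e := G.L_pos
  nlinarith only [a, b, c, d, e]

lemma one_le_C : 1 ≤ G.C := (one_le_t G).trans (t_le_C G)

lemma δ_pos : 0 < G.δ := by
  have := C_pos G
  unfold Geo.δ; positivity

lemma δ_le : G.δ ≤ 1 / 10 := by
  have a : (10 : ℝ) ≤ G.C := le_trans (le_trans (by norm_num) (t_big G)) (t_le_C G)
  have b : G.C ≤ G.C ^ 4 := le_self_pow₀ (one_le_C G) (by norm_num)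
  unfold Geo.δ
  rw [one_div]
  exact inv_anti₀ (by norm_num) (a.trans b)

lemma lam_mono (j : ℕ) : G.lam j ≤ G.lam (j + 1) := by
  rw [lam_succ]
  have := lam_pos G j
  have := G.one_le_L
  nlinarith

lemma C_le_Cb : G.C ≤ G.Cb := by
  have := one_le_Ga G
  have := C_pos G
  unfold Geo.Cb; nlinarith

lemma dd_le_Gc (F : Fam) : F.dd G ≤ G.Gc F.ix := by
  have c := one_le_C G
  have l := G.lm_pos F.ix
  have m : G.lm F.ix ≤ G.lm (F.ix + 1) := G.lm_mono (Nat.le_succ _)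
  unfold Geo.Gc
  cases F with
  | b j => simp only [Fam.dd, Fam.ix, Geo.d] at *; nlinarith only [c, l, m]
  | c j => simp only [Fam.dd, Fam.ix, Geo.d] at *; nlinarith only [c, l, m]
  | y j i =>
    simp only [Fam.dd, Fam.ix, Geo.D] at *
    have e : Real.exp (G.Q / 2) ≤ G.C := by
      refine Real.exp_le_exp.mpr ?_
      have a := G.Q_mul_L
      have a1 := G.one_le_L
      have a2 := G.Q_pos
      have a3 := one_le_Ga G
      have a4 : 1 ≤ G.t ^ 3 := one_le_pow₀ (one_le_t G)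
      have a5 : G.Q ≤ G.Ga := by nlinarith only [a, a1, a2]
      have a6 : G.Ga ≤ G.Ga ^ 2 := le_self_pow₀ a3 (by norm_num)
      nlinarith only [a4, a5, a6]
    have := mul_le_mul e m l.le (by linarith)
    nlinarith only [c, l, m, this]

lemma dd_pos (F : Fam) : 0 < F.dd G := by
  cases F with
  | b j => exact G.d_pos j
  | c j => exact G.d_pos (j + 1)
  | y j i => exact G.D_pos j

lemma w_one (j : ℕ) (i : Fin 3) : 1 ≤ G.w j i := by
  have a := La_pow_one G j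
  have b := T_one G
  have c : 1 ≤ G.T ^ 5 := Nat.one_le_pow _ _ b
  fin_cases i <;> simp only [Geo.w] <;> exact Nat.mul_pos (by assumption) a

lemma w_le (j : ℕ) (i : Fin 3) : G.w j i ≤ G.T ^ 5 * G.La ^ j := by
  have c : G.T ≤ G.T ^ 5 := T_le_pow G (by norm_num)
  fin_cases i
  · exact le_rfl
  · exact Nat.mul_le_mul_right _ c
  · exact le_rfl

lemma rd_le (j : ℕ) (i : Fin 3) : G.rd j i ≤ G.n j := by
  have c : G.T ^ 5 ≤ G.T ^ 9 := Nat.pow_le_pow_right (T_one G) (by norm_num)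
  fin_cases i
  · exact le_rfl
  · exact Nat.mul_le_mul_right _ c
  · exact le_rfl

lemma rb_succ (j : ℕ) (i : Fin 3) : G.rb j i + 1 = G.w j i := by
  have := w_one G j i
  simp only [Geo.rb]; omega

lemma ry_succ (j : ℕ) (i : Fin 3) : 4 * (G.ry j i + 1) = G.n (j + 1) := by
  have a : 4 ∣ G.n (j + 1) := (G.four.trans (dvd_pow_self _ (by norm_num))).mul_right _
  have b := n_pos G (j + 1)
  simp only [Geo.ry]; omega

lemma w_small (j : ℕ) (i : Fin 3) : 10000 * G.w j i ≤ G.n j := by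
  have a := w_le G j i
  have b : 10000 ≤ G.T ^ 4 := le_trans (le_trans (by norm_num) G.big) (T_le_pow G (by norm_num))
  calc 10000 * G.w j i ≤ G.T ^ 4 * (G.T ^ 5 * G.La ^ j) := Nat.mul_le_mul b a
    _ = G.n j := by simp only [Geo.n]; ring

lemma rb_small (j : ℕ) (i : Fin 3) : 1000 * (G.rb j i + 1) ≤ G.n j := by
  have := w_small G j i
  rw [rb_succ]; omega

lemma rc_small (j : ℕ) (i : Fin 3) : 1000 * (G.rc j i + 1) ≤ G.n j := by
  cases j with
  | zero => exact rb_small G 0 i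
  | succ j =>
    have a := w_small G (j + 1) i
    have b := rd_le G j i
    have c := n_lt G (Nat.lt_add_one j)
    have d := rb_succ G (j + 1) i
    simp only [Geo.rc]; omega

lemma rb_le_rc (j : ℕ) (i : Fin 3) : G.rb j i ≤ G.rc j i := by
  cases j with
  | zero => exact le_rfl
  | succ j => exact Nat.le_add_right _ _

/-- The radii are exactly homogeneous. -/
lemma rb_hom (j : ℕ) (i : Fin 3) : G.rb j i + 1 = G.La ^ j * (G.rb 0 i + 1) := by
  rw [rb_succ, rb_succ]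
  fin_cases i <;> simp [Geo.w] <;> ring

lemma rc_hom (j : ℕ) (i : Fin 3) : G.rc (j + 1) i + 1 = G.La ^ j * (G.rc 1 i + 1) := by
  have a := rb_succ G (j + 1) i
  have b := rb_succ G 1 i
  have c : G.w (j + 1) i = G.La ^ j * G.w 1 i := by fin_cases i <;> simp [Geo.w] <;> ring
  have d : G.rd j i = G.La ^ j * G.rd 0 i := by
    fin_cases i <;> simp [Geo.rd, Geo.rB, rot3, Geo.n] <;> ring
  have e : G.rc 1 i + 1 = G.w 1 i + 2 * G.rd 0 i := by simp only [Geo.rc, zero_add]; omega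
  have f : G.rc (j + 1) i + 1 = G.w (j + 1) i + 2 * G.rd j i := by simp only [Geo.rc]; omega
  rw [e, f, c, d]; ring

lemma ry_hom (j : ℕ) (i : Fin 3) : G.ry j i + 1 = G.La ^ j * (G.ry 0 i + 1) := by
  have a := ry_succ G j i
  have b := ry_succ G 0 i
  have c : G.n (j + 1) = G.La ^ j * G.n (0 + 1) := by simp only [Geo.n]; ring
  rw [c, ← b] at a
  have : 4 * (G.ry j i + 1) = 4 * (G.La ^ j * (G.ry 0 i + 1)) := by rw [a]; ring
  omega

lemma N_sq (j : ℕ) : G.N j ^ 2 = G.t ^ 11 * ((G.La : ℝ) ^ j) ^ 3 := by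
  have h : ∀ i, (G.rb j i : ℝ) + 1 = G.w j i := fun i => by exact_mod_cast rb_succ G j i
  rw [Geo.N, Nn_sq, Fin.prod_univ_three, h, h, h]
  simp [Geo.w, Geo.t]; ring

lemma Nn_ry_sq (j : ℕ) : 64 * Nn (G.ry j) ^ 2 = G.t ^ 27 * G.L ^ 3 * ((G.La : ℝ) ^ j) ^ 3 := by
  have h : ∀ i, (G.ry j i : ℝ) + 1 = G.n (j + 1) / 4 := fun i => by
    have : (4 : ℝ) * (G.ry j i + 1) = G.n (j + 1) := by exact_mod_cast ry_succ G j i
    linarith
  have e : (G.n (j + 1) : ℝ) = G.t ^ 9 * G.L * (G.La : ℝ) ^ j := by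
    rw [G.n_eq, La_cast]; ring
  rw [Nn_sq, Fin.prod_univ_three, h, h, h, e]; ring

lemma N_nonneg (j : ℕ) : 0 ≤ G.N j := (Nn_pos _).le

lemma N_pos (j : ℕ) : 1 ≤ G.N j := by
  have a : (1 : ℝ) ≤ (G.La : ℝ) ^ j := by exact_mod_cast La_pow_one G j
  refine (one_le_sq_iff₀ (N_nonneg G j)).mp ?_
  rw [N_sq]
  exact one_le_mul_of_one_le_of_one_le (one_le_pow₀ (one_le_t G)) (one_le_pow₀ a)

lemma Nn_rc (j : ℕ) : Nn (G.rc j) ≤ 2 * G.N j := by
  have := G.Nn_rc j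
  have := N_nonneg G j
  linarith

lemma Nn_ry (j : ℕ) : Nn (G.ry j) ≤ G.L ^ 2 * G.N j :=
  G.Nn_le_of_le_n fun i => by have := ry_succ G j i; omega

lemma Nn_ry' (j : ℕ) : 8 * (√G.La * Nn (G.ry j)) ≤ G.L ^ 3 * G.N j := by
  have t0 := t_pos G
  have l0 := G.L_pos
  refine (pow_le_pow_iff_left₀ (by have := (Nn_pos (G.ry j)).le; positivity)
    (mul_nonneg (by positivity) (N_nonneg G j)) two_ne_zero).mp ?_
  have a := Nn_ry_sq G j
  have b : G.t ^ 16 ≤ G.L ^ 2 :=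
    ((G.pow_le (by norm_num)).trans G.L_lo).trans (le_self_pow₀ G.one_le_L (by norm_num))
  have c : 0 ≤ G.t ^ 11 * G.L ^ 4 * ((G.La : ℝ) ^ j) ^ 3 := by positivity
  have d := mul_le_mul_of_nonneg_right b c
  rw [mul_pow, mul_pow, mul_pow, Real.sq_sqrt (Nat.cast_nonneg _), N_sq]
  have e : (8 : ℝ) ^ 2 * (G.La * Nn (G.ry j) ^ 2) = G.L * (64 * Nn (G.ry j) ^ 2) := by
    rw [La_cast]; ring
  rw [e, a]
  calc _ = G.t ^ 16 * (G.t ^ 11 * G.L ^ 4 * ((G.La : ℝ) ^ j) ^ 3) := by ring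
    _ ≤ _ := d
    _ = _ := by ring

/-! The group -/

lemma gz_g1 (k : Z3) : gz g1 k = k := by
  ext i; simp [gz, g1]

lemma ge_g1 (v : E3) : ge g1 v = v := by
  ext i; simp [ge, g1]

lemma gz_gz (g g' : Gp) (k : Z3) : gz g (gz g' k) = gz (gm g g') k := by
  ext i; simp [gz, gm, sub_sub, mul_assoc]

lemma ge_ge (g g' : Gp) (v : E3) : ge g (ge g' v) = ge (gm g g') v := by
  ext i; simp [ge, gm, sub_sub, mul_assoc]

lemma exists_inv (g : Gp) : ∃ g', gm g g' = g1 ∧ gm g' g = g1 := by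
  revert g; decide

lemma gz_add (g : Gp) (k l : Z3) : gz g (k + l) = gz g k + gz g l := by
  ext i; simp [gz, mul_add]

lemma gz_sub (g : Gp) (k l : Z3) : gz g (k - l) = gz g k - gz g l := by
  ext i; simp [gz, mul_sub]

lemma gz_injective (g : Gp) : Function.Injective (gz g) := by
  exact (gzE g).symm.injective

lemma gz_neg_one (k : Z3) : gz (0, -1) k = -k := by
  ext i; simp [gz]

lemma ge_neg_one (v : E3) : ge (0, -1) v = -v := by
  ext i; simp [ge]

lemma ge_add (g : Gp) (u v : E3) : ge g (u + v) = ge g u + ge g v := by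
  ext i; simp [ge, mul_add]

lemma ge_sub (g : Gp) (u v : E3) : ge g (u - v) = ge g u - ge g v := by
  ext i; simp [ge, mul_sub]

lemma ge_smul (g : Gp) (c : ℝ) (v : E3) : ge g (c • v) = c • ge g v := by
  ext i; simp [ge, mul_left_comm]

lemma ge_zero (g : Gp) : ge g 0 = 0 := by
  ext i; simp [ge]

lemma inner_E3 (u v : E3) : ⟪u, v⟫_ℝ = ∑ i, u i * v i := by
  simp [PiLp.inner_apply, mul_comm]

lemma unit_sq (s : ℤˣ) : ((s : ℤ) : ℝ) * ((s : ℤ) : ℝ) = 1 := by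
  rcases Int.units_eq_one_or s with rfl | rfl <;> simp

lemma inner_ge (g : Gp) (u v : E3) : ⟪ge g u, ge g v⟫_ℝ = ⟪u, v⟫_ℝ := by
  rw [inner_E3, inner_E3, ← Equiv.sum_comp (Equiv.subRight g.1) fun i => u i * v i]
  refine Finset.sum_congr rfl fun i _ => ?_
  simp only [ge, Equiv.subRight_apply]
  linear_combination (u (i - g.1) * v (i - g.1)) * unit_sq g.2

lemma norm_ge (g : Gp) (v : E3) : ‖ge g v‖ = ‖v‖ := by
  rw [← sq_eq_sq₀ (norm_nonneg _) (norm_nonneg _), ← real_inner_self_eq_norm_sq,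
    ← real_inner_self_eq_norm_sq, inner_ge]

lemma xi_gz (g : Gp) (k : Z3) : xi (gz g k) = ge g (xi k) := by
  ext i; simp [xi, gz, ge]; ring

lemma ax_gz (g : Gp) (k : Z3) : ax (gz g k) = ax k := by
  rw [ax_eq_norm, ax_eq_norm, xi_gz, norm_ge]

lemma lp_ge (g : Gp) (ξ e : E3) : lp (ge g ξ) (ge g e) = ge g (lp ξ e) := by
  rw [lp, lp, inner_ge, norm_ge, ge_sub, ge_smul]

lemma ur_ge (g : Gp) (ξ e : E3) : ur (ge g ξ) (ge g e) = ge g (ur ξ e) := by
  rw [ur, ur, lp_ge, norm_ge, ge_smul]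

lemma coeff_tr (g : Gp) (f : V) (h : Z3) : (tr g f).coeff (gz g h) = f.coeff h := by
  rw [tr, coeff_prm]
  exact congrArg _ ((gzE g).right_inv h)

lemma norm_tr (g : Gp) (f : V) : ‖tr g f‖ = ‖f‖ := norm_prm _ _

lemma l1_tr (g : Gp) (f : V) : l1 (tr g f) = l1 f := l1_prm _ _

lemma tr_g1 (f : V) : tr g1 f = f := by
  ext h
  rw [← coeff_tr g1 f h, gz_g1]

lemma tr_tau (f : V) : tr (1, 1) f = tau f := by
  ext h
  rw [coeff_tau, tr, coeff_prm]
  congr 1
  ext i; fin_cases i <;> simp [gzE]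

lemma Rl_conj {f : V} (hf : Rl f) (h : Z3) : conj (f.coeff h) = f.coeff h :=
  conj_eq_iff_im.mpr (hf h)

lemma tr_dag_tau {f : V} (hf : Rl f) : tr (1, -1) f = dag (tau f) := by
  ext h
  rw [coeff_dag, coeff_tau, Rl_conj hf, tr, coeff_prm]
  congr 1
  ext i; fin_cases i <;> simp [gzE]

lemma tr_go {f : V} (hf : Rl f) (o : Fin 4) : tr (go o) f = rot o f := by
  fin_cases o
  · exact tr_tau f
  · exact tr_dag_tau hf
  · ext h
    simp only [rot, go, tr, coeff_prm, Fin.reduceFinMk, Matrix.cons_val, coeff_tau]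
    congr 1
    ext i; fin_cases i <;> simp [gzE]
  · ext h
    simp only [rot, go, tr, coeff_prm, Fin.reduceFinMk, Matrix.cons_val, coeff_tau, coeff_dag,
      Rl_conj hf]
    congr 1
    ext i; fin_cases i <;> simp [gzE]

lemma tr_sh (g : Gp) (k : Z3) : tr g (sh k) = sh (gz g k) := by
  simp only [tr, prm, sh, AddMonoidAlgebra.domCongr_single]
  rfl

lemma tr_mul (g : Gp) (f f' : V) : tr g (f * f') = tr g f * tr g f' := map_mul (prm _) f f'

lemma gz_go (j : ℕ) (o : Fin 4) : gz (go o) ![G.n j, 0, 0] = G.off j o := by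
  ext i; fin_cases o <;> fin_cases i <;> simp [gz, go, Geo.off]

/-! Projections -/

lemma inner_lp_left {ξ x : E3} (h : ⟪ξ, x⟫_ℝ = 0) (e : E3) : ⟪lp ξ e, x⟫_ℝ = ⟪e, x⟫_ℝ := by
  rw [lp, inner_sub_left, real_inner_smul_left, h, mul_zero, sub_zero]

lemma inner_lp_swap (ξ e x : E3) : ⟪e, lp ξ x⟫_ℝ = ⟪lp ξ e, x⟫_ℝ := by
  rw [lp, lp, inner_sub_left, inner_sub_right, real_inner_smul_left, real_inner_smul_right,
    real_inner_comm ξ e]
  ring

lemma inner_xi_lp (ξ e : E3) : ⟪ξ, lp ξ e⟫_ℝ = 0 := by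
  rw [lp, inner_sub_right, real_inner_smul_right, real_inner_self_eq_norm_sq]
  by_cases h : ξ = 0
  · simp [h]
  · have := norm_ne_zero_iff.mpr h
    field_simp; ring

lemma inner_xi_ur (ξ e : E3) : ⟪ξ, ur ξ e⟫_ℝ = 0 := by
  rw [ur, real_inner_smul_right, inner_xi_lp, mul_zero]

lemma inner_e_lp (ξ e : E3) : ⟪e, lp ξ e⟫_ℝ = ‖lp ξ e‖ ^ 2 := by
  rw [← inner_lp_left (inner_xi_lp ξ e), real_inner_self_eq_norm_sq]

lemma norm_lp_le (ξ e : E3) : ‖lp ξ e‖ ≤ ‖e‖ := by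
  have a := real_inner_le_norm e (lp ξ e)
  rw [inner_e_lp] at a
  rcases (norm_nonneg (lp ξ e)).eq_or_lt with h | h
  · rw [← h]; exact norm_nonneg _
  · nlinarith only [a, h]

lemma lp_of_orth {ξ x : E3} (h : ⟪ξ, x⟫_ℝ = 0) : lp ξ x = x := by
  rw [lp, h, zero_div, zero_smul, sub_zero]

lemma lp_add (ξ u v : E3) : lp ξ (u + v) = lp ξ u + lp ξ v := by
  rw [lp, lp, lp, inner_add_right, add_div, add_smul]; abel

lemma lp_sub (ξ u v : E3) : lp ξ (u - v) = lp ξ u - lp ξ v := by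
  rw [lp, lp, lp, inner_sub_right, sub_div, sub_smul]; abel

lemma Pj_add (k : Z3) (x y : E3) : Pj G k (x + y) = Pj G k x + Pj G k y := by
  rw [Pj, Pj, Pj, inner_add_right, add_smul]

lemma Pj_sub (k : Z3) (x y : E3) : Pj G k (x - y) = Pj G k x - Pj G k y := by
  rw [Pj, Pj, Pj, inner_sub_right, sub_smul]

lemma Pj_smul (k : Z3) (c : ℝ) (x : E3) : Pj G k (c • x) = c • Pj G k x := by
  rw [Pj, Pj, real_inner_smul_right, mul_smul]

lemma Pj_eq (k : Z3) (x : E3) : Pj G k x = x - lp (lp (xi k) (vec G k)) x := by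
  rw [Pj, ur]
  generalize lp (xi k) (vec G k) = l
  rw [lp, smul_smul, sub_sub_cancel, div_eq_mul_inv]

lemma Pj_Pj (k : Z3) (x : E3) : Pj G k (Pj G k x) = Pj G k x := by
  rw [Pj_eq G k x, Pj_sub, Pj, Pj, inner_xi_lp, zero_smul, sub_zero, ← Pj, Pj_eq]

lemma norm_sub_lp_le (l x : E3) : ‖x - lp l x‖ ≤ ‖x‖ := by
  have a : ⟪x - lp l x, lp l x⟫_ℝ = 0 := by
    rw [inner_sub_left, inner_e_lp, real_inner_self_eq_norm_sq, sub_self]
  have b := norm_add_sq_real (x - lp l x) (lp l x)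
  rw [sub_add_cancel, a] at b
  refine (pow_le_pow_iff_left₀ (norm_nonneg _) (norm_nonneg _) two_ne_zero).mp ?_
  linarith [sq_nonneg ‖lp l x‖]

lemma norm_Pj_le (k : Z3) (x : E3) : ‖Pj G k x‖ ≤ ‖x‖ := by
  rw [Pj_eq]; exact norm_sub_lp_le _ _

lemma norm_sub_Pj_le (k : Z3) (x : E3) : ‖x - Pj G k x‖ ≤ ‖x‖ := by
  rw [Pj_eq, sub_sub_cancel]; exact norm_lp_le _ _

lemma inner_xi_Pj (k : Z3) (x : E3) : ⟪xi k, Pj G k x⟫_ℝ = 0 := by
  rw [Pj, real_inner_smul_right, inner_xi_ur, mul_zero]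

lemma Pj_not {k : Z3} (h : ¬Act G k) (x : E3) : Pj G k x = 0 := by
  simp [Pj, vec, h, lp]

end

end Pool.Agent.Work.MP_6bf1e5_an.Hyp.Pd
end

-- merged part: Pool.Agent.Work.MP_6bf1e5_an.Hyp.YoungA
section
/-!
Convolution estimates.
-/

open Set Complex
open scoped InnerProductSpace ComplexConjugate Classical
open Pool.Agent.Work.MP_6bf1e5_an.B
open Pool.Agent.Work.MP_6bf1e5_an.Hyp.Dec

namespace Pool.Agent.Work.MP_6bf1e5_an.Hyp.Pd

noncomputable section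

/-- Finite sums of `f` are at most `X`. -/
def L1 (f : Z3 → ℝ) (X : ℝ) : Prop := ∀ F : Finset Z3, ∑ k ∈ F, f k ≤ X

/-- Finite sums of squares of `f` are at most `X ^ 2`. -/
def L2 (f : Z3 → ℝ) (X : ℝ) : Prop := 0 ≤ X ∧ ∀ F : Finset Z3, ∑ k ∈ F, f k ^ 2 ≤ X ^ 2

/-- The convolution of `f` and `g` has Euclidean norm at most `K` on all boxes with radii `n`. -/
def Cv (n : N3) (f g : Z3 → ℝ) (K : ℝ) : Prop :=
  0 ≤ K ∧ (∀ r, Summable fun p => f p * g (r - p)) ∧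
    ∀ r0 : Z3, ∑ h ∈ bx n, (∑' p, f p * g (r0 + h - p)) ^ 2 ≤ K ^ 2

variable {G : Geo} {β : Z3 → E3}

lemma nb_nonneg (β : Z3 → E3) (W : Set Z3) (k : Z3) : 0 ≤ nb β W k := by
  unfold nb
  exact Set.indicator_nonneg (fun _ _ => norm_nonneg _) k

lemma L1.nonneg {f : Z3 → ℝ} {X : ℝ} (h : L1 f X) : 0 ≤ X := by
  simpa using h ∅

lemma L1.mono {f : Z3 → ℝ} {X Y : ℝ} (h : L1 f X) (H : X ≤ Y) : L1 f Y := by
  exact fun F => (h F).trans H

lemma L2.mono {f : Z3 → ℝ} {X Y : ℝ} (h : L2 f X) (H : X ≤ Y) : L2 f Y := by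
  exact ⟨h.1.trans H, fun F => (h.2 F).trans (pow_le_pow_left₀ h.1 H 2)⟩

lemma L1.of_le {f g : Z3 → ℝ} {X : ℝ} (h : L1 g X) (H : ∀ k, f k ≤ g k) : L1 f X := by
  exact fun F => (Finset.sum_le_sum fun k _ => H k).trans (h F)

lemma L2.of_le {f g : Z3 → ℝ} {X : ℝ} (h : L2 g X) (H : ∀ k, |f k| ≤ |g k|) : L2 f X := by
  exact ⟨h.1, fun F => (Finset.sum_le_sum fun k _ => sq_le_sq.mpr (H k)).trans (h.2 F)⟩

lemma L1.add {f g : Z3 → ℝ} {X Y : ℝ} (h : L1 f X) (h' : L1 g Y) :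
    L1 (fun k => f k + g k) (X + Y) := by
  intro F
  rw [Finset.sum_add_distrib]
  exact add_le_add (h F) (h' F)

lemma youngA_cs {f g : Z3 → ℝ} {X Y : ℝ} (h : L2 f X) (h' : L2 g Y) (F : Finset Z3) :
    ∑ k ∈ F, f k * g k ≤ X * Y := by
  refine (abs_le_of_sq_le_sq' ?_ (mul_nonneg h.1 h'.1)).2
  refine (Finset.sum_mul_sq_le_sq_mul_sq F f g).trans ?_
  rw [mul_pow]
  exact mul_le_mul (h.2 F) (h'.2 F) (Finset.sum_nonneg fun _ _ => sq_nonneg _) (sq_nonneg _)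

lemma youngA_comp {g : Z3 → ℝ} {Y : ℝ} (h : L2 g Y) {e : Z3 → Z3} (he : Function.Injective e) :
    L2 (fun p => g (e p)) Y := by
  refine ⟨h.1, fun F => ?_⟩
  have := h.2 (F.image e)
  rwa [Finset.sum_image fun _ _ _ _ H => he H] at this

lemma youngA_pt {g : Z3 → ℝ} {Y : ℝ} (h : L2 g Y) (k : Z3) : g k ≤ Y := by
  have := h.2 {k}
  rw [Finset.sum_singleton] at this
  exact (abs_le_of_sq_le_sq' this h.1).2

lemma youngA_nb_union (β : Z3 → E3) (W W' : Set Z3) (k : Z3) :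
    nb β (W ∪ W') k ≤ nb β W k + nb β W' k := by
  have a := nb_nonneg β W k
  have b := nb_nonneg β W' k
  by_cases h : k ∈ W
  · have e : nb β (W ∪ W') k = nb β W k := by
      unfold nb
      rw [Set.indicator_of_mem h, Set.indicator_of_mem (Set.mem_union_left _ h)]
    linarith
  · by_cases h' : k ∈ W'
    · have e : nb β (W ∪ W') k = nb β W' k := by
        unfold nb
        rw [Set.indicator_of_mem h', Set.indicator_of_mem (Set.mem_union_right _ h')]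
      linarith
    · have e : nb β (W ∪ W') k = 0 := by
        unfold nb
        rw [Set.indicator_of_notMem (by rintro (H | H); exacts [h H, h' H])]
      linarith

lemma youngA_nb_sum {ι : Type} (s : Finset ι) {W : ι → Set Z3} {U : Set Z3}
    (hU : ∀ k ∈ U, ∃ i ∈ s, k ∈ W i) (m : ℕ) (hm : m ≠ 0) (k : Z3) :
    nb β U k ^ m ≤ ∑ i ∈ s, nb β (W i) k ^ m := by
  by_cases h : k ∈ U
  · obtain ⟨i, hi, hk⟩ := hU k h
    have e : nb β U k = nb β (W i) k := by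
      unfold nb
      rw [Set.indicator_of_mem h, Set.indicator_of_mem hk]
    rw [e]
    exact Finset.single_le_sum (f := fun i => nb β (W i) k ^ m)
      (fun i _ => pow_nonneg (nb_nonneg _ _ _) _) hi
  · have e : nb β U k = 0 := by
      unfold nb
      rw [Set.indicator_of_notMem h]
    rw [e, zero_pow hm]
    exact Finset.sum_nonneg fun i _ => pow_nonneg (nb_nonneg _ _ _) _

lemma L2.add {f g : Z3 → ℝ} {X Y : ℝ} (h : L2 f X) (h' : L2 g Y) :
    L2 (fun k => f k + g k) (X + Y) := by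
  refine ⟨add_nonneg h.1 h'.1, fun F => ?_⟩
  have e : ∑ k ∈ F, (f k + g k) ^ 2 =
      ∑ k ∈ F, f k ^ 2 + 2 * ∑ k ∈ F, f k * g k + ∑ k ∈ F, g k ^ 2 := by
    rw [Finset.mul_sum, ← Finset.sum_add_distrib, ← Finset.sum_add_distrib]
    exact Finset.sum_congr rfl fun k _ => by ring
  rw [e]
  linarith [h.2 F, h'.2 F, youngA_cs h h' F]

lemma L1.union {W W' : Set Z3} {X Y : ℝ} (h : L1 (nb β W) X) (h' : L1 (nb β W') Y) :
    L1 (nb β (W ∪ W')) (X + Y) := by
  exact (h.add h').of_le (youngA_nb_union β W W')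

lemma L2.union {W W' : Set Z3} {X Y : ℝ} (h : L2 (nb β W) X) (h' : L2 (nb β W') Y) :
    L2 (nb β (W ∪ W')) (X + Y) := by
  refine (h.add h').of_le fun k => ?_
  rw [abs_of_nonneg (nb_nonneg _ _ _),
    abs_of_nonneg (add_nonneg (nb_nonneg _ _ _) (nb_nonneg _ _ _))]
  exact youngA_nb_union β W W' k

lemma L1.biUnion {ι : Type} (s : Finset ι) {W : ι → Set Z3} {X : ι → ℝ}
    (h : ∀ i ∈ s, L1 (nb β (W i)) (X i)) {U : Set Z3} (hU : ∀ k ∈ U, ∃ i ∈ s, k ∈ W i) :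
    L1 (nb β U) (∑ i ∈ s, X i) := by
  intro F
  calc ∑ k ∈ F, nb β U k ≤ ∑ k ∈ F, ∑ i ∈ s, nb β (W i) k :=
        Finset.sum_le_sum fun k _ => by simpa using youngA_nb_sum (β := β) s hU 1 one_ne_zero k
    _ = ∑ i ∈ s, ∑ k ∈ F, nb β (W i) k := Finset.sum_comm
    _ ≤ _ := Finset.sum_le_sum fun i hi => h i hi F

lemma L2.biUnion {ι : Type} (s : Finset ι) {W : ι → Set Z3} {X : ι → ℝ}
    (h : ∀ i ∈ s, L2 (nb β (W i)) (X i)) {U : Set Z3} (hU : ∀ k ∈ U, ∃ i ∈ s, k ∈ W i) :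
    L2 (nb β U) (√(∑ i ∈ s, X i ^ 2)) := by
  refine ⟨Real.sqrt_nonneg _, fun F => ?_⟩
  rw [Real.sq_sqrt (Finset.sum_nonneg fun _ _ => sq_nonneg _)]
  calc ∑ k ∈ F, nb β U k ^ 2 ≤ ∑ k ∈ F, ∑ i ∈ s, nb β (W i) k ^ 2 :=
        Finset.sum_le_sum fun k _ => youngA_nb_sum s hU 2 two_ne_zero k
    _ = ∑ i ∈ s, ∑ k ∈ F, nb β (W i) k ^ 2 := Finset.sum_comm
    _ ≤ _ := Finset.sum_le_sum fun i hi => (h i hi).2 F

lemma L1.tsum_le {f : Z3 → ℝ} {X : ℝ} (h0 : ∀ k, 0 ≤ f k) (h : L1 f X) :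
    Summable f ∧ ∑' k, f k ≤ X := by
  exact ⟨summable_of_sum_le h0 h, Real.tsum_le_of_sum_le h0 h⟩

lemma L2.tsum_le {f : Z3 → ℝ} {X : ℝ} (h : L2 f X) :
    (Summable fun k => f k ^ 2) ∧ √(∑' k, f k ^ 2) ≤ X := by
  refine ⟨summable_of_sum_le (fun _ => sq_nonneg _) h.2, ?_⟩
  rw [Real.sqrt_le_left h.1]
  exact Real.tsum_le_of_sum_le (fun _ => sq_nonneg _) h.2

lemma L1_tsum {f : Z3 → ℝ} (h0 : ∀ k, 0 ≤ f k) (h : Summable f) : L1 f (∑' k, f k) := by
  exact fun F => h.sum_le_tsum F fun k _ => h0 k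

lemma L2_tsum {f : Z3 → ℝ} (h : Summable fun k => f k ^ 2) : L2 f (√(∑' k, f k ^ 2)) := by
  refine ⟨Real.sqrt_nonneg _, fun F => ?_⟩
  rw [Real.sq_sqrt (tsum_nonneg fun _ => sq_nonneg _)]
  exact h.sum_le_tsum F fun k _ => sq_nonneg _

lemma summable_sq_ax (H : Rapid β) : Summable fun k => (ax k * ‖β k‖) ^ 2 := by
  obtain ⟨M, hM⟩ := H 1
  refine Summable.of_nonneg_of_le (fun _ => sq_nonneg _) (fun k => ?_) (hM.summable.mul_right M)
  have h1 : ax k * ‖β k‖ ≤ w k ^ 1 * ‖β k‖ := by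
    rw [pow_one]; exact mul_le_mul_of_nonneg_right (ax_le_w k) (norm_nonneg _)
  have h0 : 0 ≤ ax k * ‖β k‖ := mul_nonneg (ax_nonneg k) (norm_nonneg _)
  rw [pow_two]
  exact mul_le_mul h1 (h1.trans (hM.pt k)) h0 (h0.trans h1)

/-- Young's inequality. -/
lemma young {f g : Z3 → ℝ} {X Y : ℝ} (f0 : ∀ k, 0 ≤ f k) (g0 : ∀ k, 0 ≤ g k) (hf : L1 f X)
    (hg : L2 g Y) : (∀ r, Summable fun p => f p * g (r - p)) ∧
      L2 (fun r => ∑' p, f p * g (r - p)) (X * Y) := by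
  have X0 := hf.nonneg
  have sf := (hf.tsum_le f0).1
  have s1 : ∀ r, Summable fun p => f p * g (r - p) := fun r =>
    Summable.of_nonneg_of_le (fun p => mul_nonneg (f0 p) (g0 _))
      (fun p => mul_le_mul_of_nonneg_left (youngA_pt hg _) (f0 p)) (sf.mul_right Y)
  have s2 : ∀ r, Summable fun p => f p * g (r - p) ^ 2 := fun r =>
    Summable.of_nonneg_of_le (fun p => mul_nonneg (f0 p) (sq_nonneg _))
      (fun p => mul_le_mul_of_nonneg_left (pow_le_pow_left₀ (g0 _) (youngA_pt hg _) 2) (f0 p))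
      (sf.mul_right (Y ^ 2))
  refine ⟨s1, mul_nonneg X0 hg.1, fun F => ?_⟩
  have pt : ∀ r, (∑' p, f p * g (r - p)) ^ 2 ≤ X * ∑' p, f p * g (r - p) ^ 2 := by
    intro r
    have S0 : 0 ≤ ∑' p, f p * g (r - p) ^ 2 :=
      tsum_nonneg fun p => mul_nonneg (f0 p) (sq_nonneg _)
    have a : L2 (fun p => √(f p)) √X := by
      refine ⟨Real.sqrt_nonneg _, fun F => ?_⟩
      rw [Real.sq_sqrt X0]
      simp only [Real.sq_sqrt (f0 _)]
      exact hf F
    have b : L2 (fun p => √(f p) * g (r - p)) √(∑' p, f p * g (r - p) ^ 2) := by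
      refine ⟨Real.sqrt_nonneg _, fun F => ?_⟩
      rw [Real.sq_sqrt S0]
      simp only [mul_pow, Real.sq_sqrt (f0 _)]
      exact (s2 r).sum_le_tsum F fun p _ => mul_nonneg (f0 p) (sq_nonneg _)
    have c : ∑' p, f p * g (r - p) ≤ √X * √(∑' p, f p * g (r - p) ^ 2) := by
      refine Real.tsum_le_of_sum_le (fun p => mul_nonneg (f0 p) (g0 _)) fun F => ?_
      refine le_trans (le_of_eq (Finset.sum_congr rfl fun p _ => ?_)) (youngA_cs a b F)
      rw [← mul_assoc, Real.mul_self_sqrt (f0 p)]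
    refine (pow_le_pow_left₀ (tsum_nonneg fun p => mul_nonneg (f0 p) (g0 _)) c 2).trans ?_
    rw [mul_pow, Real.sq_sqrt X0, Real.sq_sqrt S0]
  calc ∑ r ∈ F, (∑' p, f p * g (r - p)) ^ 2 ≤ ∑ r ∈ F, X * ∑' p, f p * g (r - p) ^ 2 :=
        Finset.sum_le_sum fun r _ => pt r
    _ = X * ∑' p, ∑ r ∈ F, f p * g (r - p) ^ 2 := by
        rw [← Finset.mul_sum, Summable.tsum_finsetSum fun r _ => s2 r]
    _ ≤ X * (X * Y ^ 2) := by
        refine mul_le_mul_of_nonneg_left ?_ X0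
        refine Real.tsum_le_of_sum_le
          (fun p => Finset.sum_nonneg fun r _ => mul_nonneg (f0 p) (sq_nonneg _)) fun P => ?_
        calc ∑ p ∈ P, ∑ r ∈ F, f p * g (r - p) ^ 2 ≤ ∑ p ∈ P, f p * Y ^ 2 := by
              refine Finset.sum_le_sum fun p _ => ?_
              rw [← Finset.mul_sum]
              exact mul_le_mul_of_nonneg_left
                ((youngA_comp hg (e := fun r => r - p) (sub_left_injective)).2 F) (f0 p)
          _ ≤ X * Y ^ 2 := by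
              rw [← Finset.sum_mul]
              exact mul_le_mul_of_nonneg_right (hf P) (sq_nonneg _)
    _ = (X * Y) ^ 2 := by ring

lemma Cv_l1 (n : N3) {f g : Z3 → ℝ} {X Y : ℝ} (f0 : ∀ k, 0 ≤ f k) (g0 : ∀ k, 0 ≤ g k)
    (hf : L1 f X) (hg : L2 g Y) : Cv n f g (X * Y) := by
  obtain ⟨s, h⟩ := young f0 g0 hf hg
  refine ⟨h.1, s, fun r0 => ?_⟩
  exact (youngA_comp h (e := fun k => r0 + k) (add_right_injective r0)).2 (bx n)

lemma Cv_l2 (n : N3) {f g : Z3 → ℝ} {X Y : ℝ} (f0 : ∀ k, 0 ≤ f k) (g0 : ∀ k, 0 ≤ g k)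
    (hf : L2 f X) (hg : L2 g Y) : Cv n f g (3 * Nn n * (X * Y)) := by
  have c : ∀ r, L1 (fun p => f p * g (r - p)) (X * Y) := fun r =>
    youngA_cs hf (youngA_comp hg (e := fun p => r - p) sub_right_injective)
  have n0 : ∀ r p, 0 ≤ f p * g (r - p) := fun r p => mul_nonneg (f0 p) (g0 _)
  have XY := mul_nonneg hf.1 hg.1
  have N0 := (Nn_pos n).le
  refine ⟨by positivity, fun r => ((c r).tsum_le (n0 r)).1, fun r0 => ?_⟩
  have k : ((bx n).card : ℝ) ≤ (3 * Nn n) ^ 2 := by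
    have := pow_le_pow_left₀ (Real.sqrt_nonneg _) (sqrt_card_bx_le n) 2
    rwa [Real.sq_sqrt (Nat.cast_nonneg _)] at this
  calc ∑ h ∈ bx n, (∑' p, f p * g (r0 + h - p)) ^ 2 ≤ ∑ h ∈ bx n, (X * Y) ^ 2 :=
        Finset.sum_le_sum fun h _ =>
          pow_le_pow_left₀ (tsum_nonneg (n0 _)) ((c _).tsum_le (n0 _)).2 2
    _ = (bx n).card * (X * Y) ^ 2 := by rw [Finset.sum_const, nsmul_eq_mul]
    _ ≤ (3 * Nn n) ^ 2 * (X * Y) ^ 2 := mul_le_mul_of_nonneg_right k (sq_nonneg _)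
    _ = _ := by ring

lemma youngA_tm (β γ : Z3 → E3) (p q : Z3) : ‖tm β γ p q‖ ≤ ‖β p‖ * (ax q * ‖γ q‖) := by
  rw [tm, norm_smul, ← mul_assoc, ax_eq_norm]
  exact mul_le_mul_of_nonneg_right (norm_inner_le_norm _ _) (norm_nonneg _)

lemma youngA_young {γ : Z3 → E3} (H : Rapid β) (H' : Rapid γ) :
    (∀ r, Summable fun p => ‖β p‖ * (ax (r - p) * ‖γ (r - p)‖)) ∧
      L2 (fun r => ∑' p, ‖β p‖ * (ax (r - p) * ‖γ (r - p)‖))
        ((∑' k, ‖β k‖) * √(∑' k, (ax k * ‖γ k‖) ^ 2)) := by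
  obtain ⟨M, hM⟩ := H 0
  exact young (g := fun k => ax k * ‖γ k‖) (fun _ => norm_nonneg _)
    (fun k => mul_nonneg (ax_nonneg k) (norm_nonneg _))
    (L1_tsum (fun _ => norm_nonneg _) hM.summable_norm) (L2_tsum (summable_sq_ax H'))

lemma norm_tm_le (dv : ∀ k, ⟪xi k, β k⟫_ℝ = 0) (γ : Z3 → E3) (p q : Z3) :
    ‖tm β γ p q‖ ≤ ax (p + q) * (‖β p‖ * ‖γ q‖) := by
  have e : ⟪β p, xi q⟫_ℝ = ⟪β p, xi (p + q)⟫_ℝ := by
    rw [xi_add, inner_add_right, real_inner_comm, real_inner_comm (xi p), dv p, zero_add,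
      real_inner_comm]
  rw [tm, norm_smul, e, ← mul_assoc, ax_eq_norm, mul_comm ‖xi _‖]
  exact mul_le_mul_of_nonneg_right (norm_inner_le_norm _ _) (norm_nonneg _)

lemma summable_tm {γ : Z3 → E3} (H : Rapid β) (H' : Rapid γ) (r : Z3) :
    Summable fun p => tm β γ p (r - p) := by
  exact Summable.of_norm_bounded ((youngA_young H H').1 r) fun p => youngA_tm β γ p _

/-- Pointwise bound of the transport operator. -/
lemma norm_BR_le (H : Adm β) (k : Z3) :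
    ‖BR β β k‖ ≤ ax k * ∑' p, ‖β p‖ * ‖β (k - p)‖ := by
  obtain ⟨M, hM⟩ := H.rapid 0
  have s : Summable fun p => ‖β p‖ * ‖β (k - p)‖ :=
    Summable.of_nonneg_of_le (fun p => mul_nonneg (norm_nonneg _) (norm_nonneg _))
      (fun p => mul_le_mul_of_nonneg_left (hM.norm_le _) (norm_nonneg _))
      (hM.summable_norm.mul_right M)
  refine tsum_of_norm_bounded (s.hasSum.mul_left (ax k)) fun p => ?_
  simpa using norm_tm_le H.div β p (k - p)

/-- The sum norm of the convolution of the sizes. -/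
lemma L1_conv (H : Rapid β) :
    L1 (fun k => ∑' p, ‖β p‖ * ‖β (k - p)‖) ((∑' k, ‖β k‖) ^ 2) := by
  obtain ⟨M, hM⟩ := H 0
  have h := conv_hasSum (fun _ => norm_nonneg _) (fun _ => norm_nonneg _) hM.summable_norm
    hM.summable_norm
  have h2 := h.prod_fiberwise fun k => (h.summable.prod_factor k).hasSum
  rw [pow_two]
  exact fun F => sum_le_hasSum F
    (fun k _ => tsum_nonneg fun p => mul_nonneg (norm_nonneg _) (norm_nonneg _)) h2

/-- The Euclidean norm of the transport operator. -/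
lemma L2_BR {γ : Z3 → E3} (H : Rapid β) (H' : Rapid γ) :
    L2 (fun k => ‖BR β γ k‖) ((∑' k, ‖β k‖) * √(∑' k, (ax k * ‖γ k‖) ^ 2)) := by
  obtain ⟨s, h⟩ := youngA_young H H'
  refine h.of_le fun k => ?_
  rw [abs_of_nonneg (norm_nonneg _)]
  exact (tsum_of_norm_bounded (s k).hasSum fun p => youngA_tm β γ p _).trans (le_abs_self _)

end

end Pool.Agent.Work.MP_6bf1e5_an.Hyp.Pd
end

-- merged part: Pool.Agent.Work.MP_6bf1e5_an.Hyp.Car
section
/-!
The carriers of the clusters and their exact triads.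
-/

open Set Complex
open scoped InnerProductSpace ComplexConjugate Classical
open Pool.Agent.Work.MP_6bf1e5_an.B
open Pool.Agent.Work.MP_6bf1e5_an.Hyp.Dec

namespace Pool.Agent.Work.MP_6bf1e5_an.Hyp.Pd

noncomputable section

/-- The carriers. -/
def car (G : Geo) (J i : ℕ) : Z3 := ![i * G.P J, G.P J, 0]

/-- The position of a family on its ladder. -/
def ci (G : Geo) : Fam → ℕ
  | .b _ => 0
  | .c _ => G.La
  | .y _ i => i

/-- The rotation from the ladder to the standard position of the family. -/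
def cg : Fam → Gp
  | .b _ => (2, 1)
  | _ => g1

/-- An unordered pair. -/
def UP {X : Type} (x y a b : X) : Prop := (x = a ∧ y = b) ∨ (x = b ∧ y = a)

variable {G : Geo}

/-- The normalised carriers. -/
def carU (i : ℕ) : Z3 := ![i, 1, 0]

lemma car_gz (g : Gp) (J i : ℕ) (l : Fin 3) :
    gz g (car G J i) l = G.P J * gz g (carU i) l := by
  simp only [gz]
  generalize l - g.1 = r
  fin_cases r <;> simp [car, carU] <;> ring

lemma car_cases (g : Gp) (i : ℕ) :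
    (g = (0, 1) ∧ gz g (carU i) 0 = i ∧ gz g (carU i) 1 = 1 ∧ gz g (carU i) 2 = 0) ∨
    (g = (0, -1) ∧ gz g (carU i) 0 = -i ∧ gz g (carU i) 1 = -1 ∧ gz g (carU i) 2 = 0) ∨
    (g = (1, 1) ∧ gz g (carU i) 0 = 0 ∧ gz g (carU i) 1 = i ∧ gz g (carU i) 2 = 1) ∨
    (g = (1, -1) ∧ gz g (carU i) 0 = 0 ∧ gz g (carU i) 1 = -i ∧ gz g (carU i) 2 = -1) ∨
    (g = (2, 1) ∧ gz g (carU i) 0 = 1 ∧ gz g (carU i) 1 = 0 ∧ gz g (carU i) 2 = i) ∨
    (g = (2, -1) ∧ gz g (carU i) 0 = -1 ∧ gz g (carU i) 1 = 0 ∧ gz g (carU i) 2 = -i) := by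
  obtain ⟨s, u⟩ := g
  have e01 : (0 : Fin 3) - 1 = 2 := by decide
  have e02 : (0 : Fin 3) - 2 = 1 := by decide
  have e12 : (1 : Fin 3) - 2 = 2 := by decide
  have e21 : (2 : Fin 3) - 1 = 1 := by decide
  have hs : s = 0 ∨ s = 1 ∨ s = 2 := by revert s; decide
  rcases Int.units_eq_one_or u with rfl | rfl <;> rcases hs with rfl | rfl | rfl
  · exact Or.inl ⟨rfl, by simp [gz, carU]⟩
  · exact Or.inr (Or.inr (Or.inl ⟨rfl, by simp [gz, carU, e21]⟩))
  · exact Or.inr (Or.inr (Or.inr (Or.inr (Or.inl ⟨rfl, by simp [gz, carU, e12]⟩))))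
  · exact Or.inr (Or.inl ⟨rfl, by simp [gz, carU]⟩)
  · exact Or.inr (Or.inr (Or.inr (Or.inl ⟨rfl, by simp [gz, carU, e21]⟩)))
  · exact Or.inr (Or.inr (Or.inr (Or.inr (Or.inr ⟨rfl, by simp [gz, carU, e12]⟩))))

lemma car_one (g : Gp) (i : ℕ) : ∃ l, |gz g (carU i) l| = 1 := by
  rcases car_cases g i with h | h | h | h | h | h
  · exact ⟨1, by simp [h.2.2.1]⟩
  · exact ⟨1, by simp [h.2.2.1]⟩
  · exact ⟨2, by simp [h.2.2.2]⟩
  · exact ⟨2, by simp [h.2.2.2]⟩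
  · exact ⟨0, by simp [h.2.1]⟩
  · exact ⟨0, by simp [h.2.1]⟩

lemma car_bd {L i : ℕ} (hL : 1 ≤ L) (hi : i ≤ L) (g : Gp) (l : Fin 3) :
    |gz g (carU i) l| ≤ L := by
  have hl : l = 0 ∨ l = 1 ∨ l = 2 := by revert l; decide
  rw [abs_le]
  rcases car_cases g i with h | h | h | h | h | h <;> obtain ⟨-, h0, h1, h2⟩ := h <;>
    rcases hl with rfl | rfl | rfl <;> omega

lemma car_P_pos (J : ℕ) : 0 < G.P J := by
  rw [P_eq]
  exact lt_of_lt_of_le (by norm_num) (n_pos G _)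

lemma car_La : 3 ≤ G.La := le_trans (by norm_num) (La_big G)

lemma car_kk : 10 ≤ G.kk := le_trans (by norm_num) (kk_big G)

lemma car_P_mono {J J' : ℕ} (h : J ≤ J') : G.P J ≤ G.P J' := by
  rw [P_eq, P_eq]
  exact n_mono G (by omega)

lemma car_P_dvd {J J' : ℕ} (h : J ≤ J') : G.P J ∣ G.P J' := by
  induction J', h using Nat.le_induction with
  | base => exact dvd_rfl
  | succ k _ ih => rw [P_succ]; exact Dvd.dvd.mul_left ih _

lemma car_dvd {J J' : ℕ} (h : J ≤ J') (g : Gp) (i : ℕ) (l : Fin 3) :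
    (G.P J : ℤ) ∣ gz g (car G J' i) l := by
  rw [car_gz]
  exact Dvd.dvd.mul_right (Int.natCast_dvd_natCast.2 (car_P_dvd h)) _

lemma car_not_dvd (g : Gp) (J i : ℕ) : ¬ ∀ l, (G.P (J + 1) : ℤ) ∣ gz g (car G J i) l := by
  intro H
  obtain ⟨l, hl⟩ := car_one g i
  have h1 := (dvd_abs _ _).2 (H l)
  rw [car_gz, abs_mul, hl, mul_one, Nat.abs_cast, Int.natCast_dvd_natCast] at h1
  have h2 := Nat.le_of_dvd (car_P_pos J) h1
  have h3 := car_La (G := G)
  have h4 := car_P_pos (G := G) J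
  rw [P_succ] at h2
  nlinarith

lemma ctr_eq (F : Fam) : F.ctr G = gz (cg F) (car G F.ix (ci G F)) := by
  have e02 : (0 : Fin 3) - 2 = 1 := by decide
  have e12 : (1 : Fin 3) - 2 = 2 := by decide
  cases F with
  | b j =>
    ext l
    fin_cases l <;> simp [Fam.ctr, cg, ci, Fam.ix, gz, car, e12]
  | c j =>
    simp only [Fam.ctr, cg, ci, Fam.ix, gz_g1, car, P_succ]
    push_cast
    rfl
  | y j i => simp only [Fam.ctr, cg, ci, Fam.ix, gz_g1, car]

lemma ci_le {F : Fam} (hF : F.ok G) : ci G F ≤ G.La := by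
  cases F with
  | b j => exact Nat.zero_le _
  | c j => exact le_rfl
  | y j i => exact hF.2

lemma sz_le (F : Fam) : F.sz G ≤ G.n (F.ix + 1) := by
  cases F with
  | b j => exact n_mono G (Nat.le_succ j)
  | c j => exact le_rfl
  | y j i => exact le_rfl

/-- Some coordinate of a carrier is at least `P J`, all are at most `P (J + 1)`. -/
lemma car_size {J i : ℕ} (hi : i ≤ G.La) (g : Gp) :
    (∃ l, (G.P J : ℤ) ≤ |gz g (car G J i) l|) ∧ ∀ l, |gz g (car G J i) l| ≤ G.P (J + 1) := by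
  constructor
  · obtain ⟨l, hl⟩ := car_one g i
    exact ⟨l, by rw [car_gz, abs_mul, hl, mul_one, Nat.abs_cast]⟩
  · intro l
    have h := car_bd (le_trans (by norm_num) (car_La (G := G))) hi g l
    rw [car_gz, abs_mul, Nat.abs_cast, P_succ]
    push_cast
    rw [mul_comm]
    exact mul_le_mul_of_nonneg_right h (Nat.cast_nonneg _)

lemma car_small_unique {i i' : ℕ} {g g' : Gp}
    (H : ∀ l, gz g (carU i) l = gz g' (carU i') l) : i = i' ∧ g = g' := by
  have H0 := H 0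
  have H1 := H 1
  have H2 := H 2
  rcases car_cases g i with h | h | h | h | h | h <;> obtain ⟨rfl, p0, p1, p2⟩ := h <;>
    rcases car_cases g' i' with h | h | h | h | h | h <;> obtain ⟨rfl, b0, b1, b2⟩ := h <;>
    first
      | omega
      | exact ⟨by omega, rfl⟩

theorem car_unique {J J' i i' : ℕ} (hi : i ≤ G.La) (hi' : i' ≤ G.La) {g g' : Gp}
    (H : gz g (car G J i) = gz g' (car G J' i')) : J = J' ∧ i = i' ∧ g = g' := by
  have _ := hi
  have _ := hi'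
  rcases lt_trichotomy J J' with h | rfl | h
  · exact absurd (fun l => H ▸ car_dvd h g' i' l) (car_not_dvd g J i)
  · refine ⟨rfl, car_small_unique fun l => ?_⟩
    have h := congrFun H l
    rw [car_gz, car_gz] at h
    exact mul_left_cancel₀ (by exact_mod_cast (car_P_pos J).ne') h
  · exact absurd (fun l => H ▸ car_dvd h g i l) (car_not_dvd g' J' i')

lemma car_far {J J' i i' : ℕ} (hi : i ≤ G.La) (hi' : i' ≤ G.La) {g g' : Gp} (h : J' + 2 ≤ J)
    (H : ∀ l, 2 * |gz g (car G J i) l - gz g' (car G J' i') l| < G.P (J - 1)) : False := by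
  obtain ⟨l, hl⟩ := (car_size (J := J) hi g).1
  have h1 := (car_size (J := J') hi' g').2 l
  have h2 : (G.P (J' + 1) : ℤ) ≤ G.P (J - 1) := by exact_mod_cast car_P_mono (by omega)
  have h3 : G.P J = G.La * G.P (J - 1) := by
    rw [← P_succ]
    congr 1
    omega
  have h4 : 3 * G.P (J - 1) ≤ G.P J := h3 ▸ Nat.mul_le_mul_right _ car_La
  have h5 : 3 * (G.P (J - 1) : ℤ) ≤ G.P J := by exact_mod_cast h4
  have h6 := H l
  have h7 := abs_sub_abs_le_abs_sub (gz g (car G J i) l) (gz g' (car G J' i') l)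
  have h8 := abs_nonneg (gz g (car G J i) l - gz g' (car G J' i') l)
  omega

lemma car_close' {J J' i i' : ℕ} (hi : i ≤ G.La) (hi' : i' ≤ G.La) {g g' : Gp}
    (H : ∀ l, |gz g (car G J i) l - gz g' (car G J' i') l| ≤ 11 * G.n (max J J' + 2)) :
    gz g (car G J i) = gz g' (car G J' i') := by
  have hk := car_kk (G := G)
  have key : ∀ l, 2 * |gz g (car G J i) l - gz g' (car G J' i') l| < G.P (max J J' - 1) := by
    intro l
    have h1 := n_lt G (i := max J J' + 2) (j := max J J' - 1 + G.kk) (by omega)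
    have h2 := n_pos G (max J J' + 2)
    rw [← P_eq] at h1
    have h3 : 22 * G.n (max J J' + 2) < G.P (max J J' - 1) := by omega
    have h4 : 22 * (G.n (max J J' + 2) : ℤ) < G.P (max J J' - 1) := by exact_mod_cast h3
    have h5 := H l
    omega
  by_cases h1 : J' + 2 ≤ J
  · rw [max_eq_left (by omega)] at key
    exact (car_far hi hi' h1 key).elim
  by_cases h2 : J + 2 ≤ J'
  · rw [max_eq_right (by omega)] at key
    exact (car_far hi' hi h2 fun l => by rw [abs_sub_comm]; exact key l).elim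
  ext l
  have h3 := dvd_sub (car_dvd (G := G) (J := max J J' - 1) (J' := J) (by omega) g i l)
    (car_dvd (G := G) (J := max J J' - 1) (J' := J') (by omega) g' i' l)
  have h4 := key l
  have h5 := abs_nonneg (gz g (car G J i) l - gz g' (car G J' i') l)
  exact sub_eq_zero.1 (Int.eq_zero_of_abs_lt_dvd h3 (by omega))

theorem car_close {J J' i i' : ℕ} (hi : i ≤ G.La) (hi' : i' ≤ G.La) {g g' : Gp}
    (H : ∀ l, |gz g (car G J i) l - gz g' (car G J' i') l| ≤ 10 * G.n (max J J' + 1)) :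
    gz g (car G J i) = gz g' (car G J' i') := by
  refine car_close' hi hi' fun l => (H l).trans ?_
  have h : (G.n (max J J' + 1) : ℤ) ≤ G.n (max J J' + 2) := by
    exact_mod_cast n_mono G (Nat.le_succ _)
  omega

lemma car_low {J i M : ℕ} (hi : i ≤ G.La) (g : Gp) (h : J + G.kk ≤ M + 1) (l : Fin 3) :
    |gz g (car G J i) l| ≤ G.n (M + 2) := by
  refine ((car_size (J := J) hi g).2 l).trans ?_
  rw [P_eq]
  exact_mod_cast n_mono G (by omega)

/-- An approximate triad is exact, or two of its carriers cancel. -/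
theorem triad {J1 J2 J3 i1 i2 i3 : ℕ} (h1 : i1 ≤ G.La) (h2 : i2 ≤ G.La) (h3 : i3 ≤ G.La)
    {a1 a2 a3 : Gp} (H : ∀ l, |gz a1 (car G J1 i1) l + gz a2 (car G J2 i2) l -
      gz a3 (car G J3 i3) l| ≤ 10 * G.n (max J1 (max J2 J3) + 1)) :
    gz a1 (car G J1 i1) + gz a2 (car G J2 i2) = gz a3 (car G J3 i3) ∨
      gz a1 (car G J1 i1) = gz a3 (car G J3 i3) ∨ gz a2 (car G J2 i2) = gz a3 (car G J3 i3) ∨
      gz a1 (car G J1 i1) = -gz a2 (car G J2 i2) := by
  have hk := car_kk (G := G)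
  obtain ⟨M, hM⟩ : ∃ M, M = max J1 (max J2 J3) := ⟨_, rfl⟩
  rw [← hM] at H
  have hn : (G.n (M + 1) : ℤ) ≤ G.n (M + 2) := by exact_mod_cast n_mono G (Nat.le_succ _)
  by_cases c1 : J1 + G.kk ≤ M + 1
  · refine Or.inr (Or.inr (Or.inl (car_close' h2 h3 fun l => ?_)))
    have e : max J2 J3 = M := by omega
    have a := abs_le.1 (car_low h1 a1 c1 l)
    have b := abs_le.1 (H l)
    rw [e, abs_le]
    omega
  by_cases c2 : J2 + G.kk ≤ M + 1
  · refine Or.inr (Or.inl (car_close' h1 h3 fun l => ?_))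
    have e : max J1 J3 = M := by omega
    have a := abs_le.1 (car_low h2 a2 c2 l)
    have b := abs_le.1 (H l)
    rw [e, abs_le]
    omega
  by_cases c3 : J3 + G.kk ≤ M + 1
  · refine Or.inr (Or.inr (Or.inr ?_))
    rw [← gz_neg_one, gz_gz]
    refine car_close' h1 h2 fun l => ?_
    have e : max J1 J2 = M := by omega
    have a := abs_le.1 (car_low h3 a3 c3 l)
    have b := abs_le.1 (H l)
    rw [← gz_gz, gz_neg_one, Pi.neg_apply, e, abs_le]
    omega
  left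
  obtain ⟨m, hm⟩ : ∃ m, m = min J1 (min J2 J3) := ⟨_, rfl⟩
  ext l
  have d := dvd_sub (dvd_add (car_dvd (G := G) (J := m) (J' := J1) (by omega) a1 i1 l)
    (car_dvd (G := G) (J := m) (J' := J2) (by omega) a2 i2 l))
    (car_dvd (G := G) (J := m) (J' := J3) (by omega) a3 i3 l)
  have e1 := n_lt G (i := M + 1) (j := m + G.kk) (by omega)
  have e2 := n_pos G (M + 1)
  rw [← P_eq] at e1
  have e3 : 10 * G.n (M + 1) < G.P m := by omega
  have e4 : 10 * (G.n (M + 1) : ℤ) < G.P m := by exact_mod_cast e3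
  exact sub_eq_zero.1 (Int.eq_zero_of_abs_lt_dvd d (lt_of_le_of_lt (H l) e4))

lemma car_g1 (i : ℕ) :
    gz g1 (carU i) 0 = i ∧ gz g1 (carU i) 1 = 1 ∧ gz g1 (carU i) 2 = 0 := by
  simp [gz_g1, carU]

/-- Three carriers of the same level. -/
lemma car_small0 {i1 i2 i : ℕ} {a1 a2 : Gp}
    (H : ∀ l, gz a1 (carU i1) l + gz a2 (carU i2) l = gz g1 (carU i) l) :
    (a1 = g1 ∧ a2 = (2, 1) ∧ i2 = 0 ∧ i = i1 + 1) ∨
    (a2 = g1 ∧ a1 = (2, 1) ∧ i1 = 0 ∧ i = i2 + 1) ∨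
    (a1 = g1 ∧ a2 = (2, -1) ∧ i2 = 0 ∧ i1 = i + 1) ∨
    (a2 = g1 ∧ a1 = (2, -1) ∧ i1 = 0 ∧ i2 = i + 1) ∨
    (a1 = (1, 1) ∧ a2 = (1, -1) ∧ i = 0 ∧ i1 = i2 + 1) ∨
    (a2 = (1, 1) ∧ a1 = (1, -1) ∧ i = 0 ∧ i2 = i1 + 1) := by
  have H0 := H 0
  have H1 := H 1
  have H2 := H 2
  obtain ⟨c0, c1, c2⟩ := car_g1 i
  rcases car_cases a1 i1 with h | h | h | h | h | h <;> obtain ⟨rfl, p0, p1, p2⟩ := h <;>
    rcases car_cases a2 i2 with h | h | h | h | h | h <;> obtain ⟨rfl, b0, b1, b2⟩ := h <;>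
    first
      | (exfalso; omega)
      | exact Or.inl ⟨rfl, rfl, by omega, by omega⟩
      | exact Or.inr (Or.inl ⟨rfl, rfl, by omega, by omega⟩)
      | exact Or.inr (Or.inr (Or.inl ⟨rfl, rfl, by omega, by omega⟩))
      | exact Or.inr (Or.inr (Or.inr (Or.inl ⟨rfl, rfl, by omega, by omega⟩)))
      | exact Or.inr (Or.inr (Or.inr (Or.inr (Or.inl ⟨rfl, rfl, by omega, by omega⟩))))
      | exact Or.inr (Or.inr (Or.inr (Or.inr (Or.inr ⟨rfl, rfl, by omega, by omega⟩))))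

lemma car_mul_cases (L i : ℕ) : (i = 0 ∧ (L : ℤ) * i = 0) ∨ (i = 1 ∧ (L : ℤ) * i = L) ∨
    (i = 2 ∧ (L : ℤ) * i = 2 * L) ∨ 3 * (L : ℤ) ≤ L * i := by
  rcases i with _ | _ | _ | i
  · simp
  · simp
  · right; right; left
    exact ⟨rfl, by push_cast; ring⟩
  · right; right; right
    push_cast
    linarith [Nat.cast_nonneg (α := ℤ) L, Nat.cast_nonneg (α := ℤ) i,
      mul_nonneg (Nat.cast_nonneg (α := ℤ) L) (Nat.cast_nonneg (α := ℤ) i)]

/-- The target is one level higher. -/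
lemma car_small1 {L i1 i2 i : ℕ} (hL : 3 ≤ L) (h1 : i1 ≤ L) (h2 : i2 ≤ L) {a1 a2 : Gp}
    (H : ∀ l, gz a1 (carU i1) l + gz a2 (carU i2) l = L * gz g1 (carU i) l) :
    (a1 = (1, 1) ∧ a2 = (1, -1) ∧ i = 0 ∧ i1 = L ∧ i2 = 0) ∨
    (a2 = (1, 1) ∧ a1 = (1, -1) ∧ i = 0 ∧ i2 = L ∧ i1 = 0) := by
  have H0 := H 0
  have H1 := H 1
  have H2 := H 2
  obtain ⟨c0, c1, c2⟩ := car_g1 i
  rw [c0] at H0
  rw [c1, mul_one] at H1
  rw [c2, mul_zero] at H2
  have hm := car_mul_cases L i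
  generalize (L : ℤ) * i = w at H0 hm
  clear c0 c1 c2 H
  rcases car_cases a1 i1 with h | h | h | h | h | h <;> obtain ⟨rfl, p0, p1, p2⟩ := h <;>
    rcases car_cases a2 i2 with h | h | h | h | h | h <;> obtain ⟨rfl, b0, b1, b2⟩ := h <;>
    first
      | (exfalso; omega)
      | exact Or.inl ⟨rfl, rfl, by omega, by omega, by omega⟩
      | exact Or.inr ⟨rfl, rfl, by omega, by omega, by omega⟩

/-- The second carrier is one level higher. -/
lemma car_small2 {L i1 i2 i : ℕ} (hL : 3 ≤ L) (h1 : i1 ≤ L) (h3 : i ≤ L) {a1 a2 : Gp}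
    (H : ∀ l, gz a1 (carU i1) l + L * gz a2 (carU i2) l = gz g1 (carU i) l) :
    (a1 = g1 ∧ a2 = (2, -1) ∧ i = 0 ∧ i1 = L ∧ i2 = 0) ∨
    (a1 = g1 ∧ a2 = (2, 1) ∧ i = L ∧ i1 = 0 ∧ i2 = 0) := by
  have H0 := H 0
  have H1 := H 1
  have H2 := H 2
  obtain ⟨c0, c1, c2⟩ := car_g1 i
  rw [c0] at H0
  rw [c1] at H1
  rw [c2] at H2
  have hm := car_mul_cases L i2
  clear c0 c1 c2 H
  rcases car_cases a2 i2 with h | h | h | h | h | h <;> obtain ⟨rfl, b0, b1, b2⟩ := h <;>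
    rw [b0] at H0 <;> rw [b1] at H1 <;> rw [b2] at H2 <;>
    simp only [mul_neg, mul_one, mul_zero] at H0 H1 H2 <;>
    generalize (L : ℤ) * i2 = w at H0 H1 H2 hm <;>
    rcases car_cases a1 i1 with h | h | h | h | h | h <;> obtain ⟨rfl, p0, p1, p2⟩ := h <;>
    first
      | (exfalso; omega)
      | exact Or.inl ⟨rfl, rfl, by omega, by omega, by omega⟩
      | exact Or.inr ⟨rfl, rfl, by omega, by omega, by omega⟩

/-- A carrier which is a sum of two terms of size at most `P (m + 1)` has level at most `m + 1`. -/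
lemma car_lev {J i m : ℕ} (hi : i ≤ G.La) {g : Gp}
    (H : ∀ l, |gz g (car G J i) l| ≤ 2 * G.P (m + 1)) : J ≤ m + 1 := by
  by_contra h
  obtain ⟨l, hl⟩ := (car_size (J := J) hi g).1
  have h1 : G.P (m + 1 + 1) ≤ G.P J := car_P_mono (by omega)
  have h2 : 3 * G.P (m + 1) ≤ G.P (m + 1 + 1) := by
    rw [P_succ G (m + 1)]
    exact Nat.mul_le_mul_right _ car_La
  have h3 := car_P_pos (G := G) (m + 1)
  have h4 := H l
  omega

lemma car_up {J1 J2 i1 i2 i : ℕ} (h1 : i1 ≤ G.La) (h2 : i2 ≤ G.La) (h3 : i ≤ G.La)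
    {a1 a2 : Gp} (hJ : J1 < J2)
    (H : ∀ l, gz a1 (car G J1 i1) l + gz a2 (car G J2 i2) l = gz g1 (car G J1 i) l) :
    J2 = J1 + 1 ∧ ((a1 = g1 ∧ a2 = (2, -1) ∧ i = 0 ∧ i1 = G.La ∧ i2 = 0) ∨
      (a1 = g1 ∧ a2 = (2, 1) ∧ i = G.La ∧ i1 = 0 ∧ i2 = 0)) := by
  have e : J2 ≤ J1 + 1 := car_lev h2 (g := a2) fun l => by
    have a := abs_le.1 ((car_size (J := J1) h1 a1).2 l)
    have b := abs_le.1 ((car_size (J := J1) h3 g1).2 l)
    have c := H l
    rw [abs_le]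
    omega
  obtain rfl : J2 = J1 + 1 := by omega
  refine ⟨rfl, car_small2 car_La h1 h3 fun l => ?_⟩
  have h := H l
  rw [car_gz, car_gz, car_gz, P_succ] at h
  push_cast at h
  refine mul_left_cancel₀ (a := (G.P J1 : ℤ)) (by exact_mod_cast (car_P_pos J1).ne') ?_
  rw [← h]
  ring

/-- The exact triads. -/
theorem exact_triad {J1 J2 J i1 i2 i : ℕ} (h1 : i1 ≤ G.La) (h2 : i2 ≤ G.La) (h3 : i ≤ G.La)
    {a1 a2 : Gp} (H : gz a1 (car G J1 i1) + gz a2 (car G J2 i2) = car G J i) :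
    (∃ m, i = m + 1 ∧ UP (J1, i1, a1) (J2, i2, a2) (J, m, g1) (J, 0, (2, 1))) ∨
      UP (J1, i1, a1) (J2, i2, a2) (J, i + 1, g1) (J, 0, (2, -1)) ∨
      (i = 0 ∧ UP (J1, i1, a1) (J2, i2, a2) (J, G.La, g1) (J + 1, 0, (2, -1))) ∨
      (i = G.La ∧ UP (J1, i1, a1) (J2, i2, a2) (J, 0, g1) (J + 1, 0, (2, 1))) ∨
      (i = 0 ∧ ∃ m, UP (J1, i1, a1) (J2, i2, a2) (J, m + 1, (1, 1)) (J, m, (1, -1))) ∨
      (i = 0 ∧ ∃ J', J = J' + 1 ∧
        UP (J1, i1, a1) (J2, i2, a2) (J', G.La, (1, 1)) (J', 0, (1, -1))) := by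
  have K : ∀ l, gz a1 (car G J1 i1) l + gz a2 (car G J2 i2) l = gz g1 (car G J i) l := by
    intro l
    rw [gz_g1]
    exact congrFun H l
  have n1 : ¬ (J1 < J2 ∧ J1 < J) := fun h => car_not_dvd (G := G) a1 J1 i1 fun l => by
    rw [eq_sub_of_add_eq (K l)]
    exact dvd_sub (car_dvd h.2 _ _ _) (car_dvd h.1 _ _ _)
  have n2 : ¬ (J2 < J1 ∧ J2 < J) := fun h => car_not_dvd (G := G) a2 J2 i2 fun l => by
    rw [eq_sub_of_add_eq' (K l)]
    exact dvd_sub (car_dvd h.2 _ _ _) (car_dvd h.1 _ _ _)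
  have n3 : ¬ (J < J1 ∧ J < J2) := fun h => car_not_dvd (G := G) g1 J i fun l => by
    rw [← K l]
    exact dvd_add (car_dvd h.1 _ _ _) (car_dvd h.2 _ _ _)
  have hc : (J1 = J ∧ J2 = J) ∨ (J2 = J1 ∧ J1 < J) ∨ (J = J1 ∧ J1 < J2) ∨ (J = J2 ∧ J2 < J1) := by
    omega
  rcases hc with ⟨rfl, rfl⟩ | ⟨rfl, hJ⟩ | ⟨rfl, hJ⟩ | ⟨rfl, hJ⟩
  · have S := car_small0 (i1 := i1) (i2 := i2) (i := i) (a1 := a1) (a2 := a2) fun l => by
      have h := K l
      rw [car_gz, car_gz, car_gz, ← mul_add] at h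
      exact mul_left_cancel₀ (by exact_mod_cast (car_P_pos _).ne') h
    rcases S with ⟨rfl, rfl, rfl, rfl⟩ | ⟨rfl, rfl, rfl, rfl⟩ | ⟨rfl, rfl, rfl, rfl⟩ |
      ⟨rfl, rfl, rfl, rfl⟩ | ⟨rfl, rfl, rfl, rfl⟩ | ⟨rfl, rfl, rfl, rfl⟩
    · exact Or.inl ⟨_, rfl, Or.inl ⟨rfl, rfl⟩⟩
    · exact Or.inl ⟨_, rfl, Or.inr ⟨rfl, rfl⟩⟩
    · exact Or.inr (Or.inl (Or.inl ⟨rfl, rfl⟩))
    · exact Or.inr (Or.inl (Or.inr ⟨rfl, rfl⟩))
    · exact Or.inr (Or.inr (Or.inr (Or.inr (Or.inl ⟨rfl, _, Or.inl ⟨rfl, rfl⟩⟩))))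
    · exact Or.inr (Or.inr (Or.inr (Or.inr (Or.inl ⟨rfl, _, Or.inr ⟨rfl, rfl⟩⟩))))
  · have e : J ≤ J2 + 1 := car_lev h3 (g := g1) fun l => by
      have a := abs_le.1 ((car_size (J := J2) h1 a1).2 l)
      have b := abs_le.1 ((car_size (J := J2) h2 a2).2 l)
      have c := K l
      rw [abs_le]
      omega
    obtain rfl : J = J2 + 1 := by omega
    have S := car_small1 (i := i) (a1 := a1) (a2 := a2) car_La h1 h2 fun l => by
      have h := K l
      rw [car_gz, car_gz, car_gz, P_succ] at h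
      push_cast at h
      refine mul_left_cancel₀ (a := (G.P J2 : ℤ)) (by exact_mod_cast (car_P_pos J2).ne') ?_
      rw [mul_add, h]
      ring
    rcases S with ⟨rfl, rfl, rfl, rfl, rfl⟩ | ⟨rfl, rfl, rfl, rfl, rfl⟩
    · exact Or.inr (Or.inr (Or.inr (Or.inr (Or.inr ⟨rfl, _, rfl, Or.inl ⟨rfl, rfl⟩⟩))))
    · exact Or.inr (Or.inr (Or.inr (Or.inr (Or.inr ⟨rfl, _, rfl, Or.inr ⟨rfl, rfl⟩⟩))))
  · obtain ⟨rfl, ⟨rfl, rfl, rfl, rfl, rfl⟩ | ⟨rfl, rfl, rfl, rfl, rfl⟩⟩ := car_up h1 h2 h3 hJ K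
    · exact Or.inr (Or.inr (Or.inl ⟨rfl, Or.inl ⟨rfl, rfl⟩⟩))
    · exact Or.inr (Or.inr (Or.inr (Or.inl ⟨rfl, Or.inl ⟨rfl, rfl⟩⟩)))
  · obtain ⟨rfl, ⟨rfl, rfl, rfl, rfl, rfl⟩ | ⟨rfl, rfl, rfl, rfl, rfl⟩⟩ :=
      car_up h2 h1 h3 hJ fun l => (add_comm _ _).trans (K l)
    · exact Or.inr (Or.inr (Or.inl ⟨rfl, Or.inr ⟨rfl, rfl⟩⟩))
    · exact Or.inr (Or.inr (Or.inr (Or.inl ⟨rfl, Or.inr ⟨rfl, rfl⟩⟩)))

end

end Pool.Agent.Work.MP_6bf1e5_an.Hyp.Pd
end

-- merged part: Pool.Agent.Work.MP_6bf1e5_an.Hyp.SepA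
section
/-!
The teeth are disjoint.
-/

open Set Complex
open scoped InnerProductSpace ComplexConjugate Classical
open Pool.Agent.Work.MP_6bf1e5_an.B
open Pool.Agent.Work.MP_6bf1e5_an.Hyp.Dec

namespace Pool.Agent.Work.MP_6bf1e5_an.Hyp.Pd

noncomputable section

variable {G : Geo}

lemma mem_S {F : Fam} {h : Z3} : h ∈ F.S G ↔ ∃ x ∈ F.cens G, h - x ∈ bx (F.rad G) := by
  simp only [Fam.S, Finset.mem_biUnion, Finset.mem_image]
  refine exists_congr fun x => and_congr_right fun _ => ⟨?_, fun H => ⟨h - x, H, by simp⟩⟩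
  rintro ⟨a, ha, rfl⟩
  simpa using ha

lemma mem_cens_b {j : ℕ} {x : Z3} : x ∈ (Fam.b j).cens G ↔ ∃ o, G.off j o = x := by
  simp [Fam.cens]

lemma mem_cens_c {j : ℕ} {x : Z3} : x ∈ (Fam.c j).cens G ↔ ∃ o, G.off (j + 1) o = x := by
  simp [Fam.cens]

lemma S_y (j i : ℕ) : (Fam.y j i).S G = bx (G.ry j) := by
  ext h
  simp [mem_S, Fam.cens, Fam.rad]

lemma sepA_off (j : ℕ) {o o' : Fin 4} (h : o ≠ o') :
    ∃ i, (G.n j : ℤ) ≤ |G.off j o i - G.off j o' i| := by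
  have h0 : (0 : ℤ) ≤ G.n j := Nat.cast_nonneg _
  have h1 : (G.n j : ℤ) ≤ |(G.n j : ℤ) + G.n j| := by rw [abs_of_nonneg (by omega)]; omega
  have h2 : (G.n j : ℤ) ≤ |-(G.n j : ℤ) - G.n j| := by rw [abs_of_nonpos (by omega)]; omega
  fin_cases o <;> fin_cases o' <;> first
    | exact absurd rfl h
    | (refine ⟨1, ?_⟩; simp [Geo.off, h1, h2]; done)
    | (refine ⟨2, ?_⟩; simp [Geo.off, h1, h2])

lemma sepA_off_le (j : ℕ) (o : Fin 4) (i : Fin 3) : |G.off j o i| ≤ G.n j := by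
  fin_cases o <;> fin_cases i <;> simp [Geo.off]

lemma sepA_off_ge (j : ℕ) (o : Fin 4) : ∃ i, (G.n j : ℤ) ≤ |G.off j o i| := by
  fin_cases o
  exacts [⟨1, by simp [Geo.off]⟩, ⟨1, by simp [Geo.off]⟩, ⟨2, by simp [Geo.off]⟩,
    ⟨2, by simp [Geo.off]⟩]

lemma sepA_cens_le {F : Fam} {x : Z3} (hx : x ∈ F.cens G) (i : Fin 3) : |x i| ≤ F.sz G := by
  cases F with
  | b j => obtain ⟨o, rfl⟩ := mem_cens_b.mp hx; exact sepA_off_le j o i
  | c j => obtain ⟨o, rfl⟩ := mem_cens_c.mp hx; exact sepA_off_le _ o i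
  | y j l => rw [Finset.mem_singleton.mp hx]; simp

lemma sepA_rad (F : Fam) (i : Fin 3) : 4 * (F.rad G i + 1) ≤ F.sz G := by
  cases F with
  | b j => have := rb_small G j i; simp only [Fam.rad, Fam.sz]; omega
  | c j => have := rc_small G (j + 1) i; simp only [Fam.rad, Fam.sz]; omega
  | y j l => exact (ry_succ G j i).le

/-- Two centres of the same family are far apart. -/
lemma sepA_cens {F : Fam} {x x' : Z3} (hx : x ∈ F.cens G) (hx' : x' ∈ F.cens G) (h : x ≠ x') :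
    ∃ i, (F.sz G : ℤ) ≤ |x i - x' i| := by
  cases F with
  | b j =>
    obtain ⟨o, rfl⟩ := mem_cens_b.mp hx
    obtain ⟨o', rfl⟩ := mem_cens_b.mp hx'
    exact sepA_off j fun e => h (by rw [e])
  | c j =>
    obtain ⟨o, rfl⟩ := mem_cens_c.mp hx
    obtain ⟨o', rfl⟩ := mem_cens_c.mp hx'
    exact sepA_off _ fun e => h (by rw [e])
  | y j l => exact absurd ((Finset.mem_singleton.mp hx).trans (Finset.mem_singleton.mp hx').symm) h

lemma sepA_abs_gz (g : Gp) (x : Z3) (i : Fin 3) : |gz g x i| = |x (i - g.1)| := by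
  rw [gz, abs_mul, Int.isUnit_iff_abs_eq.mp g.2.isUnit, one_mul]

lemma sepA_gm_cancel {g g' a : Gp} (h : gm g a = gm g' a) : g = g' :=
  Prod.ext (add_right_cancel (congrArg Prod.fst h)) (mul_right_cancel (congrArg Prod.snd h))

lemma sepA_pt (F : Fam) (g : Gp) (x : Z3) :
    pt G F g x = gz (gm g (cg F)) (car G F.ix (ci G F)) + gz g x := by
  rw [pt, gz_add, ctr_eq, gz_gz]

lemma off_injective (j : ℕ) : Function.Injective (G.off j) := by
  intro o o' h
  by_contra e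
  obtain ⟨i, hi⟩ := sepA_off (G := G) j e
  have := n_pos G j
  rw [h, sub_self, abs_zero] at hi
  omega

/-- The offsets are at most slightly larger than the comb spacing. -/
lemma S_le {F : Fam} {h : Z3} (hh : h ∈ F.S G) (i : Fin 3) : 100 * |h i| ≤ 101 * F.sz G := by
  obtain ⟨x, hx, hb⟩ := mem_S.mp hh
  have h1 := mem_bx.mp hb i
  have h2 := sepA_cens_le hx i
  have h3 : |h i| ≤ |x i| + |(h - x) i| := by simpa using abs_add_le (x i) (h i - x i)
  cases F with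
  | b j => have := rb_small G j i; simp only [Fam.rad, Fam.sz] at *; omega
  | c j => have := rc_small G (j + 1) i; simp only [Fam.rad, Fam.sz] at *; omega
  | y j l =>
    have := ry_succ G j i
    rw [Finset.mem_singleton.mp hx] at h1
    simp only [Fam.rad, Fam.sz, sub_zero] at *
    omega

/-- The first comb lies in the box of scale `rB`. -/
lemma S_b_subset (j : ℕ) : (Fam.b j).S G ⊆ bx fun i => 2 * G.rB j i := by
  intro h hh
  refine mem_bx.mpr fun i => ?_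
  have h0 := S_le hh i
  obtain ⟨x, hx, hb⟩ := mem_S.mp hh
  obtain ⟨o, rfl⟩ := mem_cens_b.mp hx
  fin_cases i
  · have h1 := mem_bx.mp hb 0
    have h2 := rb_succ G j 0
    have h3 : G.off j o 0 = 0 := by fin_cases o <;> rfl
    have h4 : G.w j 0 = G.rB j 0 := rfl
    simp only [Fam.rad, Pi.sub_apply, h3, sub_zero] at h1
    show |h 0| ≤ ((2 * G.rB j 0 : ℕ) : ℤ)
    omega
  · show |h 1| ≤ ((2 * G.n j : ℕ) : ℤ)
    have : 100 * |h 1| ≤ 101 * (G.n j : ℤ) := h0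
    omega
  · show |h 2| ≤ ((2 * G.n j : ℕ) : ℤ)
    have : 100 * |h 2| ≤ 101 * (G.n j : ℤ) := h0
    omega

/-- Teeth whose doubled open boxes meet coincide. -/
theorem sep {F F' : Fam} (hF : F.ok G) (hF' : F'.ok G) {g g' : Gp} {x x' : Z3}
    (hx : x ∈ F.cens G) (hx' : x' ∈ F'.cens G)
    (H : ∀ i, |pt G F g x i - pt G F' g' x' i| <
      2 * (F.rad G (i - g.1) + 1 : ℕ) + 2 * (F'.rad G (i - g'.1) + 1 : ℕ)) :
    F = F' ∧ g = g' ∧ x = x' := by
  simp only [sepA_pt, Pi.add_apply] at H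
  have hc := car_close (J := F.ix) (J' := F'.ix) (ci_le hF) (ci_le hF') (g := gm g (cg F))
      (g' := gm g' (cg F')) fun l => by
    have a1 := sepA_cens_le hx (l - g.1)
    have a2 := sepA_cens_le hx' (l - g'.1)
    rw [← sepA_abs_gz] at a1 a2
    have a3 := sepA_rad (G := G) F (l - g.1)
    have a4 := sepA_rad (G := G) F' (l - g'.1)
    have a5 := (sz_le (G := G) F).trans (n_mono G (Nat.succ_le_succ (le_max_left F.ix F'.ix)))
    have a6 := (sz_le (G := G) F').trans (n_mono G (Nat.succ_le_succ (le_max_right F.ix F'.ix)))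
    have a7 := abs_lt.mp (H l)
    rw [abs_le] at a1 a2 ⊢
    simp only [Nat.succ_eq_add_one] at a5 a6
    omega
  obtain ⟨e1, e2, e3⟩ := car_unique (ci_le hF) (ci_le hF') hc
  have La := La_big G
  have hcg : cg F = cg F' := by
    cases F <;> cases F' <;> simp only [ci, cg, Fam.ok] at * <;> omega
  rw [hcg] at e3
  obtain rfl := sepA_gm_cancel e3
  have H' : ∀ l, |x l - x' l| < 2 * (F.rad G l + 1 : ℕ) + 2 * (F'.rad G l + 1 : ℕ) := fun l => by
    have := H (l + g.1)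
    rwa [hc, add_sub_add_left_eq_sub, ← Pi.sub_apply, ← gz_sub, sepA_abs_gz, add_sub_cancel_right]
      at this
  have cy : ∀ {j i : ℕ} {x x' : Z3}, x ∈ (Fam.c j).cens G → x' ∈ (Fam.y j i).cens G →
      ¬∀ l, |x l - x' l| < 2 * (G.rc (j + 1) l + 1 : ℕ) + 2 * (G.ry j l + 1 : ℕ) := by
    intro j i x x' hx hx' H
    obtain ⟨o, rfl⟩ := mem_cens_c.mp hx
    obtain ⟨l, hl⟩ := sepA_off_ge (G := G) (j + 1) o
    have a1 := H l
    have a2 := rc_small G (j + 1) l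
    have a3 := ry_succ G j l
    rw [Finset.mem_singleton.mp hx', Pi.zero_apply, sub_zero] at a1
    omega
  have hFF : F = F' := by
    cases F <;> cases F' <;> simp only [ci, Fam.ix, Fam.ok] at e1 e2 hF hF' <;> subst e1
    · rfl
    · omega
    · omega
    · omega
    · rfl
    · exact absurd H' (cy hx hx')
    · omega
    · exact absurd (fun l => by rw [abs_sub_comm, add_comm]; exact H' l) (cy hx' hx)
    · rw [e2]
  subst hFF
  refine ⟨rfl, rfl, by_contra fun e => ?_⟩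
  obtain ⟨l, hl⟩ := sepA_cens hx hx' e
  have a1 := H' l
  have a2 := sepA_rad (G := G) F l
  omega

/-- Points of doubled open boxes determine the tooth. -/
lemma sepA_unique {F F' : Fam} (hF : F.ok G) (hF' : F'.ok G) {g g' : Gp} {x x' h h' : Z3}
    (hx : x ∈ F.cens G) (hx' : x' ∈ F'.cens G)
    (hh : ∀ i, |h i - x i| < 2 * (F.rad G i + 1 : ℕ))
    (hh' : ∀ i, |h' i - x' i| < 2 * (F'.rad G i + 1 : ℕ)) (H : pt G F g h = pt G F' g' h') :
    F = F' ∧ g = g' ∧ h = h' := by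
  obtain ⟨rfl, rfl, -⟩ := sep hF hF' (g := g) (g' := g') hx hx' fun i => by
    have a1 := hh (i - g.1)
    have a2 := hh' (i - g'.1)
    rw [← Pi.sub_apply, ← sepA_abs_gz, gz_sub, Pi.sub_apply, abs_lt] at a1 a2
    have a3 := congrFun H i
    simp only [sepA_pt, Pi.add_apply] at a3 ⊢
    rw [abs_lt]
    omega
  exact ⟨rfl, rfl, add_left_cancel (gz_injective _ H)⟩

theorem pt_unique {F F' : Fam} (hF : F.ok G) (hF' : F'.ok G) {g g' : Gp} {h h' : Z3}
    (hh : h ∈ F.S G) (hh' : h' ∈ F'.S G) (H : pt G F g h = pt G F' g' h') :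
    F = F' ∧ g = g' ∧ h = h' := by
  obtain ⟨x, hx, hb⟩ := mem_S.mp hh
  obtain ⟨x', hx', hb'⟩ := mem_S.mp hh'
  refine sepA_unique hF hF' hx hx' (fun i => ?_) (fun i => ?_) H
  · have : |h i - x i| ≤ F.rad G i := mem_bx.mp hb i
    omega
  · have : |h' i - x' i| ≤ F'.rad G i := mem_bx.mp hb' i
    omega

lemma Pt_disjoint {F F' : Fam} (hF : F.ok G) (hF' : F'.ok G) {g g' : Gp} {k : Z3}
    (h : k ∈ Pt G F g) (h' : k ∈ Pt G F' g') : F = F' ∧ g = g' := by
  obtain ⟨_, a, rfl⟩ := h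
  obtain ⟨_, b, e⟩ := h'
  exact ⟨(pt_unique hF hF' a b e).1, (pt_unique hF hF' a b e).2.1⟩

lemma pt_g1 (F : Fam) (h : Z3) : pt G F g1 h = F.ctr G + h := gz_g1 _

end

end Pool.Agent.Work.MP_6bf1e5_an.Hyp.Pd
end

-- merged part: Pool.Agent.Work.MP_6bf1e5_an.Hyp.SepB
section
/-!
The cutoffs and the scalar damping.
-/

open Set Complex
open scoped InnerProductSpace ComplexConjugate Classical
open Pool.Agent.Work.MP_6bf1e5_an.B
open Pool.Agent.Work.MP_6bf1e5_an.Hyp.Dec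

namespace Pool.Agent.Work.MP_6bf1e5_an.Hyp.Pd

noncomputable section

variable {G : Geo}

lemma bmp_nonneg (δ x : ℝ) : 0 ≤ bmp δ x := by
  exact mul_nonneg (Real.smoothTransition.nonneg _) (Real.smoothTransition.nonneg _)

lemma bmp_le_one (δ x : ℝ) : bmp δ x ≤ 1 := by
  exact mul_le_one₀ (Real.smoothTransition.le_one _) (Real.smoothTransition.nonneg _)
    (Real.smoothTransition.le_one _)

lemma bmp_zero {δ x : ℝ} (hδ : 0 < δ) (hx : 1 ≤ |x|) : bmp δ x = 0 := by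
  rcases le_abs.mp hx with h | h
  · rw [bmp, Real.smoothTransition.zero_of_nonpos
      (div_nonpos_of_nonpos_of_nonneg (by linarith) hδ.le), zero_mul]
  · rw [bmp, Real.smoothTransition.zero_of_nonpos (x := (1 + x) / δ)
      (div_nonpos_of_nonpos_of_nonneg (by linarith) hδ.le), mul_zero]

lemma bmp_one {δ x : ℝ} (hδ : 0 < δ) (hx : |x| ≤ 1 - δ) : bmp δ x = 1 := by
  have := abs_le.mp hx
  rw [bmp, Real.smoothTransition.one_of_one_le ((one_le_div hδ).mpr (by linarith)),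
    Real.smoothTransition.one_of_one_le ((one_le_div hδ).mpr (by linarith)), mul_one]

lemma chi1_nonneg (n : N3) (x : R3) : 0 ≤ chi1 G n x := by
  exact Finset.prod_nonneg fun _ _ => bmp_nonneg _ _

lemma chi1_le_one (n : N3) (x : R3) : chi1 G n x ≤ 1 := by
  exact Finset.prod_le_one (fun _ _ => bmp_nonneg _ _) fun _ _ => bmp_le_one _ _

lemma chi1_ne_zero {n : N3} {x : R3} (h : chi1 G n x ≠ 0) (i : Fin 3) : |x i| < n i + 1 := by
  refine lt_of_not_ge fun H => h (Finset.prod_eq_zero (Finset.mem_univ i) (bmp_zero (δ_pos G) ?_))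
  have : (0 : ℝ) < n i + 1 := by positivity
  rwa [abs_div, abs_of_pos this, one_le_div this]

lemma wid1_nonneg (n : N3) (x : R3) : 0 ≤ wid1 n x := by
  exact Finset.prod_nonneg fun _ _ => bmp_nonneg _ _

lemma wid1_le_one (n : N3) (x : R3) : wid1 n x ≤ 1 := by
  exact Finset.prod_le_one (fun _ _ => bmp_nonneg _ _) fun _ _ => bmp_le_one _ _

lemma wid1_ne_zero {n : N3} {x : R3} (h : wid1 n x ≠ 0) (i : Fin 3) : |x i| < 2 * (n i + 1) := by
  refine lt_of_not_ge fun H => h (Finset.prod_eq_zero (Finset.mem_univ i) (bmp_zero (by norm_num) ?_))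
  have : (0 : ℝ) < 2 * (n i + 1) := by positivity
  rwa [abs_div, abs_of_pos this, one_le_div this]

lemma wid1_one {n : N3} {x : R3} (h : ∀ i, |x i| ≤ n i + 1) : wid1 n x = 1 := by
  refine Finset.prod_eq_one fun i _ => bmp_one (by norm_num) ?_
  have : (0 : ℝ) < 2 * (n i + 1) := by positivity
  rw [abs_div, abs_of_pos this, div_le_iff₀ this]
  linarith [h i]

lemma wid_nonneg (F : Fam) (x : R3) : 0 ≤ wid G F x := by
  exact Finset.sum_nonneg fun _ _ => wid1_nonneg _ _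

/-- Where the wide cutoff does not vanish the offset lies in the doubled box of a tooth. -/
lemma wid_ne_zero {F : Fam} {x : R3} (h : wid G F x ≠ 0) :
    ∃ c ∈ F.cens G, ∀ i, |x i - c i| < 2 * (F.rad G i + 1) := by
  obtain ⟨c, hc, h1⟩ := Finset.exists_ne_zero_of_sum_ne_zero h
  exact ⟨c, hc, wid1_ne_zero h1⟩

/-- In the doubled box of a tooth only its own cutoffs are active. -/
lemma wid_tooth {F : Fam} (hF : F.ok G) {c : Z3} (hc : c ∈ F.cens G) {x : R3}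
    (h : ∀ i, |x i - c i| < 2 * (F.rad G i + 1)) :
    wid G F x = (wid1 (F.rad G) fun i => x i - c i) ∧
      chi G F x = chi1 G (F.rad G) fun i => x i - c i := by
  have key : ∀ c' ∈ F.cens G, c' ≠ c → ¬∀ i, |x i - c' i| < 2 * (F.rad G i + 1) :=
    fun c' hc' hne H => by
      obtain ⟨i, hi⟩ := sepA_cens hc' hc hne
      have a1 : (F.sz G : ℝ) ≤ |(c' i : ℝ) - c i| := by exact_mod_cast hi
      have a2 : 4 * ((F.rad G i : ℝ) + 1) ≤ F.sz G := by exact_mod_cast sepA_rad F i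
      have a3 := abs_sub_le (c' i : ℝ) (x i) (c i)
      rw [abs_sub_comm _ (x i)] at a3
      linarith [H i, h i]
  refine ⟨Finset.sum_eq_single_of_mem c hc fun c' hc' hne => by_contra fun e =>
    key c' hc' hne (wid1_ne_zero e), Finset.sum_eq_single_of_mem c hc fun c' hc' hne =>
    by_contra fun e => key c' hc' hne fun i => (chi1_ne_zero e i).trans ?_⟩
  linarith [(Nat.cast_nonneg (F.rad G i) : (0 : ℝ) ≤ F.rad G i)]

/-- On a tooth only its own cutoff is active. -/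
lemma chi_tooth {F : Fam} (hF : F.ok G) {x h : Z3} (hx : x ∈ F.cens G) (hh : h ∈ bx (F.rad G)) :
    chi G F (fun i => (x + h) i) = chi1 G (F.rad G) fun i => h i := by
  have e : ∀ i, (((x + h) i : ℤ) : ℝ) - x i = h i := fun i => by simp
  rw [(wid_tooth hF hx fun i => ?_).2]
  · simp only [e]
  · have : |(h i : ℝ)| ≤ F.rad G i := by exact_mod_cast mem_bx.mp hh i
    rw [e]
    linarith [abs_nonneg (h i : ℝ)]

lemma wid_S {F : Fam} (hF : F.ok G) {h : Z3} (hh : h ∈ F.S G) : wid G F (fun i => h i) = 1 := by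
  obtain ⟨x, hx, hb⟩ := mem_S.mp hh
  have a : ∀ i, |(h i : ℝ) - x i| ≤ F.rad G i := fun i => by
    have : |h i - x i| ≤ F.rad G i := mem_bx.mp hb i
    exact_mod_cast this
  rw [(wid_tooth hF hx fun i => by linarith [a i, abs_nonneg ((h i : ℝ) - x i)]).1]
  exact wid1_one fun i => by linarith [a i]

theorem near_unique {F F' : Fam} (hF : F.ok G) (hF' : F'.ok G) {g g' : Gp} {h h' : Z3}
    (hh : wid G F (fun i => h i) ≠ 0) (hh' : wid G F' (fun i => h' i) ≠ 0)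
    (H : pt G F g h = pt G F' g' h') : F = F' ∧ g = g' ∧ h = h' := by
  obtain ⟨x, hx, a⟩ := wid_ne_zero hh
  obtain ⟨x', hx', a'⟩ := wid_ne_zero hh'
  exact sepA_unique hF hF' hx hx' (fun i => by exact_mod_cast a i)
    (fun i => by exact_mod_cast a' i) H

lemma sc_near {F : Fam} (hF : F.ok G) (g : Gp) {h : Z3} (hh : wid G F (fun i => h i) ≠ 0) :
    sc G (pt G F g h) = G.Cb * (ax (F.ctr G + h) ^ 2) ^ G.α +
      wid G F (fun i => h i) * (G.Gc F.ix - G.Cb * (ax (F.ctr G + h) ^ 2) ^ G.α) := by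
  have H : Near G (pt G F g h) := ⟨(F, g, h), hF, hh, rfl⟩
  obtain ⟨a, b, c⟩ := H.choose_spec
  obtain ⟨e1, -, e3⟩ := near_unique hF a hh b c
  rw [sc, dif_pos H, ← e3, ← e1, pt, ax_gz]

lemma sc_pt {F : Fam} (hF : F.ok G) (g : Gp) {h : Z3} (hh : h ∈ F.S G) :
    sc G (pt G F g h) = G.Gc F.ix := by
  rw [sc_near hF g (by rw [wid_S hF hh]; exact one_ne_zero), wid_S hF hh]
  ring

lemma sepB_wid {F : Fam} (hF : F.ok G) (x : R3) : wid G F x ≤ 1 := by
  by_cases h : wid G F x = 0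
  · rw [h]; exact zero_le_one
  · obtain ⟨c, hc, a⟩ := wid_ne_zero h
    rw [(wid_tooth hF hc a).1]
    exact wid1_le_one _ _

lemma sepB_rpow : (12 : ℝ) ^ G.α ≤ 23 := by
  refine (Real.rpow_le_rpow_of_exponent_le (by norm_num) G.α_hi).trans ?_
  refine (pow_le_pow_iff_left₀ (by positivity) (by norm_num) (by norm_num : (4 : ℕ) ≠ 0)).mp ?_
  rw [← Real.rpow_natCast, ← Real.rpow_mul (by norm_num)]
  have : (5 / 4 * ((4 : ℕ) : ℝ) : ℝ) = ((5 : ℕ) : ℝ) := by norm_num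
  rw [this, Real.rpow_natCast]
  norm_num

lemma sc_ge (k : Z3) : G.C * (ax k ^ 2) ^ G.α ≤ sc G k := by
  have hC : 0 < G.C := Real.exp_pos _
  have hb : ∀ x : ℝ, G.C * (x ^ 2) ^ G.α ≤ G.Cb * (x ^ 2) ^ G.α := fun x =>
    mul_le_mul_of_nonneg_right (C_le_Cb G) (by positivity)
  by_cases H : Near G k
  · obtain ⟨⟨F, g, h⟩, hF, hh, rfl⟩ := H
    rw [sc_near hF g hh, pt, ax_gz]
    obtain ⟨x, hx, a⟩ := wid_ne_zero hh
    have b : ∀ l, (2 * Real.pi * ((F.ctr G + h) l : ℝ)) ^ 2 ≤ (2 * G.lam (F.ix + 1)) ^ 2 := fun l => by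
      have a1 : |h l - x l| < 2 * (F.rad G l + 1 : ℕ) := by exact_mod_cast a l
      have a2 := sepA_cens_le (F := F) hx l
      have a3 := sepA_rad (G := G) F l
      have a4 := sz_le (G := G) F
      have a5 := (car_size (J := F.ix) (ci_le hF) (cg F)).2 l
      have a6 := n_lt G (i := F.ix + 1) (j := F.ix + 1 + G.kk) (by have := kk_big G; omega)
      rw [← ctr_eq] at a5
      rw [← P_eq] at a6
      have a7 : |(F.ctr G + h) l| ≤ 2 * G.P (F.ix + 1) := by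
        rw [Pi.add_apply]
        rw [abs_lt] at a1
        rw [abs_le] at a2 a5 ⊢
        omega
      have a8 : |((F.ctr G + h) l : ℝ)| ≤ 2 * G.P (F.ix + 1) := by exact_mod_cast a7
      have := Real.pi_pos
      rw [← sq_abs, abs_mul, abs_of_pos (by positivity : 0 < 2 * Real.pi), Geo.lam, mul_left_comm 2]
      gcongr
    have c1 : ax (F.ctr G + h) ^ 2 ≤ 12 * G.lam (F.ix + 1) ^ 2 := by
      rw [ax_sq, Fin.sum_univ_three]
      linarith [b 0, b 1, b 2]
    have l0 : 0 ≤ G.lam (F.ix + 1) := zero_le_one.trans (lam_pos G _)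
    have c2 : (ax (F.ctr G + h) ^ 2) ^ G.α ≤ 23 * G.lm (F.ix + 1) := by
      refine (Real.rpow_le_rpow (sq_nonneg _) c1 (zero_le_one.trans G.α_lo)).trans ?_
      rw [Real.mul_rpow (by norm_num) (sq_nonneg _), Geo.lm, ← Real.rpow_natCast,
        ← Real.rpow_mul l0, Nat.cast_ofNat]
      exact mul_le_mul_of_nonneg_right sepB_rpow (by positivity)
    have c3 : G.C * (ax (F.ctr G + h) ^ 2) ^ G.α ≤ G.Gc F.ix := by
      rw [Geo.Gc, mul_comm 23, mul_assoc]
      exact mul_le_mul_of_nonneg_left c2 hC.le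
    have w0 := wid_nonneg (G := G) F fun i => h i
    have w1 := sepB_wid hF fun i => h i
    have c4 := hb (ax (F.ctr G + h))
    linarith [mul_nonneg w0 (sub_nonneg.mpr c3), mul_nonneg (sub_nonneg.mpr w1) (sub_nonneg.mpr c4)]
  · rw [sc, dif_neg H, add_zero]
    exact hb _

lemma sc_gz (g : Gp) (k : Z3) : sc G (gz g k) = sc G k := by
  by_cases H : Near G k
  · obtain ⟨⟨F, g', h⟩, hF, hh, rfl⟩ := H
    rw [sc_near hF g' hh, pt, gz_gz]
    exact sc_near hF _ hh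
  · have H' : ¬Near G (gz g k) := by
      rintro ⟨⟨F, g', h⟩, hF, hh, e⟩
      obtain ⟨a, -, ha⟩ := exists_inv g
      refine H ⟨(F, gm a g', h), hF, hh, ?_⟩
      rw [pt, ← gz_gz, ← pt, ← e, gz_gz, ha, gz_g1]
    rw [sc, sc, dif_neg H, dif_neg H', ax_gz]

end

end Pool.Agent.Work.MP_6bf1e5_an.Hyp.Pd
end

-- merged part: Pool.Agent.Work.MP_6bf1e5_an.Hyp.Sep
section
/-!
The active part of a symmetric state.
-/

open Set Complex
open scoped InnerProductSpace ComplexConjugate Classical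
open Pool.Agent.Work.MP_6bf1e5_an.B
open Pool.Agent.Work.MP_6bf1e5_an.Hyp.Dec

namespace Pool.Agent.Work.MP_6bf1e5_an.Hyp.Pd

noncomputable section

variable {G : Geo}

lemma Sep_act_pt {F : Fam} (hF : F.ok G) (g : Gp) {h : Z3} (hh : h ∈ F.S G) :
    Act G (pt G F g h) := ⟨(F, g, h), hF, hh, rfl⟩

lemma Sep_choose {F : Fam} (hF : F.ok G) {g : Gp} {h : Z3} (hh : h ∈ F.S G)
    (H : Act G (pt G F g h)) : H.choose = (F, g, h) := by
  obtain ⟨h1, h2, h3⟩ := H.choose_spec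
  obtain ⟨e1, e2, e3⟩ := pt_unique hF h1 hh h2 h3
  exact Prod.ext e1.symm (Prod.ext e2.symm e3.symm)

lemma Sep_gz_pt (g g' : Gp) (F : Fam) (h : Z3) : gz g (pt G F g' h) = pt G F (gm g g') h :=
  gz_gz _ _ _

lemma Sep_rapid_of_le {a b : Z3 → E3} (ha : Rapid a) (h : ∀ k, ‖b k‖ ≤ ‖a k‖) : Rapid b := by
  intro s
  obtain ⟨M, hM⟩ := ha s
  refine ⟨M, fun F => le_trans (Finset.sum_le_sum fun k _ => ?_) (hM F)⟩
  exact mul_le_mul_of_nonneg_left (h k) (pow_nonneg (w_pos k).le s)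

lemma vec_pt {F : Fam} (hF : F.ok G) (g : Gp) {h : Z3} (hh : h ∈ F.S G) :
    vec G (pt G F g h) = ge g (F.e G) := by
  have H := Sep_act_pt hF g hh
  rw [vec, dif_pos H, Sep_choose hF hh H]

lemma dm_pt {F : Fam} (hF : F.ok G) (g : Gp) {h : Z3} (hh : h ∈ F.S G) :
    dm G (pt G F g h) = chi G F (fun i => h i) * (G.Gc F.ix - F.dd G) := by
  have H := Sep_act_pt hF g hh
  rw [dm, dif_pos H, Sep_choose hF hh H]

lemma Act_gz (g : Gp) (k : Z3) : Act G (gz g k) ↔ Act G k := by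
  have key : ∀ (g : Gp) (k : Z3), Act G k → Act G (gz g k) := by
    rintro g k ⟨⟨F, g', h⟩, h1, h2, rfl⟩
    exact ⟨(F, gm g g', h), h1, h2, Sep_gz_pt _ _ _ _⟩
  refine ⟨fun H => ?_, key g k⟩
  obtain ⟨g', -, hg⟩ := exists_inv g
  have := key g' _ H
  rwa [gz_gz, hg, gz_g1] at this

lemma vec_gz (g : Gp) (k : Z3) : vec G (gz g k) = ge g (vec G k) := by
  by_cases H : Act G k
  · obtain ⟨⟨F, g', h⟩, h1, h2, rfl⟩ := H
    simp only at h1 h2 ⊢
    rw [Sep_gz_pt, vec_pt h1 _ h2, vec_pt h1 _ h2, ge_ge]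
  · have H' : ¬Act G (gz g k) := fun h => H ((Act_gz g k).mp h)
    rw [vec, vec, dif_neg H, dif_neg H', ge_zero]

lemma dm_gz (g : Gp) (k : Z3) : dm G (gz g k) = dm G k := by
  by_cases H : Act G k
  · obtain ⟨⟨F, g', h⟩, h1, h2, rfl⟩ := H
    simp only at h1 h2 ⊢
    rw [Sep_gz_pt, dm_pt h1 _ h2, dm_pt h1 _ h2]
  · have H' : ¬Act G (gz g k) := fun h => H ((Act_gz g k).mp h)
    rw [dm, dm, dif_neg H, dif_neg H']

lemma Pj_gz (g : Gp) (k : Z3) (x : E3) : Pj G (gz g k) (ge g x) = ge g (Pj G k x) := by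
  rw [Pj, Pj, xi_gz, vec_gz, lp_ge, ur_ge, inner_ge, ge_smul]

lemma AR_gz (g : Gp) (k : Z3) (x : E3) : AR G (gz g k) (ge g x) = ge g (AR G k x) := by
  rw [AR, AR, sc_gz, dm_gz, Pj_gz, ge_sub, ge_smul, ge_smul]

/-- The active part of an admissible state is admissible. -/
lemma adm_act {β : Z3 → E3} (H : Adm β) : Adm (act G β) := by
  refine ⟨Sep_rapid_of_le H.rapid fun k => norm_Pj_le G k _, fun g k => ?_,
    fun k => inner_xi_Pj G k _⟩
  rw [act, act, H.sym, Pj_gz]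

lemma adm_jnk {β : Z3 → E3} (H : Adm β) : Adm (jnk G β) := by
  refine ⟨Sep_rapid_of_le H.rapid fun k => norm_sub_Pj_le G k _, fun g k => ?_, fun k => ?_⟩
  · rw [jnk, jnk, (adm_act H).sym, H.sym, ge_sub]
  · rw [jnk, inner_sub_right, H.div, (adm_act H).div, sub_zero]

lemma exists_pt {β : Z3 → E3} {k : Z3} (h : act G β k ≠ 0) :
    ∃ F g, F.ok G ∧ k ∈ Pt G F g := by
  by_cases H : Act G k
  · obtain ⟨⟨F, g, x⟩, h1, h2, rfl⟩ := H
    exact ⟨F, g, h1, x, h2, rfl⟩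
  · exact absurd (Pj_not G H _) h

lemma coeff_env {F : Fam} (β : Z3 → E3) {h : Z3} (hh : h ∈ F.S G) :
    (env G F β).coeff h = ((⟪F.e G, β (F.ctr G + h)⟫_ℝ : ℝ) : ℂ) := by
  rw [env, coeff_mk, if_pos hh]

lemma rl_env (F : Fam) (β : Z3 → E3) : Rl (env G F β) := by
  intro h
  rw [env, coeff_mk]
  split_ifs
  · exact Complex.ofReal_im _
  · rfl

/-- The active part on the modes of a family. -/
lemma act_pt {β : Z3 → E3} (H : Adm β) {F : Fam} (hF : F.ok G) (g : Gp) {h : Z3}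
    (hh : h ∈ F.S G) :
    act G β (pt G F g h) = ⟪F.e G, β (F.ctr G + h)⟫_ℝ • uv G F g h := by
  have e1 : vec G (F.ctr G + h) = F.e G := by
    rw [← pt_g1, vec_pt hF g1 hh, ge_g1]
  rw [act, pt, H.sym, Pj_gz, Pj, e1, inner_lp_left (H.div _), ge_smul, uv]

end

end Pool.Agent.Work.MP_6bf1e5_an.Hyp.Pd
end

-- merged part: Pool.Agent.Work.MP_6bf1e5_an.Hyp.CoefAX
section
/-!
Elementary facts for the reference vectors.
-/

open Set Complex
open scoped InnerProductSpace ComplexConjugate Classical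
open Pool.Agent.Work.MP_6bf1e5_an.B
open Pool.Agent.Work.MP_6bf1e5_an.Hyp.Dec

namespace Pool.Agent.Work.MP_6bf1e5_an.Hyp.Pd

noncomputable section

lemma coefA_inner (a b c x y z : ℝ) : ⟪v3 a b c, v3 x y z⟫_ℝ = a * x + b * y + c * z := by
  simp [v3, PiLp.inner_apply, Fin.sum_univ_three]; ring

lemma coefA_normsq (x y z : ℝ) : ‖v3 x y z‖ ^ 2 = x ^ 2 + y ^ 2 + z ^ 2 := by
  rw [← real_inner_self_eq_norm_sq, coefA_inner]; ring

lemma coefA_ge (o : Fin 4) (x y z : ℝ) : ge (go o) (v3 x y z) =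
    ![v3 z x y, v3 (-z) (-x) (-y), v3 y z x, v3 (-y) (-z) (-x)] o := by
  fin_cases o <;> ext i <;> fin_cases i <;> simp [ge, go, v3]

lemma coefA_xi (a b c : ℤ) :
    xi ![a, b, c] = v3 (2 * Real.pi * a) (2 * Real.pi * b) (2 * Real.pi * c) := by
  ext i; fin_cases i <;> simp [xi, v3]

lemma coefA_smul (s x y z : ℝ) : s • v3 x y z = v3 (s * x) (s * y) (s * z) := by
  ext i; fin_cases i <;> simp [v3]

lemma coefA_s5 : ((√5 : ℝ)⁻¹) ^ 2 = 1 / 5 := by
  rw [inv_pow, Real.sq_sqrt (by norm_num)]; norm_num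

lemma coefA_s5pos : (0 : ℝ) < (√5)⁻¹ := by positivity

variable (G : Geo)

lemma coefA_t : (10000 : ℝ) ≤ G.t := le_trans (by norm_num) (t_big G)

lemma coefA_L : (10000 : ℝ) ≤ G.t ^ 21 :=
  (coefA_t G).trans (le_self_pow₀ (one_le_t G) (by norm_num))

lemma coefA_LL : (10000 : ℝ) ≤ G.L := (coefA_L G).trans G.L_lo

lemma coefA_eL : G.ε * G.L = 1 := by
  have := coefA_LL G
  rw [Geo.ε, La_cast]
  exact inv_mul_cancel₀ (by linarith)

lemma coefA_epos : 0 < G.ε := by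
  have := coefA_LL G
  rw [Geo.ε, La_cast]
  positivity

lemma coefA_ele : G.ε ≤ 1 / 10000 := by
  have h := coefA_LL G
  have h1 := coefA_eL G
  have h2 := coefA_epos G
  nlinarith

lemma coefA_hpos : 0 < G.η := by
  have := coefA_L G
  unfold Geo.η
  positivity

lemma coefA_hT : G.η * G.t ^ 21 = 1 / 4 := by
  have := t_pos G
  unfold Geo.η
  field_simp

lemma coefA_hle : G.η ≤ 1 / 10000 := by
  have h := coefA_L G
  have h1 := coefA_hT G
  have h2 := coefA_hpos G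
  nlinarith

lemma coefA_yeq : G.yy * (4 + G.ε) = G.ε * (1 + G.η + 4 * G.ε) := by
  have h1 := coefA_epos G
  unfold Geo.yy
  field_simp

lemma coefA_y : 0 ≤ G.yy ∧ G.yy ≤ G.ε := by
  have h1 := coefA_epos G
  have h2 := coefA_ele G
  have h3 := coefA_hpos G
  have h4 := coefA_hle G
  unfold Geo.yy
  refine ⟨by positivity, ?_⟩
  rw [div_le_iff₀ (by linarith only [h1])]
  nlinarith only [h1, h2, h4]

/-- The identity behind the strain coefficient. -/
lemma coefA_yL : 4 * G.L * G.yy = 1 + G.η + 4 * G.ε - G.yy := by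
  have h1 := coefA_eL G
  have h2 := coefA_yeq G
  linear_combination G.L * h2 + (1 + G.η + 4 * G.ε - G.yy) * h1

lemma coefA_esq : G.ε ^ 2 ≤ G.ε / 10000 := by
  have h1 := coefA_epos G
  have h2 := coefA_ele G
  nlinarith only [h1, h2]

lemma coefA_z : -1 ≤ G.z ∧ G.z ≤ -1 + G.ε := by
  have h1 := coefA_y G
  unfold Geo.z
  constructor <;> linarith [h1.1, h1.2]

lemma coefA_zsq : 999 / 1000 ≤ G.z ^ 2 ∧ G.z ^ 2 ≤ 1 := by
  have h1 := coefA_epos G
  have h2 := coefA_ele G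
  have h3 := coefA_z G
  constructor <;> nlinarith only [h2, h3.1, h3.2]

lemma coefA_D : 499 / 100 ≤ 4 * G.ε ^ 2 + 4 + G.z ^ 2 ∧ 4 * G.ε ^ 2 + 4 + G.z ^ 2 ≤ 501 / 100 := by
  have h1 := coefA_epos G
  have h2 := coefA_ele G
  have h3 := coefA_zsq G
  have h4 := coefA_esq G
  constructor <;> linarith only [h2, h4, h3.1, h3.2, sq_nonneg G.ε]

lemma coefA_W : 99 / 100 ≤ G.z * (G.z - 4 * G.ε) ∧ G.z * (G.z - 4 * G.ε) ≤ 101 / 100 := by
  have h1 := coefA_epos G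
  have h2 := coefA_ele G
  have h3 := coefA_zsq G
  have h4 := coefA_z G
  constructor <;> nlinarith only [h2, h3.1, h3.2, h4.1, h4.2]

lemma coefA_num : 299 / 100 ≤ 3 - G.η + G.yy - 4 * G.ε ∧ 3 - G.η + G.yy - 4 * G.ε ≤ 3 := by
  have h1 := coefA_y G
  have h2 := coefA_ele G
  have h3 := coefA_hpos G
  have h4 := coefA_hle G
  have h5 := coefA_epos G
  constructor <;> linarith only [h2, h4, h3, h1.1, h1.2]

lemma coefA_mCpos : 0 < G.mC := by
  have h1 := coefA_hpos G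
  have h2 := (coefA_num G).1
  have h3 := (coefA_D G).1
  unfold Geo.mC
  refine Real.sqrt_pos.mpr (div_pos (by linarith only [h2]) (mul_pos h1 (by linarith only [h3])))

/-- The defining equation of the normalisation. -/
lemma coefA_mCsq :
    G.mC ^ 2 * (G.η * (4 * G.ε ^ 2 + 4 + G.z ^ 2)) = 3 - G.η + G.yy - 4 * G.ε := by
  have h1 := coefA_hpos G
  have h2 := (coefA_num G).1
  have h3 := (coefA_D G).1
  have h4 : 0 < G.η * (4 * G.ε ^ 2 + 4 + G.z ^ 2) := mul_pos h1 (by linarith only [h3])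
  unfold Geo.mC
  rw [Real.sq_sqrt (div_pos (by linarith only [h2]) h4).le]
  exact div_mul_cancel₀ _ h4.ne'

/-- The same after division by `η`. -/
lemma coefA_mCL : G.mC ^ 2 * (1 / 4 * (4 * G.ε ^ 2 + 4 + G.z ^ 2)) =
    (3 - G.η + G.yy - 4 * G.ε) * G.t ^ 21 := by
  rw [← coefA_mCsq G, ← coefA_hT G]; ring

lemma coefA_mC_bounds : 23 / 10 * G.t ^ 21 ≤ G.mC ^ 2 ∧ G.mC ^ 2 ≤ 5 / 2 * G.t ^ 21 := by
  have h1 := coefA_mCL G
  have h2 := coefA_num G
  have h4 := coefA_D G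
  have h5 := coefA_L G
  have h6 : 0 ≤ G.mC ^ 2 := sq_nonneg _
  set D := 4 * G.ε ^ 2 + 4 + G.z ^ 2
  set M := G.mC ^ 2
  set L := G.t ^ 21
  set ν := 3 - G.η + G.yy - 4 * G.ε
  have a1 : 1 / 4 * D ≤ 126 / 100 := by linarith only [h4.1, h4.2]
  have a2 : 124 / 100 ≤ 1 / 4 * D := by linarith only [h4.1, h4.2]
  have b1 : M * (1 / 4 * D) ≤ M * (126 / 100) := mul_le_mul_of_nonneg_left a1 h6
  have b2 : M * (124 / 100) ≤ M * (1 / 4 * D) := mul_le_mul_of_nonneg_left a2 h6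
  have c1 : ν * L ≤ 3 * L := mul_le_mul_of_nonneg_right h2.2 (by linarith only [h5])
  have c2 : 299 / 100 * L ≤ ν * L := mul_le_mul_of_nonneg_right h2.1 (by linarith only [h5])
  constructor <;> linarith only [h5, h1, b1, c2, b2, c1]

lemma coefA_kpsq : G.kp ^ 2 * G.t ^ 21 * (25 * (4 * G.ε ^ 2 + 4 + G.z ^ 2)) =
    (3 - G.η + G.yy - 4 * G.ε) * (1 / 4) := by
  rw [← coefA_mCsq G, ← coefA_hT G, Geo.kp]; ring

lemma coefA_eUsq : ‖G.eU‖ ^ 2 = ((G.ε * G.z) ^ 2 + G.z ^ 2 + 4 * (1 + G.ε ^ 2) ^ 2) / 5 := by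
  rw [Geo.eU, norm_smul, mul_pow, coefA_normsq, Real.norm_of_nonneg coefA_s5pos.le, coefA_s5]
  ring

lemma coefA_U : 99 / 100 ≤ ‖G.eU‖ ^ 2 ∧ ‖G.eU‖ ^ 2 ≤ 101 / 100 := by
  have h1 := coefA_epos G
  have h2 := coefA_ele G
  have h3 := coefA_zsq G
  have h4 := coefA_esq G
  have h5 : 0 ≤ G.ε ^ 2 := sq_nonneg _
  rw [coefA_eUsq, mul_pow]
  set a := G.ε ^ 2
  set b := G.z ^ 2
  have h6 : a ≤ 1 / 10000 := by linarith only [h2, h4]
  constructor <;> nlinarith only [h5, h2, h4, h3.1, h3.2]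

lemma coefA_eCsq : ‖G.eC‖ ^ 2 = G.mC ^ 2 * (4 * G.ε ^ 2 + 4 + G.z ^ 2) := by
  rw [Geo.eC, norm_smul, mul_pow, coefA_normsq, Real.norm_of_nonneg (coefA_mCpos G).le]
  ring

lemma coefA_cq_aux {A b ω M W U D L : ℝ} (hM : 0 < M) (hW : 0 < W) (hU : 0 < U) (hD : 0 < D)
    (hω : 0 < ω) (h : 25 * (A ^ 2 * b ^ 2 * L) ≤ ω ^ 2 * M ^ 2 * W ^ 2 * D ^ 2) :
    (A * (M ^ 2 * b) / (U * (M ^ 2 * D) * (ω * (M * W / (5 * U))))) ^ 2 * L ≤ 1 := by
  have e : A * (M ^ 2 * b) / (U * (M ^ 2 * D) * (ω * (M * W / (5 * U)))) =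
      5 * A * b / (ω * M * W * D) := by
    field_simp
  rw [e, div_pow, div_mul_eq_mul_div, div_le_one (by positivity)]
  linarith only [h]

lemma coefA_b : (2 * G.ε * G.z - 4 * G.ε - 2 * G.z) ^ 2 ≤ 41 / 10 := by
  have h1 := coefA_epos G
  have h2 := coefA_ele G
  have h4 := coefA_z G
  have a1 : 2 * G.ε * G.z - 4 * G.ε - 2 * G.z ≤ 2 := by nlinarith only [h2, h4.1, h4.2]
  have a2 : -2 ≤ 2 * G.ε * G.z - 4 * G.ε - 2 * G.z := by nlinarith only [h2, h4.1, h4.2]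
  nlinarith only [a1, a2]

lemma coefA_A0 : ((√5)⁻¹ * (G.z + 2 * (1 + G.ε ^ 2) * G.ε)) ^ 2 ≤ 21 / 100 := by
  have h1 := coefA_epos G
  have h2 := coefA_ele G
  have h3 := coefA_esq G
  have h4 := coefA_z G
  have h5 : 0 ≤ G.ε ^ 2 := sq_nonneg _
  have a1 : G.z + 2 * (1 + G.ε ^ 2) * G.ε ≤ 1 := by nlinarith only [h3, h4.1, h4.2]
  have a2 : -1 ≤ G.z + 2 * (1 + G.ε ^ 2) * G.ε := by nlinarith only [h4.1, h4.2]
  rw [mul_pow, coefA_s5]
  nlinarith only [a1, a2]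

lemma coefA_A2 : ((√5)⁻¹ * (-(G.ε * G.z) * G.ε + 2 * (1 + G.ε ^ 2))) ^ 2 ≤ 1 := by
  have h1 := coefA_epos G
  have h2 := coefA_ele G
  have h3 := coefA_esq G
  have h4 := coefA_z G
  have h5 : 0 ≤ G.ε ^ 2 := sq_nonneg _
  have e : -(G.ε * G.z) * G.ε = -G.z * G.ε ^ 2 := by ring
  have a1 : -(G.ε * G.z) * G.ε + 2 * (1 + G.ε ^ 2) ≤ 21 / 10 := by
    rw [e]; nlinarith only [h2, h4.1, h4.2]
  have a2 : -(21 / 10) ≤ -(G.ε * G.z) * G.ε + 2 * (1 + G.ε ^ 2) := by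
    rw [e]; nlinarith only [h2, h4.1, h4.2]
  rw [mul_pow, coefA_s5]
  nlinarith only [a1, a2]

lemma coefA_cq_fin {A b ω a : ℝ} (hA : A ^ 2 ≤ a) (hb : b ^ 2 ≤ 41 / 10) (ha : 0 ≤ a)
    (hω : 2 * a ≤ ω ^ 2) :
    25 * (A ^ 2 * b ^ 2 * G.t ^ 21) ≤
      ω ^ 2 * G.mC ^ 2 * (G.z * (G.z - 4 * G.ε)) ^ 2 * (4 * G.ε ^ 2 + 4 + G.z ^ 2) ^ 2 := by
  have h1 := (coefA_mC_bounds G).1
  have h2 := (coefA_W G).1
  have h3 := (coefA_D G).1
  have h4 := coefA_L G
  set D := 4 * G.ε ^ 2 + 4 + G.z ^ 2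
  set M := G.mC ^ 2
  set L := G.t ^ 21
  set W := G.z * (G.z - 4 * G.ε)
  have a1 : 98 / 100 ≤ W ^ 2 := by nlinarith only [h2]
  have a2 : 24 ≤ D ^ 2 := by nlinarith only [h3]
  calc 25 * (A ^ 2 * b ^ 2 * L) ≤ 25 * (a * (41 / 10) * L) := by gcongr
    _ ≤ (2 * a) * (23 / 10 * L) * (98 / 100) * 24 := by linarith only [mul_nonneg ha (by linarith only [h4] : 0 ≤ L)]
    _ ≤ ω ^ 2 * M * W ^ 2 * D ^ 2 := by gcongr

lemma coefA_m0 : 1000 * G.L ≤ G.m0 := by
  have h := m0_bigL G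
  have h1 := coefA_LL G
  have h2 : G.L ^ 2 ≤ G.L ^ 1000 := pow_le_pow_right₀ (by linarith) (by norm_num)
  nlinarith only [h, h1, h2]

lemma coefA_lam_le (j : ℕ) : 100 * G.lam j ≤ G.lam (j + 1) := by
  have h1 := lam_pos G j
  have h2 := coefA_LL G
  rw [lam_succ]; nlinarith only [h1, h2]

lemma coefA_n_le (j : ℕ) : 12 * (G.n (j + 1) : ℝ) ≤ G.lam j / 100 := by
  have h1 := coefA_m0 G
  have h2 : (G.n (j + 1) : ℝ) = G.L * G.n j := by
    rw [n_succ]; push_cast; rw [La_cast]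
  have h3 : (0 : ℝ) ≤ G.n j := Nat.cast_nonneg _
  have h4 := coefA_LL G
  have h5 : 1000 * G.L * G.n j ≤ G.m0 * G.n j := mul_le_mul_of_nonneg_right h1 h3
  have h6 : 0 ≤ G.m0 * G.n j := mul_nonneg (by linarith) h3
  rw [Geo.lam, P_cast, h2]
  nlinarith only [h2, h5, Real.pi_gt_three]

variable {G}

lemma coefA_ctr_b (j : ℕ) : xi ((Fam.b j).ctr G) = v3 (G.lam j) 0 0 := by
  rw [Fam.ctr, coefA_xi, Geo.lam]; simp

lemma coefA_ctr_c (j : ℕ) : xi ((Fam.c j).ctr G) = v3 (G.lam (j + 1)) (G.lam j) 0 := by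
  rw [Fam.ctr, coefA_xi, Geo.lam, Geo.lam]; simp

lemma coefA_ctr_y (j i : ℕ) : xi ((Fam.y j i).ctr G) = v3 (i * G.lam j) (G.lam j) 0 := by
  rw [Fam.ctr, coefA_xi, Geo.lam]
  congr 1
  · push_cast; ring
  · simp

lemma coefA_lo1 (x y z : ℝ) : x ≤ ‖v3 x y z‖ := by
  refine (abs_le_of_sq_le_sq' ?_ (norm_nonneg _)).2
  rw [coefA_normsq]; linarith [sq_nonneg y, sq_nonneg z]

lemma coefA_lo2 (x y z : ℝ) : y ≤ ‖v3 x y z‖ := by
  refine (abs_le_of_sq_le_sq' ?_ (norm_nonneg _)).2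
  rw [coefA_normsq]; linarith [sq_nonneg x, sq_nonneg z]

lemma coefA_hi {x y : ℝ} (hx : 0 ≤ x) (hy : 0 ≤ y) : ‖v3 x y 0‖ ≤ x + y := by
  refine (abs_le_of_sq_le_sq' ?_ (by positivity)).2
  rw [coefA_normsq]; linarith [mul_nonneg hx hy]

lemma coefA_ctr_lo (F : Fam) : G.lam F.ix ≤ ‖xi (F.ctr G)‖ := by
  cases F with
  | b j => rw [coefA_ctr_b]; exact coefA_lo1 _ _ _
  | c j => rw [coefA_ctr_c]; exact coefA_lo2 _ _ _
  | y j i => rw [coefA_ctr_y]; exact coefA_lo2 _ _ _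

lemma coefA_ctr_hi {F : Fam} (hF : F.ok G) :
    ‖xi (F.ctr G)‖ ≤ G.lam (F.ix + 1) + G.lam F.ix := by
  cases F with
  | b j =>
    have h1 := lam_pos G j
    have h2 := lam_pos G (j + 1)
    rw [coefA_ctr_b]
    refine (coefA_hi (by linarith) le_rfl).trans ?_
    simp only [Fam.ix]; linarith
  | c j =>
    have h1 := lam_pos G j
    have h2 := lam_pos G (j + 1)
    rw [coefA_ctr_c]
    exact coefA_hi (by linarith) (by linarith)
  | y j i =>
    have h1 := lam_pos G j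
    have h2 : (i : ℝ) ≤ G.L := by rw [← La_cast]; exact_mod_cast hF.2
    rw [coefA_ctr_y]
    refine (coefA_hi (by positivity) (by linarith)).trans ?_
    simp only [Fam.ix]
    rw [lam_succ]
    nlinarith only [h1, h2]

lemma coefA_eta {ξ δ : E3} {η : ℝ} (h1 : ‖δ‖ ≤ η * ‖ξ‖) (h3 : ξ ≠ 0) : 0 ≤ η := by
  have h := norm_pos_iff.mpr h3
  by_contra hn
  have := mul_neg_of_neg_of_pos (not_le.mp hn) h
  linarith [norm_nonneg δ]

lemma coefA_add_lo {ξ δ : E3} {η : ℝ} (h1 : ‖δ‖ ≤ η * ‖ξ‖) (h2 : η ≤ 1 / 10) :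
    9 / 10 * ‖ξ‖ ≤ ‖ξ + δ‖ := by
  have h := norm_sub_le (ξ + δ) δ
  rw [add_sub_cancel_right] at h
  have := mul_le_mul_of_nonneg_right h2 (norm_nonneg ξ)
  linarith only [h1, h, this]

/-- The coefficient of the projection is small. -/
lemma coefA_coef {ξ δ e : E3} {η : ℝ} (h0 : ⟪ξ, e⟫_ℝ = 0) (h1 : ‖δ‖ ≤ η * ‖ξ‖) (h2 : η ≤ 1 / 10)
    (h3 : ξ ≠ 0) : |⟪ξ + δ, e⟫_ℝ / ‖ξ + δ‖ ^ 2| * ‖ξ + δ‖ ≤ 2 * η * ‖e‖ := by
  have hξ := norm_pos_iff.mpr h3
  have hη := coefA_eta h1 h3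
  have h4 := coefA_add_lo h1 h2
  have h5 : 0 < ‖ξ + δ‖ := by linarith only [hξ, h4]
  have h6 : |⟪ξ + δ, e⟫_ℝ| ≤ η * ‖ξ‖ * ‖e‖ := by
    rw [inner_add_left, h0, zero_add]
    exact (abs_real_inner_le_norm _ _).trans (mul_le_mul_of_nonneg_right h1 (norm_nonneg _))
  rw [abs_div, abs_of_pos (pow_pos h5 2), div_mul_eq_mul_div, div_le_iff₀ (pow_pos h5 2)]
  have h7 : 0 ≤ η * ‖e‖ := mul_nonneg hη (norm_nonneg _)
  calc |⟪ξ + δ, e⟫_ℝ| * ‖ξ + δ‖ ≤ η * ‖ξ‖ * ‖e‖ * ‖ξ + δ‖ :=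
        mul_le_mul_of_nonneg_right h6 h5.le
    _ = η * ‖e‖ * ‖ξ + δ‖ * ‖ξ‖ := by ring
    _ ≤ η * ‖e‖ * ‖ξ + δ‖ * (2 * ‖ξ + δ‖) :=
        mul_le_mul_of_nonneg_left (by linarith only [h4, h5]) (mul_nonneg h7 h5.le)
    _ = _ := by ring

lemma coefA_lp_sub (ξ e : E3) : lp ξ e - e = -((⟪ξ, e⟫_ℝ / ‖ξ‖ ^ 2) • ξ) := by
  rw [lp]; abel

end

end Pool.Agent.Work.MP_6bf1e5_an.Hyp.Pd
end

-- merged part: Pool.Agent.Work.MP_6bf1e5_an.Hyp.YoungM
section
/-!
The main interactions.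
-/

open Set Complex
open scoped InnerProductSpace ComplexConjugate Classical
open Pool.Agent.Work.MP_6bf1e5_an.B
open Pool.Agent.Work.MP_6bf1e5_an.Hyp.Dec

namespace Pool.Agent.Work.MP_6bf1e5_an.Hyp.Pd

noncomputable section

variable {G : Geo} {β : Z3 → E3}

lemma YoungM_coeff_not {F : Fam} {h : Z3} (hh : h ∉ F.S G) : (env G F β).coeff h = 0 := by
  rw [env, coeff_mk, if_neg hh]

lemma YoungM_gz_gzE (g : Gp) (q : Z3) : gz g (gzE g q) = q := (gzE g).left_inv q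

lemma YoungM_supp (g : Gp) (F : Fam) :
    (tr g (env G F β)).coeff.support ⊆ (F.S G).image (gz g) := by
  intro q hq
  rw [Finsupp.mem_support_iff, ← YoungM_gz_gzE g q, coeff_tr] at hq
  refine Finset.mem_image.2 ⟨gzE g q, ?_, YoungM_gz_gzE g q⟩
  by_contra hn
  exact hq (YoungM_coeff_not hn)

lemma YoungM_conv (g : Gp) (F : Fam) (A B : V) (hA : A.coeff.support ⊆ (F.S G).image (gz g))
    (s h : Z3) : (sh s * (A * B)).coeff h
      = ∑ a ∈ F.S G, A.coeff (gz g a) * B.coeff (h - s - gz g a) := by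
  rw [coeff_sh_mul, coeff_mul_eq B hA, Finset.sum_image fun _ _ _ _ e => gz_injective g e]

lemma YoungM_SB (γ : Z3 → E3) (g : Gp) (F : Fam) (W : Set Z3) (r : Z3) :
    SB γ (Pt G F g) W r = ∑ a ∈ F.S G, if r - pt G F g a ∈ W then
      tm γ γ (pt G F g a) (r - pt G F g a) + tm γ γ (r - pt G F g a) (pt G F g a) else 0 := by
  rw [SB, tsum_eq_sum (s := (F.S G).image (pt G F g)), Finset.sum_image]
  · refine Finset.sum_congr rfl fun a ha => ?_
    have : pt G F g a ∈ Pt G F g := ⟨a, ha, rfl⟩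
    simp only [this, true_and]
  · intro a _ b _ e
    exact add_left_cancel (gz_injective g e)
  · intro p hp
    rw [if_neg]
    rintro ⟨⟨a, ha, rfl⟩, _⟩
    exact hp (Finset.mem_image_of_mem _ ha)

/-- The interaction of two families is almost a convolution of their envelopes. -/
theorem main_approx (H : Adm β) {F1 F2 : Fam} (h1 : F1.ok G) (h2 : F2.ok G) (g g' : Gp)
    (F : Fam) (x : Z3) {n : N3} {c0 η : ℝ} (η0 : 0 ≤ η)
    (hc : ∀ h ∈ bx n, ∀ a ∈ F1.S G, ∀ b ∈ F2.S G, |CF G F (x + h) F1 g a F2 g' b - c0| ≤ η) :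
    let E := Tst (F.e G) (F.ctr G + x) n (SB (act G β) (Pt G F1 g) (Pt G F2 g')) -
      (c0 : ℂ) • pj n (sh (gz g (F1.ctr G) + gz g' (F2.ctr G) - (F.ctr G + x)) *
        (tr g (env G F1 β) * tr g' (env G F2 β)))
    ‖E‖ ≤ η * (l1 (env G F1 β) * ‖env G F2 β‖) ∧ ‖E‖ ≤ η * (‖env G F1 β‖ * l1 (env G F2 β)) := by
  intro E
  set A := tr g (env G F1 β) with hA
  set B := tr g' (env G F2 β) with hB
  set s := gz g (F1.ctr G) + gz g' (F2.ctr G) - (F.ctr G + x) with hs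
  have sA : A.coeff.support ⊆ (F1.S G).image (gz g) := YoungM_supp g F1
  have sA' : (av A).coeff.support ⊆ (F1.S G).image (gz g) := fun q hq => sA (by
    rw [Finsupp.mem_support_iff] at hq ⊢
    intro e
    exact hq (by rw [coeff_av, e]; simp))
  have key : ∀ h, ‖E.coeff h‖ ≤ η * ‖(sh s * (av A * av B)).coeff h‖ := by
    intro h
    have hE : E.coeff h = (Tst (F.e G) (F.ctr G + x) n
        (SB (act G β) (Pt G F1 g) (Pt G F2 g'))).coeff h
        - c0 * (pj n (sh s * (A * B))).coeff h := by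
      simp [E, hA, hB, hs]
    rw [hE, Tst, coeff_mk, coeff_pj]
    split_ifs with hh
    swap
    · simp only [mul_zero, sub_zero, norm_zero]; positivity
    have e2 : ‖(sh s * (av A * av B)).coeff h‖
        = ∑ a ∈ F1.S G, ‖A.coeff (gz g a)‖ * ‖B.coeff (h - s - gz g a)‖ := by
      rw [YoungM_conv g F1 _ _ sA']
      simp only [coeff_av]
      norm_cast
      exact abs_of_nonneg (Finset.sum_nonneg fun _ _ => by positivity)
    rw [e2, YoungM_conv g F1 _ _ sA, YoungM_SB, inner_sum, Complex.ofReal_sum, Finset.mul_sum,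
      ← Finset.sum_sub_distrib, Finset.mul_sum]
    refine (norm_sum_le _ _).trans (Finset.sum_le_sum fun a ha => ?_)
    have e3 : F.ctr G + x + h - pt G F1 g a = gz g' (F2.ctr G) + (h - s - gz g a) := by
      rw [hs, pt, gz_add]; abel
    split_ifs with hm
    · obtain ⟨b, hb, e4⟩ := hm
      have e5 : h - s - gz g a = gz g' b := by
        rw [e3, pt, gz_add] at e4
        exact add_left_cancel e4
      rw [e4, e5, hA, hB, coeff_tr, coeff_tr, coeff_env β ha, coeff_env β hb]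
      have e6 : ⟪lp (xi (F.ctr G + x + h)) (F.e G),
          tm (act G β) (act G β) (pt G F1 g a) (pt G F2 g' b)
            + tm (act G β) (act G β) (pt G F2 g' b) (pt G F1 g a)⟫_ℝ
          = ⟪F1.e G, β (F1.ctr G + a)⟫_ℝ * ⟪F2.e G, β (F2.ctr G + b)⟫_ℝ *
            CF G F (x + h) F1 g a F2 g' b := by
        simp only [tm, act_pt H h1 g ha, act_pt H h2 g' hb, CF, cfR, inner_add_right,
          real_inner_smul_left, real_inner_smul_right, add_assoc]
        ring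
      rw [e6]
      norm_cast
      rw [Real.norm_eq_abs, Real.norm_eq_abs, Real.norm_eq_abs, ← abs_mul, mul_comm c0, ← mul_sub,
        abs_mul, mul_comm η]
      exact mul_le_mul_of_nonneg_left (hc h hh a ha b hb) (abs_nonneg _)
    · have : B.coeff (h - s - gz g a) = 0 := by
        rw [← YoungM_gz_gzE g' (h - s - gz g a), hB, coeff_tr]
        refine YoungM_coeff_not fun hb => hm ⟨_, hb, ?_⟩
        rw [e3, pt, gz_add, YoungM_gz_gzE]
      simp [this]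
  have k2 := norm_le_of_coeff η0 key
  rw [norm_sh_mul] at k2
  refine ⟨k2.trans (mul_le_mul_of_nonneg_left ?_ η0), k2.trans (mul_le_mul_of_nonneg_left ?_ η0)⟩
  · refine (norm_mul_le_l1 _ _).trans (le_of_eq ?_)
    rw [l1_av, norm_av, hA, hB, l1_tr, norm_tr]
  · refine (norm_mul_le_l1' _ _).trans (le_of_eq ?_)
    rw [l1_av, norm_av, hA, hB, l1_tr, norm_tr]

end

end Pool.Agent.Work.MP_6bf1e5_an.Hyp.Pd
end

-- merged part: Pool.Agent.Work.MP_6bf1e5_an.Hyp.SymbDef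
section
/-!
Symbols which act on the lattice as the damping operator.
-/

open Set Complex
open scoped InnerProductSpace ComplexConjugate Classical
open Pool.Agent.Work.MP_6bf1e5_an.B
open Pool.Agent.Work.MP_6bf1e5_an.Hyp.Dec

namespace Pool.Agent.Work.MP_6bf1e5_an.Hyp

noncomputable section

variable (G : Geo)

/-- The symbol acts on the lattice as `AR`. -/
structure Symb (σ : R3 → M3) : Prop where
  ell : IsSymbol G.α G.Cb σ
  lat : ∀ (k : Z3) (x : E3) (i : Fin 3), ∑ j, σ (Sz.fq k) i j * x j = AR G k x i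

end

end Pool.Agent.Work.MP_6bf1e5_an.Hyp
end

-- merged part: Pool.Agent.Work.MP_6bf1e5_an.Hyp.Symm
section
/-!
Odd symmetric data give a symmetric solution of the real system.
-/

open Set Complex
open scoped InnerProductSpace ComplexConjugate Classical
open Pool.Agent.Work.MP_6bf1e5_an.B
open Pool.Agent.Work.MP_6bf1e5_an.Hyp.Dec

namespace Pool.Agent.Work.MP_6bf1e5_an.Hyp.Pd

noncomputable section

variable {G : Geo}

/-- Multiplication of a real vector by `i`. -/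
def irc : E3 →L[ℝ] C3 :=
  LinearMap.toContinuousLinearMap
    { toFun := fun x => I • rc x
      map_add' := fun u v => by ext i; simp [rc, mul_add]
      map_smul' := fun c v => by ext i; simp [rc, mul_left_comm] }

/-- The imaginary part as a linear map. -/
def imL : C3 →L[ℝ] E3 :=
  LinearMap.toContinuousLinearMap
    { toFun := im3
      map_add' := fun u v => by ext i; simp [im3]
      map_smul' := fun c v => by ext i; simp [im3] }

/-- The action of the group as a linear map. -/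
def geL (g : Gp) : E3 →L[ℝ] E3 :=
  LinearMap.toContinuousLinearMap
    { toFun := ge g
      map_add' := ge_add g
      map_smul' := ge_smul g }

lemma irc_eq (x : E3) : I • rc x = irc x := rfl

lemma irc_apply (x : E3) (i : Fin 3) : irc x i = I * x i := rfl

lemma im3_irc (x : E3) : im3 (irc x) = x := by ext i; simp [im3, irc_apply]

lemma norm_irc (x : E3) : ‖irc x‖ = ‖x‖ := by
  simp [EuclideanSpace.norm_eq, irc_apply]

lemma dt_irc (x : E3) (k : Z3) : dt (irc x) k = I * (⟪xi k, x⟫_ℝ : ℝ) := by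
  rw [dt_eq, inner_E3]
  simp only [irc_apply, xi, Fin.sum_univ_three]
  push_cast; ring

lemma cj_irc (x : E3) : cj (irc x) = -irc x := by ext i; simp [irc_apply]

lemma eq_irc {v : C3} (h : -cj v = v) : v = irc (im3 v) := by
  ext i
  have : -conj (v i) = v i := congrArg (fun z : C3 => z i) h
  have e := congrArg Complex.re this
  simp only [neg_re, conj_re] at e
  apply Complex.ext <;> simp [irc_apply, im3]
  linarith

lemma LP_irc (k : Z3) (x : E3) : LP k (irc x) = irc (lp (xi k) x) := by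
  rw [LP_apply, dt_irc, lp, ← ax_eq_norm]
  ext i
  simp [irc_apply, cxi, xi]
  ring

lemma LP_cj' (k : Z3) (v : C3) : LP k (cj v) = cj (LP k v) := by
  rw [LP_apply, LP_apply, map_sub, cj_smul, cj_cxi, dt_cj, map_mul, map_inv₀, conj_ofReal]

lemma term_irc (β : Z3 → E3) (p q : Z3) :
    (I * dt (irc (β p)) q) • irc (β q) = -irc (tm β β p q) := by
  rw [dt_irc, tm, real_inner_comm, ← mul_assoc, I_mul_I, map_smul, neg_one_mul, neg_smul]
  rfl

lemma Bd_irc {s : ℕ} {β : Z3 → E3} {M : ℝ} : Bd s (fun k => irc (β k)) M ↔ Bd s β M := by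
  simp only [Bd, norm_irc]

lemma symm_summable {β : Z3 → E3} {M : ℝ} (H : Bd 1 β M) (k : Z3) :
    Summable fun p => tm β β p (k - p) := by
  have a := (summable_BB_term ((Bd_irc.mpr H).mono zero_le_one) (Bd_irc.mpr H) k).neg.map imL
    imL.continuous
  refine a.congr fun p => ?_
  simp only [Function.comp_apply, term_irc, neg_neg]
  exact im3_irc _

lemma BB_irc {β : Z3 → E3} {M : ℝ} (H : Bd 1 β M) (k : Z3) :
    BB (fun k => irc (β k)) (fun k => irc (β k)) k = -irc (BR β β k) := by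
  simp only [BB, term_irc, BR, tsum_neg]
  rw [irc.map_tsum (symm_summable H k)]

lemma mL_irc {σ : R3 → M3} (hσ : Symb G σ) (k : Z3) (x : E3) :
    Sz.mL (σ (Sz.fq k)) (irc x) = irc (AR G k x) := by
  ext i
  rw [Sz.mL_apply, irc_apply, ← hσ.lat]
  push_cast
  rw [Finset.mul_sum]
  exact Finset.sum_congr rfl fun j _ => by rw [irc_apply]; ring

lemma FF_irc {σ : R3 → M3} (hσ : Symb G σ) {β : Z3 → E3} {M : ℝ} (H : Bd 1 β M) {k : Z3}
    (dv : ⟪xi k, β k⟫_ℝ = 0) :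
    FF (Sz.AS 1 σ) (fun k => irc (β k)) k = irc (rhs G β k) := by
  have e : ⟪xi k, AR G k (β k)⟫_ℝ = 0 := by
    rw [AR, inner_sub_right, real_inner_smul_right, real_inner_smul_right, dv, inner_xi_Pj]
    ring
  rw [FF, BB_irc H, Sz.AS_apply, Sz.DS_apply, mL_irc hσ, ofReal_one, one_smul, map_neg, neg_neg,
    LP_irc, LP_irc, lp_of_orth e, rhs, map_sub]

lemma FF_theta (σ : R3 → M3) {a : Z3 → C3} {M : ℝ} (H : Bd 1 a M) (k : Z3) :
    FF (Sz.AS 1 σ) (fun k => -cj (a k)) k = -cj (FF (Sz.AS 1 σ) a k) := by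
  have e : BB (fun k => -cj (a k)) (fun k => -cj (a k)) k = -cj (BB a a k) := by
    rw [BB, BB, cj.map_tsum (summable_BB_term (H.mono zero_le_one) H k), ← tsum_neg]
    refine tsum_congr fun p => ?_
    rw [cj_smul, ← neg_one_smul ℂ (cj (a p)), dt_smul_left, dt_cj]
    simp
  rw [FF, FF, e, Sz.AS_apply, Sz.AS_apply, Sz.DS_apply, Sz.DS_apply, ofReal_one, one_smul, one_smul,
    map_neg, map_neg, map_neg, Sz.mL_cj, LP_cj', LP_cj', map_sub, map_neg]
  abel

lemma isSol_theta {σ : R3 → M3} {a : ℝ → Z3 → C3} {T : ℝ} (ha : IsSol (Sz.AS 1 σ) a 0 T) :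
    IsSol (Sz.AS 1 σ) (fun t k => -cj (a t k)) 0 T where
  bd s := (ha.bd s).imp fun M hM t ht => by simpa only [Bd, norm_neg, norm_cj] using hM t ht
  real t ht k := by simp only [ha.real t ht k, map_neg]
  div t ht k := by
    beta_reduce
    rw [← neg_one_smul ℂ (cj (a t k)), dt_smul_left, dt_cj, ha.div t ht k, map_zero, mul_zero]
  deriv k t ht := by
    obtain ⟨M, hM⟩ := ha.bd 1
    rw [FF_theta σ (hM t ht)]
    exact (cj.hasFDerivAt.comp_hasDerivWithinAt t (ha.deriv k t ht)).neg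

lemma gz_gzE (g : Gp) (k : Z3) : gz g (gzE g k) = k := (gzE g).left_inv k

lemma rhs_rot (g : Gp) {β : Z3 → E3} {M : ℝ} (H : Bd 1 β M) (k : Z3) :
    rhs G (fun k => ge g (β (gzE g k))) k = ge g (rhs G β (gzE g k)) := by
  have e : BR (fun k => ge g (β (gzE g k))) (fun k => ge g (β (gzE g k))) k =
      ge g (BR β β (gzE g k)) := by
    refine Eq.trans ?_ ((geL g).map_tsum (symm_summable H (gzE g k))).symm
    rw [BR, ← (gzE g).toEquiv.tsum_eq fun p => geL g (tm β β p (gzE g k - p))]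
    refine tsum_congr fun p => ?_
    change _ = ge g (tm β β (gzE g p) (gzE g k - gzE g p))
    rw [tm, tm, ge_smul, ← map_sub, ← inner_ge g (β (gzE g p)), ← xi_gz, gz_gzE]
  rw [rhs, rhs, e, ge_sub, ← lp_ge, ← AR_gz, ← xi_gz, gz_gzE]

lemma Bd_rot (g : Gp) {s : ℕ} {β : Z3 → E3} {M : ℝ} (H : Bd s β M) :
    Bd s (fun k => ge g (β (gzE g k))) M := fun F => by
  have := H (F.map (gzE g).toEquiv.toEmbedding)
  rw [Finset.sum_map] at this
  refine le_of_eq_of_le (Finset.sum_congr rfl fun k _ => ?_) this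
  change _ = w (gzE g k) ^ s * ‖β (gzE g k)‖
  rw [norm_ge, w, w, ← ax_gz g (gzE g k), gz_gzE]

lemma adm_rhs {σ : R3 → M3} (hσ : Symb G σ) {β : Z3 → E3} (H : Adm β) : Adm (rhs G β) := by
  obtain ⟨M, hM⟩ := H.rapid 1
  refine ⟨fun s => ?_, fun g k => ?_, fun k => ?_⟩
  · obtain ⟨C, m, hC, hg⟩ := (Sz.diss_AS (Sz.wk_of hσ.ell G.α_lo G.α_hi) one_pos).growth
    have rp : Rapid fun k => irc (β k) := fun s => (H.rapid s).imp fun _ h => Bd_irc.mpr h
    obtain ⟨N, hN⟩ := rp (s + 1)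
    obtain ⟨N', hN'⟩ := rp.map hC hg s
    have h : Bd s (fun k => FF (Sz.AS 1 σ) (fun k => irc (β k)) k) _ :=
      (Bd_BB (hN.mono (Nat.le_succ s)) hN).LP.neg.sub hN'
    simp only [fun k => FF_irc hσ hM (H.div k)] at h
    exact ⟨_, Bd_irc.mp h⟩
  · have e := rhs_rot (G := G) g hM (gz g k)
    rw [show (fun k => ge g (β (gzE g k))) = β from funext fun k => by rw [← H.sym, gz_gzE],
      show gzE g (gz g k) = k from (gzE g).right_inv k] at e
    exact e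
  · rw [rhs, AR, inner_sub_right, inner_sub_right, real_inner_smul_right, real_inner_smul_right,
      H.div, inner_xi_Pj, inner_xi_lp]
    ring

lemma Bd_comb {s : ℕ} {β γ : Z3 → E3} {M N c : ℝ} (h : Bd s β M) (h' : Bd s γ N) (hc : 0 ≤ c) :
    Bd s (fun k => β k + c • γ k) (M + c * N) :=
  h.add (Bd.of_growth (m := 0) h' hc fun k => by simp [norm_smul, abs_of_nonneg hc])

/-- A solution on a bounded interval extends to a global solution of the system with a force. -/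
theorem rsol_extend {σ : R3 → M3} (hσ : Symb G σ) {α : ℝ → Z3 → E3} {T : ℝ} (hT : 0 ≤ T)
    (bd : ∀ s : ℕ, ∃ M, ∀ t ∈ Icc 0 T, Bd s (α t) M) (adm : ∀ t ∈ Icc 0 T, Adm (α t))
    (de : ∀ k, ∀ t ∈ Icc 0 T, HasDerivWithinAt (fun t => α t k) (rhs G (α t) k) (Icc 0 T) t) :
    ∃ α', RSol G α' ∧ ∀ t ∈ Icc 0 T, α' t = α t ∧ (rawOf G α').X t = 0 := by
  have TT : T ∈ Icc 0 T := ⟨hT, le_rfl⟩
  have A := adm T TT
  have A' := adm_rhs hσ A
  obtain ⟨α', hα⟩ : ∃ α' : ℝ → Z3 → E3, α' = fun t =>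
      if t ≤ T then α t else fun k => α T k + (t - T) • rhs G (α T) k := ⟨_, rfl⟩
  have e1 : ∀ t, t ≤ T → α' t = α t := fun t h => by rw [hα]; exact if_pos h
  have e2 : ∀ t, T ≤ t → α' t = fun k => α T k + (t - T) • rhs G (α T) k := fun t h => by
    rcases h.eq_or_lt with rfl | h
    · rw [e1 _ le_rfl]; simp
    · rw [hα]; exact if_neg (not_le.2 h)
  have mm : ∀ t, 0 ≤ t → min t T ∈ Icc 0 T := fun t ht => ⟨le_min ht hT, min_le_right _ _⟩
  have ad : ∀ t, 0 ≤ t → Adm (α' t) := fun t ht => by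
    rcases le_total t T with h | h
    · rw [e1 t h]; exact adm t ⟨ht, h⟩
    · rw [e2 t h]
      refine ⟨fun s => ?_, fun g k => ?_, fun k => ?_⟩
      · obtain ⟨M, hM⟩ := A.rapid s
        obtain ⟨N, hN⟩ := A'.rapid s
        exact ⟨_, Bd_comb hM hN (sub_nonneg.2 h)⟩
      · rw [A.sym, A'.sym, ge_add, ge_smul]
      · rw [inner_add_right, real_inner_smul_right, A.div, A'.div]
        ring
  have hd : ∀ k t, 0 ≤ t → HD (fun t => α' t k) (rhs G (α (min t T)) k) t := fun k t ht => by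
    have d1 : t ≤ T → HasDerivWithinAt (fun t => α' t k) (rhs G (α t) k) (Icc 0 T) t := fun h =>
      (de k t ⟨ht, h⟩).congr (fun s hs => by rw [e1 s hs.2]) (by rw [e1 t h])
    have d2 : T ≤ t → HasDerivWithinAt (fun t => α' t k) (rhs G (α T) k) (Ici T) t := fun h => by
      have d := ((((hasDerivAt_id t).sub_const T).smul_const (rhs G (α T) k)).const_add
        (α T k)).hasDerivWithinAt (s := Ici T)
      rw [one_smul] at d
      exact d.congr (fun s hs => by rw [e2 s hs]; rfl) (by rw [e2 t h]; rfl)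
    rcases lt_trichotomy t T with h | rfl | h
    · rw [min_eq_left h.le]
      refine (d1 h.le).mono_of_mem_nhdsWithin ?_
      rw [← Ici_inter_Iic]
      exact inter_mem_nhdsWithin _ (Iic_mem_nhds h)
    · rw [min_self]
      exact ((d1 le_rfl).union (d2 le_rfl)).mono fun s hs =>
        (le_total s t).imp (fun h => ⟨hs, h⟩) id
    · rw [min_eq_right h.le]
      exact (d2 h.le).mono_of_mem_nhdsWithin (mem_nhdsWithin_of_mem_nhds (Ici_mem_nhds h))
  have fr : ∀ t, 0 ≤ t → frc G α' t = fun k => rhs G (α (min t T)) k - rhs G (α' t) k :=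
    fun t ht => funext fun k => by rw [frc, (hd k t ht).derivWithin (uniqueDiffOn_Ici 0 t ht)]
  refine ⟨α', ⟨fun s T' => ?_, ad, fun k t ht => ?_, fun t ht => ?_, fun t ht k => ?_⟩,
    fun t ht => ⟨e1 t ht.2, ?_⟩⟩
  · obtain ⟨M, hM⟩ := bd s
    obtain ⟨N, hN⟩ := A'.rapid s
    refine ⟨M + T' * N, fun t ht => ?_⟩
    have N0 := hN.nonneg
    rcases le_total t T with h | h
    · rw [e1 t h]
      exact (hM t ⟨ht.1, h⟩).mono_right (le_add_of_nonneg_right (mul_nonneg (ht.1.trans ht.2) N0))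
    · rw [e2 t h]
      exact (Bd_comb (hM T TT) hN (sub_nonneg.2 h)).mono_right
        (add_le_add le_rfl (mul_le_mul_of_nonneg_right (by linarith [ht.2]) N0))
  · rw [fr t ht, add_sub_cancel]
    exact hd k t ht
  · obtain ⟨M, hM⟩ := (adm_rhs hσ (adm _ (mm t ht))).rapid 0
    obtain ⟨N, hN⟩ := (adm_rhs hσ (ad t ht)).rapid 0
    rw [fr t ht]
    exact (hM.sub hN).summable_norm
  · rw [fr t ht, inner_sub_right, (adm_rhs hσ (adm _ (mm t ht))).div, (adm_rhs hσ (ad t ht)).div,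
      sub_self]
  · change ∑' k, ‖frc G α' t k‖ = 0
    rw [fr t ht.1, min_eq_left ht.2, e1 t ht.2]
    simp

theorem rsol_of_isSol {σ : R3 → M3} (hσ : Symb G σ) {β : Z3 → E3} (hβ : Adm β)
    {a : ℝ → Z3 → C3} (h0 : a 0 = fun k => I • rc (β k)) {T : ℝ} (hT : 0 ≤ T)
    (ha : IsSol (Sz.AS 1 σ) a 0 T) : ∃ α, RSol G α ∧ α 0 = β ∧
      ∀ t ∈ Icc 0 T, (rawOf G α).X t = 0 ∧ (rawOf G α).U t = ∑' k, ‖a t k‖ := by
  have hA := Sz.diss_AS (Sz.wk_of hσ.ell G.α_lo G.α_hi) one_pos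
  have i0 : (fun k => im3 (a 0 k)) = β := by
    funext k
    rw [h0]; exact im3_irc _
  set α : ℝ → Z3 → E3 := fun t k => im3 (a t k) with hα
  have odd : ∀ t ∈ Icc 0 T, a t = fun k => irc (α t k) := fun t ht => by
    have := (isSol_theta ha).unique hA ha (by
      funext k
      simp only [h0, irc_eq, cj_irc, neg_neg]) t ht
    funext k
    exact eq_irc (congrFun this k)
  have bd : ∀ s : ℕ, ∃ M, ∀ t ∈ Icc 0 T, Bd s (α t) M := fun s =>
    (ha.bd s).imp fun M hM t ht => Bd_irc.mp (odd t ht ▸ hM t ht)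
  have dv : ∀ t ∈ Icc 0 T, ∀ k, ⟪xi k, α t k⟫_ℝ = 0 := fun t ht k => by
    have := ha.div t ht k
    rw [odd t ht, dt_irc] at this
    exact_mod_cast (mul_eq_zero.mp this).resolve_left I_ne_zero
  have ng : ∀ t ∈ Icc 0 T, ∀ k, α t (-k) = -α t k := fun t ht k => by
    have := ha.real t ht k
    rw [odd t ht] at this
    simp only [cj_irc, ← map_neg] at this
    rw [← im3_irc (α t (-k)), this, im3_irc]
  have de : ∀ k, ∀ t ∈ Icc 0 T, HasDerivWithinAt (fun t => α t k) (rhs G (α t) k) (Icc 0 T) t :=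
    fun k t ht => by
      obtain ⟨M, hM⟩ := bd 1
      have := imL.hasFDerivAt.comp_hasDerivWithinAt t (ha.deriv k t ht)
      rw [odd t ht, FF_irc hσ (hM t ht) (dv t ht k)] at this
      exact this.congr_deriv (im3_irc _)
  have rot : ∀ g, IsSol (Sz.AS 1 σ) (fun t k => irc (ge g (α t (gzE g k)))) 0 T := fun g =>
    { bd := fun s => (bd s).imp fun M hM t ht => Bd_irc.mpr (Bd_rot g (hM t ht))
      real := fun t ht k => by
        simp only [map_neg, ng t ht, cj_irc]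
        rw [← map_neg]
        exact congrArg _ (map_neg (geL g) _)
      div := fun t ht k => by
        have := dv t ht (gzE g k)
        rw [← inner_ge g, ← xi_gz, gz_gzE] at this
        rw [dt_irc, this, ofReal_zero, mul_zero]
      deriv := fun k t ht => by
        obtain ⟨M, hM⟩ := bd 1
        have := dv t ht (gzE g k)
        rw [← inner_ge g, ← xi_gz, gz_gzE] at this
        rw [FF_irc hσ (β := fun k => ge g (α t (gzE g k))) (Bd_rot g (hM t ht)) this,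
          rhs_rot g (hM t ht)]
        exact (irc.comp (geL g)).hasFDerivAt.comp_hasDerivWithinAt t (de _ t ht) }
  obtain ⟨α', H, e⟩ := rsol_extend hσ hT bd (fun t ht =>
    ⟨fun s => (bd s).imp fun M hM => hM t ht, fun g k => by
      have := (rot g).unique hA ha (by
        funext k
        have e : α 0 = β := i0
        rw [h0, e, ← hβ.sym, gz_gzE]; rfl) t ht
      have e := congrArg im3 (congrFun this (gz g k))
      rw [im3_irc, show gzE g (gz g k) = k from (gzE g).right_inv k] at e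
      exact e.symm, dv t ht⟩) de
  refine ⟨α', H, (e 0 ⟨le_rfl, hT⟩).1.trans i0, fun t ht => ⟨(e t ht).2, ?_⟩⟩
  change ∑' k, ‖α' t k‖ = _
  rw [(e t ht).1, odd t ht]
  simp only [norm_irc]

lemma isReal_of_adm {β : Z3 → E3} (hβ : Adm β) : IsReal fun k => I • rc (β k) := fun k => by
  simp only [irc_eq]
  rw [← gz_neg_one, hβ.sym, ge_neg_one, map_neg, cj_irc]

lemma divFree_of_adm {β : Z3 → E3} (hβ : Adm β) : DivFree fun k => I • rc (β k) := fun k => by
  simp only [irc_eq]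
  rw [dt_irc, hβ.div, ofReal_zero, mul_zero]

end

end Pool.Agent.Work.MP_6bf1e5_an.Hyp.Pd
end
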