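import Pool.Agent.Work.MP_6bf1e5_an.Hyp.Duh
import Pool.Agent.Work.MP_6bf1e5_an.Hyp.Symm

-- merged part: Pool.Agent.Work.MP_6bf1e5_an.Hyp.Norms
section
/-!
Norms of the active part in terms of the envelopes.
-/

open Set Complex
open scoped InnerProductSpace ComplexConjugate Classical
open Pool.Agent.Work.MP_6bf1e5_an.B
open Pool.Agent.Work.MP_6bf1e5_an.Hyp.Dec

namespace Pool.Agent.Work.MP_6bf1e5_an.Hyp.Pd

noncomputable section

attribute [local irreducible] Fam.S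

variable {G : Geo} {α : ℝ → Z3 → E3} {t : ℝ}

lemma Norms_tooth_unique {F : Fam} (hF : F.ok G) {x x' h : Z3} (hx : x ∈ F.cens G)
    (hx' : x' ∈ F.cens G) (a : h - x ∈ bx (F.rad G)) (a' : h - x' ∈ bx (F.rad G)) : x = x' := by
  refine (sep hF hF (g := g1) (g' := g1) hx hx' fun i => ?_).2.2
  have b := mem_bx.1 a i
  have b' := mem_bx.1 a' i
  have e : i - g1.1 = i := sub_zero i
  rw [pt_g1, pt_g1, e]
  simp only [Pi.add_apply, Pi.sub_apply, abs_le] at b b' ⊢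
  push_cast
  rw [abs_lt]
  constructor <;> omega

lemma Norms_comb {F : Fam} (hF : F.ok G) (J : ℕ) (hc : F.cens G = Finset.univ.image (G.off J))
    (β : Z3 → E3) : env G F β =
      ∑ o, (G.om o : ℂ) • (sh (G.off J o) * tooth G F (G.off J o) (G.om o) β) := by
  ext h
  have key : ∀ o, ((G.om o : ℂ) • (sh (G.off J o) * tooth G F (G.off J o) (G.om o) β)).coeff h =
      if h - G.off J o ∈ bx (F.rad G) then ((⟪F.e G, β (F.ctr G + h)⟫_ℝ : ℝ) : ℂ) else 0 := by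
    intro o
    have ho : (G.om o : ℂ) ≠ 0 := by
      have := (om_bounds G o).1
      exact_mod_cast (by linarith : G.om o ≠ 0)
    rw [AddMonoidAlgebra.coeff_smul, Finsupp.smul_apply, coeff_sh_mul, tooth, coeff_mk,
      add_sub_cancel]
    split_ifs
    · push_cast
      rw [smul_eq_mul, mul_inv_cancel_left₀ ho]
    · simp
  have mem : ∀ o, G.off J o ∈ F.cens G := fun o => by rw [hc]; simp
  rw [AddMonoidAlgebra.coeff_sum, Finsupp.finsetSum_apply, env, coeff_mk]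
  simp only [key]
  split_ifs with hh
  · obtain ⟨x, hx, a⟩ := mem_S.1 hh
    rw [hc] at hx
    obtain ⟨o, -, rfl⟩ := Finset.mem_image.1 hx
    rw [Finset.sum_eq_single o, if_pos a]
    · intro o' _ ne
      exact if_neg fun a' => ne (off_injective J (Norms_tooth_unique hF (mem o') (mem o) a' a))
    · simp
  · exact (Finset.sum_eq_zero fun o _ => if_neg fun a => hh (mem_S.2 ⟨_, mem o, a⟩)).symm

lemma env_b (j : ℕ) : env G (.b j) (α t) = (rawOf G α).B G j t := by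
  exact Norms_comb (F := .b j) trivial j rfl (α t)

lemma env_c (j : ℕ) : env G (.c j) (α t) = (rawOf G α).Cc G (j + 1) t := by
  exact Norms_comb (F := .c j) trivial (j + 1) rfl (α t)

lemma env_y {j i : ℕ} (h1 : 1 ≤ i) (h2 : i ≤ G.La) :
    env G (.y j i) (α t) = (rawOf G α).y j i t := by
  simp only [rawOf]
  rw [if_neg (by omega), if_pos h2]

lemma y_zero (j : ℕ) : (rawOf G α).y j 0 t = (rawOf G α).A G j t := by
  rw [Raw.A, ← env_b]
  rfl

lemma lev_nonneg (j : ℕ) : 0 ≤ (rawOf G α).lev j t := Real.sqrt_nonneg _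

lemma ch_nonneg (j : ℕ) : 0 ≤ (rawOf G α).ch G j t := Real.sqrt_nonneg _

lemma Norms_om (o : Fin 4) : ‖(((rawOf G α).om o : ℝ) : ℂ)‖ ≤ 9 := by
  have := om_bounds G o
  change ‖((G.om o : ℝ) : ℂ)‖ ≤ 9
  rw [Complex.norm_real, Real.norm_eq_abs, abs_le]
  constructor <;> linarith

lemma Norms_comb_norm (j : ℕ) (g : Fin 4 → V) :
    ‖(rawOf G α).comb G j g‖ ≤ 9 * ∑ o, ‖g o‖ := by
  rw [Finset.mul_sum]
  refine norm_sum_le_of_le _ fun o _ => ?_
  rw [norm_smul, norm_sh_mul]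
  exact mul_le_mul_of_nonneg_right (Norms_om o) (norm_nonneg _)

lemma Norms_comb_l1 (j : ℕ) {n : N3} {g : Fin 4 → V} (hg : ∀ o, Sp n (g o)) :
    l1 ((rawOf G α).comb G j g) ≤ 27 * Nn n * ∑ o, ‖g o‖ := by
  rw [Finset.mul_sum]
  refine (l1_sum_le _ _).trans (Finset.sum_le_sum fun o _ => ?_)
  rw [l1_smul, l1_sh_mul]
  have := mul_le_mul (Norms_om (G := G) (α := α) o) (hg o).l1_le (l1_nonneg _) (by norm_num)
  linarith

lemma Norms_sq4 (a : Fin 4 → ℝ) : (∑ o, a o) ^ 2 ≤ 4 * ∑ o, a o ^ 2 := by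
  simpa using sq_sum_le_card_mul_sum_sq (s := Finset.univ) (f := a)

lemma Norms_lev_sq (j : ℕ) : (rawOf G α).lev j t ^ 2 =
    ∑ o, ‖(rawOf G α).b j o t‖ ^ 2 + ∑ o, ‖(rawOf G α).c j o t‖ ^ 2 := by
  rw [Raw.lev, Real.sq_sqrt (by positivity), Finset.sum_add_distrib]

lemma Norms_sum_b (j : ℕ) : ∑ o, ‖(rawOf G α).b j o t‖ ≤ 2 * (rawOf G α).lev j t := by
  refine le_of_sq_le_sq ?_ (mul_nonneg zero_le_two (lev_nonneg j))
  have := Norms_sq4 fun o => ‖(rawOf G α).b j o t‖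
  have h : 0 ≤ ∑ o, ‖(rawOf G α).c j o t‖ ^ 2 := by positivity
  rw [mul_pow, Norms_lev_sq]
  linarith

lemma Norms_sum_c (j : ℕ) : ∑ o, ‖(rawOf G α).c j o t‖ ≤ 2 * (rawOf G α).lev j t := by
  refine le_of_sq_le_sq ?_ (mul_nonneg zero_le_two (lev_nonneg j))
  have := Norms_sq4 fun o => ‖(rawOf G α).c j o t‖
  have h : 0 ≤ ∑ o, ‖(rawOf G α).b j o t‖ ^ 2 := by positivity
  rw [mul_pow, Norms_lev_sq]
  linarith

lemma Norms_nl (j : ℕ) : 0 ≤ (rawOf G α).nl G j t :=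
  mul_nonneg (Nn_pos _).le (lev_nonneg j)

lemma Norms_ny (j : ℕ) : 0 ≤ (rawOf G α).ny G j t :=
  mul_nonneg (Nn_pos _).le (mul_nonneg (pow_nonneg (Nat.cast_nonneg _) _) (ch_nonneg j))

lemma norm_B_le (j : ℕ) : ‖(rawOf G α).B G j t‖ ≤ 18 * (rawOf G α).lev j t := by
  refine (Norms_comb_norm _ _).trans ?_
  linarith [Norms_sum_b (G := G) (α := α) (t := t) j]

lemma norm_Cc_le (j : ℕ) : ‖(rawOf G α).Cc G j t‖ ≤ 18 * (rawOf G α).lev j t := by
  refine (Norms_comb_norm _ _).trans ?_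
  linarith [Norms_sum_c (G := G) (α := α) (t := t) j]

lemma normsq_B_Cc (j : ℕ) : ‖(rawOf G α).B G j t‖ ^ 2 + ‖(rawOf G α).Cc G j t‖ ^ 2 ≤
    324 * (rawOf G α).lev j t ^ 2 := by
  have a := pow_le_pow_left₀ (norm_nonneg _)
    (Norms_comb_norm (G := G) (α := α) j fun o => (rawOf G α).b j o t) 2
  have b := pow_le_pow_left₀ (norm_nonneg _)
    (Norms_comb_norm (G := G) (α := α) j fun o => (rawOf G α).c j o t) 2
  have a' := Norms_sq4 fun o => ‖(rawOf G α).b j o t‖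
  have b' := Norms_sq4 fun o => ‖(rawOf G α).c j o t‖
  rw [mul_pow] at a b
  rw [Norms_lev_sq, Raw.B, Raw.Cc]
  linarith

lemma l1_B_le (j : ℕ) : l1 ((rawOf G α).B G j t) ≤ 54 * (rawOf G α).nl G j t := by
  have sp : ∀ o, Sp (G.rb j) ((rawOf G α).b j o t) := fun o => sp_mk _ _
  refine (Norms_comb_l1 j sp).trans ?_
  have := mul_le_mul_of_nonneg_left (Norms_sum_b (G := G) (α := α) (t := t) j)
    (Nn_pos (G.rb j)).le
  rw [Raw.nl, Geo.N]
  linarith

lemma l1_Cc_le (j : ℕ) : l1 ((rawOf G α).Cc G j t) ≤ 108 * (rawOf G α).nl G j t := by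
  have sp : ∀ o, Sp (G.rc j) ((rawOf G α).c j o t) := fun o => by
    rcases j with _ | j
    · exact sp_zero _
    · exact sp_mk _ _
  refine (Norms_comb_l1 j sp).trans ?_
  have := mul_le_mul (Nn_rc G j) (Norms_sum_c (G := G) (α := α) (t := t) j) (by positivity)
    (by linarith [N_pos G j])
  rw [Raw.nl]
  linarith

lemma Norms_sum_Pt (F : Fam) (g : Gp) {u : Z3 → ℝ} (h0 : ∀ k, 0 ≤ u k)
    (hz : ∀ k, k ∉ Pt G F g → u k = 0) (K : Finset Z3) :
    ∑ k ∈ K, u k ≤ ∑ h ∈ F.S G, u (pt G F g h) := by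
  have inj : Function.Injective (pt G F g) := fun a b e => add_left_cancel (gz_injective g e)
  rw [← Finset.sum_image (f := u) fun a _ b _ e => inj e,
    ← Finset.sum_filter_ne_zero K]
  refine Finset.sum_le_sum_of_subset_of_nonneg (fun k hk => ?_) fun k _ _ => h0 k
  by_contra c
  refine (Finset.mem_filter.1 hk).2 (hz k ?_)
  rintro ⟨h, hh, rfl⟩
  exact c (Finset.mem_image_of_mem _ hh)

lemma Norms_nb_pt {β : Z3 → E3} (H : Adm β) {F : Fam} (hF : F.ok G) (g : Gp) {h : Z3}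
    (hh : h ∈ F.S G) : nb (act G β) (Pt G F g) (pt G F g h) ≤ 2 * ‖(env G F β).coeff h‖ := by
  rw [nb, Set.indicator_of_mem (show pt G F g h ∈ Pt G F g from ⟨h, hh, rfl⟩), act_pt H hF g hh,
    coeff_env β hh, norm_smul, Complex.norm_real, mul_comm]
  exact mul_le_mul_of_nonneg_right (norm_uv_le hF g hh) (norm_nonneg _)

lemma L2_Pt {β : Z3 → E3} (H : Adm β) {F : Fam} (hF : F.ok G) (g : Gp) :
    L2 (nb (act G β) (Pt G F g)) (2 * ‖env G F β‖) := by
  refine ⟨by positivity, fun K => ?_⟩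
  refine (Norms_sum_Pt (G := G) F g (fun k => sq_nonneg _)
    (fun k hk => by simp [nb, hk]) K).trans ?_
  have := sum_sq_le (env G F β) (F.S G)
  rw [mul_pow]
  refine le_trans ?_ (mul_le_mul_of_nonneg_left this (by norm_num))
  rw [Finset.mul_sum]
  refine Finset.sum_le_sum fun h hh => ?_
  rw [← mul_pow]
  exact pow_le_pow_left₀ (nb_nonneg _ _ _) (Norms_nb_pt H hF g hh) 2

lemma L1_Pt {β : Z3 → E3} (H : Adm β) {F : Fam} (hF : F.ok G) (g : Gp) :
    L1 (nb (act G β) (Pt G F g)) (2 * l1 (env G F β)) := by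
  intro K
  refine (Norms_sum_Pt (G := G) F g (nb_nonneg _ _) (fun k hk => by simp [nb, hk]) K).trans ?_
  refine le_trans ?_ (mul_le_mul_of_nonneg_left (sum_le_l1 (env G F β) (F.S G)) (by norm_num))
  rw [Finset.mul_sum]
  exact Finset.sum_le_sum fun h hh => Norms_nb_pt H hF g hh

lemma Norms_card_Gp : (Finset.univ : Finset Gp).card = 6 := by decide

lemma Norms_L2_Orb {β : Z3 → E3} (H : Adm β) {F : Fam} (hF : F.ok G) :
    L2 (nb (act G β) (Orb G F)) (5 * ‖env G F β‖) := by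
  refine (L2.biUnion Finset.univ (fun g _ => L2_Pt H hF g) (U := Orb G F)
    fun k ⟨g, hk⟩ => ⟨g, Finset.mem_univ _, hk⟩).mono ?_
  rw [Finset.sum_const, Norms_card_Gp, Real.sqrt_le_left (by positivity), nsmul_eq_mul]
  push_cast
  linarith [sq_nonneg ‖env G F β‖]

lemma Norms_L1_Orb {β : Z3 → E3} (H : Adm β) {F : Fam} (hF : F.ok G) :
    L1 (nb (act G β) (Orb G F)) (12 * l1 (env G F β)) := by
  refine (L1.biUnion Finset.univ (fun g _ => L1_Pt H hF g) (U := Orb G F)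
    fun k ⟨g, hk⟩ => ⟨g, Finset.mem_univ _, hk⟩).mono ?_
  rw [Finset.sum_const, Norms_card_Gp, nsmul_eq_mul]
  push_cast
  linarith

lemma Norms_L2_union {β : Z3 → E3} {W W' : Set Z3} {X Y : ℝ} (h : L2 (nb β W) X)
    (h' : L2 (nb β W') Y) : L2 (nb β (W ∪ W')) (√(X ^ 2 + Y ^ 2)) := by
  have := L2.biUnion (β := β) (Finset.univ : Finset Bool) (W := fun b => cond b W W')
    (X := fun b => cond b X Y) (fun b _ => by cases b; exacts [h', h]) (U := W ∪ W')
    fun k hk => hk.elim (fun a => ⟨true, Finset.mem_univ _, a⟩)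
      fun a => ⟨false, Finset.mem_univ _, a⟩
  simpa using this

lemma L2_Lev (H : Adm (α t)) (j : ℕ) :
    L2 (nb (act G (α t)) (Lev G j)) (100 * (rawOf G α).lev j t) := by
  have a := normsq_B_Cc (G := G) (α := α) (t := t) j
  have l := lev_nonneg (G := G) (α := α) (t := t) j
  rcases j with _ | j
  · refine (Norms_L2_Orb H (F := .b 0) trivial).mono ?_
    rw [env_b]
    linarith [norm_B_le (G := G) (α := α) (t := t) 0]
  · refine (Norms_L2_union (Norms_L2_Orb H (F := .b (j + 1)) trivial)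
      (Norms_L2_Orb H (F := .c j) trivial)).mono ?_
    rw [env_b, env_c, Real.sqrt_le_left (by positivity)]
    linarith [sq_nonneg ((rawOf G α).lev (j + 1) t)]

lemma L1_Lev (H : Adm (α t)) (j : ℕ) :
    L1 (nb (act G (α t)) (Lev G j)) (2000 * (rawOf G α).nl G j t) := by
  have a := l1_B_le (G := G) (α := α) (t := t) j
  have b := l1_Cc_le (G := G) (α := α) (t := t) j
  have l := Norms_nl (G := G) (α := α) (t := t) j
  rcases j with _ | j
  · refine (Norms_L1_Orb H (F := .b 0) trivial).mono ?_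
    rw [env_b]
    linarith
  · refine ((Norms_L1_Orb H (F := .b (j + 1)) trivial).union
      (Norms_L1_Orb H (F := .c j) trivial)).mono ?_
    rw [env_b, env_c]
    linarith

lemma Norms_ch_sq (j : ℕ) : (rawOf G α).ch G j t ^ 2 =
    ∑ i ∈ Finset.Icc 1 G.La, ‖env G (.y j i) (α t)‖ ^ 2 := by
  rw [Raw.ch, Real.sq_sqrt (by positivity)]
  exact Finset.sum_congr rfl fun i hi => by
    rw [env_y (Finset.mem_Icc.1 hi).1 (Finset.mem_Icc.1 hi).2]

lemma L2_Lad (H : Adm (α t)) (j : ℕ) :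
    L2 (nb (act G (α t)) (LadS G j)) (10 * (rawOf G α).ch G j t) := by
  refine (L2.biUnion (Finset.Icc 1 G.La) (W := fun i => Orb G (.y j i))
    (fun i hi => Norms_L2_Orb H (F := .y j i) (Finset.mem_Icc.1 hi)) (U := LadS G j)
    fun k ⟨i, a, b, hk⟩ => ⟨i, Finset.mem_Icc.2 ⟨a, b⟩, hk⟩).mono ?_
  have c := ch_nonneg (G := G) (α := α) (t := t) j
  rw [Real.sqrt_le_left (by positivity), mul_pow, Norms_ch_sq, Finset.mul_sum]
  refine Finset.sum_le_sum fun i hi => ?_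
  linarith [sq_nonneg ‖env G (.y j i) (α t)‖]

lemma L1_Lad (H : Adm (α t)) (j : ℕ) :
    L1 (nb (act G (α t)) (LadS G j)) (10 * (rawOf G α).ny G j t) := by
  refine (L1.biUnion (Finset.Icc 1 G.La) (W := fun i => Orb G (.y j i))
    (fun i hi => Norms_L1_Orb H (F := .y j i) (Finset.mem_Icc.1 hi)) (U := LadS G j)
    fun k ⟨i, a, b, hk⟩ => ⟨i, Finset.mem_Icc.2 ⟨a, b⟩, hk⟩).mono ?_
  have c := ch_nonneg (G := G) (α := α) (t := t) j
  have a1 : ∑ i ∈ Finset.Icc 1 G.La, ‖env G (.y j i) (α t)‖ ≤ √G.La * (rawOf G α).ch G j t := by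
    refine le_of_sq_le_sq ?_ (by positivity)
    rw [mul_pow, Real.sq_sqrt (Nat.cast_nonneg _), Norms_ch_sq]
    simpa using sq_sum_le_card_mul_sum_sq (s := Finset.Icc 1 G.La)
      (f := fun i => ‖env G (.y j i) (α t)‖)
  have a2 : ∑ i ∈ Finset.Icc 1 G.La, 12 * l1 (env G (.y j i) (α t)) ≤
      36 * Nn (G.ry j) * ∑ i ∈ Finset.Icc 1 G.La, ‖env G (.y j i) (α t)‖ := by
    rw [Finset.mul_sum]
    refine Finset.sum_le_sum fun i _ => ?_
    have sp : Sp (G.ry j) (env G (.y j i) (α t)) := by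
      rw [env, S_y]
      exact sp_mk _ _
    linarith [sp.l1_le]
  have a3 := mul_le_mul_of_nonneg_left a1 (Nn_pos (G.ry j)).le
  have a4 := mul_le_mul_of_nonneg_right (Nn_ry' G j) c
  have a5 := Norms_ny (G := G) (α := α) (t := t) j
  rw [Raw.ny] at a5 ⊢
  linarith

lemma Norms_L1_both (H : Adm (α t)) (j : ℕ) :
    L1 (nb (act G (α t)) (Lev G j ∪ LadS G j)) (2000 * (rawOf G α).nu G j t) := by
  refine ((L1_Lev H j).union (L1_Lad H j)).mono ?_
  rw [Raw.nu]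
  linarith [Norms_ny (G := G) (α := α) (t := t) j]

lemma L1_LowS (H : Adm (α t)) (j : ℕ) :
    L1 (nb (act G (α t)) (LowS G j)) (2000 * (rawOf G α).Low G j t) := by
  refine (L1.biUnion (Finset.range (j + 1 - G.kk)) (W := fun i => Lev G i ∪ LadS G i)
    (fun i _ => Norms_L1_both H i) (U := LowS G j)
    fun k ⟨i, a, hk⟩ => ⟨i, Finset.mem_range.2 a, hk⟩).mono (le_of_eq ?_)
  rw [Raw.Low, Raw.LowL, Raw.LowY, ← Finset.sum_add_distrib, Finset.mul_sum]
  rfl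

lemma L1_LowYS (H : Adm (α t)) (j : ℕ) :
    L1 (nb (act G (α t)) (LowYS G j)) (10 * (rawOf G α).LowY G j t) := by
  refine (L1.biUnion (Finset.range (j + 1 - G.kk)) (W := fun i => LadS G i)
    (fun i _ => L1_Lad H i) (U := LowYS G j)
    fun k ⟨i, a, hk⟩ => ⟨i, Finset.mem_range.2 a, hk⟩).mono (le_of_eq ?_)
  rw [Raw.LowY, Finset.mul_sum]

lemma Norms_nb_le (β : Z3 → E3) (W : Set Z3) (k : Z3) : nb β W k ≤ ‖β k‖ :=
  Set.indicator_le_self' (fun _ _ => norm_nonneg _) k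

lemma L2_Tail (H : Adm (α t)) (i : ℕ) :
    L2 (nb (act G (α t)) (Tail G i)) (√((rawOf G α).ET i t)) := by
  obtain ⟨M, hM⟩ := (adm_act (G := G) H).rapid 0
  refine L2_tsum (Summable.of_nonneg_of_le (fun k => sq_nonneg _) (fun k => ?_)
    (hM.summable_norm.mul_left M))
  rw [pow_two]
  exact mul_le_mul ((Norms_nb_le _ _ k).trans (hM.norm_le k)) (Norms_nb_le _ _ k)
    (nb_nonneg _ _ _) hM.nonneg

lemma Norms_exh {U : Set Z3} {P : ℕ → Z3 → Prop} (h : ∀ k ∈ U, ∃ j, P j k) (Φ : Finset Z3) :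
    ∃ M, ∀ k ∈ U ∩ Φ, ∃ j < M, P j k := by
  choose! f hf using h
  exact ⟨Φ.sup f + 1, fun k hk => ⟨f k, Nat.lt_succ_of_le (Finset.le_sup hk.2), hf k hk.1⟩⟩

lemma Norms_act {β : Z3 → E3} {k : Z3} (h : act G β k ≠ 0) : ∃ j, k ∈ Lev G j ∪ LadS G j := by
  obtain ⟨F, g, hF, hk⟩ := exists_pt h
  rcases F with j | j | ⟨j, i⟩
  · refine ⟨j, Or.inl ?_⟩
    rcases j with _ | j
    · exact ⟨g, hk⟩
    · exact Or.inl ⟨g, hk⟩
  · exact ⟨j + 1, Or.inl (Or.inr ⟨g, hk⟩)⟩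
  · exact ⟨j, Or.inr ⟨i, hF.1, hF.2, g, hk⟩⟩

lemma Norms_nb_supp {β γ : Z3 → E3} {Φ : Finset Z3} {k : Z3} (e : β k = 0 → γ k = 0)
    (hk : k ∈ Φ) : nb γ ({k | β k ≠ 0} ∩ Φ) k = ‖γ k‖ := by
  by_cases h : β k = 0
  · rw [nb, Set.indicator_of_notMem fun a => a.1 h, e h, norm_zero]
  · exact Set.indicator_of_mem (show k ∈ {k | β k ≠ 0} ∩ (Φ : Set Z3) from ⟨h, hk⟩) _

lemma Norms_split (β : Z3 → E3) (k : Z3) : ‖β k‖ ≤ ‖act G β k‖ + ‖jnk G β k‖ := by
  refine le_trans (le_of_eq ?_) (norm_add_le _ _)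
  rw [jnk, add_sub_cancel]

lemma Norms_ax {j : ℕ} {k : Z3} (h : k ∈ Lev G j ∪ LadS G j) :
    ax k ≤ 11 / 10 * G.lam (j + 1) := by
  have key : ∀ F : Fam, F.ok G → k ∈ Orb G F → ax k ≤ 11 / 10 * G.lam (F.ix + 1) := by
    rintro F hF ⟨g, h, hh, rfl⟩
    rw [pt, ax_gz]
    exact ax_hi hF hh
  rcases h with h | ⟨i, a, b, h⟩
  · rcases j with _ | j
    · exact key (.b 0) trivial h
    · rcases h with h | h
      · exact key (.b (j + 1)) trivial h
      · refine (key (.c j) trivial h).trans ?_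
        have a := G.one_le_L
        have b := lam_pos G (j + 1)
        rw [lam_succ G (j + 1)]
        change 11 / 10 * G.lam (j + 1) ≤ _
        nlinarith only [a, b]
  · exact key (.y j i) ⟨a, b⟩ h

lemma Norms_L2_scale {f g : Z3 → ℝ} {X c : ℝ} (h : L2 f X) (hc : 0 ≤ c) (g0 : ∀ k, 0 ≤ g k)
    (H : ∀ k, g k ≤ c * f k) : L2 g (c * X) := by
  refine ⟨mul_nonneg hc h.1, fun K => ?_⟩
  rw [mul_pow]
  refine le_trans ?_ (mul_le_mul_of_nonneg_left (h.2 K) (sq_nonneg c))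
  rw [Finset.mul_sum]
  refine Finset.sum_le_sum fun k _ => ?_
  rw [← mul_pow]
  exact pow_le_pow_left₀ (g0 k) (H k) 2

theorem U_le (H : Adm (α t)) {K : ℝ}
    (hK : ∀ M, ∑ j ∈ Finset.range M, (rawOf G α).nu G j t ≤ K) :
    (rawOf G α).U t ≤ 10 ^ 4 * K + (rawOf G α).Fj t := by
  have K0 : 0 ≤ K := by simpa using hK 0
  have a : L1 (fun k => ‖act G (α t) k‖) (10 ^ 4 * K) := fun Φ => by
    obtain ⟨M, hM⟩ := Norms_exh (U := {k | act G (α t) k ≠ 0})
      (P := fun j k => k ∈ Lev G j ∪ LadS G j) (fun k hk => Norms_act hk) Φ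
    have b := L1.biUnion (Finset.range M) (W := fun i => Lev G i ∪ LadS G i)
      (fun i _ => Norms_L1_both H i) (U := {k | act G (α t) k ≠ 0} ∩ Φ)
      (fun k hk => by simpa only [Finset.mem_range] using hM k hk) Φ
    rw [← Finset.mul_sum, Finset.sum_congr rfl fun k hk => Norms_nb_supp id hk] at b
    linarith [hK M]
  obtain ⟨M, hM⟩ := (adm_jnk (G := G) H).rapid 0
  have b := L1_tsum (fun k => norm_nonneg _) hM.summable_norm
  refine (L1.tsum_le (fun k => norm_nonneg _) ((a.add b).of_le fun k => ?_)).2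
  exact Norms_split _ k

theorem H_le (H : Adm (α t)) {K : ℝ} (hK : ∀ M, ∑ j ∈ Finset.range M,
    G.lam (j + 1) * ((rawOf G α).lev j t + (rawOf G α).ch G j t) ≤ K) :
    (rawOf G α).H t ≤ 10 ^ 4 * K + (rawOf G α).Hj t := by
  have K0 : 0 ≤ K := by simpa using hK 0
  have nm : ∀ k, ‖ax k • act G (α t) k‖ = ax k * ‖act G (α t) k‖ := fun k => by
    rw [norm_smul, Real.norm_of_nonneg (ax_nonneg k)]
  have c : ∀ j, L2 (nb (fun k => ax k • act G (α t) k) (Lev G j ∪ LadS G j))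
      (110 * (G.lam (j + 1) * ((rawOf G α).lev j t + (rawOf G α).ch G j t))) := fun j => by
    have l := lam_pos G (j + 1)
    refine (Norms_L2_scale ((L2_Lev (G := G) H j).union (L2_Lad H j)) (c := 11 / 10 * G.lam (j + 1))
      (by linarith) (nb_nonneg _ _) fun k => ?_).mono ?_
    · by_cases hk : k ∈ Lev G j ∪ LadS G j
      · rw [nb, nb, Set.indicator_of_mem hk, Set.indicator_of_mem hk, nm]
        exact mul_le_mul_of_nonneg_right (Norms_ax hk) (norm_nonneg _)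
      · rw [nb, nb, Set.indicator_of_notMem hk, Set.indicator_of_notMem hk, mul_zero]
    · linarith [mul_nonneg (by linarith : 0 ≤ G.lam (j + 1))
        (ch_nonneg (G := G) (α := α) (t := t) j)]
  have a : L2 (fun k => ax k * ‖act G (α t) k‖) (10 ^ 4 * K) := ⟨by positivity, fun Φ => by
    obtain ⟨M, hM⟩ := Norms_exh (U := {k | act G (α t) k ≠ 0})
      (P := fun j k => k ∈ Lev G j ∪ LadS G j) (fun k hk => Norms_act hk) Φ
    have b := (L2.biUnion (Finset.range M) (W := fun i => Lev G i ∪ LadS G i)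
      (fun i _ => c i) (U := {k | act G (α t) k ≠ 0} ∩ Φ)
      (fun k hk => by simpa only [Finset.mem_range] using hM k hk)).2 Φ
    rw [Real.sq_sqrt (by positivity)] at b
    have b' := b.trans (Finset.sum_sq_le_sq_sum_of_nonneg fun i _ => (c i).1)
    rw [← Finset.mul_sum] at b'
    refine le_trans (le_of_eq (Finset.sum_congr rfl fun k hk => ?_)) (b'.trans ?_)
    · rw [Norms_nb_supp (fun e => by rw [e, smul_zero]) hk, nm]
    · refine pow_le_pow_left₀ ?_ (by linarith [hK M]) 2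
      rw [Finset.mul_sum]
      exact Finset.sum_nonneg fun i _ => (c i).1⟩
  have b := L2_tsum (summable_sq_ax (adm_jnk (G := G) H).rapid)
  refine (L2.tsum_le ((a.add b).of_le fun k => ?_)).2
  have x := ax_nonneg k
  rw [abs_of_nonneg (by positivity), abs_of_nonneg (by positivity), ← mul_add]
  exact mul_le_mul_of_nonneg_left (Norms_split _ k) x

theorem ET_le (H : Adm (α t)) (i : ℕ) {K : ℝ} (hK : ∀ M, ∑ j ∈ Finset.Ico i M,
    ((rawOf G α).lev j t ^ 2 + (rawOf G α).ch G j t ^ 2) ≤ K) :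
    (rawOf G α).ET i t ≤ 10 ^ 4 * K := by
  refine Real.tsum_le_of_sum_le (fun k => sq_nonneg _) fun Φ => ?_
  obtain ⟨M, hM⟩ := Norms_exh (U := Tail G i)
    (P := fun j k => i ≤ j ∧ k ∈ Lev G j ∪ LadS G j) (fun k hk => hk) Φ
  have b := (L2.biUnion (Finset.Ico i M) (W := fun j => Lev G j ∪ LadS G j)
    (fun j _ => Norms_L2_union (L2_Lev H j) (L2_Lad H j)) (U := Tail G i ∩ Φ)
    (fun k hk => by
      obtain ⟨j, a, b, c⟩ := hM k hk
      exact ⟨j, Finset.mem_Ico.2 ⟨b, a⟩, c⟩)).2 Φ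
  rw [Real.sq_sqrt (by (clear * -; positivity))] at b
  refine le_trans (le_of_eq (Finset.sum_congr rfl fun k hk => ?_)) (b.trans ?_)
  · congr 1
    by_cases h : k ∈ Tail G i
    · rw [nb, nb, Set.indicator_of_mem h,
        Set.indicator_of_mem (show k ∈ Tail G i ∩ (Φ : Set Z3) from ⟨h, hk⟩)]
    · rw [nb, nb, Set.indicator_of_notMem h, Set.indicator_of_notMem fun a => h a.1]
  · refine le_trans ?_ (mul_le_mul_of_nonneg_left (hK M) (by norm_num))
    rw [Finset.mul_sum]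
    refine Finset.sum_le_sum fun j _ => ?_
    rw [Real.sq_sqrt (by positivity)]
    linarith [sq_nonneg ((rawOf G α).ch G j t)]

end

end Pool.Agent.Work.MP_6bf1e5_an.Hyp.Pd
end

-- merged part: Pool.Agent.Work.MP_6bf1e5_an.Hyp.RowsA
section
/-!
Tools for the classification of the triads.
-/

open Set Complex
open scoped InnerProductSpace ComplexConjugate Classical
open Pool.Agent.Work.MP_6bf1e5_an.B
open Pool.Agent.Work.MP_6bf1e5_an.Hyp.Dec

namespace Pool.Agent.Work.MP_6bf1e5_an.Hyp.Pd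

noncomputable section

variable {G : Geo}

/-- The index of the level or ladder which contains a family. -/
def lv : Fam → ℕ
  | .b j => j
  | .c j => j + 1
  | .y j _ => j

lemma RowsA_abs (g : Gp) (k : Z3) (l : Fin 3) : |gz g k l| = |k (l - g.1)| := by
  obtain ⟨s, u⟩ := g
  rcases Int.units_eq_one_or u with rfl | rfl <;> simp [gz]

lemma RowsA_ix_le (F : Fam) : F.ix ≤ lv F := by
  cases F <;> simp [Fam.ix, lv]

lemma RowsA_ctr (F : Fam) : ∃ l, F.ctr G l = G.P (lv F) := by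
  cases F with
  | b j => exact ⟨0, rfl⟩
  | c j => exact ⟨0, rfl⟩
  | y j i => exact ⟨1, rfl⟩

lemma RowsA_sz (F : Fam) : 10 ^ 100 * F.sz G ≤ G.P (lv F) := by
  have hk := kk_big G
  rw [P_eq]
  cases F with
  | b j => exact n_lt G (by simp only [lv]; omega)
  | c j => exact n_lt G (by simp only [lv]; omega)
  | y j i => exact n_lt G (by simp only [lv]; omega)

lemma RowsA_off {F : Fam} {h : Z3} (hh : h ∈ F.S G) (g : Gp) (l : Fin 3) {J : ℕ}
    (hJ : F.ix ≤ J) : 100 * |gz g h l| ≤ 101 * (G.n (J + 1) : ℤ) := by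
  rw [RowsA_abs]
  have h1 := S_le hh (l - g.1)
  have h2 : F.sz G ≤ G.n (J + 1) := (sz_le F).trans (n_mono G (by omega))
  omega

lemma RowsA_gz_ctr (g : Gp) (F : Fam) :
    gz g (F.ctr G) = gz (gm g (cg F)) (car G F.ix (ci G F)) := by
  rw [ctr_eq, gz_gz]

lemma RowsA_cancel {g g' c : Gp} (h : gm g c = gm g' c) : g = g' := by
  simp only [gm, Prod.mk.injEq] at h
  exact Prod.ext (add_right_cancel h.1) (mul_right_cancel h.2)

lemma RowsA_comb {j : ℕ} {ρ : N3} (hρ : ∀ i, 1000 * (ρ i + 1) ≤ G.n j) {h : Z3} {o : Fin 4}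
    (hh : h - G.off j o ∈ bx ρ) : ∃ l, 99 * (G.n j : ℤ) ≤ 100 * |h l| := by
  rw [mem_bx] at hh
  have k1 := hh 1
  have k2 := hh 2
  have r1 := hρ 1
  have r2 := hρ 2
  rw [Pi.sub_apply, abs_le] at k1 k2
  have a1 := le_abs_self (h 1)
  have a2 := le_abs_self (h 2)
  have b1 := neg_abs_le (h 1)
  have b2 := neg_abs_le (h 2)
  fin_cases o
  · have e : G.off j 0 1 = G.n j := rfl
    exact ⟨1, by simp only [Fin.zero_eta] at k1; omega⟩
  · have e : G.off j 1 1 = -(G.n j : ℤ) := rfl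
    exact ⟨1, by simp only [Fin.mk_one] at k1; omega⟩
  · have e : G.off j 2 2 = G.n j := rfl
    exact ⟨2, by simp only [Fin.reduceFinMk] at k2; omega⟩
  · have e : G.off j 3 2 = -(G.n j : ℤ) := rfl
    exact ⟨2, by simp only [Fin.reduceFinMk] at k2; omega⟩

lemma mem_lev_b {j : ℕ} {g : Gp} {k : Z3} (h : k ∈ Pt G (.b j) g) : k ∈ Lev G j := by
  cases j with
  | zero => exact ⟨g, h⟩
  | succ j => exact Or.inl ⟨g, h⟩

lemma mem_lev_c {j : ℕ} {g : Gp} {k : Z3} (h : k ∈ Pt G (.c j) g) : k ∈ Lev G (j + 1) := by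
  exact Or.inr ⟨g, h⟩

lemma mem_lad {j i : ℕ} (hF : (Fam.y j i).ok G) {g : Gp} {k : Z3} (h : k ∈ Pt G (.y j i) g) :
    k ∈ LadS G j := by
  exact ⟨i, hF.1, hF.2, g, h⟩

lemma mem_lv {F : Fam} (hF : F.ok G) {g : Gp} {k : Z3} (h : k ∈ Pt G F g) :
    k ∈ Lev G (lv F) ∪ LadS G (lv F) := by
  cases F with
  | b j => exact Or.inl (mem_lev_b h)
  | c j => exact Or.inl (mem_lev_c h)
  | y j i => exact Or.inr (mem_lad hF h)

/-- A mode is about as large as its carrier. -/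
lemma pt_size {F : Fam} (hF : F.ok G) {g : Gp} {k : Z3} (h : k ∈ Pt G F g) :
    ∃ l, 9 * (G.P (lv F) : ℤ) ≤ 10 * |k l| := by
  obtain ⟨a, ha, rfl⟩ := h
  obtain ⟨l, hl⟩ := RowsA_ctr (G := G) F
  refine ⟨l + g.1, ?_⟩
  rw [pt, RowsA_abs, add_sub_cancel_right, Pi.add_apply, hl]
  have h1 := S_le ha l
  have h2 := RowsA_sz (G := G) F
  have h3 := le_abs_self ((G.P (lv F) : ℤ) + a l)
  have h4 := neg_abs_le (a l)
  omega

lemma low_of_small {F : Fam} (hF : F.ok G) {g : Gp} {k : Z3} (h : k ∈ Pt G F g) {J : ℕ}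
    (H : ∀ l, |k l| ≤ 3 * G.n J) : lv F + G.kk ≤ J := by
  obtain ⟨l, hl⟩ := pt_size hF h
  by_contra hn
  have h1 := n_lt G (not_le.1 hn)
  have h2 := n_pos G J
  have h3 := H l
  rw [P_eq] at hl
  omega

lemma low_of_small' {F : Fam} (hF : F.ok G) {g : Gp} {k : Z3} (h : k ∈ Pt G F g) {J : ℕ}
    (H : ∀ l, 2 * |k l| ≤ G.n (J + 1)) : lv F + G.kk ≤ J := by
  obtain ⟨l, hl⟩ := pt_size hF h
  by_contra hn
  have h1 := n_mono G (show J + 1 ≤ lv F + G.kk by omega)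
  have h2 := n_pos G (J + 1)
  have h3 := H l
  rw [P_eq] at hl
  omega

lemma mem_lowS {F : Fam} (hF : F.ok G) {g : Gp} {k : Z3} (h : k ∈ Pt G F g) {J : ℕ}
    (H : lv F + G.kk ≤ J) : k ∈ LowS G J := by
  exact ⟨lv F, by omega, mem_lv hF h⟩

lemma mem_tail {F : Fam} (hF : F.ok G) {g : Gp} {k : Z3} (h : k ∈ Pt G F g) {J : ℕ}
    (H : J ≤ lv F) : k ∈ Tail G J := by
  exact ⟨lv F, H, mem_lv hF h⟩

/-- The offsets of a comb are not small. -/
lemma S_ge {F : Fam} (hF : ∀ j i, F ≠ .y j i) {h : Z3} (hh : h ∈ F.S G) :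
    ∃ l, 99 * (F.sz G : ℤ) ≤ 100 * |h l| := by
  obtain ⟨x, hx, hh⟩ := mem_S.1 hh
  cases F with
  | b j =>
    obtain ⟨o, rfl⟩ := mem_cens_b.1 hx
    exact RowsA_comb (rb_small G j) hh
  | c j =>
    obtain ⟨o, rfl⟩ := mem_cens_c.1 hx
    exact RowsA_comb (rc_small G (j + 1)) hh
  | y j i => exact absurd rfl (hF j i)

/-- The offsets of a rung are small. -/
lemma S_y_le {j i : ℕ} {h : Z3} (hh : h ∈ (Fam.y j i).S G) (l : Fin 3) :
    4 * |h l| ≤ G.n (j + 1) := by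
  rw [S_y, mem_bx] at hh
  have h1 := hh l
  have h2 := ry_succ G j l
  omega

/-- Families with the same carrier. -/
theorem same_ctr {F F' : Fam} (hF : F.ok G) (hF' : F'.ok G) {g g' : Gp}
    (H : gz g (F.ctr G) = gz g' (F'.ctr G)) :
    g = g' ∧ (F = F' ∨ ∃ j, UP F F' (.c j) (.y j G.La)) := by
  rw [RowsA_gz_ctr, RowsA_gz_ctr] at H
  obtain ⟨h1, h2, h3⟩ := car_unique (ci_le hF) (ci_le hF') H
  have hL := La_big G
  cases F with
  | b j =>
    cases F' with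
    | b j' => exact ⟨RowsA_cancel h3, Or.inl (congrArg Fam.b h1)⟩
    | c j' => simp only [ci] at h2; omega
    | y j' i' => have := hF'.1; simp only [ci] at h2; omega
  | c j =>
    cases F' with
    | b j' => simp only [ci] at h2; omega
    | c j' => exact ⟨RowsA_cancel h3, Or.inl (congrArg Fam.c h1)⟩
    | y j' i' =>
      simp only [ci, Fam.ix] at h1 h2
      subst h1 h2
      exact ⟨RowsA_cancel h3, Or.inr ⟨j, Or.inl ⟨rfl, rfl⟩⟩⟩
  | y j i =>
    cases F' with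
    | b j' => have := hF.1; simp only [ci] at h2; omega
    | c j' =>
      simp only [ci, Fam.ix] at h1 h2
      subst h1 h2
      exact ⟨RowsA_cancel h3, Or.inr ⟨j, Or.inr ⟨rfl, rfl⟩⟩⟩
    | y j' i' =>
      simp only [ci, Fam.ix] at h1 h2
      subst h1 h2
      exact ⟨RowsA_cancel h3, Or.inl rfl⟩

/-- The carriers of a triad form an exact triad, or two of them cancel. -/
theorem tri_cases {F F1 F2 : Fam} (hF : F.ok G) (h1 : F1.ok G) (h2 : F2.ok G) {g g' : Gp}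
    {h a b : Z3} (hh : h ∈ F.S G) (ha : a ∈ F1.S G) (hb : b ∈ F2.S G)
    (H : pt G F1 g a + pt G F2 g' b = F.ctr G + h) :
    gz g (F1.ctr G) + gz g' (F2.ctr G) = F.ctr G ∨ gz g (F1.ctr G) = F.ctr G ∨
      gz g' (F2.ctr G) = F.ctr G ∨ gz g (F1.ctr G) = -gz g' (F2.ctr G) := by
  rw [RowsA_gz_ctr g, RowsA_gz_ctr g', ctr_eq F]
  refine triad (ci_le h1) (ci_le h2) (ci_le hF) fun l => ?_
  rw [← RowsA_gz_ctr g, ← RowsA_gz_ctr g', ← ctr_eq F]
  have e := congrFun H l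
  simp only [pt, gz_add, Pi.add_apply] at e
  have a1 := RowsA_off ha g l (le_max_left F1.ix (max F2.ix F.ix))
  have a2 := RowsA_off hb g' l ((le_max_left F2.ix F.ix).trans (le_max_right F1.ix _))
  have a3 := RowsA_off hh g1 l ((le_max_right F2.ix F.ix).trans (le_max_right F1.ix _))
  rw [gz_g1] at a3
  have b1 := abs_le.1 (le_refl |gz g a l|)
  have b2 := abs_le.1 (le_refl |gz g' b l|)
  have b3 := abs_le.1 (le_refl |h l|)
  rw [abs_le]
  omega

/-- If two carriers cancel, both modes are much higher than their sum. -/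
theorem tail_of_cancel {F F1 F2 : Fam} (hF : F.ok G) (h1 : F1.ok G) (h2 : F2.ok G) {g g' : Gp}
    {h a b : Z3} (hh : h ∈ F.S G) (ha : a ∈ F1.S G) (hb : b ∈ F2.S G)
    (H : pt G F1 g a + pt G F2 g' b = F.ctr G + h)
    (hc : gz g (F1.ctr G) = -gz g' (F2.ctr G)) :
    lv F + G.kk - 1 ≤ lv F1 ∧ lv F + G.kk - 1 ≤ lv F2 := by
  have hc' := hc
  rw [← gz_neg_one, gz_gz, RowsA_gz_ctr, RowsA_gz_ctr] at hc'
  have e1 := (car_unique (ci_le h1) (ci_le h2) hc').1
  obtain ⟨l, hl⟩ := pt_size hF (g := g1) ⟨h, hh, rfl⟩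
  rw [pt_g1, ← H, P_eq] at hl
  have e := congrFun hc l
  simp only [pt, gz_add, Pi.add_apply] at hl
  rw [Pi.neg_apply] at e
  have a1 := RowsA_off ha g l le_rfl
  have a2 := RowsA_off hb g' l e1.ge
  have e2 : gz g (F1.ctr G) l + gz g a l + (gz g' (F2.ctr G) l + gz g' b l) =
      gz g a l + gz g' b l := by rw [e]; ring
  rw [e2] at hl
  have a3 := abs_add_le (gz g a l) (gz g' b l)
  have i1 := RowsA_ix_le F1
  have i2 := RowsA_ix_le F2
  have key : lv F + G.kk ≤ F1.ix + 1 := by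
    by_contra hn
    have b1 := n_lt G (not_le.1 hn)
    have b2 := n_pos G (F1.ix + 1)
    omega
  omega

/-- The family with given position on a ladder. -/
def At (G : Geo) (F : Fam) (J i : ℕ) : Prop :=
  (i = 0 ∧ F = .b J) ∨ (i = G.La ∧ F = .c J) ∨ (1 ≤ i ∧ i ≤ G.La ∧ F = .y J i)

lemma at_self {F : Fam} (hF : F.ok G) : At G F F.ix (ci G F) := by
  cases F with
  | b j => exact Or.inl ⟨rfl, rfl⟩
  | c j => exact Or.inr (Or.inl ⟨rfl, rfl⟩)
  | y j i => exact Or.inr (Or.inr ⟨hF.1, hF.2, rfl⟩)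

/-- The exact triads, with the target in the position of its ladder. -/
theorem exact_fam {F F1 F2 : Fam} (hF : F.ok G) (h1 : F1.ok G) (h2 : F2.ok G) {g g' c : Gp}
    (hc : gm c (cg F) = g1) (H : gz g (F1.ctr G) + gz g' (F2.ctr G) = F.ctr G) :
    let x := (F1.ix, ci G F1, gm c (gm g (cg F1)))
    let y := (F2.ix, ci G F2, gm c (gm g' (cg F2)))
    (∃ m, ci G F = m + 1 ∧ UP x y (F.ix, m, g1) (F.ix, 0, (2, 1))) ∨
      UP x y (F.ix, ci G F + 1, g1) (F.ix, 0, (2, -1)) ∨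
      (ci G F = 0 ∧ UP x y (F.ix, G.La, g1) (F.ix + 1, 0, (2, -1))) ∨
      (ci G F = G.La ∧ UP x y (F.ix, 0, g1) (F.ix + 1, 0, (2, 1))) ∨
      (ci G F = 0 ∧ ∃ m, UP x y (F.ix, m + 1, (1, 1)) (F.ix, m, (1, -1))) ∨
      (ci G F = 0 ∧ ∃ J', F.ix = J' + 1 ∧ UP x y (J', G.La, (1, 1)) (J', 0, (1, -1))) := by
  have H' := congrArg (gz c) H
  rw [gz_add, RowsA_gz_ctr g, RowsA_gz_ctr g', RowsA_gz_ctr c, hc, gz_g1, gz_gz, gz_gz] at H'
  exact exact_triad (ci_le h1) (ci_le h2) (ci_le hF) H'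

end

end Pool.Agent.Work.MP_6bf1e5_an.Hyp.Pd
end

-- merged part: Pool.Agent.Work.MP_6bf1e5_an.Hyp.Rows
section
/-!
Classification of the triads of active modes.
-/

open Set Complex
open scoped InnerProductSpace ComplexConjugate Classical
open Pool.Agent.Work.MP_6bf1e5_an.B
open Pool.Agent.Work.MP_6bf1e5_an.Hyp.Dec

namespace Pool.Agent.Work.MP_6bf1e5_an.Hyp.Pd

noncomputable section

attribute [local irreducible] Fam.S

variable {G : Geo}

lemma rows_upair_symm {W1 W2 : Set Z3} {p q : Z3} (h : UPair W1 W2 p q) : UPair W1 W2 q p :=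
  h.elim (fun h => Or.inr ⟨h.2, h.1⟩) fun h => Or.inl ⟨h.2, h.1⟩

lemma rows_mem_pt {F : Fam} (g : Gp) {a : Z3} (ha : a ∈ F.S G) : pt G F g a ∈ Pt G F g :=
  ⟨a, ha, rfl⟩

lemma rows_abs_gz (g : Gp) (k : Z3) (l : Fin 3) : |gz g k l| = |k (l - g.1)| := by
  obtain ⟨s, u⟩ := g
  rcases Int.units_eq_one_or u with rfl | rfl <;> simp [gz]

lemma rows_pt_eq (F : Fam) (g : Gp) (a : Z3) : pt G F g a = gz g (F.ctr G) + gz g a :=
  gz_add _ _ _

/-- The ordered form of the exact triads. -/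
def RowsOrd (L J i : ℕ) (x y : ℕ × ℕ × Gp) : Prop :=
  (∃ m, i = m + 1 ∧ x = (J, m, g1) ∧ y = (J, 0, (2, 1))) ∨
    (x = (J, i + 1, g1) ∧ y = (J, 0, (2, -1))) ∨
    (i = 0 ∧ x = (J, L, g1) ∧ y = (J + 1, 0, (2, -1))) ∨
    (i = L ∧ x = (J, 0, g1) ∧ y = (J + 1, 0, (2, 1))) ∨
    (i = 0 ∧ ∃ m, x = (J, m + 1, (1, 1)) ∧ y = (J, m, (1, -1))) ∨
    (i = 0 ∧ ∃ J', J = J' + 1 ∧ x = (J', L, (1, 1)) ∧ y = (J', 0, (1, -1)))

lemma rows_ord {F F1 F2 : Fam} (hF : F.ok G) (h1 : F1.ok G) (h2 : F2.ok G) {g g' c : Gp}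
    (hc : gm c (cg F) = g1) (H : gz g (F1.ctr G) + gz g' (F2.ctr G) = F.ctr G) :
    RowsOrd G.La F.ix (ci G F) (F1.ix, ci G F1, gm c (gm g (cg F1)))
        (F2.ix, ci G F2, gm c (gm g' (cg F2))) ∨
      RowsOrd G.La F.ix (ci G F) (F2.ix, ci G F2, gm c (gm g' (cg F2)))
        (F1.ix, ci G F1, gm c (gm g (cg F1))) := by
  have := exact_fam hF h1 h2 hc H
  unfold RowsOrd
  rcases this with ⟨m, e, h | h⟩ | (h | h) | ⟨e, h | h⟩ | ⟨e, h | h⟩ | ⟨e, m, h | h⟩ |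
    ⟨e, m, e', h | h⟩
  · exact .inl (.inl ⟨m, e, h⟩)
  · exact .inr (.inl ⟨m, e, h.symm⟩)
  · exact .inl (.inr (.inl h))
  · exact .inr (.inr (.inl h.symm))
  · exact .inl (.inr (.inr (.inl ⟨e, h⟩)))
  · exact .inr (.inr (.inr (.inl ⟨e, h.symm⟩)))
  · exact .inl (.inr (.inr (.inr (.inl ⟨e, h⟩))))
  · exact .inr (.inr (.inr (.inr (.inl ⟨e, h.symm⟩))))
  · exact .inl (.inr (.inr (.inr (.inr (.inl ⟨e, m, h⟩)))))
  · exact .inr (.inr (.inr (.inr (.inr (.inl ⟨e, m, h.symm⟩)))))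
  · exact .inl (.inr (.inr (.inr (.inr (.inr ⟨e, m, e', h⟩)))))
  · exact .inr (.inr (.inr (.inr (.inr (.inr ⟨e, m, e', h.symm⟩)))))

/-- The three ways in which a triad arises. -/
theorem rows_master {F : Fam} (hF : F.ok G) {h : Z3} (hh : h ∈ F.S G) {c : Gp}
    (hc : gm c (cg F) = g1) {C : Z3 → Z3 → Prop} (sy : ∀ p q, C p q → C q p)
    (tl : ∀ p q, p ∈ Tail G (lv F + G.kk - 1) → q ∈ Tail G (lv F + G.kk - 1) → C p q)
    (cr : ∀ (F1 F2 : Fam) (g' : Gp) (a b : Z3), F1.ok G → F2.ok G → a ∈ F1.S G → b ∈ F2.S G →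
      (F1 = F ∨ ∃ j, UP F1 F (.c j) (.y j G.La)) → pt G F2 g' b = h - a →
      C (pt G F1 g1 a) (pt G F2 g' b))
    (ex : ∀ (F1 F2 : Fam) (g g' : Gp) (a b : Z3), F1.ok G → F2.ok G → a ∈ F1.S G → b ∈ F2.S G →
      RowsOrd G.La F.ix (ci G F) (F1.ix, ci G F1, gm c (gm g (cg F1)))
        (F2.ix, ci G F2, gm c (gm g' (cg F2))) → gz g a + gz g' b = h →
      C (pt G F1 g a) (pt G F2 g' b))
    {F1 F2 : Fam} (h1 : F1.ok G) (h2 : F2.ok G) {g g' : Gp} {p q : Z3} (hp : p ∈ Pt G F1 g)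
    (hq : q ∈ Pt G F2 g') (H : p + q = F.ctr G + h) : C p q := by
  obtain ⟨a, ha, rfl⟩ := hp
  obtain ⟨b, hb, rfl⟩ := hq
  have key : ∀ (F1 F2 : Fam) (g g' : Gp) (a b : Z3), F1.ok G → F2.ok G → a ∈ F1.S G →
      b ∈ F2.S G → pt G F1 g a + pt G F2 g' b = F.ctr G + h → gz g (F1.ctr G) = F.ctr G →
      C (pt G F1 g a) (pt G F2 g' b) := fun F1 F2 g g' a b h1 h2 ha hb H e => by
    obtain ⟨rfl, hu⟩ := same_ctr h1 hF (g := g) (g' := g1) (by rw [gz_g1]; exact e)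
    refine cr F1 F2 g' a b h1 h2 ha hb hu ?_
    rw [gz_g1] at e
    rw [pt_g1, e, add_assoc, add_right_inj] at H
    rw [← H]; abel
  rcases tri_cases hF h1 h2 hh ha hb H with e | e | e | e
  · have hs : gz g a + gz g' b = h := by
      rw [rows_pt_eq, rows_pt_eq, ← e, add_add_add_comm, add_right_inj] at H
      exact H
    rcases rows_ord hF h1 h2 hc e with o | o
    · exact ex F1 F2 g g' a b h1 h2 ha hb o hs
    · exact sy _ _ (ex F2 F1 g' g b a h2 h1 hb ha o (by rw [add_comm]; exact hs))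
  · exact key F1 F2 g g' a b h1 h2 ha hb H e
  · exact sy _ _ (key F2 F1 g' g b a h2 h1 hb ha (by rw [add_comm]; exact H) e)
  · obtain ⟨t1, t2⟩ := tail_of_cancel hF h1 h2 hh ha hb H e
    exact tl _ _ (mem_tail h1 (rows_mem_pt g ha) t1) (mem_tail h2 (rows_mem_pt g' hb) t2)

lemma rows_zero {F : Fam} (hF : F.ok G) {J : ℕ} (hJ : F.ix = J) (h : ci G F = 0) : F = .b J := by
  have := La_big G
  cases F with
  | b j => rw [← hJ]; rfl
  | c j => simp only [ci] at h; omega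
  | y j i => simp only [ci] at h; have := hF.1; omega

lemma rows_pos {F : Fam} {J i : ℕ} (hJ : F.ix = J) (h : ci G F = i) (hi : 1 ≤ i) :
    (i = G.La ∧ F = .c J) ∨ F = .y J i := by
  cases F with
  | b j => simp only [ci] at h; omega
  | c j => exact .inl ⟨h.symm, by rw [← hJ]; rfl⟩
  | y j m => right; rw [← hJ, ← h]; rfl

/-- A comb offset is not the sum of a rung offset and an offset of the previous comb. -/
lemma rows_excl {F : Fam} (hF : ∀ j i, F ≠ .y j i) {J i : ℕ} (hs : F.sz G = G.n (J + 1))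
    {h a b : Z3} (hh : h ∈ F.S G) (ha : a ∈ (Fam.y J i).S G) (hb : b ∈ (Fam.b J).S G) {g g' : Gp}
    (H : gz g a + gz g' b = h) : False := by
  obtain ⟨l, hl⟩ := S_ge hF hh
  have h1 := S_y_le ha (l - g.1)
  have h2 := S_le hb (l - g'.1)
  have h3 : |h l| ≤ |a (l - g.1)| + |b (l - g'.1)| := by
    rw [← H, ← rows_abs_gz, ← rows_abs_gz]; exact abs_add_le _ _
  have h4 := n_lt G (Nat.lt_succ_self J)
  have h5 := n_pos G J
  rw [hs] at hl
  simp only [Fam.sz] at h2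
  generalize G.n (J + 1) = N at *
  generalize G.n J = n at *
  omega

lemma rows_sub_le {F F' : Fam} {h a : Z3} (hh : h ∈ F.S G) (ha : a ∈ F'.S G) {J : ℕ}
    (e : F.sz G = G.n J) (e' : F'.sz G = G.n J) (l : Fin 3) : |(h - a) l| ≤ 3 * G.n J := by
  have h1 := S_le hh l
  have h2 := S_le ha l
  have h3 : |(h - a) l| ≤ |h l| + |a l| := abs_sub _ _
  rw [e] at h1
  rw [e'] at h2
  omega

lemma rows_low {F F' F2 : Fam} (h2 : F2.ok G) {h a b : Z3} {g : Gp} (hh : h ∈ F.S G)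
    (ha : a ∈ F'.S G) (hb : b ∈ F2.S G) {J : ℕ} (e : F.sz G = G.n J) (e' : F'.sz G = G.n J)
    (H : pt G F2 g b = h - a) : lv F2 + G.kk ≤ J :=
  low_of_small h2 (rows_mem_pt g hb) fun l => by rw [H]; exact rows_sub_le hh ha e e' l

/-- The triads which feed a tooth of the first comb. -/
theorem rows_b {j : ℕ} {h : Z3} (hh : h ∈ (Fam.b j).S G) {F1 F2 : Fam} (h1 : F1.ok G)
    (h2 : F2.ok G) {g g' : Gp} {p q : Z3} (hp : p ∈ Pt G F1 g) (hq : q ∈ Pt G F2 g')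
    (H : p + q = (Fam.b j).ctr G + h) :
    (∃ i, j = i + 1 ∧ UPair (Pt G (.c i) g1) (Pt G (.b i) (1, -1)) p q) ∨
      UPair (LadS G j) (LadS G j ∪ (Lev G j ∪ Lev G (j + 1))) p q ∨
      UPair (Lev G (j + 1)) (Lev G (j + 1)) p q ∨ UPair (LowS G j) (Lev G j) p q ∨
      UPair (Tail G (j + G.kk - 1)) (Tail G (j + G.kk - 1)) p q := by
  have hL := La_big G
  refine rows_master (F := .b j) trivial hh (c := (1, 1))
    (show gm (1, 1) (2, 1) = g1 by decide)
    (C := fun p q => (∃ i, j = i + 1 ∧ UPair (Pt G (.c i) g1) (Pt G (.b i) (1, -1)) p q) ∨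
      UPair (LadS G j) (LadS G j ∪ (Lev G j ∪ Lev G (j + 1))) p q ∨
      UPair (Lev G (j + 1)) (Lev G (j + 1)) p q ∨ UPair (LowS G j) (Lev G j) p q ∨
      UPair (Tail G (j + G.kk - 1)) (Tail G (j + G.kk - 1)) p q) ?_ ?_ ?_ ?_ h1 h2 hp hq H
  · rintro p q (⟨i, e, h⟩ | h | h | h | h)
    · exact .inl ⟨i, e, rows_upair_symm h⟩
    · exact .inr (.inl (rows_upair_symm h))
    · exact .inr (.inr (.inl (rows_upair_symm h)))
    · exact .inr (.inr (.inr (.inl (rows_upair_symm h))))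
    · exact .inr (.inr (.inr (.inr (rows_upair_symm h))))
  · exact fun p q hp hq => .inr (.inr (.inr (.inr (.inl ⟨hp, hq⟩))))
  · rintro F1 F2 g' a b h1 h2 ha hb (rfl | ⟨j', ⟨-, e⟩ | ⟨-, e⟩⟩) H
    · exact .inr (.inr (.inr (.inl (.inr ⟨mem_lev_b (rows_mem_pt _ ha),
        mem_lowS h2 (rows_mem_pt _ hb) (rows_low h2 hh ha hb rfl rfl H)⟩))))
    · cases e
    · cases e
  · intro F1 F2 g g' a b h1 h2 ha hb o H'
    have c1 := ci_le h1
    simp only [RowsOrd, Prod.mk.injEq, ci, Fam.ix] at o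
    rcases o with ⟨m, e, -⟩ | ⟨⟨x1, x2, -⟩, y1, y2, -⟩ | ⟨-, ⟨x1, x2, -⟩, y1, y2, -⟩ | ⟨e, -⟩ |
      ⟨-, m, ⟨x1, x2, -⟩, y1, y2, -⟩ | ⟨-, J, e, ⟨x1, x2, x3⟩, y1, y2, y3⟩
    · omega
    · obtain rfl := rows_zero h2 y1 y2
      rcases rows_pos x1 x2 (by omega) with ⟨e, -⟩ | rfl
      · omega
      · exact .inr (.inl (.inl ⟨mem_lad h1 (rows_mem_pt _ ha),
          .inr (.inl (mem_lev_b (rows_mem_pt _ hb)))⟩))
    · obtain rfl := rows_zero h2 y1 y2
      rcases rows_pos x1 x2 (by omega) with ⟨-, rfl⟩ | rfl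
      · exact .inr (.inr (.inl (.inl ⟨mem_lev_c (rows_mem_pt _ ha),
          mem_lev_b (rows_mem_pt _ hb)⟩)))
      · exact .inr (.inl (.inl ⟨mem_lad h1 (rows_mem_pt _ ha),
          .inr (.inr (mem_lev_b (rows_mem_pt _ hb)))⟩))
    · omega
    · rcases rows_pos x1 x2 (by omega) with ⟨e, rfl⟩ | rfl
      · rcases rows_pos y1 y2 (by omega) with ⟨e', -⟩ | rfl
        · omega
        · exact .inr (.inl (.inr ⟨.inr (.inr (mem_lev_c (rows_mem_pt _ ha))),
            mem_lad h2 (rows_mem_pt _ hb)⟩))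
      · refine .inr (.inl (.inl ⟨mem_lad h1 (rows_mem_pt _ ha), ?_⟩))
        rcases Nat.eq_zero_or_pos m with rfl | hm
        · obtain rfl := rows_zero h2 y1 y2
          exact .inr (.inl (mem_lev_b (rows_mem_pt _ hb)))
        · rcases rows_pos y1 y2 hm with ⟨-, rfl⟩ | rfl
          · exact .inr (.inr (mem_lev_c (rows_mem_pt _ hb)))
          · exact .inl (mem_lad h2 (rows_mem_pt _ hb))
    · obtain rfl := rows_zero h2 y1 y2
      subst e
      rcases rows_pos x1 x2 (by omega) with ⟨-, rfl⟩ | rfl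
      · have e1 : g = g1 := by
          have : ∀ g : Gp, gm (1, 1) (gm g g1) = (1, 1) → g = g1 := by decide
          exact this g x3
        have e2 : g' = (1, -1) := by
          have : ∀ g : Gp, gm (1, 1) (gm g (2, 1)) = (1, -1) → g = (1, -1) := by decide
          exact this g' y3
        subst e1 e2
        exact .inl ⟨J, rfl, .inl ⟨rows_mem_pt _ ha, rows_mem_pt _ hb⟩⟩
      · exact (rows_excl (F := .b (J + 1)) (fun _ _ e => by cases e) rfl hh ha hb H').elim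

lemma rows_dir {g g' : Gp} {n : ℤ}
    (H : ∀ l, |gz g ![n, 0, 0] l - gz g' ![n, 0, 0] l| < n) : g = g' := by
  obtain ⟨s, u⟩ := g
  obtain ⟨s', u'⟩ := g'
  have h0 := abs_lt.mp (H 0)
  have h1 := abs_lt.mp (H 1)
  have h2 := abs_lt.mp (H 2)
  rcases Int.units_eq_one_or u with rfl | rfl <;> rcases Int.units_eq_one_or u' with rfl | rfl <;>
    fin_cases s <;> fin_cases s' <;> first | rfl | (exfalso; simp [gz] at h0 h1 h2 <;> omega)

/-- A low comb mode close to the centre of a tooth. -/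
lemma rows_seed {m J : ℕ} (hm : m + G.kk ≤ J) {g : Gp} {o : Fin 4} {r s : Z3}
    (hr : ∀ l, 100 * |r l| ≤ G.P m) (hs : ∀ l, 100 * |s l| ≤ 26 * G.n J)
    (H : gz g (![(G.P m : ℤ), 0, 0] + r) = G.off J o + s) : m + G.kk = J ∧ g = go o := by
  have h0 := n_pos G J
  have key : ∀ l, 100 * |gz g ![(G.P m : ℤ), 0, 0] l - gz (go o) ![(G.n J : ℤ), 0, 0] l| ≤
      26 * G.n J + G.P m := fun l => by
    have e : gz g ![(G.P m : ℤ), 0, 0] l - gz (go o) ![(G.n J : ℤ), 0, 0] l = s l - gz g r l := by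
      have := congrFun H l
      rw [gz_add, ← gz_go] at this
      simp only [Pi.add_apply] at this
      linarith only [this]
    have h1 : |s l - gz g r l| ≤ |s l| + |gz g r l| := abs_sub _ _
    rw [rows_abs_gz] at h1
    have h2 := hr (l - g.1)
    have h3 := hs l
    rw [e]; linarith only [h1, h2, h3]
  have e : m + G.kk = J := by
    by_contra hne
    have h1 := n_lt G (lt_of_le_of_ne hm hne)
    rw [← P_eq] at h1
    have h2 := key (go o).1
    have h3 : |gz (go o) ![(G.n J : ℤ), 0, 0] (go o).1| = G.n J := by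
      rw [rows_abs_gz, sub_self]; simp
    have h4 : |gz g ![(G.P m : ℤ), 0, 0] (go o).1| ≤ G.P m := by
      rw [rows_abs_gz]
      generalize (go o).1 - g.1 = l
      fin_cases l <;> simp
    have h5 := abs_sub_abs_le_abs_sub (gz (go o) ![(G.n J : ℤ), 0, 0] (go o).1)
      (gz g ![(G.P m : ℤ), 0, 0] (go o).1)
    rw [abs_sub_comm] at h5
    omega
  refine ⟨e, rows_dir (n := G.n J) fun l => ?_⟩
  have h2 := key l
  rw [P_eq, e] at h2
  omega

lemma rows_n_le_P (m : ℕ) : 10 ^ 100 * G.n m ≤ G.P m := by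
  rw [P_eq]; exact n_lt G (by have := kk_big G; omega)

/-- The triads which feed the tooth `o` of the second comb. -/
theorem rows_c {j : ℕ} {o : Fin 4} {h : Z3} (hh : h ∈ bx (G.rc (j + 1))) {F1 F2 : Fam}
    (h1 : F1.ok G) (h2 : F2.ok G) {g g' : Gp} {p q : Z3} (hp : p ∈ Pt G F1 g)
    (hq : q ∈ Pt G F2 g') (H : p + q = (Fam.c j).ctr G + (G.off (j + 1) o + h)) :
    UPair (Pt G (.b (j + 1)) g1) (Pt G (.b j) (1, 1)) p q ∨
      (∃ i, i + G.kk = j + 1 ∧ UPair (Pt G (.y j G.La) g1) (Pt G (.b i) (go o)) p q) ∨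
      (∃ i, i + 1 + G.kk = j + 1 ∧ UPair (Pt G (.y j G.La) g1) (Pt G (.c i) (go o)) p q) ∨
      UPair (LowS G (j + 1)) (Lev G (j + 1)) p q ∨
      UPair (LowYS G (j + 1)) (Pt G (.y j G.La) g1) p q ∨
      UPair (Tail G (j + G.kk)) (Tail G (j + G.kk)) p q := by
  have hL := La_big G
  have hS : G.off (j + 1) o + h ∈ (Fam.c j).S G :=
    mem_S.mpr ⟨_, mem_cens_c.mpr ⟨o, rfl⟩, by rw [add_sub_cancel_left]; exact hh⟩
  refine rows_master (F := .c j) trivial hS (c := g1) (show gm g1 g1 = g1 by decide)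
    (C := fun p q => UPair (Pt G (.b (j + 1)) g1) (Pt G (.b j) (1, 1)) p q ∨
      (∃ i, i + G.kk = j + 1 ∧ UPair (Pt G (.y j G.La) g1) (Pt G (.b i) (go o)) p q) ∨
      (∃ i, i + 1 + G.kk = j + 1 ∧ UPair (Pt G (.y j G.La) g1) (Pt G (.c i) (go o)) p q) ∨
      UPair (LowS G (j + 1)) (Lev G (j + 1)) p q ∨
      UPair (LowYS G (j + 1)) (Pt G (.y j G.La) g1) p q ∨
      UPair (Tail G (j + G.kk)) (Tail G (j + G.kk)) p q) ?_ ?_ ?_ ?_ h1 h2 hp hq H
  · rintro p q (h | ⟨i, e, h⟩ | ⟨i, e, h⟩ | h | h | h)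
    · exact .inl (rows_upair_symm h)
    · exact .inr (.inl ⟨i, e, rows_upair_symm h⟩)
    · exact .inr (.inr (.inl ⟨i, e, rows_upair_symm h⟩))
    · exact .inr (.inr (.inr (.inl (rows_upair_symm h))))
    · exact .inr (.inr (.inr (.inr (.inl (rows_upair_symm h)))))
    · exact .inr (.inr (.inr (.inr (.inr (rows_upair_symm h)))))
  · intro p q hp hq
    rw [show lv (.c j) + G.kk - 1 = j + G.kk by simp only [lv]; omega] at hp hq
    exact .inr (.inr (.inr (.inr (.inr (.inl ⟨hp, hq⟩)))))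
  · rintro F1 F2 g' a b h1 h2 ha hb (rfl | ⟨j', ⟨-, e⟩ | ⟨rfl, e⟩⟩) H
    · exact .inr (.inr (.inr (.inl (.inr ⟨mem_lev_c (rows_mem_pt _ ha),
        mem_lowS h2 (rows_mem_pt _ hb) (rows_low h2 hS ha hb rfl rfl H)⟩))))
    · cases e
    · obtain rfl : j = j' := by cases e; rfl
      have lo := rows_low h2 hS ha hb rfl rfl H
      have hs : ∀ l, 100 * |(h - a) l| ≤ 26 * G.n (j + 1) := fun l => by
        have a1 := mem_bx.mp hh l
        have a2 := S_y_le ha l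
        have a3 := rc_small G (j + 1) l
        have a4 : |(h - a) l| ≤ |h l| + |a l| := abs_sub _ _
        omega
      rw [add_sub_assoc] at H
      cases F2 with
      | b i =>
        obtain ⟨e1, rfl⟩ := rows_seed (m := i) (r := b) lo (fun l => by
          have a1 := S_le hb l
          have a2 := rows_n_le_P (G := G) i
          simp only [Fam.sz] at a1
          omega) hs H
        exact .inr (.inl ⟨i, e1, .inl ⟨rows_mem_pt _ ha, rows_mem_pt _ hb⟩⟩)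
      | c i =>
        obtain ⟨e1, rfl⟩ := rows_seed (g := g') (o := o) (m := i + 1)
          (r := ![0, (G.P i : ℤ), 0] + b) lo (fun l => by
          have a1 := S_le hb l
          have a2 := rows_n_le_P (G := G) (i + 1)
          have a3 : 10 ^ 100 * G.P i ≤ G.P (i + 1) := by
            rw [P_eq, P_eq]; exact n_lt G (by omega)
          have a4 : |(![0, (G.P i : ℤ), 0] + b) l| ≤ |![0, (G.P i : ℤ), 0] l| + |b l| :=
            abs_add_le _ _
          have a5 : |![0, (G.P i : ℤ), 0] l| ≤ G.P i := by fin_cases l <;> simp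
          simp only [Fam.sz] at a1
          omega) hs (by
          rw [← H, pt, ← add_assoc]
          congr 2
          ext l; fin_cases l <;> simp [Fam.ctr])
        exact .inr (.inr (.inl ⟨i, e1, .inl ⟨rows_mem_pt _ ha, rows_mem_pt _ hb⟩⟩))
      | y i m =>
        refine .inr (.inr (.inr (.inr (.inl (.inr ⟨rows_mem_pt _ ha, i, ?_,
          mem_lad h2 (rows_mem_pt _ hb)⟩)))))
        simp only [lv] at lo
        omega
  · intro F1 F2 g g' a b h1 h2 ha hb o H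
    have c1 := ci_le h1
    simp only [RowsOrd, Prod.mk.injEq, Fam.ix] at o
    rcases o with ⟨m, e, ⟨x1, x2, -⟩, y1, y2, -⟩ | ⟨⟨-, x2, -⟩, -⟩ | ⟨e, -⟩ |
      ⟨-, ⟨x1, x2, x3⟩, y1, y2, y3⟩ | ⟨e, -⟩ | ⟨e, -⟩
    · change G.La = m + 1 at e
      obtain rfl := rows_zero h2 y1 y2
      rcases rows_pos x1 x2 (by omega) with ⟨e', -⟩ | rfl
      · omega
      · exact (rows_excl (F := .c j) (fun _ _ e => by cases e) rfl hS ha hb H).elim
    · change _ = G.La + 1 at x2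
      omega
    · change G.La = 0 at e
      omega
    · obtain rfl := rows_zero h1 x1 x2
      obtain rfl := rows_zero h2 y1 y2
      have e1 : g = (1, 1) := by
        have : ∀ g : Gp, gm g1 (gm g (2, 1)) = g1 → g = (1, 1) := by decide
        exact this g x3
      have e2 : g' = g1 := by
        have : ∀ g : Gp, gm g1 (gm g (2, 1)) = (2, 1) → g = g1 := by decide
        exact this g' y3
      subst e1 e2
      exact .inl (.inr ⟨rows_mem_pt _ ha, rows_mem_pt _ hb⟩)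
    · change G.La = 0 at e
      omega
    · change G.La = 0 at e
      omega

/-- The triads which feed a rung. -/
theorem rows_y {j i : ℕ} (hi : i < G.La) {h : Z3} (hh : h ∈ bx (G.ry j)) {F1 F2 : Fam}
    (h1 : F1.ok G) (h2 : F2.ok G) {g g' : Gp} {p q : Z3} (hp : p ∈ Pt G F1 g)
    (hq : q ∈ Pt G F2 g') (H : p + q = (Fam.y j (i + 1)).ctr G + h) :
    (i = 0 ∧ UPair (Pt G (.b j) g1) (Pt G (.b j) (1, 1)) p q) ∨
      (1 ≤ i ∧ UPair (Pt G (.b j) g1) (Pt G (.y j i) g1) p q) ∨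
      (i + 2 ≤ G.La ∧ UPair (Lev G j) (Pt G (.y j (i + 2)) g1) p q) ∨
      UPair (Lev G j ∪ LowS G (j + 1)) (Lev G (j + 1)) p q ∨
      UPair (LowS G j) (Pt G (.y j (i + 1)) g1) p q ∨
      UPair (Tail G (j + G.kk - 1)) (Tail G (j + G.kk - 1)) p q := by
  have hS : h ∈ (Fam.y j (i + 1)).S G := by rw [S_y]; exact hh
  have gg : ∀ g : Gp, gm g1 (gm g g1) = g1 → g = g1 := by decide
  refine rows_master (F := .y j (i + 1)) ⟨by omega, hi⟩ hS (c := g1)
    (show gm g1 g1 = g1 by decide)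
    (C := fun p q => (i = 0 ∧ UPair (Pt G (.b j) g1) (Pt G (.b j) (1, 1)) p q) ∨
      (1 ≤ i ∧ UPair (Pt G (.b j) g1) (Pt G (.y j i) g1) p q) ∨
      (i + 2 ≤ G.La ∧ UPair (Lev G j) (Pt G (.y j (i + 2)) g1) p q) ∨
      UPair (Lev G j ∪ LowS G (j + 1)) (Lev G (j + 1)) p q ∨
      UPair (LowS G j) (Pt G (.y j (i + 1)) g1) p q ∨
      UPair (Tail G (j + G.kk - 1)) (Tail G (j + G.kk - 1)) p q) ?_ ?_ ?_ ?_ h1 h2 hp hq H
  · rintro p q (⟨e, h⟩ | ⟨e, h⟩ | ⟨e, h⟩ | h | h | h)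
    · exact .inl ⟨e, rows_upair_symm h⟩
    · exact .inr (.inl ⟨e, rows_upair_symm h⟩)
    · exact .inr (.inr (.inl ⟨e, rows_upair_symm h⟩))
    · exact .inr (.inr (.inr (.inl (rows_upair_symm h))))
    · exact .inr (.inr (.inr (.inr (.inl (rows_upair_symm h)))))
    · exact .inr (.inr (.inr (.inr (.inr (rows_upair_symm h)))))
  · exact fun p q hp hq => .inr (.inr (.inr (.inr (.inr (.inl ⟨hp, hq⟩)))))
  · rintro F1 F2 g' a b h1 h2 ha hb (rfl | ⟨j', ⟨rfl, e⟩ | ⟨-, e⟩⟩) H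
    · refine .inr (.inr (.inr (.inr (.inl (.inr ⟨rows_mem_pt _ ha,
        mem_lowS h2 (rows_mem_pt _ hb) (low_of_small' h2 (rows_mem_pt g' hb) fun l => ?_)⟩)))))
      have a1 := S_y_le hS l
      have a2 := S_y_le ha l
      have a4 : |(h - a) l| ≤ |h l| + |a l| := abs_sub _ _
      rw [H]; omega
    · obtain rfl : j = j' := (Fam.y.inj e).1
      exact .inr (.inr (.inr (.inl (.inr ⟨mem_lev_c (rows_mem_pt _ ha),
        .inr (mem_lowS h2 (rows_mem_pt _ hb) (rows_low h2 hS ha hb rfl rfl H))⟩))))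
    · cases e
  · intro F1 F2 g g' a b h1 h2 ha hb o H
    have c1 := ci_le h1
    simp only [RowsOrd, Prod.mk.injEq, Fam.ix] at o
    rcases o with ⟨m, e, ⟨x1, x2, x3⟩, y1, y2, y3⟩ | ⟨⟨x1, x2, x3⟩, y1, y2, -⟩ | ⟨e, -⟩ |
      ⟨-, ⟨x1, x2, -⟩, y1, y2, -⟩ | ⟨e, -⟩ | ⟨e, -⟩
    · obtain rfl : i = m := Nat.succ_injective e
      obtain rfl := rows_zero h2 y1 y2
      have e2 : g' = g1 := by
        have : ∀ g : Gp, gm g1 (gm g (2, 1)) = (2, 1) → g = g1 := by decide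
        exact this g' y3
      subst e2
      rcases Nat.eq_zero_or_pos i with rfl | hm
      · obtain rfl := rows_zero h1 x1 x2
        have e1 : g = (1, 1) := by
          have : ∀ g : Gp, gm g1 (gm g (2, 1)) = g1 → g = (1, 1) := by decide
          exact this g x3
        subst e1
        exact .inl ⟨rfl, .inr ⟨rows_mem_pt _ ha, rows_mem_pt _ hb⟩⟩
      · rcases rows_pos x1 x2 hm with ⟨e', -⟩ | rfl
        · omega
        · obtain rfl := gg g x3
          exact .inr (.inl ⟨hm, .inr ⟨rows_mem_pt _ ha, rows_mem_pt _ hb⟩⟩)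
    · change _ = i + 2 at x2
      obtain rfl := rows_zero h2 y1 y2
      rcases rows_pos x1 x2 (by omega) with ⟨-, rfl⟩ | rfl
      · exact .inr (.inr (.inr (.inl (.inr ⟨mem_lev_c (rows_mem_pt _ ha),
          .inl (mem_lev_b (rows_mem_pt _ hb))⟩))))
      · obtain rfl := gg g x3
        exact .inr (.inr (.inl ⟨c1, .inr ⟨rows_mem_pt _ ha, mem_lev_b (rows_mem_pt _ hb)⟩⟩))
    · cases e
    · obtain rfl := rows_zero h1 x1 x2
      obtain rfl := rows_zero h2 y1 y2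
      exact .inr (.inr (.inr (.inl (.inl ⟨.inl (mem_lev_b (rows_mem_pt _ ha)),
        mem_lev_b (rows_mem_pt _ hb)⟩))))
    · cases e
    · cases e

end

end Pool.Agent.Work.MP_6bf1e5_an.Hyp.Pd
end

-- merged part: Pool.Agent.Work.MP_6bf1e5_an.Hyp.Layer
section
/-!
The layers, and the linear part of the equation of a tooth.
-/

open Set Complex
open scoped InnerProductSpace ComplexConjugate Classical
open Pool.Agent.Work.MP_6bf1e5_an.B
open Pool.Agent.Work.MP_6bf1e5_an.Hyp.Dec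

namespace Pool.Agent.Work.MP_6bf1e5_an.Hyp.Pd

noncomputable section

variable {G : Geo}

lemma Layer_count (m : ℕ) {δ : ℝ} (hδ : 0 ≤ δ) :
    ∑ k ∈ Finset.Icc (-(m : ℤ)) m, (if (1 - δ) * (m + 1) < |(k : ℝ)| then (1 : ℝ) else 0) ≤
      2 * δ * (m + 1) := by
  have h0 : (0 : ℝ) ≤ δ * (m + 1) := by positivity
  obtain ⟨u, hu⟩ : ∃ u : ℕ, u = ⌊δ * (m + 1)⌋₊ := ⟨_, rfl⟩
  have hu1 : (u : ℝ) ≤ δ * (m + 1) := hu ▸ Nat.floor_le h0
  have hu2 : δ * (m + 1) < u + 1 := hu ▸ Nat.lt_floor_add_one _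
  rw [Finset.sum_boole]
  have hs : ((Finset.Icc (-(m : ℤ)) m).filter fun k : ℤ => (1 - δ) * (m + 1) < |(k : ℝ)|) ⊆
      Finset.Icc ((m : ℤ) + 1 - u) m ∪ Finset.Icc (-(m : ℤ)) (-((m : ℤ) + 1 - u)) := by
    intro k hk
    obtain ⟨h1, h2⟩ := Finset.mem_filter.1 hk
    have h3 : (m : ℝ) - u < |(k : ℝ)| := by linarith only [hu2, h2]
    have h4 : (m : ℤ) - u < |k| := by exact_mod_cast h3
    simp only [Finset.mem_union, Finset.mem_Icc] at h1 ⊢
    rcases abs_cases k with h | h <;> omega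
  have h5 := (Finset.card_le_card hs).trans (Finset.card_union_le _ _)
  rw [Int.card_Icc, Int.card_Icc] at h5
  have h6 : ((Finset.Icc (-(m : ℤ)) m).filter
      fun k : ℤ => (1 - δ) * (m + 1) < |(k : ℝ)|).card ≤ 2 * u := by omega
  have h7 : (((Finset.Icc (-(m : ℤ)) m).filter
      fun k : ℤ => (1 - δ) * (m + 1) < |(k : ℝ)|).card : ℝ) ≤ 2 * u := by exact_mod_cast h6
  linarith only [hu1, h7]

lemma Layer_count3 (n : N3) {δ : ℝ} (hδ : 0 ≤ δ) (i : Fin 3) :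
    ∑ h ∈ bx n, (if (1 - δ) * (n i + 1) < |(h i : ℝ)| then (1 : ℝ) else 0) ≤
      8 * δ * Nn n ^ 2 := by
  let a : Fin 3 → ℤ → ℝ := fun j k =>
    if j = i then (if (1 - δ) * (n j + 1) < |(k : ℝ)| then 1 else 0) else 1
  have e1 : ∀ h : Z3, (if (1 - δ) * (n i + 1) < |(h i : ℝ)| then (1 : ℝ) else 0) =
      ∏ j, a j (h j) := by
    intro h
    rw [Finset.prod_eq_single i (fun j _ hj => by simp only [a, if_neg hj]) (by simp)]
    simp only [a, if_true]
  have e2 : ∀ j, ∑ k ∈ Finset.Icc (-(n j : ℤ)) (n j), a j k ≤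
      (if j = i then δ else 1) * (2 * ((n j : ℝ) + 1)) := by
    intro j
    by_cases hj : j = i
    · simp only [a, if_pos hj]
      have := Layer_count (n j) hδ
      linarith
    · simp only [a, if_neg hj, Finset.sum_const, Int.card_Icc, nsmul_eq_mul]
      have h1 : ((n j : ℤ) + 1 - -(n j : ℤ)).toNat = 2 * n j + 1 := by omega
      rw [h1]
      push_cast
      linarith only []
  simp only [e1]
  rw [bx, ← Finset.prod_univ_sum]
  refine (Finset.prod_le_prod (fun j _ => Finset.sum_nonneg fun k _ => ?_)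
    fun j _ => e2 j).trans (le_of_eq ?_)
  · simp only [a]
    split_ifs <;> norm_num
  · rw [Finset.prod_mul_distrib, Finset.prod_mul_distrib, Nn_sq, Finset.prod_ite_eq']
    simp only [Finset.mem_univ, if_true, Finset.prod_const, Finset.card_univ, Fintype.card_fin]
    ring

lemma Layer_num (G : Geo) (j : ℕ) : G.Gc j ^ 2 * (24 * G.δ) ≤ G.ell j ^ 2 := by
  have hC := C_big G
  have hC0 : 0 < G.C := Real.exp_pos _
  have hp := G.Ga_pos
  have h2 : 120 * G.Ga ≤ G.L ^ 1000 := by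
    have a1 := G.Ga_hi
    have a2 : (120 : ℝ) ≤ G.t ^ 20 :=
      (le_trans (by norm_num) (t_big G)).trans (le_self_pow₀ (one_le_t G) (by norm_num))
    have a3 : G.L ^ 3 ≤ G.L ^ 1000 := G.L_pow_le (by norm_num)
    nlinarith only [hp, a1, a2, a3]
  have hE : 0 < Real.exp (G.Ga ^ 2) := Real.exp_pos _
  have h3 : 120 * G.Ga * Real.exp (G.Ga ^ 2) ≤ G.C :=
    le_trans (mul_le_mul_of_nonneg_right h2 hE.le) hC
  have e1 : G.Gc j = 23 * G.C * (G.Ga * G.lm j) := by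
    rw [Geo.Gc, G.lm_succ]
  rw [e1, Geo.ell, Geo.δ, Real.exp_neg]
  generalize Real.exp (G.Ga ^ 2) = E at *
  generalize G.Ga = p at *
  generalize G.C = C at *
  generalize G.lm j = l at *
  have h4 : (120 * p * E) ^ 2 ≤ C ^ 2 := pow_le_pow_left₀ (by positivity) h3 2
  have e2 : (23 * C * (p * l)) ^ 2 * (24 * (C ^ 4)⁻¹) =
      12696 * (p * E) ^ 2 * (l ^ 2 / (C ^ 2 * E ^ 2)) := by field_simp; ring
  have e3 : (E⁻¹ * l) ^ 2 = C ^ 2 * (l ^ 2 / (C ^ 2 * E ^ 2)) := by field_simp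
  rw [e2, e3]
  refine mul_le_mul_of_nonneg_right ?_ (by positivity)
  linarith only [h4, sq_nonneg (p * E)]

lemma Layer_ell (G : Geo) (j : ℕ) : 0 ≤ G.ell j :=
  mul_nonneg (Real.exp_pos _).le (G.lm_pos j).le

theorem lay_tooth (F : Fam) : Lay (F.rad G) (G.ell F.ix) (lay G F) := by
  have d1 := dd_le_Gc G F
  have d2 := dd_pos G F
  have hδ := δ_pos G
  have nn : ∀ h, 0 ≤ lay G F h := by
    intro h
    unfold lay
    split_ifs
    · exact mul_nonneg (sub_nonneg.2 (chi1_le_one _ _)) (sub_nonneg.2 d1)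
    · exact le_rfl
  refine ⟨nn, Layer_ell G _, ?_⟩
  have key : ∀ h ∈ bx (F.rad G), lay G F h ^ 2 ≤ G.Gc F.ix ^ 2 *
      ∑ i, (if (1 - G.δ) * (F.rad G i + 1) < |(h i : ℝ)| then (1 : ℝ) else 0) := by
    intro h hh
    have s0 : ∀ i ∈ (Finset.univ : Finset (Fin 3)), (0 : ℝ) ≤
        if (1 - G.δ) * (F.rad G i + 1) < |(h i : ℝ)| then (1 : ℝ) else 0 := fun i _ => by
      split_ifs <;> norm_num
    by_cases hb : ∃ i, (1 - G.δ) * (F.rad G i + 1) < |(h i : ℝ)|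
    · obtain ⟨i, hi⟩ := hb
      have a1 := Finset.single_le_sum s0 (Finset.mem_univ i)
      rw [if_pos hi] at a1
      have a2 : lay G F h ≤ G.Gc F.ix := by
        unfold lay
        rw [if_pos hh]
        have := chi1_nonneg (G := G) (F.rad G) fun i => (h i : ℝ)
        nlinarith only [d1, d2, this]
      calc lay G F h ^ 2 ≤ G.Gc F.ix ^ 2 := pow_le_pow_left₀ (nn h) a2 2
        _ = G.Gc F.ix ^ 2 * 1 := (mul_one _).symm
        _ ≤ _ := mul_le_mul_of_nonneg_left a1 (sq_nonneg _)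
    · have a1 : chi1 G (F.rad G) (fun i => (h i : ℝ)) = 1 := by
        refine Finset.prod_eq_one fun i _ => bmp_one hδ ?_
        have p0 : (0 : ℝ) < F.rad G i + 1 := by positivity
        rw [abs_div, abs_of_pos p0, div_le_iff₀ p0]
        exact not_lt.1 fun hi => hb ⟨i, hi⟩
      have a2 : lay G F h = 0 := by
        unfold lay
        rw [if_pos hh, a1, sub_self, zero_mul]
      rw [a2]
      have := mul_nonneg (sq_nonneg (G.Gc F.ix)) (Finset.sum_nonneg s0)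
      simpa using this
  refine (Finset.sum_le_sum key).trans ?_
  rw [← Finset.mul_sum, Finset.sum_comm]
  have a3 := Finset.sum_le_sum fun i (_ : i ∈ (Finset.univ : Finset (Fin 3))) =>
    Layer_count3 (F.rad G) hδ.le i
  rw [Finset.sum_const, Finset.card_univ, Fintype.card_fin, nsmul_eq_mul] at a3
  calc _ ≤ G.Gc F.ix ^ 2 * ((3 : ℕ) * (8 * G.δ * Nn (F.rad G) ^ 2)) :=
        mul_le_mul_of_nonneg_left a3 (sq_nonneg _)
    _ = G.Gc F.ix ^ 2 * (24 * G.δ) * Nn (F.rad G) ^ 2 := by push_cast; ring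
    _ ≤ G.ell F.ix ^ 2 * Nn (F.rad G) ^ 2 :=
        mul_le_mul_of_nonneg_right (Layer_num G _) (sq_nonneg _)
    _ = _ := by ring

lemma lay_zero (n : N3) (j : ℕ) : Lay n (G.ell j) 0 := by
  refine ⟨fun _ => le_rfl, Layer_ell G j, ?_⟩
  simpa using sq_nonneg (G.ell j * Nn n)

lemma ell_mono (j : ℕ) : G.ell j ≤ G.ell (j + 1) :=
  mul_le_mul_of_nonneg_left (G.lm_mono (Nat.le_succ j)) (Real.exp_pos _).le

lemma env_eq_tooth (j i : ℕ) (β : Z3 → E3) : env G (.y j i) β = tooth G (.y j i) 0 1 β := by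
  rw [env, tooth, S_y]
  simp only [inv_one, one_mul, zero_add]
  rfl

lemma Layer_rhs {β : Z3 → E3} (H : Adm β) {F : Fam} (hF : F.ok G) {x h : Z3}
    (hx : x ∈ F.cens G) (hh : h ∈ bx (F.rad G)) :
    ⟪F.e G, rhs G β (F.ctr G + (x + h))⟫_ℝ =
      ⟪lp (xi (F.ctr G + x + h)) (F.e G), BR β β (F.ctr G + x + h)⟫_ℝ -
        F.dd G * ⟪F.e G, β (F.ctr G + (x + h))⟫_ℝ -
        lay G F h * ⟪F.e G, β (F.ctr G + (x + h))⟫_ℝ := by
  have hS : x + h ∈ F.S G := mem_S.2 ⟨x, hx, by simpa using hh⟩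
  have e1 := sc_pt hF g1 hS
  have e2 := dm_pt hF g1 hS
  have e3 := vec_pt hF g1 hS
  rw [pt_g1] at e1 e2 e3
  rw [ge_g1] at e3
  have e4 := chi_tooth hF hx hh
  have e5 : ⟪F.e G, ur (xi (F.ctr G + (x + h))) (F.e G)⟫_ℝ = 1 := by
    rw [← inner_lp_left (inner_xi_ur _ _)]
    exact inner_lp_ur hF hS
  rw [add_assoc, rhs, AR, Pj, e1, e2, e3, e4, inner_lp_left (H.div _), lay, if_pos hh]
  simp only [inner_sub_right, real_inner_smul_right, inner_lp_swap, e5]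
  ring

/-- The equation of a tooth. -/
theorem hd_tooth {α : ℝ → Z3 → E3} (H : RSol G α) {F : Fam} (hF : F.ok G) {x : Z3}
    (hx : x ∈ F.cens G) (ω : ℝ) {t : ℝ} (ht : 0 ≤ t) :
    HD (fun t => tooth G F x ω (α t))
      (((ω⁻¹ : ℝ) : ℂ) • Tst (F.e G) (F.ctr G + x) (F.rad G) (BF G α t) -
        (F.dd G : ℂ) • tooth G F x ω (α t) - mulr (lay G F) (tooth G F x ω (α t))) t := by
  have h1 : HD (fun t => tooth G F x ω (α t)) (mk (bx (F.rad G)) fun h =>
      ((ω⁻¹ * ⟪F.e G, rhs G (α t) (F.ctr G + (x + h)) +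
        frc G α t (F.ctr G + (x + h))⟫_ℝ : ℝ) : ℂ)) t := by
    refine hd_mk _ fun h _ => ?_
    have a1 : HD (fun t => ⟪F.e G, α t (F.ctr G + (x + h))⟫_ℝ)
        ⟪F.e G, rhs G (α t) (F.ctr G + (x + h)) + frc G α t (F.ctr G + (x + h))⟫_ℝ t :=
      (innerSL ℝ (F.e G)).hasFDerivAt.comp_hasDerivWithinAt t (H.deriv _ t ht)
    exact (a1.const_mul ω⁻¹).ofReal_comp
  convert h1 using 1
  ext h
  by_cases hh : h ∈ bx (F.rad G)
  · simp only [AddMonoidAlgebra.coeff_sub, AddMonoidAlgebra.coeff_smul, Finsupp.coe_sub,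
      Finsupp.coe_smul, Pi.sub_apply, Pi.smul_apply, smul_eq_mul, coeff_mulr, Tst, tooth,
      coeff_mk, if_pos hh, inner_add_right, Layer_rhs (H.adm t ht) hF hx hh, BF,
      inner_lp_left (H.fdiv t ht _), add_assoc (F.ctr G)]
    push_cast
    ring
  · simp [Tst, tooth, coeff_mk, hh]

end

end Pool.Agent.Work.MP_6bf1e5_an.Hyp.Pd
end

-- merged part: Pool.Agent.Work.MP_6bf1e5_an.Hyp.EqA
section
/-!
Common steps in the equations of the teeth.
-/

open Set Complex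
open scoped InnerProductSpace ComplexConjugate Classical
open Pool.Agent.Work.MP_6bf1e5_an.B
open Pool.Agent.Work.MP_6bf1e5_an.Hyp.Dec

namespace Pool.Agent.Work.MP_6bf1e5_an.Hyp.Pd

noncomputable section

variable {G : Geo}

lemma EqA_off (j : ℕ) {o o' : Fin 4} (h : o' ≠ o) :
    ∃ i, (G.n j : ℤ) ≤ |G.off j o i - G.off j o' i| := by
  have h0 : (0 : ℤ) ≤ G.n j := Int.natCast_nonneg _
  have key : (G.n j : ℤ) ≤ |G.off j o 1 - G.off j o' 1| ∨
      (G.n j : ℤ) ≤ |G.off j o 2 - G.off j o' 2| := by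
    fin_cases o <;> fin_cases o' <;> simp [Geo.off, le_abs] at h ⊢
  exact key.elim (fun a => ⟨1, a⟩) fun a => ⟨2, a⟩

/-- Only the tooth `o` of a comb contributes to the tooth `o`. -/
theorem pj_comb (R : Raw) (j : ℕ) (o : Fin 4) {f : Fin 4 → V} (hf : ∀ o, Sp (G.rc (j + 1)) (f o))
    {A : V} (hA : Sp (fun i => 2 * G.rd j i) A) {n : N3} (hn : ∀ i, n i ≤ G.rc (j + 1) i) :
    pj n (sh (-G.off (j + 1) o) * (R.comb G (j + 1) f * A)) = (R.om o : ℂ) • pj n (f o * A) := by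
  have key : ∀ o', pj n (sh (-G.off (j + 1) o) * (sh (G.off (j + 1) o') * (f o' * A))) =
      if o' = o then pj n (f o * A) else 0 := by
    intro o'
    ext h
    rw [coeff_pj, coeff_sh_mul, coeff_sh_mul]
    by_cases ho : o' = o
    · subst ho
      rw [if_pos rfl, coeff_pj]
      congr 2
      abel
    · rw [if_neg ho]
      by_cases hh : h ∈ bx n
      · rw [if_pos hh]
        refine ((hf o').mul hA) _ fun hm => ?_
        obtain ⟨i, hi⟩ := EqA_off (G := G) (j + 1) ho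
        have a1 := mem_bx.1 hh i
        have a2 := mem_bx.1 hm i
        have a3 := hn i
        have a4 := rc_small G (j + 1) i
        have a5 : 2 * G.rd j i ≤ G.rc (j + 1) i := Nat.le_add_left _ _
        simp only [Pi.sub_apply, Pi.neg_apply, Pi.add_apply] at a2
        rw [abs_le] at a1 a2
        rw [le_abs] at hi
        omega
      · rw [if_neg hh]
        rfl
  rw [Raw.comb, Finset.sum_mul, Finset.mul_sum, map_sum]
  simp only [smul_mul_assoc, mul_smul_comm, map_smul, mul_assoc, key]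
  rw [Finset.sum_eq_single o (fun o' _ ho => by rw [if_neg ho, smul_zero]) (by simp), if_pos rfl]

lemma sp_A (α : ℝ → Z3 → E3) (j : ℕ) (t : ℝ) :
    Sp (fun i => 2 * G.rd j i) ((rawOf G α).A G j t) := by
  have h1 : Sp (fun i => 2 * G.rB j i) ((rawOf G α).B G j t) := by
    rw [← env_b]
    exact sp_of_subset ((support_mk _ _).trans (S_b_subset j))
  refine h1.tau.mono fun i => le_of_eq ?_
  fin_cases i <;> rfl

/-- The junk, in the form used in the equations. -/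
lemma junk_Jk {α : ℝ → Z3 → E3} {t : ℝ} (H : RSol G α) (ht : 0 ≤ t) (e : E3) (r0 : Z3) (n : N3) :
    ‖Tst e r0 n (BF G α t) - Tst e r0 n (BR (act G (α t)) (act G (α t)))‖ ≤
      ‖e‖ * (rawOf G α).Jk t := by
  have h1 := junk_le (G := G) (H.adm t ht) e r0 n
  have h2 := norm_Tst_le e r0 n (X := frc G α t) (K := (rawOf G α).X t)
    ⟨tsum_nonneg fun _ => norm_nonneg _, fun F =>
      (Finset.sum_sq_le_sq_sum_of_nonneg fun _ _ => norm_nonneg _).trans (pow_le_pow_left₀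
        (Finset.sum_nonneg fun _ _ => norm_nonneg _)
        ((H.sm t ht).sum_le_tsum F fun _ _ => norm_nonneg _) 2)⟩
  have e1 : Tst e r0 n (BF G α t) = Tst e r0 n (BR (α t) (α t)) + Tst e r0 n (frc G α t) :=
    Tst_add e r0 n _ _
  rw [e1, add_sub_right_comm, Raw.Jk, mul_add]
  exact (norm_add_le _ _).trans (add_le_add h1 h2)

/-- The interaction of two tails. -/
lemma Cv_tail {α : ℝ → Z3 → E3} {t : ℝ} (H : Adm (α t)) (n : N3) (i : ℕ) :
    Cv n (nb (act G (α t)) (Tail G i)) (nb (act G (α t)) (Tail G i))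
      (3 * Nn n * (rawOf G α).ET i t) := by
  have h0 : 0 ≤ (rawOf G α).ET i t := tsum_nonneg fun _ => sq_nonneg _
  have := Cv_l2 n (nb_nonneg _ _) (nb_nonneg _ _) (L2_Tail (G := G) H i) (L2_Tail (G := G) H i)
  rwa [Real.mul_self_sqrt h0] at this

/-- Splitting of the tested transport operator. -/
lemma Tst_split {β : Z3 → E3} (H : Rapid β) (e : E3) (r0 : Z3) (n : N3) {P : Z3 → Z3 → Prop}
    {W1 W2 : Set Z3} (hd : ∀ k ∈ W1, k ∉ W2) (hP : ∀ p q, UPair W1 W2 p q → P p q) :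
    Tst e r0 n (RP β P) =
      Tst e r0 n (SB β W1 W2) + Tst e r0 n (RP β fun p q => P p q ∧ ¬UPair W1 W2 p q) := by
  rw [← Tst_add]
  congr 1
  funext r
  exact RP_split H hd hP r

lemma Jk_nonneg (α : ℝ → Z3 → E3) (t : ℝ) : 0 ≤ (rawOf G α).Jk t := by
  have h1 : 0 ≤ (rawOf G α).U t := tsum_nonneg fun _ => norm_nonneg _
  have h2 : 0 ≤ (rawOf G α).Fj t := tsum_nonneg fun _ => norm_nonneg _
  have h3 : 0 ≤ (rawOf G α).H t := Real.sqrt_nonneg _
  have h4 : 0 ≤ (rawOf G α).Hj t := Real.sqrt_nonneg _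
  exact add_nonneg (add_nonneg (mul_nonneg h1 h4) (mul_nonneg h2 h3))
    (tsum_nonneg fun _ => norm_nonneg _)

lemma nl_nonneg (α : ℝ → Z3 → E3) (j : ℕ) (t : ℝ) : 0 ≤ (rawOf G α).nl G j t := by
  exact mul_nonneg (zero_le_one.trans (N_pos G j)) (lev_nonneg j)

lemma ny_nonneg (α : ℝ → Z3 → E3) (j : ℕ) (t : ℝ) : 0 ≤ (rawOf G α).ny G j t := by
  exact mul_nonneg (zero_le_one.trans (N_pos G j))
    (mul_nonneg (pow_nonneg G.L_pos.le _) (ch_nonneg j))

lemma LowL_nonneg (α : ℝ → Z3 → E3) (j : ℕ) (t : ℝ) : 0 ≤ (rawOf G α).LowL G j t := by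
  exact Finset.sum_nonneg fun i _ => nl_nonneg α i t

lemma LowY_nonneg (α : ℝ → Z3 → E3) (j : ℕ) (t : ℝ) : 0 ≤ (rawOf G α).LowY G j t := by
  exact Finset.sum_nonneg fun i _ => ny_nonneg α i t

lemma ET_nonneg (α : ℝ → Z3 → E3) (i : ℕ) (t : ℝ) : 0 ≤ (rawOf G α).ET i t := by
  exact tsum_nonneg fun _ => sq_nonneg _

lemma tau0_nonneg (G : Geo) : 0 ≤ G.tau0 := by
  exact G.tau0_pos.le

end

end Pool.Agent.Work.MP_6bf1e5_an.Hyp.Pd
end

-- merged part: Pool.Agent.Work.MP_6bf1e5_an.Hyp.EqBA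
section
/-!
The equation of a tooth with one main interaction.
-/

open Set Complex
open scoped InnerProductSpace ComplexConjugate Classical
open Pool.Agent.Work.MP_6bf1e5_an.B
open Pool.Agent.Work.MP_6bf1e5_an.Hyp.Dec

namespace Pool.Agent.Work.MP_6bf1e5_an.Hyp.Pd

noncomputable section

variable {G : Geo} {α : ℝ → Z3 → E3}

theorem eqb_main (H : RSol G α) {F : Fam} (hF : F.ok G) {x : Z3} (hx : x ∈ F.cens G) {ω : ℝ}
    (hω : 1 ≤ ω) {t : ℝ} (ht : 0 ≤ t) {W1 W2 : Set Z3} (hd : ∀ k ∈ W1, k ∉ W2) {M : V}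
    {e1 e2 : ℝ}
    (h1 : ‖Tst (F.e G) (F.ctr G + x) (F.rad G) (SB (act G (α t)) W1 W2) - (ω : ℂ) • M‖ ≤ e1)
    (h2 : ‖Tst (F.e G) (F.ctr G + x) (F.rad G)
      (RP (act G (α t)) fun p q => True ∧ ¬UPair W1 W2 p q)‖ ≤ e2) :
    ∃ r, ‖r‖ ≤ e1 + e2 + ‖F.e G‖ * (rawOf G α).Jk t ∧ HD (fun t => tooth G F x ω (α t))
      (M - (F.dd G : ℂ) • tooth G F x ω (α t) - mulr (lay G F) (tooth G F x ω (α t)) + r) t := by
  have ha := H.adm t ht
  have h3 := junk_Jk H ht (F.e G) (F.ctr G + x) (F.rad G)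
  have h4 := Tst_split (adm_act (G := G) ha).rapid (F.e G) (F.ctr G + x) (F.rad G)
    (P := fun _ _ => True) hd fun _ _ _ => trivial
  rw [← BR_eq_RP] at h4
  have ω0 : 0 < ω := by linarith
  refine ⟨((ω⁻¹ : ℝ) : ℂ) • Tst (F.e G) (F.ctr G + x) (F.rad G) (BF G α t) - M, ?_, ?_⟩
  · have e : ((ω⁻¹ : ℝ) : ℂ) • Tst (F.e G) (F.ctr G + x) (F.rad G) (BF G α t) - M =
        ((ω⁻¹ : ℝ) : ℂ) • ((Tst (F.e G) (F.ctr G + x) (F.rad G) (SB (act G (α t)) W1 W2) -
          (ω : ℂ) • M) + Tst (F.e G) (F.ctr G + x) (F.rad G)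
            (RP (act G (α t)) fun p q => True ∧ ¬UPair W1 W2 p q) +
          (Tst (F.e G) (F.ctr G + x) (F.rad G) (BF G α t) -
            Tst (F.e G) (F.ctr G + x) (F.rad G) (BR (act G (α t)) (act G (α t))))) := by
      have e2 : M = ((ω⁻¹ : ℝ) : ℂ) • ((ω : ℂ) • M) := by
        rw [smul_smul, ← Complex.ofReal_mul, inv_mul_cancel₀ ω0.ne', Complex.ofReal_one, one_smul]
      rw [h4]
      conv_lhs => rw [e2]
      rw [← smul_sub]
      congr 1
      abel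
    rw [e, norm_smul, Complex.norm_real, Real.norm_of_nonneg (inv_pos.mpr ω0).le]
    refine (mul_le_of_le_one_left (norm_nonneg _) (inv_le_one_of_one_le₀ hω)).trans ?_
    exact norm_add₃_le.trans (by linarith)
  · refine (hd_tooth H hF hx ω ht).congr_deriv ?_
    abel

lemma eqb_mem {F : Fam} {x h : Z3} (hx : x ∈ F.cens G) (hh : h ∈ bx (F.rad G)) : x + h ∈ F.S G :=
  mem_S.2 ⟨x, hx, by simpa using hh⟩

lemma eqb_sh0 (f : V) : sh 0 * f = f := by
  ext h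
  rw [coeff_sh_mul, sub_zero]

end

end Pool.Agent.Work.MP_6bf1e5_an.Hyp.Pd
end

-- merged part: Pool.Agent.Work.MP_6bf1e5_an.Hyp.EqB
section
/-!
The equation of the first comb.
-/

open Set Complex
open scoped InnerProductSpace ComplexConjugate Classical
open Pool.Agent.Work.MP_6bf1e5_an.B
open Pool.Agent.Work.MP_6bf1e5_an.Hyp.Dec

namespace Pool.Agent.Work.MP_6bf1e5_an.Hyp.Pd

noncomputable section

variable {G : Geo} {α : ℝ → Z3 → E3}

/-- The remaining interactions of a tooth of the first comb. -/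
lemma eqb_rest {t : ℝ} (ha : Adm (α t)) (j : ℕ) (o : Fin 4) {P : Z3 → Z3 → Prop}
    (hP : ∀ p q, P p q → ¬∃ i, j = i + 1 ∧ UPair (Pt G (.c i) g1) (Pt G (.b i) (1, -1)) p q) :
    ‖Tst ((Fam.b j).e G) ((Fam.b j).ctr G + G.off j o) ((Fam.b j).rad G)
      (RP (act G (α t)) P)‖ ≤ 2 * (11 / 10 * G.lam j) *
      (10 * (rawOf G α).ny G j t * (10 * (rawOf G α).ch G j t +
          (100 * (rawOf G α).lev j t + 100 * (rawOf G α).lev (j + 1) t)) +
        3 * G.N j * (100 * (rawOf G α).lev (j + 1) t * (100 * (rawOf G α).lev (j + 1) t)) +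
        2000 * (rawOf G α).Low G j t * (100 * (rawOf G α).lev j t) +
        3 * G.N j * (rawOf G α).ET (j + G.kk - 1) t) := by
  have hx : G.off j o ∈ (Fam.b j).cens G := mem_cens_b.2 ⟨o, rfl⟩
  have := rest_le (adm_act (G := G) ha) (ι := Fin 4)
    (W1 := ![LadS G j, Lev G (j + 1), LowS G j, Tail G (j + G.kk - 1)])
    (W2 := ![LadS G j ∪ (Lev G j ∪ Lev G (j + 1)), Lev G (j + 1), Lev G j, Tail G (j + G.kk - 1)])
    (K := ![10 * (rawOf G α).ny G j t * (10 * (rawOf G α).ch G j t +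
          (100 * (rawOf G α).lev j t + 100 * (rawOf G α).lev (j + 1) t)),
        3 * G.N j * (100 * (rawOf G α).lev (j + 1) t * (100 * (rawOf G α).lev (j + 1) t)),
        2000 * (rawOf G α).Low G j t * (100 * (rawOf G α).lev j t),
        3 * G.N j * (rawOf G α).ET (j + G.kk - 1) t])
    (n := (Fam.b j).rad G) ?_ (P := P) (e := (Fam.b j).e G) (r0 := (Fam.b j).ctr G + G.off j o)
    (c := 11 / 10 * G.lam j) ?_ ?_
  · rwa [Fin.sum_univ_four] at this
  · intro i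
    fin_cases i
    · exact Cv_l1 _ (nb_nonneg _ _) (nb_nonneg _ _) (L1_Lad ha j)
        ((L2_Lad ha j).union ((L2_Lev ha j).union (L2_Lev ha (j + 1))))
    · exact Cv_l2 _ (nb_nonneg _ _) (nb_nonneg _ _) (L2_Lev ha (j + 1)) (L2_Lev ha (j + 1))
    · exact Cv_l1 _ (nb_nonneg _ _) (nb_nonneg _ _) (L1_LowS ha j) (L2_Lev ha j)
    · exact Cv_tail ha _ _
  · intro h hh
    have h1 : ‖(Fam.b j).e G‖ = 1 := norm_eB G
    rw [h1, one_mul, add_assoc]
    exact ax_b (eqb_mem hx hh)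
  · intro h hh p q hpq hp p0 q0
    obtain ⟨F1, g, f1, m1⟩ := exists_pt p0
    obtain ⟨F2, g', f2, m2⟩ := exists_pt q0
    rcases rows_b (eqb_mem hx hh) f1 f2 m1 m2 (by rw [hpq, add_assoc]) with h1 | h1 | h1 | h1 | h1
    · exact absurd h1 (hP p q hp)
    · exact ⟨0, h1⟩
    · exact ⟨1, h1⟩
    · exact ⟨2, h1⟩
    · exact ⟨3, h1⟩

lemma eqb_num {t : ℝ} (j : ℕ) {e1 : ℝ}
    (h : e1 ≤ 10 ^ 6 * G.lam j * (G.tau0 * (rawOf G α).pv G j t * (rawOf G α).lev j t)) :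
    e1 + 2 * (11 / 10 * G.lam j) *
      (10 * (rawOf G α).ny G j t * (10 * (rawOf G α).ch G j t +
          (100 * (rawOf G α).lev j t + 100 * (rawOf G α).lev (j + 1) t)) +
        3 * G.N j * (100 * (rawOf G α).lev (j + 1) t * (100 * (rawOf G α).lev (j + 1) t)) +
        2000 * (rawOf G α).Low G j t * (100 * (rawOf G α).lev j t) +
        3 * G.N j * (rawOf G α).ET (j + G.kk - 1) t) + ‖(Fam.b j).e G‖ * (rawOf G α).Jk t ≤
      (rawOf G α).eb G j t := by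
  have h1 : ‖(Fam.b j).e G‖ = 1 := norm_eB G
  have h2 := Jk_nonneg (G := G) α t
  have h3 := ny_nonneg (G := G) α j t
  have h4 := ch_nonneg (G := G) (α := α) (t := t) j
  have h5 := lev_nonneg (G := G) (α := α) (t := t) j
  have h6 := lev_nonneg (G := G) (α := α) (t := t) (j + 1)
  have h7 : 0 ≤ (rawOf G α).Low G j t := add_nonneg (LowL_nonneg α j t) (LowY_nonneg α j t)
  have h8 := ET_nonneg (G := G) α (j + G.kk - 1) t
  have h9 : 0 ≤ G.N j := zero_le_one.trans (N_pos G j)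
  have h10 : 0 ≤ G.lam j := zero_le_one.trans (lam_pos G j)
  have e : G.L ^ 3 * G.N j * (rawOf G α).ch G j t = (rawOf G α).ny G j t := by
    unfold Raw.ny; ring
  rw [h1, Raw.eb, e]
  generalize (rawOf G α).ny G j t = ny at *
  generalize (rawOf G α).ch G j t = ch at *
  generalize (rawOf G α).lev j t = l0 at *
  generalize (rawOf G α).lev (j + 1) t = l1 at *
  generalize (rawOf G α).Low G j t = Lo at *
  generalize (rawOf G α).ET (j + G.kk - 1) t = et at *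
  generalize G.N j = N at *
  generalize G.lam j = lam at *
  have a1 : 0 ≤ lam * (ny * ch) := by positivity
  have a2 : 0 ≤ lam * (ny * l0) := by positivity
  have a3 : 0 ≤ lam * (ny * l1) := by positivity
  have a4 : 0 ≤ lam * (N * l1 * l1) := by positivity
  have a5 : 0 ≤ lam * (N * l1 * ch) := by positivity
  have a6 : 0 ≤ lam * (Lo * l0) := by positivity
  have a7 : 0 ≤ lam * (N * et) := by positivity
  linarith

theorem eqB0 (H : RSol G α) (o : Fin 4) {t : ℝ} (ht : 0 ≤ t) :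
    ∃ r, ‖r‖ ≤ (rawOf G α).eb G 0 t ∧ HD ((rawOf G α).b 0 o)
      (-((G.d 0 : ℂ) • (rawOf G α).b 0 o t) -
        mulr ((rawOf G α).vb 0) ((rawOf G α).b 0 o t) + r) t := by
  have ha := H.adm t ht
  have hx : G.off 0 o ∈ (Fam.b 0).cens G := mem_cens_b.2 ⟨o, rfl⟩
  have h2 := eqb_rest (G := G) ha 0 o (P := fun p q => True ∧ ¬UPair ∅ ∅ p q)
    (fun p q _ ⟨i, hi, _⟩ => by omega)
  have h1 : ‖Tst ((Fam.b 0).e G) ((Fam.b 0).ctr G + G.off 0 o) ((Fam.b 0).rad G)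
      (SB (act G (α t)) ∅ ∅) - ((G.om o : ℝ) : ℂ) • (0 : V)‖ ≤ 0 := by
    rw [smul_zero, sub_zero]
    refine (norm_Tst_le _ _ _ (K := 0) ⟨le_rfl, fun s => ?_⟩).trans (by simp)
    simp [SB]
  obtain ⟨r, r1, r2⟩ := eqb_main H (F := .b 0) trivial hx (om_bounds G o).1 ht
    (fun k hk => absurd hk (notMem_empty k)) h1 h2
  refine ⟨r, r1.trans (eqb_num 0 ?_), ?_⟩
  · simp [Raw.pv]
  · rw [zero_sub] at r2
    exact r2

theorem eqB (H : RSol G α) (j : ℕ) (o : Fin 4) {t : ℝ} (ht : 0 ≤ t) :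
    ∃ r, ‖r‖ ≤ (rawOf G α).eb G (j + 1) t ∧ HD ((rawOf G α).b (j + 1) o)
      (((rawOf G α).kap G j : ℂ) •
          pj (G.rb (j + 1)) (dag ((rawOf G α).A G j t) * (rawOf G α).c (j + 1) o t)
        - (G.d (j + 1) : ℂ) • (rawOf G α).b (j + 1) o t
        - mulr ((rawOf G α).vb (j + 1)) ((rawOf G α).b (j + 1) o t) + r) t := by
  have ha := H.adm t ht
  have hx : G.off (j + 1) o ∈ (Fam.b (j + 1)).cens G := mem_cens_b.2 ⟨o, rfl⟩
  have h2 := eqb_rest (G := G) ha (j + 1) o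
    (P := fun p q => True ∧ ¬UPair (Pt G (.c j) g1) (Pt G (.b j) (1, -1)) p q)
    (fun p q hp ⟨i, hi, h⟩ => by
      obtain rfl : j = i := by omega
      exact hp.2 h)
  have l0 : 0 ≤ G.lam (j + 1) := zero_le_one.trans (lam_pos G _)
  have η0 : 0 ≤ G.lam (j + 1) * G.tau0 := mul_nonneg l0 (tau0_nonneg G)
  have h1 := (main_approx ha (F1 := .c j) (F2 := .b j) trivial trivial g1 (1, -1) (.b (j + 1))
    (G.off (j + 1) o) (n := (Fam.b (j + 1)).rad G) (c0 := G.kp * G.lam j) η0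
    fun h hh a ha b hb => cf_B (eqb_mem hx hh) ha hb).2
  have e1 : gz g1 ((Fam.c j).ctr G) + gz (1, -1) ((Fam.b j).ctr G) -
      ((Fam.b (j + 1)).ctr G + G.off (j + 1) o) = -G.off (j + 1) o := by
    have : gz g1 ((Fam.c j).ctr G) + gz (1, -1) ((Fam.b j).ctr G) = (Fam.b (j + 1)).ctr G := by
      rw [gz_g1]
      ext i
      fin_cases i <;> simp [gz, Fam.ctr]
    rw [this]; abel
  rw [e1, tr_g1, tr_dag_tau (rl_env _ _), env_b, env_c] at h1
  have e2 := pj_comb (G := G) (rawOf G α) j o (f := fun o => (rawOf G α).c (j + 1) o t)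
    (fun o => sp_mk _ _) (sp_A α j t).dag (n := (Fam.b (j + 1)).rad G) (rb_le_rc G (j + 1))
  change pj _ (sh _ * ((rawOf G α).Cc G (j + 1) t * dag (tau ((rawOf G α).B G j t)))) = _ at e2
  rw [e2, smul_comm, mul_comm ((rawOf G α).c (j + 1) o t)] at h1
  obtain ⟨r, r1, r2⟩ := eqb_main H (F := .b (j + 1)) trivial hx (om_bounds G o).1 ht
    (fun k hk hk' => by cases (Pt_disjoint (F := .c j) (F' := .b j) trivial trivial hk hk').1) h1 h2
  refine ⟨r, r1.trans (eqb_num (j + 1) ?_), r2⟩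
  have b1 := norm_Cc_le (G := G) (α := α) (t := t) (j + 1)
  have b2 := l1_B_le (G := G) (α := α) (t := t) j
  have b3 := nl_nonneg (G := G) α j t
  have b4 := ny_nonneg (G := G) α j t
  have b5 := lev_nonneg (G := G) (α := α) (t := t) (j + 1)
  have b6 : ‖(rawOf G α).Cc G (j + 1) t‖ * l1 ((rawOf G α).B G j t) ≤
      18 * (rawOf G α).lev (j + 1) t * (54 * (rawOf G α).nl G j t) :=
    mul_le_mul b1 b2 (l1_nonneg _) (by positivity)
  have b7 : 18 * (rawOf G α).lev (j + 1) t * (54 * (rawOf G α).nl G j t) ≤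
      10 ^ 6 * (((rawOf G α).nl G j t + (rawOf G α).ny G j t) * (rawOf G α).lev (j + 1) t) := by
    linarith only [mul_nonneg b3 b5, mul_nonneg b4 b5]
  refine (mul_le_mul_of_nonneg_left (b6.trans b7) η0).trans (le_of_eq ?_)
  simp only [Raw.pv, Raw.nu]
  ring

end

end Pool.Agent.Work.MP_6bf1e5_an.Hyp.Pd
end

-- merged part: Pool.Agent.Work.MP_6bf1e5_an.Hyp.CoefC
section
/-!
The coefficients of the seed.
-/

open Set Complex
open scoped InnerProductSpace ComplexConjugate Classical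
open Pool.Agent.Work.MP_6bf1e5_an.B
open Pool.Agent.Work.MP_6bf1e5_an.Hyp.Dec

namespace Pool.Agent.Work.MP_6bf1e5_an.Hyp.Pd

noncomputable section

attribute [local irreducible] Fam.S

variable {G : Geo}

lemma cc_inner_diff {a b a0 b0 : E3} {x y A B : ℝ} (ha : ‖a - a0‖ ≤ x) (hb : ‖b - b0‖ ≤ y)
    (hA : ‖a‖ ≤ A) (hB : ‖b0‖ ≤ B) : |⟪a, b⟫_ℝ - ⟪a0, b0⟫_ℝ| ≤ A * y + x * B := by
  have e : ⟪a, b⟫_ℝ - ⟪a0, b0⟫_ℝ = ⟪a, b - b0⟫_ℝ + ⟪a - a0, b0⟫_ℝ := by
    rw [inner_sub_right, inner_sub_left]; ring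
  rw [e]
  refine (abs_add_le _ _).trans (add_le_add ?_ ?_)
  · exact (abs_real_inner_le_norm _ _).trans
      (mul_le_mul hA hb (norm_nonneg _) ((norm_nonneg _).trans hA))
  · exact (abs_real_inner_le_norm _ _).trans
      (mul_le_mul ha hB (norm_nonneg _) ((norm_nonneg _).trans ha))

lemma cc_prod {p q p0 q0 x y A B : ℝ} (hp : |p - p0| ≤ x) (hq : |q - q0| ≤ y) (hA : |p| ≤ A)
    (hB : |q0| ≤ B) : |p * q - p0 * q0| ≤ A * y + x * B := by
  have e : p * q - p0 * q0 = p * (q - q0) + (p - p0) * q0 := by ring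
  rw [e]
  refine (abs_add_le _ _).trans (add_le_add ?_ ?_)
  · rw [abs_mul]; exact mul_le_mul hA hq (abs_nonneg _) ((abs_nonneg _).trans hA)
  · rw [abs_mul]; exact mul_le_mul hp hB (abs_nonneg _) ((abs_nonneg _).trans hp)

lemma cc_inner_v3 (a b c x y z : ℝ) : ⟪v3 a b c, v3 x y z⟫_ℝ = a * x + b * y + c * z := by
  simp [v3, PiLp.inner_apply, Fin.sum_univ_three]; ring

lemma cc_ge_go (o : Fin 4) (x y z : ℝ) : ge (go o) (v3 x y z) =
    ![v3 z x y, v3 (-z) (-x) (-y), v3 y z x, v3 (-y) (-z) (-x)] o := by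
  fin_cases o <;> ext i <;> fin_cases i <;> simp [ge, go, v3]

lemma cc_norm_v3 {x y z B : ℝ} (hB : 0 ≤ B) (h : x ^ 2 + y ^ 2 + z ^ 2 ≤ B ^ 2) :
    ‖v3 x y z‖ ≤ B := by
  refine abs_le_of_sq_le_sq' ?_ hB |>.2
  rw [← real_inner_self_eq_norm_sq, cc_inner_v3]; linarith

lemma cc_le_norm_v3 {x y z : ℝ} : x ≤ ‖v3 x y z‖ := by
  refine abs_le_of_sq_le_sq' ?_ (norm_nonneg _) |>.2
  rw [← real_inner_self_eq_norm_sq, cc_inner_v3]; linarith [sq_nonneg y, sq_nonneg z]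

lemma cc_xi (a b c : ℤ) : xi ![a, b, c] = v3 (2 * Real.pi * a) (2 * Real.pi * b) (2 * Real.pi * c) := by
  ext i; fin_cases i <;> simp [xi, v3]

lemma cc_smul_v3 (s x y z : ℝ) : s • v3 x y z = v3 (s * x) (s * y) (s * z) := by
  ext i; fin_cases i <;> simp [v3]

lemma cc_t : (10 : ℝ) ^ 100 ≤ G.t := t_big G

lemma cc_m0 : 1000 ≤ G.m0 := by
  have h := m0_big G
  have h1 : (1000 : ℝ) ≤ G.t := le_trans (by norm_num) (t_big G)
  have h2 : G.t ^ 1 ≤ G.t ^ 1000 := pow_le_pow_right₀ (by linarith) (by norm_num)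
  rw [pow_one] at h2; linarith

lemma cc_lam (j : ℕ) : G.lam j = 2 * Real.pi * G.n j * G.m0 := by
  have h := lam_div G j
  have h0 : G.m0 ≠ 0 := by have := cc_m0 (G := G); linarith
  rw [← h]; field_simp

lemma cc_ε : 0 < G.ε ∧ G.ε ≤ 1 ∧ G.ε * G.La = 1 := by
  have h : (10 : ℝ) ^ 100 ≤ G.La := by exact_mod_cast La_big G
  have h1 : (1 : ℝ) ≤ G.La := le_trans (by norm_num) h
  unfold Geo.ε
  refine ⟨by positivity, inv_le_one_of_one_le₀ h1, ?_⟩
  exact inv_mul_cancel₀ (by linarith)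

lemma cc_ctr_c (j : ℕ) : xi ((Fam.c j).ctr G) = G.lam (j + 1) • v3 1 G.ε 0 := by
  have h := (cc_ε (G := G)).2.2
  have hP : (G.P (j + 1) : ℝ) = G.La * G.P j := by exact_mod_cast P_succ G j
  rw [Fam.ctr, cc_xi, cc_smul_v3, Geo.lam]
  congr 1
  · simp
  · rw [hP]; push_cast
    calc 2 * Real.pi * (G.P j : ℝ) = 2 * Real.pi * (G.P j : ℝ) * (G.ε * G.La) := by rw [h, mul_one]
      _ = _ := by ring
  · simp

lemma cc_ctr_b (j : ℕ) : xi ((Fam.b j).ctr G) = G.lam j • v3 1 0 0 := by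
  rw [Fam.ctr, cc_xi, cc_smul_v3, Geo.lam]
  congr 1 <;> simp

lemma cc_ctr_y (j : ℕ) : (Fam.y j G.La).ctr G = (Fam.c j).ctr G := by
  have hP : (G.P (j + 1) : ℤ) = G.La * G.P j := by exact_mod_cast P_succ G j
  simp only [Fam.ctr, hP]

lemma cc_ok_y (j : ℕ) : (Fam.y j G.La).ok G :=
  ⟨le_trans (by norm_num) (La_big G), le_rfl⟩

/-- The offsets are small relative to the carriers. -/
lemma cc_off {F : Fam} {h : Z3} (hh : h ∈ F.S G) {m : ℕ} (hs : F.sz G = G.n m)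
    (hX : G.lam m ≤ ‖xi (F.ctr G)‖) : ‖xi h‖ ≤ 2 / G.m0 * ‖xi (F.ctr G)‖ := by
  have h1 := norm_xi_off hh
  have h0 := cc_m0 (G := G)
  rw [hs] at h1
  have h2 : 2 / G.m0 * G.lam m = 4 * Real.pi * G.n m := by
    rw [cc_lam]; field_simp; ring
  have h3 : 2 / G.m0 * G.lam m ≤ 2 / G.m0 * ‖xi (F.ctr G)‖ :=
    mul_le_mul_of_nonneg_left hX (by positivity)
  have h4 : (0 : ℝ) ≤ G.n m := Nat.cast_nonneg _
  nlinarith only [h1, h2, h3, Real.pi_gt_three]

lemma cc_norm_ctr_c (j : ℕ) : G.lam (j + 1) ≤ ‖xi ((Fam.c j).ctr G)‖ ∧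
    ‖xi ((Fam.c j).ctr G)‖ ≤ 2 * G.lam (j + 1) := by
  have h := cc_ε (G := G)
  have hl : 0 ≤ G.lam (j + 1) := le_trans zero_le_one (lam_pos G _)
  rw [cc_ctr_c, norm_smul, Real.norm_of_nonneg hl]
  have h1 : (1 : ℝ) ≤ ‖v3 1 G.ε 0‖ := cc_le_norm_v3
  have h2 : ‖v3 1 G.ε 0‖ ≤ 2 := cc_norm_v3 (by norm_num) (by nlinarith only [h])
  constructor <;> nlinarith only [hl, h1, h2]

lemma cc_norm_ctr_b (j : ℕ) : G.lam j ≤ ‖xi ((Fam.b j).ctr G)‖ ∧
    ‖xi ((Fam.b j).ctr G)‖ ≤ 2 * G.lam j := by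
  have hl : 0 ≤ G.lam j := le_trans zero_le_one (lam_pos G _)
  rw [cc_ctr_b, norm_smul, Real.norm_of_nonneg hl]
  have h1 : (1 : ℝ) ≤ ‖v3 1 0 0‖ := cc_le_norm_v3
  have h2 : ‖v3 1 0 0‖ ≤ 2 := cc_norm_v3 (by norm_num) (by norm_num)
  constructor <;> nlinarith only [hl, h1, h2]

lemma cc_orth : ⟪G.eC, G.eU⟫_ℝ = 0 := by
  rw [Geo.eC, Geo.eU, real_inner_smul_left, real_inner_smul_right, cc_inner_v3]
  ring

lemma cc_e_ne (F : Fam) : F.e G ≠ 0 := by
  intro h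
  have := norm_e_lo G F
  rw [h, norm_zero] at this; linarith

lemma cc_ur_near {F : Fam} (hF : F.ok G) {h : Z3} (hh : h ∈ F.S G) {m : ℕ} (hs : F.sz G = G.n m)
    (hX : G.lam m ≤ ‖xi (F.ctr G)‖) :
    ‖ur (xi (F.ctr G + h)) (F.e G) - (‖F.e G‖ ^ 2)⁻¹ • F.e G‖ ≤ 24 / G.m0 := by
  have h0 := cc_m0 (G := G)
  have hρ : 2 / G.m0 ≤ 1 / 10 := by rw [div_le_div_iff₀ (by linarith only [h0]) (by norm_num)]; linarith only [h0]
  have hX0 : xi (F.ctr G) ≠ 0 := by
    intro e; rw [e, norm_zero] at hX; linarith only [hX, lam_pos G m]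
  have h1 := ur_near (e_orth hF) (cc_off hh hs hX) hρ hX0 (cc_e_ne F)
  rw [xi_add]
  refine h1.trans ?_
  have h2 := norm_e_lo G F
  rw [div_le_div_iff₀ (by linarith only [h2]) (by linarith only [h0])]
  have : 10 * (2 / G.m0) * G.m0 = 20 := by field_simp; ring
  rw [this]; linarith only [h2]

lemma cc_unit (F : Fam) : ‖(‖F.e G‖ ^ 2)⁻¹ • F.e G‖ ≤ 2 := by
  have h2 := norm_e_lo G F
  rw [norm_smul, norm_inv, norm_pow, norm_norm]
  have : (‖F.e G‖ ^ 2)⁻¹ * ‖F.e G‖ = ‖F.e G‖⁻¹ := by field_simp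
  rw [this]
  exact inv_le_of_inv_le₀ (by norm_num) (by linarith)

/-- The coefficient of the seed is close to its value at the carriers. -/
lemma cc_main {j m : ℕ} {F : Fam} (hF : F.ok G) (hs : F.sz G = G.n m) (hm : m + G.kk = j + 1)
    (hX : G.lam m ≤ ‖xi (F.ctr G)‖) (hX' : ‖xi (F.ctr G)‖ ≤ 2 * G.lam m) (g : Gp) {h h1 h2 : Z3}
    (hh : h ∈ (Fam.c j).S G) (a1 : h1 ∈ (Fam.y j G.La).S G) (a2 : h2 ∈ F.S G) :
    |CF G (.c j) h (.y j G.La) g1 h1 F g h2 -
      ⟪(‖G.eU‖ ^ 2)⁻¹ • G.eU, ge g (xi (F.ctr G))⟫_ℝ *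
        ⟪G.eC, ge g ((‖F.e G‖ ^ 2)⁻¹ • F.e G)⟫_ℝ| ≤ G.lam (j + 1) * (G.tau0 / G.m0) := by
  have h0 := cc_m0 (G := G)
  have hρ : 2 / G.m0 ≤ 1 / 10 := by rw [div_le_div_iff₀ (by linarith only [h0]) (by norm_num)]; linarith only [h0]
  have okc : (Fam.c j).ok G := trivial
  have oky := cc_ok_y (G := G) j
  have eU : (Fam.y j G.La).e G = G.eU := by simp [Fam.e]
  have eC : (Fam.c j).e G = G.eC := rfl
  set L := G.lam m with hL
  have L1 : 1 ≤ L := lam_pos G m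
  have hLj : G.lam (j + 1) = L * G.m0 := by
    have e1 : G.P m = G.n (j + 1) := by rw [P_eq, hm]
    rw [cc_lam, hL, Geo.lam, e1]
  set E := G.t ^ 11 with hE
  have hEC : ‖G.eC‖ ≤ E := norm_e_hi G (.c j)
  have E0 : 0 ≤ E := (norm_nonneg _).trans hEC
  have hXc := cc_norm_ctr_c (G := G) j
  have hXc0 : xi ((Fam.c j).ctr G) ≠ 0 := by
    intro e; rw [e, norm_zero] at hXc; linarith only [lam_pos G (j + 1), hXc.1]
  have oc := cc_off hh (m := j + 1) rfl hXc.1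
  have oy := cc_off a1 (m := j + 1) rfl (by rw [cc_ctr_y]; exact hXc.1)
  have o2 := cc_off a2 hs hX
  -- the four vectors
  set w := lp (xi ((Fam.c j).ctr G + h)) ((Fam.c j).e G) with hw
  set u := uv G (.y j G.La) g1 h1 with hu
  set η := xi (pt G F g h2) with hη
  set v := uv G F g h2 with hv
  have w1 : ‖w - G.eC‖ ≤ 4 / G.m0 * E := by
    have := lp_near (e_orth okc) oc hρ hXc0
    rw [hw, xi_add]
    refine this.trans ?_
    rw [eC]
    have e : 2 * (2 / G.m0) = 4 / G.m0 := by ring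
    rw [e]; exact mul_le_mul_of_nonneg_left hEC (by positivity)
  have w2 : ‖w‖ ≤ E := (norm_lp_le _ _).trans hEC
  have u1 : ‖u - (‖G.eU‖ ^ 2)⁻¹ • G.eU‖ ≤ 24 / G.m0 := by
    have := cc_ur_near oky a1 (m := j + 1) rfl (by rw [cc_ctr_y]; exact hXc.1)
    rw [hu, uv, ge_g1]; rwa [eU] at this ⊢
  have u2 : ‖u‖ ≤ 2 := norm_uv_le oky _ a1
  have η1 : ‖η - ge g (xi (F.ctr G))‖ ≤ 4 / G.m0 * L := by
    rw [hη, pt, xi_gz, ← ge_sub, norm_ge, xi_add, add_sub_cancel_left]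
    refine o2.trans ?_
    have e : 4 / G.m0 * L = 2 / G.m0 * (2 * L) := by ring
    rw [e]; exact mul_le_mul_of_nonneg_left hX' (by positivity)
  have η2 : ‖ge g (xi (F.ctr G))‖ ≤ 2 * L := by rw [norm_ge]; exact hX'
  have η3 : ‖η‖ ≤ 3 * L := by
    have := norm_add_le (η - ge g (xi (F.ctr G))) (ge g (xi (F.ctr G)))
    rw [sub_add_cancel] at this
    have e : 4 / G.m0 * L ≤ 1 * L := mul_le_mul_of_nonneg_right
      (by rw [div_le_one (by linarith only [h0])]; linarith only [h0]) (by linarith only [L1])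
    linarith only [η1, η2, this, e]
  have v1 : ‖v - ge g ((‖F.e G‖ ^ 2)⁻¹ • F.e G)‖ ≤ 24 / G.m0 := by
    rw [hv, uv, ← ge_sub, norm_ge]; exact cc_ur_near hF a2 hs hX
  have v2 : ‖v‖ ≤ 2 := norm_uv_le hF _ a2
  have v3' : ‖ge g ((‖F.e G‖ ^ 2)⁻¹ • F.e G)‖ ≤ 2 := by rw [norm_ge]; exact cc_unit F
  have p1 := cc_inner_diff u1 η1 u2 η2
  have p2 := cc_inner_diff w1 v1 w2 v3'
  have p3 : |⟪u, η⟫_ℝ| ≤ 2 * (3 * L) := (abs_real_inner_le_norm _ _).trans
    (mul_le_mul u2 η3 (norm_nonneg _) (by norm_num))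
  have p4 : |⟪G.eC, ge g ((‖F.e G‖ ^ 2)⁻¹ • F.e G)⟫_ℝ| ≤ E * 2 :=
    (abs_real_inner_le_norm _ _).trans (mul_le_mul hEC v3' (norm_nonneg _) E0)
  have p5 := cc_prod p1 p2 p3 p4
  -- the second order term
  set ξ := xi (pt G (.y j G.La) g1 h1) with hξ
  have q1 : ‖ξ‖ ≤ 11 / 10 * (L * G.m0) := by
    rw [hξ, pt, gz_g1, ← ax_eq_norm, ← hLj]; exact ax_hi oky a1
  have q2 : |⟪v, ξ⟫_ℝ| ≤ 2 * (11 / 10 * (L * G.m0)) := (abs_real_inner_le_norm _ _).trans
    (mul_le_mul v2 q1 (norm_nonneg _) (by norm_num))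
  have q3 : |⟪w, u⟫_ℝ| ≤ 4 * (10 * (2 / G.m0) ^ 2 * (E * (11 / 10))) := by
    have b1 := norm_lp_lo oky a1
    have o1 : ⟪xi ((Fam.c j).ctr G), G.eU⟫_ℝ = 0 := by
      have := e_orth oky; rwa [cc_ctr_y, eU] at this
    have b2 := inner_lp_lp (e_orth okc) o1 cc_orth oc (by rwa [cc_ctr_y] at oy) hρ hXc0
    have b3 : ‖G.eU‖ ≤ 11 / 10 := by have := norm_e_y G j G.La; rwa [eU] at this
    rw [hu, uv, ge_g1, ur, real_inner_smul_right, abs_mul]
    refine mul_le_mul ?_ ?_ (abs_nonneg _) (by norm_num)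
    · rw [abs_of_nonneg (by positivity)]
      exact inv_le_of_inv_le₀ (by norm_num)
        (le_trans (by norm_num) (pow_le_pow_left₀ (by norm_num) b1 2))
    · rw [hw, cc_ctr_y, eU, xi_add, xi_add]
      refine b2.trans (mul_le_mul_of_nonneg_left ?_ (by positivity))
      exact mul_le_mul hEC b3 (norm_nonneg _) E0
  have q4 : |⟪v, ξ⟫_ℝ * ⟪w, u⟫_ℝ| ≤
      2 * (11 / 10 * (L * G.m0)) * (4 * (10 * (2 / G.m0) ^ 2 * (E * (11 / 10)))) := by
    rw [abs_mul]; exact mul_le_mul q2 q3 (abs_nonneg _) (by positivity)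
  have e1 : CF G (.c j) h (.y j G.La) g1 h1 F g h2 = ⟪u, η⟫_ℝ * ⟪w, v⟫_ℝ + ⟪v, ξ⟫_ℝ * ⟪w, u⟫_ℝ := rfl
  rw [e1, add_sub_right_comm]
  refine (abs_add_le _ _).trans ((add_le_add p5 q4).trans ?_)
  have e2 : G.lam (j + 1) * (G.tau0 / G.m0) = G.L ^ 3 * (L / G.m0) := by
    rw [hLj, Geo.tau0]; field_simp
  have e3 : 2 * (3 * L) * (E * (24 / G.m0) + 4 / G.m0 * E * 2) +
      (2 * (4 / G.m0 * L) + 24 / G.m0 * (2 * L)) * (E * 2) +
      2 * (11 / 10 * (L * G.m0)) * (4 * (10 * (2 / G.m0) ^ 2 * (E * (11 / 10)))) =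
      (3456 / 5 * E) * (L / G.m0) := by
    field_simp; ring
  rw [e2, e3]
  refine mul_le_mul_of_nonneg_right ?_ (by positivity)
  have t1 : (1000 : ℝ) ≤ G.t := le_trans (by norm_num) (t_big G)
  have t2 : G.t ^ 12 ≤ G.L ^ 3 := ((pow_le_pow_right₀ (by linarith only [t1]) (by norm_num)).trans
    G.L_lo).trans (le_self_pow₀ G.one_le_L (by norm_num))
  have t3 : G.t ^ 12 = G.t * E := by rw [hE]; ring
  linarith only [E0, t2, mul_le_mul_of_nonneg_right t1 E0]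

lemma cc_sq5 : (√5 : ℝ)⁻¹ * (√5)⁻¹ = 1 / 5 := by
  rw [← mul_inv, Real.mul_self_sqrt (by norm_num)]; norm_num

lemma cc_val (o : Fin 4) : ⟪G.eU, ge (go o) (v3 1 0 0)⟫_ℝ * ⟪G.eC, ge (go o) G.eB⟫_ℝ =
    G.om o * (G.mC * (G.z * (G.z - 4 * G.ε)) / 5) := by
  have hz : G.z * (G.z - 4 * G.ε) ≠ 0 := by
    intro h
    have := om_lo G
    rw [Geo.om0, h, div_zero] at this; linarith
  have ho : G.om0 * (G.z * (G.z - 4 * G.ε)) = 4 * (1 + G.ε ^ 2) * (2 + G.ε) := by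
    rw [Geo.om0, div_mul_cancel₀ _ hz]
  have h5 := cc_sq5
  rw [Geo.eU, Geo.eC, Geo.eB, ge_smul, real_inner_smul_left, real_inner_smul_left,
    real_inner_smul_right, cc_ge_go, cc_ge_go]
  fin_cases o
  · simp only [Geo.om, Fin.zero_eta, Matrix.cons_val_zero, cc_inner_v3]
    linear_combination (G.mC * (G.z * (G.z - 4 * G.ε))) * h5
  · simp only [Geo.om, Fin.mk_one, Matrix.cons_val_one, Matrix.cons_val_zero, cc_inner_v3]
    linear_combination (G.mC * (G.z * (G.z - 4 * G.ε))) * h5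
  · simp only [Geo.om, Fin.reduceFinMk, Matrix.cons_val, cc_inner_v3]
    linear_combination (G.mC * (4 * (1 + G.ε ^ 2) * (2 + G.ε))) * h5 - G.mC / 5 * ho
  · simp only [Geo.om, Fin.reduceFinMk, Matrix.cons_val, cc_inner_v3]
    linear_combination (G.mC * (4 * (1 + G.ε ^ 2) * (2 + G.ε))) * h5 - G.mC / 5 * ho

/-- The seed, first comb. -/
theorem cf_S1 {j i : ℕ} (hi : i + G.kk = j + 1) (o : Fin 4) {h h1 h2 : Z3}
    (hh : h ∈ (Fam.c j).S G) (a1 : h1 ∈ (Fam.y j G.La).S G) (a2 : h2 ∈ (Fam.b i).S G) :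
    |CF G (.c j) h (.y j G.La) g1 h1 (.b i) (go o) h2 -
      G.om o * (G.cf * (2 * Real.pi * G.n (j + 1)))| ≤ G.lam (j + 1) * (G.tau0 / G.m0) := by
  have hX := cc_norm_ctr_b (G := G) i
  have H := cc_main (F := .b i) trivial rfl hi hX.1 hX.2 (go o) hh a1 a2
  have e1 : G.lam i = 2 * Real.pi * G.n (j + 1) := by rw [Geo.lam, P_eq, hi]
  have eB : (Fam.b i).e G = G.eB := rfl
  have hv := cc_val (G := G) o
  convert H using 3
  rw [cc_ctr_b, eB, norm_eB, ge_smul, ge_smul, real_inner_smul_left, real_inner_smul_right,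
    real_inner_smul_right, e1, Geo.cf]
  have e2 : G.mC * (G.z * (G.z - 4 * G.ε)) / (5 * ‖G.eU‖ ^ 2) =
      G.mC * (G.z * (G.z - 4 * G.ε)) / 5 * (‖G.eU‖ ^ 2)⁻¹ := by
    rw [← div_div, div_eq_mul_inv _ (‖G.eU‖ ^ 2)]
  rw [e2]
  linear_combination (-(‖G.eU‖ ^ 2)⁻¹ * (2 * Real.pi * G.n (j + 1))) * hv

/-- The seed, second comb. -/
theorem cf_S2 {j i : ℕ} (hi : i + 1 + G.kk = j + 1) (o : Fin 4) {h h1 h2 : Z3}
    (hh : h ∈ (Fam.c j).S G) (a1 : h1 ∈ (Fam.y j G.La).S G) (a2 : h2 ∈ (Fam.c i).S G) :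
    |CF G (.c j) h (.y j G.La) g1 h1 (.c i) (go o) h2 -
      G.om o * (G.cf * (2 * Real.pi * G.n (j + 1))) * G.cq o| ≤
      G.lam (j + 1) * (G.tau0 / G.m0) := by
  have hX := cc_norm_ctr_c (G := G) i
  have H := cc_main (F := .c i) trivial rfl hi hX.1 hX.2 (go o) hh a1 a2
  have e1 : G.lam (i + 1) = 2 * Real.pi * G.n (j + 1) := by rw [Geo.lam, P_eq, hi]
  have eC : (Fam.c i).e G = G.eC := rfl
  have h1 : G.om o ≠ 0 := by have := (om_bounds G o).1; linarith only [this]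
  have h2 : G.cf ≠ 0 := by have := cf_lo G; linarith only [this]
  have h3 : ‖G.eC‖ ≠ 0 := norm_ne_zero_iff.2 (cc_e_ne (G := G) (.c i))
  have h4 : ‖G.eU‖ ≠ 0 := by
    have := cc_e_ne (G := G) (.y j G.La)
    simp only [Fam.e, if_true] at this
    exact norm_ne_zero_iff.2 this
  convert H using 3
  rw [cc_ctr_c, eC, ge_smul, ge_smul, real_inner_smul_left, real_inner_smul_right,
    real_inner_smul_right, e1, Geo.cq]
  field_simp

end

end Pool.Agent.Work.MP_6bf1e5_an.Hyp.Pd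
end

-- merged part: Pool.Agent.Work.MP_6bf1e5_an.Hyp.EqC
section
/-!
The equation of the second comb.
-/

open Set Complex
open scoped InnerProductSpace ComplexConjugate Classical
open Pool.Agent.Work.MP_6bf1e5_an.B
open Pool.Agent.Work.MP_6bf1e5_an.Hyp.Dec

namespace Pool.Agent.Work.MP_6bf1e5_an.Hyp.Pd

noncomputable section

attribute [local irreducible] Fam.S

variable {G : Geo} {α : ℝ → Z3 → E3}

/-- The low first comb at the position of the tooth `o`. -/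
def eqC_W4 (G : Geo) (j : ℕ) (o : Fin 4) : Set Z3 :=
  {k | ∃ i, i + G.kk = j + 1 ∧ k ∈ Pt G (.b i) (go o)}

/-- The low second comb at the position of the tooth `o`. -/
def eqC_W5 (G : Geo) (j : ℕ) (o : Fin 4) : Set Z3 :=
  {k | ∃ i, i + 1 + G.kk = j + 1 ∧ k ∈ Pt G (.c i) (go o)}

lemma eqC_ok (j : ℕ) : (Fam.y j G.La).ok G :=
  ⟨le_trans (by norm_num) (La_big G), le_rfl⟩

lemma eqC_mem (j : ℕ) (o : Fin 4) {h : Z3} (hh : h ∈ bx (G.rc (j + 1))) :
    G.off (j + 1) o + h ∈ (Fam.c j).S G :=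
  mem_S.mpr ⟨G.off (j + 1) o, mem_cens_c.mpr ⟨o, rfl⟩, by rwa [add_sub_cancel_left]⟩

lemma eqC_empty (β : Z3 → E3) (e : E3) (r0 : Z3) (n : N3) (W : Set Z3) :
    Tst e r0 n (SB β W ∅) = 0 := by
  ext h
  simp [Tst, SB, coeff_mk]

lemma eqC_sh0 : sh 0 = 1 := rfl

lemma eqC_bb {i j : ℕ} {g g' : Gp} {k : Z3} (h : k ∈ Pt G (.b i) g) (h' : k ∈ Pt G (.b j) g') :
    i = j := Fam.b.inj (Pt_disjoint (F := .b i) (F' := .b j) trivial trivial h h').1

lemma eqC_yb {i j : ℕ} {g g' : Gp} {k : Z3} (h : k ∈ Pt G (.y j G.La) g) :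
    k ∉ Pt G (.b i) g' := fun h' =>
  Fam.noConfusion (Pt_disjoint (F' := .b i) (eqC_ok j) trivial h h').1

lemma eqC_yc {i j : ℕ} {g g' : Gp} {k : Z3} (h : k ∈ Pt G (.y j G.La) g) :
    k ∉ Pt G (.c i) g' := fun h' =>
  Fam.noConfusion (Pt_disjoint (F' := .c i) (eqC_ok j) trivial h h').1

lemma eqC_cb {i j : ℕ} {g g' : Gp} {k : Z3} (h : k ∈ Pt G (.c j) g) :
    k ∉ Pt G (.b i) g' := fun h' =>
  Fam.noConfusion (Pt_disjoint (F := .c j) (F' := .b i) trivial trivial h h').1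

/-- The strain term. -/
lemma eqC_strain {t : ℝ} (H : Adm (α t)) (j : ℕ) (o : Fin 4) :
    ‖Tst G.eC ((Fam.c j).ctr G + G.off (j + 1) o) (G.rc (j + 1))
        (SB (act G (α t)) (Pt G (.b (j + 1)) g1) (Pt G (.b j) (1, 1))) -
      (G.om o : ℂ) • (((rawOf G α).kap G j : ℂ) •
        ((rawOf G α).A G j t * (rawOf G α).b (j + 1) o t))‖ ≤
      G.lam (j + 1) * G.tau0 * (18 * (rawOf G α).lev (j + 1) t * (54 * (rawOf G α).nl G j t)) := by
  have η0 : 0 ≤ G.lam (j + 1) * G.tau0 :=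
    mul_nonneg (zero_le_one.trans (lam_pos G _)) (tau0_nonneg G)
  have M := (main_approx H (F1 := .b (j + 1)) (F2 := .b j) trivial trivial g1 (1, 1) (.c j)
    (G.off (j + 1) o) (n := G.rc (j + 1)) η0
    (fun h hh a ha b hb => cf_C (eqC_mem j o hh) ha hb)).2
  have s : gz g1 ((Fam.b (j + 1)).ctr G) + gz (1, 1) ((Fam.b j).ctr G) -
      ((Fam.c j).ctr G + G.off (j + 1) o) = -G.off (j + 1) o := by
    rw [gz_g1, ← sub_sub, sub_eq_neg_self, sub_eq_zero]
    ext i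
    fin_cases i <;> simp [gz, Fam.ctr]
  have sb : Sp (G.rb (j + 1)) ((rawOf G α).b (j + 1) o t) := sp_mk _ _
  have p := pj_comb (rawOf G α) j o (f := fun o => (rawOf G α).b (j + 1) o t)
    (fun o => Sp.mono (sp_mk _ _) (rb_le_rc G (j + 1))) (sp_A α j t) (n := G.rc (j + 1))
    fun _ => le_rfl
  have sp : Sp (G.rc (j + 1)) ((rawOf G α).b (j + 1) o t * (rawOf G α).A G j t) :=
    sb.mul (sp_A α j t)
  rw [sp.pj_eq] at p
  rw [s, tr_g1, tr_tau, env_b, env_b] at M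
  change ‖Tst G.eC _ _ _ - (((rawOf G α).kap G j : ℝ) : ℂ) • pj _ (sh _ * ((rawOf G α).comb G (j + 1)
    (fun o => (rawOf G α).b (j + 1) o t) * (rawOf G α).A G j t))‖ ≤ _ at M
  rw [p, smul_comm, mul_comm ((rawOf G α).b (j + 1) o t)] at M
  refine M.trans (mul_le_mul_of_nonneg_left ?_ η0)
  exact mul_le_mul (norm_B_le _) (l1_B_le _) (l1_nonneg _)
    (mul_nonneg (by norm_num) (lev_nonneg _))

lemma eqC_eta (G : Geo) (j : ℕ) : 0 ≤ G.lam (j + 1) * (G.tau0 / G.m0) :=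
  mul_nonneg (zero_le_one.trans (lam_pos G _)) (div_nonneg (tau0_nonneg G)
    (le_trans (pow_nonneg (le_trans (by positivity) (t_big G)) _) (m0_big G)))

lemma eqC_seed1 {t : ℝ} (H : Adm (α t)) {j i : ℕ} (hi : i + G.kk = j + 1) (o : Fin 4) :
    ‖Tst G.eC ((Fam.c j).ctr G + G.off (j + 1) o) (G.rc (j + 1))
        (SB (act G (α t)) (Pt G (.y j G.La) g1) (Pt G (.b i) (go o))) -
      ((G.om o * (G.cf * (2 * Real.pi * G.n (j + 1))) : ℝ) : ℂ) • pj (G.rc (j + 1))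
        ((rawOf G α).y j G.La t * tr (go o) ((rawOf G α).B G i t))‖ ≤
      G.lam (j + 1) * (G.tau0 / G.m0) * (‖(rawOf G α).y j G.La t‖ * (54 * (rawOf G α).nl G i t)) := by
  have M := (main_approx H (F1 := .y j G.La) (F2 := .b i) (eqC_ok j) trivial g1 (go o) (.c j)
    (G.off (j + 1) o) (n := G.rc (j + 1)) (eqC_eta G j)
    (fun h hh a ha b hb => cf_S1 hi o (eqC_mem j o hh) ha hb)).2
  have s : gz g1 ((Fam.y j G.La).ctr G) + gz (go o) ((Fam.b i).ctr G) -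
      ((Fam.c j).ctr G + G.off (j + 1) o) = 0 := by
    have e1 : (Fam.b i).ctr G = ![(G.n (j + 1) : ℤ), 0, 0] := by simp only [Fam.ctr, P_eq G i, hi]
    have e2 : (Fam.y j G.La).ctr G = (Fam.c j).ctr G := by simp [Fam.ctr, P_succ G j]
    rw [gz_g1, e1, e2, gz_go, sub_self]
  rw [s, eqC_sh0, one_mul, tr_g1, env_b, env_y (eqC_ok j).1 le_rfl] at M
  refine M.trans (mul_le_mul_of_nonneg_left ?_ (eqC_eta G j))
  exact mul_le_mul_of_nonneg_left (l1_B_le _) (norm_nonneg _)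

lemma eqC_seed2 {t : ℝ} (H : Adm (α t)) {j i : ℕ} (hi : i + 1 + G.kk = j + 1) (o : Fin 4) :
    ‖Tst G.eC ((Fam.c j).ctr G + G.off (j + 1) o) (G.rc (j + 1))
        (SB (act G (α t)) (Pt G (.y j G.La) g1) (Pt G (.c i) (go o))) -
      ((G.om o * (G.cf * (2 * Real.pi * G.n (j + 1))) * G.cq o : ℝ) : ℂ) • pj (G.rc (j + 1))
        ((rawOf G α).y j G.La t * tr (go o) (sh ![0, G.P i, 0] * (rawOf G α).Cc G (i + 1) t))‖ ≤
      G.lam (j + 1) * (G.tau0 / G.m0) *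
        (‖(rawOf G α).y j G.La t‖ * (108 * (rawOf G α).nl G (i + 1) t)) := by
  have M := (main_approx H (F1 := .y j G.La) (F2 := .c i) (eqC_ok j) trivial g1 (go o) (.c j)
    (G.off (j + 1) o) (n := G.rc (j + 1)) (eqC_eta G j)
    (fun h hh a ha b hb => cf_S2 hi o (eqC_mem j o hh) ha hb)).2
  have s : gz g1 ((Fam.y j G.La).ctr G) + gz (go o) ((Fam.c i).ctr G) -
      ((Fam.c j).ctr G + G.off (j + 1) o) = gz (go o) ![0, G.P i, 0] := by
    have e1 : (Fam.c i).ctr G = ![(G.n (j + 1) : ℤ), 0, 0] + ![0, (G.P i : ℤ), 0] := by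
      simp only [Fam.ctr, P_eq G (i + 1), hi]
      ext l
      fin_cases l <;> simp
    have e2 : (Fam.y j G.La).ctr G = (Fam.c j).ctr G := by simp [Fam.ctr, P_succ G j]
    rw [gz_g1, e1, e2, gz_add, gz_go]
    abel
  rw [s, tr_g1, env_c, env_y (eqC_ok j).1 le_rfl, mul_left_comm (sh _), ← tr_sh, ← tr_mul] at M
  refine M.trans (mul_le_mul_of_nonneg_left ?_ (eqC_eta G j))
  exact mul_le_mul_of_nonneg_left (l1_Cc_le _) (norm_nonneg _)

lemma eqC_low {t : ℝ} {j i : ℕ} (hi : i + G.kk = j + 1) :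
    (rawOf G α).nl G i t ≤ (rawOf G α).LowL G (j + 1) t :=
  Finset.single_le_sum (f := fun i => (rawOf G α).nl G i t) (fun i _ => nl_nonneg α i t)
    (Finset.mem_range.mpr (by omega))

/-- The seed. -/
lemma eqC_seed {t : ℝ} (H : Adm (α t)) (j : ℕ) (o : Fin 4) :
    ‖Tst G.eC ((Fam.c j).ctr G + G.off (j + 1) o) (G.rc (j + 1))
        (SB (act G (α t)) (Pt G (.y j G.La) g1) (eqC_W4 G j o)) +
      Tst G.eC ((Fam.c j).ctr G + G.off (j + 1) o) (G.rc (j + 1))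
        (SB (act G (α t)) (Pt G (.y j G.La) g1) (eqC_W5 G j o)) -
      (G.om o : ℂ) • (rawOf G α).f G j o t‖ ≤
      G.lam (j + 1) * (G.tau0 / G.m0) *
        (‖(rawOf G α).y j G.La t‖ * (162 * (rawOf G α).LowL G (j + 1) t)) := by
  have η0 := eqC_eta G j
  have L0 := LowL_nonneg (G := G) α (j + 1) t
  by_cases hk : G.kk ≤ j + 1
  · obtain ⟨i, hi⟩ : ∃ i, i + G.kk = j + 1 := ⟨j + 1 - G.kk, by omega⟩
    have e4 : eqC_W4 G j o = Pt G (.b i) (go o) := by
      ext k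
      exact ⟨fun ⟨i', h1, h2⟩ => by rwa [show i = i' by omega], fun h => ⟨i, hi, h⟩⟩
    have rl : Rl ((rawOf G α).B G i t + (G.cq o : ℂ) •
        (sh ![0, G.P (i - 1), 0] * (rawOf G α).Cc G i t)) := by
      refine Rl.add (env_b (α := α) (t := t) i ▸ rl_env _ _) (Rl.smul ((rl_sh _).mul ?_) _)
      refine Rl.sum _ fun o _ => Rl.smul ((rl_sh _).mul fun h => ?_) _
      simp only [rawOf]
      split_ifs
      · rfl
      · rw [tooth, coeff_mk]
        split_ifs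
        · exact ofReal_im _
        · rfl
    have ef : (G.om o : ℂ) • (rawOf G α).f G j o t =
        ((G.om o * (G.cf * (2 * Real.pi * G.n (j + 1))) : ℝ) : ℂ) • pj (G.rc (j + 1))
          ((rawOf G α).y j G.La t * tr (go o) ((rawOf G α).B G i t)) +
        ((G.om o * (G.cf * (2 * Real.pi * G.n (j + 1))) * G.cq o : ℝ) : ℂ) • pj (G.rc (j + 1))
          ((rawOf G α).y j G.La t * tr (go o) (sh ![0, G.P (i - 1), 0] * (rawOf G α).Cc G i t)) := by
      have e1 : j + 1 - G.kk = i := by omega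
      have e2 : (rawOf G α).Z G (j + 1) o t = tr (go o) ((rawOf G α).B G i t) + (G.cq o : ℂ) •
          tr (go o) (sh ![0, G.P (i - 1), 0] * (rawOf G α).Cc G i t) := by
        rw [Raw.Z, if_pos hk, e1]
        exact (tr_go rl o).symm.trans ((map_add (prm _) _ _).trans (by rw [map_smul]; rfl))
      rw [Raw.f, e2, mul_add, mul_smul_comm, map_add, map_smul, smul_smul, smul_add, smul_smul]
      push_cast
      rfl
    have h1 := eqC_seed1 H hi o
    have h3 := eqC_low (α := α) (t := t) hi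
    have n0 := norm_nonneg ((rawOf G α).y j G.La t)
    have h2 : ‖Tst G.eC ((Fam.c j).ctr G + G.off (j + 1) o) (G.rc (j + 1))
        (SB (act G (α t)) (Pt G (.y j G.La) g1) (eqC_W5 G j o)) -
        ((G.om o * (G.cf * (2 * Real.pi * G.n (j + 1))) * G.cq o : ℝ) : ℂ) • pj (G.rc (j + 1))
          ((rawOf G α).y j G.La t * tr (go o) (sh ![0, G.P (i - 1), 0] * (rawOf G α).Cc G i t))‖ ≤
        G.lam (j + 1) * (G.tau0 / G.m0) *
          (‖(rawOf G α).y j G.La t‖ * (108 * (rawOf G α).nl G i t)) := by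
      cases i with
      | zero =>
        have e5 : eqC_W5 G j o = ∅ := Set.eq_empty_of_forall_notMem fun k ⟨i', h, _⟩ => by omega
        have e6 : (rawOf G α).Cc G 0 t = 0 := by simp [Raw.Cc, Raw.comb, rawOf]
        have e7 : tr (go o) 0 = 0 := map_zero (prm _)
        have := nl_nonneg (G := G) α 0 t
        rw [e5, e6, eqC_empty, mul_zero, e7, mul_zero, map_zero, smul_zero, sub_zero, norm_zero]
        (clear * - η0 this; positivity)
      | succ i =>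
        have e5 : eqC_W5 G j o = Pt G (.c i) (go o) := by
          ext k
          exact ⟨fun ⟨i', h1, h2⟩ => by rwa [show i = i' by omega], fun h => ⟨i, hi, h⟩⟩
        rw [e5]
        exact eqC_seed2 H hi o
    rw [e4, ef, add_sub_add_comm]
    refine (norm_add_le _ _).trans ((add_le_add h1 h2).trans ?_)
    rw [← mul_add, ← mul_add]
    gcongr
    linarith only [h3]
  · have e4 : eqC_W4 G j o = ∅ := Set.eq_empty_of_forall_notMem fun k ⟨i', h, _⟩ => by omega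
    have e5 : eqC_W5 G j o = ∅ := Set.eq_empty_of_forall_notMem fun k ⟨i', h, _⟩ => by omega
    rw [e4, e5, eqC_empty, Raw.f, Raw.Z, if_neg hk, mul_zero, map_zero, smul_zero, smul_zero,
      add_zero, sub_zero, norm_zero]
    positivity

/-- The remaining interactions. -/
lemma eqC_rest {t : ℝ} (H : Adm (α t)) (j : ℕ) (o : Fin 4) :
    ‖Tst G.eC ((Fam.c j).ctr G + G.off (j + 1) o) (G.rc (j + 1)) (RP (act G (α t)) fun p q =>
      ((True ∧ ¬UPair (Pt G (.b (j + 1)) g1) (Pt G (.b j) (1, 1)) p q) ∧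
        ¬UPair (Pt G (.y j G.La) g1) (eqC_W4 G j o) p q) ∧
        ¬UPair (Pt G (.y j G.La) g1) (eqC_W5 G j o) p q)‖ ≤
      2 * (G.t ^ 11 * (11 / 10 * G.lam (j + 1))) *
        (2000 * (rawOf G α).Low G (j + 1) t * (100 * (rawOf G α).lev (j + 1) t) +
          10 * (rawOf G α).LowY G (j + 1) t * (2 * ‖(rawOf G α).y j G.La t‖) +
          3 * Nn (G.rc (j + 1)) * (rawOf G α).ET (j + G.kk) t) := by
  have := rest_le (adm_act (G := G) H) (ι := Fin 3)
    (W1 := ![LowS G (j + 1), LowYS G (j + 1), Tail G (j + G.kk)])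
    (W2 := ![Lev G (j + 1), Pt G (.y j G.La) g1, Tail G (j + G.kk)])
    (K := ![2000 * (rawOf G α).Low G (j + 1) t * (100 * (rawOf G α).lev (j + 1) t),
      10 * (rawOf G α).LowY G (j + 1) t * (2 * ‖(rawOf G α).y j G.La t‖),
      3 * Nn (G.rc (j + 1)) * (rawOf G α).ET (j + G.kk) t]) (n := G.rc (j + 1))
    (P := fun p q => ((True ∧ ¬UPair (Pt G (.b (j + 1)) g1) (Pt G (.b j) (1, 1)) p q) ∧
        ¬UPair (Pt G (.y j G.La) g1) (eqC_W4 G j o) p q) ∧
        ¬UPair (Pt G (.y j G.La) g1) (eqC_W5 G j o) p q)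
    (e := G.eC) (r0 := (Fam.c j).ctr G + G.off (j + 1) o)
    (c := G.t ^ 11 * (11 / 10 * G.lam (j + 1))) ?_ ?_ ?_
  · rwa [Fin.sum_univ_three] at this
  · intro i
    fin_cases i
    · exact Cv_l1 _ (nb_nonneg _ _) (nb_nonneg _ _) (L1_LowS H _) (L2_Lev H _)
    · have := L2_Pt H (eqC_ok (G := G) j) g1
      rw [env_y (eqC_ok j).1 le_rfl] at this
      exact Cv_l1 _ (nb_nonneg _ _) (nb_nonneg _ _) (L1_LowYS H _) this
    · exact Cv_tail H _ _
  · intro h hh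
    rw [add_assoc]
    exact mul_le_mul (norm_e_hi G (.c j)) (ax_hi (F := .c j) trivial (eqC_mem j o hh))
      (ax_nonneg _) (pow_nonneg (le_trans (by positivity) (t_big G)) _)
  · rintro h hh p q e ⟨⟨⟨-, n1⟩, n2⟩, n3⟩ hp hq
    obtain ⟨F1, g, h1, hp⟩ := exists_pt hp
    obtain ⟨F2, g', h2, hq⟩ := exists_pt hq
    rw [add_assoc] at e
    rcases rows_c hh h1 h2 hp hq e with u | ⟨i, hi, u⟩ | ⟨i, hi, u⟩ | u | u | u
    · exact absurd u n1
    · exact absurd (u.imp (fun u => ⟨u.1, i, hi, u.2⟩) fun u => ⟨⟨i, hi, u.1⟩, u.2⟩) n2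
    · exact absurd (u.imp (fun u => ⟨u.1, i, hi, u.2⟩) fun u => ⟨⟨i, hi, u.1⟩, u.2⟩) n3
    · exact ⟨0, u⟩
    · exact ⟨1, u⟩
    · exact ⟨2, u⟩

lemma eqC_num {T lam τ μ nl ny lev Low LY LL y N Nc ET Jk : ℝ} (hT : 10 ^ 100 ≤ T) (h1 : 0 ≤ lam)
    (h2 : 0 ≤ τ) (h3 : 0 ≤ μ) (h4 : 0 ≤ nl) (h5 : 0 ≤ ny) (h6 : 0 ≤ lev) (h7 : 0 ≤ Low)
    (h8 : 0 ≤ LY) (h9 : 0 ≤ LL) (h10 : 0 ≤ y) (h11 : 0 ≤ N) (h12 : Nc ≤ 2 * N) (h13 : 0 ≤ ET)
    (h14 : 0 ≤ Jk) :
    T ^ 11 * Jk + lam * τ * (18 * lev * (54 * nl)) + lam * μ * (y * (162 * LL)) +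
      2 * (T ^ 11 * (11 / 10 * lam)) * (2000 * Low * (100 * lev) + 10 * LY * (2 * y) + 3 * Nc * ET) ≤
    T ^ 12 * (lam * (τ * (nl + ny) * lev + Low * lev + (LY + μ * LL) * y + N * ET) + Jk) := by
  have T1 : 1 ≤ T := le_trans (by norm_num) hT
  have p1 : 1 ≤ T ^ 11 := one_le_pow₀ T1
  have p2 : 10 ^ 6 * T ^ 11 ≤ T ^ 12 := by rw [pow_succ T 11]; nlinarith only [hT, p1]
  generalize T ^ 12 = X at *
  generalize T ^ 11 = Y at *
  have a1 : Y * Jk ≤ X * Jk := by gcongr; linarith only [p1, p2]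
  have a2 : 972 * (lam * τ * nl * lev) ≤ X * (lam * τ * nl * lev) := by gcongr; linarith only [p1, p2]
  have a3 : 162 * (lam * μ * LL * y) ≤ X * (lam * μ * LL * y) := by gcongr; linarith only [p1, p2]
  have a4 : 440000 * Y * (lam * Low * lev) ≤ X * (lam * Low * lev) := by gcongr; linarith only [p1, p2]
  have a5 : 44 * Y * (lam * LY * y) ≤ X * (lam * LY * y) := by gcongr; linarith only [p1, p2]
  have a6 : 7 * Y * (lam * (2 * N) * ET) ≤ X * (lam * N * ET) := by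
    have : 14 * Y * (lam * N * ET) ≤ X * (lam * N * ET) := by gcongr; linarith only [p1, p2]
    linarith only [this]
  have a7 : 33 / 5 * Y * (lam * Nc * ET) ≤ 33 / 5 * Y * (lam * (2 * N) * ET) := by gcongr
  have a8 : 0 ≤ Y * (lam * (2 * N) * ET) := by positivity
  have a9 : 0 ≤ X * (lam * τ * ny * lev) := by
    have : 0 ≤ X := by linarith only [p1, p2]
    positivity
  linarith

theorem eqC (H : RSol G α) (j : ℕ) (o : Fin 4) {t : ℝ} (ht : 0 ≤ t) :
    ∃ r, ‖r‖ ≤ (rawOf G α).ec G j t ∧ HD ((rawOf G α).c (j + 1) o)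
      (((rawOf G α).kap G j : ℂ) • ((rawOf G α).A G j t * (rawOf G α).b (j + 1) o t)
        - (G.d (j + 1) : ℂ) • (rawOf G α).c (j + 1) o t
        - mulr ((rawOf G α).vc (j + 1)) ((rawOf G α).c (j + 1) o t)
        + (rawOf G α).f G j o t + r) t := by
  have A := H.adm t ht
  have Ra := (adm_act (G := G) A).rapid
  have D : HD ((rawOf G α).c (j + 1) o) ((((G.om o)⁻¹ : ℝ) : ℂ) •
      Tst G.eC ((Fam.c j).ctr G + G.off (j + 1) o) (G.rc (j + 1)) (BF G α t) -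
      (G.d (j + 1) : ℂ) • (rawOf G α).c (j + 1) o t -
      mulr ((rawOf G α).vc (j + 1)) ((rawOf G α).c (j + 1) o t)) t := by
    have e1 : (rawOf G α).c (j + 1) o =
      fun t => tooth G (.c j) (G.off (j + 1) o) (G.om o) (α t) := funext fun t => by simp [rawOf]
    have e2 : (rawOf G α).vc (j + 1) = lay G (.c j) := by simp [rawOf]
    rw [e1, e2]
    exact hd_tooth H (F := .c j) trivial (mem_cens_c.mpr ⟨o, rfl⟩) (G.om o) ht
  have o1 := (om_bounds G o).1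
  have S1 := Tst_split Ra G.eC ((Fam.c j).ctr G + G.off (j + 1) o) (G.rc (j + 1))
    (P := fun _ _ => True) (W1 := Pt G (.b (j + 1)) g1) (W2 := Pt G (.b j) (1, 1))
    (fun k h h' => by have := eqC_bb h h'; omega) fun _ _ _ => trivial
  have S2 := Tst_split Ra G.eC ((Fam.c j).ctr G + G.off (j + 1) o) (G.rc (j + 1))
    (P := fun p q => True ∧ ¬UPair (Pt G (.b (j + 1)) g1) (Pt G (.b j) (1, 1)) p q)
    (W1 := Pt G (.y j G.La) g1) (W2 := eqC_W4 G j o) (fun k h ⟨_, _, h'⟩ => eqC_yb h h')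
    (by
      rintro p q (u | u)
      · exact ⟨trivial, fun v => v.elim (fun v => eqC_yb u.1 v.1) fun v => eqC_yb u.1 v.1⟩
      · exact ⟨trivial, fun v => v.elim (fun v => eqC_yb u.2 v.2) fun v => eqC_yb u.2 v.2⟩)
  have S3 := Tst_split Ra G.eC ((Fam.c j).ctr G + G.off (j + 1) o) (G.rc (j + 1))
    (P := fun p q => (True ∧ ¬UPair (Pt G (.b (j + 1)) g1) (Pt G (.b j) (1, 1)) p q) ∧
      ¬UPair (Pt G (.y j G.La) g1) (eqC_W4 G j o) p q)
    (W1 := Pt G (.y j G.La) g1) (W2 := eqC_W5 G j o) (fun k h ⟨_, _, h'⟩ => eqC_yc h h')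
    (by
      rintro p q (⟨u, _, _, u'⟩ | ⟨⟨_, _, u'⟩, u⟩)
      · exact ⟨⟨trivial, fun v => v.elim (fun v => eqC_yb u v.1) fun v => eqC_yb u v.1⟩,
          fun v => v.elim (fun ⟨_, _, _, v⟩ => eqC_cb u' v) fun v => eqC_yc v.2 u'⟩
      · exact ⟨⟨trivial, fun v => v.elim (fun v => eqC_yb u v.2) fun v => eqC_yb u v.2⟩,
          fun v => v.elim (fun v => eqC_yc v.1 u') fun ⟨⟨_, _, v⟩, _⟩ => eqC_cb u' v⟩)
  have J := junk_Jk H ht G.eC ((Fam.c j).ctr G + G.off (j + 1) o) (G.rc (j + 1))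
  have J0 := Jk_nonneg (G := G) α t
  replace J := J.trans (mul_le_mul_of_nonneg_right (norm_e_hi G (.c j)) J0)
  rw [BR_eq_RP (act G (α t)), S1, S2, S3] at J
  have E1 := eqC_strain (G := G) A j o
  have E2 := eqC_seed (G := G) A j o
  have E3 := eqC_rest (G := G) A j o
  have N := eqC_num (t_big G) (zero_le_one.trans (lam_pos G (j + 1))) (tau0_nonneg G)
    (div_nonneg (tau0_nonneg G)
      (le_trans (pow_nonneg (le_trans (by positivity) (t_big G)) _) (m0_big G)))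
    (nl_nonneg (G := G) α j t) (ny_nonneg (G := G) α j t) (lev_nonneg (G := G) (α := α) (t := t) (j + 1))
    (add_nonneg (LowL_nonneg (G := G) α (j + 1) t) (LowY_nonneg (G := G) α (j + 1) t))
    (LowY_nonneg (G := G) α (j + 1) t) (LowL_nonneg (G := G) α (j + 1) t)
    (norm_nonneg ((rawOf G α).y j G.La t)) (zero_le_one.trans (N_pos G (j + 1))) (Nn_rc G (j + 1))
    (ET_nonneg (G := G) α (j + G.kk) t) J0
  generalize Tst G.eC _ _ (BF G α t) = X0 at D J
  generalize Tst G.eC _ _ (SB _ (Pt G (.b (j + 1)) g1) _) = X1 at J E1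
  generalize Tst G.eC _ _ (SB _ _ (eqC_W4 G j o)) = X2 at J E2
  generalize Tst G.eC _ _ (SB _ _ (eqC_W5 G j o)) = X3 at J E2
  generalize Tst G.eC _ _ (RP _ _) = X4 at J E3
  generalize ((rawOf G α).kap G j : ℂ) • ((rawOf G α).A G j t * (rawOf G α).b (j + 1) o t) = Y1
    at E1 ⊢
  generalize (rawOf G α).f G j o t = Y2 at E2 ⊢
  have o0 : (G.om o : ℂ) ≠ 0 := by exact_mod_cast (zero_lt_one.trans_le o1).ne'
  refine ⟨(((G.om o)⁻¹ : ℝ) : ℂ) • X0 - Y1 - Y2, ?_, by convert D using 1; abel⟩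
  have e : (((G.om o)⁻¹ : ℝ) : ℂ) • X0 - Y1 - Y2 = (((G.om o)⁻¹ : ℝ) : ℂ) •
      ((X0 - (X1 + (X2 + (X3 + X4)))) + (X1 - (G.om o : ℂ) • Y1) + (X2 + X3 - (G.om o : ℂ) • Y2) +
        X4) := by
    have : (X0 - (X1 + (X2 + (X3 + X4)))) + (X1 - (G.om o : ℂ) • Y1) +
        (X2 + X3 - (G.om o : ℂ) • Y2) + X4 = X0 - (G.om o : ℂ) • Y1 - (G.om o : ℂ) • Y2 := by abel
    rw [this, smul_sub, smul_sub, ofReal_inv, inv_smul_smul₀ o0, inv_smul_smul₀ o0]
  rw [e, norm_smul, Complex.norm_real, Real.norm_of_nonneg (by positivity)]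
  refine (mul_le_of_le_one_left (norm_nonneg _) (inv_le_one_of_one_le₀ o1)).trans ?_
  refine le_trans ?_ N
  refine (norm_add_le _ _).trans (add_le_add (norm_add₃_le.trans ?_) E3)
  exact add_le_add_three J E1 E2

end

end Pool.Agent.Work.MP_6bf1e5_an.Hyp.Pd
end

-- merged part: Pool.Agent.Work.MP_6bf1e5_an.Hyp.EqY
section
/-!
The equation of the rungs.
-/

open Set Complex
open scoped InnerProductSpace ComplexConjugate Classical
open Pool.Agent.Work.MP_6bf1e5_an.B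
open Pool.Agent.Work.MP_6bf1e5_an.Hyp.Dec

namespace Pool.Agent.Work.MP_6bf1e5_an.Hyp.Pd

noncomputable section

variable {G : Geo} {α : ℝ → Z3 → E3}

/-- The remaining interactions of a rung. -/
lemma eqy_rest {t : ℝ} (ha : Adm (α t)) (j i : ℕ) (hi : i < G.La) {P : Z3 → Z3 → Prop}
    (hP : ∀ p q, P p q → ¬(i = 0 ∧ UPair (Pt G (.b j) g1) (Pt G (.b j) (1, 1)) p q) ∧
      ¬(1 ≤ i ∧ UPair (Pt G (.b j) g1) (Pt G (.y j i) g1) p q)) :
    ‖Tst ((Fam.y j (i + 1)).e G) ((Fam.y j (i + 1)).ctr G + 0) ((Fam.y j (i + 1)).rad G)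
      (RP (act G (α t)) P)‖ ≤ 2 * (11 / 10 * (11 / 10 * G.lam (j + 1))) *
      (2000 * (rawOf G α).nl G j t * (2 * ‖(rawOf G α).y j (i + 2) t‖) +
        (2000 * (rawOf G α).nl G j t + 2000 * (rawOf G α).Low G (j + 1) t) *
          (100 * (rawOf G α).lev (j + 1) t) +
        2000 * (rawOf G α).Low G j t * (2 * ‖(rawOf G α).y j (i + 1) t‖) +
        3 * Nn (G.ry j) * (rawOf G α).ET (j + G.kk - 1) t) := by
  have hF : (Fam.y j (i + 1)).ok G := ⟨by omega, hi⟩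
  have hx : (0 : Z3) ∈ (Fam.y j (i + 1)).cens G := by simp [Fam.cens]
  have := rest_le (adm_act (G := G) ha) (ι := Fin 4)
    (W1 := ![Lev G j, Lev G j ∪ LowS G (j + 1), LowS G j, Tail G (j + G.kk - 1)])
    (W2 := ![if i + 2 ≤ G.La then Pt G (.y j (i + 2)) g1 else ∅, Lev G (j + 1),
      Pt G (.y j (i + 1)) g1, Tail G (j + G.kk - 1)])
    (K := ![2000 * (rawOf G α).nl G j t * (2 * ‖(rawOf G α).y j (i + 2) t‖),
        (2000 * (rawOf G α).nl G j t + 2000 * (rawOf G α).Low G (j + 1) t) *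
          (100 * (rawOf G α).lev (j + 1) t),
        2000 * (rawOf G α).Low G j t * (2 * ‖(rawOf G α).y j (i + 1) t‖),
        3 * Nn (G.ry j) * (rawOf G α).ET (j + G.kk - 1) t])
    (n := (Fam.y j (i + 1)).rad G) ?_ (P := P) (e := (Fam.y j (i + 1)).e G)
    (r0 := (Fam.y j (i + 1)).ctr G + 0) (c := 11 / 10 * (11 / 10 * G.lam (j + 1))) ?_ ?_
  · rwa [Fin.sum_univ_four] at this
  · intro l
    fin_cases l
    · refine Cv_l1 _ (nb_nonneg _ _) (nb_nonneg _ _) (L1_Lev ha j) ?_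
      change L2 (nb _ (if i + 2 ≤ G.La then Pt G (.y j (i + 2)) g1 else ∅)) _
      split_ifs with h
      · rw [← env_y (by omega) h]
        exact L2_Pt ha (F := .y j (i + 2)) ⟨by omega, h⟩ g1
      · refine ⟨by positivity, fun s => ?_⟩
        simp only [nb, indicator_empty]
        simp only [ne_eq, OfNat.ofNat_ne_zero, not_false_eq_true, zero_pow, Finset.sum_const_zero]
        positivity
    · exact Cv_l1 _ (nb_nonneg _ _) (nb_nonneg _ _) ((L1_Lev ha j).union (L1_LowS ha (j + 1)))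
        (L2_Lev ha (j + 1))
    · refine Cv_l1 _ (nb_nonneg _ _) (nb_nonneg _ _) (L1_LowS ha j) ?_
      rw [← env_y (by omega) hi]
      exact L2_Pt ha hF g1
    · exact Cv_tail ha _ _
  · intro h hh
    rw [add_assoc]
    exact mul_le_mul (norm_e_y G j (i + 1)) (ax_hi hF (eqb_mem hx hh))
      (by unfold ax; positivity) (by norm_num)
  · intro h hh p q hpq hp p0 q0
    obtain ⟨F1, g, f1, m1⟩ := exists_pt p0
    obtain ⟨F2, g', f2, m2⟩ := exists_pt q0
    rcases rows_y hi hh f1 f2 m1 m2 (by rw [hpq, add_zero]) with h1 | h1 | h1 | h1 | h1 | h1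
    · exact absurd h1 (hP p q hp).1
    · exact absurd h1 (hP p q hp).2
    · refine ⟨0, ?_⟩
      change UPair _ (if i + 2 ≤ G.La then Pt G (.y j (i + 2)) g1 else ∅) p q
      rw [if_pos h1.1]
      exact h1.2
    · exact ⟨1, h1⟩
    · exact ⟨2, h1⟩
    · exact ⟨3, h1⟩

theorem eqY (H : RSol G α) (j i : ℕ) (hi : i < G.La) {t : ℝ} (ht : 0 ≤ t) :
    ∃ r, ‖r‖ ≤ (rawOf G α).ey G j i t ∧ HD ((rawOf G α).y j (i + 1))
      ((((rawOf G α).cy (i + 1) * G.lam j : ℝ) : ℂ) •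
          pj (G.ry j) ((rawOf G α).B G j t * (rawOf G α).y j i t)
        - (G.D j : ℂ) • (rawOf G α).y j (i + 1) t
        - mulr ((rawOf G α).vy j (i + 1)) ((rawOf G α).y j (i + 1) t) + r) t := by
  have ha := H.adm t ht
  have hF : (Fam.y j (i + 1)).ok G := ⟨by omega, hi⟩
  have hx : (0 : Z3) ∈ (Fam.y j (i + 1)).cens G := by simp [Fam.cens]
  have l0 : 0 ≤ G.lam (j + 1) := zero_le_one.trans (lam_pos G _)
  have η0 : 0 ≤ G.lam (j + 1) * G.tau0 := mul_nonneg l0 (tau0_nonneg G)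
  have ey : (rawOf G α).y j (i + 1) = fun t => tooth G (.y j (i + 1)) 0 1 (α t) := by
    funext s
    rw [← env_y (by omega) hi, env_eq_tooth]
  have key : ∃ W1 W2 : Set Z3, (∀ k ∈ W1, k ∉ W2) ∧
      ‖Tst ((Fam.y j (i + 1)).e G) ((Fam.y j (i + 1)).ctr G + 0) ((Fam.y j (i + 1)).rad G)
        (SB (act G (α t)) W1 W2) - ((1 : ℝ) : ℂ) • ((((rawOf G α).cy (i + 1) * G.lam j : ℝ) : ℂ) •
          pj (G.ry j) ((rawOf G α).B G j t * (rawOf G α).y j i t))‖ ≤
        G.lam (j + 1) * G.tau0 * (l1 ((rawOf G α).B G j t) * ‖(rawOf G α).y j i t‖) ∧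
      ∀ p q, ¬UPair W1 W2 p q → ¬(i = 0 ∧ UPair (Pt G (.b j) g1) (Pt G (.b j) (1, 1)) p q) ∧
        ¬(1 ≤ i ∧ UPair (Pt G (.b j) g1) (Pt G (.y j i) g1) p q) := by
    rw [Complex.ofReal_one, one_smul]
    rcases Nat.eq_zero_or_pos i with rfl | i1
    · refine ⟨Pt G (.b j) g1, Pt G (.b j) (1, 1), fun k hk hk' => ?_, ?_,
        fun p q h => ⟨fun h' => h h'.2, fun h' => by omega⟩⟩
      · exact absurd (Pt_disjoint (F := .b j) (F' := .b j) trivial trivial hk hk').2 (by decide)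
      · have h1 := (main_approx ha (F1 := .b j) (F2 := .b j) trivial trivial g1 (1, 1) (.y j 1) 0
          (n := (Fam.y j 1).rad G) (c0 := G.cy 1 * G.lam j) η0
          fun h hh a ha b hb => cf_Y1 (eqb_mem hx hh) ha hb).1
        have e1 : gz g1 ((Fam.b j).ctr G) + gz (1, 1) ((Fam.b j).ctr G) -
            ((Fam.y j 1).ctr G + 0) = 0 := by
          have : gz (1, 1) ((Fam.b j).ctr G) = ![0, (G.P j : ℤ), 0] := by
            ext l
            fin_cases l <;> simp [gz, Fam.ctr]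
          rw [gz_g1, this]
          ext l
          fin_cases l <;> simp [Fam.ctr]
        rw [e1, eqb_sh0, tr_g1, tr_tau, env_b] at h1
        rw [y_zero, Raw.A, norm_tau]
        exact h1
    · refine ⟨Pt G (.b j) g1, Pt G (.y j i) g1, fun k hk hk' => ?_, ?_,
        fun p q h => ⟨fun h' => by omega, fun h' => h h'.2⟩⟩
      · cases (Pt_disjoint (F := .b j) (F' := .y j i) trivial ⟨i1, hi.le⟩ hk hk').1
      · have h1 := (main_approx ha (F1 := .b j) (F2 := .y j i) trivial ⟨i1, hi.le⟩ g1 g1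
          (.y j (i + 1)) 0 (n := (Fam.y j (i + 1)).rad G) (c0 := G.cy (i + 1) * G.lam j) η0
          fun h hh a ha b hb => cf_Y i1 hi (eqb_mem hx hh) ha hb).1
        have e1 : gz g1 ((Fam.b j).ctr G) + gz g1 ((Fam.y j i).ctr G) -
            ((Fam.y j (i + 1)).ctr G + 0) = 0 := by
          rw [gz_g1, gz_g1]
          ext l
          fin_cases l <;> simp [Fam.ctr]
          ring
        rw [e1, eqb_sh0, tr_g1, tr_g1, env_b, env_y i1 hi.le] at h1
        exact h1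
  obtain ⟨W1, W2, hd, h1, hW⟩ := key
  have h2 := eqy_rest (G := G) ha j i hi (P := fun p q => True ∧ ¬UPair W1 W2 p q)
    fun p q hp => hW p q hp.2
  obtain ⟨r, r1, r2⟩ := eqb_main H hF hx le_rfl ht hd h1 h2
  refine ⟨r, r1.trans ?_, ?_⟩
  · have b1 := norm_e_y G j (i + 1)
    have b2 := l1_B_le (G := G) (α := α) (t := t) j
    have b3 := nl_nonneg (G := G) α j t
    have b4 := Jk_nonneg (G := G) α t
    have b5 := lev_nonneg (G := G) (α := α) (t := t) (j + 1)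
    have b6 : 0 ≤ (rawOf G α).Low G j t := add_nonneg (LowL_nonneg α j t) (LowY_nonneg α j t)
    have b7 : 0 ≤ (rawOf G α).Low G (j + 1) t :=
      add_nonneg (LowL_nonneg α _ t) (LowY_nonneg α _ t)
    have b8 := ET_nonneg (G := G) α (j + G.kk - 1) t
    have b9 := Nn_ry G j
    have b10 := (Nn_pos (G.ry j)).le
    have b11 := tau0_nonneg G
    have c1 : G.lam (j + 1) * G.tau0 * (l1 ((rawOf G α).B G j t) * ‖(rawOf G α).y j i t‖) ≤
        G.lam (j + 1) * G.tau0 * (54 * (rawOf G α).nl G j t * ‖(rawOf G α).y j i t‖) := by (clear * - l0 b2 b11; gcongr)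
    have c2 : ‖(Fam.y j (i + 1)).e G‖ * (rawOf G α).Jk t ≤ 11 / 10 * (rawOf G α).Jk t := by gcongr
    have c3 : G.lam (j + 1) * (Nn (G.ry j) * (rawOf G α).ET (j + G.kk - 1) t) ≤
        G.lam (j + 1) * (G.L ^ 2 * G.N j * (rawOf G α).ET (j + G.kk - 1) t) := by gcongr
    have y0 := norm_nonneg ((rawOf G α).y j i t)
    have y1 := norm_nonneg ((rawOf G α).y j (i + 1) t)
    have y2 := norm_nonneg ((rawOf G α).y j (i + 2) t)
    rw [Raw.ey]
    generalize ‖(rawOf G α).y j i t‖ = z0 at *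
    generalize ‖(rawOf G α).y j (i + 1) t‖ = z1 at *
    generalize ‖(rawOf G α).y j (i + 2) t‖ = z2 at *
    generalize (rawOf G α).nl G j t = nl at *
    generalize (rawOf G α).lev (j + 1) t = lv at *
    generalize (rawOf G α).Low G j t = Lo at *
    generalize (rawOf G α).Low G (j + 1) t = Lo' at *
    generalize (rawOf G α).ET (j + G.kk - 1) t = et at *
    generalize G.L ^ 2 * G.N j = N at *
    generalize Nn (G.ry j) = N' at *
    generalize G.lam (j + 1) = lam at *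
    generalize G.tau0 = τ at *
    have a1 : 0 ≤ lam * (τ * nl * z0) := by positivity
    have a2 : 0 ≤ lam * (nl * z2) := by positivity
    have a3 : 0 ≤ lam * (nl * lv) := by positivity
    have a4 : 0 ≤ lam * (Lo' * z2) := by positivity
    have a5 : 0 ≤ lam * (Lo' * lv) := by positivity
    have a6 : 0 ≤ lam * (Lo * z1) := by positivity
    have a7 : 0 ≤ lam * (N' * et) := by positivity
    linarith only [b4, c2, c3, c1, a1, a2, a3, a4, a5, a6, a7]
  · rw [ey]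
    exact r2

end

end Pool.Agent.Work.MP_6bf1e5_an.Hyp.Pd
end

-- merged part: Pool.Agent.Work.MP_6bf1e5_an.Hyp.Data
section
/-!
The initial data.
-/

open Set Complex
open scoped InnerProductSpace ComplexConjugate Classical
open Pool.Agent.Work.MP_6bf1e5_an.B
open Pool.Agent.Work.MP_6bf1e5_an.Hyp.Dec

namespace Pool.Agent.Work.MP_6bf1e5_an.Hyp.Pd

noncomputable section

variable {G : Geo}

lemma Data_rapid {a : Z3 → E3} (fin : {k | a k ≠ 0}.Finite) : Rapid a := fun s => by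
  have hs : Summable fun k => w k ^ s * ‖a k‖ := by
    refine summable_of_ne_finset_zero (s := fin.toFinset) fun k hk => ?_
    have : a k = 0 := by simpa using hk
    simp [this]
  exact ⟨_, Bd.of_tsum hs le_rfl⟩

/-- The state with amplitudes `m`. -/
def Data_st (G : Geo) (m : Fam → Z3 → ℝ) (k : Z3) : E3 :=
  if H : Act G k then m H.choose.1 H.choose.2.2 • uv G H.choose.1 H.choose.2.1 H.choose.2.2 else 0

lemma Data_st_pt (m : Fam → Z3 → ℝ) {F : Fam} (hF : F.ok G) (g : Gp) {h : Z3}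
    (hh : h ∈ F.S G) : Data_st G m (pt G F g h) = m F h • uv G F g h := by
  have H := Sep_act_pt hF g hh
  rw [Data_st, dif_pos H, Sep_choose hF hh H]

lemma Data_st_not (m : Fam → Z3 → ℝ) {k : Z3} (H : ¬Act G k) : Data_st G m k = 0 := by
  rw [Data_st, dif_neg H]

lemma Data_st_inner (m : Fam → Z3 → ℝ) {F : Fam} (hF : F.ok G) {h : Z3} (hh : h ∈ F.S G) :
    ⟪F.e G, Data_st G m (F.ctr G + h)⟫_ℝ = m F h := by
  have e := Data_st_pt m hF g1 hh
  rw [pt_g1] at e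
  rw [e, uv, ge_g1, inner_smul_right, ← inner_lp_left (inner_xi_ur _ _), inner_lp_ur hF hh, mul_one]

lemma Data_st_sym (m : Fam → Z3 → ℝ) (g : Gp) (k : Z3) :
    Data_st G m (gz g k) = ge g (Data_st G m k) := by
  by_cases H : Act G k
  · obtain ⟨⟨F, g', h⟩, h1, h2, rfl⟩ := H
    simp only at h1 h2 ⊢
    rw [Sep_gz_pt, Data_st_pt m h1 _ h2, Data_st_pt m h1 _ h2, ge_smul, uv, uv, ge_ge]
  · rw [Data_st_not m H, Data_st_not m fun h => H ((Act_gz g k).mp h), ge_zero]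

lemma Data_st_div (m : Fam → Z3 → ℝ) (k : Z3) : ⟪xi k, Data_st G m k⟫_ℝ = 0 := by
  by_cases H : Act G k
  · obtain ⟨⟨F, g', h⟩, h1, h2, rfl⟩ := H
    simp only at h1 h2 ⊢
    rw [Data_st_pt m h1 _ h2, inner_smul_right, pt, xi_gz, uv, inner_ge, inner_xi_ur, mul_zero]
  · rw [Data_st_not m H, inner_zero_right]

/-- A symmetric state with prescribed envelopes on finitely many families. -/
theorem exists_state (s : Finset Fam) (hs : ∀ F ∈ s, F.ok G) (m : Fam → Z3 → ℝ) :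
    ∃ β : Z3 → E3, Adm β ∧ {k | β k ≠ 0}.Finite ∧ (∀ k, jnk G β k = 0) ∧
      ∀ F, F.ok G → ∀ h ∈ F.S G, ⟪F.e G, β (F.ctr G + h)⟫_ℝ = if F ∈ s then m F h else 0 := by
  set m' : Fam → Z3 → ℝ := fun F h => if F ∈ s then m F h else 0 with hm'
  have fin : {k | Data_st G m' k ≠ 0}.Finite := by
    refine (s.biUnion fun F => Finset.univ.biUnion fun g : Gp =>
      (F.S G).image (pt G F g)).finite_toSet.subset fun k hk => ?_
    by_cases H : Act G k
    · obtain ⟨⟨F, g', h⟩, h1, h2, rfl⟩ := H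
      simp only at h1 h2 hk ⊢
      have hF : F ∈ s := by
        by_contra hn
        apply hk
        rw [Data_st_pt m' h1 _ h2, hm']
        simp [hn]
      simp only [Finset.coe_biUnion, Finset.mem_coe, mem_iUnion, Finset.coe_image]
      exact ⟨F, hF, g', Finset.mem_univ _, h, h2, rfl⟩
    · exact absurd (Data_st_not m' H) hk
  have adm : Adm (Data_st G m') := ⟨Data_rapid fin, Data_st_sym m', Data_st_div m'⟩
  refine ⟨Data_st G m', adm, fin, fun k => ?_, fun F hF h hh => Data_st_inner m' hF hh⟩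
  by_cases H : Act G k
  · obtain ⟨⟨F, g', h⟩, h1, h2, rfl⟩ := H
    simp only at h1 h2 ⊢
    rw [jnk, act_pt adm h1 _ h2, Data_st_inner m' h1 h2, Data_st_pt m' h1 _ h2, sub_self]
  · rw [jnk, act, Pj_not G H, Data_st_not m' H, sub_self]

/-- Two teeth of one family do not overlap. -/
lemma Data_sep {F : Fam} (hF : F.ok G) {x x' h : Z3} (hx : x ∈ F.cens G) (hx' : x' ∈ F.cens G)
    (hh : h ∈ bx (F.rad G)) (hh' : x + h - x' ∈ bx (F.rad G)) : x = x' := by
  refine (sep hF hF (g := g1) (g' := g1) hx hx' fun i => ?_).2.2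
  have e : i - g1.1 = i := sub_zero i
  have a := abs_le.mp (mem_bx.mp hh i)
  have b := abs_le.mp (mem_bx.mp hh' i)
  simp only [Pi.add_apply, Pi.sub_apply] at b
  rw [pt_g1, pt_g1, e, abs_lt]
  simp only [Pi.add_apply]
  push_cast
  constructor <;> omega

lemma Data_tooth {F : Fam} (hF : F.ok G) {J : ℕ} (hc : F.cens G = Finset.univ.image (G.off J))
    {φ : V} (hs : Sp (F.rad G) φ) (hr : Rl φ) {β : Z3 → E3} {a : ℝ}
    (H : ∀ h ∈ F.S G, ⟪F.e G, β (F.ctr G + h)⟫_ℝ =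
      ∑ o, G.om o * (a * (φ.coeff (h - G.off J o)).re)) (o : Fin 4) :
    tooth G F (G.off J o) (G.om o) β = (a : ℂ) • φ := by
  have mem : ∀ o, G.off J o ∈ F.cens G := fun o => by
    rw [hc]
    exact Finset.mem_image_of_mem _ (Finset.mem_univ _)
  ext h
  rw [tooth, coeff_mk]
  have e0 : ((a : ℂ) • φ).coeff h = a * φ.coeff h := by simp
  rw [e0]
  split_ifs with hh
  · have hS : G.off J o + h ∈ F.S G := mem_S.mpr ⟨_, mem o, by simpa using hh⟩
    rw [H _ hS, Finset.sum_eq_single o]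
    · have h1 : G.om o ≠ 0 := by linarith [(om_bounds G o).1]
      rw [add_sub_cancel_left, ← mul_assoc, inv_mul_cancel₀ h1, one_mul]
      have h2 : φ.coeff h = ((φ.coeff h).re : ℂ) := Complex.ext rfl (by simpa using hr h)
      rw [Complex.ofReal_mul, ← h2]
    · intro o' _ ho
      have : G.off J o + h - G.off J o' ∉ bx (F.rad G) := fun h' =>
        ho (off_injective J (Data_sep hF (mem o) (mem o') hh h')).symm
      rw [hs _ this]
      simp
    · intro h'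
      exact absurd (Finset.mem_univ _) h'
  · rw [hs _ hh, mul_zero]

/-- The level of the teeth of a family. -/
def Data_lv : Fam → ℕ
  | .b j => j
  | .c j => j + 1
  | .y _ _ => 0

/-- The initial amplitudes. -/
def Data_amp (G : Geo) : Fam → ℝ
  | .b j => Raw.AA0 G j * (rawOf G 0).un G j
  | .c j => (if j + 1 = G.kk then Raw.AA0 G (j + 1) else 0) * (rawOf G 0).un G (j + 1)
  | .y _ _ => 0

theorem exists_data (G : Geo) : ∃ β : Z3 → E3, Adm β ∧ {k | β k ≠ 0}.Finite ∧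
    ∀ α : ℝ → Z3 → E3, α 0 = β →
      (∀ j o, (rawOf G α).b j o 0 =
        ((Raw.AA0 G j * (rawOf G α).un G j : ℝ) : ℂ) • G.φ j) ∧
      (∀ j o, (rawOf G α).c j o 0 =
        (((if j = G.kk then Raw.AA0 G j else 0) * (rawOf G α).un G j : ℝ) : ℂ) • G.φ j) ∧
      (∀ j i, (rawOf G α).y j (i + 1) 0 = 0) ∧ (rawOf G α).Fj 0 = 0 ∧ (rawOf G α).Hj 0 = 0 := by
  have hk : G.kk ≠ 0 := by
    have := kk_big G
    omega
  set s : Finset Fam := insert (.c (G.kk - 1)) ((Finset.range (G.kk + 1)).image Fam.b) with hs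
  set m : Fam → Z3 → ℝ := fun F h => ∑ o, G.om o * (Data_amp G F *
    ((G.φ (Data_lv F)).coeff (h - G.off (Data_lv F) o)).re) with hm
  have hs1 : ∀ F ∈ s, F.ok G := by
    intro F hF
    rw [hs, Finset.mem_insert, Finset.mem_image] at hF
    rcases hF with rfl | ⟨j, -, rfl⟩ <;> trivial
  have hs2 : ∀ F, F ∉ s → Data_amp G F = 0 := by
    intro F hF
    rw [hs, Finset.mem_insert, Finset.mem_image] at hF
    rcases F with j | j | ⟨j, i⟩
    · have h1 : ¬j < G.kk + 1 := fun h => hF (Or.inr ⟨j, Finset.mem_range.mpr h, rfl⟩)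
      rw [Data_amp, Raw.AA0, if_neg (by omega), if_neg (by omega), zero_mul]
    · have h1 : ¬j + 1 = G.kk := fun h => hF (Or.inl (by rw [← h, Nat.add_sub_cancel]))
      rw [Data_amp, if_neg h1, zero_mul]
    · rfl
  obtain ⟨β, adm, fin, hj, hβ⟩ := exists_state s hs1 m
  have hβ' : ∀ F, F.ok G → ∀ h ∈ F.S G, ⟪F.e G, β (F.ctr G + h)⟫_ℝ = m F h := by
    intro F hF h hh
    rw [hβ F hF h hh]
    split_ifs with h1
    · rfl
    · simp [hm, hs2 F h1]
  refine ⟨β, adm, fin, fun α hα => ⟨fun j o => ?_, fun j o => ?_, fun j i => ?_, ?_, ?_⟩⟩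
  · change tooth G (.b j) (G.off j o) (G.om o) (α 0) = _
    rw [hα]
    exact Data_tooth (F := .b j) trivial rfl (sp_ph _) (rl_ph _) (hβ' (.b j) trivial) o
  · rcases j with _ | j
    · change (0 : V) = _
      rw [if_neg (Ne.symm hk)]
      simp
    · change tooth G (.c j) (G.off (j + 1) o) (G.om o) (α 0) = _
      rw [hα]
      exact Data_tooth (F := .c j) trivial rfl ((sp_ph _).mono (rb_le_rc G (j + 1))) (rl_ph _)
        (hβ' (.c j) trivial) o
  · change (if i + 1 ≤ G.La then env G (.y j (i + 1)) (α 0) else 0) = 0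
    split_ifs with h1
    · ext h
      rw [env, coeff_mk, hα]
      split_ifs with hh
      · rw [hβ' (.y j (i + 1)) ⟨Nat.le_add_left _ _, h1⟩ h hh]
        simp [hm, Data_amp]
      · rfl
    · rfl
  · change ∑' k, ‖jnk G (α 0) k‖ = 0
    simp [hα, hj]
  · change √(∑' k, (ax k * ‖jnk G (α 0) k‖) ^ 2) = 0
    simp [hα, hj]

end

end Pool.Agent.Work.MP_6bf1e5_an.Hyp.Pd
end
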