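import Pool.Agent.Work.MP_6bf1e5_an.Hyp.Symm

-- merged part: Pool.Agent.Work.MP_6bf1e5_an.Hyp.Young
section
-- merged part: Pool.Agent.Work.MP_6bf1e5_an.Hyp.CoefA
section
/-!
The reference vectors and the interaction coefficients.
-/

open Set Complex
open scoped InnerProductSpace ComplexConjugate Classical
open Pool.Agent.Work.MP_6bf1e5_an.B
open Pool.Agent.Work.MP_6bf1e5_an.Hyp.Dec

namespace Pool.Agent.Work.MP_6bf1e5_an.Hyp.Pd

noncomputable section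

attribute [local irreducible] Fam.S

variable (G : Geo)

lemma kp_pos : 0 < G.kp := by
  have h1 := coefA_mCpos G
  have h2 := coefA_hpos G
  unfold Geo.kp
  positivity

lemma kp_lo : 1 / 200 ≤ G.kp ^ 2 * G.t ^ 21 := by
  have h1 := coefA_kpsq G
  have h2 := coefA_num G
  have h4 := coefA_D G
  have h5 : 0 ≤ G.kp ^ 2 * G.t ^ 21 := mul_nonneg (sq_nonneg _) (by linarith only [coefA_L G])
  set D := 4 * G.ε ^ 2 + 4 + G.z ^ 2
  set X := G.kp ^ 2 * G.t ^ 21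
  have a1 : X * (25 * D) ≤ X * (25 * (501 / 100)) :=
    mul_le_mul_of_nonneg_left (by linarith only [h4.2]) h5
  linarith only [h1, a1, h2.1]

lemma kp_hi : G.kp ^ 2 * G.t ^ 21 ≤ 1 / 100 := by
  have h1 := coefA_kpsq G
  have h2 := coefA_num G
  have h4 := coefA_D G
  have h5 : 0 ≤ G.kp ^ 2 * G.t ^ 21 := mul_nonneg (sq_nonneg _) (by linarith only [coefA_L G])
  set D := 4 * G.ε ^ 2 + 4 + G.z ^ 2
  set X := G.kp ^ 2 * G.t ^ 21
  have a1 : X * (25 * (499 / 100)) ≤ X * (25 * D) :=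
    mul_le_mul_of_nonneg_left (by linarith only [h4.1]) h5
  linarith only [h1, a1, h2.2]

lemma om_lo : 7 ≤ G.om0 := by
  have h1 := coefA_W G
  have h2 := coefA_epos G
  have h3 : 0 ≤ G.ε ^ 2 := sq_nonneg _
  unfold Geo.om0
  rw [le_div_iff₀ (by linarith only [h1.1])]
  linarith only [h2, h3, h1.2, mul_nonneg h3 h2.le]

lemma om_hi : G.om0 ≤ 9 := by
  have h1 := coefA_W G
  have h2 := coefA_epos G
  have h3 : 0 ≤ G.ε ^ 2 := sq_nonneg _
  have h4 := coefA_ele G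
  have h5 := coefA_esq G
  unfold Geo.om0
  rw [div_le_iff₀ (by linarith only [h1.1])]
  nlinarith only [h5, h1.1]

lemma om_bounds (o : Fin 4) : 1 ≤ G.om o ∧ G.om o ≤ 9 := by
  have h1 := om_lo G
  have h2 := om_hi G
  fin_cases o <;> simp [Geo.om] <;> constructor <;> linarith only [h1, h2]

lemma cy_lo (i : ℕ) : 1 / 3 ≤ G.cy i := by
  unfold Geo.cy
  split_ifs
  · norm_num
  · linarith only [sq_nonneg G.ε]
  · have h1 := coefA_s5
    have h2 := coefA_s5pos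
    nlinarith only [h1, h2]

lemma cy_hi (i : ℕ) : G.cy i ≤ 1 := by
  unfold Geo.cy
  split_ifs
  · exact le_rfl
  · have h1 := coefA_esq G
    have h2 := coefA_ele G
    linarith only [h1, h2]
  · have h1 := coefA_s5
    have h2 := coefA_s5pos
    nlinarith only [h1]

lemma cf_lo : 1 ≤ G.cf := by
  have h1 := coefA_W G
  have h2 := coefA_U G
  have h3 := (coefA_mC_bounds G).1
  have h4 := coefA_L G
  have h5 := coefA_mCpos G
  have h6 : 10 ≤ G.mC := by nlinarith only [h3, h4, h5]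
  unfold Geo.cf
  rw [le_div_iff₀ (by linarith only [h2.1])]
  nlinarith only [h6, h1.1, h2.2]

lemma cf_hi : G.cf ≤ G.t ^ 11 := by
  have h1 := coefA_W G
  have h2 := coefA_U G
  have h3 := (coefA_mC_bounds G).2
  have h4 := coefA_L G
  have h5 := coefA_mCpos G
  have h7 := coefA_t G
  have h8 : 0 ≤ G.t ^ 11 := by positivity
  have h6 : G.mC ≤ G.t ^ 11 := by
    refine (abs_le_of_sq_le_sq' ?_ h8).2
    have e : (G.t ^ 11) ^ 2 = G.t * G.t ^ 21 := by ring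
    rw [e]; nlinarith only [h3, h7]
  unfold Geo.cf
  rw [div_le_iff₀ (by linarith only [h2.1])]
  nlinarith only [h5, h6, h1.2, h2.1]

lemma cq_le (o : Fin 4) : G.cq o ^ 2 * G.t ^ 21 ≤ 1 := by
  have hM := coefA_mCpos G
  have hW : 0 < G.z * (G.z - 4 * G.ε) := by linarith [(coefA_W G).1]
  have hU : 0 < ‖G.eU‖ ^ 2 := by linarith [(coefA_U G).1]
  have hD : 0 < 4 * G.ε ^ 2 + 4 + G.z ^ 2 := by linarith [(coefA_D G).1]
  have hω : 0 < G.om o := by linarith [(om_bounds G o).1]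
  have h7 := om_lo G
  have hb := coefA_b G
  have hA0 := coefA_A0 G
  have hA2 := coefA_A2 G
  have key : ∃ b a : ℝ, ⟪G.eC, ge (go o) G.eC⟫_ℝ = G.mC ^ 2 * b ∧ b ^ 2 ≤ 41 / 10 ∧ 0 ≤ a ∧
      ⟪G.eU, ge (go o) (v3 1 G.ε 0)⟫_ℝ ^ 2 ≤ a ∧ 2 * a ≤ G.om o ^ 2 := by
    rw [Geo.eC, Geo.eU, ge_smul, coefA_ge, coefA_ge, real_inner_smul_left, real_inner_smul_left,
      real_inner_smul_right]
    fin_cases o
    · refine ⟨2 * G.ε * G.z - 4 * G.ε - 2 * G.z, 21 / 100, ?_, hb, by norm_num, ?_, ?_⟩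
      · simp only [Fin.zero_eta, Matrix.cons_val_zero, coefA_inner]; ring
      · simp only [Fin.zero_eta, Matrix.cons_val_zero, coefA_inner]
        convert hA0 using 3; ring
      · simp [Geo.om]; norm_num
    · refine ⟨-(2 * G.ε * G.z - 4 * G.ε - 2 * G.z), 21 / 100, ?_, by rw [neg_sq]; exact hb,
        by norm_num, ?_, ?_⟩
      · simp only [Fin.mk_one, Matrix.cons_val_one, Matrix.cons_val_zero, coefA_inner]; ring
      · simp only [Fin.mk_one, Matrix.cons_val_one, Matrix.cons_val_zero, coefA_inner]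
        rw [← neg_sq]
        convert hA0 using 2; ring
      · simp [Geo.om]; norm_num
    · refine ⟨2 * G.ε * G.z - 4 * G.ε - 2 * G.z, 1, ?_, hb, by norm_num, ?_, ?_⟩
      · simp only [Fin.reduceFinMk, Matrix.cons_val, coefA_inner]; ring
      · simp only [Fin.reduceFinMk, Matrix.cons_val, coefA_inner]
        convert hA2 using 3; ring
      · simp only [Geo.om, Fin.reduceFinMk, Matrix.cons_val]; nlinarith only [h7]
    · refine ⟨-(2 * G.ε * G.z - 4 * G.ε - 2 * G.z), 1, ?_, by rw [neg_sq]; exact hb,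
        by norm_num, ?_, ?_⟩
      · simp only [Fin.reduceFinMk, Matrix.cons_val, coefA_inner]; ring
      · simp only [Fin.reduceFinMk, Matrix.cons_val, coefA_inner]
        rw [← neg_sq]
        convert hA2 using 2; ring
      · simp only [Geo.om, Fin.reduceFinMk, Matrix.cons_val]; nlinarith only [h7]
  obtain ⟨b, a, e1, e2, e3, e4, e5⟩ := key
  rw [Geo.cq, e1, coefA_eCsq, Geo.cf]
  exact coefA_cq_aux hM hW hU hD hω (coefA_cq_fin G e4 e2 e3 e5)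

lemma norm_eB : ‖G.eB‖ = 1 := by
  have h : ‖G.eB‖ ^ 2 = 1 := by
    rw [Geo.eB, norm_smul, mul_pow, coefA_normsq, Real.norm_of_nonneg coefA_s5pos.le, coefA_s5]
    norm_num
  exact (pow_eq_one_iff_of_nonneg (norm_nonneg _) two_ne_zero).mp h

lemma coefA_norm_e3 : ‖v3 0 0 1‖ = 1 := by
  have h : ‖v3 0 0 1‖ ^ 2 = 1 := by rw [coefA_normsq]; norm_num
  exact (pow_eq_one_iff_of_nonneg (norm_nonneg _) two_ne_zero).mp h

lemma coefA_norm_y (j i : ℕ) : 9 / 10 ≤ ‖(Fam.y j i).e G‖ ∧ ‖(Fam.y j i).e G‖ ≤ 11 / 10 := by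
  have h := coefA_U G
  have h0 := norm_nonneg G.eU
  simp only [Fam.e]
  split_ifs
  · constructor <;> nlinarith only [h0, h.1, h.2]
  · rw [coefA_norm_e3]; norm_num

lemma norm_e_lo (F : Fam) : 9 / 10 ≤ ‖F.e G‖ := by
  cases F with
  | b j => simp only [Fam.e]; rw [norm_eB]; norm_num
  | c j =>
    simp only [Fam.e]
    refine (abs_le_of_sq_le_sq' ?_ (norm_nonneg _)).2
    have h1 := (coefA_mC_bounds G).1
    have h2 := (coefA_D G).1
    have h3 := coefA_L G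
    rw [coefA_eCsq]
    nlinarith only [h1, h3]
  | y j i => exact (coefA_norm_y G j i).1

lemma norm_e_hi (F : Fam) : ‖F.e G‖ ≤ G.t ^ 11 := by
  have h7 := coefA_t G
  have h8 : G.t ^ 1 ≤ G.t ^ 11 := pow_le_pow_right₀ (by linarith) (by norm_num)
  rw [pow_one] at h8
  cases F with
  | b j => simp only [Fam.e]; rw [norm_eB]; linarith
  | c j =>
    simp only [Fam.e]
    refine (abs_le_of_sq_le_sq' ?_ (by linarith)).2
    have h1 := (coefA_mC_bounds G).2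
    have h2 := (coefA_D G).2
    have h3 := coefA_L G
    have h4 : 0 ≤ G.mC ^ 2 := sq_nonneg _
    have e : (G.t ^ 11) ^ 2 = G.t * G.t ^ 21 := by ring
    rw [coefA_eCsq, e]
    have h5 := mul_le_mul_of_nonneg_left h2 h4
    nlinarith only [h7, h1, h5]
  | y j i => linarith [(coefA_norm_y G j i).2]

lemma norm_e_y (j i : ℕ) : ‖(Fam.y j i).e G‖ ≤ 11 / 10 := (coefA_norm_y G j i).2

variable {G}

lemma e_orth {F : Fam} (hF : F.ok G) : ⟪xi (F.ctr G), F.e G⟫_ℝ = 0 := by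
  have h := coefA_eL G
  cases F with
  | b j =>
    simp only [Fam.e]
    rw [coefA_ctr_b, Geo.eB, real_inner_smul_right, coefA_inner]; ring
  | c j =>
    simp only [Fam.e]
    rw [coefA_ctr_c, Geo.eC, real_inner_smul_right, coefA_inner, lam_succ]
    linear_combination (2 * G.mC * G.lam j) * h
  | y j i =>
    simp only [Fam.e]
    rw [coefA_ctr_y]
    split_ifs with hi
    · rw [Geo.eU, real_inner_smul_right, coefA_inner, hi, La_cast]
      linear_combination (-((√5)⁻¹ * G.lam j * G.z)) * h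
    · rw [coefA_inner]; ring

lemma norm_xi_off {F : Fam} {h : Z3} (hh : h ∈ F.S G) : ‖xi h‖ ≤ 12 * F.sz G := by
  have h0 : ∀ i, (h i : ℝ) ^ 2 ≤ (101 / 100 * F.sz G) ^ 2 := fun i => by
    have h1 : (100 : ℝ) * |(h i : ℝ)| ≤ 101 * F.sz G := by exact_mod_cast S_le hh i
    rw [← sq_abs]
    exact pow_le_pow_left₀ (abs_nonneg _) (by linarith) 2
  refine (abs_le_of_sq_le_sq' ?_ (by positivity)).2
  rw [← ax_eq_norm, ax_sq, Fin.sum_univ_three]
  have hp : Real.pi ^ 2 ≤ 10 := by nlinarith only [Real.pi_lt_d2, Real.pi_pos]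
  have e : ∀ i, (2 * Real.pi * (h i : ℝ)) ^ 2 ≤ 41 * (F.sz G : ℝ) ^ 2 := fun i => by
    have := h0 i
    calc (2 * Real.pi * (h i : ℝ)) ^ 2 = 4 * Real.pi ^ 2 * (h i : ℝ) ^ 2 := by ring
      _ ≤ 4 * 10 * (101 / 100 * (F.sz G : ℝ)) ^ 2 := by gcongr
      _ ≤ _ := by linarith only [sq_nonneg (F.sz G : ℝ)]
  linarith [e 0, e 1, e 2, sq_nonneg (F.sz G : ℝ)]

lemma coefA_off {F : Fam} {h : Z3} (hh : h ∈ F.S G) : ‖xi h‖ ≤ G.lam F.ix / 100 := by
  have h1 := norm_xi_off hh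
  have h2 : (F.sz G : ℝ) ≤ G.n (F.ix + 1) := by exact_mod_cast sz_le F
  have h3 := coefA_n_le G F.ix
  linarith

lemma coefA_ax_lo (c h : Z3) : ‖xi c‖ - ‖xi h‖ ≤ ax (c + h) := by
  have h1 := norm_sub_le (xi c + xi h) (xi h)
  rw [add_sub_cancel_right] at h1
  rw [ax_eq_norm, xi_add]; linarith

lemma coefA_ax_hi (c h : Z3) : ax (c + h) ≤ ‖xi c‖ + ‖xi h‖ := by
  rw [ax_eq_norm, xi_add]; exact norm_add_le _ _

lemma ax_lo {F : Fam} (hF : F.ok G) {h : Z3} (hh : h ∈ F.S G) :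
    G.lam F.ix / 2 ≤ ax (F.ctr G + h) := by
  have h1 := coefA_ax_lo (F.ctr G) h
  have h2 := coefA_off hh
  have h3 := coefA_ctr_lo (G := G) F
  have h4 := lam_pos G F.ix
  linarith

lemma ax_hi {F : Fam} (hF : F.ok G) {h : Z3} (hh : h ∈ F.S G) :
    ax (F.ctr G + h) ≤ 11 / 10 * G.lam (F.ix + 1) := by
  have h1 := coefA_ax_hi (F.ctr G) h
  have h2 := coefA_off hh
  have h3 := coefA_ctr_hi hF
  have h4 := lam_pos G F.ix
  have h5 := coefA_lam_le G F.ix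
  linarith

lemma ax_b {j : ℕ} {h : Z3} (hh : h ∈ (Fam.b j).S G) :
    ax ((Fam.b j).ctr G + h) ≤ 11 / 10 * G.lam j := by
  have h1 := coefA_ax_hi ((Fam.b j).ctr G) h
  have h2 : ‖xi h‖ ≤ G.lam j / 100 := coefA_off (F := .b j) hh
  have h4 := lam_pos G j
  have h3 : ‖xi ((Fam.b j).ctr G)‖ ≤ G.lam j + 0 := by
    rw [coefA_ctr_b]; exact coefA_hi (by linarith only [h4]) le_rfl
  linarith

lemma ax_c {j : ℕ} {h : Z3} (hh : h ∈ (Fam.c j).S G) :
    G.lam (j + 1) / 2 ≤ ax ((Fam.c j).ctr G + h) := by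
  have h1 := coefA_ax_lo ((Fam.c j).ctr G) h
  have h2 : ‖xi h‖ ≤ G.lam j / 100 := coefA_off (F := .c j) hh
  have h4 := lam_pos G j
  have h5 := coefA_lam_le G j
  have h3 : G.lam (j + 1) ≤ ‖xi ((Fam.c j).ctr G)‖ := by
    rw [coefA_ctr_c]; exact coefA_lo1 _ _ _
  linarith

/-! Perturbation of the projections -/

lemma lp_near {ξ δ e : E3} {η : ℝ} (h0 : ⟪ξ, e⟫_ℝ = 0) (h1 : ‖δ‖ ≤ η * ‖ξ‖) (h2 : η ≤ 1 / 10)
    (h3 : ξ ≠ 0) : ‖lp (ξ + δ) e - e‖ ≤ 2 * η * ‖e‖ := by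
  rw [coefA_lp_sub, norm_neg, norm_smul, Real.norm_eq_abs]
  exact coefA_coef h0 h1 h2 h3

lemma coefA_lp_lo {ξ δ e : E3} {η : ℝ} (h0 : ⟪ξ, e⟫_ℝ = 0) (h1 : ‖δ‖ ≤ η * ‖ξ‖) (h2 : η ≤ 1 / 10)
    (h3 : ξ ≠ 0) : 4 / 5 * ‖e‖ ≤ ‖lp (ξ + δ) e‖ := by
  have h4 := lp_near h0 h1 h2 h3
  have h5 := norm_sub_le (lp (ξ + δ) e) (lp (ξ + δ) e - e)
  rw [sub_sub_cancel] at h5
  have h6 := mul_le_mul_of_nonneg_right h2 (norm_nonneg e)
  linarith only [h4, h5, h6]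

lemma norm_lp_lo {F : Fam} (hF : F.ok G) {h : Z3} (hh : h ∈ F.S G) :
    1 / 2 ≤ ‖lp (xi (F.ctr G + h)) (F.e G)‖ := by
  have h2 := coefA_off hh
  have h3 := coefA_ctr_lo (G := G) F
  have h4 := lam_pos G F.ix
  have h5 : xi (F.ctr G) ≠ 0 := norm_pos_iff.mp (by linarith only [h3, h4])
  have h6 := coefA_lp_lo (η := 1 / 10) (δ := xi h) (e_orth hF) (by linarith) le_rfl h5
  have h7 := norm_e_lo G F
  rw [xi_add]; linarith only [h6, h7]

lemma norm_uv_le {F : Fam} (hF : F.ok G) (g : Gp) {h : Z3} (hh : h ∈ F.S G) :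
    ‖uv G F g h‖ ≤ 2 := by
  have h1 := norm_lp_lo hF hh
  rw [uv, norm_ge, ur, norm_smul, Real.norm_of_nonneg (by positivity)]
  set x := ‖lp (xi (F.ctr G + h)) (F.e G)‖
  have hx : 0 < x := by linarith
  rw [inv_mul_le_iff₀ (by positivity)]
  nlinarith only [h1]

lemma inner_lp_ur {F : Fam} (hF : F.ok G) {h : Z3} (hh : h ∈ F.S G) :
    ⟪lp (xi (F.ctr G + h)) (F.e G), ur (xi (F.ctr G + h)) (F.e G)⟫_ℝ = 1 := by
  have h1 := norm_lp_lo hF hh
  rw [ur, real_inner_smul_right, real_inner_self_eq_norm_sq]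
  exact inv_mul_cancel₀ (pow_pos (by linarith) 2).ne'

lemma ur_near {ξ δ e : E3} {η : ℝ} (h0 : ⟪ξ, e⟫_ℝ = 0) (h1 : ‖δ‖ ≤ η * ‖ξ‖) (h2 : η ≤ 1 / 10)
    (h3 : ξ ≠ 0) (h4 : e ≠ 0) : ‖ur (ξ + δ) e - (‖e‖ ^ 2)⁻¹ • e‖ ≤ 10 * η / ‖e‖ := by
  have h5 := lp_near h0 h1 h2 h3
  have h6 := coefA_lp_lo h0 h1 h2 h3
  have he := norm_pos_iff.mpr h4
  have hη := coefA_eta h1 h3
  have h7 : 0 < ‖lp (ξ + δ) e‖ := by linarith only [h6, he]
  have h8 := dist_div_norm_sq_smul (norm_pos_iff.mp h7) h4 1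
  rw [dist_eq_norm, dist_eq_norm, one_div, one_div, inv_pow, inv_pow] at h8
  rw [ur, h8, le_div_iff₀ he]
  set v := lp (ξ + δ) e
  have e1 : 1 ^ 2 / (‖v‖ * ‖e‖) * ‖v - e‖ * ‖e‖ = ‖v - e‖ / ‖v‖ := by field_simp
  rw [e1, div_le_iff₀ h7]
  nlinarith only [he, hη, h5, mul_le_mul_of_nonneg_left h6 hη]

/-- Orthogonality is preserved to second order. -/
lemma inner_lp_lp {ξ δ δ' e e' : E3} {η : ℝ} (h0 : ⟪ξ, e⟫_ℝ = 0) (h0' : ⟪ξ, e'⟫_ℝ = 0)
    (h : ⟪e, e'⟫_ℝ = 0) (h1 : ‖δ‖ ≤ η * ‖ξ‖) (h1' : ‖δ'‖ ≤ η * ‖ξ‖) (h2 : η ≤ 1 / 10)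
    (h3 : ξ ≠ 0) : |⟪lp (ξ + δ) e, lp (ξ + δ') e'⟫_ℝ| ≤ 10 * η ^ 2 * (‖e‖ * ‖e'‖) := by
  have hη := coefA_eta h1 h3
  have key : ∀ {d x y : E3}, ⟪ξ, x⟫_ℝ = 0 → ⟪ξ, y⟫_ℝ = 0 → ‖d‖ ≤ η * ‖ξ‖ →
      |⟪lp (ξ + d) x - x, y⟫_ℝ| ≤ 3 * η ^ 2 * (‖x‖ * ‖y‖) := by
    intro d x y hx hy hd
    have a1 := coefA_coef hx hd h2 h3
    have a2 := coefA_add_lo hd h2
    rw [coefA_lp_sub, inner_neg_left, abs_neg, real_inner_smul_left, abs_mul, inner_add_left ξ d y,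
      hy, zero_add]
    set a := |⟪ξ + d, x⟫_ℝ / ‖ξ + d‖ ^ 2|
    have ha : 0 ≤ a := abs_nonneg _
    have a3 : |⟪d, y⟫_ℝ| ≤ η * ‖ξ‖ * ‖y‖ :=
      (abs_real_inner_le_norm _ _).trans (mul_le_mul_of_nonneg_right hd (norm_nonneg _))
    have a4 : a * ‖ξ‖ ≤ 3 * η * ‖x‖ := by
      have := mul_le_mul_of_nonneg_left a2 ha
      have := mul_nonneg hη (norm_nonneg x)
      linarith
    calc a * |⟪d, y⟫_ℝ| ≤ a * (η * ‖ξ‖ * ‖y‖) := mul_le_mul_of_nonneg_left a3 ha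
      _ = a * ‖ξ‖ * (η * ‖y‖) := by ring
      _ ≤ 3 * η * ‖x‖ * (η * ‖y‖) :=
          mul_le_mul_of_nonneg_right a4 (mul_nonneg hη (norm_nonneg _))
      _ = _ := by ring
  have b1 := key h0 h0' h1
  have b2 := key h0' h0 h1'
  have b3 : |⟪lp (ξ + δ) e - e, lp (ξ + δ') e' - e'⟫_ℝ| ≤ 2 * η * ‖e‖ * (2 * η * ‖e'‖) :=
    (abs_real_inner_le_norm _ _).trans (mul_le_mul (lp_near h0 h1 h2 h3) (lp_near h0' h1' h2 h3)
      (norm_nonneg _) (by positivity))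
  have e1 : ⟪lp (ξ + δ) e, lp (ξ + δ') e'⟫_ℝ = ⟪lp (ξ + δ) e - e, e'⟫_ℝ +
      ⟪lp (ξ + δ') e' - e', e⟫_ℝ + ⟪lp (ξ + δ) e - e, lp (ξ + δ') e' - e'⟫_ℝ := by
    rw [real_inner_comm e (lp (ξ + δ') e' - e')]
    simp only [inner_sub_left, inner_sub_right, h]
    ring
  rw [e1]
  have c1 := abs_add_three ⟪lp (ξ + δ) e - e, e'⟫_ℝ ⟪lp (ξ + δ') e' - e', e⟫_ℝ
    ⟪lp (ξ + δ) e - e, lp (ξ + δ') e' - e'⟫_ℝ
  linarith only [b1, b2, b3, c1]

end

end Pool.Agent.Work.MP_6bf1e5_an.Hyp.Pd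
end

-- merged part: Pool.Agent.Work.MP_6bf1e5_an.Hyp.Young
section
/-!
The splitting of the transport operator.
-/

open Set Complex
open scoped InnerProductSpace ComplexConjugate Classical
open Pool.Agent.Work.MP_6bf1e5_an.B
open Pool.Agent.Work.MP_6bf1e5_an.Hyp.Dec

namespace Pool.Agent.Work.MP_6bf1e5_an.Hyp.Pd

noncomputable section

variable {G : Geo} {β : Z3 → E3}

lemma Tst_add (e : E3) (r0 : Z3) (n : N3) (X Y : Z3 → E3) :
    Tst e r0 n (fun r => X r + Y r) = Tst e r0 n X + Tst e r0 n Y := by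
  ext h
  simp only [Tst, AddMonoidAlgebra.coeff_add, Finsupp.add_apply, coeff_mk]
  split_ifs with hh
  · rw [inner_add_right]; push_cast; ring
  · simp

lemma Young_coeff_le (e : E3) (r0 : Z3) (n : N3) (X : Z3 → E3) (h : Z3) :
    ‖(Tst e r0 n X).coeff h‖ ≤ if h ∈ bx n then ‖e‖ * ‖X (r0 + h)‖ else 0 := by
  rw [Tst, coeff_mk]
  split_ifs with hh
  · rw [Complex.norm_real]
    exact (norm_inner_le_norm _ _).trans
      (mul_le_mul_of_nonneg_right (norm_lp_le _ _) (norm_nonneg _))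
  · simp

lemma Young_norm_mk_le {n : N3} {g : Z3 → ℝ} {K : ℝ} (hK : 0 ≤ K)
    (h : ∑ k ∈ bx n, g k ^ 2 ≤ K ^ 2) : ‖mk (bx n) fun k => ((g k : ℝ) : ℂ)‖ ≤ K := by
  refine (pow_le_pow_iff_left₀ (norm_nonneg _) hK two_ne_zero).mp ?_
  rw [norm_sq_eq (support_mk _ _)]
  refine le_trans (le_of_eq (Finset.sum_congr rfl fun k hk => ?_)) h
  rw [coeff_mk, if_pos hk, Complex.norm_real, Real.norm_eq_abs, sq_abs]

lemma norm_Tst_le (e : E3) (r0 : Z3) (n : N3) {X : Z3 → E3} {K : ℝ}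
    (h : L2 (fun k => ‖X k‖) K) : ‖Tst e r0 n X‖ ≤ ‖e‖ * K := by
  have h1 : ‖mk (bx n) fun k => ((‖X (r0 + k)‖ : ℝ) : ℂ)‖ ≤ K := by
    refine Young_norm_mk_le h.1 ?_
    have := h.2 ((bx n).image (r0 + ·))
    rwa [Finset.sum_image fun a _ b _ hab => add_left_cancel hab] at this
  refine le_trans (norm_le_of_coeff (norm_nonneg e) fun k => ?_)
    (mul_le_mul_of_nonneg_left h1 (norm_nonneg _))
  refine (Young_coeff_le e r0 n X k).trans ?_
  rw [coeff_mk]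
  split_ifs with hk
  · simp
  · simp

lemma BR_eq_RP (β : Z3 → E3) : BR β β = RP β fun _ _ => True := by
  funext r
  simp [BR, RP]

lemma Young_summable_ite {f : Z3 → E3} (hf : Summable f) (P : Z3 → Prop) [DecidablePred P] :
    Summable fun p => if P p then f p else 0 := by
  have := hf.indicator {p | P p}
  refine this.congr fun p => ?_
  simp [Set.indicator_apply]

/-- Splitting off one interaction. -/
lemma RP_split (H : Rapid β) {P : Z3 → Z3 → Prop} {W1 W2 : Set Z3} (hd : ∀ k ∈ W1, k ∉ W2)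
    (hP : ∀ p q, UPair W1 W2 p q → P p q) (r : Z3) :
    RP β P r = SB β W1 W2 r + RP β (fun p q => P p q ∧ ¬UPair W1 W2 p q) r := by
  have s0 := summable_tm H H r
  have s1 := Young_summable_ite s0 fun p => p ∈ W1 ∧ r - p ∈ W2
  have s2 := Young_summable_ite s0 fun p => p ∈ W2 ∧ r - p ∈ W1
  have s3 := @Young_summable_ite _ s0 (fun p => P p (r - p) ∧ ¬UPair W1 W2 p (r - p))
    fun _ => Classical.propDecidable _
  have e2 : ∀ p, (if (Equiv.subLeft r p) ∈ W2 ∧ r - (Equiv.subLeft r p) ∈ W1 then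
      tm β β (Equiv.subLeft r p) (r - (Equiv.subLeft r p)) else 0) =
      if p ∈ W1 ∧ r - p ∈ W2 then tm β β (r - p) p else 0 := by
    intro p
    simp only [Equiv.subLeft_apply, sub_sub_cancel, and_comm]
  have s2' : Summable fun p => if p ∈ W1 ∧ r - p ∈ W2 then tm β β (r - p) p else 0 :=
    (((Equiv.subLeft r).summable_iff.mpr s2).congr e2)
  have t2 : (∑' p, if p ∈ W1 ∧ r - p ∈ W2 then tm β β (r - p) p else 0) =
      ∑' p, if p ∈ W2 ∧ r - p ∈ W1 then tm β β p (r - p) else 0 := by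
    rw [← (Equiv.subLeft r).tsum_eq
      (fun p => if p ∈ W2 ∧ r - p ∈ W1 then tm β β p (r - p) else 0)]
    exact tsum_congr fun p => (e2 p).symm
  have hSB : SB β W1 W2 r = (∑' p, if p ∈ W1 ∧ r - p ∈ W2 then tm β β p (r - p) else 0) +
      ∑' p, if p ∈ W2 ∧ r - p ∈ W1 then tm β β p (r - p) else 0 := by
    rw [← t2, ← s1.tsum_add s2', SB]
    refine tsum_congr fun p => ?_
    split_ifs <;> simp
  rw [hSB, RP, RP, ← s1.tsum_add s2, ← (s1.add s2).tsum_add s3]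
  refine tsum_congr fun p => ?_
  by_cases a1 : p ∈ W1 ∧ r - p ∈ W2
  · have a2 : ¬(p ∈ W2 ∧ r - p ∈ W1) := fun h => hd p a1.1 h.1
    have u : UPair W1 W2 p (r - p) := Or.inl a1
    rw [if_pos (hP _ _ u), if_pos a1, if_neg a2, if_neg (fun h => h.2 u)]
    simp
  · by_cases a2 : p ∈ W2 ∧ r - p ∈ W1
    · have u : UPair W1 W2 p (r - p) := Or.inr a2
      rw [if_pos (hP _ _ u), if_neg a1, if_pos a2, if_neg (fun h => h.2 u)]
      simp
    · have u : ¬UPair W1 W2 p (r - p) := fun h => h.elim a1 a2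
      rw [if_neg a1, if_neg a2]
      simp [u]

lemma Young_nb_mem {W : Set Z3} {k : Z3} (h : k ∈ W) : nb β W k = ‖β k‖ := by
  simp [nb, h]

/-- The pointwise bound of the remaining interactions. -/
lemma Young_RP_le (H : Adm β) {ι : Type} [Fintype ι] {W1 W2 : ι → Set Z3}
    (hs : ∀ i r, Summable fun p => nb β (W1 i) p * nb β (W2 i) (r - p)) {P : Z3 → Z3 → Prop}
    {r : Z3} (hcase : ∀ p q, p + q = r → P p q → β p ≠ 0 → β q ≠ 0 →
      ∃ i, UPair (W1 i) (W2 i) p q) :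
    ‖RP β P r‖ ≤ ax r * (2 * ∑ i, ∑' p, nb β (W1 i) p * nb β (W2 i) (r - p)) := by
  have e2 : ∀ i p, nb β (W1 i) (Equiv.subLeft r p) * nb β (W2 i) (r - Equiv.subLeft r p) =
      nb β (W1 i) (r - p) * nb β (W2 i) p := by
    intro i p
    simp only [Equiv.subLeft_apply, sub_sub_cancel]
  have hs' : ∀ i, HasSum (fun p => nb β (W1 i) (r - p) * nb β (W2 i) p)
      (∑' p, nb β (W1 i) p * nb β (W2 i) (r - p)) := by
    intro i
    have := (Equiv.subLeft r).hasSum_iff.mpr (hs i r).hasSum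
    exact this.congr_fun fun p => (e2 i p).symm
  have hsum : HasSum (fun p => ax r * ∑ i, (nb β (W1 i) p * nb β (W2 i) (r - p) +
      nb β (W1 i) (r - p) * nb β (W2 i) p))
      (ax r * ∑ i, ((∑' p, nb β (W1 i) p * nb β (W2 i) (r - p)) +
        ∑' p, nb β (W1 i) p * nb β (W2 i) (r - p))) :=
    (hasSum_sum fun i _ => (hs i r).hasSum.add (hs' i)).mul_left _
  have := tsum_of_norm_bounded (f := fun p => if P p (r - p) then tm β β p (r - p) else 0) hsum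
    fun p => by
      have nn : ∀ i, 0 ≤ nb β (W1 i) p * nb β (W2 i) (r - p) +
          nb β (W1 i) (r - p) * nb β (W2 i) p := fun i =>
        add_nonneg (mul_nonneg (nb_nonneg _ _ _) (nb_nonneg _ _ _))
          (mul_nonneg (nb_nonneg _ _ _) (nb_nonneg _ _ _))
      have n0 := mul_nonneg (ax_nonneg r) (Finset.sum_nonneg fun i (_ : i ∈ Finset.univ) => nn i)
      split_ifs with hp
      · by_cases b1 : β p = 0
        · simpa [tm, b1] using n0
        by_cases b2 : β (r - p) = 0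
        · simpa [tm, b2] using n0
        obtain ⟨i, hi⟩ := hcase p (r - p) (add_sub_cancel _ _) hp b1 b2
        have h1 := norm_tm_le H.div β p (r - p)
        rw [add_sub_cancel] at h1
        refine h1.trans (mul_le_mul_of_nonneg_left ?_ (ax_nonneg r))
        refine le_trans ?_ (Finset.single_le_sum (fun i _ => nn i) (Finset.mem_univ i))
        rcases hi with ⟨a, b⟩ | ⟨a, b⟩
        · rw [Young_nb_mem a, Young_nb_mem b]
          exact le_add_of_nonneg_right (mul_nonneg (nb_nonneg _ _ _) (nb_nonneg _ _ _))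
        · rw [Young_nb_mem a, Young_nb_mem b, mul_comm ‖β (r - p)‖]
          exact le_add_of_nonneg_left (mul_nonneg (nb_nonneg _ _ _) (nb_nonneg _ _ _))
      · simpa using n0
  refine this.trans (le_of_eq ?_)
  rw [Finset.sum_add_distrib, two_mul]

/-- The remaining interactions. -/
theorem rest_le (H : Adm β) {ι : Type} [Fintype ι] {W1 W2 : ι → Set Z3} {K : ι → ℝ} {n : N3}
    (hK : ∀ i, Cv n (nb β (W1 i)) (nb β (W2 i)) (K i)) {P : Z3 → Z3 → Prop} {e : E3} {r0 : Z3}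
    {c : ℝ} (hc : ∀ h ∈ bx n, ‖e‖ * ax (r0 + h) ≤ c)
    (hcase : ∀ h ∈ bx n, ∀ p q, p + q = r0 + h → P p q → β p ≠ 0 → β q ≠ 0 →
      ∃ i, UPair (W1 i) (W2 i) p q) :
    ‖Tst e r0 n (RP β P)‖ ≤ 2 * c * ∑ i, K i := by
  have c0 : 0 ≤ c := (mul_nonneg (norm_nonneg _) (ax_nonneg _)).trans (hc 0 (zero_mem_bx n))
  set cv : ι → Z3 → ℝ := fun i h => ∑' p, nb β (W1 i) p * nb β (W2 i) (r0 + h - p) with hcv
  have cv0 : ∀ i h, 0 ≤ cv i h := fun i h =>
    tsum_nonneg fun p => mul_nonneg (nb_nonneg _ _ _) (nb_nonneg _ _ _)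
  have h1 : ∀ i, ‖mk (bx n) fun h => ((cv i h : ℝ) : ℂ)‖ ≤ K i := fun i =>
    Young_norm_mk_le (hK i).1 ((hK i).2.2 r0)
  have h2 : ‖mk (bx n) fun h => ((∑ i, cv i h : ℝ) : ℂ)‖ ≤ ∑ i, K i := by
    have : (mk (bx n) fun h => ((∑ i, cv i h : ℝ) : ℂ)) =
        ∑ i, mk (bx n) fun h => ((cv i h : ℝ) : ℂ) := by
      ext h
      simp only [AddMonoidAlgebra.coeff_sum, Finsupp.finsetSum_apply, coeff_mk]
      split_ifs with hh
      · push_cast; rfl
      · simp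
    rw [this]
    exact (norm_sum_le _ _).trans (Finset.sum_le_sum fun i _ => h1 i)
  refine le_trans (norm_le_of_coeff (c := 2 * c) (by positivity) fun h => ?_)
    (mul_le_mul_of_nonneg_left h2 (by positivity))
  refine (Young_coeff_le e r0 n _ h).trans ?_
  rw [coeff_mk]
  split_ifs with hh
  · have s0 : 0 ≤ ∑ i, cv i h := Finset.sum_nonneg fun i _ => cv0 i h
    rw [Complex.norm_real, Real.norm_of_nonneg s0]
    have h3 := Young_RP_le H (fun i => (hK i).2.1) (hcase h hh)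
    calc ‖e‖ * ‖RP β P (r0 + h)‖ ≤ ‖e‖ * (ax (r0 + h) * (2 * ∑ i, cv i h)) :=
          mul_le_mul_of_nonneg_left h3 (norm_nonneg _)
      _ = ‖e‖ * ax (r0 + h) * (2 * ∑ i, cv i h) := by ring
      _ ≤ c * (2 * ∑ i, cv i h) := mul_le_mul_of_nonneg_right (hc h hh) (by positivity)
      _ = _ := by ring
  · simp

lemma Young_BR_split (H : Adm β) (r : Z3) :
    BR β β r = BR (act G β) (act G β) r + (BR β (jnk G β) r + BR (jnk G β) (act G β) r) := by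
  have a := (adm_act (G := G) H).rapid
  have j := (adm_jnk (G := G) H).rapid
  have s1 := summable_tm a a r
  have s2 := summable_tm H.rapid j r
  have s3 := summable_tm j a r
  rw [BR, BR, BR, BR, ← s2.tsum_add s3, ← s1.tsum_add (s2.add s3)]
  refine tsum_congr fun p => ?_
  simp only [tm, jnk, inner_sub_left, smul_sub, sub_smul]
  abel

/-- The interactions with the junk. -/
theorem junk_le (H : Adm β) (e : E3) (r0 : Z3) (n : N3) :
    ‖Tst e r0 n (BR β β) - Tst e r0 n (BR (act G β) (act G β))‖ ≤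
      ‖e‖ * ((∑' k, ‖β k‖) * √(∑' k, (ax k * ‖jnk G β k‖) ^ 2) +
        (∑' k, ‖jnk G β k‖) * √(∑' k, (ax k * ‖β k‖) ^ 2)) := by
  have a := (adm_act (G := G) H).rapid
  have j := (adm_jnk (G := G) H).rapid
  have e1 : BR β β = fun r => BR (act G β) (act G β) r +
      (BR β (jnk G β) r + BR (jnk G β) (act G β) r) := funext fun r => Young_BR_split H r
  have e2 : Tst e r0 n (BR β β) - Tst e r0 n (BR (act G β) (act G β)) =
      Tst e r0 n fun r => BR β (jnk G β) r + BR (jnk G β) (act G β) r := by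
    conv_lhs => rw [e1]
    rw [Tst_add e r0 n (BR (act G β) (act G β))]
    exact add_sub_cancel_left _ _
  rw [e2]
  refine norm_Tst_le e r0 n ?_
  have l1 := L2_BR H.rapid j
  have l2 := L2_BR j a
  have m : √(∑' k, (ax k * ‖act G β k‖) ^ 2) ≤ √(∑' k, (ax k * ‖β k‖) ^ 2) := by
    refine Real.sqrt_le_sqrt ((summable_sq_ax a).tsum_le_tsum (fun k => ?_)
      (summable_sq_ax H.rapid))
    have := ax_nonneg k
    have := norm_Pj_le G k (β k)
    rw [act]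
    gcongr
  have l3 := l2.mono (mul_le_mul_of_nonneg_left m (tsum_nonneg fun k => norm_nonneg _))
  refine (l1.add l3).of_le fun k => ?_
  rw [abs_of_nonneg (norm_nonneg _), abs_of_nonneg (by positivity)]
  exact norm_add_le _ _

end

end Pool.Agent.Work.MP_6bf1e5_an.Hyp.Pd
end

-- merged part: Pool.Agent.Work.MP_6bf1e5_an.Hyp.CoefB
section
/-!
The coefficients of the strain and of the ladder.
-/

open Set Complex
open scoped InnerProductSpace ComplexConjugate Classical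
open Pool.Agent.Work.MP_6bf1e5_an.B
open Pool.Agent.Work.MP_6bf1e5_an.Hyp.Dec

namespace Pool.Agent.Work.MP_6bf1e5_an.Hyp.Pd

noncomputable section

attribute [local irreducible] Fam.S

variable {G : Geo}

lemma cb_inner_diff {a b a0 b0 : E3} {x y A B : ℝ} (ha : ‖a - a0‖ ≤ x) (hb : ‖b - b0‖ ≤ y)
    (hA : ‖a‖ ≤ A) (hB : ‖b0‖ ≤ B) : |⟪a, b⟫_ℝ - ⟪a0, b0⟫_ℝ| ≤ A * y + x * B := by
  have e : ⟪a, b⟫_ℝ - ⟪a0, b0⟫_ℝ = ⟪a, b - b0⟫_ℝ + ⟪a - a0, b0⟫_ℝ := by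
    rw [inner_sub_right, inner_sub_left]; ring
  rw [e]
  refine (abs_add_le _ _).trans (add_le_add ?_ ?_)
  · exact (abs_real_inner_le_norm _ _).trans
      (mul_le_mul hA hb (norm_nonneg _) ((norm_nonneg _).trans hA))
  · exact (abs_real_inner_le_norm _ _).trans
      (mul_le_mul ha hB (norm_nonneg _) ((norm_nonneg _).trans ha))

lemma cb_prod {p q p0 q0 x y A B : ℝ} (hp : |p - p0| ≤ x) (hq : |q - q0| ≤ y) (hA : |p| ≤ A)
    (hB : |q0| ≤ B) : |p * q - p0 * q0| ≤ A * y + x * B := by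
  have e : p * q - p0 * q0 = p * (q - q0) + (p - p0) * q0 := by ring
  rw [e]
  refine (abs_add_le _ _).trans (add_le_add ?_ ?_)
  · rw [abs_mul]; exact mul_le_mul hA hq (abs_nonneg _) ((abs_nonneg _).trans hA)
  · rw [abs_mul]; exact mul_le_mul hp hB (abs_nonneg _) ((abs_nonneg _).trans hp)

lemma cb_inner_v3 (a b c x y z : ℝ) : ⟪v3 a b c, v3 x y z⟫_ℝ = a * x + b * y + c * z := by
  simp [v3, PiLp.inner_apply, Fin.sum_univ_three]; ring

lemma cb_norm_v3 {x y z B : ℝ} (hB : 0 ≤ B) (h : x ^ 2 + y ^ 2 + z ^ 2 ≤ B ^ 2) :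
    ‖v3 x y z‖ ≤ B := by
  refine abs_le_of_sq_le_sq' ?_ hB |>.2
  rw [← real_inner_self_eq_norm_sq, cb_inner_v3]; linarith

lemma cb_le_norm_v3 {x y z : ℝ} : x ≤ ‖v3 x y z‖ := by
  refine abs_le_of_sq_le_sq' ?_ (norm_nonneg _) |>.2
  rw [← real_inner_self_eq_norm_sq, cb_inner_v3]; linarith [sq_nonneg y, sq_nonneg z]

lemma cb_xi (a b c : ℤ) : xi ![a, b, c] = v3 (2 * Real.pi * a) (2 * Real.pi * b) (2 * Real.pi * c) := by
  ext i; fin_cases i <;> simp [xi, v3]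

lemma cb_smul_v3 (s x y z : ℝ) : s • v3 x y z = v3 (s * x) (s * y) (s * z) := by
  ext i; fin_cases i <;> simp [v3]

lemma cb_m0 : 1000 ≤ G.m0 := by
  have h := m0_big G
  have h1 : (1000 : ℝ) ≤ G.t := le_trans (by norm_num) (t_big G)
  have h2 : G.t ^ 1 ≤ G.t ^ 1000 := pow_le_pow_right₀ (by linarith) (by norm_num)
  rw [pow_one] at h2; linarith

lemma cb_lam (j : ℕ) : G.lam j = 2 * Real.pi * G.n j * G.m0 := by
  have h := lam_div G j
  have h0 : G.m0 ≠ 0 := by have := cb_m0 (G := G); linarith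
  rw [← h]; field_simp

lemma cb_ctr_b (j : ℕ) : xi ((Fam.b j).ctr G) = G.lam j • v3 1 0 0 := by
  rw [Fam.ctr, cb_xi, cb_smul_v3, Geo.lam]
  congr 1 <;> simp

lemma cb_e_ne (F : Fam) : F.e G ≠ 0 := by
  intro h
  have := norm_e_lo G F
  rw [h, norm_zero] at this; linarith

lemma cb_unit (F : Fam) : ‖(‖F.e G‖ ^ 2)⁻¹ • F.e G‖ ≤ 2 := by
  have h2 := norm_e_lo G F
  rw [norm_smul, norm_inv, norm_pow, norm_norm]
  have : (‖F.e G‖ ^ 2)⁻¹ * ‖F.e G‖ = ‖F.e G‖⁻¹ := by field_simp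
  rw [this]
  exact inv_le_of_inv_le₀ (by norm_num) (by linarith)

lemma cb_sq5 : (√5 : ℝ)⁻¹ * (√5)⁻¹ = 1 / 5 := by
  rw [← mul_inv, Real.mul_self_sqrt (by norm_num)]; norm_num

lemma cb_La : (10 : ℝ) ^ 100 ≤ G.La := by exact_mod_cast La_big G

lemma cb_ε : 0 < G.ε ∧ G.ε ≤ 1 / 2 ∧ G.ε * G.La = 1 := by
  have h1 : (2 : ℝ) ≤ G.La := le_trans (by norm_num) cb_La
  unfold Geo.ε
  refine ⟨by positivity, ?_, inv_mul_cancel₀ (by linarith)⟩
  exact inv_le_of_inv_le₀ (by norm_num) (by linarith)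

lemma cb_lam_succ (j : ℕ) : G.lam (j + 1) = G.La * G.lam j := by rw [lam_succ, La_cast]

lemma cb_lam_le (j : ℕ) : G.lam j ≤ G.lam (j + 1) := by
  have h1 : (1 : ℝ) ≤ G.La := le_trans (by norm_num) cb_La
  have := lam_pos G j
  rw [cb_lam_succ]; nlinarith only [h1, this]

lemma cb_ge_p (x y z : ℝ) : ge (1, 1) (v3 x y z) = v3 z x y := by
  ext i; fin_cases i <;> simp [ge, v3]

lemma cb_ge_m (x y z : ℝ) : ge (1, -1) (v3 x y z) = v3 (-z) (-x) (-y) := by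
  ext i; fin_cases i <;> simp [ge, v3]

lemma cb_ctr_y (j i : ℕ) : xi ((Fam.y j i).ctr G) = G.lam j • v3 i 1 0 := by
  rw [Fam.ctr, cb_xi, cb_smul_v3, Geo.lam]
  congr 1
  · push_cast; ring
  · simp
  · simp

lemma cb_ctr_c (j : ℕ) : xi ((Fam.c j).ctr G) = G.lam j • v3 G.La 1 0 := by
  have hP : (G.P (j + 1) : ℤ) = G.La * G.P j := by exact_mod_cast P_succ G j
  rw [← cb_ctr_y]
  simp only [Fam.ctr, hP]

/-- The family `F` lives at the scales `J`, `J + 1`. -/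
structure CbFit (G : Geo) (F : Fam) (J : ℕ) : Prop where
  ok : F.ok G
  sz : F.sz G ≤ G.n (J + 1)
  lo : G.lam J ≤ ‖xi (F.ctr G)‖
  hi : ‖xi (F.ctr G)‖ ≤ 2 * G.lam (J + 1)

lemma cb_norm_row (j : ℕ) {i : ℕ} (i1 : 1 ≤ i) (i2 : i ≤ G.La) :
    G.lam j ≤ ‖G.lam j • v3 i 1 0‖ ∧ ‖G.lam j • v3 i 1 0‖ ≤ 2 * G.lam (j + 1) := by
  have hl : 0 ≤ G.lam j := le_trans zero_le_one (lam_pos G _)
  have a1 : (1 : ℝ) ≤ i := by exact_mod_cast i1
  have a2 : (i : ℝ) ≤ G.La := by exact_mod_cast i2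
  rw [norm_smul, Real.norm_of_nonneg hl, cb_lam_succ]
  have h1 : (i : ℝ) ≤ ‖v3 i 1 0‖ := cb_le_norm_v3
  have h2 : ‖v3 i 1 0‖ ≤ 2 * G.La := cb_norm_v3 (by linarith only []) (by nlinarith only [a1, a2])
  constructor <;> nlinarith only [hl, a1, h1, h2]

lemma cb_fit_y (j : ℕ) {i : ℕ} (i1 : 1 ≤ i) (i2 : i ≤ G.La) : CbFit G (.y j i) j := by
  have := cb_norm_row (G := G) j i1 i2
  rw [← cb_ctr_y] at this
  exact ⟨⟨i1, i2⟩, le_rfl, this.1, this.2⟩

lemma cb_fit_c (j : ℕ) : CbFit G (.c j) j := by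
  have := cb_norm_row (G := G) j (le_trans (by norm_num) (La_big G)) le_rfl
  rw [← cb_ctr_c] at this
  exact ⟨trivial, le_rfl, this.1, this.2⟩

lemma cb_norm_b (j : ℕ) : ‖xi ((Fam.b j).ctr G)‖ = G.lam j := by
  have hl : 0 ≤ G.lam j := le_trans zero_le_one (lam_pos G _)
  rw [cb_ctr_b, norm_smul, Real.norm_of_nonneg hl]
  have h1 : (1 : ℝ) ≤ ‖v3 1 0 0‖ := cb_le_norm_v3
  have h2 : ‖v3 1 0 0‖ ≤ 1 := cb_norm_v3 (by norm_num) (by norm_num)
  rw [le_antisymm h2 h1, mul_one]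

lemma cb_fit_b (j : ℕ) : CbFit G (.b j) j := by
  have := cb_lam_le (G := G) j
  have := lam_pos G j
  exact ⟨trivial, n_mono G (Nat.le_succ j), (cb_norm_b j).ge, by rw [cb_norm_b]; linarith⟩

lemma cb_fit_b' (j : ℕ) : CbFit G (.b (j + 1)) j := by
  have := cb_lam_le (G := G) j
  have := lam_pos G j
  exact ⟨trivial, le_rfl, by rw [cb_norm_b]; linarith, by rw [cb_norm_b]; linarith⟩

lemma cb_rho : 0 ≤ 2 * G.L / G.m0 ∧ 2 * G.L / G.m0 ≤ 1 / 10 := by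
  have h0 := cb_m0 (G := G)
  have t4 := G.L_pos
  have t5 := coefA_m0 G
  refine ⟨by positivity, ?_⟩
  rw [div_le_div_iff₀ (by linarith) (by norm_num)]
  linarith

/-- The offsets are small relative to the carriers. -/
lemma CbFit.off {F : Fam} {J : ℕ} (H : CbFit G F J) {h : Z3} (hh : h ∈ F.S G) :
    ‖xi h‖ ≤ 2 * G.L / G.m0 * G.lam J := by
  have h1 := norm_xi_off hh
  have h0 := cb_m0 (G := G)
  have h2 : 2 * G.L / G.m0 * G.lam J = 4 * Real.pi * G.n (J + 1) := by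
    have e : (G.n (J + 1) : ℝ) = G.La * G.n J := by exact_mod_cast n_succ G J
    rw [cb_lam, e, La_cast]; field_simp; ring
  have h3 : (F.sz G : ℝ) ≤ G.n (J + 1) := by exact_mod_cast H.sz
  have h4 : (0 : ℝ) ≤ G.n (J + 1) := Nat.cast_nonneg _
  rw [h2]
  nlinarith only [h1, h3, Real.pi_gt_three]

lemma CbFit.off' {F : Fam} {J : ℕ} (H : CbFit G F J) {h : Z3} (hh : h ∈ F.S G) :
    ‖xi h‖ ≤ 2 * G.L / G.m0 * ‖xi (F.ctr G)‖ :=
  (H.off hh).trans (mul_le_mul_of_nonneg_left H.lo cb_rho.1)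

lemma CbFit.ne {F : Fam} {J : ℕ} (H : CbFit G F J) : xi (F.ctr G) ≠ 0 := by
  intro e
  have := H.lo
  rw [e, norm_zero] at this
  linarith [lam_pos G J]

lemma CbFit.lp_le {F : Fam} {J : ℕ} (H : CbFit G F J) {h : Z3} (hh : h ∈ F.S G) :
    ‖lp (xi (F.ctr G + h)) (F.e G) - F.e G‖ ≤ 2 * (2 * G.L / G.m0) * G.t ^ 11 := by
  rw [xi_add]
  exact (lp_near (e_orth H.ok) (H.off' hh) cb_rho.2 H.ne).trans
    (mul_le_mul_of_nonneg_left (norm_e_hi G F) (by linarith [cb_rho (G := G).1]))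

lemma CbFit.uv_le {F : Fam} {J : ℕ} (H : CbFit G F J) (g : Gp) {h : Z3} (hh : h ∈ F.S G) :
    ‖uv G F g h - ge g ((‖F.e G‖ ^ 2)⁻¹ • F.e G)‖ ≤ 12 * (2 * G.L / G.m0) := by
  rw [uv, ← ge_sub, norm_ge, xi_add]
  refine (ur_near (e_orth H.ok) (H.off' hh) cb_rho.2 H.ne (cb_e_ne F)).trans ?_
  have h2 := norm_e_lo G F
  have := cb_rho (G := G).1
  rw [div_le_iff₀ (by linarith)]
  nlinarith only [h2, this]

lemma CbFit.xi_le {F : Fam} {J : ℕ} (H : CbFit G F J) (g : Gp) {h : Z3} (hh : h ∈ F.S G) :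
    ‖xi (pt G F g h) - ge g (xi (F.ctr G))‖ ≤ 2 * G.L / G.m0 * G.lam (J + 1) := by
  rw [pt, xi_gz, ← ge_sub, norm_ge, xi_add, add_sub_cancel_left]
  exact (H.off hh).trans (mul_le_mul_of_nonneg_left (cb_lam_le J) cb_rho.1)

lemma cb_half {w e u u0 η η0 v v0 : E3} {ρ L E : ℝ} (r1 : ρ ≤ 1 / 10) (L0 : 0 ≤ L)
    (w1 : ‖w - e‖ ≤ 2 * ρ * E) (w2 : ‖w‖ ≤ E) (e2 : ‖e‖ ≤ E) (u1 : ‖u - u0‖ ≤ 12 * ρ)
    (u2 : ‖u‖ ≤ 2) (η1 : ‖η - η0‖ ≤ ρ * L) (η2 : ‖η0‖ ≤ 2 * L) (v1 : ‖v - v0‖ ≤ 12 * ρ)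
    (v2 : ‖v0‖ ≤ 2) :
    |⟪u, η⟫_ℝ * ⟪w, v⟫_ℝ - ⟪u0, η0⟫_ℝ * ⟪e, v0⟫_ℝ| ≤ 148 * (ρ * L * E) := by
  have E0 : 0 ≤ E := (norm_nonneg _).trans e2
  have η3 : ‖η‖ ≤ 3 * L := by
    have := norm_add_le (η - η0) η0
    rw [sub_add_cancel] at this
    have e : ρ * L ≤ 1 * L := mul_le_mul_of_nonneg_right (by linarith only [r1]) L0
    linarith only [η1, η2, this, e]
  have p1 := cb_inner_diff u1 η1 u2 η2
  have p2 := cb_inner_diff w1 v1 w2 v2
  have p3 : |⟪u, η⟫_ℝ| ≤ 2 * (3 * L) := (abs_real_inner_le_norm _ _).trans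
    (mul_le_mul u2 η3 (norm_nonneg _) (by norm_num))
  have p4 : |⟪e, v0⟫_ℝ| ≤ E * 2 :=
    (abs_real_inner_le_norm _ _).trans (mul_le_mul e2 v2 (norm_nonneg _) E0)
  exact (cb_prod p1 p2 p3 p4).trans (le_of_eq (by ring))

/-- The coefficients are close to their values at the carriers. -/
lemma cb_main {F F1 F2 : Fam} {J : ℕ} (H : CbFit G F J) (H1 : CbFit G F1 J) (H2 : CbFit G F2 J)
    (g g' : Gp) {h h1 h2 : Z3} (hh : h ∈ F.S G) (a1 : h1 ∈ F1.S G) (a2 : h2 ∈ F2.S G) {x : ℝ}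
    (hx : cfR (F.e G) (ge g (xi (F1.ctr G))) (ge g ((‖F1.e G‖ ^ 2)⁻¹ • F1.e G))
      (ge g' (xi (F2.ctr G))) (ge g' ((‖F2.e G‖ ^ 2)⁻¹ • F2.e G)) = x) :
    |CF G F h F1 g h1 F2 g' h2 - x| ≤ G.lam (J + 1) * G.tau0 := by
  have L0 : 0 ≤ G.lam (J + 1) := le_trans zero_le_one (lam_pos G _)
  have w2 := (norm_lp_le (xi (F.ctr G + h)) (F.e G)).trans (norm_e_hi G F)
  have k1 := cb_half cb_rho.2 L0 (H.lp_le hh) w2 (norm_e_hi G F) (H1.uv_le g a1)
    (norm_uv_le H1.ok g a1) (H2.xi_le g' a2) (by rw [norm_ge]; exact H2.hi) (H2.uv_le g' a2)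
    (by rw [norm_ge]; exact cb_unit F2)
  have k2 := cb_half cb_rho.2 L0 (H.lp_le hh) w2 (norm_e_hi G F) (H2.uv_le g' a2)
    (norm_uv_le H2.ok g' a2) (H1.xi_le g a1) (by rw [norm_ge]; exact H1.hi) (H1.uv_le g a1)
    (by rw [norm_ge]; exact cb_unit F1)
  rw [← hx, CF, cfR, cfR, add_sub_add_comm]
  refine (abs_add_le _ _).trans ((add_le_add k1 k2).trans ?_)
  have h0 := cb_m0 (G := G)
  have e1 : 148 * (2 * G.L / G.m0 * G.lam (J + 1) * G.t ^ 11) +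
      148 * (2 * G.L / G.m0 * G.lam (J + 1) * G.t ^ 11) =
      592 * (G.t ^ 11 * G.L) * (G.lam (J + 1) / G.m0) := by ring
  have e2 : G.lam (J + 1) * G.tau0 = G.L ^ 3 * (G.lam (J + 1) / G.m0) := by
    rw [Geo.tau0]; ring
  rw [e1, e2]
  refine mul_le_mul_of_nonneg_right ?_ (by positivity)
  have t1 := coefA_LL G
  have t2 : G.t ^ 11 ≤ G.L :=
    (pow_le_pow_right₀ (one_le_t G) (by norm_num)).trans G.L_lo
  have t3 : G.t ^ 11 * G.L ≤ G.L * G.L := mul_le_mul_of_nonneg_right t2 (by linarith only [t1])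
  have t4 : 592 * (G.L * G.L) ≤ G.L * (G.L * G.L) :=
    mul_le_mul_of_nonneg_right (by linarith only [t1]) (by positivity)
  linarith only [t3, t4]

lemma cb_unit_b (j : ℕ) :
    (‖(Fam.b j).e G‖ ^ 2)⁻¹ • (Fam.b j).e G = (√5)⁻¹ • v3 0 1 (-2) := by
  have eB : (Fam.b j).e G = G.eB := rfl
  rw [eB, norm_eB, one_pow, inv_one, one_smul, Geo.eB]

lemma cb_e_y (j : ℕ) {i : ℕ} (hi : i ≠ G.La) : (Fam.y j i).e G = v3 0 0 1 := if_neg hi

lemma cb_unit_y (j : ℕ) {i : ℕ} (hi : i ≠ G.La) :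
    (‖(Fam.y j i).e G‖ ^ 2)⁻¹ • (Fam.y j i).e G = v3 0 0 1 := by
  rw [cb_e_y j hi, ← real_inner_self_eq_norm_sq, cb_inner_v3]
  norm_num

lemma cb_eC_sq : (‖G.eC‖ ^ 2)⁻¹ * (3 - G.η + G.yy - 4 * G.ε) = G.η := by
  have p1 := coefA_mCpos G
  have p2 : 0 < 4 * G.ε ^ 2 + 4 + G.z ^ 2 := by positivity
  rw [coefA_eCsq, ← coefA_mCsq]
  field_simp

/-- Strain, seen from the first comb. -/
theorem cf_B {j : ℕ} {h h1 h2 : Z3} (hh : h ∈ (Fam.b (j + 1)).S G) (a1 : h1 ∈ (Fam.c j).S G)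
    (a2 : h2 ∈ (Fam.b j).S G) :
    |CF G (.b (j + 1)) h (.c j) g1 h1 (.b j) (1, -1) h2 - G.kp * G.lam j| ≤
      G.lam (j + 1) * G.tau0 := by
  refine cb_main (cb_fit_b' j) (cb_fit_c j) (cb_fit_b j) _ _ hh a1 a2 ?_
  have eB : (Fam.b (j + 1)).e G = G.eB := rfl
  have eC : (Fam.c j).e G = G.eC := rfl
  have h5 := cb_sq5
  have hc := cb_eC_sq (G := G)
  have he : 4 * (G.La : ℝ) * G.yy = _ := coefA_yL G
  rw [cb_unit_b, eB, eC, cb_ctr_c, cb_ctr_b, ge_g1, ge_g1, ge_smul, ge_smul, cb_ge_m, cb_ge_m]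
  generalize (‖G.eC‖ ^ 2)⁻¹ = N at hc
  simp only [cfR, Geo.eB, Geo.eC, Geo.kp, Geo.z, real_inner_smul_left, real_inner_smul_right,
    cb_inner_v3]
  generalize (√5 : ℝ)⁻¹ = s at h5
  linear_combination (G.lam j * G.mC * N * (4 - 4 * G.La * G.yy)) * h5 +
    G.lam j * G.mC / 5 * hc - G.lam j * G.mC * N / 5 * he

/-- Strain, seen from the second comb. -/
theorem cf_C {j : ℕ} {h h1 h2 : Z3} (hh : h ∈ (Fam.c j).S G) (a1 : h1 ∈ (Fam.b (j + 1)).S G)
    (a2 : h2 ∈ (Fam.b j).S G) :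
    |CF G (.c j) h (.b (j + 1)) g1 h1 (.b j) (1, 1) h2 - G.kp * G.lam j| ≤
      G.lam (j + 1) * G.tau0 := by
  refine cb_main (cb_fit_c j) (cb_fit_b' j) (cb_fit_b j) _ _ hh a1 a2 ?_
  have eC : (Fam.c j).e G = G.eC := rfl
  have h5 := cb_sq5
  have he : 4 * (G.La : ℝ) * G.yy = _ := coefA_yL G
  rw [cb_unit_b, cb_unit_b, eC, cb_ctr_b, cb_ctr_b, ge_g1, ge_g1, ge_smul, ge_smul, cb_ge_p,
    cb_ge_p, cb_lam_succ]
  simp only [cfR, Geo.eC, Geo.kp, Geo.z, real_inner_smul_left, real_inner_smul_right,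
    cb_inner_v3]
  generalize (√5 : ℝ)⁻¹ = s at h5
  linear_combination (G.lam j * G.mC * ((G.yy - 1 - 4 * G.ε) + 4 * G.La * G.yy)) * h5 +
    G.lam j * G.mC / 5 * he

/-- The first rung. -/
theorem cf_Y1 {j : ℕ} {h h1 h2 : Z3} (hh : h ∈ (Fam.y j 1).S G) (a1 : h1 ∈ (Fam.b j).S G)
    (a2 : h2 ∈ (Fam.b j).S G) :
    |CF G (.y j 1) h (.b j) g1 h1 (.b j) (1, 1) h2 - G.cy 1 * G.lam j| ≤
      G.lam (j + 1) * G.tau0 := by
  have l2 : 2 ≤ G.La := le_trans (by norm_num) (La_big G)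
  refine cb_main (cb_fit_y j le_rfl (by omega)) (cb_fit_b j) (cb_fit_b j) _ _ hh a1 a2 ?_
  have h5 := cb_sq5
  rw [cb_unit_b, cb_e_y j (by omega), cb_ctr_b, ge_g1, ge_g1, ge_smul, ge_smul, cb_ge_p,
    cb_ge_p, Geo.cy, if_pos le_rfl]
  simp only [cfR, real_inner_smul_left, real_inner_smul_right, cb_inner_v3]
  generalize (√5 : ℝ)⁻¹ = s at h5
  linear_combination (5 * G.lam j) * h5

/-- The other rungs. -/
theorem cf_Y {j i : ℕ} (i1 : 1 ≤ i) (i2 : i < G.La) {h h1 h2 : Z3}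
    (hh : h ∈ (Fam.y j (i + 1)).S G) (a1 : h1 ∈ (Fam.b j).S G) (a2 : h2 ∈ (Fam.y j i).S G) :
    |CF G (.y j (i + 1)) h (.b j) g1 h1 (.y j i) g1 h2 - G.cy (i + 1) * G.lam j| ≤
      G.lam (j + 1) * G.tau0 := by
  refine cb_main (cb_fit_y j (by omega) i2) (cb_fit_b j) (cb_fit_y j i1 i2.le) _ _ hh a1 a2 ?_
  have h5 := cb_sq5
  rw [cb_unit_b, cb_unit_y j i2.ne, cb_ctr_b, cb_ctr_y, ge_g1, ge_g1, ge_g1, ge_g1, Geo.cy,
    if_neg (by omega), Fam.e]
  split_ifs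
  · simp only [cfR, Geo.eU, real_inner_smul_left, real_inner_smul_right, cb_inner_v3]
    generalize (√5 : ℝ)⁻¹ = s at h5
    linear_combination (2 * (1 + G.ε ^ 2) * G.lam j) * h5
  · simp only [cfR, real_inner_smul_left, real_inner_smul_right, cb_inner_v3]
    ring

end

end Pool.Agent.Work.MP_6bf1e5_an.Hyp.Pd
end

-- merged part: Pool.Agent.Work.MP_6bf1e5_an.Hyp.SymbA
section
/-!
Self-similar sums of a smooth function supported in an annulus; symbol estimates from scaling.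
-/

open Set Complex
open scoped InnerProductSpace ComplexConjugate Classical
open Pool.Agent.Work.MP_6bf1e5_an.B
open Pool.Agent.Work.MP_6bf1e5_an.Hyp.Dec

namespace Pool.Agent.Work.MP_6bf1e5_an.Hyp.Pd

noncomputable section

/-- The self-similar sum. -/
def ssum (L Γ : ℝ) (g : R3 → M3) (ξ : R3) : M3 := ∑' j : ℕ, Γ ^ j • g ((L ^ j)⁻¹ • ξ)

variable {g : R3 → M3} {a b L Γ : ℝ}

/-- Near every point only finitely many terms are present. -/
lemma ssum_eq (ha : 0 < a) (hL : 2 ≤ L) (hs : ∀ ξ, g ξ ≠ 0 → a ≤ ‖ξ‖ ∧ ‖ξ‖ ≤ b) {R : ℝ} {J : ℕ}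
    (hJ : R < a * L ^ J) {ξ : R3} (hξ : ‖ξ‖ ≤ R) :
    ssum L Γ g ξ = ∑ j ∈ Finset.range J, Γ ^ j • g ((L ^ j)⁻¹ • ξ) := by
  refine tsum_eq_sum fun j hj => ?_
  have hj' : J ≤ j := by simpa using hj
  have L0 : 0 < L ^ j := by positivity
  have hz : g ((L ^ j)⁻¹ • ξ) = 0 := by
    by_contra h
    have h1 := (hs _ h).1
    rw [norm_smul, norm_inv, Real.norm_of_nonneg L0.le, ← div_eq_inv_mul, le_div_iff₀ L0] at h1
    have h2 : a * L ^ J ≤ a * L ^ j := by gcongr; linarith only [hL]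
    linarith only [hJ, hξ, h1, h2]
  rw [hz, smul_zero]

lemma symbA_ev (ha : 0 < a) (hL : 2 ≤ L) (hs : ∀ ξ, g ξ ≠ 0 → a ≤ ‖ξ‖ ∧ ‖ξ‖ ≤ b) (ξ : R3) :
    ∃ J : ℕ, ssum L Γ g =ᶠ[nhds ξ]
      fun η => ∑ j ∈ Finset.range J, Γ ^ j • g ((L ^ j)⁻¹ • η) := by
  obtain ⟨J, hJ⟩ := pow_unbounded_of_one_lt ((‖ξ‖ + 1) / a) (by linarith : 1 < L)
  rw [div_lt_iff₀' ha] at hJ
  refine ⟨J, ?_⟩
  filter_upwards [Metric.ball_mem_nhds ξ one_pos] with η hη
  refine ssum_eq ha hL hs hJ ?_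
  rw [mem_ball_iff_norm] at hη
  linarith [norm_le_norm_add_norm_sub' η ξ]

lemma symbA_term (hg : ContDiff ℝ (⊤ : ℕ∞) g) (r s : ℝ) :
    ContDiff ℝ (⊤ : ℕ∞) fun η : R3 => r • g (s • η) :=
  (hg.comp (contDiff_const_smul s)).const_smul r

theorem ssum_smooth (hg : ContDiff ℝ (⊤ : ℕ∞) g) (ha : 0 < a) (hL : 2 ≤ L)
    (hs : ∀ ξ, g ξ ≠ 0 → a ≤ ‖ξ‖ ∧ ‖ξ‖ ≤ b) : ContDiff ℝ (⊤ : ℕ∞) (ssum L Γ g) := by
  refine contDiff_iff_contDiffAt.mpr fun ξ => ?_
  obtain ⟨J, hJ⟩ := symbA_ev ha hL hs ξ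
  exact (ContDiff.sum fun j _ => symbA_term hg _ _).contDiffAt.congr_of_eventuallyEq hJ

lemma symbA_geom (hL : 2 ≤ L) {R : ℝ} (hR : 0 ≤ R) (J : ℕ) :
    ∑ j ∈ Finset.range J, (if L ^ j ≤ R then L ^ j else 0) ≤ L ^ J ∧
      ∑ j ∈ Finset.range J, (if L ^ j ≤ R then L ^ j else 0) ≤ 2 * R := by
  induction J with
  | zero => simp; linarith
  | succ J ih =>
    have L0 : 0 < L ^ J := by positivity
    have h : 2 * L ^ J ≤ L ^ (J + 1) := by rw [pow_succ']; gcongr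
    rw [Finset.sum_range_succ]
    split_ifs with hc
    · constructor <;> linarith [ih.1]
    · constructor <;> linarith only [h, hc, ih.1, ih.2]

lemma symbA_scale (hg : ContDiff ℝ (⊤ : ℕ∞) g) (r s : ℝ) (n : ℕ) (ξ : R3) :
    iteratedFDeriv ℝ n (fun η : R3 => r • g (s • η)) ξ =
      (r * s ^ n) • iteratedFDeriv ℝ n g (s • ξ) := by
  have hn : ContDiff ℝ n g := hg.of_le (by exact_mod_cast le_top)
  rw [iteratedFDeriv_const_smul_apply' (f := fun η : R3 => g (s • η))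
    (hn.comp (contDiff_const_smul s)).contDiffAt, iteratedFDeriv_comp_const_smul s hn, smul_smul]

lemma symbA_bound (hg : ContDiff ℝ (⊤ : ℕ∞) g) (n : ℕ) (R : ℝ) :
    ∃ K : ℝ, 0 ≤ K ∧ ∀ ξ : R3, ‖ξ‖ ≤ R → ‖iteratedFDeriv ℝ n g ξ‖ ≤ K := by
  obtain ⟨K, hK⟩ := (isCompact_closedBall (0 : R3) R).exists_bound_of_continuousOn
    (hg.continuous_iteratedFDeriv (m := n) (by exact_mod_cast le_top)).continuousOn
  exact ⟨max K 0, le_max_right _ _, fun ξ h =>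
    (hK ξ (by simpa using h)).trans (le_max_left _ _)⟩

/-- A smooth function with a discrete scaling at infinity obeys the symbol estimates. -/
theorem scale_deriv (hg : ContDiff ℝ (⊤ : ℕ∞) g) {s R : ℝ} (hL : 2 ≤ L) (s0 : 0 ≤ s) (hR : 0 ≤ R)
    (h : ∀ ξ, R ≤ ‖ξ‖ → g (L • ξ) = L ^ s • g ξ) (n : ℕ) :
    ∃ K : ℝ, ∀ ξ, ‖iteratedFDeriv ℝ n g ξ‖ ≤ K * (1 + ‖ξ‖) ^ (s - n) := by
  have L0 : 0 < L := by linarith
  have it : ∀ (j : ℕ) (ξ : R3), R ≤ ‖ξ‖ → g (L ^ j • ξ) = (L ^ j) ^ s • g ξ := by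
    intro j ξ hξ
    induction j with
    | zero => simp
    | succ j ih =>
      have L1 : 1 ≤ L ^ j := one_le_pow₀ (by linarith)
      rw [pow_succ', mul_smul, h, ih, smul_smul, Real.mul_rpow L0.le (by linarith)]
      rw [norm_smul, Real.norm_of_nonneg (by linarith)]
      nlinarith only [hξ, L1, norm_nonneg ξ]
  obtain ⟨K, K0, hK⟩ := symbA_bound hg n (L * (R + 1))
  refine ⟨(1 + L * (R + 1)) ^ n * K, fun ξ => ?_⟩
  obtain ⟨r, r1, r2, r3, ev⟩ : ∃ r : ℝ, 1 ≤ r ∧ r ≤ 1 + ‖ξ‖ ∧ ‖ξ‖ ≤ L * (R + 1) * r ∧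
      g =ᶠ[nhds ξ] fun η => r ^ s • g (r⁻¹ • η) := by
    by_cases c : ‖ξ‖ < R + 1
    · exact ⟨1, le_rfl, by linarith [norm_nonneg ξ], by nlinarith only [hL, hR, c], by simp⟩
    · obtain ⟨j, j1, j2⟩ := exists_nat_pow_near (x := ‖ξ‖ / (R + 1)) (y := L)
        ((one_le_div (by linarith)).2 (not_lt.1 c)) (by linarith)
      have L1 : 1 ≤ L ^ j := one_le_pow₀ (by linarith)
      rw [le_div_iff₀ (by linarith)] at j1
      rw [div_lt_iff₀ (by linarith), pow_succ'] at j2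
      refine ⟨L ^ j, L1, by nlinarith only [hR, j1, L1], by linarith, ?_⟩
      filter_upwards [Metric.ball_mem_nhds ξ one_pos] with η hη
      rw [mem_ball_iff_norm] at hη
      have e := norm_le_norm_add_norm_sub η ξ
      rw [← it, smul_smul, mul_inv_cancel₀ (by positivity), one_smul]
      rw [norm_smul, norm_inv, Real.norm_of_nonneg (by linarith), ← div_eq_inv_mul,
        le_div_iff₀ (by linarith)]
      linarith
  have r0 : 0 < r := by linarith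
  have B0 : 0 ≤ L * (R + 1) := by positivity
  have h3 := hK (r⁻¹ • ξ) (by
    rw [norm_smul, norm_inv, Real.norm_of_nonneg r0.le, ← div_eq_inv_mul, div_le_iff₀ r0]
    exact r3)
  rw [(ev.iteratedFDeriv ℝ n).eq_of_nhds, symbA_scale hg, norm_smul,
    Real.norm_of_nonneg (by positivity)]
  generalize L * (R + 1) = B at *
  set ρ := 1 + ‖ξ‖ with hρ
  have ρ0 : 0 < ρ := by positivity
  have h6 : r⁻¹ ≤ (1 + B) * ρ⁻¹ := by
    rw [← div_eq_mul_inv, ← one_div, div_le_div_iff₀ r0 ρ0]; linarith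
  rw [Real.rpow_sub ρ0, Real.rpow_natCast]
  calc _ ≤ ρ ^ s * ((1 + B) * ρ⁻¹) ^ n * K := by (clear * - s0 r1 h3 B0 r2 h6; gcongr)
    _ = _ := by rw [mul_pow, inv_pow]; ring

lemma psi_one (a : ℝ) {s : ℝ} (h : 1 ≤ s) : psi a s = s ^ a := by
  rw [psi, Real.smoothTransition.one_of_one_le (by linarith)]; ring

lemma psi_small (a : ℝ) {s : ℝ} (h : s ≤ 1 / 2) : psi a s = s := by
  rw [psi, Real.smoothTransition.zero_of_nonpos (by linarith)]; ring

lemma psi_ge {a s : ℝ} (ha : 1 ≤ a) (h : 0 ≤ s) : s ^ a ≤ psi a s := by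
  by_cases c : 1 ≤ s
  · rw [psi_one a c]
  · have h1 : s ^ a ≤ s := Real.rpow_le_self_of_le_one h (not_le.1 c).le ha
    have h2 := Real.smoothTransition.le_one (2 * s - 1)
    unfold psi
    nlinarith only [h1, h2]

lemma psi_smooth (a : ℝ) : ContDiff ℝ (⊤ : ℕ∞) (psi a) := by
  refine contDiff_iff_contDiffAt.2 fun s => ?_
  by_cases c : s < 1 / 2
  · refine contDiffAt_id.congr_of_eventuallyEq ?_
    filter_upwards [Iio_mem_nhds c] with x hx
    exact psi_small a (le_of_lt hx)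
  · have h : ContDiff ℝ (⊤ : ℕ∞) fun s : ℝ => Real.smoothTransition (2 * s - 1) :=
      Real.smoothTransition.contDiff.comp ((contDiff_const.mul contDiff_id).sub contDiff_const)
    unfold psi
    exact (h.contDiffAt.mul (Real.contDiffAt_rpow_const_of_ne (by linarith only [not_lt.1 c]))).add
      ((contDiffAt_const.sub h.contDiffAt).mul contDiffAt_id)

lemma sq_smooth : ContDiff ℝ (⊤ : ℕ∞) fun ξ : R3 => ∑ l, ξ l ^ 2 :=
  ContDiff.sum fun l _ => (contDiff_apply ℝ ℝ l).pow 2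

theorem hq_smooth (a c : ℝ) : ContDiff ℝ (⊤ : ℕ∞) (hq a c) := by
  refine contDiff_pi.mpr fun i => contDiff_pi.mpr fun j => ?_
  unfold hq
  split_ifs
  · exact contDiff_const.mul ((psi_smooth a).comp sq_smooth)
  · exact contDiff_const

lemma norm_sq_le_sum (ξ : R3) : ‖ξ‖ ^ 2 ≤ ∑ i, ξ i ^ 2 := by
  have hX : 0 ≤ ∑ i, ξ i ^ 2 := by positivity
  have h4 : ‖ξ‖ ≤ √(∑ i, ξ i ^ 2) := by
    refine (pi_norm_le_iff_of_nonneg (Real.sqrt_nonneg _)).2 fun i => ?_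
    rw [Real.norm_eq_abs]
    apply Real.abs_le_sqrt
    exact Finset.single_le_sum (f := fun i => ξ i ^ 2) (fun _ _ => by positivity)
      (Finset.mem_univ i)
  calc ‖ξ‖ ^ 2 ≤ √(∑ i, ξ i ^ 2) ^ 2 := pow_le_pow_left₀ (norm_nonneg _) h4 2
    _ = _ := Real.sq_sqrt hX

lemma one_le_sum {ξ : R3} (h : 1 ≤ ‖ξ‖) : 1 ≤ ∑ i, ξ i ^ 2 :=
  (one_le_pow₀ h).trans (norm_sq_le_sum ξ)

lemma sq_rpow {x : ℝ} (h : 0 ≤ x) (a : ℝ) : (x ^ 2) ^ a = x ^ (2 * a) := by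
  rw [Real.rpow_mul h, Real.rpow_two]

lemma sum_smul_rpow {r : ℝ} (h : 0 ≤ r) (a : ℝ) (ξ : R3) :
    (∑ l, (r • ξ) l ^ 2) ^ a = r ^ (2 * a) * (∑ l, ξ l ^ 2) ^ a := by
  rw [← sq_rpow h, ← Real.mul_rpow (sq_nonneg _) (by positivity), Finset.mul_sum]
  simp only [Pi.smul_apply, smul_eq_mul, mul_pow]

end

end Pool.Agent.Work.MP_6bf1e5_an.Hyp.Pd
end

-- merged part: Pool.Agent.Work.MP_6bf1e5_an.Hyp.SymbB
section
/-!
The terms of the symbol.
-/

open Set Complex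
open scoped InnerProductSpace ComplexConjugate Classical
open Pool.Agent.Work.MP_6bf1e5_an.B
open Pool.Agent.Work.MP_6bf1e5_an.Hyp.Dec

namespace Pool.Agent.Work.MP_6bf1e5_an.Hyp.Pd

noncomputable section

variable (G : Geo)

/-- The offset of the frequency `ξ` from the carrier of `F` moved by `g`. -/
def ofs (F : Fam) (g : Gp) (ξ : R3) : R3 := fun l =>
  ((g.2 : ℤ) : ℝ) * ξ (l + g.1) / (2 * Real.pi) - F.ctr G l

/-- The damping removed near the teeth of `F` moved by `g`. -/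
def ct (F : Fam) (g : Gp) (ξ : R3) : M3 := fun i j =>
  (if i = j then wid G F (ofs G F g ξ) * (G.Cb * psi G.α (∑ l, ξ l ^ 2) - G.Gc F.ix) else 0) +
    chi G F (ofs G F g ξ) * (G.Gc F.ix - F.dd G) *
      (lp (WithLp.toLp 2 ξ) (ge g (F.e G)) i * ur (WithLp.toLp 2 ξ) (ge g (F.e G)) j)

/-- The family of the same kind with scale index `j`. -/
def at' (j : ℕ) : Fam → Fam
  | .b _ => .b j
  | .c _ => .c j
  | .y _ i => .y j i

/-- The families with scale index `0`. -/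
def fam0 : Finset Fam := insert (.b 0) (insert (.c 0) ((Finset.Icc 1 G.La).image (Fam.y 0)))

/-- The profile of the symbol. -/
def g0 (ξ : R3) : M3 := ∑ F ∈ fam0 G, ∑ g : Gp, ct G F g ξ

/-- The symbol. -/
def sig (ξ : R3) : M3 := hq G.α G.Cb ξ - ssum G.La G.Ga (g0 G) ξ

variable {G}

/-- Where the cutoff does not vanish the frequency lies in the open box of a tooth. -/
lemma chi_ne_zero {F : Fam} {x : R3} (h : chi G F x ≠ 0) :
    ∃ c ∈ F.cens G, ∀ i, |x i - c i| < F.rad G i + 1 := by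
  obtain ⟨c, hc, h1⟩ := Finset.exists_ne_zero_of_sum_ne_zero h
  exact ⟨c, hc, fun i => chi1_ne_zero h1 i⟩

lemma symbB_double {F : Fam} {x : R3} {c : Z3} (h : ∀ i, |x i - c i| < F.rad G i + 1) (i : Fin 3) :
    |x i - c i| < 2 * (F.rad G i + 1) := by
  have h1 := h i
  have h2 : (0 : ℝ) ≤ F.rad G i := Nat.cast_nonneg _
  linarith

lemma chi_bounds {F : Fam} (hF : F.ok G) (x : R3) : 0 ≤ chi G F x ∧ chi G F x ≤ 1 := by
  refine ⟨Finset.sum_nonneg fun c _ => chi1_nonneg _ _, ?_⟩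
  by_cases h : chi G F x = 0
  · rw [h]; exact zero_le_one
  · obtain ⟨c, hc, h1⟩ := chi_ne_zero h
    rw [(wid_tooth hF hc (symbB_double h1)).2]
    exact chi1_le_one _ _

lemma wid_le_one {F : Fam} (hF : F.ok G) (x : R3) : wid G F x ≤ 1 := by
  by_cases h : wid G F x = 0
  · rw [h]; exact zero_le_one
  · obtain ⟨c, hc, h1⟩ := wid_ne_zero h
    rw [(wid_tooth hF hc h1).1]
    exact wid1_le_one _ _

lemma wid_of_chi {F : Fam} (hF : F.ok G) {x : R3} (h : chi G F x ≠ 0) : wid G F x = 1 := by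
  obtain ⟨c, hc, h1⟩ := chi_ne_zero h
  rw [(wid_tooth hF hc (symbB_double h1)).1]
  exact wid1_one fun i => (h1 i).le

lemma symbB_sign (g : Gp) : ((g.2 : ℤ) : ℝ) = 1 ∨ ((g.2 : ℤ) : ℝ) = -1 := by
  rcases Int.units_eq_one_or g.2 with h | h <;> simp [h]

/-- The frequency in terms of the offset. -/
lemma symbB_xi (F : Fam) (g : Gp) (ξ : R3) (m : Fin 3) :
    ξ m = ((g.2 : ℤ) : ℝ) * (2 * Real.pi * (F.ctr G (m - g.1) + ofs G F g ξ (m - g.1))) := by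
  have hp : (2 * Real.pi) ≠ 0 := by positivity
  unfold ofs
  rw [sub_add_cancel]
  rcases symbB_sign g with h | h <;> rw [h] <;> field_simp <;> ring

lemma symbB_off (j : ℕ) (o : Fin 4) (i : Fin 3) : |(G.off j o i : ℝ)| ≤ G.n j := by
  have h : (0 : ℝ) ≤ G.n j := Nat.cast_nonneg _
  fin_cases o <;> fin_cases i <;> simp [Geo.off, h]

/-- The doubled boxes are small. -/
lemma symbB_ofs_n {F : Fam} {x : R3} {c : Z3} (hc : c ∈ F.cens G)
    (h : ∀ i, |x i - c i| ≤ 2 * (F.rad G i + 1)) (i : Fin 3) :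
    |x i| ≤ 2 * (G.n (F.ix + 1) : ℝ) := by
    have e1 : |x i| ≤ |x i - c i| + |(c i : ℝ)| := by
      have := abs_add_le (x i - c i) (c i : ℝ)
      rwa [sub_add_cancel] at this
    have e2 := h i
    cases F with
    | b j =>
      obtain ⟨o, rfl⟩ := mem_cens_b.1 hc
      have e3 := symbB_off (G := G) j o i
      have e4 : (1000 : ℝ) * (G.rb j i + 1) ≤ G.n j := by exact_mod_cast rb_small G j i
      have e5 : (G.n j : ℝ) ≤ G.n (j + 1) := by exact_mod_cast n_mono G (Nat.le_succ j)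
      have e6 : (0 : ℝ) ≤ G.n j := Nat.cast_nonneg _
      simp only [Fam.rad, Fam.ix] at e2 ⊢
      linarith
    | c j =>
      obtain ⟨o, rfl⟩ := mem_cens_c.1 hc
      have e3 := symbB_off (G := G) (j + 1) o i
      have e4 : (1000 : ℝ) * (G.rc (j + 1) i + 1) ≤ G.n (j + 1) := by
        exact_mod_cast rc_small G (j + 1) i
      have e6 : (0 : ℝ) ≤ G.n (j + 1) := Nat.cast_nonneg _
      simp only [Fam.rad, Fam.ix] at e2 ⊢
      linarith
    | y j k =>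
      have e3 : c = 0 := by simpa [Fam.cens] using hc
      have e4 : (4 : ℝ) * (G.ry j i + 1) = G.n (j + 1) := by exact_mod_cast ry_succ G j i
      have e6 : (0 : ℝ) ≤ G.n (j + 1) := Nat.cast_nonneg _
      subst e3
      simp only [Fam.rad, Fam.ix, Pi.zero_apply, Int.cast_zero, abs_zero] at e1 e2 ⊢
      linarith

lemma symbB_ofs {F : Fam} {x : R3} {c : Z3} (hc : c ∈ F.cens G)
    (h : ∀ i, |x i - c i| ≤ 2 * (F.rad G i + 1)) (i : Fin 3) : |x i| ≤ G.P F.ix / 100 := by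
  have h1 := symbB_ofs_n hc h i
  have h2 : 10 ^ 100 * G.n (F.ix + 1) ≤ G.P F.ix := by
    rw [P_eq]
    refine n_lt G ?_
    have := kk_big G
    have h3 : 2 ≤ 10 ^ 100 := by norm_num
    omega
  have h3 : 1000 * G.n (F.ix + 1) ≤ G.P F.ix :=
    le_trans (Nat.mul_le_mul_right _ (by norm_num)) h2
  have h4 : (1000 : ℝ) * G.n (F.ix + 1) ≤ G.P F.ix := by exact_mod_cast h3
  have h5 : (0 : ℝ) ≤ G.n (F.ix + 1) := Nat.cast_nonneg _
  linarith only [h1, h4]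

lemma symbB_La : (1000 : ℝ) ≤ G.La := by
  have h : 1000 ≤ G.La := le_trans (by norm_num) (La_big G)
  exact_mod_cast h

lemma symbB_P (j : ℕ) : 1000 * (G.P j : ℝ) ≤ G.P (j + 1) := by
  rw [P_succ, Nat.cast_mul]
  exact mul_le_mul_of_nonneg_right symbB_La (Nat.cast_nonneg _)

lemma symbB_P_pos (j : ℕ) : (0 : ℝ) < G.P j := by
  have h := lam_pos G j
  unfold Geo.lam at h
  by_contra h1
  have h2 : (G.P j : ℝ) = 0 := le_antisymm (not_lt.1 h1) (Nat.cast_nonneg _)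
  rw [h2, mul_zero] at h
  linarith

lemma symbB_ctr_lo (F : Fam) : ∃ l, (F.ctr G l : ℝ) = G.P F.ix := by
  cases F with
  | b j => exact ⟨0, by simp [Fam.ctr, Fam.ix]⟩
  | c j => exact ⟨1, by simp [Fam.ctr, Fam.ix]⟩
  | y j i => exact ⟨1, by simp [Fam.ctr, Fam.ix]⟩

lemma symbB_ctr_hi {F : Fam} (hF : F.ok G) (l : Fin 3) :
    |(F.ctr G l : ℝ)| ≤ G.P (F.ix + 1) := by
  have h := (car_size (J := F.ix) (ci_le hF) (cg F)).2 l
  rw [← ctr_eq] at h
  exact_mod_cast h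

lemma symbB_exp : 144 * G.Ga ≤ Real.exp (G.Q / 2) := by
  have h : (10 : ℝ) ^ 4 ≤ G.Q := le_trans (le_trans (by norm_num) (L_big G)) G.L_le_Q
  have h1 := Real.pow_div_factorial_le_exp (G.Q / 2) (by linarith) 3
  have h3 := G.Ga_le_Q_sq
  refine le_trans ?_ h1
  generalize G.Q = L at *
  have h2 : (Nat.factorial 3 : ℝ) = 6 := by norm_num [Nat.factorial]
  rw [h2]
  nlinarith only [h3, mul_le_mul_of_nonneg_right h (sq_nonneg L)]

lemma symbB_four (j : ℕ) : 4 ≤ G.lam j := by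
  have h : (1 : ℝ) ≤ G.P j := by
    rw [P_eq]
    exact_mod_cast le_trans (by norm_num) (n_pos G _)
  have := Real.pi_gt_three
  unfold Geo.lam
  nlinarith only [h, this]

lemma symbB_lm (j : ℕ) : G.lm j = (G.lam j ^ 2) ^ G.α := (sq_rpow (G.lam_pos j).le _).symm

lemma symbB_up {x c : ℝ} {j : ℕ} (x0 : 0 ≤ x) (c1 : 1 ≤ c) (h : x ≤ c * G.lam j ^ 2) :
    x ^ G.α ≤ c ^ 2 * G.lm j := by
  have a1 := G.α_lo
  have a2 := G.α_hi
  calc x ^ G.α ≤ (c * G.lam j ^ 2) ^ G.α := Real.rpow_le_rpow x0 h (by linarith only [a1])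
    _ = c ^ G.α * G.lm j := by rw [Real.mul_rpow (by linarith only [c1]) (sq_nonneg _), symbB_lm]
    _ ≤ c ^ (2 : ℝ) * G.lm j := mul_le_mul_of_nonneg_right
        (Real.rpow_le_rpow_of_exponent_le c1 (by linarith)) (G.lm_pos j).le
    _ = _ := by rw [Real.rpow_two]

lemma symbB_dn {x : ℝ} {j : ℕ} (x0 : 0 ≤ x) (h : G.lam j ^ 2 ≤ 16 * x) :
    G.lm j ≤ 32 * x ^ G.α := by
  have a1 := G.α_lo
  have e : (16 : ℝ) ^ (5 / 4 : ℝ) = 32 := by
    rw [show (16 : ℝ) = 2 ^ (4 : ℝ) by norm_num, ← Real.rpow_mul (by norm_num)]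
    norm_num
  calc G.lm j ≤ (16 * x) ^ G.α := by
        rw [symbB_lm]; exact Real.rpow_le_rpow (sq_nonneg _) h (by linarith)
    _ = 16 ^ G.α * x ^ G.α := Real.mul_rpow (by norm_num) x0
    _ ≤ 16 ^ (5 / 4 : ℝ) * x ^ G.α := mul_le_mul_of_nonneg_right
        (Real.rpow_le_rpow_of_exponent_le (by norm_num) G.α_hi) (Real.rpow_nonneg x0 _)
    _ = _ := by rw [e]

lemma symbB_sum (F : Fam) (g : Gp) (ξ : R3) :
    ∑ l, ξ l ^ 2 = (2 * Real.pi) ^ 2 * ∑ l, (F.ctr G l + ofs G F g ξ l) ^ 2 := by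
  rw [Finset.mul_sum, ← Equiv.sum_comp (Equiv.subRight g.1)
    (fun l => (2 * Real.pi) ^ 2 * ((F.ctr G l : ℝ) + ofs G F g ξ l) ^ 2)]
  refine Finset.sum_congr rfl fun m _ => ?_
  rw [symbB_xi (G := G) F g ξ m, Equiv.subRight_apply]
  rcases symbB_sign g with h | h <;> rw [h] <;> ring

/-- On the doubled boxes the frequency is comparable to the carrier. -/
lemma box_facts {F : Fam} (hF : F.ok G) (g : Gp) {ξ : R3} {c : Z3} (hc : c ∈ F.cens G)
    (h : ∀ i, |ofs G F g ξ i - c i| ≤ 2 * (F.rad G i + 1)) :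
    G.lam F.ix / 4 ≤ ‖ξ‖ ∧ ‖ξ‖ ≤ 2 * G.lam (F.ix + 1) ∧ (∑ l, ξ l ^ 2) ^ G.α ≤ F.dd G ∧
      G.Gc F.ix ≤ G.Cb * (∑ l, ξ l ^ 2) ^ G.α ∧ lp (WithLp.toLp 2 ξ) (ge g (F.e G)) ≠ 0 := by
  have hx := symbB_ofs hc h
  have hP := symbB_P (G := G) F.ix
  have hP0 := symbB_P_pos (G := G) F.ix
  have hp : 0 < 2 * Real.pi := by positivity
  have habs : ∀ m, |ξ m| = 2 * Real.pi * |F.ctr G (m - g.1) + ofs G F g ξ (m - g.1)| := by
    intro m
    rw [symbB_xi (G := G) F g ξ m, abs_mul, abs_mul, abs_of_pos hp]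
    rcases symbB_sign g with h | h <;> rw [h] <;> simp
  have hhi : ∀ m, |ξ m| ≤ 2 * G.lam (F.ix + 1) := by
    intro m
    rw [habs]
    have e1 := abs_add_le (F.ctr G (m - g.1) : ℝ) (ofs G F g ξ (m - g.1))
    have e2 := symbB_ctr_hi hF (m - g.1)
    have e3 := hx (m - g.1)
    unfold Geo.lam
    have e4 : |F.ctr G (m - g.1) + ofs G F g ξ (m - g.1)| ≤ 2 * (G.P (F.ix + 1) : ℝ) := by linarith
    calc _ ≤ 2 * Real.pi * (2 * (G.P (F.ix + 1) : ℝ)) := mul_le_mul_of_nonneg_left e4 hp.le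
      _ = _ := by ring
  have hsq : ∑ l, ξ l ^ 2 ≤ 12 * G.lam (F.ix + 1) ^ 2 := by
    have e : ∀ m, ξ m ^ 2 ≤ (2 * G.lam (F.ix + 1)) ^ 2 := fun m => by
      rw [← sq_abs]
      exact pow_le_pow_left₀ (abs_nonneg _) (hhi m) 2
    rw [Fin.sum_univ_three]
    linarith [e 0, e 1, e 2]
  obtain ⟨l0, hl0⟩ := symbB_ctr_lo (G := G) F
  have X0 : 0 ≤ ∑ l, ξ l ^ 2 := by positivity
  have hlo : G.lam F.ix / 4 ≤ ‖ξ‖ := by
    refine le_trans ?_ (norm_le_pi_norm ξ (l0 + g.1))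
    rw [Real.norm_eq_abs, habs, add_sub_cancel_right, hl0]
    have e1 := abs_le.1 (hx l0)
    have e2 : (G.P F.ix : ℝ) / 4 ≤ |G.P F.ix + ofs G F g ξ l0| :=
      le_trans (by linarith only [e1.1]) (le_abs_self _)
    unfold Geo.lam
    calc _ = 2 * Real.pi * ((G.P F.ix : ℝ) / 4) := by ring
      _ ≤ _ := mul_le_mul_of_nonneg_left e2 hp.le
  refine ⟨hlo, ?_, ?_, ?_, ?_⟩
  · have := lam_pos G (F.ix + 1)
    exact (pi_norm_le_iff_of_nonneg (by linarith)).2 fun m => hhi m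
  · cases F with
    | b j =>
      refine (symbB_up (j := j) (c := 13 / 10) X0 (by norm_num) ?_).trans
        (mul_le_mul_of_nonneg_right (by norm_num) (G.lm_pos j).le)
      rw [symbB_sum (G := G) (.b j) g ξ, Fin.sum_univ_three]
      have e0 := abs_le.1 (hx 0)
      have e1 := abs_le.1 (hx 1)
      have e2 := abs_le.1 (hx 2)
      simp only [Fam.ix] at e0 e1 e2 hP0
      have e : (G.P j + ofs G (.b j) g ξ 0) ^ 2 + ofs G (.b j) g ξ 1 ^ 2 +
          ofs G (.b j) g ξ 2 ^ 2 ≤ 13 / 10 * (G.P j : ℝ) ^ 2 := by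
        nlinarith only [e0.1, e0.2, e1.1, e1.2, e2.1, e2.2]
      have e' := mul_le_mul_of_nonneg_left e (sq_nonneg (2 * Real.pi))
      simp only [Geo.lam, Fam.ctr]
      simp only [Matrix.cons_val_zero, Matrix.cons_val_one, Matrix.cons_val, Int.cast_natCast,
        Int.cast_zero, zero_add]
      linarith only [e']
    | c j =>
      refine (symbB_up (j := j + 1) (c := 13 / 10) X0 (by norm_num) ?_).trans
        (mul_le_mul_of_nonneg_right (by norm_num) (G.lm_pos (j + 1)).le)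
      rw [symbB_sum (G := G) (.c j) g ξ, Fin.sum_univ_three]
      have e0 := abs_le.1 (hx 0)
      have e1 := abs_le.1 (hx 1)
      have e2 := abs_le.1 (hx 2)
      simp only [Fam.ix] at e0 e1 e2 hP0 hP
      have e : (G.P (j + 1) + ofs G (.c j) g ξ 0) ^ 2 + (G.P j + ofs G (.c j) g ξ 1) ^ 2 +
          ofs G (.c j) g ξ 2 ^ 2 ≤ 13 / 10 * (G.P (j + 1) : ℝ) ^ 2 := by
        generalize (G.P (j + 1) : ℝ) = Q at *
        generalize (G.P j : ℝ) = P at *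
        generalize ofs G (.c j) g ξ 0 = a at *
        generalize ofs G (.c j) g ξ 1 = b at *
        generalize ofs G (.c j) g ξ 2 = d at *
        have a0 : (Q + a) ^ 2 ≤ (11 / 10 * Q) ^ 2 :=
          sq_le_sq' (by linarith only [hP, e0, e0.1]) (by linarith only [hP, e0, e0.2])
        have a1 : (P + b) ^ 2 ≤ (1 / 10 * Q) ^ 2 :=
          sq_le_sq' (by linarith only [hP, e1, e1.1]) (by linarith only [hP, e1, e1.2])
        have a2 : d ^ 2 ≤ (1 / 10 * Q) ^ 2 :=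
          sq_le_sq' (by linarith only [hP, e2, e2.1]) (by linarith only [hP, e2, e2.2])
        linarith only [a0, a1, a2, sq_nonneg Q]
      have e' := mul_le_mul_of_nonneg_left e (sq_nonneg (2 * Real.pi))
      simp only [Geo.lam, Fam.ctr]
      simp only [Matrix.cons_val_zero, Matrix.cons_val_one, Matrix.cons_val, Int.cast_natCast,
        Int.cast_zero, zero_add]
      linarith only [e']
    | y j i =>
      refine (symbB_up X0 (by norm_num) hsq).trans ?_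
      simp only [Fam.ix, Fam.dd, Geo.D]
      rw [G.lm_succ, ← mul_assoc]
      exact mul_le_mul_of_nonneg_right (le_trans (by norm_num) symbB_exp) (G.lm_pos j).le
  · have l0 := G.lam_pos F.ix
    have e1 : G.lam F.ix ^ 2 ≤ (4 * ‖ξ‖) ^ 2 := pow_le_pow_left₀ l0.le (by linarith only [hlo]) 2
    have e2 := symbB_dn (j := F.ix) X0 (by linarith [norm_sq_le_sum ξ] :
      G.lam F.ix ^ 2 ≤ 16 * ∑ l, ξ l ^ 2)
    have e3 := mul_le_mul_of_nonneg_left e2 (mul_pos G.Ga_pos (C_pos G)).le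
    unfold Geo.Gc Geo.Cb
    rw [G.lm_succ]
    linarith only [e3]
  · obtain ⟨δ, hδ⟩ : ∃ δ : E3, δ = WithLp.toLp 2 fun l => 2 * Real.pi * ofs G F g ξ l := ⟨_, rfl⟩
    have e1 : (WithLp.toLp 2 ξ : E3) = ge g (xi (F.ctr G) + δ) := by
      ext m
      rw [hδ]
      simp only [ge, xi, PiLp.add_apply]
      rw [symbB_xi (G := G) F g ξ m]
      ring
    have e2 : 2 * Real.pi * G.P F.ix ≤ ‖xi (F.ctr G)‖ := by
      have := abs_xi_le (F.ctr G) l0
      rw [ax_eq_norm, hl0] at this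
      exact (le_abs_self _).trans this
    have e3 : ‖δ‖ ≤ 1 / 10 * (2 * Real.pi * G.P F.ix) := by
      rw [EuclideanSpace.norm_eq]
      refine Real.sqrt_le_iff.2 ⟨by positivity, ?_⟩
      have e : ∀ l, ‖δ l‖ ^ 2 ≤ (2 * Real.pi * (G.P F.ix / 100)) ^ 2 := fun l => by
        refine pow_le_pow_left₀ (norm_nonneg _) ?_ 2
        rw [hδ, Real.norm_eq_abs, abs_mul, abs_of_pos hp]
        exact mul_le_mul_of_nonneg_left (hx l) hp.le
      rw [Fin.sum_univ_three]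
      linarith only [e 0, e 1, e 2, sq_nonneg (2 * Real.pi * G.P F.ix)]
    have e4 : xi (F.ctr G) ≠ 0 := by
      intro h0
      rw [h0, norm_zero] at e2
      nlinarith only [hP0, hp, e2]
    have e5 := lp_near (e_orth hF) (η := 1 / 10) (δ := δ) (by linarith) le_rfl e4
    rw [e1, lp_ge]
    intro h0
    have e6 := norm_ge g (lp (xi (F.ctr G) + δ) (F.e G))
    rw [h0, norm_zero] at e6
    rw [norm_eq_zero.1 e6.symm, zero_sub, norm_neg] at e5
    have := norm_e_lo G F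
    linarith only [e5, this]

lemma symbB_bmp (δ : ℝ) : ContDiff ℝ (⊤ : ℕ∞) (bmp δ) := by
  unfold bmp
  exact (Real.smoothTransition.contDiff.comp ((contDiff_const.sub contDiff_id).div_const δ)).mul
    (Real.smoothTransition.contDiff.comp ((contDiff_const.add contDiff_id).div_const δ))

lemma symbB_ofs_smooth (F : Fam) (g : Gp) (l : Fin 3) :
    ContDiff ℝ (⊤ : ℕ∞) fun ξ : R3 => ofs G F g ξ l := by
  unfold ofs
  exact ((contDiff_const.mul (contDiff_apply ℝ ℝ (l + g.1))).div_const _).sub contDiff_const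

lemma symbB_chi_smooth (F : Fam) (g : Gp) :
    ContDiff ℝ (⊤ : ℕ∞) fun ξ : R3 => chi G F (ofs G F g ξ) := by
  unfold chi chi1
  refine ContDiff.sum fun c _ => contDiff_prod fun i _ => ?_
  exact (symbB_bmp _).comp (((symbB_ofs_smooth F g i).sub contDiff_const).div_const _)

lemma symbB_wid_smooth (F : Fam) (g : Gp) :
    ContDiff ℝ (⊤ : ℕ∞) fun ξ : R3 => wid G F (ofs G F g ξ) := by
  unfold wid wid1
  refine ContDiff.sum fun c _ => contDiff_prod fun i _ => ?_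
  exact (symbB_bmp _).comp (((symbB_ofs_smooth F g i).sub contDiff_const).div_const _)

lemma symbB_norm_sq (v : E3) : ‖v‖ ^ 2 = ∑ l, v l ^ 2 := by
  rw [EuclideanSpace.norm_sq_eq]
  simp

lemma symbB_lp_apply (ξ : R3) (e : E3) (i : Fin 3) :
    lp (WithLp.toLp 2 ξ) e i = e i - (∑ l, e l * ξ l) / (∑ l, ξ l ^ 2) * ξ i := by
  unfold lp
  rw [symbB_norm_sq]
  simp [PiLp.inner_apply]

lemma symbB_lp_smooth {ξ : R3} (hξ : ξ ≠ 0) (e : E3) (i : Fin 3) :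
    ContDiffAt ℝ (⊤ : ℕ∞) (fun ξ : R3 => lp (WithLp.toLp 2 ξ) e i) ξ := by
  simp only [symbB_lp_apply]
  have h : ∑ l, ξ l ^ 2 ≠ 0 := by
    intro h0
    rw [Finset.sum_eq_zero_iff_of_nonneg fun _ _ => sq_nonneg _] at h0
    exact hξ (funext fun l => pow_eq_zero_iff (two_ne_zero) |>.1 (h0 l (Finset.mem_univ l)))
  have h1 : ContDiff ℝ (⊤ : ℕ∞) fun ξ : R3 => ∑ l, e l * ξ l :=
    ContDiff.sum fun l _ => contDiff_const.mul (contDiff_apply ℝ ℝ l)
  exact contDiffAt_const.sub ((h1.contDiffAt.div sq_smooth.contDiffAt h).mul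
    (contDiff_apply ℝ ℝ i).contDiffAt)

lemma symbB_ur_smooth {ξ : R3} (hξ : ξ ≠ 0) {e : E3} (he : lp (WithLp.toLp 2 ξ) e ≠ 0) (i : Fin 3) :
    ContDiffAt ℝ (⊤ : ℕ∞) (fun ξ : R3 => ur (WithLp.toLp 2 ξ) e i) ξ := by
  have e1 : (fun ξ : R3 => ur (WithLp.toLp 2 ξ) e i) = fun ξ : R3 =>
      (∑ l, lp (WithLp.toLp 2 ξ) e l ^ 2)⁻¹ * lp (WithLp.toLp 2 ξ) e i := by
    funext ξ
    rw [ur, symbB_norm_sq]
    simp
  rw [e1]
  refine ContDiffAt.mul (ContDiffAt.inv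
    (ContDiffAt.sum fun l _ => (symbB_lp_smooth hξ e l).pow 2) ?_) (symbB_lp_smooth hξ e i)
  rw [← symbB_norm_sq]
  exact pow_ne_zero 2 (norm_ne_zero_iff.2 he)

theorem ct_smooth {F : Fam} (hF : F.ok G) (g : Gp) : ContDiff ℝ (⊤ : ℕ∞) (ct G F g) := by
  refine contDiff_pi.2 fun i => contDiff_pi.2 fun j => ?_
  unfold ct
  refine ContDiff.add ?_ (contDiff_iff_contDiffAt.2 fun ξ => ?_)
  · split_ifs
    · exact (symbB_wid_smooth F g).mul 
        ((contDiff_const.mul ((psi_smooth _).comp sq_smooth)).sub contDiff_const)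
    · exact contDiff_const
  by_cases h : ∃ c ∈ F.cens G, ∀ l, |ofs G F g ξ l - c l| ≤ F.rad G l + 1
  · obtain ⟨c, hc, h1⟩ := h
    have h2 := box_facts hF g hc fun l => by
      have e1 := h1 l
      have e2 : (0 : ℝ) ≤ F.rad G l := Nat.cast_nonneg _
      linarith
    have h3 : ξ ≠ 0 := by
      intro h0
      have e1 := h2.1
      have e2 := lam_pos G F.ix
      rw [h0, norm_zero] at e1
      linarith only [e1, e2]
    exact ((symbB_chi_smooth F g).contDiffAt.mul contDiffAt_const).mul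
      ((symbB_lp_smooth h3 _ i).mul (symbB_ur_smooth h3 h2.2.2.2.2 j))
  · have h1 : ∀ᶠ η in nhds ξ, ∀ c ∈ F.cens G, ∃ l, (F.rad G l : ℝ) + 1 < |ofs G F g η l - c l| := by
      refine (Filter.eventually_all_finset _).2 fun c hc => ?_
      have e1 : ∃ l, (F.rad G l : ℝ) + 1 < |ofs G F g ξ l - c l| := by
        by_contra e2
        exact h ⟨c, hc, fun l => not_lt.1 fun e3 => e2 ⟨l, e3⟩⟩
      obtain ⟨l, hl⟩ := e1
      have e2 : Continuous fun η : R3 => |ofs G F g η l - c l| :=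
        ((symbB_ofs_smooth F g l).continuous.sub continuous_const).abs
      exact (e2.continuousAt.eventually (lt_mem_nhds hl)).mono fun η hη => ⟨l, hη⟩
    refine (contDiffAt_const (c := (0 : ℝ))).congr_of_eventuallyEq (h1.mono fun η hη => ?_)
    have e1 : chi G F (ofs G F g η) = 0 := by
      by_contra e2
      obtain ⟨c, hc, e3⟩ := chi_ne_zero e2
      obtain ⟨l, hl⟩ := hη c hc
      exact lt_asymm hl (e3 l)
    simp only [e1, zero_mul]

lemma symbB_lp_smul {s : ℝ} (hs : s ≠ 0) (ξ e : E3) : lp (s • ξ) e = lp ξ e := by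
  unfold lp
  rw [real_inner_smul_left, norm_smul, smul_smul, mul_pow, Real.norm_eq_abs, sq_abs]
  congr 2
  by_cases h : ‖ξ‖ = 0
  · simp [h]
  · field_simp

lemma symbB_n (j k : ℕ) : G.n (j + k) = G.La ^ j * G.n k := by
  unfold Geo.n
  ring

lemma symbB_Phom (j k : ℕ) : G.P (j + k) = G.La ^ j * G.P k := by
  unfold Geo.P
  rw [symbB_n, mul_assoc]

lemma symbB_lam (j k : ℕ) : G.lam (j + k) = (G.La : ℝ) ^ j * G.lam k := by
  unfold Geo.lam
  rw [symbB_Phom]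
  push_cast
  ring

lemma symbB_off_hom (j k : ℕ) (o : Fin 4) (i : Fin 3) :
    (G.off (j + k) o i : ℝ) = (G.La : ℝ) ^ j * G.off k o i := by
  fin_cases o <;> fin_cases i <;> simp [Geo.off, symbB_n]

lemma symbB_ctr_hom {F : Fam} (hF : F.ix = 0) (j : ℕ) (l : Fin 3) :
    ((at' j F).ctr G l : ℝ) = (G.La : ℝ) ^ j * F.ctr G l := by
  have h0 := symbB_Phom (G := G) j 0
  have h1 := symbB_Phom (G := G) j 1
  rw [add_zero] at h0
  cases F with
  | b i =>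
    obtain rfl : i = 0 := hF
    fin_cases l <;> simp [at', Fam.ctr, h0]
  | c i =>
    obtain rfl : i = 0 := hF
    fin_cases l <;> simp [at', Fam.ctr, h0, h1]
  | y i k =>
    obtain rfl : i = 0 := hF
    fin_cases l <;> simp [at', Fam.ctr, h0, mul_left_comm]

lemma symbB_rad_hom {F : Fam} (hF : F.ix = 0) (j : ℕ) (l : Fin 3) :
    ((at' j F).rad G l : ℝ) + 1 = (G.La : ℝ) ^ j * (F.rad G l + 1) := by
  cases F with
  | b i =>
    obtain rfl : i = 0 := hF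
    exact_mod_cast rb_hom G j l
  | c i =>
    obtain rfl : i = 0 := hF
    exact_mod_cast rc_hom G j l
  | y i k =>
    obtain rfl : i = 0 := hF
    exact_mod_cast ry_hom G j l

lemma symbB_cens_hom {F : Fam} (hF : F.ix = 0) (j : ℕ) (Φ : R3 → ℝ) :
    ∑ c ∈ (at' j F).cens G, Φ (fun l => c l) =
      ∑ c ∈ F.cens G, Φ fun l => (G.La : ℝ) ^ j * c l := by
  cases F with
  | b i =>
    obtain rfl : i = 0 := hF
    simp only [at', Fam.cens]
    rw [Finset.sum_image fun a _ b _ h => off_injective _ h,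
      Finset.sum_image fun a _ b _ h => off_injective _ h]
    refine Finset.sum_congr rfl fun o _ => ?_
    congr 1
    funext l
    exact symbB_off_hom j 0 o l
  | c i =>
    obtain rfl : i = 0 := hF
    simp only [at', Fam.cens]
    rw [Finset.sum_image fun a _ b _ h => off_injective _ h,
      Finset.sum_image fun a _ b _ h => off_injective _ h]
    refine Finset.sum_congr rfl fun o _ => ?_
    congr 1
    funext l
    exact symbB_off_hom j 1 o l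
  | y i k => simp [at', Fam.cens]

lemma symbB_ofs_hom {F : Fam} (hF : F.ix = 0) (g : Gp) (j : ℕ) (ξ : R3) (l : Fin 3) :
    ofs G (at' j F) g ξ l = (G.La : ℝ) ^ j * ofs G F g (((G.La : ℝ) ^ j)⁻¹ • ξ) l := by
  have hL : (G.La : ℝ) ^ j ≠ 0 := pow_ne_zero _ (by linarith only [symbB_La (G := G)])
  unfold ofs
  rw [symbB_ctr_hom hF, Pi.smul_apply, smul_eq_mul]
  field_simp

lemma symbB_chi_hom {F : Fam} (hF : F.ix = 0) (g : Gp) (j : ℕ) (ξ : R3) :
    chi G (at' j F) (ofs G (at' j F) g ξ) = chi G F (ofs G F g (((G.La : ℝ) ^ j)⁻¹ • ξ)) := by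
  have hL : (G.La : ℝ) ^ j ≠ 0 := pow_ne_zero _ (by linarith only [symbB_La (G := G)])
  unfold chi
  rw [symbB_cens_hom hF j fun c => chi1 G ((at' j F).rad G) fun i => ofs G (at' j F) g ξ i - c i]
  refine Finset.sum_congr rfl fun c _ => ?_
  unfold chi1
  refine Finset.prod_congr rfl fun i _ => ?_
  beta_reduce
  rw [symbB_rad_hom hF, symbB_ofs_hom hF, ← mul_sub, mul_div_mul_left _ _ hL]

lemma symbB_wid_hom {F : Fam} (hF : F.ix = 0) (g : Gp) (j : ℕ) (ξ : R3) :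
    wid G (at' j F) (ofs G (at' j F) g ξ) = wid G F (ofs G F g (((G.La : ℝ) ^ j)⁻¹ • ξ)) := by
  have hL : (G.La : ℝ) ^ j ≠ 0 := pow_ne_zero _ (by linarith only [symbB_La (G := G)])
  unfold wid
  rw [symbB_cens_hom hF j fun c => wid1 ((at' j F).rad G) fun i => ofs G (at' j F) g ξ i - c i]
  refine Finset.sum_congr rfl fun c _ => ?_
  unfold wid1
  refine Finset.prod_congr rfl fun i _ => ?_
  beta_reduce
  rw [symbB_rad_hom hF, symbB_ofs_hom hF, ← mul_sub, mul_left_comm, mul_div_mul_left _ _ hL]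

lemma symbB_Gc_hom {F : Fam} (hF : F.ix = 0) (j : ℕ) :
    G.Gc (at' j F).ix = G.Ga ^ j * G.Gc F.ix := by
  have h : (at' j F).ix = j := by cases F <;> rfl
  rw [h, hF]
  unfold Geo.Gc
  rw [add_comm j, G.lm_add, zero_add]
  ring

lemma symbB_dd_hom {F : Fam} (hF : F.ix = 0) (j : ℕ) :
    (at' j F).dd G = G.Ga ^ j * F.dd G := by
  have h0 := G.lm_add 0 j
  have h1 := G.lm_add 1 j
  rw [zero_add] at h0
  rw [add_comm] at h1
  cases F with
  | b i =>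
    obtain rfl : i = 0 := hF
    simp only [at', Fam.dd, Geo.d]
    rw [h0]
    ring
  | c i =>
    obtain rfl : i = 0 := hF
    simp only [at', Fam.dd, Geo.d]
    rw [h1, zero_add]
    ring
  | y i k =>
    obtain rfl : i = 0 := hF
    simp only [at', Fam.dd, Geo.D]
    rw [h0]
    ring

lemma symbB_one {F : Fam} (hF : F.ok G) {g : Gp} {ξ : R3} (h : wid G F (ofs G F g ξ) ≠ 0) :
    1 ≤ ‖ξ‖ := by
  obtain ⟨c, hc, hh⟩ := wid_ne_zero h
  linarith [(box_facts hF g hc fun i => (hh i).le).1, symbB_four (G := G) F.ix]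

lemma symbB_Ga_pow (j : ℕ) : ((G.La : ℝ) ^ j) ^ (2 * G.α) = G.Ga ^ j := by
  rw [← Real.rpow_natCast, ← Real.rpow_mul (Nat.cast_nonneg _), mul_comm,
    Real.rpow_mul (Nat.cast_nonneg _), Real.rpow_natCast]
  rfl

theorem ct_hom {F : Fam} (ok : F.ok G) (hF : F.ix = 0) (g : Gp) (j : ℕ) (ξ : R3) :
    G.Ga ^ j • ct G F g (((G.La : ℝ) ^ j)⁻¹ • ξ) = ct G (at' j F) g ξ := by
  have L1 : 1 ≤ (G.La : ℝ) ^ j := one_le_pow₀ (by linarith only [symbB_La (G := G)])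
  have hL : (G.La : ℝ) ^ j ≠ 0 := by linarith only [L1]
  have he : (at' j F).e G = F.e G := by cases F <;> rfl
  have h1 : lp (WithLp.toLp 2 (((G.La : ℝ) ^ j)⁻¹ • ξ)) (ge g (F.e G)) =
      lp (WithLp.toLp 2 ξ) (ge g (F.e G)) := symbB_lp_smul (inv_ne_zero hL) (WithLp.toLp 2 ξ) _
  have h2 : wid G F (ofs G F g (((G.La : ℝ) ^ j)⁻¹ • ξ)) * psi G.α (∑ l, ξ l ^ 2) =
      wid G F (ofs G F g (((G.La : ℝ) ^ j)⁻¹ • ξ)) *
        (G.Ga ^ j * psi G.α (∑ l, (((G.La : ℝ) ^ j)⁻¹ • ξ) l ^ 2)) := by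
    by_cases hw : wid G F (ofs G F g (((G.La : ℝ) ^ j)⁻¹ • ξ)) = 0
    · rw [hw, zero_mul, zero_mul]
    · have e1 := symbB_one ok hw
      have e2 : ξ = (G.La : ℝ) ^ j • ((G.La : ℝ) ^ j)⁻¹ • ξ := by
        rw [smul_smul, mul_inv_cancel₀ hL, one_smul]
      have e3 : 1 ≤ ‖ξ‖ := by
        rw [e2, norm_smul, Real.norm_of_nonneg (by linarith only [L1])]
        nlinarith only [L1, e1]
      rw [psi_one _ (one_le_sum e1), psi_one _ (one_le_sum e3), ← symbB_Ga_pow,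
        ← sum_smul_rpow (by linarith only [L1]), ← e2]
  funext a b
  rw [Pi.smul_apply, Pi.smul_apply, smul_eq_mul]
  unfold ct ur
  rw [symbB_chi_hom hF, symbB_wid_hom hF, symbB_Gc_hom hF, symbB_dd_hom hF, he, h1]
  split_ifs
  · linear_combination (-G.Cb) * h2
  · ring

theorem ct_neg (F : Fam) (g : Gp) (ξ : R3) : ct G F g (-ξ) = ct G F (g.1, -g.2) ξ := by
  have h1 : ofs G F g (-ξ) = ofs G F (g.1, -g.2) ξ := by
    funext l
    simp [ofs]
  have h2 : ge (g.1, -g.2) (F.e G) = -ge g (F.e G) := by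
    ext l
    simp [ge]
  have h3 : lp (WithLp.toLp 2 (-ξ)) (ge g (F.e G)) = lp (WithLp.toLp 2 ξ) (ge g (F.e G)) := by
    have := symbB_lp_smul (s := -1) (by norm_num) (WithLp.toLp 2 ξ) (ge g (F.e G))
    rwa [neg_one_smul] at this
  have h4 : lp (WithLp.toLp 2 ξ) (-ge g (F.e G)) = -lp (WithLp.toLp 2 ξ) (ge g (F.e G)) := by
    unfold lp
    rw [inner_neg_right, neg_div, neg_smul]
    abel
  funext a b
  unfold ct ur
  rw [h1, h2, h3, h4, norm_neg]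
  simp

/-- At most one term is present at each frequency. -/
theorem ct_unique {F F' : Fam} (hF : F.ok G) (hF' : F'.ok G) {g g' : Gp} {ξ : R3}
    (h : wid G F (ofs G F g ξ) ≠ 0) (h' : wid G F' (ofs G F' g' ξ) ≠ 0) : F = F' ∧ g = g' := by
  obtain ⟨c, hc, h1⟩ := wid_ne_zero h
  obtain ⟨c', hc', h1'⟩ := wid_ne_zero h'
  have key : ∀ (F : Fam) (g : Gp) (c : Z3) (i : Fin 3),
      |ξ i / (2 * Real.pi) - pt G F g c i| = |ofs G F g ξ (i - g.1) - c (i - g.1)| := by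
    intro F g c i
    have e : ξ i / (2 * Real.pi) - pt G F g c i =
        ((g.2 : ℤ) : ℝ) * (ofs G F g ξ (i - g.1) - c (i - g.1)) := by
      unfold ofs pt gz
      rw [sub_add_cancel]
      push_cast [Pi.add_apply]
      rcases symbB_sign g with h | h <;> rw [h] <;> ring
    rw [e, abs_mul]
    rcases symbB_sign g with h | h <;> rw [h] <;> simp
  have := sep hF hF' hc hc' (g := g) (g' := g') fun i => by
    have e1 := h1 (i - g.1)
    have e2 := h1' (i - g'.1)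
    rw [← key] at e1 e2
    have e3 := abs_sub_le (pt G F g c i : ℝ) (ξ i / (2 * Real.pi)) (pt G F' g' c' i)
    rw [abs_sub_comm _ (ξ i / (2 * Real.pi))] at e3
    have e4 : |(pt G F g c i : ℝ) - pt G F' g' c' i| <
        2 * ((F.rad G (i - g.1) : ℝ) + 1) + 2 * ((F'.rad G (i - g'.1) : ℝ) + 1) := by linarith
    exact_mod_cast e4
  exact ⟨this.1, this.2.1⟩

end

end Pool.Agent.Work.MP_6bf1e5_an.Hyp.Pd
end

-- merged part: Pool.Agent.Work.MP_6bf1e5_an.Hyp.SymbC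
section
/-!
The symbol.
-/

open Set Complex
open scoped InnerProductSpace ComplexConjugate Classical
open Pool.Agent.Work.MP_6bf1e5_an.B
open Pool.Agent.Work.MP_6bf1e5_an.Hyp.Dec

namespace Pool.Agent.Work.MP_6bf1e5_an.Hyp.Pd

noncomputable section

variable {G : Geo}

lemma SymbC_chi_zero {F : Fam} (hF : F.ok G) {x : R3} (h : wid G F x = 0) : chi G F x = 0 := by
  by_contra hc
  rw [wid_of_chi hF hc] at h
  exact one_ne_zero h

lemma SymbC_ct_zero {F : Fam} (hF : F.ok G) {g : Gp} {ξ : R3}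
    (h : wid G F (ofs G F g ξ) = 0) : ct G F g ξ = 0 := by
  funext i j
  simp [ct, h, SymbC_chi_zero hF h]

lemma SymbC_fam0 {F : Fam} (hF : F ∈ fam0 G) : F.ok G ∧ F.ix = 0 := by
  simp only [fam0, Finset.mem_insert, Finset.mem_image, Finset.mem_Icc] at hF
  rcases hF with rfl | rfl | ⟨i, hi, rfl⟩
  · exact ⟨trivial, rfl⟩
  · exact ⟨trivial, rfl⟩
  · exact ⟨hi, rfl⟩

lemma SymbC_at_ok (j : ℕ) {F : Fam} (hF : F.ok G) : (at' j F).ok G := by
  cases F with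
  | b _ => trivial
  | c _ => trivial
  | y _ _ => exact hF

lemma SymbC_at_ix (j : ℕ) (F : Fam) : (at' j F).ix = j := by
  cases F <;> rfl

lemma SymbC_exists_at {F : Fam} (hF : F.ok G) : ∃ F0 ∈ fam0 G, at' F.ix F0 = F := by
  cases F with
  | b j => exact ⟨.b 0, by simp [fam0], rfl⟩
  | c j => exact ⟨.c 0, by simp [fam0], rfl⟩
  | y j i =>
    refine ⟨.y 0 i, ?_, rfl⟩
    simp only [fam0, Finset.mem_insert, Finset.mem_image, Finset.mem_Icc]
    exact Or.inr (Or.inr ⟨i, hF, rfl⟩)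

lemma SymbC_at_inj {j : ℕ} {F F' : Fam} (h : F.ix = 0) (h' : F'.ix = 0)
    (H : at' j F = at' j F') : F = F' := by
  cases F <;> cases F' <;> simp_all [at', Fam.ix]

lemma SymbC_box {F : Fam} (hF : F.ok G) {g : Gp} {ξ : R3} (h : wid G F (ofs G F g ξ) ≠ 0) :
    G.lam F.ix / 4 ≤ ‖ξ‖ ∧ ‖ξ‖ ≤ 2 * G.lam (F.ix + 1) ∧ (∑ l, ξ l ^ 2) ^ G.α ≤ F.dd G ∧
      G.Gc F.ix ≤ G.Cb * (∑ l, ξ l ^ 2) ^ G.α := by
  obtain ⟨c, hc, hh⟩ := wid_ne_zero h
  obtain ⟨a1, a2, a3, a4, -⟩ := box_facts hF g hc fun i => (hh i).le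
  exact ⟨a1, a2, a3, a4⟩

lemma SymbC_supp (ξ : R3) (h : g0 G ξ ≠ 0) : G.lam 0 / 4 ≤ ‖ξ‖ ∧ ‖ξ‖ ≤ 2 * G.lam 1 := by
  obtain ⟨F, hF, h1⟩ := Finset.exists_ne_zero_of_sum_ne_zero h
  obtain ⟨g, -, h2⟩ := Finset.exists_ne_zero_of_sum_ne_zero h1
  obtain ⟨ok, ix⟩ := SymbC_fam0 hF
  have := SymbC_box ok (g := g) (ξ := ξ) fun hw => h2 (SymbC_ct_zero ok hw)
  rw [ix] at this
  exact ⟨this.1, this.2.1⟩

lemma SymbC_La : (2 : ℝ) ≤ G.La := by
  have h := La_big G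
  have h2 : 2 ≤ G.La := le_trans (by norm_num) h
  exact_mod_cast h2

lemma SymbC_a : 0 < G.lam 0 / 4 := by
  have := lam_pos G 0
  linarith

lemma SymbC_g0_smooth : ContDiff ℝ (⊤ : ℕ∞) (g0 G) := by
  unfold g0
  exact ContDiff.sum fun F hF => ContDiff.sum fun g _ => ct_smooth (SymbC_fam0 hF).1 g

lemma SymbC_ssum (ξ : R3) : ∃ J : ℕ,
    (∀ F g, F.ok G → wid G F (ofs G F g ξ) ≠ 0 → F.ix < J) ∧
    ssum G.La G.Ga (g0 G) ξ =
      ∑ j ∈ Finset.range J, ∑ F ∈ fam0 G, ∑ g : Gp, ct G (at' j F) g ξ := by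
  have hL := SymbC_La (G := G)
  have ha := SymbC_a (G := G)
  obtain ⟨J, hJ⟩ := pow_unbounded_of_one_lt (‖ξ‖ / (G.lam 0 / 4)) (by linarith only [hL] : (1 : ℝ) < G.La)
  rw [div_lt_iff₀ ha, mul_comm] at hJ
  refine ⟨J, fun F g hF h => ?_, ?_⟩
  · have h1 := (SymbC_box hF h).1
    rw [lam_pow] at h1
    have h2 : (G.La : ℝ) ^ F.ix < (G.La : ℝ) ^ J := by
      by_contra hc
      have := mul_le_mul_of_nonneg_left (not_lt.1 hc) ha.le
      linarith only [hJ, h1, this]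
    exact (pow_lt_pow_iff_right₀ (by linarith only [hL])).1 h2
  · rw [ssum_eq ha hL SymbC_supp hJ le_rfl]
    refine Finset.sum_congr rfl fun j _ => ?_
    unfold g0
    rw [Finset.smul_sum]
    refine Finset.sum_congr rfl fun F hF => ?_
    rw [Finset.smul_sum]
    exact Finset.sum_congr rfl fun g _ => ct_hom (SymbC_fam0 hF).1 (SymbC_fam0 hF).2 g j ξ

theorem sig_cases (ξ : R3) : (sig G ξ = hq G.α G.Cb ξ ∧
    ∀ F g, F.ok G → wid G F (ofs G F g ξ) = 0) ∨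
    ∃ F g, F.ok G ∧ wid G F (ofs G F g ξ) ≠ 0 ∧ sig G ξ = hq G.α G.Cb ξ - ct G F g ξ := by
  obtain ⟨J, hJ, hs⟩ := SymbC_ssum (G := G) ξ
  by_cases h : ∃ F g, F.ok G ∧ wid G F (ofs G F g ξ) ≠ 0
  · right
    obtain ⟨F, g, hF, hw⟩ := h
    refine ⟨F, g, hF, hw, ?_⟩
    obtain ⟨F0, hF0, e⟩ := SymbC_exists_at hF
    have key : ∀ j, ∀ F' ∈ fam0 G, ∀ g', (at' j F' = F → g' ≠ g) → ct G (at' j F') g' ξ = 0 := by
      intro j F' hF' g' hne
      have ok := SymbC_at_ok j (SymbC_fam0 hF').1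
      apply SymbC_ct_zero ok
      by_contra hc
      obtain ⟨e1, e2⟩ := ct_unique ok hF hc hw
      exact hne e1 e2
    unfold sig
    rw [hs, Finset.sum_eq_single_of_mem F.ix (Finset.mem_range.2 (hJ F g hF hw)),
      Finset.sum_eq_single_of_mem F0 hF0, Finset.sum_eq_single g, e]
    · intro g' _ hne
      exact key _ F0 hF0 g' fun _ => hne
    · intro hg
      exact absurd (Finset.mem_univ g) hg
    · intro F' hF' hne
      refine Finset.sum_eq_zero fun g' _ => key _ F' hF' g' fun e1 => ?_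
      exact absurd (SymbC_at_inj (SymbC_fam0 hF').2 (SymbC_fam0 hF0).2 (e1.trans e.symm)) hne
    · intro j _ hne
      refine Finset.sum_eq_zero fun F' hF' => Finset.sum_eq_zero fun g' _ =>
        key _ F' hF' g' fun e1 => ?_
      rw [← e1, SymbC_at_ix] at hne
      exact absurd rfl hne
  · left
    have h' : ∀ F g, F.ok G → wid G F (ofs G F g ξ) = 0 := by
      intro F g hF
      by_contra hc
      exact h ⟨F, g, hF, hc⟩
    refine ⟨?_, h'⟩
    unfold sig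
    rw [hs, Finset.sum_eq_zero, sub_zero]
    intro j _
    refine Finset.sum_eq_zero fun F hF => Finset.sum_eq_zero fun g _ => ?_
    have ok := SymbC_at_ok j (SymbC_fam0 hF).1
    exact SymbC_ct_zero ok (h' _ _ ok)

lemma SymbC_quad_row (a c : ℝ) (ξ x : R3) (i : Fin 3) :
    ∑ j, hq a c ξ i j * x j = (c * psi a (∑ l, ξ l ^ 2)) * x i := by
  simp [hq]

lemma SymbC_ct_row (F : Fam) (g : Gp) (ξ x : R3) (i : Fin 3) :
    ∑ j, ct G F g ξ i j * x j =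
      wid G F (ofs G F g ξ) * (G.Cb * psi G.α (∑ l, ξ l ^ 2) - G.Gc F.ix) * x i +
      chi G F (ofs G F g ξ) * (G.Gc F.ix - F.dd G) *
        (lp (WithLp.toLp 2 ξ) (ge g (F.e G)) i *
          ((‖lp (WithLp.toLp 2 ξ) (ge g (F.e G))‖ ^ 2)⁻¹ *
            ∑ j, lp (WithLp.toLp 2 ξ) (ge g (F.e G)) j * x j)) := by
  simp only [ct, add_mul, Finset.sum_add_distrib, ite_mul, zero_mul, Finset.sum_ite_eq,
    Finset.mem_univ, if_true, ur, PiLp.smul_apply, smul_eq_mul, Finset.mul_sum]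
  congr 1
  exact Finset.sum_congr rfl fun j _ => by ring

lemma SymbC_quad_form (a c : ℝ) (ξ v : R3) :
    ∑ i, ∑ j, v i * hq a c ξ i j * v j = (c * psi a (∑ l, ξ l ^ 2)) * ∑ i, v i ^ 2 := by
  rw [Finset.mul_sum]
  refine Finset.sum_congr rfl fun i _ => ?_
  simp only [mul_assoc (v i)]
  rw [← Finset.mul_sum, SymbC_quad_row]
  ring

lemma SymbC_form (F : Fam) (g : Gp) (ξ v : R3) : ∃ q : ℝ, 0 ≤ q ∧ q ≤ ∑ i, v i ^ 2 ∧
    ∑ i, ∑ j, v i * (hq G.α G.Cb ξ - ct G F g ξ) i j * v j =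
      (G.Cb * psi G.α (∑ l, ξ l ^ 2)) * ∑ i, v i ^ 2 -
        wid G F (ofs G F g ξ) * (G.Cb * psi G.α (∑ l, ξ l ^ 2) - G.Gc F.ix) * ∑ i, v i ^ 2 -
        chi G F (ofs G F g ξ) * (G.Gc F.ix - F.dd G) * q := by
  set l := lp (WithLp.toLp 2 ξ) (ge g (F.e G)) with hl
  refine ⟨(‖l‖ ^ 2)⁻¹ * (∑ j, l j * v j) ^ 2, by positivity, ?_, ?_⟩
  · have h1 := Finset.sum_mul_sq_le_sq_mul_sq Finset.univ (fun j => l j) v
    have h2 : ‖l‖ ^ 2 = ∑ j, l j ^ 2 := by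
      rw [EuclideanSpace.norm_sq_eq]; simp [sq_abs]
    rw [← h2] at h1
    have h3 : 0 ≤ ∑ i, v i ^ 2 := by positivity
    by_cases h0 : ‖l‖ ^ 2 = 0
    · rw [h0, inv_zero, zero_mul]; exact h3
    · have hp : 0 < ‖l‖ ^ 2 := lt_of_le_of_ne (by positivity) (Ne.symm h0)
      rw [inv_mul_le_iff₀ hp]
      exact h1
  · have e : ∀ i, ∑ j, v i * (hq G.α G.Cb ξ - ct G F g ξ) i j * v j =
        v i * (∑ j, hq G.α G.Cb ξ i j * v j - ∑ j, ct G F g ξ i j * v j) := by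
      intro i
      rw [← Finset.sum_sub_distrib, Finset.mul_sum]
      exact Finset.sum_congr rfl fun j _ => by simp only [Pi.sub_apply]; ring
    simp only [e, SymbC_quad_row, SymbC_ct_row, ← hl]
    generalize psi G.α (∑ l, ξ l ^ 2) = X
    generalize (‖l‖ ^ 2)⁻¹ = Y
    simp only [Fin.sum_univ_three]
    ring

lemma SymbC_lower (ξ v : R3) :
    (∑ i, ξ i ^ 2) ^ G.α * ∑ i, v i ^ 2 ≤ ∑ i, ∑ j, v i * sig G ξ i j * v j := by
  have hC := (one_le_C G).trans (C_le_Cb G)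
  have hX : 0 ≤ ∑ i, ξ i ^ 2 := by positivity
  have hV : 0 ≤ ∑ i, v i ^ 2 := by positivity
  rcases sig_cases (G := G) ξ with ⟨h, -⟩ | ⟨F, g, hF, hw, h⟩
  · rw [h, SymbC_quad_form]
    have h1 := psi_ge G.α_lo hX
    have h2 := Real.rpow_nonneg hX G.α
    exact mul_le_mul_of_nonneg_right (by nlinarith only [hC, h1, h2]) hV
  · obtain ⟨q, q0, q1, e⟩ := SymbC_form (G := G) F g ξ v
    obtain ⟨-, -, a3, a4⟩ := SymbC_box hF hw
    rw [h, e, psi_one _ (one_le_sum (symbB_one hF hw))]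
    obtain ⟨c0, c1⟩ := chi_bounds hF (ofs G F g ξ)
    have hd := dd_le_Gc G F
    have h1 : wid G F (ofs G F g ξ) * (G.Cb * (∑ l, ξ l ^ 2) ^ G.α - G.Gc F.ix) * ∑ i, v i ^ 2 ≤
        1 * (G.Cb * (∑ l, ξ l ^ 2) ^ G.α - G.Gc F.ix) * ∑ i, v i ^ 2 :=
      mul_le_mul_of_nonneg_right
        (mul_le_mul_of_nonneg_right (wid_le_one hF _) (by linarith only [a4])) hV
    have h2 : chi G F (ofs G F g ξ) * (G.Gc F.ix - F.dd G) * q ≤
        1 * (G.Gc F.ix - F.dd G) * ∑ i, v i ^ 2 :=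
      mul_le_mul (mul_le_mul_of_nonneg_right c1 (by linarith)) q1 q0 (by linarith only [hd])
    have h3 := mul_le_mul_of_nonneg_right a3 hV
    linarith

lemma SymbC_upper (ξ v : R3) (h1 : 1 ≤ ∑ i, ξ i ^ 2) : ∑ i, ∑ j, v i * sig G ξ i j * v j ≤
    G.Cb * (∑ i, ξ i ^ 2) ^ G.α * ∑ i, v i ^ 2 := by
  have hV : 0 ≤ ∑ i, v i ^ 2 := by positivity
  rcases sig_cases (G := G) ξ with ⟨h, -⟩ | ⟨F, g, hF, hw, h⟩
  · rw [h, SymbC_quad_form, psi_one _ h1]
  · obtain ⟨q, q0, q1, e⟩ := SymbC_form (G := G) F g ξ v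
    obtain ⟨-, -, -, a4⟩ := SymbC_box hF hw
    rw [h, e, psi_one _ h1]
    obtain ⟨c0, -⟩ := chi_bounds hF (ofs G F g ξ)
    have hd := dd_le_Gc G F
    have h2 : 0 ≤ chi G F (ofs G F g ξ) * (G.Gc F.ix - F.dd G) * q :=
      mul_nonneg (mul_nonneg c0 (by linarith)) q0
    have h3 : 0 ≤ wid G F (ofs G F g ξ) * (G.Cb * (∑ l, ξ l ^ 2) ^ G.α - G.Gc F.ix) *
        ∑ i, v i ^ 2 := mul_nonneg (mul_nonneg (wid_nonneg _ _) (by linarith only [a4])) hV
    linarith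

lemma SymbC_zero : sig G 0 = 0 := by
  rcases sig_cases (G := G) 0 with ⟨h, -⟩ | ⟨F, g, hF, hw, -⟩
  · rw [h]
    funext i j
    simp [hq, psi_small G.α (s := 0) (by norm_num)]
  · have := symbB_one hF hw
    rw [norm_zero] at this
    linarith

lemma SymbC_quad_symm (a c : ℝ) (ξ : R3) (i j : Fin 3) : hq a c ξ i j = hq a c ξ j i := by
  simp only [hq, eq_comm]

lemma SymbC_symm (ξ : R3) (i j : Fin 3) : sig G ξ i j = sig G ξ j i := by
  rcases sig_cases (G := G) ξ with ⟨h, -⟩ | ⟨F, g, -, -, h⟩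
  · rw [h, SymbC_quad_symm]
  · rw [h]
    simp only [Pi.sub_apply, ct, ur, PiLp.smul_apply, smul_eq_mul]
    rw [SymbC_quad_symm]
    simp only [eq_comm (a := i) (b := j)]
    ring

lemma SymbC_g0_neg (ξ : R3) : g0 G (-ξ) = g0 G ξ := by
  unfold g0
  refine Finset.sum_congr rfl fun F _ => ?_
  simp only [ct_neg]
  exact Equiv.sum_comp ((Equiv.refl (Fin 3)).prodCongr (Equiv.neg ℤˣ)) fun g => ct G F g ξ

lemma SymbC_even (ξ : R3) : sig G (-ξ) = sig G ξ := by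
  unfold sig ssum
  simp only [smul_neg, SymbC_g0_neg]
  congr 1
  funext i j
  simp [hq]

lemma SymbC_ofs (F : Fam) (g : Gp) (h : Z3) :
    ofs G F g (Sz.fq (pt G F g h)) = fun i => (h i : ℝ) := by
  funext l
  have hp : (2 * Real.pi) ≠ 0 := by positivity
  have hu : (((g.2 : ℤ) : ℝ)) * ((g.2 : ℤ) : ℝ) = 1 := by
    rcases Int.units_eq_one_or g.2 with e | e <;> simp [e]
  simp only [ofs, Sz.fq, pt, gz, add_sub_cancel_right, Pi.add_apply]
  push_cast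
  field_simp
  linear_combination ((F.ctr G l : ℝ) + h l) * hu

lemma SymbC_exists_pt (F : Fam) (g : Gp) (k : Z3) : ∃ h, k = pt G F g h := by
  refine ⟨gzE g k - F.ctr G, ?_⟩
  rw [pt, add_sub_cancel]
  exact ((gzE g).left_inv k).symm

lemma SymbC_psi (k : Z3) : psi G.α (∑ l, Sz.fq k l ^ 2) = (ax k ^ 2) ^ G.α := by
  rw [Sz.sum_fq_sq]
  by_cases hk : k = 0
  · have := G.α_lo
    rw [hk, ax_zero, zero_pow two_ne_zero, psi_small _ (by norm_num),
      Real.zero_rpow (by linarith)]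
  · exact psi_one _ (one_le_pow₀ (one_le_ax hk))

lemma SymbC_lat (k : Z3) (x : E3) (i : Fin 3) :
    ∑ j, sig G (Sz.fq k) i j * x j = AR G k x i := by
  have hA : AR G k x i = sc G k * x i - dm G k * Pj G k x i := rfl
  rw [hA]
  rcases sig_cases (G := G) (Sz.fq k) with ⟨h, hz⟩ | ⟨F, g, hF, hw, h⟩
  · have hN : ¬Near G k := by
      rintro ⟨⟨F, g, h'⟩, ok, hw, e⟩
      have := hz F g ok
      rw [e, SymbC_ofs] at this
      exact hw this
    have hAct : ¬Act G k := by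
      rintro ⟨⟨F, g, h'⟩, ok, hS, e⟩
      exact hN ⟨⟨F, g, h'⟩, ok, by rw [wid_S ok hS]; exact one_ne_zero, e⟩
    rw [h, SymbC_quad_row, SymbC_psi, sc, dm, dif_neg hN, dif_neg hAct]
    ring
  · obtain ⟨h', rfl⟩ := SymbC_exists_pt (G := G) F g k
    have e : ∑ j, (hq G.α G.Cb (Sz.fq (pt G F g h')) -
        ct G F g (Sz.fq (pt G F g h'))) i j * x j =
        ∑ j, hq G.α G.Cb (Sz.fq (pt G F g h')) i j * x j -
          ∑ j, ct G F g (Sz.fq (pt G F g h')) i j * x j := by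
      rw [← Finset.sum_sub_distrib]
      exact Finset.sum_congr rfl fun j _ => by simp only [Pi.sub_apply]; ring
    rw [h, e, SymbC_quad_row, SymbC_ct_row, SymbC_psi]
    rw [SymbC_ofs] at hw ⊢
    have hax : ax (pt G F g h') = ax (F.ctr G + h') := ax_gz _ _
    rw [sc_near hF g hw, hax]
    by_cases hS : h' ∈ F.S G
    · rw [dm_pt hF g hS, Pj, vec_pt hF g hS]
      have e1 : (WithLp.toLp 2 (Sz.fq (pt G F g h')) : E3) = xi (pt G F g h') := rfl
      rw [e1]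
      have e2 : ∀ l : E3, ⟪l, x⟫_ℝ = ∑ j, l j * x j := by
        intro l
        simp [PiLp.inner_apply, mul_comm]
      simp only [ur, PiLp.smul_apply, smul_eq_mul, e2]
      ring
    · have hc : chi G F (fun i => (h' i : ℝ)) = 0 := by
        by_contra hc
        obtain ⟨c, hc1, hc2⟩ := chi_ne_zero hc
        refine hS (mem_S.2 ⟨c, hc1, mem_bx.2 fun l => ?_⟩)
        have h1 := hc2 l
        have h2 : |h' l - c l| < (F.rad G l : ℤ) + 1 := by exact_mod_cast h1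
        simp only [Pi.sub_apply]
        omega
      have hAct : ¬Act G (pt G F g h') := by
        rintro ⟨⟨F', g', h''⟩, ok, hS', e'⟩
        obtain ⟨e1, -, e3⟩ := near_unique hF ok hw
          (by rw [wid_S ok hS']; exact one_ne_zero) e'
        simp only at e1 e3 hS'
        rw [← e1, ← e3] at hS'
        exact hS hS'
      rw [hc, dm, dif_neg hAct]
      ring

end

end Pool.Agent.Work.MP_6bf1e5_an.Hyp.Pd
end

-- merged part: Pool.Agent.Work.MP_6bf1e5_an.Hyp.SymbD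
section
/-!
The symbol is invariant under a discrete scaling, preserves divergence-free vectors and is
isotropic outside a sparse set.
-/

open Set Complex
open scoped InnerProductSpace ComplexConjugate Classical
open Pool.Agent.Work.MP_6bf1e5_an.B
open Pool.Agent.Work.MP_6bf1e5_an.Hyp.Dec

namespace Pool.Agent.Work.MP_6bf1e5_an.Hyp.Pd

noncomputable section

variable {G : Geo}

lemma SymbD_scale (ξ : R3) (hξ : 2 * G.lam 1 ≤ ‖ξ‖) :
    sig G ((G.La : ℝ) • ξ) = (G.La : ℝ) ^ (2 * G.α) • sig G ξ := by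
  have hL := SymbC_La (G := G)
  have ha := SymbC_a (G := G)
  have l1 := lam_pos G 1
  have L0 : (0 : ℝ) < G.La := by linarith only [hL]
  have nn : ‖(G.La : ℝ) • ξ‖ = G.La * ‖ξ‖ := by rw [norm_smul, Real.norm_of_nonneg L0.le]
  obtain ⟨J, hJ⟩ := pow_unbounded_of_one_lt (‖ξ‖ / (G.lam 0 / 4)) (by linarith only [hL] : (1 : ℝ) < G.La)
  rw [div_lt_iff₀ ha, mul_comm] at hJ
  have hJ' : G.La * ‖ξ‖ < G.lam 0 / 4 * (G.La : ℝ) ^ (J + 1) := by
    rw [pow_succ]; nlinarith only [hL, hJ]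
  have z : g0 G ((G.La : ℝ) • ξ) = 0 := by
    by_contra hc
    have := (SymbC_supp _ hc).2
    rw [nn] at this
    nlinarith only [hξ, hL, l1, this]
  have q : hq G.α G.Cb ((G.La : ℝ) • ξ) = (G.La : ℝ) ^ (2 * G.α) • hq G.α G.Cb ξ := by
    funext i j
    rw [Pi.smul_apply, Pi.smul_apply, smul_eq_mul, hq, hq,
      psi_one _ (one_le_sum (by rw [nn]; nlinarith only [hξ, hL, l1])), psi_one _ (one_le_sum (by linarith only [hξ, l1])),
      sum_smul_rpow L0.le]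
    split_ifs <;> ring
  unfold sig
  rw [ssum_eq ha hL SymbC_supp hJ le_rfl, ssum_eq ha hL SymbC_supp hJ' nn.le,
    Finset.sum_range_succ', smul_sub, q, Finset.smul_sum]
  simp only [pow_zero, inv_one, one_smul, z, smul_zero, add_zero]
  congr 1
  refine Finset.sum_congr rfl fun j _ => ?_
  have e : ((G.La : ℝ) ^ (j + 1))⁻¹ * G.La = ((G.La : ℝ) ^ j)⁻¹ := by field_simp; ring
  rw [smul_smul, smul_smul, e, pow_succ']
  rfl

theorem sig_scale : ∃ L R : ℝ, 1 < L ∧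
    ∀ ξ : R3, R ≤ ‖ξ‖ → sig G (L • ξ) = L ^ (2 * G.α) • sig G ξ :=
  ⟨G.La, 2 * G.lam 1, by linarith [SymbC_La (G := G)], SymbD_scale⟩

theorem symb_sig : Symb G (sig G) := by
  have h : ContDiff ℝ (⊤ : ℕ∞) (sig G) :=
    (hq_smooth _ _).sub (ssum_smooth SymbC_g0_smooth SymbC_a SymbC_La SymbC_supp)
  exact ⟨⟨h, SymbC_symm, SymbC_even, SymbC_zero, SymbC_lower, SymbC_upper,
    scale_deriv h SymbC_La (by linarith [G.α_lo]) (by linarith [lam_pos G 1]) SymbD_scale⟩,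
    SymbC_lat⟩

theorem sig_div (ξ v : R3) (h : ∑ i, ξ i * v i = 0) : ∑ i, ξ i * ∑ j, sig G ξ i j * v j = 0 := by
  rcases sig_cases (G := G) ξ with ⟨e, -⟩ | ⟨F, g, -, -, e⟩
  · simp only [e, hq, Fin.sum_univ_three] at h ⊢
    simp only [Fin.reduceEq, if_true, if_false]
    linear_combination (G.Cb * psi G.α (ξ 0 ^ 2 + ξ 1 ^ 2 + ξ 2 ^ 2)) * h
  · have o := inner_xi_lp (WithLp.toLp 2 ξ) (ge g (F.e G))
    rw [inner_E3] at o
    simp only [e, hq, ct, Pi.sub_apply, Fin.sum_univ_three] at h o ⊢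
    simp only [Fin.reduceEq, if_true, if_false]
    generalize lp (WithLp.toLp 2 ξ) (ge g (F.e G)) = l at o ⊢
    generalize ur (WithLp.toLp 2 ξ) (ge g (F.e G)) = u
    linear_combination (G.Cb * psi G.α (ξ 0 ^ 2 + ξ 1 ^ 2 + ξ 2 ^ 2) - wid G F (ofs G F g ξ) *
      (G.Cb * psi G.α (ξ 0 ^ 2 + ξ 1 ^ 2 + ξ 2 ^ 2) - G.Gc F.ix)) * h -
      chi G F (ofs G F g ξ) * (G.Gc F.ix - F.dd G) * (u 0 * v 0 + u 1 * v 1 + u 2 * v 2) * o

/-- The frequencies where the symbol is not isotropic lie in small boxes around the carriers. -/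
lemma SymbD_cover {ξ : R3} (h : sig G ξ ≠ hq G.α G.Cb ξ) : ∃ j, ∃ F ∈ fam0 G, ∃ g,
    G.lam j / 4 ≤ ‖ξ‖ ∧ ∀ i, |ofs G (at' j F) g ξ i| ≤ 2 * (G.n (j + 1) : ℝ) := by
  rcases sig_cases (G := G) ξ with ⟨e, -⟩ | ⟨F, g, hF, hw, -⟩
  · exact absurd e h
  · obtain ⟨F0, hF0, e⟩ := SymbC_exists_at hF
    obtain ⟨c, hc, hh⟩ := wid_ne_zero hw
    exact ⟨F.ix, F0, hF0, g, (SymbC_box hF hw).1,
      by rw [e]; exact symbB_ofs_n hc fun i => (hh i).le⟩

lemma SymbD_card : ((fam0 G ×ˢ (Finset.univ : Finset Gp)).card : ℝ) ≤ 12 * G.L := by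
  have h1 : (fam0 G).card ≤ G.La + 2 := by
    refine (Finset.card_insert_le _ _).trans (Nat.succ_le_succ ((Finset.card_insert_le _ _).trans
      (Nat.succ_le_succ (Finset.card_image_le.trans (by simp)))))
  have h2 : ((fam0 G).card : ℝ) ≤ G.L + 2 := by rw [← La_cast]; exact_mod_cast h1
  have h3 := SymbC_La (G := G)
  rw [La_cast] at h3
  rw [Finset.card_product, Finset.card_univ]
  simp only [Fintype.card_prod, Fintype.card_fin, Fintype.card_units_int]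
  push_cast
  linarith only [h2, h3]

lemma SymbD_sum (J : ℕ) {X : ℝ} (hX : 0 ≤ X) : ∑ j ∈ Finset.range J,
    (if (G.P j : ℝ) ≤ 4 * X then 10 ^ 6 * G.L * (G.n (j + 1) : ℝ) ^ 3 else 0) ≤ X ^ 3 / G.t := by
  have L0 := G.L_pos
  have t0 := G.t_pos
  have m0 := G.m0_pos
  have L1 := G.one_le_L
  have L2 : 10 ^ 9 ≤ G.L := le_trans (by norm_num) (L_big G)
  have g := (symbA_geom (L := G.L ^ 3) (R := (4 * X / (G.t ^ 9 * G.m0)) ^ 3)
    (le_trans (by linarith) (le_self_pow₀ L1 (by norm_num))) (by positivity) J).2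
  have a : ∀ j, (if (G.P j : ℝ) ≤ 4 * X then 10 ^ 6 * G.L * (G.n (j + 1) : ℝ) ^ 3 else 0) ≤
      10 ^ 6 * G.L * (G.t ^ 9 * G.L) ^ 3 *
        if (G.L ^ 3) ^ j ≤ (4 * X / (G.t ^ 9 * G.m0)) ^ 3 then (G.L ^ 3) ^ j else 0 := by
    intro j
    by_cases c : (G.P j : ℝ) ≤ 4 * X
    · rw [if_pos c, if_pos, G.n_eq]
      · exact le_of_eq (by ring)
      · rw [← pow_mul, mul_comm 3, pow_mul]
        refine pow_le_pow_left₀ (by positivity) ?_ 3
        rw [P_cast, G.n_eq] at c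
        rw [le_div_iff₀ (by positivity)]
        linarith only [c]
    · rw [if_neg c]
      split_ifs <;> positivity
  refine (Finset.sum_le_sum fun j _ => a j).trans ?_
  rw [← Finset.mul_sum]
  refine (mul_le_mul_of_nonneg_left g (by positivity)).trans ?_
  have b : 10 ^ 9 * G.t * G.L ^ 4 ≤ G.m0 ^ 3 := by
    have b1 : G.L ^ 6 ≤ G.m0 := (G.L_pow_le (by norm_num)).trans (m0_bigL G)
    have b2 : G.m0 ≤ G.m0 ^ 3 := le_self_pow₀ ((one_le_pow₀ L1).trans b1) (by norm_num)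
    calc _ ≤ G.L * G.L * G.L ^ 4 := by gcongr; exact t_le_L G
      _ = G.L ^ 6 := by ring
      _ ≤ _ := b1.trans b2
  calc _ = 128 * 10 ^ 6 * G.t * G.L ^ 4 / G.m0 ^ 3 * (X ^ 3 / G.t) := by field_simp; ring
    _ ≤ 1 * (X ^ 3 / G.t) := by
        gcongr
        rw [div_le_one (by positivity)]
        refine le_trans ?_ b
        gcongr
        norm_num
    _ = _ := one_mul _

lemma SymbD_J (X : ℝ) : ∃ J : ℕ, ∀ j, (G.P j : ℝ) ≤ X → j < J := by
  refine ⟨⌈X⌉₊ + 1, fun j h => ?_⟩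
  have h1 : j ≤ G.P j := by
    rw [P_eq]
    have a := (Nat.lt_pow_self (n := j + G.kk) (show 1 < G.La by linarith [G.ten_le_La])).le
    have b : G.La ^ (j + G.kk) ≤ G.n (j + G.kk) :=
      Nat.le_mul_of_pos_left _ (Nat.pow_pos (T_one G))
    omega
  have h2 : (j : ℝ) ≤ ⌈X⌉₊ := (le_trans (by exact_mod_cast h1) h).trans (Nat.le_ceil X)
  have h3 : j ≤ ⌈X⌉₊ := by exact_mod_cast h2
  omega

/-- The symbol is isotropic outside a sparse set of lattice frequencies. -/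
theorem sig_sparse (R : ℕ) : ({k : Z3 | (∀ i, |k i| ≤ R) ∧
    sig G (fun l => 2 * Real.pi * k l) ≠ fun i j =>
      if i = j then G.Cb * (∑ l, (2 * Real.pi * k l) ^ 2) ^ G.α else 0}.ncard : ℝ) ≤
      (R : ℝ) ^ 3 / G.t := by
  obtain ⟨J, hJ⟩ := SymbD_J (G := G) (4 * R)
  obtain ⟨S, hS⟩ : ∃ S : ℕ → Finset Z3, S = fun j => if (G.P j : ℝ) ≤ 4 * R then
      (fam0 G ×ˢ (Finset.univ : Finset Gp)).biUnion fun x =>
        (bx fun _ => 2 * G.n (j + 1)).image (pt G (at' j x.1) x.2) else ∅ := ⟨_, rfl⟩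
  refine le_trans ?_ (SymbD_sum J (Nat.cast_nonneg R))
  refine le_trans (Nat.cast_le.2 ((Set.ncard_le_ncard (t := ((Finset.range J).biUnion S : Finset Z3))
    ?_ (Finset.finite_toSet _)).trans ((Set.ncard_coe_finset _).le.trans
      Finset.card_biUnion_le))) ?_
  · rintro k ⟨h1, h2⟩
    obtain ⟨j, F, hF, g, a, b⟩ := SymbD_cover (G := G) (ξ := Sz.fq k) fun e => h2 (by
      refine e.trans ?_
      funext i j
      rw [hq, SymbC_psi, ← Sz.sum_fq_sq]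
      rfl)
    have hp := Real.pi_pos
    have c : ‖Sz.fq k‖ ≤ 2 * Real.pi * R := by
      refine (pi_norm_le_iff_of_nonneg (by positivity)).2 fun i => ?_
      have : |(k i : ℝ)| ≤ R := by exact_mod_cast h1 i
      rw [Sz.fq, Real.norm_eq_abs, abs_mul, abs_of_pos (by positivity)]
      gcongr
    have d : (G.P j : ℝ) ≤ 4 * R := by
      unfold Geo.lam at a
      nlinarith only [a, hp, c]
    obtain ⟨h, rfl⟩ := SymbC_exists_pt (G := G) (at' j F) g k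
    rw [SymbC_ofs] at b
    simp only [Finset.coe_biUnion, Finset.mem_coe, mem_iUnion]
    refine ⟨j, Finset.mem_range.2 (hJ j d), ?_⟩
    simp only [hS, if_pos d]
    refine Finset.mem_biUnion.2 ⟨(F, g), Finset.mem_product.2 ⟨hF, Finset.mem_univ _⟩,
      Finset.mem_image_of_mem _ (mem_bx.2 fun i => ?_)⟩
    have b' : |(h i : ℝ)| ≤ 2 * (G.n (j + 1) : ℝ) := b i
    exact_mod_cast b'
  · push_cast
    refine Finset.sum_le_sum fun j _ => ?_
    simp only [hS]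
    split_ifs
    · have a := Finset.card_biUnion_le_card_mul (fam0 G ×ˢ (Finset.univ : Finset Gp))
        (fun x => (bx fun _ => 2 * G.n (j + 1)).image (pt G (at' j x.1) x.2))
        ((5 * G.n (j + 1)) ^ 3) fun x _ => Finset.card_image_le.trans (by
          rw [card_bx, Finset.prod_const, Finset.card_univ, Fintype.card_fin]
          refine Nat.pow_le_pow_left ?_ 3
          have : 1 ≤ G.n (j + 1) := le_trans (by norm_num) (n_pos G _)
          omega)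
      refine (Nat.cast_le.2 a).trans ?_
      push_cast
      have := G.L_pos
      calc _ ≤ 12 * G.L * (5 * (G.n (j + 1) : ℝ)) ^ 3 := by gcongr; exact SymbD_card
        _ = 1500 * G.L * (G.n (j + 1) : ℝ) ^ 3 := by ring
        _ ≤ _ := by gcongr; norm_num
    · simp

open MeasureTheory in
/-- The symbol is isotropic outside a sparse set of frequencies. -/
theorem sig_sparse_vol {R : ℝ} (hR : 0 < R) : volume {ξ : R3 | ‖ξ‖ ≤ R ∧ 1 ≤ ∑ i, ξ i ^ 2 ∧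
    sig G ξ ≠ fun i j => if i = j then G.Cb * (∑ l, ξ l ^ 2) ^ G.α else 0} ≤
      ENNReal.ofReal (R ^ 3 / G.t) := by
  obtain ⟨J, hJ⟩ := SymbD_J (G := G) (4 * R)
  have hp := Real.pi_pos
  obtain ⟨B, hB⟩ : ∃ B : ℕ → Fam × Gp → Set R3, B = fun j x =>
      Metric.closedBall (Sz.fq (pt G (at' j x.1) x.2 0)) (4 * Real.pi * G.n (j + 1)) := ⟨_, rfl⟩
  obtain ⟨S, hS⟩ : ∃ S : ℕ → Set R3, S = fun j => if (G.P j : ℝ) ≤ 4 * R then
      ⋃ x ∈ fam0 G ×ˢ (Finset.univ : Finset Gp), B j x else ∅ := ⟨_, rfl⟩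
  refine le_trans ?_ (ENNReal.ofReal_le_ofReal (SymbD_sum J hR.le))
  refine (measure_mono (t := ⋃ j ∈ Finset.range J, S j) ?_).trans
    ((measure_biUnion_finset_le _ _).trans ?_)
  · rintro ξ ⟨h1, h2, h3⟩
    obtain ⟨j, F, hF, g, a, b⟩ := SymbD_cover (G := G) (ξ := ξ) fun e => h3 (by
      refine e.trans ?_
      funext i j
      rw [hq, psi_one _ h2])
    have d : (G.P j : ℝ) ≤ 4 * R := by
      have := Real.pi_gt_three
      have := symbB_P_pos (G := G) j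
      unfold Geo.lam at a
      nlinarith
    simp only [mem_iUnion]
    refine ⟨j, Finset.mem_range.2 (hJ j d), ?_⟩
    simp only [hS, if_pos d, mem_iUnion]
    refine ⟨(F, g), Finset.mem_product.2 ⟨hF, Finset.mem_univ _⟩, ?_⟩
    simp only [hB]
    rw [mem_closedBall_iff_norm]
    refine (pi_norm_le_iff_of_nonneg (by positivity)).2 fun m => ?_
    have e : (ξ - Sz.fq (pt G (at' j F) g 0)) m =
        ((g.2 : ℤ) : ℝ) * (2 * Real.pi * ofs G (at' j F) g ξ (m - g.1)) := by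
      rw [Pi.sub_apply, symbB_xi (G := G) (at' j F) g ξ m]
      simp only [Sz.fq, pt, gz, add_zero]
      push_cast
      ring
    have e2 : |((g.2 : ℤ) : ℝ)| = 1 := by rcases symbB_sign g with h | h <;> simp [h]
    rw [e, Real.norm_eq_abs, abs_mul, e2, one_mul, abs_mul, abs_of_pos (by positivity)]
    linarith only [mul_le_mul_of_nonneg_left (b (m - g.1)) (by positivity : 0 ≤ 2 * Real.pi)]
  · rw [ENNReal.ofReal_sum_of_nonneg fun j _ => by have := G.L_pos; split_ifs <;> positivity]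
    refine Finset.sum_le_sum fun j _ => ?_
    simp only [hS]
    split_ifs
    · refine (measure_biUnion_finset_le _ _).trans ?_
      have a : ∀ x, volume (B j x) = ENNReal.ofReal ((2 * (4 * Real.pi * G.n (j + 1))) ^ 3) :=
        fun x => by
          simp only [hB]
          rw [Real.volume_pi_closedBall _ (by positivity), Fintype.card_fin]
      simp only [a]
      rw [← ENNReal.ofReal_sum_of_nonneg fun _ _ => by positivity, Finset.sum_const, nsmul_eq_mul]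
      refine ENNReal.ofReal_le_ofReal ?_
      have := G.L_pos
      have := Real.pi_le_four
      calc _ ≤ 12 * G.L * (2 * (4 * 4 * (G.n (j + 1) : ℝ))) ^ 3 := by gcongr; exact SymbD_card
        _ = 393216 * G.L * (G.n (j + 1) : ℝ) ^ 3 := by ring
        _ ≤ _ := by gcongr; norm_num
    · simp

end

end Pool.Agent.Work.MP_6bf1e5_an.Hyp.Pd
end
end

-- merged part: Pool.Agent.Work.MP_6bf1e5_an.Hyp.Duh
section
/-!
The junk is small; continuity and decay.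
-/

open Set Complex
open scoped InnerProductSpace ComplexConjugate Classical
open Pool.Agent.Work.MP_6bf1e5_an.B
open Pool.Agent.Work.MP_6bf1e5_an.Hyp.Dec

namespace Pool.Agent.Work.MP_6bf1e5_an.Hyp.Pd

noncomputable section

attribute [local irreducible] Fam.S

variable {G : Geo} {α : ℝ → Z3 → E3}

/-- The equation of the junk. -/
lemma hd_jnk (H : RSol G α) (k : Z3) {t : ℝ} (ht : 0 ≤ t) (hX : (rawOf G α).X t = 0) :
    ∃ s, ‖s‖ ≤ ‖BR (α t) (α t) k‖ ∧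
      HD (fun t => jnk G (α t) k) (s - sc G k • jnk G (α t) k) t := by
  have h1 := H.deriv k t ht
  rw [norm_le_zero_iff.1 (((H.sm t ht).le_tsum k fun _ _ => norm_nonneg _).trans_eq hX),
    add_zero] at h1
  have h2 : HD (fun t => Pj G k (α t k)) (Pj G k (rhs G (α t) k)) t :=
    ((innerSL ℝ (lp (xi k) (vec G k))).hasFDerivAt.comp_hasDerivWithinAt t h1).smul_const _
  refine ⟨lp (xi k) (BR (α t) (α t) k) - Pj G k (lp (xi k) (BR (α t) (α t) k)),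
    (norm_sub_Pj_le _ _ _).trans (norm_lp_le _ _), ?_⟩
  have h3 := h1.sub h2
  refine Eq.subst (motive := fun z => HD (fun t => jnk G (α t) k) z t) ?_ h3
  simp only [rhs, AR, jnk, act, Pj_sub, Pj_smul, Pj_Pj, smul_sub]
  abel

lemma Duh_gen {E : Type} [NormedAddCommGroup E] [NormedSpace ℝ E] {W W' : ℝ → E}
    {t0 t1 A a C : ℝ} (h1 : t0 ≤ t1) (hC : 0 < C) (hc : ContinuousOn W (Icc t0 t1))
    (hd : ∀ τ ∈ Ico t0 t1, HasDerivWithinAt W (W' τ) (Ici τ) τ)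
    (hb : ∀ τ ∈ Ico t0 t1, ‖W' τ‖ ≤ A * (a + 1 / (C * √((t1 - τ) / C)))) :
    ‖W t1‖ ≤ ‖W t0‖ + A * (a * (t1 - t0) + 2 * √((t1 - t0) / C)) := by
  have := image_norm_le_of_norm_deriv_right_le_deriv_boundary' hc hd
    (B := fun τ => ‖W t0‖ + A * (a * (τ - t0) + 2 * (√((t1 - t0) / C) - √((t1 - τ) / C))))
    (B' := fun τ => A * (a + 1 / (C * √((t1 - τ) / C)))) (by simp) (by fun_prop) (fun τ hτ => by
      have p : 0 < (t1 - τ) / C := div_pos (sub_pos.mpr hτ.2) hC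
      have d1 : HasDerivAt (fun τ => (t1 - τ) / C) (-1 / C) τ :=
        ((hasDerivAt_id τ).const_sub t1).div_const C
      have d2 := ((((((hasDerivAt_id τ).sub_const t0).const_mul a).add
        (((d1.sqrt p.ne').const_sub (√((t1 - t0) / C))).const_mul 2))).const_mul A).const_add
        ‖W t0‖
      have q := Real.sqrt_pos.mpr p
      refine Eq.subst (motive := fun z => HasDerivWithinAt _ z (Ici τ) τ) ?_ d2.hasDerivWithinAt
      field_simp) hb ⟨h1, le_rfl⟩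
  simpa using this

lemma Duh_exp {x σ u C : ℝ} (hC : 0 < C) (hu : 0 < u) (hσ : C * x ^ 2 ≤ σ) :
    x * Real.exp (-(σ * u)) ≤ 1 / (C * √(u / C)) := by
  have q := Real.sqrt_pos.mpr (div_pos hu hC)
  have e : (x * (C * √(u / C))) ^ 2 = C * x ^ 2 * u := by
    rw [mul_pow, mul_pow, Real.sq_sqrt (div_pos hu hC).le]; field_simp
  rw [le_div_iff₀ (by positivity), mul_right_comm, Real.exp_neg, mul_inv_le_iff₀ (Real.exp_pos _),
    one_mul]
  have h1 := Real.add_one_le_exp (σ * u)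
  have h2 := mul_le_mul_of_nonneg_right hσ hu.le
  nlinarith only [e, h1, h2, sq_nonneg (x * (C * √(u / C)) - 1)]

lemma Duh_sc_nonneg (k : Z3) : 0 ≤ sc G k :=
  le_trans (mul_nonneg (C_pos G).le (Real.rpow_nonneg (sq_nonneg _) _)) (sc_ge k)

lemma Duh_exp_le_one (k : Z3) {u : ℝ} (hu : 0 ≤ u) : Real.exp (-(sc G k * u)) ≤ 1 :=
  Real.exp_le_one_iff.mpr (neg_nonpos.mpr (mul_nonneg (Duh_sc_nonneg k) hu))

/-- The effective viscosity at the frequencies of level `J`. -/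
def CJ (G : Geo) (J : ℕ) : ℝ := G.C * (G.ε0 * (G.lm J / G.lam J ^ 2))

lemma Duh_ε0 : 0 < G.ε0 := Real.exp_pos _

lemma CJ_pos (J : ℕ) : 0 < CJ G J :=
  mul_pos (C_pos G) (mul_pos Duh_ε0 (div_pos (G.lm_pos J) (pow_pos (G.lam_pos J) _)))

lemma Duh_ε0_t : G.ε0 * G.t ≤ 1 / 16 := by
  have h1 := one_le_t G
  have h2 : 16 ≤ G.t := le_trans (by norm_num) (t_big G)
  have h3 : 1 ≤ G.Ga ^ 2 := one_le_pow₀ (one_le_Ga G)
  have h4 := Real.add_one_le_exp (G.t ^ 3 * G.Ga ^ 2)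
  have h5 : G.t ^ 2 ≤ G.t ^ 3 := G.pow_le (by norm_num)
  rw [Geo.ε0, Real.exp_neg, inv_mul_le_iff₀ (Real.exp_pos _)]
  nlinarith only [h2, h3, h4, h5]

lemma Duh_key (J : ℕ) (k : Z3) {u : ℝ} (hu : 0 < u) : ax k * Real.exp (-(sc G k * u)) ≤
    G.ε0 ^ 2 * G.lam J + 1 / (CJ G J * √(u / CJ G J)) := by
  have c0 := CJ_pos (G := G) J
  have e0 := Duh_ε0 (G := G)
  have l0 := G.lam_pos J
  by_cases c : ax k ≤ G.ε0 ^ 2 * G.lam J
  · refine ((mul_le_of_le_one_right (ax_nonneg k) (Duh_exp_le_one k hu.le)).trans c).trans ?_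
    exact le_add_of_nonneg_right (by positivity)
  refine (Duh_exp c0 hu (le_trans ?_ (sc_ge k))).trans (le_add_of_nonneg_left (by positivity))
  have x0 : 0 < ax k := lt_trans (by positivity) (not_le.1 c)
  have e1 : G.ε0 ≤ 1 := by nlinarith only [Duh_ε0_t (G := G), one_le_t G]
  have a1 := G.α_lo
  have a2 := G.α_hi
  have h1 : G.ε0 ≤ (G.ε0 ^ 4) ^ (G.α - 1) := by
    rw [← Real.rpow_natCast, ← Real.rpow_mul e0.le]
    calc G.ε0 = G.ε0 ^ (1 : ℝ) := (Real.rpow_one _).symm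
      _ ≤ _ := Real.rpow_le_rpow_of_exponent_ge e0 e1 (by push_cast; linarith only [a2])
  have h2 : G.lm J / G.lam J ^ 2 = (G.lam J ^ 2) ^ (G.α - 1) := by
    rw [Real.rpow_sub_one (by positivity), ← Real.rpow_two, ← Real.rpow_mul l0.le]
    rfl
  have h3 : G.ε0 ^ 4 * G.lam J ^ 2 ≤ ax k ^ 2 := by
    have := pow_le_pow_left₀ (by positivity) (not_le.1 c).le 2
    linarith only [this]
  have h4 : G.ε0 * (G.lm J / G.lam J ^ 2) ≤ (ax k ^ 2) ^ (G.α - 1) := by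
    refine le_trans ?_ (Real.rpow_le_rpow (by positivity) h3 (by linarith only [a1]))
    rw [Real.mul_rpow (by positivity) (by positivity), h2]
    exact mul_le_mul_of_nonneg_right h1 (by positivity)
  rw [Real.rpow_sub_one (by positivity), le_div_iff₀ (by positivity)] at h4
  rw [CJ, mul_assoc]
  exact mul_le_mul_of_nonneg_left h4 (C_pos G).le

lemma Duh_num (J : ℕ) {u : ℝ} (hu : u ≤ G.Δ J) :
    G.ε0 ^ 2 * G.lam J * u + 2 * √(u / CJ G J) ≤ G.ε0 / G.am J := by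
  have e0 := Duh_ε0 (G := G)
  have l0 := G.lam_pos J
  have a0 := G.am_pos J
  have t0 := G.t_pos
  have c0 := C_pos G
  have h := Duh_ε0_t (G := G)
  have e : G.C * G.ε0 ^ 4 = 1 := by
    rw [Geo.C, Geo.ε0, ← Real.exp_nat_mul, ← Real.exp_add]
    simp
  have h1 : G.ε0 ^ 2 * G.lam J * u ≤ G.ε0 / G.am J * (1 / 16) :=
    calc _ ≤ G.ε0 ^ 2 * G.lam J * G.Δ J := by gcongr
      _ = G.ε0 / G.am J * (G.ε0 * G.t) := by rw [Geo.Δ, ← G.lam_mul_am]; field_simp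
      _ ≤ _ := by gcongr
  have h2 : √(u / CJ G J) ≤ G.ε0 / G.am J * (1 / 4) := by
    refine Real.sqrt_le_iff.2 ⟨by positivity, ?_⟩
    calc _ ≤ G.Δ J / CJ G J := div_le_div_of_nonneg_right hu (CJ_pos J).le
      _ = (G.ε0 / G.am J) ^ 2 * (G.ε0 * G.t) / (G.C * G.ε0 ^ 4) := by
          rw [Geo.Δ, CJ, ← G.lam_mul_am]; field_simp
      _ ≤ (G.ε0 / G.am J) ^ 2 * (1 / 16) := by rw [e, div_one]; gcongr
      _ = _ := by ring
  have h3 : 0 < G.ε0 / G.am J := by positivity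
  linarith only [h1, h2, h3]

lemma Duh_pi (H : RSol G α) (p : ENNReal) [Fact (1 ≤ p)] (K : Finset Z3) (ω : Z3 → ℝ) (J : ℕ)
    {t0 t1 A : ℝ} (h0 : 0 ≤ t0) (h1 : t0 ≤ t1) (hJ : t1 ≤ t0 + G.Δ J) (A0 : 0 ≤ A)
    (hX : ∀ s ∈ Icc t0 t1, (rawOf G α).X s = 0)
    (hb : ∀ τ ∈ Ico t0 t1, ∀ s : Z3 → E3, (∀ k, ‖s k‖ ≤ ‖BR (α τ) (α τ) k‖) → ∀ b, 0 ≤ b →
      (∀ k, ax k * Real.exp (-(sc G k * (t1 - τ))) ≤ b) →
      ‖(WithLp.toLp p fun k : K => (ω k * Real.exp (-(sc G k * (t1 - τ)))) • s k :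
        PiLp p fun _ : K => E3)‖ ≤ A * b) :
    ‖(WithLp.toLp p fun k : K => ω k • jnk G (α t1) k : PiLp p fun _ : K => E3)‖ ≤
      ‖(WithLp.toLp p fun k : K => (ω k * Real.exp (-(sc G k * (t1 - t0)))) • jnk G (α t0) k :
        PiLp p fun _ : K => E3)‖ + G.ε0 * (A / G.am J) := by
  choose! s hs using fun k t (ht : t ∈ Icc t0 t1) => hd_jnk H k (h0.trans ht.1) (hX t ht)
  have hd : ∀ τ ∈ Icc t0 t1, HD (fun τ => (WithLp.toLp p fun k : K =>
      (ω k * Real.exp (-(sc G k * (t1 - τ)))) • jnk G (α τ) k : PiLp p fun _ : K => E3))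
      (WithLp.toLp p fun k : K => (ω k * Real.exp (-(sc G k * (t1 - τ)))) • s k τ) τ := by
    intro τ hτ
    refine (PiLp.continuousLinearEquiv p ℝ fun _ : K => E3).symm.hasFDerivAt.comp_hasDerivWithinAt
      τ (hasDerivWithinAt_pi.mpr fun k => ?_)
    have d1 : HasDerivAt (fun τ => ω k * Real.exp (-(sc G k * (t1 - τ))))
        (ω k * (Real.exp (-(sc G k * (t1 - τ))) * -(sc G k * -1))) τ :=
      ((((hasDerivAt_id τ).const_sub t1).const_mul (sc G k)).neg.exp).const_mul (ω k)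
    have d2 := d1.hasDerivWithinAt.smul (hs k τ hτ).2
    refine Eq.subst (motive := fun z => HasDerivWithinAt _ z (Ici 0) τ) ?_ d2
    module
  have := Duh_gen (A := A) (a := G.ε0 ^ 2 * G.lam J) h1 (CJ_pos J)
    (contOn_of_HD h0 fun τ hτ => ⟨_, hd τ hτ⟩)
    (fun τ hτ => (hd τ (Ico_subset_Icc_self hτ)).right (h0.trans hτ.1))
    (fun τ hτ => hb τ hτ (fun k => s k τ) (fun k => (hs k τ (Ico_subset_Icc_self hτ)).1) _
      ((mul_nonneg (ax_nonneg 0) (Real.exp_pos _).le).trans (Duh_key J 0 (sub_pos.mpr hτ.2)))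
      fun k => Duh_key J k (sub_pos.mpr hτ.2))
  simp only [sub_self, mul_zero, neg_zero, Real.exp_zero, mul_one] at this
  refine this.trans (add_le_add le_rfl ((mul_le_mul_of_nonneg_left
    (Duh_num J (by linarith only [hJ])) A0).trans (le_of_eq ?_)))
  ring

theorem duh_F (H : RSol G α) (J : ℕ) {t0 t1 U0 : ℝ} (h0 : 0 ≤ t0) (h1 : t0 ≤ t1)
    (hJ : t1 ≤ t0 + G.Δ J) (hX : ∀ s ∈ Icc t0 t1, (rawOf G α).X s = 0)
    (hU : ∀ s ∈ Icc t0 t1, (rawOf G α).U s ≤ U0) :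
    (rawOf G α).Fj t1 ≤ (rawOf G α).Fj t0 + G.ε0 * (U0 ^ 2 / G.am J) := by
  refine (L1.tsum_le (fun _ => norm_nonneg _) fun K => ?_).2
  have h2 := Duh_pi H 1 K (fun _ => 1) J (A := U0 ^ 2) h0 h1 hJ (sq_nonneg _) hX
      fun τ hτ s hs b b0 hb => by
    have a := H.adm τ (h0.trans hτ.1)
    have u0 : 0 ≤ ∑' k, ‖α τ k‖ := tsum_nonneg fun _ => norm_nonneg _
    have u1 : ∑' k, ‖α τ k‖ ≤ U0 := hU τ ⟨hτ.1, hτ.2.le⟩
    rw [PiLp.norm_eq_of_L1]
    calc _ ≤ ∑ k : K, b * ∑' p, ‖α τ p‖ * ‖α τ (k - p)‖ := by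
          refine Finset.sum_le_sum fun k _ => ?_
          simp only [one_mul, norm_smul, Real.norm_of_nonneg (Real.exp_pos _).le]
          refine (mul_le_mul_of_nonneg_left ((hs k).trans (norm_BR_le a k))
            (Real.exp_pos _).le).trans ?_
          rw [← mul_assoc, mul_comm (Real.exp _)]
          exact mul_le_mul_of_nonneg_right (hb _) (tsum_nonneg fun _ => by positivity)
      _ = b * ∑ k ∈ K, ∑' p, ‖α τ p‖ * ‖α τ (k - p)‖ := by
          rw [← Finset.mul_sum, Finset.sum_coe_sort K fun k => ∑' p, ‖α τ p‖ * ‖α τ (k - p)‖]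
      _ ≤ b * U0 ^ 2 := by
          gcongr
          exact (L1_conv a.rapid K).trans (by gcongr)
      _ = _ := by ring
  rw [PiLp.norm_eq_of_L1, PiLp.norm_eq_of_L1] at h2
  simp only [one_smul, one_mul] at h2
  rw [Finset.sum_coe_sort K fun k => ‖jnk G (α t1) k‖] at h2
  refine h2.trans (add_le_add ?_ le_rfl)
  obtain ⟨M, hM⟩ := (adm_jnk (G := G) (H.adm t0 h0)).rapid 0
  refine le_trans ?_ (L1_tsum (fun _ => norm_nonneg _) hM.summable_norm K)
  rw [← Finset.sum_coe_sort K fun k => ‖jnk G (α t0) k‖]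
  refine Finset.sum_le_sum fun k _ => ?_
  rw [norm_smul, Real.norm_of_nonneg (Real.exp_pos _).le]
  exact mul_le_of_le_one_left (norm_nonneg _) (Duh_exp_le_one _ (sub_nonneg.mpr h1))

theorem duh_H (H : RSol G α) (J : ℕ) {t0 t1 U0 H0 : ℝ} (h0 : 0 ≤ t0) (h1 : t0 ≤ t1)
    (hJ : t1 ≤ t0 + G.Δ J) (hX : ∀ s ∈ Icc t0 t1, (rawOf G α).X s = 0)
    (hU : ∀ s ∈ Icc t0 t1, (rawOf G α).U s ≤ U0) (hH : ∀ s ∈ Icc t0 t1, (rawOf G α).H s ≤ H0) :
    (rawOf G α).Hj t1 ≤ (rawOf G α).Hj t0 + G.ε0 * (U0 * H0 / G.am J) := by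
  have U00 : 0 ≤ U0 := le_trans (tsum_nonneg fun _ => norm_nonneg _) (hU t0 ⟨le_rfl, h1⟩)
  have H00 : 0 ≤ H0 := le_trans (Real.sqrt_nonneg _) (hH t0 ⟨le_rfl, h1⟩)
  have J0 : 0 ≤ (rawOf G α).Hj t0 := Real.sqrt_nonneg _
  have e0 := Duh_ε0 (G := G)
  have a0 := G.am_pos J
  refine (L2.tsum_le ⟨by positivity, fun K => ?_⟩).2
  have h2 := Duh_pi H 2 K ax J (A := U0 * H0) h0 h1 hJ (by positivity) hX
      fun τ hτ s hs b b0 hb => by
    have a := H.adm τ (h0.trans hτ.1)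
    have u1 : ∑' k, ‖α τ k‖ ≤ U0 := hU τ ⟨hτ.1, hτ.2.le⟩
    have u2 : √(∑' k, (ax k * ‖α τ k‖) ^ 2) ≤ H0 := hH τ ⟨hτ.1, hτ.2.le⟩
    have u3 := (L2_BR a.rapid a.rapid).mono (mul_le_mul u1 u2 (Real.sqrt_nonneg _) U00)
    rw [PiLp.norm_eq_of_L2]
    refine Real.sqrt_le_iff.mpr ⟨by positivity, ?_⟩
    calc _ ≤ ∑ k : K, b ^ 2 * ‖BR (α τ) (α τ) k‖ ^ 2 := by
          refine Finset.sum_le_sum fun k _ => ?_
          rw [← mul_pow]
          refine pow_le_pow_left₀ (norm_nonneg _) ?_ 2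
          simp only [norm_smul]
          rw [Real.norm_of_nonneg (mul_nonneg (ax_nonneg _) (Real.exp_pos _).le)]
          exact mul_le_mul (hb _) (hs k) (norm_nonneg _) b0
      _ = b ^ 2 * ∑ k ∈ K, ‖BR (α τ) (α τ) k‖ ^ 2 := by
          rw [← Finset.mul_sum, Finset.sum_coe_sort K fun k => ‖BR (α τ) (α τ) k‖ ^ 2]
      _ ≤ b ^ 2 * (U0 * H0) ^ 2 := by
          gcongr
          exact u3.2 K
      _ = _ := by ring
  rw [PiLp.norm_eq_of_L2, PiLp.norm_eq_of_L2] at h2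
  have e1 : ∑ k : K, ‖ax k • jnk G (α t1) k‖ ^ 2 = ∑ k ∈ K, (ax k * ‖jnk G (α t1) k‖) ^ 2 := by
    rw [← Finset.sum_coe_sort K fun k => (ax k * ‖jnk G (α t1) k‖) ^ 2]
    exact Finset.sum_congr rfl fun k _ => by rw [norm_smul, Real.norm_of_nonneg (ax_nonneg _)]
  have e2 : √(∑ k : K, ‖(ax k * Real.exp (-(sc G k * (t1 - t0)))) • jnk G (α t0) k‖ ^ 2) ≤
      (rawOf G α).Hj t0 := by
    refine Real.sqrt_le_iff.mpr ⟨J0, le_trans ?_
      ((L2_tsum (summable_sq_ax (adm_jnk (G := G) (H.adm t0 h0)).rapid)).2 K)⟩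
    rw [← Finset.sum_coe_sort K fun k => (ax k * ‖jnk G (α t0) k‖) ^ 2]
    refine Finset.sum_le_sum fun k _ => pow_le_pow_left₀ (norm_nonneg _) ?_ 2
    rw [norm_smul, Real.norm_of_nonneg (mul_nonneg (ax_nonneg _) (Real.exp_pos _).le)]
    exact mul_le_mul_of_nonneg_right (mul_le_of_le_one_right (ax_nonneg _)
      (Duh_exp_le_one _ (sub_nonneg.mpr h1))) (norm_nonneg _)
  simp only [e1] at h2
  exact (Real.sqrt_le_iff.mp (h2.trans (add_le_add e2 le_rfl))).2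

lemma Duh_cont {f : ℝ → ℝ} (h : ∀ T, ContinuousOn f (Icc 0 T)) : ContinuousOn f (Ici 0) :=
  fun x hx => (h (x + 1) x ⟨hx, by linarith⟩).mono_of_mem_nhdsWithin
    (inter_mem_nhdsWithin (Ici 0) (Iic_mem_nhds (lt_add_one x)))

lemma Duh_cont_mode (H : RSol G α) (k : Z3) (T : ℝ) : ContinuousOn (fun t => α t k) (Icc 0 T) :=
  contOn_of_HD le_rfl fun t ht => ⟨_, H.deriv k t ht.1⟩

theorem contU (H : RSol G α) : ContinuousOn (rawOf G α).U (Ici 0) := by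
  refine Duh_cont fun T => ?_
  obtain ⟨M, hM⟩ := H.bd 4 T
  refine continuousOn_tsum (fun k => (Duh_cont_mode H k T).norm) (summable_w_inv.mul_left M)
    fun k t ht => ?_
  rw [norm_norm, ← div_eq_mul_inv, le_div_iff₀ (pow_pos (w_pos k) 4), mul_comm]
  exact (hM t ht).pt k

theorem contH (H : RSol G α) : ContinuousOn (rawOf G α).H (Ici 0) := by
  refine Duh_cont fun T => ContinuousOn.sqrt ?_
  obtain ⟨M, hM⟩ := H.bd 3 T
  refine continuousOn_tsum (fun k => (continuousOn_const.mul (Duh_cont_mode H k T).norm).pow 2)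
    (summable_w_inv.mul_left (M ^ 2)) fun k t ht => ?_
  rw [Real.norm_of_nonneg (sq_nonneg _), ← div_eq_mul_inv, le_div_iff₀ (pow_pos (w_pos k) 4)]
  have h1 := (hM t ht).pt k
  have h2 := w_pos k
  have h3 := ax_nonneg k
  have h4 := ax_le_w k
  calc (ax k * ‖α t k‖) ^ 2 * w k ^ 4 ≤ (w k * ‖α t k‖) ^ 2 * w k ^ 4 := by gcongr
    _ = (w k ^ 3 * ‖α t k‖) ^ 2 := by ring
    _ ≤ _ := by gcongr

lemma Duh_mk {S : Finset Z3} {φ : Z3 → Z3} (inj : Function.Injective φ) {c : Z3 → ℝ}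
    {β : Z3 → E3} {l E M : ℝ} {s : ℕ} (l0 : 0 ≤ l) (E0 : 0 ≤ E)
    (hc : ∀ h ∈ S, |c h| ≤ E * ‖β (φ h)‖) (hl : ∀ h ∈ S, l / 2 ≤ ax (φ h)) (hB : Bd s β M) :
    l ^ s * ‖mk S fun h => (c h : ℂ)‖ ≤ 2 ^ s * E * M := by
  have h1 := hB (S.image φ)
  rw [Finset.sum_image fun a _ b _ h => inj h] at h1
  refine (mul_le_mul_of_nonneg_left (norm_le_l1 _) (by positivity)).trans
    (le_trans ?_ (mul_le_mul_of_nonneg_left h1 (by positivity)))
  rw [l1_eq (support_mk _ _), Finset.mul_sum, Finset.mul_sum]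
  refine Finset.sum_le_sum fun h hh => ?_
  rw [coeff_mk, if_pos hh, Complex.norm_real, Real.norm_eq_abs]
  have a : l ≤ 2 * w (φ h) := by linarith [hl h hh, ax_le_w (φ h)]
  calc l ^ s * |c h| ≤ (2 * w (φ h)) ^ s * (E * ‖β (φ h)‖) :=
        mul_le_mul (pow_le_pow_left₀ l0 a s) (hc h hh) (abs_nonneg _) (pow_nonneg (l0.trans a) s)
    _ = _ := by rw [mul_pow]; ring

lemma Duh_inner (F : Fam) (x : E3) : |⟪F.e G, x⟫_ℝ| ≤ G.t ^ 11 * ‖x‖ :=
  (abs_real_inner_le_norm _ _).trans (mul_le_mul_of_nonneg_right (norm_e_hi G F) (norm_nonneg _))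

lemma Duh_tooth {F : Fam} {x : Z3} (hx : x ∈ F.cens G) (o : Fin 4) {β : Z3 → E3} {l M : ℝ}
    {s : ℕ} (l0 : 0 ≤ l) (hl : ∀ h ∈ F.S G, l / 2 ≤ ax (F.ctr G + h)) (hB : Bd s β M) :
    l ^ s * ‖tooth G F x (G.om o) β‖ ≤ 2 ^ s * G.t ^ 11 * M := by
  refine Duh_mk (φ := fun h => F.ctr G + (x + h)) (fun a b h => by simpa using h) l0
    (pow_nonneg (t_pos G).le _) (fun h _ => ?_)
    (fun h hh => hl _ (mem_S.mpr ⟨x, hx, by simpa using hh⟩)) hB
  have h1 := (om_bounds G o).1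
  rw [abs_mul, abs_of_nonneg (inv_nonneg.mpr (by linarith))]
  exact (mul_le_of_le_one_left (abs_nonneg _) (inv_le_one_of_one_le₀ h1)).trans (Duh_inner F _)

lemma Duh_sqrt {ι : Type} (S : Finset ι) {f g : ι → ℝ} (g0 : ∀ i ∈ S, 0 ≤ g i)
    (h : ∀ i ∈ S, f i ≤ g i ^ 2) : √(∑ i ∈ S, f i) ≤ ∑ i ∈ S, g i :=
  Real.sqrt_le_iff.mpr ⟨Finset.sum_nonneg g0,
    (Finset.sum_le_sum h).trans (Finset.sum_sq_le_sq_sum_of_nonneg g0)⟩

theorem decay (H : RSol G α) (s : ℕ) (tb : ℝ) : ∃ K, ∀ j, ∀ t ∈ Icc 0 tb,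
    G.lam j ^ s * ((rawOf G α).lev j t + (rawOf G α).ch G j t) ≤ K := by
  obtain ⟨M, hM⟩ := H.bd s tb
  refine ⟨(8 + G.La) * (2 ^ s * G.t ^ 11 * M), fun j t ht => ?_⟩
  have hB := hM t ht
  have l0 : 0 ≤ G.lam j := zero_le_one.trans (lam_pos G j)
  have X0 : 0 ≤ 2 ^ s * G.t ^ 11 * M := by
    have := hB.nonneg
    have := t_pos G
    positivity
  have hb : ∀ o, G.lam j ^ s * ‖(rawOf G α).b j o t‖ ≤ 2 ^ s * G.t ^ 11 * M := fun o =>
    Duh_tooth (F := .b j) (mem_cens_b.mpr ⟨o, rfl⟩) o l0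
      (fun h hh => ax_lo (F := .b j) trivial hh) hB
  have hc : ∀ o, G.lam j ^ s * ‖(rawOf G α).c j o t‖ ≤ 2 ^ s * G.t ^ 11 * M := fun o => by
    cases j with
    | zero => simpa [rawOf] using X0
    | succ j => exact Duh_tooth (F := .c j) (mem_cens_c.mpr ⟨o, rfl⟩) o l0 (fun h hh => ax_c hh) hB
  have hy : ∀ i ∈ Finset.Icc 1 G.La,
      G.lam j ^ s * ‖(rawOf G α).y j i t‖ ≤ 2 ^ s * G.t ^ 11 * M := fun i hi => by
    rw [Finset.mem_Icc] at hi
    have e : (rawOf G α).y j i t = env G (.y j i) (α t) := by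
      simp only [rawOf, if_neg (by omega : ¬i = 0), if_pos hi.2]
    rw [e]
    exact Duh_mk (φ := fun h => (Fam.y j i).ctr G + h) (fun a b h => by simpa using h) l0
      (pow_nonneg (t_pos G).le _) (fun h _ => Duh_inner _ _)
      (fun h hh => ax_lo (F := .y j i) hi hh) hB
  have a1 : (rawOf G α).lev j t ≤ ∑ o, (‖(rawOf G α).b j o t‖ + ‖(rawOf G α).c j o t‖) :=
    Duh_sqrt _ (fun _ _ => by positivity) fun o _ => by
      linarith [mul_nonneg (norm_nonneg ((rawOf G α).b j o t)) (norm_nonneg ((rawOf G α).c j o t))]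
  have a2 : (rawOf G α).ch G j t ≤ ∑ i ∈ Finset.Icc 1 G.La, ‖(rawOf G α).y j i t‖ :=
    Duh_sqrt _ (fun _ _ => norm_nonneg _) fun _ _ => le_rfl
  have b1 := Finset.sum_le_card_nsmul Finset.univ _ _ fun o _ => add_le_add (hb o) (hc o)
  have b2 := Finset.sum_le_card_nsmul _ _ _ hy
  simp only [← mul_add, ← Finset.mul_sum, Finset.card_univ, Fintype.card_fin, nsmul_eq_mul,
    Nat.card_Icc, Nat.add_sub_cancel, Nat.cast_ofNat] at b1 b2
  have c1 := mul_le_mul_of_nonneg_left a1 (pow_nonneg l0 s)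
  have c2 := mul_le_mul_of_nonneg_left a2 (pow_nonneg l0 s)
  rw [mul_add]
  linarith

end

end Pool.Agent.Work.MP_6bf1e5_an.Hyp.Pd
end
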