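import Pool.Agent.Work.MP_6bf1e5_an.B.Defs

-- merged part: Pool.Agent.Work.MP_6bf1e5_an.B.Lattice
section
/-!
Frequencies, weights and lattice sums.
-/

open Set

namespace Pool.Agent.Work.MP_6bf1e5_an.B

noncomputable section

/-- The real vector `2 π k`. -/
def xi (k : Z3) : EuclideanSpace ℝ (Fin 3) := WithLp.toLp 2 fun j => 2 * Real.pi * (k j : ℝ)

lemma ax_eq_norm (k : Z3) : ax k = ‖xi k‖ := by
  rw [EuclideanSpace.norm_eq, ax]
  have h : ∑ j, ‖xi k j‖ ^ 2 = (2 * Real.pi) ^ 2 * ∑ j, (k j : ℝ) ^ 2 := by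
    rw [Finset.mul_sum]
    refine Finset.sum_congr rfl fun j _ => ?_
    simp only [xi, Real.norm_eq_abs, sq_abs]
    ring
  rw [h, Real.sqrt_mul (by positivity), Real.sqrt_sq (by positivity)]

lemma xi_add (p q : Z3) : xi (p + q) = xi p + xi q := by
  ext j; simp [xi]; ring

lemma xi_neg (p : Z3) : xi (-p) = -xi p := by
  ext j; simp [xi]

lemma ax_nonneg (k : Z3) : 0 ≤ ax k := by rw [ax_eq_norm]; exact norm_nonneg _

@[simp] lemma ax_zero : ax 0 = 0 := by simp [ax]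

@[simp] lemma ax_neg (k : Z3) : ax (-k) = ax k := by simp [ax]

lemma ax_add_le (p q : Z3) : ax (p + q) ≤ ax p + ax q := by
  simp only [ax_eq_norm, xi_add]; exact norm_add_le _ _

lemma ax_sq (k : Z3) : ax k ^ 2 = ∑ j, (2 * Real.pi * (k j : ℝ)) ^ 2 := by
  rw [ax_eq_norm, EuclideanSpace.norm_sq_eq]
  simp [xi, sq_abs, mul_pow]

lemma abs_xi_le (k : Z3) (j : Fin 3) : |2 * Real.pi * (k j : ℝ)| ≤ ax k := by
  rw [ax_eq_norm]
  have := PiLp.norm_apply_le (xi k) j
  simpa [xi] using this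

/-- The sup norm of a frequency. -/
def sn (k : Z3) : ℕ := Finset.univ.sup fun j => (k j).natAbs

lemma natAbs_le_sn (k : Z3) (j : Fin 3) : (k j).natAbs ≤ sn k :=
  Finset.le_sup (f := fun j => (k j).natAbs) (Finset.mem_univ j)

lemma sn_le_ax (k : Z3) : (sn k : ℝ) ≤ ax k := by
  obtain ⟨j, -, hj⟩ := Finset.exists_mem_eq_sup Finset.univ Finset.univ_nonempty
    (fun j => (k j).natAbs)
  have h1 := abs_xi_le k j
  have h2 : ((sn k : ℕ) : ℝ) = |(k j : ℝ)| := by
    rw [sn, hj]; simp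
  rw [h2]
  rw [abs_mul, abs_of_pos (by positivity : (0:ℝ) < 2 * Real.pi)] at h1
  nlinarith only [h1, Real.pi_gt_three, abs_nonneg (k j : ℝ)]

lemma ax_le_sn (k : Z3) : ax k ≤ 19 * sn k := by
  have h : ∀ j, |(k j : ℝ)| ≤ sn k := fun j => by
    have := natAbs_le_sn k j
    have h2 : (((k j).natAbs : ℕ) : ℝ) = |(k j : ℝ)| := by simp
    rw [← h2]; exact_mod_cast this
  have hs : ax k ^ 2 ≤ (19 * sn k) ^ 2 := by
    rw [ax_sq, Fin.sum_univ_three]
    have hp : Real.pi ^ 2 ≤ 10 := by nlinarith [Real.pi_lt_d2, Real.pi_pos]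
    have h0 : ∀ j, (k j : ℝ) ^ 2 ≤ (sn k : ℝ) ^ 2 := fun j => by
      rw [← sq_abs]; exact pow_le_pow_left₀ (abs_nonneg _) (h j) 2
    have e : ∀ j, (2 * Real.pi * (k j : ℝ)) ^ 2 ≤ 40 * (sn k : ℝ) ^ 2 := fun j => by
      have := h0 j
      calc (2 * Real.pi * (k j : ℝ)) ^ 2 = 4 * Real.pi ^ 2 * (k j : ℝ) ^ 2 := by ring
        _ ≤ 4 * 10 * (sn k : ℝ) ^ 2 := by gcongr
        _ = _ := by ring
    linarith [e 0, e 1, e 2, sq_nonneg (sn k : ℝ)]
  exact (pow_le_pow_iff_left₀ (ax_nonneg k) (by positivity) two_ne_zero).mp hs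

lemma sn_eq_zero {k : Z3} (h : sn k = 0) : k = 0 := by
  funext j
  have := natAbs_le_sn k j
  rw [h] at this
  simpa using this

lemma one_le_ax {k : Z3} (hk : k ≠ 0) : 1 ≤ ax k := by
  have h : 1 ≤ sn k := Nat.one_le_iff_ne_zero.mpr fun h => hk (sn_eq_zero h)
  have : (1 : ℝ) ≤ sn k := by exact_mod_cast h
  exact this.trans (sn_le_ax k)

lemma ax_pos {k : Z3} (hk : k ≠ 0) : 0 < ax k := lt_of_lt_of_le one_pos (one_le_ax hk)

/-- The box of radius `n`. -/
def box (n : ℕ) : Finset Z3 := Fintype.piFinset fun _ => Finset.Icc (-(n : ℤ)) n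

lemma mem_box {n : ℕ} {k : Z3} : k ∈ box n ↔ sn k ≤ n := by
  simp only [box, Fintype.mem_piFinset, Finset.mem_Icc, sn, Finset.sup_le_iff, Finset.mem_univ,
    true_imp_iff]
  refine forall_congr' fun j => ?_
  omega

lemma card_box (n : ℕ) : (box n).card = (2 * n + 1) ^ 3 := by
  simp only [box, Fintype.card_piFinset, Int.card_Icc, Finset.prod_const, Finset.card_univ,
    Fintype.card_fin]
  congr 1
  omega

lemma card_shell (s : Finset Z3) (n : ℕ) (hn : 1 ≤ n) :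
    ((s.filter fun k => sn k = n).card : ℝ) ≤ 26 * (n : ℝ) ^ 2 := by
  obtain ⟨m, rfl⟩ : ∃ m, n = m + 1 := ⟨n - 1, by omega⟩
  have hsub : (s.filter fun k => sn k = m + 1) ⊆ box (m + 1) \ box m := by
    intro k hk
    simp only [Finset.mem_filter] at hk
    simp only [Finset.mem_sdiff, mem_box]
    omega
  have h1 := Finset.card_le_card hsub
  have h2 : box m ⊆ box (m + 1) := fun k hk => by
    rw [mem_box] at hk ⊢; omega
  rw [Finset.card_sdiff_of_subset h2, card_box, card_box] at h1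
  have h3 : (2 * (m + 1) + 1) ^ 3 - (2 * m + 1) ^ 3 ≤ 26 * (m + 1) ^ 2 := by
    have : (2 * (m + 1) + 1) ^ 3 ≤ 26 * (m + 1) ^ 2 + (2 * m + 1) ^ 3 := by nlinarith
    omega
  have := h1.trans h3
  exact_mod_cast this

/-- Comparison of a lattice sum with a one-dimensional sum. -/
lemma lattice_sum_le (F : Z3 → ℝ) (f : ℕ → ℝ) (hF0 : F 0 = 0)
    (hf : ∀ n, 0 ≤ f n) (hle : ∀ k, k ≠ 0 → F k ≤ f (sn k)) (C : ℝ)
    (hC : ∀ s : Finset ℕ, (∀ n ∈ s, 1 ≤ n) → ∑ n ∈ s, (n : ℝ) ^ 2 * f n ≤ C)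
    (s : Finset Z3) : ∑ k ∈ s, F k ≤ 26 * C := by
  classical
  have h1 : ∑ k ∈ s, F k = ∑ k ∈ s.erase 0, F k := by
    by_cases h0 : (0 : Z3) ∈ s
    · rw [← Finset.add_sum_erase s F h0, hF0, zero_add]
    · rw [Finset.erase_eq_of_notMem h0]
  rw [h1]
  set t := s.erase 0
  have h2 : ∑ k ∈ t, F k ≤ ∑ k ∈ t, f (sn k) :=
    Finset.sum_le_sum fun k hk => hle k (Finset.ne_of_mem_erase hk)
  refine h2.trans ?_
  rw [Finset.sum_comp f sn]
  have hpos : ∀ n ∈ t.image sn, 1 ≤ n := by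
    intro n hn
    obtain ⟨k, hk, rfl⟩ := Finset.mem_image.mp hn
    exact Nat.one_le_iff_ne_zero.mpr fun h => Finset.ne_of_mem_erase hk (sn_eq_zero h)
  calc ∑ n ∈ t.image sn, (t.filter fun k => sn k = n).card • f n
      ≤ ∑ n ∈ t.image sn, 26 * ((n : ℝ) ^ 2 * f n) := by
        refine Finset.sum_le_sum fun n hn => ?_
        rw [nsmul_eq_mul, ← mul_assoc]
        exact mul_le_mul_of_nonneg_right (card_shell t n (hpos n hn)) (hf n)
    _ = 26 * ∑ n ∈ t.image sn, (n : ℝ) ^ 2 * f n := by rw [Finset.mul_sum]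
    _ ≤ 26 * C := by gcongr; exact hC _ hpos

lemma bernoulli_aux {δ : ℝ} (h0 : 0 ≤ δ) (h1 : δ ≤ 1) {n : ℝ} (hn : 1 ≤ n) :
    (n - 1) ^ δ ≤ n ^ δ - δ * n ^ (δ - 1) := by
  have hn0 : 0 < n := by linarith
  have hs : -1 ≤ -(1 / n) := by
    have : 1 / n ≤ 1 := by rw [div_le_one hn0]; exact hn
    linarith
  have hb := rpow_one_add_le_one_add_mul_self hs h0 h1
  have e1 : n - 1 = n * (1 + -(1 / n)) := by field_simp; ring
  have hnn : 0 ≤ 1 + -(1 / n) := by linarith only [hs]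
  rw [e1, Real.mul_rpow hn0.le hnn, Real.rpow_sub_one hn0.ne']
  have hp : 0 < n ^ δ := Real.rpow_pos_of_pos hn0 δ
  calc n ^ δ * (1 + -(1 / n)) ^ δ ≤ n ^ δ * (1 + δ * -(1 / n)) := by gcongr
    _ = n ^ δ - δ * (n ^ δ / n) := by ring

lemma sum_low {δ : ℝ} (h0 : 0 < δ) (h1 : δ ≤ 1) (N : ℕ) :
    ∑ n ∈ Finset.range N, ((n : ℝ) + 1) ^ (δ - 1) ≤ (N : ℝ) ^ δ / δ := by
  induction N with
  | zero => simp [Real.zero_rpow h0.ne']
  | succ N ih =>
    rw [Finset.sum_range_succ]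
    have := bernoulli_aux h0.le h1 (n := (N : ℝ) + 1) (by linarith [Nat.cast_nonneg (α := ℝ) N])
    rw [add_sub_cancel_right] at this
    push_cast
    rw [le_div_iff₀ h0] at ih ⊢
    linarith

lemma bernoulli_aux' {δ : ℝ} (h0 : 0 ≤ δ) (h1 : δ ≤ 1) {n : ℝ} (hn : 0 < n) :
    δ * (n + 1) ^ (-δ - 1) ≤ n ^ (-δ) - (n + 1) ^ (-δ) := by
  have hb := bernoulli_aux h0 h1 (n := n + 1) (by linarith)
  rw [add_sub_cancel_right] at hb
  have hn1 : 0 < n + 1 := by linarith
  have ha : 0 < n ^ δ := Real.rpow_pos_of_pos hn δ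
  have hc : 0 < (n + 1) ^ δ := Real.rpow_pos_of_pos hn1 δ
  have hac : n ^ δ ≤ (n + 1) ^ δ := Real.rpow_le_rpow hn.le (by linarith) h0
  rw [Real.rpow_sub_one hn1.ne'] at hb
  rw [Real.rpow_sub_one hn1.ne', Real.rpow_neg hn.le, Real.rpow_neg hn1.le]
  set a := n ^ δ
  set c := (n + 1) ^ δ
  have h2 : δ / (n + 1) * c ≤ c - a := by
    have : δ * (c / (n + 1)) = δ / (n + 1) * c := by ring
    linarith
  have h3 : a⁻¹ - c⁻¹ = (c - a) / (a * c) := by field_simp
  rw [h3, le_div_iff₀ (by positivity)]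
  have hd : 0 ≤ δ / (n + 1) := by positivity
  calc δ * (c⁻¹ / (n + 1)) * (a * c) = δ / (n + 1) * a := by field_simp
    _ ≤ δ / (n + 1) * c := by gcongr
    _ ≤ c - a := h2

lemma sum_high {δ : ℝ} (h0 : 0 < δ) (h1 : δ ≤ 1) {x : ℝ} (hx : 0 < x) (N : ℕ) :
    ∑ n ∈ Finset.range N, (x + n + 1) ^ (-δ - 1) ≤ (x ^ (-δ) - (x + N) ^ (-δ)) / δ := by
  induction N with
  | zero => simp
  | succ N ih =>
    rw [Finset.sum_range_succ]
    have := bernoulli_aux' h0.le h1 (n := x + N) (by positivity)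
    push_cast
    rw [le_div_iff₀ h0] at ih ⊢
    rw [← add_assoc]
    linarith

/-- One-dimensional sum, uniform in the scale `R`. -/
lemma sum_min_le {δ : ℝ} (h0 : 0 < δ) (h1 : δ ≤ 1) {R : ℝ} (hR : 0 < R) (s : Finset ℕ)
    (hs : ∀ n ∈ s, 1 ≤ n) :
    ∑ n ∈ s, (n : ℝ)⁻¹ * min (((n : ℝ) / R) ^ δ) ((R / n) ^ δ) ≤ 2 / δ + 1 := by
  classical
  set M := ⌊R⌋₊ with hM
  have hMR : (M : ℝ) ≤ R := Nat.floor_le hR.le
  have hRM : R < M + 1 := Nat.lt_floor_add_one R
  set g : ℕ → ℝ := fun n => (n : ℝ)⁻¹ * min (((n : ℝ) / R) ^ δ) ((R / n) ^ δ) with hg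
  have hg0 : ∀ n, 0 ≤ g n := fun n => by
    simp only [hg]
    exact mul_nonneg (by positivity) (le_min (by positivity) (by positivity))
  obtain ⟨N, hN⟩ : ∃ N : ℕ, ∀ n ∈ s, n < M + 2 + N := ⟨s.sup id, fun n hn => by
    have : n ≤ s.sup id := Finset.le_sup (f := id) hn
    omega⟩
  have hsub : s ⊆ ((Finset.range M).image (· + 1) ∪ {M + 1}) ∪
      (Finset.range N).image (· + (M + 2)) := by
    intro n hn
    have a1 := hs n hn
    have a2 := hN n hn
    simp only [Finset.mem_union, Finset.mem_image, Finset.mem_range, Finset.mem_singleton]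
    by_cases c1 : n ≤ M
    · exact Or.inl (Or.inl ⟨n - 1, by omega, by omega⟩)
    · by_cases c2 : n = M + 1
      · exact Or.inl (Or.inr c2)
      · exact Or.inr ⟨n - (M + 2), by omega, by omega⟩
  have hRδ : 0 < R ^ δ := Real.rpow_pos_of_pos hR δ
  have p1 : ∑ n ∈ (Finset.range M).image (· + 1), g n ≤ 1 / δ := by
    rw [Finset.sum_image (fun a _ b _ h => by simpa using h)]
    calc ∑ n ∈ Finset.range M, g (n + 1)
        ≤ ∑ n ∈ Finset.range M, ((n : ℝ) + 1) ^ (δ - 1) / R ^ δ := by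
          refine Finset.sum_le_sum fun n _ => ?_
          simp only [hg]
          push_cast
          have hn : (0 : ℝ) < n + 1 := by positivity
          calc ((n : ℝ) + 1)⁻¹ * min ((((n : ℝ) + 1) / R) ^ δ) ((R / (n + 1)) ^ δ)
              ≤ ((n : ℝ) + 1)⁻¹ * (((n : ℝ) + 1) / R) ^ δ := by gcongr; exact min_le_left _ _
            _ = _ := by rw [Real.div_rpow hn.le hR.le, Real.rpow_sub_one hn.ne']; field_simp
      _ = (∑ n ∈ Finset.range M, ((n : ℝ) + 1) ^ (δ - 1)) / R ^ δ := by rw [Finset.sum_div]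
      _ ≤ ((M : ℝ) ^ δ / δ) / R ^ δ := by gcongr; exact sum_low h0 h1 M
      _ ≤ (R ^ δ / δ) / R ^ δ := by gcongr
      _ = 1 / δ := by field_simp
  have p2 : g (M + 1) ≤ 1 := by
    simp only [hg]
    push_cast
    have hn : (0 : ℝ) < M + 1 := by positivity
    have a1 : ((M : ℝ) + 1)⁻¹ ≤ 1 := inv_le_one_of_one_le₀ (by linarith only [Nat.cast_nonneg (α := ℝ) M])
    have a2 : (R / ((M : ℝ) + 1)) ^ δ ≤ 1 :=
      Real.rpow_le_one (by positivity) (by rw [div_le_one hn]; exact hRM.le) h0.le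
    exact mul_le_one₀ a1 (le_min (by positivity) (by positivity)) ((min_le_right _ _).trans a2)
  have p3 : ∑ n ∈ (Finset.range N).image (· + (M + 2)), g n ≤ 1 / δ := by
    rw [Finset.sum_image (fun a _ b _ h => by simpa using h)]
    have hx : (0 : ℝ) < M + 1 := by positivity
    calc ∑ n ∈ Finset.range N, g (n + (M + 2))
        ≤ ∑ n ∈ Finset.range N, R ^ δ * ((M : ℝ) + 1 + n + 1) ^ (-δ - 1) := by
          refine Finset.sum_le_sum fun n _ => ?_
          simp only [hg]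
          have e : (((n + (M + 2) : ℕ)) : ℝ) = (M : ℝ) + 1 + n + 1 := by push_cast; ring
          rw [e]
          have hn : (0 : ℝ) < (M : ℝ) + 1 + n + 1 := by positivity
          set y := (M : ℝ) + 1 + n + 1
          calc y⁻¹ * min ((y / R) ^ δ) ((R / y) ^ δ) ≤ y⁻¹ * (R / y) ^ δ := by
                gcongr; exact min_le_right _ _
            _ = _ := by
                rw [Real.div_rpow hR.le hn.le, Real.rpow_sub_one hn.ne', Real.rpow_neg hn.le]
                field_simp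
      _ = R ^ δ * ∑ n ∈ Finset.range N, ((M : ℝ) + 1 + n + 1) ^ (-δ - 1) := by rw [Finset.mul_sum]
      _ ≤ R ^ δ * ((((M : ℝ) + 1) ^ (-δ) - ((M : ℝ) + 1 + N) ^ (-δ)) / δ) := by
          gcongr; exact sum_high h0 h1 hx N
      _ ≤ R ^ δ * (R ^ (-δ) / δ) := by
          gcongr
          have a1 : ((M : ℝ) + 1) ^ (-δ) ≤ R ^ (-δ) :=
            Real.rpow_le_rpow_of_nonpos hR hRM.le (by linarith only [h0])
          have a2 : 0 ≤ ((M : ℝ) + 1 + N) ^ (-δ) := by positivity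
          linarith only [a1, a2]
      _ = 1 / δ := by rw [Real.rpow_neg hR.le]; field_simp
  calc ∑ n ∈ s, g n ≤ ∑ n ∈ ((Finset.range M).image (· + 1) ∪ {M + 1}) ∪
      (Finset.range N).image (· + (M + 2)), g n :=
        Finset.sum_le_sum_of_subset_of_nonneg hsub fun n _ _ => hg0 n
    _ ≤ (∑ n ∈ (Finset.range M).image (· + 1), g n + ∑ n ∈ {M + 1}, g n) +
        ∑ n ∈ (Finset.range N).image (· + (M + 2)), g n := by
        have u1 := Finset.sum_union_inter (s₁ := (Finset.range M).image (· + 1) ∪ {M + 1})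
          (s₂ := (Finset.range N).image (· + (M + 2))) (f := g)
        have u2 := Finset.sum_union_inter (s₁ := (Finset.range M).image (· + 1))
          (s₂ := {M + 1}) (f := g)
        have n1 := Finset.sum_nonneg (s := ((Finset.range M).image (· + 1) ∪ {M + 1}) ∩
          (Finset.range N).image (· + (M + 2))) fun n _ => hg0 n
        have n2 := Finset.sum_nonneg (s := ((Finset.range M).image (· + 1)) ∩ {M + 1})
          fun n _ => hg0 n
        linarith only [u1, u2, n1, n2]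
    _ ≤ 2 / δ + 1 := by
        rw [Finset.sum_singleton]
        have : 2 / δ = 1 / δ + 1 / δ := by ring
        linarith only [p1, p2, p3, this]

/-- The scale-localising weight. -/
def mu (γ₁ γ₂ R : ℝ) (k : Z3) : ℝ :=
  if k = 0 then 0 else ax k ^ (-3 : ℝ) * min ((ax k / R) ^ γ₁) ((R / ax k) ^ γ₂)

lemma mu_nonneg (γ₁ γ₂ : ℝ) {R : ℝ} (hR : 0 < R) (k : Z3) : 0 ≤ mu γ₁ γ₂ R k := by
  unfold mu
  split_ifs with h
  · exact le_rfl
  · have := ax_pos h
    exact mul_nonneg (by positivity) (le_min (by positivity) (by positivity))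

lemma min_rpow_mono {x γ₁ γ₂ δ : ℝ} (hx : 0 < x) (h1 : δ ≤ γ₁) (h2 : δ ≤ γ₂) (h0 : 0 ≤ δ) :
    min (x ^ γ₁) (x⁻¹ ^ γ₂) ≤ min (x ^ δ) (x⁻¹ ^ δ) := by
  rcases le_total x 1 with h | h
  · have a : x ^ γ₁ ≤ x ^ δ := Real.rpow_le_rpow_of_exponent_ge hx h h1
    have b : x ^ δ ≤ x⁻¹ ^ δ := Real.rpow_le_rpow hx.le (h.trans (one_le_inv₀ hx |>.mpr h)) h0
    exact le_min ((min_le_left _ _).trans a) ((min_le_left _ _).trans (a.trans b))
  · have hi : x⁻¹ ≤ 1 := inv_le_one_of_one_le₀ h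
    have a : x⁻¹ ^ γ₂ ≤ x⁻¹ ^ δ := Real.rpow_le_rpow_of_exponent_ge (by positivity) hi h2
    have b : x⁻¹ ^ δ ≤ x ^ δ := Real.rpow_le_rpow (by positivity) (hi.trans h) h0
    exact le_min ((min_le_right _ _).trans (a.trans b)) ((min_le_right _ _).trans a)

/-- The lattice sum of `mu` is bounded uniformly in the scale. -/
lemma exists_sum_mu_le {γ₁ γ₂ : ℝ} (h1 : 0 < γ₁) (h2 : 0 < γ₂) :
    ∃ C : ℝ, 0 < C ∧ ∀ R, 0 < R → ∀ s : Finset Z3, ∑ k ∈ s, mu γ₁ γ₂ R k ≤ C := by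
  set δ := min 1 (min γ₁ γ₂) with hδ
  have d0 : 0 < δ := lt_min one_pos (lt_min h1 h2)
  have d1 : δ ≤ 1 := min_le_left _ _
  have d2 : δ ≤ γ₁ := (min_le_right _ _).trans (min_le_left _ _)
  have d3 : δ ≤ γ₂ := (min_le_right _ _).trans (min_le_right _ _)
  refine ⟨26 * (19 * (2 / δ + 1)), by positivity, fun R hR s => ?_⟩
  refine lattice_sum_le _ (fun n => 19 * ((n : ℝ) ^ 3)⁻¹ * min (((n : ℝ) / R) ^ δ) ((R / n) ^ δ))
    (by simp [mu]) (fun n => mul_nonneg (by positivity) (le_min (by positivity) (by positivity)))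
    (fun k hk => ?_) _ (fun t ht => ?_) s
  · have ha := ax_pos hk
    have hn1 : 1 ≤ sn k := Nat.one_le_iff_ne_zero.mpr fun h => hk (sn_eq_zero h)
    have hn : (0 : ℝ) < sn k := by exact_mod_cast hn1
    have l1 := sn_le_ax k
    have l2 := ax_le_sn k
    simp only [mu, if_neg hk]
    have e1 : ax k ^ (-3 : ℝ) ≤ ((sn k : ℝ) ^ 3)⁻¹ := by
      rw [Real.rpow_neg ha.le]
      have : ax k ^ (3 : ℝ) = ax k ^ 3 := by exact_mod_cast Real.rpow_natCast (ax k) 3
      rw [this]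
      gcongr
    have e2 : min ((ax k / R) ^ γ₁) ((R / ax k) ^ γ₂) ≤
        19 * min (((sn k : ℝ) / R) ^ δ) ((R / sn k) ^ δ) := by
      have := min_rpow_mono (x := ax k / R) (by positivity) d2 d3 d0.le
      rw [inv_div] at this
      refine this.trans ?_
      rw [mul_min_of_nonneg _ _ (by norm_num : (0 : ℝ) ≤ 19)]
      refine min_le_min ?_ ?_
      · calc (ax k / R) ^ δ ≤ (19 * ((sn k : ℝ) / R)) ^ δ := by
              refine Real.rpow_le_rpow (by positivity) ?_ d0.le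
              rw [← mul_div_assoc]; gcongr
          _ = (19 : ℝ) ^ δ * ((sn k : ℝ) / R) ^ δ := Real.mul_rpow (by norm_num) (by positivity)
          _ ≤ 19 * ((sn k : ℝ) / R) ^ δ := by
              gcongr
              calc (19 : ℝ) ^ δ ≤ 19 ^ (1 : ℝ) :=
                    Real.rpow_le_rpow_of_exponent_le (by norm_num) d1
                _ = 19 := Real.rpow_one _
      · calc (R / ax k) ^ δ ≤ (R / sn k) ^ δ := by gcongr
          _ ≤ 19 * (R / sn k) ^ δ := by
              have : 0 ≤ (R / sn k) ^ δ := by positivity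
              linarith only [this]
    calc ax k ^ (-3 : ℝ) * min ((ax k / R) ^ γ₁) ((R / ax k) ^ γ₂)
        ≤ ((sn k : ℝ) ^ 3)⁻¹ * (19 * min (((sn k : ℝ) / R) ^ δ) ((R / sn k) ^ δ)) :=
          mul_le_mul e1 e2 (le_min (by positivity) (by positivity)) (by positivity)
      _ = _ := by ring
  · have := sum_min_le d0 d1 hR t ht
    calc ∑ n ∈ t, (n : ℝ) ^ 2 * (19 * ((n : ℝ) ^ 3)⁻¹ * min (((n : ℝ) / R) ^ δ) ((R / n) ^ δ))
        = 19 * ∑ n ∈ t, (n : ℝ)⁻¹ * min (((n : ℝ) / R) ^ δ) ((R / n) ^ δ) := by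
          rw [Finset.mul_sum]
          refine Finset.sum_congr rfl fun n hn => ?_
          have : (n : ℝ) ≠ 0 := by have := ht n hn; positivity
          field_simp
      _ ≤ _ := by gcongr

/-- The inhomogeneous weight `1 + |2 π k|`. -/
def w (k : Z3) : ℝ := 1 + ax k

lemma one_le_w (k : Z3) : 1 ≤ w k := by unfold w; linarith [ax_nonneg k]

lemma w_pos (k : Z3) : 0 < w k := lt_of_lt_of_le one_pos (one_le_w k)

lemma ax_le_w (k : Z3) : ax k ≤ w k := by unfold w; linarith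

@[simp] lemma w_neg (k : Z3) : w (-k) = w k := by simp [w]

lemma w_add_le (p q : Z3) : w (p + q) ≤ w p + w q := by
  unfold w; linarith [ax_add_le p q]

lemma w_add_le_mul (p q : Z3) : w (p + q) ≤ w p * w q := by
  unfold w; nlinarith [ax_add_le p q, ax_nonneg p, ax_nonneg q]

lemma summable_w_inv : Summable fun k : Z3 => (w k ^ 4)⁻¹ := by
  obtain ⟨C, -, hC⟩ := exists_sum_mu_le (γ₁ := 1) (γ₂ := 1) one_pos one_pos
  have hm : Summable (mu 1 1 1) :=
    summable_of_sum_le (mu_nonneg 1 1 one_pos) (hC 1 one_pos)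
  have hs : Summable fun k : Z3 => if k = 0 then (1 : ℝ) else 0 :=
    (hasSum_ite_eq (0 : Z3) (1 : ℝ)).summable
  refine Summable.of_nonneg_of_le (fun k => by have := w_pos k; positivity) (fun k => ?_)
    (hm.add hs)
  by_cases hk : k = 0
  · simp [hk, mu, w]
  · have ha := ax_pos hk
    have h1 := one_le_ax hk
    simp only [mu, if_neg hk, add_zero, Real.rpow_one, div_one, one_div]
    rw [min_eq_right ((inv_le_one_of_one_le₀ h1).trans h1), Real.rpow_neg ha.le]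
    have : ax k ^ (3 : ℝ) = ax k ^ 3 := by exact_mod_cast Real.rpow_natCast (ax k) 3
    rw [this, ← mul_inv, ← pow_succ]
    gcongr
    exact ax_le_w k

end

end Pool.Agent.Work.MP_6bf1e5_an.B
end

-- merged part: Pool.Agent.Work.MP_6bf1e5_an.Hyp.PreA
section
/-!
Envelopes, differential inequalities and the basic profile (the parts of the files `Dec.Tool`,
`Dec.Defs`, `Dec.Ode`, `Dec.Phi` that are used here).
-/

section

open Set Complex
open scoped InnerProductSpace ComplexConjugate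
open Pool.Agent.Work.MP_6bf1e5_an.B (Z3 R3 box mem_box card_box sn)

namespace Pool.Agent.Work.MP_6bf1e5_an.Hyp.Dec

noncomputable section

/-- Envelopes: finitely supported families; the product is convolution. -/
abbrev V := AddMonoidAlgebra ℂ Z3

/-- The Hermitian product. -/
def ip (f g : V) : ℂ := ∑ h ∈ f.coeff.support, conj (f.coeff h) * g.coeff h

lemma ip_eq {f : V} (g : V) {s : Finset Z3} (hs : f.coeff.support ⊆ s) :
    ip f g = ∑ h ∈ s, conj (f.coeff h) * g.coeff h :=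
  Finset.sum_subset hs fun h _ hn => by simp [Finsupp.notMem_support_iff.mp hn]

lemma ip_eq' (f : V) {g : V} {s : Finset Z3} (hs : g.coeff.support ⊆ s) :
    ip f g = ∑ h ∈ s, conj (f.coeff h) * g.coeff h := by
  classical
  rw [ip_eq g (Finset.subset_union_left (s₂ := s))]
  refine (Finset.sum_subset Finset.subset_union_right fun h _ hn => ?_).symm
  simp [Finsupp.notMem_support_iff.mp fun hh => hn (hs hh)]

/-- The inner product space structure. -/
@[reducible] def core : InnerProductSpace.Core ℂ V where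
  inner := ip
  conj_inner_symm f g := by
    rw [ip_eq' g (subset_refl _), ip, map_sum]
    exact Finset.sum_congr rfl fun h _ => by simp [mul_comm]
  re_inner_nonneg f := by
    simp only [ip, RCLike.re_to_complex, Complex.re_sum]
    exact Finset.sum_nonneg fun h _ => by rw [Complex.conj_mul']; norm_cast; positivity
  add_left f g k := by
    rw [ip_eq' _ (subset_refl _), ip_eq' f (subset_refl _), ip_eq' g (subset_refl _),
      ← Finset.sum_add_distrib]
    exact Finset.sum_congr rfl fun h _ => by simp [add_mul]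
  smul_left f g r := by
    rw [ip_eq' _ (subset_refl _), ip_eq' f (subset_refl _), Finset.mul_sum]
    exact Finset.sum_congr rfl fun h _ => by simp [mul_assoc]
  definite f hf := by
    have h1 : ∑ h ∈ f.coeff.support, ‖f.coeff h‖ ^ 2 = 0 := by
      have : ((∑ h ∈ f.coeff.support, ‖f.coeff h‖ ^ 2 : ℝ) : ℂ) = 0 := by
        rw [← hf]; push_cast
        exact Finset.sum_congr rfl fun h _ => (Complex.conj_mul' _).symm
      exact_mod_cast this
    rw [Finset.sum_eq_zero_iff_of_nonneg fun _ _ => by positivity] at h1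
    ext h
    by_cases hh : h ∈ f.coeff.support
    · simpa using h1 h hh
    · simpa using hh

instance instNormedAddCommGroupV : NormedAddCommGroup V := core.toNormedAddCommGroup

instance instInnerProductSpaceV : InnerProductSpace ℂ V := InnerProductSpace.ofCore core.toCore

lemma rsmul (r : ℝ) (f : V) : r • f = (r : ℂ) • f := by ext h; simp

instance instNormedSpaceRealV : NormedSpace ℝ V where
  norm_smul_le r f := by rw [rsmul, norm_smul]; simp

lemma inner_eq {f : V} (g : V) {s : Finset Z3} (hs : f.coeff.support ⊆ s) :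
    ⟪f, g⟫_ℂ = ∑ h ∈ s, conj (f.coeff h) * g.coeff h := ip_eq g hs

lemma inner_eq' (f : V) {g : V} {s : Finset Z3} (hs : g.coeff.support ⊆ s) :
    ⟪f, g⟫_ℂ = ∑ h ∈ s, conj (f.coeff h) * g.coeff h := ip_eq' f hs

lemma norm_sq_eq {f : V} {s : Finset Z3} (hs : f.coeff.support ⊆ s) :
    ‖f‖ ^ 2 = ∑ h ∈ s, ‖f.coeff h‖ ^ 2 := by
  rw [@norm_sq_eq_re_inner ℂ, inner_eq f hs, RCLike.re_to_complex, Complex.re_sum]
  exact Finset.sum_congr rfl fun h _ => by rw [Complex.conj_mul']; norm_cast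

lemma norm_coeff_le (f : V) (h : Z3) : ‖f.coeff h‖ ≤ ‖f‖ := by
  classical
  refine (pow_le_pow_iff_left₀ (norm_nonneg _) (norm_nonneg _) two_ne_zero).mp ?_
  rw [norm_sq_eq (s := insert h f.coeff.support) (Finset.subset_insert _ _)]
  exact Finset.single_le_sum (f := fun h => ‖f.coeff h‖ ^ 2) (fun _ _ => by positivity)
    (Finset.mem_insert_self _ _)

lemma sum_sq_le (f : V) (s : Finset Z3) : ∑ h ∈ s, ‖f.coeff h‖ ^ 2 ≤ ‖f‖ ^ 2 := by
  classical
  rw [norm_sq_eq (s := s ∪ f.coeff.support) Finset.subset_union_right]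
  exact Finset.sum_le_sum_of_subset_of_nonneg Finset.subset_union_left fun _ _ _ => by positivity

lemma norm_le_of_coeff {f g : V} {c : ℝ} (hc : 0 ≤ c) (H : ∀ h, ‖f.coeff h‖ ≤ c * ‖g.coeff h‖) :
    ‖f‖ ≤ c * ‖g‖ := by
  refine (pow_le_pow_iff_left₀ (norm_nonneg _) (by positivity) two_ne_zero).mp ?_
  rw [norm_sq_eq (subset_refl _), mul_pow]
  refine le_trans ?_ (mul_le_mul_of_nonneg_left (sum_sq_le g f.coeff.support) (by positivity))
  rw [Finset.mul_sum]
  exact Finset.sum_le_sum fun h _ => by rw [← mul_pow]; gcongr; exact H h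

lemma norm_le_of_card {f : V} {s : Finset Z3} (hs : f.coeff.support ⊆ s) {c : ℝ} (hc : 0 ≤ c)
    (H : ∀ h, ‖f.coeff h‖ ≤ c) : ‖f‖ ≤ √(s.card) * c := by
  refine (pow_le_pow_iff_left₀ (norm_nonneg _) (by positivity) two_ne_zero).mp ?_
  rw [norm_sq_eq hs, mul_pow, Real.sq_sqrt (by positivity)]
  calc ∑ h ∈ s, ‖f.coeff h‖ ^ 2 ≤ ∑ h ∈ s, c ^ 2 := Finset.sum_le_sum fun h _ => by gcongr; exact H h
    _ = _ := by simp

/-- The family with values `g` on `s` and zero elsewhere. -/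
def mk (s : Finset Z3) (g : Z3 → ℂ) : V := ∑ h ∈ s, AddMonoidAlgebra.single h (g h)

lemma coeff_mk (s : Finset Z3) (g : Z3 → ℂ) (h : Z3) :
    (mk s g).coeff h = if h ∈ s then g h else 0 := by
  simp [mk, Finsupp.single_apply]

lemma support_mk (s : Finset Z3) (g : Z3 → ℂ) : (mk s g).coeff.support ⊆ s := fun h hh => by
  by_contra hn
  simp [coeff_mk, hn] at hh

lemma eq_mk {f : V} {s : Finset Z3} (hs : f.coeff.support ⊆ s) : f = mk s f.coeff := by
  ext h
  rw [coeff_mk]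
  split_ifs with hh
  · rfl
  · exact Finsupp.notMem_support_iff.mp fun h' => hh (hs h')

/-- The unit mass at the origin. -/
def dl : V := AddMonoidAlgebra.single 0 1

lemma dl_eq_one : dl = 1 := rfl

lemma inner_single (h : Z3) (c : ℂ) (g : V) :
    ⟪(AddMonoidAlgebra.single h c : V), g⟫_ℂ = conj c * g.coeff h := by
  rw [inner_eq (s := {h}) g (by simpa using Finsupp.support_single_subset)]
  simp

lemma norm_single (h : Z3) (c : ℂ) : ‖(AddMonoidAlgebra.single h c : V)‖ = ‖c‖ := by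
  refine (pow_left_inj₀ (norm_nonneg _) (norm_nonneg _) two_ne_zero).mp ?_
  rw [norm_sq_eq (s := {h}) (by simpa using Finsupp.support_single_subset)]
  simp

lemma norm_dl : ‖dl‖ = 1 := by simp [dl, norm_single]

lemma coeff_mul_eq {f : V} (g : V) {s : Finset Z3} (hs : f.coeff.support ⊆ s) (h : Z3) :
    (f * g).coeff h = ∑ k ∈ s, f.coeff k * g.coeff (h - k) := by
  rw [AddMonoidAlgebra.coeff_mul_apply_left, Finsupp.sum_of_support_subset _ hs _ (by simp)]
  exact Finset.sum_congr rfl fun k _ => by rw [neg_add_eq_sub]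

lemma coeff_single_mul (k : Z3) (c : ℂ) (g : V) (h : Z3) :
    (AddMonoidAlgebra.single k c * g).coeff h = c * g.coeff (h - k) := by
  rw [AddMonoidAlgebra.coeff_single_mul_apply, neg_add_eq_sub]

lemma mul_eq_sum (p f : V) :
    p * f = ∑ k ∈ p.coeff.support, p.coeff k • (AddMonoidAlgebra.single k 1 * f) := by
  ext h
  rw [coeff_mul_eq f (subset_refl _)]
  simp [neg_add_eq_sub]

/-! Supports -/

/-! Multipliers -/

/-- Multiplication of the coefficients by `d`. -/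
def mulc (d : Z3 → ℂ) : V →ₗ[ℂ] V where
  toFun f := .ofCoeff (Finsupp.onFinset f.coeff.support (fun h => d h * f.coeff h) fun h hh =>
    Finsupp.mem_support_iff.mpr (right_ne_zero_of_mul hh))
  map_add' f g := by ext h; simp [mul_add]
  map_smul' c f := by ext h; simp [mul_left_comm]

@[simp] lemma coeff_mulc (d : Z3 → ℂ) (f : V) (h : Z3) : (mulc d f).coeff h = d h * f.coeff h := rfl

lemma norm_mulc_le {d : Z3 → ℂ} {c : ℝ} (hc : 0 ≤ c) {f : V}
    (H : ∀ h ∈ f.coeff.support, ‖d h‖ ≤ c) : ‖mulc d f‖ ≤ c * ‖f‖ :=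
  norm_le_of_coeff hc fun h => by
    by_cases hh : h ∈ f.coeff.support
    · rw [coeff_mulc, norm_mul]; gcongr; exact H h hh
    · simp [Finsupp.notMem_support_iff.mp hh]

lemma inner_mulc_left (d : Z3 → ℂ) (f g : V) :
    ⟪mulc d f, g⟫_ℂ = ⟪f, mulc (fun h => conj (d h)) g⟫_ℂ := by
  rw [inner_eq (s := f.coeff.support) g (fun h hh => Finsupp.mem_support_iff.mpr
    (right_ne_zero_of_mul (Finsupp.mem_support_iff.mp hh))), inner_eq _ (subset_refl _)]
  exact Finset.sum_congr rfl fun h _ => by simp only [coeff_mulc, map_mul]; ring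

/-- Multiplication by a real family (the dissipation). -/
def mulr (d : Z3 → ℝ) : V →ₗ[ℂ] V := mulc fun h => (d h : ℂ)

@[simp] lemma coeff_mulr (d : Z3 → ℝ) (f : V) (h : Z3) :
    (mulr d f).coeff h = (d h : ℂ) * f.coeff h := rfl

lemma re_inner_mulr_ge {d : Z3 → ℝ} {c : ℝ} (H : ∀ h, c ≤ d h) (f : V) :
    c * ‖f‖ ^ 2 ≤ (⟪f, mulr d f⟫_ℂ).re := by
  rw [inner_eq _ (subset_refl _), norm_sq_eq (subset_refl _), Complex.re_sum, Finset.mul_sum]
  refine Finset.sum_le_sum fun h _ => ?_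
  rw [coeff_mulr, mul_left_comm, Complex.conj_mul', Complex.re_ofReal_mul]
  norm_cast
  gcongr
  exact H h

/-! Absolute values and the sum norm -/

/-- The family of absolute values. -/
def av (f : V) : V := .ofCoeff (f.coeff.mapRange (fun z => (‖z‖ : ℂ)) (by simp))

@[simp] lemma coeff_av (f : V) (h : Z3) : (av f).coeff h = (‖f.coeff h‖ : ℂ) := rfl

lemma norm_av (f : V) : ‖av f‖ = ‖f‖ :=
  le_antisymm (by simpa using norm_le_of_coeff (f := av f) (g := f) zero_le_one fun h => by simp)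
    (by simpa using norm_le_of_coeff (f := f) (g := av f) zero_le_one fun h => by simp)

/-- The sum of the absolute values. -/
def l1 (f : V) : ℝ := ∑ h ∈ f.coeff.support, ‖f.coeff h‖

lemma l1_eq {f : V} {s : Finset Z3} (hs : f.coeff.support ⊆ s) : l1 f = ∑ h ∈ s, ‖f.coeff h‖ :=
  Finset.sum_subset hs fun h _ hn => by simp [Finsupp.notMem_support_iff.mp hn]

lemma l1_nonneg (f : V) : 0 ≤ l1 f := Finset.sum_nonneg fun _ _ => norm_nonneg _

lemma sum_le_l1 (f : V) (s : Finset Z3) : ∑ h ∈ s, ‖f.coeff h‖ ≤ l1 f := by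
  classical
  rw [l1_eq (s := s ∪ f.coeff.support) Finset.subset_union_right]
  exact Finset.sum_le_sum_of_subset_of_nonneg Finset.subset_union_left fun _ _ _ => by positivity

lemma l1_le_of_coeff {f g : V} {c : ℝ} (hc : 0 ≤ c) (H : ∀ h, ‖f.coeff h‖ ≤ c * ‖g.coeff h‖) :
    l1 f ≤ c * l1 g := by
  refine le_trans ?_ (mul_le_mul_of_nonneg_left (sum_le_l1 g f.coeff.support) hc)
  rw [l1, Finset.mul_sum]
  exact Finset.sum_le_sum fun h _ => H h

lemma l1_av (f : V) : l1 (av f) = l1 f :=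
  le_antisymm (by simpa using l1_le_of_coeff (f := av f) (g := f) zero_le_one fun h => by simp)
    (by simpa using l1_le_of_coeff (f := f) (g := av f) zero_le_one fun h => by simp)

lemma l1_add_le (f g : V) : l1 (f + g) ≤ l1 f + l1 g := by
  refine le_trans ?_ (add_le_add (sum_le_l1 f (f + g).coeff.support) (sum_le_l1 g (f + g).coeff.support))
  rw [l1, ← Finset.sum_add_distrib]
  exact Finset.sum_le_sum fun h _ => by simpa using norm_add_le _ _

lemma l1_smul (c : ℂ) (f : V) : l1 (c • f) = ‖c‖ * l1 f := by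
  rw [l1_eq (s := f.coeff.support) (by simpa using Finsupp.support_smul), l1, Finset.mul_sum]
  exact Finset.sum_congr rfl fun h _ => by simp

lemma l1_neg (f : V) : l1 (-f) = l1 f := by simpa using l1_smul (-1) f

lemma l1_sub_le (f g : V) : l1 (f - g) ≤ l1 f + l1 g := by
  simpa [sub_eq_add_neg, l1_neg] using l1_add_le f (-g)

@[simp] lemma l1_zero : l1 0 = 0 := by simp [l1]

lemma l1_sum_le {ι : Type*} (s : Finset ι) (F : ι → V) : l1 (∑ i ∈ s, F i) ≤ ∑ i ∈ s, l1 (F i) := by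
  classical
  induction s using Finset.induction_on with
  | empty => simp
  | insert a s ha ih =>
    rw [Finset.sum_insert ha, Finset.sum_insert ha]
    exact (l1_add_le _ _).trans (by linarith)

lemma l1_single (h : Z3) (c : ℂ) : l1 (AddMonoidAlgebra.single h c) = ‖c‖ := by
  rw [l1_eq (s := {h}) (by simpa using Finsupp.support_single_subset)]
  simp

lemma l1_dl : l1 dl = 1 := by simp [dl, l1_single]

lemma norm_le_l1 (f : V) : ‖f‖ ≤ l1 f := by
  conv_lhs => rw [eq_mk (f := f) (subset_refl _), mk]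
  exact (norm_sum_le _ _).trans (le_of_eq (Finset.sum_congr rfl fun h _ => norm_single _ _))

lemma l1_le_card {f : V} {s : Finset Z3} (hs : f.coeff.support ⊆ s) : l1 f ≤ √(s.card) * ‖f‖ := by
  refine (pow_le_pow_iff_left₀ (l1_nonneg _) (by positivity) two_ne_zero).mp ?_
  rw [l1_eq hs, mul_pow, Real.sq_sqrt (by positivity), norm_sq_eq hs]
  exact sq_sum_le_card_mul_sum_sq

lemma norm_inner_le_l1 {f g : V} {c : ℝ} (H : ∀ h, ‖f.coeff h‖ ≤ c) : ‖⟪f, g⟫_ℂ‖ ≤ c * l1 g := by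
  rw [inner_eq' f (subset_refl _), l1, Finset.mul_sum]
  refine (norm_sum_le _ _).trans (Finset.sum_le_sum fun h _ => ?_)
  rw [norm_mul, Complex.norm_conj]
  gcongr
  exact H h

/-! Lattice automorphisms and the adjoint -/

/-- Transport along an involution of the lattice. -/
def prm (e : Z3 ≃+ Z3) : V ≃ₐ[ℂ] V := AddMonoidAlgebra.domCongr ℂ ℂ e.symm

@[simp] lemma coeff_prm (e : Z3 ≃+ Z3) (f : V) (h : Z3) : (prm e f).coeff h = f.coeff (e h) := by
  simp [prm]

lemma support_prm (e : Z3 ≃+ Z3) (f : V) :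
    (prm e f).coeff.support = f.coeff.support.map e.symm.toEquiv.toEmbedding := by
  ext h; simp

lemma inner_prm (e : Z3 ≃+ Z3) (f g : V) : ⟪prm e f, prm e g⟫_ℂ = ⟪f, g⟫_ℂ := by
  rw [inner_eq _ (subset_refl _), inner_eq _ (subset_refl _), support_prm, Finset.sum_map]
  simp

lemma norm_prm (e : Z3 ≃+ Z3) (f : V) : ‖prm e f‖ = ‖f‖ := by
  rw [@norm_eq_sqrt_re_inner ℂ, inner_prm, ← norm_eq_sqrt_re_inner]

lemma l1_prm (e : Z3 ≃+ Z3) (f : V) : l1 (prm e f) = l1 f := by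
  rw [l1, l1, support_prm, Finset.sum_map]
  simp

/-- The adjoint family `h ↦ conj (f (-h))`. -/
def dag : V →+* V :=
  (AddMonoidAlgebra.mapRingHom Z3 (starRingEnd ℂ)).comp (prm (AddEquiv.neg Z3)).toRingEquiv.toRingHom

@[simp] lemma coeff_dag (f : V) (h : Z3) : (dag f).coeff h = conj (f.coeff (-h)) := by
  simp [dag]

@[simp] lemma dag_dag (f : V) : dag (dag f) = f := by ext h; simp

lemma dag_smul (c : ℂ) (f : V) : dag (c • f) = conj c • dag f := by ext h; simp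

lemma dag_single (k : Z3) (c : ℂ) :
    dag (AddMonoidAlgebra.single k c) = AddMonoidAlgebra.single (-k) (conj c) := by
  ext h
  simp only [coeff_dag, AddMonoidAlgebra.coeff_single, Finsupp.single_apply]
  by_cases hh : k = -h
  · simp [hh]
  · rw [if_neg hh, if_neg fun e => hh (by rw [← e, neg_neg])]; simp

lemma l1_dag (f : V) : l1 (dag f) = l1 f := by
  rw [← l1_av, ← l1_prm (AddEquiv.neg Z3), ← l1_av f]
  congr 1
  ext h; simp

lemma inner_eq_coeff (f g : V) : ⟪f, g⟫_ℂ = (dag f * g).coeff 0 := by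
  rw [mul_comm, coeff_mul_eq _ (subset_refl _), inner_eq' f (subset_refl _)]
  exact Finset.sum_congr rfl fun h _ => by simp [mul_comm]

lemma inner_mul_left (p f g : V) : ⟪p * f, g⟫_ℂ = ⟪f, dag p * g⟫_ℂ := by
  rw [inner_eq_coeff, inner_eq_coeff, map_mul]; ring_nf

lemma inner_mul_right (p f g : V) : ⟪f, p * g⟫_ℂ = ⟪dag p * f, g⟫_ℂ := by
  rw [inner_mul_left, dag_dag]

lemma norm_dag_mul (p f : V) : ‖dag p * f‖ = ‖p * f‖ := by
  rw [@norm_eq_sqrt_re_inner ℂ, @norm_eq_sqrt_re_inner ℂ, inner_mul_left, inner_mul_left, dag_dag]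
  congr 3
  ring

lemma norm_single_mul (k : Z3) (f : V) : ‖AddMonoidAlgebra.single k 1 * f‖ = ‖f‖ := by
  rw [@norm_eq_sqrt_re_inner ℂ, inner_mul_left, dag_single, ← mul_assoc,
    AddMonoidAlgebra.single_mul_single]
  simp only [neg_add_cancel, map_one, mul_one]
  rw [← AddMonoidAlgebra.one_def, one_mul, ← norm_eq_sqrt_re_inner]

lemma norm_mul_le_l1 (p f : V) : ‖p * f‖ ≤ l1 p * ‖f‖ := by
  rw [mul_eq_sum, l1, Finset.sum_mul]
  exact (norm_sum_le _ _).trans (le_of_eq (Finset.sum_congr rfl fun k _ => by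
    rw [norm_smul, norm_single_mul]))

lemma norm_mul_le_l1' (p f : V) : ‖p * f‖ ≤ ‖p‖ * l1 f := by
  rw [mul_comm, mul_comm ‖p‖]; exact norm_mul_le_l1 f p

lemma l1_single_mul (k : Z3) (f : V) : l1 (AddMonoidAlgebra.single k 1 * f) = l1 f := by
  rw [l1_eq (s := f.coeff.support.map (Equiv.addRight k).toEmbedding) fun h hh => by
    simpa [add_comm] using hh, Finset.sum_map, l1]
  simp

lemma l1_mul_le (p f : V) : l1 (p * f) ≤ l1 p * l1 f := by
  rw [mul_eq_sum, l1.eq_1 p, Finset.sum_mul]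
  exact (l1_sum_le _ _).trans (le_of_eq (Finset.sum_congr rfl fun k _ => by
    rw [l1_smul, l1_single_mul]))

lemma norm_coeff_mul_le_l1 (f : V) {g : V} {c : ℝ} (H : ∀ h, ‖g.coeff h‖ ≤ c) (h : Z3) :
    ‖(f * g).coeff h‖ ≤ l1 f * c := by
  rw [coeff_mul_eq g (subset_refl _), l1, Finset.sum_mul]
  refine (norm_sum_le _ _).trans (Finset.sum_le_sum fun k _ => ?_)
  rw [norm_mul]
  gcongr
  exact H _

/-! Exponential weights -/

/-- The pairing of a frequency with a point. -/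
def pr (h : Z3) (x : R3) : ℝ := ∑ i, (h i : ℝ) * x i

lemma pr_add (a b : Z3) (x : R3) : pr (a + b) x = pr a x + pr b x := by
  simp [pr, add_mul, Finset.sum_add_distrib]

lemma pr_neg (a : Z3) (x : R3) : pr (-a) x = -pr a x := by simp [pr]

lemma pr_neg' (a : Z3) (x : R3) : pr a (-x) = -pr a x := by simp [pr]

@[simp] lemma pr_zero (x : R3) : pr 0 x = 0 := by simp [pr]

@[simp] lemma pr_zero' (a : Z3) : pr a 0 = 0 := by simp [pr]

/-- The family multiplied by the weight `exp (h · ξ)`. -/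
def wt (ξ : R3) : V →ₗ[ℂ] V := mulr fun h => Real.exp (pr h ξ)

lemma coeff_wt (ξ : R3) (f : V) (h : Z3) :
    (wt ξ f).coeff h = (Real.exp (pr h ξ) : ℂ) * f.coeff h := rfl

lemma wt_mul (ξ : R3) (f g : V) : wt ξ (f * g) = wt ξ f * wt ξ g := by
  ext h
  rw [coeff_wt, coeff_mul_eq g (subset_refl _), coeff_mul_eq (f := wt ξ f) _ (s := f.coeff.support)
    (fun k hk => Finsupp.mem_support_iff.mpr (right_ne_zero_of_mul
      (Finsupp.mem_support_iff.mp hk))), Finset.mul_sum]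
  refine Finset.sum_congr rfl fun k _ => ?_
  rw [coeff_wt, coeff_wt, show pr h ξ = pr k ξ + pr (h - k) ξ by rw [← pr_add]; simp, Real.exp_add]
  push_cast; ring

lemma wt_dag (ξ : R3) (f : V) : wt ξ (dag f) = dag (wt (-ξ) f) := by
  ext h
  simp [coeff_wt, pr_neg, pr_neg', -Complex.ofReal_exp]

lemma wt_mulr (ξ : R3) (d : Z3 → ℝ) (f : V) : wt ξ (mulr d f) = mulr d (wt ξ f) := by
  ext h; simp [coeff_wt, mul_left_comm]

/-! Evaluation of the trigonometric polynomial -/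

/-- The character `exp (i h · x)`. -/
def chi (x : R3) : Multiplicative Z3 →* ℂ where
  toFun h := Complex.exp (I * (pr h.toAdd x : ℝ))
  map_one' := by simp
  map_mul' a b := by rw [toAdd_mul, pr_add, ← Complex.exp_add]; push_cast; ring_nf

/-- The value at `x` of the trigonometric polynomial with coefficients `f`. -/
def ev (x : R3) : V →ₐ[ℂ] ℂ := AddMonoidAlgebra.lift ℂ ℂ Z3 (chi x)

lemma ev_eq (x : R3) {f : V} {s : Finset Z3} (hs : f.coeff.support ⊆ s) :
    ev x f = ∑ h ∈ s, f.coeff h * Complex.exp (I * (pr h x : ℝ)) := by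
  rw [ev, AddMonoidAlgebra.lift_apply, Finsupp.sum_of_support_subset _ hs _ (by simp)]
  rfl

lemma ev_single (x : R3) (h : Z3) (c : ℂ) :
    ev x (AddMonoidAlgebra.single h c) = c * Complex.exp (I * (pr h x : ℝ)) := by
  rw [ev, AddMonoidAlgebra.lift_single]; rfl

lemma ev_dl (x : R3) : ev x dl = 1 := map_one _

lemma ev_zero_eq {f : V} {s : Finset Z3} (hs : f.coeff.support ⊆ s) :
    ev 0 f = ∑ h ∈ s, f.coeff h := by simp [ev_eq 0 hs]

lemma norm_ev_le (x : R3) (f : V) : ‖ev x f‖ ≤ l1 f := by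
  rw [ev_eq x (subset_refl _)]
  refine (norm_sum_le _ _).trans (le_of_eq (Finset.sum_congr rfl fun h _ => ?_))
  rw [norm_mul, Complex.norm_exp_I_mul_ofReal, mul_one]

lemma ev_dag (x : R3) (f : V) : ev x (dag f) = conj (ev x f) := by
  induction f using AddMonoidAlgebra.induction_linear with
  | zero => simp
  | add f g hf hg => simp [hf, hg]
  | single h c =>
    rw [dag_single, ev_single, ev_single, map_mul, ← Complex.exp_conj, pr_neg]; simp

lemma ev_zero_prm (e : Z3 ≃+ Z3) (f : V) : ev 0 (prm e f) = ev 0 f := by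
  rw [ev_zero_eq (subset_refl _), ev_zero_eq (subset_refl _), support_prm, Finset.sum_map]
  simp

lemma continuous_ev (f : V) : Continuous fun x : R3 => ev x f := by
  simp only [ev_eq _ (subset_refl f.coeff.support), pr]
  fun_prop

end

end Pool.Agent.Work.MP_6bf1e5_an.Hyp.Dec

end

section

open Set Complex
open scoped InnerProductSpace ComplexConjugate
open Pool.Agent.Work.MP_6bf1e5_an.B (Z3 R3 box)

namespace Pool.Agent.Work.MP_6bf1e5_an.Hyp.Dec

noncomputable section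

/-- Derivative on the half line of nonnegative times. -/
abbrev HD {E : Type} [NormedAddCommGroup E] [NormedSpace ℝ E] (f : ℝ → E) (f' : E) (t : ℝ) : Prop :=
  HasDerivWithinAt f f' (Ici 0) t

/-- The frequency of the ground state of the box of radius `n`. -/
def th (n : ℕ) : ℝ := Real.pi / (2 * (n + 1))

/-- The period cube. -/
def cube : Set R3 := Icc (fun _ => -Real.pi) (fun _ => Real.pi)

/-- The loss of norm under convolution with `p`. -/
def Qf (p y : V) : ℝ := ‖y‖ ^ 2 - ‖p * y‖ ^ 2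

end

end Pool.Agent.Work.MP_6bf1e5_an.Hyp.Dec

end

section

open Set Complex Filter Topology
open scoped InnerProductSpace ComplexConjugate
open Pool.Agent.Work.MP_6bf1e5_an.B (Z3 R3 box)

namespace Pool.Agent.Work.MP_6bf1e5_an.Hyp.Dec

noncomputable section

section gen

variable {E : Type} [NormedAddCommGroup E] [NormedSpace ℝ E] {f : ℝ → E} {f' : E} {t : ℝ}

lemma HD.right (h : HD f f' t) (ht : 0 ≤ t) : HasDerivWithinAt f f' (Ici t) t :=
  h.mono (Ici_subset_Ici.mpr ht)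

lemma HD.uniq {g' : E} (h : HD f f' t) (h' : HD f g' t) (ht : 0 ≤ t) : f' = g' :=
  (uniqueDiffOn_Ici 0 t ht).eq_deriv _ h h'

lemma contOn_of_HD {a b : ℝ} (ha : 0 ≤ a) (H : ∀ t ∈ Icc a b, ∃ D, HD f D t) :
    ContinuousOn f (Icc a b) := fun t ht =>
  (H t ht).elim fun _ h => h.continuousWithinAt.mono fun _ hs => ha.trans hs.1

end gen

/-- First time at which one of finitely many closed conditions becomes an equality. -/
theorem first_hit {ι : Type} [Finite ι] {H : ι → ℝ → ℝ} {a b : ℝ} (hab : a ≤ b)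
    (hc : ∀ i, ContinuousOn (H i) (Icc a b)) (h0 : ∀ i, H i a ≤ 0) :
    ∃ c ∈ Icc a b, (∀ t ∈ Icc a c, ∀ i, H i t ≤ 0) ∧
      (c = b ∨ ∃ i, H i c = 0 ∧ ∃ᶠ t in 𝓝[>] c, 0 < H i t) := by
  set S : Set ℝ := {c | c ∈ Icc a b ∧ ∀ t ∈ Icc a c, ∀ i, H i t ≤ 0} with hS
  have aS : a ∈ S := ⟨⟨le_rfl, hab⟩, fun t ht i => by rw [le_antisymm ht.2 ht.1]; exact h0 i⟩
  have bdd : BddAbove S := ⟨b, fun c hc => hc.1.2⟩
  set c := sSup S with hcdef
  have ac : a ≤ c := le_csSup bdd aS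
  have cb : c ≤ b := csSup_le ⟨a, aS⟩ fun c hc => hc.1.2
  have lt : ∀ t ∈ Ico a c, ∀ i, H i t ≤ 0 := fun t ht i => by
    obtain ⟨s, hs, hts⟩ := exists_lt_of_lt_csSup ⟨a, aS⟩ ht.2
    exact hs.2 t ⟨ht.1, hts.le⟩ i
  have atc : ∀ i, H i c ≤ 0 := fun i => by
    rcases ac.eq_or_lt with h | h
    · rw [← h]; exact h0 i
    · have : ContinuousWithinAt (H i) (Ico a c) c :=
        (hc i c ⟨ac, cb⟩).mono fun s hs => ⟨hs.1, hs.2.le.trans cb⟩
      have ne : (𝓝[Ico a c] c).NeBot := by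
        rw [nhdsWithin_Ico_eq_nhdsLT h]; infer_instance
      exact le_of_tendsto this (eventually_nhdsWithin_of_forall fun s hs => lt s hs i)
  have all : ∀ t ∈ Icc a c, ∀ i, H i t ≤ 0 := fun t ht i => by
    rcases ht.2.eq_or_lt with h | h
    · rw [h]; exact atc i
    · exact lt t ⟨ht.1, h⟩ i
  refine ⟨c, ⟨ac, cb⟩, all, ?_⟩
  rcases cb.eq_or_lt with h | h
  · exact Or.inl h
  right
  by_contra hn
  push Not at hn
  have ev : ∀ i, ∀ᶠ t in 𝓝[>] c, H i t ≤ 0 := fun i => by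
    rcases (atc i).eq_or_lt with e | e
    · simpa using hn i e
    · have : ContinuousWithinAt (H i) (Ioi c) c :=
        (hc i c ⟨ac, cb⟩).mono_of_mem_nhdsWithin
          (mem_of_superset (Ioo_mem_nhdsGT h) fun s hs => ⟨ac.trans hs.1.le, hs.2.le⟩)
      exact (this.eventually (gt_mem_nhds e)).mono fun _ hs => hs.le
  obtain ⟨u, hu, hsub⟩ := mem_nhdsGT_iff_exists_Ioc_subset.mp
    ((Filter.eventually_all.mpr ev).and (Ioo_mem_nhdsGT h))
  have : u ∈ S := ⟨⟨ac.trans (le_of_lt hu), (hsub ⟨hu, le_rfl⟩).2.2.le⟩, fun t ht i => by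
    rcases le_or_gt t c with h1 | h1
    · exact all t ⟨ht.1, h1⟩ i
    · exact (hsub ⟨h1, ht.2⟩).1 i⟩
  exact absurd (le_csSup bdd this) (not_le.mpr hu)

/-- Simultaneous barrier for a finite family; the whole past may be used. -/
theorem family_barrier {ι : Type} [Finite ι] {H : ι → ℝ → ℝ} {a b : ℝ}
    (hc : ∀ i, ContinuousOn (H i) (Icc a b)) (h0 : ∀ i, H i a ≤ 0)
    (step : ∀ t ∈ Ico a b, (∀ s ∈ Icc a t, ∀ i, H i s ≤ 0) → ∀ i, H i t = 0 →
      ∃ D < 0, HasDerivWithinAt (H i) D (Ici t) t) :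
    ∀ t ∈ Icc a b, ∀ i, H i t ≤ 0 := by
  intro t ht
  obtain ⟨c, hc', all, h | ⟨i, e, fr⟩⟩ := first_hit (ht.1.trans ht.2) hc h0
  · exact all t (h ▸ ht)
  rcases hc'.2.eq_or_lt with h | h
  · exact all t (h ▸ ht)
  obtain ⟨D, D0, hD⟩ := step c ⟨hc'.1, h⟩ all i e
  have h1 : Tendsto (slope (H i) c) (𝓝[>] c) (𝓝 D) := by
    have := hasDerivWithinAt_iff_tendsto_slope.mp hD
    rwa [Ici_sdiff_left] at this
  have h2 := (h1.eventually (gt_mem_nhds D0)).and self_mem_nhdsWithin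
  obtain ⟨s, s1, s2, s3⟩ := (fr.and_eventually h2).exists
  rw [slope_def_field, e, sub_zero] at s2
  exact absurd (div_pos s1 (sub_pos.mpr s3)) (not_lt.mpr s2.le)

/-- Barrier for one function. -/
theorem barrier {F G : ℝ → ℝ} {a b : ℝ} (ha : 0 ≤ a) (h0 : F a ≤ G a)
    (H : ∀ t ∈ Icc a b, ∃ D D', HD F D t ∧ HD G D' t ∧ (F t = G t → D < D')) :
    ∀ t ∈ Icc a b, F t ≤ G t := by
  have := family_barrier (ι := Unit) (H := fun _ t => F t - G t) (a := a) (b := b)
    (fun _ => contOn_of_HD ha fun t ht => by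
      obtain ⟨D, D', h1, h2, -⟩ := H t ht
      exact ⟨_, h1.sub h2⟩) (fun _ => by linarith) fun t ht _ _ e => by
      obtain ⟨D, D', h1, h2, h3⟩ := H t (Ico_subset_Icc_self ht)
      exact ⟨D - D', by linarith [h3 (by linarith)], HD.right (h1.sub h2) (ha.trans ht.1)⟩
  exact fun t ht => by linarith [this t ht ()]

/-- Comparison of derivatives. -/
theorem le_of_deriv_le {F G : ℝ → ℝ} {a b : ℝ} (ha : 0 ≤ a) (h0 : F a ≤ G a)
    (H : ∀ t ∈ Icc a b, ∃ D D', HD F D t ∧ HD G D' t ∧ D ≤ D') :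
    ∀ t ∈ Icc a b, F t ≤ G t := by
  intro t ht
  refine le_of_forall_pos_le_add fun ε hε => ?_
  have hb : 0 < b - a + 1 := by linarith [ht.1, ht.2]
  have := barrier (F := F) (G := fun t => G t + ε / (b - a + 1) * (t - a)) (b := b) ha (by simpa)
    (fun s hs => by
      obtain ⟨D, D', h1, h2, h3⟩ := H s hs
      refine ⟨D, _, h1, h2.add (((hasDerivWithinAt_id s _).sub_const a).const_mul _), fun _ => ?_⟩
      have : 0 < ε / (b - a + 1) := by positivity
      linarith) t ht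
  refine this.trans (add_le_add_right ?_ _)
  rw [div_mul_eq_mul_div, div_le_iff₀ hb]
  nlinarith only [hε, ht.2]

/-- Monotonicity. -/
theorem mono_of_deriv {F : ℝ → ℝ} {a b : ℝ} (ha : 0 ≤ a)
    (H : ∀ t ∈ Icc a b, ∃ D, HD F D t ∧ 0 ≤ D) {s t : ℝ} (hs : a ≤ s) (hst : s ≤ t) (ht : t ≤ b) :
    F s ≤ F t :=
  le_of_deriv_le (F := fun _ => F s) (G := F) (b := t) (ha.trans hs) le_rfl (fun u hu => by
    obtain ⟨D, h1, h2⟩ := H u ⟨hs.trans hu.1, hu.2.trans ht⟩
    exact ⟨0, D, hasDerivWithinAt_const _ _ _, h1, h2⟩) t ⟨hst, le_rfl⟩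

/-- Lower comparison with an exponential: `F' ≥ τ' F` gives `F t ≥ F a exp (τ t - τ a)`. -/
theorem exp_le_of_deriv {F τ : ℝ → ℝ} {a b : ℝ} (ha : 0 ≤ a)
    (H : ∀ t ∈ Icc a b, ∃ D s, HD F D t ∧ HD τ s t ∧ s * F t ≤ D) :
    ∀ t ∈ Icc a b, F a * Real.exp (τ t - τ a) ≤ F t := by
  intro t ht
  have := mono_of_deriv (F := fun t => F t * Real.exp (-τ t)) (b := b) ha (fun u hu => by
    obtain ⟨D, s, h1, h2, h3⟩ := H u hu
    refine ⟨_, h1.mul h2.neg.exp, ?_⟩
    have := Real.exp_pos (-τ u)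
    simp only [Pi.neg_apply]
    nlinarith only [h3, this]) le_rfl ht.1 ht.2
  have e : Real.exp (τ t - τ a) = Real.exp (-τ a) * Real.exp (τ t) := by
    rw [← Real.exp_add]; ring_nf
  have e2 : Real.exp (-τ t) * Real.exp (τ t) = 1 := by rw [← Real.exp_add]; simp
  calc F a * Real.exp (τ t - τ a) = F a * Real.exp (-τ a) * Real.exp (τ t) := by rw [e]; ring
    _ ≤ F t * Real.exp (-τ t) * Real.exp (τ t) := by gcongr
    _ = F t := by rw [mul_assoc, e2, mul_one]

/-- Barrier for the distance travelled. -/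
theorem norm_sub_le_of_deriv {E : Type} [NormedAddCommGroup E] [NormedSpace ℝ E] {f : ℝ → E}
    {G : ℝ → ℝ} {a b : ℝ} (ha : 0 ≤ a)
    (H : ∀ t ∈ Icc a b, ∃ D D', HD f D t ∧ HD G D' t ∧ ‖D‖ ≤ D') :
    ∀ t ∈ Icc a b, ‖f t - f a‖ ≤ G t - G a := by
  classical
  choose! D D' h1 h2 h3 using H
  intro t ht
  refine image_norm_le_of_norm_deriv_right_le_deriv_boundary' (f := fun t => f t - f a) (f' := D)
    (B := fun t => G t - G a) (B' := D') (a := a) (b := b)
    (contOn_of_HD ha fun s hs => ⟨_, (h1 s hs).sub_const _⟩)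
    (fun s hs => HD.right ((h1 s (Ico_subset_Icc_self hs)).sub_const _) (ha.trans hs.1)) (by simp)
    (contOn_of_HD ha fun s hs => ⟨_, (h2 s hs).sub_const _⟩)
    (fun s hs => HD.right ((h2 s (Ico_subset_Icc_self hs)).sub_const _) (ha.trans hs.1))
    (fun s hs => h3 s (Ico_subset_Icc_self hs)) ht

/-- Primitive of a continuous function. -/
theorem exists_prim {g : ℝ → ℝ} {a b : ℝ} (hab : a ≤ b) (hg : ContinuousOn g (Icc a b)) :
    ∃ G : ℝ → ℝ, G a = 0 ∧ ∀ t ∈ Icc a b, HD G (g t) t := by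
  have hc : Continuous (IccExtend hab fun x : Icc a b => g x) :=
    (continuousOn_iff_continuous_domRestrict.mp hg).Icc_extend'
  refine ⟨fun t => ∫ s in a..t, IccExtend hab (fun x : Icc a b => g x) s, by simp, fun t ht => ?_⟩
  have := (hc.integral_hasStrictDerivAt a t).hasDerivAt.hasDerivWithinAt (s := Ici 0)
  rwa [IccExtend_of_mem hab _ ht] at this

/-- Solution of a scalar linear equation. -/
theorem exists_lin {s g : ℝ → ℝ} {a b : ℝ} (ha : 0 ≤ a) (hab : a ≤ b)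
    (hs : ContinuousOn s (Icc a b)) (hg : ContinuousOn g (Icc a b)) (x0 : ℝ) :
    ∃ G : ℝ → ℝ, G a = x0 ∧ ∀ t ∈ Icc a b, HD G (s t * G t + g t) t := by
  obtain ⟨τ, τ0, hτ⟩ := exists_prim hab hs
  have cτ : ContinuousOn τ (Icc a b) := contOn_of_HD ha fun t ht => ⟨_, hτ t ht⟩
  obtain ⟨J, J0, hJ⟩ := exists_prim (g := fun t => Real.exp (-τ t) * g t) hab
    (cτ.neg.rexp.mul hg)
  refine ⟨fun t => Real.exp (τ t) * (x0 + J t), by simp [τ0, J0], fun t ht => ?_⟩
  convert (hτ t ht).exp.fun_mul ((hJ t ht).const_add x0) using 1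
  rw [← mul_assoc (Real.exp (τ t)), ← Real.exp_add]
  simp; ring

/-- A level is attained. -/
theorem exists_level {F : ℝ → ℝ} {a b c : ℝ} (hab : a ≤ b) (hF : ContinuousOn F (Icc a b))
    (h1 : F a ≤ c) (h2 : c ≤ F b) : ∃ t ∈ Icc a b, F t = c :=
  intermediate_value_Icc hab hF ⟨h1, h2⟩

/-! Derivative rules for envelopes -/

section rules

variable {f g : ℝ → V} {f' g' : V} {t : ℝ}

lemma HD.lin {F : Type} [NormedAddCommGroup F] [NormedSpace ℝ F] (L : V →ₗ[ℝ] F) {C : ℝ}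
    (hL : ∀ v, ‖L v‖ ≤ C * ‖v‖) (h : HD f f' t) : HD (fun t => L (f t)) (L f') t :=
  (L.mkContinuous C hL).hasFDerivAt.comp_hasDerivWithinAt t h

lemma HD.linc {F : Type} [NormedAddCommGroup F] [NormedSpace ℝ F] [Module ℂ F]
    [IsScalarTower ℝ ℂ F] (L : V →ₗ[ℂ] F) {C : ℝ}
    (hL : ∀ v, ‖L v‖ ≤ C * ‖v‖) (h : HD f f' t) : HD (fun t => L (f t)) (L f') t :=
  HD.lin (L.restrictScalars ℝ) hL h

lemma HD.coeff (h : HD f f' t) (k : Z3) : HD (fun t => (f t).coeff k) (f'.coeff k) t :=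
  HD.lin (C := 1) ⟨⟨fun v => v.coeff k, fun _ _ => rfl⟩, fun _ _ => rfl⟩
    (fun v => by simpa using norm_coeff_le v k) h

lemma HD.mul_const' (h : HD f f' t) (q : V) : HD (fun t => f t * q) (f' * q) t :=
  HD.linc (LinearMap.mulRight ℂ q) (C := l1 q)
    (fun v => by simpa [mul_comm] using norm_mul_le_l1' v q) h

lemma HD.prm (h : HD f f' t) (e : Z3 ≃+ Z3) : HD (fun t => prm e (f t)) (prm e f') t :=
  HD.linc (Dec.prm e).toLinearMap (C := 1) (fun v => by simp [norm_prm]) h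

lemma HD.re {c : ℝ → ℂ} {c' : ℂ} (h : HD c c' t) : HD (fun t => (c t).re) c'.re t :=
  Complex.reCLM.hasFDerivAt.comp_hasDerivWithinAt t h

lemma HD.ofReal {c : ℝ → ℝ} {c' : ℝ} (h : HD c c' t) : HD (fun t => (c t : ℂ)) (c' : ℂ) t :=
  Complex.ofRealCLM.hasFDerivAt.comp_hasDerivWithinAt t h

lemma HD.re_inner (hf : HD f f' t) (hg : HD g g' t) :
    HD (fun t => (⟪f t, g t⟫_ℂ).re) ((⟪f t, g'⟫_ℂ).re + (⟪f', g t⟫_ℂ).re) t := by
  simpa using HD.re (hf.inner ℂ hg)

lemma HD.normsq {E : Type} [NormedAddCommGroup E] [InnerProductSpace ℂ E] [NormedSpace ℝ E]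
    {f : ℝ → E} {f' : E} (hf : HD f f' t) :
    HD (fun t => ‖f t‖ ^ 2) (2 * (⟪f t, f'⟫_ℂ).re) t := by
  have := HD.re (hf.inner ℂ hf)
  simp only [← RCLike.re_to_complex, ← @norm_sq_eq_re_inner ℂ] at this
  convert this using 1
  rw [map_add, inner_re_symm f', two_mul, RCLike.re_to_complex]

/-- A family with differentiable coefficients is differentiable. -/
lemma hd_mk (s : Finset Z3) {a : ℝ → Z3 → ℂ} {a' : Z3 → ℂ}
    (H : ∀ h ∈ s, HD (fun t => a t h) (a' h) t) : HD (fun t => mk s (a t)) (mk s a') t := by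
  unfold mk
  refine HasDerivWithinAt.fun_sum fun h hh => ?_
  have := (H h hh).smul_const (AddMonoidAlgebra.single h 1 : V)
  simpa using this

end rules

end

end Pool.Agent.Work.MP_6bf1e5_an.Hyp.Dec

end

section

open Set Complex MeasureTheory
open scoped InnerProductSpace ComplexConjugate
open Pool.Agent.Work.MP_6bf1e5_an.B (Z3 R3 box)

namespace Pool.Agent.Work.MP_6bf1e5_an.Hyp.Dec

noncomputable section

lemma int_char (k : ℤ) : ∫ x in Icc (-Real.pi) Real.pi, Complex.exp (I * k * (x : ℝ)) =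
    if k = 0 then ((2 * Real.pi : ℝ) : ℂ) else 0 := by
  rw [integral_Icc_eq_integral_Ioc, ← intervalIntegral.integral_of_le (by linarith [Real.pi_pos])]
  split_ifs with hk
  · simp [hk, two_mul]
  · rw [integral_exp_mul_complex (mul_ne_zero I_ne_zero (by exact_mod_cast hk))]
    have : Complex.exp (I * k * (Real.pi : ℝ)) = Complex.exp (I * k * ((-Real.pi : ℝ) : ℂ)) := by
      rw [← mul_one (Complex.exp (I * k * ((-Real.pi : ℝ) : ℂ))),
        ← Complex.exp_int_mul_two_pi_mul_I k, ← Complex.exp_add]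
      congr 1; push_cast; ring
    rw [this, sub_self, zero_div]

lemma cube_measure : (volume : Measure R3).restrict cube =
    Measure.pi fun _ => (volume : Measure ℝ).restrict (Icc (-Real.pi) Real.pi) := by
  rw [cube, ← pi_univ_Icc, volume_pi, Measure.restrict_pi_pi]

lemma integrableOn_cube' {E : Type} [NormedAddCommGroup E] {g : R3 → E} (hg : Continuous g) :
    IntegrableOn g cube := hg.continuousOn.integrableOn_compact isCompact_Icc

lemma int_ev (g : V) : ∫ x in cube, ev x g = ((2 * Real.pi : ℝ) : ℂ) ^ 3 * g.coeff 0 := by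
  induction g using AddMonoidAlgebra.induction_linear with
  | zero => simp
  | add f g hf hg =>
    simp only [map_add]
    rw [integral_add (integrableOn_cube' (continuous_ev f)) (integrableOn_cube' (continuous_ev g)),
      hf, hg]
    simp [mul_add]
  | single h c =>
    have e : ∀ x : R3, ev x (AddMonoidAlgebra.single h c) =
        c * ∏ i, Complex.exp (I * h i * (x i : ℝ)) := fun x => by
      rw [ev_single, ← Complex.exp_sum, pr]
      push_cast
      rw [Finset.mul_sum]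
      simp only [mul_assoc]
    simp only [e]
    rw [integral_const_mul, cube_measure,
      integral_fintype_prod_eq_prod (fun i (x : ℝ) => Complex.exp (I * h i * x))]
    simp only [int_char]
    by_cases hh : h = 0
    · simp [hh, mul_comm]
    · obtain ⟨i, hi⟩ := Function.ne_iff.mp hh
      rw [Finset.prod_eq_zero (Finset.mem_univ i) (if_neg hi)]
      simp [hh]

theorem parseval (f : V) : ∫ x in cube, ‖ev x f‖ ^ 2 = (2 * Real.pi) ^ 3 * ‖f‖ ^ 2 := by
  have h := int_ev (dag f * f)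
  rw [← inner_eq_coeff, inner_self_eq_norm_sq_to_K] at h
  simp only [map_mul, ev_dag, Complex.conj_mul'] at h
  have h2 : ∫ x in cube, ((‖ev x f‖ : ℂ)) ^ 2 = ((∫ x in cube, ‖ev x f‖ ^ 2 : ℝ) : ℂ) := by
    rw [← integral_complex_ofReal]; simp
  rw [h2] at h
  refine Complex.ofReal_injective (h.trans ?_)
  simp

lemma integrableOn_cube {g : R3 → ℝ} (hg : Continuous g) : IntegrableOn g cube := by
  exact integrableOn_cube' hg

/-- A pointwise inequality between symbols gives an inequality between norms. -/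
theorem normsq_le_of_symbol {ι κ : Type} (s : Finset ι) (s' : Finset κ) (f : ι → V) (g : κ → V)
    (a : ι → ℝ) (b : κ → ℝ)
    (H : ∀ x ∈ cube, ∑ i ∈ s, a i * ‖ev x (f i)‖ ^ 2 ≤ ∑ i ∈ s', b i * ‖ev x (g i)‖ ^ 2) :
    ∑ i ∈ s, a i * ‖f i‖ ^ 2 ≤ ∑ i ∈ s', b i * ‖g i‖ ^ 2 := by
  have c : ∀ f : V, Continuous fun x : R3 => ‖ev x f‖ ^ 2 := fun f => (continuous_ev f).norm.pow 2
  have key : ∀ {ι : Type} (s : Finset ι) (f : ι → V) (a : ι → ℝ),
      ∫ x in cube, ∑ i ∈ s, a i * ‖ev x (f i)‖ ^ 2 =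
        (2 * Real.pi) ^ 3 * ∑ i ∈ s, a i * ‖f i‖ ^ 2 := fun s f a => by
    rw [integral_finsetSum _ fun i _ => integrableOn_cube ((c _).const_mul (a i)),
      Finset.mul_sum]
    exact Finset.sum_congr rfl fun i _ => by rw [integral_const_mul, parseval]; ring
  have := setIntegral_mono_on
    (integrableOn_cube (continuous_finsetSum s fun i _ => (c (f i)).const_mul (a i)))
    (integrableOn_cube (continuous_finsetSum s' fun i _ => (c (g i)).const_mul (b i)))
    measurableSet_Icc H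
  rw [key, key] at this
  exact le_of_mul_le_mul_left this (by have := Real.pi_pos; positivity)

theorem norm_mul_le_of_symbol {p : V} {c : ℝ} (hc : 0 ≤ c) (H : ∀ x ∈ cube, ‖ev x p‖ ≤ c) (f : V) :
    ‖p * f‖ ≤ c * ‖f‖ := by
  have := normsq_le_of_symbol (ι := Unit) (κ := Unit) {()} {()} (fun _ => p * f) (fun _ => f)
    (fun _ => 1) (fun _ => c ^ 2) fun x hx => by
      simp only [Finset.sum_singleton, one_mul, map_mul, norm_mul, mul_pow]
      gcongr
      exact H x hx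
  simp only [Finset.sum_singleton, one_mul] at this
  exact (pow_le_pow_iff_left₀ (norm_nonneg _) (by positivity) two_ne_zero).mp (by rwa [mul_pow])

lemma th_pos (n : ℕ) : 0 < th n := by
  unfold th; have := Real.pi_pos; positivity

lemma th_mul (n : ℕ) : th n * (n + 1) = Real.pi / 2 := by
  unfold th; field_simp

lemma th_le (n : ℕ) : th n ≤ Real.pi / 2 := by
  rw [← th_mul n]
  nlinarith [th_pos n, (Nat.cast_nonneg n : (0 : ℝ) ≤ n)]

lemma cos_th_nonneg {n : ℕ} {k : ℤ} (hk : |k| ≤ n + 1) : 0 ≤ Real.cos (th n * k) := by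
  have h1 : |(k : ℝ)| ≤ n + 1 := by exact_mod_cast hk
  have h2 : |th n * k| ≤ Real.pi / 2 := by
    rw [abs_mul, abs_of_pos (th_pos n), ← th_mul n]
    exact mul_le_mul_of_nonneg_left h1 (th_pos n).le
  exact Real.cos_nonneg_of_neg_pi_div_two_le_of_le (abs_le.mp h2).1 (abs_le.mp h2).2

lemma sum_Icc_succ (g : ℤ → ℝ) (n : ℕ) : ∑ k ∈ Finset.Icc (-((n + 1 : ℕ) : ℤ)) (n + 1 : ℕ), g k =
    ∑ k ∈ Finset.Icc (-(n : ℤ)) n, g k + (g (-(n + 1)) + g (n + 1)) := by
  have : Finset.Icc (-((n + 1 : ℕ) : ℤ)) (n + 1 : ℕ) =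
      insert (-(n + 1 : ℤ)) (insert (n + 1 : ℤ) (Finset.Icc (-(n : ℤ)) n)) := by
    ext k; simp only [Finset.mem_Icc, Finset.mem_insert]; omega
  rw [this, Finset.sum_insert (by simp only [Finset.mem_Icc, Finset.mem_insert]; omega),
    Finset.sum_insert (by simp only [Finset.mem_Icc]; omega)]
  ring

lemma dirichlet (a : ℝ) (n : ℕ) : Real.sin a * ∑ k ∈ Finset.Icc (-(n : ℤ)) n, Real.cos (2 * a * k) =
    Real.sin ((2 * n + 1) * a) := by
  induction n with
  | zero => simp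
  | succ n ih =>
    rw [sum_Icc_succ, mul_add, ih]
    push_cast
    rw [mul_neg, Real.cos_neg, show (2 * ((n : ℝ) + 1) + 1) * a = 2 * a * (n + 1) + a by ring,
      show (2 * (n : ℝ) + 1) * a = 2 * a * (n + 1) - a by ring, Real.sin_add, Real.sin_sub]
    ring

lemma sum_cos_sq (n : ℕ) : ∑ k ∈ Finset.Icc (-(n : ℤ)) n, Real.cos (th n * k) ^ 2 = n + 1 := by
  have h := dirichlet (th n) n
  have s0 : 0 < Real.sin (th n) :=
    Real.sin_pos_of_pos_of_lt_pi (th_pos n) (by linarith [th_le n, Real.pi_pos])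
  rw [show (2 * (n : ℝ) + 1) * th n = Real.pi - th n by linarith only [th_mul n], Real.sin_pi_sub] at h
  have h1 : ∑ k ∈ Finset.Icc (-(n : ℤ)) n, Real.cos (2 * th n * k) = 1 :=
    mul_left_cancel₀ s0.ne' (by rw [h, mul_one])
  simp only [Real.cos_sq, ← mul_assoc, Finset.sum_add_distrib, ← Finset.sum_div, h1]
  simp only [Finset.sum_const, Int.card_Icc, nsmul_eq_mul]
  rw [show ((n : ℤ) + 1 - -(n : ℤ)).toNat = 2 * n + 1 by omega]
  push_cast; ring

lemma abs_prod3_sub {a b : Fin 3 → ℝ} (ha : ∀ i, |a i| ≤ 1) (hb : ∀ i, |b i| ≤ 1) :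
    |∏ i, a i - ∏ i, b i| ≤ ∑ i, |a i - b i| := by
  simp only [Fin.prod_univ_three, Fin.sum_univ_three]
  have e : a 0 * a 1 * a 2 - b 0 * b 1 * b 2 =
      (a 0 - b 0) * (a 1 * a 2) + (a 1 - b 1) * (b 0 * a 2) + (a 2 - b 2) * (b 0 * b 1) := by ring
  have k : ∀ x u v : ℝ, |u| ≤ 1 → |v| ≤ 1 → |x * (u * v)| ≤ |x| := fun x u v hu hv => by
    rw [abs_mul, abs_mul]
    exact mul_le_of_le_one_right (abs_nonneg _) (mul_le_one₀ hu (abs_nonneg _) hv)
  rw [e]
  exact (abs_add_three _ _ _).trans (add_le_add (add_le_add (k _ _ _ (ha 1) (ha 2))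
    (k _ _ _ (hb 0) (ha 2))) (k _ _ _ (hb 0) (hb 1)))

/-- The profile extended by zero. -/
def cb (n : ℕ) (k : ℤ) : ℝ := Real.cos (th n * max (-(n + 1 : ℝ)) (min (k : ℝ) (n + 1)))

lemma cb_of_le {n : ℕ} {k : ℤ} (hk : |k| ≤ n) : cb n k = Real.cos (th n * k) := by
  have : |(k : ℝ)| ≤ n := by exact_mod_cast hk
  rw [cb, min_eq_left (by linarith [le_abs_self (k : ℝ)]),
    max_eq_right (by linarith [neg_abs_le (k : ℝ)])]

lemma cb_of_gt {n : ℕ} {k : ℤ} (hk : ¬|k| ≤ n) : cb n k = 0 := by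
  have n0 : (0 : ℝ) ≤ n := Nat.cast_nonneg n
  rw [abs_le] at hk
  rcases (by omega : (n : ℤ) + 1 ≤ k ∨ k ≤ -(n + 1)) with h | h
  · have : (n : ℝ) + 1 ≤ k := by exact_mod_cast h
    rw [cb, min_eq_right this, max_eq_right (by linarith), th_mul, Real.cos_pi_div_two]
  · have : (k : ℝ) ≤ -(n + 1) := by exact_mod_cast h
    rw [cb, min_eq_left (by linarith only [this]), max_eq_left this, mul_neg, Real.cos_neg, th_mul,
      Real.cos_pi_div_two]

lemma cb_lip (n : ℕ) (a b : ℤ) : |cb n a - cb n b| ≤ th n * |(a : ℝ) - b| := by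
  refine (Real.abs_cos_sub_cos_le _ _).trans ?_
  rw [← mul_sub, abs_mul, abs_of_pos (th_pos n)]
  refine mul_le_mul_of_nonneg_left ?_ (th_pos n).le
  refine (abs_max_sub_max_le_max _ _ _ _).trans (max_le (by simp) ?_)
  exact (abs_min_sub_min_le_max _ _ _ _).trans (max_le le_rfl (by simp))

end

end Pool.Agent.Work.MP_6bf1e5_an.Hyp.Dec

end
end

-- merged part: Pool.Agent.Work.MP_6bf1e5_an.Hyp.Box
section
/-!
Anisotropic boxes, their ground states, and normalised drivers.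
-/

open Set Complex Filter Topology
open scoped InnerProductSpace ComplexConjugate
open Pool.Agent.Work.MP_6bf1e5_an.B (Z3 R3)
open Pool.Agent.Work.MP_6bf1e5_an.Hyp.Dec

namespace Pool.Agent.Work.MP_6bf1e5_an.Hyp

noncomputable section

/-- Radii of a box. -/
abbrev N3 := Fin 3 → ℕ

/-- The box with radii `n`. -/
def bx (n : N3) : Finset Z3 := Fintype.piFinset fun i => Finset.Icc (-(n i : ℤ)) (n i)

/-- Support in the box with radii `n`. -/
def Sp (n : N3) (f : V) : Prop := ∀ h, h ∉ bx n → f.coeff h = 0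

/-- The projection onto the box with radii `n`. -/
def pj (n : N3) : V →ₗ[ℂ] V := mulc fun h => if h ∈ bx n then 1 else 0

/-- The square root of the volume of the half box. -/
def Nn (n : N3) : ℝ := √(∏ i, ((n i : ℝ) + 1))

/-- The normalised ground state of the box. -/
def ph (n : N3) : V := mk (bx n) fun h => (((Nn n)⁻¹ * ∏ i, Real.cos (th (n i) * h i) : ℝ) : ℂ)

/-- Real coefficients. -/
def Rl (f : V) : Prop := ∀ h, (f.coeff h).im = 0

/-- The inverse cyclic permutation of the coordinates. -/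
def tauE : Z3 ≃+ Z3 where
  toFun h := ![h 1, h 2, h 0]
  invFun h := ![h 2, h 0, h 1]
  left_inv h := by ext i; fin_cases i <;> rfl
  right_inv h := by ext i; fin_cases i <;> rfl
  map_add' a b := by ext i; fin_cases i <;> rfl

/-- The envelope rotated by `(x, y, z) ↦ (z, x, y)`. -/
def tau (f : V) : V := prm tauE f

/-- The unit mass at `k`. -/
def sh (k : Z3) : V := AddMonoidAlgebra.single k 1

/-- The rotated triple `(a 2, a 0, a 1)`. -/
def rot3 {α : Type} (a : Fin 3 → α) : Fin 3 → α := ![a 2, a 0, a 1]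

/-- The scaled squared length. -/
def sqr (r : N3) (x : R3) : ℝ := ∑ i, ((r i : ℝ) * x i) ^ 2

/-- Damping concentrated on a thin layer. -/
structure Lay (n : N3) (l : ℝ) (v : Z3 → ℝ) : Prop where
  nonneg : ∀ h, 0 ≤ v h
  l0 : 0 ≤ l
  small : ∑ h ∈ bx n, v h ^ 2 ≤ (l * Nn n) ^ 2

/-- Normalised drivers of scale `r`. -/
structure Drv (T : ℝ) (r : N3) (mv : Fin 3 → ℝ) (κ : ℝ) (p : V) : Prop where
  supp : Sp (fun i => 2 * r i) p
  real : Rl p
  one : ev 0 p = 1
  l1_le : l1 p ≤ 2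
  far : ∀ x ∈ cube, ‖ev x p‖ ^ 2 ≤ 1 - 1 / 10 ^ 10 * min (T ^ 16)⁻¹ (sqr r x)
  mix : ∀ i j, i ≠ j → ‖ev 0 (mulr (fun k => (k i : ℝ) * k j) (dag p * p))‖ ≤ κ * (r i * r j)
  mom : ∀ i x, |(conj (ev x p) * ev x (mulr (fun k => (k i : ℝ)) p)).re| ≤ mv i

/-- The size of the loss at the ground state. -/
def mu (ρ : ℝ) : ℝ := (Real.pi / (2 * ρ)) ^ 2

/-- Spectral gap of the convolution with `p` on the box with radii `n`. -/
def Gap (n : N3) (μ η : ℝ) (p : V) : Prop :=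
  ∃ μ' : ℝ, 0 ≤ μ' ∧ μ' ≤ 200 * μ ∧ Qf p (ph n) ≤ μ' + η * μ ∧
    ∀ y, Sp n y → μ' * ‖y‖ ^ 2 + 1 / 10 ^ 10 * μ * (‖y‖ ^ 2 - ‖⟪ph n, y⟫_ℂ‖ ^ 2) ≤ Qf p y

/-- The norm of a pair. -/
def nr (B C : V) : ℝ := √(‖B‖ ^ 2 + ‖C‖ ^ 2)

/-- The component of a pair along the unstable direction of the driver `p`. -/
def al (n : N3) (p B C : V) : ℝ := (⟪ph n, B⟫_ℂ).re + (⟪p * ph n, C⟫_ℂ).re

/-! Boxes and supports -/

lemma mem_bx {n : N3} {k : Z3} : k ∈ bx n ↔ ∀ i, |k i| ≤ n i := by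
  simp [bx, abs_le]

lemma card_bx (n : N3) : (bx n).card = ∏ i, (2 * n i + 1) := by
  rw [bx, Fintype.card_piFinset]
  refine Finset.prod_congr rfl fun i _ => ?_
  rw [Int.card_Icc]
  omega

lemma bx_mono {m n : N3} (h : ∀ i, m i ≤ n i) : bx m ⊆ bx n := by
  intro k hk
  rw [mem_bx] at *
  intro i
  have := hk i
  have := h i
  omega

lemma add_mem_bx {m n : N3} {a b : Z3} (ha : a ∈ bx m) (hb : b ∈ bx n) : a + b ∈ bx (m + n) := by
  rw [mem_bx] at *
  intro i
  have := abs_add_le (a i) (b i)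
  have := ha i
  have := hb i
  simp only [Pi.add_apply]; push_cast; linarith

lemma neg_mem_bx {n : N3} {a : Z3} : -a ∈ bx n ↔ a ∈ bx n := by simp [mem_bx]

lemma zero_mem_bx (n : N3) : (0 : Z3) ∈ bx n := by simp [mem_bx]

lemma Sp.subset {n : N3} {f : V} (H : Sp n f) : f.coeff.support ⊆ bx n := by
  intro h hh
  by_contra hn
  exact Finsupp.mem_support_iff.mp hh (H h hn)

lemma sp_of_subset {n : N3} {f : V} (H : f.coeff.support ⊆ bx n) : Sp n f := by
  exact fun _ hn => Finsupp.notMem_support_iff.mp fun h' => hn (H h')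

lemma Sp.mono {m n : N3} {f : V} (H : Sp m f) (h : ∀ i, m i ≤ n i) : Sp n f := by
  exact fun k hk => H k fun h' => hk (bx_mono h h')

lemma sp_zero (n : N3) : Sp n 0 := fun _ _ => rfl

lemma Sp.add {n : N3} {f g : V} (hf : Sp n f) (hg : Sp n g) : Sp n (f + g) := by
  exact fun k hk => by simp [hf k hk, hg k hk]

lemma Sp.sub {n : N3} {f g : V} (hf : Sp n f) (hg : Sp n g) : Sp n (f - g) := by
  exact fun k hk => by simp [hf k hk, hg k hk]

lemma Sp.neg {n : N3} {f : V} (hf : Sp n f) : Sp n (-f) := by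
  exact fun k hk => by simp [hf k hk]

lemma Sp.smul {n : N3} {f : V} (hf : Sp n f) (c : ℂ) : Sp n (c • f) := by
  exact fun k hk => by simp [hf k hk]

lemma Sp.sum {ι : Type} {n : N3} (s : Finset ι) {f : ι → V} (hf : ∀ i ∈ s, Sp n (f i)) :
    Sp n (∑ i ∈ s, f i) := by
  classical
  induction s using Finset.induction_on with
  | empty => simpa using sp_zero n
  | insert a s ha ih =>
    rw [Finset.sum_insert ha]
    exact (hf a (Finset.mem_insert_self _ _)).add
      (ih fun i hi => hf i (Finset.mem_insert_of_mem hi))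

lemma Sp.mul {m n : N3} {f g : V} (hf : Sp m f) (hg : Sp n g) : Sp (m + n) (f * g) := by
  intro h hh
  rw [coeff_mul_eq g hf.subset]
  refine Finset.sum_eq_zero fun k hk => ?_
  rw [hg (h - k) fun h' => hh (by simpa using add_mem_bx hk h'), mul_zero]

lemma sp_mk (n : N3) (g : Z3 → ℂ) : Sp n (mk (bx n) g) := by
  exact sp_of_subset (support_mk _ _)

lemma sp_sh {n : N3} {k : Z3} (hk : k ∈ bx n) : Sp n (sh k) := by
  intro h hh
  have : k ≠ h := fun e => hh (e ▸ hk)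
  simp [sh, this]

lemma Sp.mulc {n : N3} {f : V} (hf : Sp n f) (d : Z3 → ℂ) : Sp n (mulc d f) := by
  exact fun k hk => by simp [hf k hk]

lemma Sp.mulr {n : N3} {f : V} (hf : Sp n f) (d : Z3 → ℝ) : Sp n (mulr d f) := hf.mulc _

lemma Sp.wt {n : N3} {f : V} (hf : Sp n f) (ξ : R3) : Sp n (wt ξ f) := hf.mulc _

lemma Sp.dag {n : N3} {f : V} (hf : Sp n f) : Sp n (dag f) := by
  exact fun k hk => by rw [coeff_dag, hf _ fun h => hk (neg_mem_bx.mp h)]; simp

lemma Sp.tau {n : N3} {f : V} (hf : Sp n f) : Sp (rot3 n) (tau f) := by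
  intro h hh
  rw [Hyp.tau, coeff_prm]
  refine hf _ fun h' => hh ?_
  rw [mem_bx] at *
  intro i
  fin_cases i
  · exact h' 2
  · exact h' 0
  · exact h' 1

lemma coeff_pj (n : N3) (f : V) (h : Z3) :
    (pj n f).coeff h = if h ∈ bx n then f.coeff h else 0 := by simp [pj]

lemma sp_pj (n : N3) (f : V) : Sp n (pj n f) := by
  exact fun h hh => by simp [coeff_pj, hh]

lemma Sp.pj_eq {n : N3} {f : V} (H : Sp n f) : pj n f = f := by
  ext h
  rw [coeff_pj]
  split_ifs with hh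
  · rfl
  · exact (H h hh).symm

lemma norm_pj_le (n : N3) (f : V) : ‖pj n f‖ ≤ ‖f‖ := by
  simpa [pj] using norm_mulc_le (d := fun h => if h ∈ bx n then 1 else 0) zero_le_one (f := f)
    fun h _ => by split_ifs <;> simp

lemma l1_pj_le (n : N3) (f : V) : l1 (pj n f) ≤ l1 f := by
  simpa using l1_le_of_coeff (f := pj n f) (g := f) zero_le_one fun h => by
    rw [coeff_pj]; split_ifs <;> simp

lemma inner_pj_left (n : N3) (f g : V) : ⟪pj n f, g⟫_ℂ = ⟪f, pj n g⟫_ℂ := by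
  rw [pj, inner_mulc_left]
  congr 3
  funext h
  split_ifs <;> simp

lemma Sp.inner_pj {n : N3} {f : V} (H : Sp n f) (g : V) : ⟪f, pj n g⟫_ℂ = ⟪f, g⟫_ℂ := by
  rw [← inner_pj_left, H.pj_eq]

lemma wt_pj (ξ : R3) (n : N3) (f : V) : wt ξ (pj n f) = pj n (wt ξ f) := by
  ext h; simp [coeff_wt, coeff_pj]

lemma Nn_pos (n : N3) : 0 < Nn n := Real.sqrt_pos.mpr (by positivity)

lemma Nn_sq (n : N3) : Nn n ^ 2 = ∏ i, ((n i : ℝ) + 1) := Real.sq_sqrt (by positivity)

lemma Nn_le {m n : N3} {c : ℝ} (hc : 0 ≤ c) (h : ∀ i, (m i : ℝ) + 1 ≤ c ^ 2 * (n i + 1)) :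
    Nn m ≤ c ^ 3 * Nn n := by
  refine Real.sqrt_le_iff.mpr ⟨by have := Nn_pos n; positivity, ?_⟩
  rw [mul_pow, Nn_sq]
  calc ∏ i, ((m i : ℝ) + 1) ≤ ∏ i, c ^ 2 * ((n i : ℝ) + 1) :=
        Finset.prod_le_prod (fun i _ => by positivity) fun i _ => h i
    _ = _ := by
      rw [Finset.prod_mul_distrib]
      simp only [Finset.prod_const, Finset.card_univ, Fintype.card_fin]
      ring

lemma sqrt_card_bx_le (n : N3) : √((bx n).card) ≤ 3 * Nn n := by
  refine Real.sqrt_le_iff.mpr ⟨by have := Nn_pos n; positivity, ?_⟩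
  rw [mul_pow, Nn_sq, card_bx]
  push_cast
  have h0 : 0 ≤ ∏ i, ((n i : ℝ) + 1) := by positivity
  calc ∏ i, (2 * (n i : ℝ) + 1) ≤ ∏ i, 2 * ((n i : ℝ) + 1) :=
        Finset.prod_le_prod (fun i _ => by positivity) fun i _ => by linarith
    _ = 8 * ∏ i, ((n i : ℝ) + 1) := by
      rw [Finset.prod_mul_distrib]
      simp only [Finset.prod_const, Finset.card_univ, Fintype.card_fin]
      ring
    _ ≤ _ := by linarith

lemma Sp.l1_le {n : N3} {f : V} (H : Sp n f) : l1 f ≤ 3 * Nn n * ‖f‖ := by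
  exact (l1_le_card H.subset).trans (by gcongr; exact sqrt_card_bx_le n)

lemma Sp.norm_le {n : N3} {f : V} (H : Sp n f) {c : ℝ} (hc : 0 ≤ c)
    (hf : ∀ h, ‖f.coeff h‖ ≤ c) : ‖f‖ ≤ 3 * Nn n * c := by
  exact (norm_le_of_card H.subset hc hf).trans (by gcongr; exact sqrt_card_bx_le n)

lemma abs_pr_le3 {n : N3} {h : Z3} (hh : h ∈ bx n) (x : R3) : |pr h x| ≤ ∑ i, n i * |x i| := by
  rw [pr]
  refine (Finset.abs_sum_le_sum_abs _ _).trans (Finset.sum_le_sum fun i _ => ?_)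
  rw [abs_mul]
  gcongr
  exact_mod_cast mem_bx.mp hh i

lemma Sp.norm_wt_le {n : N3} {f : V} (hf : Sp n f) (ξ : R3) :
    ‖Dec.wt ξ f‖ ≤ Real.exp (∑ i, n i * |ξ i|) * ‖f‖ := by
  exact norm_mulc_le (Real.exp_pos _).le fun h hh => by
    rw [Complex.norm_real, Real.norm_of_nonneg (Real.exp_pos _).le]
    exact Real.exp_le_exp.mpr ((le_abs_self _).trans (abs_pr_le3 (hf.subset hh) ξ))

lemma Sp.l1_wt_le {n : N3} {f : V} (hf : Sp n f) (ξ : R3) :
    l1 (Dec.wt ξ f) ≤ Real.exp (∑ i, n i * |ξ i|) * l1 f := by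
  exact l1_le_of_coeff (Real.exp_pos _).le fun h => by
    by_cases hh : h ∈ bx n
    · rw [coeff_wt, norm_mul, Complex.norm_real, Real.norm_of_nonneg (Real.exp_pos _).le]
      gcongr
      exact (le_abs_self _).trans (abs_pr_le3 hh ξ)
    · simp [coeff_wt, hf h hh]

lemma Sp.norm_ev_sub_le {m : N3} {f : V} (hf : Sp m f) (x : R3) :
    ‖ev x f - ev 0 f‖ ≤ l1 f * ∑ i, m i * |x i| := by
  rw [ev_eq x hf.subset, ev_zero_eq hf.subset, ← Finset.sum_sub_distrib, l1_eq hf.subset,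
    Finset.sum_mul]
  refine (norm_sum_le _ _).trans (Finset.sum_le_sum fun h hh => ?_)
  rw [← mul_sub_one, norm_mul]
  gcongr
  exact (Real.norm_exp_I_mul_ofReal_sub_one_le).trans (abs_pr_le3 hh x)

/-- Tails are controlled by weighted norms. -/
lemma norm_tail_le (n : N3) (g : V) {u : Fin 3 → ℝ} (hu : ∀ i, 0 ≤ u i) :
    ‖g - pj n g‖ ≤ ∑ i, Real.exp (-(u i * (n i + 1))) *
      (‖wt (Pi.single i (u i)) g‖ + ‖wt (Pi.single i (-u i)) g‖) := by
  have hp : ∀ (h : Z3) (i : Fin 3) (v : ℝ), pr h (Pi.single i v) = h i * v := fun h i v => by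
    rw [pr, Finset.sum_eq_single i (fun j _ hj => by simp [hj]) (by simp)]
    simp
  have hw : ∀ (h : Z3) (i : Fin 3) (v : ℝ), ‖(wt (Pi.single i v) g).coeff h‖ =
      Real.exp (h i * v) * ‖g.coeff h‖ := fun h i v => by
    rw [coeff_wt, norm_mul, Complex.norm_real, Real.norm_of_nonneg (Real.exp_pos _).le, hp]
  set G : V := ∑ i, ((Real.exp (-(u i * (n i + 1))) : ℝ) : ℂ) •
    (av (wt (Pi.single i (u i)) g) + av (wt (Pi.single i (-u i)) g)) with hG
  have cG : ∀ h, G.coeff h = ((∑ i, Real.exp (-(u i * (n i + 1))) *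
      (Real.exp (h i * u i) * ‖g.coeff h‖ + Real.exp (h i * -u i) * ‖g.coeff h‖) : ℝ) : ℂ) :=
    fun h => by
      simp only [hG, Fin.sum_univ_three, AddMonoidAlgebra.coeff_add, AddMonoidAlgebra.coeff_smul,
        Finsupp.add_apply, Finsupp.smul_apply, coeff_av, hw, smul_eq_mul]
      push_cast
      ring
  have h1 : ‖g - pj n g‖ ≤ 1 * ‖G‖ := norm_le_of_coeff zero_le_one fun h => by
    rw [one_mul, cG, Complex.norm_real, Real.norm_of_nonneg (by positivity),
      AddMonoidAlgebra.coeff_sub, Finsupp.sub_apply, coeff_pj]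
    split_ifs with hh
    · rw [sub_self, norm_zero]; positivity
    · obtain ⟨i, hi⟩ : ∃ i, ¬|h i| ≤ n i := by simpa [mem_bx] using hh
      rw [sub_zero]
      refine le_trans ?_ (Finset.single_le_sum (f := fun i => Real.exp (-(u i * (n i + 1))) *
        (Real.exp (h i * u i) * ‖g.coeff h‖ + Real.exp (h i * -u i) * ‖g.coeff h‖))
        (fun _ _ => by (clear * -; positivity)) (Finset.mem_univ i))
      have u0 := hu i
      have g0 := norm_nonneg (g.coeff h)
      have key : 1 ≤ Real.exp (-(u i * (n i + 1))) *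
          (Real.exp (h i * u i) + Real.exp (h i * -u i)) := by
        rw [mul_add, ← Real.exp_add, ← Real.exp_add]
        rw [abs_le] at hi
        rcases (by omega : (n i : ℤ) + 1 ≤ h i ∨ h i ≤ -(n i + 1)) with e | e
        · have e' : (n i : ℝ) + 1 ≤ h i := by exact_mod_cast e
          have := Real.one_le_exp (x := -(u i * (n i + 1)) + h i * u i) (by nlinarith only [u0, e'])
          linarith only [this, Real.exp_pos (-(u i * (n i + 1)) + h i * -u i)]
        · have e' : (h i : ℝ) ≤ -(n i + 1) := by exact_mod_cast e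
          have := Real.one_le_exp (x := -(u i * (n i + 1)) + h i * -u i) (by nlinarith only [u0, e'])
          linarith [Real.exp_pos (-(u i * (n i + 1)) + h i * u i)]
      have := mul_le_mul_of_nonneg_right key g0
      linarith
  rw [one_mul] at h1
  refine h1.trans ((norm_sum_le _ _).trans (Finset.sum_le_sum fun i _ => ?_))
  rw [norm_smul, Complex.norm_real, Real.norm_of_nonneg (Real.exp_pos _).le]
  gcongr
  exact (norm_add_le _ _).trans (by rw [norm_av, norm_av])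

/-! Real families, rotation, shifts -/

lemma Rl.add {f g : V} (hf : Rl f) (hg : Rl g) : Rl (f + g) := by
  exact fun h => by simp [hf h, hg h]

lemma Rl.sub {f g : V} (hf : Rl f) (hg : Rl g) : Rl (f - g) := by
  exact fun h => by simp [hf h, hg h]

lemma Rl.smul {f : V} (hf : Rl f) (c : ℝ) : Rl ((c : ℂ) • f) := by
  exact fun h => by simp [hf h]

lemma Rl.sum {ι : Type} (s : Finset ι) {f : ι → V} (hf : ∀ i ∈ s, Rl (f i)) :
    Rl (∑ i ∈ s, f i) := by
  classical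
  induction s using Finset.induction_on with
  | empty => exact fun h => by simp
  | insert a s ha ih =>
    rw [Finset.sum_insert ha]
    exact (hf a (Finset.mem_insert_self _ _)).add
      (ih fun i hi => hf i (Finset.mem_insert_of_mem hi))

lemma Rl.mul {f g : V} (hf : Rl f) (hg : Rl g) : Rl (f * g) := by
  intro h
  rw [coeff_mul_eq g (subset_refl _), Complex.im_sum]
  exact Finset.sum_eq_zero fun k _ => by simp [hf k, hg (h - k)]

lemma Rl.pj {f : V} (hf : Rl f) (n : N3) : Rl (pj n f) := by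
  intro h
  rw [coeff_pj]
  split_ifs
  · exact hf h
  · simp

lemma Rl.mulr {f : V} (hf : Rl f) (d : Z3 → ℝ) : Rl (mulr d f) := by
  exact fun h => by simp [hf h]

lemma Rl.dag {f : V} (hf : Rl f) : Rl (dag f) := by
  exact fun h => by simp [hf (-h)]

lemma Rl.tau {f : V} (hf : Rl f) : Rl (tau f) := by
  exact fun h => by rw [Hyp.tau, coeff_prm]; exact hf _

lemma rl_sh (k : Z3) : Rl (sh k) := by
  intro h
  simp only [sh, AddMonoidAlgebra.coeff_single, Finsupp.single_apply]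
  split_ifs <;> simp

lemma Rl.ev_zero {f : V} (hf : Rl f) : ev 0 f = ((ev 0 f).re : ℂ) := by
  refine Complex.ext (by simp) ?_
  rw [Complex.ofReal_im, ev_zero_eq (subset_refl _), Complex.im_sum]
  exact Finset.sum_eq_zero fun k _ => hf k

lemma Rl.inner_im {f g : V} (hf : Rl f) (hg : Rl g) : (⟪f, g⟫_ℂ).im = 0 := by
  rw [inner_eq _ (subset_refl _), Complex.im_sum]
  exact Finset.sum_eq_zero fun k _ => by simp [hf k, hg k]

lemma Rl.ev_neg {f : V} (hf : Rl f) (x : R3) : ev (-x) f = conj (ev x f) := by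
  rw [ev_eq _ (subset_refl _), ev_eq _ (subset_refl _), map_sum]
  refine Finset.sum_congr rfl fun k _ => ?_
  rw [map_mul, Complex.conj_eq_iff_im.mpr (hf k), ← Complex.exp_conj, pr_neg']
  simp

lemma Rl.even {p : V} (hp : Rl p) (h : Z3) : (Dec.dag p * p).coeff (-h) = (Dec.dag p * p).coeff h := by
  have e : Dec.dag (Dec.dag p * p) = Dec.dag p * p := by rw [map_mul, dag_dag, mul_comm]
  have h1 := congrArg (fun f : V => f.coeff h) e
  simp only [coeff_dag] at h1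
  rw [← h1, Complex.conj_eq_iff_im.mpr ((hp.dag.mul hp) _)]

lemma coeff_tau (f : V) (h : Z3) : (tau f).coeff h = f.coeff ![h 1, h 2, h 0] := coeff_prm _ _ _

lemma norm_tau (f : V) : ‖tau f‖ = ‖f‖ := norm_prm _ _

lemma l1_tau (f : V) : l1 (tau f) = l1 f := l1_prm _ _

lemma tau_add (f g : V) : tau (f + g) = tau f + tau g := map_add (prm tauE) f g

lemma tau_sub (f g : V) : tau (f - g) = tau f - tau g := map_sub (prm tauE) f g

lemma tau_smul (c : ℂ) (f : V) : tau (c • f) = c • tau f := map_smul (prm tauE) c f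

lemma tau_mul (f g : V) : tau (f * g) = tau f * tau g := map_mul (prm tauE) f g

lemma ev_tau (x : R3) (f : V) : ev x (tau f) = ev ![x 1, x 2, x 0] f := by
  induction f using AddMonoidAlgebra.induction_linear with
  | zero => simp [tau]
  | add f g hf hg => rw [tau_add, map_add, map_add, hf, hg]
  | single k c =>
    have e : tau (AddMonoidAlgebra.single k c) = AddMonoidAlgebra.single (rot3 k) c := by
      ext h
      rw [coeff_tau]
      simp only [AddMonoidAlgebra.coeff_single, Finsupp.single_apply]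
      refine if_congr ⟨fun e => ?_, fun e => ?_⟩ rfl rfl
      · subst e; ext i; fin_cases i <;> rfl
      · subst e; ext i; fin_cases i <;> rfl
    rw [e, ev_single, ev_single]
    congr 4
    simp only [pr, rot3, Fin.sum_univ_three, Matrix.cons_val]
    ring

lemma ev_zero_tau (f : V) : ev 0 (tau f) = ev 0 f := ev_zero_prm _ _

lemma tau_sh (k : Z3) : tau (sh k) = sh (rot3 k) := by
  ext h
  rw [coeff_tau]
  simp only [sh, AddMonoidAlgebra.coeff_single, Finsupp.single_apply]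
  refine if_congr ⟨fun e => ?_, fun e => ?_⟩ rfl rfl
  · subst e; ext i; fin_cases i <;> rfl
  · subst e; ext i; fin_cases i <;> rfl

lemma coeff_sh_mul (k : Z3) (g : V) (h : Z3) : (sh k * g).coeff h = g.coeff (h - k) := by
  rw [sh, coeff_single_mul, one_mul]

lemma norm_sh_mul (k : Z3) (f : V) : ‖sh k * f‖ = ‖f‖ := norm_single_mul k f

lemma l1_sh_mul (k : Z3) (f : V) : l1 (sh k * f) = l1 f := l1_single_mul k f

lemma ev_zero_sh (k : Z3) : ev 0 (sh k) = 1 := by simp [sh, ev_single]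

/-! The ground state -/

lemma coeff_ph (n : N3) (h : Z3) : (ph n).coeff h =
    if h ∈ bx n then (((Nn n)⁻¹ * ∏ i, Real.cos (th (n i) * h i) : ℝ) : ℂ) else 0 := coeff_mk _ _ _

lemma coeff_ph' (n : N3) (h : Z3) :
    (ph n).coeff h = (((Nn n)⁻¹ * ∏ i, cb (n i) (h i) : ℝ) : ℂ) := by
  rw [coeff_ph]
  split_ifs with hh
  · simp only [cb_of_le (mem_bx.mp hh _)]
  · obtain ⟨i, hi⟩ : ∃ i, ¬|h i| ≤ n i := by simpa [mem_bx] using hh
    rw [Finset.prod_eq_zero (Finset.mem_univ i) (cb_of_gt hi)]; simp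

lemma sp_ph (n : N3) : Sp n (ph n) := sp_mk _ _

lemma rl_ph (n : N3) : Rl (ph n) := by
  exact fun h => by rw [coeff_ph', Complex.ofReal_im]

lemma norm_coeff_ph_le (n : N3) (h : Z3) : ‖(ph n).coeff h‖ ≤ (Nn n)⁻¹ := by
  have := Nn_pos n
  rw [coeff_ph]
  split_ifs
  · rw [Complex.norm_real, norm_mul, Real.norm_of_nonneg (by positivity), norm_prod]
    exact mul_le_of_le_one_right (by positivity)
      (Finset.prod_le_one (fun _ _ => norm_nonneg _) fun _ _ => Real.abs_cos_le_one _)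
  · simp; positivity

lemma norm_ph (n : N3) : ‖ph n‖ = 1 := by
  refine (pow_left_inj₀ (norm_nonneg _) zero_le_one two_ne_zero).mp ?_
  rw [norm_sq_eq (sp_ph n).subset]
  have : ∀ h ∈ bx n, ‖(ph n).coeff h‖ ^ 2 = (Nn n ^ 2)⁻¹ * ∏ i, Real.cos (th (n i) * h i) ^ 2 :=
    fun h hh => by
      rw [coeff_ph, if_pos hh, Complex.norm_real, Real.norm_eq_abs, sq_abs, mul_pow,
        Finset.prod_pow, inv_pow]
  rw [Finset.sum_congr rfl this, ← Finset.mul_sum, bx,
    ← Finset.prod_univ_sum (fun i => Finset.Icc (-(n i : ℤ)) (n i))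
      (fun i k => Real.cos (th (n i) * k) ^ 2)]
  simp only [sum_cos_sq, Nn_sq]
  rw [inv_mul_cancel₀ (by positivity), one_pow]

lemma dag_ph (n : N3) : dag (ph n) = ph n := by
  ext h
  simp only [coeff_dag, coeff_ph, neg_mem_bx]
  split_ifs
  · rw [Complex.conj_ofReal]; simp
  · simp

lemma ev_zero_ph (n : N3) : ev 0 (ph n) = (l1 (ph n) : ℂ) := by
  rw [ev_zero_eq (subset_refl _), l1]
  push_cast
  refine Finset.sum_congr rfl fun h _ => ?_
  rw [coeff_ph]
  split_ifs with hh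
  · rw [Complex.norm_real, Real.norm_of_nonneg]
    exact mul_nonneg (inv_pos.mpr (Nn_pos n)).le (Finset.prod_nonneg fun i _ =>
      cos_th_nonneg ((mem_bx.mp hh i).trans (by omega)))
  · simp

lemma le_l1_ph (n : N3) : Nn n ≤ l1 (ph n) := by
  have h1 : 1 ≤ (Nn n)⁻¹ * l1 (ph n) := by
    have := norm_inner_le_l1 (g := ph n) (norm_coeff_ph_le n)
    rw [inner_self_eq_norm_sq_to_K, norm_ph] at this
    simpa using this
  have := Nn_pos n
  rwa [inv_mul_eq_div, le_div_iff₀ this, one_mul] at h1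

lemma l1_ph_le (n : N3) : l1 (ph n) ≤ 3 * Nn n := by
  simpa [norm_ph] using (sp_ph n).l1_le

lemma norm_mul_ph_sub {m n : N3} (hmn : ∀ i, m i ≤ n i) {q : V} (hq : Sp m q) :
    ‖q * ph n - ev 0 q • ph n‖ ≤ l1 q * (10 * ∑ i, m i * th (n i)) := by
  have N0 := Nn_pos n
  have t0 := fun i => th_pos (n i)
  have S0 : 0 ≤ ∑ i, m i * th (n i) := Finset.sum_nonneg fun i _ => by have := t0 i; positivity
  have N2 : Nn (n + n) ≤ (29 / 20) ^ 3 * Nn n := Nn_le (by norm_num) fun i => by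
    have : (0 : ℝ) ≤ n i := Nat.cast_nonneg _
    simp only [Pi.add_apply]
    push_cast
    linarith
  have shift : ∀ k ∈ bx m, ‖AddMonoidAlgebra.single k 1 * ph n - ph n‖ ≤
      10 * ∑ i, m i * th (n i) := fun k hk => by
    have hs : Sp (n + n) (AddMonoidAlgebra.single k 1 * ph n - ph n) :=
      (((sp_sh hk).mul (sp_ph n)).mono fun i => by
        have := hmn i
        simp only [Pi.add_apply]; omega).sub ((sp_ph n).mono fun i => by simp)
    have := hs.norm_le (c := (Nn n)⁻¹ * ∑ i, m i * th (n i)) (by positivity) fun h => by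
      rw [AddMonoidAlgebra.coeff_sub, Finsupp.sub_apply, coeff_single_mul, one_mul, coeff_ph',
        coeff_ph', ← Complex.ofReal_sub, Complex.norm_real, ← mul_sub, norm_mul,
        Real.norm_of_nonneg (by positivity)]
      gcongr
      refine (abs_prod3_sub (fun _ => Real.abs_cos_le_one _)
        fun _ => Real.abs_cos_le_one _).trans ?_
      exact Finset.sum_le_sum fun i _ => (cb_lip _ _ _).trans (by
        have : |(k i : ℝ)| ≤ m i := by exact_mod_cast mem_bx.mp hk i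
        simp only [Pi.sub_apply, Int.cast_sub, sub_sub_cancel_left, abs_neg]
        nlinarith only [this, t0 i])
    refine this.trans ?_
    calc 3 * Nn (n + n) * ((Nn n)⁻¹ * ∑ i, m i * th (n i))
        ≤ 3 * ((29 / 20) ^ 3 * Nn n) * ((Nn n)⁻¹ * ∑ i, m i * th (n i)) := by gcongr
      _ = 3 * (29 / 20) ^ 3 * ∑ i, m i * th (n i) := by field_simp
      _ ≤ _ := by linarith only [S0]
  rw [mul_eq_sum, ev_zero_eq (subset_refl _), Finset.sum_smul, ← Finset.sum_sub_distrib, l1,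
    Finset.sum_mul]
  refine (norm_sum_le _ _).trans (Finset.sum_le_sum fun k hk => ?_)
  rw [← smul_sub, norm_smul]
  gcongr
  exact shift k (hq.subset hk)

lemma corner_mem_cube3 {n : N3} {x : R3} (hx : ∀ i, |x i| = th (n i)) : x ∈ cube := by
  have := fun i => th_le (n i)
  have := Real.pi_pos
  exact ⟨fun i => by linarith [neg_abs_le (x i), hx i, th_le (n i)],
    fun i => by linarith [le_abs_self (x i), hx i, th_le (n i)]⟩

/-- The component along the ground state is an average over the corner frequencies. -/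
lemma norm_inner_ph_le {n : N3} (z : V) {S : ℝ}
    (hS : ∀ x : R3, (∀ i, |x i| = th (n i)) → ‖ev x z‖ ≤ S) :
    ‖⟪ph n, z⟫_ℂ‖ ≤ (Nn n)⁻¹ * (S + l1 (z - pj n z)) := by
  classical
  have t0 := fun i => th_pos (n i)
  have N0 := Nn_pos n
  set C : Finset R3 := Fintype.piFinset fun i => ({th (n i), -th (n i)} : Finset ℝ) with hC
  have ne : ∀ i, th (n i) ≠ -th (n i) := fun i => by linarith [t0 i]
  have card : C.card = 8 := by simp [hC, Finset.card_pair (ne _)]
  have pc : ∀ h : Z3, ((∏ i, Real.cos (th (n i) * h i) : ℝ) : ℂ) =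
      8⁻¹ * ∑ x ∈ C, Complex.exp (I * (pr h x : ℝ)) := fun h => by
    have : ∀ x : R3, Complex.exp (I * (pr h x : ℝ)) = ∏ i, Complex.exp (I * (h i * x i : ℝ)) :=
      fun x => by rw [← Complex.exp_sum, pr]; push_cast; rw [Finset.mul_sum]
    simp only [this]
    rw [hC, ← Finset.prod_univ_sum (fun i => ({th (n i), -th (n i)} : Finset ℝ))
      (fun i (x : ℝ) => Complex.exp (I * (h i * x : ℝ)))]
    simp only [Finset.sum_pair (ne _), Fin.prod_univ_three]
    push_cast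
    simp only [Complex.cos]
    ring_nf
  have e : ⟪ph n, z⟫_ℂ = ((Nn n)⁻¹ : ℝ) * (8⁻¹ * ∑ x ∈ C, ev x (pj n z)) := by
    rw [inner_eq _ (sp_ph n).subset]
    simp only [ev_eq _ (sp_pj n z).subset]
    rw [Finset.sum_comm, Finset.mul_sum, Finset.mul_sum]
    refine Finset.sum_congr rfl fun h hh => ?_
    rw [coeff_ph, if_pos hh, Complex.conj_ofReal, Complex.ofReal_mul, pc, coeff_pj, if_pos hh,
      ← Finset.mul_sum]
    ring
  rw [e, norm_mul, Complex.norm_real, Real.norm_of_nonneg (by positivity), norm_mul]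
  gcongr
  have : ∀ x ∈ C, ‖ev x (pj n z)‖ ≤ S + l1 (z - pj n z) := fun x hx => by
    rw [show pj n z = z - (z - pj n z) by abel, map_sub]
    refine (norm_sub_le _ _).trans (add_le_add (hS x fun i => ?_) ?_)
    · have := Fintype.mem_piFinset.mp hx i
      simp only [Finset.mem_insert, Finset.mem_singleton] at this
      rcases this with h | h <;> simp [h, abs_of_pos (t0 i)]
    · simpa using norm_ev_le x (z - pj n z)
  have h2 := (norm_sum_le _ _).trans (Finset.sum_le_card_nsmul C _ _ this)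
  rw [card, nsmul_eq_mul] at h2
  have : ‖(8 : ℂ)⁻¹‖ = 8⁻¹ := by simp
  rw [this]
  push_cast at h2
  linarith only [h2]

lemma inner_ph_dl (n : N3) : ⟪ph n, dl⟫_ℂ = (((Nn n)⁻¹ : ℝ) : ℂ) := by
  rw [← inner_conj_symm, dl, inner_single, coeff_ph, if_pos (zero_mem_bx n)]
  simp

/-! Layers -/

lemma Lay.l1_le {n : N3} {l : ℝ} {v : Z3 → ℝ} (h : Lay n l v) {y : V} (hy : Sp n y) :
    l1 (mulr v y) ≤ l * Nn n * ‖y‖ := by
  have N0 := Nn_pos n
  have l0 := h.l0
  refine (pow_le_pow_iff_left₀ (l1_nonneg _) (by positivity) two_ne_zero).mp ?_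
  rw [l1_eq (hy.mulr v).subset, mul_pow, norm_sq_eq hy.subset]
  have e : ∀ k, ‖(mulr v y).coeff k‖ = v k * ‖y.coeff k‖ := fun k => by
    rw [coeff_mulr, norm_mul, Complex.norm_real, Real.norm_of_nonneg (h.nonneg k)]
  simp only [e]
  refine (Finset.sum_mul_sq_le_sq_mul_sq _ _ _).trans ?_
  exact mul_le_mul_of_nonneg_right h.small (Finset.sum_nonneg fun _ _ => by positivity)

lemma Lay.norm_le {n : N3} {l : ℝ} {v : Z3 → ℝ} (h : Lay n l v) {y : V} (hy : Sp n y) {c : ℝ}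
    (hc : ∀ k, ‖y.coeff k‖ ≤ c) : ‖mulr v y‖ ≤ l * Nn n * c := by
  have N0 := Nn_pos n
  have l0 := h.l0
  have c0 : 0 ≤ c := (norm_nonneg _).trans (hc 0)
  refine (pow_le_pow_iff_left₀ (norm_nonneg _) (by positivity) two_ne_zero).mp ?_
  rw [norm_sq_eq (hy.mulr v).subset, mul_pow]
  refine le_trans ?_ (mul_le_mul_of_nonneg_right h.small (by positivity))
  rw [Finset.sum_mul]
  refine Finset.sum_le_sum fun k _ => ?_
  rw [coeff_mulr, norm_mul, Complex.norm_real, Real.norm_of_nonneg (h.nonneg k), mul_pow]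
  gcongr
  exact hc k

lemma Lay.re_inner {n : N3} {l : ℝ} {v : Z3 → ℝ} (h : Lay n l v) (y : V) :
    0 ≤ (⟪y, mulr v y⟫_ℂ).re := by
  simpa using re_inner_mulr_ge (c := 0) h.nonneg y

lemma Lay.mono {n : N3} {l l' : ℝ} {v : Z3 → ℝ} (h : Lay n l v) (hl : l ≤ l') : Lay n l' v := by
  have N0 := Nn_pos n
  have l0 := h.l0
  exact ⟨h.nonneg, l0.trans hl, h.small.trans (by gcongr)⟩

/-! Derivative rules and barriers -/

section rules

variable {f : ℝ → V} {f' : V} {t : ℝ}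

lemma HD.sp {n : N3} (h : HD f f' t) (ht : 0 ≤ t) (hs : ∀ t, Sp n (f t)) : Sp n f' := by
  exact fun k hk => (h.coeff k).uniq (by
    simpa [hs _ k hk] using hasDerivWithinAt_const t (Ici 0) (0 : ℂ)) ht

lemma HD.pj (h : HD f f' t) (n : N3) : HD (fun t => pj n (f t)) (pj n f') t := by
  exact Dec.HD.linc (Hyp.pj n) (C := 1) (fun v => by simpa using norm_pj_le n v) h

lemma HD.tau (h : HD f f' t) : HD (fun t => tau (f t)) (tau f') t := Dec.HD.prm h tauE

lemma HD.ev3 {n : N3} (h : HD f f' t) (ht : 0 ≤ t) (hs : ∀ t, Sp n (f t)) (x : R3) :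
    HD (fun t => ev x (f t)) (ev x f') t := by
  have N0 := Nn_pos n
  have := Dec.HD.linc ((Dec.ev x).toLinearMap.comp (Hyp.pj n)) (C := 3 * Nn n) (fun v =>
    ((norm_ev_le x _).trans (sp_pj n v).l1_le).trans (by gcongr; exact norm_pj_le n v)) h
  simpa [(hs _).pj_eq, (HD.sp h ht hs).pj_eq] using this

lemma HD.wt3 {n : N3} (h : HD f f' t) (ht : 0 ≤ t) (hs : ∀ t, Sp n (f t)) (ξ : R3) :
    HD (fun t => wt ξ (f t)) (wt ξ f') t := by
  have := Dec.HD.linc ((Dec.wt ξ).comp (Hyp.pj n)) (C := Real.exp (∑ i, n i * |ξ i|)) (fun v =>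
    ((sp_pj n v).norm_wt_le ξ).trans (by gcongr; exact norm_pj_le n v)) h
  simpa [(hs _).pj_eq, (HD.sp h ht hs).pj_eq] using this

lemma HD.const_mul' (h : HD f f' t) (q : V) : HD (fun t => q * f t) (q * f') t := by
  simpa only [mul_comm q] using h.mul_const' q

end rules

/-- Mean value inequality for the sum norm. -/
theorem l1_sub_le_of_deriv {n : N3} {f : ℝ → V} {a b K : ℝ} (ha : 0 ≤ a) (hs : ∀ t, Sp n (f t))
    (H : ∀ t ∈ Icc a b, ∃ D, HD f D t ∧ l1 D ≤ K) :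
    ∀ t ∈ Icc a b, l1 (f t - f a) ≤ K * (t - a) := by
  intro t ht
  set s : V := mk (bx n) fun h => (f t - f a).coeff h / ‖(f t - f a).coeff h‖ with hsd
  have s1 : ∀ h, ‖s.coeff h‖ ≤ 1 := fun h => by
    rw [hsd, coeff_mk]
    split_ifs
    · rw [norm_div, Complex.norm_real, norm_norm]
      exact div_self_le_one _
    · simp
  have e : (⟪s, f t - f a⟫_ℂ).re = l1 (f t - f a) := by
    rw [inner_eq' _ ((hs t).sub (hs a)).subset, l1_eq ((hs t).sub (hs a)).subset, Complex.re_sum]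
    refine Finset.sum_congr rfl fun h hh => ?_
    rw [hsd, coeff_mk, if_pos hh]
    generalize (f t - f a).coeff h = z
    rw [map_div₀, Complex.conj_ofReal, div_mul_eq_mul_div, Complex.conj_mul']
    norm_cast
    by_cases hz : ‖z‖ = 0
    · simp [hz]
    · field_simp
  have := le_of_deriv_le (F := fun u => (⟪s, f u⟫_ℂ).re)
    (G := fun u => (⟪s, f a⟫_ℂ).re + K * (u - a)) (b := b) ha (by simp) (fun u hu => by
      obtain ⟨D, h1, h2⟩ := H u hu
      refine ⟨_, _, Dec.HD.re_inner (hasDerivWithinAt_const u _ s) h1,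
        (((hasDerivWithinAt_id u _).sub_const a).const_mul K).const_add _, ?_⟩
      have := (Complex.re_le_norm _).trans (norm_inner_le_l1 (g := D) s1)
      simp only [inner_zero_left, Complex.zero_re]
      linarith) t ht
  rw [← e, inner_sub_right, Complex.sub_re]
  linarith

/-- Barrier for a family all but finitely many members of which are harmless. -/
theorem family_barrier' {ι : Type} {H : ι → ℝ → ℝ} {a b : ℝ} {s : Set ι} (fin : s.Finite)
    (out : ∀ i, i ∉ s → ∀ t ∈ Icc a b, H i t ≤ 0)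
    (hc : ∀ i, ContinuousOn (H i) (Icc a b)) (h0 : ∀ i, H i a ≤ 0)
    (step : ∀ t ∈ Ico a b, (∀ u ∈ Icc a t, ∀ i, H i u ≤ 0) → ∀ i, H i t = 0 →
      ∃ D < 0, HasDerivWithinAt (H i) D (Ici t) t) :
    ∀ t ∈ Icc a b, ∀ i, H i t ≤ 0 := by
  have := fin.to_subtype
  have key := family_barrier (ι := s) (H := fun i => H i) (a := a) (b := b) (fun i => hc i)
    (fun i => h0 i) fun t ht past i e => step t ht (fun u hu j => by
      by_cases hj : j ∈ s
      · exact past u hu ⟨j, hj⟩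
      · exact out j hj u ⟨hu.1, hu.2.trans ht.2.le⟩) i e
  intro t ht i
  by_cases hi : i ∈ s
  · exact key t ht ⟨i, hi⟩
  · exact out i hi t ht

/-- A function which crosses zero upwards has no negative derivative there. -/
lemma not_cross {H : ℝ → ℝ} {c D : ℝ} (e : H c = 0) (fr : ∃ᶠ t in 𝓝[>] c, 0 < H t)
    (hD : HasDerivWithinAt H D (Ici c) c) : 0 ≤ D := by
  by_contra D0
  rw [not_le] at D0
  have h1 : Tendsto (slope H c) (𝓝[>] c) (𝓝 D) := by
    have := hasDerivWithinAt_iff_tendsto_slope.mp hD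
    rwa [Ici_sdiff_left] at this
  have h2 := (h1.eventually (gt_mem_nhds D0)).and self_mem_nhdsWithin
  obtain ⟨s, s1, s2, s3⟩ := (fr.and_eventually h2).exists
  rw [slope_def_field, e, sub_zero] at s2
  exact absurd (div_pos s1 (sub_pos.mpr s3)) (not_lt.mpr s2.le)

/-- Barrier for the norm of one function. -/
theorem bar1 {E : Type} [NormedAddCommGroup E] [InnerProductSpace ℂ E] [NormedSpace ℝ E]
    {a : ℝ → E} {U : ℝ → ℝ} {t1 t2 : ℝ} (h0 : 0 ≤ t1) (init : ‖a t1‖ ≤ U t1)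
    (H : ∀ t ∈ Icc t1 t2, 0 < U t ∧ ∃ a' U', HD a a' t ∧ HD U U' t ∧
      (‖a t‖ = U t → (⟪a t, a'⟫_ℂ).re < U t * U')) :
    ∀ t ∈ Icc t1 t2, ‖a t‖ ≤ U t := by
  intro t ht
  have := barrier (F := fun t => ‖a t‖ ^ 2) (G := fun t => U t ^ 2) (b := t2) h0
    (by have := norm_nonneg (a t1); gcongr) (fun s hs => by
      obtain ⟨u0, a', U', ha, hU, hlt⟩ := H s hs
      refine ⟨_, _, ha.normsq, hU.fun_pow 2, fun e => ?_⟩
      have := hlt ((pow_left_inj₀ (norm_nonneg _) u0.le two_ne_zero).mp e)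
      simp only [Nat.cast_ofNat, Nat.add_one_sub_one, pow_one]
      linarith) t ht
  exact (pow_le_pow_iff_left₀ (norm_nonneg _) (H t ht).1.le two_ne_zero).mp this

/-- Barrier for the norm of a pair. -/
theorem bar2 {E : Type} [NormedAddCommGroup E] [InnerProductSpace ℂ E] [NormedSpace ℝ E]
    {a b : ℝ → E} {U : ℝ → ℝ} {t1 t2 : ℝ} (h0 : 0 ≤ t1)
    (init : ‖a t1‖ ^ 2 + ‖b t1‖ ^ 2 ≤ U t1 ^ 2)
    (H : ∀ t ∈ Icc t1 t2, ∃ a' b' U', HD a a' t ∧ HD b b' t ∧ HD U U' t ∧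
      (‖a t‖ ^ 2 + ‖b t‖ ^ 2 = U t ^ 2 →
        (⟪a t, a'⟫_ℂ).re + (⟪b t, b'⟫_ℂ).re < U t * U')) :
    ∀ t ∈ Icc t1 t2, ‖a t‖ ^ 2 + ‖b t‖ ^ 2 ≤ U t ^ 2 := by
  exact barrier (F := fun t => ‖a t‖ ^ 2 + ‖b t‖ ^ 2) (G := fun t => U t ^ 2) h0 init
    fun s hs => by
      obtain ⟨a', b', U', ha, hb, hU, hlt⟩ := H s hs
      refine ⟨_, _, ha.normsq.fun_add hb.normsq, hU.fun_pow 2, fun e => ?_⟩
      have := hlt e
      simp only [Nat.cast_ofNat, Nat.add_one_sub_one, pow_one]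
      linarith

lemma nr_sq (B C : V) : nr B C ^ 2 = ‖B‖ ^ 2 + ‖C‖ ^ 2 := Real.sq_sqrt (by positivity)

lemma nr_nonneg (B C : V) : 0 ≤ nr B C := Real.sqrt_nonneg _

lemma le_nr_1 (B C : V) : ‖B‖ ≤ nr B C := Real.le_sqrt_of_sq_le (by linarith [sq_nonneg ‖C‖])

lemma le_nr_2 (B C : V) : ‖C‖ ≤ nr B C := Real.le_sqrt_of_sq_le (by linarith [sq_nonneg ‖B‖])

end

end Pool.Agent.Work.MP_6bf1e5_an.Hyp
end

-- merged part: Pool.Agent.Work.MP_6bf1e5_an.B.Bilin
section
/-!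
The bilinear term, the Leray projection and weighted `ℓ¹` bounds on the Fourier side.
-/

open Set Complex
open scoped InnerProductSpace ComplexConjugate

namespace Pool.Agent.Work.MP_6bf1e5_an.B

noncomputable section

/-- The vector `2 π k` as a complex vector. -/
def cxi (k : Z3) : C3 := WithLp.toLp 2 fun j => ((2 * Real.pi * (k j : ℝ) : ℝ) : ℂ)

lemma norm_cxi (k : Z3) : ‖cxi k‖ = ax k := by
  rw [ax_eq_norm, EuclideanSpace.norm_eq, EuclideanSpace.norm_eq]
  congr 1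
  refine Finset.sum_congr rfl fun j _ => ?_
  simp only [cxi, xi, Complex.norm_real]

lemma cxi_add (p q : Z3) : cxi (p + q) = cxi p + cxi q := by
  ext j; simp [cxi]; ring

lemma cxi_neg (p : Z3) : cxi (-p) = -cxi p := by
  ext j; simp [cxi]

@[simp] lemma cxi_zero : cxi 0 = 0 := by
  ext j; simp [cxi]

/-- The bilinear pairing `2 π k · v`. -/
def dt (v : C3) (k : Z3) : ℂ := ⟪cxi k, v⟫_ℂ

lemma dt_eq (v : C3) (k : Z3) : dt v k = ∑ j, v j * (2 * Real.pi * (k j : ℂ)) := by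
  simp [dt, cxi, PiLp.inner_apply, map_ofNat]

lemma norm_dt_le (v : C3) (k : Z3) : ‖dt v k‖ ≤ ‖v‖ * ax k := by
  rw [dt, mul_comm, ← norm_cxi]; exact norm_inner_le_norm _ _

lemma dt_add_right (v : C3) (p q : Z3) : dt v (p + q) = dt v p + dt v q := by
  simp [dt, cxi_add]

lemma dt_neg_right (v : C3) (p : Z3) : dt v (-p) = -dt v p := by
  simp [dt, cxi_neg]

@[simp] lemma dt_zero_right (v : C3) : dt v 0 = 0 := by simp [dt]

lemma dt_add_left (u v : C3) (p : Z3) : dt (u + v) p = dt u p + dt v p := by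
  simp [dt]

lemma dt_sub_left (u v : C3) (p : Z3) : dt (u - v) p = dt u p - dt v p := by
  simp [dt]

lemma dt_smul_left (c : ℂ) (v : C3) (p : Z3) : dt (c • v) p = c * dt v p := by
  simp [dt]

lemma dt_cxi (k : Z3) : dt (cxi k) k = ((ax k ^ 2 : ℝ) : ℂ) := by
  rw [dt, inner_self_eq_norm_sq_to_K, norm_cxi]; simp

lemma continuous_dt (k : Z3) : Continuous fun v : C3 => dt v k := by
  unfold dt; fun_prop

/-- Componentwise complex conjugation. -/
def cj : C3 →L[ℝ] C3 :=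
  LinearMap.toContinuousLinearMap
    { toFun := fun v => WithLp.toLp 2 fun i => conj (v i)
      map_add' := fun u v => by ext i; simp
      map_smul' := fun c v => by ext i; simp }

@[simp] lemma cj_apply (v : C3) (i : Fin 3) : cj v i = conj (v i) := rfl

lemma cj_smul (c : ℂ) (v : C3) : cj (c • v) = conj c • cj v := by
  ext i; simp

@[simp] lemma cj_cj (v : C3) : cj (cj v) = v := by
  ext i; simp

@[simp] lemma norm_cj (v : C3) : ‖cj v‖ = ‖v‖ := by
  simp [EuclideanSpace.norm_eq]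

lemma cj_cxi (k : Z3) : cj (cxi k) = cxi k := by
  ext i; simp [cxi, map_ofNat]

lemma dt_cj (v : C3) (k : Z3) : dt (cj v) k = conj (dt v k) := by
  simp [dt_eq, map_ofNat]

/-- The Leray projection at frequency `k`. -/
def LP (k : Z3) : C3 →L[ℂ] C3 :=
  ContinuousLinearMap.id ℂ C3 -
    (((ax k ^ 2 : ℝ) : ℂ))⁻¹ • (innerSL ℂ (cxi k)).smulRight (cxi k)

lemma LP_apply (k : Z3) (v : C3) :
    LP k v = v - ((((ax k ^ 2 : ℝ) : ℂ))⁻¹ * dt v k) • cxi k := by
  simp [LP, dt, smul_smul]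

lemma dt_LP (k : Z3) (v : C3) : dt (LP k v) k = 0 := by
  by_cases hk : k = 0
  · simp [hk]
  · have : ((ax k ^ 2 : ℝ) : ℂ) ≠ 0 := by
      have := ax_pos hk
      exact_mod_cast (by positivity : ax k ^ 2 ≠ 0)
    rw [LP_apply, dt_sub_left, dt_smul_left, dt_cxi]
    field_simp
    ring

lemma LP_of_div {k : Z3} {v : C3} (h : dt v k = 0) : LP k v = v := by
  simp [LP_apply, h]

lemma inner_LP {k : Z3} {u : C3} (h : dt u k = 0) (v : C3) : ⟪u, LP k v⟫_ℂ = ⟪u, v⟫_ℂ := by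
  have : ⟪u, cxi k⟫_ℂ = 0 := by rw [← inner_conj_symm, ← dt, h]; simp
  rw [LP_apply, inner_sub_right, inner_smul_right, this]; simp

lemma norm_LP_le (k : Z3) (v : C3) : ‖LP k v‖ ≤ ‖v‖ := by
  have h := inner_LP (dt_LP k v) v
  have h1 : ‖LP k v‖ ^ 2 ≤ ‖LP k v‖ * ‖v‖ := by
    calc ‖LP k v‖ ^ 2 = ‖⟪LP k v, LP k v⟫_ℂ‖ := by
          rw [inner_self_eq_norm_sq_to_K]; simp
      _ = ‖⟪LP k v, v⟫_ℂ‖ := by rw [h]
      _ ≤ _ := norm_inner_le_norm _ _
  rcases (norm_nonneg (LP k v)).eq_or_lt with h0 | h0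
  · rw [← h0]; exact norm_nonneg _
  · nlinarith only [h1, h0]

lemma LP_cj (k : Z3) (v : C3) : LP (-k) (cj v) = cj (LP k v) := by
  rw [LP_apply, LP_apply, map_sub, cj_smul, cj_cxi, dt_neg_right, dt_cj, cxi_neg, ax_neg]
  simp

/-- Fourier coefficients of a real field. -/
def IsReal (a : Z3 → C3) : Prop := ∀ k, a (-k) = cj (a k)

/-- Fourier coefficients of a divergence-free field. -/
def DivFree (a : Z3 → C3) : Prop := ∀ k, dt (a k) k = 0

/-- Fourier coefficients of `(u·∇) v`. -/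
def BB (a b : Z3 → C3) (k : Z3) : C3 := ∑' p, (I * dt (a p) (k - p)) • b (k - p)

section Bd

variable {E : Type*} [NormedAddCommGroup E]

/-- Weighted `ℓ¹` bound. -/
def Bd (s : ℕ) (a : Z3 → E) (M : ℝ) : Prop := ∀ F : Finset Z3, ∑ k ∈ F, w k ^ s * ‖a k‖ ≤ M

lemma wn_nonneg (s : ℕ) (a : Z3 → E) (k : Z3) : 0 ≤ w k ^ s * ‖a k‖ :=
  mul_nonneg (pow_nonneg (w_pos k).le s) (norm_nonneg _)

lemma Bd.nonneg {s : ℕ} {a : Z3 → E} {M : ℝ} (h : Bd s a M) : 0 ≤ M := by simpa using h ∅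

lemma Bd.summable {s : ℕ} {a : Z3 → E} {M : ℝ} (h : Bd s a M) :
    Summable fun k => w k ^ s * ‖a k‖ := summable_of_sum_le (wn_nonneg s a) h

lemma Bd.tsum_le {s : ℕ} {a : Z3 → E} {M : ℝ} (h : Bd s a M) :
    ∑' k, w k ^ s * ‖a k‖ ≤ M := Real.tsum_le_of_sum_le (wn_nonneg s a) h

lemma Bd.of_tsum {s : ℕ} {a : Z3 → E} {M : ℝ} (h : Summable fun k => w k ^ s * ‖a k‖)
    (hM : ∑' k, w k ^ s * ‖a k‖ ≤ M) : Bd s a M :=
  fun F => (h.sum_le_tsum F fun k _ => wn_nonneg s a k).trans hM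

lemma Bd.of_le {s : ℕ} {a : Z3 → E} {M : ℝ} {f : Z3 → ℝ} (hf : Summable f)
    (hle : ∀ k, w k ^ s * ‖a k‖ ≤ f k) (hM : ∑' k, f k ≤ M) : Bd s a M := fun F =>
  (Finset.sum_le_sum fun k _ => hle k).trans
    ((hf.sum_le_tsum F fun k _ => (wn_nonneg s a k).trans (hle k)).trans hM)

lemma Bd.pt {s : ℕ} {a : Z3 → E} {M : ℝ} (h : Bd s a M) (k : Z3) : w k ^ s * ‖a k‖ ≤ M := by
  simpa using h {k}

lemma Bd.mono {s s' : ℕ} {a : Z3 → E} {M : ℝ} (h : Bd s' a M) (hs : s ≤ s') : Bd s a M :=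
  fun F => (Finset.sum_le_sum fun k _ => mul_le_mul_of_nonneg_right
    (pow_le_pow_right₀ (one_le_w k) hs) (norm_nonneg _)).trans (h F)

lemma Bd.mono_right {s : ℕ} {a : Z3 → E} {M M' : ℝ} (h : Bd s a M) (hM : M ≤ M') : Bd s a M' :=
  fun F => (h F).trans hM

lemma Bd.norm_le {s : ℕ} {a : Z3 → E} {M : ℝ} (h : Bd s a M) (k : Z3) : ‖a k‖ ≤ M := by
  simpa using (h.mono (Nat.zero_le s)).pt k

lemma Bd.summable_norm {s : ℕ} {a : Z3 → E} {M : ℝ} (h : Bd s a M) : Summable fun k => ‖a k‖ := by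
  simpa using (h.mono (Nat.zero_le s)).summable

lemma Bd.tsum_norm_le {s : ℕ} {a : Z3 → E} {M : ℝ} (h : Bd s a M) : ∑' k, ‖a k‖ ≤ M := by
  simpa using (h.mono (Nat.zero_le s)).tsum_le

lemma Bd.add {s : ℕ} {a b : Z3 → E} {M N : ℝ} (ha : Bd s a M) (hb : Bd s b N) :
    Bd s (fun k => a k + b k) (M + N) := fun F => by
  calc ∑ k ∈ F, w k ^ s * ‖a k + b k‖ ≤ ∑ k ∈ F, (w k ^ s * ‖a k‖ + w k ^ s * ‖b k‖) := by
        refine Finset.sum_le_sum fun k _ => ?_
        rw [← mul_add]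
        exact mul_le_mul_of_nonneg_left (norm_add_le _ _) (pow_nonneg (w_pos k).le s)
    _ ≤ M + N := by rw [Finset.sum_add_distrib]; exact add_le_add (ha F) (hb F)

lemma Bd.neg {s : ℕ} {a : Z3 → E} {M : ℝ} (ha : Bd s a M) : Bd s (fun k => -a k) M := by
  intro F; simpa using ha F

lemma Bd.sub {s : ℕ} {a b : Z3 → E} {M N : ℝ} (ha : Bd s a M) (hb : Bd s b N) :
    Bd s (fun k => a k - b k) (M + N) := by
  simpa [sub_eq_add_neg] using ha.add hb.neg

/-- A pointwise bound by a multiplier of polynomial growth. -/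
lemma Bd.of_growth {F' : Type*} [NormedAddCommGroup F'] {s m : ℕ} {a : Z3 → E} {M C : ℝ}
    (ha : Bd (s + m) a M) (hC : 0 ≤ C) {b : Z3 → F'} (hb : ∀ k, ‖b k‖ ≤ C * w k ^ m * ‖a k‖) :
    Bd s b (C * M) := fun F => by
  calc ∑ k ∈ F, w k ^ s * ‖b k‖ ≤ ∑ k ∈ F, C * (w k ^ (s + m) * ‖a k‖) := by
        refine Finset.sum_le_sum fun k _ => ?_
        calc w k ^ s * ‖b k‖ ≤ w k ^ s * (C * w k ^ m * ‖a k‖) :=
              mul_le_mul_of_nonneg_left (hb k) (pow_nonneg (w_pos k).le s)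
          _ = _ := by ring
    _ ≤ C * M := by rw [← Finset.mul_sum]; exact mul_le_mul_of_nonneg_left (ha F) hC

/-- Decay bound with the summable majorant `w⁻⁴`. -/
lemma Bd.decay {s : ℕ} {a : Z3 → E} {M : ℝ} (h : Bd (s + 4) a M) (k : Z3) :
    w k ^ s * ‖a k‖ ≤ M * (w k ^ 4)⁻¹ := by
  have hw := w_pos k
  have := h.pt k
  rw [← div_eq_mul_inv, le_div_iff₀ (by positivity)]
  calc w k ^ s * ‖a k‖ * w k ^ 4 = w k ^ (s + 4) * ‖a k‖ := by ring
    _ ≤ M := this

end Bd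

/-- The shear `(k, p) ↦ (p, k - p)`. -/
def shear : Z3 × Z3 ≃ Z3 × Z3 where
  toFun z := (z.2, z.1 - z.2)
  invFun z := (z.1 + z.2, z.1)
  left_inv z := by simp
  right_inv z := by simp

lemma conv_hasSum {x y : Z3 → ℝ} (hx0 : ∀ k, 0 ≤ x k) (hy0 : ∀ k, 0 ≤ y k) (hx : Summable x)
    (hy : Summable y) :
    HasSum (fun z : Z3 × Z3 => x z.2 * y (z.1 - z.2)) ((∑' k, x k) * ∑' k, y k) := by
  have h1 : Summable fun z : Z3 × Z3 => x z.1 * y z.2 := hx.mul_of_nonneg hy hx0 hy0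
  have h2 := (hx.tsum_mul_tsum hy h1) ▸ h1.hasSum
  exact (shear.hasSum_iff (f := fun z : Z3 × Z3 => x z.1 * y z.2)).mpr h2

lemma norm_BB_term_le (a b : Z3 → C3) (p q : Z3) :
    ‖(I * dt (a p) q) • b q‖ ≤ ‖a p‖ * (ax q * ‖b q‖) := by
  rw [norm_smul, norm_mul, Complex.norm_I, one_mul, ← mul_assoc]
  exact mul_le_mul_of_nonneg_right (norm_dt_le _ _) (norm_nonneg _)

lemma ax_mul_le {b : Z3 → C3} {N : ℝ} (hb : Bd 1 b N) (q : Z3) : ax q * ‖b q‖ ≤ N := by
  have := hb.pt q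
  rw [pow_one] at this
  exact (mul_le_mul_of_nonneg_right (ax_le_w q) (norm_nonneg _)).trans this

lemma summable_norm_BB_term {a b : Z3 → C3} {M N : ℝ} (ha : Bd 0 a M) (hb : Bd 1 b N) (k : Z3) :
    Summable fun p => ‖(I * dt (a p) (k - p)) • b (k - p)‖ :=
  Summable.of_nonneg_of_le (fun _ => norm_nonneg _)
    (fun p => (norm_BB_term_le a b p (k - p)).trans
      (mul_le_mul_of_nonneg_left (ax_mul_le hb _) (norm_nonneg _)))
    (ha.summable_norm.mul_right N)

lemma summable_BB_term {a b : Z3 → C3} {M N : ℝ} (ha : Bd 0 a M) (hb : Bd 1 b N) (k : Z3) :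
    Summable fun p => (I * dt (a p) (k - p)) • b (k - p) :=
  (summable_norm_BB_term ha hb k).of_norm

lemma norm_BB_le {a b : Z3 → C3} {M N : ℝ} (ha : Bd 0 a M) (hb : Bd 1 b N) (k : Z3) :
    ‖BB a b k‖ ≤ M * N := by
  refine (norm_tsum_le_tsum_norm (summable_norm_BB_term ha hb k)).trans ?_
  calc ∑' p, ‖(I * dt (a p) (k - p)) • b (k - p)‖ ≤ ∑' p, ‖a p‖ * N :=
        (summable_norm_BB_term ha hb k).tsum_le_tsum (fun p => (norm_BB_term_le a b p (k - p)).trans
          (mul_le_mul_of_nonneg_left (ax_mul_le hb _) (norm_nonneg _)))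
          (ha.summable_norm.mul_right N)
    _ = (∑' p, ‖a p‖) * N := tsum_mul_right
    _ ≤ M * N := mul_le_mul_of_nonneg_right ha.tsum_norm_le hb.nonneg

lemma Bd_BB_of {a b : Z3 → C3} {M N : ℝ} (ha : Bd 0 a M) (hb : Bd 1 b N) {s : ℕ}
    {x y x' y' : Z3 → ℝ} (hx0 : ∀ k, 0 ≤ x k) (hy0 : ∀ k, 0 ≤ y k) (hx : Summable x)
    (hy : Summable y) (hx0' : ∀ k, 0 ≤ x' k) (hy0' : ∀ k, 0 ≤ y' k) (hx' : Summable x')
    (hy' : Summable y')
    (hle : ∀ p q, w (p + q) ^ s * (‖a p‖ * (ax q * ‖b q‖)) ≤ x p * y q + x' p * y' q) :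
    Bd s (BB a b) ((∑' k, x k) * (∑' k, y k) + (∑' k, x' k) * ∑' k, y' k) := by
  have h := (conv_hasSum hx0 hy0 hx hy).add (conv_hasSum hx0' hy0' hx' hy')
  refine Bd.of_le (f := fun k => ∑' p, (x p * y (k - p) + x' p * y' (k - p)))
    h.summable.prod (fun k => ?_) (le_of_eq ?_)
  · calc w k ^ s * ‖BB a b k‖ ≤ w k ^ s * ∑' p, ‖(I * dt (a p) (k - p)) • b (k - p)‖ :=
          mul_le_mul_of_nonneg_left (norm_tsum_le_tsum_norm (summable_norm_BB_term ha hb k))
            (pow_nonneg (w_pos k).le s)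
      _ = ∑' p, w k ^ s * ‖(I * dt (a p) (k - p)) • b (k - p)‖ := tsum_mul_left.symm
      _ ≤ _ := by
          refine ((summable_norm_BB_term ha hb k).mul_left _).tsum_le_tsum (fun p => ?_)
            (h.summable.prod_factor k)
          have := hle p (k - p)
          rw [add_sub_cancel] at this
          exact (mul_le_mul_of_nonneg_left (norm_BB_term_le a b p (k - p))
            (pow_nonneg (w_pos k).le s)).trans this
  · rw [← h.tsum_eq, h.summable.tsum_prod]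

/-- Crude product bound. -/
lemma Bd_BB {a b : Z3 → C3} {M N : ℝ} {s : ℕ} (ha : Bd s a M) (hb : Bd (s + 1) b N) :
    Bd s (BB a b) (M * N) := by
  have h := Bd_BB_of (s := s) (ha.mono (Nat.zero_le s)) (hb.mono (by omega : 1 ≤ s + 1))
    (wn_nonneg s a) (wn_nonneg (s + 1) b) ha.summable hb.summable
    (x' := fun _ => 0) (y' := fun _ => 0) (fun _ => le_rfl) (fun _ => le_rfl)
    summable_zero summable_zero (fun p q => by
      have h1 : w (p + q) ^ s ≤ w p ^ s * w q ^ s := by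
        rw [← mul_pow]; exact pow_le_pow_left₀ (w_pos _).le (w_add_le_mul p q) s
      have := w_pos p
      have := w_pos q
      have := ax_nonneg q
      calc w (p + q) ^ s * (‖a p‖ * (ax q * ‖b q‖))
          ≤ (w p ^ s * w q ^ s) * (‖a p‖ * (w q * ‖b q‖)) := by
            gcongr; exact ax_le_w q
        _ = _ := by ring)
  refine h.mono_right ?_
  simp only [tsum_zero, mul_zero, add_zero]
  exact mul_le_mul ha.tsum_le hb.tsum_le (tsum_nonneg (wn_nonneg _ _)) ha.nonneg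

lemma pow_mul_le_add {x y : ℝ} (hx : 0 ≤ x) (hy : 0 ≤ y) (s : ℕ) :
    x ^ s * y ≤ x ^ (s + 1) + y ^ (s + 1) := by
  rcases le_total x y with h | h
  · calc x ^ s * y ≤ y ^ s * y := by gcongr
      _ = y ^ (s + 1) := by ring
      _ ≤ _ := le_add_of_nonneg_left (by positivity)
  · calc x ^ s * y ≤ x ^ s * x := by gcongr
      _ = x ^ (s + 1) := by ring
      _ ≤ _ := le_add_of_nonneg_right (by positivity)

lemma add_pow_le_two_pow {x y : ℝ} (hx : 0 ≤ x) (hy : 0 ≤ y) (s : ℕ) :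
    (x + y) ^ s ≤ 2 ^ s * (x ^ s + y ^ s) := by
  rcases le_total x y with h | h
  · calc (x + y) ^ s ≤ (2 * y) ^ s := by gcongr; linarith
      _ = 2 ^ s * y ^ s := mul_pow _ _ _
      _ ≤ _ := by gcongr; exact le_add_of_nonneg_left (by positivity)
  · calc (x + y) ^ s ≤ (2 * x) ^ s := by gcongr; linarith
      _ = 2 ^ s * x ^ s := mul_pow _ _ _
      _ ≤ _ := by gcongr; exact le_add_of_nonneg_right (by positivity)

/-- Tame product bound. -/
lemma Bd_BB_tame {a : Z3 → C3} {M N : ℝ} {s : ℕ} (h0 : Bd 0 a M) (h1 : Bd (s + 1) a N) :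
    Bd s (BB a a) (3 * 2 ^ s * M * N) := by
  have h := Bd_BB_of (s := s) h0 (h1.mono (by omega : 1 ≤ s + 1))
    (x := fun k => 2 ^ s * (w k ^ (s + 1) * ‖a k‖)) (y := fun k => ‖a k‖)
    (x' := fun k => 2 * 2 ^ s * ‖a k‖) (y' := fun k => w k ^ (s + 1) * ‖a k‖)
    (fun k => by have := wn_nonneg (s + 1) a k; positivity) (fun _ => norm_nonneg _)
    (h1.summable.mul_left _) h0.summable_norm (fun k => by positivity) (wn_nonneg (s + 1) a)
    (h0.summable_norm.mul_left _) h1.summable (fun p q => by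
      have hp := w_pos p
      have hq := w_pos q
      have e1 : w (p + q) ^ s ≤ 2 ^ s * (w p ^ s + w q ^ s) :=
        (pow_le_pow_left₀ (w_pos _).le (w_add_le p q) s).trans (add_pow_le_two_pow hp.le hq.le s)
      have e2 := pow_mul_le_add hp.le hq.le s
      have := ax_nonneg q
      calc w (p + q) ^ s * (‖a p‖ * (ax q * ‖a q‖))
          ≤ (2 ^ s * (w p ^ s + w q ^ s)) * (‖a p‖ * (w q * ‖a q‖)) := by
            gcongr; exact ax_le_w q
        _ = 2 ^ s * (w p ^ s * w q + w q ^ (s + 1)) * (‖a p‖ * ‖a q‖) := by ring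
        _ ≤ 2 ^ s * (w p ^ (s + 1) + w q ^ (s + 1) + w q ^ (s + 1)) * (‖a p‖ * ‖a q‖) := by gcongr
        _ = _ := by ring)
  refine h.mono_right ?_
  rw [tsum_mul_left, tsum_mul_left]
  have a1 := h0.tsum_norm_le
  have a2 := h1.tsum_le
  have a3 : 0 ≤ ∑' k, ‖a k‖ := tsum_nonneg fun _ => norm_nonneg _
  have a4 : 0 ≤ ∑' k, w k ^ (s + 1) * ‖a k‖ := tsum_nonneg (wn_nonneg _ _)
  have a5 : (∑' k, ‖a k‖) * (∑' k, w k ^ (s + 1) * ‖a k‖) ≤ M * N := mul_le_mul a1 a2 a4 h0.nonneg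
  have a6 : (0 : ℝ) < 2 ^ s := by positivity
  nlinarith only [a5, a6]

lemma BB_add_left {a a' b : Z3 → C3} {M M' N : ℝ} (ha : Bd 0 a M) (ha' : Bd 0 a' M')
    (hb : Bd 1 b N) (k : Z3) : BB (fun p => a p + a' p) b k = BB a b k + BB a' b k := by
  unfold BB
  rw [← (summable_BB_term ha hb k).tsum_add (summable_BB_term ha' hb k)]
  refine tsum_congr fun p => ?_
  rw [dt_add_left, mul_add, add_smul]

lemma BB_add_right {a b b' : Z3 → C3} {M N N' : ℝ} (ha : Bd 0 a M) (hb : Bd 1 b N)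
    (hb' : Bd 1 b' N') (k : Z3) : BB a (fun p => b p + b' p) k = BB a b k + BB a b' k := by
  unfold BB
  rw [← (summable_BB_term ha hb k).tsum_add (summable_BB_term ha hb' k)]
  refine tsum_congr fun p => ?_
  rw [smul_add]

lemma BB_sub_self {a b : Z3 → C3} {M N : ℝ} (ha : Bd 1 a M) (hb : Bd 1 b N) (k : Z3) :
    BB a a k - BB b b k = BB (fun p => a p - b p) a k + BB b (fun p => a p - b p) k := by
  have ha0 := ha.mono (Nat.zero_le 1)
  have hb0 := hb.mono (Nat.zero_le 1)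
  have h1 := BB_add_left (ha0.sub hb0) hb0 ha k
  have h2 := BB_add_right hb0 (ha.sub hb) hb k
  simp only [sub_add_cancel] at h1 h2
  change BB a a k = _ at h1
  change BB b a k = _ at h2
  rw [h1, h2]; abel

lemma BB_real {a b : Z3 → C3} {M N : ℝ} (ha : Bd 0 a M) (hb : Bd 1 b N) (ra : IsReal a)
    (rb : IsReal b) : IsReal (BB a b) := by
  intro k
  unfold BB
  rw [cj.map_tsum (summable_BB_term ha hb k), ← (Equiv.neg Z3).tsum_eq]
  refine tsum_congr fun p => ?_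
  have e : -k - (Equiv.neg Z3) p = -(k - p) := by simp; abel
  rw [e, rb, Equiv.neg_apply, ra, dt_neg_right, dt_cj, cj_smul]
  simp

lemma BB_zero {a : Z3 → C3} (da : DivFree a) (b : Z3 → C3) : BB a b 0 = 0 := by
  unfold BB
  simp [dt_neg_right, da _]

end

end Pool.Agent.Work.MP_6bf1e5_an.B
end

-- merged part: Pool.Agent.Work.MP_6bf1e5_an.Hyp.PreB
section
/-!
One-dimensional kernel estimates (the parts of `Dec.Gap1D`, `Dec.Gap1`, `Dec.Phase1A` used here).
-/

section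

open Set Complex
open scoped InnerProductSpace ComplexConjugate
open Pool.Agent.Work.MP_6bf1e5_an.B (Z3 R3 box)

namespace Pool.Agent.Work.MP_6bf1e5_an.Hyp.Dec.Gap1Aux

noncomputable section

/-- The one dimensional symbol. -/
def DD (θ : ℝ) (n : ℕ) (x : ℝ) : ℝ :=
  ∑ h ∈ Finset.Icc (-(n : ℤ)) n, Real.cos (θ * h) * Real.cos (x * h)

lemma sum_Icc_succ {α : Type} [AddCommMonoid α] (f : ℤ → α) (n : ℕ) :
    ∑ h ∈ Finset.Icc (-((n + 1 : ℕ) : ℤ)) ((n + 1 : ℕ) : ℤ), f h =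
      ∑ h ∈ Finset.Icc (-(n : ℤ)) n, f h + (f (-(n + 1)) + f (n + 1)) := by
  rw [Nat.cast_add, Nat.cast_one, Finset.Icc_succ_succ, Finset.sum_union (by simp),
    Finset.sum_pair (by omega)]

lemma DD_closed (θ x : ℝ) (n : ℕ) :
    (Real.cos x - Real.cos θ) * DD θ n x =
      Real.cos (θ * n) * Real.cos (x * (n + 1)) - Real.cos (θ * (n + 1)) * Real.cos (x * n) := by
  induction n with
  | zero => simp [DD]
  | succ n ih =>
    unfold DD at ih ⊢
    rw [sum_Icc_succ, mul_add, ih]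
    push_cast
    simp only [mul_neg, Real.cos_neg]
    have e1 : Real.cos (x * (n + 1 + 1)) = 2 * Real.cos x * Real.cos (x * (n + 1)) - Real.cos (x * n) := by
      rw [show x * ((n : ℝ) + 1 + 1) = x * (n + 1) + x by ring,
        show x * (n : ℝ) = x * (n + 1) - x by ring, Real.cos_add, Real.cos_sub]
      ring
    have e2 : Real.cos (θ * (n + 1 + 1)) = 2 * Real.cos θ * Real.cos (θ * (n + 1)) - Real.cos (θ * n) := by
      rw [show θ * ((n : ℝ) + 1 + 1) = θ * (n + 1) + θ by ring,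
        show θ * (n : ℝ) = θ * (n + 1) - θ by ring, Real.cos_add, Real.cos_sub]
      ring
    rw [e1, e2]
    ring

lemma sum_exp_eq (θ x : ℝ) (n : ℕ) :
    ∑ h ∈ Finset.Icc (-(n : ℤ)) n, ((Real.cos (θ * h) : ℝ) : ℂ) * Complex.exp (I * ((h * x : ℝ) : ℂ)) =
      (DD θ n x : ℂ) := by
  induction n with
  | zero => simp [DD]
  | succ n ih =>
    unfold DD at ih ⊢
    rw [sum_Icc_succ, sum_Icc_succ, ih, Complex.ofReal_add]
    congr 1
    simp only [Int.cast_neg, mul_neg, Real.cos_neg, neg_mul]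
    rw [mul_comm I, mul_comm I, Complex.exp_mul_I, Complex.exp_mul_I]
    push_cast
    simp only [Complex.cos_neg, Complex.sin_neg]
    rw [mul_comm (x : ℂ)]
    ring

lemma th_mul (m : ℕ) : th m * (m + 1) = Real.pi / 2 := by
  unfold th
  field_simp

lemma cos_w_nonneg {m : ℕ} {h : ℤ} (hh : h ∈ Finset.Icc (-(m : ℤ)) m) : 0 ≤ Real.cos (th m * h) := by
  apply cos_th_nonneg
  rw [Finset.mem_Icc] at hh
  rw [abs_le]; constructor <;> omega

lemma DD_zero_le (m : ℕ) : DD (th m) m 0 ≤ 2 * (m + 1) := by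
  unfold DD
  calc _ ≤ ∑ h ∈ Finset.Icc (-(m : ℤ)) m, (1 : ℝ) :=
        Finset.sum_le_sum fun h _ => by simpa using Real.cos_le_one _
    _ ≤ _ := by
        simp only [Finset.sum_const, Int.card_Icc, nsmul_eq_mul, mul_one]
        rw [show (m : ℤ) + 1 - -(m : ℤ) = ((2 * m + 1 : ℕ) : ℤ) by push_cast; ring, Int.toNat_natCast]
        push_cast; linarith

lemma DD_zero_nonneg (m : ℕ) : 0 ≤ DD (th m) m 0 :=
  Finset.sum_nonneg fun h hh => by simpa using cos_w_nonneg hh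

lemma DD_far {m : ℕ} (hm : 100 ≤ m) {x : ℝ} (h1 : 2 * th m ≤ |x|) (h2 : |x| ≤ Real.pi) :
    |DD (th m) m x| ≤ DD (th m) m 0 / 2 := by
  have hθ := th_pos m
  have hθ1 : th m ≤ 1 / 10 := by
    have := th_mul m
    have h3 : (100 : ℝ) ≤ m := by exact_mod_cast hm
    nlinarith only [this, h3, Real.pi_lt_four]
  have hc : 1 / 2 ≤ Real.cos (th m) := by
    nlinarith only [hθ, hθ1, Real.one_sub_sq_div_two_le_cos (x := th m)]
  have hc1 : Real.cos (th m) < 1 := by
    have := Real.cos_le_one_sub_mul_cos_sq (x := th m)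
      (by rw [abs_of_pos hθ]; linarith only [h1, h2, Real.pi_gt_three])
    have : 0 < 2 / Real.pi ^ 2 * th m ^ 2 := by have := Real.pi_pos; positivity
    linarith
  have e0 := DD_closed (th m) 0 m
  have ex := DD_closed (th m) x m
  rw [th_mul, Real.cos_pi_div_two] at e0 ex
  simp only [zero_mul, Real.cos_zero, sub_zero, mul_one] at e0 ex
  have hx : Real.cos x ≤ Real.cos (2 * th m) := by
    rw [← Real.cos_abs x]
    exact Real.cos_le_cos_of_nonneg_of_le_pi (by positivity) h2 h1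
  rw [Real.cos_two_mul] at hx
  have hD0 := DD_zero_nonneg m
  have h4 : 2 * (1 - Real.cos (th m)) ≤ |Real.cos x - Real.cos (th m)| := by
    rw [abs_sub_comm]
    refine le_trans ?_ (le_abs_self _)
    nlinarith only [hc, hc1, hx]
  have h5 : |Real.cos x - Real.cos (th m)| * |DD (th m) m x| ≤ (1 - Real.cos (th m)) * DD (th m) m 0 := by
    rw [← abs_mul, ex, ← e0, abs_mul, abs_of_nonneg (mul_nonneg (by linarith only [hc1]) hD0)]
    exact mul_le_of_le_one_right (mul_nonneg (by linarith only [hc1]) hD0) (Real.abs_cos_le_one _)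
  have h6 : 2 * (1 - Real.cos (th m)) * |DD (th m) m x| ≤ (1 - Real.cos (th m)) * DD (th m) m 0 :=
    le_trans (mul_le_mul_of_nonneg_right h4 (abs_nonneg _)) h5
  nlinarith only [hc1, h6]

lemma sum_sub_ge {m : ℕ} (hm : 100 ≤ m) (g : ℤ → ℝ) (hg : ∀ h ∈ Finset.Icc (-(m : ℤ)) m, 0 ≤ g h)
    {c : ℝ} (hc0 : 0 ≤ c)
    (hc : ∀ h : ℤ, (m + 1 : ℝ) ≤ 4 * h → 2 * h ≤ (m + 1 : ℝ) → c ≤ g h) :
    (m + 1 : ℝ) / 10 * c ≤ ∑ h ∈ Finset.Icc (-(m : ℤ)) m, Real.cos (th m * h) * g h := by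
  set J : Finset ℤ := Finset.Icc (((m + 4) / 4 : ℕ) : ℤ) (((m + 1) / 2 : ℕ) : ℤ) with hJ
  have hsub : J ⊆ Finset.Icc (-(m : ℤ)) m := by
    intro h hh
    simp only [hJ, Finset.mem_Icc] at hh ⊢
    omega
  have hcard : (m + 1 : ℝ) / 5 ≤ J.card := by
    have : m + 1 ≤ 5 * J.card := by
      simp only [hJ, Int.card_Icc]
      omega
    have : ((m + 1 : ℕ) : ℝ) ≤ ((5 * J.card : ℕ) : ℝ) := by exact_mod_cast this
    push_cast at this
    linarith only [this]
  refine le_trans ?_ (Finset.sum_le_sum_of_subset_of_nonneg hsub fun h hh _ =>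
    mul_nonneg (cos_w_nonneg hh) (hg h hh))
  calc (m + 1 : ℝ) / 10 * c ≤ J.card * (1 / 2 * c) := by nlinarith only [hc0, hcard]
    _ = ∑ h ∈ J, 1 / 2 * c := by simp
    _ ≤ _ := by
      refine Finset.sum_le_sum fun h hh => ?_
      simp only [hJ, Finset.mem_Icc] at hh
      have a1 : (m + 1 : ℝ) ≤ 4 * h := by
        have : (m + 1 : ℤ) ≤ 4 * h := by omega
        exact_mod_cast this
      have a2 : 2 * h ≤ (m + 1 : ℝ) := by
        have : 2 * h ≤ (m + 1 : ℤ) := by omega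
        exact_mod_cast this
      have hθ := th_pos m
      have a3 : th m * h ≤ 1 := by
        have := th_mul m
        nlinarith only [a1, a2, this, Real.pi_lt_four]
      have a4 : 0 ≤ th m * h := by
        have : (0 : ℝ) ≤ m := Nat.cast_nonneg m
        exact mul_nonneg hθ.le (by linarith only [a1])
      have a5 : 1 / 2 ≤ Real.cos (th m * h) := by
        nlinarith only [a3, a4, Real.one_sub_sq_div_two_le_cos (x := th m * h)]
      exact mul_le_mul a5 (hc h a1 a2) hc0 (by linarith only [a5])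

lemma DD_near {m : ℕ} (hm : 100 ≤ m) {x : ℝ} (h1 : |x| ≤ 2 * th m) :
    DD (th m) m x ^ 2 ≤ (1 - 1 / 10 ^ 5 * ((m + 1) ^ 2 * x ^ 2)) * DD (th m) m 0 ^ 2 := by
  have hN : (0 : ℝ) < m + 1 := by positivity
  have hD0 := DD_zero_nonneg m
  have hD1 := DD_zero_le m
  have hth := th_mul m
  have hθ := th_pos m
  have hA : (m + 1 : ℝ) / 10 * (1 / 80 * ((m + 1) ^ 2 * x ^ 2)) ≤ DD (th m) m 0 - DD (th m) m x := by
    have := sum_sub_ge hm (fun h => 1 - Real.cos (x * h))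
      (fun h _ => by linarith only [Real.cos_le_one (x * h)]) (c := 1 / 80 * ((m + 1) ^ 2 * x ^ 2))
      (by (clear * - hm; positivity)) (fun h a1 a2 => by
        have b1 : |x * h| ≤ Real.pi := by
          rw [abs_mul, abs_of_nonneg (by linarith only [a1] : (0 : ℝ) ≤ h)]
          nlinarith only [h1, hth, a2, abs_nonneg x, Real.pi_pos]
        have b2 := Real.cos_le_one_sub_mul_cos_sq b1
        have b3 : 1 / 5 ≤ 2 / Real.pi ^ 2 := by
          rw [div_le_div_iff₀ (by norm_num) (by have := Real.pi_pos; positivity)]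
          nlinarith only [Real.pi_lt_d2, Real.pi_pos]
        have b4 : (m + 1 : ℝ) ^ 2 ≤ 16 * (h : ℝ) ^ 2 := by nlinarith only [a1]
        have b5 : 1 / 80 * ((m + 1) ^ 2 * x ^ 2) ≤ 1 / 5 * (x * h) ^ 2 := by
          nlinarith only [b4, sq_nonneg x]
        have b6 : 1 / 5 * (x * h) ^ 2 ≤ 2 / Real.pi ^ 2 * (x * h) ^ 2 := by gcongr
        linarith only [b2, b5, b6])
    refine this.trans (le_of_eq ?_)
    unfold DD
    rw [← Finset.sum_sub_distrib]
    exact Finset.sum_congr rfl fun h _ => by simp; ring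
  have hB : (m + 1 : ℝ) / 10 * 1 ≤ DD (th m) m 0 + DD (th m) m x := by
    have := sum_sub_ge hm (fun h => 1 + Real.cos (x * h))
      (fun h _ => by linarith only [Real.neg_one_le_cos (x * h)]) (c := 1)
      (by positivity) (fun h a1 a2 => by
        have b1 : |x * h| ≤ Real.pi / 2 := by
          rw [abs_mul, abs_of_nonneg (by linarith only [a1] : (0 : ℝ) ≤ h)]
          nlinarith only [h1, hth, a2, abs_nonneg x, Real.pi_pos]
        have := Real.cos_nonneg_of_mem_Icc (abs_le.mp b1)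
        linarith only [this])
    refine this.trans (le_of_eq ?_)
    unfold DD
    rw [← Finset.sum_add_distrib]
    exact Finset.sum_congr rfl fun h _ => by simp; ring
  set D0 := DD (th m) m 0
  set D := DD (th m) m x
  set e := (m + 1 : ℝ) ^ 2 * x ^ 2
  have he : 0 ≤ e := by positivity
  have h2 : D0 / 20 * (1 / 80 * e) ≤ D0 - D := 
    le_trans (mul_le_mul_of_nonneg_right (by linarith only [hD1]) (by positivity)) hA
  have h3 : D0 / 20 ≤ D0 + D := le_trans (by linarith only [hD1]) hB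
  have h4 : D0 / 20 * (1 / 80 * e) * (D0 / 20) ≤ (D0 - D) * (D0 + D) :=
    mul_le_mul h2 h3 (by (clear * - hD0; positivity)) (le_trans (by (clear * - hm hD0; positivity)) h2)
  linarith only [h4, mul_nonneg he (sq_nonneg D0)]

lemma DD_bound {m : ℕ} (hm : 100 ≤ m) {x : ℝ} (hx : |x| ≤ Real.pi) :
    DD (th m) m x ^ 2 ≤ (1 - 1 / 10 ^ 5 * min 1 ((m + 1) ^ 2 * x ^ 2)) * DD (th m) m 0 ^ 2 := by
  rcases le_total |x| (2 * th m) with h | h
  · refine (DD_near hm h).trans ?_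
    gcongr
    exact min_le_right _ _
  · have h1 := DD_far hm h hx
    have h2 : DD (th m) m x ^ 2 ≤ (DD (th m) m 0 / 2) ^ 2 := by
      rw [← sq_abs]; gcongr
    have h3 : min 1 ((m + 1 : ℝ) ^ 2 * x ^ 2) ≤ 1 := min_le_left _ _
    nlinarith only [h2, h3, sq_nonneg (DD (th m) m 0)]

end

end Pool.Agent.Work.MP_6bf1e5_an.Hyp.Dec.Gap1Aux

end

section

open Set Complex
open scoped InnerProductSpace ComplexConjugate
open Pool.Agent.Work.MP_6bf1e5_an.B (Z3 R3 box)

namespace Pool.Agent.Work.MP_6bf1e5_an.Hyp.Dec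

namespace Gap1Aux

lemma norm_exp_taylor (u : ℝ) : ‖Complex.exp (I * u) - 1 - I * u‖ ≤ 2 * u ^ 2 := by
  have hn : ‖I * (u : ℂ)‖ = |u| := by simp
  rcases le_total |u| 1 with h | h
  · have := Complex.norm_exp_sub_one_sub_id_le (x := I * u) (by rw [hn]; exact h)
    rw [hn, sq_abs] at this
    linarith [sq_nonneg u]
  · have h1 : ‖Complex.exp (I * u) - 1‖ ≤ |u| := Real.norm_exp_I_mul_ofReal_sub_one_le
    have h2 := norm_sub_le (Complex.exp (I * u) - 1) (I * u)
    rw [hn] at h2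
    rw [← sq_abs]
    nlinarith only [h, h1, h2, abs_nonneg u]

end Gap1Aux

end Pool.Agent.Work.MP_6bf1e5_an.Hyp.Dec

end

section

open Set Complex
open scoped InnerProductSpace ComplexConjugate
open Pool.Agent.Work.MP_6bf1e5_an.B (Z3 R3 box)

namespace Pool.Agent.Work.MP_6bf1e5_an.Hyp.Dec

namespace Ph1

section bar

variable {E : Type} [NormedAddCommGroup E] [InnerProductSpace ℂ E] [NormedSpace ℝ E]
  {a b c : ℝ → E}

end bar

lemma re_inner_le (f g : V) : (⟪f, g⟫_ℂ).re ≤ ‖f‖ * ‖g‖ :=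
  (Complex.re_le_norm _).trans (norm_inner_le_norm _ _)

lemma re_inner_comm (f g : V) : (⟪f, g⟫_ℂ).re = (⟪g, f⟫_ℂ).re := by
  rw [← inner_conj_symm, Complex.conj_re]

lemma re_inner_smul (s : ℝ) (f g : V) : (⟪f, (s : ℂ) • g⟫_ℂ).re = s * (⟪f, g⟫_ℂ).re := by
  rw [inner_smul_right, Complex.re_ofReal_mul]

lemma pr_single (h : Z3) (i : Fin 3) (a : ℝ) : pr h (Pi.single i a) = h i * a := by
  rw [pr, Finset.sum_eq_single i] <;> simp +contextual

end Ph1

end Pool.Agent.Work.MP_6bf1e5_an.Hyp.Dec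

end
end

-- merged part: Pool.Agent.Work.MP_6bf1e5_an.Hyp.Drv
section
/-!
Properties of normalised drivers.
-/

open Set Complex Filter Topology MeasureTheory
open scoped InnerProductSpace ComplexConjugate
open Pool.Agent.Work.MP_6bf1e5_an.B (Z3 R3)
open Pool.Agent.Work.MP_6bf1e5_an.Hyp.Dec

namespace Pool.Agent.Work.MP_6bf1e5_an.Hyp

noncomputable section

lemma sqr_nonneg (r : N3) (x : R3) : 0 ≤ sqr r x := Finset.sum_nonneg fun _ _ => sq_nonneg _

lemma sq_sum_le_sqr (r : N3) (x : R3) : (∑ i, r i * |x i|) ^ 2 ≤ 3 * sqr r x := by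
  have e : ∀ i, ((r i : ℝ) * x i) ^ 2 = (r i * |x i|) ^ 2 := fun i => by
    rw [mul_pow, mul_pow, sq_abs]
  simp only [sqr, e, Fin.sum_univ_three]
  linarith [sq_nonneg ((r 0 : ℝ) * |x 0| - r 1 * |x 1|), sq_nonneg ((r 0 : ℝ) * |x 0| - r 2 * |x 2|),
    sq_nonneg ((r 1 : ℝ) * |x 1| - r 2 * |x 2|)]

namespace DrvAux

/-- First order Taylor expansion of a trigonometric polynomial. -/
lemma taylor {m : N3} {f : V} (hs : Sp m f) (x : R3) :
    ‖ev x f - ev 0 f - I * ∑ i, (x i : ℂ) * ev 0 (mulr (fun k => (k i : ℝ)) f)‖ ≤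
      l1 f * (2 * (∑ i, m i * |x i|) ^ 2) := by
  have e0 : ∑ i, (x i : ℂ) * ev 0 (mulr (fun k => (k i : ℝ)) f) =
      ∑ k ∈ bx m, f.coeff k * (pr k x : ℝ) := by
    have : ∀ i, ev 0 (mulr (fun k => (k i : ℝ)) f) =
        ∑ k ∈ bx m, (((k i : ℝ)) : ℂ) * f.coeff k := fun i => by
      rw [ev_zero_eq (hs.mulr _).subset]; rfl
    simp only [this, Finset.mul_sum]
    rw [Finset.sum_comm]
    refine Finset.sum_congr rfl fun k _ => ?_
    rw [pr, Complex.ofReal_sum, Finset.mul_sum]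
    exact Finset.sum_congr rfl fun i _ => by push_cast; ring
  have e : ev x f - ev 0 f - I * ∑ k ∈ bx m, f.coeff k * (pr k x : ℝ) =
      ∑ k ∈ bx m, f.coeff k * (Complex.exp (I * (pr k x : ℝ)) - 1 - I * (pr k x : ℝ)) := by
    rw [ev_eq x hs.subset, ev_zero_eq hs.subset, Finset.mul_sum, ← Finset.sum_sub_distrib,
      ← Finset.sum_sub_distrib]
    exact Finset.sum_congr rfl fun k _ => by ring
  rw [e0, e, l1_eq hs.subset, Finset.sum_mul]
  refine (norm_sum_le _ _).trans (Finset.sum_le_sum fun k hk => ?_)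
  rw [norm_mul]
  gcongr
  refine (Gap1Aux.norm_exp_taylor _).trans ?_
  have h1 := abs_pr_le3 hk x
  have h3 : pr k x ^ 2 ≤ (∑ i, m i * |x i|) ^ 2 := by
    rw [← sq_abs]; gcongr
  linarith

lemma sum_two_mul (r : N3) (x : R3) :
    ∑ i, ((2 * r i : ℕ) : ℝ) * |x i| = 2 * ∑ i, r i * |x i| := by
  rw [Finset.mul_sum]
  exact Finset.sum_congr rfl fun i _ => by push_cast; ring

lemma dag_tau (f : V) : dag (tau f) = tau (dag f) := by
  ext h
  simp only [tau, coeff_dag, coeff_prm, map_neg]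

lemma mulr_tau (d : Z3 → ℝ) (f : V) : mulr (fun h => d (tauE h)) (tau f) = tau (mulr d f) := by
  ext h
  simp only [tau, coeff_mulr, coeff_prm]

lemma rot3_eq {α : Type} (a : Fin 3 → α) (i : Fin 3) : rot3 a i = a (rot3 id i) := by
  fin_cases i <;> rfl

lemma tauE_rot (h : Z3) (i : Fin 3) : tauE h (rot3 id i) = h i := by
  fin_cases i <;> rfl

lemma rot3_ne {i j : Fin 3} (h : i ≠ j) : rot3 id i ≠ rot3 id j := by
  revert i j; decide

lemma abs_second_diff1 (A B : ℝ) :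
    |Real.cos A - (Real.cos (A - B) + Real.cos (A + B)) / 2| ≤ B ^ 2 / 2 := by
  have e : Real.cos A - (Real.cos (A - B) + Real.cos (A + B)) / 2 =
      Real.cos A * (1 - Real.cos B) := by rw [Real.cos_sub, Real.cos_add]; ring
  have h1 := Real.one_sub_sq_div_two_le_cos (x := B)
  have h2 := Real.cos_le_one B
  rw [e, abs_mul, abs_of_nonneg (by linarith only [h2] : 0 ≤ 1 - Real.cos B)]
  have := Real.abs_cos_le_one A
  nlinarith only [h1, this, abs_nonneg (Real.cos A)]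

lemma cos3 (x y z : ℝ) : Real.cos x * Real.cos y * Real.cos z =
    (Real.cos (x + y + z) + Real.cos (x + y - z) + Real.cos (x - y + z) +
      Real.cos (x - y - z)) / 4 := by
  simp only [Real.cos_add, Real.cos_sub, Real.sin_add, Real.sin_sub]; ring

lemma abs_second_diff (a b : Fin 3 → ℝ) {d : ℝ} (hb : ∀ i, |b i| ≤ d) :
    |∏ i, Real.cos (a i) - (∏ i, Real.cos (a i - b i) + ∏ i, Real.cos (a i + b i)) / 2| ≤
      5 * d ^ 2 := by
  simp only [Fin.prod_univ_three, cos3]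
  have b0 := abs_le.mp (hb 0)
  have b1 := abs_le.mp (hb 1)
  have b2 := abs_le.mp (hb 2)
  have key : ∀ A B : ℝ, -(3 * d) ≤ B → B ≤ 3 * d →
      |Real.cos A - (Real.cos (A - B) + Real.cos (A + B)) / 2| ≤ 5 * d ^ 2 := fun A B h1 h2 => by
    refine (abs_second_diff1 A B).trans ?_
    have : B ^ 2 ≤ (3 * d) ^ 2 := sq_le_sq' h1 h2
    linarith [sq_nonneg d]
  have k1 := abs_le.mp (key (a 0 + a 1 + a 2) (b 0 + b 1 + b 2) (by linarith) (by linarith))
  have k2 := abs_le.mp (key (a 0 + a 1 - a 2) (b 0 + b 1 - b 2) (by linarith only [b0, b1, b2]) (by linarith only [b0, b1, b2]))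
  have k3 := abs_le.mp (key (a 0 - a 1 + a 2) (b 0 - b 1 + b 2) (by linarith only [b0, b1, b2]) (by linarith only [b0, b1, b2]))
  have k4 := abs_le.mp (key (a 0 - a 1 - a 2) (b 0 - b 1 - b 2) (by linarith only [b0, b1, b2]) (by linarith only [b0, b1, b2]))
  rw [show a 0 - b 0 + (a 1 - b 1) + (a 2 - b 2) = a 0 + a 1 + a 2 - (b 0 + b 1 + b 2) by ring,
    show a 0 - b 0 + (a 1 - b 1) - (a 2 - b 2) = a 0 + a 1 - a 2 - (b 0 + b 1 - b 2) by ring,
    show a 0 - b 0 - (a 1 - b 1) + (a 2 - b 2) = a 0 - a 1 + a 2 - (b 0 - b 1 + b 2) by ring,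
    show a 0 - b 0 - (a 1 - b 1) - (a 2 - b 2) = a 0 - a 1 - a 2 - (b 0 - b 1 - b 2) by ring,
    show a 0 + b 0 + (a 1 + b 1) + (a 2 + b 2) = a 0 + a 1 + a 2 + (b 0 + b 1 + b 2) by ring,
    show a 0 + b 0 + (a 1 + b 1) - (a 2 + b 2) = a 0 + a 1 - a 2 + (b 0 + b 1 - b 2) by ring,
    show a 0 + b 0 - (a 1 + b 1) + (a 2 + b 2) = a 0 - a 1 + a 2 + (b 0 - b 1 + b 2) by ring,
    show a 0 + b 0 - (a 1 + b 1) - (a 2 + b 2) = a 0 - a 1 - a 2 + (b 0 - b 1 - b 2) by ring,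
    abs_le]
  constructor <;> linarith only [k1.1, k1.2, k2.1, k2.2, k3.1, k3.2, k4.1, k4.2]

section big

variable {ρ : ℝ} {r n : N3} (hρ : (10 : ℝ) ^ 100 ≤ ρ) (hn : ∀ i, (n i : ℝ) + 1 = ρ * r i)

lemma le_pow17 {T : ℝ} (hT : (10 : ℝ) ^ 100 ≤ T) : (10 : ℝ) ^ 100 ≤ T ^ 17 :=
  hT.trans (le_self_pow₀ (le_trans (by norm_num) hT) (by norm_num))

include hn in
lemma one_le_r (i : Fin 3) : 1 ≤ r i := by
  rcases Nat.eq_zero_or_pos (r i) with h | h
  · have h1 := hn i
    rw [h, Nat.cast_zero, mul_zero] at h1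
    have : (0 : ℝ) ≤ n i := Nat.cast_nonneg _
    linarith
  · exact h

include hρ hn in
lemma four_mul_le (i : Fin 3) : 4 * r i ≤ n i := by
  have h1 : (1 : ℝ) ≤ r i := by exact_mod_cast one_le_r hn i
  have h2 := hρ
  have h3 := hn i
  have h4 : (5 : ℝ) * r i ≤ ρ * r i := by
    gcongr
    exact le_trans (by norm_num) h2
  have : (4 : ℝ) * r i ≤ n i := by linarith
  exact_mod_cast this

include hρ hn in
lemma r_mul_th (i : Fin 3) : r i * th (n i) = Real.pi / 2 / ρ := by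
  have h2 : 0 < ρ := lt_of_lt_of_le (by positivity) hρ
  have h3 := th_mul (n i)
  rw [hn i] at h3
  rw [eq_div_iff h2.ne', ← h3]; ring

include hρ hn in
lemma card_strip : (((bx (fun i => n i + 4 * r i) \ bx (fun i => n i - 4 * r i)).card : ℕ) : ℝ) ≤
    300 / ρ * Nn n ^ 2 := by
  have h2 := hρ
  have h0 : 0 < ρ := lt_of_lt_of_le (by positivity) h2
  set ε := ρ⁻¹ with hε
  have e0 : 0 < ε := inv_pos.mpr h0
  have e1 : ε ≤ 1 / 100 := by
    rw [hε, one_div]
    exact inv_anti₀ (by norm_num) (le_trans (by norm_num) h2)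
  have hr : ∀ i, (r i : ℝ) = ε * (n i + 1) := fun i => by
    rw [hn i, hε, inv_mul_cancel_left₀ h0.ne']
  have sub : bx (fun i => n i - 4 * r i) ⊆ bx (fun i => n i + 4 * r i) := bx_mono fun i => by omega
  have c := Finset.card_sdiff_add_card_eq_card sub
  rw [card_bx, card_bx] at c
  have c' : (((bx (fun i => n i + 4 * r i) \ bx (fun i => n i - 4 * r i)).card : ℕ) : ℝ) +
      ∏ i, (2 * ((n i : ℝ) - 4 * r i) + 1) = ∏ i, (2 * ((n i : ℝ) + 4 * r i) + 1) := by
    have := congrArg (Nat.cast : ℕ → ℝ) c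
    push_cast at this
    rw [← this]
    congr 1
    exact Finset.prod_congr rfl fun i _ => by rw [Nat.cast_sub (four_mul_le hρ hn i)]; push_cast; ring
  have u : ∏ i, (2 * ((n i : ℝ) + 4 * r i) + 1) ≤ ∏ i : Fin 3, ((2 + 8 * ε) * ((n i : ℝ) + 1)) :=
    Finset.prod_le_prod (fun i _ => by (clear * -; positivity)) fun i _ => by linarith only [hr i]
  have l : ∏ i : Fin 3, ((2 - 9 * ε) * ((n i : ℝ) + 1)) ≤ ∏ i, (2 * ((n i : ℝ) - 4 * r i) + 1) :=
    Finset.prod_le_prod (fun i _ => mul_nonneg (by linarith only [e1]) (by positivity)) fun i _ => by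
      have h1 : (1 : ℝ) ≤ r i := by exact_mod_cast one_le_r hn i
      linarith only [h1, hr i]
  rw [Finset.prod_mul_distrib, Finset.prod_const, Finset.card_univ, Fintype.card_fin, ← Nn_sq] at u l
  have k : (2 + 8 * ε) ^ 3 - (2 - 9 * ε) ^ 3 ≤ 300 * ε := by
    have : ε ^ 2 ≤ (1 / 100) ^ 2 := by gcongr
    linarith only [e0, mul_nonneg e0.le (sub_nonneg.mpr this), sq_nonneg ε]
  have k2 := mul_le_mul_of_nonneg_right k (sq_nonneg (Nn n))
  rw [div_eq_mul_inv, ← hε]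
  linarith only [c', u, l, k2]

include hn in
lemma norm_second_diff {T : ℝ} (hT : (10 : ℝ) ^ 100 ≤ T) (hTρ : T ^ 17 ≤ ρ) {k : Z3}
    (hk : k ∈ bx (fun i => 4 * r i)) :
    ‖ph n - (2⁻¹ : ℂ) • (sh k * ph n + sh (-k) * ph n)‖ ≤ (T ^ 8 * ρ)⁻¹ / 4 := by
  have hρ : (10 : ℝ) ^ 100 ≤ ρ := (le_pow17 hT).trans hTρ
  have ρ0 : 0 < ρ := lt_of_lt_of_le (by positivity) hρ
  have T0 : 0 < T := lt_of_lt_of_le (by positivity) hT
  have T1 : 1 ≤ T := le_trans (by norm_num) hT
  have N0 := Nn_pos n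
  set D := ph n - (2⁻¹ : ℂ) • (sh k * ph n + sh (-k) * ph n) with hD
  set d := 2 * Real.pi / ρ with hd
  have d0 : 0 ≤ d := by have := Real.pi_pos; positivity
  have hki : ∀ i, |k i| ≤ 4 * r i := fun i => by simpa using mem_bx.mp hk i
  have hb : ∀ i, |th (n i) * k i| ≤ d := fun i => by
    have h1 : |(k i : ℝ)| ≤ 4 * r i := by exact_mod_cast hki i
    rw [abs_mul, abs_of_pos (th_pos _)]
    calc th (n i) * |(k i : ℝ)| ≤ th (n i) * (4 * r i) := by gcongr; exact (th_pos _).le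
      _ = 4 * (r i * th (n i)) := by ring
      _ = d := by rw [r_mul_th hρ hn i, hd]; ring
  have cD : ∀ h, D.coeff h = (((Nn n)⁻¹ * (∏ i, cb (n i) (h i) -
      (∏ i, cb (n i) ((h - k) i) + ∏ i, cb (n i) ((h + k) i)) / 2) : ℝ) : ℂ) := fun h => by
    rw [hD]
    simp only [AddMonoidAlgebra.coeff_sub, AddMonoidAlgebra.coeff_add, AddMonoidAlgebra.coeff_smul,
      Finsupp.sub_apply, Finsupp.add_apply, Finsupp.smul_apply, smul_eq_mul, coeff_sh_mul,
      coeff_ph', sub_neg_eq_add]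
    push_cast; ring
  have sD : Sp (fun i => n i + 4 * r i) D := by
    have s1 : ∀ {k : Z3}, k ∈ bx (fun i => 4 * r i) → Sp (fun i => n i + 4 * r i) (sh k * ph n) :=
      fun hk => ((sp_sh hk).mul (sp_ph n)).mono fun i => by simp [add_comm]
    exact ((sp_ph n).mono fun i => by omega).sub (((s1 hk).add (s1 (neg_mem_bx.mpr hk))).smul _)
  have all : ∀ h, ‖D.coeff h‖ ≤ (Nn n)⁻¹ * (3 * d) := fun h => by
    rw [cD, Complex.norm_real, norm_mul, Real.norm_of_nonneg (by positivity), Real.norm_eq_abs]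
    gcongr
    have one : ∀ g : Z3, (∀ i, |(h i : ℝ) - g i| = |(k i : ℝ)|) →
        |∏ i, cb (n i) (h i) - ∏ i, cb (n i) (g i)| ≤ 3 * d := fun g hg => by
      refine (abs_prod3_sub (fun _ => Real.abs_cos_le_one _)
        fun _ => Real.abs_cos_le_one _).trans ?_
      calc ∑ i, |cb (n i) (h i) - cb (n i) (g i)| ≤ ∑ _i : Fin 3, d :=
            Finset.sum_le_sum fun i _ => (cb_lip _ _ _).trans (by
              have := hb i
              rw [abs_mul, abs_of_pos (th_pos _)] at this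
              rwa [hg i])
        _ = _ := by simp
    have o1 := abs_le.mp (one (h - k) fun i => by simp)
    have o2 := abs_le.mp (one (h + k) fun i => by simp)
    rw [abs_le]
    constructor <;> linarith only [o1.1, o1.2, o2.1, o2.2]
  have inner : ∀ h ∈ bx (fun i => n i - 4 * r i), ‖D.coeff h‖ ≤ (Nn n)⁻¹ * (5 * d ^ 2) :=
    fun h hh => by
    rw [cD, Complex.norm_real, norm_mul, Real.norm_of_nonneg (by positivity), Real.norm_eq_abs]
    gcongr
    have hhi : ∀ i, |h i| ≤ n i - 4 * r i := fun i => by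
      have := mem_bx.mp hh i
      rwa [Nat.cast_sub (four_mul_le hρ hn i), Nat.cast_mul] at this
    have c0 : ∀ i, cb (n i) (h i) = Real.cos (th (n i) * h i) := fun i =>
      cb_of_le (by have := hhi i; omega)
    have c1 : ∀ i, cb (n i) ((h - k) i) = Real.cos (th (n i) * h i - th (n i) * k i) := fun i => by
      rw [cb_of_le (by
        have := abs_le.mp (hhi i); have := abs_le.mp (hki i)
        rw [Pi.sub_apply, abs_le]; omega)]
      simp [mul_sub]
    have c2 : ∀ i, cb (n i) ((h + k) i) = Real.cos (th (n i) * h i + th (n i) * k i) := fun i => by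
      rw [cb_of_le (by
        have := abs_le.mp (hhi i); have := abs_le.mp (hki i)
        rw [Pi.add_apply, abs_le]; omega)]
      simp [mul_add]
    simp only [c0, c1, c2]
    exact abs_second_diff (fun i => th (n i) * h i) (fun i => th (n i) * k i) hb
  have n1 : ‖pj (fun i => n i - 4 * r i) D‖ ≤ 15 * d ^ 2 := by
    have := (sp_pj (fun i => n i - 4 * r i) D).norm_le (c := (Nn n)⁻¹ * (5 * d ^ 2))
      (by positivity) fun h => by
        rw [coeff_pj]
        split_ifs with hh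
        · exact inner h hh
        · rw [norm_zero]; positivity
    have le : Nn (fun i => n i - 4 * r i) ≤ Nn n := by
      simpa using Nn_le (m := fun i => n i - 4 * r i) (n := n) zero_le_one fun i => by
        have : ((n i - 4 * r i : ℕ) : ℝ) ≤ n i := by exact_mod_cast Nat.sub_le _ _
        linarith only [this]
    calc _ ≤ _ := this
      _ ≤ 3 * Nn n * ((Nn n)⁻¹ * (5 * d ^ 2)) := by (clear * - hρ N0 le; gcongr)
      _ = _ := by field_simp; ring
  have n2 : ‖D - pj (fun i => n i - 4 * r i) D‖ ≤ (T ^ 8)⁻¹ / 1000 * (3 * d) := by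
    have := norm_le_of_card (f := D - pj (fun i => n i - 4 * r i) D)
      (s := bx (fun i => n i + 4 * r i) \ bx (fun i => n i - 4 * r i))
      (fun h hh => by
        rw [Finsupp.mem_support_iff, AddMonoidAlgebra.coeff_sub, Finsupp.sub_apply, coeff_pj] at hh
        refine Finset.mem_sdiff.mpr ⟨?_, fun h1 => hh (by rw [if_pos h1, sub_self])⟩
        by_contra h1
        exact hh (by simp [sD h h1]))
      (c := (Nn n)⁻¹ * (3 * d)) (by positivity) fun h => by
        rw [AddMonoidAlgebra.coeff_sub, Finsupp.sub_apply, coeff_pj]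
        split_ifs with hh
        · rw [sub_self, norm_zero]; positivity
        · rw [sub_zero]; exact all h
    have le : √((bx (fun i => n i + 4 * r i) \ bx (fun i => n i - 4 * r i)).card) ≤
        (T ^ 8)⁻¹ / 1000 * Nn n := by
      refine Real.sqrt_le_iff.mpr ⟨by positivity, (card_strip hρ hn).trans ?_⟩
      rw [mul_pow]
      gcongr
      refine le_trans (b := 300 / T ^ 17) (by gcongr) ?_
      rw [div_le_iff₀ (by positivity), show ((T ^ 8)⁻¹ / 1000) ^ 2 * T ^ 17 = T / 10 ^ 6 by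
        field_simp; norm_num, le_div_iff₀ (by positivity)]
      exact le_trans (by norm_num) hT
    calc _ ≤ _ := this
      _ ≤ (T ^ 8)⁻¹ / 1000 * Nn n * ((Nn n)⁻¹ * (3 * d)) := by gcongr
      _ = _ := by field_simp
  have d1 : d ≤ 7 / ρ := by
    rw [hd]; gcongr; linarith only [Real.pi_lt_d2]
  have a1 : (T ^ 8)⁻¹ / 1000 * (3 * d) ≤ (T ^ 8 * ρ)⁻¹ / 8 := by
    calc (T ^ 8)⁻¹ / 1000 * (3 * d) ≤ (T ^ 8)⁻¹ / 1000 * (3 * (7 / ρ)) := by (clear * - hT d1; gcongr)
      _ = (T ^ 8 * ρ)⁻¹ * (21 / 1000) := by field_simp; norm_num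
      _ ≤ _ := by have : 0 < (T ^ 8 * ρ)⁻¹ := by positivity
                  linarith only [this]
  have a2 : 15 * d ^ 2 ≤ (T ^ 8 * ρ)⁻¹ / 8 := by
    have : (10 : ℝ) ^ 4 ≤ T ^ 9 :=
      le_trans (le_trans (by norm_num) hT) (le_self_pow₀ T1 (by norm_num))
    calc 15 * d ^ 2 ≤ 15 * (7 / ρ) ^ 2 := by (clear * - hρ d1; gcongr)
      _ = (T ^ 8 * ρ)⁻¹ * (735 * T ^ 8 / ρ) := by field_simp; norm_num
      _ ≤ (T ^ 8 * ρ)⁻¹ * (735 * T ^ 8 / T ^ 17) := by gcongr
      _ = (T ^ 8 * ρ)⁻¹ * (735 / T ^ 9) := by field_simp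
      _ ≤ (T ^ 8 * ρ)⁻¹ * (735 / 10 ^ 4) := by (clear * - hT hρ this; gcongr)
      _ ≤ _ := by have : 0 < (T ^ 8 * ρ)⁻¹ := by positivity
                  linarith only [this]
  have := norm_add_le (pj (fun i => n i - 4 * r i) D) (D - pj (fun i => n i - 4 * r i) D)
  rw [add_sub_cancel] at this
  linarith only [n1, n2, a1, a2, this]

end big

end DrvAux

open DrvAux

namespace Drv

variable {T κ : ℝ} {r : N3} {mv : Fin 3 → ℝ} {p : V} (h : Drv T r mv κ p)

include h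

lemma mono {κ' : ℝ} {mv' : Fin 3 → ℝ} (h1 : ∀ i, mv i ≤ mv' i) (h2 : κ ≤ κ') :
    Drv T r mv' κ' p :=
  ⟨h.supp, h.real, h.one, h.l1_le, h.far,
    fun i j hij => (h.mix i j hij).trans (mul_le_mul_of_nonneg_right h2 (by positivity)),
    fun i x => (h.mom i x).trans (h1 i)⟩

lemma ev_le {x : R3} (hx : x ∈ cube) : ‖ev x p‖ ≤ 1 := by
  have h1 := h.far x hx
  have h2 : 0 ≤ min (T ^ 16)⁻¹ (sqr r x) := le_min (by positivity) (sqr_nonneg r x)
  exact (sq_le_one_iff₀ (norm_nonneg _)).mp (by linarith)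

lemma norm_mul_le (f : V) : ‖p * f‖ ≤ ‖f‖ := by
  simpa using norm_mul_le_of_symbol zero_le_one (fun x hx => h.ev_le hx) f

lemma norm_dag_mul_le (f : V) : ‖dag p * f‖ ≤ ‖f‖ := by
  rw [norm_dag_mul]; exact h.norm_mul_le f

lemma taylor' (x : R3) :
    ‖ev x p - 1 - I * ∑ i, (x i : ℂ) * ev 0 (mulr (fun k => (k i : ℝ)) p)‖ ≤ 48 * sqr r x := by
  have h1 := taylor h.supp x
  rw [h.one, sum_two_mul] at h1
  have h2 := sq_sum_le_sqr r x
  have h3 : l1 p * (2 * (2 * ∑ i, r i * |x i|) ^ 2) ≤ 2 * (2 * (2 * ∑ i, r i * |x i|) ^ 2) :=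
    mul_le_mul_of_nonneg_right h.l1_le (by positivity)
  linarith

lemma near (x : R3) : 1 - ‖ev x p‖ ^ 2 ≤ 100 * sqr r x := by
  have h1 := (Complex.abs_re_le_norm _).trans (h.taylor' x)
  have h2 : (∑ i, (x i : ℂ) * ev 0 (mulr (fun k => (k i : ℝ)) p)).im = 0 := by
    rw [Complex.im_sum]
    exact Finset.sum_eq_zero fun i _ => by
      rw [(h.real.mulr _).ev_zero, ← Complex.ofReal_mul, Complex.ofReal_im]
  rw [Complex.sub_re, Complex.sub_re, Complex.mul_re, h2, Complex.one_re, Complex.I_re, zero_mul,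
    mul_zero, sub_zero, sub_zero] at h1
  have f2 : (ev x p).re ^ 2 ≤ ‖ev x p‖ ^ 2 := by
    rw [← sq_abs]
    exact pow_le_pow_left₀ (abs_nonneg _) (Complex.abs_re_le_norm _) 2
  have := sqr_nonneg r x
  linarith [sq_nonneg ((ev x p).re - 1), (abs_le.mp h1).1]

lemma norm_mom_le (i : Fin 3) : ‖ev 0 (mulr (fun k => (k i : ℝ)) p)‖ ≤ mv i := by
  have h1 := h.mom i 0
  rw [h.one, map_one, one_mul] at h1
  rwa [(h.real.mulr _).ev_zero, Complex.norm_real, Real.norm_eq_abs]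

lemma mv_nonneg (i : Fin 3) : 0 ≤ mv i := (abs_nonneg _).trans (h.mom i 0)

lemma ev_sub_one (x : R3) : ‖ev x p - 1‖ ≤ ∑ i, |x i| * mv i + 50 * sqr r x := by
  have h1 := h.taylor' x
  have h2 : ‖I * ∑ i, (x i : ℂ) * ev 0 (mulr (fun k => (k i : ℝ)) p)‖ ≤ ∑ i, |x i| * mv i := by
    rw [norm_mul, Complex.norm_I, one_mul]
    refine (norm_sum_le _ _).trans (Finset.sum_le_sum fun i _ => ?_)
    rw [norm_mul, Complex.norm_real, Real.norm_eq_abs]
    gcongr
    exact h.norm_mom_le i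
  have h3 := norm_add_le (ev x p - 1 - I * ∑ i, (x i : ℂ) * ev 0 (mulr (fun k => (k i : ℝ)) p))
    (I * ∑ i, (x i : ℂ) * ev 0 (mulr (fun k => (k i : ℝ)) p))
  rw [sub_add_cancel] at h3
  have := sqr_nonneg r x
  linarith

protected lemma tau : Drv T (rot3 r) (rot3 mv) κ (tau p) := by
  refine ⟨?_, h.real.tau, by rw [ev_zero_tau, h.one], by rw [l1_tau]; exact h.l1_le,
    fun x hx => ?_, fun i j hij => ?_, fun i x => ?_⟩
  · exact h.supp.tau.mono fun i => by fin_cases i <;> exact le_rfl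
  · have h1 := h.far ![x 1, x 2, x 0] ⟨fun i => by fin_cases i <;> exact hx.1 _,
      fun i => by fin_cases i <;> exact hx.2 _⟩
    have e : sqr (rot3 r) x = sqr r ![x 1, x 2, x 0] := by
      simp only [sqr, rot3, Fin.sum_univ_three, Matrix.cons_val]
      ring
    rwa [ev_tau, e]
  · have h1 := h.mix _ _ (rot3_ne hij)
    rw [← ev_zero_tau, ← mulr_tau, tau_mul, ← dag_tau] at h1
    simp only [tauE_rot] at h1
    rwa [rot3_eq r i, rot3_eq r j]
  · have h1 := h.mom (rot3 id i) ![x 1, x 2, x 0]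
    rw [← ev_tau, ← ev_tau, ← mulr_tau] at h1
    simp only [tauE_rot] at h1
    rwa [rot3_eq mv i]

/-- The Nash type lower bound of the loss. -/
theorem nash (hr : ∀ i, 1 ≤ r i) {ω S : ℝ} (h0 : 0 < ω) (h1 : ω ≤ (T ^ 16)⁻¹) (y : V)
    (hS : ∀ x ∈ cube, ‖ev x y‖ ≤ S) :
    1 / 10 ^ 10 * ω * (‖y‖ ^ 2 - √ω ^ 3 / (∏ i, (r i : ℝ)) * S ^ 2 / 30) ≤ Qf p y := by
  have rp : ∀ i, (0 : ℝ) < r i := fun i => by exact_mod_cast hr i
  set ρ : R3 := fun i => √ω / r i with hρ
  have r0 : ∀ i, 0 ≤ ρ i := fun i => div_nonneg (Real.sqrt_nonneg _) (rp i).le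
  set v := √ω ^ 3 / ∏ i, (r i : ℝ) with hv
  have v0 : 0 ≤ v := div_nonneg (by positivity) (Finset.prod_nonneg fun i _ => (rp i).le)
  set K : Set R3 := Icc (fun i => -ρ i) ρ with hK
  have c : ∀ f : V, Continuous fun x : R3 => ‖ev x f‖ ^ 2 := fun f => (continuous_ev f).norm.pow 2
  have iK : IntegrableOn (K.indicator fun _ => S ^ 2) cube :=
    (integrableOn_cube continuous_const).indicator measurableSet_Icc
  have h2 : ∫ x in cube, K.indicator (fun _ => S ^ 2) x ≤ 8 * v * S ^ 2 := by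
    refine le_trans (setIntegral_le_integral ?_ (Filter.Eventually.of_forall fun x =>
      indicator_nonneg (fun _ _ => sq_nonneg _) x)) ?_
    · exact (integrable_indicator_iff measurableSet_Icc).mpr
        (continuous_const.continuousOn.integrableOn_compact isCompact_Icc)
    · rw [integral_indicator measurableSet_Icc, setIntegral_const, smul_eq_mul, Measure.real,
        Real.volume_Icc_pi_toReal fun i => by simpa using r0 i]
      refine le_of_eq ?_
      congr 1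
      have := rp 0
      have := rp 1
      have := rp 2
      simp only [hv, hρ, Fin.prod_univ_three]
      field_simp
      ring
  have h3 := setIntegral_mono_on
    (f := fun x => ‖ev x (p * y)‖ ^ 2 + 1 / 10 ^ 10 * ω * ‖ev x y‖ ^ 2)
    (g := fun x => ‖ev x y‖ ^ 2 + 1 / 10 ^ 10 * ω * K.indicator (fun _ => S ^ 2) x)
    (integrableOn_cube ((c (p * y)).fun_add (continuous_const.fun_mul (c y))))
    ((integrableOn_cube (c y)).fun_add (iK.const_mul _)) measurableSet_Icc fun x hx => by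
      have f1 := h.far x hx
      have y0 := sq_nonneg ‖ev x y‖
      simp only [map_mul, norm_mul, mul_pow]
      by_cases xK : x ∈ K
      · rw [indicator_of_mem xK]
        have : ‖ev x p‖ ^ 2 ≤ 1 := (sq_le_one_iff₀ (norm_nonneg _)).mpr (h.ev_le hx)
        have : ‖ev x y‖ ^ 2 ≤ S ^ 2 := by gcongr; exact hS x hx
        nlinarith
      · rw [indicator_of_notMem xK]
        have : ω ≤ min (T ^ 16)⁻¹ (sqr r x) := by
          refine le_min h1 ?_
          obtain ⟨i, hi⟩ : ∃ i, ρ i < |x i| := by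
            by_contra hn
            push Not at hn
            exact xK ⟨fun i => (abs_le.mp (hn i)).1, fun i => (abs_le.mp (hn i)).2⟩
          have a1 : ((r i : ℝ) * x i) ^ 2 ≤ sqr r x :=
            Finset.single_le_sum (f := fun i => ((r i : ℝ) * x i) ^ 2) (fun _ _ => sq_nonneg _)
              (Finset.mem_univ i)
          have a2 : ρ i ^ 2 ≤ x i ^ 2 := by
            rw [← sq_abs (x i)]; exact pow_le_pow_left₀ (r0 i) hi.le 2
          have a3 : (r i : ℝ) ^ 2 * ρ i ^ 2 = ω := by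
            have := rp i
            simp only [hρ]
            rw [div_pow, Real.sq_sqrt h0.le]; field_simp
          rw [mul_pow] at a1
          rw [← a3]
          exact le_trans (by gcongr) a1
        nlinarith only [f1, this]
  rw [integral_add (integrableOn_cube (c _)) (integrableOn_cube ((c _).const_mul _)),
    integral_add (integrableOn_cube (c _)) (iK.const_mul _), integral_const_mul, integral_const_mul,
    parseval, parseval] at h3
  have pi3 : 240 ≤ (2 * Real.pi) ^ 3 := by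
    calc (240 : ℝ) ≤ (2 * 3.14) ^ 3 := by norm_num
      _ ≤ _ := by gcongr; exact Real.pi_gt_d2.le
  rw [Qf]
  have h4 : 1 / 10 ^ 10 * ω * (8 * v * S ^ 2) ≤
      (2 * Real.pi) ^ 3 * (1 / 10 ^ 10 * ω * (v * S ^ 2 / 30)) := by
    have : 0 ≤ 1 / 10 ^ 10 * ω * (v * S ^ 2 / 30) := by (clear * - h0; positivity)
    nlinarith only [pi3, this]
  have h5 := mul_le_mul_of_nonneg_left h2 (by positivity : 0 ≤ 1 / 10 ^ 10 * ω)
  refine le_of_mul_le_mul_left ?_ (by linarith only [pi3] : 0 < (2 * Real.pi) ^ 3)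
  linarith

/-- The symmetrised weighted driver. -/
lemma norm_sym_mul_le {ξ : R3} {x : ℝ} (hx : ∑ i, r i * |ξ i| ≤ x) (hx1 : x ≤ 1 / 4) (y : V) :
    ‖(wt (-ξ) p + wt ξ p) * y‖ ≤ 2 * (1 + 8 * x ^ 2) * ‖y‖ := by
  have hu : l1 (wt (-ξ) p + wt ξ p - (p + p)) ≤ 8 * x ^ 2 * l1 p := by
    refine l1_le_of_coeff (by positivity) fun k => ?_
    by_cases hh : k ∈ bx fun i => 2 * r i
    · have ha : |pr k ξ| ≤ 2 * x := by
        refine (abs_pr_le3 hh ξ).trans ?_
        rw [sum_two_mul]; linarith only [hx]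
      have e : (wt (-ξ) p + wt ξ p - (p + p)).coeff k =
          ((Real.exp (-pr k ξ) + Real.exp (pr k ξ) - 2 : ℝ) : ℂ) * p.coeff k := by
        simp only [AddMonoidAlgebra.coeff_add, AddMonoidAlgebra.coeff_sub, Finsupp.coe_add,
          Finsupp.coe_sub, Pi.add_apply, Pi.sub_apply, coeff_wt, pr_neg']
        push_cast; ring
      rw [e, norm_mul, Complex.norm_real, Real.norm_eq_abs]
      gcongr
      have h1 := abs_le.mp (Real.abs_exp_sub_one_sub_id_le (x := pr k ξ) (by linarith))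
      have h2 := abs_le.mp (Real.abs_exp_sub_one_sub_id_le (x := -pr k ξ)
        (by rw [abs_neg]; linarith))
      have h3 : pr k ξ ^ 2 ≤ (2 * x) ^ 2 := by
        rw [← sq_abs]; gcongr
      rw [abs_le]
      constructor <;> linarith only [h1, h2, h3]
    · simp [coeff_wt, h.supp k hh]
  have e : (wt (-ξ) p + wt ξ p) * y = p * y + p * y + (wt (-ξ) p + wt ξ p - (p + p)) * y := by
    ring
  rw [e]
  have h1 := h.norm_mul_le y
  have h2 := norm_mul_le_l1 (wt (-ξ) p + wt ξ p - (p + p)) y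
  have h3 := norm_add₃_le (a := p * y) (b := p * y) (c := (wt (-ξ) p + wt ξ p - (p + p)) * y)
  have h4 : l1 (wt (-ξ) p + wt ξ p - (p + p)) * ‖y‖ ≤ 8 * x ^ 2 * 2 * ‖y‖ := by
    gcongr
    exact hu.trans (by gcongr; exact h.l1_le)
  linarith only [h1, h2, h3, h4]

/-- The weighted driver. -/
lemma norm_wt_mul_le (i : Fin 3) {u : ℝ} (hu : |u| * r i ≤ 1 / 4) (y : V) :
    ‖wt (Pi.single i u) p * y‖ ≤ (1 + |u| * mv i + 50 * (u * r i) ^ 2) * ‖y‖ := by
  set m := mulr (fun k => (k i : ℝ)) p with hm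
  have mv0 := h.mv_nonneg i
  have hk : ∀ k : Z3, k ∈ bx (fun i => 2 * r i) → |(k i : ℝ)| ≤ 2 * r i := fun k hh => by
    exact_mod_cast mem_bx.mp hh i
  have lm : l1 m ≤ 2 * r i * 2 := by
    refine le_trans (l1_le_of_coeff (g := p) (c := 2 * r i) (by positivity) fun k => ?_)
      (by gcongr; exact h.l1_le)
    by_cases hh : k ∈ bx fun i => 2 * r i
    · rw [hm, coeff_mulr, norm_mul, Complex.norm_real, Real.norm_eq_abs]
      gcongr
      exact hk k hh
    · simp [hm, h.supp k hh]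
  have lR : l1 (wt (Pi.single i u) p - (p + (u : ℂ) • m)) ≤ 4 * (u * r i) ^ 2 * 2 := by
    refine le_trans (l1_le_of_coeff (g := p) (c := 4 * (u * r i) ^ 2) (by positivity) fun k => ?_)
      (by gcongr; exact h.l1_le)
    by_cases hh : k ∈ bx fun i => 2 * r i
    · have e : (wt (Pi.single i u) p - (p + (u : ℂ) • m)).coeff k =
          ((Real.exp (k i * u) - 1 - k i * u : ℝ) : ℂ) * p.coeff k := by
        simp only [AddMonoidAlgebra.coeff_add, AddMonoidAlgebra.coeff_sub,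
          AddMonoidAlgebra.coeff_smul, Finsupp.sub_apply, Finsupp.add_apply, Finsupp.smul_apply,
          smul_eq_mul, coeff_wt, Ph1.pr_single, hm, coeff_mulr]
        push_cast; ring
      have ha : |(k i : ℝ) * u| ≤ 2 * (|u| * r i) := by
        rw [abs_mul]
        nlinarith only [hk k hh, abs_nonneg u]
      rw [e, norm_mul, Complex.norm_real, Real.norm_eq_abs]
      gcongr
      refine (Real.abs_exp_sub_one_sub_id_le (by linarith only [hu, ha])).trans ?_
      calc ((k i : ℝ) * u) ^ 2 = |(k i : ℝ) * u| ^ 2 := (sq_abs _).symm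
        _ ≤ (2 * (|u| * r i)) ^ 2 := by gcongr
        _ = _ := by rw [mul_pow, mul_pow, mul_pow, sq_abs]; ring
    · simp [coeff_wt, hm, h.supp k hh]
  have sy : ∀ x ∈ cube, ‖ev x (wt (Pi.single i u) p)‖ ≤ 1 + |u| * mv i + 50 * (u * r i) ^ 2 :=
    fun x hx => by
    have e1 : ‖ev x (p + (u : ℂ) • m)‖ ^ 2 = ‖ev x p‖ ^ 2 + 2 * u * (conj (ev x p) * ev x m).re +
        u ^ 2 * ‖ev x m‖ ^ 2 := by
      rw [map_add, map_smul, smul_eq_mul]
      simp only [Complex.sq_norm, Complex.normSq_apply, Complex.add_re, Complex.add_im,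
        Complex.mul_re, Complex.mul_im, Complex.ofReal_re, Complex.ofReal_im, Complex.conj_re,
        Complex.conj_im]
      ring
    have a1 : ‖ev x p‖ ^ 2 ≤ 1 := (sq_le_one_iff₀ (norm_nonneg _)).mpr (h.ev_le hx)
    have a2 : u * (conj (ev x p) * ev x m).re ≤ |u| * mv i := by
      refine (le_abs_self _).trans ?_
      rw [abs_mul]
      gcongr
      exact h.mom i x
    have a3 : ‖ev x m‖ ^ 2 ≤ (2 * r i * 2) ^ 2 := by
      gcongr
      exact (norm_ev_le x m).trans lm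
    have a4 := mul_le_mul_of_nonneg_left a3 (sq_nonneg u)
    have a5 : ‖ev x (p + (u : ℂ) • m)‖ ≤ 1 + (|u| * mv i + 8 * (u * r i) ^ 2) := by
      refine (pow_le_pow_iff_left₀ (norm_nonneg _) (by positivity) two_ne_zero).mp ?_
      linarith only [e1, a1, a2, a4, sq_nonneg (|u| * mv i + 8 * (u * r i) ^ 2)]
    have a6 := (norm_ev_le x _).trans lR
    have a7 := norm_add_le (ev x (p + (u : ℂ) • m))
      (ev x (wt (Pi.single i u) p - (p + (u : ℂ) • m)))
    rw [← map_add, add_sub_cancel] at a7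
    linarith only [a5, a6, a7, sq_nonneg (u * r i)]
  exact norm_mul_le_of_symbol (by positivity) sy y

lemma l1_wt_le (i : Fin 3) {u : ℝ} (hu : |u| * r i ≤ 1 / 4) : l1 (wt (Pi.single i u) p) ≤ 4 := by
  have h1 := h.supp.l1_wt_le (Pi.single i u)
  have e : ∑ j, ((2 * r j : ℕ) : ℝ) * |(Pi.single i u : R3) j| = 2 * (|u| * r i) := by
    rw [Finset.sum_eq_single i]
    · simp; ring
    · simp +contextual
    · simp
  rw [e] at h1
  have h2 : Real.exp (2 * (|u| * r i)) ≤ 2 := by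
    calc Real.exp (2 * (|u| * r i)) ≤ Real.exp (1 / 2) := Real.exp_le_exp.mpr (by linarith)
      _ ≤ 1 / (1 - 1 / 2) := Real.exp_bound_div_one_sub_of_interval (by norm_num) (by norm_num)
      _ = 2 := by norm_num
  have h3 : Real.exp (2 * (|u| * r i)) * l1 p ≤ 2 * 2 :=
    mul_le_mul h2 h.l1_le (l1_nonneg p) (by norm_num)
  linarith only [h1, h3]

omit h in
/-- A kernel of scale `r` acts on the ground state of a much larger box almost as a scalar. -/
lemma _root_.Pool.Agent.Work.MP_6bf1e5_an.Hyp.norm_mul_ph_sub' {n : N3} {ρ : ℝ}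
    (hρ : (10 : ℝ) ^ 100 ≤ ρ)
    (hn : ∀ i, (n i : ℝ) + 1 = ρ * r i) {q : V} (hq : Sp (fun i => 2 * r i) q) :
    ‖q * ph n - ev 0 q • ph n‖ ≤ l1 q * (100 / ρ) := by
  have h0 : 0 < ρ := lt_of_lt_of_le (by positivity) hρ
  refine (Hyp.norm_mul_ph_sub (fun i => by have := four_mul_le hρ hn i; omega) hq).trans ?_
  refine mul_le_mul_of_nonneg_left ?_ (l1_nonneg q)
  have e : ∀ i, ((2 * r i : ℕ) : ℝ) * th (n i) = Real.pi / ρ := fun i => by
    push_cast
    rw [mul_assoc, r_mul_th hρ hn i]; ring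
  simp only [e, Fin.sum_univ_three]
  rw [← add_div, ← add_div, ← mul_div_assoc]
  gcongr
  linarith only [Real.pi_lt_d2]

lemma norm_mul_ph_sub {n : N3} {ρ : ℝ} (hρ : (10 : ℝ) ^ 100 ≤ ρ)
    (hn : ∀ i, (n i : ℝ) + 1 = ρ * r i) : ‖p * ph n - ph n‖ ≤ 200 / ρ := by
  have h0 : 0 < ρ := lt_of_lt_of_le (by positivity) hρ
  have h1 := norm_mul_ph_sub' hρ hn h.supp
  rw [h.one, one_smul] at h1
  refine h1.trans ((mul_le_mul_of_nonneg_right h.l1_le (by positivity)).trans (le_of_eq ?_))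
  ring

lemma norm_dag_mul_ph_sub {n : N3} {ρ : ℝ} (hρ : (10 : ℝ) ^ 100 ≤ ρ)
    (hn : ∀ i, (n i : ℝ) + 1 = ρ * r i) : ‖dag p * ph n - ph n‖ ≤ 200 / ρ := by
  have h0 : 0 < ρ := lt_of_lt_of_le (by positivity) hρ
  have h1 := norm_mul_ph_sub' hρ hn h.supp.dag
  rw [ev_dag, h.one, map_one, one_smul, l1_dag] at h1
  refine h1.trans ((mul_le_mul_of_nonneg_right h.l1_le (by positivity)).trans (le_of_eq ?_))
  ring

/-- The loss at the ground state is concentrated near the boundary of the box. -/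
theorem kink {n : N3} {ρ : ℝ} (hT : (10 : ℝ) ^ 100 ≤ T) (hρ : T ^ 17 ≤ ρ)
    (hn : ∀ i, (n i : ℝ) + 1 = ρ * r i) :
    ‖ph n - dag p * (p * ph n)‖ ≤ (T ^ 8 * ρ)⁻¹ := by
  have T0 : 0 < T := lt_of_lt_of_le (by positivity) hT
  have ρ0 : 0 < ρ := lt_of_lt_of_le (by positivity) hρ
  set q := dag p * p with hq
  have sq : Sp (fun i => 4 * r i) q := (h.supp.dag.mul h.supp).mono fun i => by
    simp only [Pi.add_apply]; omega
  have lq : l1 q ≤ 4 := by
    refine (l1_mul_le _ _).trans ?_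
    rw [l1_dag]
    have := mul_le_mul h.l1_le h.l1_le (l1_nonneg p) (by norm_num)
    linarith
  have oq : ∑ k ∈ bx (fun i => 4 * r i), q.coeff k = 1 := by
    rw [← ev_zero_eq sq.subset, hq, map_mul, ev_dag, h.one, map_one, one_mul]
  have e1 : q * ph n = ∑ k ∈ bx (fun i => 4 * r i), q.coeff k • (sh k * ph n) := by
    conv_lhs => rw [eq_mk sq.subset, Dec.mk, Finset.sum_mul]
    refine Finset.sum_congr rfl fun k _ => ?_
    rw [← smul_mul_assoc, sh, AddMonoidAlgebra.smul_single, smul_eq_mul, mul_one]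
  have e2 : ∑ k ∈ bx (fun i => 4 * r i), q.coeff k • (sh (-k) * ph n) =
      ∑ k ∈ bx (fun i => 4 * r i), q.coeff k • (sh k * ph n) := by
    refine Finset.sum_nbij' (fun k => -k) (fun k => -k) (fun k hk => neg_mem_bx.mpr hk)
      (fun k hk => neg_mem_bx.mpr hk) (fun k _ => neg_neg k) (fun k _ => neg_neg k) fun k _ => ?_
    rw [hq, h.real.even k]
  have e3 : ph n - dag p * (p * ph n) = ∑ k ∈ bx (fun i => 4 * r i),
      q.coeff k • (ph n - (2⁻¹ : ℂ) • (sh k * ph n + sh (-k) * ph n)) := by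
    simp only [smul_sub, Finset.sum_sub_distrib, smul_comm _ (2⁻¹ : ℂ), smul_add]
    rw [← Finset.sum_smul, oq, one_smul, Finset.sum_add_distrib, ← Finset.smul_sum,
      ← Finset.smul_sum, e2, ← e1, ← add_smul, ← mul_assoc, ← hq]
    norm_num
  rw [e3]
  refine (norm_sum_le _ _).trans ?_
  calc ∑ k ∈ bx (fun i => 4 * r i),
        ‖q.coeff k • (ph n - (2⁻¹ : ℂ) • (sh k * ph n + sh (-k) * ph n))‖
      ≤ ∑ k ∈ bx (fun i => 4 * r i), ‖q.coeff k‖ * ((T ^ 8 * ρ)⁻¹ / 4) :=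
        Finset.sum_le_sum fun k hk => by
          rw [norm_smul]
          gcongr
          exact norm_second_diff hn hT hρ hk
    _ = l1 q * ((T ^ 8 * ρ)⁻¹ / 4) := by rw [l1_eq sq.subset, Finset.sum_mul]
    _ ≤ 4 * ((T ^ 8 * ρ)⁻¹ / 4) := by gcongr
    _ = _ := by ring

end Drv

end

end Pool.Agent.Work.MP_6bf1e5_an.Hyp
end

-- merged part: Pool.Agent.Work.MP_6bf1e5_an.Hyp.PreC
section
/-!
Sine bases and symbols (the parts of `Dec.Gap2A` to `Dec.Gap2`, `Dec.Cone` used here).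
-/

section

open Set Complex
open scoped InnerProductSpace ComplexConjugate
open Pool.Agent.Work.MP_6bf1e5_an.B (Z3 R3 box)

namespace Pool.Agent.Work.MP_6bf1e5_an.Hyp.Dec

noncomputable section

/-- The kernel of the quadratic form. -/
def kq (p : V) : V := dag p * p

lemma ev_kq (p : V) (x : R3) : ev x (kq p) = ((‖ev x p‖ ^ 2 : ℝ) : ℂ) := by
  rw [kq, map_mul, ev_dag, Complex.conj_mul']; norm_cast

lemma exp_taylor {u : ℝ} (hu : |u| ≤ 1) :
    ‖Complex.exp (I * u) - (1 + I * u - u ^ 2 / 2)‖ ≤ |u| ^ 3 / 4 := by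
  have h := Complex.exp_bound (x := I * u) (by simpa using hu) (n := 3) (by norm_num)
  have e : ∑ m ∈ Finset.range 3, (I * u) ^ m / (m.factorial : ℂ) = 1 + I * u - u ^ 2 / 2 := by
    simp [Finset.sum_range_succ, Nat.factorial, mul_pow]; ring
  rw [e] at h
  refine h.trans ?_
  simp only [norm_mul, Complex.norm_I, Complex.norm_real, Real.norm_eq_abs, one_mul]
  have : (0 : ℝ) ≤ |u| ^ 3 := by positivity
  norm_num [Nat.factorial]
  linarith only [this]

end

end Pool.Agent.Work.MP_6bf1e5_an.Hyp.Dec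

end

section

open Set Complex
open scoped InnerProductSpace ComplexConjugate
open Pool.Agent.Work.MP_6bf1e5_an.B (Z3 R3 box)

namespace Pool.Agent.Work.MP_6bf1e5_an.Hyp.Dec

noncomputable section

/-- The one-dimensional overlap of the ground state with its shift. -/
def c1 (n : ℕ) (k : ℤ) : ℝ := (n + 1 : ℝ)⁻¹ * ∑ h ∈ Finset.Icc (-(n : ℤ)) n,
  Real.cos (th n * h) * if |h - k| ≤ n then Real.cos (th n * (h - k : ℤ)) else 0

lemma abs_cos_th_le (n : ℕ) (h : ℤ) : |Real.cos (th n * h)| ≤ th n * |(|(h : ℝ)| - (n + 1))| := by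
  have h1 : Real.cos (th n * h) = Real.cos (th n * |(h : ℝ)|) := by
    rw [← Real.cos_abs, abs_mul, abs_of_pos (th_pos n)]
  have h2 := Real.abs_cos_sub_cos_le (th n * |(h : ℝ)|) (Real.pi / 2)
  rw [Real.cos_pi_div_two, sub_zero, ← th_mul n, ← mul_sub, abs_mul, abs_of_pos (th_pos n)] at h2
  rw [h1]; exact h2

lemma sum_cos_sin (n : ℕ) (t : ℝ) :
    ∑ h ∈ Finset.Icc (-(n : ℤ)) n, Real.cos (t * h) * Real.sin (t * h) = 0 := by
  have : ∑ h ∈ Finset.Icc (-(n : ℤ)) n, Real.cos (t * h) * Real.sin (t * h) =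
      ∑ h ∈ Finset.Icc (-(n : ℤ)) n, -(Real.cos (t * h) * Real.sin (t * h)) := by
    refine Finset.sum_equiv (Equiv.neg ℤ) (fun h => by simp; omega) fun h _ => ?_
    simp
  rw [Finset.sum_neg_distrib] at this
  linarith

lemma sum_cos_cos (n : ℕ) (k : ℤ) : ∑ h ∈ Finset.Icc (-(n : ℤ)) n,
    Real.cos (th n * h) * Real.cos (th n * (h - k : ℤ)) = (n + 1) * Real.cos (th n * k) := by
  have : ∀ h : ℤ, Real.cos (th n * h) * Real.cos (th n * (h - k : ℤ)) =
      Real.cos (th n * h) ^ 2 * Real.cos (th n * k) +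
        Real.cos (th n * h) * Real.sin (th n * h) * Real.sin (th n * k) := fun h => by
    push_cast
    rw [mul_sub, Real.cos_sub]; ring
  simp only [this, Finset.sum_add_distrib, ← Finset.sum_mul, sum_cos_sq, sum_cos_sin]
  ring

lemma abs_c1_sub (n : ℕ) (k : ℤ) : |c1 n k - Real.cos (th n * k)| ≤ 2 * (th n * |(k : ℝ)|) ^ 3 := by
  classical
  have hn : (0 : ℝ) < n + 1 := by positivity
  have ht := th_pos n
  have e : c1 n k - Real.cos (th n * k) = -((n + 1 : ℝ)⁻¹ *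
      ∑ h ∈ (Finset.Icc (-(n : ℤ)) n).filter (fun h => ¬|h - k| ≤ n),
        Real.cos (th n * h) * Real.cos (th n * (h - k : ℤ))) := by
    have h1 := sum_cos_cos n k
    rw [← Finset.sum_filter_add_sum_filter_not _ (fun h => |h - k| ≤ n)] at h1
    have h2 : ∑ h ∈ Finset.Icc (-(n : ℤ)) n, Real.cos (th n * h) *
        (if |h - k| ≤ n then Real.cos (th n * (h - k : ℤ)) else 0) =
        ∑ h ∈ (Finset.Icc (-(n : ℤ)) n).filter (fun h => |h - k| ≤ n),
          Real.cos (th n * h) * Real.cos (th n * (h - k : ℤ)) := by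
      rw [Finset.sum_filter]
      exact Finset.sum_congr rfl fun h _ => by split_ifs <;> simp
    rw [c1, h2]
    field_simp
    linarith
  have hcard : (((Finset.Icc (-(n : ℤ)) n).filter (fun h => ¬|h - k| ≤ n)).card : ℝ) ≤
      2 * |(k : ℝ)| := by
    have h1 : (Finset.Icc (-(n : ℤ)) n).filter (fun h => ¬|h - k| ≤ n) ⊆
        Finset.Ico (-(n : ℤ)) (-n + |k|) ∪ Finset.Ioc (n - |k|) n := fun h hh => by
      simp only [Finset.mem_filter, Finset.mem_Icc, Finset.mem_union, Finset.mem_Ico,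
        Finset.mem_Ioc, not_le, lt_abs] at hh ⊢
      have := le_abs_self k
      have := neg_abs_le k
      omega
    have h2 := (Finset.card_le_card h1).trans (Finset.card_union_le _ _)
    rw [Int.card_Ico, Int.card_Ioc] at h2
    have h3 : ((((Finset.Icc (-(n : ℤ)) n).filter (fun h => ¬|h - k| ≤ n)).card : ℕ) : ℤ) ≤
        2 * |k| := by
      have := abs_nonneg k
      omega
    exact_mod_cast h3
  have hterm : ∀ h ∈ (Finset.Icc (-(n : ℤ)) n).filter (fun h => ¬|h - k| ≤ n),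
      |Real.cos (th n * h) * Real.cos (th n * (h - k : ℤ))| ≤ (th n * |(k : ℝ)|) ^ 2 := by
    intro h hh
    simp only [Finset.mem_filter, Finset.mem_Icc, not_le] at hh
    have a1 : |h| ≤ n := abs_le.mpr hh.1
    have a2 : |h - k| ≤ |h| + |k| := abs_sub _ _
    have b1 : |(|h| - (n + 1))| ≤ |k| := abs_le.mpr ⟨by omega, by have := abs_nonneg k; omega⟩
    have b2 : |(|h - k| - (n + 1))| ≤ |k| := abs_le.mpr ⟨by have := abs_nonneg k; omega, by omega⟩
    have c1 : |(|(h : ℝ)| - (n + 1))| ≤ |(k : ℝ)| := by exact_mod_cast b1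
    have c2 : |(|((h - k : ℤ) : ℝ)| - (n + 1))| ≤ |(k : ℝ)| := by exact_mod_cast b2
    rw [abs_mul, sq]
    exact mul_le_mul ((abs_cos_th_le n h).trans (by gcongr))
      ((abs_cos_th_le n _).trans (by gcongr)) (abs_nonneg _) (by positivity)
  have hinv : (n + 1 : ℝ)⁻¹ ≤ th n := by
    rw [inv_le_iff_one_le_mul₀ hn, th_mul]
    linarith only [Real.pi_gt_three]
  rw [e, abs_neg, abs_mul, abs_of_pos (inv_pos.mpr hn)]
  calc (n + 1 : ℝ)⁻¹ * |∑ h ∈ (Finset.Icc (-(n : ℤ)) n).filter (fun h => ¬|h - k| ≤ n),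
        Real.cos (th n * h) * Real.cos (th n * (h - k : ℤ))|
      ≤ th n * (2 * |(k : ℝ)| * (th n * |(k : ℝ)|) ^ 2) := by
        gcongr
        refine (Finset.abs_sum_le_sum_abs _ _).trans ((Finset.sum_le_sum hterm).trans ?_)
        rw [Finset.sum_const, nsmul_eq_mul]
        gcongr
    _ = _ := by ring

lemma abs_c1_taylor {n : ℕ} {k : ℤ} {d : ℝ} (hd : d ≤ 1) (hk : th n * |(k : ℝ)| ≤ d) :
    |1 - c1 n k - th n ^ 2 * ((k : ℝ) ^ 2 / 2)| ≤ 3 * d ^ 3 := by
  have ht := th_pos n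
  have h0 : 0 ≤ th n * |(k : ℝ)| := by positivity
  have e : |th n * k| = th n * |(k : ℝ)| := by rw [abs_mul, abs_of_pos ht]
  have h1 := abs_c1_sub n k
  have h2 := Real.cos_bound (x := th n * k) (by rw [e]; linarith)
  rw [e] at h2
  have h3 : (th n * |(k : ℝ)|) ^ 3 ≤ d ^ 3 := by gcongr
  have h4 : (th n * |(k : ℝ)|) ^ 4 ≤ d ^ 3 :=
    (pow_le_pow_of_le_one h0 (hk.trans hd) (by norm_num : 3 ≤ 4)).trans h3
  have h5 : 0 ≤ d ^ 3 := le_trans (by positivity) h3
  rw [abs_le] at h1 h2 ⊢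
  constructor <;> linarith only [h3, h4, h1.1, h1.2, h2.1, h2.2]

lemma prod_taylor {u w : Fin 3 → ℝ} {d : ℝ} (h0 : 0 ≤ d) (hd : d ≤ 1 / 6)
    (hw : ∀ i, 0 ≤ w i ∧ w i ≤ d ^ 2 / 2) (hu : ∀ i, |1 - u i - w i| ≤ 3 * d ^ 3) :
    |1 - ∏ i, u i - ∑ i, w i| ≤ 13 * d ^ 3 := by
  have h3 : 3 * d ^ 3 ≤ d ^ 2 / 2 := by nlinarith only [hd, sq_nonneg d]
  have hv : ∀ i, |1 - u i| ≤ d ^ 2 := fun i => by
    have := abs_le.mp (hu i)
    have := hw i
    rw [abs_le]; constructor <;> linarith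
  have hvv : ∀ i j, |(1 - u i) * (1 - u j)| ≤ d ^ 3 := fun i j => by
    rw [abs_mul]
    calc |1 - u i| * |1 - u j| ≤ d ^ 2 * d ^ 2 := by gcongr <;> exact hv _
      _ = d ^ 3 * d := by ring
      _ ≤ d ^ 3 * 1 := by gcongr; linarith only [hd]
      _ = _ := mul_one _
  have hvvv : |(1 - u 0) * (1 - u 1) * (1 - u 2)| ≤ d ^ 3 := by
    rw [abs_mul]
    calc |(1 - u 0) * (1 - u 1)| * |1 - u 2| ≤ d ^ 3 * d ^ 2 := by gcongr; exacts [hvv _ _, hv _]
      _ ≤ d ^ 3 * 1 := by gcongr; nlinarith only [h0, hd]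
      _ = _ := mul_one _
  have a0 := abs_le.mp (hu 0)
  have a1 := abs_le.mp (hu 1)
  have a2 := abs_le.mp (hu 2)
  have b0 := abs_le.mp (hvv 0 1)
  have b1 := abs_le.mp (hvv 0 2)
  have b2 := abs_le.mp (hvv 1 2)
  have b3 := abs_le.mp hvvv
  rw [Fin.prod_univ_three, Fin.sum_univ_three, abs_le]
  constructor <;> linarith only [a0, a1, a2, b0, b1, b2, b3]

lemma Qf_eq (p y : V) : Qf p y = ‖y‖ ^ 2 - (⟪y, kq p * y⟫_ℂ).re := by
  rw [Qf, @norm_sq_eq_re_inner ℂ _ _ _ _ (p * y), inner_mul_left, ← mul_assoc]; rfl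

lemma mul_eq_sum' {p : V} {s : Finset Z3} (hs : p.coeff.support ⊆ s) (f : V) :
    p * f = ∑ k ∈ s, p.coeff k • (AddMonoidAlgebra.single k 1 * f) := by
  rw [mul_eq_sum]
  exact Finset.sum_subset hs fun k _ hk => by simp [Finsupp.notMem_support_iff.mp hk]

end

end Pool.Agent.Work.MP_6bf1e5_an.Hyp.Dec

end

section

open Set Complex
open scoped InnerProductSpace ComplexConjugate
open Pool.Agent.Work.MP_6bf1e5_an.B (Z3 R3 box)

namespace Pool.Agent.Work.MP_6bf1e5_an.Hyp.Dec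

noncomputable section

/-- The normalisation of the comparison symbol. -/
def Wk (K : ℕ) : ℝ := ∑ k ∈ Finset.range (K + 1), (k : ℝ) ^ 2 / 2

/-- The one-dimensional comparison symbol. -/
def psi (K : ℕ) (u : ℝ) : ℝ := (∑ k ∈ Finset.range (K + 1), (1 - Real.cos (k * u))) / Wk K

lemma le_Wk (K : ℕ) : (K : ℝ) ^ 3 / 6 ≤ Wk K := by
  induction K with
  | zero => simp [Wk]
  | succ K ih =>
    rw [Wk, Finset.sum_range_succ, ← Wk]
    push_cast
    linarith [(Nat.cast_nonneg K : (0 : ℝ) ≤ K)]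

lemma Wk_le (K : ℕ) : Wk K ≤ (K : ℝ) ^ 3 / 2 := by
  induction K with
  | zero => simp [Wk]
  | succ K ih =>
    rw [Wk, Finset.sum_range_succ, ← Wk]
    push_cast
    nlinarith [(Nat.cast_nonneg K : (0 : ℝ) ≤ K)]

lemma Wk_pos {K : ℕ} (hK : 1 ≤ K) : 0 < Wk K :=
  lt_of_lt_of_le (by have : (0 : ℝ) < K := by exact_mod_cast hK
                     positivity) (le_Wk K)

lemma psi_nonneg {K : ℕ} (hK : 1 ≤ K) (u : ℝ) : 0 ≤ psi K u :=
  div_nonneg (Finset.sum_nonneg fun _ _ => sub_nonneg.mpr (Real.cos_le_one _)) (Wk_pos hK).le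

lemma psi_le_sq {K : ℕ} (hK : 1 ≤ K) (u : ℝ) : psi K u ≤ u ^ 2 := by
  rw [psi, div_le_iff₀ (Wk_pos hK), Wk, Finset.mul_sum]
  refine Finset.sum_le_sum fun k _ => ?_
  have := Real.one_sub_sq_div_two_le_cos (x := k * u)
  linarith only [this]

lemma psi_le {K : ℕ} (hK : 1 ≤ K) (u : ℝ) : psi K u * K ^ 2 ≤ 24 := by
  have h0 : (1 : ℝ) ≤ K := by exact_mod_cast hK
  rw [psi, div_mul_eq_mul_div, div_le_iff₀ (Wk_pos hK)]
  have h1 : ∑ k ∈ Finset.range (K + 1), (1 - Real.cos (k * u)) ≤ 4 * K := by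
    calc ∑ k ∈ Finset.range (K + 1), (1 - Real.cos (k * u))
        ≤ ∑ k ∈ Finset.range (K + 1), (2 : ℝ) :=
          Finset.sum_le_sum fun k _ => by linarith only [Real.neg_one_le_cos (k * u)]
      _ ≤ _ := by simp; linarith only [h0]
  calc _ ≤ 4 * (K : ℝ) * K ^ 2 := by gcongr
    _ = 24 * ((K : ℝ) ^ 3 / 6) := by ring
    _ ≤ _ := by gcongr; exact le_Wk K

lemma le_psi_small {K : ℕ} (hK : 1 ≤ K) {u : ℝ} (h0 : 0 ≤ u) (hu : K * u ≤ 1) :
    u ^ 2 * (1 - 5 / 48 * (K * u) ^ 2) ≤ psi K u := by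
  rw [psi, le_div_iff₀ (Wk_pos hK), Wk, Finset.mul_sum]
  refine Finset.sum_le_sum fun k hk => ?_
  have hk' : (k : ℝ) ≤ K := by exact_mod_cast Nat.lt_succ_iff.mp (Finset.mem_range.mp hk)
  have h1 : 0 ≤ k * u := by positivity
  have h2 : k * u ≤ K * u := by gcongr
  have h3 := Real.cos_bound (x := k * u) (by rw [abs_of_nonneg h1]; linarith only [hu, h2])
  rw [abs_of_nonneg h1] at h3
  have h4 : (k * u) ^ 2 ≤ (K * u) ^ 2 := by gcongr
  have h5 : (k * u) ^ 4 ≤ (k * u) ^ 2 * (K * u) ^ 2 := by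
    rw [show (k * u) ^ 4 = (k * u) ^ 2 * (k * u) ^ 2 by ring]; gcongr
  linarith only [h5, (abs_le.mp h3).2]

lemma one_sub_cos_sub (a b : ℝ) :
    (1 - Real.cos (a - b)) / 2 ≤ (1 - Real.cos a) + (1 - Real.cos b) := by
  rw [Real.cos_sub]
  linarith [Real.sin_sq_add_cos_sq a, Real.sin_sq_add_cos_sq b,
    sq_nonneg (Real.sin a + Real.sin b), sq_nonneg (Real.cos a + Real.cos b - 2)]

lemma le_psi_large {K : ℕ} (hK : 2 ≤ K) {u : ℝ} (h0 : 1 ≤ K * u) (hu : u ≤ Real.pi) :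
    1 / 320 ≤ psi K u * K ^ 2 := by
  have hK' : (2 : ℝ) ≤ K := by exact_mod_cast hK
  have hu0 : 0 < u := by
    by_contra h
    nlinarith only [h0, not_lt.mp h]
  obtain ⟨j, hj1, hj2, hj3⟩ : ∃ j : ℕ, 2 * (j : ℝ) ≤ K ∧ 1 / 4 ≤ j * u ∧ j * u ≤ Real.pi := by
    by_cases h : 1 / 4 ≤ u
    · exact ⟨1, by simpa using hK', by simpa using h, by simpa using hu⟩
    · have h1 := Nat.floor_le (a := 1 / (2 * u)) (by positivity)
      have h2 := Nat.lt_floor_add_one (1 / (2 * u))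
      rw [le_div_iff₀ (by positivity)] at h1
      rw [div_lt_iff₀ (by positivity)] at h2
      refine ⟨⌊1 / (2 * u)⌋₊, ?_, by linarith only [h, h2], by linarith only [h1, Real.pi_gt_three]⟩
      refine le_of_mul_le_mul_right ?_ hu0
      linarith only [h0, h1]
  have hc : 1 / 80 ≤ 1 - Real.cos (j * u) := by
    have h1 := Real.cos_le_one_sub_mul_cos_sq (x := j * u) (by
      rw [abs_of_nonneg (by linarith only [hj2])]; exact hj3)
    have h2 : 1 / 5 ≤ 2 / Real.pi ^ 2 := by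
      rw [le_div_iff₀ (by positivity)]
      nlinarith only [Real.pi_lt_d2, Real.pi_pos]
    have h3 : 1 / 16 ≤ (j * u) ^ 2 := by nlinarith only [hj2]
    linarith only [h1, mul_le_mul h2 h3 (by norm_num) (by positivity)]
  have hjK : j ≤ K := by
    have : (j : ℝ) ≤ K := by linarith only [hj1, (Nat.cast_nonneg j : (0 : ℝ) ≤ j)]
    exact_mod_cast this
  have hg : ∀ k : ℕ, 0 ≤ 1 - Real.cos (k * u) := fun k => sub_nonneg.mpr (Real.cos_le_one _)
  have s1 : ∑ k ∈ Finset.range (K + 1 - j), (1 - Real.cos (k * u)) ≤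
      ∑ k ∈ Finset.range (K + 1), (1 - Real.cos (k * u)) :=
    Finset.sum_le_sum_of_subset_of_nonneg (Finset.range_mono (by omega)) fun k _ _ => hg k
  have s2 : ∑ k ∈ Finset.range (K + 1 - j), (1 - Real.cos ((j + k : ℕ) * u)) ≤
      ∑ k ∈ Finset.range (K + 1), (1 - Real.cos (k * u)) := by
    conv_rhs => rw [show K + 1 = j + (K + 1 - j) by omega, Finset.sum_range_add]
    exact le_add_of_nonneg_left (Finset.sum_nonneg fun k _ => hg k)
  have s3 : ∑ k ∈ Finset.range (K + 1 - j), (1 / 160 : ℝ) ≤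
      ∑ k ∈ Finset.range (K + 1 - j), (1 - Real.cos ((j + k : ℕ) * u)) +
        ∑ k ∈ Finset.range (K + 1 - j), (1 - Real.cos (k * u)) := by
    rw [← Finset.sum_add_distrib]
    refine Finset.sum_le_sum fun k _ => ?_
    have := one_sub_cos_sub ((j + k : ℕ) * u) (k * u)
    rw [show ((j + k : ℕ) : ℝ) * u - k * u = j * u by push_cast; ring] at this
    linarith only [hc, this]
  rw [Finset.sum_const, Finset.card_range, nsmul_eq_mul, Nat.cast_sub (by omega)] at s3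
  push_cast at s3 s2
  have s4 : (K : ℝ) / 640 ≤ ∑ k ∈ Finset.range (K + 1), (1 - Real.cos (k * u)) := by linarith only [hj1, s1, s3, s2]
  rw [psi, div_mul_eq_mul_div, le_div_iff₀ (Wk_pos (by omega))]
  calc 1 / 320 * Wk K ≤ 1 / 320 * ((K : ℝ) ^ 3 / 2) := by gcongr; exact Wk_le K
    _ = K / 640 * K ^ 2 := by ring
    _ ≤ _ := by gcongr

/-- The shift by `k` along the `i`-th axis. -/
def sh (i : Fin 3) (k : ℤ) : V := AddMonoidAlgebra.single (Pi.single i k) 1

lemma norm_ev_sh_sub (x : R3) (i : Fin 3) (k : ℤ) :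
    ‖ev x (sh i k - 1)‖ ^ 2 = 2 * (1 - Real.cos (k * x i)) := by
  have : pr (Pi.single i k) x = k * x i := by
    rw [pr, Finset.sum_eq_single i (fun j _ hj => by simp [hj]) (by simp)]
    simp
  rw [map_sub, map_one, sh, ev_single, one_mul, this, mul_comm I, Complex.sq_norm,
    Complex.normSq_apply]
  simp only [Complex.sub_re, Complex.sub_im, Complex.exp_ofReal_mul_I_re,
    Complex.exp_ofReal_mul_I_im, Complex.one_re, Complex.one_im]
  linarith [Real.sin_sq_add_cos_sq (k * x i)]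

end

end Pool.Agent.Work.MP_6bf1e5_an.Hyp.Dec

end

section

open Set Complex
open scoped InnerProductSpace ComplexConjugate
open Pool.Agent.Work.MP_6bf1e5_an.B (Z3 R3 box)

namespace Pool.Agent.Work.MP_6bf1e5_an.Hyp.Dec

noncomputable section

/-- The one-dimensional sine vectors. -/
def s1 (n l : ℕ) (h : ℤ) : ℝ := Real.sin (th n * (l + 1) * (h + n + 1))

lemma sum_cos_tel (t : ℝ) (M : ℕ) : 2 * Real.sin (t / 2) *
    ∑ l ∈ Finset.range M, Real.cos ((l + 1) * t) = Real.sin (M * t + t / 2) - Real.sin (t / 2) := by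
  induction M with
  | zero => simp
  | succ M ih =>
    rw [Finset.sum_range_succ, mul_add, ih]
    push_cast
    rw [show (M : ℝ) * t + t / 2 = (M + 1) * t - t / 2 by ring, Real.sin_add, Real.sin_sub]
    ring

lemma sum_cos_th {n : ℕ} {d : ℤ} (h0 : d ≠ 0) (h1 : |d| < 4 * n + 4) :
    ∑ l ∈ Finset.range (2 * n + 1), Real.cos ((l + 1) * (th n * d)) =
      -(1 + Real.cos (d * Real.pi)) / 2 := by
  have ht := th_pos n
  have hm := th_mul n
  have hs : Real.sin (th n * d / 2) ≠ 0 := by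
    have h2 : |(d : ℝ)| < 4 * n + 4 := by exact_mod_cast h1
    have h3 := abs_lt.mp h2
    intro h
    rw [Real.sin_eq_zero_iff_of_lt_of_lt (by nlinarith only [ht, hm, h3]) (by nlinarith only [ht, hm, h3])] at h
    have : (d : ℝ) ≠ 0 := by exact_mod_cast h0
    exact absurd h (by positivity)
  have h := sum_cos_tel (th n * d) (2 * n + 1)
  rw [show ((2 * n + 1 : ℕ) : ℝ) * (th n * d) + th n * d / 2 = d * Real.pi - th n * d / 2 by
    push_cast; linear_combination (2 * d) * hm, Real.sin_sub, Real.sin_int_mul_pi] at h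
  refine mul_left_cancel₀ hs ?_
  linear_combination h / 2

lemma sum_s1 {n : ℕ} {h h' : ℤ} (a : |h| ≤ n) (b : |h'| ≤ n) :
    ∑ l ∈ Finset.range (2 * n + 1), s1 n l h * s1 n l h' = if h = h' then (n + 1 : ℝ) else 0 := by
  have e : ∀ l : ℕ, s1 n l h * s1 n l h' = (Real.cos ((l + 1) * (th n * (h - h' : ℤ))) -
      Real.cos ((l + 1) * (th n * (h + h' + 2 * n + 2 : ℤ)))) / 2 := fun l => by
    rw [show ((l : ℝ) + 1) * (th n * (h - h' : ℤ)) =
        th n * (l + 1) * (h + n + 1) - th n * (l + 1) * (h' + n + 1) by push_cast; ring,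
      show ((l : ℝ) + 1) * (th n * (h + h' + 2 * n + 2 : ℤ)) =
        th n * (l + 1) * (h + n + 1) + th n * (l + 1) * (h' + n + 1) by push_cast; ring,
      Real.cos_sub, Real.cos_add, s1, s1]
    ring
  have a' := abs_le.mp a
  have b' := abs_le.mp b
  have c : Real.cos ((h + h' + 2 * n + 2 : ℤ) * Real.pi) = Real.cos ((h - h' : ℤ) * Real.pi) := by
    rw [← Real.cos_add_int_mul_two_pi ((h - h' : ℤ) * Real.pi) (h' + n + 1)]
    congr 1
    push_cast; ring
  simp only [e]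
  rw [← Finset.sum_div, Finset.sum_sub_distrib,
    sum_cos_th (d := h + h' + 2 * n + 2) (by omega) (abs_lt.mpr ⟨by omega, by omega⟩), c]
  split_ifs with hh
  · subst hh
    simp
    ring
  · rw [sum_cos_th (d := h - h') (by omega) (abs_lt.mpr ⟨by omega, by omega⟩)]
    ring

lemma dag_sh (i : Fin 3) (k : ℤ) : dag (sh i k) = sh i (-k) := by
  rw [sh, dag_single, sh, Pi.single_neg, map_one]

lemma s1_add (n l : ℕ) (h k : ℤ) :
    s1 n l (h + k) + s1 n l (h - k) = 2 * Real.cos (k * (th n * (l + 1))) * s1 n l h := by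
  simp only [s1]
  push_cast
  rw [show th n * (l + 1) * (h + k + n + 1) = th n * (l + 1) * (h + n + 1) + k * (th n * (l + 1)) by
      ring, show th n * (l + 1) * (h - k + n + 1) =
      th n * (l + 1) * (h + n + 1) - k * (th n * (l + 1)) by ring, Real.sin_add, Real.sin_sub]
  ring

end

end Pool.Agent.Work.MP_6bf1e5_an.Hyp.Dec

end

section

open Set Complex
open scoped InnerProductSpace ComplexConjugate
open Pool.Agent.Work.MP_6bf1e5_an.B (Z3 R3 box)

namespace Pool.Agent.Work.MP_6bf1e5_an.Hyp.Dec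

lemma th_add_le (n K : ℕ) : th (n + K) ≤ th n := by
  rw [th, th]
  gcongr
  exact Nat.le_add_right n K

lemma th_sub_le {n K : ℕ} {δ : ℝ} (hK : (K : ℝ) ≤ 2 * δ * (n + 1)) :
    th n - th (n + K) ≤ 2 * δ * th n := by
  have h1 := th_mul n
  have h2 := th_mul (n + K)
  push_cast at h2
  have h3 := th_add_le n K
  have h4 := th_pos (n + K)
  refine le_of_mul_le_mul_right ?_ (by positivity : (0 : ℝ) < n + 1)
  calc (th n - th (n + K)) * (n + 1) = th (n + K) * K := by linarith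
    _ ≤ th n * (2 * δ * (n + 1)) := by gcongr; exact (th_pos n).le
    _ = _ := by ring

lemma abs_prod_sub_le {a b : Fin 3 → ℝ} {c : ℝ} (ha : ∀ i, |a i| ≤ 1) (hb : ∀ i, |b i| ≤ 1)
    (h : ∀ i, |a i - b i| ≤ c) : |∏ i, a i - ∏ i, b i| ≤ 3 * c := by
  have hc : 0 ≤ c := (abs_nonneg _).trans (h 0)
  rw [Fin.prod_univ_three, Fin.prod_univ_three, show a 0 * a 1 * a 2 - b 0 * b 1 * b 2 =
    (a 0 - b 0) * a 1 * a 2 + b 0 * (a 1 - b 1) * a 2 + b 0 * b 1 * (a 2 - b 2) by ring]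
  refine (abs_add_three _ _ _).trans ?_
  simp only [abs_mul]
  have t1 : |a 0 - b 0| * |a 1| * |a 2| ≤ c * 1 * 1 := by gcongr <;> apply_assumption
  have t2 : |b 0| * |a 1 - b 1| * |a 2| ≤ 1 * c * 1 := by gcongr <;> apply_assumption
  have t3 : |b 0| * |b 1| * |a 2 - b 2| ≤ 1 * 1 * c := by gcongr <;> apply_assumption
  linarith

lemma le_psi_high {n K l : ℕ} (hK : 2 ≤ K) (h1 : K * th n ≤ 1 / 100) (hl : 1 ≤ l)
    (hl' : l < 2 * n + 1) : 7 / 2 * th n ^ 2 ≤ psi K (th n * (l + 1)) := by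
  have ht := th_pos n
  have hK0 : (0 : ℝ) < K := by exact_mod_cast (by omega : 0 < K)
  have a1 : (1 : ℝ) ≤ l := by exact_mod_cast hl
  have a2 : (l : ℝ) ≤ 2 * n + 1 := by exact_mod_cast hl'.le
  by_cases hc : K * (th n * (l + 1)) ≤ 1
  · refine le_trans ?_ (le_psi_small (by omega) (by positivity) hc)
    have b1 : (K * (th n * (l + 1))) ^ 2 ≤ 1 := pow_le_one₀ (by positivity) hc
    have b2 : (th n * 2) ^ 2 ≤ (th n * (l + 1)) ^ 2 := by gcongr; linarith only [a1]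
    calc 7 / 2 * th n ^ 2 ≤ (th n * 2) ^ 2 * (43 / 48) := by linarith only [sq_nonneg (th n)]
      _ ≤ _ := by gcongr; linarith only [b1]
  · have b1 := le_psi_large hK (not_le.mp hc).le (by nlinarith only [ht, a2, th_mul n])
    have b2 : (K * th n) ^ 2 ≤ (1 / 100) ^ 2 := by gcongr
    refine le_of_mul_le_mul_right ?_ (by positivity : (0 : ℝ) < K ^ 2)
    linarith only [b1, b2]

end Pool.Agent.Work.MP_6bf1e5_an.Hyp.Dec

end

section

open Set Complex
open scoped InnerProductSpace ComplexConjugate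
open Pool.Agent.Work.MP_6bf1e5_an.B (Z3 R3 box)

namespace Pool.Agent.Work.MP_6bf1e5_an.Hyp.Dec

noncomputable section

namespace Cn

lemma re_smul_right (c : ℝ) (u v : V) : (⟪u, (c : ℂ) • v⟫_ℂ).re = c * (⟪u, v⟫_ℂ).re := by
  rw [inner_smul_right, re_ofReal_mul]

lemma re_comm (u v : V) : (⟪u, v⟫_ℂ).re = (⟪v, u⟫_ℂ).re := by
  rw [← inner_conj_symm, conj_re]

lemma abs_re_le (u v : V) : |(⟪u, v⟫_ℂ).re| ≤ ‖u‖ * ‖v‖ :=
  (abs_re_le_norm _).trans (norm_inner_le_norm _ _)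

lemma normsq_sub (u v : V) (c : ℝ) :
    ‖v - (c : ℂ) • u‖ ^ 2 = ‖v‖ ^ 2 - 2 * c * (⟪u, v⟫_ℂ).re + c ^ 2 * ‖u‖ ^ 2 := by
  rw [@norm_sub_sq ℂ, norm_smul, mul_pow, Complex.norm_real, Real.norm_eq_abs, sq_abs,
    RCLike.re_to_complex, re_smul_right, re_comm]
  ring

lemma sqle {a b : ℝ} (h : a ^ 2 ≤ b ^ 2) (hb : 0 ≤ b) : a ≤ b := (abs_le_of_sq_le_sq' h hb).2

lemma add_sq_le' (a b : ℝ) : (a + b) ^ 2 ≤ 2 * a ^ 2 + 2 * b ^ 2 := by
  linarith [sq_nonneg (a - b)]

end Cn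

open Cn

end

end Pool.Agent.Work.MP_6bf1e5_an.Hyp.Dec

end
end

-- merged part: Pool.Agent.Work.MP_6bf1e5_an.Hyp.GapA
section
/-!
Second moments of the kernel `dag p * p`, the Taylor expansion of its symbol, and the symbol
inequality.
-/

open Set Complex
open scoped InnerProductSpace ComplexConjugate
open Pool.Agent.Work.MP_6bf1e5_an.B (Z3 R3)
open Pool.Agent.Work.MP_6bf1e5_an.Hyp.Dec

namespace Pool.Agent.Work.MP_6bf1e5_an.Hyp.Gp

noncomputable section

/-- The radii of the support of the kernel. -/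
def r4 (r : N3) : N3 := fun i => 4 * r i

/-- The second moments. -/
def Hm (r : N3) (p : V) (i : Fin 3) : ℝ :=
  ∑ k ∈ bx (r4 r), ((kq p).coeff k).re * ((k i : ℝ) ^ 2 / 2)

lemma abs_le_r4 {r : N3} {k : Z3} (hk : k ∈ bx (r4 r)) (i : Fin 3) : |(k i : ℝ)| ≤ 4 * r i := by
  have := mem_bx.mp hk i
  rw [r4] at this
  exact_mod_cast this

lemma sq_sum_le (r : N3) (x : R3) : (∑ i, r i * |x i|) ^ 2 ≤ 3 * sqr r x := by
  simp only [sqr, Fin.sum_univ_three, mul_pow]
  rw [← sq_abs (x 0), ← sq_abs (x 1), ← sq_abs (x 2)]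
  linarith [sq_nonneg (r 0 * |x 0| - r 1 * |x 1|), sq_nonneg (r 0 * |x 0| - r 2 * |x 2|),
    sq_nonneg (r 1 * |x 1| - r 2 * |x 2|)]

lemma re_sum_mom (r : N3) (p : V) (w : Fin 3 → ℝ) :
    (∑ k ∈ bx (r4 r), (kq p).coeff k * ((∑ i, w i * ((k i : ℝ) ^ 2 / 2) : ℝ) : ℂ)).re =
      ∑ i, Hm r p i * w i := by
  simp only [Hm, Finset.sum_mul]
  rw [Finset.sum_comm, Complex.re_sum]
  refine Finset.sum_congr rfl fun k _ => ?_
  rw [Complex.re_mul_ofReal, Finset.mul_sum]
  exact Finset.sum_congr rfl fun i _ => by ring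

variable {T κ : ℝ} {r : N3} {mv : Fin 3 → ℝ} {p : V} (hp : Drv T r mv κ p)

include hp

lemma kq_supp : Sp (r4 r) (kq p) :=
  (hp.supp.dag.mul hp.supp).mono fun i => by simp only [r4, Pi.add_apply]; omega

lemma kq_l1 : l1 (kq p) ≤ 4 := by
  refine (l1_mul_le _ _).trans ?_
  rw [l1_dag]
  nlinarith [hp.l1_le, l1_nonneg p]

lemma kq_sum : ∑ k ∈ bx (r4 r), (kq p).coeff k = 1 := by
  rw [← ev_zero_eq (kq_supp hp).subset, ev_kq, hp.one]; simp

lemma kq_rl : Rl (kq p) := hp.real.dag.mul hp.real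

lemma abs_re_sum_le {g : Z3 → ℂ} {c : ℝ} (hc : 0 ≤ c) (hg : ∀ k ∈ bx (r4 r), ‖g k‖ ≤ c) :
    |(∑ k ∈ bx (r4 r), (kq p).coeff k * g k).re| ≤ 4 * c := by
  refine (Complex.abs_re_le_norm _).trans ((norm_sum_le _ _).trans ?_)
  calc ∑ k ∈ bx (r4 r), ‖(kq p).coeff k * g k‖
      ≤ ∑ k ∈ bx (r4 r), ‖(kq p).coeff k‖ * c := Finset.sum_le_sum fun k hk => by
        rw [norm_mul]; gcongr; exact hg k hk
    _ = l1 (kq p) * c := by rw [← Finset.sum_mul, l1_eq (kq_supp hp).subset]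
    _ ≤ 4 * c := by gcongr; exact kq_l1 hp

lemma Hm_le (i : Fin 3) : Hm r p i ≤ 32 * (r i : ℝ) ^ 2 := by
  have h1 := abs_re_sum_le hp (g := fun k => (((k i : ℝ) ^ 2 / 2 : ℝ) : ℂ))
    (c := 8 * (r i : ℝ) ^ 2) (by positivity) fun k hk => by
      rw [Complex.norm_real, Real.norm_of_nonneg (by positivity)]
      have h3 : (k i : ℝ) ^ 2 ≤ (4 * r i) ^ 2 := by
        rw [← sq_abs]; gcongr; exact abs_le_r4 hk i
      linarith
  have h2 : (∑ k ∈ bx (r4 r), (kq p).coeff k * (((k i : ℝ) ^ 2 / 2 : ℝ) : ℂ)).re = Hm r p i := by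
    rw [Complex.re_sum, Hm]
    exact Finset.sum_congr rfl fun k _ => Complex.re_mul_ofReal _ _
  rw [h2] at h1
  linarith only [h1, le_abs_self (Hm r p i)]

lemma mix_le {i j : Fin 3} (hij : i ≠ j) (x : R3) :
    |(∑ k ∈ bx (r4 r), (kq p).coeff k * ((k i : ℂ) * k j)).re * (x i * x j)| ≤
      κ * (|r i * x i| * |r j * x j|) := by
  have h1 := hp.mix i j hij
  rw [show dag p * p = kq p from rfl, ev_zero_eq ((kq_supp hp).mulr _).subset] at h1
  have h2 : ∑ k ∈ bx (r4 r), (mulr (fun k => (k i : ℝ) * k j) (kq p)).coeff k =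
      ∑ k ∈ bx (r4 r), (kq p).coeff k * ((k i : ℂ) * k j) :=
    Finset.sum_congr rfl fun k _ => by rw [coeff_mulr]; push_cast; ring
  rw [h2] at h1
  rw [abs_mul, abs_mul, abs_mul, abs_mul, Nat.abs_cast, Nat.abs_cast]
  calc _ ≤ κ * (r i * r j) * (|x i| * |x j|) := by
        gcongr; exact (Complex.abs_re_le_norm _).trans h1
    _ = _ := by ring

lemma kap_nonneg (hr : ∀ i, 1 ≤ r i) : 0 ≤ κ := by
  have h1 := (norm_nonneg _).trans (hp.mix 0 1 (by decide))
  have h2 : (0 : ℝ) < r 0 := by exact_mod_cast hr 0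
  have h3 : (0 : ℝ) < r 1 := by exact_mod_cast hr 1
  exact nonneg_of_mul_nonneg_left h1 (by positivity)

/-- Taylor expansion of the symbol. -/
theorem taylor (hκ : 0 ≤ κ) {x : R3} (hx : 4 * ∑ i, r i * |x i| ≤ 1) :
    |1 - ‖ev x p‖ ^ 2 - ∑ i, Hm r p i * x i ^ 2| ≤
      κ * sqr r x + 64 * (∑ i, r i * |x i|) ^ 3 := by
  have hs : 0 ≤ ∑ i, r i * |x i| := Finset.sum_nonneg fun _ _ => by positivity
  have hu : ∀ k ∈ bx (r4 r), |pr k x| ≤ 4 * ∑ i, r i * |x i| := fun k hk => by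
    refine (abs_pr_le3 hk x).trans (le_of_eq ?_)
    rw [Finset.mul_sum]
    exact Finset.sum_congr rfl fun i _ => by simp only [r4]; push_cast; ring
  have h1 := abs_re_sum_le hp
    (g := fun k => Complex.exp (I * pr k x) - (1 + I * pr k x - (pr k x : ℂ) ^ 2 / 2))
    (c := 16 * (∑ i, r i * |x i|) ^ 3) (by positivity) fun k hk => by
      refine (exp_taylor ((hu k hk).trans hx)).trans ?_
      calc |pr k x| ^ 3 / 4 ≤ (4 * ∑ i, r i * |x i|) ^ 3 / 4 := by
            gcongr; exact hu k hk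
        _ = _ := by ring
  have z1 : (∑ k ∈ bx (r4 r), (kq p).coeff k * (I * pr k x)).re = 0 := by
    rw [Complex.re_sum]
    exact Finset.sum_eq_zero fun k _ => by simp [kq_rl hp k]
  have key : ∑ k ∈ bx (r4 r), (kq p).coeff k *
      (Complex.exp (I * pr k x) - (1 + I * pr k x - (pr k x : ℂ) ^ 2 / 2)) =
      ev x (kq p) - ∑ k ∈ bx (r4 r), (kq p).coeff k + ∑ k ∈ bx (r4 r), (kq p).coeff k *
        ((∑ i, x i ^ 2 * ((k i : ℝ) ^ 2 / 2) : ℝ) : ℂ) -
        ∑ k ∈ bx (r4 r), (kq p).coeff k * (I * pr k x) +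
        (∑ k ∈ bx (r4 r), (kq p).coeff k * ((k 0 : ℂ) * k 1)) * ((x 0 * x 1 : ℝ) : ℂ) +
        (∑ k ∈ bx (r4 r), (kq p).coeff k * ((k 0 : ℂ) * k 2)) * ((x 0 * x 2 : ℝ) : ℂ) +
        (∑ k ∈ bx (r4 r), (kq p).coeff k * ((k 1 : ℂ) * k 2)) * ((x 1 * x 2 : ℝ) : ℂ) := by
    rw [ev_eq x (kq_supp hp).subset]
    simp only [Finset.sum_mul, ← Finset.sum_sub_distrib, ← Finset.sum_add_distrib]
    refine Finset.sum_congr rfl fun k _ => ?_
    simp only [pr, Fin.sum_univ_three]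
    push_cast
    ring
  rw [key, kq_sum hp] at h1
  simp only [Complex.add_re, Complex.sub_re, re_sum_mom, ev_kq, z1, Complex.re_mul_ofReal,
    Complex.ofReal_re, Complex.one_re] at h1
  have m1 := abs_le.mp (mix_le hp (i := 0) (j := 1) (by decide) x)
  have m2 := abs_le.mp (mix_le hp (i := 0) (j := 2) (by decide) x)
  have m3 := abs_le.mp (mix_le hp (i := 1) (j := 2) (by decide) x)
  have m4 : |r 0 * x 0| * |r 1 * x 1| + |r 0 * x 0| * |r 2 * x 2| + |r 1 * x 1| * |r 2 * x 2| ≤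
      sqr r x := by
    simp only [sqr, Fin.sum_univ_three]
    rw [← sq_abs (r 0 * x 0), ← sq_abs (r 1 * x 1), ← sq_abs (r 2 * x 2)]
    linarith only [sq_nonneg (|r 0 * x 0| - |r 1 * x 1|), sq_nonneg (|r 0 * x 0| - |r 2 * x 2|),
      sq_nonneg (|r 1 * x 1| - |r 2 * x 2|)]
  have m5 := mul_le_mul_of_nonneg_left m4 hκ
  have h2 := abs_le.mp h1
  rw [abs_le]
  constructor <;> linarith only [m5, h2.1, h2.2, m1.1, m1.2, m2.1, m2.2, m3.1, m3.2]

lemma le_Hm (hr : ∀ i, 1 ≤ r i) (hT : (10 : ℝ) ^ 100 ≤ T) (hκ : κ ≤ 1 / 10 ^ 20) (i : Fin 3) :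
    9 / 10 ^ 11 * (r i : ℝ) ^ 2 ≤ Hm r p i := by
  have ha : (1 : ℝ) ≤ r i := by exact_mod_cast hr i
  obtain ⟨τ, hτ⟩ : ∃ τ : ℝ, τ = (T ^ 8)⁻¹ := ⟨_, rfl⟩
  have T1 : (1 : ℝ) ≤ T := le_trans (by norm_num) hT
  have τ0 : 0 < τ := by rw [hτ]; positivity
  have τ1 : τ ≤ 1 / 10 ^ 20 := by
    rw [hτ, inv_eq_one_div]
    gcongr
    exact le_trans (by norm_num) (hT.trans (le_self_pow₀ T1 (by norm_num)))
  have τ2 : (T ^ 16)⁻¹ = τ ^ 2 := by rw [hτ, inv_pow, ← pow_mul]
  obtain ⟨t, ht⟩ : ∃ t : ℝ, t = τ / r i := ⟨_, rfl⟩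
  have ht0 : 0 < t := by rw [ht]; positivity
  have hat : r i * t = τ := by rw [ht]; field_simp
  have ht1 : t ≤ 1 := by nlinarith only [ha, τ1, hat]
  have hs : ∑ j, r j * |(Pi.single i t : R3) j| = τ := by
    rw [Finset.sum_eq_single i (fun j _ hj => by simp [hj]) (by simp)]
    simp [abs_of_pos ht0, hat]
  have hq : sqr r (Pi.single i t) = τ ^ 2 := by
    rw [sqr, Finset.sum_eq_single i (fun j _ hj => by simp [hj]) (by simp)]
    simp [hat]
  have hH : ∑ j, Hm r p j * (Pi.single i t : R3) j ^ 2 = Hm r p i * t ^ 2 := by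
    rw [Finset.sum_eq_single i (fun j _ hj => by simp [hj]) (by simp)]
    simp
  have hc : (Pi.single i t : R3) ∈ cube := by
    constructor <;> intro j <;> by_cases hj : j = i <;> simp [hj] <;>
      linarith only [ht0, ht1, Real.pi_gt_three]
  have h1 := taylor hp (kap_nonneg hp hr) (x := Pi.single i t) (by rw [hs]; linarith only [τ1])
  have h2 := hp.far _ hc
  rw [hq, τ2, min_self] at h2
  rw [hs, hq, hH] at h1
  have h3 : 9 / 10 ^ 11 * (r i * t) ^ 2 ≤ Hm r p i * t ^ 2 := by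
    rw [hat]
    have a1 := (abs_le.mp h1).2
    have a2 : κ * τ ^ 2 ≤ 1 / 10 ^ 20 * τ ^ 2 := by gcongr
    have a3 : τ ^ 3 ≤ 1 / 10 ^ 20 * τ ^ 2 := by rw [pow_succ']; gcongr
    linarith only [h2, a1, a2, a3, sq_nonneg τ]
  rw [mul_pow, ← mul_assoc] at h3
  exact le_of_mul_le_mul_right h3 (by positivity)

/-- The symbol inequality. -/
theorem symbol (hr : ∀ i, 1 ≤ r i) (hT : (10 : ℝ) ^ 100 ≤ T) {e : ℝ} (he : e ≤ 1 / 10 ^ 30)
    (hκ : κ ≤ 10 ^ 5 * e) (hTe : (T ^ 8)⁻¹ ≤ e) {K : N3} (hK : ∀ i, 10 ^ 7 * T ^ 8 * r i ≤ K i)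
    {x : R3} (hx : x ∈ cube) :
    (1 - 2 * 10 ^ 15 * e) * ∑ i, Hm r p i * psi (K i) (x i) ≤ 1 - ‖ev x p‖ ^ 2 := by
  have T1 : (1 : ℝ) ≤ T := le_trans (by norm_num) hT
  have T8 : (1 : ℝ) ≤ T ^ 8 := one_le_pow₀ T1
  have ha : ∀ i, (1 : ℝ) ≤ r i := fun i => by exact_mod_cast hr i
  have hK1 : ∀ i, 1 ≤ K i := fun i => by
    have : (1 : ℝ) ≤ K i := le_trans (by nlinarith only [T8, ha i]) (hK i)
    exact_mod_cast this
  obtain ⟨τ, hτ⟩ : ∃ τ : ℝ, τ = (T ^ 8)⁻¹ := ⟨_, rfl⟩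
  have τ0 : 0 < τ := by rw [hτ]; positivity
  have τ2 : (T ^ 16)⁻¹ = τ ^ 2 := by rw [hτ, inv_pow, ← pow_mul]
  have τ3 : τ * T ^ 8 = 1 := by rw [hτ]; field_simp
  rw [← hτ] at hTe
  have e0 : 0 < e := τ0.trans_le hTe
  have hlo := le_Hm hp hr hT (by linarith only [he, hκ])
  have hH : ∀ i, 0 ≤ Hm r p i := fun i => le_trans (by positivity) (hlo i)
  have hs : 0 ≤ ∑ i, r i * |x i| := Finset.sum_nonneg fun _ _ => by positivity
  have hs2 := sq_sum_le r x
  have hq : 0 ≤ sqr r x := Finset.sum_nonneg fun _ _ => sq_nonneg _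
  by_cases hc : sqr r x ≤ τ ^ 2
  · have t0 : ∑ i, r i * |x i| ≤ 2 * τ :=
      (pow_le_pow_iff_left₀ hs (by positivity) two_ne_zero).mp (by linarith only [hs2, hq, hc])
    have t1 := (abs_le.mp (taylor hp (kap_nonneg hp hr) (x := x) (by linarith))).1
    have t2 : ∑ i, Hm r p i * psi (K i) (x i) ≤ ∑ i, Hm r p i * x i ^ 2 :=
      Finset.sum_le_sum fun i _ => mul_le_mul_of_nonneg_left (psi_le_sq (hK1 i) _) (hH i)
    have t3 : 9 / 10 ^ 11 * sqr r x ≤ ∑ i, Hm r p i * x i ^ 2 := by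
      rw [sqr, Finset.mul_sum]
      refine Finset.sum_le_sum fun i _ => ?_
      rw [mul_pow, ← mul_assoc]
      exact mul_le_mul_of_nonneg_right (hlo i) (sq_nonneg _)
    have t4 : (∑ i, r i * |x i|) ^ 3 ≤ 2 * e * (3 * sqr r x) := by
      rw [pow_succ']; gcongr; linarith only [hTe, t0]
    have t5 : (1 - 2 * 10 ^ 15 * e) * ∑ i, Hm r p i * psi (K i) (x i) ≤
        (1 - 2 * 10 ^ 15 * e) * ∑ i, Hm r p i * x i ^ 2 :=
      mul_le_mul_of_nonneg_left t2 (by linarith only [he])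
    have t6 : κ * sqr r x ≤ 10 ^ 5 * e * sqr r x := by (clear * - hκ hq; gcongr)
    linarith only [t1, t4, t5, t6, mul_le_mul_of_nonneg_left t3 e0.le, mul_nonneg e0.le hq]
  · have t1 := hp.far x hx
    rw [τ2, min_eq_left (not_le.mp hc).le] at t1
    have t4 : ∀ i, Hm r p i * psi (K i) (x i) ≤ 1 / 10 ^ 11 * τ ^ 2 := fun i => by
      have b1 : (r i : ℝ) ≤ τ / 10 ^ 7 * K i := by
        calc (r i : ℝ) = τ / 10 ^ 7 * (10 ^ 7 * T ^ 8 * r i) := by
              linear_combination (-(r i : ℝ)) * τ3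
          _ ≤ _ := by gcongr; exact hK i
      calc Hm r p i * psi (K i) (x i) ≤ 32 * (τ / 10 ^ 7 * K i) ^ 2 * psi (K i) (x i) :=
            mul_le_mul_of_nonneg_right ((Hm_le hp i).trans (by gcongr)) (psi_nonneg (hK1 i) _)
        _ = 32 / 10 ^ 14 * τ ^ 2 * (psi (K i) (x i) * K i ^ 2) := by ring
        _ ≤ 32 / 10 ^ 14 * τ ^ 2 * 24 := by gcongr; exact psi_le (hK1 i) _
        _ ≤ _ := by linarith only [sq_nonneg τ]
    have t5 : ∑ i, Hm r p i * psi (K i) (x i) ≤ 3 / 10 ^ 11 * τ ^ 2 := by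
      rw [Fin.sum_univ_three]; linarith only [t4 0, t4 1, t4 2]
    have t6 : 0 ≤ ∑ i, Hm r p i * psi (K i) (x i) :=
      Finset.sum_nonneg fun i _ => mul_nonneg (hH i) (psi_nonneg (hK1 i) _)
    linarith only [t1, t5, mul_nonneg e0.le t6, sq_nonneg τ]

theorem le_Qf (hr : ∀ i, 1 ≤ r i) (hT : (10 : ℝ) ^ 100 ≤ T) {e : ℝ} (he : e ≤ 1 / 10 ^ 30)
    (hκ : κ ≤ 10 ^ 5 * e) (hTe : (T ^ 8)⁻¹ ≤ e) {K : N3} (hK : ∀ i, 10 ^ 7 * T ^ 8 * r i ≤ K i)
    (y : V) :
    ∑ i, ∑ k ∈ Finset.range (K i + 1), (1 - 2 * 10 ^ 15 * e) * Hm r p i / (2 * Wk (K i)) *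
      ‖(Dec.sh i k - 1) * y‖ ^ 2 ≤ Qf p y := by
  have := normsq_le_of_symbol (Finset.univ.sigma fun i : Fin 3 => Finset.range (K i + 1))
    Finset.univ
    (fun ik : (_ : Fin 3) × ℕ => (Dec.sh ik.1 ik.2 - 1) * y) (fun b : Bool => if b then y else p * y)
    (fun ik => (1 - 2 * 10 ^ 15 * e) * Hm r p ik.1 / (2 * Wk (K ik.1)))
    (fun b => if b then 1 else -1) fun x hx => by
      have h2 := mul_le_mul_of_nonneg_right (symbol hp hr hT he hκ hTe hK hx) (sq_nonneg ‖ev x y‖)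
      simp only [Fintype.sum_bool, if_true, Bool.false_eq_true, if_false, map_mul, norm_mul,
        mul_pow, norm_ev_sh_sub, Finset.sum_sigma]
      refine le_trans (le_of_eq ?_) (h2.trans (le_of_eq (by ring)))
      simp only [psi, Finset.mul_sum, Finset.sum_mul, Finset.sum_div]
      refine Finset.sum_congr rfl fun i _ => Finset.sum_congr rfl fun k _ => ?_
      push_cast
      ring
  rw [Finset.sum_sigma] at this
  simpa [Qf, sub_eq_add_neg] using this

end

end Pool.Agent.Work.MP_6bf1e5_an.Hyp.Gp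
end

-- merged part: Pool.Agent.Work.MP_6bf1e5_an.Hyp.GapB
section
/-!
The loss at the ground state, and the product sine basis of a box.
-/

open Set Complex
open scoped InnerProductSpace ComplexConjugate
open Pool.Agent.Work.MP_6bf1e5_an.B (Z3 R3)
open Pool.Agent.Work.MP_6bf1e5_an.Hyp.Dec

namespace Pool.Agent.Work.MP_6bf1e5_an.Hyp.Gp

noncomputable section

lemma Nn_inv_sq (n : N3) : (Nn n)⁻¹ * (Nn n)⁻¹ = ∏ i, ((n i : ℝ) + 1)⁻¹ := by
  rw [← mul_inv, ← sq, Nn_sq, Finset.prod_inv_distrib]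

lemma inner_ph_shift (n : N3) (k : Z3) :
    ⟪ph n, AddMonoidAlgebra.single k 1 * ph n⟫_ℂ = ((∏ i, c1 (n i) (k i) : ℝ) : ℂ) := by
  rw [inner_eq _ (sp_ph n).subset]
  simp only [c1]
  rw [Finset.prod_mul_distrib, Finset.prod_univ_sum, Finset.mul_sum, Complex.ofReal_sum]
  refine Finset.sum_congr rfl fun h (hh : h ∈ bx n) => ?_
  rw [coeff_single_mul, one_mul, coeff_ph, if_pos hh, coeff_ph, Complex.conj_ofReal]
  by_cases hk : h - k ∈ bx n
  · rw [if_pos hk]
    have : ∀ i, |h i - k i| ≤ n i := mem_bx.mp hk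
    simp only [this, if_true, Pi.sub_apply, Finset.prod_mul_distrib]
    rw [← Complex.ofReal_mul, ← Nn_inv_sq]
    congr 1
    ring
  · rw [if_neg hk, mul_zero]
    rw [mem_bx, not_forall] at hk
    obtain ⟨i, hi⟩ := hk
    have hi' : ¬|h i - k i| ≤ n i := hi
    symm
    rw [Complex.ofReal_eq_zero]
    exact mul_eq_zero_of_right _
      (Finset.prod_eq_zero (Finset.mem_univ i) (by rw [if_neg hi', mul_zero]))

/-- The loss at the ground state. -/
theorem Qf_ph_le {T κ : ℝ} {r n : N3} {mv : Fin 3 → ℝ} {p : V} (hp : Drv T r mv κ p) {ρ : ℝ}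
    (h0 : 0 ≤ ρ) (h1 : ρ ≤ 1 / 24) (hL : ∀ i, r i * th (n i) ≤ ρ) :
    Qf p (ph n) ≤ ∑ i, Hm r p i * th (n i) ^ 2 + 3328 * ρ ^ 3 := by
  have h1 := abs_re_sum_le hp
    (g := fun k => ((1 - ∏ i, c1 (n i) (k i) - ∑ i, th (n i) ^ 2 * ((k i : ℝ) ^ 2 / 2) : ℝ) : ℂ))
    (c := 13 * (4 * ρ) ^ 3) (by positivity) fun k hk => by
      rw [Complex.norm_real, Real.norm_eq_abs]
      have hk' : ∀ i, th (n i) * |(k i : ℝ)| ≤ 4 * ρ := fun i => by
        nlinarith only [abs_le_r4 hk i, hL i, th_pos (n i)]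
      refine prod_taylor (by positivity) (by linarith) (fun i => ⟨by positivity, ?_⟩)
        fun i => abs_c1_taylor (by linarith) (hk' i)
      have : (th (n i) * |(k i : ℝ)|) ^ 2 ≤ (4 * ρ) ^ 2 :=
        pow_le_pow_left₀ (by have := th_pos (n i); positivity) (hk' i) 2
      rw [mul_pow, sq_abs] at this
      linarith only [this]
  have key : ∑ k ∈ bx (r4 r), (kq p).coeff k *
      ((1 - ∏ i, c1 (n i) (k i) - ∑ i, th (n i) ^ 2 * ((k i : ℝ) ^ 2 / 2) : ℝ) : ℂ) =
      ∑ k ∈ bx (r4 r), (kq p).coeff k - ⟪ph n, kq p * ph n⟫_ℂ -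
        ∑ k ∈ bx (r4 r), (kq p).coeff k *
          ((∑ i, th (n i) ^ 2 * ((k i : ℝ) ^ 2 / 2) : ℝ) : ℂ) := by
    rw [mul_eq_sum' (kq_supp hp).subset, inner_sum, ← Finset.sum_sub_distrib,
      ← Finset.sum_sub_distrib]
    refine Finset.sum_congr rfl fun k _ => ?_
    rw [inner_smul_right, inner_ph_shift]
    push_cast; ring
  rw [key, kq_sum hp, Complex.sub_re, re_sum_mom r p fun i => th (n i) ^ 2, Complex.sub_re,
    Complex.one_re] at h1
  rw [Qf_eq, norm_ph]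
  have := (abs_le.mp h1).2
  linarith only [this]

/-- The product sine vectors. -/
def sv (n : N3) (l : Fin 3 → ℕ) : V :=
  mk (bx n) fun h => (((Nn n)⁻¹ * ∏ i, s1 (n i) (l i) (h i) : ℝ) : ℂ)

/-- The index set of the sine basis. -/
def idx (n : N3) : Finset (Fin 3 → ℕ) := Fintype.piFinset fun i => Finset.range (2 * n i + 1)

lemma sum_sv {n : N3} {h h' : Z3} (a : h ∈ bx n) (b : h' ∈ bx n) :
    ∑ l ∈ idx n, ((Nn n)⁻¹ * ∏ i, s1 (n i) (l i) (h i)) *
      ((Nn n)⁻¹ * ∏ i, s1 (n i) (l i) (h' i)) = if h = h' then 1 else 0 := by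
  have e : ∀ l : Fin 3 → ℕ,
      ((Nn n)⁻¹ * ∏ i, s1 (n i) (l i) (h i)) * ((Nn n)⁻¹ * ∏ i, s1 (n i) (l i) (h' i)) =
      (∏ i, ((n i : ℝ) + 1)⁻¹) * ∏ i, s1 (n i) (l i) (h i) * s1 (n i) (l i) (h' i) := fun l => by
    rw [Finset.prod_mul_distrib, ← Nn_inv_sq]; ring
  simp only [e]
  rw [← Finset.mul_sum, idx,
    ← Finset.prod_univ_sum (fun i => Finset.range (2 * n i + 1))
      fun i l => s1 (n i) l (h i) * s1 (n i) l (h' i)]
  simp only [fun i => sum_s1 (mem_bx.mp a i) (mem_bx.mp b i)]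
  split_ifs with hh
  · subst hh
    simp only [if_true]
    rw [← Finset.prod_mul_distrib]
    exact Finset.prod_eq_one fun i _ => inv_mul_cancel₀ (by positivity)
  · obtain ⟨i, hi⟩ := Function.ne_iff.mp hh
    exact mul_eq_zero_of_right _ (Finset.prod_eq_zero (Finset.mem_univ i) (if_neg hi))

lemma coeff_sv (n : N3) (l : Fin 3 → ℕ) (h : Z3) : (sv n l).coeff h =
    if h ∈ bx n then (((Nn n)⁻¹ * ∏ i, s1 (n i) (l i) (h i) : ℝ) : ℂ) else 0 := coeff_mk _ _ _

lemma eq_sum_sv {n : N3} {g : V} (hg : Sp n g) : g = ∑ l ∈ idx n, ⟪sv n l, g⟫_ℂ • sv n l := by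
  ext h
  have : (∑ l ∈ idx n, ⟪sv n l, g⟫_ℂ • sv n l).coeff h =
      ∑ l ∈ idx n, ⟪sv n l, g⟫_ℂ * (sv n l).coeff h := by simp
  rw [this]
  by_cases hh : h ∈ bx n
  · simp only [inner_eq' _ hg.subset, Finset.sum_mul]
    rw [Finset.sum_comm]
    have : ∀ h' ∈ bx n, ∑ l ∈ idx n, conj ((sv n l).coeff h') * g.coeff h' * (sv n l).coeff h =
        if h = h' then g.coeff h' else 0 := fun h' hh' => by
      have h1 := congrArg (fun r : ℝ => (r : ℂ) * g.coeff h') (sum_sv hh hh')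
      simp only [Complex.ofReal_sum, Finset.sum_mul] at h1
      refine Eq.trans (Finset.sum_congr rfl fun l _ => ?_) (h1.trans (by split_ifs <;> simp))
      rw [coeff_sv, coeff_sv, if_pos hh, if_pos hh', Complex.conj_ofReal]
      push_cast; ring
    rw [Finset.sum_congr rfl this, Finset.sum_ite_eq, if_pos hh]
  · simp [hg h hh, coeff_sv, hh]

lemma inner_eq_sum_sv {n : N3} (f : V) {g : V} (hg : Sp n g) :
    ⟪f, g⟫_ℂ = ∑ l ∈ idx n, ⟪sv n l, g⟫_ℂ * conj ⟪sv n l, f⟫_ℂ := by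
  conv_lhs => rw [eq_sum_sv hg, inner_sum]
  exact Finset.sum_congr rfl fun l _ => by rw [inner_smul_right, inner_conj_symm]

lemma normsq_eq_sum_sv {n : N3} {g : V} (hg : Sp n g) :
    ‖g‖ ^ 2 = ∑ l ∈ idx n, ‖⟪sv n l, g⟫_ℂ‖ ^ 2 := by
  rw [@norm_sq_eq_re_inner ℂ, inner_eq_sum_sv g hg, RCLike.re_to_complex, Complex.re_sum]
  exact Finset.sum_congr rfl fun l _ => by rw [Complex.mul_conj']; norm_cast

lemma single_mem_bx {K : N3} (i : Fin 3) {k : ℤ} (hk : |k| ≤ K i) : (Pi.single i k : Z3) ∈ bx K :=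
  mem_bx.mpr fun j => by by_cases hj : j = i <;> simp [hj, hk]

lemma le_add_n (n K : N3) (i : Fin 3) : n i ≤ (n + K) i := Nat.le_add_right _ _

lemma inner_sv_sh {n K : N3} {y : V} (hy : Sp n y) (l : Fin 3 → ℕ) (i : Fin 3) {k : ℤ}
    (hk : |k| ≤ K i) : ⟪sv (n + K) l, Dec.sh i k * y + Dec.sh i (-k) * y⟫_ℂ =
      ((2 * Real.cos (k * (th ((n + K) i) * (l i + 1))) : ℝ) : ℂ) * ⟪sv (n + K) l, y⟫_ℂ := by
  rw [inner_add_right, inner_mul_right, inner_mul_right, dag_sh, dag_sh, neg_neg,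
    inner_eq' _ hy.subset, inner_eq' _ hy.subset, inner_eq' _ hy.subset, ← Finset.sum_add_distrib,
    Finset.mul_sum]
  refine Finset.sum_congr rfl fun h hh => ?_
  have m1 : h - Pi.single i (-k) ∈ bx (n + K) := by
    rw [Pi.single_neg, sub_neg_eq_add]; exact add_mem_bx hh (single_mem_bx i hk)
  have m2 : h - Pi.single i k ∈ bx (n + K) := by
    rw [sub_eq_add_neg]; exact add_mem_bx hh (neg_mem_bx.mpr (single_mem_bx i hk))
  rw [Dec.sh, Dec.sh, coeff_single_mul, coeff_single_mul, one_mul, one_mul, coeff_sv, coeff_sv,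
    coeff_sv, if_pos m1, if_pos m2, if_pos (bx_mono (le_add_n n K) hh), Complex.conj_ofReal,
    Complex.conj_ofReal, Complex.conj_ofReal, ← add_mul, ← mul_assoc, ← Complex.ofReal_add,
    ← Complex.ofReal_mul]
  congr 2
  have e := s1_add ((n + K) i) (l i) (h i) k
  have p : ∀ k' : ℤ, ∏ j, s1 ((n + K) j) (l j) ((h - Pi.single i k' : Z3) j) =
      s1 ((n + K) i) (l i) (h i - k') *
        ∏ j ∈ Finset.univ.erase i, s1 ((n + K) j) (l j) (h j) := fun k' => by
    rw [← Finset.mul_prod_erase _ _ (Finset.mem_univ i)]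
    congr 1
    · simp
    · exact Finset.prod_congr rfl fun j hj => by simp [Finset.ne_of_mem_erase hj]
  rw [p, p, sub_neg_eq_add, ← Finset.mul_prod_erase _ _ (Finset.mem_univ i)]
  linear_combination ((Nn (n + K))⁻¹ * ∏ j ∈ Finset.univ.erase i, s1 ((n + K) j) (l j) (h j)) * e

lemma normsq_sh_sub {n K : N3} {y : V} (hy : Sp n y) (i : Fin 3) {k : ℤ} (hk : |k| ≤ K i) :
    ‖(Dec.sh i k - 1) * y‖ ^ 2 = ∑ l ∈ idx (n + K),
      2 * (1 - Real.cos (k * (th ((n + K) i) * (l i + 1)))) * ‖⟪sv (n + K) l, y⟫_ℂ‖ ^ 2 := by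
  have s1 : ∀ k : ℤ, |k| ≤ K i → Sp (n + K) (Dec.sh i k * y) := fun k hk => by
    rw [add_comm]; exact (sp_sh (single_mem_bx i hk)).mul hy
  have h1 := inner_eq_sum_sv y ((s1 k hk).add (s1 (-k) (by rwa [abs_neg])))
  simp only [inner_sv_sh hy _ i hk] at h1
  have h2 := congrArg Complex.re h1
  rw [inner_add_right, Complex.add_re, ← dag_sh, ← inner_mul_left, Complex.re_sum] at h2
  have h3 : (⟪y, Dec.sh i k * y⟫_ℂ).re = (⟪Dec.sh i k * y, y⟫_ℂ).re := by
    rw [← inner_conj_symm, Complex.conj_re]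
  have h4 := normsq_eq_sum_sv (hy.mono (le_add_n n K))
  have h5 : ∀ l ∈ idx (n + K), (((2 * Real.cos (k * (th ((n + K) i) * (l i + 1))) : ℝ) : ℂ) *
      ⟪sv (n + K) l, y⟫_ℂ * conj ⟪sv (n + K) l, y⟫_ℂ).re =
      2 * Real.cos (k * (th ((n + K) i) * (l i + 1))) * ‖⟪sv (n + K) l, y⟫_ℂ‖ ^ 2 := fun l _ => by
    rw [mul_assoc, Complex.mul_conj']; norm_cast
  rw [Finset.sum_congr rfl h5] at h2
  have h6 : ‖Dec.sh i k * y‖ = ‖y‖ := norm_single_mul _ _
  rw [sub_mul, one_mul, @norm_sub_sq ℂ, h6, RCLike.re_to_complex]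
  simp only [mul_sub, sub_mul, Finset.sum_sub_distrib, mul_one, ← Finset.mul_sum]
  linarith only [h2, h3, h4]

lemma sum_sh_eq {n K : N3} {y : V} (hy : Sp n y) (c : Fin 3 → ℝ) :
    ∑ i, ∑ k ∈ Finset.range (K i + 1), c i / (2 * Wk (K i)) * ‖(Dec.sh i k - 1) * y‖ ^ 2 =
      ∑ l ∈ idx (n + K), (∑ i, c i * psi (K i) (th ((n + K) i) * (l i + 1))) *
        ‖⟪sv (n + K) l, y⟫_ℂ‖ ^ 2 := by
  simp only [Finset.sum_mul]
  rw [Finset.sum_comm (s := idx (n + K))]
  refine Finset.sum_congr rfl fun i _ => ?_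
  simp only [psi, Finset.sum_div, Finset.mul_sum, Finset.sum_mul]
  rw [Finset.sum_comm]
  refine Finset.sum_congr rfl fun k hk => ?_
  rw [normsq_sh_sub (K := K) hy i (by
    rw [Int.abs_natCast]; exact_mod_cast Nat.lt_succ_iff.mp (Finset.mem_range.mp hk)),
    Finset.mul_sum]
  refine Finset.sum_congr rfl fun l _ => ?_
  push_cast
  ring

lemma sv_zero (n : N3) : sv n 0 = ph n := by
  rw [sv, ph]
  congr 1
  funext h
  congr 2
  refine Finset.prod_congr rfl fun i _ => ?_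
  rw [s1, ← Real.sin_add_pi_div_two, ← th_mul (n i)]
  congr 1
  simp; ring

end

end Pool.Agent.Work.MP_6bf1e5_an.Hyp.Gp
end
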