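import Pool.Agent.Work.MP_6bf1e5_an.Hyp.Crude
import Pool.Agent.Work.MP_6bf1e5_an.Hyp.Data
import Pool.Agent.Work.MP_6bf1e5_an.Hyp.Duh
import Pool.Agent.Work.MP_6bf1e5_an.Hyp.Symm
import Pool.Agent.Work.MP_6bf1e5_an.Hyp.ExGeo

-- merged part: Pool.Agent.Work.MP_6bf1e5_an.Hyp.Next
section
/-!
The passage to the next stage.
-/

open Set Complex Filter Topology
open scoped InnerProductSpace ComplexConjugate
open Pool.Agent.Work.MP_6bf1e5_an.B (Z3 R3)
open Pool.Agent.Work.MP_6bf1e5_an.Hyp.Dec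

namespace Pool.Agent.Work.MP_6bf1e5_an.Hyp

noncomputable section

/-- The coefficients of `g 0 + M (g 0 - g o)`. -/
def mm (M : ℝ) (o : Fin 4) : Fin 4 → ℝ :=
  fun k => (if k = 0 then 1 + M else 0) - if k = o then M else 0

lemma mm_sum (M : ℝ) (o : Fin 4) : ∑ k, mm M o k = 1 := by
  simp [mm, Finset.sum_sub_distrib]

lemma mm_abs (M : ℝ) (o : Fin 4) : ∑ k, |mm M o k| ≤ 1 + 2 * |M| := by
  have : ∀ k, |mm M o k| ≤ (if k = 0 then 1 + |M| else 0) + if k = o then |M| else 0 := fun k => by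
    refine (abs_sub _ _).trans (add_le_add ?_ ?_)
    · split_ifs
      · simpa using abs_add_le 1 M
      · simp
    · split_ifs <;> simp
  refine (Finset.sum_le_sum fun k _ => this k).trans (le_of_eq ?_)
  simp [Finset.sum_add_distrib]; ring

lemma cmb_mm (M : ℝ) (o : Fin 4) (g : Fin 4 → V) :
    cmb (mm M o) g = g 0 + (M : ℂ) • (g 0 - g o) := by
  have : ∀ k, ((mm M o k : ℝ) : ℂ) • g k =
      (if k = 0 then (1 + M : ℂ) • g k else 0) - if k = o then (M : ℂ) • g k else 0 := fun k => by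
    unfold mm; split_ifs <;> push_cast <;> module
  simp only [cmb, this, Finset.sum_sub_distrib, Finset.sum_ite_eq', Finset.mem_univ, if_true]
  module

lemma al_comb (n : N3) (p b c b' c' : V) (M : ℝ) :
    al n p (b + (M : ℂ) • b') (c + (M : ℂ) • c') = al n p b c + M * al n p b' c' := by
  simp only [al, inner_add_right, inner_smul_right, add_re, re_ofReal_mul]; ring

lemma le_of_cone {B C : V} {x : ℝ} (hx : 0 ≤ x) (h : nr B C ^ 2 ≤ (1 / 2 + 1 / 10 ^ 62) * x ^ 2) :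
    ‖B‖ ≤ x ∧ ‖C‖ ≤ x := by
  have : nr B C ≤ x := abs_le_of_sq_le_sq' (by linarith [sq_nonneg x]) hx |>.2
  exact ⟨(le_nr_1 B C).trans this, (le_nr_2 B C).trans this⟩

lemma norm_le_of_pm {b b' : V} {M x y : ℝ} (hM : 0 < M) (h1 : ‖b + (M : ℂ) • b'‖ ≤ x + y)
    (h2 : ‖b + ((-M : ℝ) : ℂ) • b'‖ ≤ x - y) : ‖b'‖ ≤ x / M := by
  have e : ((2 * M : ℝ) : ℂ) • b' = (b + (M : ℂ) • b') - (b + ((-M : ℝ) : ℂ) • b') := by
    push_cast; module
  have := norm_sub_le (b + (M : ℂ) • b') (b + ((-M : ℝ) : ℂ) • b')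
  rw [← e, norm_smul, Complex.norm_real, Real.norm_of_nonneg (by linarith)] at this
  rw [le_div_iff₀ hM]; linarith

variable {G : Geo} {R : Raw} {j : ℕ} {t0 c g0 : ℝ} {AA : ℕ → ℝ}

namespace Run

variable (H : IsNet G R) (S : Run G R j AA t0 c g0)

include H S

lemma stop' (ha : R.aa G (j + 1) c < 10) :
    R.nl G (j + 2) c = G.xs * Ex t0 (AA (j + 1)) g0 c * R.bh G (j + 2) ∧
      ∃ᶠ t in 𝓝[>] c, G.xs * Ex t0 (AA (j + 1)) g0 t * R.bh G (j + 2) < R.nl G (j + 2) t := by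
  refine S.stop.resolve_left fun e => ?_
  have := (S.cur H c ⟨S.le, le_rfl⟩).near
  rw [e] at this
  linarith only [ha, (abs_le.mp this).1]

lemma aa_lo : 21 / 10 ≤ R.aa G (j + 1) c := by
  by_contra h
  push Not at h
  obtain ⟨e, fr⟩ := S.stop' H (by linarith)
  obtain ⟨g, hg⟩ := S.exists_cmp H
  have hc : c ∈ Icc t0 c := ⟨S.le, le_rfl⟩
  have h1 := (S.sc H hg).early hc (S.cross H e fr) h.le
  have h2 := (S.upp H hg c hc).lev
  have h3 := (S.bnd c hc).Elo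
  have N1 := G.N_pos (j + 1)
  have T0 := G.t_pos
  have b0 := H.bh_pos (j + 2)
  have x0 := G.xs_pos
  have ρ0 := G.ρ_pos
  have h4 : R.nl G (j + 2) c ≤ 20 * G.ρ ^ 2 * (Real.exp (-(G.Ga / G.t)) * R.bh G (j + 2)) := by
    have l0 := R.lev_nonneg (j + 2) c
    rw [le_div_iff₀ N1] at h2
    calc R.nl G (j + 2) c = G.N (j + 2) * R.lev (j + 2) c := rfl
      _ ≤ G.ρ ^ 2 * G.N (j + 1) * R.lev (j + 2) c := by gcongr; exact G.N_succ_ρ (j + 1)
      _ = G.ρ ^ 2 * (R.lev (j + 2) c * G.N (j + 1)) := by ring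
      _ ≤ G.ρ ^ 2 * (20 * (Real.exp (-(G.Ga / G.t)) * R.bh G (j + 2))) := by
        exact mul_le_mul_of_nonneg_left (h2.trans (by linarith only [h1])) (by positivity)
      _ = _ := by ring
  have h5 : G.xs * G.xs * R.bh G (j + 2) ≤ R.nl G (j + 2) c := by rw [e]; gcongr
  have h6 := G.cL_exp (k := 6) (x := -(G.Ga / G.t)) (y := 0) (by norm_num) (by
    have : G.t ≤ G.Ga / G.t := by
      rw [le_div_iff₀ T0, ← sq]
      exact (G.pow_le (by norm_num)).trans G.t_le_Ga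
    linarith only [this])
  have h7 : G.xs * G.xs ≤ 20 * G.ρ ^ 2 * Real.exp (-(G.Ga / G.t)) :=
    le_of_mul_le_mul_right (by linarith only [h4, h5]) b0
  have Q0 := G.Q_pos
  have L0 := G.L_pos
  have h8 : (G.t ^ 9 * G.Q) ^ 2 * (G.xs * G.xs) = 1 := by unfold Geo.xs; field_simp
  have h10 : G.t ^ 9 * G.Q ≤ G.L ^ 2 :=
    (mul_le_mul_of_nonneg_right (G.pow_le (by norm_num)) Q0.le).trans G.Q_hi
  have h11 := G.ρ_le_L
  have h9 : (G.t ^ 9 * G.Q) ^ 2 * (G.xs * G.xs) ≤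
      (G.L ^ 2) ^ 2 * (20 * G.L ^ 2 * Real.exp (-(G.Ga / G.t))) := by
    refine mul_le_mul (by gcongr) (h7.trans (by gcongr)) (by positivity) (by positivity)
  have h12 : G.L ^ 6 * Real.exp (-(G.Ga / G.t)) ≤ G.t ^ 20 * (G.L ^ 6 * Real.exp (-(G.Ga / G.t))) :=
    le_mul_of_one_le_left (by positivity) (one_le_pow₀ G.one_le_t)
  have h13 : 0 < G.L ^ 6 * Real.exp (-(G.Ga / G.t)) := by positivity
  rw [Real.exp_zero] at h6
  linarith only [h6, h8, h9, h12]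

lemma aa_hi : R.aa G (j + 1) c < 99 / 10 := by
  by_contra h
  push Not at h
  obtain ⟨g, hg⟩ := S.exists_cmp H
  have hc : c ∈ Icc t0 c := ⟨S.le, le_rfl⟩
  have T0 := G.t_pos
  have T1 := G.one_le_t
  have h1 := (S.sc H hg).late h
  have h2 := (S.combo H hg (S.aa_lo H) (mm_sum 0 0) ((mm_abs 0 0).trans (by
    have := one_le_pow₀ (n := 10) T1
    simp; linarith only [this]))).1
  have h3 := abs_al_le (S.cur H c hc).pp.1 (G.rb (j + 2)) (R.b (j + 2) 0 c) (R.c (j + 2) 0 c)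
  have h4 := R.nr_le_lev (j + 2) 0 c
  have h5 := (S.bnd c hc).up.nw
  have h6 := (S.bnd c hc).Ehi
  have N2 := G.N_pos (j + 2)
  have b0 := H.bh_pos (j + 2)
  have x0 := G.xs_pos
  have x1 : G.xs ≤ 1 := G.xs_le.trans (inv_le_one_of_one_le₀ (one_le_pow₀ T1))
  simp only [alm, cmb_mm, ofReal_zero, zero_smul, add_zero] at h2
  have n0 := nr_nonneg (R.b (j + 2) 0 c) (R.c (j + 2) 0 c)
  have h7 : al (G.rb (j + 2)) (R.pp G (j + 1) c) (R.b (j + 2) 0 c) (R.c (j + 2) 0 c) ≤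
      2 * R.lev (j + 2) c :=
    (abs_le_of_sq_le_sq' (by nlinarith only [h3, h4, n0]) (by linarith only [h4, n0])).2
  have h8 : G.xs * Ex t0 (AA (j + 1)) g0 c * R.bh G (j + 2) ≤ 1 * (21 / 2) * R.bh G (j + 2) := by
    have := (S.bnd c hc).Elo
    gcongr
    linarith only [x0, this]
  have h9 : Real.exp (-(G.E / 2)) * (Real.exp (G.Ga / G.t) * R.bh G (j + 2)) ≤
      21 * R.bh G (j + 2) :=
    calc _ ≤ Real.exp (-(G.E / 2)) * g c := by gcongr
      _ ≤ _ := h2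
      _ ≤ G.N (j + 2) * (2 * R.lev (j + 2) c) := by gcongr
      _ = 2 * R.nl G (j + 2) c := by unfold Raw.nl; ring
      _ ≤ _ := by linarith only [h5, h8]
  rw [← mul_assoc, ← Real.exp_add] at h9
  have h10 := le_of_mul_le_mul_right h9 b0
  have h11 := G.cpoly_exp (k := 0) (x := 0) (y := -(G.E / 2) + G.Ga / G.t) (by norm_num) (by
    have a1 : G.t ≤ G.E := by
      simpa using (G.pow_le (a := 1) (b := 19) (by norm_num)).trans G.E_lo
    have a2 : G.Ga / G.t = G.t ^ 5 * G.ρ * G.E := by rw [G.Ga_eq_E]; field_simp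
    have a3 : 1 * 10 ^ 100 * G.E ≤ G.t ^ 5 * G.ρ * G.E :=
      mul_le_mul_of_nonneg_right (mul_le_mul (one_le_pow₀ T1) G.ρ_big (by positivity)
        (by positivity)) G.E_pos.le
    linarith only [T0, a1, a2, a3])
  simp only [pow_zero, Real.exp_zero] at h11
  linarith only [h10, h11]

/-- The shape of the new level at the end of the stage. -/
lemma shape : ∃ x : ℝ, 0 < x ∧
    (∀ o, ‖R.b (j + 2) o c - (x : ℂ) • G.φ (j + 2)‖ ≤ 1 / 10 ^ 30 * x) ∧
    (∀ o, ‖R.c (j + 2) o c - (x : ℂ) • G.φ (j + 2)‖ ≤ 1 / 10 ^ 30 * x) ∧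
    (∀ o o', ‖R.b (j + 2) o c - R.b (j + 2) o' c‖ ≤ G.ι * x) ∧
    ∀ o o', ‖R.c (j + 2) o c - R.c (j + 2) o' c‖ ≤ G.ι * x := by
  obtain ⟨g, hg⟩ := S.exists_cmp H
  have hc : c ∈ Icc t0 c := ⟨S.le, le_rfl⟩
  have T0 := G.t_pos
  have T1 := G.one_le_t
  have N2 := G.N_pos (j + 2)
  have M1 := one_le_pow₀ (n := 10) T1
  have M0 : 0 < G.t ^ 10 := by positivity
  have gp : 0 < g c :=
    lt_of_lt_of_le (mul_pos (Real.exp_pos _) (H.bh_pos _)) ((S.sc H hg).floor c hc)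
  have hp := (S.cur H c hc).pp.1
  set p := R.pp G (j + 1) c
  set b := fun o => R.b (j + 2) o c with hb
  set c' := fun o => R.c (j + 2) o c with hc'
  set A := al (G.rb (j + 2)) p (b 0) (c' 0) with hA
  have key : ∀ M o, |M| ≤ G.t ^ 10 →
      0 < A + M * al (G.rb (j + 2)) p (b 0 - b o) (c' 0 - c' o) ∧
      nr (b 0 + (M : ℂ) • (b 0 - b o)) (c' 0 + (M : ℂ) • (c' 0 - c' o)) ^ 2 ≤ (1 / 2 + 1 / 10 ^ 62) *
        (A + M * al (G.rb (j + 2)) p (b 0 - b o) (c' 0 - c' o)) ^ 2 := fun M o hM => by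
    have := S.combo H hg (S.aa_lo H) (mm_sum M o) ((mm_abs M o).trans (by linarith))
    simp only [alm, cmb_mm, al_comb] at this
    exact ⟨(mul_pos_iff_of_pos_left N2).mp ((mul_pos (Real.exp_pos _) gp).trans_le this.1), this.2⟩
  obtain ⟨A0, k0⟩ := key 0 0 (by simpa using M0.le)
  simp only [ofReal_zero, zero_smul, add_zero, zero_mul] at A0 k0
  have dif : ∀ o, ‖b 0 - b o‖ ≤ A / G.t ^ 10 ∧ ‖c' 0 - c' o‖ ≤ A / G.t ^ 10 := fun o => by
    obtain ⟨p1, p2⟩ := key (G.t ^ 10) o (abs_of_pos M0).le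
    obtain ⟨p3, p4⟩ := key (-G.t ^ 10) o (by rw [abs_neg, abs_of_pos M0])
    obtain ⟨q1, q2⟩ := le_of_cone p1.le p2
    obtain ⟨q3, q4⟩ := le_of_cone p3.le p4
    rw [neg_mul, ← sub_eq_add_neg] at q3 q4
    exact ⟨norm_le_of_pm M0 q1 q3, norm_le_of_pm M0 q2 q4⟩
  obtain ⟨k1, k2⟩ := cone_close (n := G.rb (j + 2)) hp k0
  rw [← hA] at k1 k2
  have k3 : ‖b 0 - ((A / 2 : ℝ) : ℂ) • G.φ (j + 2)‖ ≤ 1 / 10 ^ 31 * A :=
    (abs_le_of_sq_le_sq' (k1.trans_eq (by ring)) (by positivity)).2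
  have k4 : ‖c' 0 - ((A / 2 : ℝ) : ℂ) • (p * G.φ (j + 2))‖ ≤ 1 / 10 ^ 31 * A :=
    (abs_le_of_sq_le_sq' (k2.trans_eq (by ring)) (by positivity)).2
  have k5 : ‖p * G.φ (j + 2) - G.φ (j + 2)‖ ≤ 200 / G.ρ :=
    hp.norm_mul_ph_sub G.ρ_big (G.rb_succ (j + 1))
  have s1 : A / G.t ^ 10 ≤ 1 / 10 ^ 31 * A := by
    rw [div_le_iff₀ M0]
    have := G.pow_lt (a := 0) (b := 10) (by norm_num)
    nlinarith only [A0, this]
  have s2 : 200 / G.ρ ≤ 1 / 10 ^ 31 := by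
    rw [div_le_iff₀ G.ρ_pos]
    linarith only [G.ρ_big]
  have s3 : G.ι * (A / 2) = 5 * (A / G.t ^ 10) := by unfold Geo.ι; field_simp; norm_num
  have s4 : 0 ≤ A / G.t ^ 10 := by positivity
  refine ⟨A / 2, by linarith only [A0], fun o => ?_, fun o => ?_, fun o o' => ?_, fun o o' => ?_⟩
  · have := norm_sub_le_norm_sub_add_norm_sub (b o) (b 0) (((A / 2 : ℝ) : ℂ) • G.φ (j + 2))
    rw [norm_sub_rev (b o) (b 0)] at this
    linarith only [A0, k3, s1, this, (dif o).1]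
  · have q1 := norm_sub_le_norm_sub_add_norm_sub (c' o) (c' 0) (((A / 2 : ℝ) : ℂ) • G.φ (j + 2))
    have q2 := norm_sub_le_norm_sub_add_norm_sub (c' 0) (((A / 2 : ℝ) : ℂ) • (p * G.φ (j + 2)))
      (((A / 2 : ℝ) : ℂ) • G.φ (j + 2))
    rw [norm_sub_rev (c' o) (c' 0)] at q1
    rw [← smul_sub, norm_smul, Complex.norm_real, Real.norm_of_nonneg (by linarith only [A0])] at q2
    have q3 : A / 2 * ‖p * G.φ (j + 2) - G.φ (j + 2)‖ ≤ A / 2 * (1 / 10 ^ 31) := by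
      gcongr; exact k5.trans s2
    linarith only [A0, k4, s1, q1, q2, q3, (dif o).2]
  · have := norm_sub_le_norm_sub_add_norm_sub (b o) (b 0) (b o')
    rw [norm_sub_rev (b o) (b 0)] at this
    linarith only [s3, s4, this, (dif o).1, (dif o').1]
  · have := norm_sub_le_norm_sub_add_norm_sub (c' o) (c' 0) (c' o')
    rw [norm_sub_rev (c' o) (c' 0)] at this
    linarith only [s3, s4, this, (dif o).2, (dif o').2]

end Run

lemma norm_near {f φ : V} {x e : ℝ} (hφ : ‖φ‖ = 1) (hx : 0 ≤ x) (h : ‖f - (x : ℂ) • φ‖ ≤ e) :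
    x - e ≤ ‖f‖ ∧ ‖f‖ ≤ x + e := by
  have := abs_norm_sub_norm_le f ((x : ℂ) • φ)
  rw [norm_smul, hφ, Complex.norm_real, Real.norm_of_nonneg hx, mul_one] at this
  constructor <;> linarith [(abs_le.mp this).1, (abs_le.mp this).2]

theorem St.next {G : Geo} {R : Raw} (H : IsNet G R) {J : ℕ} {t0 T1 : ℝ} {AA : ℕ → ℝ}
    (S : St G R J t0 AA) (hT1 : t0 ≤ T1) (hX : ∀ s ∈ Icc t0 T1, R.X s = 0) :
    ∃ t1 ∈ Icc t0 T1, t1 ≤ t0 + G.Δ J ∧ (∀ t ∈ Icc t0 t1, R.U t ≤ G.t ^ 12 * G.Ga * G.am J) ∧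
      (t1 = T1 ∨ ∃ AA', St G R (J + 1) t1 AA') := by
  obtain ⟨j, rfl⟩ : ∃ j, J = j + 1 := ⟨J - 1, by have := S.kJ; have := G.ten_le_kk; omega⟩
  obtain ⟨c, c1, c2, c3, c4⟩ := S.run H hT1 hX
  refine ⟨c, c1, c2, c3, c4.imp_right ?_⟩
  rintro ⟨g0, Q⟩
  have hc : c ∈ Icc t0 c := ⟨Q.le, le_rfl⟩
  have lo := Q.aa_lo H
  have hi := Q.aa_hi H
  obtain ⟨e, -⟩ := Q.stop' H (by linarith only [hi])
  obtain ⟨x, x0, s1, s2, s3, s4⟩ := Q.shape H
  have B := Q.bnd c hc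
  have C := Q.cur H c hc
  have Eh := B.Ehi
  have El : 2 ≤ Ex t0 (AA (j + 1)) g0 c := by linarith only [lo, (abs_le.mp C.near).2]
  set E := Ex t0 (AA (j + 1)) g0 c
  have u1 := H.un_pos (j + 1)
  have u2 := H.un_pos (j + 2)
  have b1 := H.bh_pos (j + 1)
  have b2 := H.bh_pos (j + 2)
  have N2 := G.N_pos (j + 2)
  have xs := G.xs_pos
  have th := G.θ_pos
  let AA' : ℕ → ℝ := fun i =>
    if i = j + 1 then R.aa G (j + 1) c else if i = j + 2 then x / R.un G (j + 2) else AA i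
  have a0 : ∀ i < j + 1, AA' i = AA i := fun i hi => by
    simp only [AA']; rw [if_neg (by omega), if_neg (by omega)]
  have a1 : AA' (j + 1) = R.aa G (j + 1) c := by simp [AA']
  have a2 : AA' (j + 2) = x / R.un G (j + 2) := by simp [AA']
  have a3 : AA' (j + 2) * R.un G (j + 2) = x := by rw [a2]; field_simp
  have hf : (1 - (1 / 2 : ℝ) ^ (j + 1 + 1 - (j + 1))) = 1 / 2 := by
    rw [Nat.add_sub_cancel_left]; norm_num
  have l1 : 9 / 10 * x ≤ R.lev (j + 2) c := by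
    linarith only [x0, (norm_near (G.norm_φ _) x0.le (s1 0)).1, R.b_le_lev (j + 2) 0 c]
  have l2 : R.lev (j + 2) c ≤ 4 * x := by
    refine (abs_le_of_sq_le_sq' ?_ (by linarith only [x0])).2
    rw [R.lev_sq]
    have : ∀ o, ‖R.b (j + 2) o c‖ ^ 2 + ‖R.c (j + 2) o c‖ ^ 2 ≤ 4 * x ^ 2 := fun o => by
      have q1 : ‖R.b (j + 2) o c‖ ≤ 11 / 10 * x := by
        linarith only [x0, (norm_near (G.norm_φ _) x0.le (s1 o)).2]
      have q2 : ‖R.c (j + 2) o c‖ ≤ 11 / 10 * x := by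
        linarith only [x0, (norm_near (G.norm_φ _) x0.le (s2 o)).2]
      have q3 := pow_le_pow_left₀ (norm_nonneg _) q1 2
      have q4 := pow_le_pow_left₀ (norm_nonneg _) q2 2
      linarith only [q3, q4, sq_nonneg x]
    refine (Finset.sum_le_sum fun o _ => this o).trans (le_of_eq ?_)
    simp; ring
  have e' : G.N (j + 2) * R.lev (j + 2) c = G.xs * E * R.bh G (j + 2) := e
  have uh := H.un_hi (j + 2)
  have ul := H.un_lo (j + 2)
  refine ⟨AA', by have := S.kJ; omega, B.t0, fun i hi' => ?_, fun i hi' o => ?_,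
    fun i hi' o => ?_, fun i hi' => ?_, ?_, fun o => ?_, fun o => ?_, fun o o' => ?_,
    fun o o' => ?_, fun i hi' => ?_, fun i hi' => ?_, Q.Fj, Q.Hj⟩
  · rcases (Nat.lt_succ_iff.mp hi').eq_or_lt with rfl | h
    · rw [a1]; constructor <;> linarith only [lo, hi]
    · rw [a0 i h]; exact B.oldA i h
  · rcases (Nat.lt_succ_iff.mp hi').eq_or_lt with rfl | h
    · rw [a1, hf]
      refine (C.clb o).trans ?_
      nlinarith only [hi, u1]
    · rw [a0 i h]; exact B.oldb i h o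
  · rcases (Nat.lt_succ_iff.mp hi').eq_or_lt with rfl | h
    · rw [hf]
      have := (norm_near (G.norm_φ _) (by positivity) (C.clc o)).2
      nlinarith only [hi, u1, this]
    · exact B.oldc i h o
  · rcases (Nat.lt_succ_iff.mp hi').eq_or_lt with rfl | h
    · rw [hf]
      refine B.cury.trans ?_
      nlinarith only [Eh, b1]
    · exact B.oldy i h
  · change G.xs ≤ AA' (j + 2) ∧ AA' (j + 2) ≤ 10 ^ 3 * G.xs
    rw [a2, le_div_iff₀ u2, div_le_iff₀ u2]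
    constructor
    · refine le_of_mul_le_mul_left ?_ N2
      have q1 : G.N (j + 2) * R.lev (j + 2) c ≤ G.N (j + 2) * (4 * x) := by gcongr
      have q2 : G.xs * 2 * (16 * (G.N (j + 2) * R.un G (j + 2))) ≤ G.xs * E * R.bh G (j + 2) := by
        (clear * - El u2 N2 xs uh; gcongr)
      linarith only [e', q1, q2, mul_pos xs (mul_pos N2 u2)]
    · refine le_of_mul_le_mul_left ?_ N2
      have q1 : G.N (j + 2) * (9 / 10 * x) ≤ G.N (j + 2) * R.lev (j + 2) c := by gcongr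
      have q2 : G.xs * E * R.bh G (j + 2) ≤
          G.xs * (21 / 2) * (60 * (G.N (j + 2) * R.un G (j + 2))) := by (clear * - Eh b2 xs ul; gcongr)
      linarith only [e', q1, q2, mul_pos xs (mul_pos N2 u2)]
  · rw [a3]; exact s1 o
  · rw [a3]; exact s2 o
  · rw [a3]; exact s3 o o'
  · rw [a3]; exact s4 o o'
  · refine (B.up.y i hi').trans ?_
    rw [show i - (j + 1) = i - (j + 1 + 1) + 1 by omega]
    have := mul_pos (pow_pos th (i - (j + 1 + 1) + 1)) (mul_pos xs b2)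
    nlinarith only [Eh, this]
  · refine (B.up.l i hi').trans ?_
    rw [show i - (j + 1) - 1 = i - (j + 1 + 1) by omega]
    have := mul_pos (pow_pos th (i - (j + 1 + 1))) (mul_pos xs b2)
    nlinarith only [Eh, this]

end

end Pool.Agent.Work.MP_6bf1e5_an.Hyp
end

-- merged part: Pool.Agent.Work.MP_6bf1e5_an.Hyp.NetOf
section
-- merged part: Pool.Agent.Work.MP_6bf1e5_an.Hyp.NoNet
section
/-!
The envelope system obeys a self-similar bound and breaks down in finite time.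
-/

open Set Complex Filter Topology
open scoped InnerProductSpace ComplexConjugate
open Pool.Agent.Work.MP_6bf1e5_an.B (Z3 R3)
open Pool.Agent.Work.MP_6bf1e5_an.Hyp.Dec

namespace Pool.Agent.Work.MP_6bf1e5_an.Hyp

noncomputable section

lemma IsNet.nc_init {G : Geo} {R : Raw} (H : IsNet G R) (i : ℕ) : R.nc G i 0 = 0 := by
  have : ∑ m ∈ Finset.Icc 1 G.La, ‖R.y i m 0‖ ^ 2 = 0 := by
    refine Finset.sum_eq_zero fun m hm => ?_
    obtain ⟨k, rfl⟩ := Nat.exists_eq_add_of_le' (Finset.mem_Icc.mp hm).1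
    rw [H.inity, norm_zero]
    norm_num
  unfold Raw.nc Raw.ch
  rw [this, Real.sqrt_zero, mul_zero, mul_zero]

lemma IsNet.nl_init {G : Geo} {R : Raw} (H : IsNet G R) {i : ℕ} (hi : G.kk + 1 ≤ i) :
    R.nl G i 0 = 0 := by
  have e : Raw.AA0 G i = 0 := by
    unfold Raw.AA0
    rw [if_neg (by omega), if_neg (by omega)]
  have : ∑ o, (‖R.b i o 0‖ ^ 2 + ‖R.c i o 0‖ ^ 2) = 0 := by
    refine Finset.sum_eq_zero fun o _ => ?_
    rw [H.initb, H.initc, e, if_neg (by omega)]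
    simp
  unfold Raw.nl Raw.lev
  rw [this, Real.sqrt_zero, mul_zero]

theorem IsNet.st0 {G : Geo} {R : Raw} (H : IsNet G R) : St G R G.kk 0 (Raw.AA0 G) := by
  have half : ∀ m : ℕ, (0 : ℝ) ≤ 1 - (1 / 2) ^ m := fun m =>
    sub_nonneg.mpr (pow_le_one₀ (by norm_num) (by norm_num))
  have x0 := G.xs_pos
  have T0 := G.t_pos
  have θ0 := G.θ_pos
  have b0 := H.bh_pos G.kk
  have u0 := H.un_pos G.kk
  have ι0 : 0 < G.ι := by unfold Geo.ι; positivity
  have δ0 : 0 < G.δ0 := Real.exp_pos _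
  have L0 := G.am_pos G.kk
  have M0 := G.lm_pos G.kk
  have N0 := G.N_pos G.kk
  have eA : Raw.AA0 G G.kk = 10 * G.xs := by
    unfold Raw.AA0
    rw [if_neg (lt_irrefl _), if_pos rfl]
  refine ⟨le_rfl, le_rfl, fun i hi => ?_, fun i _ o => ?_, fun i hi o => ?_, fun i _ => ?_, ?_,
    fun o => ?_, fun o => ?_, fun o o' => ?_, fun o o' => ?_, fun i _ => ?_, fun i hi => ?_,
    ?_, ?_⟩
  · unfold Raw.AA0
    rw [if_pos hi]
    norm_num
  · rw [H.initb, sub_self, norm_zero]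
    have := half (G.kk - i)
    have := H.un_pos i
    positivity
  · rw [H.initc, if_neg hi.ne, zero_mul, Complex.ofReal_zero, zero_smul, norm_zero]
    have := half (G.kk - i)
    have := H.un_pos i
    positivity
  · rw [H.nc_init]
    have := half (G.kk - i)
    have := H.bh_pos i
    positivity
  · rw [eA]
    constructor <;> linarith only [x0]
  · rw [H.initb, sub_self, norm_zero, eA]
    positivity
  · rw [H.initc, if_pos rfl, sub_self, norm_zero, eA]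
    positivity
  · rw [H.initb, H.initb, sub_self, norm_zero, eA]
    positivity
  · rw [H.initc, H.initc, sub_self, norm_zero, eA]
    positivity
  · rw [H.nc_init]
    positivity
  · rw [H.nl_init hi, mul_zero]
    positivity
  · rw [H.initF]
    positivity
  · rw [H.initH]
    positivity

lemma IsNet.stages {G : Geo} {R : Raw} (H : IsNet G R) {T1 : ℝ} (h0 : 0 ≤ T1)
    (hX : ∀ s ∈ Icc 0 T1, R.X s = 0) (m : ℕ) : ∃ c ∈ Icc 0 T1,
    (∀ t ∈ Ico 0 c, ∃ J, R.U t ≤ G.t ^ 12 * G.Ga * G.am J ∧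
      c ≤ t + 2 * G.Δ J - 2 * G.Δ (G.kk + m)) ∧ (c = T1 ∨ ∃ AA, St G R (G.kk + m) c AA) := by
  induction m with
  | zero => exact ⟨0, ⟨le_rfl, h0⟩, fun t ht => absurd ht.2 (not_lt.2 ht.1), Or.inr ⟨_, H.st0⟩⟩
  | succ m ih =>
    have d1 := G.Δ_succ (G.kk + m)
    have d2 := G.Δ_pos (G.kk + m)
    rw [← add_assoc]
    obtain ⟨c, c1, c2, rfl | ⟨AA, S⟩⟩ := ih
    · exact ⟨c, c1, fun t ht => (c2 t ht).imp fun J h => ⟨h.1, by linarith [h.2]⟩, Or.inl rfl⟩
    · obtain ⟨t1, a1, a2, a3, a4⟩ := S.next H c1.2 fun s hs => hX s ⟨c1.1.trans hs.1, hs.2⟩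
      refine ⟨t1, ⟨c1.1.trans a1.1, a1.2⟩, fun t ht => ?_, a4⟩
      by_cases h : t < c
      · exact (c2 t ⟨ht.1, h⟩).imp fun J h => ⟨h.1, by linarith only [d1, a2, h.2]⟩
      · exact ⟨_, a3 t ⟨not_lt.1 h, ht.2.le⟩, by linarith [not_lt.1 h]⟩

lemma IsNet.grow_q {G : Geo} {R : Raw} (H : IsNet G R) (j m : ℕ) :
    2 ^ m * (G.lam j * R.bh G j / G.N j) ≤
      G.lam (j + m) * R.bh G (j + m) / G.N (j + m) := by
  induction m with
  | zero => simp
  | succ m ih =>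
    rw [← add_assoc]
    have L0 := G.lam_pos (j + m)
    have b0 := H.bh_pos (j + m)
    have N0 := G.N_pos (j + m)
    have N1 := G.N_pos (j + m + 1)
    have T0 := G.t_pos
    have p : 10 ^ 100 * G.t ^ 0 ≤ G.t ^ 10 := G.pow_lt (by norm_num)
    rw [pow_zero] at p
    have a : 2 * (G.lam (j + m) * R.bh G (j + m) / G.N (j + m)) ≤
        G.lam (j + m + 1) * R.bh G (j + m + 1) / G.N (j + m + 1) := by
      rw [le_div_iff₀ N1, G.lam_succ, H.bh_succ]
      have b1 : 2 * G.N (j + m + 1) ≤ G.t ^ 10 * G.N (j + m + 1) :=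
        mul_le_mul_of_nonneg_right (by linarith) N1.le
      have b2 : G.L ^ 2 * G.N (j + m) ≤ G.Ga * G.N (j + m) :=
        mul_le_mul_of_nonneg_right G.Ga_lo N0.le
      have b := mul_le_mul_of_nonneg_left ((b1.trans (G.N_succ_hi (j + m))).trans b2)
        (show 0 ≤ G.lam (j + m) * R.bh G (j + m) / G.N (j + m) by positivity)
      have e : G.lam (j + m) * R.bh G (j + m) / G.N (j + m) * (G.Ga * G.N (j + m)) =
          G.Ga * (G.lam (j + m) * R.bh G (j + m)) := by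
        field_simp
      have e2 : G.L * G.lam (j + m) * (G.Q * R.bh G (j + m)) =
          G.Ga * (G.lam (j + m) * R.bh G (j + m)) := by rw [← G.Q_mul_L]; ring
      linarith only [b, e, e2]
    rw [pow_succ]
    linarith only [ih, a]

/-- As long as there is no force the solution obeys the self-similar bound. -/
theorem typeI {G : Geo} {R : Raw} (H : IsNet G R) {T1 : ℝ} (hX : ∀ s ∈ Icc 0 T1, R.X s = 0) :
    ∀ t ∈ Ico 0 T1, ∃ J, R.U t ≤ G.t ^ 12 * G.Ga * G.am J ∧ T1 - t ≤ 2 * G.Δ J := by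
  intro t' ht'
  obtain ⟨K, hK⟩ := H.decay 1 T1
  have x0 := G.xs_pos
  have q0 : 0 < G.xs * (G.lam G.kk * R.bh G G.kk / G.N G.kk) / 120 := by
    have := G.lam_pos G.kk
    have := H.bh_pos G.kk
    have := G.N_pos G.kk
    positivity
  obtain ⟨m, hm⟩ := pow_unbounded_of_one_lt
    (K / (G.xs * (G.lam G.kk * R.bh G G.kk / G.N G.kk) / 120)) (show (1 : ℝ) < 2 by norm_num)
  rw [div_lt_iff₀ q0] at hm
  obtain ⟨t, h1, h2, rfl | ⟨AA, S⟩⟩ := H.stages (ht'.1.trans ht'.2.le) hX m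
  · exact (h2 t' ht').imp fun J h => ⟨h.1, by linarith only [h.2, G.Δ_pos (G.kk + m)]⟩
  exfalso
  have g := H.grow_q G.kk m
  generalize G.kk + m = J at S g
  have k1 := hK J t h1
  have L0 := G.lam_pos J
  have N0 := G.N_pos J
  have u0 := H.un_pos J
  have A0 : 0 < AA J * R.un G J := mul_pos (x0.trans_le S.curA.1) u0
  have n1 : ‖((AA J * R.un G J : ℝ) : ℂ) • G.φ J‖ = AA J * R.un G J := by
    rw [norm_smul, G.norm_φ, mul_one, Complex.norm_real, Real.norm_of_nonneg A0.le]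
  have n2 := norm_sub_norm_le (((AA J * R.un G J : ℝ) : ℂ) • G.φ J) (R.b J 0 t)
  rw [n1, norm_sub_rev] at n2
  have n3 := S.curb 0
  have n4 := R.b_le_lev J 0 t
  have n5 := R.ch_nonneg G J t
  have n6 : G.xs * R.un G J ≤ AA J * R.un G J := mul_le_mul_of_nonneg_right S.curA.1 u0.le
  have n7 : G.xs * R.un G J / 2 ≤ R.lev J t + R.ch G J t := by linarith only [A0, n2, n3, n4, n5, n6]
  have n8 := mul_le_mul_of_nonneg_left n7 L0.le
  have n9 : G.lam J * R.bh G J / G.N J ≤ 60 * (G.lam J * R.un G J) := by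
    rw [div_le_iff₀ N0]
    have := mul_le_mul_of_nonneg_left (H.un_lo J) L0.le
    linarith only [this]
  have n10 := mul_le_mul_of_nonneg_left (g.trans n9) x0.le
  rw [pow_one] at k1
  linarith only [hm, k1, n8, n10]

end

end Pool.Agent.Work.MP_6bf1e5_an.Hyp
end

-- merged part: Pool.Agent.Work.MP_6bf1e5_an.Hyp.NetOf
section
/-!
A solution gives an envelope system; the blow-up theorem.
-/

open Set Complex
open scoped InnerProductSpace ComplexConjugate Classical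
open Pool.Agent.Work.MP_6bf1e5_an.B
open Pool.Agent.Work.MP_6bf1e5_an.Hyp.Dec

namespace Pool.Agent.Work.MP_6bf1e5_an.Hyp.Pd

noncomputable section

variable {G : Geo} {α : ℝ → Z3 → E3}

lemma rl_tooth (F : Fam) (x : Z3) (ω : ℝ) (β : Z3 → E3) : Rl (tooth G F x ω β) := fun h => by
  rw [tooth, coeff_mk]
  split_ifs
  · exact ofReal_im _
  · rfl

lemma rl_zero : Rl 0 := fun _ => rfl

theorem isNet (H : RSol G α)
    (ib : ∀ j o, (rawOf G α).b j o 0 = ((Raw.AA0 G j * (rawOf G α).un G j : ℝ) : ℂ) • G.φ j)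
    (ic : ∀ j o, (rawOf G α).c j o 0 =
      (((if j = G.kk then Raw.AA0 G j else 0) * (rawOf G α).un G j : ℝ) : ℂ) • G.φ j)
    (iy : ∀ j i, (rawOf G α).y j (i + 1) 0 = 0) (iF : (rawOf G α).Fj 0 = 0)
    (iH : (rawOf G α).Hj 0 = 0) : IsNet G (rawOf G α) where
  kp_pos := kp_pos G
  kp_lo := kp_lo G
  kp_hi := kp_hi G
  om_lo := om_lo G
  om_hi := om_hi G
  cy_lo := cy_lo G
  cy_hi := cy_hi G
  cf_lo := cf_lo G
  cf_hi := cf_hi G
  cq_le := cq_le G
  spb j o t := sp_mk _ _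
  spc j o t := by
    cases j with
    | zero => exact sp_zero _
    | succ j => exact sp_mk _ _
  spy j i t := by
    simp only [rawOf, Nat.add_eq_zero_iff, one_ne_zero, and_false, if_false]
    split_ifs
    · rw [env_eq_tooth]; exact sp_mk _ _
    · exact sp_zero _
  rlb j o t := rl_tooth _ _ _ _
  rlc j o t := by
    cases j with
    | zero => exact rl_zero
    | succ j => exact rl_tooth _ _ _ _
  rly j i t := by
    simp only [rawOf]
    split_ifs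
    · exact (rl_env _ _).tau
    · exact rl_env _ _
    · exact rl_zero
  c0 o t := rfl
  y0 j t := y_zero j
  yend j t := by simp [rawOf]
  layb j := lay_tooth (.b j)
  layc j := by
    cases j with
    | zero => exact lay_zero _ _
    | succ j =>
      have e : (rawOf G α).vc (j + 1) = lay G (.c j) := by simp [rawOf]
      rw [e]
      exact (lay_tooth (.c j)).mono (ell_mono j)
  layy j i := lay_tooth (.y j i)
  eqB0 o t ht := eqB0 H o ht
  eqB j o t ht := eqB H j o ht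
  eqC j o t ht := eqC H j o ht
  eqY j i t hi ht := eqY H j i hi ht
  U_nonneg t := tsum_nonneg fun _ => norm_nonneg _
  H_nonneg t := Real.sqrt_nonneg _
  Fj_nonneg t := tsum_nonneg fun _ => norm_nonneg _
  Hj_nonneg t := Real.sqrt_nonneg _
  ET_nonneg i t := tsum_nonneg fun _ => sq_nonneg _
  X_nonneg t := tsum_nonneg fun _ => norm_nonneg _
  U_le t K ht hK := U_le (H.adm t ht) hK
  H_le t K ht hK := H_le (H.adm t ht) hK
  ET_le i t K ht hK := ET_le (H.adm t ht) i hK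
  contU := contU H
  contH := contH H
  duh J t0 t1 U0 H0 h0 h1 hJ hX hU hH :=
    ⟨duh_F H J h0 h1 hJ hX hU, duh_H H J h0 h1 hJ hX hU hH⟩
  decay := decay H
  initb := ib
  initc := ic
  inity := iy
  initF := iF
  initH := iH

lemma am_le (J : ℕ) {s : ℝ} (hs : 0 < s) (h : s ≤ 2 * G.Δ J) :
    G.am J ≤ (2 * G.t) ^ (1 - 1 / (2 * G.α)) * s ^ (1 / (2 * G.α) - 1) := by
  have a1 := G.α_lo
  have l0 := G.lam_pos J
  have t0 := G.t_pos
  have e : G.am J = G.lm J ^ (1 - 1 / (2 * G.α)) := by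
    rw [Geo.am, Geo.lm, ← Real.rpow_mul l0.le, ← Real.rpow_sub_one l0.ne']
    congr 1
    field_simp
  have h1 : G.lm J ≤ 2 * G.t / s := by
    rw [Geo.Δ, ← mul_div_assoc, le_div_iff₀ (G.lm_pos J)] at h
    rw [le_div_iff₀ hs]
    linarith only [h]
  rw [e, ← neg_sub 1, Real.rpow_neg hs.le, ← div_eq_mul_inv, ← Real.div_rpow (by positivity) hs.le]
  refine Real.rpow_le_rpow (G.lm_pos J).le h1 (sub_nonneg.2 ?_)
  rw [div_le_one (by linarith only [a1])]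
  linarith only [a1]

/-- The a priori bounds on the life span and on the size of the solution. -/
theorem bound (G : Geo) : ∃ β : Z3 → E3, Adm β ∧ {k | β k ≠ 0}.Finite ∧
    Sz.Bound (Sz.AS 1 (sig G)) (fun k => I • rc (β k)) (1 / (2 * G.α) - 1) := by
  obtain ⟨β, hβ, fin, hd⟩ := exists_data G
  refine ⟨β, hβ, fin, G.t ^ 12 * G.Ga * (2 * G.t) ^ (1 - 1 / (2 * G.α)), 2 * G.Δ 0,
    fun a T a0 ha => ?_⟩
  have d0 := G.Δ_pos 0
  rcases le_or_gt T 0 with hT | hT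
  · exact ⟨by linarith, fun t ht => absurd (ht.1.trans_lt ht.2) hT.not_gt⟩
  obtain ⟨α, H, e, hX⟩ := rsol_of_isSol symb_sig hβ a0 hT.le ha
  obtain ⟨i1, i2, i3, i4, i5⟩ := hd α e
  have key := typeI (isNet H i1 i2 i3 i4 i5) fun s hs => (hX s hs).1
  refine ⟨?_, fun t ht => ?_⟩
  · obtain ⟨J, -, h2⟩ := key 0 ⟨le_rfl, hT⟩
    have : G.Δ J ≤ G.Δ 0 :=
      div_le_div_of_nonneg_left G.t_pos.le (G.lm_pos 0) (G.lm_mono (Nat.zero_le J))
    linarith only [h2, this]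
  · obtain ⟨J, h1, h2⟩ := key t ht
    rw [← (hX t ⟨ht.1, ht.2.le⟩).2, mul_assoc]
    exact h1.trans (mul_le_mul_of_nonneg_left (am_le J (sub_pos.2 ht.2) h2)
      (mul_pos (pow_pos G.t_pos _) G.Ga_pos).le)

/-- The blow-up theorem. -/
theorem main {α : ℝ} (h1 : 1 ≤ α) (h2 : α < 5 / 4) {δ : ℝ} (hδ : 0 < δ) :
    ∃ (D : R3 → M3) (C : ℝ), IsSymbol α C D ∧
    (∀ R : ℕ, ({k : Z3 | (∀ i, |k i| ≤ R) ∧ D (fun l => 2 * Real.pi * k l) ≠ fun i j =>
      if i = j then C * (∑ l, (2 * Real.pi * k l) ^ 2) ^ α else 0}.ncard : ℝ) ≤ δ * R ^ 3) ∧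
    (∃ L R : ℝ, 1 < L ∧ ∀ ξ : R3, R ≤ ‖ξ‖ → D (L • ξ) = L ^ (2 * α) • D ξ) ∧
    (∀ ξ v : R3, ∑ i, ξ i * v i = 0 → ∑ i, ξ i * ∑ j, D ξ i j * v j = 0) ∧
    ∀ ν : ℝ, 0 < ν → ∃ u0 : R3 → R3, IsData u0 ∧ {k | fc u0 k ≠ 0}.Finite ∧
      (∃ T > 0, ∃ u p, IsSolutionOn (symDiss ν D) u0 (Ico 0 T) u p ∧
        (∀ t ∈ Ico 0 T, HasDerivWithinAt (fun s => energy fun x => u x s)
          (-(2 * ν * dissip D fun x => u x t)) (Ico 0 T) t) ∧
        (∃ K : ℝ, ∀ t ∈ Ico 0 T, ∀ x, ‖u x t‖ ≤ K * (T - t) ^ (1 / (2 * α) - 1)) ∧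
        ∀ M : ℝ, ∃ t ∈ Ico 0 T, ∃ x, M < ‖u x t‖) ∧
      ¬∃ u p, IsSolutionOn (symDiss ν D) u0 (Ici 0) u p := by
  obtain ⟨G, rfl, hK⟩ := exists_geo h1 h2 ⌈δ⁻¹⌉₊
  obtain ⟨β, hβ, fin, hb⟩ := bound G
  refine ⟨sig G, G.Cb, symb_sig.ell, fun R => (sig_sparse R).trans ?_, sig_scale, sig_div,
    Sz.blowup_all (Sz.wk_of symb_sig.ell h1 h2.le) (fin.subset fun k hk h0 => hk ?_)
      (isReal_of_adm hβ) (divFree_of_adm hβ) hb⟩
  · have a : δ⁻¹ ≤ G.t := (Nat.le_ceil _).trans (by rw [Geo.t]; exact_mod_cast hK)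
    rw [div_eq_inv_mul]
    exact mul_le_mul_of_nonneg_right (inv_le_of_inv_le₀ hδ a) (by positivity)
  · beta_reduce
    rw [h0]
    ext i
    simp [rc]

end

end Pool.Agent.Work.MP_6bf1e5_an.Hyp.Pd
end
end
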